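import Pool.Agent.P.MP_874adf_gt.Gn.Defs

/-! The real-variable core of the linear growth of the level. -/

set_option autoImplicit false

namespace Pool.Agent.P.MP_874adf_gt.Gn

open Pool.Agent.P.MP_874adf_gt.Fs

/-- an additive nondecreasing function on the half line is linear -/
lemma add_lin (φ : ℝ → ℝ) (h0 : φ 0 = 0) (ha : ∀ t u, 0 ≤ t → 0 ≤ u → φ (t + u) = φ t + φ u)
    (hm : ∀ t u, 0 ≤ t → t ≤ u → φ t ≤ φ u) (t : ℝ) (ht : 0 ≤ t) : φ t = φ 1 * t := by
  have hn : ∀ (n : ℕ) (u : ℝ), 0 ≤ u → φ (n * u) = n * φ u := by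
    intro n u hu
    induction n with
    | zero => simp [h0]
    | succ n ih =>
      have e : ((n + 1 : ℕ) : ℝ) * u = n * u + u := by push_cast; ring
      rw [e, ha _ _ (by positivity) hu, ih]
      push_cast; ring
  have h1 : 0 ≤ φ 1 := by
    have := hm 0 1 le_rfl zero_le_one
    rwa [h0] at this
  have key : ∀ n : ℕ, (n : ℝ) * |φ t - φ 1 * t| ≤ φ 1 := by
    intro n
    have hnt : 0 ≤ (n : ℝ) * t := by positivity
    have a1 := Nat.floor_le hnt
    have a2 := (Nat.lt_floor_add_one ((n : ℝ) * t)).le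
    set m := ⌊(n : ℝ) * t⌋₊ with hmdef
    have b1 := hm (m * 1) (n * t) (by positivity) (by simpa using a1)
    have b2 := hm (n * t) (((m + 1 : ℕ) : ℝ) * 1) hnt (by push_cast; simpa using a2)
    rw [hn m 1 zero_le_one, hn n t ht] at b1
    rw [hn (m + 1) 1 zero_le_one, hn n t ht] at b2
    push_cast at b2
    have c1 := mul_le_mul_of_nonneg_left a1 h1
    have c2 := mul_le_mul_of_nonneg_left a2 h1
    have e : (n : ℝ) * |φ t - φ 1 * t| = |(n : ℝ) * φ t - φ 1 * (n * t)| := by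
      have e0 : (n : ℝ) * φ t - φ 1 * (n * t) = n * (φ t - φ 1 * t) := by ring
      rw [e0, abs_mul, Nat.abs_cast]
    rw [e, abs_le]
    constructor <;> nlinarith
  by_contra hne
  have hp : 0 < |φ t - φ 1 * t| := abs_pos.2 (sub_ne_zero.2 hne)
  obtain ⟨n, hn'⟩ := exists_nat_gt (φ 1 / |φ t - φ 1 * t|)
  have := key n
  rw [div_lt_iff₀ hp] at hn'
  linarith

lemma add_core (g : P → ℝ) (e v : P) (h : ℝ) (hh : 0 < h)
    (he : ∀ (y : P) (c : ℝ), g (y + c • e) = g y + c * h)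
    (hb : ∀ (y : P) (t : ℝ), 0 ≤ t → |g (y + t • v) - g y| ≤ t)
    (hc : ∀ (y y2 : P) (t t2 : ℝ), 0 < t → 0 < t2 → g y2 < g y → g (y + t • v) < g (y2 + t2 • v) →
      t - (g (y + t • v) - g y) ≤ t2 - (g (y2 + t2 • v) - g y2)) :
    ∃ lam : ℝ, 0 ≤ lam ∧ lam ≤ 1 ∧ ∀ (y : P) (t : ℝ), 0 ≤ t → g (y + t • v) = g y + lam * t := by
  have A : ∀ (y y2 : P) (t t2 : ℝ), 0 < t → 0 < t2 →
      g (y + t • v) - g y < g (y2 + t2 • v) - g y2 → t < t2 := by
    intro y y2 t t2 ht ht2 hlt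
    set η := ((g (y2 + t2 • v) - g y2) - (g (y + t • v) - g y)) / 2 with hη
    have hη0 : 0 < η := by rw [hη]; linarith
    set c := (g y - η - g y2) / h with hcdef
    have hch : c * h = g y - η - g y2 := by rw [hcdef]; field_simp
    have e1 : g (y2 + c • e) = g y - η := by rw [he, hch]; ring
    have e2 : g (y2 + c • e + t2 • v) = g (y2 + t2 • v) + (g y - η - g y2) := by
      rw [add_right_comm, he, hch]
    have := hc y (y2 + c • e) t t2 ht ht2 (by rw [e1]; linarith) (by rw [e2]; linarith)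
    rw [e1, e2] at this
    linarith
  have B : ∀ (y : P) (t : ℝ), 0 ≤ t → g (y + t • v) - g y = g (0 + t • v) - g 0 := by
    intro y t ht
    rcases ht.eq_or_lt with rfl | ht
    · simp
    · rcases lt_trichotomy (g (y + t • v) - g y) (g (0 + t • v) - g 0) with h1 | h1 | h1
      · exact absurd (A _ _ _ _ ht ht h1) (lt_irrefl _)
      · exact h1
      · exact absurd (A _ _ _ _ ht ht h1) (lt_irrefl _)
  set φ : ℝ → ℝ := fun t => g (0 + t • v) - g 0 with hφ
  have B' : ∀ (y : P) (t : ℝ), 0 ≤ t → g (y + t • v) - g y = φ t := B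
  have h0 : φ 0 = 0 := by simp [hφ]
  have ha : ∀ t u, 0 ≤ t → 0 ≤ u → φ (t + u) = φ t + φ u := by
    intro t u ht hu
    rw [← B' 0 (t + u) (by positivity), ← B' 0 t ht, ← B' (0 + t • v) u hu, add_smul, add_assoc]
    ring
  have hm1 : ∀ t u, 0 < t → t ≤ u → φ t ≤ φ u := by
    intro t u ht htu
    by_contra hlt
    have := A 0 0 u t (ht.trans_le htu) ht (not_le.1 hlt)
    linarith
  have hm : ∀ t u, 0 ≤ t → t ≤ u → φ t ≤ φ u := by
    intro t u ht htu
    rcases ht.eq_or_lt with rfl | ht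
    · rcases htu.eq_or_lt with rfl | hu
      · exact le_rfl
      · have := hm1 u (u + u) hu (by linarith)
        rw [ha u u hu.le hu.le] at this
        rw [h0]; linarith
    · exact hm1 t u ht htu
  refine ⟨φ 1, ?_, ?_, fun y t ht => ?_⟩
  · have := hm 0 1 le_rfl zero_le_one
    rwa [h0] at this
  · exact (abs_le.1 (hb 0 1 zero_le_one)).2
  · have := B' y t ht
    rw [add_lin φ h0 ha hm t ht] at this
    linarith

end Pool.Agent.P.MP_874adf_gt.Gn
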