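import Pool.Agent.P.MP_874adf_gt.Gn.MvA

/-! Basic facts on lines, Crofton measures and systems of places. -/

set_option autoImplicit false

namespace Pool.Agent.P.MP_874adf_gt.Gn

open Pool.Agent.P.MP_874adf_gt.Fs Set Filter Topology Metric MeasureTheory

/-! ### lines -/

lemma pr_add (θ : ℝ) (y z : P) : pr θ (y + z) = pr θ y + pr θ z := by
  simp only [pr, Prod.fst_add, Prod.snd_add]; ring
lemma pr_sub (θ : ℝ) (y z : P) : pr θ (y - z) = pr θ y - pr θ z := by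
  simp only [pr, Prod.fst_sub, Prod.snd_sub]; ring
lemma pr_smul (θ t : ℝ) (y : P) : pr θ (t • y) = t * pr θ y := by
  simp only [pr, Prod.smul_fst, Prod.smul_snd, smul_eq_mul]; ring
lemma pr_abs_le (θ : ℝ) (y : P) : |pr θ y| ≤ (1 + |θ|) * ‖y‖ := by
  have h1 : |y.1| ≤ ‖y‖ := norm_fst_le y
  have h2 : |y.2| ≤ ‖y‖ := norm_snd_le y
  have h3 := abs_sub y.1 (θ * y.2)
  rw [abs_mul] at h3
  have := mul_le_mul_of_nonneg_left h2 (abs_nonneg θ)
  unfold pr
  linarith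
lemma pr_sl {y X : P} (h : y.2 ≠ X.2) (θ : ℝ) : pr θ X - pr θ y = (y.2 - X.2) * (θ - sl y X) :=
  MOVaux.side (sub_ne_zero.2 h)
lemma sp_comm (y z : P) : sp y z = sp z y := MOVaux.sp_comm y z
lemma sp_self (y : P) : sp y y = ∅ := by simp [sp]
lemma sp_meas (y z : P) : MeasurableSet (sp y z) := MOVaux.meas_sp y z
lemma ind_meas (y : P) : Measurable fun l : ℝ × ℝ => ind l y :=
  Measurable.ite (MOVaux.meas_lt y) measurable_const measurable_const
lemma win_meas {J : Set ℝ} (hJ : MeasurableSet J) (x : P) (s : ℝ) :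
    MeasurableSet {l : ℝ × ℝ | l.2 ∈ J ∧ |l.1 - pr l.2 x| ≤ s} := by
  have m : Measurable fun l : ℝ × ℝ => |l.1 - pr l.2 x| := by
    unfold pr
    fun_prop
  exact (measurable_snd hJ).inter (measurableSet_le m measurable_const)
lemma sp_trans (x y z : P) : sp x z ⊆ sp x y ∪ sp y z := by
  intro l
  simp only [sp, mem_ofPred_eq, mem_union]
  tauto
/-- a separating line passes through a point of the segment -/
lemma sp_cross {y z : P} {l : ℝ × ℝ} (h : l ∈ sp y z) : ∃ w ∈ segment ℝ y z, l.1 = pr l.2 w :=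
  (MOVaux.line_pt h).imp fun _ hw => ⟨hw.1, hw.2.symm⟩
lemma sp_near {x y z : P} {r : ℝ} (hy : y ∈ closedBall x r) (hz : z ∈ closedBall x r) {l : ℝ × ℝ}
    (h : l ∈ sp y z) : |l.1 - pr l.2 x| ≤ (1 + |l.2|) * r := by
  obtain ⟨w, hw, e⟩ := sp_cross h
  rw [e]
  exact MOVaux.pr_le le_rfl ((convex_closedBall x r).segment_subset hy hz hw)
/-- a line through `w` that separates two points below (or above) `w` has its slope between their slopes -/
lemma sp_slope {σ : ℝ} (hσ : Sg σ) {w X X' : P} (h1 : 0 < σ * (w.2 - X.2)) (h2 : 0 < σ * (w.2 - X'.2))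
    {l : ℝ × ℝ} (hw : l.1 = pr l.2 w) (h : l ∈ sp X X') : l.2 ∈ uIcc (sl w X) (sl w X') :=
  mem_uIcc.2 (MOVaux.slope_le hσ hw.symm h h1 h2)
lemma sp_of_slope {σ : ℝ} (hσ : Sg σ) {w X X' : P} (h1 : 0 < σ * (w.2 - X.2))
    (h2 : 0 < σ * (w.2 - X'.2)) {l : ℝ × ℝ} (hw : l.1 = pr l.2 w) (a : sl w X < l.2)
    (b : l.2 < sl w X') : l ∈ sp X X' := by
  have n1 : w.2 ≠ X.2 := fun e => by simp [e] at h1
  have n2 : w.2 ≠ X'.2 := fun e => by simp [e] at h2
  have e1 := pr_sl n1 l.2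
  have e2 := pr_sl n2 l.2
  intro c
  rw [hw] at c
  rcases hσ with rfl | rfl
  · have q1 := mul_pos (by linarith : 0 < w.2 - X.2) (sub_pos.2 a)
    have q2 := mul_neg_of_pos_of_neg (by linarith : 0 < w.2 - X'.2) (sub_neg.2 b)
    linarith [c.1 (by linarith)]
  · have q1 := mul_neg_of_neg_of_pos (by linarith : w.2 - X.2 < 0) (sub_pos.2 a)
    have q2 := mul_pos_of_neg_of_neg (by linarith : w.2 - X'.2 < 0) (sub_neg.2 b)
    linarith [c.2 (by linarith)]
/-- a line that separates `y` from a point beyond it on the ray from `X` does not separate `X` and `y` -/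
lemma sp_side {X y : P} {α : ℝ} (hα : 0 ≤ α) {l : ℝ × ℝ} (h : l ∈ sp y (y + α • (y - X))) :
    l ∉ sp X y := by
  intro c
  simp only [sp, mem_ofPred_eq, pr_add, pr_smul, pr_sub] at h c
  by_cases a : l.1 < pr l.2 y
  · have b : pr l.2 X ≤ l.1 := not_lt.1 fun b => c (iff_of_true b a)
    have := mul_nonneg hα (by linarith : 0 ≤ pr l.2 y - pr l.2 X)
    exact h (iff_of_true a (by linarith))
  · have b : l.1 < pr l.2 X := not_not.1 fun b => c (iff_of_false b a)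
    have a' := not_lt.1 a
    have := mul_nonneg hα (by linarith : 0 ≤ pr l.2 X - pr l.2 y)
    exact h (iff_of_false a (not_lt.2 (by linarith)))
lemma mw_nonneg (μ : Measure (ℝ × ℝ)) (J : Set ℝ) (x : P) (s : ℝ) : 0 ≤ mw μ J x s :=
  measureReal_nonneg
lemma mw_mono (μ : Measure (ℝ × ℝ)) [IsFiniteMeasure μ] {J J' : Set ℝ} (hJ : J ⊆ J') (x : P) {s s' : ℝ}
    (hs : s ≤ s') : mw μ J x s ≤ mw μ J' x s' :=
  measureReal_mono fun _ hl => ⟨hJ hl.1, hl.2.trans hs⟩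
lemma mw_shift (μ : Measure (ℝ × ℝ)) [IsFiniteMeasure μ] {J : Set ℝ} {x y : P} {s t : ℝ}
    (h : ∀ θ ∈ J, |pr θ (y - x)| ≤ t) : mw μ J x s ≤ mw μ J y (s + t) :=
  measureReal_mono fun l hl => ⟨hl.1, by
    have a := h _ hl.1
    have b := hl.2
    rw [pr_sub] at a
    rw [abs_le] at a b ⊢
    constructor <;> linarith [a.1, a.2, b.1, b.2]⟩
lemma mw_union (μ : Measure (ℝ × ℝ)) [IsFiniteMeasure μ] (J J' : Set ℝ) (x : P) (s : ℝ) :
    mw μ (J ∪ J') x s ≤ mw μ J x s + mw μ J' x s := by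
  refine le_trans ?_ (measureReal_union_le _ _)
  exact measureReal_mono fun l hl => hl.1.imp (fun a => ⟨a, hl.2⟩) fun a => ⟨a, hl.2⟩
/-- covering a horizontal segment by `2 m + 1` short ones -/
lemma mw_cover (μ : Measure (ℝ × ℝ)) [IsFiniteMeasure μ] (J : Set ℝ) (x : P) {s B : ℝ} (hs : 0 < s)
    (m : ℕ) (h : ∀ t : ℝ, |t| ≤ m * s → mw μ J (x + (t, 0)) s ≤ B) :
    mw μ J x (m * s) ≤ (2 * m + 1) * B := by
  have a : mw μ J x (m * s) ≤ μ.real (⋃ j ∈ Finset.range (2 * m + 1),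
      {l : ℝ × ℝ | l.2 ∈ J ∧ |l.1 - pr l.2 (x + (((j : ℝ) - m) * s, 0))| ≤ s}) := by
    refine measureReal_mono (fun l hl => ?_) (measure_ne_top _ _)
    have b := abs_le.1 hl.2
    set q := (l.1 - pr l.2 x) / s + m with hq
    have e : l.1 - pr l.2 x = (q - m) * s := by rw [hq]; field_simp; ring
    have q0 : 0 ≤ q := by nlinarith [b.1]
    have q1 : q ≤ 2 * m := by nlinarith [b.2]
    have f1 := Nat.floor_le q0
    have f2 := Nat.lt_floor_add_one q
    simp only [mem_iUnion, Finset.mem_range, mem_ofPred_eq]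
    refine ⟨⌊q⌋₊, ?_, hl.1, ?_⟩
    · have : (⌊q⌋₊ : ℝ) < ((2 * m + 1 : ℕ) : ℝ) := by push_cast; linarith
      exact_mod_cast this
    · rw [pr_add, ← sub_sub, e]
      simp only [pr, mul_zero, sub_zero]
      rw [abs_le]
      constructor <;> nlinarith
  refine a.trans ((measureReal_biUnion_finset_le _ _).trans ?_)
  refine (Finset.sum_le_card_nsmul _ _ B fun j hj => h _ ?_).trans (by simp)
  have : (j : ℝ) ≤ ((2 * m : ℕ) : ℝ) := by exact_mod_cast Nat.lt_succ_iff.1 (Finset.mem_range.1 hj)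
  push_cast at this
  rw [abs_mul, abs_of_pos hs]
  exact mul_le_mul_of_nonneg_right (abs_le.2 ⟨by linarith [Nat.cast_nonneg (α := ℝ) j], by linarith⟩)
    hs.le

/-! ### the Crofton formula -/

section
variable {d : P → P → ℝ} {x : P} {ρ : ℝ} {μ : Measure (ℝ × ℝ)} {Ψ : ℝ → ℝ}

lemma Crof.diff (c : Crof d x ρ μ Ψ) {X y z : P} (hX : X ∈ ball x ρ) (hy : y ∈ ball x ρ)
    (hz : z ∈ ball x ρ) : d X z - d X y = μ.real (sp y z ∩ sp X z) - μ.real (sp y z ∩ sp X y) +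
      (|Ψ z.2 - Ψ X.2| - |Ψ y.2 - Ψ X.2|) := by
  have := c.fin
  have a1 := measureReal_inter_add_sdiff (μ := μ) (s := sp X z) (sp_meas y z)
  have a2 := measureReal_inter_add_sdiff (μ := μ) (s := sp X y) (sp_meas y z)
  have e : sp X z \ sp y z = sp X y \ sp y z := by
    ext l
    simp only [sp, mem_ofPred_eq, Set.mem_sdiff]
    tauto
  rw [e, inter_comm] at a1
  rw [inter_comm] at a2
  rw [c.eq X hX z hz, c.eq X hX y hy]
  linarith
lemma Crof.diff_int (c : Crof d x ρ μ Ψ) {X y z : P} (hX : X ∈ ball x ρ) (hy : y ∈ ball x ρ)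
    (hz : z ∈ ball x ρ) : d X z - d X y = ∫ l, (ind l z - ind l y) * (1 - 2 * ind l X) ∂μ +
      (|Ψ z.2 - Ψ X.2| - |Ψ y.2 - Ψ X.2|) := by
  have := c.fin
  have m1 := (sp_meas y z).inter (sp_meas X z)
  have m2 := (sp_meas y z).inter (sp_meas X y)
  rw [c.diff hX hy hz, ← integral_indicator_one m1, ← integral_indicator_one m2,
    ← integral_sub (f := (sp y z ∩ sp X z).indicator 1) (g := (sp y z ∩ sp X y).indicator 1)
      ((integrable_const (1 : ℝ)).indicator m1) ((integrable_const (1 : ℝ)).indicator m2)]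
  congr 2
  ext l
  simp only [indicator, ind, sp, mem_inter_iff, mem_ofPred_eq]
  by_cases a : l.1 < pr l.2 X <;> by_cases b : l.1 < pr l.2 y <;> by_cases e : l.1 < pr l.2 z <;>
    simp [a, b, e] <;> norm_num
/-- the defect of the triangle inequality when `y` has an intermediate height -/
lemma Crof.defect (c : Crof d x ρ μ Ψ) {X y z : P} (hX : X ∈ ball x ρ) (hy : y ∈ ball x ρ)
    (hz : z ∈ ball x ρ) (h : y.2 ∈ uIcc X.2 z.2) :
    d X y + d y z - d X z = 2 * μ.real (sp y z ∩ sp X y) := by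
  have := c.fin
  have a := c.diff hX hy hz
  have a1 := measureReal_inter_add_sdiff (μ := μ) (s := sp y z) (sp_meas X y)
  have e : sp y z \ sp X y = sp y z ∩ sp X z := by
    ext l
    simp only [sp, mem_ofPred_eq, Set.mem_sdiff, mem_inter_iff]
    tauto
  rw [e] at a1
  have b : |Ψ z.2 - Ψ X.2| = |Ψ y.2 - Ψ X.2| + |Ψ z.2 - Ψ y.2| := by
    rcases mem_uIcc.1 h with ⟨h1, h2⟩ | ⟨h1, h2⟩
    · have q1 := c.mono h1
      have q2 := c.mono h2
      rw [abs_of_nonneg, abs_of_nonneg, abs_of_nonneg] <;> linarith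
    · have q1 := c.mono h1
      have q2 := c.mono h2
      rw [abs_of_nonpos, abs_of_nonpos, abs_of_nonpos] <;> linarith
  rw [c.eq y hy z hz]
  linarith
lemma psi_side (h : Monotone Ψ) {σ a b : ℝ} (hσ : Sg σ) (hab : 0 ≤ σ * (b - a)) :
    |Ψ b - Ψ a| = σ * (Ψ b - Ψ a) := by
  rcases hσ with rfl | rfl
  · rw [one_mul, abs_of_nonneg (sub_nonneg.2 (h (by linarith)))]
  · rw [abs_of_nonpos (sub_nonpos.2 (h (by linarith)))]
    ring
lemma sp_split (μ : Measure (ℝ × ℝ)) [IsFiniteMeasure μ] (X X' y z : P) :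
    μ.real (sp y z ∩ sp X z) =
      μ.real (sp y z ∩ sp X X' ∩ sp X z) + μ.real ((sp y z \ sp X X') ∩ sp X z) ∧
    μ.real (sp y z ∩ sp X' z) =
      μ.real (sp y z ∩ sp X X' ∩ sp X y) + μ.real ((sp y z \ sp X X') ∩ sp X z) := by
  constructor
  · rw [← measureReal_inter_add_sdiff (s := sp y z ∩ sp X z) (sp_meas X X')]
    congr 2 <;> ext l <;> simp only [sp, mem_ofPred_eq, Set.mem_sdiff, mem_inter_iff] <;> tauto
  · rw [← measureReal_inter_add_sdiff (s := sp y z ∩ sp X' z) (sp_meas X X')]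
    congr 2 <;> ext l <;> simp only [sp, mem_ofPred_eq, Set.mem_sdiff, mem_inter_iff] <;> tauto
/-- two base points on the same side -/
lemma Crof.two (c : Crof d x ρ μ Ψ) {σ : ℝ} (hσ : Sg σ) {X X' y z : P} (hX : X ∈ ball x ρ)
    (hX' : X' ∈ ball x ρ) (hy : y ∈ ball x ρ) (hz : z ∈ ball x ρ) (h1 : 0 ≤ σ * (y.2 - X.2))
    (h2 : 0 ≤ σ * (z.2 - X.2)) (h3 : 0 ≤ σ * (y.2 - X'.2)) (h4 : 0 ≤ σ * (z.2 - X'.2)) :
    d X z - d X y - (d X' z - d X' y) =
      2 * (μ.real (sp y z ∩ sp X X' ∩ sp X z) - μ.real (sp y z ∩ sp X X' ∩ sp X y)) := by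
  have := c.fin
  obtain ⟨a1, a2⟩ := sp_split μ X X' y z
  obtain ⟨a3, a4⟩ := sp_split μ X X' z y
  rw [sp_comm z y] at a3 a4
  rw [c.diff hX hy hz, c.diff hX' hy hz, psi_side c.mono hσ h1, psi_side c.mono hσ h2,
    psi_side c.mono hσ h3, psi_side c.mono hσ h4]
  linarith
/-- two base points on opposite sides -/
lemma Crof.opp (c : Crof d x ρ μ Ψ) {X X' y z : P} (hX : X ∈ ball x ρ)
    (hX' : X' ∈ ball x ρ) (hy : y ∈ ball x ρ) (hz : z ∈ ball x ρ) (h1 : X.2 ≤ y.2)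
    (h2 : X.2 ≤ z.2) (h3 : y.2 ≤ X'.2) (h4 : z.2 ≤ X'.2) :
    |d X z - d X y + (d X' z - d X' y)| ≤ 2 * μ.real (sp y z \ sp X X') := by
  have := c.fin
  obtain ⟨a1, a2⟩ := sp_split μ X X' y z
  obtain ⟨a3, a4⟩ := sp_split μ X X' z y
  rw [sp_comm z y] at a3 a4
  have b1 : μ.real ((sp y z \ sp X X') ∩ sp X z) ≤ μ.real (sp y z \ sp X X') :=
    measureReal_mono inter_subset_left
  have b2 : μ.real ((sp y z \ sp X X') ∩ sp X y) ≤ μ.real (sp y z \ sp X X') :=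
    measureReal_mono inter_subset_left
  have b3 : 0 ≤ μ.real ((sp y z \ sp X X') ∩ sp X z) := measureReal_nonneg
  have b4 : 0 ≤ μ.real ((sp y z \ sp X X') ∩ sp X y) := measureReal_nonneg
  rw [c.diff hX hy hz, c.diff hX' hy hz, abs_of_nonneg (sub_nonneg.2 (c.mono h1)),
    abs_of_nonneg (sub_nonneg.2 (c.mono h2)), abs_of_nonpos (sub_nonpos.2 (c.mono h3)),
    abs_of_nonpos (sub_nonpos.2 (c.mono h4)), abs_le]
  constructor <;> linarith
end

lemma hf_diff (d : P → P → ℝ) {D : Dat} (h : dr D ≠ 1) (y z : P) : hf d D z - hf d D y =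
    (d (dA D) z - d (dA D) y - (d (dO D) z - d (dO D) y)) +
      dr D / (1 - dr D) * (d (dA D) z - d (dA D) y - (d (dB D) z - d (dB D) y)) := by
  have : 1 - dr D ≠ 0 := sub_ne_zero.2 h.symm
  simp only [hf, Vf]
  field_simp
  ring

end Pool.Agent.P.MP_874adf_gt.Gn
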