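import Pool.Agent.P.MP_874adf_gt.Gn.BasL

/-! Basic facts on lines, Crofton measures and systems of places. -/

set_option autoImplicit false

namespace Pool.Agent.P.MP_874adf_gt.Gn

open Pool.Agent.P.MP_874adf_gt.Fs Set Filter Topology Metric MeasureTheory

/-! ### systems -/

namespace Sys
variable {c : Ctx} {ι : Type} (S : Sys c ι)

lemma ev_ball (k : ℝ) {ρ : ℝ} (hρ : 0 < ρ) : ∀ᶠ i in (S.U : Filter ι), S.B k i ⊆ ball (0 : P) ρ ∧
    k * S.s i < ρ := by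
  have h1 : ∀ᶠ i in (S.U : Filter ι), S.x i ∈ ball (0 : P) (ρ / 2) :=
    S.tx (ball_mem_nhds _ (by positivity))
  have h2 : Tendsto (fun i => k * S.s i) S.U (𝓝 (k * 0)) := S.ts.const_mul k
  have h3 : ∀ᶠ i in (S.U : Filter ι), k * S.s i < ρ / 2 :=
    h2.eventually (gt_mem_nhds (by rw [mul_zero]; positivity))
  filter_upwards [h1, h3] with i a b
  refine ⟨fun y hy => ?_, by linarith⟩
  have hy' : dist y (S.x i) ≤ k * S.s i := hy
  have a' : dist (S.x i) 0 < ρ / 2 := a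
  have := dist_triangle y (S.x i) 0
  show dist y 0 < ρ
  linarith

lemma bass_sub {k k' : ℝ} (h : k ≤ k') (i : ι) : S.B k i ⊆ S.B k' i :=
  closedBall_subset_closedBall (mul_le_mul_of_nonneg_right h (S.s0 i).le)

lemma bass_up (R : Reg c) (T : ℝ) {k : ℝ} (hk : 1 ≤ k) : ∃ C > (0 : ℝ),
    ∀ᶠ i in (S.U : Filter ι), ∀ y ∈ S.B k i, mT c.μ T y (k * S.s i) ≤ C * S.N i := by
  have := c.crof.fin
  obtain ⟨C, hC, ρ, hρ, h⟩ := R.cmp T (-c.T0) (1 - c.T0) (by linarith) c.neg k hk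
  obtain ⟨C', hC', h'⟩ := S.cmp
  refine ⟨C * C', by positivity, ?_⟩
  filter_upwards [h', S.ev_ball k hρ] with i a b y hy
  have s0 := S.s0 i
  have e1 : S.s i ≤ k * S.s i := le_mul_of_one_le_left s0.le hk
  have hx : S.x i ∈ closedBall y (k * S.s i) := by
    rw [mem_closedBall, dist_comm]; exact hy
  have e2 := h y (b.1 hy) (S.s i) s0 (by linarith [b.2]) (S.x i) hx
  have e3 : mw c.μ (Icc (-c.T0) (1 - c.T0)) (S.x i) (S.s i / k) ≤ mT c.μ c.T0 (S.x i) (S.s i) :=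
    mw_mono c.μ (Icc_subset_Icc le_rfl (by linarith [c.t0])) _ (div_le_self s0.le hk)
  calc mT c.μ T y (k * S.s i) ≤ C * mw c.μ (Icc (-c.T0) (1 - c.T0)) (S.x i) (S.s i / k) := e2
    _ ≤ C * (C' * S.N i) := mul_le_mul_of_nonneg_left (e3.trans a.1) hC.le
    _ = C * C' * S.N i := by ring

lemma up (R : Reg c) (T k : ℝ) : ∃ C > (0 : ℝ), ∀ᶠ i in (S.U : Filter ι), ∀ y ∈ S.B k i,
    mT c.μ T y (k * S.s i) ≤ C * S.N i := by
  have := c.crof.fin
  obtain ⟨C, hC, h⟩ := S.bass_up R T (le_max_right k 1)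
  refine ⟨C, hC, ?_⟩
  filter_upwards [h] with i a y hy
  refine le_trans ?_ (a y (S.bass_sub (le_max_left k 1) i hy))
  exact mw_mono c.μ Subset.rfl _ (mul_le_mul_of_nonneg_right (le_max_left k 1) (S.s0 i).le)

lemma low (R : Reg c) {a b : ℝ} (hab : a < b) (hb : Neg (ln c.G) b) {k : ℝ} (hk : 1 ≤ k) :
    ∃ κ > (0 : ℝ), ∀ᶠ i in (S.U : Filter ι), ∀ y ∈ S.B k i,
      κ * S.N i ≤ mw c.μ (Icc a b) y (S.s i / k) := by
  have := c.crof.fin
  obtain ⟨C, hC, ρ, hρ, h⟩ := R.cmp c.T0 a b hab hb k hk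
  obtain ⟨C', hC', h'⟩ := S.cmp
  refine ⟨(C' * C)⁻¹, by positivity, ?_⟩
  filter_upwards [h', S.ev_ball k hρ] with i e f y hy
  have s0 := S.s0 i
  have e1 : S.s i ≤ k * S.s i := le_mul_of_one_le_left s0.le hk
  have hx : S.x i ∈ S.B k i := mem_closedBall_self (by positivity)
  have e2 := h (S.x i) (f.1 hx) (S.s i) s0 (by linarith [f.2]) y hy
  have e3 : mT c.μ c.T0 (S.x i) (S.s i) ≤ mT c.μ c.T0 (S.x i) (k * S.s i) :=
    mw_mono c.μ Subset.rfl _ e1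
  rw [inv_mul_le_iff₀ (by positivity)]
  calc S.N i ≤ C' * mT c.μ c.T0 (S.x i) (S.s i) := e.2
    _ ≤ C' * (C * mw c.μ (Icc a b) y (S.s i / k)) :=
        mul_le_mul_of_nonneg_left (e3.trans e2) hC'.le
    _ = C' * C * mw c.μ (Icc a b) y (S.s i / k) := by ring

lemma small (R : Reg c) (T k : ℝ) {ε : ℝ} (hε : 0 < ε) : ∃ η > (0 : ℝ), ∀ᶠ i in (S.U : Filter ι),
    ∀ y ∈ S.B k i, mT c.μ T y (η * S.s i) ≤ ε * S.N i := by
  have := c.crof.fin
  have hk : 1 ≤ max k 1 := le_max_right k 1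
  obtain ⟨C, hC, h⟩ := S.bass_up R c.T0 hk
  obtain ⟨η, hη, ρ, hρ, h'⟩ := R.lg T (ε / C) (by positivity)
  refine ⟨η, hη, ?_⟩
  filter_upwards [h, S.ev_ball (max k 1) hρ] with i a b y hy
  have s0 := S.s0 i
  have hy' := S.bass_sub (le_max_left k 1) i hy
  have e1 : S.s i ≤ max k 1 * S.s i := le_mul_of_one_le_left s0.le hk
  have e2 := h' y (b.1 hy') (S.s i) s0 (by linarith [b.2])
  have e3 : mT c.μ c.T0 y (S.s i) ≤ mT c.μ c.T0 y (max k 1 * S.s i) :=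
    mw_mono c.μ Subset.rfl _ e1
  calc mT c.μ T y (η * S.s i) ≤ ε / C * mT c.μ c.T0 y (S.s i) := e2
    _ ≤ ε / C * (C * S.N i) := mul_le_mul_of_nonneg_left (e3.trans (a y hy')) (by positivity)
    _ = ε * S.N i := by field_simp
end Sys

end Pool.Agent.P.MP_874adf_gt.Gn
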