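import Pool.Agent.P.MP_874adf_gt.Gn.Defs

/-! Lines that separate two pairs of points. -/

set_option autoImplicit false

namespace Pool.Agent.P.MP_874adf_gt.Gn

open Pool.Agent.P.MP_874adf_gt.Fs Set Filter Topology Metric MeasureTheory

namespace MOVaux

lemma meas_lt (y : P) : MeasurableSet {l : ℝ × ℝ | l.1 < pr l.2 y} := by
  apply IsOpen.measurableSet
  apply isOpen_lt continuous_fst
  unfold pr
  fun_prop

lemma meas_sp (y z : P) : MeasurableSet (sp y z) :=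
  ((meas_lt y).iff (meas_lt z)).compl

lemma four (μ : Measure (ℝ × ℝ)) [IsFiniteMeasure μ] (X X' y z : P) :
    μ.real (sp X z) - μ.real (sp X y) - (μ.real (sp X' z) - μ.real (sp X' y)) ≤
      2 * μ.real (sp y z ∩ sp X X') := by
  set G := sp y z ∩ sp X X' with hG
  have mG : MeasurableSet G := (meas_sp y z).inter (meas_sp X X')
  have e1 := measureReal_inter_add_sdiff (μ := μ) (s := sp X z) mG
  have e2 := measureReal_inter_add_sdiff (μ := μ) (s := sp X' y) mG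
  have l1 : μ.real (sp X z ∩ G) ≤ μ.real G := measureReal_mono inter_subset_right
  have l2 : μ.real (sp X' y ∩ G) ≤ μ.real G := measureReal_mono inter_subset_right
  have l3 : μ.real (sp X y \ G) ≤ μ.real (sp X y) := measureReal_mono sdiff_subset
  have l4 : μ.real (sp X' z \ G) ≤ μ.real (sp X' z) := measureReal_mono sdiff_subset
  have u1 := measureReal_union_add_inter (μ := μ) (s := sp X z \ G) ((meas_sp X' y).diff mG)
  have u2 := measureReal_union_add_inter (μ := μ) (s := sp X y \ G) ((meas_sp X' z).diff mG)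
  have s1 : sp X z \ G ∪ sp X' y \ G = sp X y \ G ∪ sp X' z \ G := by
    ext l
    simp only [hG, sp, mem_union, Set.mem_sdiff, mem_inter_iff, mem_ofPred_eq]
    tauto
  have s2 : sp X z \ G ∩ (sp X' y \ G) = sp X y \ G ∩ (sp X' z \ G) := by
    ext l
    simp only [hG, sp, Set.mem_sdiff, mem_inter_iff, mem_ofPred_eq]
    tauto
  rw [s1, s2] at u1
  linarith

lemma sp_comm (y z : P) : sp y z = sp z y := by
  ext l
  simp only [sp, mem_ofPred_eq]
  tauto

lemma psi {Ψ : ℝ → ℝ} (h : Monotone Ψ) {σ a b : ℝ} (hσ : Sg σ) (hab : 0 < σ * (b - a)) :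
    |Ψ b - Ψ a| = σ * (Ψ b - Ψ a) := by
  rcases hσ with rfl | rfl
  · rw [one_mul, abs_of_nonneg (sub_nonneg.2 (h (by linarith)))]
  · rw [abs_of_nonpos (sub_nonpos.2 (h (by linarith)))]
    ring

/-- two points on the same side see almost the same increments -/
lemma diff_le {d : P → P → ℝ} {x : P} {ρ : ℝ} {μ : Measure (ℝ × ℝ)} {Ψ : ℝ → ℝ}
    (h : Crof d x ρ μ Ψ) {σ : ℝ} (hσ : Sg σ) {X X' y z : P} (hX : X ∈ ball x ρ)
    (hX' : X' ∈ ball x ρ) (hy : y ∈ ball x ρ) (hz : z ∈ ball x ρ)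
    (a1 : 0 < σ * (y.2 - X.2)) (a2 : 0 < σ * (z.2 - X.2)) (a3 : 0 < σ * (y.2 - X'.2))
    (a4 : 0 < σ * (z.2 - X'.2)) :
    |d X z - d X y - (d X' z - d X' y)| ≤ 2 * μ.real (sp y z ∩ sp X X') := by
  have := h.fin
  rw [h.eq X hX z hz, h.eq X hX y hy, h.eq X' hX' z hz, h.eq X' hX' y hy,
    psi h.mono hσ a1, psi h.mono hσ a2, psi h.mono hσ a3, psi h.mono hσ a4]
  have f1 := four μ X X' y z
  have f2 := four μ X' X y z
  rw [sp_comm X' X] at f2
  rw [abs_le]
  constructor <;> linarith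

lemma line_pt {y z : P} {l : ℝ × ℝ} (h : l ∈ sp y z) : ∃ w ∈ segment ℝ y z, pr l.2 w = l.1 := by
  have key : ∀ y z : P, l.1 < pr l.2 y → pr l.2 z ≤ l.1 → ∃ w ∈ segment ℝ y z, pr l.2 w = l.1 := by
    intro y z h1 h2
    have hp : 0 < pr l.2 y - pr l.2 z := by linarith
    refine ⟨((l.1 - pr l.2 z) / (pr l.2 y - pr l.2 z)) • y +
      ((pr l.2 y - l.1) / (pr l.2 y - pr l.2 z)) • z, ⟨_, _, div_nonneg (by linarith) hp.le,
        div_nonneg (by linarith) hp.le, ?_, rfl⟩, ?_⟩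
    · field_simp
      ring
    · have : ∀ a b : ℝ, pr l.2 (a • y + b • z) = a * pr l.2 y + b * pr l.2 z := by
        intro a b
        simp only [pr, Prod.fst_add, Prod.snd_add, Prod.smul_fst, Prod.smul_snd, smul_eq_mul]
        ring
      rw [this]
      field_simp
      ring
  simp only [sp, mem_ofPred_eq] at h
  by_cases h1 : l.1 < pr l.2 y
  · exact key y z h1 (not_lt.1 fun h2 => h ⟨fun _ => h2, fun _ => h1⟩)
  · have h2 : l.1 < pr l.2 z := by
      by_contra h2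
      exact h ⟨fun a => absurd a h1, fun a => absurd a h2⟩
    rw [segment_symm]
    exact key z y h2 (not_lt.1 h1)

lemma side {w X : P} {θ : ℝ} (h : w.2 - X.2 ≠ 0) :
    pr θ X - pr θ w = (w.2 - X.2) * (θ - sl w X) := by
  unfold pr sl
  field_simp
  ring

lemma slope_le {σ : ℝ} (hσ : Sg σ) {w X X' : P} {l : ℝ × ℝ} (hw : pr l.2 w = l.1)
    (h : l ∈ sp X X') (a1 : 0 < σ * (w.2 - X.2)) (a2 : 0 < σ * (w.2 - X'.2)) :
    (sl w X ≤ l.2 ∧ l.2 ≤ sl w X') ∨ (sl w X' ≤ l.2 ∧ l.2 ≤ sl w X) := by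
  have n1 : w.2 - X.2 ≠ 0 := fun e => by simp [e] at a1
  have n2 : w.2 - X'.2 ≠ 0 := fun e => by simp [e] at a2
  have e1 := side (θ := l.2) n1
  have e2 := side (θ := l.2) n2
  rw [hw] at e1 e2
  simp only [sp, mem_ofPred_eq] at h
  have key : ∀ {A B : P}, 0 < σ * (w.2 - A.2) → 0 < σ * (w.2 - B.2) →
      0 < (w.2 - A.2) * (l.2 - sl w A) → (w.2 - B.2) * (l.2 - sl w B) ≤ 0 →
      (sl w A ≤ l.2 ∧ l.2 ≤ sl w B) ∨ (sl w B ≤ l.2 ∧ l.2 ≤ sl w A) := by
    intro A B b1 b2 c1 c2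
    rcases hσ with rfl | rfl
    · left
      constructor
      · by_contra hh
        nlinarith [not_le.1 hh]
      · by_contra hh
        nlinarith [not_le.1 hh]
    · right
      constructor
      · by_contra hh
        nlinarith [not_le.1 hh]
      · by_contra hh
        nlinarith [not_le.1 hh]
  by_cases h1 : l.1 < pr l.2 X
  · have h2 : pr l.2 X' ≤ l.1 := not_lt.1 fun h2 => h ⟨fun _ => h2, fun _ => h1⟩
    exact key a1 a2 (by linarith) (by linarith)
  · have h2 : l.1 < pr l.2 X' := by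
      by_contra h2
      exact h ⟨fun a => absurd a h1, fun a => absurd a h2⟩
    exact (key a2 a1 (by linarith) (by linarith [not_lt.1 h1])).symm

lemma pr_le {x w : P} {θ T r : ℝ} (hθ : |θ| ≤ T) (hw : w ∈ closedBall x r) :
    |pr θ w - pr θ x| ≤ (1 + T) * r := by
  rw [mem_closedBall, Prod.dist_eq, max_le_iff, Real.dist_eq, Real.dist_eq] at hw
  have e : pr θ w - pr θ x = (w.1 - x.1) - θ * (w.2 - x.2) := by
    unfold pr
    ring
  rw [e]
  have h1 := abs_sub (w.1 - x.1) (θ * (w.2 - x.2))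
  rw [abs_mul] at h1
  have h2 : |θ| * |w.2 - x.2| ≤ T * r :=
    mul_le_mul hθ hw.2 (abs_nonneg _) ((abs_nonneg _).trans hθ)
  linarith [hw.1]

/-- the lines that matter lie in a window -/
lemma win {σ : ℝ} (hσ : Sg σ) {x y z X X' : P} {r T R t g : ℝ} (hy : y ∈ closedBall x r)
    (hz : z ∈ closedBall x r) (hR : (1 + T) * r ≤ R)
    (a : ∀ w ∈ closedBall x r, 0 < σ * (w.2 - X.2) ∧ 0 < σ * (w.2 - X'.2) ∧ |sl w X| ≤ T ∧
      |sl w X'| ≤ T ∧ |sl w X - t| ≤ g ∧ |sl w X' - t| ≤ g) :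
    sp y z ∩ sp X X' ⊆
      {l | l.2 ∈ Icc (t - g) (t + g) ∩ Icc (-T) T ∧ |l.1 - pr l.2 x| ≤ R} := by
  rintro l ⟨h1, h2⟩
  obtain ⟨w, hw, e⟩ := line_pt h1
  have hwb : w ∈ closedBall x r := (convex_closedBall x r).segment_subset hy hz hw
  obtain ⟨a1, a2, a3, a4, a5, a6⟩ := a w hwb
  have hs := slope_le hσ e h2 a1 a2
  rw [abs_le] at a3 a4 a5 a6
  have hT : -T ≤ l.2 ∧ l.2 ≤ T := by
    rcases hs with hs | hs <;> constructor <;> linarith [hs.1, hs.2]
  refine ⟨⟨?_, hT⟩, ?_⟩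
  · rcases hs with hs | hs <;> constructor <;> linarith [hs.1, hs.2]
  · rw [← e]
    exact (pr_le (abs_le.2 hT) hwb).trans hR

end MOVaux

end Pool.Agent.P.MP_874adf_gt.Gn
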