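import Pool.Agent.P.MP_874adf_gt.Gn.IfaceHg0
import Pool.Agent.P.MP_874adf_gt.Gn.MvA

/-! Limits along an ultrafilter and weighted masses of lines. -/

set_option autoImplicit false

namespace Pool.Agent.P.MP_874adf_gt.Gn

open Pool.Agent.P.MP_874adf_gt.Fs Set Filter Topology Metric MeasureTheory

namespace HgU

/-- an asymptotically equicontinuous family has a continuous limit, uniform on bounded sets -/
theorem ulim {ι X E : Type} [NormedAddCommGroup X] [ProperSpace X] [NormedAddCommGroup E]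
    [ProperSpace E] (U : Ultrafilter ι) (f : ι → X → E)
    (hb : ∀ y, ∃ B, ∀ᶠ i in (U : Filter ι), ‖f i y‖ ≤ B)
    (he : ∀ R : ℝ, ∀ ε > (0 : ℝ), ∃ η > (0 : ℝ), ∀ᶠ i in (U : Filter ι),
      ∀ y ∈ closedBall (0 : X) R, ∀ z ∈ closedBall (0 : X) R, ‖z - y‖ ≤ η → ‖f i z - f i y‖ ≤ ε) :
    ∃ g : X → E, Continuous g ∧ (∀ y, Tendsto (fun i => f i y) U (𝓝 (g y))) ∧
      ∀ R : ℝ, ∀ ε > (0 : ℝ), ∀ᶠ i in (U : Filter ι), ∀ y ∈ closedBall (0 : X) R,
        ‖f i y - g y‖ ≤ ε := by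
  have ex : ∀ y, ∃ a, Tendsto (fun i => f i y) U (𝓝 a) := by
    intro y
    obtain ⟨B, hB⟩ := hb y
    obtain ⟨a, -, ha⟩ := (isCompact_closedBall (0 : E) B).ultrafilter_le_nhds'
      (U.map fun i => f i y) (by
        rw [Ultrafilter.mem_map]
        filter_upwards [hB] with i hi
        simpa using hi)
    exact ⟨a, ha⟩
  choose g hg using ex
  have eq : ∀ R : ℝ, ∀ ε > (0 : ℝ), ∃ η > (0 : ℝ), (∀ᶠ i in (U : Filter ι),
      ∀ y ∈ closedBall (0 : X) R, ∀ z ∈ closedBall (0 : X) R, ‖z - y‖ ≤ η → ‖f i z - f i y‖ ≤ ε) ∧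
      ∀ y ∈ closedBall (0 : X) R, ∀ z ∈ closedBall (0 : X) R, ‖z - y‖ ≤ η → ‖g z - g y‖ ≤ ε := by
    intro R ε ε0
    obtain ⟨η, η0, h⟩ := he R ε ε0
    refine ⟨η, η0, h, fun y hy z hz hyz => ?_⟩
    refine le_of_tendsto ((hg z).sub (hg y)).norm ?_
    filter_upwards [h] with i hi using hi y hy z hz hyz
  refine ⟨g, ?_, hg, ?_⟩
  · rw [Metric.continuous_iff]
    intro y ε ε0
    obtain ⟨η, η0, -, h⟩ := eq (‖y‖ + 1) (ε / 2) (by positivity)
    refine ⟨min η 1, by positivity, fun z hz => ?_⟩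
    rw [dist_eq_norm] at hz ⊢
    have h1 : ‖z - y‖ < η := hz.trans_le (min_le_left _ _)
    have h2 : ‖z - y‖ < 1 := hz.trans_le (min_le_right _ _)
    have h3 : ‖z‖ ≤ ‖y‖ + 1 := by
      have := norm_add_le y (z - y)
      rw [add_sub_cancel] at this
      linarith
    have := h y (by simp) z (by simpa using h3) h1.le
    linarith
  · intro R ε ε0
    obtain ⟨η, η0, h1, h2⟩ := eq R (ε / 3) (by positivity)
    obtain ⟨t, ts, tf, tc⟩ := finite_cover_balls_of_compact (isCompact_closedBall (0 : X) R) η0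
    have h3 : ∀ᶠ i in (U : Filter ι), ∀ y ∈ t, ‖f i y - g y‖ ≤ ε / 3 := by
      rw [eventually_all_finite tf]
      intro y _
      have := (Metric.tendsto_nhds.1 (hg y)) (ε / 3) (by positivity)
      filter_upwards [this] with i hi
      rw [dist_eq_norm] at hi
      exact hi.le
    filter_upwards [h1, h3] with i i1 i3 y hy
    obtain ⟨z, zt, hz⟩ := mem_iUnion₂.1 (tc hy)
    rw [mem_ball, dist_eq_norm] at hz
    have a1 := i1 z (ts zt) y hy hz.le
    have a2 := h2 z (ts zt) y hy hz.le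
    have a3 := i3 z zt
    have e : f i y - g y = (f i y - f i z) + (f i z - g z) - (g y - g z) := by abel
    rw [e]
    have b1 := norm_sub_le ((f i y - f i z) + (f i z - g z)) (g y - g z)
    have b2 := norm_add_le (f i y - f i z) (f i z - g z)
    linarith

lemma meas_ind (y : P) : Measurable fun l => ind l y :=
  Measurable.ite (MOVaux.meas_lt y) measurable_const measurable_const

lemma ind01 (l : ℝ × ℝ) (y : P) : ind l y = 0 ∨ ind l y = 1 := by
  unfold ind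
  split_ifs <;> simp

lemma abs_ind (l : ℝ × ℝ) (y z : P) : |ind l z - ind l y| = (sp y z).indicator 1 l := by
  unfold ind sp indicator
  by_cases h1 : l.1 < pr l.2 y <;> by_cases h2 : l.1 < pr l.2 z <;> simp [h1, h2]

lemma abs_ind_le (l : ℝ × ℝ) (y z : P) : |ind l z - ind l y| ≤ 1 := by
  rcases ind01 l y with h | h <;> rcases ind01 l z with h' | h' <;> simp [h, h']

lemma ind_eq {l : ℝ × ℝ} {y z : P} (h : l ∉ sp y z) : ind l z - ind l y = 0 := by
  have := abs_ind l y z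
  rwa [indicator_of_notMem h, abs_eq_zero] at this

lemma integ (μ : Measure (ℝ × ℝ)) [IsFiniteMeasure μ] {W : ℝ × ℝ → ℝ} (m : Measurable W) {K : ℝ}
    (h : ∀ l, |W l| ≤ K) (y z : P) : Integrable (fun l => W l * (ind l z - ind l y)) μ := by
  refine Integrable.of_bound (m.mul ((meas_ind z).sub (meas_ind y))).aestronglyMeasurable K
    (Eventually.of_forall fun l => ?_)
  rw [Real.norm_eq_abs, abs_mul]
  calc |W l| * |ind l z - ind l y| ≤ K * 1 :=
        mul_le_mul (h l) (abs_ind_le l y z) (abs_nonneg _) ((abs_nonneg _).trans (h l))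
    _ = K := mul_one K

/-- a weight that is bounded by `K` on the separating lines and vanishes outside of `A` there -/
lemma int_le (μ : Measure (ℝ × ℝ)) [IsFiniteMeasure μ] {W : ℝ × ℝ → ℝ} {K : ℝ} {y z : P}
    {A : Set (ℝ × ℝ)} (mA : MeasurableSet A) (K0 : 0 ≤ K) (h : ∀ l ∈ sp y z, |W l| ≤ K)
    (h0 : ∀ l ∈ sp y z, l ∉ A → W l = 0) :
    |∫ l, W l * (ind l z - ind l y) ∂μ| ≤ K * μ.real A := by
  rw [← Real.norm_eq_abs]
  have i1 : Integrable (A.indicator fun _ : ℝ × ℝ => K) μ := (integrable_const K).indicator mA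
  refine (norm_integral_le_of_norm_le i1 (Eventually.of_forall fun l => ?_)).trans ?_
  · rw [Real.norm_eq_abs]
    by_cases h1 : l ∈ sp y z
    · by_cases h2 : l ∈ A
      · rw [indicator_of_mem h2, abs_mul]
        calc |W l| * |ind l z - ind l y| ≤ K * 1 :=
            mul_le_mul (h l h1) (abs_ind_le l y z) (abs_nonneg _) K0
          _ = K := mul_one K
      · rw [h0 l h1 h2, indicator_of_notMem h2]
        simp
    · rw [ind_eq h1, mul_zero, abs_zero]
      exact indicator_nonneg (fun _ _ => K0) l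
  · rw [integral_indicator mA, setIntegral_const, smul_eq_mul, mul_comm]

lemma bw_sub (μ : Measure (ℝ × ℝ)) [IsFiniteMeasure μ] (Ψ : ℝ → ℝ) (x : P) (s N : ℝ)
    {W : ℝ × ℝ → ℝ} (m : Measurable W) {K : ℝ} (h : ∀ l, |W l| ≤ K) (β : ℝ) (y z : P) :
    bw μ Ψ x s N W β z - bw μ Ψ x s N W β y =
      ((∫ l, W l * (ind l (x + s • z) - ind l (x + s • y)) ∂μ) +
        β * (Ψ (x + s • z).2 - Ψ (x + s • y).2)) / N := by
  unfold bw
  have e : (∫ l, W l * (ind l (x + s • z) - ind l (x + s • y)) ∂μ) =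
      (∫ l, W l * (ind l (x + s • z) - ind l x) ∂μ) -
        ∫ l, W l * (ind l (x + s • y) - ind l x) ∂μ := by
    rw [← integral_sub (integ μ m h _ _) (integ μ m h _ _)]
    refine integral_congr_ae (Eventually.of_forall fun l => ?_)
    ring
  rw [e]
  ring

lemma bw_zero (μ : Measure (ℝ × ℝ)) (Ψ : ℝ → ℝ) (x : P) (s N : ℝ) (W : ℝ × ℝ → ℝ) (β : ℝ) :
    bw μ Ψ x s N W β 0 = 0 := by
  simp [bw]

lemma bw_le (μ : Measure (ℝ × ℝ)) [IsFiniteMeasure μ] (Ψ : ℝ → ℝ) (x : P) (s : ℝ) {N : ℝ}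
    (N0 : 0 < N) {W : ℝ × ℝ → ℝ} (m : Measurable W) {K β : ℝ} (h : ∀ l, |W l| ≤ K) (hβ : |β| ≤ K)
    (y z : P) : |bw μ Ψ x s N W β z - bw μ Ψ x s N W β y| ≤ K * ce μ Ψ x s y z / N := by
  have K0 : 0 ≤ K := (abs_nonneg _).trans hβ
  rw [bw_sub μ Ψ x s N m h, abs_div, abs_of_pos N0]
  refine div_le_div_of_nonneg_right ((abs_add_le _ _).trans ?_) N0.le
  have h1 := int_le μ (W := W) (y := x + s • y) (z := x + s • z) (MOVaux.meas_sp _ _) K0
    (fun l _ => h l) (fun l h1 h2 => absurd h1 h2)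
  have h2 : |β * (Ψ (x + s • z).2 - Ψ (x + s • y).2)| ≤ K * |Ψ (x + s • z).2 - Ψ (x + s • y).2| := by
    rw [abs_mul]
    exact mul_le_mul_of_nonneg_right hβ (abs_nonneg _)
  unfold ce
  linarith

/-- growth of the Crofton distance -/
def Gr {ι : Type} (U : Filter ι) (μ : Measure (ℝ × ℝ)) (Ψ : ℝ → ℝ) (x : ι → P) (s N : ι → ℝ) :
    Prop :=
  ∃ C : ℝ, ∀ R ≥ (1 : ℝ), ∀ᶠ i in U, ∀ y ∈ closedBall (0 : P) R,
    ∀ z ∈ closedBall (0 : P) R, ce μ Ψ (x i) (s i) y z ≤ C * R * N i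

/-- asymptotic equicontinuity of the Crofton distance -/
def Eq {ι : Type} (U : Filter ι) (μ : Measure (ℝ × ℝ)) (Ψ : ℝ → ℝ) (x : ι → P) (s N : ι → ℝ) :
    Prop :=
  ∀ R : ℝ, ∀ ε > (0 : ℝ), ∃ η > (0 : ℝ), ∀ᶠ i in U, ∀ y ∈ closedBall (0 : P) R,
    ∀ z ∈ closedBall (0 : P) R, ‖z - y‖ ≤ η → ce μ Ψ (x i) (s i) y z ≤ ε * N i

/-- weighted masses have limits -/
theorem bw_lim {ι : Type} (U : Ultrafilter ι) (μ : Measure (ℝ × ℝ)) [IsFiniteMeasure μ]
    {Ψ : ℝ → ℝ} {x : ι → P} {s N : ι → ℝ} (N0 : ∀ i, 0 < N i) (gr : Gr (U : Filter ι) μ Ψ x s N)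
    (eq : Eq (U : Filter ι) μ Ψ x s N) {W : ι → ℝ × ℝ → ℝ} (m : ∀ i, Measurable (W i)) {K : ℝ}
    (h : ∀ i l, |W i l| ≤ K) (β : ℝ) :
    ∃ b : P → ℝ, Continuous b ∧
      ULim (U : Filter ι) (fun i => bw μ Ψ (x i) (s i) (N i) (W i) β) b := by
  set L := max (max K |β|) 1 with hL
  have L1 : 1 ≤ L := le_max_right _ _
  have hK : ∀ i l, |W i l| ≤ L := fun i l =>
    (h i l).trans ((le_max_left _ _).trans (le_max_left _ _))
  have hβ : |β| ≤ L := (le_max_right _ _).trans (le_max_left _ _)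
  obtain ⟨b, bc, -, bu⟩ := ulim U (fun i => bw μ Ψ (x i) (s i) (N i) (W i) β) (by
    intro y
    obtain ⟨C, hC⟩ := gr
    refine ⟨L * (C * (‖y‖ + 1)), ?_⟩
    filter_upwards [hC (‖y‖ + 1) (by linarith [norm_nonneg y])] with i hi
    have a1 := hi 0 (by simp; positivity) y (by simp)
    have a2 := bw_le μ Ψ (x i) (s i) (N0 i) (m i) (hK i) hβ 0 y
    rw [bw_zero, sub_zero] at a2
    refine a2.trans ?_
    rw [div_le_iff₀ (N0 i), mul_assoc]
    exact mul_le_mul_of_nonneg_left a1 (by linarith)) (by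
    intro R ε ε0
    obtain ⟨η, η0, hη⟩ := eq R (ε / L) (by positivity)
    refine ⟨η, η0, ?_⟩
    filter_upwards [hη] with i hi y hy z hz hyz
    refine (bw_le μ Ψ (x i) (s i) (N0 i) (m i) (hK i) hβ y z).trans ?_
    rw [div_le_iff₀ (N0 i)]
    calc L * ce μ Ψ (x i) (s i) y z ≤ L * (ε / L * N i) :=
          mul_le_mul_of_nonneg_left (hi y hy z hz hyz) (by linarith)
      _ = ε * N i := by field_simp)
  exact ⟨b, bc, bu⟩

lemma ULim.tendsto {ι : Type} {U : Filter ι} {f : ι → P → ℝ} {g : P → ℝ} (h : ULim U f g) (y : P) :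
    Tendsto (fun i => f i y) U (𝓝 (g y)) := by
  rw [Metric.tendsto_nhds]
  intro ε ε0
  filter_upwards [h ‖y‖ (ε / 2) (by positivity)] with i hi
  have := hi y (by simp)
  rw [Real.dist_eq]
  linarith

end HgU

end Pool.Agent.P.MP_874adf_gt.Gn
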