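import Pool.Agent.P.MP_874adf_gt.Gn.DefsF
import Pool.Agent.P.MP_874adf_gt.Gn.BasL
import Pool.Agent.P.MP_874adf_gt.Gn.BasS
import Pool.Agent.P.MP_874adf_gt.Gn.HgU

/-! Moves along the rays from the far points of a family. -/

set_option autoImplicit false

namespace Pool.Agent.P.MP_874adf_gt.Gn

open Pool.Agent.P.MP_874adf_gt.Fs Set Filter Topology Metric MeasureTheory

namespace AddR

variable {c : Ctx} {ι : Type} (S : Sys c ι)

/-- the point with rescaled coordinate `y` -/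
def pt (i : ι) (y : P) : P := S.x i + S.s i • y

lemma pt_mem {k : ℝ} (i : ι) {y : P} (hy : y ∈ closedBall (0 : P) k) : pt S i y ∈ S.B k i := by
  rw [mem_closedBall_zero_iff] at hy
  simp only [pt, Sys.B, mem_closedBall, dist_eq_norm, add_sub_cancel_left, norm_smul,
    Real.norm_eq_abs, abs_of_pos (S.s0 i)]
  nlinarith [S.s0 i]

lemma pt_zero (i : ι) : pt S i 0 = S.x i := by simp [pt]

lemma ray_ball {k t ε τ : ℝ} {y y' : P} (hy : y ∈ closedBall (0 : P) k) (h0 : 0 ≤ τ) (h1 : τ ≤ k)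
    (hε : ε ≤ 1) (h : ‖y' - (y + τ • ((t, 1) : P))‖ ≤ ε) :
    y' ∈ closedBall (0 : P) (k + k * ‖((t, 1) : P)‖ + 1) ∧
      y + τ • ((t, 1) : P) ∈ closedBall (0 : P) (k + k * ‖((t, 1) : P)‖ + 1) := by
  rw [mem_closedBall_zero_iff] at hy
  have a : ‖y + τ • ((t, 1) : P)‖ ≤ k + k * ‖((t, 1) : P)‖ := by
    refine (norm_add_le _ _).trans ?_
    rw [norm_smul, Real.norm_eq_abs, abs_of_nonneg h0]
    have := mul_le_mul_of_nonneg_right h1 (norm_nonneg ((t, 1) : P))
    linarith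
  have b := norm_add_le (y' - (y + τ • ((t, 1) : P))) (y + τ • ((t, 1) : P))
  rw [sub_add_cancel] at b
  simp only [mem_closedBall_zero_iff]
  constructor <;> linarith

/-- the move along the ray from a far point -/
lemma ray {X : ι → P} {t : ℝ} (hX : S.Far 1 X t) {H : P → ℝ} (hH : S.Hon H) (k : ℝ) {ε : ℝ}
    (hε : 0 < ε) : ∀ᶠ i in (S.U : Filter ι), ∀ y ∈ closedBall (0 : P) k, ∀ τ, 0 ≤ τ → τ ≤ k →
      ∃ y' : P, ‖y' - (y + τ • ((t, 1) : P))‖ ≤ ε ∧ y'.2 = y.2 + τ ∧
        c.d (X i) (pt S i y') = c.d (X i) (pt S i y) + c.d (pt S i y) (pt S i y') ∧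
        |c.d (pt S i y) (pt S i y') - S.N i * (τ * H (t, 1))| ≤ ε * S.N i := by
  obtain ⟨K, K0, hK⟩ := hH.1.upper
  set k1 := max k 1 with hk1
  have k10 : 1 ≤ k1 := le_max_right _ _
  have kk : k ≤ k1 := le_max_left _ _
  set L := k1 + k1 * ‖((t, 1) : P)‖ + 1 with hL
  set e := min 1 (ε / (K + 2)) with he
  have e0 : 0 < e := lt_min one_pos (by positivity)
  have e1 : e ≤ 1 := min_le_left _ _
  have e2 : e * (K + 2) ≤ ε := by
    have := min_le_right 1 (ε / (K + 2))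
    rwa [← he, le_div_iff₀ (by positivity)] at this
  have L1 : k1 ≤ L := by
    have := mul_nonneg (zero_le_one.trans k10) (norm_nonneg ((t, 1) : P))
    linarith
  filter_upwards [hX k1 (e / k1) (by positivity), hH.2 L e e0, S.ev_ball L c.rho0] with i hi ha hb
    y hy τ τ0 τk
  have hy1 : y ∈ closedBall (0 : P) k1 := closedBall_subset_closedBall kk hy
  obtain ⟨f1, f2⟩ := hi.2 _ (pt_mem S i hy1)
  have s0 := S.s0 i
  have hp : 0 < (pt S i y).2 - (X i).2 := by nlinarith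
  set σ := sl (pt S i y) (X i) with hσ
  have n1 : ‖y + τ • ((σ, 1) : P) - (y + τ • ((t, 1) : P))‖ ≤ e := by
    have : y + τ • ((σ, 1) : P) - (y + τ • ((t, 1) : P)) = ((τ * (σ - t), 0) : P) := by
      ext
      · simp; ring
      · simp
    rw [this, Prod.norm_mk, norm_zero, max_eq_left (norm_nonneg _), Real.norm_eq_abs, abs_mul,
      abs_of_nonneg τ0]
    have a := mul_le_mul (τk.trans kk) f2 (abs_nonneg _) (by linarith)
    rwa [mul_div_cancel₀ _ (by linarith)] at a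
  obtain ⟨m1, -⟩ := ray_ball hy1 τ0 (τk.trans kk) e1 n1
  have my : y ∈ closedBall (0 : P) L := closedBall_subset_closedBall L1 hy1
  refine ⟨y + τ • ((σ, 1) : P), n1.trans (by nlinarith), by simp, ?_, ?_⟩
  · have mX := c.sub hi.1
    have m2 := c.sub (hb.1 (pt_mem S i m1))
    have m3 := c.sub (hb.1 (pt_mem S i my))
    refine ((c.gp.pm.straight _ mX _ m3 _ m2).2 ?_).symm
    set a := (pt S i y).2 - (X i).2 with hadef
    have ha' : 0 < a + τ * S.s i := by positivity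
    refine ⟨τ * S.s i / (a + τ * S.s i), a / (a + τ * S.s i), by positivity, by positivity,
      by field_simp; ring, ?_⟩
    have q1 : (pt S i y).1 - (X i).1 = σ * a := by
      rw [hσ, sl, ← hadef]; field_simp
    have q2 : (pt S i (y + τ • ((σ, 1) : P))).1 = (pt S i y).1 + S.s i * (τ * σ) := by
      simp [pt]; ring
    have q3 : (pt S i (y + τ • ((σ, 1) : P))).2 = (pt S i y).2 + S.s i * τ := by
      simp [pt]; ring
    ext
    · simp only [Prod.fst_add, Prod.smul_fst, smul_eq_mul, q2]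
      have : (X i).1 = (pt S i y).1 - σ * a := by linarith
      rw [this]; field_simp; ring
    · simp only [Prod.snd_add, Prod.smul_snd, smul_eq_mul, q3]
      have : (X i).2 = (pt S i y).2 - a := by linarith
      rw [this]; field_simp; ring
  · have a := ha y my _ m1
    rw [add_sub_cancel_left] at a
    have b1 := hH.1.sub_le (τ • ((σ, 1) : P)) (τ • ((t, 1) : P))
    have b2 := hH.1.sub_le (τ • ((t, 1) : P)) (τ • ((σ, 1) : P))
    rw [hH.1.sub_comm] at b2
    have b3 := hK (τ • ((σ, 1) : P) - τ • ((t, 1) : P))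
    rw [add_sub_add_left_eq_sub] at n1
    have b4 := mul_le_mul_of_nonneg_left n1 K0.le
    rw [hH.1.smul_nonneg τ0 (t, 1)] at b1 b2
    have N0 := S.N0 i
    have b5 : |H (τ • ((σ, 1) : P)) - τ * H (t, 1)| ≤ K * e := abs_le.2 ⟨by linarith, by linarith⟩
    have b6 : |S.N i * H (τ • ((σ, 1) : P)) - S.N i * (τ * H (t, 1))| ≤ S.N i * (K * e) := by
      rw [← mul_sub, abs_mul, abs_of_pos N0]
      exact mul_le_mul_of_nonneg_left b5 N0.le
    have b7 := abs_sub_le (c.d (pt S i y) (pt S i (y + τ • ((σ, 1) : P))))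
      (S.N i * H (τ • ((σ, 1) : P))) (S.N i * (τ * H (t, 1)))
    have b8 : e * S.N i + S.N i * (K * e) ≤ ε * S.N i := by nlinarith
    exact b7.trans (by unfold pt; linarith)

/-- the limit of the rescaled level -/
structure Lev (O : ι → P) (H g : P → ℝ) : Prop where
  lip : ∀ y z, |g z - g y| ≤ H (z - y)
  zero : g 0 = 0
  lim : ∀ k : ℝ, ∀ ε > (0 : ℝ), ∀ᶠ i in (S.U : Filter ι), ∀ y ∈ closedBall (0 : P) k,
    |c.d (O i) (pt S i y) - c.d (O i) (S.x i) - S.N i * g y| ≤ ε * S.N i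

lemma dlip {O : ι → P} {t : ℝ} (hO : S.Far 1 O t) {H : P → ℝ} (hH : S.Hon H) (k : ℝ) {ε : ℝ}
    (hε : 0 < ε) : ∀ᶠ i in (S.U : Filter ι), ∀ y ∈ closedBall (0 : P) k, ∀ z ∈ closedBall (0 : P) k,
      |c.d (O i) (pt S i z) - c.d (O i) (pt S i y)| ≤ (H (z - y) + ε) * S.N i := by
  filter_upwards [hO 0 1 one_pos, hH.2 k ε hε, S.ev_ball k c.rho0] with i hi ha hb y hy z hz
  have mX := c.sub hi.1
  have m2 := c.sub (hb.1 (pt_mem S i hy))
  have m3 := c.sub (hb.1 (pt_mem S i hz))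
  have a := (abs_le.1 (ha y hy z hz)).2
  have t1 := c.gp.pm.triangle _ mX _ m2 _ m3
  have t2 := c.gp.pm.triangle _ mX _ m3 _ m2
  rw [c.gp.pm.symm _ m3 _ m2] at t2
  unfold pt at *
  rw [abs_le]
  constructor <;> linarith

lemma ex_lev {O : ι → P} {t : ℝ} (hO : S.Far 1 O t) {H : P → ℝ} (hH : S.Hon H) :
    ∃ g, Lev S O H g := by
  obtain ⟨K, K0, hK⟩ := hH.1.upper
  set f : ι → P → ℝ := fun i y => (c.d (O i) (pt S i y) - c.d (O i) (S.x i)) / S.N i with hf
  have key : ∀ k : ℝ, ∀ ε > (0 : ℝ), ∀ᶠ i in (S.U : Filter ι), ∀ y ∈ closedBall (0 : P) k,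
      ∀ z ∈ closedBall (0 : P) k, |f i z - f i y| ≤ H (z - y) + ε := by
    intro k ε hε
    filter_upwards [dlip S hO hH k hε] with i hi y hy z hz
    simp only [hf]
    rw [← sub_div, abs_div, abs_of_pos (S.N0 i), div_le_iff₀ (S.N0 i), sub_sub_sub_cancel_right]
    exact hi y hy z hz
  have f0 : ∀ i, f i 0 = 0 := fun i => by simp [hf, pt_zero]
  obtain ⟨g, -, gt, gu⟩ := HgU.ulim S.U f (fun y => ⟨H y + 1, by
      filter_upwards [key ‖y‖ 1 one_pos] with i hi
      have := hi 0 (by simp) y (by simp)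
      rwa [f0, sub_zero, sub_zero] at this⟩) (fun R ε hε => ⟨ε / (2 * K), by positivity, by
      filter_upwards [key R (ε / 2) (by positivity)] with i hi y hy z hz hyz
      have a := mul_le_mul_of_nonneg_left hyz K0.le
      have b : K * (ε / (2 * K)) = ε / 2 := by field_simp
      have := hi y hy z hz
      rw [Real.norm_eq_abs]
      linarith [hK (z - y)]⟩)
  refine ⟨g, fun y z => ?_, ?_, fun k ε hε => ?_⟩
  · refine le_of_forall_pos_le_add fun ε hε => ?_
    refine le_of_tendsto ((gt z).sub (gt y)).abs ?_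
    filter_upwards [key (max ‖y‖ ‖z‖) ε hε] with i hi
    exact hi y (by simp) z (by simp)
  · have := gt 0
    simp only [f0] at this
    exact (tendsto_nhds_unique tendsto_const_nhds this).symm
  · filter_upwards [gu k ε hε] with i hi y hy
    have a := hi y hy
    have N0 := S.N0 i
    have e : c.d (O i) (pt S i y) - c.d (O i) (S.x i) - S.N i * g y = S.N i * (f i y - g y) := by
      simp only [hf]; field_simp
    rw [e, abs_mul, abs_of_pos N0, mul_comm]
    exact mul_le_mul_of_nonneg_right a N0.le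

/-- the move along the ray from a far point together with the increment of the level -/
lemma ray_lev {O X : ι → P} {t : ℝ} (hX : S.Far 1 X t) {H g : P → ℝ} (hH : S.Hon H)
    (hg : Lev S O H g) (k : ℝ) {ε : ℝ} (hε : 0 < ε) :
    ∀ᶠ i in (S.U : Filter ι), ∀ y ∈ closedBall (0 : P) k, ∀ τ, 0 ≤ τ → τ ≤ k →
      ∃ y' ∈ closedBall (0 : P) (k + k * ‖((t, 1) : P)‖ + 1), ‖y' - (y + τ • ((t, 1) : P))‖ ≤ ε ∧
        y'.2 = y.2 + τ ∧
        c.d (X i) (pt S i y') = c.d (X i) (pt S i y) + c.d (pt S i y) (pt S i y') ∧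
        |c.d (pt S i y) (pt S i y') - S.N i * (τ * H (t, 1))| ≤ ε * S.N i ∧
        |c.d (O i) (pt S i y') - c.d (O i) (pt S i y) -
          S.N i * (g (y + τ • ((t, 1) : P)) - g y)| ≤ ε * S.N i := by
  obtain ⟨K, K0, hK⟩ := hH.1.upper
  set e := min 1 (ε / (K + 2)) with he
  have e0 : 0 < e := lt_min one_pos (by positivity)
  have e1 : e ≤ 1 := min_le_left _ _
  have e2 : e * (K + 2) ≤ ε := by
    have := min_le_right 1 (ε / (K + 2))
    rwa [← he, le_div_iff₀ (by positivity)] at this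
  have e3 : e ≤ ε := by nlinarith
  filter_upwards [ray S hX hH k e0, hg.lim (k + k * ‖((t, 1) : P)‖ + 1) e e0] with i hi hl y hy τ τ0 τk
  obtain ⟨y', a1, a2, a3, a4⟩ := hi y hy τ τ0 τk
  obtain ⟨m1, -⟩ := ray_ball hy τ0 τk e1 a1
  have N0 := S.N0 i
  have my : y ∈ closedBall (0 : P) (k + k * ‖((t, 1) : P)‖ + 1) := by
    refine closedBall_subset_closedBall ?_ hy
    have := mul_nonneg (τ0.trans τk) (norm_nonneg ((t, 1) : P))
    linarith
  refine ⟨y', m1, a1.trans e3, a2, a3, a4.trans (by nlinarith), ?_⟩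
  have b1 := abs_le.1 (hl y' m1)
  have b2 := abs_le.1 (hl y my)
  have b3 := abs_le.1 ((hg.lip (y + τ • ((t, 1) : P)) y').trans ((hK _).trans
    (mul_le_mul_of_nonneg_left a1 K0.le)))
  have b4 := mul_le_mul_of_nonneg_left b3.1 N0.le
  have b5 := mul_le_mul_of_nonneg_left b3.2 N0.le
  have b6 := mul_le_mul_of_nonneg_left e2 N0.le
  rw [abs_le]
  constructor <;> nlinarith

/-- the level grows with unit speed in the direction of the centre -/
lemma lev_dir {O : ι → P} {t : ℝ} (hO : S.Far 1 O t) {H g : P → ℝ} (hH : S.Hon H)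
    (hg : Lev S O H g) (y : P) (a : ℝ) : g (y + a • ((t, 1) : P)) = g y + a * H (t, 1) := by
  have key : ∀ (y : P) (a : ℝ), 0 ≤ a → g (y + a • ((t, 1) : P)) = g y + a * H (t, 1) := by
    intro y a ha
    have : |g (y + a • ((t, 1) : P)) - (g y + a * H (t, 1))| ≤ 0 := by
      refine le_of_forall_pos_le_add fun ε hε => ?_
      obtain ⟨i, hi⟩ := (ray_lev S hO hH hg (max ‖y‖ a) (ε := ε / 2) (by positivity)).exists
      obtain ⟨y', -, -, -, a3, a4, a5⟩ := hi y (by simp) a ha (le_max_right _ _)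
      have N0 := S.N0 i
      rw [abs_le] at a4 a5 ⊢
      constructor
      · by_contra hc
        nlinarith [not_le.1 hc, a4.1, a4.2, a5.1, a5.2]
      · by_contra hc
        nlinarith [not_le.1 hc, a4.1, a4.2, a5.1, a5.2]
    exact sub_eq_zero.1 (abs_nonpos_iff.1 this)
  rcases le_total 0 a with ha | ha
  · exact key y a ha
  · have := key (y + a • ((t, 1) : P)) (-a) (by linarith)
    rw [add_assoc, ← add_smul, add_neg_cancel, zero_smul, add_zero] at this
    linarith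

/-- on the ray from `A` the function `hf` gains at least the defect of the centre -/
lemma hf_A {M : Set P} {d : P → P → ℝ} (pm : PM M d) {D : Dat} (r0 : 0 < dr D) (r1 : dr D < 1)
    {y z : P} (hB : dB D ∈ M) (hy : y ∈ M) (hz : z ∈ M)
    (h : d (dA D) z = d (dA D) y + d y z) :
    d y z - (d (dO D) z - d (dO D) y) ≤ hf d D z - hf d D y := by
  rw [hf_diff d r1.ne, h]
  have a := pm.triangle _ hB _ hy _ hz
  have : 0 ≤ dr D / (1 - dr D) * (d (dA D) y + d y z - d (dA D) y - (d (dB D) z - d (dB D) y)) :=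
    mul_nonneg (div_nonneg r0.le (by linarith)) (by linarith)
  linarith

/-- on the ray from `B` the function `hf` gains at most the defect of the centre -/
lemma hf_B {M : Set P} {d : P → P → ℝ} (pm : PM M d) {D : Dat} (r1 : dr D < 1)
    {y z : P} (hA : dA D ∈ M) (hy : y ∈ M) (hz : z ∈ M)
    (h : d (dB D) z = d (dB D) y + d y z) :
    hf d D z - hf d D y ≤ d y z - (d (dO D) z - d (dO D) y) := by
  have a := pm.triangle _ hA _ hy _ hz
  have p : 0 < 1 - dr D := by linarith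
  have e : Vf d D z - Vf d D y ≤ d y z := by
    unfold Vf
    rw [← sub_div, div_le_iff₀ p, h]
    nlinarith
  unfold hf
  linarith

/-- the two test points above the point with coordinate `y` -/
lemma two {D : ι → Dat} {ζ ξ r : ℝ} (F : S.Fam 1 D ζ ξ ξ r) {H g : P → ℝ} (hH : S.Hon H)
    (hg : Lev S (fun i => dO (D i)) H g) (k : ℝ) {ε : ℝ} (hε : 0 < ε) :
    ∀ᶠ i in (S.U : Filter ι), ∀ y ∈ closedBall (0 : P) k, ∀ τ, 0 ≤ τ → τ ≤ k →
      (∃ w ∈ S.B (k + k * ‖((ξ, 1) : P)‖ + 1) i,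
        |S.db D i (pt S i y) w - S.N i * (g (y + τ • ((ξ, 1) : P)) - g y)| ≤ ε * S.N i ∧
        (τ * H (ξ, 1) - (g (y + τ • ((ξ, 1) : P)) - g y) - ε) * S.N i ≤ S.dh D i (pt S i y) w) ∧
      ∃ w ∈ S.B (k + k * ‖((ξ, 1) : P)‖ + 1) i,
        |S.db D i (pt S i y) w - S.N i * (g (y + τ • ((ξ, 1) : P)) - g y)| ≤ ε * S.N i ∧
        S.dh D i (pt S i y) w ≤ (τ * H (ξ, 1) - (g (y + τ • ((ξ, 1) : P)) - g y) + ε) * S.N i := by
  have e0 : 0 < ε / 2 := by positivity
  filter_upwards [ray_lev S F.fA hH hg k e0, ray_lev S F.fB hH hg k e0, F.fA 0 1 one_pos,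
    F.fB 0 1 one_pos, S.ev_ball k c.rho0, S.ev_ball (k + k * ‖((ξ, 1) : P)‖ + 1) c.rho0]
    with i hA hB mA mB b1 b2 y hy τ τ0 τk
  have N0 := S.N0 i
  have my := c.sub (b1.1 (pt_mem S i hy))
  constructor
  · obtain ⟨y', m, -, -, a3, a4, a5⟩ := hA y hy τ τ0 τk
    have := hf_A c.gp.pm (F.r01 i).1 (F.r01 i).2 (c.sub mB.1) my (c.sub (b2.1 (pt_mem S i m))) a3
    refine ⟨_, pt_mem S i m, a5.trans (by nlinarith), ?_⟩
    rw [abs_le] at a4 a5
    unfold Sys.dh
    nlinarith [a4.1, a5.2]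
  · obtain ⟨y', m, -, -, a3, a4, a5⟩ := hB y hy τ τ0 τk
    have := hf_B c.gp.pm (F.r01 i).2 (c.sub mA.1) my (c.sub (b2.1 (pt_mem S i m))) a3
    refine ⟨_, pt_mem S i m, a5.trans (by nlinarith), ?_⟩
    rw [abs_le] at a4 a5
    unfold Sys.dh
    nlinarith [a4.2, a5.1]

end AddR

end Pool.Agent.P.MP_874adf_gt.Gn
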