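import Pool.Agent.P.MP_874adf_gt.Gn.Iface0
import Pool.Agent.P.MP_874adf_gt.Fs.BLOW

/-! Step AEQ. -/

set_option autoImplicit false

namespace Pool.Agent.P.MP_874adf_gt.Gn

open Pool.Agent.P.MP_874adf_gt.Fs Set Filter Topology Metric MeasureTheory

theorem aeq_mono {M K K' : Set P} {d F : P → P → ℝ} (h : UD M d K F) (hK : IsCompact K')
    (s : K' ⊆ K) : UD M d K' F :=
  ⟨hK, s.trans h.sub, fun x hx => h.isS x (s hx), fun ε hε => by
    obtain ⟨δ, δ0, e⟩ := h.unif ε hε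
    exact ⟨δ, δ0, fun x hx => e x (s hx)⟩, h.cont.mono (prod_mono s subset_rfl)⟩

theorem aeq_cont {M K : Set P} {d F : P → P → ℝ} (h : UD M d K F) (v : P) :
    ContinuousOn (fun x => F x v) K :=
  h.cont.comp (f := fun x => (x, v)) (by fun_prop) fun _ hx => ⟨hx, mem_univ _⟩

/-- a compact set of positive measure of non quadratic norms -/
theorem aeq_cpt {M K : Set P} {d F : P → P → ℝ} (h : UD M d K F)
    (h0 : volume {x ∈ K | IsN (F x) ∧ ¬ Quad (F x)} ≠ 0) :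
    ∃ K' ⊆ K, IsCompact K' ∧ 0 < volume K' ∧ ∀ x ∈ K', IsN (F x) ∧ ¬ Quad (F x) := by
  have cK := h.cpt.isClosed
  let Q : Set P := K ∩ ⋂ v : P, {x ∈ K | F x v ^ 2 = bf (F x (1, 0) ^ 2)
    ((F x (1, 1) ^ 2 - F x (1, 0) ^ 2 - F x (0, 1) ^ 2) / 2) (F x (0, 1) ^ 2) v v}
  have cQ : IsClosed Q := by
    refine cK.inter (isClosed_iInter fun v => ?_)
    have c := fun w => (aeq_cont h w).pow 2
    refine cK.isClosed_eq (c v) ?_
    simp only [bf]
    exact ((((c _).mul continuousOn_const).mul continuousOn_const).add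
      (((((c _).sub (c _)).sub (c _)).div_const 2).mul continuousOn_const)).add
        (((c _).mul continuousOn_const).mul continuousOn_const)
  let A : ℕ → Set P := fun j => K ∩ ⋂ v : P, {x ∈ K | ‖v‖ ≤ j * F x v}
  have cA : ∀ j, IsClosed (A j) := fun j => cK.inter (isClosed_iInter fun v =>
    cK.isClosed_le continuousOn_const (continuousOn_const.mul (aeq_cont h v)))
  obtain ⟨j, hj⟩ : ∃ j, volume (A j \ Q) ≠ 0 := by
    by_contra hc
    push Not at hc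
    refine h0 (measure_mono_null ?_ (measure_iUnion_null hc))
    rintro x ⟨hx, n, q⟩
    obtain ⟨L, L0, hL⟩ := n.lower
    obtain ⟨j, hj⟩ := exists_nat_ge L
    refine mem_iUnion.2 ⟨j, ⟨hx, mem_iInter.2 fun v => ⟨hx, (hL v).trans
      (mul_le_mul_of_nonneg_right hj (n.nonneg v))⟩⟩, fun hq => q ⟨_, _, _, fun v =>
        (mem_iInter.1 hq.2 v).2⟩⟩
  obtain ⟨K', s, c, p⟩ := ((cA j).measurableSet.diff cQ.measurableSet).exists_lt_isCompact
    (pos_iff_ne_zero.2 hj)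
  refine ⟨K', fun x hx => (s hx).1.1, c, p, fun x hx => ?_⟩
  obtain ⟨⟨xK, a⟩, q⟩ := s hx
  have i := h.isS x xK
  refine ⟨⟨i.smul, i.add, fun v hv => ?_⟩, fun hq => q ⟨xK, mem_iInter.2 fun v =>
    ⟨xK, close_coef hq v⟩⟩⟩
  have a1 := (mem_iInter.1 a v).2
  have a2 := norm_pos_iff.2 hv
  by_contra hc
  have := mul_nonpos_of_nonneg_of_nonpos (Nat.cast_nonneg (α := ℝ) j) (not_lt.1 hc)
  linarith

theorem p_AEQ (hEG : S_EG) (hRHO : S_RHO) (hGAME : S_GAME) (hCTX : S_CTX) (hREG : S_REG) (hDICH : S_DICH) (hFOC : S_FOC) (hNLH : S_NLH) (hNLF : S_NLF) :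
    S_AEQ := by
  intro M d F h hU hF
  have key : volume {y ∈ M | IsN (F y) ∧ ¬ Quad (F y)} = 0 := by
    refine measure_null_of_locally_null _ fun x hx => ?_
    obtain ⟨ρ, ρ0, a1, a10, hb, hex⟩ := hU x hx.1
    refine ⟨{y ∈ M | IsN (F y) ∧ ¬ Quad (F y)} ∩ ball x ρ,
      inter_mem_nhdsWithin _ (ball_mem_nhds x ρ0), ?_⟩
    by_contra hc
    have fin : volume (ball x ρ) ≠ ⊤ := measure_ball_lt_top.ne
    have fin' : volume ({y ∈ M | IsN (F y) ∧ ¬ Quad (F y)} ∩ ball x ρ) ≠ ⊤ :=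
      ne_top_of_le_ne_top fin (measure_mono inter_subset_right)
    obtain ⟨K0, s0, ud, v0⟩ := hEG M d F h hF _ hb measurableSet_ball fin _
      (ENNReal.toReal_pos hc fin')
    rw [ENNReal.ofReal_toReal fin'] at v0
    obtain ⟨K, s, c, p, hK⟩ := aeq_cpt ud (fun e => by
      refine absurd v0 (not_lt.2 ?_)
      calc _ ≤ volume ({x ∈ K0 | IsN (F x) ∧ ¬ Quad (F x)} ∪ (ball x ρ \ K0)) := by
            refine measure_mono fun y hy => ?_
            by_cases hy' : y ∈ K0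
            · exact Or.inl ⟨hy', hy.1.2⟩
            · exact Or.inr ⟨hy.2, hy'⟩
        _ ≤ _ := measure_union_le _ _
        _ = _ := by rw [e, zero_add])
    have ud' := aeq_mono ud c s
    obtain ⟨C, hC, u, π, 𝓥, gp⟩ := hGAME ⟨M, d, K, F, a1, h, ud', fun y hy => (hK y hy).1, a10,
      fun O hO => hex O (s0 (s hO)), hRHO M K d F h ud' hK⟩ p
    obtain ⟨cx, hq⟩ := hCTX _ _ _ _ _ _ _ gp
    have rg := hREG cx
    obtain ⟨S, f1, f2⟩ := hFOC cx rg
    rcases hDICH cx rg ℕ S with ⟨H, hH⟩ | hf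
    · obtain ⟨b1, b2, b3⟩ := f1 H hH
      exact (hK C hC).2 (hq (hNLH _ H _ cx.gp.isN cx.gp.u1 hH.1 b1 cx.gp.pi0 cx.gp.pi1 cx.sc cx.rel
        b2 b3))
    · exact hNLF _ _ cx.gp.isN cx.gp.u1 cx.gp.pi0 cx.gp.pi1 cx.sc (cx.rel 1 (Or.inl rfl)) (f2 hf)
  refine measure_mono_null (fun y hy => ?_) key
  simp only [mem_compl_iff, mem_ofPred_eq, Classical.not_imp] at hy
  exact ⟨hy.1, hy.2.1, hy.2.2⟩

end Pool.Agent.P.MP_874adf_gt.Gn
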