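import Pool.Agent.P.MP_874adf_gt.Gn.Iface0

/-! Step AFF. -/

set_option autoImplicit false

namespace Pool.Agent.P.MP_874adf_gt.Gn

open Pool.Agent.P.MP_874adf_gt.Fs Set Filter Topology Metric MeasureTheory

namespace AFFaux

variable (C : P) (L : P ≃L[ℝ] P)

lemma tr_sub (y z : P) : tr C L z - tr C L y = L (z - y) := by
  simp only [tr, map_sub]; abel

lemma tr_add (y v : P) (t : ℝ) : tr C L (y + t • v) = tr C L y + t • L v := by
  simp only [tr, map_add, map_smul]; abel

lemma tr_seg (x z : P) (t : ℝ) :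
    tr C L (x + t • (z - x)) = tr C L x + t • (tr C L z - tr C L x) := by
  rw [tr_add, tr_sub]

lemma tr_inj : Function.Injective (tr C L) := fun _ _ e => L.injective (add_left_cancel e)

lemma tr_rt (y : P) : tr C L (L.symm (y - C)) = y := by simp [tr]

lemma tr_surj : Function.Surjective (tr C L) := fun y => ⟨_, tr_rt C L y⟩

lemma tr_cont : Continuous (tr C L) := continuous_const.add L.continuous

lemma tr_open : IsOpenMap (tr C L) :=
  (L.toHomeomorph.trans (Homeomorph.addLeft C)).isOpenMap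

lemma tr_lip : ∃ K > (0 : ℝ), ∀ y z : P, dist (tr C L y) (tr C L z) ≤ K * dist y z := by
  refine ⟨‖(L : P →L[ℝ] P)‖ + 1, by positivity, fun y z => ?_⟩
  rw [dist_eq_norm, dist_eq_norm, tr_sub]
  have := (L : P →L[ℝ] P).le_opNorm (y - z)
  have h0 := norm_nonneg (y - z)
  simp only [ContinuousLinearEquiv.coe_coe] at this
  linarith

lemma dA_trD (D : Dat) : dA (trD C L D) = tr C L (dA D) := (tr_seg C L _ _ _).symm

lemma pm {M : Set P} {d : P → P → ℝ} (h : PM M d) : PM (tr C L ⁻¹' M) (trd C L d) where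
  isOpen := h.isOpen.preimage (tr_cont C L)
  convex := by
    rw [convex_iff_add_mem]
    intro x hx y hy a b a0 b0 e
    have e1 : a • x + b • y = x + b • (y - x) := by
      rw [show a = 1 - b by linarith]; module
    rw [e1, mem_preimage, tr_seg]
    exact h.seg_mem hx hy b0 (by linarith)
  nonempty := by
    obtain ⟨x, hx⟩ := h.nonempty
    exact ⟨L.symm (x - C), by rwa [mem_preimage, tr_rt]⟩
  eq_zero := fun x hx y hy => (h.eq_zero _ hx _ hy).trans (tr_inj C L).eq_iff
  symm := fun x hx y hy => h.symm _ hx _ hy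
  triangle := fun x hx y hy z hz => h.triangle _ hx _ hy _ hz
  top := by
    intro x hx s
    rw [(h.isOpen.preimage (tr_cont C L)).nhdsWithin_eq hx]
    constructor
    · intro hs
      obtain ⟨δ, δ0, hδ⟩ := Metric.mem_nhds_iff.1 ((tr_open C L).image_mem_nhds hs)
      obtain ⟨ε, ε0, hε⟩ := h.near hx δ0
      refine ⟨ε, ε0, fun y hy => ?_⟩
      obtain ⟨w, hw, e⟩ := hδ (hε _ hy.1 hy.2)
      rwa [← tr_inj C L e]
    · rintro ⟨ε, ε0, hε⟩
      exact mem_of_superset (((tr_cont C L).tendsto x).eventually (h.ev_lt hx ε0)) hε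
  straight := by
    intro x hx y hy z hz
    refine (h.straight _ hx _ hy _ hz).trans ?_
    rw [segment_eq_image', segment_eq_image']
    constructor
    · rintro ⟨t, ht, e⟩
      exact ⟨t, ht, tr_inj C L ((tr_seg C L _ _ _).trans e)⟩
    · rintro ⟨t, ht, rfl⟩
      exact ⟨t, ht, (tr_seg C L _ _ _).symm⟩

lemma circ (M : Set P) (d : P → P → ℝ) (D : Dat) (a : ℝ) :
    Circ (tr C L ⁻¹' M) (trd C L d) D a ↔ Circ M d (trD C L D) a := by
  constructor
  · intro c
    refine ⟨c.mO, c.mB, c.a0, c.l0, c.l1, c.r0, c.r1, ?_, c.eB, ?_, ?_⟩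
    · rw [dA_trD]; exact c.eA
    · intro X hX e
      obtain ⟨Y, rfl⟩ := tr_surj C L X
      rw [dA_trD]
      exact c.on Y hX e
    · intro v hv
      obtain ⟨w, rfl⟩ := L.surjective v
      obtain ⟨t, t0, m, e⟩ := c.ray w fun e => hv (by rw [e, map_zero])
      refine ⟨t, t0, ?_, ?_⟩
      · rw [mem_preimage, tr_add] at m; exact m
      · rw [trd, tr_add] at e; exact e
  · intro c
    refine ⟨c.mO, c.mB, c.a0, c.l0, c.l1, c.r0, c.r1, ?_, c.eB, ?_, ?_⟩
    · have := c.eA
      rw [dA_trD] at this; exact this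
    · intro X hX e
      have := c.on _ hX e
      rw [dA_trD] at this; exact this
    · intro v hv
      obtain ⟨t, t0, m, e⟩ := c.ray (L v) fun e => hv (L.injective (by rw [e, map_zero]))
      refine ⟨t, t0, ?_, ?_⟩
      · rw [mem_preimage, tr_add]; exact m
      · rw [trd, tr_add]; exact e

lemma du (d : P → P → ℝ) (x : P) (G : P → ℝ) (h : DU d (tr C L x) G) :
    DU (trd C L d) x fun v => G (L v) := by
  obtain ⟨K, K0, hK⟩ := tr_lip C L
  intro ε ε0
  obtain ⟨δ, δ0, hδ⟩ := h (ε / K) (div_pos ε0 K0)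
  refine ⟨δ / K, div_pos δ0 K0, fun s s0 s1 y hy z hz => ?_⟩
  have m : ∀ w ∈ closedBall x s, tr C L w ∈ closedBall (tr C L x) (K * s) := fun w hw =>
    (hK w x).trans (mul_le_mul_of_nonneg_left hw K0.le)
  have := hδ (K * s) (mul_pos K0 s0) (by rwa [le_div_iff₀' K0] at s1) _ (m y hy) _ (m z hz)
  rw [tr_sub, ← mul_assoc, div_mul_cancel₀ _ K0.ne'] at this
  exact this

lemma ae {p : P → Prop} (h : ∀ᵐ y : P, p y) : ∀ᵐ y : P, p (tr C L y) := by
  rw [ae_iff] at h ⊢
  have e : {y | ¬ p (tr C L y)} = L ⁻¹' ((fun w => C + w) ⁻¹' {y | ¬ p y}) := rfl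
  rw [e, Measure.addHaar_preimage_continuousLinearEquiv, measure_preimage_add, h, mul_zero]

lemma isS {G : P → ℝ} (h : IsS G) : IsS fun v => G (L v) :=
  ⟨fun t v => by rw [map_smul, h.smul], fun v w => by rw [map_add]; exact h.add _ _⟩

end AFFaux

theorem p_AFF :
    S_AFF := by
  intro M d C L
  refine ⟨AFFaux.pm C L, AFFaux.circ C L M d, AFFaux.du C L d, fun F h => ?_, fun h x hx => ?_⟩
  · filter_upwards [AFFaux.ae C L h] with y hy m
    exact ⟨AFFaux.isS L (hy m).1, AFFaux.du C L d _ _ (hy m).2⟩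
  · obtain ⟨ρ, ρ0, a1, a10, hs, ex⟩ := h _ hx
    obtain ⟨K, K0, hK⟩ := AFFaux.tr_lip C L
    have m : ∀ w ∈ ball x (ρ / K), tr C L w ∈ ball (tr C L x) ρ := fun w hw => by
      rw [mem_ball, lt_div_iff₀' K0] at hw
      exact (hK w x).trans_lt hw
    refine ⟨ρ / K, div_pos ρ0 K0, a1, a10, fun w hw => hs (m w hw), fun O hO a a0 aa => ?_⟩
    obtain ⟨D, e, c⟩ := ex _ (m O hO) a a0 aa
    refine ⟨(O, L.symm (dB D - C), dl D, dr D), rfl, (AFFaux.circ C L M d _ a).2 ?_⟩
    have e2 : trD C L (O, L.symm (dB D - C), dl D, dr D) = D := by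
      show (tr C L O, tr C L (L.symm (dB D - C)), dl D, dr D) = D
      rw [AFFaux.tr_rt, ← e]
    rwa [e2]

end Pool.Agent.P.MP_874adf_gt.Gn
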