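import Pool.Agent.P.MP_874adf_gt.Fs.Ident

/-! Definitions for the removal of the regularity hypothesis. -/

set_option autoImplicit false

namespace Pool.Agent.P.MP_874adf_gt.Gn

open Pool.Agent.P.MP_874adf_gt.Fs Set Filter Topology Metric MeasureTheory

/-! ### Tangent seminorms -/

structure IsS (N : P → ℝ) : Prop where
  smul : ∀ (t : ℝ) (v : P), N (t • v) = |t| * N v
  add : ∀ v w : P, N (v + w) ≤ N v + N w

/-- at all scales `s ≤ δ` around `x` the metric is `ε s` close to `G` -/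
def Near (d : P → P → ℝ) (G : P → ℝ) (x : P) (ε δ : ℝ) : Prop :=
  ∀ s, 0 < s → s ≤ δ → ∀ y ∈ closedBall x s, ∀ z ∈ closedBall x s, |d y z - G (z - y)| ≤ ε * s

def DU (d : P → P → ℝ) (x : P) (G : P → ℝ) : Prop := ∀ ε > (0 : ℝ), ∃ δ > (0 : ℝ), Near d G x ε δ

/-- uniform differentiability on a compact set -/
structure UD (M : Set P) (d : P → P → ℝ) (K : Set P) (F : P → P → ℝ) : Prop where
  cpt : IsCompact K
  sub : K ⊆ M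
  isS : ∀ x ∈ K, IsS (F x)
  unif : ∀ ε > (0 : ℝ), ∃ δ > (0 : ℝ), ∀ x ∈ K, Near d (F x) x ε δ
  cont : ContinuousOn (fun p : P × P => F p.1 p.2) (K ×ˢ univ)

/-- `F` is a field of tangent seminorms almost everywhere -/
def AeD (M : Set P) (d : P → P → ℝ) (F : P → P → ℝ) : Prop :=
  ∀ᵐ y : P, y ∈ M → IsS (F y) ∧ DU d y (F y)

/-- the metric near the places `x i` at the scales `s i`, divided by `N i`, tends to `H` -/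
def Appr {ι : Type} (l : Filter ι) (d : P → P → ℝ) (x : ι → P) (s N : ι → ℝ) (H : P → ℝ) : Prop :=
  ∀ k : ℝ, ∀ ε > (0 : ℝ), ∀ᶠ i in l, ∀ y ∈ closedBall (0 : P) k, ∀ z ∈ closedBall (0 : P) k,
    |d (x i + s i • y) (x i + s i • z) - N i * H (z - y)| ≤ ε * N i

/-! ### Circles and their foci -/

/-- centre, outer focus, position of the inner focus, ratio -/
abbrev Dat := P × P × ℝ × ℝ

abbrev dO (D : Dat) : P := D.1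
abbrev dB (D : Dat) : P := D.2.1
abbrev dl (D : Dat) : ℝ := D.2.2.1
abbrev dr (D : Dat) : ℝ := D.2.2.2
abbrev dA (D : Dat) : P := dO D + dl D • (dB D - dO D)

structure Circ (M : Set P) (d : P → P → ℝ) (D : Dat) (a : ℝ) : Prop where
  mO : dO D ∈ M
  mB : dB D ∈ M
  a0 : 0 < a
  l0 : 0 < dl D
  l1 : dl D < 1
  r0 : 0 < dr D
  r1 : dr D < 1
  eA : d (dO D) (dA D) = dr D * a
  eB : d (dO D) (dB D) = a / dr D
  on : ∀ C ∈ M, d (dO D) C = a → d (dA D) C = dr D * d (dB D) C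
  ray : Ray M d (dO D) a

/-- locally uniformly small circles have foci in standard position -/
def AllU (M : Set P) (d : P → P → ℝ) : Prop :=
  ∀ x ∈ M, ∃ ρ > (0 : ℝ), ∃ a1 > (0 : ℝ), ball x ρ ⊆ M ∧ ∀ O ∈ ball x ρ, ∀ a, 0 < a → a < a1 →
    ∃ D : Dat, dO D = O ∧ Circ M d D a

noncomputable def Vf (d : P → P → ℝ) (D : Dat) (z : P) : ℝ :=
  (d (dA D) z - dr D * d (dB D) z) / (1 - dr D)

noncomputable def hf (d : P → P → ℝ) (D : Dat) (z : P) : ℝ := Vf d D z - d (dO D) z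

noncomputable def piD (D : Dat) : ℝ := (1 - dl D) / (2 - dl D - dr D)

/-- the tangency relation for the norm `H` and the directions from the three points -/
def Rv (H : P → ℝ) (vO vA vB : P) (r : ℝ) : Prop :=
  ∀ w : P, ∀ a > (0 : ℝ), H (a • vO - w) < H (a • vO) → ∀ b > (0 : ℝ), ∀ c > (0 : ℝ),
    0 ≤ H (b • vA + w) - H (b • vA) + r * (H (c • vB - w) - H (c • vB))

/-- affine change of coordinates -/
def tr (C : P) (L : P ≃L[ℝ] P) (y : P) : P := C + L y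

def trd (C : P) (L : P ≃L[ℝ] P) (d : P → P → ℝ) (y z : P) : ℝ := d (tr C L y) (tr C L z)

def trD (C : P) (L : P ≃L[ℝ] P) (D : Dat) : Dat := (tr C L (dO D), tr C L (dB D), dl D, dr D)

/-! ### Good points -/

def SCd (G : P → ℝ) (v : P) : Prop := ∀ z, wed z v ≠ 0 → G (v + z) < G v + G z

def Geo (C u X : P) (π ε s : ℝ) (D : Dat) : Prop :=
  ‖s⁻¹ • (C - dO D) - X‖ ≤ ε ∧ ‖s⁻¹ • (dB D - dO D) - u‖ ≤ ε ∧ 1 - ε ≤ dl D ∧ 1 - ε ≤ dr D ∧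
    |piD D - π| ≤ ε

def Val (M : Set P) (d : P → P → ℝ) (C : P) (v : Set Dat) : Prop :=
  ∃ ρ > (0 : ℝ), ∀ y ∈ ball C ρ, ∃ D ∈ v, Circ M d D (d (dO D) y)

def SepF (C : P) (f : Dat → P) {m : ℕ} (w : Fin m → Set Dat) : Prop :=
  ∀ i j, i ≠ j → ∀ D ∈ w i, ∀ D' ∈ w j, wed (f D - C) (f D' - C) ≠ 0

def Cst (f : Dat → P) (v : Set Dat) : Prop := ∃ A, ∀ D ∈ v, f D = A

/-- a family of cells of focal data that is valid near `C` -/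
structure Cells (M : Set P) (d : P → P → ℝ) (C : P) (𝓥 : Set (Set Dat)) : Prop where
  cpt : ∀ v ∈ 𝓥, IsCompact v
  good : ∀ v ∈ 𝓥, ∀ D ∈ v, 0 < dl D ∧ dl D < 1 ∧ 0 < dr D ∧ dr D < 1
  val : ∀ v ∈ 𝓥, Val M d C v
  ref : ∀ v ∈ 𝓥, ∀ δ > (0 : ℝ), ∃ w ∈ 𝓥, w ⊆ v ∧ ∀ D ∈ w, ∀ D' ∈ w, dist D D' ≤ δ
  sep : ∀ v ∈ 𝓥, ∀ m : ℕ, ∃ w : Fin m → Set Dat, (∀ i, w i ∈ 𝓥 ∧ w i ⊆ v) ∧ SepF C dO w ∧
    (SepF C dA w ∨ Cst dA v) ∧ (SepF C dB w ∨ Cst dB v)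

structure GP (M : Set P) (d : P → P → ℝ) (C : P) (G : P → ℝ) (u : P) (π : ℝ)
    (𝓥 : Set (Set Dat)) : Prop where
  pm : PM M d
  mem : C ∈ M
  isN : IsN G
  u1 : G u = 1
  du : DU d C G
  pi0 : 0 ≤ π
  pi1 : π ≤ 1
  cells : Cells M d C 𝓥
  act : ∀ X, G X = 1 → (∀ᶠ Y in 𝓝 X, SCd G Y) → ∀ ε > (0 : ℝ), ∃ v ∈ 𝓥, ∃ s, 0 < s ∧ s < ε ∧
    ∀ D ∈ v, Geo C u X π ε s D
  pas : ∀ X, G X = 1 → ∀ ε > (0 : ℝ), ∃ (D : Dat) (s : ℝ), 0 < s ∧ s < ε ∧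
    Circ M d D (d (dO D) C) ∧ Geo C u X π ε s D

/-- the data of the game -/
structure Kx where
  M : Set P
  d : P → P → ℝ
  K : Set P
  F : P → P → ℝ
  a1 : ℝ
  pm : PM M d
  ud : UD M d K F
  isN : ∀ x ∈ K, IsN (F x)
  a10 : 0 < a1
  ex : ∀ O ∈ K, ∀ a, 0 < a → a < a1 → ∃ D : Dat, dO D = O ∧ Circ M d D a
  rho : ∀ ε > (0 : ℝ), ∃ a2 > (0 : ℝ), ∀ (D : Dat) (a : ℝ), dO D ∈ K → a < a2 → Circ M d D a →
    1 - ε ≤ dr D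

/-! ### Norms in slope coordinates -/

/-- restriction to the line of height one -/
def ln (G : P → ℝ) (t : ℝ) : ℝ := G (t, 1)

/-- slope of the chord from `(1,0)` to the upper (`σ = 1`) or lower (`σ = -1`) unit vector of slope `t` -/
def fx (n : ℝ → ℝ) (σ t : ℝ) : ℝ := t - σ * n t

/-- slopes left (`σ = 1`) or right (`σ = -1`) of the cone of support lines at `(1,0)` -/
def Lf (n : ℝ → ℝ) (σ : ℝ) : Set ℝ := {t | ∃ z, σ * t < σ * fx n σ z}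

def Act (n : ℝ → ℝ) : Set ℝ := Lf n 1 ∪ Lf n (-1)

def Sg (σ : ℝ) : Prop := σ = 1 ∨ σ = -1

noncomputable def pis (tO tA tB r : ℝ) : ℝ := (tA - tB) / ((tA - tB) + (1 - r) * (tO - tA))

/-- slopes of thin focal data near the slope `ζ` -/
def Thin (n : ℝ → ℝ) (π σ ζ ε tO tA tB r : ℝ) : Prop :=
  |tO - ζ| ≤ ε ∧ |tA - fx n σ ζ| ≤ ε ∧ |tB - fx n σ ζ| ≤ ε ∧ σ * tB < σ * tA ∧ 1 - ε ≤ r ∧ r < 1 ∧
    |pis tO tA tB r - π| ≤ ε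

def Rel (H : P → ℝ) (n : ℝ → ℝ) (π σ ζ : ℝ) : Prop :=
  ∀ ε > (0 : ℝ), ∃ tO tA tB r, Thin n π σ ζ ε tO tA tB r ∧ Rv H (tO, 1) (tA, 1) (tB, 1) r

def SCout (n : ℝ → ℝ) : Prop := StrictConvexOn ℝ (Lf n 1) n ∧ StrictConvexOn ℝ (Lf n (-1)) n

/-- the norm `H` has the chords of `G` from `(1,0)` as derivatives -/
def Nice (H G : P → ℝ) : Prop :=
  ∀ X, G X = 1 → ∀ s > (0 : ℝ),
    H ((1, 0) - X) - H ((1, 0) - X - s • (1, 0)) ≤ s * G ((1, 0) - X) / 2 ∧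
      s * G ((1, 0) - X) / 2 ≤ H ((1, 0) - X + s • (1, 0)) - H ((1, 0) - X)

/-- the distribution function of the slopes at the focal segment, left part -/
noncomputable def bq (n : ℝ → ℝ) (t : ℝ) : ℝ := -n t / (2 * n (Function.invFun (fx n 1) t))

def FlatRel (n : ℝ → ℝ) (π : ℝ) : Prop :=
  ∃ Z : Set ℝ, Z.Finite ∧ ∃ z1 ∈ Lf n 1, ∀ ζ < z1, ζ ∉ Z → ∀ ε > (0 : ℝ), ∃ tO tA tB r,
    Thin n π 1 ζ ε tO tA tB r ∧
      |bq n tA - bq n tO + r / (1 - r) * (bq n tA - bq n tB)| ≤ ε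

/-- the slopes left of which all windows carry mass -/
def Neg (n : ℝ → ℝ) (t : ℝ) : Prop := ∃ z ∈ Lf n 1, t < fx n 1 z

/-! ### Lines and Crofton measures -/

/-- a pair `(p, θ)` is the line `pr θ y = p` -/
def pr (θ : ℝ) (y : P) : ℝ := y.1 - θ * y.2

noncomputable def ind (l : ℝ × ℝ) (y : P) : ℝ := if l.1 < pr l.2 y then 1 else 0

def sp (y z : P) : Set (ℝ × ℝ) := {l | ¬ (l.1 < pr l.2 y ↔ l.1 < pr l.2 z)}

noncomputable def sl (y X : P) : ℝ := (y.1 - X.1) / (y.2 - X.2)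

/-- mass of the lines with slope in `J` that cross the horizontal segment of radius `s` at `x` -/
noncomputable def mw (μ : Measure (ℝ × ℝ)) (J : Set ℝ) (x : P) (s : ℝ) : ℝ :=
  μ.real {l | l.2 ∈ J ∧ |l.1 - pr l.2 x| ≤ s}

noncomputable def mT (μ : Measure (ℝ × ℝ)) (T : ℝ) (x : P) (s : ℝ) : ℝ := mw μ (Icc (-T) T) x s

structure Crof (d : P → P → ℝ) (x : P) (ρ : ℝ) (μ : Measure (ℝ × ℝ)) (Ψ : ℝ → ℝ) : Prop where
  fin : IsFiniteMeasure μ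
  mono : Monotone Ψ
  eq : ∀ y ∈ ball x ρ, ∀ z ∈ ball x ρ, d y z = μ.real (sp y z) + |Ψ z.2 - Ψ y.2|
  pencil : ∀ y ∈ ball x ρ, μ {l | l.1 = pr l.2 y} = 0

/-! ### The context of the blow-up analysis -/

/-- a cell seen from the closed ball of radius `ρ` around the origin -/
structure Cell (ρ0 : ℝ) (n : ℝ → ℝ) (π : ℝ) (v : Set Dat) (σ ζ ε ρ : ℝ) : Prop where
  rho : 0 < ρ
  mO : ∀ D ∈ v, dO D ∈ ball (0 : P) ρ0
  mB : ∀ D ∈ v, dB D ∈ ball (0 : P) ρ0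
  hO : ∀ D ∈ v, ∀ y ∈ closedBall (0 : P) ρ, ρ ≤ σ * (y.2 - (dO D).2)
  hA : ∀ D ∈ v, ∀ y ∈ closedBall (0 : P) ρ, ρ ≤ σ * (y.2 - (dA D).2)
  hB : ∀ D ∈ v, ∀ y ∈ closedBall (0 : P) ρ, ρ ≤ σ * (y.2 - (dB D).2)
  sO : ∀ D ∈ v, ∀ y ∈ closedBall (0 : P) ρ, |sl y (dO D) - ζ| ≤ ε
  sA : ∀ D ∈ v, ∀ y ∈ closedBall (0 : P) ρ, |sl y (dA D) - fx n σ ζ| ≤ ε
  sB : ∀ D ∈ v, ∀ y ∈ closedBall (0 : P) ρ, |sl y (dB D) - fx n σ ζ| ≤ ε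
  ord : ∀ D ∈ v, ∀ y ∈ closedBall (0 : P) ρ, σ * sl y (dB D) < σ * sl y (dA D)
  thin : ∀ D ∈ v, Thin n π σ ζ ε (sl 0 (dO D)) (sl 0 (dA D)) (sl 0 (dB D)) (dr D)

structure Ctx where
  M : Set P
  d : P → P → ℝ
  G : P → ℝ
  π : ℝ
  𝓥 : Set (Set Dat)
  ρ0 : ℝ
  μ : Measure (ℝ × ℝ)
  Ψ : ℝ → ℝ
  T0 : ℝ
  gp : GP M d 0 G (1, 0) π 𝓥
  rho0 : 0 < ρ0
  sub : ball (0 : P) ρ0 ⊆ M
  crof : Crof d 0 ρ0 μ Ψ
  sc : SCout (ln G)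
  rel : ∀ σ, Sg σ → ∀ ζ, Rel G (ln G) π σ ζ
  root : ∀ σ, Sg σ → ∀ ζ ∈ Act (ln G), ∀ ε > (0 : ℝ), ∃ v ∈ 𝓥, ∃ ρ, Cell ρ0 (ln G) π v σ ζ ε ρ
  t0 : 1 ≤ T0
  neg : Neg (ln G) (1 - T0)

/-- comparison of the masses of lines at all places and scales near the origin -/
structure Reg (c : Ctx) : Prop where
  pos : ∃ ρ > (0 : ℝ), ∀ x ∈ ball (0 : P) ρ, ∀ s > (0 : ℝ), 0 < mT c.μ c.T0 x s
  cmp : ∀ T a b : ℝ, a < b → Neg (ln c.G) b → ∀ k ≥ (1 : ℝ), ∃ C > (0 : ℝ), ∃ ρ > (0 : ℝ),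
    ∀ x ∈ ball (0 : P) ρ, ∀ s, 0 < s → s < ρ → ∀ y ∈ closedBall x (k * s),
      mT c.μ T x (k * s) ≤ C * mw c.μ (Icc a b) y (s / k)
  lg : ∀ T : ℝ, ∀ ε > (0 : ℝ), ∃ η > (0 : ℝ), ∃ ρ > (0 : ℝ),
    ∀ x ∈ ball (0 : P) ρ, ∀ s, 0 < s → s < ρ → mT c.μ T x (η * s) ≤ ε * mT c.μ c.T0 x s

/-- a system of places converging to the origin -/
structure Sys (c : Ctx) (ι : Type) where
  U : Ultrafilter ι
  x : ι → P
  s : ι → ℝ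
  N : ι → ℝ
  tx : Tendsto x U (𝓝 0)
  ts : Tendsto s U (𝓝 0)
  s0 : ∀ i, 0 < s i
  N0 : ∀ i, 0 < N i
  cmp : ∃ C > (0 : ℝ), ∀ᶠ i in (U : Filter ι),
    mT c.μ c.T0 (x i) (s i) ≤ C * N i ∧ N i ≤ C * mT c.μ c.T0 (x i) (s i)

namespace Sys

variable {c : Ctx} {ι : Type} (S : Sys c ι)

/-- the range of size `k` -/
def B (k : ℝ) (i : ι) : Set P := closedBall (S.x i) (k * S.s i)

/-- a point far below (`σ = 1`) or above (`σ = -1`) the places, seen under the slope `t` -/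
def Far (σ : ℝ) (X : ι → P) (t : ℝ) : Prop :=
  ∀ k : ℝ, ∀ η > (0 : ℝ), ∀ᶠ i in (S.U : Filter ι), X i ∈ ball (0 : P) c.ρ0 ∧
    ∀ y ∈ S.B k i, k * S.s i ≤ σ * (y.2 - (X i).2) ∧ |sl y (X i) - t| ≤ η

/-- `hf` is a monotone function of the distance from the centre, in the limit -/
def Mon (D : ι → Dat) : Prop :=
  ∀ k : ℝ, ∀ ε > (0 : ℝ), ∀ᶠ i in (S.U : Filter ι), ∀ y ∈ S.B k i, ∀ z ∈ S.B k i,
    c.d (dO (D i)) y ≤ c.d (dO (D i)) z → hf c.d (D i) y ≤ hf c.d (D i) z + ε * S.N i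

structure Fam (σ : ℝ) (D : ι → Dat) (tO tA tB r : ℝ) : Prop where
  fO : S.Far σ (fun i => dO (D i)) tO
  fA : S.Far σ (fun i => dA (D i)) tA
  fB : S.Far σ (fun i => dB (D i)) tB
  lt : σ * tA < σ * tO
  ord : ∀ k : ℝ, ∀ᶠ i in (S.U : Filter ι), ∀ y ∈ S.B k i,
    σ * sl y (dB (D i)) ≤ σ * sl y (dA (D i))
  r01 : ∀ i, 0 < dr (D i) ∧ dr (D i) < 1
  tr : Tendsto (fun i => dr (D i)) S.U (𝓝 r)
  mon : S.Mon D

def Hon (H : P → ℝ) : Prop := IsN H ∧ Appr S.U c.d S.x S.s S.N H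

/-- the metric is controlled by the lines of bounded slope -/
def DB : Prop := ∃ K > (0 : ℝ), ∃ T : ℝ, ∀ k : ℝ, ∀ ε > (0 : ℝ), ∀ᶠ i in (S.U : Filter ι),
  ∀ y ∈ S.B k i, ∀ z ∈ S.B k i, c.d y z ≤ K * mT c.μ T y (K * ‖z - y‖) + ε * S.N i

/-- a combination of three distance functions is constant along the lines of slope `ξ` -/
def Lin (X : Fin 3 → ι → P) (α : Fin 3 → ℝ) (ξ : ℝ) : Prop :=
  ∀ k : ℝ, ∀ ε > (0 : ℝ), ∀ᶠ i in (S.U : Filter ι), ∀ y ∈ S.B k i, ∀ z ∈ S.B k i,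
    pr ξ y = pr ξ z → |∑ j, α j * (c.d (X j i) z - c.d (X j i) y)| ≤ ε * S.N i

/-- linear growth of the mass -/
def Gro : Prop := ∀ T : ℝ, ∃ C > (0 : ℝ), ∀ R ≥ (1 : ℝ), ∀ᶠ i in (S.U : Filter ι),
  mT c.μ T (S.x i) (R * S.s i) ≤ C * R * S.N i

/-- thin families do not see the levels at finite distance -/
def Flat : Prop := ∃ Z : Set ℝ, Z.Finite ∧ ∀ ζ, Neg (ln c.G) ζ → ζ ∉ Z → ∀ ε > (0 : ℝ), ∀ k : ℝ,
  ∃ (D : ι → Dat) (tO tA tB r : ℝ), S.Fam 1 D tO tA tB r ∧ Thin (ln c.G) c.π 1 ζ ε tO tA tB r ∧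
    ∀ᶠ i in (S.U : Filter ι), ∀ y ∈ S.B k i, ∀ z ∈ S.B k i, c.d (S.x i) y ≤ k * S.N i →
      c.d (S.x i) z ≤ k * S.N i → |hf c.d (D i) z - hf c.d (D i) y| ≤ ε * S.N i

end Sys

/-- the coefficient of the lines of slope `θ` in a relation does not vanish -/
def Sees (t α : Fin 3 → ℝ) (ξ θ : ℝ) : Prop :=
  θ ≠ ξ ∧ (∀ j, θ ≠ t j) ∧ ∑ j, α j * Real.sign (t j - θ) ≠ 0

end Pool.Agent.P.MP_874adf_gt.Gn
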