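import Pool.Agent.P.MP_874adf_gt.Gn.CraB
import Pool.Agent.P.MP_874adf_gt.Gn.Defs

/-! The measure of the lines that cross one side of a square. -/

set_option autoImplicit false

namespace Pool.Agent.P.MP_874adf_gt.Gn

open Pool.Agent.P.MP_874adf_gt.Fs Set Filter Topology Metric MeasureTheory

structure CrM (M : Set P) (d : P → P → ℝ) : Prop where
  cvx : Convex ℝ M
  symm : ∀ x ∈ M, ∀ y ∈ M, d x y = d y x
  tri : ∀ x ∈ M, ∀ y ∈ M, ∀ z ∈ M, d x z ≤ d x y + d y z
  add : ∀ x ∈ M, ∀ z ∈ M, ∀ t : ℝ, 0 ≤ t → t ≤ 1 →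
    d x (x + t • (z - x)) + d (x + t • (z - x)) z = d x z
  cont : ContinuousOn (fun p : P × P => d p.1 p.2) (M ×ˢ M)

lemma cra_sp_meas (y z : P) : MeasurableSet (sp y z) := by
  have m : ∀ w : P, MeasurableSet {l : ℝ × ℝ | l.1 < pr l.2 w} := fun w =>
    measurableSet_lt measurable_fst (by unfold pr; fun_prop)
  have : sp y z = symmDiff {l : ℝ × ℝ | l.1 < pr l.2 y} {l : ℝ × ℝ | l.1 < pr l.2 z} := by
    ext l
    simp only [sp, mem_ofPred_eq, mem_symmDiff]
    tauto
  rw [this]
  exact (m y).symmDiff (m z)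

lemma CrM.monge {M : Set P} {d : P → P → ℝ} (H : CrM M d) {s s' t t' u v : ℝ} (h1 : s ≤ s')
    (h2 : t ≤ t') (a : (s, u) ∈ M) (a' : (s', u) ∈ M) (b : (t, v) ∈ M) (b' : (t', v) ∈ M) :
    d (s, u) (t, v) + d (s', u) (t', v) ≤ d (s, u) (t', v) + d (s', u) (t, v) := by
  rcases h1.eq_or_lt with rfl | h1
  · linarith
  have q : 0 < s' - s + (t' - t) := by linarith
  set l := (s' - s) / (s' - s + (t' - t)) with hl
  have l0 : 0 ≤ l := div_nonneg (by linarith) q.le
  have l1 : l ≤ 1 := (div_le_one q).2 (by linarith)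
  have e : ((s, u) : P) + l • (((t', v) : P) - (s, u)) = (s', u) + l • (((t, v) : P) - (s', u)) := by
    ext
    · simp only [Prod.fst_add, Prod.smul_fst, Prod.fst_sub, smul_eq_mul, hl]
      field_simp
      ring
    · rfl
  have m := H.cvx.add_smul_sub_mem a b' ⟨l0, l1⟩
  have e1 := H.add _ a _ b' l l0 l1
  have e2 := H.add _ a' _ b l l0 l1
  rw [← e] at e2
  have t1 := H.tri _ a _ m _ b
  have t2 := H.tri _ a' _ m _ b'
  linarith

theorem cra_side {d : P → P → ℝ} {x : P} {k e : ℝ} (k0 : 0 < k) (he : e = 1 ∨ e = -1)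
    (H : CrM (closedBall x (2 * k)) d) :
    ∃ μ : Measure (ℝ × ℝ), IsFiniteMeasure μ ∧ μ {l | 2 < |l.2|} = 0 ∧
      ∀ y ∈ ball x (k / 10), ∀ z ∈ ball x (k / 10), y ≠ z → μ.real (sp y z) =
        Real.sign (e * wed (z - y) ((x.1 + k, x.2 + e * k) - y)) *
            (d (x.1 + k, x.2 + e * k) y - d (x.1 + k, x.2 + e * k) z) -
          Real.sign (e * wed (z - y) ((x.1 - k, x.2 + e * k) - y)) *
            (d (x.1 - k, x.2 + e * k) y - d (x.1 - k, x.2 + e * k) z) +
        |Real.sign (e * wed (z - y) ((x.1 + k, x.2 + e * k) - y)) -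
          Real.sign (e * wed (z - y) ((x.1 - k, x.2 + e * k) - y))| * d y z := by
  have ee : e * e = 1 := by rcases he with rfl | rfl <;> norm_num
  have ea : |e| = 1 := by rcases he with rfl | rfl <;> norm_num
  set a := x.1 - 2 * k with ha
  set b := x.1 + 2 * k with hb
  set u := x.2 + e * k with hu
  set v := x.2 - e * k with hv
  have mem : ∀ s ∈ Icc a b, ∀ w, (w = u ∨ w = v) → (s, w) ∈ closedBall x (2 * k) := by
    intro s hs w hw
    rw [mem_closedBall, Prod.dist_eq, max_le_iff, Real.dist_eq, Real.dist_eq]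
    refine ⟨abs_le.2 ⟨by linarith [hs.1], by linarith [hs.2]⟩, ?_⟩
    rcases hw with rfl | rfl
    · rw [hu, add_sub_cancel_left, abs_mul, ea, abs_of_pos k0]; linarith
    · rw [hv, sub_sub_cancel_left, abs_neg, abs_mul, ea, abs_of_pos k0]; linarith
  have mA : ∀ s ∈ Icc a b, (s, u) ∈ closedBall x (2 * k) := fun s hs => mem s hs u (Or.inl rfl)
  have mB : ∀ s ∈ Icc a b, (s, v) ∈ closedBall x (2 * k) := fun s hs => mem s hs v (Or.inr rfl)
  set F : ℝ → ℝ → ℝ := fun s t => d (s, u) (t, v) with hF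
  obtain ⟨ν, fin, hν⟩ := cra_measure F (a := a) (b := b) (by linarith)
    (H.cont.comp (f := fun p : ℝ × ℝ => (((p.1, u), (p.2, v)) : P × P)) (by fun_prop)
      fun p hp => ⟨mA _ hp.1, mB _ hp.2⟩)
    (fun s s' t t' h1 h2 h3 h4 h5 h6 => by
      have := H.monge h2 h5 (mA s ⟨h1, h2.trans h3⟩) (mA s' ⟨h1.trans h2, h3⟩)
        (mB t ⟨h4, h5.trans h6⟩) (mB t' ⟨h4.trans h5, h6⟩)
      simp only [crD, hF]; linarith)
  set lam : P → ℝ := fun y => (k - e * (y.2 - x.2)) / (2 * k) with hlam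
  set al : P → ℝ := fun y => y.1 / lam y with hal
  set be : P → ℝ := fun y => (1 - lam y) / lam y with hbe
  have sub : ball x (k / 10) ⊆ closedBall x (2 * k) :=
    ball_subset_closedBall.trans (closedBall_subset_closedBall (by linarith))
  have co : ∀ y ∈ ball x (k / 10), |y.1 - x.1| < k / 10 ∧ |y.2 - x.2| < k / 10 := fun y hy => by
    rwa [mem_ball, Prod.dist_eq, max_lt_iff, Real.dist_eq, Real.dist_eq] at hy
  have lb : ∀ y ∈ ball x (k / 10), 9 / 20 < lam y ∧ lam y < 11 / 20 := fun y hy => by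
    have h := (co y hy).2
    have h' : |e * (y.2 - x.2)| < k / 10 := by rwa [abs_mul, ea, one_mul]
    rw [abs_lt] at h'
    simp only [hlam]
    rw [lt_div_iff₀ (by positivity), div_lt_iff₀ (by positivity)]
    constructor <;> linarith [h'.1, h'.2]
  have l2 : ∀ y : P, y.2 = u - 2 * e * k * lam y := fun y => by
    simp only [hlam, hu]
    field_simp
    linear_combination (x.2 - y.2) * ee
  have l1 : ∀ y ∈ ball x (k / 10), ∀ s, lam y * (al y - be y * s) = y.1 - (1 - lam y) * s :=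
    fun y hy s => by
      have := (lb y hy).1
      simp only [hal, hbe]
      field_simp
  have pt : ∀ y ∈ ball x (k / 10), ∀ s,
      y = (s, u) + lam y • (((al y - be y * s, v) : P) - (s, u)) := fun y hy s => by
    ext
    · simp only [Prod.fst_add, Prod.smul_fst, Prod.fst_sub, smul_eq_mul]
      linear_combination -l1 y hy s
    · simp only [Prod.snd_add, Prod.smul_snd, Prod.snd_sub, smul_eq_mul]
      rw [l2 y, hu, hv]; ring
  have rg : ∀ y ∈ ball x (k / 10), ∀ s ∈ Icc (x.1 - k) (x.1 + k), al y - be y * s ∈ Ioo a b := by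
    intro y hy s hs
    obtain ⟨p1, p2⟩ := lb y hy
    have h := abs_lt.1 (co y hy).1
    have e1 := l1 y hy s
    have l0 : 0 < lam y := by linarith
    constructor
    · refine lt_of_mul_lt_mul_left ?_ l0.le
      rw [e1, ha]
      nlinarith [hs.1, hs.2, h.1, h.2]
    · refine lt_of_mul_lt_mul_left ?_ l0.le
      rw [e1, hb]
      nlinarith [hs.1, hs.2, h.1, h.2]
  have sI : Icc (x.1 - k) (x.1 + k) ⊆ Icc a b := Icc_subset_Icc (by linarith) (by linarith)
  have mass : ∀ s0 ∈ Icc (x.1 - k) (x.1 + k), ∀ s1 ∈ Icc (x.1 - k) (x.1 + k), s0 ≤ s1 →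
      ∀ y ∈ ball x (k / 10), ν.real (crO s0 s1 (al y) (be y)) =
        d (s0, u) y - d (s1, u) y + F s1 a - F s0 a := by
    intro s0 h0 s1 h1 h01 y hy
    obtain ⟨p1, p2⟩ := lb y hy
    set Y : ℝ → P := fun γ => (y.1 + lam y * γ, y.2) with hY
    have cY : Continuous Y := by fun_prop
    have Y0 : Y 0 = y := by simp [hY]
    have ev : ∀ᶠ γ in 𝓝 (0 : ℝ), Y γ ∈ ball x (k / 10) :=
      cY.continuousAt.eventually (isOpen_ball.mem_nhds (by rwa [Y0]))
    have ct : ∀ s ∈ Icc a b, ContinuousAt (fun γ => d (s, u) (Y γ)) 0 := fun s hs => by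
      have := (H.cont _ (⟨mA s hs, sub hy⟩ : ((s, u), y) ∈ _ ×ˢ _)).tendsto.comp
        (tendsto_nhdsWithin_iff.2 ⟨(by
          have : Continuous fun γ => (((s, u), Y γ) : P × P) := by fun_prop
          simpa [Y0] using this.tendsto 0 : Tendsto (fun γ => (((s, u), Y γ) : P × P)) (𝓝 0)
            (𝓝 ((s, u), y))), ev.mono fun γ h => ⟨mA s hs, sub h⟩⟩)
      simpa [ContinuousAt, Y0, Function.comp_def] using this
    have := cra_exact (μ := ν) (s0 := s0) (s1 := s1) (α := al y) (β := be y)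
      (X := fun γ => d (s0, u) (Y γ) - d (s1, u) (Y γ) + F s1 a - F s0 a)
      ((((ct s0 (sI h0)).sub (ct s1 (sI h1))).add continuousAt_const).sub continuousAt_const) ?_
    · simpa only [Y0] using this
    filter_upwards [ev] with γ hγ η hη
    have e1 : lam (Y γ) = lam y := rfl
    have e2 : be (Y γ) = be y := rfl
    have e3 : al (Y γ) = al y + γ := by
      change (y.1 + lam y * γ) / lam y = y.1 / lam y + γ
      field_simp
    have ss : Icc s0 s1 ⊆ Icc (x.1 - k) (x.1 + k) := Icc_subset_Icc h0.1 h1.2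
    rw [← e3, ← e2]
    refine cra_stair hν (D := fun s => d (s, u) (Y γ)) (E := fun t => d (Y γ) (t, v))
      (by linarith [h0.1]) h01 (by linarith [h1.2]) (div_pos (by rw [e1]; linarith) (by rw [e1]; linarith))
      (fun s hs => rg _ hγ s (ss hs)) (fun s hs t ht => H.tri _ (mA s (sI (ss hs))) _ (sub hγ) _
        (mB t (Ioo_subset_Icc_self ht))) (fun s hs => ?_) hη
    have := H.add _ (mA s (sI (ss hs))) _ (mB _ (Ioo_subset_Icc_self (rg _ hγ s (ss hs))))
      (lam (Y γ)) (by rw [e1]; linarith) (by rw [e1]; linarith)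
    rw [← pt _ hγ s] at this
    exact this.symm
  set Λ : ℝ × ℝ → ℝ × ℝ := fun p => (p.1 - e * (p.1 - p.2) / (2 * k) * u, e * (p.1 - p.2) / (2 * k))
    with hΛ
  have mΛ : Measurable Λ := by fun_prop
  have iff : ∀ y ∈ ball x (k / 10), ∀ p : ℝ × ℝ,
      (Λ p).1 < pr (Λ p).2 y ↔ p.2 < al y - be y * p.1 := fun y hy p => by
    have l0 : 0 < lam y := by linarith [(lb y hy).1]
    have e1 : pr (Λ p).2 y - (Λ p).1 = lam y * (al y - be y * p.1 - p.2) := by
      rw [mul_sub, l1 y hy]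
      simp only [pr, hΛ]
      rw [l2 y]
      field_simp
      linear_combination (2 * k * lam y * (p.1 - p.2)) * ee
    rw [← sub_pos, e1, mul_pos_iff_of_pos_left l0, sub_pos]
  set S : Set (ℝ × ℝ) := Ioc (x.1 - k) (x.1 + k) ×ˢ Icc a b with hS
  refine ⟨(ν.restrict S).map Λ, inferInstance, ?_, fun y hy z hz ne => ?_⟩
  · rw [Measure.map_apply mΛ (measurableSet_lt measurable_const (by fun_prop)),
      Measure.restrict_apply (mΛ (measurableSet_lt measurable_const (by fun_prop)))]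
    convert measure_empty (μ := ν)
    refine eq_empty_of_forall_notMem fun p hp => ?_
    have h1 : 2 < |e * (p.1 - p.2) / (2 * k)| := hp.1
    rw [abs_div, abs_mul, ea, one_mul, abs_of_pos (by positivity : 0 < 2 * k),
      lt_div_iff₀ (by positivity)] at h1
    obtain ⟨⟨q1, q2⟩, q3, q4⟩ := hp.2
    have : |p.1 - p.2| ≤ 3 * k := abs_le.2 ⟨by linarith, by linarith⟩
    linarith
  set T : ℝ → ℝ → Set (ℝ × ℝ) := fun s0 s1 => {p | s0 < p.1 ∧ p.1 ≤ s1 ∧
    ¬ (p.2 < al y - be y * p.1 ↔ p.2 < al z - be z * p.1)} with hT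
  have Te : ∀ s0 s1, T s0 s1 = symmDiff (crO s0 s1 (al y) (be y)) (crO s0 s1 (al z) (be z)) := by
    intro s0 s1
    ext p
    simp only [hT, crO, mem_ofPred_eq, mem_symmDiff]
    tauto
  have Tm : ∀ s0 s1, MeasurableSet (T s0 s1) := fun s0 s1 => by
    rw [Te]; exact (crO_meas _ _ _ _).symmDiff (crO_meas _ _ _ _)
  have e0 : ((ν.restrict S).map Λ).real (sp y z) = ν.real (T (x.1 - k) (x.1 + k)) := by
    rw [measureReal_def, Measure.map_apply mΛ (cra_sp_meas y z),
      Measure.restrict_apply (mΛ (cra_sp_meas y z)), measureReal_def]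
    congr 2
    ext p
    simp only [mem_inter_iff, mem_preimage, sp, mem_ofPred_eq, iff y hy, iff z hz, hT, hS, mem_prod,
      mem_Ioc]
    constructor
    · rintro ⟨q1, ⟨q2, q3⟩, -⟩
      exact ⟨q2, q3, q1⟩
    · rintro ⟨q1, q2, q3⟩
      have r1 := rg y hy p.1 ⟨q1.le, q2⟩
      have r2 := rg z hz p.1 ⟨q1.le, q2⟩
      refine ⟨q3, ⟨q1, q2⟩, ?_, ?_⟩
      · by_contra c
        rw [not_le] at c
        exact q3 (iff_of_true (c.trans r1.1) (c.trans r2.1))
      · by_contra c
        rw [not_le] at c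
        exact q3 (iff_of_false (not_lt.2 (r1.2.trans c).le) (not_lt.2 (r2.2.trans c).le))
  obtain ⟨y1, y2⟩ := lb y hy
  obtain ⟨z1, z2⟩ := lb z hz
  have sg : ∀ s, Real.sign (e * wed (z - y) ((s, u) - y)) =
      Real.sign (al z - al y + (be y - be z) * s) := fun s => by
    have e1 : e * wed (z - y) ((s, u) - y) =
        (2 * k * lam y * lam z) * (al z - al y + (be y - be z) * s) := by
      have f1 := l1 y hy s
      have f2 := l1 z hz s
      simp only [wed, Prod.fst_sub, Prod.snd_sub]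
      rw [l2 y, l2 z]
      linear_combination (2 * k * lam z) * f1 - (2 * k * lam y) * f2 +
        (2 * k * ((z.1 - y.1) * lam y - (lam y - lam z) * (s - y.1))) * ee
    have p : 0 < 2 * k * lam y * lam z := by positivity
    rw [e1]
    rcases lt_trichotomy (al z - al y + (be y - be z) * s) 0 with c | c | c
    · rw [Real.sign_of_neg c, Real.sign_of_neg (mul_neg_of_pos_of_neg p c)]
    · rw [c, mul_zero]
    · rw [Real.sign_of_pos c, Real.sign_of_pos (mul_pos p c)]
  have ord : ∀ {y z : P}, y ∈ ball x (k / 10) → z ∈ ball x (k / 10) →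
      ∀ s0 ∈ Icc (x.1 - k) (x.1 + k), ∀ s1 ∈ Icc (x.1 - k) (x.1 + k), s0 ≤ s1 →
      0 ≤ al z - al y + (be y - be z) * s0 → 0 ≤ al z - al y + (be y - be z) * s1 →
      ν.real (symmDiff (crO s0 s1 (al y) (be y)) (crO s0 s1 (al z) (be z))) =
        d (s1, u) y - d (s1, u) z - (d (s0, u) y - d (s0, u) z) := by
    intro y z hy hz s0 h0 s1 h1 h01 q0 q1
    have ss : crO s0 s1 (al y) (be y) ⊆ crO s0 s1 (al z) (be z) := fun p hp => ⟨hp.1, hp.2.1, by
      have := hp.2.2
      rcases le_total 0 (be y - be z) with c | c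
      · have := mul_le_mul_of_nonneg_left hp.1.le c
        linarith
      · have := mul_le_mul_of_nonpos_left hp.2.1 c
        linarith⟩
    rw [symmDiff_of_le ss, measureReal_sdiff ss (crO_meas _ _ _ _), mass s0 h0 s1 h1 h01 y hy,
      mass s0 h0 s1 h1 h01 z hz]
    ring
  have col : ∀ {y z : P}, y ∈ ball x (k / 10) → z ∈ ball x (k / 10) →
      ∀ c ∈ Icc (x.1 - k) (x.1 + k), al z - al y + (be y - be z) * c = 0 → 0 < be y - be z →
      d (c, u) y - d (c, u) z = -d y z := by
    intro y z hy hz c hc q0 q1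
    obtain ⟨y1, y2⟩ := lb y hy
    obtain ⟨z1, z2⟩ := lb z hz
    have lt : lam y < lam z := by
      simp only [hbe] at q1
      rw [sub_pos, div_lt_div_iff₀ (by linarith) (by linarith)] at q1
      linarith
    have e1 : y = (c, u) + (lam y / lam z) • (z - (c, u)) := by
      have f1 := pt y hy c
      have f2 := pt z hz c
      rw [show al z - be z * c = al y - be y * c by linarith] at f2
      rw [← sub_eq_iff_eq_add'] at f2
      rw [f2, smul_smul, div_mul_cancel₀ _ (by linarith)]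
      exact f1
    have := H.add _ (mA c (sI hc)) _ (sub hz) (lam y / lam z) (by positivity)
      ((div_le_one (by linarith)).2 lt.le)
    rw [← e1] at this
    linarith
  rw [e0, sg, sg]
  refine cra_sign (V := fun s0 s1 => ν.real (T s0 s1)) (g := fun s => d (s, u) y - d (s, u) z)
    (by linarith) (fun c hc => ?_) (fun s0 h0 s1 h1 h01 q0 q1 => ?_)
    (fun s0 h0 s1 h1 h01 q0 q1 => ?_) (fun c hc q0 q1 => col hy hz c hc q0 q1)
    (fun c hc q0 q1 => ?_) fun q0 q1 => ne ?_
  · rw [← measureReal_union _ (Tm _ _)]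
    · congr 1
      ext p
      simp only [hT, mem_union, mem_ofPred_eq]
      constructor
      · rintro ⟨a, b, c'⟩
        rcases le_or_gt p.1 c with e | e
        · exact Or.inl ⟨a, e, c'⟩
        · exact Or.inr ⟨e, b, c'⟩
      · rintro (⟨a, b, c'⟩ | ⟨a, b, c'⟩)
        · exact ⟨a, b.trans hc.2, c'⟩
        · exact ⟨hc.1.trans_lt a, b, c'⟩
    · exact disjoint_left.2 fun p h h' => (not_le.2 h'.1) h.2.1
  · simp only [Te]
    exact ord hy hz s0 h0 s1 h1 h01 q0 q1
  · simp only [Te]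
    rw [symmDiff_comm, ord hz hy s0 h0 s1 h1 h01 (by linarith) (by linarith)]
    ring
  · have := col hz hy c hc (by linarith) (by linarith)
    rw [H.symm z (sub hz) y (sub hy)] at this
    linarith
  · rw [pt y hy 0, pt z hz 0]
    have e1 : lam y = lam z := by
      simp only [hbe] at q0
      rw [sub_eq_zero, div_eq_div_iff (by linarith) (by linarith)] at q0
      linarith
    rw [e1, show al y = al z by linarith, show be y = be z by linarith]

end Pool.Agent.P.MP_874adf_gt.Gn
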