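import Pool.Agent.P.MP_874adf_gt.Gn.Iface0
import Pool.Agent.P.MP_874adf_gt.Gn.CraC

/-! Step CR. -/

set_option autoImplicit false

namespace Pool.Agent.P.MP_874adf_gt.Gn

open Pool.Agent.P.MP_874adf_gt.Fs Set Filter Topology Metric MeasureTheory

lemma cr_pencil {ν : Measure (ℝ × ℝ)} [IsFiniteMeasure ν] {y : P} {f : ℝ → ℝ}
    (t : Tendsto f (𝓝[>] 0) (𝓝 0))
    (h : ∀ᶠ η in 𝓝[>] (0 : ℝ), ν.real (sp y (y.1 + η, y.2)) ≤ f η) :
    ν {l | l.1 = pr l.2 y} = 0 := by
  rw [← measureReal_eq_zero_iff]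
  refine le_antisymm (ge_of_tendsto t ?_) measureReal_nonneg
  filter_upwards [h, self_mem_nhdsWithin] with η h1 h2
  refine le_trans ?_ h1
  refine measureReal_mono fun l hl c => ?_
  have e : l.1 = pr l.2 y := hl
  have h3 : (0 : ℝ) < η := h2
  refine (c.2 ?_).ne e
  rw [e]
  simp only [pr]
  linarith

lemma cr_small {M : Set P} {d : P → P → ℝ} (pm : PM M d) {y : P} (hy : y ∈ M) {g : ℝ → P}
    (cg : Continuous g) (g0 : g 0 = y) : Tendsto (fun η => d y (g η)) (𝓝[>] 0) (𝓝 0) := by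
  have := pm.tendsto hy hy (tendsto_const_nhds (f := 𝓝[>] (0 : ℝ)))
    ((cg.tendsto' 0 y g0).mono_left nhdsWithin_le_nhds)
  rwa [pm.self hy] at this

theorem p_CR (hCRA : S_CRA) :
    S_CR := by
  intro M d pm x hx
  obtain ⟨ρ, ρ0, sub, μ1, μ2, f1, f2, -, -, e⟩ := hCRA M d pm x hx
  have ev : ∀ y ∈ ball x ρ, ∀ g : ℝ → P, Continuous g → g 0 = y →
      ∀ᶠ η in 𝓝[>] (0 : ℝ), g η ∈ ball x ρ := fun y hy g cg g0 =>
    ((cg.tendsto' 0 y g0).mono_left nhdsWithin_le_nhds).eventually (isOpen_ball.mem_nhds hy)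
  have p1 : ∀ y ∈ ball x ρ, μ1 {l | l.1 = pr l.2 y} = 0 := fun y hy =>
    cr_pencil (cr_small pm (sub hy) (g := fun η => (y.1 + η, y.2)) (by fun_prop) (by simp))
      ((ev y hy (fun η => (y.1 + η, y.2)) (by fun_prop) (by simp)).mono fun η h => by
        rw [e y hy _ h]; exact le_add_of_nonneg_right measureReal_nonneg)
  have p2 : ∀ y ∈ ball x ρ, μ2 {l | l.1 = pr l.2 y.swap} = 0 := fun y hy =>
    cr_pencil (cr_small pm (sub hy) (g := fun η => (y.1, y.2 + η)) (by fun_prop) (by simp))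
      ((ev y hy (fun η => (y.1, y.2 + η)) (by fun_prop) (by simp)).mono fun η h => by
        rw [e y hy _ h]; exact le_add_of_nonneg_left measureReal_nonneg)
  set Γ : ℝ × ℝ → ℝ × ℝ := fun l => (-l.1 / l.2, 1 / l.2) with hΓ
  have mΓ : Measurable Γ := by fun_prop
  set N : Set (ℝ × ℝ) := {l | l.2 = 0} with hN
  have mN : MeasurableSet N := measurableSet_eq_fun measurable_snd measurable_const
  have key : ∀ (l : ℝ × ℝ) (y : P), l.2 ≠ 0 →
      pr (Γ l).2 y - (Γ l).1 = (l.1 - pr l.2 y.swap) / l.2 := fun l y h => by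
    simp only [hΓ, pr, Prod.fst_swap, Prod.snd_swap]
    field_simp
    ring
  have mL : ∀ t, MeasurableSet {l : ℝ × ℝ | l.2 = 0 ∧ l.1 < t} := fun t =>
    mN.inter (measurableSet_lt measurable_fst measurable_const)
  have mono : ∀ {s t : ℝ}, s ≤ t → {l : ℝ × ℝ | l.2 = 0 ∧ l.1 < s} ⊆ {l | l.2 = 0 ∧ l.1 < t} :=
    fun h l hl => ⟨hl.1, hl.2.trans_le h⟩
  refine ⟨ρ, ρ0, sub, μ1 + (μ2.restrict Nᶜ).map Γ, fun t => μ2.real {l | l.2 = 0 ∧ l.1 < t},
    inferInstance, fun s t h => measureReal_mono (mono h), fun y hy z hz => ?_, fun y hy => ?_⟩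
  · have a1 : ((μ2.restrict Nᶜ).map Γ).real (sp y z) = μ2.real (sp y.swap z.swap \ N) := by
      rw [measureReal_def, Measure.map_apply mΓ (cra_sp_meas y z),
        Measure.restrict_apply (mΓ (cra_sp_meas y z)), measureReal_def]
      congr 1
      refine measure_congr ?_
      have n1 : ∀ᵐ l ∂μ2, ¬ l.1 = pr l.2 y.swap := measure_eq_zero_iff_ae_notMem.1 (p2 y hy)
      have n2 : ∀ᵐ l ∂μ2, ¬ l.1 = pr l.2 z.swap := measure_eq_zero_iff_ae_notMem.1 (p2 z hz)
      filter_upwards [n1, n2] with l n1 n2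
      refine propext (and_congr_left fun h => ?_)
      have h0 : l.2 ≠ 0 := h
      change ¬ ((Γ l).1 < pr (Γ l).2 y ↔ (Γ l).1 < pr (Γ l).2 z) ↔
        ¬ (l.1 < pr l.2 y.swap ↔ l.1 < pr l.2 z.swap)
      rw [← sub_pos (a := pr (Γ l).2 y), ← sub_pos (a := pr (Γ l).2 z), key l y h0, key l z h0]
      rcases lt_or_gt_of_ne h0 with c | c
      · simp only [div_pos_iff, c, c.not_gt, and_false, and_true, false_or, sub_neg]
      · simp only [div_pos_iff_of_pos_right c, sub_pos]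
        rw [lt_iff_not_ge, lt_iff_not_ge (a := pr l.2 z.swap), le_iff_lt_or_eq, le_iff_lt_or_eq]
        tauto
    have a2 : ∀ {y z : P}, y.2 ≤ z.2 → μ2.real (sp y.swap z.swap ∩ N) =
        |μ2.real {l | l.2 = 0 ∧ l.1 < z.2} - μ2.real {l | l.2 = 0 ∧ l.1 < y.2}| := by
      intro y z h
      rw [abs_of_nonneg (sub_nonneg.2 (measureReal_mono (mono h))),
        ← measureReal_sdiff (mono h) (mL _)]
      congr 1
      ext l
      simp only [sp, hN, pr, mem_inter_iff, mem_ofPred_eq, Set.mem_sdiff, Prod.fst_swap, Prod.snd_swap]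
      constructor
      · rintro ⟨q1, q2⟩
        simp only [q2, zero_mul, sub_zero] at q1
        have := fun c : l.1 < y.2 => c.trans_le h
        tauto
      · rintro ⟨⟨q1, q2⟩, q3⟩
        simp only [q1, zero_mul, sub_zero]
        tauto
    have a3 : μ2.real (sp y.swap z.swap ∩ N) =
        |μ2.real {l | l.2 = 0 ∧ l.1 < z.2} - μ2.real {l | l.2 = 0 ∧ l.1 < y.2}| := by
      rcases le_total y.2 z.2 with c | c
      · exact a2 c
      · rw [abs_sub_comm, ← a2 c]
        congr 2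
        ext l
        simp only [sp, mem_ofPred_eq, iff_comm]
    rw [e y hy z hz, measureReal_add_apply, a1, ← a3,
      ← measureReal_inter_add_sdiff (s := sp y.swap z.swap) mN]
    ring
  · have m : MeasurableSet {l : ℝ × ℝ | l.1 = pr l.2 y} :=
      measurableSet_eq_fun measurable_fst (by unfold pr; fun_prop)
    rw [Measure.add_apply, p1 y hy, zero_add, Measure.map_apply mΓ m,
      Measure.restrict_apply (mΓ m)]
    refine measure_mono_null (fun l hl => ?_) (p2 y hy)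
    have h0 : l.2 ≠ 0 := hl.2
    have h1 : (Γ l).1 = pr (Γ l).2 y := hl.1
    have := key l y h0
    rw [h1, sub_self, eq_comm, div_eq_zero_iff, sub_eq_zero] at this
    exact this.resolve_right h0

end Pool.Agent.P.MP_874adf_gt.Gn
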