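import Pool.Agent.P.MP_874adf_gt.Gn.Iface0
import Pool.Agent.P.MP_874adf_gt.Gn.CraC

/-! Step CRA. -/

set_option autoImplicit false

namespace Pool.Agent.P.MP_874adf_gt.Gn

open Pool.Agent.P.MP_874adf_gt.Fs Set Filter Topology Metric MeasureTheory

lemma cra_corner {a b c e v w : ℝ} (ha : 0 < a) (hb : 0 < b) (hc : 0 < c) (he : 0 < e)
    (h : v ≠ 0 ∨ w ≠ 0) :
    0 < v * a - w * c ∨ 0 < v * a + w * e ∨ 0 < -(v * b) + w * e ∨ 0 < -(v * b) - w * c := by
  rcases lt_trichotomy v 0 with p | p | p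
  · rcases le_total 0 w with q | q
    · exact Or.inr (Or.inr (Or.inl (by nlinarith [mul_nonneg q he.le])))
    · exact Or.inr (Or.inr (Or.inr (by nlinarith [mul_nonneg (neg_nonneg.2 q) hc.le])))
  · subst p
    rcases lt_or_gt_of_ne (h.resolve_left (not_not.2 rfl)) with q | q
    · exact Or.inl (by nlinarith)
    · exact Or.inr (Or.inl (by nlinarith))
  · rcases le_total 0 w with q | q
    · exact Or.inr (Or.inl (by nlinarith [mul_nonneg q he.le]))
    · exact Or.inl (by nlinarith [mul_nonneg (neg_nonneg.2 q) hc.le])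

lemma cra_swap_mem {x y : P} {r : ℝ} : y.swap ∈ ball x.swap r ↔ y ∈ ball x r := by
  simp only [mem_ball, Prod.dist_eq, Prod.fst_swap, Prod.snd_swap, max_comm]

lemma cra_swap_mem' {x y : P} {r : ℝ} (h : y ∈ closedBall x.swap r) : y.swap ∈ closedBall x r := by
  simpa only [mem_closedBall, Prod.dist_eq, Prod.fst_swap, Prod.snd_swap, max_comm] using h

theorem p_CRA :
    S_CRA := by
  intro M d pm x hx
  obtain ⟨R, R0, hR⟩ := Metric.nhds_basis_closedBall.mem_iff.1 (pm.isOpen.mem_nhds hx)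
  set k := R / 2 with hk
  have k0 : 0 < k := by positivity
  rw [show R = 2 * k by rw [hk]; ring] at hR
  have H : CrM (closedBall x (2 * k)) d := ⟨convex_closedBall _ _,
    fun a ha b hb => pm.symm a (hR ha) b (hR hb),
    fun a ha b hb c hc => pm.triangle a (hR ha) b (hR hb) c (hR hc),
    fun a ha b hb t t0 t1 => pm.add (hR ha) (hR hb) t0 t1, pm.cont.mono (prod_mono hR hR)⟩
  have H' : CrM (closedBall x.swap (2 * k)) fun a b => d a.swap b.swap := ⟨convex_closedBall _ _,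
    fun a ha b hb => H.symm _ (cra_swap_mem' ha) _ (cra_swap_mem' hb),
    fun a ha b hb c hc => H.tri _ (cra_swap_mem' ha) _ (cra_swap_mem' hb) _ (cra_swap_mem' hc),
    fun a ha b hb t t0 t1 => H.add _ (cra_swap_mem' ha) _ (cra_swap_mem' hb) t t0 t1,
    H.cont.comp (f := fun p : P × P => ((p.1.swap, p.2.swap) : P × P)) (by fun_prop)
      fun p hp => ⟨cra_swap_mem' hp.1, cra_swap_mem' hp.2⟩⟩
  obtain ⟨m1, f1, n1, e1⟩ := cra_side k0 (Or.inl rfl) H
  obtain ⟨m2, f2, n2, e2⟩ := cra_side k0 (Or.inr rfl) H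
  obtain ⟨m3, f3, n3, e3⟩ := cra_side k0 (Or.inl rfl) H'
  obtain ⟨m4, f4, n4, e4⟩ := cra_side k0 (Or.inr rfl) H'
  refine ⟨k / 10, by positivity,
    (ball_subset_closedBall.trans (closedBall_subset_closedBall (by linarith))).trans hR,
    (4⁻¹ : NNReal) • (m1 + m2), (4⁻¹ : NNReal) • (m3 + m4), inferInstance, inferInstance,
    by simp [n1, n2], by simp [n3, n4], fun y hy z hz => ?_⟩
  have my : y ∈ M := hR (ball_subset_closedBall.trans (closedBall_subset_closedBall (by linarith)) hy)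
  rcases eq_or_ne y z with rfl | ne
  · simp [sp, pm.self my]
  have a1 := e1 y hy z hz ne
  have a2 := e2 y hy z hz ne
  have a3 := e3 _ (cra_swap_mem.2 hy) _ (cra_swap_mem.2 hz) (Prod.swap_injective.ne ne)
  have a4 := e4 _ (cra_swap_mem.2 hy) _ (cra_swap_mem.2 hz) (Prod.swap_injective.ne ne)
  have co : |y.1 - x.1| < k / 10 ∧ |y.2 - x.2| < k / 10 := by
    rwa [mem_ball, Prod.dist_eq, max_lt_iff, Real.dist_eq, Real.dist_eq] at hy
  obtain ⟨⟨c1, c2⟩, c3, c4⟩ := And.intro (abs_lt.1 co.1) (abs_lt.1 co.2)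
  have nz : z.1 - y.1 ≠ 0 ∨ z.2 - y.2 ≠ 0 := by
    by_contra c
    rw [not_or, not_not, not_not, sub_eq_zero, sub_eq_zero] at c
    exact ne (Prod.ext c.1.symm c.2.symm)
  set p := (z.1 - y.1) * (x.2 + k - y.2) - (z.2 - y.2) * (x.1 + k - y.1) with hp
  set q := (z.1 - y.1) * (x.2 + k - y.2) + (z.2 - y.2) * (y.1 - (x.1 - k)) with hq
  set r := -((z.1 - y.1) * (y.2 - (x.2 - k))) + (z.2 - y.2) * (y.1 - (x.1 - k)) with hr
  set s := -((z.1 - y.1) * (y.2 - (x.2 - k))) - (z.2 - y.2) * (x.1 + k - y.1) with hs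
  have four := cra_four (p := p) (q := q) (r := r) (s := s) (by rw [hp, hq, hr, hs]; ring)
    (cra_corner (by linarith) (by linarith) (by linarith) (by linarith) nz) (by
      have := cra_corner (a := x.2 + k - y.2) (b := y.2 - (x.2 - k)) (c := x.1 + k - y.1)
        (e := y.1 - (x.1 - k)) (v := -(z.1 - y.1)) (w := -(z.2 - y.2)) (by linarith) (by linarith)
        (by linarith) (by linarith) (nz.imp neg_ne_zero.2 neg_ne_zero.2)
      rcases this with h | h | h | h
      · exact Or.inl (by rw [hp]; linarith)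
      · exact Or.inr (Or.inl (by rw [hq]; linarith))
      · exact Or.inr (Or.inr (Or.inl (by rw [hr]; linarith)))
      · exact Or.inr (Or.inr (Or.inr (by rw [hs]; linarith))))
  simp only [wed, Prod.fst_sub, Prod.snd_sub, Prod.fst_swap, Prod.snd_swap, Prod.swap_prod_mk,
    Prod.swap_swap, one_mul, neg_mul, ← sub_eq_add_neg] at a1 a2 a3 a4
  rw [show (z.1 - y.1) * (x.2 + k - y.2) - (z.2 - y.2) * (x.1 - k - y.1) = q by rw [hq]; ring,
    ← hp] at a1
  rw [show (z.1 - y.1) * (x.2 - k - y.2) - (z.2 - y.2) * (x.1 + k - y.1) = s by rw [hs]; ring,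
    show (z.1 - y.1) * (x.2 - k - y.2) - (z.2 - y.2) * (x.1 - k - y.1) = r by rw [hr]; ring,
    Real.sign_neg, Real.sign_neg] at a2
  rw [show (z.2 - y.2) * (x.1 + k - y.1) - (z.1 - y.1) * (x.2 + k - y.2) = -p by rw [hp]; ring,
    show (z.2 - y.2) * (x.1 + k - y.1) - (z.1 - y.1) * (x.2 - k - y.2) = -s by rw [hs]; ring,
    Real.sign_neg, Real.sign_neg] at a3
  rw [show (z.2 - y.2) * (x.1 - k - y.1) - (z.1 - y.1) * (x.2 + k - y.2) = -q by rw [hq]; ring,
    show (z.2 - y.2) * (x.1 - k - y.1) - (z.1 - y.1) * (x.2 - k - y.2) = -r by rw [hr]; ring,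
    neg_neg, neg_neg] at a4
  rw [show -s.sign - -r.sign = r.sign - s.sign by ring] at a2
  rw [show -p.sign - -s.sign = s.sign - p.sign by ring] at a3
  rw [measureReal_nnreal_smul_apply, measureReal_nnreal_smul_apply, measureReal_add_apply,
    measureReal_add_apply, a1, a2, a3, a4]
  push_cast
  linear_combination (-4⁻¹ * d y z) * four

end Pool.Agent.P.MP_874adf_gt.Gn
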