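import Pool.Agent.P.MP_874adf_gt.Gn.Iface0

/-! Affine normalisation of a good point. -/

set_option autoImplicit false

namespace Pool.Agent.P.MP_874adf_gt.Gn

open Pool.Agent.P.MP_874adf_gt.Fs Set Filter Topology Metric MeasureTheory

namespace Cx

variable (C : P) (L : P ≃L[ℝ] P)

lemma wed_map (a b : P) : wed (L a) (L b) = wed a b * wed (L (1, 0)) (L (0, 1)) := by
  have e : ∀ v : P, L v = v.1 • L (1, 0) + v.2 • L (0, 1) := fun v => by
    rw [← map_smul, ← map_smul, ← map_add]; simp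
  rw [e a, e b]
  simp only [wed, Prod.fst_add, Prod.snd_add, Prod.smul_fst, Prod.smul_snd, smul_eq_mul]
  ring

lemma wed_ne {a b : P} (h : wed (L a) (L b) ≠ 0) : wed a b ≠ 0 := by
  rw [wed_map] at h
  exact left_ne_zero_of_mul h

lemma lip : ∃ K ≥ (1 : ℝ), ∀ v : P, ‖L v‖ ≤ K * ‖v‖ := by
  refine ⟨‖(L : P →L[ℝ] P)‖ + 1, by linarith [norm_nonneg (L : P →L[ℝ] P)], fun v => ?_⟩
  have := (L : P →L[ℝ] P).le_opNorm v
  have h0 := norm_nonneg v
  simp only [ContinuousLinearEquiv.coe_coe] at this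
  linarith

lemma alip : ∃ K ≥ (1 : ℝ), ∀ v : P, ‖v‖ ≤ K * ‖L v‖ := by
  obtain ⟨K, K1, h⟩ := lip L.symm
  exact ⟨K, K1, fun v => by simpa using h (L v)⟩

/-- the inverse change of data -/
def rt (D : Dat) : Dat := (L.symm (dO D - C), L.symm (dB D - C), dl D, dr D)

lemma tr_rt (D : Dat) : trD C L (rt C L D) = D := by
  simp [trD, rt, tr, dO, dB]

lemma rt_tr (D : Dat) : rt C L (trD C L D) = D := by
  simp [trD, rt, tr, dO, dB]

lemma rt_cont : Continuous (rt C L) := by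
  unfold rt
  fun_prop

lemma pre_eq (v : Set Dat) : trD C L ⁻¹' v = rt C L '' v := by
  ext D
  constructor
  · intro h
    exact ⟨_, h, rt_tr C L D⟩
  · rintro ⟨E, h, rfl⟩
    rwa [mem_preimage, tr_rt]

lemma dA_tr (D : Dat) : dA (trD C L D) = tr C L (dA D) := by
  show tr C L (dO D) + dl D • (tr C L (dB D) - tr C L (dO D)) = _
  simp only [tr, dA, map_add, map_smul, map_sub]
  module

lemma tr_sub_C (y : P) : tr C L y - C = L (y - 0) := by simp [tr]

lemma dist_le : ∃ K ≥ (1 : ℝ), ∀ D E : Dat, dist D E ≤ K * dist (trD C L D) (trD C L E) := by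
  obtain ⟨K, K1, h⟩ := alip L
  refine ⟨K, K1, fun D E => ?_⟩
  have d0 : 0 ≤ dist (trD C L D) (trD C L E) := dist_nonneg
  have key : ∀ y z : P, dist y z ≤ K * dist (tr C L y) (tr C L z) := fun y z => by
    rw [dist_eq_norm, dist_eq_norm]
    have : tr C L y - tr C L z = L (y - z) := by simp [tr]
    rw [this]
    exact h _
  have h1 : dist (tr C L (dO D)) (tr C L (dO E)) ≤ dist (trD C L D) (trD C L E) := le_max_left _ _
  have h2 : dist (tr C L (dB D)) (tr C L (dB E)) ≤ dist (trD C L D) (trD C L E) :=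
    (le_max_left _ _).trans (le_max_right _ _)
  have h3 : dist D.2.2 E.2.2 ≤ dist (trD C L D) (trD C L E) :=
    (le_max_right _ _).trans (le_max_right _ _)
  have K0 : 0 ≤ K := by linarith
  refine max_le ((key _ _).trans (mul_le_mul_of_nonneg_left h1 K0))
    (max_le ((key _ _).trans (mul_le_mul_of_nonneg_left h2 K0)) (h3.trans ?_))
  nlinarith

lemma sepF {m : ℕ} {w : Fin m → Set Dat} {f : Dat → P} (hf : ∀ D, f (trD C L D) = tr C L (f D))
    (h : SepF C f w) : SepF 0 f fun i => trD C L ⁻¹' w i := by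
  intro i j ne D hD E hE
  have := h i j ne _ hD _ hE
  rw [hf, hf, tr_sub_C, tr_sub_C] at this
  exact wed_ne L this

lemma cst {v : Set Dat} {f : Dat → P} (hf : ∀ D, f (trD C L D) = tr C L (f D))
    (h : Cst f v) : Cst f (trD C L ⁻¹' v) := by
  obtain ⟨A, hA⟩ := h
  refine ⟨L.symm (A - C), fun D hD => ?_⟩
  rw [← hA _ hD, hf]
  simp [tr]

lemma cells (hAFF : S_AFF) {M : Set P} {d : P → P → ℝ} {𝓥 : Set (Set Dat)} (h : Cells M d C 𝓥) :
    Cells (tr C L ⁻¹' M) (trd C L d) 0 ((fun v => trD C L ⁻¹' v) '' 𝓥) where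
  cpt := by
    rintro _ ⟨v, hv, rfl⟩
    simp only [pre_eq]
    exact (h.cpt v hv).image (rt_cont C L)
  good := by
    rintro _ ⟨v, hv, rfl⟩ D hD
    exact h.good v hv (trD C L D) hD
  val := by
    rintro _ ⟨v, hv, rfl⟩
    obtain ⟨ρ, ρ0, hρ⟩ := h.val v hv
    obtain ⟨K, K1, hK⟩ := lip L
    have K0 : 0 < K := by linarith
    refine ⟨ρ / K, div_pos ρ0 K0, fun y hy => ?_⟩
    have m : tr C L y ∈ ball C ρ := by
      rw [mem_ball, dist_eq_norm, tr_sub_C, sub_zero]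
      rw [mem_ball_zero_iff, lt_div_iff₀' K0] at hy
      exact (hK y).trans_lt hy
    obtain ⟨D, hD, c⟩ := hρ _ m
    refine ⟨rt C L D, by rwa [mem_preimage, tr_rt], ((hAFF M d C L).2.1 _ _).2 ?_⟩
    have e : trd C L d (dO (rt C L D)) y = d (dO D) (tr C L y) := by
      simp [trd, rt, tr, dO]
    rwa [e, tr_rt]
  ref := by
    rintro _ ⟨v, hv, rfl⟩ δ δ0
    obtain ⟨K, K1, hK⟩ := dist_le C L
    have K0 : 0 < K := by linarith
    obtain ⟨w, hw, sub, hd⟩ := h.ref v hv (δ / K) (div_pos δ0 K0)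
    refine ⟨_, ⟨w, hw, rfl⟩, preimage_mono sub, fun D hD E hE => (hK D E).trans ?_⟩
    rw [← le_div_iff₀' K0]
    exact hd _ hD _ hE
  sep := by
    rintro _ ⟨v, hv, rfl⟩ m
    obtain ⟨w, hw, hO, hA, hB⟩ := h.sep v hv m
    refine ⟨fun i => trD C L ⁻¹' w i, fun i => ⟨⟨_, (hw i).1, rfl⟩, preimage_mono (hw i).2⟩,
      sepF C L (fun _ => rfl) hO, ?_, ?_⟩
    · exact hA.imp (sepF C L (dA_tr C L)) (cst C L (dA_tr C L))
    · exact hB.imp (sepF C L fun _ => rfl) (cst C L fun _ => rfl)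

lemma geo (ε : ℝ) (ε0 : 0 < ε) : ∃ ε' > (0 : ℝ), ε' ≤ ε ∧ ∀ (X : P) (π s : ℝ) (D : Dat),
    Geo C (L (1, 0)) (L X) π ε' s (trD C L D) → Geo 0 (1, 0) X π ε s D := by
  obtain ⟨K, K1, hK⟩ := alip L
  have K0 : 0 < K := by linarith
  have le : ε / K ≤ ε := div_le_self ε0.le K1
  refine ⟨ε / K, div_pos ε0 K0, le, fun X π s D ⟨h1, h2, h3, h4, h5⟩ => ⟨?_, ?_, ?_, ?_, ?_⟩⟩
  · refine (hK _).trans ?_
    rw [← le_div_iff₀' K0]
    refine le_of_eq_of_le ?_ h1
    simp [trD, tr, dO, dB]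
  · refine (hK _).trans ?_
    rw [← le_div_iff₀' K0]
    refine le_of_eq_of_le ?_ h2
    simp [trD, tr, dO, dB]
  · exact le_trans (by linarith) h3
  · exact le_trans (by linarith) h4
  · exact h5.trans le

lemma isN {G : P → ℝ} (h : IsN G) : IsN fun v => G (L v) :=
  ⟨fun t v => by rw [map_smul, h.smul], fun v w => by rw [map_add]; exact h.add _ _,
    fun v hv => h.pos _ fun e => hv (L.injective (by rw [e, map_zero]))⟩

lemma scd {G : P → ℝ} {Y : P} (h : SCd (fun v => G (L v)) (L.symm Y)) : SCd G Y := by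
  intro z hz
  have := h (L.symm z) (wed_ne L (by simpa using hz))
  simpa using this

lemma gp (hAFF : S_AFF) {M : Set P} {d : P → P → ℝ} {G : P → ℝ} {π : ℝ} {𝓥 : Set (Set Dat)}
    (h : GP M d C G (L (1, 0)) π 𝓥) :
    GP (tr C L ⁻¹' M) (trd C L d) 0 (fun v => G (L v)) (1, 0) π
      ((fun v => trD C L ⁻¹' v) '' 𝓥) where
  pm := (hAFF M d C L).1 h.pm
  mem := by simpa [tr] using h.mem
  isN := isN L h.isN
  u1 := h.u1
  du := (hAFF M d C L).2.2.1 0 G (by simpa [tr] using h.du)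
  pi0 := h.pi0
  pi1 := h.pi1
  cells := cells C L hAFF h.cells
  act := by
    intro X hX hs ε ε0
    obtain ⟨ε', ε'0, le, hg⟩ := geo C L ε ε0
    have hs' : ∀ᶠ Y in 𝓝 (L X), SCd G Y := by
      have t : Tendsto L.symm (𝓝 (L X)) (𝓝 X) := by
        simpa using L.symm.continuous.tendsto (L X)
      exact (t.eventually hs).mono fun Y hY => scd L hY
    obtain ⟨v, hv, s, s0, s1, hD⟩ := h.act (L X) hX hs' ε' ε'0
    exact ⟨_, ⟨v, hv, rfl⟩, s, s0, s1.trans_le le, fun D m => hg X π s D (hD _ m)⟩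
  pas := by
    intro X hX ε ε0
    obtain ⟨ε', ε'0, le, hg⟩ := geo C L ε ε0
    obtain ⟨D, s, s0, s1, c, g⟩ := h.pas (L X) hX ε' ε'0
    refine ⟨rt C L D, s, s0, s1.trans_le le, ((hAFF M d C L).2.1 _ _).2 ?_, hg X π s _ ?_⟩
    · have e : trd C L d (dO (rt C L D)) 0 = d (dO D) C := by
        simp [trd, rt, tr, dO]
      rwa [e, tr_rt]
    · rwa [tr_rt]

lemma quad {G : P → ℝ} (h : Quad fun v => G (L v)) : Quad G := by
  obtain ⟨p, q, s, h⟩ := h
  set a := L.symm (1, 0)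
  set b := L.symm (0, 1)
  refine ⟨bf p q s a a, bf p q s a b, bf p q s b b, fun v => ?_⟩
  have e : L.symm v = v.1 • a + v.2 • b := by
    rw [← map_smul, ← map_smul, ← map_add]; simp
  have := h (L.symm v)
  simp only [ContinuousLinearEquiv.apply_symm_apply] at this
  rw [this, e]
  simp only [bf, Prod.fst_add, Prod.snd_add, Prod.smul_fst, Prod.smul_snd, smul_eq_mul]
  ring

lemma exists_map {u : P} (hu : u ≠ 0) : ∃ L : P ≃L[ℝ] P, L (1, 0) = u := by
  have h0 : u.1 ^ 2 + u.2 ^ 2 ≠ 0 := by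
    intro e
    have h1 : u.1 = 0 := by nlinarith [sq_nonneg u.1, sq_nonneg u.2]
    have h2 : u.2 = 0 := by nlinarith [sq_nonneg u.1, sq_nonneg u.2]
    exact hu (Prod.ext h1 h2)
  let f : P →ₗ[ℝ] P :=
    { toFun := fun v => (u.1 * v.1 - u.2 * v.2, u.2 * v.1 + u.1 * v.2)
      map_add' := fun v w => by ext <;> simp <;> ring
      map_smul' := fun t v => by ext <;> simp <;> ring }
  have inj : Function.Injective f := by
    rw [injective_iff_map_eq_zero]
    intro v hv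
    have e1 : u.1 * v.1 - u.2 * v.2 = 0 := congrArg Prod.fst hv
    have e2 : u.2 * v.1 + u.1 * v.2 = 0 := congrArg Prod.snd hv
    have a1 : (u.1 ^ 2 + u.2 ^ 2) * v.1 = 0 := by linear_combination u.1 * e1 + u.2 * e2
    have a2 : (u.1 ^ 2 + u.2 ^ 2) * v.2 = 0 := by linear_combination u.1 * e2 - u.2 * e1
    exact Prod.ext ((mul_eq_zero.1 a1).resolve_left h0) ((mul_eq_zero.1 a2).resolve_left h0)
  refine ⟨(LinearEquiv.ofInjectiveEndo f inj).toContinuousLinearEquiv, ?_⟩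
  show f (1, 0) = u
  ext <;> simp [f]

end Cx

end Pool.Agent.P.MP_874adf_gt.Gn
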