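import Pool.Agent.P.MP_874adf_gt.Gn.Iface0

/-! Slopes of thin focal data seen from a small ball. -/

set_option autoImplicit false

namespace Pool.Agent.P.MP_874adf_gt.Gn

open Pool.Agent.P.MP_874adf_gt.Fs Set Filter Topology Metric MeasureTheory

namespace Cx

/-- slope of a vector -/
noncomputable def q (v : P) : ℝ := v.1 / v.2

lemma sl_eq (y X : P) : sl y X = q (y - X) := rfl

lemma q_smul {s : ℝ} (hs : s ≠ 0) (v : P) : q (s • v) = q v := by
  simp only [q, Prod.smul_fst, Prod.smul_snd, smul_eq_mul]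
  exact mul_div_mul_left _ _ hs

lemma q_cont {v : P} (hv : v.2 ≠ 0) : ContinuousAt q v :=
  continuousAt_fst.div continuousAt_snd hv

lemma sg_sq {σ : ℝ} (h : Sg σ) : σ * σ = 1 := by
  rcases h with rfl | rfl <;> norm_num

lemma n_pos {G : P → ℝ} (h : IsN G) (t : ℝ) : 0 < ln G t :=
  h.pos _ (by simp)

/-- the unit vector of slope `ζ` -/
noncomputable def uv (G : P → ℝ) (σ ζ : ℝ) : P := (σ / ln G ζ) • ((ζ, 1) : P)

lemma uv_one {G : P → ℝ} (h : IsN G) {σ : ℝ} (hσ : Sg σ) (ζ : ℝ) : G (uv G σ ζ) = 1 := by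
  have n0 := n_pos h ζ
  have : |σ| = 1 := by rcases hσ with rfl | rfl <;> simp
  rw [uv, h.smul, abs_div, this, abs_of_pos n0]
  exact div_mul_cancel₀ _ n0.ne'

lemma pi_close {a b κ : ℝ} (a0 : 0 < a) (b0 : 0 < b) (hκ : 1 / 2 ≤ κ) :
    |a / (a + b * κ) - a / (a + b)| ≤ |κ - 1| := by
  have h1 : 0 < a + b * κ := by positivity
  have h2 : 0 < a + b := by positivity
  have e : a / (a + b * κ) - a / (a + b) = -(a * b / ((a + b * κ) * (a + b))) * (κ - 1) := by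
    field_simp
    ring
  rw [e, abs_mul, abs_neg, abs_of_pos (by positivity)]
  refine mul_le_of_le_one_left (abs_nonneg _) ?_
  rw [div_le_one (by positivity)]
  nlinarith [mul_pos a0 b0, sq_nonneg a, mul_nonneg (mul_pos b0 b0).le (by linarith : 0 ≤ κ),
    mul_nonneg (mul_pos a0 b0).le (by linarith : 0 ≤ κ)]

/-- the open conditions in normalised coordinates -/
structure Good (σ ζ f η ε : ℝ) (ω e : P) (l : ℝ) : Prop where
  hO : η < σ * ω.2
  hA : η < σ * (ω - l • e).2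
  hB : η < σ * (ω - e).2
  sO : |q ω - ζ| < ε
  sA : |q (ω - l • e) - f| < ε
  sB : |q (ω - e) - f| < ε
  w : 0 < σ * wed ω (ω - e)
  k : |l * (ω - e).2 / ω.2 - 1| < min ε (1 / 2)

lemma good_ev {G : P → ℝ} (h : IsN G) {σ : ℝ} (hσ : Sg σ) (ζ : ℝ) {ε : ℝ} (ε0 : 0 < ε) :
    ∀ᶠ p : P × P × ℝ in 𝓝 (uv G σ ζ, (1, 0), 1),
      Good σ ζ (fx (ln G) σ ζ) (1 / (2 * ln G ζ)) ε p.1 p.2.1 p.2.2 := by
  have n0 := n_pos h ζ
  have s2 := sg_sq hσ
  have σ0 : σ ≠ 0 := by rintro rfl; simp at s2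
  set X := uv G σ ζ with hX
  have X1 : X.1 = σ / ln G ζ * ζ := by simp [hX, uv]
  have X2 : X.2 = σ / ln G ζ := by simp [hX, uv]
  have X0 : X.2 ≠ 0 := by rw [X2]; positivity
  have hh : 1 / (2 * ln G ζ) < σ * X.2 := by
    rw [X2, mul_div_assoc', s2]
    exact one_div_lt_one_div_of_lt n0 (by linarith)
  have qX : q X = ζ := by rw [q, X1, X2]; field_simp
  have qu : q (X - (1, 0)) = fx (ln G) σ ζ := by
    simp only [q, Prod.fst_sub, Prod.snd_sub, X1, X2, fx, sub_zero]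
    field_simp
    linear_combination (ln G ζ) * s2
  set p0 : P × P × ℝ := (X, (1, 0), 1)
  have tO : Tendsto (fun p : P × P × ℝ => p.1) (𝓝 p0) (𝓝 X) := continuous_fst.tendsto p0
  have tB : Tendsto (fun p : P × P × ℝ => p.1 - p.2.1) (𝓝 p0) (𝓝 (X - (1, 0))) :=
    (by fun_prop : Continuous fun p : P × P × ℝ => p.1 - p.2.1).tendsto p0
  have tA : Tendsto (fun p : P × P × ℝ => p.1 - p.2.2 • p.2.1) (𝓝 p0) (𝓝 (X - (1, 0))) := by
    have := (by fun_prop : Continuous fun p : P × P × ℝ => p.1 - p.2.2 • p.2.1).tendsto p0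
    simpa [p0] using this
  have u2 : (X - (1, 0) : P).2 = X.2 := by simp
  have ht : ∀ {g : P × P × ℝ → P} {Y : P}, Tendsto g (𝓝 p0) (𝓝 Y) → Y.2 = X.2 →
      ∀ᶠ p in 𝓝 p0, 1 / (2 * ln G ζ) < σ * (g p).2 := fun {g Y} t e => by
    have := ((continuous_snd.tendsto Y).comp t).const_mul σ
    exact this.eventually (lt_mem_nhds (by rwa [e]))
  have hs : ∀ {g : P × P × ℝ → P} {Y : P}, Tendsto g (𝓝 p0) (𝓝 Y) → Y.2 = X.2 →
      ∀ᶠ p in 𝓝 p0, |q (g p) - q Y| < ε := fun {g Y} t e => by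
    have := ((q_cont (v := Y) (by rwa [e])).tendsto.comp t).eventually (ball_mem_nhds _ ε0)
    exact this.mono fun p hp => hp
  have hw : ∀ᶠ p : P × P × ℝ in 𝓝 p0, 0 < σ * wed p.1 (p.1 - p.2.1) := by
    have := ((wed_cont.tendsto (X, X - (1, 0))).comp (tO.prodMk_nhds tB)).const_mul σ
    refine this.eventually (lt_mem_nhds ?_)
    have e : wed X (X - (1, 0)) = X.2 := by simp [wed]; ring
    show 0 < σ * wed X (X - (1, 0))
    rw [e]
    exact lt_trans (by positivity) hh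
  have hk : ∀ᶠ p : P × P × ℝ in 𝓝 p0, |p.2.2 * (p.1 - p.2.1).2 / p.1.2 - 1| < min ε (1 / 2) := by
    have t1 : Tendsto (fun p : P × P × ℝ => p.2.2) (𝓝 p0) (𝓝 1) :=
      (by fun_prop : Continuous fun p : P × P × ℝ => p.2.2).tendsto p0
    have := (t1.mul ((continuous_snd.tendsto _).comp tB)).div
      ((continuous_snd.tendsto _).comp tO) X0
    rw [u2, one_mul, div_self X0] at this
    have := this.eventually (ball_mem_nhds _ (lt_min ε0 one_half_pos))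
    exact this.mono fun p hp => hp
  filter_upwards [ht tO rfl, ht tA u2, ht tB u2, hs tO rfl, hs tA u2, hs tB u2, hw, hk]
    with p a1 a2 a3 a4 a5 a6 a7 a8
  exact ⟨a1, a2, a3, by rwa [qX] at a4, by rwa [qu] at a5, by rwa [qu] at a6, a7, a8⟩

lemma Good.ord {σ ζ f η ε : ℝ} {ω e : P} {l : ℝ} (g : Good σ ζ f η ε ω e l) (hσ : Sg σ)
    (η0 : 0 < η) (l1 : l < 1) : σ * q (ω - e) < σ * q (ω - l • e) := by
  have s2 := sg_sq hσ
  have a0 : 0 < σ * (ω - l • e).2 := η0.trans g.hA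
  have b0 : 0 < σ * (ω - e).2 := η0.trans g.hB
  have a1 : (ω - l • e).2 ≠ 0 := right_ne_zero_of_mul a0.ne'
  have b1 : (ω - e).2 ≠ 0 := right_ne_zero_of_mul b0.ne'
  have e1 : σ * q (ω - l • e) - σ * q (ω - e) =
      (1 - l) * (σ * wed ω (ω - e)) / ((σ * (ω - l • e).2) * (σ * (ω - e).2)) := by
    have : (σ * (ω - l • e).2) * (σ * (ω - e).2) = (ω - l • e).2 * (ω - e).2 := by
      linear_combination ((ω - l • e).2 * (ω - e).2) * s2
    rw [this, q, q]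
    field_simp
    simp only [wed, Prod.fst_sub, Prod.snd_sub, Prod.smul_fst, Prod.smul_snd, smul_eq_mul]
    ring
  have : 0 < (1 - l) * (σ * wed ω (ω - e)) / ((σ * (ω - l • e).2) * (σ * (ω - e).2)) :=
    div_pos (mul_pos (by linarith) g.w) (mul_pos a0 b0)
  linarith

lemma Good.pis {σ ζ f η ε : ℝ} {ω e : P} {l r : ℝ} (g : Good σ ζ f η ε ω e l)
    (η0 : 0 < η) (l1 : l < 1) (r1 : r < 1) :
    |pis (q ω) (q (ω - l • e)) (q (ω - e)) r - (1 - l) / (2 - l - r)| ≤ ε := by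
  have o1 : ω.2 ≠ 0 := right_ne_zero_of_mul (η0.trans g.hO).ne'
  have a1 : (ω - l • e).2 ≠ 0 := right_ne_zero_of_mul (η0.trans g.hA).ne'
  have b1 : (ω - e).2 ≠ 0 := right_ne_zero_of_mul (η0.trans g.hB).ne'
  have w1 : wed ω (ω - e) ≠ 0 := right_ne_zero_of_mul g.w.ne'
  have k1 := abs_lt.1 (g.k.trans_le (min_le_right _ _))
  set κ := l * (ω - e).2 / ω.2 with hκ
  set c := wed ω (ω - e) / ((ω - l • e).2 * (ω - e).2) with hc
  have c0 : c ≠ 0 := div_ne_zero w1 (mul_ne_zero a1 b1)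
  have e1 : q (ω - l • e) - q (ω - e) = c * (1 - l) := by
    rw [hc, q, q]
    field_simp
    simp only [wed, Prod.fst_sub, Prod.snd_sub, Prod.smul_fst, Prod.smul_snd, smul_eq_mul]
    ring
  have e2 : q ω - q (ω - l • e) = c * κ := by
    rw [hc, hκ, q, q]
    field_simp
    simp only [wed, Prod.fst_sub, Prod.snd_sub, Prod.smul_fst, Prod.smul_snd, smul_eq_mul]
    ring
  have e3 : Gn.pis (q ω) (q (ω - l • e)) (q (ω - e)) r = (1 - l) / ((1 - l) + (1 - r) * κ) := by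
    rw [Gn.pis, e1, e2, show c * (1 - l) + (1 - r) * (c * κ) = c * ((1 - l) + (1 - r) * κ) by ring]
    exact mul_div_mul_left _ _ c0
  rw [e3, show 2 - l - r = (1 - l) + (1 - r) by ring]
  exact (pi_close (by linarith) (by linarith) (by linarith)).trans
    (g.k.trans_le (min_le_left _ _)).le

/-- a cell of data with the right geometry is a cell in slope coordinates -/
lemma cell {G : P → ℝ} (h : IsN G) {σ : ℝ} (hσ : Sg σ) (ζ π : ℝ) {ε ρ0 : ℝ} (ε0 : 0 < ε)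
    (hρ : 0 < ρ0) : ∃ ε' > (0 : ℝ), ∀ (v : Set Dat) (s : ℝ), 0 < s → s < ε' →
      (∀ D ∈ v, dl D < 1 ∧ dr D < 1 ∧ Geo 0 (1, 0) (uv G σ ζ) π ε' s D) →
      ∃ ρ, Cell ρ0 (ln G) π v σ ζ ε ρ := by
  have n0 := n_pos h ζ
  obtain ⟨δ, δ0, hδ⟩ := Metric.eventually_nhds_iff.1 (good_ev h hσ ζ (half_pos ε0))
  set X := uv G σ ζ
  set η := 1 / (2 * ln G ζ) with hη
  have η0 : 0 < η := by positivity
  have X0 := norm_nonneg X
  set ε' := min (min (δ / 4) (ε / 2)) (min 1 (ρ0 / (‖X‖ + 4))) with hε'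
  have b1 : ε' ≤ δ / 4 := (min_le_left _ _).trans (min_le_left _ _)
  have b2 : ε' ≤ ε / 2 := (min_le_left _ _).trans (min_le_right _ _)
  have b3 : ε' ≤ 1 := (min_le_right _ _).trans (min_le_left _ _)
  have b4 : ε' ≤ ρ0 / (‖X‖ + 4) := (min_le_right _ _).trans (min_le_right _ _)
  refine ⟨ε', by positivity, fun v s s0 s1 hv => ⟨min η (δ / 4) * s, ?_⟩⟩
  have ρ0' : 0 < min η (δ / 4) * s := by positivity
  have sm : s * (‖X‖ + 4) < ρ0 := by
    rw [← lt_div_iff₀ (by positivity)]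
    exact s1.trans_le b4
  have key : ∀ D ∈ v, ∀ y ∈ closedBall (0 : P) (min η (δ / 4) * s), ∃ ω e : P,
      Good σ ζ (fx (ln G) σ ζ) η (ε / 2) ω e (dl D) ∧ y - dO D = s • ω ∧
        y - dA D = s • (ω - dl D • e) ∧ y - dB D = s • (ω - e) := by
    intro D hD y hy
    obtain ⟨l1, -, g1, g2, g3, -, -⟩ := hv D hD
    refine ⟨s⁻¹ • (y - dO D), s⁻¹ • (dB D - dO D),
      hδ (y := (s⁻¹ • (y - dO D), s⁻¹ • (dB D - dO D), dl D)) ?_, ?_, ?_, ?_⟩
    · refine max_lt ?_ (max_lt ?_ ?_)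
      · rw [dist_eq_norm]
        have e : s⁻¹ • (y - dO D) - X = (s⁻¹ • (0 - dO D) - X) + s⁻¹ • y := by module
        have : ‖s⁻¹ • y‖ ≤ δ / 4 := by
          rw [norm_smul, Real.norm_eq_abs, abs_of_pos (inv_pos.2 s0), inv_mul_le_iff₀ s0]
          rw [mem_closedBall_zero_iff] at hy
          nlinarith [min_le_right η (δ / 4)]
        show ‖s⁻¹ • (y - dO D) - X‖ < δ
        rw [e]
        linarith [norm_add_le (s⁻¹ • (0 - dO D) - X) (s⁻¹ • y)]
      · rw [dist_eq_norm]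
        show ‖s⁻¹ • (dB D - dO D) - (1, 0)‖ < δ
        linarith
      · rw [Real.dist_eq, abs_lt]
        constructor <;> [show -δ < dl D - 1; show dl D - 1 < δ] <;> linarith
    · rw [smul_inv_smul₀ s0.ne']
    · rw [smul_sub, smul_inv_smul₀ s0.ne', smul_comm, smul_inv_smul₀ s0.ne', dA]
      abel
    · rw [smul_sub, smul_inv_smul₀ s0.ne', smul_inv_smul₀ s0.ne']
      abel
  have hgt : ∀ {y Z ω : P}, y - Z = s • ω → η < σ * ω.2 →
      min η (δ / 4) * s ≤ σ * (y.2 - Z.2) := fun {y Z ω} e hh => by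
    have : y.2 - Z.2 = s * ω.2 := congrArg Prod.snd e
    rw [this]
    nlinarith [min_le_left η (δ / 4)]
  have hsl : ∀ {y Z ω : P}, y - Z = s • ω → sl y Z = q ω := fun {y Z ω} e => by
    rw [sl_eq, e, q_smul s0.ne']
  have nO : ∀ D ∈ v, ‖dO D‖ ≤ s * (‖X‖ + 1) := fun D hD => by
    obtain ⟨-, -, g1, -⟩ := hv D hD
    have e : dO D = -(s • ((s⁻¹ • (0 - dO D) - X) + X)) := by
      rw [sub_add_cancel, smul_inv_smul₀ s0.ne']; simp
    rw [e, norm_neg, norm_smul, Real.norm_eq_abs, abs_of_pos s0]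
    refine mul_le_mul_of_nonneg_left ?_ s0.le
    linarith [norm_add_le (s⁻¹ • (0 - dO D) - X) X]
  refine ⟨ρ0', fun D hD => ?_, fun D hD => ?_, fun D hD y hy => ?_, fun D hD y hy => ?_,
    fun D hD y hy => ?_, fun D hD y hy => ?_, fun D hD y hy => ?_, fun D hD y hy => ?_,
    fun D hD y hy => ?_, fun D hD => ?_⟩
  · rw [mem_ball_zero_iff]
    nlinarith [nO D hD]
  · obtain ⟨-, -, -, g2, -⟩ := hv D hD
    have e : dB D = dO D + s • ((s⁻¹ • (dB D - dO D) - (1, 0)) + (1, 0)) := by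
      rw [sub_add_cancel, smul_inv_smul₀ s0.ne']; simp
    have u1 : ‖((1, 0) : P)‖ = 1 := by simp
    have : ‖s • ((s⁻¹ • (dB D - dO D) - (1, 0)) + (1, 0))‖ ≤ s * 2 := by
      rw [norm_smul, Real.norm_eq_abs, abs_of_pos s0]
      refine mul_le_mul_of_nonneg_left ?_ s0.le
      linarith [norm_add_le (s⁻¹ • (dB D - dO D) - (1, 0)) (1, 0)]
    rw [mem_ball_zero_iff, e]
    nlinarith [nO D hD, norm_add_le (dO D) (s • ((s⁻¹ • (dB D - dO D) - (1, 0)) + (1, 0)))]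
  · obtain ⟨ω, e, g, e1, -, -⟩ := key D hD y hy
    exact hgt e1 g.hO
  · obtain ⟨ω, e, g, -, e1, -⟩ := key D hD y hy
    exact hgt e1 g.hA
  · obtain ⟨ω, e, g, -, -, e1⟩ := key D hD y hy
    exact hgt e1 g.hB
  · obtain ⟨ω, e, g, e1, -, -⟩ := key D hD y hy
    rw [hsl e1]
    linarith [g.sO]
  · obtain ⟨ω, e, g, -, e1, -⟩ := key D hD y hy
    rw [hsl e1]
    linarith [g.sA]
  · obtain ⟨ω, e, g, -, -, e1⟩ := key D hD y hy
    rw [hsl e1]
    linarith [g.sB]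
  · obtain ⟨ω, e, g, -, e1, e2⟩ := key D hD y hy
    rw [hsl e1, hsl e2]
    exact g.ord hσ η0 (hv D hD).1
  · obtain ⟨ω, e, g, e0, e1, e2⟩ := key D hD 0 (mem_closedBall_self ρ0'.le)
    obtain ⟨l1, r1, -, -, -, g4, g5⟩ := hv D hD
    rw [hsl e0, hsl e1, hsl e2]
    refine ⟨by linarith [g.sO], by linarith [g.sA], by linarith [g.sB], g.ord hσ η0 l1,
      by linarith, r1, ?_⟩
    have := g.pis η0 l1 r1
    have t := abs_sub_le (pis (q ω) (q (ω - dl D • e)) (q (ω - e)) (dr D)) (piD D) π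
    rw [piD] at t g5
    linarith

end Cx

end Pool.Agent.P.MP_874adf_gt.Gn
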