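import Pool.Agent.P.MP_874adf_gt.Gn.Iface0
import Pool.Agent.P.MP_874adf_gt.Gn.Cx1
import Pool.Agent.P.MP_874adf_gt.Gn.Cx2

/-! Step CTX. -/

set_option autoImplicit false

namespace Pool.Agent.P.MP_874adf_gt.Gn

open Pool.Agent.P.MP_874adf_gt.Fs Set Filter Topology Metric MeasureTheory

namespace Cx

lemma rv_neg {H : P → ℝ} (h : IsN H) {a b c : P} {r : ℝ} (hr : Rv H (-a) (-b) (-c) r) :
    Rv H a b c r := by
  intro w x x0 hx y y0 z z0
  have e1 : ∀ (t : ℝ) (v : P), H (t • -v - -w) = H (t • v - w) := fun t v => by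
    rw [← h.neg]; congr 1; module
  have e2 : ∀ (t : ℝ) (v : P), H (t • -v + -w) = H (t • v + w) := fun t v => by
    rw [← h.neg]; congr 1; module
  have e3 : ∀ (t : ℝ) (v : P), H (t • -v) = H (t • v) := fun t v => by
    rw [← h.neg]; congr 1; module
  have := hr (-w) x x0 (by rwa [e1, e3]) y y0 z z0
  rwa [e1, e2, e3, e3] at this

lemma appr {d : P → P → ℝ} {G : P → ℝ} (h : IsN G) (hd : DU d 0 G) :
    Appr (𝓝[>] (0 : ℝ)) d (fun _ => 0) id id G := by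
  intro k ε ε0
  have k0 : 0 < |k| + 1 := by positivity
  obtain ⟨δ, δ0, hδ⟩ := hd (ε / (|k| + 1)) (div_pos ε0 k0)
  filter_upwards [Ioo_mem_nhdsGT (div_pos δ0 k0)] with s hs y hy z hz
  have s0 : 0 < s := hs.1
  have m : ∀ w ∈ closedBall (0 : P) k, s • w ∈ closedBall (0 : P) ((|k| + 1) * s) := fun w hw => by
    rw [mem_closedBall_zero_iff] at hw ⊢
    rw [norm_smul, Real.norm_eq_abs, abs_of_pos s0]
    nlinarith [le_abs_self k]
  have := hδ _ (mul_pos k0 s0) ((lt_div_iff₀' k0).1 hs.2).le _ (m y hy) _ (m z hz)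
  rw [← smul_sub, h.smul_nonneg s0.le, ← mul_assoc, div_mul_cancel₀ _ k0.ne'] at this
  simpa using this

lemma rel (hFIN : S_FIN) {M : Set P} {d : P → P → ℝ} {G : P → ℝ} {π : ℝ} {𝓥 : Set (Set Dat)}
    (h : GP M d 0 G (1, 0) π 𝓥) {σ : ℝ} (hσ : Sg σ) (ζ : ℝ) : Rel G (ln G) π σ ζ := by
  intro ε ε0
  obtain ⟨ε', ε'0, hc⟩ := cell h.isN hσ ζ π ε0 one_pos
  obtain ⟨D, s, s0, s1, c, g⟩ := h.pas _ (uv_one h.isN hσ ζ) ε' ε'0
  obtain ⟨ρ, ce⟩ := hc {D} s s0 s1 (by rintro _ rfl; exact ⟨c.l1, c.r1, g⟩)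
  refine ⟨_, _, _, _, ce.thin D rfl, ?_⟩
  have m0 : (0 : P) ∈ closedBall (0 : P) ρ := mem_closedBall_self ce.rho.le
  have s2 := sg_sq hσ
  have big : ∀ {x : ℝ}, ρ ≤ x → Tendsto (fun s : ℝ => x / id s) (𝓝[>] 0) atTop := fun hx =>
    tendsto_inv_nhdsGT_zero.const_mul_atTop (ce.rho.trans_le hx)
  have dir : ∀ Z : P, ρ ≤ σ * ((0 : P).2 - Z.2) →
      (σ * ((0 : P).2 - Z.2))⁻¹ • ((0 : P) - Z) = σ • ((sl 0 Z, 1) : P) := fun Z hZ => by
    have z0 : (0 : P).2 - Z.2 ≠ 0 := right_ne_zero_of_mul (ce.rho.trans_le hZ).ne'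
    have i : σ⁻¹ = σ := inv_eq_of_mul_eq_one_right s2
    rw [mul_inv, i]
    ext
    · simp only [Prod.smul_fst, smul_eq_mul, Prod.fst_sub, sl]
      field_simp
    · simp only [Prod.smul_snd, smul_eq_mul, Prod.snd_sub]
      field_simp
  have key : Rv G (σ • (sl 0 (dO D), 1)) (σ • (sl 0 (dA D), 1)) (σ • (sl 0 (dB D), 1)) (dr D) := by
    refine hFIN M d ℝ (𝓝[>] 0) (fun _ => 0) id id G (fun _ => D) _ _ _
      (fun _ => σ * ((0 : P).2 - (dO D).2)) (fun _ => σ * ((0 : P).2 - (dA D).2))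
      (fun _ => σ * ((0 : P).2 - (dB D).2)) _ h.pm inferInstance ⟨h.isN.smul, h.isN.add⟩ ?_
      (appr h.isN h.du) (fun k => ?_) (Eventually.of_forall fun _ => c)
      (big (ce.hO D rfl 0 m0)) (big (ce.hA D rfl 0 m0)) (big (ce.hB D rfl 0 m0)) ?_ ?_ ?_
      tendsto_const_nhds
    · filter_upwards [self_mem_nhdsWithin] with s hs using ⟨hs, hs⟩
    · obtain ⟨δ, δ0, hδ⟩ := Metric.isOpen_iff.1 h.pm.isOpen 0 h.mem
      have t : Tendsto (fun s : ℝ => k * id s) (𝓝[>] 0) (𝓝 0) := by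
        have := ((continuous_id.tendsto (0 : ℝ)).const_mul k).mono_left
          (nhdsWithin_le_nhds (s := Ioi 0))
        simpa using this
      filter_upwards [t.eventually (gt_mem_nhds δ0)] with s hs
      exact (closedBall_subset_ball hs).trans hδ
    · rw [dir _ (ce.hO D rfl 0 m0)]; exact tendsto_const_nhds
    · rw [dir _ (ce.hA D rfl 0 m0)]; exact tendsto_const_nhds
    · rw [dir _ (ce.hB D rfl 0 m0)]; exact tendsto_const_nhds
  rcases hσ with rfl | rfl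
  · simpa using key
  · exact rv_neg h.isN (by simpa only [neg_smul, one_smul] using key)

lemma G_eq {G : P → ℝ} (h : IsN G) {Y : P} (hY : 0 < Y.2) : G Y = Y.2 * ln G (q Y) := by
  rw [ln, ← h.smul_nonneg hY.le]
  congr 1
  ext
  · simp only [q, Prod.smul_fst, smul_eq_mul]
    field_simp
  · simp

lemma scd_up {G : P → ℝ} (h : IsN G) {U : Set ℝ} (hU : IsOpen U) (hs : StrictConvexOn ℝ U (ln G))
    {Y : P} (hY : 0 < Y.2) (m : q Y ∈ U) : SCd G Y := by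
  intro z hz
  by_contra hc
  push Not at hc
  have t : Tendsto (fun t : ℝ => Y + t • z) (𝓝[>] 0) (𝓝 Y) := by
    have := ((by fun_prop : Continuous fun t : ℝ => Y + t • z).tendsto 0).mono_left
      (nhdsWithin_le_nhds (s := Ioi 0))
    simpa using this
  have e1 := ((continuous_snd.tendsto Y).comp t).eventually (lt_mem_nhds hY)
  have e2 := ((q_cont hY.ne').tendsto.comp t).eventually (hU.mem_nhds m)
  obtain ⟨t, ⟨h1, h2⟩, t0, t1⟩ := ((e1.and e2).and (Ioo_mem_nhdsGT one_pos)).exists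
  set Z := Y + t • z with hZ
  replace h1 : 0 < Z.2 := h1
  replace h2 : q Z ∈ U := h2
  have ne : q Y ≠ q Z := by
    intro e
    rw [q, q, div_eq_div_iff hY.ne' h1.ne', hZ] at e
    simp only [Prod.fst_add, Prod.snd_add, Prod.smul_fst, Prod.smul_snd, smul_eq_mul] at e
    have : t * wed z Y = 0 := by simp only [wed]; linear_combination -e
    exact hz ((mul_eq_zero.1 this).resolve_left t0.ne')
  have s0 : 0 < Y.2 + Z.2 := by positivity
  have := hs.2 m h2 ne (div_pos hY s0) (div_pos h1 s0) (by field_simp)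
  have e3 : (Y.2 / (Y.2 + Z.2)) • q Y + (Z.2 / (Y.2 + Z.2)) • q Z = q (Y + Z) := by
    simp only [q, smul_eq_mul, Prod.fst_add, Prod.snd_add]
    field_simp
  rw [e3, smul_eq_mul, smul_eq_mul] at this
  have lt : G (Y + Z) < G Y + G Z := by
    rw [G_eq h hY, G_eq h h1, G_eq h (Y := Y + Z) s0, Prod.snd_add]
    have := mul_lt_mul_of_pos_left this s0
    refine this.trans_eq ?_
    field_simp
  have a1 : G Z ≤ G Y + t * G z := by
    rw [← h.smul_nonneg t0.le]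
    exact h.add _ _
  have a2 : G ((2 : ℝ) • (Y + z)) ≤ G (Y + Z) + G ((2 - t) • z) := by
    refine le_of_eq_of_le ?_ (h.add _ _)
    congr 1
    rw [hZ]
    module
  rw [h.smul_nonneg (by norm_num), h.smul_nonneg (by linarith)] at a2
  linarith

lemma scd_neg {G : P → ℝ} (h : IsN G) {Y : P} (hs : SCd G (-Y)) : SCd G Y := by
  intro z hz
  have := hs (-z) (by simpa [wed] using hz)
  rwa [← neg_add, h.neg, h.neg, h.neg] at this

lemma lf_open (n : ℝ → ℝ) (σ : ℝ) : IsOpen (Lf n σ) := by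
  have : Lf n σ = ⋃ z, {t | σ * t < σ * fx n σ z} := by
    ext t
    simp [Lf]
  rw [this]
  exact isOpen_iUnion fun z => isOpen_lt (by fun_prop) continuous_const

lemma scd_ev {G : P → ℝ} (h : IsN G) (hs : SCout (ln G)) {σ ζ : ℝ} (hσ : Sg σ)
    (hζ : ζ ∈ Act (ln G)) : ∀ᶠ Y in 𝓝 (uv G σ ζ), SCd G Y := by
  obtain ⟨U, hU, sc, m⟩ : ∃ U, IsOpen U ∧ StrictConvexOn ℝ U (ln G) ∧ ζ ∈ U := by
    rcases hζ with m | m
    · exact ⟨_, lf_open _ _, hs.1, m⟩
    · exact ⟨_, lf_open _ _, hs.2, m⟩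
  have n0 := n_pos h ζ
  have σ0 : σ ≠ 0 := by rcases hσ with rfl | rfl <;> norm_num
  have X0 : (uv G σ ζ).2 ≠ 0 := by simp only [uv, Prod.smul_snd, smul_eq_mul]; positivity
  have qX : q (uv G σ ζ) = ζ := by
    rw [uv, q_smul (by positivity)]
    simp [q]
  filter_upwards [(q_cont X0).eventually (hU.mem_nhds (by rwa [qX])),
    continuousAt_snd.eventually_ne X0] with Y h1 h2
  rcases lt_or_gt_of_ne h2 with h3 | h3
  · refine scd_neg h (scd_up h hU sc (by simpa using h3) ?_)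
    rw [← neg_one_smul ℝ Y, q_smul (by norm_num)]
    exact h1
  · exact scd_up h hU sc h3 h1

end Cx

theorem p_CTX (hAFF : S_AFF) (hFIN : S_FIN) (hCR : S_CR) (hGAP : S_GAP) :
    S_CTX := by
  intro M d C G u π 𝓥 h
  obtain ⟨L, rfl⟩ := Cx.exists_map (u := u) (by
    rintro rfl
    have := h.u1
    rw [h.isN.zero] at this
    exact zero_ne_one this)
  have g := Cx.gp C L hAFF h
  obtain ⟨ρ0, hρ, sub, μ, Ψ, cr⟩ := hCR _ _ g.pm 0 g.mem
  have rel := fun σ (hσ : Sg σ) ζ => Cx.rel hFIN g hσ ζ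
  have sc := hGAP _ π g.isN g.u1 rel
  set n := ln fun v => G (L v)
  refine ⟨⟨_, _, _, π, _, ρ0, μ, Ψ, max 1 (2 - fx n 1 (fx n 1 0 - 1)), g, hρ, sub, cr, sc, rel,
    fun σ hσ ζ hζ ε ε0 => ?_, le_max_left _ _, fx n 1 0 - 1, ⟨0, by linarith⟩, ?_⟩, Cx.quad L⟩
  · obtain ⟨ε', ε'0, hc⟩ := Cx.cell g.isN hσ ζ π ε0 hρ
    obtain ⟨v, hv, s, s0, s1, hD⟩ :=
      g.act _ (Cx.uv_one g.isN hσ ζ) (Cx.scd_ev g.isN sc hσ hζ) ε' ε'0
    exact ⟨v, hv, hc v s s0 s1 fun D m =>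
      ⟨(g.cells.good v hv D m).2.1, (g.cells.good v hv D m).2.2.2, hD D m⟩⟩
  · linarith [le_max_right 1 (2 - fx n 1 (fx n 1 0 - 1))]

end Pool.Agent.P.MP_874adf_gt.Gn
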