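import Pool.Agent.P.MP_874adf_gt.Gn.IfaceF
import Pool.Agent.P.MP_874adf_gt.Gn.BasS

/-! Step DBB. -/

set_option autoImplicit false

namespace Pool.Agent.P.MP_874adf_gt.Gn

open Pool.Agent.P.MP_874adf_gt.Fs Set Filter Topology Metric MeasureTheory

theorem p_DBB :
    S_DBB := by
  intro c R ι S hDB
  obtain ⟨K, hK, T, H⟩ := hDB
  have := c.crof.fin
  refine ⟨fun k => ?_, fun k ε hε => ?_⟩
  · obtain ⟨C, hC, HC⟩ := S.up R T (max |k| (2 * K * |k|))
    refine ⟨K * C + 1, by positivity, ?_⟩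
    filter_upwards [HC, H k 1 one_pos] with i h1 h2 y hy z hz
    have hs := S.s0 i
    have hN := S.N0 i
    have hy' : y ∈ S.B (max |k| (2 * K * |k|)) i :=
      S.bass_sub ((le_abs_self k).trans (le_max_left _ _)) i hy
    have a1 : dist y (S.x i) ≤ k * S.s i := hy
    have a2 : dist z (S.x i) ≤ k * S.s i := hz
    have a3 : ‖z - y‖ ≤ 2 * |k| * S.s i := by
      rw [← dist_eq_norm]
      have := dist_triangle_right z y (S.x i)
      have b : k * S.s i ≤ |k| * S.s i := mul_le_mul_of_nonneg_right (le_abs_self k) hs.le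
      linarith
    have a4 : K * ‖z - y‖ ≤ max |k| (2 * K * |k|) * S.s i := by
      have b1 : K * ‖z - y‖ ≤ K * (2 * |k| * S.s i) := mul_le_mul_of_nonneg_left a3 hK.le
      have b2 : (2 * K * |k|) * S.s i ≤ max |k| (2 * K * |k|) * S.s i :=
        mul_le_mul_of_nonneg_right (le_max_right _ _) hs.le
      linarith
    have a5 : mT c.μ T y (K * ‖z - y‖) ≤ mT c.μ T y (max |k| (2 * K * |k|) * S.s i) :=
      measureReal_mono fun _ hl => ⟨hl.1, hl.2.trans a4⟩
    have a6 := h1 y hy'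
    have a7 := h2 y hy z hz
    have a8 : K * mT c.μ T y (K * ‖z - y‖) ≤ K * (C * S.N i) :=
      mul_le_mul_of_nonneg_left (a5.trans a6) hK.le
    linarith
  · obtain ⟨η, hη, Hη⟩ := S.small R T k (ε := ε / (2 * K)) (by positivity)
    refine ⟨η / K, by positivity, ?_⟩
    filter_upwards [Hη, H k (ε / 2) (by positivity)] with i h1 h2 y hy z hz hzy
    have a4 : K * ‖z - y‖ ≤ η * S.s i := by
      have b1 : K * ‖z - y‖ ≤ K * (η / K * S.s i) := mul_le_mul_of_nonneg_left hzy hK.le
      have b2 : K * (η / K * S.s i) = η * S.s i := by field_simp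
      linarith
    have a5 : mT c.μ T y (K * ‖z - y‖) ≤ mT c.μ T y (η * S.s i) :=
      measureReal_mono fun _ hl => ⟨hl.1, hl.2.trans a4⟩
    have a6 := h1 y hy
    have a7 := h2 y hy z hz
    have a8 : K * mT c.μ T y (K * ‖z - y‖) ≤ K * (ε / (2 * K) * S.N i) :=
      mul_le_mul_of_nonneg_left (a5.trans a6) hK.le
    have a9 : K * (ε / (2 * K) * S.N i) = ε / 2 * S.N i := by field_simp
    linarith

end Pool.Agent.P.MP_874adf_gt.Gn
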