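import Pool.Agent.P.MP_874adf_gt.Gn.Defs

/-! Basic facts on lines, Crofton measures and systems of places. -/

set_option autoImplicit false

namespace Pool.Agent.P.MP_874adf_gt.Gn

open Pool.Agent.P.MP_874adf_gt.Fs Set Filter Topology Metric MeasureTheory

/-! ### slope coordinates of a norm -/

section
variable {G : P → ℝ}

private lemma basn_diff (n : IsN G) (u : G (1, 0) = 1) (s t : ℝ) :
    G (((s, 1) : P) - (t, 1)) = |s - t| := by
  have e : ((s, 1) : P) - (t, 1) = (s - t) • ((1, 0) : P) := by ext <;> simp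
  rw [e, n.smul, u, mul_one]

lemma ln_pos (n : IsN G) (t : ℝ) : 0 < ln G t :=
  n.pos _ fun h => one_ne_zero (congrArg Prod.snd h)

lemma ln_convex (n : IsN G) : ConvexOn ℝ univ (ln G) := by
  refine ⟨convex_univ, fun s _ t _ a b ha hb hab => ?_⟩
  have e : ((a • s + b • t, 1) : P) = a • ((s, 1) : P) + b • ((t, 1) : P) := by
    ext
    · simp
    · simp [hab]
  have h := n.add (a • ((s, 1) : P)) (b • ((t, 1) : P))
  rw [n.smul_nonneg ha, n.smul_nonneg hb] at h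
  unfold ln
  rw [e]
  simpa using h

lemma ln_lip (n : IsN G) (u : G (1, 0) = 1) (s t : ℝ) : |ln G s - ln G t| ≤ |s - t| := by
  have h1 := n.sub_le (s, 1) (t, 1)
  have h2 := n.sub_le (t, 1) (s, 1)
  rw [basn_diff n u] at h1 h2
  rw [abs_sub_comm t s] at h2
  unfold ln
  rw [abs_le]
  constructor <;> linarith

lemma ln_cont (n : IsN G) : Continuous (ln G) := by
  unfold ln
  exact n.cont.comp (by fun_prop)

lemma ln_add_ge (n : IsN G) (u : G (1, 0) = 1) (s t : ℝ) : |s - t| ≤ ln G s + ln G t := by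
  have h := n.add (s, 1) (-(t, 1))
  rw [← sub_eq_add_neg, basn_diff n u, n.neg] at h
  exact h

lemma ln_eq (n : IsN G) {v : P} (h : v.2 ≠ 0) : G v = |v.2| * ln G (v.1 / v.2) := by
  have e : v = v.2 • ((v.1 / v.2, 1) : P) := by
    ext
    · simp only [Prod.smul_fst, smul_eq_mul]
      field_simp
    · simp
  unfold ln
  rw [← n.smul, ← e]

lemma fx_mono (n : IsN G) (u : G (1, 0) = 1) {σ : ℝ} (hσ : Sg σ) : Monotone (fx (ln G) σ) := by
  intro s t st
  have h := ln_lip n u t s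
  rw [abs_of_nonneg (sub_nonneg.2 st), abs_le] at h
  simp only [fx]
  rcases hσ with rfl | rfl <;> linarith [h.1, h.2]

lemma fx_cont (n : IsN G) (σ : ℝ) : Continuous (fx (ln G) σ) := by
  have := ln_cont n
  unfold fx
  fun_prop

lemma fx_bot (n : IsN G) (u : G (1, 0) = 1) : Tendsto (fx (ln G) 1) atBot atBot := by
  refine tendsto_atBot_mono (fun t => ?_) tendsto_id
  have := ln_pos n t
  simp only [fx, id]
  linarith

lemma fx_le (n : IsN G) (u : G (1, 0) = 1) (s t : ℝ) : fx (ln G) 1 s ≤ fx (ln G) (-1) t := by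
  have h := ln_add_ge n u s t
  have := le_abs_self (s - t)
  simp only [fx]
  linarith

/-- the left part is a half line -/
lemma Lf_eq (n : IsN G) (u : G (1, 0) = 1) : ∃ τ, Lf (ln G) 1 = Iio τ ∧ IsLUB (range (fx (ln G) 1)) τ ∧
    Tendsto (fx (ln G) 1) atTop (𝓝 τ) := by
  have hb : BddAbove (range (fx (ln G) 1)) :=
    ⟨fx (ln G) (-1) 0, by rintro _ ⟨s, rfl⟩; exact fx_le n u s 0⟩
  have hl := isLUB_csSup (range_nonempty (fx (ln G) 1)) hb
  refine ⟨_, ?_, hl, tendsto_atTop_isLUB (fx_mono n u (Or.inl rfl)) hl⟩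
  ext t
  simp only [Lf, one_mul, mem_ofPred_eq, mem_Iio]
  constructor
  · rintro ⟨z, hz⟩
    exact hz.trans_le (hl.1 ⟨z, rfl⟩)
  · intro h
    obtain ⟨_, ⟨z, rfl⟩, hz⟩ := (lt_isLUB_iff hl).1 h
    exact ⟨z, hz⟩

lemma Lf_eq' (n : IsN G) (u : G (1, 0) = 1) : ∃ τ, Lf (ln G) (-1) = Ioi τ ∧
    IsGLB (range (fx (ln G) (-1))) τ ∧ Tendsto (fx (ln G) (-1)) atBot (𝓝 τ) := by
  have hb : BddBelow (range (fx (ln G) (-1))) :=
    ⟨fx (ln G) 1 0, by rintro _ ⟨s, rfl⟩; exact fx_le n u 0 s⟩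
  have hl := isGLB_csInf (range_nonempty (fx (ln G) (-1))) hb
  refine ⟨_, ?_, hl, tendsto_atBot_isGLB (fx_mono n u (Or.inr rfl)) hl⟩
  ext t
  simp only [Lf, neg_mul, one_mul, neg_lt_neg_iff, mem_ofPred_eq, mem_Ioi]
  constructor
  · rintro ⟨z, hz⟩
    exact (hl.1 ⟨z, rfl⟩).trans_lt hz
  · intro h
    obtain ⟨_, ⟨z, rfl⟩, hz⟩ := (isGLB_lt_iff hl).1 h
    exact ⟨z, hz⟩

lemma fx_surj (n : IsN G) (u : G (1, 0) = 1) {t : ℝ} (h : t ∈ Lf (ln G) 1) : ∃ z, fx (ln G) 1 z = t := by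
  obtain ⟨z, hz⟩ := h
  have a1 : fx (ln G) 1 t ≤ t := by
    have := ln_pos n t
    simp only [fx]
    linarith
  exact intermediate_value_univ t z (fx_cont n 1) ⟨a1, by linarith⟩

private lemma basn_strict (n : IsN G) (u : G (1, 0) = 1) {S : Set ℝ}
    (sc : StrictConvexOn ℝ S (ln G)) {s t : ℝ} (hs : s ∈ S) (ht : t ∈ S) (st : s < t) :
    fx (ln G) 1 s < fx (ln G) 1 t := by
  have a1 := sc.2 hs ht st.ne (by norm_num : (0 : ℝ) < 1 / 2)
    (by norm_num : (0 : ℝ) < 1 / 2) (by norm_num)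
  simp only [smul_eq_mul] at a1
  have a2 := fx_mono n u (Or.inl rfl) (by linarith : 1 / 2 * s + 1 / 2 * t ≤ t)
  simp only [fx] at a2 ⊢
  linarith

/-- under strict convexity outside the cone the chord slope is strictly increasing below its supremum -/
lemma fx_inj (n : IsN G) (u : G (1, 0) = 1) (sc : SCout (ln G)) {s t : ℝ} (h : s < t)
    (hs : s ∈ Act (ln G)) : fx (ln G) 1 s < fx (ln G) 1 t := by
  rcases hs with hs | hs
  · obtain ⟨τ, e, -⟩ := Lf_eq n u
    have hτ : s < τ := by rwa [e] at hs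
    have m1 : s < min t ((s + τ) / 2) := lt_min h (by linarith)
    have m2 : min t ((s + τ) / 2) ∈ Lf (ln G) 1 := by
      rw [e]
      exact lt_of_le_of_lt (min_le_right t ((s + τ) / 2)) (show (s + τ) / 2 < τ by linarith)
    exact (basn_strict n u sc.1 hs m2 m1).trans_le (fx_mono n u (Or.inl rfl) (min_le_left _ _))
  · obtain ⟨τ, e, -⟩ := Lf_eq' n u
    have hτ : τ < s := by rwa [e] at hs
    refine basn_strict n u sc.2 hs ?_ h
    rw [e]
    exact hτ.trans h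

lemma fx_mem (n : IsN G) (u : G (1, 0) = 1) (sc : SCout (ln G)) (t : ℝ) :
    fx (ln G) 1 t ∈ Lf (ln G) 1 := by
  obtain ⟨τ, e, -⟩ := Lf_eq' n u
  have m : max t (τ + 1) ∈ Act (ln G) := by
    refine Or.inr ?_
    rw [e]
    exact lt_of_lt_of_le (lt_add_one τ) (le_max_right _ _)
  have a1 := fx_inj n u sc (lt_add_one (max t (τ + 1))) m
  have a2 := fx_mono n u (Or.inl rfl) (le_max_left t (τ + 1))
  exact ⟨max t (τ + 1) + 1, by linarith⟩
end

end Pool.Agent.P.MP_874adf_gt.Gn
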