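import Pool.Agent.P.MP_874adf_gt.Gn.DefsF

/-! The steps of the dichotomy. -/

set_option autoImplicit false

namespace Pool.Agent.P.MP_874adf_gt.Gn

open Pool.Agent.P.MP_874adf_gt.Fs Set Filter Topology Metric MeasureTheory

-- redeps: DICH DZ LIN HONG

-- deps:
def S_LIPL : Prop := ∀ c : Ctx, Reg c → ∀ ζ : ℝ, ∃ γ > (0 : ℝ), ∃ ρ > (0 : ℝ), γ ≤ 1 ∧
  ∀ O ∈ ball (0 : P) c.ρ0, ∀ y ∈ ball (0 : P) ρ, ∀ y' ∈ ball (0 : P) ρ,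
    (∀ w ∈ segment ℝ y y', O.2 < w.2 ∧ |sl w O - ζ| ≤ γ) → y.2 < y'.2 →
    |pr ζ (y' - y)| ≤ γ * (y'.2 - y.2) → c.d O y < c.d O y'

-- deps: MOV LIPL
def S_KI1 : Prop := ∀ c : Ctx, Reg c → ∀ (ι : Type) (S : Sys c ι) (ζ : ℝ), Neg (ln c.G) ζ →
  ∀ C2 > (0 : ℝ), ∃ ε0 > (0 : ℝ), ∀ v ∈ c.𝓥, ∀ ε ρ : ℝ, 0 < ε → ε ≤ ε0 →
    Cell c.ρ0 (ln c.G) c.π v 1 ζ ε ρ → ∀ k δ e θ : ℝ, 0 < δ → δ ≤ k → 0 < e → 0 < θ →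
    ∃ R0 : ℝ, ∀ R ≥ R0, ∃ (D : ι → Dat) (Ω : ι → ℝ → ℝ), S.FamIn v D ∧ (∀ i, Monotone (Ω i)) ∧
      (∀ᶠ i in (S.U : Filter ι), ∀ a b, Ω i b - Ω i a ≤ θ * mT c.μ c.T0 (S.x i) (R * S.s i)) ∧
      ∀ L : ℝ, ∀ᶠ i in (S.U : Filter ι), ∀ lv : ℝ,
        |lv - c.d (dO (D i)) (S.x i)| ≤ C2 * mT c.μ c.T0 (S.x i) (R * S.s i) →
        Ω i (lv + 2 * k * S.N i) - Ω i (lv - 2 * k * S.N i) ≤ S.N i →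
        Stair c.d (D i) (S.B L i) lv (k * S.N i) (δ * S.N i) (e * S.N i)

-- deps: LIPL KI1
def S_KI2 : Prop := ∀ c : Ctx, Reg c → ∀ (ι : Type) (S : Sys c ι) (ζ : ℝ), Neg (ln c.G) ζ →
  ∃ η1 > (0 : ℝ), ∀ η, 0 < η → η ≤ η1 → ∃ ε0 > (0 : ℝ), ∀ v1 ∈ c.𝓥, ∀ v2 ∈ c.𝓥, ∀ ε ρ1 ρ2 : ℝ,
    0 < ε → ε ≤ ε0 → Cell c.ρ0 (ln c.G) c.π v1 1 (ζ - 2 * η) ε ρ1 →
    Cell c.ρ0 (ln c.G) c.π v2 1 (ζ - η) ε ρ2 → ∀ (X : ι → P) (t : ℝ), S.Far 1 X t → |t - ζ| ≤ ε0 →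
    ∀ k δ e : ℝ, 0 < δ → δ ≤ k → 0 < e → ∃ (D1 D2 : ι → Dat) (y : ι → P) (L0 : ℝ),
      S.FamIn v1 D1 ∧ S.FamIn v2 D2 ∧
      (∀ᶠ i in (S.U : Filter ι), y i ∈ S.B L0 i ∧ c.d (X i) (y i) = c.d (X i) (S.x i)) ∧
      ∀ L : ℝ, ∀ᶠ i in (S.U : Filter ι),
        Stair c.d (D1 i) (S.B L i) (c.d (dO (D1 i)) (y i)) (k * S.N i) (δ * S.N i) (e * S.N i) ∧
        Stair c.d (D2 i) (S.B L i) (c.d (dO (D2 i)) (y i)) (k * S.N i) (δ * S.N i) (e * S.N i)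

-- deps:
def S_SEC : Prop := ∀ c : Ctx, Reg c → ∀ (ι : Type) (S : Sys c ι) (y : ℕ → ι → P),
  (∀ j, ∃ L : ℝ, ∀ᶠ i in (S.U : Filter ι), y j i ∈ S.B L i) →
  ∃ S' : Sys c (ℕ × ι), S.Over S' ∧ ∀ j i, S'.x (j, i) = y j i

-- deps:
def S_OVF : Prop := ∀ (c : Ctx) (ι : Type) (S : Sys c ι) (S' : Sys c (ℕ × ι)), S.Over S' →
  ∀ (D : ℕ → ι → Dat) (tO tA tB r : ℕ → ℝ) (uO uA uB u : ℝ),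
    (∀ j, S.Fam 1 (D j) (tO j) (tA j) (tB j) (r j)) → Tendsto tO W0 (𝓝 uO) → Tendsto tA W0 (𝓝 uA) →
    Tendsto tB W0 (𝓝 uB) → Tendsto r W0 (𝓝 u) → uA < uO →
    S'.Fam 1 (fun q => D q.1 q.2) uO uA uB u

-- deps:
def S_KA : Prop := ∀ c : Ctx, Reg c → ∀ (ι : Type) (S : Sys c ι) (D : ι → Dat) (tO tA tB r : ℝ)
  (δ : ι → ℝ), S.Fam 1 D tO tA tB r → r < 1 → (∀ i, 0 < δ i) → Tendsto δ S.U (𝓝 0) →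
  (∀ k : ℝ, ∀ e > (0 : ℝ), ∀ᶠ i in (S.U : Filter ι), Stair c.d (D i) (S.B k i)
    (c.d (dO (D i)) (S.x i)) (k * S.N i) (δ i * S.N i) (e * S.N i)) →
  ∃ κ, 0 ≤ κ ∧ S.KAff D κ

-- deps:
def S_WALL : Prop := ∀ c : Ctx, Reg c → ∀ (ι : Type) (S : Sys c ι) (D : ι → Dat) (tO tA tB r : ℝ),
  S.Fam 1 D tO tA tB r → Neg (ln c.G) tO → S.KAff D 0 → S.Wall

-- deps:
def S_SPAN : Prop := ∀ c : Ctx, Reg c → ∀ (ι : Type) (S : Sys c ι) (D : ι → Dat) (tO tA tB r : ℝ),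
  S.Fam 1 D tO tA tB r → S.Wall → S.Span D

-- deps:
def S_RAYB : Prop := ∀ c : Ctx, Reg c → ∀ (ι : Type) (S : Sys c ι) (D : ι → Dat) (tO tA tB r κ : ℝ),
  S.Fam 1 D tO tA tB r → 0 < κ → S.Low D κ → S.DB

-- deps:
def S_DBB : Prop := ∀ c : Ctx, Reg c → ∀ (ι : Type) (S : Sys c ι), S.DB →
  (∀ k : ℝ, ∃ C > (0 : ℝ), ∀ᶠ i in (S.U : Filter ι), ∀ y ∈ S.B k i, ∀ z ∈ S.B k i,
    c.d y z ≤ C * S.N i) ∧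
  ∀ k : ℝ, ∀ ε > (0 : ℝ), ∃ η > (0 : ℝ), ∀ᶠ i in (S.U : Filter ι), ∀ y ∈ S.B k i, ∀ z ∈ S.B k i,
    ‖z - y‖ ≤ η * S.s i → c.d y z ≤ ε * S.N i

-- deps: RAYB DBB
def S_POSK : Prop := ∀ c : Ctx, Reg c → ∀ (ι : Type) (S : Sys c ι) (D : ι → Dat) (tO tA tB r κ : ℝ),
  S.Fam 1 D tO tA tB r → r < 1 → 0 < κ → S.KAff D κ → S.DB ∧ ∀ ξ : ℝ,
    S.Lin ![fun i => dO (D i), fun i => dA (D i), fun i => dB (D i)]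
      ![-(1 + κ), 1 / (1 - r), -(r / (1 - r))] ξ

-- deps:
def S_ADD : Prop := ∀ c : Ctx, Reg c → ∀ (ι : Type) (S : Sys c ι) (D : ι → Dat) (ζ ξ r : ℝ)
  (H : P → ℝ), S.Fam 1 D ζ ξ ξ r → Neg (ln c.G) ζ → S.Hon H →
  ∃ lam, 0 ≤ lam ∧ lam < 1 ∧ S.Test D lam

-- deps:
def S_TRF : Prop := ∀ (c : Ctx) (ι : Type) (S : Sys c ι) (S' : Sys c (ℕ × ι)), S.Over S' →
  ∀ D : ℕ → ι → Dat, (∀ j, S.Mon (D j)) →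
    (∀ j, ∀ᶠ i in (S.U : Filter ι), c.d (dO (D j i)) (S'.x (j, i)) = c.d (dO (D j i)) (S.x i)) →
    (∀ lam, 0 ≤ lam → lam < 1 → S'.Test (fun q => D q.1 q.2) lam →
      S.lift.Law (fun q => D q.1 q.2) lam) ∧
    (S'.Span (fun q => D q.1 q.2) → ∀ k : ℝ, ∀ ε > (0 : ℝ), ∀ᶠ j in (W0 : Filter ℕ),
      ∀ᶠ i in (S.U : Filter ι), ∀ y ∈ S.B k i, ∀ z ∈ S.B k i, S.Lv (D j) k i y → S.Lv (D j) k i z →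
        |hf c.d (D j i) z - hf c.d (D j i) y| ≤ ε * S.N i)

-- deps: RAYB DBB
def S_ORG : Prop := ∀ c : Ctx, Reg c → ∀ (ι : Type) (S : Sys c ι) (D : ι → Dat) (ζ ξ r lam : ℝ),
  S.Fam 1 D ζ ξ ξ r → 0 ≤ lam → lam < 1 → S.Law D lam →
  S.DB ∧ S.Lin ![fun i => dO (D i), fun i => dA (D i), fun i => dA (D i)] ![1, -lam, 0] ξ

-- deps: MOV LIN HONG KI2 SEC OVF KA WALL SPAN POSK ADD TRF ORG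
def S_DZ : Prop := ∀ c : Ctx, Reg c → ∀ (ι : Type) (S : Sys c ι) (ζ : ℝ), Neg (ln c.G) ζ →
  S.FlatAt ζ ∨ S.lift.AffAt ζ

end Pool.Agent.P.MP_874adf_gt.Gn
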