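import Pool.Agent.P.MP_874adf_gt.Gn.Iface0
import Pool.Agent.P.MP_874adf_gt.Gn.IfaceF
import Pool.Agent.P.MP_874adf_gt.Gn.BasN

/-! Step DICH. -/

set_option autoImplicit false

namespace Pool.Agent.P.MP_874adf_gt.Gn

open Pool.Agent.P.MP_874adf_gt.Fs Set Filter Topology Metric MeasureTheory

lemma dich_lf {G : P → ℝ} (n : IsN G) {t : ℝ} (h : Neg (ln G) t) : t ∈ Lf (ln G) 1 := by
  obtain ⟨z, -, h⟩ := h
  exact ⟨z, by simpa using h⟩

lemma dich_injOn {G : P → ℝ} (n : IsN G) (u : G (1, 0) = 1) (sc : SCout (ln G)) :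
    InjOn (fx (ln G) 1) {t | Neg (ln G) t} := by
  intro s hs t ht e
  rcases lt_trichotomy s t with h | h | h
  · exact absurd e (fx_inj n u sc h (Or.inl (dich_lf n hs))).ne
  · exact h
  · exact absurd e (fx_inj n u sc h (Or.inl (dich_lf n ht))).ne'

lemma dich_sees {ζ ξ lam θ : ℝ} (h : ξ < ζ) (l0 : 0 ≤ lam) (l1 : lam < 1) (h1 : θ ≠ ζ) (h2 : θ ≠ ξ) :
    Sees ![ζ, ξ, ξ] ![1, -lam, 0] ξ θ := by
  refine ⟨h2, fun j => by fin_cases j <;> simpa, ?_⟩
  simp only [Fin.sum_univ_three, Matrix.cons_val_zero, Matrix.cons_val_one, Matrix.cons_val]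
  rcases h1.lt_or_gt with a | a <;> rcases h2.lt_or_gt with b | b
  · rw [Real.sign_of_pos (sub_pos.2 a), Real.sign_of_pos (sub_pos.2 b)]; linarith
  · rw [Real.sign_of_pos (sub_pos.2 a), Real.sign_of_neg (sub_neg.2 b)]; linarith
  · linarith
  · rw [Real.sign_of_neg (sub_neg.2 a), Real.sign_of_neg (sub_neg.2 b)]; linarith

theorem p_DICH (hDZ : S_DZ) (hLIN : S_LIN) (hHONG : S_HONG) :
    S_DICH := by
  intro c R ι S
  have n := c.gp.isN
  have u := c.gp.u1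
  set Z : Set ℝ := {ζ | Neg (ln c.G) ζ ∧ S.lift.AffAt ζ} with hZ
  by_cases hf : Z.Finite
  · exact Or.inr ⟨Z, hf, fun ζ hζ hn => (hDZ c R ι S ζ hζ).resolve_right fun h => hn ⟨hζ, h⟩⟩
  left
  have hi : Z.Infinite := hf
  obtain ⟨ζ, hζ, db, O, A, lam, l0, l1, fO, fA, li⟩ := hi.nonempty
  set f := fx (ln c.G) 1 with hfx
  have fin : ({ζ, f ζ} ∪ (f ⁻¹' {ζ, f ζ} ∩ {t | Neg (ln c.G) t})).Finite := by
    refine (toFinite _).union ?_
    refine Finite.of_finite_image (f := f) ((toFinite ({ζ, f ζ} : Set ℝ)).subset ?_)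
      ((dich_injOn n u c.sc).mono inter_subset_right)
    rintro _ ⟨t, ht, rfl⟩
    exact ht.1
  obtain ⟨ζ', ⟨hζ', -, O', A', lam', l0', l1', fO', fA', li'⟩, hne⟩ := (hi.diff fin).nonempty
  simp only [mem_union, mem_insert_iff, mem_singleton_iff, mem_inter_iff, mem_preimage,
    mem_ofPred_eq, hζ', and_true, not_or] at hne
  have lt : ∀ t, f t < t := fun t => by
    have := ln_pos n t
    simp only [hfx, fx]
    linarith
  obtain ⟨H, nH, ap⟩ := hHONG c R _ S.lift db (hLIN c R _ S.lift) ![![O, A, A], ![O', A', A']]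
    ![![ζ, f ζ, f ζ], ![ζ', f ζ', f ζ']] ![![1, -lam, 0], ![1, -lam', 0]] ![f ζ, f ζ']
    (fun a j => by fin_cases a <;> fin_cases j <;> assumption)
    (fun a => by fin_cases a <;> assumption)
    (by simp only [Fin.sum_univ_three, Matrix.cons_val_zero, Matrix.cons_val_one, Matrix.cons_val]
        linarith)
    (fun θ => by
      by_cases h : θ ≠ ζ ∧ θ ≠ f ζ
      · exact ⟨0, dich_sees (lt ζ) l0 l1 h.1 h.2⟩
      · refine ⟨1, dich_sees (lt ζ') l0' l1' ?_ ?_⟩ <;> rintro rfl <;> tauto)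
  exact ⟨H, nH, fun k ε hε => (S.ev_lift _).1 (ap k ε hε)⟩

end Pool.Agent.P.MP_874adf_gt.Gn
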