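import Pool.Agent.P.MP_874adf_gt.Gn.Defs

/-! The statements of the blocks. -/

set_option autoImplicit false

namespace Pool.Agent.P.MP_874adf_gt.Gn

open Pool.Agent.P.MP_874adf_gt.Fs Set Filter Topology Metric MeasureTheory

-- deps:
def S_STRUCTU : Prop := ∀ (M : Set P) (d : P → P → ℝ), PM M d →
  (∀ O ∈ M, ∀ a > (0 : ℝ), {X ∈ M | d O X = a}.Nonempty → IsAp M d O a) → AllU M d

-- deps:
def S_MON : Prop := ∀ (M : Set P) (d : P → P → ℝ) (D : Dat) (a : ℝ), PM M d → Circ M d D a →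
  ∀ z ∈ M, (a ≤ d (dO D) z → d (dO D) z - a ≤ Vf d D z) ∧
    (d (dO D) z ≤ a → -((1 + dr D) / (1 - dr D) * (a - d (dO D) z)) ≤ Vf d D z)

-- deps:
def S_AFF : Prop := ∀ (M : Set P) (d : P → P → ℝ) (C : P) (L : P ≃L[ℝ] P),
  (PM M d → PM (tr C L ⁻¹' M) (trd C L d)) ∧
  (∀ (D : Dat) (a : ℝ), Circ (tr C L ⁻¹' M) (trd C L d) D a ↔ Circ M d (trD C L D) a) ∧
  (∀ (x : P) (G : P → ℝ), DU d (tr C L x) G → DU (trd C L d) x fun v => G (L v)) ∧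
  (∀ F : P → P → ℝ, AeD M d F → AeD (tr C L ⁻¹' M) (trd C L d) fun x v => F (tr C L x) (L v)) ∧
  (AllU M d → AllU (tr C L ⁻¹' M) (trd C L d))

-- deps: MON
def S_FIN : Prop := ∀ (M : Set P) (d : P → P → ℝ) (ι : Type) (l : Filter ι) (x : ι → P)
  (s N : ι → ℝ) (H : P → ℝ) (D : ι → Dat) (vO vA vB : P) (cO cA cB : ι → ℝ) (r : ℝ),
  PM M d → l.NeBot → IsS H → (∀ᶠ i in l, 0 < s i ∧ 0 < N i) → Appr l d x s N H →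
  (∀ k : ℝ, ∀ᶠ i in l, closedBall (x i) (k * s i) ⊆ M) →
  (∀ᶠ i in l, Circ M d (D i) (d (dO (D i)) (x i))) →
  Tendsto (fun i => cO i / s i) l atTop → Tendsto (fun i => cA i / s i) l atTop →
  Tendsto (fun i => cB i / s i) l atTop →
  Tendsto (fun i => (cO i)⁻¹ • (x i - dO (D i))) l (𝓝 vO) →
  Tendsto (fun i => (cA i)⁻¹ • (x i - dA (D i))) l (𝓝 vA) →
  Tendsto (fun i => (cB i)⁻¹ • (x i - dB (D i))) l (𝓝 vB) →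
  Tendsto (fun i => dr (D i)) l (𝓝 r) → Rv H vO vA vB r

-- deps:
def S_CRA : Prop := ∀ (M : Set P) (d : P → P → ℝ), PM M d → ∀ x ∈ M, ∃ ρ > (0 : ℝ), ball x ρ ⊆ M ∧
  ∃ μ1 μ2 : Measure (ℝ × ℝ), IsFiniteMeasure μ1 ∧ IsFiniteMeasure μ2 ∧
    μ1 {l | 2 < |l.2|} = 0 ∧ μ2 {l | 2 < |l.2|} = 0 ∧
    ∀ y ∈ ball x ρ, ∀ z ∈ ball x ρ, d y z = μ1.real (sp y z) + μ2.real (sp y.swap z.swap)

-- deps: CRA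
def S_CR : Prop := ∀ (M : Set P) (d : P → P → ℝ), PM M d → ∀ x ∈ M, ∃ ρ > (0 : ℝ), ball x ρ ⊆ M ∧
  ∃ μ Ψ, Crof d x ρ μ Ψ

-- deps: CRA
def S_T1 : Prop := ∀ (M : Set P) (d : P → P → ℝ), PM M d → ∃ F, AeD M d F

-- deps:
def S_EG : Prop := ∀ (M : Set P) (d F : P → P → ℝ), PM M d → AeD M d F → ∀ W ⊆ M, MeasurableSet W →
  volume W ≠ ⊤ → ∀ ε > (0 : ℝ), ∃ K ⊆ W, UD M d K F ∧ volume (W \ K) < ENNReal.ofReal ε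

-- deps: MON AFF CR
def S_T2 : Prop := ∀ (M : Set P) (d F : P → P → ℝ), PM M d → AllU M d → AeD M d F →
  ∀ W ⊆ M, IsOpen W → W.Nonempty → ¬ ∀ᵐ y : P, y ∈ W → ¬ IsN (F y)

-- deps:
def S_LRR : Prop := ∀ (N : P → ℝ) (u : P), IsN N → N u = 1 → CaseR N u → Quad N

-- deps: LRR
def S_RHO : Prop := ∀ (M K : Set P) (d F : P → P → ℝ), PM M d → UD M d K F →
  (∀ x ∈ K, IsN (F x) ∧ ¬ Quad (F x)) → ∀ ε > (0 : ℝ), ∃ a2 > (0 : ℝ), ∀ (D : Dat) (a : ℝ),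
    dO D ∈ K → a < a2 → Circ M d D a → 1 - ε ≤ dr D

-- deps:
def S_GAME : Prop := ∀ k : Kx, 0 < volume k.K →
  ∃ C ∈ k.K, ∃ u π 𝓥, GP k.M k.d C (k.F C) u π 𝓥

-- deps:
def S_GAP : Prop := ∀ (G : P → ℝ) (π : ℝ), IsN G → G (1, 0) = 1 →
  (∀ σ, Sg σ → ∀ ζ, Rel G (ln G) π σ ζ) → SCout (ln G)

-- deps: AFF FIN CR GAP
def S_CTX : Prop := ∀ (M : Set P) (d : P → P → ℝ) (C : P) (G : P → ℝ) (u : P) (π : ℝ)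
  (𝓥 : Set (Set Dat)), GP M d C G u π 𝓥 → ∃ c : Ctx, Quad c.G → Quad G

-- deps: MON
def S_REG : Prop := ∀ c : Ctx, Reg c

-- deps: MON
def S_MOV : Prop := ∀ c : Ctx, Reg c → ∀ (ι : Type) (S : Sys c ι), ∀ v ∈ c.𝓥, ∀ σ ζ ε ρ : ℝ,
  Sg σ → Cell c.ρ0 (ln c.G) c.π v σ ζ ε ρ → 2 * ε < ln c.G ζ →
  ∃ D : ι → Dat, ∃ E ∈ v, (∀ i, D i ∈ v) ∧ Tendsto D S.U (𝓝 E) ∧
    S.Fam σ D (sl 0 (dO E)) (sl 0 (dA E)) (sl 0 (dB E)) (dr E)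

-- deps: MOV
def S_LIN : Prop := ∀ c : Ctx, Reg c → ∀ (ι : Type) (S : Sys c ι), S.Gro

-- deps:
def S_HONG : Prop := ∀ c : Ctx, Reg c → ∀ (ι : Type) (S : Sys c ι), S.DB → S.Gro →
  ∀ (X : Fin 2 → Fin 3 → ι → P) (t α : Fin 2 → Fin 3 → ℝ) (ξ : Fin 2 → ℝ),
    (∀ a j, S.Far 1 (X a j) (t a j)) → (∀ a, S.Lin (X a) (α a) (ξ a)) → ∑ j, α 0 j ≠ 0 →
    (∀ θ, ∃ a, Sees (t a) (α a) (ξ a) θ) → ∃ H, S.Hon H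

-- deps: MOV LIN HONG
def S_DICH : Prop := ∀ c : Ctx, Reg c → ∀ (ι : Type) (S : Sys c ι), (∃ H, S.Hon H) ∨ S.Flat

-- deps: FIN
def S_FOC : Prop := ∀ c : Ctx, Reg c → ∃ S : Sys c ℕ,
  (∀ H, S.Hon H → H (1, 0) = 1 ∧ Nice H c.G ∧
    ∀ σ, Sg σ → ∀ ζ ∈ Act (ln c.G), Rel H (ln c.G) c.π σ ζ) ∧
  (S.Flat → FlatRel (ln c.G) c.π)

-- deps:
def S_NLH : Prop := ∀ (G H : P → ℝ) (π : ℝ), IsN G → G (1, 0) = 1 → IsN H → H (1, 0) = 1 →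
  0 ≤ π → π ≤ 1 → SCout (ln G) → (∀ σ, Sg σ → ∀ ζ, Rel G (ln G) π σ ζ) → Nice H G →
  (∀ σ, Sg σ → ∀ ζ ∈ Act (ln G), Rel H (ln G) π σ ζ) → Quad G

-- deps:
def S_NLF : Prop := ∀ (G : P → ℝ) (π : ℝ), IsN G → G (1, 0) = 1 → 0 ≤ π → π ≤ 1 → SCout (ln G) →
  (∀ ζ, Rel G (ln G) π 1 ζ) → ¬ FlatRel (ln G) π

-- deps: EG RHO GAME CTX REG DICH FOC NLH NLF
def S_AEQ : Prop := ∀ (M : Set P) (d F : P → P → ℝ), PM M d → AllU M d → AeD M d F →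
  ∀ᵐ y : P, y ∈ M → IsN (F y) → Quad (F y)

-- deps: EG FIN
def S_STEPC : Prop := ∀ (M : Set P) (d F : P → P → ℝ), PM M d → AllU M d → AeD M d F →
  (∀ W ⊆ M, IsOpen W → W.Nonempty → ¬ ∀ᵐ y : P, y ∈ W → ¬ IsN (F y)) →
  (∀ᵐ y : P, y ∈ M → IsN (F y) → Quad (F y)) →
  ∀ W ⊆ M, IsOpen W → W.Nonempty → ∃ W' ⊆ W, IsOpen W' ∧ W'.Nonempty ∧ ∃ F', Fins W' d F'

-- deps: STRUCTU T1 T2 AEQ STEPC
-- imports: Pool.Agent.P.MP_874adf_gt.Fs.Final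
def S_MAIN : Prop := ∀ (M : Set P) (d : P → P → ℝ), PM M d →
  (∀ O ∈ M, ∀ a > (0 : ℝ), {X ∈ M | d O X = a}.Nonempty → IsAp M d O a) →
  ∃ W F, IsOpen W ∧ W ⊆ M ∧ M ⊆ closure W ∧ Fins W d F

end Pool.Agent.P.MP_874adf_gt.Gn
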