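import Pool.Agent.P.MP_874adf_gt.Gn.IfaceF
import Pool.Agent.P.MP_874adf_gt.Gn.Iface0
import Pool.Agent.P.MP_874adf_gt.Gn.BasN

/-! Step DZ. -/

set_option autoImplicit false

namespace Pool.Agent.P.MP_874adf_gt.Gn

open Pool.Agent.P.MP_874adf_gt.Fs Set Filter Topology Metric MeasureTheory

lemma dz_neg {n : ℝ → ℝ} {s t : ℝ} (h : Neg n t) (hs : s ≤ t) : Neg n s := by
  obtain ⟨z, h1, h2⟩ := h
  exact ⟨z, h1, hs.trans_lt h2⟩

lemma dz_act {n : ℝ → ℝ} {t : ℝ} (h : Neg n t) : t ∈ Act n := by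
  obtain ⟨z, -, h⟩ := h
  exact Or.inl ⟨z, by simpa using h⟩

lemma dz_stair {d : P → P → ℝ} {D : Dat} {Q Q' : Set P} {lv k k' δ ε ε' : ℝ}
    (h : Stair d D Q lv k δ ε) (hQ : Q' ⊆ Q) (hk : k' ≤ k) (he : ε ≤ ε') : Stair d D Q' lv k' δ ε' := by
  obtain ⟨dd, h⟩ := h
  refine ⟨dd, fun u hu w hw a b m c e => ?_⟩
  obtain ⟨h1, h2⟩ := h u (hQ hu) w (hQ hw) (a.trans hk) (b.trans hk) m c e
  constructor <;> linarith

lemma dz_thin {n : ℝ → ℝ} {π σ ζ ε ε' tO tA tB r : ℝ} (h : Thin n π σ ζ ε tO tA tB r) (he : ε ≤ ε') :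
    Thin n π σ ζ ε' tO tA tB r := by
  obtain ⟨a, b, c, e, f, g, i⟩ := h
  exact ⟨a.trans he, b.trans he, c.trans he, e, by linarith, g, i.trans he⟩

lemma dz_inv : Tendsto (fun j : ℕ => 1 / ((j : ℝ) + 1)) W0 (𝓝 0) :=
  tendsto_one_div_add_atTop_nhds_zero_nat.mono_left W0_le

lemma dz_lim {t : ℕ → ℝ} {a : ℝ} (h : ∀ j : ℕ, |t j - a| ≤ 1 / ((j : ℝ) + 1)) : Tendsto t W0 (𝓝 a) := by
  rw [tendsto_iff_norm_sub_tendsto_zero]
  exact squeeze_zero (fun _ => norm_nonneg _) h dz_inv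

lemma dz_sub {c : Ctx} {ι : Type} {S : Sys c ι} {S' : Sys c (ℕ × ι)} (o : S.Over S') (j : ℕ) (k : ℝ) :
    ∃ L : ℝ, ∀ᶠ i in (S.U : Filter ι), S'.B k (j, i) ⊆ S.B L i := by
  obtain ⟨L, h⟩ := o.rng j
  refine ⟨L + |k| * L, h.mono fun i hi y hy => ?_⟩
  have a := hi.1
  simp only [Sys.B, mem_closedBall] at a hy ⊢
  have b := dist_triangle y (S'.x (j, i)) (S.x i)
  have e : k * S'.s (j, i) ≤ |k| * (L * S.s i) :=
    (mul_le_mul_of_nonneg_right (le_abs_self k) (S'.s0 _).le).trans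
      (mul_le_mul_of_nonneg_left hi.2 (abs_nonneg k))
  nlinarith

/-- families from one parent cell with staircases give an affine law on the system above -/
lemma dz_parent (hOVF : S_OVF) (hKA : S_KA) {c : Ctx} (R : Reg c) {ι : Type} {S : Sys c ι}
    {S' : Sys c (ℕ × ι)} (o : S.Over S') {v : Set Dat} (hv : v ∈ c.𝓥) {ζ ε ρ : ℝ}
    (ce : Cell c.ρ0 (ln c.G) c.π v 1 ζ ε ρ) (h2 : 2 * ε < ln c.G ζ) {D : ℕ → ι → Dat}
    (hD : ∀ j, S.FamIn v (D j))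
    (st : ∀ j : ℕ, ∀ L : ℝ, ∀ᶠ i in (S.U : Filter ι), Stair c.d (D j i) (S.B L i)
      (c.d (dO (D j i)) (S'.x (j, i))) (((j : ℝ) + 1) * S.N i) (1 / ((j : ℝ) + 1) * S.N i)
      (1 / ((j : ℝ) + 1) * S.N i)) :
    ∃ tO tA tB r κ : ℝ, S'.Fam 1 (fun q => D q.1 q.2) tO tA tB r ∧ r < 1 ∧ |tO - ζ| ≤ ε ∧
      |tA - fx (ln c.G) 1 ζ| ≤ ε ∧ |tB - fx (ln c.G) 1 ζ| ≤ ε ∧ 0 ≤ κ ∧
      S'.KAff (fun q => D q.1 q.2) κ := by
  choose E hE _ fa using hD
  obtain ⟨E0, h0, t0⟩ := (c.gp.cells.cpt v hv).ultrafilter_le_nhds (W0.map E) (by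
    rw [Ultrafilter.coe_map, le_principal_iff, mem_map]
    exact Eventually.of_forall hE)
  have t0 : Tendsto E W0 (𝓝 E0) := t0
  have z : (0 : P) ∈ closedBall (0 : P) ρ := mem_closedBall_self ce.rho.le
  have sc : ∀ f : Dat → P, Continuous f → ρ ≤ 1 * ((0 : P).2 - (f E0).2) →
      Tendsto (fun j => sl 0 (f (E j))) W0 (𝓝 (sl 0 (f E0))) := by
    intro f cf h
    have a := (cf.tendsto E0).comp t0
    refine (tendsto_const_nhds.sub ((continuous_fst.tendsto _).comp a)).div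
      (tendsto_const_nhds.sub ((continuous_snd.tendsto _).comp a)) ?_
    linarith [ce.rho]
  have a1 := ce.sO E0 h0 0 z
  have a2 := ce.sA E0 h0 0 z
  have a3 := ce.sB E0 h0 0 z
  have fam := hOVF c ι S S' o D _ _ _ _ _ _ _ _ fa
    (sc dO (by fun_prop) (ce.hO E0 h0 0 z)) (sc dA (by fun_prop) (ce.hA E0 h0 0 z))
    (sc dB (by fun_prop) (ce.hB E0 h0 0 z))
    (((by fun_prop : Continuous dr).tendsto E0).comp t0) (by
      rw [abs_le] at a1 a2
      simp only [fx] at a2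
      linarith [a1.1, a2.2])
  have r1 := (c.gp.cells.good v hv E0 h0).2.2.2
  obtain ⟨κ, k0, ka⟩ := hKA c R _ S' _ _ _ _ _ (fun q => 1 / ((q.1 : ℝ) + 1)) fam r1
    (fun q => by positivity) (by
      rw [o.eU]
      intro s hs
      exact (S.ev_UU fun q => 1 / ((q.1 : ℝ) + 1) ∈ s).2
        ((dz_inv.eventually hs).mono fun j hj => Eventually.of_forall fun _ => hj)) (by
      intro k e he
      rw [o.eU, S.ev_UU]
      have b1 : ∀ᶠ j : ℕ in (W0 : Filter ℕ), k ≤ (j : ℝ) + 1 :=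
        W0_le ((tendsto_natCast_atTop_atTop.eventually_ge_atTop k).mono fun j hj => by linarith)
      filter_upwards [b1, dz_inv.eventually (ge_mem_nhds he)] with j j1 j2
      obtain ⟨L, hL⟩ := dz_sub o j k
      filter_upwards [hL, st j L] with i i1 i2
      rw [o.eN]
      exact dz_stair i2 i1 (mul_le_mul_of_nonneg_right j1 (S.N0 i).le)
        (mul_le_mul_of_nonneg_right j2 (S.N0 i).le))
  exact ⟨_, _, _, _, κ, fam, r1, a1, a2, a3, k0, ka⟩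

lemma dz_sees {tO tA tB r κ θ a e : ℝ} (r0 : 0 ≤ r) (r1 : r < 1) (k0 : 0 < κ) (hA : |tA - a| ≤ e)
    (hB : |tB - a| ≤ e) (lt : a + e < tO) (h1 : θ ≠ tO) (h2 : e < |θ - a|) :
    Sees ![tO, tA, tB] ![-(1 + κ), 1 / (1 - r), -(r / (1 - r))] tA θ := by
  rw [abs_le] at hA hB
  have e1 : 1 / (1 - r) - r / (1 - r) = 1 := by
    have : 1 - r ≠ 0 := by linarith
    field_simp
  have nA : θ ≠ tA := by
    rintro rfl
    exact absurd h2 (not_lt.2 (abs_le.2 hA))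
  have nB : θ ≠ tB := by
    rintro rfl
    exact absurd h2 (not_lt.2 (abs_le.2 hB))
  refine ⟨nA, fun j => by fin_cases j <;> simpa, ?_⟩
  simp only [Fin.sum_univ_three, Matrix.cons_val_zero, Matrix.cons_val_one, Matrix.cons_val]
  rcases lt_abs.1 h2 with b | b
  · rw [Real.sign_of_neg (show tA - θ < 0 by linarith), Real.sign_of_neg (show tB - θ < 0 by linarith)]
    rcases h1.lt_or_gt with a | a
    · rw [Real.sign_of_pos (sub_pos.2 a)]; linarith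
    · rw [Real.sign_of_neg (sub_neg.2 a)]; linarith
  · rw [Real.sign_of_pos (show 0 < tA - θ by linarith), Real.sign_of_pos (show 0 < tB - θ by linarith),
      Real.sign_of_pos (show 0 < tO - θ by linarith)]
    linarith

theorem p_DZ (hMOV : S_MOV) (hLIN : S_LIN) (hHONG : S_HONG) (hKI2 : S_KI2) (hSEC : S_SEC) (hOVF : S_OVF) (hKA : S_KA) (hWALL : S_WALL) (hSPAN : S_SPAN) (hPOSK : S_POSK) (hADD : S_ADD) (hTRF : S_TRF) (hORG : S_ORG) :
    S_DZ := by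
  intro c R ι S ζ hζ
  have n := c.gp.isN
  have u := c.gp.u1
  have n0 := ln_pos n ζ
  obtain ⟨η1, η10, hη⟩ := hKI2 c R ι S ζ hζ
  obtain ⟨η, η0, ηa, ηb⟩ : ∃ η : ℝ, 0 < η ∧ η ≤ η1 ∧ 8 * η ≤ ln c.G ζ :=
    ⟨min η1 (ln c.G ζ / 8), by positivity, min_le_left _ _, by linarith [min_le_right η1 (ln c.G ζ / 8)]⟩
  obtain ⟨ε0, ε00, hε⟩ := hη η η0 ηa
  have N1 : Neg (ln c.G) (ζ - 2 * η) := dz_neg hζ (by linarith)
  have N2 : Neg (ln c.G) (ζ - η) := dz_neg hζ (by linarith)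
  have gap := fx_inj n u c.sc (show ζ - 2 * η < ζ - η by linarith) (dz_act N1)
  have l1 := abs_le.1 (ln_lip n u (ζ - 2 * η) ζ)
  have l2 := abs_le.1 (ln_lip n u (ζ - η) ζ)
  rw [show ζ - 2 * η - ζ = -(2 * η) by ring, abs_neg, abs_of_pos (by linarith)] at l1
  rw [show ζ - η - ζ = -η by ring, abs_neg, abs_of_pos η0] at l2
  set x1 := fx (ln c.G) 1 (ζ - 2 * η) with hx1
  set x2 := fx (ln c.G) 1 (ζ - η) with hx2
  obtain ⟨ε, e0, ea, eb, ec⟩ : ∃ ε : ℝ, 0 < ε ∧ ε ≤ ε0 ∧ 4 * ε ≤ η ∧ 4 * ε ≤ x2 - x1 :=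
    ⟨min ε0 (min (η / 4) ((x2 - x1) / 4)), lt_min ε00 (lt_min (by linarith) (by linarith)),
      min_le_left _ _, (by
        linarith [min_le_right ε0 (min (η / 4) ((x2 - x1) / 4)), min_le_left (η / 4) ((x2 - x1) / 4)]),
      (by linarith [min_le_right ε0 (min (η / 4) ((x2 - x1) / 4)), min_le_right (η / 4) ((x2 - x1) / 4)])⟩
  obtain ⟨v1, hv1, ρ1, c1⟩ := c.root 1 (Or.inl rfl) _ (dz_act N1) ε e0
  obtain ⟨v2, hv2, ρ2, c2⟩ := c.root 1 (Or.inl rfl) _ (dz_act N2) ε e0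
  have thin : ∀ j : ℕ, ∃ (D : ι → Dat) (tO tA tB r : ℝ), S.Fam 1 D tO tA tB r ∧
      Thin (ln c.G) c.π 1 ζ (1 / ((j : ℝ) + 1)) tO tA tB r ∧ |tO - ζ| ≤ ε0 := by
    intro j
    have p : 0 < min (min ε0 (ln c.G ζ / 3)) (1 / ((j : ℝ) + 1)) := by positivity
    obtain ⟨v, hv, ρ, ce⟩ := c.root 1 (Or.inl rfl) _ (dz_act hζ) _ p
    obtain ⟨D, E, hE, -, -, fa⟩ := hMOV c R ι S v hv 1 ζ _ ρ (Or.inl rfl) ce (by
      linarith [min_le_left (min ε0 (ln c.G ζ / 3)) (1 / ((j : ℝ) + 1)), min_le_right ε0 (ln c.G ζ / 3)])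
    have th := ce.thin E hE
    exact ⟨D, _, _, _, _, fa, dz_thin th (min_le_right _ _),
      th.1.trans ((min_le_left _ _).trans (min_le_left _ _))⟩
  choose D tO tA tB r fa th hO using thin
  have ki := fun j : ℕ => hε v1 hv1 v2 hv2 ε ρ1 ρ2 e0 ea c1 c2 _ _ (fa j).fO (hO j) ((j : ℝ) + 1)
    (1 / ((j : ℝ) + 1)) (1 / ((j : ℝ) + 1)) (by positivity) (by
      have : (0 : ℝ) ≤ j := Nat.cast_nonneg j
      rw [div_le_iff₀ (by positivity)]
      nlinarith) (by positivity)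
  choose D1 D2 y L0 f1 f2 hy st using ki
  obtain ⟨S', o, hx⟩ := hSEC c R ι S y fun j => ⟨L0 j, (hy j).mono fun i h => h.1⟩
  obtain ⟨o1, a1, b1, r1, κ1, F1, s1, p1, q1, w1, k1, K1⟩ := dz_parent hOVF hKA R o hv1 c1
    (by linarith [l1.1]) f1 fun j L => by simpa only [hx] using (st j L).mono fun i h => h.1
  obtain ⟨o2, a2, b2, r2, κ2, F2, s2, p2, q2, w2, k2, K2⟩ := dz_parent hOVF hKA R o hv2 c2
    (by linarith [l2.1]) f2 fun j L => by simpa only [hx] using (st j L).mono fun i h => h.2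
  have famf : ∀ S'' : Sys c (ℕ × ι), S.Over S'' →
      S''.Fam 1 (fun q => D q.1 q.2) ζ (fx (ln c.G) 1 ζ) (fx (ln c.G) 1 ζ) 1 := fun S'' o' =>
    hOVF c ι S S'' o' D tO tA tB r _ _ _ _ fa (dz_lim fun j => (th j).1) (dz_lim fun j => (th j).2.1)
      (dz_lim fun j => (th j).2.2.1) (dz_lim fun j => by
        rw [abs_le]
        constructor <;> linarith [(th j).2.2.2.2.1, (th j).2.2.2.2.2.1,
          (by positivity : 0 < 1 / ((j : ℝ) + 1))]) (by simp only [fx]; linarith)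
  obtain ⟨tl, tf⟩ := hTRF c ι S S' o D (fun j => (fa j).mon) fun j => by
    simpa only [hx] using (hy j).mono fun i h => h.2
  have wall : S'.Wall → S.FlatAt ζ := by
    intro w ε' he k
    obtain ⟨j, j1, j2⟩ := ((tf (hSPAN c R _ S' _ _ _ _ _ (famf S' o) w) k ε' he).and
      (dz_inv.eventually (ge_mem_nhds he))).exists
    refine ⟨D j, _, _, _, _, fa j, dz_thin (th j) j2, ?_⟩
    have m0 : ∀ᶠ i in (S.U : Filter ι), S.x i ∈ c.M :=
      S.tx.eventually (c.gp.pm.isOpen.mem_nhds c.gp.mem)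
    have m1 : ∀ᶠ i in (S.U : Filter ι), S.B k i ⊆ c.M := by
      have t1 : Tendsto (fun i => ‖S.x i‖ + k * S.s i) S.U (𝓝 0) := by
        simpa using S.tx.norm.add (S.ts.const_mul k)
      filter_upwards [t1.eventually (gt_mem_nhds c.rho0)] with i hi z hz
      refine c.sub (mem_ball_zero_iff.2 ?_)
      have := norm_le_norm_add_norm_sub' z (S.x i)
      rw [Sys.B, mem_closedBall, dist_eq_norm] at hz
      linarith
    filter_upwards [j1, m0, m1, (fa j).fO 0 1 one_pos] with i i1 i2 i3 i4 y hy z hz dy dz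
    have lv : ∀ y ∈ S.B k i, c.d (S.x i) y ≤ k * S.N i → S.Lv (D j) k i y := by
      intro y hy dy
      have mO := c.sub i4.1
      have t1 := c.gp.pm.triangle _ mO _ i2 _ (i3 hy)
      have t2 := c.gp.pm.triangle _ mO _ (i3 hy) _ i2
      rw [c.gp.pm.symm _ (i3 hy) _ i2] at t2
      rw [Sys.Lv, abs_le]
      constructor <;> linarith
    exact i1 y hy z hz (lv y hy dy) (lv z hz dz)
  rw [abs_le] at p1 p2
  rcases k1.eq_or_lt with rfl | k1
  · exact Or.inl (wall (hWALL c R _ S' _ _ _ _ _ F1 (dz_neg hζ (by linarith [p1.2])) K1))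
  rcases k2.eq_or_lt with rfl | k2
  · exact Or.inl (wall (hWALL c R _ S' _ _ _ _ _ F2 (dz_neg hζ (by linarith [p2.2])) K2))
  right
  obtain ⟨db, li1⟩ := hPOSK c R _ S' _ _ _ _ _ _ F1 s1 k1 K1
  obtain ⟨-, li2⟩ := hPOSK c R _ S' _ _ _ _ _ _ F2 s2 k2 K2
  have r0 : ∀ {D : ℕ × ι → Dat} {a b e r : ℝ}, S'.Fam 1 D a b e r → 0 ≤ r := fun h =>
    ge_of_tendsto' h.tr fun i => (h.r01 i).1.le
  have e1 : x1 = ζ - 2 * η - ln c.G (ζ - 2 * η) := by simp [hx1, fx]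
  have e2 : x2 = ζ - η - ln c.G (ζ - η) := by simp [hx2, fx]
  obtain ⟨H, hH⟩ := hHONG c R _ S' db (hLIN c R _ S')
    ![![fun q => dO (D1 q.1 q.2), fun q => dA (D1 q.1 q.2), fun q => dB (D1 q.1 q.2)],
      ![fun q => dO (D2 q.1 q.2), fun q => dA (D2 q.1 q.2), fun q => dB (D2 q.1 q.2)]]
    ![![o1, a1, b1], ![o2, a2, b2]]
    ![![-(1 + κ1), 1 / (1 - r1), -(r1 / (1 - r1))], ![-(1 + κ2), 1 / (1 - r2), -(r2 / (1 - r2))]]
    ![a1, a2]
    (fun a j => by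
      fin_cases a <;> fin_cases j
      exacts [F1.fO, F1.fA, F1.fB, F2.fO, F2.fA, F2.fB])
    (fun a => by
      fin_cases a
      exacts [li1 a1, li2 a2])
    (by simp only [Fin.sum_univ_three, Matrix.cons_val_zero, Matrix.cons_val_one, Matrix.cons_val]
        have : 1 - r1 ≠ 0 := by linarith
        have e : 1 / (1 - r1) - r1 / (1 - r1) = 1 := by field_simp
        linarith)
    (fun θ => by
      by_cases h : θ ≠ o1 ∧ ε < |θ - x1|
      · exact ⟨0, dz_sees (r0 F1) s1 k1 q1 w1 (by linarith [p1.1, l1.1]) h.1 h.2⟩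
      · rw [not_and_or, not_not, not_lt, abs_le] at h
        refine ⟨1, dz_sees (r0 F2) s2 k2 q2 w2 (by linarith [p2.1, l2.1]) ?_ ?_⟩
        · rintro rfl
          rcases h with h | h <;> linarith [p1.2, p2.1, l1.1]
        · rw [lt_abs]
          rcases h with h | h
          · left; linarith [p1.1, l2.1]
          · right; linarith [h.2])
  obtain ⟨lam, l0, l1', te⟩ := hADD c R _ S' _ _ _ _ H (famf S' o) hζ hH
  have fl := famf S.lift S.over_lift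
  obtain ⟨db', li⟩ := hORG c R _ S.lift _ _ _ _ lam fl l0 l1' (tl lam l0 l1' te)
  exact ⟨db', _, _, lam, l0, l1', fl.fO, fl.fA, li⟩

end Pool.Agent.P.MP_874adf_gt.Gn
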