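import Pool.Agent.P.MP_874adf_gt.Gn.Iface0

/-! Step EG. -/

set_option autoImplicit false

namespace Pool.Agent.P.MP_874adf_gt.Gn

open Pool.Agent.P.MP_874adf_gt.Fs Set Filter Topology Metric MeasureTheory

namespace EGaux

lemma near_mono {d : P → P → ℝ} {G : P → ℝ} {x : P} {ε δ ε' δ' : ℝ} (h : Near d G x ε δ)
    (h1 : ε ≤ ε') (h2 : δ' ≤ δ) : Near d G x ε' δ' := fun s s0 sδ y hy z hz =>
  (h s s0 (sδ.trans h2) y hy z hz).trans (mul_le_mul_of_nonneg_right h1 s0.le)

/-- two places at distance at most `s` have close seminorms -/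
lemma cmp {d : P → P → ℝ} {G G' : P → ℝ} {x x' : P} {ε s : ℝ} (hG : IsS G) (hG' : IsS G')
    (s0 : 0 < s) (h : Near d G x ε s) (h' : Near d G' x' ε (2 * s)) (hx : dist x x' ≤ s) (w : P) :
    |G w - G' w| ≤ 3 * ε * ‖w‖ := by
  have key : ∀ v : P, ‖v‖ ≤ s → |G v - G' v| ≤ 3 * ε * s := by
    intro v hv
    have m1 : x ∈ closedBall x s := mem_closedBall_self s0.le
    have m2 : x + v ∈ closedBall x s := by simpa [mem_closedBall, dist_eq_norm] using hv
    have sub : closedBall x s ⊆ closedBall x' (2 * s) :=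
      closedBall_subset_closedBall' (by linarith)
    have a1 := h s s0 le_rfl x m1 (x + v) m2
    have a2 := h' (2 * s) (by linarith) le_rfl x (sub m1) (x + v) (sub m2)
    rw [add_sub_cancel_left] at a1 a2
    rw [abs_le] at a1 a2 ⊢
    constructor <;> linarith [a1.1, a1.2, a2.1, a2.2]
  rcases eq_or_ne w 0 with rfl | hw
  · have e1 := hG.smul 0 0
    have e2 := hG'.smul 0 0
    simp only [smul_zero, abs_zero, zero_mul] at e1 e2
    simp [e1, e2]
  have n0 : 0 < ‖w‖ := norm_pos_iff.2 hw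
  have t0 : 0 < s / ‖w‖ := div_pos s0 n0
  have k := key ((s / ‖w‖) • w) (by
    rw [norm_smul, Real.norm_eq_abs, abs_of_pos t0, div_mul_cancel₀ _ n0.ne'])
  rw [hG.smul, hG'.smul, abs_of_pos t0, ← mul_sub, abs_mul, abs_of_pos t0] at k
  have e : s / ‖w‖ * (3 * ε * ‖w‖) = 3 * ε * s := by field_simp
  exact le_of_mul_le_mul_left (k.trans e.ge) t0

lemma cont {G : P → ℝ} (hG : IsS G) : Continuous G := by
  have neg : ∀ v, G (-v) = G v := fun v => by simpa using hG.smul (-1) v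
  have nn : ∀ v, 0 ≤ G v := fun v => by
    have e1 := hG.smul 0 0
    simp only [smul_zero, abs_zero, zero_mul] at e1
    have := hG.add v (-v)
    rw [add_neg_cancel, e1, neg] at this
    linarith
  have up : ∀ v : P, G v ≤ (G (1, 0) + G (0, 1)) * ‖v‖ := by
    intro v
    have e : v = v.1 • ((1, 0) : P) + v.2 • ((0, 1) : P) := by ext <;> simp
    have a := hG.add (v.1 • ((1, 0) : P)) (v.2 • ((0, 1) : P))
    rw [← e, hG.smul, hG.smul] at a
    have b1 : |v.1| ≤ ‖v‖ := norm_fst_le v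
    have b2 : |v.2| ≤ ‖v‖ := norm_snd_le v
    nlinarith [nn (1, 0), nn (0, 1)]
  have lip : ∀ v w : P, dist (G v) (G w) ≤ (G (1, 0) + G (0, 1)) * dist v w := by
    intro v w
    rw [Real.dist_eq, dist_eq_norm, abs_le]
    have a1 := hG.add (v - w) w
    have a2 := hG.add (w - v) v
    rw [sub_add_cancel] at a1 a2
    have b1 := up (v - w)
    have b2 := up (w - v)
    rw [norm_sub_rev] at b2
    constructor <;> linarith
  have := LipschitzWith.of_dist_le' lip
  exact this.continuous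

def E (d F : P → P → ℝ) (ε δ : ℝ) : Set P := {x | IsS (F x) ∧ Near d (F x) x ε δ}

lemma clos {d F : P → P → ℝ} {ε δ : ℝ} (ε0 : 0 < ε) {x : P} (hS : IsS (F x)) (hD : DU d x (F x))
    (hx : x ∈ closure (E d F ε δ)) : Near d (F x) x (8 * ε) (δ / 2) := by
  intro s s0 sδ y hy z hz
  obtain ⟨δ1, δ10, h1⟩ := hD ε ε0
  have s10 : 0 < min δ1 s := lt_min δ10 s0
  obtain ⟨x', ⟨hS', hN'⟩, hd⟩ := Metric.mem_closure_iff.1 hx _ s10
  have ls : min δ1 s ≤ s := min_le_right _ _
  have c := cmp hS hS' s10 (near_mono h1 le_rfl (min_le_left _ _))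
    (near_mono hN' le_rfl (by linarith)) hd.le (z - y)
  have sub : closedBall x s ⊆ closedBall x' (2 * s) :=
    closedBall_subset_closedBall' (by linarith)
  have a := hN' (2 * s) (by linarith) (by linarith) y (sub hy) z (sub hz)
  have n : ‖z - y‖ ≤ 2 * s := by
    rw [← dist_eq_norm]
    have := dist_triangle_right z y x
    rw [mem_closedBall] at hy hz
    linarith
  have n2 : 3 * ε * ‖z - y‖ ≤ 3 * ε * (2 * s) := mul_le_mul_of_nonneg_left n (by linarith)
  rw [abs_le] at a c ⊢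
  constructor <;> linarith [a.1, a.2, c.1, c.2]

lemma contOn {d F : P → P → ℝ} {K : Set P} (hS : ∀ x ∈ K, IsS (F x))
    (hu : ∀ ε > (0 : ℝ), ∃ δ > (0 : ℝ), ∀ x ∈ K, Near d (F x) x ε δ) :
    ContinuousOn (fun p : P × P => F p.1 p.2) (K ×ˢ univ) := by
  rintro ⟨x, v⟩ ⟨hx, -⟩
  rw [ContinuousWithinAt, Metric.tendsto_nhds]
  intro ε ε0
  have n0 : 0 < ‖v‖ + 1 := by positivity
  obtain ⟨δ, δ0, h⟩ := hu (ε / (6 * (‖v‖ + 1))) (by positivity)
  have t1 : ∀ᶠ p : P × P in 𝓝 (x, v), dist p.1 x < δ / 2 :=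
    (continuous_fst.tendsto (x, v)).eventually (Metric.ball_mem_nhds x (by linarith))
  have t2 : ∀ᶠ p : P × P in 𝓝 (x, v), dist p.2 v < 1 :=
    (continuous_snd.tendsto (x, v)).eventually (Metric.ball_mem_nhds v one_pos)
  have t3 : ∀ᶠ p : P × P in 𝓝 (x, v), dist (F x p.2) (F x v) < ε / 2 :=
    (((cont (hS x hx)).comp continuous_snd).tendsto (x, v)).eventually
      (Metric.ball_mem_nhds (F x v) (by linarith))
  filter_upwards [mem_nhdsWithin_of_mem_nhds t1, mem_nhdsWithin_of_mem_nhds t2,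
    mem_nhdsWithin_of_mem_nhds t3, self_mem_nhdsWithin] with p h1 h2 h3 h4
  have c := cmp (hS p.1 h4.1) (hS x hx) (half_pos δ0) (near_mono (h p.1 h4.1) le_rfl (by linarith))
    (near_mono (h x hx) le_rfl (by linarith)) h1.le p.2
  have n : ‖p.2‖ ≤ ‖v‖ + 1 := by
    have := norm_sub_norm_le p.2 v
    rw [← dist_eq_norm] at this
    linarith
  have e : 3 * (ε / (6 * (‖v‖ + 1))) * (‖v‖ + 1) = ε / 2 := by field_simp; ring
  have n2 : 3 * (ε / (6 * (‖v‖ + 1))) * ‖p.2‖ ≤ 3 * (ε / (6 * (‖v‖ + 1))) * (‖v‖ + 1) :=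
    mul_le_mul_of_nonneg_left n (by positivity)
  rw [Real.dist_eq] at h3 ⊢
  rw [abs_lt] at h3 ⊢
  rw [abs_le] at c
  constructor <;> linarith [c.1, c.2, h3.1, h3.2]

end EGaux

theorem p_EG :
    S_EG := by
  intro M d F _ hF W hW mW fW ε ε0
  obtain ⟨N, hN, mN, N0⟩ := exists_measurable_superset_of_null (ae_iff.1 hF)
  have good : ∀ x ∈ W \ N, IsS (F x) ∧ DU d x (F x) := fun x hx => by
    by_contra hc
    exact hx.2 (hN fun h => hc (h (hW hx.1)))
  have m0 : MeasurableSet (W \ N) := mW.diff mN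
  have f0 : volume (W \ N) ≠ ⊤ := ne_top_of_le_ne_top fW (measure_mono sdiff_subset)
  have h2 : ENNReal.ofReal (ε / 2) ≠ 0 := by simpa using half_pos ε0
  obtain ⟨η, η0, ηs⟩ := ENNReal.exists_pos_sum_of_countable h2 ℕ
  set C : ℕ → ℕ → Set P := fun n m => closure (EGaux.E d F (1 / (n + 1 : ℝ)) (1 / (m + 1 : ℝ)))
    with hC
  have ex : ∀ n, ∃ m, volume ((W \ N) \ C n m) < η n := by
    intro n
    have anti : Antitone fun m => (W \ N) \ C n m := by
      intro a b ab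
      refine sdiff_subset_sdiff_right (closure_mono fun x hx => ⟨hx.1, ?_⟩)
      exact EGaux.near_mono hx.2 le_rfl (Nat.one_div_le_one_div ab)
    have t := tendsto_measure_iInter_atTop (μ := volume)
      (fun m => (m0.diff (isClosed_closure (s := EGaux.E d F (1 / (n + 1 : ℝ))
        (1 / ((m : ℕ) + 1 : ℝ)))).measurableSet).nullMeasurableSet) anti
      ⟨0, ne_top_of_le_ne_top f0 (measure_mono sdiff_subset)⟩
    have e : ⋂ m, (W \ N) \ C n m = ∅ := by
      rw [eq_empty_iff_forall_notMem]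
      intro x hx
      rw [mem_iInter] at hx
      obtain ⟨hS, hD⟩ := good x (hx 0).1
      obtain ⟨δ, δ0, h⟩ := hD (1 / (n + 1 : ℝ)) Nat.one_div_pos_of_nat
      obtain ⟨m, hm⟩ := exists_nat_one_div_lt δ0
      exact (hx m).2 (subset_closure ⟨hS, EGaux.near_mono h le_rfl hm.le⟩)
    rw [e, measure_empty] at t
    exact (t.eventually (gt_mem_nhds (ENNReal.coe_pos.2 (η0 n)))).exists
  choose m hm using ex
  set W1 : Set P := (W \ N) ∩ ⋂ n, C n (m n) with hW1
  have m1 : MeasurableSet W1 :=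
    m0.inter (MeasurableSet.iInter fun n => isClosed_closure.measurableSet)
  have f1 : volume W1 ≠ ⊤ := ne_top_of_le_ne_top f0 (measure_mono inter_subset_left)
  obtain ⟨K, hK, cK, vK⟩ := m1.exists_isCompact_sdiff_lt f1 h2
  have hS : ∀ x ∈ K, IsS (F x) := fun x hx => (good x (hK hx).1).1
  have hu : ∀ ε > (0 : ℝ), ∃ δ > (0 : ℝ), ∀ x ∈ K, Near d (F x) x ε δ := by
    intro e e0
    obtain ⟨n, hn⟩ := exists_nat_one_div_lt (show 0 < e / 8 by linarith)
    refine ⟨1 / (m n + 1 : ℝ) / 2, half_pos Nat.one_div_pos_of_nat, fun x hx => ?_⟩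
    obtain ⟨a, b⟩ := good x (hK hx).1
    exact EGaux.near_mono (EGaux.clos Nat.one_div_pos_of_nat a b (mem_iInter.1 (hK hx).2 n))
      (by linarith) le_rfl
  refine ⟨K, fun x hx => (hK hx).1.1, ⟨cK, fun x hx => hW (hK hx).1.1, hS, hu,
    EGaux.contOn hS hu⟩, ?_⟩
  have sub : W \ K ⊆ N ∪ ((⋃ n, (W \ N) \ C n (m n)) ∪ W1 \ K) := by
    intro x hx
    by_cases a : x ∈ N
    · exact Or.inl a
    by_cases b : x ∈ W1
    · exact Or.inr (Or.inr ⟨b, hx.2⟩)
    refine Or.inr (Or.inl ?_)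
    by_contra c
    refine b ⟨⟨hx.1, a⟩, mem_iInter.2 fun n => ?_⟩
    by_contra c2
    exact c (mem_iUnion.2 ⟨n, ⟨hx.1, a⟩, c2⟩)
  have v1 : volume (⋃ n, (W \ N) \ C n (m n)) < ENNReal.ofReal (ε / 2) :=
    ((measure_iUnion_le _).trans (ENNReal.tsum_le_tsum fun n => (hm n).le)).trans_lt ηs
  calc volume (W \ K) ≤ volume N + (volume (⋃ n, (W \ N) \ C n (m n)) + volume (W1 \ K)) :=
        (measure_mono sub).trans ((measure_union_le _ _).trans
          (add_le_add le_rfl (measure_union_le _ _)))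
    _ < ENNReal.ofReal (ε / 2) + ENNReal.ofReal (ε / 2) := by
        rw [N0, zero_add]
        exact ENNReal.add_lt_add v1 vK
    _ = ENNReal.ofReal ε := by
        rw [← ENNReal.ofReal_add (half_pos ε0).le (half_pos ε0).le, add_halves]

end Pool.Agent.P.MP_874adf_gt.Gn
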