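import Pool.Agent.P.MP_874adf_gt.Gn.Iface0

/-! Step FIN. -/

set_option autoImplicit false

namespace Pool.Agent.P.MP_874adf_gt.Gn

open Pool.Agent.P.MP_874adf_gt.Fs Set Filter Topology Metric MeasureTheory

namespace FINaux

lemma cont {H : P → ℝ} (h : IsS H) : Continuous H := by
  have neg : ∀ v, H (-v) = H v := fun v => by simpa using h.smul (-1) v
  have up : ∀ v : P, H v ≤ (|H (1, 0)| + |H (0, 1)|) * ‖v‖ := fun v => by
    have e : v = v.1 • ((1, 0) : P) + v.2 • ((0, 1) : P) := by ext <;> simp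
    have h1 := h.add (v.1 • ((1, 0) : P)) (v.2 • ((0, 1) : P))
    rw [← e, h.smul, h.smul] at h1
    have a1 : |v.1| ≤ ‖v‖ := norm_fst_le v
    have a2 : |v.2| ≤ ‖v‖ := norm_snd_le v
    have c1 : |v.1| * H (1, 0) ≤ ‖v‖ * |H (1, 0)| :=
      (mul_le_mul_of_nonneg_left (le_abs_self _) (abs_nonneg _)).trans
        (mul_le_mul_of_nonneg_right a1 (abs_nonneg _))
    have c2 : |v.2| * H (0, 1) ≤ ‖v‖ * |H (0, 1)| :=
      (mul_le_mul_of_nonneg_left (le_abs_self _) (abs_nonneg _)).trans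
        (mul_le_mul_of_nonneg_right a2 (abs_nonneg _))
    linarith
  have sub : ∀ v w : P, H v - H w ≤ (|H (1, 0)| + |H (0, 1)|) * ‖v - w‖ := fun v w => by
    have h1 := h.add (v - w) w
    rw [sub_add_cancel] at h1
    linarith [up (v - w)]
  refine (LipschitzWith.of_dist_le_mul (K := ⟨|H (1, 0)| + |H (0, 1)|, by positivity⟩)
    fun v w => ?_).continuous
  rw [Real.dist_eq, dist_eq_norm, abs_le]
  have h1 := sub v w
  have h2 := sub w v
  rw [norm_sub_rev] at h2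
  refine ⟨?_, h1⟩
  show -((|H (1, 0)| + |H (0, 1)|) * ‖v - w‖) ≤ _
  linarith

variable {M : Set P} {d : P → P → ℝ} {ι : Type} {l : Filter ι} {x : ι → P} {s N : ι → ℝ}
  {H : P → ℝ}

lemma ev_ball {p : ι → P} {p0 : P} (hp : Tendsto p l (𝓝 p0)) {k : ℝ} (hk : ‖p0‖ < k) :
    ∀ᶠ i in l, p i ∈ closedBall (0 : P) k := by
  filter_upwards [hp.norm.eventually (gt_mem_nhds hk)] with i hi
  exact mem_closedBall_zero_iff.2 hi.le

lemma scaled (hH : IsS H) (h0 : ∀ᶠ i in l, 0 < s i ∧ 0 < N i) (ha : Appr l d x s N H)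
    {y z : ι → P} {y0 z0 : P} (hy : Tendsto y l (𝓝 y0)) (hz : Tendsto z l (𝓝 z0)) :
    Tendsto (fun i => d (x i + s i • y i) (x i + s i • z i) / N i) l (𝓝 (H (z0 - y0))) := by
  have h1 : Tendsto (fun i => H (z i - y i)) l (𝓝 (H (z0 - y0))) :=
    ((cont hH).tendsto _).comp (hz.sub hy)
  have h2 : Tendsto (fun i => d (x i + s i • y i) (x i + s i • z i) / N i - H (z i - y i)) l
      (𝓝 0) := by
    rw [Metric.tendsto_nhds]
    intro ε ε0
    have n1 := norm_nonneg y0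
    have n2 := norm_nonneg z0
    filter_upwards [h0, ha (‖y0‖ + ‖z0‖ + 1) (ε / 2) (half_pos ε0),
      ev_ball hy (by linarith : ‖y0‖ < ‖y0‖ + ‖z0‖ + 1),
      ev_ball hz (by linarith : ‖z0‖ < ‖y0‖ + ‖z0‖ + 1)] with i i0 i1 i2 i3
    have := i1 _ i2 _ i3
    have e : d (x i + s i • y i) (x i + s i • z i) / N i - H (z i - y i) =
        (d (x i + s i • y i) (x i + s i • z i) - N i * H (z i - y i)) / N i := by
      field_simp [i0.2.ne']
    rw [Real.dist_eq, sub_zero, e, abs_div, abs_of_pos i0.2, div_lt_iff₀ i0.2]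
    nlinarith [i0.2]
  simpa using h2.add h1

lemma mem (h0 : ∀ᶠ i in l, 0 < s i ∧ 0 < N i)
    (hM : ∀ k : ℝ, ∀ᶠ i in l, closedBall (x i) (k * s i) ⊆ M) {p : ι → P} {p0 : P}
    (hp : Tendsto p l (𝓝 p0)) : ∀ᶠ i in l, x i + s i • p i ∈ M := by
  filter_upwards [h0, hM (‖p0‖ + 1), ev_ball hp (lt_add_one _)] with i i0 i1 i2
  refine i1 ?_
  rw [mem_closedBall, dist_eq_norm, add_sub_cancel_left, norm_smul, Real.norm_of_nonneg i0.1.le,
    mul_comm]
  exact mul_le_mul_of_nonneg_right (mem_closedBall_zero_iff.1 i2) i0.1.le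

/-- lower bound for the increment of the distance from a far point -/
lemma lower (h : PM M d) (hH : IsS H) (h0 : ∀ᶠ i in l, 0 < s i ∧ 0 < N i) (ha : Appr l d x s N H)
    (hM : ∀ k : ℝ, ∀ᶠ i in l, closedBall (x i) (k * s i) ⊆ M) {X : ι → P} {c : ι → ℝ} {v : P}
    (hX : ∀ᶠ i in l, X i ∈ M) (hc : Tendsto (fun i => c i / s i) l atTop)
    (hv : Tendsto (fun i => (c i)⁻¹ • (x i - X i)) l (𝓝 v)) (w : P) {a : ℝ} (a0 : 0 < a) :
    ∃ f : ι → ℝ, Tendsto f l (𝓝 (H (a • v) - H (a • v - w))) ∧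
      ∀ᶠ i in l, f i * N i ≤ d (X i) (x i + s i • w) - d (X i) (x i) := by
  have hz := hv.const_smul a
  have t1 := scaled hH h0 ha (tendsto_const_nhds (x := (0 : P))) hz
  have t2 := scaled hH h0 ha (tendsto_const_nhds (x := w)) hz
  rw [sub_zero] at t1
  refine ⟨_, t1.sub t2, ?_⟩
  filter_upwards [h0, hX, hc.eventually (eventually_gt_atTop 0), mem h0 hM hz,
    mem h0 hM (tendsto_const_nhds (x := w))] with i i0 i1 i2 i3 i4
  have c0 : 0 < c i := (div_pos_iff_of_pos_right i0.1).1 i2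
  have e : s i • a • (c i)⁻¹ • (x i - X i) = (s i * a * (c i)⁻¹) • (x i - X i) := by
    rw [smul_smul, smul_smul]
  have e1 : x i + (-1 : ℝ) • (x i - X i) = X i := by module
  have q0 : 0 ≤ s i * a * (c i)⁻¹ := by have := i0.1; positivity
  rw [e] at i3
  have ad := h.line_add (r := -1) (s := 0) (e1.symm ▸ i1) i3 (by norm_num) q0
  rw [e1, zero_smul, add_zero] at ad
  have tri := h.triangle _ i1 _ i4 _ i3
  rw [sub_mul, div_mul_cancel₀ _ i0.2.ne', div_mul_cancel₀ _ i0.2.ne', smul_zero, add_zero, e]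
  linarith

/-- upper bound for the increment of the distance from a far point -/
lemma upper (h : PM M d) (hH : IsS H) (h0 : ∀ᶠ i in l, 0 < s i ∧ 0 < N i) (ha : Appr l d x s N H)
    (hM : ∀ k : ℝ, ∀ᶠ i in l, closedBall (x i) (k * s i) ⊆ M) {X : ι → P} {c : ι → ℝ} {v : P}
    (hX : ∀ᶠ i in l, X i ∈ M) (hc : Tendsto (fun i => c i / s i) l atTop)
    (hv : Tendsto (fun i => (c i)⁻¹ • (x i - X i)) l (𝓝 v)) (w : P) {b : ℝ} (b0 : 0 < b) :
    ∃ f : ι → ℝ, Tendsto f l (𝓝 (H (b • v + w) - H (b • v))) ∧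
      ∀ᶠ i in l, d (X i) (x i + s i • w) - d (X i) (x i) ≤ f i * N i := by
  have hz := (hv.const_smul b).neg
  have t1 := scaled hH h0 ha hz (tendsto_const_nhds (x := (0 : P)))
  have t2 := scaled hH h0 ha hz (tendsto_const_nhds (x := w))
  rw [zero_sub, neg_neg] at t1
  rw [sub_neg_eq_add, add_comm] at t2
  refine ⟨_, t2.sub t1, ?_⟩
  filter_upwards [h0, hX, hc.eventually (eventually_ge_atTop b), mem h0 hM hz,
    mem h0 hM (tendsto_const_nhds (x := w)), mem h0 hM (tendsto_const_nhds (x := (0 : P)))]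
    with i i0 i1 i2 i3 i4 i5
  rw [le_div_iff₀ i0.1] at i2
  have c0 : 0 < c i := (mul_pos b0 i0.1).trans_le i2
  have e : s i • -(b • (c i)⁻¹ • (x i - X i)) = (-(s i * b * (c i)⁻¹)) • (x i - X i) := by
    rw [smul_neg, smul_smul, smul_smul, neg_smul]
  have e1 : x i + (-1 : ℝ) • (x i - X i) = X i := by module
  have q0 : 0 ≤ s i * b * (c i)⁻¹ := by have := i0.1; positivity
  have q1 : s i * b * (c i)⁻¹ ≤ 1 := by
    rw [← div_eq_mul_inv, div_le_one c0, mul_comm]; exact i2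
  rw [e] at i3
  rw [smul_zero, add_zero] at i5
  have m0 : x i + (0 : ℝ) • (x i - X i) ∈ M := by rwa [zero_smul, add_zero]
  have ad := h.line_add (r := -1) (s := -(s i * b * (c i)⁻¹)) (e1.symm ▸ i1) m0 (by linarith)
    (by linarith)
  rw [e1, zero_smul, add_zero] at ad
  have tri := h.triangle _ i1 _ i3 _ i4
  rw [sub_mul, div_mul_cancel₀ _ i0.2.ne', div_mul_cancel₀ _ i0.2.ne', smul_zero, add_zero, e]
  linarith

end FINaux

theorem p_FIN (hMON : S_MON) :
    S_FIN := by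
  intro M d ι l x s N H D vO vA vB cO cA cB r h hl hH h0 ha hM hc tO tA tB uO uA uB hr w a a0 hw
    b b0 c c0
  have mO : ∀ᶠ i in l, dO (D i) ∈ M := hc.mono fun i q => q.mO
  have mB : ∀ᶠ i in l, dB (D i) ∈ M := hc.mono fun i q => q.mB
  have mA : ∀ᶠ i in l, dA (D i) ∈ M := hc.mono fun i q => h.seg_mem q.mO q.mB q.l0.le q.l1.le
  obtain ⟨fO, f1, f2⟩ := FINaux.lower h hH h0 ha hM mO tO uO w a0
  obtain ⟨fA, g1, g2⟩ := FINaux.upper h hH h0 ha hM mA tA uA w b0
  obtain ⟨fB, k1, k2⟩ := FINaux.lower h hH h0 ha hM mB tB uB w c0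
  have lim := g1.sub (hr.mul k1)
  have : 0 ≤ H (b • vA + w) - H (b • vA) - r * (H (c • vB) - H (c • vB - w)) := by
    refine ge_of_tendsto lim ?_
    filter_upwards [h0, hc, f2, g2, k2, f1.eventually (lt_mem_nhds (sub_pos.2 hw)),
      FINaux.mem h0 hM (tendsto_const_nhds (x := w)),
      FINaux.mem h0 hM (tendsto_const_nhds (x := (0 : P)))] with i i0 q i1 i2 i3 i4 i5 i6
    rw [smul_zero, add_zero] at i6
    have out : d (dO (D i)) (x i) ≤ d (dO (D i)) (x i + s i • w) := by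
      nlinarith [mul_pos i4 i0.2]
    have m1 := (hMON M d (D i) _ h q _ i5).1 out
    have m2 : 0 ≤ Vf d (D i) (x i + s i • w) := by linarith
    rw [Vf, le_div_iff₀ (sub_pos.2 q.r1), zero_mul] at m2
    have on := q.on _ i6 rfl
    have m3 := mul_le_mul_of_nonneg_left i3 q.r0.le
    have m4 : 0 ≤ (fA i - dr (D i) * fB i) * N i := by nlinarith
    exact nonneg_of_mul_nonneg_left m4 i0.2
  linarith

end Pool.Agent.P.MP_874adf_gt.Gn
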