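import Pool.Agent.P.MP_874adf_gt.Gn.FoC

/-! Step FOC. -/

set_option autoImplicit false

namespace Pool.Agent.P.MP_874adf_gt.Gn

open Pool.Agent.P.MP_874adf_gt.Fs Set Filter Topology Metric MeasureTheory

namespace FOCaux

lemma thin_mono {n : ℝ → ℝ} {π σ ζ ε ε' a b e r : ℝ} (h : Thin n π σ ζ ε a b e r) (hε : ε ≤ ε') :
    Thin n π σ ζ ε' a b e r := by
  obtain ⟨h1, h2, h3, h4, h5, h6, h7⟩ := h
  exact ⟨h1.trans hε, h2.trans hε, h3.trans hε, h4, by linarith, h6, h7.trans hε⟩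

/-- direction from a fixed point below or above the origin -/
lemma dir_lim {ι : Type} {l : Filter ι} {x X : ι → P} {s : ι → ℝ} {X0 : P} {σ : ℝ} (hσ : Sg σ)
    (hx : Tendsto x l (𝓝 0)) (hX : Tendsto X l (𝓝 X0)) (hs : Tendsto s l (𝓝 0))
    (s0 : ∀ i, 0 < s i) (h0 : 0 < σ * ((0 : P).2 - X0.2)) :
    Tendsto (fun i => σ * ((0 : P).2 - X0.2) / s i) l atTop ∧
    Tendsto (fun i => (σ * ((0 : P).2 - X0.2))⁻¹ • (x i - X i)) l (𝓝 (σ • (sl 0 X0, 1))) := by
  constructor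
  · have : Tendsto s l (𝓝[>] 0) := tendsto_nhdsWithin_iff.2 ⟨hs, Eventually.of_forall s0⟩
    exact ((tendsto_inv_nhdsGT_zero.comp this).const_mul_atTop h0).congr fun i => by
      simp [div_eq_mul_inv]
  · have := (hx.sub hX).const_smul (σ * ((0 : P).2 - X0.2))⁻¹
    convert this using 2
    have h1 : X0.2 ≠ 0 := fun e => by simp [e] at h0
    rcases hσ with rfl | rfl <;> ext <;> simp [sl] <;> field_simp

namespace Seq

variable {c : Ctx} (q : Seq c)

lemma ev {p : ℕ → Prop} (h : ∀ᶠ i in atTop, p i) : ∀ᶠ i in (hyperfilter ℕ : Filter ℕ), p i :=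
  h.filter_mono Nat.hyperfilter_le_atTop

lemma td {E : Type} {f : ℕ → E} {m : Filter E} (h : Tendsto f atTop m) :
    Tendsto f (hyperfilter ℕ : Filter ℕ) m := h.mono_left Nat.hyperfilter_le_atTop

section Hon

variable {H : P → ℝ} (hH : IsN H)
  (ha : Appr (hyperfilter ℕ : Filter ℕ) c.d q.x q.s (fun i => c.d (q.x i) (q.B i)) H)

include hH ha

lemma hon_one : H (1, 0) = 1 := by
  have a := FINaux.scaled (isS hH) (Eventually.of_forall fun i => ⟨q.s0 i, q.N0 i⟩) ha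
    (tendsto_const_nhds (x := (0 : P))) (td q.w)
  rw [sub_zero] at a
  refine tendsto_nhds_unique a (tendsto_const_nhds.congr fun i => ?_)
  rw [q.B_eq, smul_zero, add_zero, div_self (q.N0 i).ne']

lemma hon_nice : Nice H c.G := by
  intro X hX σ σ0
  have pm := c.gp.pm
  have h0 : ∀ᶠ i in (hyperfilter ℕ : Filter ℕ), 0 < q.s i ∧ 0 < c.d (q.x i) (q.B i) :=
    Eventually.of_forall fun i => ⟨q.s0 i, q.N0 i⟩
  have hM : ∀ k : ℝ, ∀ᶠ i in (hyperfilter ℕ : Filter ℕ),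
    closedBall (q.x i) (k * q.s i) ⊆ c.M := fun k => ev (q.hM k)
  obtain ⟨Y, y1, y2⟩ := q.circ X hX
  have y4 : Tendsto Y atTop (𝓝 0) := by
    have := q.tx.sub (small q.t0 q.tt y1)
    rw [sub_zero] at this
    exact this.congr fun i => sub_sub_cancel _ _
  have mY : ∀ᶠ i in (hyperfilter ℕ : Filter ℕ), Y i ∈ c.M :=
    ev (y4.eventually (pm.isOpen.mem_nhds c.gp.mem))
  have mB : ∀ᶠ i in (hyperfilter ℕ : Filter ℕ), q.B i ∈ c.M :=
    ev (q.tB.eventually (pm.isOpen.mem_nhds c.gp.mem))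
  have mW := FINaux.mem h0 hM (tendsto_const_nhds (x := ((1, 0) : P)))
  have e0 := FINaux.scaled (isS hH) h0 ha (td q.w) (tendsto_const_nhds (x := ((1, 0) : P)))
  rw [sub_self, hH.zero] at e0
  simp only [q.B_eq] at e0
  have i0 : 0 < σ⁻¹ := inv_pos.2 σ0
  obtain ⟨f, f1, f2⟩ := FINaux.lower pm (isS hH) h0 ha hM mY (td q.top) (td y1) (1, 0) i0
  obtain ⟨g, g1, g2⟩ := FINaux.upper pm (isS hH) h0 ha hM mY (td q.top) (td y1) (1, 0) i0
  set v : P := (1, 0) - X with hv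
  have l1 : H (σ⁻¹ • v) - H (σ⁻¹ • v - (1, 0)) ≤ c.G v / 2 + 0 := by
    refine le_of_tendsto_of_tendsto f1 ((td y2).add e0) ?_
    filter_upwards [f2, mY, mB, mW] with i i1 i2 i3 i4
    have := pm.triangle _ i2 _ i3 _ i4
    rw [← add_div, le_div_iff₀ (q.N0 i)]
    linarith
  have l2 : c.G v / 2 - 0 ≤ H (σ⁻¹ • v + (1, 0)) - H (σ⁻¹ • v) := by
    refine le_of_tendsto_of_tendsto ((td y2).sub e0) g1 ?_
    filter_upwards [g2, mY, mB, mW] with i i1 i2 i3 i4
    have := pm.triangle _ i2 _ i4 _ i3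
    rw [pm.symm _ i4 _ i3] at this
    rw [← sub_div, div_le_iff₀ (q.N0 i)]
    linarith
  have e1 : H v = σ * H (σ⁻¹ • v) := by
    rw [← hH.smul_nonneg σ0.le, smul_smul, mul_inv_cancel₀ σ0.ne', one_smul]
  have e2 : H (v - σ • (1, 0)) = σ * H (σ⁻¹ • v - (1, 0)) := by
    rw [← hH.smul_nonneg σ0.le, smul_sub, smul_smul, mul_inv_cancel₀ σ0.ne', one_smul]
  have e3 : H (v + σ • (1, 0)) = σ * H (σ⁻¹ • v + (1, 0)) := by
    rw [← hH.smul_nonneg σ0.le, smul_add, smul_smul, mul_inv_cancel₀ σ0.ne', one_smul]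
  rw [e2, e3, e1]
  constructor
  · nlinarith [mul_le_mul_of_nonneg_left l1 σ0.le]
  · nlinarith [mul_le_mul_of_nonneg_left l2 σ0.le]

lemma hon_rel (hFIN : S_FIN) {σ : ℝ} (hσ : Sg σ) {ζ : ℝ} (hζ : ζ ∈ Act (ln c.G)) :
    Rel H (ln c.G) c.π σ ζ := by
  intro ε ε0
  obtain ⟨v, hv, ρ, cell⟩ := c.root σ hσ ζ hζ ε ε0
  obtain ⟨ρ', ρ0, hval⟩ := c.gp.cells.val v hv
  have ex : ∀ i, ∃ E ∈ v, q.x i ∈ ball (0 : P) ρ' → Circ c.M c.d E (c.d (dO E) (q.x i)) := by
    intro i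
    by_cases h : q.x i ∈ ball (0 : P) ρ'
    · obtain ⟨E, e1, e2⟩ := hval _ h
      exact ⟨E, e1, fun _ => e2⟩
    · obtain ⟨E, e1, _⟩ := hval 0 (mem_ball_self ρ0)
      exact ⟨E, e1, fun h' => absurd h' h⟩
  choose E e1 e2 using ex
  obtain ⟨E0, m0, lim⟩ := (c.gp.cells.cpt v hv).ultrafilter_le_nhds ((hyperfilter ℕ).map E)
    (by rw [Ultrafilter.coe_map, le_principal_iff, mem_map]; exact Eventually.of_forall e1)
  have lim' : Tendsto E (hyperfilter ℕ : Filter ℕ) (𝓝 E0) := lim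
  have z : (0 : P) ∈ closedBall (0 : P) ρ := mem_closedBall_self cell.rho.le
  have cO : Continuous dO := by fun_prop
  have cA : Continuous dA := by fun_prop
  have cB : Continuous dB := by fun_prop
  have cr : Continuous dr := by fun_prop
  have aO := dir_lim hσ (td q.tx) ((cO.tendsto _).comp lim') (td q.ts) q.s0
    (cell.rho.trans_le (cell.hO E0 m0 0 z))
  have aA := dir_lim hσ (td q.tx) ((cA.tendsto _).comp lim') (td q.ts) q.s0
    (cell.rho.trans_le (cell.hA E0 m0 0 z))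
  have aB := dir_lim hσ (td q.tx) ((cB.tendsto _).comp lim') (td q.ts) q.s0
    (cell.rho.trans_le (cell.hB E0 m0 0 z))
  refine ⟨_, _, _, _, cell.thin E0 m0, rv_sign hH hσ ?_⟩
  exact hFIN c.M c.d ℕ (hyperfilter ℕ) q.x q.s _ H E _ _ _ _ _ _ _ c.gp.pm inferInstance (isS hH)
    (Eventually.of_forall fun i => ⟨q.s0 i, q.N0 i⟩) ha (fun k => ev (q.hM k))
    ((ev (q.tx.eventually (ball_mem_nhds _ ρ0))).mono fun i hi => e2 i hi)
    aO.1 aA.1 aB.1 aO.2 aA.2 aB.2 ((cr.tendsto _).comp lim')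

end Hon

/-- increments of the distance from far points below the focal segment -/
lemma far_lim (hR : Reg c) {X : ℕ → P} {t z0 : ℝ} (hX : (q.sys hR).Far 1 X t)
    (hz : z0 ∈ Lf (ln c.G) 1) (ht : t < fx (ln c.G) 1 z0) :
    Tendsto (fun i => (c.d (X i) (q.B i) - c.d (X i) (q.x i)) / c.d (q.x i) (q.B i))
      (hyperfilter ℕ : Filter ℕ) (𝓝 (bq (ln c.G) t)) := by
  have hG := c.gp.isN
  have pm := c.gp.pm
  have inv := fx_inv hG ht
  set ζ := Function.invFun (fx (ln c.G) 1) t with hζ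
  have ζz : ζ < z0 := by
    by_contra hc
    rw [not_lt] at hc
    have := fx_mono hG c.gp.u1 hc
    linarith
  set g : ℝ → ℝ := fun y => -(c.G ((1, 0) - uv c.G y) / 2) with hg
  have gζ : g ζ = bq (ln c.G) t := by
    simp only [hg, bq]
    rw [uv_val hG, inv, ← hζ]
    ring
  have gc : ContinuousAt g ζ := by
    have e : g = fun y => -(ln c.G (fx (ln c.G) 1 y) / ln c.G y / 2) := by
      funext y
      simp only [hg]
      rw [uv_val hG]
    rw [e]
    have c1 := cont_ln hG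
    have c2 := cont_fx hG
    exact ((((c1.comp c2).continuousAt).div c1.continuousAt (GAPaux.pos hG ζ).ne').div_const 2).neg
  have far : ∀ η > (0 : ℝ), ∀ᶠ i in (hyperfilter ℕ : Filter ℕ), X i ∈ c.M ∧
      (X i).2 < (q.x i).2 ∧ (X i).2 < (q.B i).2 ∧ |sl (q.x i) (X i) - t| ≤ η ∧
      |sl (q.B i) (X i) - t| ≤ η := by
    intro η η0
    filter_upwards [hX 2 η η0, ev q.B_near] with i i1 i2
    have s0 := q.s0 i
    have a1 := i1.2 (q.x i) (mem_closedBall_self (by change 0 ≤ 2 * q.s i; linarith))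
    have a2 := i1.2 (q.B i) (by
      change q.B i ∈ closedBall (q.x i) (2 * q.s i)
      rwa [mem_closedBall, dist_eq_norm])
    have b1 : 2 * q.s i ≤ 1 * ((q.x i).2 - (X i).2) := a1.1
    have b2 : 2 * q.s i ≤ 1 * ((q.B i).2 - (X i).2) := a2.1
    exact ⟨c.sub i1.1, by linarith, by linarith, a1.2, a2.2⟩
  have mx : ∀ᶠ i in (hyperfilter ℕ : Filter ℕ), q.x i ∈ c.M :=
    ev (q.tx.eventually (pm.isOpen.mem_nhds c.gp.mem))
  have mB : ∀ᶠ i in (hyperfilter ℕ : Filter ℕ), q.B i ∈ c.M :=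
    ev (q.tB.eventually (pm.isOpen.mem_nhds c.gp.mem))
  rw [← gζ, tendsto_order]
  constructor
  · intro a ha
    obtain ⟨y, y1, y2⟩ := (((gc.eventually (lt_mem_nhds ha)).filter_mono
      nhdsWithin_le_nhds).and (self_mem_nhdsWithin (s := Iio ζ))).exists
    have fy : fx (ln c.G) 1 y < t := inv ▸ fx_strict hG c.gp.u1 c.sc (lf_lower hz ζz.le) y2
    obtain ⟨Y, u0, u1, u2, u3, u4, u5⟩ := q.up y
    set η := (t - fx (ln c.G) 1 y) / 2 with hη
    have η0 : 0 < η := by linarith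
    filter_upwards [far η η0, mx, mB, ev (u0.eventually (pm.isOpen.mem_nhds c.gp.mem)), ev u1,
      ev (u3.eventually (Ioo_mem_nhds (by linarith : fx (ln c.G) 1 y - η < _)
        (by linarith : _ < fx (ln c.G) 1 y + η))),
      ev (q.hor (|t| + 3 * η)), ev (u5.neg.eventually (lt_mem_nhds y1))]
      with i ⟨i1, i2, _, i4, _⟩ j1 j2 j3 j4 j5 j6 j7
    have s0 := q.s0 i
    rw [abs_le] at i4
    have t1 := le_abs_self t
    have t2 := neg_abs_le t
    have b1 := j6 (sl (q.x i) (X i)) (abs_le.2 ⟨by linarith [i4.1], by linarith [i4.2]⟩)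
    have b2 := j6 (sl (q.x i) (Y i)) (abs_le.2 ⟨by linarith [j5.1], by linarith [j5.2]⟩)
    have tr := tri_slope pm i1 j3 j2 i2 j4 (κ := 1) (by linarith [j5.2, i4.1]) (by linarith)
      (by linarith)
    rw [pm.symm _ j1 _ j3, pm.symm _ j2 _ j3] at tr
    refine j7.trans_le ?_
    rw [← neg_div]
    exact div_le_div_of_nonneg_right (by linarith) (q.N0 i).le
  · intro a ha
    obtain ⟨y, ⟨y1, y3⟩, y2⟩ := ((((gc.eventually (gt_mem_nhds ha)).and
      (gt_mem_nhds ζz)).filter_mono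
      nhdsWithin_le_nhds).and (self_mem_nhdsWithin (s := Ioi ζ))).exists
    have fy : t < fx (ln c.G) 1 y := inv ▸ fx_strict hG c.gp.u1 c.sc (lf_lower hz y3.le) y2
    obtain ⟨Y, u0, u1, u2, u3, u4, u5⟩ := q.up y
    set η := (fx (ln c.G) 1 y - t) / 2 with hη
    have η0 : 0 < η := by linarith
    filter_upwards [far η η0, mx, mB, ev (u0.eventually (pm.isOpen.mem_nhds c.gp.mem)), ev u2,
      ev (u4.eventually (Ioo_mem_nhds (by linarith : fx (ln c.G) 1 y - η < _)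
        (by linarith : _ < fx (ln c.G) 1 y + η))),
      ev (q.hor (|t| + 3 * η)), ev (u5.neg.eventually (gt_mem_nhds y1))]
      with i ⟨i1, _, i3, _, i5⟩ j1 j2 j3 j4 j5 j6 j7
    have s0 := q.s0 i
    rw [abs_le] at i5
    have t1 := le_abs_self t
    have t2 := neg_abs_le t
    have b1 := j6 (sl (q.B i) (X i)) (abs_le.2 ⟨by linarith [i5.1], by linarith [i5.2]⟩)
    have b2 := j6 (sl (q.B i) (Y i)) (abs_le.2 ⟨by linarith [j5.1], by linarith [j5.2]⟩)
    have ng : ∀ θ, pr θ (q.x i - q.B i) = -pr θ (q.B i - q.x i) := fun θ => by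
      simp only [pr, Prod.fst_sub, Prod.snd_sub]; ring
    have tr := tri_slope pm i1 j3 j1 i3 j4 (κ := -1) (by linarith [j5.1, i5.2])
      (by rw [ng]; linarith) (by rw [ng]; linarith)
    rw [pm.symm _ j1 _ j3, pm.symm _ j2 _ j3] at tr
    refine lt_of_le_of_lt ?_ j7
    rw [← neg_div]
    exact div_le_div_of_nonneg_right (by linarith) (q.N0 i).le

lemma flat (hR : Reg c) (hF : (q.sys hR).Flat) : FlatRel (ln c.G) c.π := by
  obtain ⟨Z, hZ, hF⟩ := hF
  obtain ⟨z0, hz, _⟩ := c.neg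
  have hG := c.gp.isN
  have pm := c.gp.pm
  refine ⟨Z, hZ, fx (ln c.G) 1 z0 - 1, ⟨z0, by linarith⟩, fun ζ hζ hn ε ε0 => ?_⟩
  have m0 : 0 < min ε (1 / 2) := lt_min ε0 (by norm_num)
  obtain ⟨D, tO, tA, tB, r, fam, thin, hev⟩ := hF ζ ⟨z0, hz, by linarith⟩ hn _ m0 2
  refine ⟨tO, tA, tB, r, thin_mono thin (min_le_left _ _), ?_⟩
  obtain ⟨h1, h2, h3, _, _, h6, _⟩ := thin
  have m1 := min_le_right ε (1 / 2)
  have f1 : fx (ln c.G) 1 ζ ≤ ζ := by
    have := GAPaux.pos hG ζ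
    simp only [fx]
    linarith
  rw [abs_le] at h1 h2 h3
  have lO := q.far_lim hR fam.fO hz (by linarith [h1.2])
  have lA := q.far_lim hR fam.fA hz (by linarith [h2.2])
  have lB := q.far_lim hR fam.fB hz (by linarith [h3.2])
  have lr : Tendsto (fun i => dr (D i)) (hyperfilter ℕ : Filter ℕ) (𝓝 r) := fam.tr
  have r1 : 1 - r ≠ 0 := by linarith
  have lim := (((lA.sub (lr.mul lB)).div (lr.const_sub 1) r1).sub lO).abs
  have e : (bq (ln c.G) tA - r * bq (ln c.G) tB) / (1 - r) - bq (ln c.G) tO =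
      bq (ln c.G) tA - bq (ln c.G) tO + r / (1 - r) * (bq (ln c.G) tA - bq (ln c.G) tB) := by
    field_simp
    ring
  rw [e] at lim
  refine (le_of_tendsto lim ?_).trans (min_le_left ε (1 / 2))
  filter_upwards [hev, ev q.B_near, ev (q.tx.eventually (pm.isOpen.mem_nhds c.gp.mem))]
    with i i1 i2 i3
  have s0 := q.s0 i
  have N0 := q.N0 i
  have a := i1 (q.x i) (mem_closedBall_self (by change 0 ≤ 2 * q.s i; linarith)) (q.B i) (by
      change q.B i ∈ closedBall (q.x i) (2 * q.s i)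
      rwa [mem_closedBall, dist_eq_norm])
    (by change c.d (q.x i) (q.x i) ≤ 2 * c.d (q.x i) (q.B i); rw [pm.self i3]; linarith)
    (by change c.d (q.x i) (q.B i) ≤ 2 * c.d (q.x i) (q.B i); linarith)
  change _ ≤ min ε (1 / 2) * c.d (q.x i) (q.B i) at a
  rw [← div_le_iff₀ N0, ← abs_of_pos N0, ← abs_div] at a
  refine le_trans (le_of_eq ?_) a
  congr 1
  have r2 : 1 - dr (D i) ≠ 0 := (sub_pos.2 (fam.r01 i).2).ne'
  simp only [Pi.div_apply, hf, Vf]
  field_simp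
  ring

end Seq

end FOCaux

theorem p_FOC (hFIN : S_FIN) :
    S_FOC := by
  intro c hR
  obtain ⟨q⟩ := FOCaux.exists_seq c
  exact ⟨q.sys hR, fun H hH => ⟨q.hon_one hH.1 hH.2, q.hon_nice hH.1 hH.2,
    fun σ hσ ζ hζ => q.hon_rel hH.1 hH.2 hFIN hσ hζ⟩, q.flat hR⟩

end Pool.Agent.P.MP_874adf_gt.Gn
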