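import Pool.Agent.P.MP_874adf_gt.Gn.Defs

/-! Limits of focal data are focal data. -/

set_option autoImplicit false

namespace Pool.Agent.P.MP_874adf_gt.Gn.Ga

open Pool.Agent.P.MP_874adf_gt.Fs Set Filter Topology Metric MeasureTheory

variable {M : Set P} {d : P → P → ℝ}

lemma clo_memA (h : PM M d) {D : Dat} {a : ℝ} (c : Circ M d D a) : dA D ∈ M :=
  h.seg_mem c.mO c.mB c.l0.le c.l1.le

/-- every point has a point of the circle at the distance given by the levels -/
lemma clo_reach (h : PM M d) {O : P} {a : ℝ} (mO : O ∈ M) (ray : Ray M d O a) {z : P}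
    (hz : z ∈ M) : ∃ C ∈ M, d O C = a ∧ d z C ≤ |d O z - a| := by
  rcases eq_or_ne z O with e | e
  · obtain ⟨t, -, m, e1⟩ := ray (1, 0) (by simp)
    refine ⟨_, m, e1, ?_⟩
    rw [e, e1, h.self mO, zero_sub, abs_neg]
    exact le_abs_self a
  obtain ⟨t, t0, m, e1⟩ := ray (z - O) (sub_ne_zero.2 e)
  refine ⟨_, m, e1, ?_⟩
  have m0 : O + (0 : ℝ) • (z - O) ∈ M := by rwa [zero_smul, add_zero]
  have m1 : O + (1 : ℝ) • (z - O) ∈ M := by rwa [one_smul, add_sub_cancel]
  rcases le_total 1 t with t1 | t1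
  · have := h.line_add m0 m zero_le_one t1
    rw [zero_smul, add_zero, one_smul, add_sub_cancel, e1] at this
    linarith [neg_abs_le (d O z - a)]
  · have := h.line_add m0 m1 t0.le t1
    rw [zero_smul, add_zero, one_smul, add_sub_cancel, e1] at this
    rw [h.symm _ hz _ m]
    linarith [le_abs_self (d O z - a)]

/-- the focal relation holds approximately near the circle -/
lemma clo_est (h : PM M d) {D : Dat} {a : ℝ} (c : Circ M d D a) {z : P} (hz : z ∈ M) :
    |d (dA D) z - dr D * d (dB D) z| ≤ (1 + dr D) * |d (dO D) z - a| := by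
  obtain ⟨C, hC, e1, e2⟩ := clo_reach h c.mO c.ray hz
  have mA := clo_memA h c
  have e3 := c.on C hC e1
  have t1 := h.triangle _ mA _ hz _ hC
  have t2 := h.triangle _ mA _ hC _ hz
  have t3 := h.triangle _ c.mB _ hz _ hC
  have t4 := h.triangle _ c.mB _ hC _ hz
  rw [h.symm _ hC _ hz] at t2 t4
  have r0 := c.r0.le
  rw [abs_le]
  constructor <;> nlinarith [mul_le_mul_of_nonneg_left t3 r0, mul_le_mul_of_nonneg_left t4 r0,
    mul_le_mul_of_nonneg_left e2 r0]

lemma clo_contO : Continuous dO := continuous_fst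
lemma clo_contB : Continuous dB := continuous_fst.comp continuous_snd
lemma clo_contl : Continuous dl := continuous_fst.comp (continuous_snd.comp continuous_snd)
lemma clo_contr : Continuous dr := continuous_snd.comp (continuous_snd.comp continuous_snd)
lemma clo_contA : Continuous dA := clo_contO.add (clo_contl.smul (clo_contB.sub clo_contO))

/-- a limit of focal data -/
theorem circ_lim (h : PM M d) {ι : Type*} {l : Filter ι} [l.NeBot] {D : ι → Dat} {a : ι → ℝ}
    {D0 : Dat} {a0 : ℝ} (hD : Tendsto D l (𝓝 D0)) (ha : Tendsto a l (𝓝 a0))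
    (hc : ∀ᶠ i in l, Circ M d (D i) (a i)) (mO : dO D0 ∈ M) (mB : dB D0 ∈ M) (ap : 0 < a0)
    (l0 : 0 < dl D0) (l1 : dl D0 < 1) (r0 : 0 < dr D0) (r1 : dr D0 < 1)
    (ray : Ray M d (dO D0) a0) : Circ M d D0 a0 := by
  have mA : dA D0 ∈ M := h.seg_mem mO mB l0.le l1.le
  have tO := (clo_contO.tendsto _).comp hD
  have tB := (clo_contB.tendsto _).comp hD
  have tA := (clo_contA.tendsto _).comp hD
  have tr := (clo_contr.tendsto _).comp hD
  refine ⟨mO, mB, ap, l0, l1, r0, r1, ?_, ?_, fun C hC e => ?_, ray⟩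
  · exact tendsto_nhds_unique (h.tendsto mO mA tO tA)
      ((tr.mul ha).congr' (hc.mono fun i c => c.eA.symm))
  · exact tendsto_nhds_unique (h.tendsto mO mB tO tB)
      ((ha.div tr r0.ne').congr' (hc.mono fun i c => c.eB.symm))
  · have t1 := ((h.tendsto mA hC tA tendsto_const_nhds).sub
      (tr.mul (h.tendsto mB hC tB tendsto_const_nhds))).abs
    have t2 := (tr.const_add 1).mul ((h.tendsto mO hC tO tendsto_const_nhds).sub ha).abs
    have := le_of_tendsto_of_tendsto t1 t2 (hc.mono fun i c => clo_est h c hC)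
    rw [e, sub_self, abs_zero, mul_zero, abs_nonpos_iff] at this
    exact sub_eq_zero.1 this

/-- closedness of the set of circles that have focal data in a compact cell -/
theorem clo (k : Kx) {v : Set Dat} (hv : IsCompact v)
    (good : ∀ D ∈ v, dO D ∈ k.K ∧ dB D ∈ k.M ∧ 0 < dl D ∧ dl D < 1 ∧ 0 < dr D ∧ dr D < 1)
    {p : P × ℝ} (p0 : 0 < p.2) (p1 : p.2 < k.a1)
    (hp : p ∈ closure {q : P × ℝ | ∃ D ∈ v, dO D = q.1 ∧ Circ k.M k.d D q.2}) :
    ∃ D ∈ v, dO D = p.1 ∧ Circ k.M k.d D p.2 := by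
  obtain ⟨q, hq, tq⟩ := mem_closure_iff_seq_limit.1 hp
  choose D Dv De Dc using hq
  obtain ⟨D0, m0, φ, hφ, tD⟩ := hv.tendsto_subseq Dv
  have tq' := tq.comp hφ.tendsto_atTop
  have e : dO D0 = p.1 := tendsto_nhds_unique ((clo_contO.tendsto _).comp tD)
    (((continuous_fst.tendsto p).comp tq').congr fun n => (De (φ n)).symm)
  obtain ⟨g1, g2, g3, g4, g5, g6⟩ := good D0 m0
  obtain ⟨D1, e1, c1⟩ := k.ex _ g1 p.2 p0 p1
  exact ⟨D0, m0, e, circ_lim k.pm tD ((continuous_snd.tendsto p).comp tq')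
    (Eventually.of_forall fun n => Dc (φ n)) (k.ud.sub g1) g2 p0 g3 g4 g5 g6 (e1 ▸ c1.ray)⟩

end Pool.Agent.P.MP_874adf_gt.Gn.Ga
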