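import Pool.Agent.P.MP_874adf_gt.Gn.Defs

/-! Points of density in the plane. -/

set_option autoImplicit false

namespace Pool.Agent.P.MP_874adf_gt.Gn.Ga

open Pool.Agent.P.MP_874adf_gt.Fs Set Filter Topology Metric MeasureTheory

lemma den_vol (x : P) {r : ℝ} (hr : 0 ≤ r) :
    volume (closedBall x r) = ENNReal.ofReal (4 * r ^ 2) := by
  obtain ⟨x1, x2⟩ := x
  rw [← closedBall_prod_same, Measure.volume_eq_prod, Measure.prod_prod, Real.volume_closedBall,
    Real.volume_closedBall, ← ENNReal.ofReal_mul (by positivity)]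
  congr 1
  ring

/-- the complement of `E` is small in small balls around `x` -/
def Dn (E : Set P) (x : P) : Prop :=
  ∀ η > (0 : ℝ), ∀ᶠ r in 𝓝[>] (0 : ℝ), volume (closedBall x r \ E) ≤ ENNReal.ofReal (η * r ^ 2)

lemma dn_iff {E : Set P} {x : P} : Dn E x ↔ ∀ η > (0 : ℝ), ∃ r0 > (0 : ℝ), ∀ r, 0 < r → r ≤ r0 →
    volume (closedBall x r \ E) ≤ ENNReal.ofReal (η * r ^ 2) := by
  refine forall₂_congr fun η _ => ?_
  rw [(nhdsGT_basis_Ioc (0 : ℝ)).eventually_iff]
  exact ⟨fun ⟨r0, h0, h⟩ => ⟨r0, h0, fun r r1 r2 => h ⟨r1, r2⟩⟩,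
    fun ⟨r0, h0, h⟩ => ⟨r0, h0, fun r hr => h r hr.1 hr.2⟩⟩

theorem dn_ae {Q : Set P} (hQ : MeasurableSet Q) : ∀ᵐ x : P, x ∈ Q → Dn Q x := by
  filter_upwards [Besicovitch.ae_tendsto_measure_inter_div_of_measurableSet (volume : Measure P)
    hQ.compl] with x hx xQ η η0
  rw [indicator_of_notMem (by simpa using xQ)] at hx
  have p : (0 : ENNReal) < ENNReal.ofReal (η / 4) := ENNReal.ofReal_pos.2 (by positivity)
  filter_upwards [hx.eventually (gt_mem_nhds p), self_mem_nhdsWithin] with r h1 (r0 : 0 < r)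
  have e : closedBall x r \ Q = Qᶜ ∩ closedBall x r := by rw [sdiff_eq, inter_comm]
  rw [den_vol x r0.le, ENNReal.div_lt_iff (Or.inl (ENNReal.ofReal_pos.2 (by positivity)).ne')
    (Or.inl ENNReal.ofReal_ne_top), ← ENNReal.ofReal_mul (by positivity)] at h1
  rw [e]
  exact h1.le.trans (le_of_eq (by congr 1; ring))

theorem dn_null {Q : Set P} (hQ : MeasurableSet Q) : volume (Q \ {x ∈ Q | Dn Q x}) = 0 := by
  have := dn_ae hQ
  rw [ae_iff] at this
  refine measure_mono_null (fun x hx => ?_) this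
  exact fun h => hx.2 ⟨hx.1, h hx.1⟩

theorem dn_nonempty {Q : Set P} (hQ : MeasurableSet Q) (h0 : 0 < volume Q) : ∃ x ∈ Q, Dn Q x := by
  by_contra hn
  have := dn_null hQ
  rw [show {x ∈ Q | Dn Q x} = ∅ from eq_empty_of_forall_notMem fun x hx => hn ⟨x, hx⟩,
    sdiff_empty] at this
  exact h0.ne' this

namespace Dn

variable {E E' : Set P} {x : P}

theorem mono (h : Dn E x) (hs : E ⊆ E') : Dn E' x := fun η η0 =>
  (h η η0).mono fun _ hr => (measure_mono (sdiff_subset_sdiff_right hs)).trans hr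

theorem inter (h : Dn E x) (h' : Dn E' x) : Dn (E ∩ E') x := by
  intro η η0
  filter_upwards [h _ (half_pos η0), h' _ (half_pos η0)] with r h1 h2
  rw [sdiff_inter]
  refine (measure_union_le _ _).trans ((add_le_add h1 h2).trans ?_)
  rw [← ENNReal.ofReal_add (by positivity) (by positivity)]
  exact le_of_eq (by congr 1; ring)

theorem of_null {N : Set P} (hN : volume N = 0) (x : P) : Dn Nᶜ x := fun η _ =>
  Eventually.of_forall fun r => by
    rw [sdiff_compl, measure_mono_null inter_subset_right hN]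
    exact zero_le

theorem diff_null (h : Dn E x) {N : Set P} (hN : volume N = 0) : Dn (E \ N) x :=
  h.inter (of_null hN x)

theorem of_nhds {V : Set P} (hV : V ∈ 𝓝 x) : Dn V x := by
  obtain ⟨ρ, ρ0, hρ⟩ := Metric.nhds_basis_closedBall.mem_iff.1 hV
  intro η _
  filter_upwards [Ioc_mem_nhdsGT ρ0] with r hr
  rw [sdiff_eq_empty.2 ((closedBall_subset_closedBall hr.2).trans hρ), measure_empty]
  exact zero_le

theorem inter_nhds (h : Dn E x) {V : Set P} (hV : V ∈ 𝓝 x) : Dn (E ∩ V) x := h.inter (of_nhds hV)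

theorem inter_ball (h : Dn E x) {ρ : ℝ} (ρ0 : 0 < ρ) : Dn (E ∩ closedBall x ρ) x :=
  h.inter_nhds (closedBall_mem_nhds x ρ0)

theorem pos (h : Dn E x) : 0 < volume E := by
  rw [pos_iff_ne_zero]
  intro e
  obtain ⟨r, h1, (r0 : 0 < r)⟩ := ((h 1 one_pos).and self_mem_nhdsWithin).exists
  rw [measure_sdiff_null e, den_vol x r0.le,
    ENNReal.ofReal_le_ofReal_iff (by positivity)] at h1
  nlinarith [sq_pos_of_pos r0]

theorem pos_ball (h : Dn E x) {ρ : ℝ} (ρ0 : 0 < ρ) : 0 < volume (E ∩ closedBall x ρ) :=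
  (h.inter_ball ρ0).pos

/-- the points of density have density one as well -/
theorem den {Q : Set P} (hQ : MeasurableSet Q) (h : Dn Q x) : Dn {y ∈ Q | Dn Q y} x :=
  (h.diff_null (dn_null hQ)).mono fun y hy => by
    by_contra hn
    exact hy.2 ⟨hy.1, hn⟩

theorem biInter {ι : Type*} {s : Set ι} (hs : s.Finite) {f : ι → Set P}
    (h : ∀ i ∈ s, Dn (f i) x) : Dn (⋂ i ∈ s, f i) x := by
  induction s, hs using Set.Finite.induction_on with
  | empty => simpa using of_nhds univ_mem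
  | @insert i s _ _ ih =>
    rw [biInter_insert]
    exact (h i (mem_insert _ _)).inter (ih fun j hj => h j (mem_insert_of_mem _ hj))

end Dn

/-- a line is a null set -/
theorem den_line (A v : P) (hv : v ≠ 0) : volume {y : P | wed (y - A) v = 0} = 0 := by
  let S : AffineSubspace ℝ P := AffineSubspace.mk' A (Submodule.span ℝ {v})
  have hS : S ≠ ⊤ := by
    intro e
    have m : A + (-v.2, v.1) ∈ S := by rw [e]; exact AffineSubspace.mem_top _ _ _
    rw [AffineSubspace.mem_mk', vsub_eq_sub, add_sub_cancel_left,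
      Submodule.mem_span_singleton] at m
    obtain ⟨t, ht⟩ := m
    have h1 : t * v.1 = -v.2 := congrArg Prod.fst ht
    have h2 : t * v.2 = v.1 := congrArg Prod.snd ht
    have h3 : (1 + t ^ 2) * v.2 = 0 := by linear_combination h1 + t * h2
    have h4 : v.2 = 0 := (mul_eq_zero.1 h3).resolve_left (by positivity)
    exact hv (Prod.ext (by rw [← h2, h4, mul_zero]; rfl) h4)
  refine measure_mono_null (fun y hy => ?_) (Measure.addHaar_affineSubspace volume S hS)
  rw [SetLike.mem_coe, AffineSubspace.mem_mk', vsub_eq_sub, Submodule.mem_span_singleton]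
  have hy' : (y - A).1 * v.2 - (y - A).2 * v.1 = 0 := hy
  rcases eq_or_ne v.1 0 with e | e
  · have e2 : v.2 ≠ 0 := fun e2 => hv (Prod.ext e e2)
    refine ⟨(y - A).2 / v.2, Prod.ext ?_ ?_⟩
    · rw [e, mul_zero, sub_zero] at hy'
      rw [Prod.smul_fst, e, smul_zero, (mul_eq_zero.1 hy').resolve_right e2]
    · rw [Prod.smul_snd, smul_eq_mul, div_mul_cancel₀ _ e2]
  · refine ⟨(y - A).1 / v.1, Prod.ext ?_ ?_⟩
    · rw [Prod.smul_fst, smul_eq_mul, div_mul_cancel₀ _ e]
    · rw [Prod.smul_snd, smul_eq_mul]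
      field_simp
      linarith

end Pool.Agent.P.MP_874adf_gt.Gn.Ga
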