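import Pool.Agent.P.MP_874adf_gt.Gn.Defs

/-! Uniform facts on the compact set of the game. -/

set_option autoImplicit false

namespace Pool.Agent.P.MP_874adf_gt.Gn.Ga

open Pool.Agent.P.MP_874adf_gt.Fs Set Filter Topology Metric MeasureTheory

/-- two sided bounds for the norms -/
theorem u0_bounds (k : Kx) : ∃ c > (0 : ℝ), ∃ C > (0 : ℝ), ∀ x ∈ k.K, ∀ v : P,
    c * ‖v‖ ≤ k.F x v ∧ k.F x v ≤ C * ‖v‖ := by
  have cp : IsCompact (k.K ×ˢ sphere (0 : P) 1) := k.ud.cpt.prod (isCompact_sphere 0 1)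
  have ct : ContinuousOn (fun p : P × P => k.F p.1 p.2) (k.K ×ˢ sphere (0 : P) 1) :=
    k.ud.cont.mono (prod_mono subset_rfl (subset_univ _))
  obtain ⟨c, c0, hc⟩ := cp.exists_forall_le' ct (a := 0) fun p hp =>
    (k.isN _ hp.1).pos _ fun e => by simpa [e] using hp.2
  obtain ⟨C, hC⟩ := cp.bddAbove_image ct
  refine ⟨c, c0, max C 1, lt_max_of_lt_right one_pos, fun x hx v => ?_⟩
  have n := k.isN x hx
  rcases eq_or_ne v 0 with rfl | hv
  · simp [n.zero]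
  have n1 : 0 < ‖v‖ := norm_pos_iff.2 hv
  have m : (x, ‖v‖⁻¹ • v) ∈ k.K ×ˢ sphere (0 : P) 1 := ⟨hx, by simp [norm_smul, n1.ne']⟩
  have h1 : c ≤ k.F x (‖v‖⁻¹ • v) := hc _ m
  have h2 : k.F x (‖v‖⁻¹ • v) ≤ C := hC (mem_image_of_mem _ m)
  rw [n.smul_nonneg (inv_pos.2 n1).le] at h1 h2
  rw [le_inv_mul_iff₀ n1] at h1
  rw [inv_mul_le_iff₀ n1] at h2
  exact ⟨by linarith, h2.trans (by rw [mul_comm]; gcongr; exact le_max_left _ _)⟩

/-- uniform closeness to the norms, and uniform continuity of the field -/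
theorem u0_near (k : Kx) {ε : ℝ} (ε0 : 0 < ε) : ∃ δ > (0 : ℝ),
    (∀ x ∈ k.K, Near k.d (k.F x) x ε δ) ∧
      ∀ x ∈ k.K, ∀ x' ∈ k.K, dist x x' ≤ δ → ∀ v : P, |k.F x v - k.F x' v| ≤ ε * ‖v‖ := by
  obtain ⟨δ, δ0, hn⟩ := k.ud.unif (ε / 3) (by positivity)
  refine ⟨δ / 2, half_pos δ0, fun x hx s s0 s1 y hy z hz => ?_, fun x hx x' hx' hd v => ?_⟩
  · exact (hn x hx s s0 (by linarith) y hy z hz).trans (by nlinarith)
  rcases eq_or_ne v 0 with rfl | hv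
  · simp [(k.isN x hx).zero, (k.isN x' hx').zero]
  have n1 : 0 < ‖v‖ := norm_pos_iff.2 hv
  have q0 : 0 < δ / 2 / ‖v‖ := by positivity
  have m1 : x + (δ / 2 / ‖v‖) • v ∈ closedBall x (δ / 2) := by
    rw [mem_closedBall, dist_eq_norm, add_sub_cancel_left, norm_smul, Real.norm_of_nonneg q0.le,
      div_mul_cancel₀ _ n1.ne']
  have h1 := hn x hx (δ / 2) (half_pos δ0) (half_le_self δ0.le) x
    (mem_closedBall_self (half_pos δ0).le) _ m1
  have h2 := hn x' hx' δ δ0 le_rfl x (mem_closedBall.2 (by linarith)) (x + (δ / 2 / ‖v‖) • v)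
    (mem_closedBall.2 (by
      linarith [dist_triangle (x + (δ / 2 / ‖v‖) • v) x x', mem_closedBall.1 m1]))
  rw [add_sub_cancel_left, (k.isN x hx).smul_nonneg q0.le] at h1
  rw [add_sub_cancel_left, (k.isN x' hx').smul_nonneg q0.le] at h2
  have h3 : δ / 2 / ‖v‖ * |k.F x v - k.F x' v| ≤ δ / 2 / ‖v‖ * (ε * ‖v‖) := by
    have e : δ / 2 / ‖v‖ * (ε * ‖v‖) = ε / 3 * (δ / 2) + ε / 3 * δ := by field_simp; ring
    rw [e, ← abs_of_pos q0, ← abs_mul, abs_le]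
    rw [abs_le] at h1 h2
    constructor <;> nlinarith [h1.1, h1.2, h2.1, h2.2]
  exact le_of_mul_le_mul_left h3 q0

/-- a closed neighbourhood of the compact set lies in the plane -/
theorem u0_nhd (k : Kx) : ∃ δ > (0 : ℝ), ∀ x ∈ k.K, closedBall x δ ⊆ k.M := by
  obtain ⟨δ, δ0, h⟩ := k.ud.cpt.exists_cthickening_subset_open k.pm.isOpen k.ud.sub
  exact ⟨δ, δ0, fun x hx => (closedBall_subset_cthickening hx δ).trans h⟩

/-- small distance gives small Euclidean distance, uniformly -/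
theorem u0_small (k : Kx) {δ : ℝ} (δ0 : 0 < δ) : ∃ η > (0 : ℝ), ∀ O ∈ k.K, ∀ y ∈ k.M,
    k.d O y < η → ‖y - O‖ < δ := by
  obtain ⟨δ1, δ10, h1⟩ := u0_nhd k
  have q0 : 0 < min δ δ1 := lt_min δ0 δ10
  set q := min δ δ1 with hq
  have cp : IsCompact (k.K ×ˢ sphere (0 : P) q) := k.ud.cpt.prod (isCompact_sphere 0 q)
  have mem : ∀ p ∈ k.K ×ˢ sphere (0 : P) q, p.1 + p.2 ∈ k.M := fun p hp => h1 _ hp.1 (by
    rw [mem_closedBall, dist_eq_norm, add_sub_cancel_left, mem_sphere_zero_iff_norm.1 hp.2]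
    exact min_le_right _ _)
  have ct : ContinuousOn (fun p : P × P => k.d p.1 (p.1 + p.2)) (k.K ×ˢ sphere (0 : P) q) :=
    k.pm.cont.comp (f := fun p : P × P => (p.1, p.1 + p.2)) (by fun_prop)
      fun p hp => ⟨k.ud.sub hp.1, mem p hp⟩
  obtain ⟨η, η0, hη⟩ := cp.exists_forall_le' ct (a := 0) fun p hp =>
    k.pm.pos (k.ud.sub hp.1) (mem p hp) fun e => by
      have e2 : p.2 = 0 := left_eq_add.1 e
      have := mem_sphere_zero_iff_norm.1 hp.2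
      rw [e2, norm_zero] at this
      exact q0.ne this
  refine ⟨η, η0, fun O hO y hy hd => ?_⟩
  by_contra hn
  have n1 : q ≤ ‖y - O‖ := (min_le_left _ _).trans (not_lt.1 hn)
  have n0 : 0 < ‖y - O‖ := q0.trans_le n1
  have t0 : 0 ≤ q / ‖y - O‖ := by positivity
  have t1 : q / ‖y - O‖ ≤ 1 := (div_le_one n0).2 n1
  have h2 : η ≤ k.d O (O + (q / ‖y - O‖) • (y - O)) := hη (O, (q / ‖y - O‖) • (y - O)) ⟨hO, by
    rw [mem_sphere_zero_iff_norm, norm_smul, Real.norm_of_nonneg t0, div_mul_cancel₀ _ n0.ne']⟩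
  have h3 := k.pm.add (k.ud.sub hO) hy t0 t1
  have h4 := k.pm.nonneg (k.pm.seg_mem (k.ud.sub hO) hy t0 t1) hy
  linarith

/-- the distance from a point of the compact set, compared with the norm there -/
theorem u0_cmp (k : Kx) {ε : ℝ} (ε0 : 0 < ε) : ∃ δ > (0 : ℝ), ∀ O ∈ k.K, ∀ y : P, ‖y - O‖ ≤ δ →
    y ∈ k.M ∧ |k.d O y - k.F O (y - O)| ≤ ε * ‖y - O‖ := by
  obtain ⟨δ, δ0, hn⟩ := k.ud.unif ε ε0
  obtain ⟨δ1, δ10, h1⟩ := u0_nhd k
  refine ⟨min δ δ1, lt_min δ0 δ10, fun O hO y hy => ⟨h1 O hO ?_, ?_⟩⟩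
  · rw [mem_closedBall, dist_eq_norm]
    exact hy.trans (min_le_right _ _)
  rcases eq_or_ne y O with rfl | e
  · simp [k.pm.self (k.ud.sub hO), (k.isN _ hO).zero]
  have n0 : 0 < ‖y - O‖ := norm_pos_iff.2 (sub_ne_zero.2 e)
  exact hn O hO _ n0 (hy.trans (min_le_left _ _)) O (mem_closedBall_self n0.le) y
    (by rw [mem_closedBall, dist_eq_norm])

/-- the distance from a point of the compact set is comparable with the Euclidean distance -/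
theorem u0_lip (k : Kx) : ∃ L > (0 : ℝ), ∃ δ > (0 : ℝ), ∀ O ∈ k.K,
    (∀ y ∈ k.M, k.d O y < δ → ‖y - O‖ ≤ L * k.d O y) ∧
      ∀ y : P, ‖y - O‖ ≤ δ → y ∈ k.M ∧ ‖y - O‖ ≤ L * k.d O y ∧ k.d O y ≤ L * ‖y - O‖ := by
  obtain ⟨c, c0, C, C0, hb⟩ := u0_bounds k
  obtain ⟨δ, δ0, h1⟩ := u0_cmp k (half_pos c0)
  obtain ⟨η, η0, h2⟩ := u0_small k δ0
  have L0 : 0 < 2 / c + (C + c) := by positivity
  have key : ∀ O ∈ k.K, ∀ y : P, ‖y - O‖ ≤ δ → y ∈ k.M ∧ ‖y - O‖ ≤ (2 / c + (C + c)) * k.d O y ∧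
      k.d O y ≤ (2 / c + (C + c)) * ‖y - O‖ := by
    intro O hO y hy
    obtain ⟨m, e⟩ := h1 O hO y hy
    obtain ⟨b1, b2⟩ := hb O hO (y - O)
    rw [abs_le] at e
    have n0 := norm_nonneg (y - O)
    have d0 := k.pm.nonneg (k.ud.sub hO) m
    have c2 : 0 < 2 / c := by positivity
    have h3 : ‖y - O‖ ≤ 2 / c * k.d O y := by
      rw [div_mul_eq_mul_div, le_div_iff₀ c0]
      linarith [e.1]
    refine ⟨m, ?_, ?_⟩
    · nlinarith [mul_nonneg (add_pos C0 c0).le d0]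
    · nlinarith [mul_nonneg c2.le n0, mul_nonneg c0.le n0, e.2]
  exact ⟨_, L0, min δ η, lt_min δ0 η0, fun O hO =>
    ⟨fun y hy hd => (key O hO y (h2 O hO y hy (hd.trans_le (min_le_right _ _))).le).2.1,
      fun y hy => key O hO y (hy.trans (min_le_left _ _))⟩⟩

end Pool.Agent.P.MP_874adf_gt.Gn.Ga
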