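import Pool.Agent.P.MP_874adf_gt.Gn.DefsGa
import Pool.Agent.P.MP_874adf_gt.Gn.GaU0
import Pool.Agent.P.MP_874adf_gt.Gn.GaClo
import Pool.Agent.P.MP_874adf_gt.Gn.GaDen

/-! Basic facts on pieces, cells, frames and states. -/

set_option autoImplicit false

namespace Pool.Agent.P.MP_874adf_gt.Gn.Ga

open Pool.Agent.P.MP_874adf_gt.Fs Set Filter Topology Metric MeasureTheory

/-! ### Density -/

theorem den_null {Q : Set P} (hQ : MeasurableSet Q) : volume (Q \ Den Q) = 0 := dn_null hQ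

theorem den_sub (Q : Set P) : Den Q ⊆ Q := fun _ h => h.1

theorem denW_iff {E : Set P} {x : P} : DenW E x ↔ ∀ η > (0 : ℝ), ∃ r0 > (0 : ℝ), ∀ r, 0 < r →
    r ≤ r0 → volume (closedBall x r \ E) ≤ ENNReal.ofReal (η * r ^ 2) := dn_iff

namespace DenW

variable {E E' : Set P} {x : P}

theorem mono (h : DenW E x) (hs : E ⊆ E') : DenW E' x := Dn.mono h hs

theorem inter (h : DenW E x) (h' : DenW E' x) : DenW (E ∩ E') x := Dn.inter h h'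

theorem diff_null (h : DenW E x) {N : Set P} (hN : volume N = 0) : DenW (E \ N) x :=
  Dn.diff_null h hN

theorem of_nhds {V : Set P} (hV : V ∈ 𝓝 x) : DenW V x := Dn.of_nhds hV

theorem inter_nhds (h : DenW E x) {V : Set P} (hV : V ∈ 𝓝 x) : DenW (E ∩ V) x :=
  Dn.inter_nhds h hV

theorem inter_closedBall (h : DenW E x) {ρ : ℝ} (ρ0 : 0 < ρ) : DenW (E ∩ closedBall x ρ) x :=
  Dn.inter_ball h ρ0

theorem inter_ball (h : DenW E x) {ρ : ℝ} (ρ0 : 0 < ρ) : DenW (E ∩ ball x ρ) x :=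
  h.inter_nhds (ball_mem_nhds x ρ0)

theorem pos (h : DenW E x) : 0 < volume E := Dn.pos h

theorem nonempty (h : DenW E x) : E.Nonempty := nonempty_of_measure_ne_zero h.pos.ne'

theorem biInter {ι : Type*} {s : Set ι} (hs : s.Finite) {f : ι → Set P}
    (h : ∀ i ∈ s, DenW (f i) x) : DenW (⋂ i ∈ s, f i) x := Dn.biInter hs h

theorem den_of_measurable {Q : Set P} (hQ : MeasurableSet Q) (h : DenW Q x) : DenW (Den Q) x :=
  Dn.den hQ h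

end DenW

/-- a measurable kernel -/
theorem exists_kernel (E : Set P) : ∃ E1 ⊆ E, MeasurableSet E1 ∧
    ∀ B, MeasurableSet B → volume (B \ E1) = volume (B \ E) := by
  refine ⟨(toMeasurable volume Eᶜ)ᶜ, compl_subset_comm.1 (subset_toMeasurable _ _),
    (measurableSet_toMeasurable _ _).compl, fun B hB => ?_⟩
  rw [sdiff_compl, inter_comm, Measure.measure_toMeasurable_inter_of_sFinite hB, inter_comm,
    sdiff_eq]

theorem DenW.exists_measurable {E : Set P} {x : P} (h : DenW E x) :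
    ∃ E1 ⊆ E, MeasurableSet E1 ∧ DenW E1 x := by
  obtain ⟨E1, s, m, e⟩ := exists_kernel E
  exact ⟨E1, s, m, fun η η0 => (h η η0).mono fun r hr => by
    rwa [e _ measurableSet_closedBall]⟩

theorem Den.mono {Q Q' : Set P} (h : Q ⊆ Q') : Den Q ⊆ Den Q' := fun _ hx =>
  ⟨h hx.1, hx.2.mono h⟩

theorem Den.inter {Q Q' : Set P} {x : P} (h : x ∈ Den Q) (h' : x ∈ Den Q') : x ∈ Den (Q ∩ Q') :=
  ⟨⟨h.1, h'.1⟩, h.2.inter h'.2⟩

theorem Den.inter_nhds {Q V : Set P} {x : P} (h : x ∈ Den Q) (hV : V ∈ 𝓝 x) : x ∈ Den (Q ∩ V) :=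
  ⟨⟨h.1, mem_of_mem_nhds hV⟩, h.2.inter_nhds hV⟩

theorem line_null (x : P) {v : P} (hv : v ≠ 0) : volume {z : P | wed v (z - x) = 0} = 0 := by
  refine measure_mono_null (fun z hz => ?_) (den_line x v hv)
  have hz' : wed v (z - x) = 0 := hz
  show wed (z - x) v = 0
  simp only [wed] at hz' ⊢
  linarith

/-! ### Pieces -/

variable {k : Kx}

theorem DenW.den {Q : Set P} {x : P} (hQ : Pc k Q) (hx : x ∈ Den Q) : DenW (Den Q) x :=
  hx.2.den_of_measurable hQ.cpt.measurableSet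

namespace Pc

variable {Q : Set P}

theorem meas (h : Pc k Q) : MeasurableSet Q := h.cpt.measurableSet

theorem nonempty (h : Pc k Q) : Q.Nonempty := nonempty_of_measure_ne_zero h.pos.ne'

theorem subM (h : Pc k Q) : Q ⊆ k.M := h.sub.trans k.ud.sub

theorem den_subK (h : Pc k Q) : Den Q ⊆ k.K := (den_sub Q).trans h.sub

theorem den_nonempty (h : Pc k Q) : (Den Q).Nonempty := dn_nonempty h.meas h.pos

theorem of_pos (hc : IsClosed Q) (hs : Q ⊆ k.K) (h0 : 0 < volume Q) : Pc k Q :=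
  ⟨k.ud.cpt.of_isClosed_subset hc hs, hs, h0⟩

theorem inter_closed (h : Pc k Q) {x : P} (hx : x ∈ Den Q) {V : Set P} (hc : IsClosed V)
    (hV : V ∈ 𝓝 x) : Pc k (Q ∩ V) ∧ x ∈ Den (Q ∩ V) :=
  ⟨⟨h.cpt.inter_right hc, inter_subset_left.trans h.sub, (hx.2.inter_nhds hV).pos⟩,
    Den.inter_nhds hx hV⟩

theorem inter_closedBall (h : Pc k Q) {x : P} (hx : x ∈ Den Q) {r : ℝ} (r0 : 0 < r) :
    Pc k (Q ∩ closedBall x r) ∧ x ∈ Den (Q ∩ closedBall x r) :=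
  h.inter_closed hx isClosed_closedBall (closedBall_mem_nhds x r0)

theorem inter {Q' : Set P} (h : Pc k Q) (h' : Pc k Q') {x : P} (hx : x ∈ Den Q)
    (hx' : x ∈ Den Q') : Pc k (Q ∩ Q') :=
  ⟨h.cpt.inter h'.cpt, inter_subset_left.trans h.sub, (hx.2.inter hx'.2).pos⟩

theorem exists_sub {A : Set P} (hA : MeasurableSet A) (hs : A ⊆ k.K) (h0 : 0 < volume A) :
    ∃ Q ⊆ A, Pc k Q := by
  obtain ⟨Q, s, c, p⟩ := hA.exists_lt_isCompact h0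
  exact ⟨Q, s, c, s.trans hs, p⟩

/-- a piece inside a neighbourhood of a point of density -/
theorem exists_nhds (h : Pc k Q) {x : P} (hx : x ∈ Den Q) {V : Set P} (hV : V ∈ 𝓝 x) :
    ∃ Q' ⊆ Q ∩ V, Pc k Q' ∧ x ∈ Den Q' := by
  obtain ⟨r, r0, hr⟩ := Metric.nhds_basis_closedBall.mem_iff.1 hV
  exact ⟨_, inter_subset_inter_right Q hr, h.inter_closedBall hx r0⟩

end Pc

theorem pcK (k : Kx) (h0 : 0 < volume k.K) : Pc k k.K := ⟨k.ud.cpt, subset_rfl, h0⟩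

/-! ### Cells -/

theorem contO : Continuous dO := clo_contO
theorem contA : Continuous dA := clo_contA
theorem contB : Continuous dB := clo_contB
theorem contl : Continuous dl := clo_contl
theorem contr : Continuous dr := clo_contr

theorem rad_eq {D : Dat} {a : ℝ} (c : Circ k.M k.d D a) : rad k D = a := by
  rw [rad, c.eB, mul_div_cancel₀ _ c.r0.ne']

namespace Good

variable {v : Set Dat}

theorem sub (h : Good k v) {w : Set Dat} (hs : w ⊆ v) (hc : IsCompact w) : Good k w :=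
  ⟨hc, fun D m => h.mO D (hs m), fun D m => h.mB D (hs m), fun D m => h.ne D (hs m),
    fun D m => h.l0 D (hs m), fun D m => h.l1 D (hs m), fun D m => h.r0 D (hs m),
    fun D m => h.r1 D (hs m)⟩

theorem inter (h : Good k v) {c : Set Dat} (hc : IsClosed c) : Good k (v ∩ c) :=
  h.sub inter_subset_left (h.cpt.inter_right hc)

theorem mOM (h : Good k v) {D : Dat} (m : D ∈ v) : dO D ∈ k.M := k.ud.sub (h.mO D m)

theorem mA (h : Good k v) {D : Dat} (m : D ∈ v) : dA D ∈ k.M :=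
  k.pm.seg_mem (h.mOM m) (h.mB D m) (h.l0 D m).le (h.l1 D m).le

theorem rad_pos (h : Good k v) {D : Dat} (m : D ∈ v) : 0 < rad k D :=
  mul_pos (h.r0 D m) (k.pm.pos (h.mOM m) (h.mB D m) (h.ne D m))

theorem cont_rad (h : Good k v) : ContinuousOn (rad k) v :=
  contr.continuousOn.mul (k.pm.cont.comp (f := fun D : Dat => (dO D, dB D))
    (contO.prodMk contB).continuousOn fun D m => ⟨h.mOM m, h.mB D m⟩)

theorem cont_piD (h : Good k v) : ContinuousOn piD v :=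
  (continuous_const.sub contl).continuousOn.div
    ((continuous_const.sub contl).sub contr).continuousOn fun D m => by
      have := h.l1 D m
      have := h.r1 D m
      linarith

theorem cont_pat (h : Good k v) : ContinuousOn (pat k) v :=
  ((h.cont_rad.inv₀ fun _ m => (h.rad_pos m).ne').smul
    (contB.sub contO).continuousOn).prodMk h.cont_piD

/-- the part of a good cell with pattern in a closed set -/
theorem pat_closed (h : Good k v) {c : Set (P × ℝ)} (hc : IsClosed c) :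
    IsClosed (v ∩ pat k ⁻¹' c) := h.cont_pat.preimage_isClosed_of_isClosed h.cpt.isClosed hc

/-- the radii are bounded below on a good cell -/
theorem rad_lower (h : Good k v) : ∃ c > (0 : ℝ), ∀ D ∈ v, c ≤ rad k D :=
  h.cpt.exists_forall_le' h.cont_rad fun _ m => h.rad_pos m

/-- valid circles form a closed set -/
theorem clo (h : Good k v) {p : P × ℝ} (p0 : 0 < p.2) (p1 : p.2 < k.a1)
    (hp : p ∈ closure {q | Vd k v q}) : Vd k v p :=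
  Ga.clo k h.cpt (fun D m => ⟨h.mO D m, h.mB D m, h.l0 D m, h.l1 D m, h.r0 D m, h.r1 D m⟩) p0 p1 hp

end Good

theorem Vd.mono {v w : Set Dat} {p : P × ℝ} (h : Vd k v p) (hs : v ⊆ w) : Vd k w p :=
  let ⟨D, m, e⟩ := h; ⟨D, hs m, e⟩

/-! ### Frames and states -/

theorem Rich.mono {Q0 Q1 : Set P} {QQ QQ1 : Set (Set P)} (h0 : Q1 ⊆ Q0)
    (h : ∀ Q ∈ QQ, ∃ Q' ∈ QQ1, Q' ⊆ Q) : Rich k Q1 QQ1 ⊆ Rich k Q0 QQ := fun _ hp =>
  ⟨Den.mono h0 hp.1, fun Q hQ =>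
    let ⟨Q', m, s⟩ := h Q hQ
    let ⟨y, hy, e⟩ := hp.2 Q' m
    ⟨y, Den.mono s hy, e⟩⟩

theorem Rich.mono_right {Q0 : Set P} {QQ QQ1 : Set (Set P)} (h : QQ ⊆ QQ1) :
    Rich k Q0 QQ1 ⊆ Rich k Q0 QQ := Rich.mono subset_rfl fun Q hQ => ⟨Q, h hQ, subset_rfl⟩

theorem Rich.insert {Q0 Y : Set P} {QQ : Set (Set P)} {p : P × ℝ} (h : p ∈ Rich k Q0 QQ) {y : P}
    (hy : y ∈ Den Y) (e : k.d p.1 y = p.2) : p ∈ Rich k Q0 (insert Y QQ) :=
  ⟨h.1, fun Q hQ => by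
    rcases hQ with rfl | hQ
    · exact ⟨y, hy, e⟩
    · exact h.2 Q hQ⟩

theorem Rich.union {Q0 : Set P} {QQ QQ1 : Set (Set P)} {p : P × ℝ} (h : p ∈ Rich k Q0 QQ)
    (h1 : ∀ Q ∈ QQ1, ∃ y ∈ Den Q, k.d p.1 y = p.2) : p ∈ Rich k Q0 (QQ ∪ QQ1) :=
  ⟨h.1, fun Q hQ => hQ.elim (h.2 Q) (h1 Q)⟩

variable {Q Q0 Q1 : Set P} {QQ QQ1 : Set (Set P)} {U U1 : Set (P × ℝ)} {v w : Set Dat}

theorem Fr.change (h : Fr k Q0 QQ U) (p1 : Pc k Q1) (fin : QQ1.Finite) (pc : ∀ Q ∈ QQ1, Pc k Q)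
    (opn : IsOpen U1) (hU : U1 ⊆ U) (ne : (Rich k Q1 QQ1 ∩ U1).Nonempty) : Fr k Q1 QQ1 U1 :=
  ⟨p1, fin, pc, opn, fun p m => h.rng p (hU m), ne⟩

theorem Fr.shrink (h : Fr k Q0 QQ U) (opn : IsOpen U1) (hU : U1 ⊆ U)
    (ne : (Rich k Q0 QQ ∩ U1).Nonempty) : Fr k Q0 QQ U1 :=
  h.change h.p0 h.fin h.pc opn hU ne

theorem Fr.memK (h : Fr k Q0 QQ U) {p : P × ℝ} (hp : p ∈ Rich k Q0 QQ) : p.1 ∈ k.K :=
  h.p0.den_subK hp.1

namespace St

/-- change of the frame -/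
theorem mono (h : St k Q0 QQ U v) (f : Fr k Q1 QQ1 U1) (h0 : Q1 ⊆ Q0)
    (hQ : ∀ Q ∈ QQ, ∃ Q' ∈ QQ1, Q' ⊆ Q) (hU : U1 ⊆ U) : St k Q1 QQ1 U1 v :=
  ⟨f, h.good, fun p hp => h.val p ⟨Rich.mono h0 hQ hp.1, hU hp.2⟩⟩

theorem change (h : St k Q0 QQ U v) (p1 : Pc k Q1) (h0 : Q1 ⊆ Q0) (fin : QQ1.Finite)
    (pc : ∀ Q ∈ QQ1, Pc k Q) (hQ : ∀ Q ∈ QQ, ∃ Q' ∈ QQ1, Q' ⊆ Q) (opn : IsOpen U1) (hU : U1 ⊆ U)
    (ne : (Rich k Q1 QQ1 ∩ U1).Nonempty) : St k Q1 QQ1 U1 v :=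
  h.mono (h.fr.change p1 fin pc opn hU ne) h0 hQ hU

theorem shrink (h : St k Q0 QQ U v) (opn : IsOpen U1) (hU : U1 ⊆ U)
    (ne : (Rich k Q0 QQ ∩ U1).Nonempty) : St k Q0 QQ U1 v :=
  h.mono (h.fr.shrink opn hU ne) subset_rfl (fun Q m => ⟨Q, m, subset_rfl⟩) hU

/-- more pieces -/
theorem more (h : St k Q0 QQ U v) (fin : QQ1.Finite) (pc : ∀ Q ∈ QQ1, Pc k Q) (hs : QQ ⊆ QQ1)
    (ne : (Rich k Q0 QQ1 ∩ U).Nonempty) : St k Q0 QQ1 U v :=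
  h.change h.fr.p0 subset_rfl fin pc (fun Q m => ⟨Q, hs m, subset_rfl⟩) h.fr.opn subset_rfl ne

/-- a closed cut of the cell -/
theorem sub (h : St k Q0 QQ U v) {c : Set Dat} (hc : IsClosed c)
    (hv : ∀ p ∈ Rich k Q0 QQ ∩ U, ∃ D ∈ v ∩ c, dO D = p.1 ∧ Circ k.M k.d D p.2) :
    St k Q0 QQ U (v ∩ c) := ⟨h.fr, h.good.inter hc, hv⟩

/-- a closed cut that contains all valid data -/
theorem sub' (h : St k Q0 QQ U v) {c : Set Dat} (hc : IsClosed c)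
    (hv : ∀ p ∈ Rich k Q0 QQ ∩ U, ∀ D ∈ v, dO D = p.1 → Circ k.M k.d D p.2 → D ∈ c) :
    St k Q0 QQ U (v ∩ c) :=
  h.sub hc fun p hp => let ⟨D, m, e, c⟩ := h.val p hp; ⟨D, ⟨m, hv p hp D m e c⟩, e, c⟩

theorem larger (h : St k Q0 QQ U v) (g : Good k w) (hs : v ⊆ w) : St k Q0 QQ U w :=
  ⟨h.fr, g, fun p hp => (h.val p hp).mono hs⟩

theorem nonempty (h : St k Q0 QQ U v) : v.Nonempty :=
  let ⟨p, hp⟩ := h.fr.ne
  let ⟨D, m, _⟩ := h.val p hp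
  ⟨D, m⟩

/-- the cell is valid on the closure as well -/
theorem val_closure (h : St k Q0 QQ U v) {p : P × ℝ} (hp : p ∈ closure (Rich k Q0 QQ) ∩ U) :
    Vd k v p := by
  refine h.good.clo (h.fr.rng p hp.2).1 (h.fr.rng p hp.2).2 (closure_mono h.val ?_)
  exact h.fr.opn.closure_inter hp

end St

theorem SCs.mono (h : SCs k Q0 Q) {Q' : Set P} (h0 : Q1 ⊆ Q0) (hs : Q' ⊆ Q) : SCs k Q1 Q' :=
  fun O m y m' => h O (h0 m) y (hs m')

namespace HVd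

theorem rich (h : HVd k v Q Q0 QQ U) {y : P} (hy : y ∈ Q) :
    ∃ O, (O, k.d O y) ∈ Rich k Q0 QQ ∩ U :=
  let ⟨_, _, s, c⟩ := h.cov; c y (s hy)

theorem add_pt (h : HVd k v Q Q0 QQ U) (s : Q1 ⊆ Q) {y : P} (hy : y ∈ Den Q1) :
    ∃ O, (O, k.d O y) ∈ Rich k Q0 (insert Q1 QQ) ∩ U :=
  let ⟨O, hO⟩ := h.rich (s hy.1); ⟨O, Rich.insert hO.1 hy rfl, hO.2⟩

theorem add (h : HVd k v Q Q0 QQ U) (p1 : Pc k Q1) (s : Q1 ⊆ Q) : St k Q0 (insert Q1 QQ) U v := by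
  obtain ⟨y, hy⟩ := p1.den_nonempty
  obtain ⟨O, hO⟩ := h.add_pt s hy
  refine h.st.more (h.st.fr.fin.insert _) (fun Y m => ?_) (subset_insert _ _) ⟨_, hO⟩
  rcases m with rfl | m
  · exact p1
  · exact h.st.fr.pc Y m

theorem mono (h : HVd k v Q Q0 QQ U) (p1 : Pc k Q1) (s : Q1 ⊆ Q) : HVd k v Q1 Q0 QQ U :=
  ⟨p1, h.st, let ⟨W, o, s', c⟩ := h.cov; ⟨W, o, s.trans s', c⟩, h.sc.mono subset_rfl s⟩

theorem larger (h : HVd k v Q Q0 QQ U) (g : Good k w) (hs : v ⊆ w) : HVd k w Q Q0 QQ U :=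
  ⟨h.pc, h.st.larger g hs, h.cov, h.sc⟩

theorem hv (h : HVd k v Q Q0 QQ U) : HV k v Q := ⟨_, _, _, h⟩

end HVd

namespace HV

theorem mono (h : HV k v Q) (p1 : Pc k Q1) (s : Q1 ⊆ Q) : HV k v Q1 :=
  let ⟨_, _, _, h⟩ := h; (h.mono p1 s).hv

theorem larger (h : HV k v Q) (g : Good k w) (hs : v ⊆ w) : HV k w Q :=
  let ⟨_, _, _, h⟩ := h; (h.larger g hs).hv

theorem good (h : HV k v Q) : Good k v := let ⟨_, _, _, h⟩ := h; h.st.good

theorem pc (h : HV k v Q) : Pc k Q := let ⟨_, _, _, h⟩ := h; h.pc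

theorem nonempty (h : HV k v Q) : v.Nonempty := let ⟨_, _, _, h⟩ := h; h.st.nonempty

/-- validity on an open neighbourhood of the piece -/
theorem val_open (h : HV k v Q) : ∃ W, IsOpen W ∧ Q ⊆ W ∧
    ∀ y ∈ W, ∃ D ∈ v, Circ k.M k.d D (k.d (dO D) y) := by
  obtain ⟨Q0, QQ, U, h⟩ := h
  obtain ⟨W, o, s, c⟩ := h.cov
  refine ⟨W, o, s, fun y hy => ?_⟩
  obtain ⟨O, hO⟩ := c y hy
  obtain ⟨D, m, e, c⟩ := h.st.val _ hO
  exact ⟨D, m, by rw [e]; exact c⟩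

theorem val (h : HV k v Q) {y : P} (hy : y ∈ Q) : ∃ D ∈ v, Circ k.M k.d D (k.d (dO D) y) :=
  let ⟨_, _, s, c⟩ := h.val_open; c y (s hy)

theorem val_at (h : HV k v Q) {C : P} (hC : C ∈ Q) : Val k.M k.d C v := by
  obtain ⟨W, o, s, c⟩ := h.val_open
  obtain ⟨ρ, ρ0, hρ⟩ := Metric.isOpen_iff.1 o C (s hC)
  exact ⟨ρ, ρ0, fun y hy => c y (hρ hy)⟩

end HV

theorem Aw.mono {f : Dat → P} (h : Aw f v Q) (hw : w ⊆ v) (s : Q1 ⊆ Q) : Aw f w Q1 :=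
  fun D m m' => h D (hw m) (s m')

theorem Sep2.mono {f : Dat → P} {w1 w2 u1 u2 : Set Dat} (h : Sep2 f w1 w2 Q) (h1 : u1 ⊆ w1)
    (h2 : u2 ⊆ w2) (s : Q1 ⊆ Q) : Sep2 f u1 u2 Q1 :=
  fun y m D m1 D' m2 => h y (s m) D (h1 m1) D' (h2 m2)

theorem Split.mono {f : Dat → P} (h : Split k f w Q1) (hw : w ⊆ v) (s : Q1 ⊆ Q) : Split k f v Q :=
  let ⟨Q', a, w1, b, w2, c, r⟩ := h; ⟨Q', a.trans s, w1, b.trans hw, w2, c.trans hw, r⟩

theorem HS.mono {f : Dat → P} (h : HS k f v Q) (hw : w ⊆ v) (s : Q1 ⊆ Q) : HS k f w Q1 :=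
  fun u a Q' b c => h u (a.trans hw) Q' (b.trans s) c

theorem cst_mono {f : Dat → P} (h : Cst f v) (hw : w ⊆ v) : Cst f w :=
  let ⟨A, e⟩ := h; ⟨A, fun D m => e D (hw m)⟩

theorem HT.sub (h : HT k v Q) (hw : w ⊆ v) (s : Q1 ⊆ Q) (hv : HV k w Q1) : HT k w Q1 :=
  ⟨hv, h.aO.mono hw s, h.aA.mono hw s, h.aB.mono hw s,
    h.hA.imp (fun a => a.mono hw s) fun a => cst_mono a hw,
    h.hB.imp (fun a => a.mono hw s) fun a => cst_mono a hw⟩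

theorem HT.mono (h : HT k v Q) (p1 : Pc k Q1) (s : Q1 ⊆ Q) : HT k v Q1 :=
  h.sub subset_rfl s (h.hv.mono p1 s)

/-! ### Patterns -/

theorem Dir.mono {O y e : P} {η η' : ℝ} (h : Dir O y e η) (hη : η ≤ η') : Dir O y e η' :=
  ⟨h.1, h.2.trans hη⟩

theorem Av.mono {c c' : Set (P × ℝ)} {E E' : Set P} {η η' : ℝ} (h : Av k Q1 c E η) (s : Q1 ⊆ Q)
    (hc : c ⊆ c') (hE : E' ⊆ E) (hη : η ≤ η') : Av k Q c' E' η' := by
  obtain ⟨Q0, a, QQ, U, v, st, b, c, e⟩ := h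
  refine ⟨Q0, a.trans s, QQ, U, v, st, fun D m => hc (b D m), fun p m => (c p m).trans_le hη,
    fun x m => ?_⟩
  obtain ⟨Y, y1, y2, y3⟩ := e x (hE m)
  exact ⟨Y, y1, y2.trans s, fun O mO y my => (y3 O mO y my).mono hη⟩

theorem Pers.mono {c : Set (P × ℝ)} (h : Pers k Q c) (s : Q1 ⊆ Q) : Pers k Q1 c :=
  ⟨h.cpt, fun Q' a => h.av Q' (a.trans s)⟩

end Pool.Agent.P.MP_874adf_gt.Gn.Ga
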