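import Pool.Agent.P.MP_874adf_gt.Gn.IfaceGa
import Pool.Agent.P.MP_874adf_gt.Gn.GaBase

/-! Step GACT. -/

set_option autoImplicit false

namespace Pool.Agent.P.MP_874adf_gt.Gn

open Pool.Agent.P.MP_874adf_gt.Fs Ga Set Filter Topology Metric MeasureTheory

namespace GACTaux

lemma scd_smul {G : P → ℝ} (n : IsN G) {t : ℝ} (t0 : 0 < t) {v : P} (h : SCd G (t • v)) :
    SCd G v := by
  intro z hz
  have e : wed (t • z) (t • v) = t ^ 2 * wed z v := by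
    simp only [wed, Prod.smul_fst, Prod.smul_snd, smul_eq_mul]; ring
  have := h (t • z) (by rw [e]; exact mul_ne_zero (by positivity) hz)
  rw [← smul_add, n.smul_nonneg t0.le, n.smul_nonneg t0.le, n.smul_nonneg t0.le, ← mul_add] at this
  exact lt_of_mul_lt_mul_left this t0.le

lemma comp (D D' : Dat) : ‖dO D - dO D'‖ ≤ dist D D' ∧ ‖dB D - dB D'‖ ≤ dist D D' ∧
    |dl D - dl D'| ≤ dist D D' ∧ |dr D - dr D'| ≤ dist D D' := by
  rw [← dist_eq_norm, ← dist_eq_norm, ← Real.dist_eq, ← Real.dist_eq]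
  have h1 : dist D.2 D'.2 ≤ dist D D' := le_max_right _ _
  have h2 : dist D.2.2 D'.2.2 ≤ dist D.2 D'.2 := le_max_right _ _
  exact ⟨le_max_left _ _, (le_max_left _ _).trans h1, (le_max_left _ _).trans (h2.trans h1),
    (le_max_right _ _).trans (h2.trans h1)⟩

lemma shift {s m δ ε : ℝ} (m0 : 0 < m) (ms : m ≤ s) (hδ : δ ≤ m * ε / 8) {x y x' y' p : P}
    (h : ‖s⁻¹ • (x - y) - p‖ ≤ ε / 2) (h1 : ‖x' - x‖ ≤ δ) (h2 : ‖y' - y‖ ≤ δ) :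
    ‖s⁻¹ • (x' - y') - p‖ ≤ ε / 2 + ε / 4 := by
  have s0 : 0 < s := m0.trans_le ms
  have e : s⁻¹ • (x' - y') - p = (s⁻¹ • (x - y) - p) + s⁻¹ • ((x' - x) - (y' - y)) := by module
  rw [e]
  refine (norm_add_le _ _).trans (add_le_add h ?_)
  rw [norm_smul, Real.norm_of_nonneg (inv_pos.2 s0).le, inv_mul_le_iff₀ s0]
  have δ0 : 0 ≤ δ := (norm_nonneg _).trans h1
  have ε0 : 0 ≤ ε := by nlinarith
  nlinarith [norm_sub_le (x' - x) (y' - y), mul_le_mul_of_nonneg_right ms ε0]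

/-- stability of the geometric conditions -/
lemma stab {k : Kx} {v : Set Dat} (g : Good k v) {c : Set (P × ℝ)} (hc : IsCompact c) {e : P}
    (e0 : e ≠ 0) {ε : ℝ} (ε0 : 0 < ε) : ∃ δ > (0 : ℝ), ∀ C ∈ k.K, ∀ C' ∈ k.K, ∀ D ∈ v, ∀ D' ∈ v,
      dist C' C ≤ δ → dist D' D ≤ δ → Geo' k C c e (ε / 2) (rad k D) D →
        Geo' k C' c e ε (rad k D) D' := by
  obtain ⟨m, m0, hm⟩ := g.rad_lower
  obtain ⟨R, R0, hR⟩ := (hc.image continuous_fst).isBounded.exists_pos_norm_le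
  obtain ⟨δ1, δ10, -, h1⟩ := u0_near k (ε := ε / 2 / R) (by positivity)
  have cF : ContinuousOn (fun x => k.F x e) k.K :=
    k.ud.cont.comp (f := fun x : P => (x, e)) (by fun_prop) fun x hx => ⟨hx, mem_univ _⟩
  obtain ⟨δ2, δ20, h2⟩ := Metric.uniformContinuousOn_iff_le.1
    (k.ud.cpt.uniformContinuousOn_of_continuous
      ((cF.inv₀ fun x hx => ((k.isN x hx).pos e e0).ne').smul (continuousOn_const (c := e))))
    (ε / 4) (by positivity)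
  obtain ⟨δ3, δ30, h3⟩ := Metric.uniformContinuousOn_iff_le.1
    (g.cpt.uniformContinuousOn_of_continuous g.cont_piD) (ε / 2) (by positivity)
  refine ⟨min (min δ1 δ2) (min δ3 (min (m * ε / 8) (ε / 2))), by positivity,
    fun C hC C' hC' D hD D' hD' d1 d2 ⟨g1, ⟨p, hp, g2, g3, g4⟩, g5, g6⟩ => ?_⟩
  simp only [le_min_iff] at d1 d2
  obtain ⟨c1, c2, c3, c4⟩ := comp D' D
  refine ⟨?_, ⟨p, hp, ?_, ?_, ?_⟩, ?_, ?_⟩
  · have a1 := shift m0 (hm D hD) le_rfl g1 (x' := C') (y' := dO D')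
      (by rw [← dist_eq_norm]; exact d1.2.2.1) (c1.trans d2.2.2.1)
    have a2 : dist ((k.F C e)⁻¹ • e) ((k.F C' e)⁻¹ • e) ≤ ε / 4 :=
      h2 C hC C' hC' (by rw [dist_comm]; exact d1.1.2)
    rw [dist_eq_norm] at a2
    linarith [norm_sub_le_norm_sub_add_norm_sub ((rad k D)⁻¹ • (C' - dO D')) ((k.F C e)⁻¹ • e)
      ((k.F C' e)⁻¹ • e)]
  · have a1 := shift m0 (hm D hD) le_rfl g2 (c2.trans d2.2.2.1) (c1.trans d2.2.2.1)
    linarith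
  · have a1 := h3 D' hD' D hD d2.2.1
    rw [Real.dist_eq] at a1
    linarith [abs_sub_le (piD D') (piD D) p.2]
  · have a1 := h1 C' hC' C hC d1.1.1 p.1
    have a2 : ε / 2 / R * ‖p.1‖ ≤ ε / 2 := by
      rw [div_mul_eq_mul_div, div_le_iff₀ R0]
      exact mul_le_mul_of_nonneg_left (hR _ (mem_image_of_mem _ hp)) (half_pos ε0).le
    linarith [abs_sub_le (k.F C' p.1) (k.F C p.1) 1]
  · linarith [(abs_le.1 (c3.trans d2.2.2.2)).1]
  · linarith [(abs_le.1 (c4.trans d2.2.2.2)).1]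

end GACTaux

theorem p_GACT (hGDEC : S_GDEC) (hGCOV : S_GCOV) (hGHVS : S_GHVS) (hGGEO : S_GGEO) (hGTYPE : S_GTYPE) :
    S_GACT := by
  intro k Q c hQ hP e e0 ρ ρ0 ε ε0
  obtain ⟨Q1, s1, p1, h1 | h1⟩ := hGDEC k Q hQ e ρ
  · exact ⟨Q1, s1, p1, Or.inl h1⟩
  obtain ⟨η0, η00, hη0⟩ := hGGEO k e e0 _ (half_pos ε0)
  have ne : 0 < ‖e‖ := norm_pos_iff.2 e0
  obtain ⟨η, ηp, η1, η2, η3⟩ : ∃ η > (0 : ℝ), η < η0 ∧ η < ε ∧ ‖e‖ * η < ρ := by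
    have q : 0 < min (min η0 ε) (ρ / ‖e‖) := by positivity
    have q1 := half_lt_self q
    refine ⟨_, half_pos q, q1.trans_le ((min_le_left _ _).trans (min_le_left _ _)),
      q1.trans_le ((min_le_left _ _).trans (min_le_right _ _)), ?_⟩
    rw [← lt_div_iff₀' ne]
    exact q1.trans_le (min_le_right _ _)
  obtain ⟨Q0, s0, QQ, U, v, st, hp, hU, hE⟩ :=
    hP.av Q1 s1 p1 {e} (finite_singleton e) (by simpa using e0) η ηp
  obtain ⟨Y, mY, sY, hY⟩ := hE e rfl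
  have st1 := st.sub' (c := dO ⁻¹' Q0 ∩ (v ∩ rad k ⁻¹' Iic η))
    ((st.fr.p0.cpt.isClosed.preimage contO).inter
      (st.good.cont_rad.preimage_isClosed_of_isClosed st.good.cpt.isClosed isClosed_Iic))
    fun p hp D m e1 cD => ⟨by rw [mem_preimage, e1]; exact hp.1.1.1, m, by
      rw [mem_preimage, rad_eq cD]; exact (hU p hp.2).le⟩
  have sc : SCs k Q0 Y := by
    intro O hO y hy
    obtain ⟨y0, hd⟩ := hY O hO y hy
    have ny : 0 < ‖y - O‖ := norm_pos_iff.2 (sub_ne_zero.2 y0)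
    refine GACTaux.scd_smul (k.isN O (p1.sub (s0 hO))) (mul_pos ne (inv_pos.2 ny))
      (h1 O (s0 hO) _ ?_)
    have e1 : (‖e‖ * ‖y - O‖⁻¹) • (y - O) - e = ‖e‖ • (‖y - O‖⁻¹ • (y - O) - ‖e‖⁻¹ • e) := by
      rw [smul_sub ‖e‖, smul_smul, smul_smul, mul_inv_cancel₀ ne.ne', one_smul]
    rw [mem_ball, dist_eq_norm, e1, norm_smul, norm_norm]
    exact (mul_le_mul_of_nonneg_left hd ne.le).trans_lt η3
  obtain ⟨Y1, sY1, hv1⟩ := (hGCOV k Q0 QQ U Y mY sc).2 _ st1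
  obtain ⟨δ, δ0, hδ⟩ := GACTaux.stab st1.good hP.cpt e0 ε0
  obtain ⟨w, sw, Y2, sY2, hv2, dw, dY⟩ := hGHVS k _ _ hv1.hv δ δ0
  obtain ⟨w1, sw1, Y3, sY3, ht⟩ := hGTYPE k _ _ hv2
  obtain ⟨y0, hy0⟩ := ht.hv.pc.nonempty
  obtain ⟨D0, m0, c0⟩ := ht.hv.val hy0
  have m1 := sw (sw1 m0)
  have r0 := rad_eq c0
  have r1 : rad k D0 ≤ η := m1.2.2.2
  have g0 := hη0 y0 (ht.hv.pc.sub hy0) D0 (st.good.mO D0 m1.1) c0 (by linarith)
    ((hY _ m1.2.1 y0 (sY1 (sY2 (sY3 hy0)))).mono η1.le) c (hp D0 m1.1)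
  rw [← r0] at g0
  refine ⟨Y3, sY3.trans (sY2.trans (sY1.trans (sY.trans s1))), ht.hv.pc,
    Or.inr ⟨w1, rad k D0, st.good.rad_pos m1.1, by linarith, ht, fun C hC D hD => ?_⟩⟩
  exact hδ y0 (ht.hv.pc.sub hy0) C (ht.hv.pc.sub hC) D0 m1 D (sw (sw1 hD))
    (dY _ (sY3 hC) _ (sY3 hy0)) (dw _ (sw1 hD) _ (sw1 m0)) g0

end Pool.Agent.P.MP_874adf_gt.Gn
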