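import Mathlib

/-! The abstract game: all requirements are met at one point. -/

set_option autoImplicit false

namespace Pool.Agent.P.MP_874adf_gt.Gn.Ga

open Set

section

variable {X α : Type*} {Pc : Set X → Prop} {H : α → Set X → Prop}
  {R : α → ℕ → Set α → X → Prop}

/-- finitely many requirements at once -/
lemma absGame_fin (mono : ∀ a Q Q', H a Q → Pc Q' → Q' ⊆ Q → H a Q')
    (step : ∀ Q a j, Pc Q → H a Q → ∃ Q' ⊆ Q, Pc Q' ∧ ∃ S : Set α, S.Finite ∧ (∀ b ∈ S, H b Q') ∧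
      ∀ C ∈ Q', R a j S C)
    {T : Set (α × ℕ)} (hT : T.Finite) : ∀ Q, Pc Q → (∀ t ∈ T, H t.1 Q) →
      ∃ Q' ⊆ Q, Pc Q' ∧ ∃ S : Set α, S.Finite ∧ (∀ b ∈ S, H b Q') ∧
        ∀ t ∈ T, ∃ S' ⊆ S, ∀ C ∈ Q', R t.1 t.2 S' C := by
  induction T, hT using Set.Finite.induction_on with
  | empty => exact fun Q hQ _ => ⟨Q, subset_rfl, hQ, ∅, finite_empty, by simp, by simp⟩
  | @insert t T _ _ ih =>
    intro Q hQ h
    obtain ⟨Q1, s1, p1, S1, f1, h1, r1⟩ := ih Q hQ fun u hu => h u (mem_insert_of_mem _ hu)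
    obtain ⟨Q2, s2, p2, S2, f2, h2, r2⟩ :=
      step Q1 t.1 t.2 p1 (mono _ _ _ (h t (mem_insert _ _)) p1 s1)
    refine ⟨Q2, s2.trans s1, p2, S1 ∪ S2, f1.union f2, ?_, ?_⟩
    · rintro b (hb | hb)
      · exact mono _ _ _ (h1 b hb) p2 s2
      · exact h2 b hb
    · rintro u (rfl | hu)
      · exact ⟨S2, subset_union_right, r2⟩
      · obtain ⟨S', s', r'⟩ := r1 u hu
        exact ⟨S', s'.trans subset_union_left, fun C hC => r' C (s2 hC)⟩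

end

theorem absGame {X α : Type*} [TopologicalSpace X] [T2Space X] (Pc : Set X → Prop)
    (H : α → Set X → Prop) (R : α → ℕ → Set α → X → Prop)
    (hPc : ∀ Q, Pc Q → IsCompact Q ∧ Q.Nonempty)
    (mono : ∀ a Q Q', H a Q → Pc Q' → Q' ⊆ Q → H a Q')
    (step : ∀ Q a j, Pc Q → H a Q → ∃ Q' ⊆ Q, Pc Q' ∧ ∃ S : Set α, S.Finite ∧ (∀ b ∈ S, H b Q') ∧
      ∀ C ∈ Q', R a j S C)
    (a0 : α) (Q0 : Set X) (p0 : Pc Q0) (h0 : H a0 Q0) :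
    ∃ C ∈ Q0, ∃ AA : Set α, a0 ∈ AA ∧ (∀ a ∈ AA, ∃ Q ⊆ Q0, Pc Q ∧ C ∈ Q ∧ H a Q) ∧
      ∀ a ∈ AA, ∀ j, ∃ S ⊆ AA, R a j S C := by
  let St := {p : Set X × Set α // Pc p.1 ∧ p.2.Finite ∧ ∀ b ∈ p.2, H b p.1}
  have nx : ∀ (n : ℕ) (p : St), ∃ q : St, q.1.1 ⊆ p.1.1 ∧ p.1.2 ⊆ q.1.2 ∧
      ∀ a ∈ p.1.2, ∀ j ≤ n, ∃ S ⊆ q.1.2, ∀ C ∈ q.1.1, R a j S C := by
    rintro n ⟨⟨Q, A⟩, hQ, hA, hH⟩
    obtain ⟨Q', s, p', S, f, h, r⟩ := absGame_fin mono step (hA.prod (finite_Iic n)) Q hQ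
      fun t ht => hH _ ht.1
    refine ⟨⟨(Q', A ∪ S), p', hA.union f, ?_⟩, s, subset_union_left, fun a ha j hj => ?_⟩
    · rintro b (hb | hb)
      · exact mono _ _ _ (hH b hb) p' s
      · exact h b hb
    · obtain ⟨S', s', r'⟩ := r (a, j) ⟨ha, hj⟩
      exact ⟨S', s'.trans subset_union_right, r'⟩
  choose f f1 f2 f3 using nx
  let s : ℕ → St := fun n => Nat.rec ⟨(Q0, {a0}), p0, finite_singleton _, by simpa using h0⟩ f n
  have e : ∀ n, s (n + 1) = f n (s n) := fun n => rfl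
  have a1 : Antitone fun n => (s n).1.1 := antitone_nat_of_succ_le fun n => f1 n (s n)
  have a2 : Monotone fun n => (s n).1.2 := monotone_nat_of_le_succ fun n => f2 n (s n)
  obtain ⟨C, hC⟩ := IsCompact.nonempty_iInter_of_sequence_nonempty_isCompact_isClosed
    (fun n => (s n).1.1) (fun n => f1 n (s n)) (fun n => (hPc _ (s n).2.1).2)
    (hPc _ (s 0).2.1).1 fun n => (hPc _ (s n).2.1).1.isClosed
  rw [mem_iInter] at hC
  refine ⟨C, hC 0, ⋃ n, (s n).1.2, mem_iUnion.2 ⟨0, mem_singleton a0⟩, fun a ha => ?_,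
    fun a ha j => ?_⟩
  · obtain ⟨n, hn⟩ := mem_iUnion.1 ha
    exact ⟨_, a1 (Nat.zero_le n), (s n).2.1, hC n, (s n).2.2.2 a hn⟩
  · obtain ⟨n, hn⟩ := mem_iUnion.1 ha
    obtain ⟨S, hS, r⟩ := f3 (max n j) (s (max n j)) a (a2 (le_max_left n j) hn) j (le_max_right n j)
    exact ⟨S, hS.trans (subset_iUnion (fun n => (s n).1.2) (max n j + 1)), r C (hC (max n j + 1))⟩

end Pool.Agent.P.MP_874adf_gt.Gn.Ga
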