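import Pool.Agent.P.MP_874adf_gt.Gn.DefsGa

/-! The statements of the block GAME. -/

set_option autoImplicit false

namespace Pool.Agent.P.MP_874adf_gt.Gn

open Pool.Agent.P.MP_874adf_gt.Fs Ga Set Filter Topology Metric MeasureTheory

-- redeps: GAME GST0 GP1 GPAS GACT GHVS GSEPN
-- reimports: GAME Pool.Agent.P.MP_874adf_gt.Gn.GaBase Pool.Agent.P.MP_874adf_gt.Gn.GaAbs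

/-! ### Measure part -/

-- deps:
def S_GGAPL : Prop :=
  (∀ (g : ℝ → ℝ) (T Z : Set ℝ) (κ : ℝ), 0 < κ → (∀ t ∈ T, ∀ t' ∈ T, κ * |t - t'| ≤ |g t - g t'|) →
    MapsTo g T Z → volume T ≤ volume Z / ENNReal.ofReal κ) ∧
  (∀ (g : P → P) (T Z : Set P) (κ : ℝ), 0 < κ → (∀ t ∈ T, ∀ t' ∈ T, κ * ‖t - t'‖ ≤ ‖g t - g t'‖) →
    MapsTo g T Z → volume Z = 0 → volume T = 0)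

-- deps:
def S_GPAR : Prop := ∀ x e : P, e ≠ 0 → ∀ A : Set P,
  volume A = ENNReal.ofReal (e.1 ^ 2 + e.2 ^ 2) * volume {q : ℝ × ℝ | par x e q.1 q.2 ∈ A}

-- deps: GPAR
-- imports: Pool.Agent.P.MP_874adf_gt.Gn.GaBase
def S_GSLICE : Prop := ∀ (E : Set P) (x e : P), DenW E x → e ≠ 0 → ∀ L > (0 : ℝ), ∀ η > (0 : ℝ),
  ∀ α β : ℝ, -1 ≤ α → α < β → β ≤ 1 → ∀ᶠ δ in 𝓝[>] (0 : ℝ), ∃ E' ⊆ E, IsCompact E' ∧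
    0 < volume {κ ∈ Icc α β |
      volume {τ ∈ Icc (-(L * δ)) (L * δ) | par x e (δ * κ) τ ∉ E'} ≤ ENNReal.ofReal (η * δ)}

-- deps: GGAPL
def S_GEXP : Prop := ∀ (k : Kx), ∀ x ∈ k.K, ∀ e : P, e ≠ 0 → ∀ L > (0 : ℝ), ∀ η > (0 : ℝ),
  ∃ η' > (0 : ℝ), ∀ᶠ δ in 𝓝[>] (0 : ℝ), ∀ κ ∈ Icc (-1 : ℝ) 1, ∀ T : Set ℝ, IsCompact T →
    T ⊆ Icc (-(L * δ)) (L * δ) → (∀ τ ∈ T, par x e (δ * κ) τ ∈ k.K) →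
    volume (Icc (-(L * δ)) (L * δ) \ T) ≤ ENNReal.ofReal (η' * δ) →
    Sm k.d (par x e (δ * κ)) (Icc (-(L * δ)) (L * δ) \ T) (η * δ)

-- deps: GSLICE GEXP
def S_GSEG : Prop := ∀ (k : Kx), ∀ x ∈ k.K, ∀ E ⊆ k.K, DenW E x → ∀ e : P, e ≠ 0 → ∀ L > (0 : ℝ),
  ∀ η > (0 : ℝ), ∀ α β : ℝ, -1 ≤ α → α < β → β ≤ 1 → ∀ᶠ δ in 𝓝[>] (0 : ℝ), ∃ κ ∈ Icc α β,
    ∃ T : Set ℝ, IsCompact T ∧ T ⊆ Icc (-(L * δ)) (L * δ) ∧ (∀ τ ∈ T, par x e (δ * κ) τ ∈ E) ∧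
      Sm k.d (par x e (δ * κ)) (Icc (-(L * δ)) (L * δ) \ T) (η * δ)

-- deps: GSEG
def S_GLEV : Prop := ∀ (k : Kx), ∀ O ∈ k.M, ∀ x ∈ k.K, x ≠ O → ∀ E ⊆ k.K, DenW E x →
  ∀ η > (0 : ℝ), ∀ ρ > (0 : ℝ), ∀ m : ℕ, ∀ᶠ δ in 𝓝[>] (0 : ℝ),
    volume {a ∈ Icc (k.d O x - δ) (k.d O x + δ) | {y ∈ E ∩ ball x ρ | k.d O y = a}.encard < m} ≤
      ENNReal.ofReal (η * δ)

-- deps: GSEG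
def S_GLEVO : Prop := ∀ (k : Kx), ∀ O ∈ k.K, ∀ E ⊆ k.K, DenW E O → ∀ S : Set P, S.Finite →
  (∀ e ∈ S, e ≠ 0) → ∀ η > (0 : ℝ), ∃ a, 0 < a ∧ a < η ∧ ∀ e ∈ S, ∃ y ∈ E, k.d O y = a ∧ Dir O y e η

-- deps: GGAPL GPAR
def S_GLEV0 : Prop := ∀ (k : Kx), ∀ O ∈ k.M, ∀ x ∈ k.K, x ≠ O → ∃ C > (0 : ℝ),
  ∀ᶠ δ in 𝓝[>] (0 : ℝ), ∀ Z : Set ℝ,
    volume {y ∈ k.K ∩ closedBall x δ | k.d O y ∈ Z} ≤ ENNReal.ofReal (C * δ) * volume Z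

-- deps:
def S_GGAP2 : Prop := ∀ (k : Kx), ∀ O0 ∈ k.K, ∀ x0 ∈ k.M, ∀ y0 ∈ k.M, x0 ≠ y0 → y0 ≠ O0 →
  k.d O0 x0 = k.d O0 y0 → SCd (k.F O0) (y0 - O0) → ∃ κ > (0 : ℝ), ∃ ρ > (0 : ℝ),
    ∀ O ∈ k.K ∩ ball O0 ρ, ∀ O' ∈ k.K ∩ ball O0 ρ, ∀ lam : ℝ, O' = O + lam • (y0 - O0) →
      ∀ x ∈ ball x0 ρ, ∀ y ∈ ball y0 ρ,
        κ * |lam| ≤ |(k.d O' x - k.d O' y) - (k.d O x - k.d O y)|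

-- deps:
def S_GLIP2 : Prop := ∀ (k : Kx), ∀ O0 ∈ k.K, ∀ y1 ∈ k.M, ∀ y2 ∈ k.M, ∀ y3 ∈ k.M,
  wed (y1 - O0) (y2 - O0) ≠ 0 → wed (y1 - O0) (y3 - O0) ≠ 0 → wed (y2 - O0) (y3 - O0) ≠ 0 →
  SCd (k.F O0) (y1 - O0) → SCd (k.F O0) (y2 - O0) → SCd (k.F O0) (y3 - O0) →
  ∃ κ > (0 : ℝ), ∃ ρ > (0 : ℝ), ∀ O ∈ k.K ∩ ball O0 ρ, ∀ O' ∈ k.K ∩ ball O0 ρ,
    ∀ z1 ∈ ball y1 ρ, ∀ z2 ∈ ball y2 ρ, ∀ z3 ∈ ball y3 ρ,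
      κ * ‖O' - O‖ ≤ max |(k.d O' z2 - k.d O z2) - (k.d O' z1 - k.d O z1)|
        |(k.d O' z3 - k.d O z3) - (k.d O' z1 - k.d O z1)|

-- deps: GPAR GGAP2
def S_GFAM : Prop := ∀ (k : Kx), ∀ O0 ∈ k.K, ∀ y0 ∈ k.M, ∀ x ∈ k.K, y0 ≠ O0 → x ≠ y0 →
  k.d O0 x = k.d O0 y0 → SCd (k.F O0) (y0 - O0) → ∃ L > (0 : ℝ), ∃ C > (0 : ℝ),
    ∀ᶠ δ in 𝓝[>] (0 : ℝ), ∃ ρ > (0 : ℝ), ∀ η > (0 : ℝ), ∀ κ ∈ Icc (-1 : ℝ) 1, ∀ T : Set ℝ,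
      IsCompact T → T ⊆ Icc (-(L * δ)) (L * δ) →
      Sm k.d (par x (x - O0) (δ * κ)) (Icc (-(L * δ)) (L * δ) \ T) (η * δ) → ∀ y ∈ ball y0 ρ,
        volume {O ∈ k.K ∩ closedBall O0 δ |
          ¬ ∃ τ ∈ T, k.d O (par x (x - O0) (δ * κ) τ) = k.d O y} ≤ ENNReal.ofReal (C * η * δ ^ 2)

-- deps: GSEG GFAM
def S_GFAMP : Prop := ∀ (k : Kx) (ι : Type) [Finite ι] (x : ι → P) (E : ι → Set P) (E0 : Set P),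
  ∀ O0 ∈ k.K, ∀ y0 ∈ k.M, y0 ≠ O0 → SCd (k.F O0) (y0 - O0) → E0 ⊆ k.K → DenW E0 O0 →
  (∀ j, x j ∈ k.K ∧ x j ≠ y0 ∧ k.d O0 (x j) = k.d O0 y0 ∧ E j ⊆ k.K ∧ DenW (E j) (x j)) →
  ∀ δ0 > (0 : ℝ), ∃ ρ > (0 : ℝ), ∃ c > (0 : ℝ), ∀ y ∈ ball y0 ρ, ∀ N : Set P,
    volume N < ENNReal.ofReal c → ∃ O ∈ E0 ∩ ball O0 δ0, O ∉ N ∧
      ∀ j, ∃ z ∈ E j ∩ ball (x j) δ0, k.d O z = k.d O y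

-- deps: GGAPL GPAR GSLICE GEXP GSEG GLIP2 GFAM
-- imports: Pool.Agent.P.MP_874adf_gt.Gn.GaBase
def S_GTRI : Prop := ∀ (k : Kx) (ι : Type) [Finite ι] (x : ι → P) (E : ι → Set P) (E0 E2 E3 : Set P),
  ∀ O0 ∈ k.K, ∀ y1 ∈ k.K, ∀ y2 ∈ k.K, ∀ y3 ∈ k.K,
  wed (y1 - O0) (y2 - O0) ≠ 0 → wed (y1 - O0) (y3 - O0) ≠ 0 → wed (y2 - O0) (y3 - O0) ≠ 0 →
  SCd (k.F O0) (y1 - O0) → SCd (k.F O0) (y2 - O0) → SCd (k.F O0) (y3 - O0) →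
  k.d O0 y2 = k.d O0 y1 → k.d O0 y3 = k.d O0 y1 →
  E0 ⊆ k.K → DenW E0 O0 → E2 ⊆ k.K → DenW E2 y2 → E3 ⊆ k.K → DenW E3 y3 →
  (∀ j, x j ∈ k.K ∧ x j ≠ y1 ∧ k.d O0 (x j) = k.d O0 y1 ∧ E j ⊆ k.K ∧ DenW (E j) (x j)) →
  ∀ δ0 > (0 : ℝ), ∃ z2 ∈ E2, ∃ Y ⊆ E3, 0 < volume Y ∧ ∀ z3 ∈ Y, ∃ O ∈ E0 ∩ ball O0 δ0,
    k.d O z2 = k.d O y1 ∧ k.d O z3 = k.d O y1 ∧ ∀ j, ∃ z ∈ E j, k.d O z = k.d O y1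

-- deps:
def S_GEXH : Prop := ∀ (Q : Set P) (𝓖 : Set (Set P)), IsCompact Q →
  (∀ G ∈ 𝓖, IsCompact G ∧ 0 < volume G ∧ G ⊆ Q) →
  (∀ Q' ⊆ Q, IsCompact Q' → 0 < volume Q' → ∃ G ∈ 𝓖, G ⊆ Q') → ∀ η > (0 : ℝ),
  ∃ 𝓢 ⊆ 𝓖, 𝓢.Finite ∧ 𝓢.PairwiseDisjoint id ∧ volume (Q \ ⋃₀ 𝓢) < ENNReal.ofReal η

/-! ### States -/

-- deps:
def S_GCLO : Prop := ∀ (k : Kx) (v : Set Dat), Good k v → ∀ D ∈ v, ∀ a, 0 < a → a < k.a1 →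
  (D, a) ∈ closure {p : Dat × ℝ | p.1 ∈ v ∧ Circ k.M k.d p.1 p.2} → Circ k.M k.d D a

-- deps: GCLO
-- imports: Pool.Agent.P.MP_874adf_gt.Gn.GaBase
def S_GBAIRE : Prop := ∀ (k : Kx) (Q0 : Set P) (QQ : Set (Set P)) (U : Set (P × ℝ)),
  (∀ v : ℕ → Set Dat, Fr k Q0 QQ U → (∀ n, Good k (v n)) →
    (∀ p ∈ closure (Rich k Q0 QQ) ∩ U, ∃ n, Vd k (v n) p) → ∃ n, ∃ U' ⊆ U, St k Q0 QQ U' (v n)) ∧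
  (∀ v, St k Q0 QQ U v → ∀ (ι : Type) [Finite ι] (c : ι → Set Dat), (∀ i, IsClosed (c i)) →
    v ⊆ ⋃ i, c i → ∃ i, ∃ U' ⊆ U, St k Q0 QQ U' (v ∩ c i)) ∧
  (∀ v, St k Q0 QQ U v → ∀ δ > (0 : ℝ), ∃ w ⊆ v, ∃ U' ⊆ U, St k Q0 QQ U' w ∧
    ∀ D ∈ w, ∀ D' ∈ w, dist D D' ≤ δ)

-- deps: GLEV
-- imports: Pool.Agent.P.MP_874adf_gt.Gn.GaBase
def S_GTWO : Prop := ∀ (k : Kx) (Q0 : Set P) (QQ : Set (Set P)) (U : Set (P × ℝ)), Fr k Q0 QQ U →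
  ∀ p ∈ Rich k Q0 QQ ∩ U, ∀ m : ℕ, ∃ a, (p.1, a) ∈ U ∧
    ∀ Q ∈ QQ, (m : ℕ∞) ≤ {y ∈ Den Q | k.d p.1 y = a}.encard

-- deps: GTWO GFAMP
-- imports: Pool.Agent.P.MP_874adf_gt.Gn.GaBase
def S_GCOV : Prop := ∀ (k : Kx) (Q0 : Set P) (QQ : Set (Set P)) (U : Set (P × ℝ)), ∀ Y ∈ QQ,
  SCs k Q0 Y →
  (Fr k Q0 QQ U → ∃ y2 ∈ Den Y, ∃ ρ > (0 : ℝ), ∃ c > (0 : ℝ), ∀ y ∈ ball y2 ρ, ∀ N : Set P,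
    volume N < ENNReal.ofReal c → ∃ O, O ∉ N ∧ (O, k.d O y) ∈ Rich k Q0 QQ ∩ U) ∧
  (∀ v, St k Q0 QQ U v → ∃ Y' ⊆ Y, HVd k v Y' Q0 QQ U)

-- deps: GTWO GFAMP
-- imports: Pool.Agent.P.MP_874adf_gt.Gn.GaBase
def S_GOFF : Prop := ∀ (k : Kx) (Q0 : Set P) (QQ : Set (Set P)) (U : Set (P × ℝ)), Fr k Q0 QQ U →
  ∀ Y ∈ QQ, SCs k Q0 Y → ∀ A, A ∉ Y → ∃ p ∈ Rich k Q0 QQ ∩ U, ∃ y1 ∈ Den Y, ∃ y2 ∈ Den Y,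
    k.d p.1 y1 = p.2 ∧ k.d p.1 y2 = p.2 ∧ wed (y1 - A) (y2 - A) ≠ 0

-- deps: GBAIRE GCOV
-- imports: Pool.Agent.P.MP_874adf_gt.Gn.GaBase
def S_GHVS : Prop := ∀ (k : Kx) (v : Set Dat) (Q : Set P), HV k v Q → ∀ δ > (0 : ℝ),
  ∃ w ⊆ v, ∃ Q' ⊆ Q, HV k w Q' ∧ (∀ D ∈ w, ∀ D' ∈ w, dist D D' ≤ δ) ∧
    ∀ y ∈ Q', ∀ y' ∈ Q', dist y y' ≤ δ

-- deps: GHVS
-- imports: Pool.Agent.P.MP_874adf_gt.Gn.GaBase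
def S_GAWAY : Prop := ∀ (k : Kx) (v : Set Dat) (Q : Set P), HV k v Q →
  ∃ w ⊆ v, ∃ Q' ⊆ Q, HV k w Q' ∧ Aw dO w Q' ∧ Aw dA w Q' ∧ Aw dB w Q'

-- deps: GCOV
-- imports: Pool.Agent.P.MP_874adf_gt.Gn.GaBase
def S_GOSPLIT : Prop := ∀ (k : Kx) (w : Set Dat) (Q : Set P), HV k w Q → Split k dO w Q

-- deps: GEXH GHVS
-- imports: Pool.Agent.P.MP_874adf_gt.Gn.GaBase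
def S_GRIG1 : Prop := ∀ (k : Kx) (f : Dat → P) (w : Set Dat) (Q : Set P), Continuous f → HV k w Q →
  Aw f w Q → ¬ Split k f w Q → ∃ Qb ⊆ Q, Pc k Qb ∧ Uni k f w Qb

-- deps: GCLO GBAIRE GCOV
-- imports: Pool.Agent.P.MP_874adf_gt.Gn.GaBase
def S_GRIG2 : Prop := ∀ (k : Kx) (w : Set Dat) (Q Q0 : Set P) (QQ : Set (Set P)) (U : Set (P × ℝ)),
  HVd k w Q Q0 QQ U → ∀ Qb ⊆ Q, Pc k Qb → ∀ p ∈ Rich k Q0 QQ ∩ U, ∀ s : Set P, s.Finite →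
    (∀ y ∈ s, y ∈ Den Qb ∧ k.d p.1 y = p.2) →
    ∃ D ∈ w, dO D = p.1 ∧ Circ k.M k.d D p.2 ∧ ∀ y ∈ s, Om k w Qb y D

-- deps: GTWO GTRI GRIG2
-- imports: Pool.Agent.P.MP_874adf_gt.Gn.GaBase
def S_GRIG3 : Prop := ∀ (k : Kx) (f : Dat → P) (w : Set Dat) (Q : Set P), Continuous f → HV k w Q →
  Aw f w Q → ∀ Qb ⊆ Q, Pc k Qb → Uni k f w Qb →
  ∃ A, ∃ Y ⊆ Qb, Pc k Y ∧ ∀ y ∈ Y, ∃ D, Om k w Qb y D ∧ f D = A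

-- deps: GOFF GCOV GRIG2
-- imports: Pool.Agent.P.MP_874adf_gt.Gn.GaBase
def S_GRIG4 : Prop := ∀ (k : Kx) (f : Dat → P) (w : Set Dat) (Q : Set P), Continuous f → HV k w Q →
  Aw f w Q → ∀ Qb ⊆ Q, Pc k Qb → Uni k f w Qb → ∀ A, ∀ Y ⊆ Qb, Pc k Y →
  (∀ y ∈ Y, ∃ D, Om k w Qb y D ∧ f D = A) → ∃ w' ⊆ w, ∃ Q' ⊆ Q, HV k w' Q' ∧ Cst f w'

-- deps: GAWAY GRIG1 GRIG3 GRIG4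
-- imports: Pool.Agent.P.MP_874adf_gt.Gn.GaBase
def S_GTYPE : Prop := ∀ (k : Kx) (v : Set Dat) (Q : Set P), HV k v Q → ∃ w ⊆ v, ∃ Q' ⊆ Q, HT k w Q'

-- deps: GHVS
-- imports: Pool.Agent.P.MP_874adf_gt.Gn.GaBase
def S_GRESEP : Prop := ∀ (k : Kx) (f : Dat → P) (v : Set Dat) (Q : Set P), Continuous f →
  HS k f v Q → Aw f v Q → ∀ w1 ⊆ v, ∀ w2 ⊆ v, ∀ Q' ⊆ Q, HV k w1 Q' → HV k w2 Q' →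
  ∃ w1' ⊆ w1, ∃ w2' ⊆ w2, ∃ Q'' ⊆ Q', HV k w1' Q'' ∧ HV k w2' Q'' ∧ Sep2 f w1' w2' Q''

-- deps: GOSPLIT GRESEP
-- imports: Pool.Agent.P.MP_874adf_gt.Gn.GaBase
def S_GSEPN : Prop := ∀ (k : Kx) (v : Set Dat) (Q : Set P), HT k v Q → ∀ m : ℕ,
  ∃ Q' ⊆ Q, Pc k Q' ∧ ∃ w : Fin m → Set Dat, (∀ i, w i ⊆ v ∧ HT k (w i) Q') ∧
    ∀ C ∈ Q', SepF C dO w ∧ (SepF C dA w ∨ Cst dA v) ∧ (SepF C dB w ∨ Cst dB v)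

/-! ### Patterns -/

-- deps: GLEVO GBAIRE
-- imports: Pool.Agent.P.MP_874adf_gt.Gn.GaBase
def S_GST0 : Prop := ∀ k : Kx, ∃ c ⊆ (univ : Set P) ×ˢ Icc (0 : ℝ) 1, Pers k k.K c

-- deps: GBAIRE
-- imports: Pool.Agent.P.MP_874adf_gt.Gn.GaBase
def S_GP1 : Prop := ∀ (k : Kx) (Q : Set P) (c : Set (P × ℝ)), Pc k Q → Pers k Q c → ∀ δ > (0 : ℝ),
  ∃ Q' ⊆ Q, ∃ c' ⊆ c, Pc k Q' ∧ Pers k Q' c' ∧ ∀ p ∈ c', ∀ q ∈ c', dist p q ≤ δ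

-- deps:
def S_GGEO : Prop := ∀ (k : Kx) (e : P), e ≠ 0 → ∀ ε > (0 : ℝ), ∃ η > (0 : ℝ), ∀ C ∈ k.K, ∀ D : Dat,
  dO D ∈ k.K → Circ k.M k.d D (k.d (dO D) C) → k.d (dO D) C < η → Dir (dO D) C e η →
  ∀ c : Set (P × ℝ), pat k D ∈ c → Geo' k C c e ε (k.d (dO D) C) D

-- deps: GLEV GLEV0 GCLO GGEO
-- imports: Pool.Agent.P.MP_874adf_gt.Gn.GaBase
def S_GPAS : Prop := ∀ (k : Kx) (Q : Set P) (c : Set (P × ℝ)), Pc k Q → Pers k Q c → ∀ e : P, e ≠ 0 →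
  ∀ ε > (0 : ℝ), ∃ Q' ⊆ Q, Pc k Q' ∧ ∀ C ∈ Q', ∃ (D : Dat) (s : ℝ), 0 < s ∧ s < ε ∧
    Circ k.M k.d D (k.d (dO D) C) ∧ Geo' k C c e ε s D

-- deps:
def S_GDEC : Prop := ∀ (k : Kx) (Q : Set P), Pc k Q → ∀ (e : P) (ρ : ℝ), ∃ Q' ⊆ Q, Pc k Q' ∧
  ((∀ x ∈ Q', ∃ Y ∈ ball e ρ, ¬ SCd (k.F x) Y) ∨ ∀ x ∈ Q', ∀ Y ∈ ball e ρ, SCd (k.F x) Y)

-- deps: GDEC GCOV GHVS GGEO GTYPE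
-- imports: Pool.Agent.P.MP_874adf_gt.Gn.GaBase
def S_GACT : Prop := ∀ (k : Kx) (Q : Set P) (c : Set (P × ℝ)), Pc k Q → Pers k Q c → ∀ e : P, e ≠ 0 →
  ∀ ρ > (0 : ℝ), ∀ ε > (0 : ℝ), ∃ Q' ⊆ Q, Pc k Q' ∧
    ((∀ x ∈ Q', ∃ Y ∈ ball e ρ, ¬ SCd (k.F x) Y) ∨
      ∃ (v : Set Dat) (s : ℝ), 0 < s ∧ s < ε ∧ HT k v Q' ∧ ∀ C ∈ Q', ∀ D ∈ v, Geo' k C c e ε s D)

end Pool.Agent.P.MP_874adf_gt.Gn
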