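import Pool.Agent.P.MP_874adf_gt.Gn.Iface0
import Pool.Agent.P.MP_874adf_gt.Gn.IfaceGa
import Pool.Agent.P.MP_874adf_gt.Gn.GaBase
import Pool.Agent.P.MP_874adf_gt.Gn.GaAbs

/-! Step GAME. -/

set_option autoImplicit false

namespace Pool.Agent.P.MP_874adf_gt.Gn

open Pool.Agent.P.MP_874adf_gt.Fs Ga Set Filter Topology Metric MeasureTheory

noncomputable def GAME_eps (n : ℕ) : ℝ := 1 / ((n : ℝ) + 1)

lemma GAME_eps_pos (n : ℕ) : 0 < GAME_eps n := Nat.one_div_pos_of_nat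

lemma GAME_small {δ : ℝ} (δ0 : 0 < δ) : ∃ n, GAME_eps n < δ := exists_nat_one_div_lt δ0

noncomputable def GAME_dir (i : ℕ) : P := TopologicalSpace.denseSeq P i

def GAME_H (k : Kx) : Set (P × ℝ) ⊕ Set Dat → Set P → Prop
  | .inl c, Q => Pers k Q c
  | .inr v, Q => HT k v Q

/-- requirements for a pattern cell -/
def GAME_R1 (k : Kx) (c : Set (P × ℝ)) (ε : ℝ) (e : P) (S : Set (Set (P × ℝ) ⊕ Set Dat)) (C : P) :
    Prop :=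
  (∃ c' ⊆ c, .inl c' ∈ S ∧ ∀ p ∈ c', ∀ q ∈ c', dist p q ≤ ε) ∧
  (e ≠ 0 → (∃ (D : Dat) (s : ℝ), 0 < s ∧ s < ε ∧ Circ k.M k.d D (k.d (dO D) C) ∧
      Geo' k C c e ε s D) ∧
    ((∃ Y ∈ ball e ε, ¬ SCd (k.F C) Y) ∨
      ∃ (v : Set Dat) (s : ℝ), .inr v ∈ S ∧ 0 < s ∧ s < ε ∧ ∀ D ∈ v, Geo' k C c e ε s D))

/-- requirements for a data cell -/
def GAME_R2 (v : Set Dat) (m : ℕ) (S : Set (Set (P × ℝ) ⊕ Set Dat)) (C : P) : Prop :=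
  (∃ w ⊆ v, .inr w ∈ S ∧ ∀ D ∈ w, ∀ D' ∈ w, dist D D' ≤ GAME_eps m) ∧
  ∃ w : Fin m → Set Dat, (∀ i, .inr (w i) ∈ S ∧ w i ⊆ v) ∧ SepF C dO w ∧
    (SepF C dA w ∨ Cst dA v) ∧ (SepF C dB w ∨ Cst dB v)

def GAME_R (k : Kx) : Set (P × ℝ) ⊕ Set Dat → ℕ → Set (Set (P × ℝ) ⊕ Set Dat) → P → Prop
  | .inl c, j, S, C => GAME_R1 k c (GAME_eps j.unpair.1) (GAME_dir j.unpair.2) S C
  | .inr v, j, S, C => GAME_R2 v j S C

lemma GAME_step1 (hGP1 : S_GP1) (hGPAS : S_GPAS) (hGACT : S_GACT) (k : Kx) {Q : Set P}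
    {c : Set (P × ℝ)} (pQ : Pc k Q) (h : Pers k Q c) {ε : ℝ} (ε0 : 0 < ε) (e : P) :
    ∃ Q' ⊆ Q, Pc k Q' ∧ ∃ S : Set (Set (P × ℝ) ⊕ Set Dat), S.Finite ∧ (∀ b ∈ S, GAME_H k b Q') ∧
      ∀ C ∈ Q', GAME_R1 k c ε e S C := by
  obtain ⟨Q1, s1, c', sc, p1, h1, dc⟩ := hGP1 k Q c pQ h ε ε0
  by_cases he : e = 0
  · refine ⟨Q1, s1, p1, {.inl c'}, finite_singleton _, ?_, fun C _ =>
      ⟨⟨c', sc, rfl, dc⟩, fun n => (n he).elim⟩⟩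
    rintro b rfl
    exact h1
  obtain ⟨Q2, s2, p2, h2⟩ := hGPAS k Q1 c p1 (h.mono s1) e he ε ε0
  obtain ⟨Q3, s3, p3, h3⟩ := hGACT k Q2 c p2 (h.mono (s2.trans s1)) e he ε ε0 ε ε0
  rcases h3 with h3 | ⟨v, s, s0, sε, ht, hg⟩
  · refine ⟨Q3, (s3.trans s2).trans s1, p3, {.inl c'}, finite_singleton _, ?_, fun C hC =>
      ⟨⟨c', sc, rfl, dc⟩, fun _ => ⟨h2 C (s3 hC), Or.inl (h3 C hC)⟩⟩⟩
    rintro b rfl
    exact h1.mono (s3.trans s2)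
  · refine ⟨Q3, (s3.trans s2).trans s1, p3, {.inl c', .inr v}, (finite_singleton _).insert _, ?_,
      fun C hC => ⟨⟨c', sc, Or.inl rfl, dc⟩, fun _ =>
        ⟨h2 C (s3 hC), Or.inr ⟨v, s, Or.inr rfl, s0, sε, hg C hC⟩⟩⟩⟩
    rintro b (rfl | rfl)
    · exact h1.mono (s3.trans s2)
    · exact ht

lemma GAME_step2 (hGHVS : S_GHVS) (hGSEPN : S_GSEPN) (k : Kx) {Q : Set P} {v : Set Dat}
    (h : HT k v Q) (m : ℕ) :
    ∃ Q' ⊆ Q, Pc k Q' ∧ ∃ S : Set (Set (P × ℝ) ⊕ Set Dat), S.Finite ∧ (∀ b ∈ S, GAME_H k b Q') ∧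
      ∀ C ∈ Q', GAME_R2 v m S C := by
  obtain ⟨w, s1, Q1, s2, hw, dw, -⟩ := hGHVS k v Q h.hv _ (GAME_eps_pos m)
  obtain ⟨Q2, s3, p2, u, hu, sep⟩ := hGSEPN k v Q1 (h.mono hw.pc s2) m
  refine ⟨Q2, s3.trans s2, p2, insert (.inr w) (range fun i => .inr (u i)),
    (finite_range _).insert _, ?_, fun C hC => ⟨⟨w, s1, Or.inl rfl, dw⟩, u,
      fun i => ⟨Or.inr ⟨i, rfl⟩, (hu i).1⟩, sep C hC⟩⟩
  rintro b (rfl | ⟨i, rfl⟩)
  · exact h.sub s1 (s3.trans s2) (hw.mono p2 s3)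
  · exact (hu i).2

lemma GAME_ne {k : Kx} {Q : Set P} {c : Set (P × ℝ)} (pQ : Pc k Q) (h : Pers k Q c) :
    c.Nonempty := by
  obtain ⟨Q0, -, QQ, U, v, st, hc, -⟩ := h.av Q subset_rfl pQ ∅ finite_empty (by simp) 1 one_pos
  obtain ⟨D, m⟩ := st.nonempty
  exact ⟨_, hc D m⟩

/-- a chain of small cells has a common point -/
lemma GAME_chain {A : Set (Set (P × ℝ))} (hA : ∀ c ∈ A, IsCompact c ∧ c.Nonempty)
    (st : ∀ c ∈ A, ∀ n, ∃ c' ∈ A, c' ⊆ c ∧ ∀ p ∈ c', ∀ q ∈ c', dist p q ≤ GAME_eps n)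
    {c0 : Set (P × ℝ)} (h0 : c0 ∈ A) :
    ∃ z ∈ c0, ∀ n, ∃ c ∈ A, ∀ p ∈ c, dist p z ≤ GAME_eps n := by
  choose! f hf using st
  let t : ℕ → Set (P × ℝ) := fun n => Nat.rec c0 (fun n c => f c n) n
  have tA : ∀ n, t n ∈ A := fun n => by
    induction n with
    | zero => exact h0
    | succ n ih => exact (hf _ ih n).1
  obtain ⟨z, hz⟩ := IsCompact.nonempty_iInter_of_sequence_nonempty_isCompact_isClosed t
    (fun n => (hf _ (tA n) n).2.1) (fun n => (hA _ (tA n)).2) (hA _ h0).1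
    fun n => (hA _ (tA n)).1.isClosed
  rw [mem_iInter] at hz
  exact ⟨z, hz 0, fun n => ⟨t (n + 1), tA (n + 1), fun p hp => (hf _ (tA n) n).2.2 p hp z (hz (n + 1))⟩⟩

/-- choice of the index for a unit vector -/
lemma GAME_idx {G : P → ℝ} (hG : IsN G) {X : P} (hX : G X = 1) {ε : ℝ} (ε0 : 0 < ε) {V : Set P}
    (hV : V ∈ 𝓝 X) : ∃ n i, GAME_dir i ≠ 0 ∧ ball (GAME_dir i) (GAME_eps n) ⊆ V ∧
      2 * GAME_eps n ≤ ε ∧ ‖(G (GAME_dir i))⁻¹ • GAME_dir i - X‖ ≤ ε / 2 := by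
  have X0 : X ≠ 0 := fun e => by rw [e, hG.zero] at hX; exact zero_ne_one hX
  have c : ContinuousAt (fun e : P => (G e)⁻¹ • e) X :=
    (hG.cont.continuousAt.inv₀ (by rw [hX]; exact one_ne_zero)).smul continuousAt_id
  have e1 : ∀ᶠ e in 𝓝 X, ‖(G e)⁻¹ • e - X‖ ≤ ε / 2 := by
    have := c.eventually (closedBall_mem_nhds _ (half_pos ε0))
    simp only [hX, inv_one, one_smul, dist_eq_norm] at this
    exact this
  obtain ⟨ρ, ρ0, hρ⟩ := Metric.mem_nhds_iff.1 hV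
  obtain ⟨n, hn⟩ := GAME_small (lt_min (half_pos ρ0) (half_pos ε0))
  obtain ⟨e, ⟨i, rfl⟩, h1, h2, h3⟩ := (TopologicalSpace.denseRange_denseSeq P).inter_nhds_nonempty
    (e1.and ((eventually_ne_nhds X0).and (ball_mem_nhds X (half_pos ρ0))))
  rw [lt_min_iff] at hn
  refine ⟨n, i, h2, fun y hy => hρ ?_, by linarith [hn.2], h1⟩
  have h4 : dist (GAME_dir i) X < ρ / 2 := h3
  rw [mem_ball] at hy ⊢
  linarith [dist_triangle y (GAME_dir i) X, hn.1]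

lemma GAME_geo {k : Kx} {C X e : P} {c : Set (P × ℝ)} {z : P × ℝ} {ε η s : ℝ} {D : Dat}
    (h : Geo' k C c e η s D) (hc : ∀ p ∈ c, dist p z ≤ η) (η0 : 0 < η) (h1 : 2 * η ≤ ε)
    (h2 : ‖(k.F C e)⁻¹ • e - X‖ ≤ ε / 2) : Geo C z.1 X z.2 ε s D := by
  obtain ⟨a, ⟨p, m, b1, b2, -⟩, l1, r1⟩ := h
  have d := hc p m
  rw [Prod.dist_eq, max_le_iff, dist_eq_norm, Real.dist_eq] at d
  refine ⟨?_, ?_, by linarith, by linarith, ?_⟩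
  · linarith [norm_sub_le_norm_sub_add_norm_sub (s⁻¹ • (C - dO D)) ((k.F C e)⁻¹ • e) X]
  · linarith [norm_sub_le_norm_sub_add_norm_sub (s⁻¹ • (dB D - dO D)) p.1 z.1, d.1]
  · linarith [abs_sub_le (piD D) p.2 z.2, d.2]

theorem p_GAME (hGST0 : S_GST0) (hGP1 : S_GP1) (hGPAS : S_GPAS) (hGACT : S_GACT) (hGHVS : S_GHVS) (hGSEPN : S_GSEPN) :
    S_GAME := by
  intro k h0
  obtain ⟨c0, sc0, P0⟩ := hGST0 k
  obtain ⟨C, hC, AA, a0, hH, hR⟩ := absGame (Pc k) (GAME_H k) (GAME_R k)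
    (fun Q h => ⟨h.cpt, h.nonempty⟩)
    (fun a Q Q' h p s => by
      cases a with
      | inl c => exact Pers.mono h s
      | inr v => exact HT.mono h p s)
    (fun Q a j p h => by
      cases a with
      | inl c => exact GAME_step1 hGP1 hGPAS hGACT k p h (GAME_eps_pos _) _
      | inr v => exact GAME_step2 hGHVS hGSEPN k h j)
    (.inl c0) k.K (pcK k h0) P0
  have R1 : ∀ c, Sum.inl c ∈ AA → ∀ n i, ∃ S ⊆ AA, GAME_R1 k c (GAME_eps n) (GAME_dir i) S C :=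
    fun c m n i => by
      have := hR _ m (Nat.pair n i)
      simpa only [GAME_R, Nat.unpair_pair] using this
  obtain ⟨z, z0, hz⟩ := GAME_chain (A := {c | Sum.inl c ∈ AA})
    (fun c m => by
      obtain ⟨Q, -, p, -, h⟩ := hH _ m
      exact ⟨Pers.cpt h, GAME_ne p h⟩)
    (fun c m n => by
      obtain ⟨S, s, ⟨c', a, b, d⟩, -⟩ := R1 c m n 0
      exact ⟨c', s b, a, d⟩) a0
  have hG := k.isN C hC
  have HT' : ∀ v, Sum.inr v ∈ AA → ∃ Q, C ∈ Q ∧ HT k v Q := fun v m => by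
    obtain ⟨Q, -, -, a, h⟩ := hH _ m
    exact ⟨Q, a, h⟩
  refine ⟨C, hC, z.1, z.2, {v | Sum.inr v ∈ AA}, k.pm, k.ud.sub hC, hG, ?_, ?_, (sc0 z0).2.1,
    (sc0 z0).2.2, ⟨fun v m => ?_, fun v m D hD => ?_, fun v m => ?_, fun v m δ δ0 => ?_,
      fun v m n => ?_⟩, fun X hX hs ε ε0 => ?_, fun X hX ε ε0 => ?_⟩
  · obtain ⟨K, K0, hK⟩ := hG.upper
    obtain ⟨i, hi⟩ : ∃ i, GAME_dir i ≠ 0 := by
      obtain ⟨e, ⟨i, rfl⟩, h⟩ := (TopologicalSpace.denseRange_denseSeq P).inter_nhds_nonempty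
        (eventually_ne_nhds (show ((1, 0) : P) ≠ 0 by simp))
      exact ⟨i, h⟩
    rw [← sub_eq_zero, ← abs_nonpos_iff]
    refine le_of_forall_pos_le_add fun δ δ0 => ?_
    obtain ⟨n, hn⟩ := GAME_small (div_pos δ0 (show 0 < K + 1 by linarith))
    obtain ⟨c, m, hc⟩ := hz n
    obtain ⟨S, -, -, h⟩ := R1 c m n i
    obtain ⟨⟨D, s, -, -, -, -, ⟨p, mp, -, -, b⟩, -⟩, -⟩ := h hi
    have d := hc p mp
    rw [Prod.dist_eq, max_le_iff, dist_eq_norm] at d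
    have e1 := (hG.sub_le p.1 z.1).trans (hK _)
    have e2 := hG.sub_le z.1 p.1
    rw [hG.sub_comm] at e2
    have e3 := e2.trans (hK _)
    have e4 : K * ‖p.1 - z.1‖ ≤ K * GAME_eps n := mul_le_mul_of_nonneg_left d.1 K0.le
    rw [lt_div_iff₀ (by linarith)] at hn
    rw [abs_le] at b ⊢
    constructor <;> nlinarith [b.1, b.2]
  · intro ε ε0
    obtain ⟨δ, δ0, h⟩ := k.ud.unif ε ε0
    exact ⟨δ, δ0, h C hC⟩
  · obtain ⟨Q, -, h⟩ := HT' v m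
    exact h.hv.good.cpt
  · obtain ⟨Q, -, h⟩ := HT' v m
    have g := h.hv.good
    exact ⟨g.l0 D hD, g.l1 D hD, g.r0 D hD, g.r1 D hD⟩
  · obtain ⟨Q, a, h⟩ := HT' v m
    exact h.hv.val_at a
  · obtain ⟨n, hn⟩ := GAME_small δ0
    obtain ⟨S, s, ⟨w, a, b, d⟩, -⟩ := hR _ m n
    exact ⟨w, s b, a, fun D m D' m' => (d D m D' m').trans hn.le⟩
  · obtain ⟨S, s, -, w, a, b⟩ := hR _ m n
    exact ⟨w, fun i => ⟨s (a i).1, (a i).2⟩, b⟩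
  · obtain ⟨n, i, e0, sV, h1, h2⟩ := GAME_idx hG hX ε0 hs
    obtain ⟨c, m, hc⟩ := hz n
    obtain ⟨S, sS, -, h⟩ := R1 c m n i
    rcases (h e0).2 with ⟨Y, a, b⟩ | ⟨v, s, a, s0, s1, b⟩
    · exact (b (sV a)).elim
    · exact ⟨v, sS a, s, s0, by linarith [GAME_eps_pos n], fun D hD =>
        GAME_geo (b D hD) hc (GAME_eps_pos n) h1 h2⟩
  · obtain ⟨n, i, e0, -, h1, h2⟩ := GAME_idx hG hX ε0 univ_mem
    obtain ⟨c, m, hc⟩ := hz n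
    obtain ⟨S, -, -, h⟩ := R1 c m n i
    obtain ⟨D, s, s0, s1, a, b⟩ := (h e0).1
    exact ⟨D, s, s0, by linarith [GAME_eps_pos n], a, GAME_geo b hc (GAME_eps_pos n) h1 h2⟩

end Pool.Agent.P.MP_874adf_gt.Gn
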