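import Pool.Agent.P.MP_874adf_gt.Gn.Iface0

/-! Step GAP. -/

set_option autoImplicit false

namespace Pool.Agent.P.MP_874adf_gt.Gn

open Pool.Agent.P.MP_874adf_gt.Fs Set Filter Topology Metric MeasureTheory

namespace GAPaux

lemma conv {G : P → ℝ} (h : IsN G) : ConvexOn ℝ univ (ln G) := by
  refine ⟨convex_univ, fun x _ y _ a b a0 b0 ab => ?_⟩
  have e : ((a • x + b • y, 1) : P) = a • ((x, 1) : P) + b • ((y, 1) : P) := by
    ext <;> simp [ab]
  simp only [ln]
  rw [e]
  have := h.add (a • ((x, 1) : P)) (b • ((y, 1) : P))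
  rw [h.smul_nonneg a0, h.smul_nonneg b0] at this
  simpa using this

lemma hor {G : P → ℝ} (h : IsN G) (h1 : G (1, 0) = 1) (t : ℝ) : G (t, 0) = |t| := by
  have := h.smul t (1, 0)
  simpa [h1] using this

lemma lip {G : P → ℝ} (h : IsN G) (h1 : G (1, 0) = 1) (s t : ℝ) : ln G t - ln G s ≤ |t - s| := by
  have := h.sub_le (t, 1) (s, 1)
  rw [← hor h h1]
  simpa [ln] using this

lemma big {G : P → ℝ} (h : IsN G) (h1 : G (1, 0) = 1) (t : ℝ) : |t| - ln G 0 ≤ ln G t := by
  have a := h.add (t, 1) (-(0, 1))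
  rw [h.neg] at a
  have e : ((t, 1) : P) + -(0, 1) = (t, 0) := by ext <;> simp
  rw [e, hor h h1] at a
  simp only [ln]
  linarith

lemma pos {G : P → ℝ} (h : IsN G) (t : ℝ) : 0 < ln G t := h.pos _ (by simp)

/-- three points: a convex function lies below its chords -/
lemma chord {n : ℝ → ℝ} (h : ConvexOn ℝ univ n) {x m y : ℝ} (h1 : x < m) (h2 : m < y) :
    (y - x) * n m ≤ (y - m) * n x + (m - x) * n y :=
  h.secant_mono_aux1 (mem_univ _) (mem_univ _) h1 h2

lemma support {n : ℝ → ℝ} (h : ConvexOn ℝ univ n) {a b c e : ℝ} (ab : a < b)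
    (hn : ∀ t ∈ Icc a b, n t = c * t + e) (t : ℝ) : c * t + e ≤ n t := by
  have ha := hn a ⟨le_rfl, ab.le⟩
  have hb := hn b ⟨ab.le, le_rfl⟩
  rcases lt_or_ge t a with h1 | h1
  · have := chord h h1 ab
    rw [ha, hb] at this
    have e1 : (b - a) * (c * t + e) ≤ (b - a) * n t := by nlinarith
    exact le_of_mul_le_mul_left e1 (sub_pos.2 ab)
  rcases le_or_gt t b with h2 | h2
  · exact (hn t ⟨h1, h2⟩).ge
  · have := chord h ab h2
    rw [ha, hb] at this
    have e1 : (b - a) * (c * t + e) ≤ (b - a) * n t := by nlinarith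
    exact le_of_mul_le_mul_left e1 (sub_pos.2 ab)

lemma strict {n : ℝ → ℝ} (h : ConvexOn ℝ univ n) {s : Set ℝ} (hs : Convex ℝ s)
    (no : ∀ x ∈ s, ∀ y ∈ s, x < y → ∀ c e : ℝ, ¬ ∀ t ∈ Icc x y, n t = c * t + e) :
    StrictConvexOn ℝ s n := by
  refine LinearOrder.strictConvexOn_of_lt hs fun x hx y hy xy a b a0 b0 ab => ?_
  by_contra hc
  rw [not_lt] at hc
  simp only [smul_eq_mul] at hc
  have d0 : 0 < y - x := sub_pos.2 xy
  set m := a * x + b * y with hm
  have ea : a = 1 - b := by linarith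
  have m1 : m - x = b * (y - x) := by rw [hm, ea]; ring
  have m2 : y - m = a * (y - x) := by rw [hm, ea]; ring
  have xm : x < m := by nlinarith
  have my : m < y := by nlinarith
  obtain ⟨c, hcd⟩ : ∃ c, n y - n x = c * (y - x) := ⟨(n y - n x) / (y - x), by field_simp⟩
  have low : n x + c * (m - x) ≤ n m := by
    rw [m1]
    have : n y = n x + c * (y - x) := by linarith
    rw [this, ea] at hc
    nlinarith
  refine no x hx y hy xy c (n x - c * x) fun t ht => ?_
  have ny : n y = n x + c * (y - x) := by linarith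
  rcases ht.1.eq_or_lt with rfl | h1
  · ring
  rcases ht.2.eq_or_lt with rfl | h2
  · linarith
  apply le_antisymm
  · have := chord h h1 h2
    rw [ny] at this
    have e1 : (y - x) * n t ≤ (y - x) * (c * t + (n x - c * x)) := by nlinarith
    exact le_of_mul_le_mul_left e1 d0
  · rcases lt_trichotomy t m with h3 | h3 | h3
    · have := chord h h3 my
      rw [ny] at this
      have e0 : (y - t) * (n x + c * (m - x)) ≤ (y - t) * n m :=
        mul_le_mul_of_nonneg_left low (by linarith)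
      have e1 : (y - m) * (c * t + (n x - c * x)) ≤ (y - m) * n t := by nlinarith
      exact le_of_mul_le_mul_left e1 (by linarith)
    · rw [h3]; linarith
    · have := chord h xm h3
      have e0 : (t - x) * (n x + c * (m - x)) ≤ (t - x) * n m :=
        mul_le_mul_of_nonneg_left low (by linarith)
      have e1 : (m - x) * (c * t + (n x - c * x)) ≤ (m - x) * n t := by nlinarith
      exact le_of_mul_le_mul_left e1 (by linarith)

/-- no affine piece left of the cone -/
lemma core {n : ℝ → ℝ} (h : ConvexOn ℝ univ n) (hp : ∀ t, 0 < n t)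
    (hl : ∀ s t, n t - n s ≤ |t - s|) (hb : ∀ t, |t| - n 0 ≤ n t)
    (K : ∀ a b c e : ℝ, (∀ t ∈ Icc a b, n t = c * t + e) → ∀ ζ, a < ζ - n ζ → ζ - n ζ < b →
      n ζ = c * ζ + e)
    {x y z : ℝ} (xy : x < y) (hz : y < z - n z) (c e : ℝ) : ¬ ∀ t ∈ Icc x y, n t = c * t + e := by
  intro hn
  have cn : Continuous n := by
    refine (LipschitzWith.of_dist_le' (K := 1) fun s t => ?_).continuous
    rw [Real.dist_eq, Real.dist_eq, one_mul, abs_le]
    have a1 := hl s t
    have a2 := hl t s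
    rw [abs_sub_comm] at a1
    constructor <;> linarith
  have cx : Continuous fun t => t - n t := continuous_id.sub cn
  have sup := support h xy hn
  have hx := hn x ⟨le_rfl, xy.le⟩
  have fill : ∀ b, n b = c * b + e → ∀ t ∈ Icc x b, n t = c * t + e := by
    intro b hb t ht
    rcases ht.1.eq_or_lt with rfl | h1
    · exact hx
    rcases ht.2.eq_or_lt with rfl | h2
    · exact hb
    refine le_antisymm ?_ (sup t)
    have := chord h h1 h2
    rw [hx, hb] at this
    have e1 : (b - x) * n t ≤ (b - x) * (c * t + e) := by nlinarith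
    exact le_of_mul_le_mul_left e1 (by linarith)
  set S : Set ℝ := {t | n t = c * t + e} with hS
  have cS : IsClosed S := isClosed_eq cn (by fun_prop)
  have yS : y ∈ S := hn y ⟨xy.le, le_rfl⟩
  have unb : ¬ BddAbove S := by
    intro bd
    have bS : sSup S ∈ S := cS.csSup_mem ⟨y, yS⟩ bd
    have yb : y ≤ sSup S := le_csSup bd yS
    have ex : ∃ ζ, sSup S < ζ ∧ x < ζ - n ζ ∧ ζ - n ζ < sSup S := by
      rcases lt_or_ge x (sSup S - n (sSup S)) with h1 | h1
      · have e1 : ∀ᶠ ζ in 𝓝 (sSup S), ζ - n ζ ∈ Ioo x (sSup S) :=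
          (cx.tendsto _).eventually (Ioo_mem_nhds h1 (by linarith [hp (sSup S)]))
        obtain ⟨ζ, a1, a2⟩ := ((e1.filter_mono nhdsWithin_le_nhds).and
          (self_mem_nhdsWithin (s := Ioi (sSup S)))).exists
        exact ⟨ζ, a2, a1.1, a1.2⟩
      · have zb : sSup S ≤ z := by
          by_contra hc
          rw [not_le] at hc
          have := hl z (sSup S)
          rw [abs_of_pos (sub_pos.2 hc)] at this
          linarith
        obtain ⟨ζ, a1, a2⟩ := intermediate_value_Icc zb cx.continuousOn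
          (show (x + y) / 2 ∈ Icc (sSup S - n (sSup S)) (z - n z) from ⟨by linarith, by linarith⟩)
        simp only at a2
        refine ⟨ζ, lt_of_le_of_ne a1.1 ?_, by linarith, by linarith⟩
        intro e1
        rw [← e1] at a2
        linarith
    obtain ⟨ζ, a1, a2, a3⟩ := ex
    exact absurd (le_csSup bd (K x (sSup S) c e (fill _ bS) ζ a2 a3)) (not_le.2 a1)
  have all : ∀ t, x ≤ t → n t = c * t + e := by
    intro t ht
    obtain ⟨b, b1, b2⟩ := not_bddAbove_iff.1 unb t
    exact fill b b1 t ⟨ht, b2.le⟩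
  have c1 : 1 ≤ c := by
    by_contra hc
    rw [not_le] at hc
    have c0 : 0 < 1 - c := sub_pos.2 hc
    obtain ⟨t, t1, t2⟩ : ∃ t, x ≤ t ∧ (e + n 0) / (1 - c) < t :=
      ⟨max x ((e + n 0) / (1 - c) + 1), le_max_left _ _,
        lt_of_lt_of_le (lt_add_one _) (le_max_right _ _)⟩
    rw [div_lt_iff₀ c0] at t2
    have a1 := hb t
    have a2 := le_abs_self t
    rw [all t t1] at a1
    nlinarith
  rcases le_or_gt x z with h1 | h1
  · have a1 := all z h1
    have a2 := hp x
    nlinarith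
  · linarith [hp z]

lemma flat {G : P → ℝ} (h : IsN G) {a b c e t : ℝ} (hn : ∀ t ∈ Icc a b, ln G t = c * t + e)
    (ht : t ∈ Ioo a b) (w : P) :
    ∃ β > (0 : ℝ), G (β • (t, 1) + w) - G (β • (t, 1)) = c * w.1 + e * w.2 := by
  have c1 : ContinuousAt (fun s : ℝ => (t + s * w.1) / (1 + s * w.2)) 0 :=
    ContinuousAt.div (by fun_prop) (by fun_prop) (by simp)
  have e1 : ∀ᶠ s : ℝ in 𝓝 0, (t + s * w.1) / (1 + s * w.2) ∈ Ioo a b :=
    c1.eventually (Ioo_mem_nhds (by simpa using ht.1) (by simpa using ht.2))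
  have c2 : ContinuousAt (fun s : ℝ => 1 + s * w.2) 0 := by fun_prop
  have e2 : ∀ᶠ s : ℝ in 𝓝 0, 0 < 1 + s * w.2 := c2.eventually (lt_mem_nhds (by simp))
  obtain ⟨s, ⟨s1, s2⟩, s0⟩ := (((e1.and e2).filter_mono nhdsWithin_le_nhds).and
    (self_mem_nhdsWithin (s := Ioi (0 : ℝ)))).exists
  have s0' : 0 < s := s0
  refine ⟨s⁻¹, inv_pos.2 s0', ?_⟩
  have e3 : s⁻¹ • ((t, 1) : P) + w =
      (s⁻¹ * (1 + s * w.2)) • (((t + s * w.1) / (1 + s * w.2), 1) : P) := by
    ext
    · simp only [Prod.fst_add, Prod.smul_fst, smul_eq_mul]; field_simp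
    · simp only [Prod.snd_add, Prod.smul_snd, smul_eq_mul]; field_simp
  rw [e3, h.smul_nonneg (by positivity), h.smul_nonneg (by positivity)]
  have a1 := hn _ (Ioo_subset_Icc_self s1)
  have a2 := hn _ (Ioo_subset_Icc_self ht)
  simp only [ln] at a1 a2
  rw [a1, a2]
  field_simp
  ring

lemma step {G : P → ℝ} (h : IsN G) {a b c e tO tA tB r : ℝ}
    (hn : ∀ t ∈ Icc a b, ln G t = c * t + e) (hA : tA ∈ Ioo a b) (hB : tB ∈ Ioo a b) (r1 : r < 1)
    (R : Rv G (tO, 1) (tA, 1) (tB, 1) r) : ln G tO = c * tO + e := by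
  refine le_antisymm ?_ (support (conv h) (hA.1.trans hA.2) hn tO)
  by_contra hc
  rw [not_le] at hc
  obtain ⟨v, v0, v1, v2⟩ : ∃ v, 0 < v ∧ c * tO + e < v ∧ v < ln G tO := by
    obtain ⟨v, a1, a2⟩ := exists_between (max_lt (pos h tO) hc)
    exact ⟨v, (le_max_left _ _).trans_lt a1, (le_max_right _ _).trans_lt a1, a2⟩
  have pA := pos h tA
  have eA := hn tA (Ioo_subset_Icc_self hA)
  set w : P := (tO, 1) - (v / ln G tA) • (tA, 1) with hw
  obtain ⟨β, β0, e1⟩ := flat h hn hA w
  obtain ⟨γ, γ0, e2⟩ := flat h hn hB (-w)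
  have k := R w 1 one_pos (by
    rw [one_smul, hw, sub_sub_cancel, h.smul_nonneg (by positivity)]
    have : v / ln G tA * G (tA, 1) = v := div_mul_cancel₀ v pA.ne'
    rw [this]
    exact v2) β β0 γ γ0
  rw [sub_eq_add_neg (γ • ((tB, 1) : P)), e1, e2] at k
  have e3 : c * w.1 + e * w.2 = c * tO + e - v := by
    have : v / ln G tA * (c * tA + e) = v := by rw [← eA]; exact div_mul_cancel₀ v pA.ne'
    simp only [hw, Prod.fst_sub, Prod.snd_sub, Prod.smul_fst, Prod.smul_snd, smul_eq_mul]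
    linarith
  have e4 : c * (-w).1 + e * (-w).2 = -(c * tO + e - v) := by
    rw [← e3]; simp only [Prod.fst_neg, Prod.snd_neg]; ring
  rw [e3, e4] at k
  nlinarith

lemma key {G : P → ℝ} (h : IsN G) (h1 : G (1, 0) = 1) {π σ ζ a b c e : ℝ}
    (R : Rel G (ln G) π σ ζ) (hn : ∀ t ∈ Icc a b, ln G t = c * t + e)
    (ha : a < fx (ln G) σ ζ) (hb : fx (ln G) σ ζ < b) : ln G ζ = c * ζ + e := by
  rw [← sub_eq_zero, ← abs_nonpos_iff]
  refine le_of_forall_pos_le_add fun ε ε0 => ?_
  have c0 : 0 < 1 + |c| := by positivity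
  obtain ⟨η, η0, η1, η2, η3⟩ : ∃ η > (0 : ℝ), η ≤ ε / (1 + |c|) ∧ η < fx (ln G) σ ζ - a ∧
      η < b - fx (ln G) σ ζ := by
    refine ⟨min (ε / (1 + |c|)) (min ((fx (ln G) σ ζ - a) / 2) ((b - fx (ln G) σ ζ) / 2)),
      lt_min (by positivity) (lt_min (by linarith) (by linarith)), min_le_left _ _, ?_, ?_⟩
    · exact ((min_le_right _ _).trans (min_le_left _ _)).trans_lt (by linarith)
    · exact ((min_le_right _ _).trans (min_le_right _ _)).trans_lt (by linarith)
  obtain ⟨tO, tA, tB, r, ⟨a1, a2, a3, -, -, r1, -⟩, R1⟩ := R η η0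
  have k := step h hn (tA := tA) (tB := tB)
    ⟨by linarith [(abs_le.1 a2).1], by linarith [(abs_le.1 a2).2]⟩
    ⟨by linarith [(abs_le.1 a3).1], by linarith [(abs_le.1 a3).2]⟩ r1 R1
  have l1 := lip h h1 tO ζ
  have l2 := lip h h1 ζ tO
  rw [abs_sub_comm] at l1
  have l3 : |c * (tO - ζ)| ≤ |c| * η := by
    rw [abs_mul]; exact mul_le_mul_of_nonneg_left a1 (abs_nonneg c)
  rw [le_div_iff₀ c0] at η1
  rw [abs_le] at l3 ⊢
  constructor <;> nlinarith [l3.1, l3.2]

end GAPaux

theorem p_GAP :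
    S_GAP := by
  intro G π h h1 R
  have cv := GAPaux.conv h
  constructor
  · refine GAPaux.strict cv ?_ ?_
    · refine OrdConnected.convex ⟨fun x _ y hy t ht => ?_⟩
      obtain ⟨z, hz⟩ := hy
      exact ⟨z, by linarith [ht.2]⟩
    · rintro x - y ⟨z, hz⟩ xy c e
      refine GAPaux.core (z := z) cv (GAPaux.pos h) (GAPaux.lip h h1) (GAPaux.big h h1) ?_ xy
        (by simpa [fx] using hz) c e
      intro a b c e hn ζ h2 h3
      exact GAPaux.key h h1 (R 1 (Or.inl rfl) ζ) hn (by simpa [fx] using h2)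
        (by simpa [fx] using h3)
  · refine GAPaux.strict cv ?_ ?_
    · refine OrdConnected.convex ⟨fun x hx y _ t ht => ?_⟩
      obtain ⟨z, hz⟩ := hx
      exact ⟨z, by linarith [ht.1]⟩
    · rintro x ⟨z, hz⟩ y - xy c e hn
      have cv' : ConvexOn ℝ univ fun t => ln G (-t) := by
        refine ⟨convex_univ, fun p _ q _ a b a0 b0 ab => ?_⟩
        have := cv.2 (mem_univ (-p)) (mem_univ (-q)) a0 b0 ab
        simp only [smul_eq_mul] at this ⊢
        rwa [show -(a * p + b * q) = a * -p + b * -q by ring]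
      refine GAPaux.core (x := -y) (y := -x) (z := -z) cv' (fun t => GAPaux.pos h _) ?_ ?_ ?_
        (by linarith) ?_ (-c) e ?_
      · intro s t
        have := GAPaux.lip h h1 (-s) (-t)
        rwa [show -t - -s = -(t - s) by ring, abs_neg] at this
      · intro t
        have := GAPaux.big h h1 (-t)
        rwa [abs_neg, ← neg_zero] at this
      · intro a b c e hn ζ h2 h3
        have := GAPaux.key h h1 (R (-1) (Or.inr rfl) (-ζ)) (a := -b) (b := -a) (c := -c) (e := e)
          (fun t ht => by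
            have := hn (-t) ⟨by linarith [ht.2], by linarith [ht.1]⟩
            simp only [neg_neg] at this
            rw [this]; ring)
          (by simp only [fx]; linarith) (by simp only [fx]; linarith)
        rw [this]; ring
      · simp only [fx] at hz
        rw [neg_neg]; linarith
      · intro t ht
        have := hn (-t) ⟨by linarith [ht.2], by linarith [ht.1]⟩
        rw [this]; ring

end Pool.Agent.P.MP_874adf_gt.Gn
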