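import Pool.Agent.P.MP_874adf_gt.Gn.IfaceGa
import Pool.Agent.P.MP_874adf_gt.Gn.GaBase

/-! Step GAWAY. -/

set_option autoImplicit false

namespace Pool.Agent.P.MP_874adf_gt.Gn

open Pool.Agent.P.MP_874adf_gt.Fs Ga Set Filter Topology Metric MeasureTheory

theorem p_GAWAY (hGHVS : S_GHVS) :
    S_GAWAY := by
  intro k v Q h
  have g := h.good
  have c1 : ContinuousOn (fun p : Dat × P => rad k p.1) (v ×ˢ k.K) :=
    g.cont_rad.comp continuous_fst.continuousOn fun p m => m.1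
  have c2 : ContinuousOn (fun p : Dat × P => k.d (dO p.1) p.2) (v ×ˢ k.K) :=
    k.pm.cont.comp (f := fun p : Dat × P => (dO p.1, p.2))
      ((contO.comp continuous_fst).prodMk continuous_snd).continuousOn
      fun p m => ⟨g.mOM m.1, k.ud.sub m.2⟩
  have c3 : ContinuousOn (fun p : Dat × P => k.d (dO p.1) (dA p.1)) (v ×ˢ k.K) :=
    k.pm.cont.comp (f := fun p : Dat × P => (dO p.1, dA p.1))
      ((contO.comp continuous_fst).prodMk (contA.comp continuous_fst)).continuousOn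
      fun p m => ⟨g.mOM m.1, g.mA m.1⟩
  have cp : IsCompact (v ×ˢ k.K) := g.cpt.prod k.ud.cpt
  have cZ : IsCompact (v ×ˢ k.K ∩ (fun p : Dat × P => (k.d (dO p.1) p.2 - rad k p.1,
      k.d (dO p.1) (dA p.1) - dr p.1 * rad k p.1)) ⁻¹' {0}) :=
    cp.of_isClosed_subset (ContinuousOn.preimage_isClosed_of_isClosed ((c2.sub c1).prodMk
      (c3.sub ((contr.comp continuous_fst).continuousOn.mul c1))) cp.isClosed isClosed_singleton)
      inter_subset_left
  have oW : IsOpen {p : Dat × P | dO p.1 ≠ p.2 ∧ dA p.1 ≠ p.2 ∧ dB p.1 ≠ p.2} :=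
    (isOpen_ne_fun (contO.comp continuous_fst) continuous_snd).inter
      ((isOpen_ne_fun (contA.comp continuous_fst) continuous_snd).inter
        (isOpen_ne_fun (contB.comp continuous_fst) continuous_snd))
  obtain ⟨δ, δ0, hδ⟩ := cZ.exists_thickening_subset_open oW (by
    rintro ⟨D, y⟩ ⟨⟨m, -⟩, e⟩
    obtain ⟨e1, e2⟩ := Prod.mk_eq_zero.1 (mem_singleton_iff.1 e)
    have r0 := g.rad_pos m
    have r1 := g.r1 D m
    have r2 : rad k D = dr D * k.d (dO D) (dB D) := rfl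
    refine ⟨fun e => ?_, fun e => ?_, fun e => ?_⟩
    · have := (k.pm.eq_zero _ (g.mOM m) _ (g.mOM m)).2 rfl
      rw [← show dO D = y from e] at e1
      linarith
    · rw [← show dA D = y from e] at e1
      nlinarith
    · rw [← show dB D = y from e] at e1
      have e3 : k.d (dO D) (dB D) = rad k D := by linarith
      rw [e3] at r2
      nlinarith)
  obtain ⟨w, sw, Q', sQ, hw, dw, dQ⟩ := hGHVS k v Q h (δ / 2) (half_pos δ0)
  obtain ⟨y0, hy0⟩ := hw.pc.nonempty
  obtain ⟨D0, m0, c0⟩ := hw.val hy0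
  have key : ∀ D ∈ w, ∀ y ∈ Q', dO D ≠ y ∧ dA D ≠ y ∧ dB D ≠ y := fun D m y hy =>
    hδ (a := (D, y)) (mem_thickening_iff.2 ⟨(D0, y0), ⟨⟨sw m0, hw.pc.sub hy0⟩, by
      simp only [mem_preimage, mem_singleton_iff, Prod.mk_eq_zero, rad_eq c0, c0.eA, sub_self,
        and_self]⟩, by
      rw [Prod.dist_eq]
      exact (max_le (dw D m D0 m0) (dQ y hy y0 hy0)).trans_lt (half_lt_self δ0)⟩)
  exact ⟨w, sw, Q', sQ, hw, fun D m hy => (key D m _ hy).1 rfl,
    fun D m hy => (key D m _ hy).2.1 rfl, fun D m hy => (key D m _ hy).2.2 rfl⟩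

end Pool.Agent.P.MP_874adf_gt.Gn
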