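import Pool.Agent.P.MP_874adf_gt.Gn.IfaceGa
import Pool.Agent.P.MP_874adf_gt.Gn.GaBase

/-! Step GBAIRE. -/

set_option autoImplicit false

namespace Pool.Agent.P.MP_874adf_gt.Gn

open Pool.Agent.P.MP_874adf_gt.Fs Ga Set Filter Topology Metric MeasureTheory

namespace GBAIREaux

lemma baire {k : Kx} {Q0 : Set P} {QQ : Set (Set P)} {U : Set (P × ℝ)} {ι : Type} [Countable ι]
    (v : ι → Set Dat) (f : Fr k Q0 QQ U) (g : ∀ n, Good k (v n))
    (h : ∀ p ∈ closure (Rich k Q0 QQ) ∩ U, ∃ n, Vd k (v n) p) :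
    ∃ n, ∃ U' ⊆ U, St k Q0 QQ U' (v n) := by
  obtain ⟨p0, hp0⟩ := f.ne
  obtain ⟨n0, -⟩ := h p0 ⟨subset_closure hp0.1, hp0.2⟩
  have : CompleteSpace (closure (Rich k Q0 QQ)) := isClosed_closure.completeSpace_coe
  have dn := dense_iUnion_interior_of_closed (X := closure (Rich k Q0 QQ))
    (f := fun n => Subtype.val ⁻¹' (closure {q | Vd k (v n) q} ∪ Uᶜ))
    (fun n => (isClosed_closure.union f.opn.isClosed_compl).preimage continuous_subtype_val) (by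
      rw [eq_univ_iff_forall]
      intro p
      by_cases hp : p.1 ∈ U
      · obtain ⟨n, hn⟩ := h p.1 ⟨p.2, hp⟩
        exact mem_iUnion.2 ⟨n, Or.inl (subset_closure hn)⟩
      · exact mem_iUnion.2 ⟨n0, Or.inr hp⟩)
  obtain ⟨x, hx, hxU⟩ := dn.exists_mem_open (f.opn.preimage continuous_subtype_val)
    ⟨⟨p0, subset_closure hp0.1⟩, hp0.2⟩
  obtain ⟨n, hn⟩ := mem_iUnion.1 hx
  obtain ⟨W, o, e⟩ := isOpen_induced_iff.1 (isOpen_interior (s := Subtype.val ⁻¹'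
    (closure {q | Vd k (v n) q} ∪ Uᶜ)) (X := closure (Rich k Q0 QQ)))
  have xW : x.1 ∈ W := by
    have : x ∈ Subtype.val ⁻¹' W := by rw [e]; exact hn
    exact this
  obtain ⟨y, hy⟩ := mem_closure_iff.1 x.2 _ (f.opn.inter o) ⟨hxU, xW⟩
  refine ⟨n, U ∩ W, inter_subset_left,
    f.shrink (f.opn.inter o) inter_subset_left ⟨y, hy.2, hy.1⟩, g n, fun p hp => ?_⟩
  have m : (⟨p, subset_closure hp.1⟩ : closure (Rich k Q0 QQ)) ∈ Subtype.val ⁻¹' W := hp.2.2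
  rw [e] at m
  rcases interior_subset m with m | m
  · exact (g n).clo (f.rng p hp.2.1).1 (f.rng p hp.2.1).2 m
  · exact absurd hp.2.1 m

lemma cover {k : Kx} {Q0 : Set P} {QQ : Set (Set P)} {U : Set (P × ℝ)} {v : Set Dat}
    (h : St k Q0 QQ U v) {ι : Type} [Countable ι] (c : ι → Set Dat) (hc : ∀ i, IsClosed (c i))
    (hv : v ⊆ ⋃ i, c i) : ∃ i, ∃ U' ⊆ U, St k Q0 QQ U' (v ∩ c i) := by
  refine baire (fun i => v ∩ c i) h.fr (fun i => h.good.inter (hc i)) fun p hp => ?_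
  obtain ⟨D, m, e⟩ := h.val_closure hp
  obtain ⟨i, hi⟩ := mem_iUnion.1 (hv m)
  exact ⟨i, D, ⟨m, hi⟩, e⟩

end GBAIREaux

theorem p_GBAIRE (hGCLO : S_GCLO) :
    S_GBAIRE := by
  intro k Q0 QQ U
  refine ⟨fun v f g h => GBAIREaux.baire v f g h, fun v h ι _ c hc hv => GBAIREaux.cover h c hc hv,
    fun v h δ δ0 => ?_⟩
  obtain ⟨t, -, fin, cov⟩ := finite_cover_balls_of_compact h.good.cpt (half_pos δ0)
  have := fin.to_subtype
  obtain ⟨i, U', s, st⟩ := GBAIREaux.cover h (fun i : t => closedBall i.1 (δ / 2))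
    (fun _ => isClosed_closedBall) fun D m => by
      obtain ⟨x, hx, b⟩ := mem_iUnion₂.1 (cov m)
      exact mem_iUnion.2 ⟨⟨x, hx⟩, ball_subset_closedBall b⟩
  refine ⟨_, inter_subset_left, U', s, st, fun D m D' m' => ?_⟩
  linarith [dist_triangle_right D D' i.1, mem_closedBall.1 m.2, mem_closedBall.1 m'.2]

end Pool.Agent.P.MP_874adf_gt.Gn
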