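import Pool.Agent.P.MP_874adf_gt.Gn.IfaceGa
import Pool.Agent.P.MP_874adf_gt.Gn.GaBase

/-! Step GCLO. -/

set_option autoImplicit false

namespace Pool.Agent.P.MP_874adf_gt.Gn

open Pool.Agent.P.MP_874adf_gt.Fs Ga Set Filter Topology Metric MeasureTheory

theorem p_GCLO :
    S_GCLO := by
  intro k v g D m a a0 a1 hp
  obtain ⟨q, hq, tq⟩ := mem_closure_iff_seq_limit.1 hp
  obtain ⟨D1, e1, c1⟩ := k.ex _ (g.mO D m) a a0 a1
  exact circ_lim k.pm ((continuous_fst.tendsto _).comp tq) ((continuous_snd.tendsto _).comp tq)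
    (Eventually.of_forall fun n => (hq n).2) (g.mOM m) (g.mB D m) a0 (g.l0 D m) (g.l1 D m)
    (g.r0 D m) (g.r1 D m) (e1 ▸ c1.ray)

end Pool.Agent.P.MP_874adf_gt.Gn
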