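import Pool.Agent.P.MP_874adf_gt.Gn.IfaceGa
import Pool.Agent.P.MP_874adf_gt.Gn.GaBase

/-! Step GCOV. -/

set_option autoImplicit false

namespace Pool.Agent.P.MP_874adf_gt.Gn

open Pool.Agent.P.MP_874adf_gt.Fs Ga Set Filter Topology Metric MeasureTheory

lemma gcov_near (k : Kx) {U : Set (P × ℝ)} (hU : IsOpen U) {O0 y0 : P} (hO : O0 ∈ k.M)
    (hy : y0 ∈ k.M) (hm : (O0, k.d O0 y0) ∈ U) :
    ∃ δ > (0 : ℝ), ∀ O ∈ ball O0 δ, ∀ y ∈ ball y0 δ, (O, k.d O y) ∈ U := by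
  have c : ContinuousAt (fun p : P × P => (p.1, k.d p.1 p.2)) (O0, y0) :=
    continuousAt_fst.prodMk (k.pm.contAt hO hy)
  obtain ⟨δ, δ0, hδ⟩ := Metric.mem_nhds_iff.1 (c.preimage_mem_nhds (hU.mem_nhds hm))
  refine ⟨δ, δ0, fun O a y b => hδ (a := (O, y)) ?_⟩
  rw [← ball_prod_same]
  exact ⟨a, b⟩

lemma gcov_first (hGTWO : S_GTWO) (hGFAMP : S_GFAMP) (k : Kx) (Q0 : Set P) (QQ : Set (Set P))
    (U : Set (P × ℝ)) (Y : Set P) (hY : Y ∈ QQ) (hsc : SCs k Q0 Y) (hF : Fr k Q0 QQ U) :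
    ∃ y2 ∈ Den Y, ∃ ρ > (0 : ℝ), ∃ c > (0 : ℝ), ∀ y ∈ ball y2 ρ, ∀ N : Set P,
      volume N < ENNReal.ofReal c → ∃ O, O ∉ N ∧ (O, k.d O y) ∈ Rich k Q0 QQ ∩ U := by
  obtain ⟨p, hp⟩ := hF.ne
  obtain ⟨a, haU, ha⟩ := hGTWO k Q0 QQ U hF p hp 2
  have a0 : 0 < a := (hF.rng _ haU).1
  have hO : p.1 ∈ Den Q0 := hp.1.1
  have hOK : p.1 ∈ k.K := hF.p0.sub hO.1
  have two : ∀ Q ∈ QQ, ∀ w : P, ∃ x ∈ Den Q, k.d p.1 x = a ∧ x ≠ w := by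
    intro Q hQ w
    have h1 : (1 : ℕ∞) < {y ∈ Den Q | k.d p.1 y = a}.encard :=
      lt_of_lt_of_le (by norm_num) (ha Q hQ)
    obtain ⟨x, hx, hw⟩ := Set.exists_ne_of_one_lt_encard h1 w
    exact ⟨x, hx.1, hx.2, hw⟩
  obtain ⟨y1, hy1, e1, -⟩ := two Y hY 0
  have y1M : y1 ∈ k.M := k.ud.sub ((hF.pc Y hY).sub hy1.1)
  have OM : p.1 ∈ k.M := k.ud.sub hOK
  have n1 : y1 ≠ p.1 := by
    intro e
    rw [e, (k.pm.eq_zero _ OM _ OM).2 rfl] at e1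
    exact a0.ne e1
  choose x hx ex nx using fun j : QQ => two j.1 j.2 y1
  have : Finite QQ := hF.fin.to_subtype
  obtain ⟨δ, δ0, hδ⟩ := gcov_near k hF.opn OM y1M (by rw [e1]; exact haU)
  obtain ⟨ρ, ρ0, c, c0, h⟩ := hGFAMP k QQ x (fun j => Den j.1) (Den Q0) p.1 hOK y1 y1M n1
    (hsc _ hO.1 _ hy1.1) hF.p0.den_subK (DenW.den hF.p0 hO)
    (fun j => ⟨(hF.pc j.1 j.2).sub (hx j).1, nx j, by rw [ex j, e1],
      (hF.pc j.1 j.2).den_subK, DenW.den (hF.pc j.1 j.2) (hx j)⟩) δ δ0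
  refine ⟨y1, hy1, min ρ δ, lt_min ρ0 δ0, c, c0, fun y hy N hN => ?_⟩
  obtain ⟨O, hO', hn, hz⟩ := h y (ball_subset_ball (min_le_left _ _) hy) N hN
  refine ⟨O, hn, ⟨hO'.1, fun Q hQ => ?_⟩,
    hδ O hO'.2 y (ball_subset_ball (min_le_right _ _) hy)⟩
  obtain ⟨z, hz1, hz2⟩ := hz ⟨Q, hQ⟩
  exact ⟨z, hz1.1, hz2⟩

theorem p_GCOV (hGTWO : S_GTWO) (hGFAMP : S_GFAMP) :
    S_GCOV := by
  intro k Q0 QQ U Y hY hsc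
  refine ⟨gcov_first hGTWO hGFAMP k Q0 QQ U Y hY hsc, fun v hs => ?_⟩
  obtain ⟨y2, hy2, ρ, ρ0, c, c0, h⟩ := gcov_first hGTWO hGFAMP k Q0 QQ U Y hY hsc hs.fr
  refine ⟨Y ∩ closedBall y2 (ρ / 2), inter_subset_left,
    ((hs.fr.pc Y hY).inter_closedBall hy2 (half_pos ρ0)).1, hs,
    ⟨ball y2 ρ, isOpen_ball, fun z hz => closedBall_subset_ball (half_lt_self ρ0) hz.2,
      fun y hy => ?_⟩, hsc.mono subset_rfl inter_subset_left⟩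
  obtain ⟨O, -, hO⟩ := h y hy ∅ (by simpa using c0)
  exact ⟨O, hO⟩

end Pool.Agent.P.MP_874adf_gt.Gn
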