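import Pool.Agent.P.MP_874adf_gt.Gn.IfaceGa
import Pool.Agent.P.MP_874adf_gt.Gn.GaBase

/-! Step GDEC. -/

set_option autoImplicit false

namespace Pool.Agent.P.MP_874adf_gt.Gn

open Pool.Agent.P.MP_874adf_gt.Fs Ga Set Filter Topology Metric MeasureTheory

namespace GDECaux

/-- witnesses for the failure of strict convexity, with quantitative bounds -/
def Wt (k : Kx) (Q : Set P) (e : P) (ρ t : ℝ) : Set (P × P × P) :=
  (Q ×ˢ closedBall e (ρ - t) ×ˢ closedBall (0 : P) t⁻¹) ∩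
    ({p | t ≤ |wed p.2.2 p.2.1|} ∩
      {p | k.F p.1 p.2.1 + k.F p.1 p.2.2 - k.F p.1 (p.2.1 + p.2.2) ≤ 0})

lemma cpt {k : Kx} {Q : Set P} (h : Pc k Q) (e : P) (ρ t : ℝ) : IsCompact (Wt k Q e ρ t) := by
  have c0 : IsCompact (Q ×ˢ closedBall e (ρ - t) ×ˢ closedBall (0 : P) t⁻¹) :=
    h.cpt.prod ((isCompact_closedBall _ _).prod (isCompact_closedBall _ _))
  have cF : ∀ g : P × P × P → P, Continuous g → ContinuousOn (fun p : P × P × P => k.F p.1 (g p))
      (Q ×ˢ closedBall e (ρ - t) ×ˢ closedBall (0 : P) t⁻¹) := fun g hg =>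
    k.ud.cont.comp (f := fun p : P × P × P => (p.1, g p)) (continuous_fst.prodMk hg).continuousOn
      fun p hp => ⟨h.sub hp.1, mem_univ _⟩
  have c1 : IsClosed {p : P × P × P | t ≤ |wed p.2.2 p.2.1|} :=
    isClosed_le continuous_const (by unfold wed; fun_prop)
  have c2 := (((cF (fun p => p.2.1) (by fun_prop)).add (cF (fun p => p.2.2) (by fun_prop))).sub
    (cF (fun p => p.2.1 + p.2.2) (by fun_prop))).preimage_isClosed_of_isClosed c0.isClosed
      (isClosed_Iic (a := (0 : ℝ)))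
  refine c0.of_isClosed_subset ?_ inter_subset_left
  rw [Wt, inter_left_comm]
  exact c1.inter c2

end GDECaux

theorem p_GDEC :
    S_GDEC := by
  intro k Q h e ρ
  let Z : ℕ → Set P := fun n => Prod.fst '' GDECaux.Wt k Q e ρ (1 / ((n : ℝ) + 1))
  have cZ : ∀ n, IsCompact (Z n) := fun n => (GDECaux.cpt h e ρ _).image continuous_fst
  have sZ : ∀ n, Z n ⊆ Q := by
    rintro n _ ⟨p, hp, rfl⟩
    exact hp.1.1
  by_cases c : ∃ n, 0 < volume (Z n)
  · obtain ⟨n, hn⟩ := c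
    refine ⟨Z n, sZ n, ⟨cZ n, (sZ n).trans h.sub, hn⟩, Or.inl ?_⟩
    rintro _ ⟨⟨x, Y, z⟩, ⟨⟨-, h1, -⟩, h2, h3⟩, rfl⟩
    have t0 : 0 < 1 / ((n : ℝ) + 1) := by positivity
    refine ⟨Y, closedBall_subset_ball (by linarith) h1, fun sc => ?_⟩
    have h4 := sc z (abs_pos.1 (t0.trans_le h2))
    have h5 : k.F x Y + k.F x z - k.F x (Y + z) ≤ 0 := h3
    linarith
  have nul : volume (⋃ n, Z n) = 0 :=
    measure_iUnion_null fun n => by simpa using fun hn => c ⟨n, pos_iff_ne_zero.2 hn⟩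
  obtain ⟨Q', s, p⟩ := Pc.exists_sub (k := k) (A := Q \ ⋃ n, Z n)
    (h.meas.diff (MeasurableSet.iUnion fun n => (cZ n).measurableSet))
    (sdiff_subset.trans h.sub) (by rw [measure_sdiff_null nul]; exact h.pos)
  refine ⟨Q', s.trans sdiff_subset, p, Or.inr fun x hx Y hY z hz => ?_⟩
  by_contra hn
  have t0 : Tendsto (fun n : ℕ => 1 / ((n : ℝ) + 1)) atTop (𝓝 0) :=
    tendsto_one_div_add_atTop_nhds_zero_nat
  have z1 : 0 < (‖z‖ + 1)⁻¹ := by positivity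
  obtain ⟨n, h1, h2, h3⟩ := ((t0.eventually (ge_mem_nhds (sub_pos.2 (mem_ball.1 hY)))).and
    ((t0.eventually (ge_mem_nhds (abs_pos.2 hz))).and (t0.eventually (ge_mem_nhds z1)))).exists
  refine (s hx).2 (mem_iUnion.2 ⟨n, (x, Y, z), ⟨⟨(s hx).1, ?_, ?_⟩, h2, ?_⟩, rfl⟩)
  · rw [mem_closedBall]; linarith
  · rw [mem_closedBall_zero_iff]
    have := inv_anti₀ (by positivity) h3
    rw [inv_inv] at this
    linarith
  · show k.F x Y + k.F x z - k.F x (Y + z) ≤ 0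
    linarith [not_lt.1 hn]

end Pool.Agent.P.MP_874adf_gt.Gn
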