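import Pool.Agent.P.MP_874adf_gt.Gn.IfaceGa
import Pool.Agent.P.MP_874adf_gt.Gn.GaU0

/-! Step GEXP. -/

set_option autoImplicit false

namespace Pool.Agent.P.MP_874adf_gt.Gn

open Pool.Agent.P.MP_874adf_gt.Fs Ga Set Filter Topology Metric MeasureTheory

/-- the image of the complement of a set on which the map expands -/
theorem GEXP_image (hG : S_GGAPL) (l : ℝ → ℝ) {a b m w : ℝ} (hab : a ≤ b) (T : Set ℝ)
    (hT : IsCompact T) (sub : T ⊆ Icc a b) (hc : ContinuousOn l (Icc a b))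
    (hi : InjOn l (Icc a b)) (hr : MapsTo l (Icc a b) (Icc (l a) (l b))) (m0 : 0 < m) (w0 : 0 ≤ w)
    (hx : ∀ t ∈ T, ∀ t' ∈ T, m * |t - t'| ≤ |l t - l t'|)
    (hw : volume (Icc a b \ T) ≤ ENNReal.ofReal w) :
    volume (l '' (Icc a b \ T)) ≤ ENNReal.ofReal (l b - l a - m * (b - a) + m * w) := by
  have cT : IsCompact (l '' T) := hT.image_of_continuousOn (hc.mono sub)
  have s1 : l '' T ⊆ Icc (l a) (l b) := by
    rintro _ ⟨t, ht, rfl⟩
    exact hr (sub ht)
  have s2 : l '' (Icc a b \ T) ⊆ Icc (l a) (l b) \ l '' T := by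
    rintro _ ⟨t, ht, rfl⟩
    refine ⟨hr ht.1, ?_⟩
    rintro ⟨t', ht', e⟩
    exact ht.2 (hi (sub ht') ht.1 e ▸ ht')
  have f1 : volume (l '' T) ≠ ⊤ := cT.measure_lt_top.ne
  have f2 : volume T ≠ ⊤ := hT.measure_lt_top.ne
  have h1 := hG.1 l T (l '' T) m m0 hx (mapsTo_image l T)
  have h2 : (volume T).toReal ≤ (volume (l '' T)).toReal / m := by
    have := ENNReal.toReal_mono (ENNReal.div_ne_top f1 (by simpa using m0)) h1
    rwa [ENNReal.toReal_div, ENNReal.toReal_ofReal m0.le] at this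
  have h3 : b - a ≤ (volume T).toReal + w := by
    have q : volume (Icc a b) ≤ volume T + ENNReal.ofReal w :=
      calc volume (Icc a b) ≤ volume (T ∪ Icc a b \ T) :=
            measure_mono fun t ht => by
              by_cases h : t ∈ T
              · exact Or.inl h
              · exact Or.inr ⟨ht, h⟩
        _ ≤ volume T + volume (Icc a b \ T) := measure_union_le _ _
        _ ≤ _ := add_le_add le_rfl hw
    have := ENNReal.toReal_mono (ENNReal.add_ne_top.2 ⟨f2, ENNReal.ofReal_ne_top⟩) q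
    rwa [ENNReal.toReal_add f2 ENNReal.ofReal_ne_top, ENNReal.toReal_ofReal w0, Real.volume_Icc,
      ENNReal.toReal_ofReal (sub_nonneg.2 hab)] at this
  rw [le_div_iff₀ m0] at h2
  calc volume (l '' (Icc a b \ T)) ≤ volume (Icc (l a) (l b) \ l '' T) := measure_mono s2
    _ = volume (Icc (l a) (l b)) - volume (l '' T) :=
        measure_sdiff s1 cT.measurableSet.nullMeasurableSet f1
    _ = ENNReal.ofReal (l b - l a - (volume (l '' T)).toReal) := by
        rw [Real.volume_Icc, ENNReal.ofReal_sub _ ENNReal.toReal_nonneg, ENNReal.ofReal_toReal f1]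
    _ ≤ _ := ENNReal.ofReal_le_ofReal (by nlinarith)

/-- the length along a segment -/
theorem GEXP_len {M : Set P} {d : P → P → ℝ} (h : PM M d) {y e : P} {a b : ℝ}
    (hm : ∀ t ∈ Icc a b, y + t • e ∈ M) {t t' : ℝ} (ht : t ∈ Icc a b) (ht' : t' ∈ Icc a b) :
    d (y + t • e) (y + t' • e) = |d (y + a • e) (y + t • e) - d (y + a • e) (y + t' • e)| := by
  have ha : y + a • e ∈ M := hm a ⟨le_rfl, ht.1.trans ht.2⟩
  rcases le_total t t' with q | q
  · have h1 := h.line_add ha (hm t' ht') ht.1 q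
    have h2 := h.nonneg (hm t ht) (hm t' ht')
    rw [abs_of_nonpos (by linarith)]
    linarith
  · have h1 := h.line_add ha (hm t ht) ht'.1 q
    have h2 := h.nonneg (hm t' ht') (hm t ht)
    rw [abs_of_nonneg (by linarith), h.symm _ (hm t ht) _ (hm t' ht')]
    linarith

theorem GEXP_norm (x e : P) {δ κ L τ : ℝ} (δ0 : 0 < δ) (hκ : κ ∈ Icc (-1 : ℝ) 1)
    (hτ : τ ∈ Icc (-(L * δ)) (L * δ)) : ‖par x e (δ * κ) τ - x‖ ≤ δ * ((1 + L) * ‖e‖) := by
  have e1 : par x e (δ * κ) τ - x = (δ * κ) • ((-e.2, e.1) : P) + τ • e := by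
    simp only [par]; abel
  have e2 : ‖((-e.2, e.1) : P)‖ = ‖e‖ := by
    rw [Prod.norm_def, Prod.norm_def, norm_neg, max_comm]
  have k1 : |κ| ≤ 1 := abs_le.2 hκ
  have k2 : |τ| ≤ L * δ := abs_le.2 hτ
  have n0 := norm_nonneg e
  rw [e1]
  refine (norm_add_le _ _).trans ?_
  rw [norm_smul, norm_smul, e2, Real.norm_eq_abs, Real.norm_eq_abs, abs_mul, abs_of_pos δ0]
  have a1 : δ * |κ| * ‖e‖ ≤ δ * 1 * ‖e‖ := by gcongr
  have a2 : |τ| * ‖e‖ ≤ L * δ * ‖e‖ := by gcongr
  nlinarith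

theorem p_GEXP (hGGAPL : S_GGAPL) :
    S_GEXP := by
  intro k x hx e he L L0 η η0
  have n0 : 0 < ‖e‖ := norm_pos_iff.2 he
  have f0 : 0 < k.F x e := (k.isN x hx).pos e he
  set n := ‖e‖ with hn
  set f := k.F x e with hf
  have ε0 : 0 < min (f / (4 * n)) (η / (2 * n * (1 + 5 * L))) := lt_min (by positivity) (by positivity)
  set ε := min (f / (4 * n)) (η / (2 * n * (1 + 5 * L))) with hε
  have ε1 : ε * (4 * n) ≤ f := (le_div_iff₀ (by positivity)).1 (min_le_left _ _)
  have ε2 : ε * (2 * n * (1 + 5 * L)) ≤ η := (le_div_iff₀ (by positivity)).1 (min_le_right _ _)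
  obtain ⟨δ1, δ10, hN, hF⟩ := u0_near k ε0
  obtain ⟨δ2, δ20, hM⟩ := u0_nhd k
  refine ⟨η / (2 * f), by positivity, ?_⟩
  have q0 : 0 < min δ1 δ2 / ((1 + 2 * L) * n) := div_pos (lt_min δ10 δ20) (by positivity)
  filter_upwards [Ioo_mem_nhdsGT q0] with δ hδ κ hκ T hT sub hK hw
  have δ0 : 0 < δ := hδ.1
  have q1 : δ * ((1 + 2 * L) * n) ≤ min δ1 δ2 := ((lt_div_iff₀ (by positivity)).1 hδ.2).le
  have q2 : δ * ((1 + 2 * L) * n) ≤ δ1 := q1.trans (min_le_left _ _)
  have q3 : δ * ((1 + 2 * L) * n) ≤ δ2 := q1.trans (min_le_right _ _)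
  have p0 : 0 < δ * (L * n) := by positivity
  have p1 : 0 < δ * n := by positivity
  have s0 : 0 < δ * ((1 + L) * n) := by positivity
  have hab : -(L * δ) ≤ L * δ := by nlinarith
  set y := x + (δ * κ) • ((-e.2, e.1) : P) with hy
  have hp : ∀ τ, par x e (δ * κ) τ = y + τ • e := fun τ => rfl
  have hb : ∀ τ ∈ Icc (-(L * δ)) (L * δ), y + τ • e ∈ closedBall x (δ * ((1 + L) * n)) :=
    fun τ hτ => by
      rw [mem_closedBall, dist_eq_norm, ← hp]
      exact GEXP_norm x e δ0 hκ hτ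
  have hm : ∀ τ ∈ Icc (-(L * δ)) (L * δ), y + τ • e ∈ k.M := fun τ hτ =>
    hM x hx (closedBall_subset_closedBall (by nlinarith) (hb τ hτ))
  have ia : -(L * δ) ∈ Icc (-(L * δ)) (L * δ) := ⟨le_rfl, hab⟩
  have ib : L * δ ∈ Icc (-(L * δ)) (L * δ) := ⟨hab, le_rfl⟩
  set l : ℝ → ℝ := fun τ => k.d (y + (-(L * δ)) • e) (y + τ • e) with hl
  have len : ∀ t ∈ Icc (-(L * δ)) (L * δ), ∀ t' ∈ Icc (-(L * δ)) (L * δ),
      k.d (y + t • e) (y + t' • e) = |l t - l t'| := fun t ht t' ht' => GEXP_len k.pm hm ht ht'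
  have la : l (-(L * δ)) = 0 := k.pm.self (hm _ ia)
  have dif : ∀ t t' : ℝ, y + t' • e - (y + t • e) = (t' - t) • e := fun t t' => by
    rw [sub_smul]; abel
  have lb : l (L * δ) ≤ 2 * L * δ * f + ε * (δ * ((1 + L) * n)) := by
    have h1 := hN x hx _ s0 (by nlinarith) _ (hb _ ia) _ (hb _ ib)
    rw [dif, (k.isN x hx).smul, abs_of_nonneg (sub_nonneg.2 hab), ← hf] at h1
    have h2 := (abs_le.1 h1).2
    simp only [hl]
    linarith
  have m0 : 0 < f - 2 * ε * n := by nlinarith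
  have key := GEXP_image hGGAPL l hab T hT sub (k.pm.contOn_line (hm _ ia) hm)
    (fun t ht t' ht' q => by
      have h1 := len t ht t' ht'
      rw [q, sub_self, abs_zero] at h1
      have h2 := (k.pm.eq_zero _ (hm t ht) _ (hm t' ht')).1 h1
      exact smul_left_injective ℝ he (add_left_cancel h2))
    (fun t ht => by
      have h1 := k.pm.line_add (hm _ ia) (hm _ ib) ht.1 ht.2
      have h2 := k.pm.nonneg (hm t ht) (hm _ ib)
      have h3 := k.pm.nonneg (hm _ ia) (hm t ht)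
      refine ⟨by rw [la]; exact h3, ?_⟩
      simp only [hl]
      linarith) m0 (w := η / (2 * f) * δ) (by positivity)
    (fun t ht t' ht' => by
      rcases eq_or_ne t t' with rfl | hne
      · simp
      have a0 : 0 < |t' - t| := abs_pos.2 (sub_ne_zero.2 hne.symm)
      have a1 : |t' - t| ≤ 2 * (L * δ) := by
        have := sub ht
        have := sub ht'
        rw [abs_le]
        constructor <;> linarith [(sub ht).1, (sub ht).2, (sub ht').1, (sub ht').2]
      have kt : y + t • e ∈ k.K := hp t ▸ hK t ht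
      have a2 : |t' - t| * n ≤ 2 * (L * δ) * n := by gcongr
      have h1 := hN _ kt (|t' - t| * n) (by positivity) (by nlinarith) (y + t • e)
        (mem_closedBall_self (by positivity)) (y + t' • e) (by
          rw [mem_closedBall, dist_eq_norm, dif, norm_smul, Real.norm_eq_abs])
      rw [dif, (k.isN _ kt).smul] at h1
      have h2 := hF x hx _ kt (by
        rw [dist_comm]
        exact (mem_closedBall.1 (hb t (sub ht))).trans (by nlinarith)) e
      have h3 := (abs_le.1 h1).1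
      have h4 := (abs_le.1 h2).2
      have h5 : |t' - t| * (f - ε * n) ≤ |t' - t| * k.F (y + t • e) e := by
        gcongr
        linarith
      rw [← len t (sub ht) t' (sub ht'), abs_sub_comm t t']
      linarith) hw
  have fin : l (L * δ) - l (-(L * δ)) - (f - 2 * ε * n) * (L * δ - -(L * δ)) +
      (f - 2 * ε * n) * (η / (2 * f) * δ) ≤ η * δ := by
    have b1 : (f - 2 * ε * n) * (η / (2 * f) * δ) ≤ f * (η / (2 * f) * δ) := by
      gcongr
      nlinarith
    have b2 : f * (η / (2 * f) * δ) = η * δ / 2 := by field_simp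
    have b3 : ε * (2 * n * (1 + 5 * L)) * δ ≤ η * δ := by gcongr
    rw [la]
    nlinarith
  intro Z τ κ' κ0 hZ hd
  have h1 := hGGAPL.1 (fun a => l (τ a)) Z (l '' (Icc (-(L * δ)) (L * δ) \ T)) κ' κ0
    (fun a ha a' ha' => by
      have := hd a ha a' ha'
      rwa [hp, hp, len _ (hZ a ha).1 _ (hZ a' ha').1] at this)
    (fun a ha => mem_image_of_mem l (hZ a ha))
  refine h1.trans ?_
  rw [ENNReal.ofReal_div_of_pos κ0]
  exact ENNReal.div_le_div_right (key.trans (ENNReal.ofReal_le_ofReal fin)) _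

end Pool.Agent.P.MP_874adf_gt.Gn
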