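import Pool.Agent.P.MP_874adf_gt.Gn.IfaceGa
import Pool.Agent.P.MP_874adf_gt.Gn.GaU0

/-! Step GFAM. -/

set_option autoImplicit false

namespace Pool.Agent.P.MP_874adf_gt.Gn

open Pool.Agent.P.MP_874adf_gt.Fs Ga Set Filter Topology Metric MeasureTheory

lemma GFAM_rot (e : P) : ‖((-e.2, e.1) : P)‖ = ‖e‖ := by
  rw [Prod.norm_def, Prod.norm_def, norm_neg, max_comm]

lemma GFAM_sub (x e : P) (s t : ℝ) : par x e s t - x = s • ((-e.2, e.1) : P) + t • e := by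
  unfold par; module

lemma GFAM_up (x e : P) (s t : ℝ) : ‖par x e s t - x‖ ≤ (|s| + |t|) * ‖e‖ := by
  rw [GFAM_sub]
  refine (norm_add_le _ _).trans (le_of_eq ?_)
  rw [norm_smul, norm_smul, GFAM_rot, Real.norm_eq_abs, Real.norm_eq_abs, add_mul]

lemma GFAM_lo (x e : P) (s t : ℝ) : (|t| - |s|) * ‖e‖ ≤ ‖par x e s t - x‖ := by
  rw [GFAM_sub]
  have := norm_sub_norm_le (t • e) (-(s • ((-e.2, e.1) : P)))
  rw [norm_neg, norm_smul, norm_smul, GFAM_rot, Real.norm_eq_abs, Real.norm_eq_abs, sub_neg_eq_add,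
    add_comm] at this
  linarith

/-- the distance from `O0` at the ends of a segment through a point near `x` -/
lemma GFAM_ends {M : Set P} {d : P → P → ℝ} (h : PM M d) {O0 x : P} (mO : O0 ∈ M) (mx : x ∈ M)
    {L1 δ1 δ s t : ℝ} (L0 : 0 < L1)
    (hx : ∀ y : P, ‖y - x‖ ≤ δ1 → y ∈ M ∧ ‖y - x‖ ≤ L1 * d x y ∧ d x y ≤ L1 * ‖y - x‖)
    (hs : |s| ≤ δ) (ht : |t| ≤ 1 / 2) (h1 : 2 * δ * ‖x - O0‖ ≤ δ1)
    (h2 : (δ + |t|) * ‖x - O0‖ ≤ δ1) :
    (0 ≤ t → d O0 x + (|t| - δ) * ‖x - O0‖ / L1 - 4 * L1 * δ * ‖x - O0‖ ≤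
      d O0 (par x (x - O0) s t)) ∧
    (t ≤ 0 → d O0 (par x (x - O0) s t) ≤
      d O0 x - (|t| - δ) * ‖x - O0‖ / L1 + 4 * L1 * δ * ‖x - O0‖) := by
  set e := x - O0 with he
  have n0 := norm_nonneg e
  have t1 : 1 / 2 ≤ 1 + t := by linarith [(abs_le.1 ht).1]
  have t0 : 0 < 1 + t := by linarith
  have s1 : |s / (1 + t)| ≤ 2 * δ := by
    rw [abs_div, abs_of_pos t0, div_le_iff₀ t0]
    nlinarith [abs_nonneg s]
  have a1 : ‖par x e (s / (1 + t)) 0 - x‖ ≤ 2 * δ * ‖e‖ := by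
    refine (GFAM_up _ _ _ _).trans ?_
    rw [abs_zero, add_zero]
    exact mul_le_mul_of_nonneg_right s1 n0
  have a2 : ‖par x e s t - x‖ ≤ δ1 :=
    (GFAM_up _ _ _ _).trans ((mul_le_mul_of_nonneg_right (by linarith) n0).trans h2)
  obtain ⟨m1, -, b1⟩ := hx _ (a1.trans h1)
  obtain ⟨m2, b2, -⟩ := hx _ a2
  have b3 : d x (par x e (s / (1 + t)) 0) ≤ 2 * L1 * δ * ‖e‖ := by
    nlinarith [mul_le_mul_of_nonneg_left a1 L0.le]
  have b4 : (|t| - δ) * ‖e‖ / L1 ≤ d x (par x e s t) := by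
    rw [div_le_iff₀ L0]
    have := GFAM_lo x e s t
    nlinarith [mul_le_mul_of_nonneg_right hs n0]
  set v : P := e + (s / (1 + t)) • ((-e.2, e.1) : P) with hv
  have e0 : O0 + (0 : ℝ) • v = O0 := by rw [zero_smul, add_zero]
  have e1 : O0 + (1 : ℝ) • v = par x e (s / (1 + t)) 0 := by
    have : x = O0 + e := by rw [he]; abel
    unfold par
    rw [hv, this]
    module
  have e2 : O0 + (1 + t) • v = par x e s t := by
    have : x = O0 + e := by rw [he]; abel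
    unfold par
    rw [hv, smul_add, smul_smul, mul_div_cancel₀ _ t0.ne', this]
    module
  have c1 := h.triangle _ mO _ m1 _ mx
  have c2 := h.triangle _ mO _ mx _ m1
  have c3 := h.triangle _ mx _ m1 _ m2
  rw [h.symm _ m1 _ mx] at c1
  constructor
  · intro tp
    have := h.line_add (x := O0) (v := v) (r := 0) (s := 1) (t := 1 + t) (by rwa [e0]) (by rwa [e2])
      zero_le_one (by linarith)
    rw [e0, e1, e2] at this
    linarith
  · intro tn
    have := h.line_add (x := O0) (v := v) (r := 0) (s := 1 + t) (t := 1) (by rwa [e0]) (by rwa [e1])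
      t0.le (by linarith)
    rw [e0, e1, e2, h.symm _ m2 _ m1] at this
    linarith

/-- measure of a set from the measures of its slices along the lines in the direction `w` -/
lemma GFAM_fub (hGPAR : S_GPAR) {O0 w : P} (hw : w ≠ 0) {B : Set P} (hB : MeasurableSet B)
    {δ b : ℝ} (δ0 : 0 ≤ δ) (b0 : 0 ≤ b) (hs : B ⊆ closedBall O0 δ)
    (hl : ∀ κ, volume {lam : ℝ | par O0 w κ lam ∈ B} ≤ ENNReal.ofReal b) :
    volume B ≤ ENNReal.ofReal (4 * ‖w‖ * δ * b) := by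
  have n0 : 0 < ‖w‖ := norm_pos_iff.2 hw
  have N0 : 0 < w.1 ^ 2 + w.2 ^ 2 := by
    by_contra hn
    have h1 : w.1 = 0 := by nlinarith [sq_nonneg w.1, sq_nonneg w.2]
    have h2 : w.2 = 0 := by nlinarith [sq_nonneg w.1, sq_nonneg w.2]
    exact hw (Prod.ext h1 h2)
  set c := 2 * ‖w‖ * δ / (w.1 ^ 2 + w.2 ^ 2) with hc
  have c0 : 0 ≤ c := by positivity
  have ms : MeasurableSet {q : ℝ × ℝ | par O0 w q.1 q.2 ∈ B} :=
    (by unfold par; fun_prop : Continuous fun q : ℝ × ℝ => par O0 w q.1 q.2).measurable hB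
  rw [hGPAR O0 w hw B, Measure.volume_eq_prod, Measure.prod_apply ms]
  have key : ∀ κ : ℝ, volume (Prod.mk κ ⁻¹' {q : ℝ × ℝ | par O0 w q.1 q.2 ∈ B}) ≤
      (Icc (-c) c).indicator (fun _ => ENNReal.ofReal b) κ := by
    intro κ
    by_cases hκ : κ ∈ Icc (-c) c
    · rw [indicator_of_mem hκ]
      exact hl κ
    · rw [indicator_of_notMem hκ]
      refine le_of_eq (measure_eq_zero_iff_ae_notMem.2 (Eventually.of_forall fun lam hm => hκ ?_))
      have h1 : ‖par O0 w κ lam - O0‖ ≤ δ := by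
        have := hs hm
        rwa [mem_closedBall, dist_eq_norm] at this
      rw [GFAM_sub] at h1
      have h2 : |κ * (-w.2) + lam * w.1| ≤ δ := (norm_fst_le _).trans h1
      have h3 : |κ * w.1 + lam * w.2| ≤ δ := (norm_snd_le _).trans h1
      have h4 : |w.1| ≤ ‖w‖ := norm_fst_le w
      have h5 : |w.2| ≤ ‖w‖ := norm_snd_le w
      have e : κ * (w.1 ^ 2 + w.2 ^ 2) =
          (κ * w.1 + lam * w.2) * w.1 - (κ * (-w.2) + lam * w.1) * w.2 := by ring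
      have h6 : |κ| * (w.1 ^ 2 + w.2 ^ 2) ≤ 2 * ‖w‖ * δ := by
        rw [← abs_of_pos N0, ← abs_mul, e]
        refine (abs_sub _ _).trans ?_
        rw [abs_mul, abs_mul]
        nlinarith [mul_le_mul h3 h4 (abs_nonneg _) δ0, mul_le_mul h2 h5 (abs_nonneg _) δ0]
      exact abs_le.1 ((le_div_iff₀ N0).2 h6)
  refine (mul_le_mul_right (lintegral_mono key) _).trans (le_of_eq ?_)
  rw [lintegral_indicator measurableSet_Icc, setLIntegral_const, Real.volume_Icc,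
    ← ENNReal.ofReal_mul b0, ← ENNReal.ofReal_mul N0.le]
  congr 1
  rw [hc]
  field_simp
  ring

theorem p_GFAM (hGPAR : S_GPAR) (hGGAP2 : S_GGAP2) :
    S_GFAM := by
  intro k O0 hO0 y0 my0 x hx yO xy hd sc
  have h := k.pm
  have mO0 := k.ud.sub hO0
  have mx := k.ud.sub hx
  have xO : x ≠ O0 := by
    rintro rfl
    rw [h.self mx] at hd
    exact (h.pos mx my0 xy).ne hd
  have e0 : 0 < ‖x - O0‖ := norm_pos_iff.2 (sub_ne_zero.2 xO)
  have w0 : y0 - O0 ≠ 0 := sub_ne_zero.2 yO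
  have wp : 0 < ‖y0 - O0‖ := norm_pos_iff.2 w0
  obtain ⟨L1, L10, δ1, δ10, hlip⟩ := u0_lip k
  obtain ⟨κ0, κ00, ρ0, ρ00, gap⟩ := hGGAP2 k O0 hO0 x mx y0 my0 xy yO hd sc
  set n := ‖x - O0‖ with hn
  set L := 1 + L1 * (4 * L1 * n + 2 * L1 + 1) / n with hL
  have L1' : 1 ≤ L := by
    have : 0 ≤ L1 * (4 * L1 * n + 2 * L1 + 1) / n := by positivity
    linarith
  have Lp : 0 < L := by linarith
  have Le : ∀ δ : ℝ, (L * δ - δ) * n / L1 = (4 * L1 * n + 2 * L1 + 1) * δ := by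
    intro δ
    rw [hL]
    field_simp
    ring
  refine ⟨L, Lp, 4 * ‖y0 - O0‖ / κ0, by positivity, ?_⟩
  have ev : ∀ a b : ℝ, 0 < b → ∀ᶠ δ in 𝓝[>] (0 : ℝ), a * δ < b := fun a b hb =>
    mem_nhdsWithin_of_mem_nhds
      (((by fun_prop : Continuous fun δ : ℝ => a * δ).tendsto' 0 0 (by simp)).eventually
        (gt_mem_nhds hb))
  filter_upwards [self_mem_nhdsWithin, ev 1 δ1 δ10, ev 1 ρ0 ρ00, ev L (1 / 2) (by norm_num),
    ev ((1 + L) * n) δ1 δ10, ev ((1 + L) * n) ρ0 ρ00] with δ (δ0 : 0 < δ) q1 q2 q3 q4 q5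
  rw [one_mul] at q1 q2
  obtain ⟨ρ1, ρ10, hρ1⟩ := Metric.eventually_nhds_iff_ball.1 (h.ev_lt my0 δ0)
  refine ⟨min ρ0 ρ1, lt_min ρ00 ρ10, fun η η0 κ hκ T cT sT sm y hy => ?_⟩
  have hy0 : y ∈ ball y0 ρ0 := ball_subset_ball (min_le_left _ _) hy
  obtain ⟨my, dy⟩ := hρ1 y (ball_subset_ball (min_le_right _ _) hy)
  have sκ : |δ * κ| ≤ δ := by
    rw [abs_mul, abs_of_pos δ0]
    exact mul_le_of_le_one_right δ0.le (abs_le.2 hκ)
  have Lδ : 0 < L * δ := mul_pos Lp δ0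
  have near : ∀ τ ∈ Icc (-(L * δ)) (L * δ), ‖par x (x - O0) (δ * κ) τ - x‖ ≤ (1 + L) * n * δ := by
    intro τ hτ
    refine (GFAM_up _ _ _ _).trans ?_
    have : |τ| ≤ L * δ := abs_le.2 hτ
    nlinarith
  have mem : ∀ τ ∈ Icc (-(L * δ)) (L * δ), par x (x - O0) (δ * κ) τ ∈ k.M := fun τ hτ =>
    ((hlip x hx).2 _ ((near τ hτ).trans q4.le)).1
  have cpar : Continuous (par x (x - O0) (δ * κ)) := by unfold par; fun_prop
  have w1 : 2 * δ * n ≤ δ1 := by nlinarith [mul_pos δ0 e0]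
  have up := (GFAM_ends h mO0 mx (δ := δ) (s := δ * κ) (t := L * δ) L10 (hlip x hx).2 sκ
    (by rw [abs_of_pos Lδ]; exact q3.le) w1 (by rw [abs_of_pos Lδ]; linarith)).1 Lδ.le
  have lo := (GFAM_ends h mO0 mx (δ := δ) (s := δ * κ) (t := -(L * δ)) L10 (hlip x hx).2 sκ
    (by rw [abs_neg, abs_of_pos Lδ]; exact q3.le) w1
    (by rw [abs_neg, abs_of_pos Lδ]; linarith)).2 (by linarith)
  rw [abs_of_pos Lδ, Le] at up
  rw [abs_neg, abs_of_pos Lδ, Le] at lo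
  have ivt : ∀ O ∈ k.K ∩ closedBall O0 δ, ∃ τ ∈ Icc (-(L * δ)) (L * δ),
      k.d O (par x (x - O0) (δ * κ) τ) = k.d O y := by
    intro O hO
    have mO := k.ud.sub hO.1
    have b0 : ‖O - O0‖ ≤ δ := by simpa [dist_eq_norm] using hO.2
    have b1 : k.d O0 O ≤ L1 * δ :=
      ((hlip O0 hO0).2 O (b0.trans q1.le)).2.2.trans (mul_le_mul_of_nonneg_left b0 L10.le)
    have m1 := mem _ (left_mem_Icc.2 (by linarith))
    have m2 := mem _ (right_mem_Icc.2 (by linarith))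
    have ct : ContinuousOn (fun τ => k.d O (par x (x - O0) (δ * κ) τ)) (Icc (-(L * δ)) (L * δ)) :=
      h.cont.comp (f := fun τ => (O, par x (x - O0) (δ * κ) τ))
        (continuous_const.prodMk cpar).continuousOn fun τ hτ => ⟨mO, mem τ hτ⟩
    refine intermediate_value_Icc (by linarith) ct ⟨?_, ?_⟩
    · have t1 := h.triangle _ mO _ mO0 _ m1
      have t2 := h.triangle _ mO0 _ mO _ my0
      have t3 := h.triangle _ mO _ my _ my0
      rw [h.symm _ mO _ mO0] at t1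
      rw [h.symm _ my _ my0] at t3
      nlinarith
    · have t1 := h.triangle _ mO0 _ mO _ m2
      have t2 := h.triangle _ mO _ mO0 _ my0
      have t3 := h.triangle _ mO _ my0 _ my
      rw [h.symm _ mO _ mO0] at t2
      nlinarith
  have cK : IsCompact (k.K ∩ closedBall O0 δ) := k.ud.cpt.inter_right isClosed_closedBall
  have mB : MeasurableSet {O ∈ k.K ∩ closedBall O0 δ |
      ¬ ∃ τ ∈ T, k.d O (par x (x - O0) (δ * κ) τ) = k.d O y} := by
    have c1 : ContinuousOn (fun p : P × ℝ => k.d p.1 (par x (x - O0) (δ * κ) p.2))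
        ((k.K ∩ closedBall O0 δ) ×ˢ T) :=
      h.cont.comp (f := fun p : P × ℝ => (p.1, par x (x - O0) (δ * κ) p.2))
        (continuous_fst.prodMk (cpar.comp continuous_snd)).continuousOn
        fun p hp => ⟨k.ud.sub hp.1.1, mem _ (sT hp.2)⟩
    have c2 : ContinuousOn (fun p : P × ℝ => k.d p.1 y) ((k.K ∩ closedBall O0 δ) ×ˢ T) :=
      h.cont.comp (f := fun p : P × ℝ => (p.1, y))
        (continuous_fst.prodMk continuous_const).continuousOn fun p hp => ⟨k.ud.sub hp.1.1, my⟩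
    have c3 := (c1.sub c2).preimage_isClosed_of_isClosed (cK.prod cT).isClosed
      (isClosed_singleton (x := (0 : ℝ)))
    have c4 := (((cK.prod cT).of_isClosed_subset c3 inter_subset_left).image
      continuous_fst).measurableSet
    convert cK.measurableSet.diff c4 using 1
    ext O
    constructor
    · rintro ⟨h1, h2⟩
      refine ⟨h1, ?_⟩
      rintro ⟨p, ⟨hp, e⟩, rfl⟩
      exact h2 ⟨p.2, hp.2, sub_eq_zero.1 e⟩
    · rintro ⟨h1, h2⟩
      refine ⟨h1, ?_⟩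
      rintro ⟨τ, hτ, e⟩
      exact h2 ⟨(O, τ), ⟨⟨h1, hτ⟩, sub_eq_zero.2 e⟩, rfl⟩
  refine (GFAM_fub hGPAR w0 mB δ0.le (b := η * δ / κ0) (by positivity) (fun O hO => hO.1.2)
    fun κ' => ?_).trans (le_of_eq (by congr 1; field_simp))
  choose! τ hτ eτ using ivt
  refine sm _ (fun lam => τ (par O0 (y0 - O0) κ' lam)) κ0 κ00
    (fun a ha => ⟨hτ _ ha.1, fun hT => ha.2 ⟨_, hT, eτ _ ha.1⟩⟩) fun a ha a' ha' => ?_
  have bl : ∀ O ∈ k.K ∩ closedBall O0 δ, O ∈ k.K ∩ ball O0 ρ0 := fun O hO =>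
    ⟨hO.1, closedBall_subset_ball q2 hO.2⟩
  have g := gap _ (bl _ ha.1) _ (bl _ ha'.1) (a' - a) (by unfold par; module)
    (par x (x - O0) (δ * κ) (τ (par O0 (y0 - O0) κ' a)))
    (by rw [mem_ball, dist_eq_norm]; exact (near _ (hτ _ ha.1)).trans_lt q5) y hy0
  rw [eτ _ ha.1, sub_self, sub_zero, ← eτ _ ha'.1, abs_sub_comm a' a] at g
  refine g.trans ?_
  have mO' := k.ud.sub ha'.1.1
  have m1 := mem _ (hτ _ ha.1)
  have m2 := mem _ (hτ _ ha'.1)
  have t1 := h.triangle _ mO' _ m1 _ m2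
  have t2 := h.triangle _ mO' _ m2 _ m1
  rw [h.symm _ m2 _ m1] at t2
  rw [abs_le]
  constructor <;> linarith

end Pool.Agent.P.MP_874adf_gt.Gn
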