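import Pool.Agent.P.MP_874adf_gt.Gn.IfaceGa
import Pool.Agent.P.MP_874adf_gt.Gn.GaDen

/-! Step GFAMP. -/

set_option autoImplicit false

namespace Pool.Agent.P.MP_874adf_gt.Gn

open Pool.Agent.P.MP_874adf_gt.Fs Ga Set Filter Topology Metric MeasureTheory

lemma gfamp_near (x e : P) {δ κ τ L : ℝ} (δ0 : 0 < δ) (hκ : κ ∈ Icc (-1 : ℝ) 1)
    (hτ : τ ∈ Icc (-(L * δ)) (L * δ)) : dist (par x e (δ * κ) τ) x ≤ δ * ((1 + L) * ‖e‖) := by
  have e1 : ‖((-e.2, e.1) : P)‖ = ‖e‖ := by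
    simp [Prod.norm_def, max_comm]
  have e2 : par x e (δ * κ) τ - x = (δ * κ) • ((-e.2, e.1) : P) + τ • e := by
    simp only [par]; abel
  rw [dist_eq_norm, e2]
  refine (norm_add_le _ _).trans ?_
  rw [norm_smul, norm_smul, e1, Real.norm_eq_abs, Real.norm_eq_abs, abs_mul, abs_of_pos δ0]
  have h1 : |κ| ≤ 1 := abs_le.2 hκ
  have h2 : |τ| ≤ L * δ := abs_le.2 hτ
  have h3 := norm_nonneg e
  have h4 : δ * |κ| ≤ δ := by nlinarith
  nlinarith

theorem p_GFAMP (hGSEG : S_GSEG) (hGFAM : S_GFAM) :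
    S_GFAMP := by
  intro k ι _ x E E0 O0 hO0 y0 hy0 hne hsc hE0 hd0 hx δ0 δ00
  classical
  haveI := Fintype.ofFinite ι
  have hOM : O0 ∈ k.M := k.ud.sub hO0
  have hxO : ∀ j, x j - O0 ≠ 0 := by
    intro j h
    have h1 : x j = O0 := sub_eq_zero.1 h
    have h2 := (hx j).2.2.1
    rw [h1, (k.pm.eq_zero O0 hOM O0 hOM).2 rfl] at h2
    exact hne ((k.pm.eq_zero O0 hOM y0 hy0).1 h2.symm).symm
  choose L L0 C C0 hF using fun j =>
    hGFAM k O0 hO0 y0 hy0 (x j) (hx j).1 hne (hx j).2.1 (hx j).2.2.1 hsc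
  obtain ⟨n, hn⟩ : ∃ n : ℝ, n = (Fintype.card ι : ℝ) + 1 := ⟨_, rfl⟩
  have n0 : 0 < n := by rw [hn]; positivity
  have η0 : ∀ j, 0 < 1 / (n * C j) := fun j => by have := C0 j; positivity
  have hS := fun j => hGSEG k (x j) (hx j).1 (E j) (hx j).2.2.2.1 (hx j).2.2.2.2 (x j - O0) (hxO j)
    (L j) (L0 j) (1 / (n * C j)) (η0 j) (-1) 1 le_rfl (by norm_num) le_rfl
  have hB : ∀ a : ℝ, ∀ᶠ δ in 𝓝[>] (0 : ℝ), δ * a < δ0 := by
    intro a
    have t : Tendsto (fun δ : ℝ => δ * a) (𝓝[>] 0) (𝓝 (0 * a)) :=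
      ((continuous_id.mul continuous_const).tendsto 0).mono_left nhdsWithin_le_nhds
    rw [zero_mul] at t
    exact t.eventually (gt_mem_nhds δ00)
  obtain ⟨δ, ⟨⟨⟨⟨h1, h2⟩, h3⟩, h4⟩, h5⟩, δp⟩ := ((((((eventually_all.2 hF).and (eventually_all.2 hS)).and
    (eventually_all.2 fun j => hB ((1 + L j) * ‖x j - O0‖))).and (hB 1)).and (hd0 1 one_pos)).and
    self_mem_nhdsWithin).exists
  have δp : 0 < δ := δp
  choose ρ ρ0 h1 using h1
  choose κ hκ T Tc Ts TE hT using h2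
  obtain ⟨r, hr, r0⟩ := ((eventually_all.2 fun j =>
    (eventually_lt_nhds (ρ0 j)).filter_mono (nhdsWithin_le_nhds (s := Ioi (0 : ℝ)))).and
    self_mem_nhdsWithin).exists
  refine ⟨r, r0, δ ^ 2, by positivity, fun y hy N hN => ?_⟩
  by_contra hcon
  have hsub : closedBall O0 δ ⊆ (closedBall O0 δ \ E0 ∪ ⋃ j, {O ∈ k.K ∩ closedBall O0 δ |
      ¬ ∃ τ ∈ T j, k.d O (par (x j) (x j - O0) (δ * κ j) τ) = k.d O y}) ∪ N := by
    intro O hO
    by_contra hO'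
    simp only [mem_union, mem_iUnion, not_or, not_exists] at hO'
    obtain ⟨⟨a1, a2⟩, a3⟩ := hO'
    have OE : O ∈ E0 := by
      by_contra h
      exact a1 ⟨hO, h⟩
    refine hcon ⟨O, ⟨OE, closedBall_subset_ball (by linarith) hO⟩, a3, fun j => ?_⟩
    have a4 := a2 j
    by_contra a5
    refine a4 ⟨⟨hE0 OE, hO⟩, fun τ ⟨b1, b2⟩ => a5 ⟨_, ⟨TE j τ b1, ?_⟩, b2⟩⟩
    exact (gfamp_near _ _ δp (hκ j) (Ts j b1)).trans_lt (h3 j)
  have hbad : ∀ j, volume {O ∈ k.K ∩ closedBall O0 δ |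
      ¬ ∃ τ ∈ T j, k.d O (par (x j) (x j - O0) (δ * κ j) τ) = k.d O y} ≤
      ENNReal.ofReal (δ ^ 2 / n) := by
    intro j
    refine (h1 j _ (η0 j) (κ j) (hκ j) (T j) (Tc j) (Ts j) (hT j) y
      (ball_subset_ball (hr j).le hy)).trans (le_of_eq ?_)
    congr 1
    have := C0 j
    field_simp
  have hsum : volume (⋃ j, {O ∈ k.K ∩ closedBall O0 δ |
      ¬ ∃ τ ∈ T j, k.d O (par (x j) (x j - O0) (δ * κ j) τ) = k.d O y}) ≤
      ENNReal.ofReal (δ ^ 2) := by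
    refine (measure_iUnion_fintype_le _ _).trans ((Finset.sum_le_sum fun j _ => hbad j).trans ?_)
    rw [← ENNReal.ofReal_sum_of_nonneg (fun _ _ => by positivity)]
    refine ENNReal.ofReal_le_ofReal ?_
    rw [Finset.sum_const, Finset.card_univ, nsmul_eq_mul, ← mul_div_assoc, div_le_iff₀ n0, hn]
    nlinarith [sq_nonneg δ]
  have hfin := (measure_mono hsub).trans ((measure_union_le (μ := volume) _ _).trans
    (add_le_add ((measure_union_le _ _).trans (add_le_add h5 hsum)) hN.le))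
  rw [den_vol O0 δp.le, ← ENNReal.ofReal_add (by positivity) (by positivity),
    ← ENNReal.ofReal_add (by positivity) (by positivity),
    ENNReal.ofReal_le_ofReal_iff (by positivity)] at hfin
  nlinarith [sq_pos_of_pos δp]

end Pool.Agent.P.MP_874adf_gt.Gn
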