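import Pool.Agent.P.MP_874adf_gt.Gn.Defs

/-! How the distances to two or three points change when the centre moves. -/

set_option autoImplicit false

namespace Pool.Agent.P.MP_874adf_gt.Gn.L2

open Pool.Agent.P.MP_874adf_gt.Fs Set Filter Topology Metric MeasureTheory

lemma core {M : Set P} {d : P → P → ℝ} (pm : PM M d) {G : P → ℝ} (hG : IsN G) {O : P} {ε δ : ℝ}
    (hn : Near d G O ε δ) (hb : closedBall O δ ⊆ M) {z z' ω : P} (hz : z ∈ M) (hz' : z' ∈ M)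
    {m s : ℝ} (m0 : 0 ≤ m) (m1 : m ≤ 1) (s0 : 0 < s) (sd : s ≤ δ) (hω : ‖ω‖ ≤ s)
    (h1 : m * ‖z - O‖ ≤ s) (h2 : m * ‖z' - O‖ ≤ s) :
    G (m • (z - O)) + G (m • (z' - O)) - G (m • (z - O) - ω) - G (m • (z' - O) + ω) - 4 * (ε * s) ≤
      (d (O + ω) z' - d O z') - (d (O + ω) z - d O z) := by
  have bO : O ∈ closedBall O s := mem_closedBall_self s0.le
  have bω : O + ω ∈ closedBall O s := by simpa [mem_closedBall, dist_eq_norm] using hω
  have b1 : O + m • (z - O) ∈ closedBall O s := by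
    simpa [mem_closedBall, dist_eq_norm, norm_smul, abs_of_nonneg m0] using h1
  have b2 : O - m • (z' - O) ∈ closedBall O s := by
    simpa [mem_closedBall, dist_eq_norm, norm_smul, abs_of_nonneg m0] using h2
  have sM : closedBall O s ⊆ M := (closedBall_subset_closedBall sd).trans hb
  have n1 := hn s s0 sd _ bω _ b1
  have n2 := hn s s0 sd _ bO _ b1
  have n3 := hn s s0 sd _ b2 _ bO
  have n4 := hn s s0 sd _ b2 _ bω
  have e1 : O + m • (z - O) - (O + ω) = m • (z - O) - ω := by abel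
  have e2 : O + m • (z - O) - O = m • (z - O) := by abel
  have e3 : O - (O - m • (z' - O)) = m • (z' - O) := by abel
  have e4 : O + ω - (O - m • (z' - O)) = m • (z' - O) + ω := by abel
  rw [e1] at n1; rw [e2] at n2; rw [e3] at n3; rw [e4] at n4
  have a1 := pm.add (sM bO) hz m0 m1
  have t1 := pm.triangle _ (sM bω) _ (sM b1) _ hz
  have e5 : O + (-m) • (z' - O) = O - m • (z' - O) := by module
  have e6 : O + (0 : ℝ) • (z' - O) = O := by module
  have e7 : O + (1 : ℝ) • (z' - O) = z' := by module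
  have a2 := pm.line_add (x := O) (v := z' - O) (r := -m) (s := 0) (t := 1) (by rw [e5]; exact sM b2)
    (by rw [e7]; exact hz') (by linarith) zero_le_one
  rw [e5, e6, e7] at a2
  have t2 := pm.triangle _ (sM b2) _ (sM bω) _ hz'
  rw [abs_le] at n1 n2 n3 n4
  linarith [n1.1, n1.2, n2.1, n2.2, n3.1, n3.2, n4.1, n4.2]

lemma thick (k : Kx) : ∃ δ > (0 : ℝ), ∀ x ∈ k.K, closedBall x δ ⊆ k.M := by
  obtain ⟨δ, δ0, h⟩ := k.ud.cpt.exists_cthickening_subset_open k.pm.isOpen k.ud.sub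
  exact ⟨δ, δ0, fun x hx => (closedBall_subset_cthickening hx δ).trans h⟩

lemma near_mono {d : P → P → ℝ} {G : P → ℝ} {x : P} {ε δ δ' : ℝ} (h : Near d G x ε δ)
    (hd : δ' ≤ δ) : Near d G x ε δ' := fun s s0 hs => h s s0 (hs.trans hd)

/-- uniform scale -/
lemma scale (k : Kx) {ε : ℝ} (hε : 0 < ε) : ∃ δ > (0 : ℝ), ∀ x ∈ k.K,
    closedBall x δ ⊆ k.M ∧ Near k.d (k.F x) x ε δ := by
  obtain ⟨δ1, h1, H1⟩ := thick k
  obtain ⟨δ2, h2, H2⟩ := k.ud.unif ε hε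
  exact ⟨min δ1 δ2, lt_min h1 h2, fun x hx =>
    ⟨(closedBall_subset_closedBall (min_le_left _ _)).trans (H1 x hx),
      near_mono (H2 x hx) (min_le_right _ _)⟩⟩

lemma cwa (k : Kx) {p : P × P × P} (hp : p.1 ∈ k.K) {a : P × P × P → P} (ha : Continuous a) :
    ContinuousWithinAt (fun q : P × P × P => k.F q.1 (a q)) {q | q.1 ∈ k.K} p := by
  have h1 : ContinuousWithinAt (fun q : P × P => k.F q.1 q.2) (k.K ×ˢ univ) (p.1, a p) :=
    k.ud.cont _ ⟨hp, mem_univ _⟩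
  have h2 : ContinuousWithinAt (fun q : P × P × P => (q.1, a q)) {q | q.1 ∈ k.K} p :=
    (continuous_fst.prodMk ha).continuousWithinAt
  exact ContinuousWithinAt.comp (f := fun q : P × P × P => (q.1, a q)) h1 h2
    fun q hq => ⟨hq, mem_univ _⟩

lemma radius {K : Set P} {O x y : P} {Q : P → P → P → Prop}
    (h : ∀ᶠ q in 𝓝[{q : P × P × P | q.1 ∈ K}] (O, x, y), Q q.1 q.2.1 q.2.2) :
    ∃ ρ > (0 : ℝ), ∀ O' ∈ K, O' ∈ ball O ρ → ∀ x' ∈ ball x ρ, ∀ y' ∈ ball y ρ, Q O' x' y' := by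
  obtain ⟨ρ, ρ0, H⟩ := Metric.mem_nhdsWithin_iff.1 h
  refine ⟨ρ, ρ0, fun O' hK hO x' hx y' hy => ?_⟩
  have : (O', x', y') ∈ ball (O, x, y) ρ := by
    exact max_lt (mem_ball.1 hO) (max_lt (mem_ball.1 hx) (mem_ball.1 hy))
  exact H ⟨this, hK⟩

/-- two different points of a circle -/
lemma gap_of {M : Set P} {d : P → P → ℝ} (pm : PM M d) {G : P → ℝ} (hG : IsN G) {O x y : P}
    (hO : O ∈ M) (hx : x ∈ M) (hy : y ∈ M) (hne : x ≠ y) (he : d O x = d O y)
    (hs : SCd G (y - O)) : G (x - O + (y - O)) < G (x - O) + G (y - O) := by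
  by_cases hw : wed (x - O) (y - O) = 0
  swap
  · have := hs (x - O) hw
    rw [add_comm (x - O)]; linarith
  have hyO : y - O ≠ 0 := by
    intro e
    have e1 : y = O := sub_eq_zero.1 e
    rw [e1, pm.self hO] at he
    exact hne (((pm.eq_zero O hO x hx).1 he).symm.trans e1.symm)
  obtain ⟨c, hc⟩ : ∃ c : ℝ, x - O = c • (y - O) := by
    set v := x - O
    set w := y - O
    have hp : 0 < w.1 ^ 2 + w.2 ^ 2 := by
      by_contra hh
      have h1 : w.1 = 0 := by nlinarith [sq_nonneg w.1, sq_nonneg w.2]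
      have h2 : w.2 = 0 := by nlinarith [sq_nonneg w.1, sq_nonneg w.2]
      exact hyO (Prod.ext h1 h2)
    unfold wed at hw
    refine ⟨(v.1 * w.1 + v.2 * w.2) / (w.1 ^ 2 + w.2 ^ 2), Prod.ext ?_ ?_⟩
    · simp only [Prod.smul_fst, smul_eq_mul]; field_simp; linear_combination w.2 * hw
    · simp only [Prod.smul_snd, smul_eq_mul]; field_simp; linear_combination (-w.1) * hw
  have gp := hG.pos _ hyO
  have hx' : x = O + c • (y - O) := by rw [← hc]; abel
  have e0 : O + (0 : ℝ) • (y - O) = O := by module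
  have e1 : O + (1 : ℝ) • (y - O) = y := by module
  have hc0 : c < 0 := by
    by_contra hh
    push Not at hh
    rcases le_total c 1 with h1 | h1
    · have a := pm.line_add (x := O) (v := y - O) (r := 0) (s := c) (t := 1) (by rw [e0]; exact hO)
        (by rw [e1]; exact hy) hh h1
      rw [e0, e1, ← hx'] at a
      exact hne ((pm.eq_zero x hx y hy).1 (by linarith))
    · have a := pm.line_add (x := O) (v := y - O) (r := 0) (s := 1) (t := c) (by rw [e0]; exact hO)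
        (by rw [← hx']; exact hx) zero_le_one h1
      rw [e0, e1, ← hx'] at a
      exact hne ((pm.eq_zero y hy x hx).1 (by linarith)).symm
  have e : x - O + (y - O) = (c + 1) • (y - O) := by rw [hc]; module
  rw [e, hc, hG.smul, hG.smul, abs_of_neg hc0]
  have : |c + 1| < -c + 1 := abs_lt.2 ⟨by linarith, by linarith⟩
  nlinarith

theorem gap2' (k : Kx) {O x y : P} (hO : O ∈ k.K) (hx : x ∈ k.M) (hy : y ∈ k.M)
    (hg : k.F O (x - O + (y - O)) < k.F O (x - O) + k.F O (y - O)) :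
    ∃ κ > (0 : ℝ), ∃ ρ > (0 : ℝ), ∀ O1 ∈ k.K, O1 ∈ ball O ρ → ∀ lam : ℝ, |lam| ≤ ρ →
      ∀ x1 ∈ ball x ρ, ∀ y1 ∈ ball y ρ,
        κ * |lam| ≤ |(k.d (O1 + lam • (y - O)) x1 - k.d (O1 + lam • (y - O)) y1) -
          (k.d O1 x1 - k.d O1 y1)| := by
  set w := y - O with hw
  set g := k.F O (x - O) + k.F O w - k.F O (x - O + w) with hgd
  have g0 : 0 < g := by linarith
  set R := ‖x - O‖ + ‖w‖ + 1 with hR
  have R0 : 0 < R := by positivity
  have c1 : ContinuousWithinAt (fun q : P × P × P => k.F q.1 (q.2.2 - q.1) + k.F q.1 (q.2.1 - q.1) -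
      k.F q.1 (q.2.2 - q.1 - w) - k.F q.1 (q.2.1 - q.1 + w)) {q | q.1 ∈ k.K} (O, x, y) :=
    (((cwa k hO (by fun_prop)).add (cwa k hO (by fun_prop))).sub (cwa k hO (by fun_prop))).sub
      (cwa k hO (by fun_prop))
  have ev1 : ∀ᶠ q in 𝓝[{q : P × P × P | q.1 ∈ k.K}] (O, x, y),
      g / 2 < k.F q.1 (q.2.2 - q.1) + k.F q.1 (q.2.1 - q.1) -
        k.F q.1 (q.2.2 - q.1 - w) - k.F q.1 (q.2.1 - q.1 + w) := by
    refine c1.tendsto.eventually (lt_mem_nhds ?_)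
    simp only [← hw, sub_self, (k.isN O hO).zero]
    linarith
  have ev2 : ∀ᶠ q in 𝓝[{q : P × P × P | q.1 ∈ k.K}] (O, x, y),
      ‖q.2.1 - q.1‖ < R ∧ ‖q.2.2 - q.1‖ < R ∧ q.2.1 ∈ k.M ∧ q.2.2 ∈ k.M := by
    refine eventually_nhdsWithin_of_eventually_nhds ?_
    have a1 : Continuous fun q : P × P × P => ‖q.2.1 - q.1‖ := by fun_prop
    have a2 : Continuous fun q : P × P × P => ‖q.2.2 - q.1‖ := by fun_prop
    have a3 : Continuous fun q : P × P × P => q.2.1 := by fun_prop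
    have a4 : Continuous fun q : P × P × P => q.2.2 := by fun_prop
    refine ((a1.tendsto _).eventually (gt_mem_nhds ?_)).and
      (((a2.tendsto _).eventually (gt_mem_nhds ?_)).and
      (((a3.tendsto _).eventually (k.pm.isOpen.mem_nhds hx)).and
      ((a4.tendsto _).eventually (k.pm.isOpen.mem_nhds hy))))
    · simp only [hR]; linarith [norm_nonneg w]
    · simp only [hR, ← hw]; linarith [norm_nonneg (x - O)]
  obtain ⟨ρ, ρ0, H⟩ := radius (Q := fun O1 x1 y1 => (g / 2 < k.F O1 (y1 - O1) + k.F O1 (x1 - O1) -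
        k.F O1 (y1 - O1 - w) - k.F O1 (x1 - O1 + w)) ∧
      ‖x1 - O1‖ < R ∧ ‖y1 - O1‖ < R ∧ x1 ∈ k.M ∧ y1 ∈ k.M) (ev1.and ev2)
  obtain ⟨δ, δ0, Hδ⟩ := scale k (ε := g / (16 * R)) (by positivity)
  refine ⟨g / 4, by positivity, min ρ (min 1 (δ / R)), lt_min ρ0 (lt_min one_pos (by positivity)),
    fun O1 hK hO1 lam hl x1 hx1 y1 hy1 => ?_⟩
  obtain ⟨hq, q1, q2, q3, q4⟩ := H O1 hK (ball_subset_ball (min_le_left _ _) hO1) x1
    (ball_subset_ball (min_le_left _ _) hx1) y1 (ball_subset_ball (min_le_left _ _) hy1)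
  rcases eq_or_ne lam 0 with rfl | l0
  · simp
  have lp : 0 < |lam| := abs_pos.2 l0
  have l1 : |lam| ≤ 1 := hl.trans ((min_le_right _ _).trans (min_le_left _ _))
  have l2 : |lam| * R ≤ δ := by
    have := hl.trans ((min_le_right _ _).trans (min_le_right _ _))
    rwa [le_div_iff₀ R0] at this
  have N := k.isN O1 hK
  have hω : ‖lam • w‖ ≤ |lam| * R := by
    rw [norm_smul, Real.norm_eq_abs]
    exact mul_le_mul_of_nonneg_left (by simp only [hR]; linarith [norm_nonneg (x - O)]) lp.le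
  have u1 : |lam| * ‖x1 - O1‖ ≤ |lam| * R := mul_le_mul_of_nonneg_left q1.le lp.le
  have u2 : |lam| * ‖y1 - O1‖ ≤ |lam| * R := mul_le_mul_of_nonneg_left q2.le lp.le
  have er : 4 * (g / (16 * R) * (|lam| * R)) = g / 4 * |lam| := by field_simp; ring
  have pr := mul_lt_mul_of_pos_left hq lp
  rcases lt_or_gt_of_ne l0 with ln | lq
  · have c := core k.pm N (Hδ O1 hK).2 (Hδ O1 hK).1 q3 q4 lp.le l1 (by positivity) l2 hω u1 u2
    have e1 : |lam| • (x1 - O1) - lam • w = |lam| • (x1 - O1 + w) := by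
      rw [abs_of_neg ln]; module
    have e2 : |lam| • (y1 - O1) + lam • w = |lam| • (y1 - O1 - w) := by
      rw [abs_of_neg ln]; module
    rw [e1, e2, N.smul_nonneg lp.le, N.smul_nonneg lp.le, N.smul_nonneg lp.le,
      N.smul_nonneg lp.le, er] at c
    rw [abs_sub_comm]
    refine le_trans ?_ (le_abs_self _)
    nlinarith
  · have c := core k.pm N (Hδ O1 hK).2 (Hδ O1 hK).1 q4 q3 lp.le l1 (by positivity) l2 hω u2 u1
    have e1 : |lam| • (x1 - O1) + lam • w = |lam| • (x1 - O1 + w) := by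
      rw [abs_of_pos lq]; module
    have e2 : |lam| • (y1 - O1) - lam • w = |lam| • (y1 - O1 - w) := by
      rw [abs_of_pos lq]; module
    rw [e1, e2, N.smul_nonneg lp.le, N.smul_nonneg lp.le, N.smul_nonneg lp.le,
      N.smul_nonneg lp.le, er] at c
    refine le_trans ?_ (le_abs_self _)
    nlinarith

theorem gap2 (k : Kx) {O x y : P} (hO : O ∈ k.K) (hx : x ∈ k.M) (hy : y ∈ k.M) (hne : x ≠ y)
    (he : k.d O x = k.d O y) (hs : SCd (k.F O) (y - O)) :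
    ∃ κ > (0 : ℝ), ∃ ρ > (0 : ℝ), ∀ O1 ∈ k.K, O1 ∈ ball O ρ → ∀ lam : ℝ, |lam| ≤ ρ →
      ∀ x1 ∈ ball x ρ, ∀ y1 ∈ ball y ρ,
        κ * |lam| ≤ |(k.d (O1 + lam • (y - O)) x1 - k.d (O1 + lam • (y - O)) y1) -
          (k.d O1 x1 - k.d O1 y1)| :=
  gap2' k hO hx hy (gap_of k.pm (k.isN O hO) (k.ud.sub hO) hx hy hne he hs)

lemma wed_le (v w : P) : |wed v w| ≤ 2 * (‖v‖ * ‖w‖) := by
  have a1 : |v.1| ≤ ‖v‖ := norm_fst_le v
  have a2 : |v.2| ≤ ‖v‖ := norm_snd_le v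
  have a3 : |w.1| ≤ ‖w‖ := norm_fst_le w
  have a4 : |w.2| ≤ ‖w‖ := norm_snd_le w
  have b1 : |v.1 * w.2| ≤ ‖v‖ * ‖w‖ := by
    rw [abs_mul]; exact mul_le_mul a1 a4 (abs_nonneg _) (norm_nonneg _)
  have b2 : |v.2 * w.1| ≤ ‖v‖ * ‖w‖ := by
    rw [abs_mul]; exact mul_le_mul a2 a3 (abs_nonneg _) (norm_nonneg _)
  unfold wed
  linarith [abs_sub (v.1 * w.2) (v.2 * w.1)]

lemma side {M : Set P} {d : P → P → ℝ} (pm : PM M d) {G : P → ℝ} (hG : IsN G) {O : P} {g R δ : ℝ}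
    (R0 : 0 < R) (g0 : 0 < g) (hn : Near d G O (g / (16 * R)) δ) (hb : closedBall O δ ⊆ M)
    {z z' ω : P} (hz : z ∈ M) (hz' : z' ∈ M) (q1 : ‖z - O‖ ≤ R) (q2 : ‖z' - O‖ ≤ R)
    (hq : g / 2 ≤ G (z - O) + G (z' - O) - G (z - O + (z' - O))) {a b : ℝ} (a0 : 0 ≤ a) (b0 : 0 ≤ b)
    (e : ω = b • (z - O) - a • (z' - O)) (m1 : a + b ≤ 1) (m2 : (a + b) * R ≤ δ) :
    g / (4 * R) * ‖ω‖ ≤ (d (O + ω) z' - d O z') - (d (O + ω) z - d O z) := by
  have hω : ‖ω‖ ≤ (a + b) * R := by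
    rw [e]
    refine (norm_sub_le _ _).trans ?_
    rw [norm_smul, norm_smul, Real.norm_of_nonneg a0, Real.norm_of_nonneg b0]
    nlinarith [mul_le_mul_of_nonneg_left q1 b0, mul_le_mul_of_nonneg_left q2 a0]
  rcases eq_or_lt_of_le (add_nonneg a0 b0) with h0 | h0
  · have : ω = 0 := by
      rw [← h0, zero_mul] at hω; exact norm_le_zero_iff.1 hω
    simp [this]
  have c := core pm hG hn hb hz hz' h0.le m1 (by positivity) m2 hω
    (mul_le_mul_of_nonneg_left q1 h0.le) (mul_le_mul_of_nonneg_left q2 h0.le)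
  have e1 : (a + b) • (z - O) - ω = a • (z - O + (z' - O)) := by rw [e]; module
  have e2 : (a + b) • (z' - O) + ω = b • (z - O + (z' - O)) := by rw [e]; module
  have er : 4 * (g / (16 * R) * ((a + b) * R)) = g / 4 * (a + b) := by field_simp; ring
  rw [e1, e2, hG.smul_nonneg h0.le, hG.smul_nonneg h0.le, hG.smul_nonneg a0,
    hG.smul_nonneg b0, er] at c
  have pr := mul_le_mul_of_nonneg_left hq h0.le
  have u : g / (4 * R) * ‖ω‖ ≤ g / 4 * (a + b) := by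
    have : g / 4 * (a + b) = g / (4 * R) * ((a + b) * R) := by field_simp
    rw [this]; exact mul_le_mul_of_nonneg_left hω (by positivity)
  nlinarith

/-- two points seen on the same side of the displacement -/
theorem pair (k : Kx) {O y y' : P} (hO : O ∈ k.K) (hy : y ∈ k.M) (hy' : y' ∈ k.M)
    (hw : wed (y - O) (y' - O) ≠ 0)
    (hg : k.F O (y - O + (y' - O)) < k.F O (y - O) + k.F O (y' - O)) :
    ∃ κ > (0 : ℝ), ∃ ρ > (0 : ℝ), ∀ O1 ∈ k.K, O1 ∈ ball O ρ → ∀ O2 ∈ ball O ρ,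
      ∀ z ∈ ball y ρ, ∀ z' ∈ ball y' ρ, 0 ≤ wed (O2 - O1) (z - O1) * wed (O2 - O1) (z' - O1) →
        κ * ‖O2 - O1‖ ≤ |(k.d O2 z' - k.d O1 z') - (k.d O2 z - k.d O1 z)| := by
  set g := k.F O (y - O) + k.F O (y' - O) - k.F O (y - O + (y' - O)) with hgd
  have g0 : 0 < g := by linarith
  set R := ‖y - O‖ + ‖y' - O‖ + 1 with hR
  have R0 : 0 < R := by positivity
  set W := |wed (y - O) (y' - O)| with hW
  have W0 : 0 < W := abs_pos.2 hw
  have c1 : ContinuousWithinAt (fun q : P × P × P => k.F q.1 (q.2.1 - q.1) + k.F q.1 (q.2.2 - q.1) -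
      k.F q.1 (q.2.1 - q.1 + (q.2.2 - q.1))) {q | q.1 ∈ k.K} (O, y, y') :=
    ((cwa k hO (by fun_prop)).add (cwa k hO (by fun_prop))).sub (cwa k hO (by fun_prop))
  have ev1 : ∀ᶠ q in 𝓝[{q : P × P × P | q.1 ∈ k.K}] (O, y, y'),
      g / 2 < k.F q.1 (q.2.1 - q.1) + k.F q.1 (q.2.2 - q.1) -
        k.F q.1 (q.2.1 - q.1 + (q.2.2 - q.1)) := by
    refine c1.tendsto.eventually (lt_mem_nhds ?_)
    simp only
    linarith
  have ev2 : ∀ᶠ q in 𝓝[{q : P × P × P | q.1 ∈ k.K}] (O, y, y'),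
      ‖q.2.1 - q.1‖ < R ∧ ‖q.2.2 - q.1‖ < R ∧ q.2.1 ∈ k.M ∧ q.2.2 ∈ k.M ∧
        W / 2 < |wed (q.2.1 - q.1) (q.2.2 - q.1)| := by
    refine eventually_nhdsWithin_of_eventually_nhds ?_
    have a1 : Continuous fun q : P × P × P => ‖q.2.1 - q.1‖ := by fun_prop
    have a2 : Continuous fun q : P × P × P => ‖q.2.2 - q.1‖ := by fun_prop
    have a3 : Continuous fun q : P × P × P => q.2.1 := by fun_prop
    have a4 : Continuous fun q : P × P × P => q.2.2 := by fun_prop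
    have a5 : Continuous fun q : P × P × P => |wed (q.2.1 - q.1) (q.2.2 - q.1)| := by
      unfold wed; fun_prop
    refine ((a1.tendsto _).eventually (gt_mem_nhds ?_)).and
      (((a2.tendsto _).eventually (gt_mem_nhds ?_)).and
      (((a3.tendsto _).eventually (k.pm.isOpen.mem_nhds hy)).and
      (((a4.tendsto _).eventually (k.pm.isOpen.mem_nhds hy')).and
      ((a5.tendsto _).eventually (lt_mem_nhds ?_)))))
    · simp only [hR]; linarith [norm_nonneg (y' - O)]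
    · simp only [hR]; linarith [norm_nonneg (y - O)]
    · simp only [← hW]; linarith
  obtain ⟨ρ, ρ0, H⟩ := radius (Q := fun O1 z z' => (g / 2 < k.F O1 (z - O1) + k.F O1 (z' - O1) -
        k.F O1 (z - O1 + (z' - O1))) ∧ ‖z - O1‖ < R ∧ ‖z' - O1‖ < R ∧ z ∈ k.M ∧ z' ∈ k.M ∧
        W / 2 < |wed (z - O1) (z' - O1)|) (ev1.and ev2)
  obtain ⟨δ, δ0, Hδ⟩ := scale k (ε := g / (16 * R)) (by positivity)
  set τ := min 1 (δ / R) with hτ
  have τ0 : 0 < τ := lt_min one_pos (by positivity)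
  refine ⟨g / (4 * R), by positivity, min ρ (τ * W / (16 * R)), lt_min ρ0 (by positivity),
    fun O1 hK hO1 O2 hO2 z hz z' hz' hs => ?_⟩
  obtain ⟨hq, q1, q2, q3, q4, q5⟩ := H O1 hK (ball_subset_ball (min_le_left _ _) hO1) z
    (ball_subset_ball (min_le_left _ _) hz) z' (ball_subset_ball (min_le_left _ _) hz')
  have N := k.isN O1 hK
  set ω := O2 - O1 with hω
  have eO : O2 = O1 + ω := by rw [hω]; abel
  have nω : ‖ω‖ ≤ τ * W / (8 * R) := by
    have h1 : dist O1 O < τ * W / (16 * R) := lt_of_lt_of_le hO1 (min_le_right _ _)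
    have h2 : dist O2 O < τ * W / (16 * R) := lt_of_lt_of_le hO2 (min_le_right _ _)
    have h3 := dist_triangle_right O2 O1 O
    rw [dist_eq_norm O2 O1] at h3
    have : τ * W / (8 * R) = τ * W / (16 * R) + τ * W / (16 * R) := by field_simp; ring
    linarith
  set v := z - O1 with hv
  set v' := z' - O1 with hv'
  set V := wed v v' with hV
  have V0 : V ≠ 0 := by
    intro e; rw [e, abs_zero] at q5; linarith
  have bd : ∀ u : P, ‖u‖ < R → |wed ω u / V| ≤ τ / 2 := by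
    intro u hu
    rw [abs_div, div_le_iff₀ (abs_pos.2 V0)]
    have h1 := wed_le ω u
    have h2 : ‖ω‖ * ‖u‖ ≤ τ * W / (8 * R) * R :=
      mul_le_mul nω hu.le (norm_nonneg _) (by positivity)
    have h3 : τ * W / (8 * R) * R = τ * W / 8 := by field_simp
    nlinarith
  have id1 : ω = (wed ω v' / V) • v - (wed ω v / V) • v' := by
    ext
    · simp only [Prod.fst_sub, Prod.smul_fst, smul_eq_mul]; field_simp; simp only [hV, wed]; ring
    · simp only [Prod.snd_sub, Prod.smul_snd, smul_eq_mul]; field_simp; simp only [hV, wed]; ring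
  have ba := bd v q1
  have bb := bd v' q2
  set a := wed ω v / V with ha
  set b := wed ω v' / V with hb
  have ab : 0 ≤ a * b := by
    have : a * b = wed ω v * wed ω v' / (V * V) := by rw [ha, hb]; field_simp
    rw [this]; exact div_nonneg hs (mul_self_nonneg V)
  have t1 : τ ≤ 1 := min_le_left _ _
  have t2 : τ * R ≤ δ := by
    have : τ ≤ δ / R := min_le_right _ _
    rwa [le_div_iff₀ R0] at this
  rw [abs_le] at ba bb
  rcases mul_nonneg_iff.1 ab with ⟨a0, b0⟩ | ⟨a0, b0⟩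
  · have c := side k.pm N R0 g0 (Hδ O1 hK).2 (Hδ O1 hK).1 q3 q4 q1.le q2.le hq.le a0 b0 id1
      (by linarith) (by nlinarith)
    rw [← eO] at c
    exact c.trans (le_abs_self _)
  · have id2 : ω = (-a) • v' - (-b) • v := by rw [id1]; module
    have hq' : g / 2 ≤ k.F O1 v' + k.F O1 v - k.F O1 (v' + v) := by rw [add_comm v']; linarith
    have c := side k.pm N R0 g0 (Hδ O1 hK).2 (Hδ O1 hK).1 q4 q3 q2.le q1.le hq'
      (neg_nonneg.2 b0) (neg_nonneg.2 a0) id2 (by linarith) (by nlinarith)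
    rw [← eO] at c
    rw [abs_sub_comm]
    exact c.trans (le_abs_self _)

theorem lip2 (k : Kx) {O y1 y2 y3 : P} (hO : O ∈ k.K) (h1 : y1 ∈ k.M) (h2 : y2 ∈ k.M)
    (h3 : y3 ∈ k.M) (w12 : wed (y1 - O) (y2 - O) ≠ 0) (w13 : wed (y1 - O) (y3 - O) ≠ 0)
    (w23 : wed (y2 - O) (y3 - O) ≠ 0) (s2 : SCd (k.F O) (y2 - O)) (s3 : SCd (k.F O) (y3 - O)) :
    ∃ κ > (0 : ℝ), ∃ ρ > (0 : ℝ), ∀ O1 ∈ k.K, O1 ∈ ball O ρ → ∀ O2 ∈ ball O ρ,
      ∀ z1 ∈ ball y1 ρ, ∀ z2 ∈ ball y2 ρ, ∀ z3 ∈ ball y3 ρ,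
        κ * ‖O2 - O1‖ ≤ max |(k.d O2 z2 - k.d O1 z2) - (k.d O2 z1 - k.d O1 z1)|
          |(k.d O2 z3 - k.d O1 z3) - (k.d O2 z1 - k.d O1 z1)| := by
  obtain ⟨κ1, k1, ρ1, r1, H1⟩ := pair k hO h1 h2 w12
    (by have := s2 _ w12; rw [add_comm (y1 - O)]; linarith)
  obtain ⟨κ2, k2, ρ2, r2, H2⟩ := pair k hO h1 h3 w13
    (by have := s3 _ w13; rw [add_comm (y1 - O)]; linarith)
  obtain ⟨κ3, k3, ρ3, r3, H3⟩ := pair k hO h2 h3 w23
    (by have := s3 _ w23; rw [add_comm (y2 - O)]; linarith)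
  refine ⟨min κ1 (min κ2 (κ3 / 2)), by positivity, min ρ1 (min ρ2 ρ3), by positivity,
    fun O1 hK hO1 O2 hO2 z1 hz1 z2 hz2 z3 hz3 => ?_⟩
  have b1 : ∀ {x c : P}, x ∈ ball c (min ρ1 (min ρ2 ρ3)) → x ∈ ball c ρ1 :=
    fun h => ball_subset_ball (min_le_left _ _) h
  have b2 : ∀ {x c : P}, x ∈ ball c (min ρ1 (min ρ2 ρ3)) → x ∈ ball c ρ2 :=
    fun h => ball_subset_ball ((min_le_right _ _).trans (min_le_left _ _)) h
  have b3 : ∀ {x c : P}, x ∈ ball c (min ρ1 (min ρ2 ρ3)) → x ∈ ball c ρ3 :=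
    fun h => ball_subset_ball ((min_le_right _ _).trans (min_le_right _ _)) h
  have A := H1 O1 hK (b1 hO1) O2 (b1 hO2) z1 (b1 hz1) z2 (b1 hz2)
  have B := H2 O1 hK (b2 hO1) O2 (b2 hO2) z1 (b2 hz1) z3 (b2 hz3)
  have C := H3 O1 hK (b3 hO1) O2 (b3 hO2) z2 (b3 hz2) z3 (b3 hz3)
  have n0 := norm_nonneg (O2 - O1)
  have m1 : min κ1 (min κ2 (κ3 / 2)) * ‖O2 - O1‖ ≤ κ1 * ‖O2 - O1‖ :=
    mul_le_mul_of_nonneg_right (min_le_left _ _) n0
  have m2 : min κ1 (min κ2 (κ3 / 2)) * ‖O2 - O1‖ ≤ κ2 * ‖O2 - O1‖ :=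
    mul_le_mul_of_nonneg_right ((min_le_right _ _).trans (min_le_left _ _)) n0
  have m3 : min κ1 (min κ2 (κ3 / 2)) * ‖O2 - O1‖ ≤ κ3 / 2 * ‖O2 - O1‖ :=
    mul_le_mul_of_nonneg_right ((min_le_right _ _).trans (min_le_right _ _)) n0
  set p := wed (O2 - O1) (z1 - O1)
  set q := wed (O2 - O1) (z2 - O1)
  set r := wed (O2 - O1) (z3 - O1)
  set X := k.d O2 z1 - k.d O1 z1
  set Y := k.d O2 z2 - k.d O1 z2
  set Z := k.d O2 z3 - k.d O1 z3
  have l1 := le_max_left |Y - X| |Z - X|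
  have l2 := le_max_right |Y - X| |Z - X|
  by_cases c1 : 0 ≤ p * q
  · linarith [A c1]
  by_cases c2 : 0 ≤ p * r
  · linarith [B c2]
  have c3 : 0 ≤ q * r := by
    push Not at c1 c2
    by_contra hh
    push Not at hh
    have := mul_pos_of_neg_of_neg c1 c2
    nlinarith [mul_nonneg (mul_self_nonneg p) (neg_nonneg.2 hh.le)]
  have tri : |Z - Y| ≤ |Y - X| + |Z - X| := by
    have := abs_sub (Z - X) (Y - X)
    have e : Z - X - (Y - X) = Z - Y := by ring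
    rw [e] at this; linarith
  linarith [C c3]

end Pool.Agent.P.MP_874adf_gt.Gn.L2
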