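import Pool.Agent.P.MP_874adf_gt.Gn.IfaceGa
import Pool.Agent.P.MP_874adf_gt.Gn.GaL2

/-! Step GGAP2. -/

set_option autoImplicit false

namespace Pool.Agent.P.MP_874adf_gt.Gn

open Pool.Agent.P.MP_874adf_gt.Fs Ga Set Filter Topology Metric MeasureTheory

theorem p_GGAP2 :
    S_GGAP2 := by
  intro k O0 hO x0 hx y0 hy hne hyO he hs
  obtain ⟨κ, κ0, ρ, ρ0, H⟩ := L2.gap2 k hO hx hy hne he hs
  have n0 : 0 < ‖y0 - O0‖ := norm_pos_iff.2 (sub_ne_zero.2 hyO)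
  refine ⟨κ, κ0, min ρ (ρ * ‖y0 - O0‖ / 2), lt_min ρ0 (by positivity),
    fun O hO1 O' hO2 lam e x hx1 y hy1 => ?_⟩
  have h1 : dist O O0 < ρ * ‖y0 - O0‖ / 2 := lt_of_lt_of_le hO1.2 (min_le_right _ _)
  have h2 : dist O' O0 < ρ * ‖y0 - O0‖ / 2 := lt_of_lt_of_le hO2.2 (min_le_right _ _)
  have h3 := dist_triangle_right O' O O0
  have h4 : dist O' O = |lam| * ‖y0 - O0‖ := by
    rw [e, dist_eq_norm, add_sub_cancel_left, norm_smul, Real.norm_eq_abs]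
  have h5 : |lam| ≤ ρ := le_of_mul_le_mul_right (by linarith) n0
  rw [e]
  exact H O hO1.1 (ball_subset_ball (min_le_left _ _) hO1.2) lam h5 x
    (ball_subset_ball (min_le_left _ _) hx1) y (ball_subset_ball (min_le_left _ _) hy1)

end Pool.Agent.P.MP_874adf_gt.Gn
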