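import Pool.Agent.P.MP_874adf_gt.Gn.IfaceGa

/-! Step GGAPL. -/

set_option autoImplicit false

namespace Pool.Agent.P.MP_874adf_gt.Gn

open Pool.Agent.P.MP_874adf_gt.Fs Ga Set Filter Topology Metric MeasureTheory

theorem GGAPL_haus {E : Type} [NormedAddCommGroup E] [MeasurableSpace E] [BorelSpace E]
    {g : E → E} {T Z : Set E} {κ : ℝ} (hκ : 0 < κ)
    (h : ∀ t ∈ T, ∀ t' ∈ T, κ * ‖t - t'‖ ≤ ‖g t - g t'‖) (hm : MapsTo g T Z) {d : ℝ} (hd : 0 ≤ d) :
    Measure.hausdorffMeasure d T ≤ ENNReal.ofReal κ⁻¹ ^ d * Measure.hausdorffMeasure d Z := by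
  have inj : InjOn g T := fun t ht t' ht' e => by
    have := h t ht t' ht'
    rw [e, sub_self, norm_zero] at this
    exact sub_eq_zero.1 (norm_le_zero_iff.1 (nonpos_of_mul_nonpos_right this hκ))
  have lip : LipschitzOnWith (Real.toNNReal κ⁻¹) (Function.invFunOn g T) (g '' T) := by
    refine LipschitzOnWith.of_dist_le' ?_
    rintro _ ⟨t, ht, rfl⟩ _ ⟨t', ht', rfl⟩
    rw [inj.leftInvOn_invFunOn ht, inj.leftInvOn_invFunOn ht', dist_eq_norm, dist_eq_norm,
      ← div_eq_inv_mul, le_div_iff₀' hκ]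
    exact h t ht t' ht'
  have := lip.hausdorffMeasure_image_le hd
  rw [inj.leftInvOn_invFunOn.image_image] at this
  exact this.trans (mul_le_mul_right (measure_mono hm.image_subset) _)

theorem p_GGAPL :
    S_GGAPL := by
  refine ⟨fun g T Z κ hκ h hm => ?_, fun g T Z κ hκ h hm hZ => ?_⟩
  · have := GGAPL_haus hκ h hm zero_le_one
    rwa [hausdorffMeasure_real, ENNReal.rpow_one, ENNReal.ofReal_inv_of_pos hκ,
      ← ENNReal.div_eq_inv_mul] at this
  · have := GGAPL_haus hκ h hm zero_le_two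
    rw [hausdorffMeasure_prod_real, hZ, mul_zero] at this
    exact nonpos_iff_eq_zero.1 this

end Pool.Agent.P.MP_874adf_gt.Gn
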