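import Pool.Agent.P.MP_874adf_gt.Gn.Iface0
import Pool.Agent.P.MP_874adf_gt.Gn.TFIN
import Pool.Agent.P.MP_874adf_gt.Fs.L0

/-! Step RHO. -/

set_option autoImplicit false

namespace Pool.Agent.P.MP_874adf_gt.Gn

open Pool.Agent.P.MP_874adf_gt.Fs Set Filter Topology Metric MeasureTheory

namespace RHOaux

/-- blow-up with a moving centre: the limit is the same norm at all scales -/
structure Bl (M : Set P) (d : P → P → ℝ) (N : P → ℝ) {ι : Type} (l : Filter ι) (x : ι → P)
    (O : P) : Prop where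
  pm : PM M d
  isN : IsN N
  mO : O ∈ M
  tx : Tendsto x l (𝓝 O)
  appr : ∀ c : ι → ℝ, Tendsto c l (𝓝 0) → (∀ᶠ i in l, 0 < c i) → Appr l d x c c N

lemma close {K : Set P} {d F : P → P → ℝ} (hS : ∀ x ∈ K, IsS (F x)) {ε δ k : ℝ} (δ0 : 0 < δ)
    (k0 : 0 < k) (hn : ∀ x ∈ K, Near d (F x) x ε δ) {x x' : P} (hx : x ∈ K) (hx' : x' ∈ K)
    (hd : dist x x' ≤ δ / 2) {w : P} (hw : ‖w‖ ≤ 2 * k) : |F x w - F x' w| ≤ 6 * k * ε := by
  have q0 : 0 < δ / (4 * k) := by positivity
  have nv : ‖(δ / (4 * k)) • w‖ ≤ δ / 2 := by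
    rw [norm_smul, Real.norm_of_nonneg q0.le]
    calc _ ≤ δ / (4 * k) * (2 * k) := mul_le_mul_of_nonneg_left hw q0.le
      _ = δ / 2 := by field_simp; ring
  have m1 : x + (δ / (4 * k)) • w ∈ closedBall x (δ / 2) := by
    rwa [mem_closedBall, dist_eq_norm, add_sub_cancel_left]
  have h1 := hn x hx (δ / 2) (half_pos δ0) (half_le_self δ0.le) x
    (mem_closedBall_self (half_pos δ0).le) _ m1
  have h2 := hn x' hx' δ δ0 le_rfl x (mem_closedBall.2 (by linarith)) (x + (δ / (4 * k)) • w)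
    (mem_closedBall.2 (by linarith [dist_triangle (x + (δ / (4 * k)) • w) x x', mem_closedBall.1 m1]))
  rw [add_sub_cancel_left, (hS x hx).smul, abs_of_pos q0] at h1
  rw [add_sub_cancel_left, (hS x' hx').smul, abs_of_pos q0] at h2
  have h3 : δ / (4 * k) * |F x w - F x' w| ≤ δ / (4 * k) * (6 * k * ε) := by
    have e : δ / (4 * k) * (6 * k * ε) = ε * (δ / 2) + ε * δ := by field_simp; ring
    rw [e, ← abs_of_pos q0, ← abs_mul, abs_le]
    rw [abs_le] at h1 h2
    constructor <;> nlinarith [h1.1, h1.2, h2.1, h2.2]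
  exact le_of_mul_le_mul_left h3 q0

lemma bl_of_ud {M K : Set P} {d F : P → P → ℝ} (h : PM M d) (ud : UD M d K F) {ι : Type}
    {l : Filter ι} {x : ι → P} {O : P} (hO : O ∈ K) (n : IsN (F O)) (hx : ∀ i, x i ∈ K)
    (tx : Tendsto x l (𝓝 O)) : Bl M d (F O) l x O := by
  refine ⟨h, n, ud.sub hO, tx, fun c c0 cp k ε ε0 => ?_⟩
  have k0 : 0 < max k 1 := lt_max_of_lt_right one_pos
  set κ := max k 1 with hκ
  obtain ⟨δ, δ0, hδ⟩ := ud.unif (ε / (7 * κ)) (by positivity)
  have t1 : Tendsto (fun i => κ * c i) l (𝓝 0) := by simpa using c0.const_mul κ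
  filter_upwards [cp, t1.eventually (ge_mem_nhds δ0), tx.eventually (closedBall_mem_nhds O (half_pos δ0))]
    with i i0 i1 i2 y hy z hz
  have ny : ‖y‖ ≤ κ := (mem_closedBall_zero_iff.1 hy).trans (le_max_left _ _)
  have nz : ‖z‖ ≤ κ := (mem_closedBall_zero_iff.1 hz).trans (le_max_left _ _)
  have m : ∀ w : P, ‖w‖ ≤ κ → x i + c i • w ∈ closedBall (x i) (κ * c i) := fun w hw => by
    rw [mem_closedBall, dist_eq_norm, add_sub_cancel_left, norm_smul, Real.norm_of_nonneg i0.le,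
      mul_comm]
    exact mul_le_mul_of_nonneg_right hw i0.le
  have h1 := hδ _ (hx i) _ (mul_pos k0 i0) i1 _ (m y ny) _ (m z nz)
  rw [add_sub_add_left_eq_sub, ← smul_sub, (ud.isS _ (hx i)).smul, abs_of_pos i0] at h1
  have h2 := close ud.isS δ0 k0 hδ (hx i) hO i2 (w := z - y)
    ((norm_sub_le z y).trans (by linarith))
  have e1 : ε / (7 * κ) * (κ * c i) = ε / 7 * c i := by field_simp
  have e2 : 6 * κ * (ε / (7 * κ)) = 6 * ε / 7 := by field_simp
  rw [e1, abs_le] at h1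
  rw [e2, abs_le] at h2
  rw [abs_le]
  constructor <;> nlinarith [mul_le_mul_of_nonneg_left h2.1 i0.le, mul_le_mul_of_nonneg_left h2.2 i0.le]

namespace Bl

variable {M : Set P} {d : P → P → ℝ} {N : P → ℝ} {ι : Type} {l : Filter ι} {x : ι → P} {O : P}
  (h : Bl M d N l x O)
include h

lemma isS : IsS N := ⟨h.isN.smul, h.isN.add⟩

lemma mx : ∀ᶠ i in l, x i ∈ M := h.tx.eventually (h.pm.isOpen.mem_nhds h.mO)

lemma near {c : ι → ℝ} (c0 : Tendsto c l (𝓝 0)) (cp : ∀ᶠ i in l, 0 < c i) {Y : ι → P} {y : P}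
    (hY : Tendsto (fun i => (c i)⁻¹ • (Y i - x i)) l (𝓝 y)) : Tendsto Y l (𝓝 O) := by
  have := h.tx.add (c0.smul hY)
  rw [zero_smul, add_zero] at this
  refine this.congr' ?_
  filter_upwards [cp] with i hi
  rw [smul_smul, mul_inv_cancel₀ hi.ne', one_smul, add_sub_cancel]

lemma mem {c : ι → ℝ} (c0 : Tendsto c l (𝓝 0)) (cp : ∀ᶠ i in l, 0 < c i) {Y : ι → P} {y : P}
    (hY : Tendsto (fun i => (c i)⁻¹ • (Y i - x i)) l (𝓝 y)) : ∀ᶠ i in l, Y i ∈ M :=
  (h.near c0 cp hY).eventually (h.pm.isOpen.mem_nhds h.mO)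

lemma scaled {c : ι → ℝ} (c0 : Tendsto c l (𝓝 0)) (cp : ∀ᶠ i in l, 0 < c i) {Y Z : ι → P}
    {y z : P} (hY : Tendsto (fun i => (c i)⁻¹ • (Y i - x i)) l (𝓝 y))
    (hZ : Tendsto (fun i => (c i)⁻¹ • (Z i - x i)) l (𝓝 z)) :
    Tendsto (fun i => d (Y i) (Z i) / c i) l (𝓝 (N (z - y))) := by
  refine (FINaux.scaled h.isS (cp.mono fun i hi => ⟨hi, hi⟩) (h.appr c c0 cp) hY hZ).congr' ?_
  filter_upwards [cp] with i hi
  rw [smul_smul, smul_smul, mul_inv_cancel₀ hi.ne', one_smul, one_smul, add_sub_cancel,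
    add_sub_cancel]

omit h in
lemma self (c : ι → ℝ) : Tendsto (fun i => (c i)⁻¹ • (x i - x i)) l (𝓝 0) := by
  simp only [sub_self, smul_zero]
  exact tendsto_const_nhds

omit h in
lemma off {c : ι → ℝ} (cp : ∀ᶠ i in l, 0 < c i) (X : P) :
    Tendsto (fun i => (c i)⁻¹ • (x i + c i • X - x i)) l (𝓝 X) := by
  refine tendsto_const_nhds.congr' ?_
  filter_upwards [cp] with i hi
  rw [add_sub_cancel_left, smul_smul, inv_mul_cancel₀ hi.ne', one_smul]

/-- a point with known direction and known distance -/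
lemma pt {a : ι → ℝ} (a0 : Tendsto a l (𝓝 0)) (ap : ∀ᶠ i in l, 0 < a i) {Y : ι → P} {e : ι → ℝ}
    {u : P} {κ : ℝ} (u1 : N u = 1) (hY : ∀ᶠ i in l, Y i ∈ M) (he : ∀ᶠ i in l, 0 < e i)
    (hu : Tendsto (fun i => (e i)⁻¹ • (Y i - x i)) l (𝓝 u))
    (hd : Tendsto (fun i => d (x i) (Y i) / a i) l (𝓝 κ)) :
    Tendsto (fun i => (a i)⁻¹ • (Y i - x i)) l (𝓝 (κ • u)) := by
  have t0 : Tendsto (fun i => d (x i) (Y i)) l (𝓝 0) := by
    have := hd.mul a0
    rw [mul_zero] at this
    refine this.congr' ?_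
    filter_upwards [ap] with i hi
    field_simp
  have t1 : Tendsto Y l (𝓝 O) := by
    refine h.pm.tendsto_of_d h.mO hY ?_
    have t2 := h.pm.tendsto h.mO h.mO (tendsto_const_nhds (f := l)) h.tx
    rw [h.pm.self h.mO] at t2
    have t3 := t2.add t0
    rw [add_zero] at t3
    refine squeeze_zero' (hY.mono fun i hi => h.pm.nonneg h.mO hi) ?_ t3
    filter_upwards [hY, h.mx] with i i1 i2 using h.pm.triangle _ h.mO _ i2 _ i1
  have u0 : ‖u‖ ≠ 0 := by
    rw [norm_ne_zero_iff]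
    rintro rfl
    rw [h.isN.zero] at u1
    exact zero_ne_one u1
  have e0 : Tendsto e l (𝓝 0) := by
    have := (t1.sub h.tx).norm.div hu.norm u0
    rw [sub_self, norm_zero, zero_div] at this
    refine this.congr' ?_
    filter_upwards [he, hu.norm.eventually_ne u0] with i i1 i2
    rw [norm_smul, Real.norm_of_nonneg (inv_pos.2 i1).le] at i2
    have i3 : ‖Y i - x i‖ ≠ 0 := right_ne_zero_of_mul i2
    simp only [Pi.div_apply]
    rw [norm_smul, Real.norm_of_nonneg (inv_pos.2 i1).le]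
    field_simp
  have t2 := h.scaled e0 he (self e) hu
  rw [sub_zero, u1] at t2
  have t3 := (hd.div t2 one_ne_zero).smul hu
  rw [div_one] at t3
  refine t3.congr' ?_
  filter_upwards [ap, he, t2.eventually (lt_mem_nhds one_pos)] with i h1 h2 h3
  have h4 : d (x i) (Y i) ≠ 0 := by
    intro e
    rw [e, zero_div] at h3
    exact lt_irrefl _ h3
  simp only [Pi.div_apply, smul_smul]
  congr 1
  field_simp

/-- the point of the circle in a given direction -/
lemma onC {a : ι → ℝ} (a0 : Tendsto a l (𝓝 0)) (ap : ∀ᶠ i in l, 0 < a i)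
    (ray : ∀ i, Ray M d (x i) (a i)) {X : P} (hX : N X = 1) :
    ∃ C : ι → P, (∀ i, C i ∈ M ∧ d (x i) (C i) = a i) ∧
      Tendsto (fun i => (a i)⁻¹ • (C i - x i)) l (𝓝 X) := by
  have X0 : X ≠ 0 := by rintro rfl; rw [h.isN.zero] at hX; exact zero_ne_one hX
  choose t t0 tm td using fun i => ray i X X0
  refine ⟨fun i => x i + t i • X, fun i => ⟨tm i, td i⟩, ?_⟩
  have := h.pt a0 ap (κ := 1) hX (Eventually.of_forall tm) (Eventually.of_forall t0)
    (off (Eventually.of_forall t0) X) (by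
      refine tendsto_const_nhds.congr' ?_
      filter_upwards [ap] with i hi
      rw [td, div_self hi.ne'])
  rwa [one_smul] at this

/-- upper bound for the increment of the distance from a far point -/
lemma upper [l.NeBot] {c : ι → ℝ} (c0 : Tendsto c l (𝓝 0)) (cp : ∀ᶠ i in l, 0 < c i)
    {X Y Z : ι → P} {e : ι → ℝ} {v y z : P} {β : ℝ} (hX : ∀ᶠ i in l, X i ∈ M)
    (ep : ∀ᶠ i in l, 0 < e i) (he : Tendsto (fun i => c i / e i) l (𝓝 0))
    (hv : Tendsto (fun i => (e i)⁻¹ • (X i - x i)) l (𝓝 v))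
    (hY : Tendsto (fun i => (c i)⁻¹ • (Y i - x i)) l (𝓝 y))
    (hZ : Tendsto (fun i => (c i)⁻¹ • (Z i - x i)) l (𝓝 z))
    (hβ : Tendsto (fun i => (d (X i) (Z i) - d (X i) (Y i)) / c i) l (𝓝 β)) {b : ℝ} (b0 : 0 < b) :
    β ≤ N (z - y - b • v) - N (b • v) := by
  have θ0 : Tendsto (fun i => b * (c i / e i)) l (𝓝 0) := by simpa using he.const_mul b
  have hQ : Tendsto (fun i => (c i)⁻¹ • (Y i + (b * (c i / e i)) • (X i - Y i) - x i)) l
      (𝓝 (y + b • v)) := by
    have := (hY.add (hv.const_smul b)).sub (θ0.smul hY)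
    rw [zero_smul, sub_zero] at this
    refine this.congr' ?_
    filter_upwards [cp, ep] with i i1 i2
    have e1 : Y i + (b * (c i / e i)) • (X i - Y i) - x i =
        (Y i - x i) + (b * (c i / e i)) • (X i - x i) - (b * (c i / e i)) • (Y i - x i) := by
      module
    have e2 : (c i)⁻¹ * (b * (c i / e i)) = b * (e i)⁻¹ := by field_simp
    rw [e1]
    generalize Y i - x i = p
    generalize X i - x i = q
    rw [smul_sub, smul_add, smul_smul (c i)⁻¹ _ q, e2, smul_smul b, smul_comm (c i)⁻¹ _ p]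
  have t1 := h.scaled c0 cp hQ hZ
  have t2 := h.scaled c0 cp hY hQ
  rw [add_sub_cancel_left] at t2
  rw [← sub_sub] at t1
  refine le_of_tendsto_of_tendsto hβ (t1.sub t2) ?_
  filter_upwards [cp, ep, hX, h.mem c0 cp hY, h.mem c0 cp hZ, θ0.eventually (ge_mem_nhds one_pos)]
    with i i1 i2 i3 i4 i5 i6
  have q0 : 0 ≤ b * (c i / e i) := by positivity
  have mQ := h.pm.seg_mem i4 i3 q0 i6
  have ad := h.pm.add i4 i3 q0 i6
  have tri := h.pm.triangle _ i3 _ mQ _ i5
  rw [h.pm.symm _ mQ _ i3, h.pm.symm _ i4 _ i3] at ad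
  rw [← sub_div]
  exact div_le_div_of_nonneg_right (by linarith) i1.le

end Bl

lemma abs_le_d {M : Set P} {d : P → P → ℝ} (h : PM M d) {y z B : P} (hy : y ∈ M) (hz : z ∈ M)
    (hB : B ∈ M) : |d B y - d B z| ≤ d y z := by
  have t1 := h.triangle B hB y hy z hz
  have t2 := h.triangle B hB z hz y hy
  rw [h.symm z hz y hy] at t2
  rw [abs_le]
  constructor <;> linarith

section cases

variable {M : Set P} {d : P → P → ℝ} {N : P → ℝ} {ι : Type} {U : Ultrafilter ι} {D : ι → Dat}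
  {a e : ι → ℝ} {O u : P} (h : Bl M d N U (fun i => dO (D i)) O) (hc : ∀ i, Circ M d (D i) (a i))
  (a0 : Tendsto a U (𝓝 0)) (ep : ∀ i, 0 < e i) (u1 : N u = 1)
  (tu : Tendsto (fun i => (e i)⁻¹ • (dB (D i) - dO (D i))) U (𝓝 u))
include h hc ep tu

omit h in
lemma dirA : Tendsto (fun i => (dl (D i) * e i)⁻¹ • (dA (D i) - dO (D i))) U (𝓝 u) := by
  refine tu.congr fun i => ?_
  have := (hc i).l0
  have := ep i
  rw [add_sub_cancel_left, smul_smul]
  congr 1
  field_simp

include a0 u1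

lemma caseR {ρ : ℝ} (tr : Tendsto (fun i => dr (D i)) U (𝓝 ρ)) (r0 : 0 < ρ) (r1 : ρ < 1) :
    CaseR N u := by
  refine ⟨ρ, r0, r1, fun X hX => ?_⟩
  have ap : ∀ᶠ i in (U : Filter ι), 0 < a i := Eventually.of_forall fun i => (hc i).a0
  have B2 := h.pt a0 ap (κ := ρ⁻¹) u1 (Eventually.of_forall fun i => (hc i).mB)
    (Eventually.of_forall ep) tu ((tr.inv₀ r0.ne').congr fun i => by
      have := (hc i).a0
      rw [(hc i).eB]
      field_simp)
  have A2 := h.pt a0 ap (κ := ρ) u1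
    (Eventually.of_forall fun i => h.pm.seg_mem (hc i).mO (hc i).mB (hc i).l0.le (hc i).l1.le)
    (Eventually.of_forall fun i => mul_pos (hc i).l0 (ep i)) (dirA hc ep tu) (tr.congr fun i => by
      have := (hc i).a0
      rw [(hc i).eA]
      field_simp)
  obtain ⟨C, C0, C2⟩ := h.onC a0 ap (fun i => (hc i).ray) hX
  have e1 := h.scaled a0 ap A2 C2
  have e2 := h.scaled a0 ap B2 C2
  have e3 := tendsto_nhds_unique e1 ((tr.mul e2).congr fun i => by
    rw [(hc i).on _ (C0 i).1 (C0 i).2, mul_div_assoc])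
  rw [e3, ← h.isN.smul_nonneg r0.le, smul_sub, smul_smul, mul_inv_cancel₀ r0.ne', one_smul]

lemma far (tr : Tendsto (fun i => dr (D i)) U (𝓝 0)) : Tendsto (fun i => a i / e i) U (𝓝 0) := by
  rw [Metric.tendsto_nhds]
  intro ε hε
  by_contra hn
  have hn' : ∀ᶠ i in (U : Filter ι), ¬ dist (a i / e i) 0 < ε := Ultrafilter.eventually_not.2 hn
  have le : ∀ᶠ i in (U : Filter ι), e i ≤ ε⁻¹ * a i := by
    filter_upwards [hn'] with i h1
    rw [Real.dist_eq, sub_zero, abs_of_pos (div_pos (hc i).a0 (ep i)), not_lt,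
      le_div_iff₀ (ep i)] at h1
    rwa [le_inv_mul_iff₀ hε]
  have t0 : Tendsto e U (𝓝 0) :=
    squeeze_zero' (Eventually.of_forall fun i => (ep i).le) le (by simpa using a0.const_mul ε⁻¹)
  have t3 := tr.mul (h.scaled t0 (Eventually.of_forall ep) (Bl.self e) tu)
  rw [zero_mul] at t3
  obtain ⟨i, h1, h2⟩ := ((t3.eventually (gt_mem_nhds hε)).and hn').exists
  apply h2
  have r0 := (hc i).r0
  have := ep i
  rw [(hc i).eB] at h1
  rw [Real.dist_eq, sub_zero, abs_of_pos (div_pos (hc i).a0 (ep i))]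
  refine lt_of_eq_of_lt ?_ h1
  field_simp

lemma case0 (tr : Tendsto (fun i => dr (D i)) U (𝓝 0)) : Case0 N u := by
  have n := h.isN
  have ap : ∀ᶠ i in (U : Filter ι), 0 < a i := Eventually.of_forall fun i => (hc i).a0
  have Y2 := fun X : P => Bl.off (x := fun i => dO (D i)) ap X
  have Y0 := fun X : P => h.mem a0 ap (Y2 X)
  have ex : ∀ X : P, ∃ β : ℝ, Tendsto (fun i => (d (dB (D i)) (dO (D i)) -
      d (dB (D i)) (dO (D i) + a i • X)) / a i) U (𝓝 β) := by
    intro X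
    obtain ⟨β, -, k⟩ := (isCompact_Icc (a := -(N X + 1)) (b := N X + 1)).ultrafilter_le_nhds
      (U.map fun i => (d (dB (D i)) (dO (D i)) - d (dB (D i)) (dO (D i) + a i • X)) / a i) (by
        rw [Ultrafilter.coe_map, le_principal_iff, mem_map]
        have := (h.scaled a0 ap (Bl.self a) (Y2 X)).eventually (ge_mem_nhds (lt_add_one _))
        rw [sub_zero] at this
        filter_upwards [Y0 X, this] with i h3 h4
        rw [mem_preimage, mem_Icc, ← abs_le, abs_div, abs_of_pos (hc i).a0]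
        exact (div_le_div_of_nonneg_right (abs_le_d h.pm (hc i).mO h3 (hc i).mB)
          (hc i).a0.le).trans h4)
    exact ⟨β, k⟩
  choose b hb using ex
  have lip : ∀ X Y, b X - b Y ≤ N (X - Y) := by
    intro X Y
    rw [n.sub_comm]
    refine le_of_tendsto_of_tendsto ((hb X).sub (hb Y)) (h.scaled a0 ap (Y2 X) (Y2 Y)) ?_
    filter_upwards [Y0 X, Y0 Y] with i h3 h4
    rw [← sub_div]
    refine div_le_div_of_nonneg_right ?_ (hc i).a0.le
    linarith [h.pm.triangle _ (hc i).mB _ h3 _ h4]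
  have sh : ∀ X (t : ℝ), 0 < t → b (X + t • u) = b X + t := by
    intro X t ht
    apply le_antisymm
    · have := lip (X + t • u) X
      rw [add_sub_cancel_left, n.smul_nonneg ht.le, u1] at this
      linarith
    have k := h.upper a0 ap (Eventually.of_forall fun i => (hc i).mB) (Eventually.of_forall ep)
      (far h hc a0 ep u1 tu tr) tu (Y2 X) (Y2 (X + t • u)) (β := b X - b (X + t • u))
      (((hb X).sub (hb (X + t • u))).congr fun i => by ring) ht
    rw [add_sub_cancel_left, sub_self, n.zero, n.smul_nonneg ht.le, u1] at k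
    linarith
  refine ⟨b, ?_, lip, fun X t => ?_, fun X hX s hs => ?_⟩
  · refine tendsto_nhds_unique (hb 0) ?_
    simp
  · rcases lt_trichotomy t 0 with ht | rfl | ht
    · have := sh (X + t • u) (-t) (by linarith)
      rw [neg_smul, add_neg_cancel_right] at this
      linarith
    · simp
    · exact sh X t ht
  obtain ⟨C, C0, C2⟩ := h.onC a0 ap (fun i => (hc i).ray) hX
  have z := h.scaled a0 ap (Y2 X) C2
  rw [sub_self, n.zero] at z
  have β1 : Tendsto (fun i => (d (dB (D i)) (dO (D i)) - d (dB (D i)) (C i)) / a i) U (𝓝 (b X)) := by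
    have t : Tendsto (fun i => (d (dB (D i)) (dO (D i) + a i • X) - d (dB (D i)) (C i)) / a i) U
        (𝓝 0) := by
      refine squeeze_zero_norm' ?_ z
      filter_upwards [Y0 X] with i h3
      rw [Real.norm_eq_abs, abs_div, abs_of_pos (hc i).a0]
      exact div_le_div_of_nonneg_right (abs_le_d h.pm h3 (C0 i).1 (hc i).mB) (hc i).a0.le
    have := (hb X).add t
    rw [add_zero] at this
    exact this.congr fun i => by ring
  have mA : ∀ i, dA (D i) ∈ M := fun i =>
    h.pm.seg_mem (hc i).mO (hc i).mB (hc i).l0.le (hc i).l1.le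
  have cp : ∀ i, 0 < dr (D i) * a i := fun i => mul_pos (hc i).r0 (hc i).a0
  have c0 : Tendsto (fun i => dr (D i) * a i) U (𝓝 0) := by simpa using tr.mul a0
  have β2 : Tendsto (fun i => (d (C i) (dO (D i)) - d (C i) (dA (D i))) / (dr (D i) * a i)) U
      (𝓝 (b X)) := by
    refine β1.congr fun i => ?_
    have r0 := (hc i).r0
    have := (hc i).a0
    rw [h.pm.symm _ (C0 i).1 _ (hc i).mO, h.pm.symm _ (C0 i).1 _ (mA i),
      h.pm.symm _ (hc i).mB _ (hc i).mO, (C0 i).2, (hc i).eB, (hc i).on _ (C0 i).1 (C0 i).2]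
    field_simp
  have A3 := h.pt c0 (Eventually.of_forall cp) (κ := 1) u1 (Eventually.of_forall mA)
    (Eventually.of_forall fun i => mul_pos (hc i).l0 (ep i)) (dirA hc ep tu)
    (tendsto_const_nhds.congr fun i => by rw [(hc i).eA, div_self (cp i).ne'])
  rw [one_smul] at A3
  have he : Tendsto (fun i => dr (D i) * a i / a i) U (𝓝 0) :=
    tr.congr fun i => by rw [mul_div_cancel_right₀ _ (hc i).a0.ne']
  have si := inv_pos.2 hs
  have k1 := h.upper c0 (Eventually.of_forall cp) (Eventually.of_forall fun i => (C0 i).1) ap he C2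
    A3 (Bl.self _) β2 si
  have k2 := h.upper c0 (Eventually.of_forall cp) (Eventually.of_forall fun i => (C0 i).1) ap he C2
    (Bl.self _) A3 (β := -b X) (β2.neg.congr fun i => by ring) si
  have e1 : (0 : P) - u - s⁻¹ • X = (-s⁻¹) • (X + s • u) := by
    rw [smul_add, smul_smul, neg_mul, inv_mul_cancel₀ hs.ne']; module
  have e2 : u - 0 - s⁻¹ • X = (-s⁻¹) • (X - s • u) := by
    rw [smul_sub, smul_smul, neg_mul, inv_mul_cancel₀ hs.ne']; module
  rw [e1, n.smul, n.smul, abs_neg, abs_of_pos si, ← mul_sub, le_inv_mul_iff₀ hs] at k1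
  rw [e2, n.smul, n.smul, abs_neg, abs_of_pos si, ← mul_sub, le_inv_mul_iff₀ hs] at k2
  constructor <;> linarith

end cases

end RHOaux

theorem p_RHO (hLRR : S_LRR) :
    S_RHO := by
  intro M K d F h ud hK ε ε0
  by_contra hn
  have ex : ∀ n : ℕ, ∃ (D : Dat) (a : ℝ), dO D ∈ K ∧ a < 1 / ((n : ℝ) + 1) ∧ Circ M d D a ∧
      dr D < 1 - ε := by
    intro n
    by_contra hx
    refine hn ⟨1 / ((n : ℝ) + 1), by positivity, fun D a h1 h2 h3 => ?_⟩
    by_contra h4
    exact hx ⟨D, a, h1, h2, h3, not_le.1 h4⟩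
  choose D a mK ha hc hr using ex
  set U : Ultrafilter ℕ := Ultrafilter.of atTop with hU
  have le : (U : Filter ℕ) ≤ atTop := Ultrafilter.of_le _
  have a0 : Tendsto a U (𝓝 0) :=
    (squeeze_zero (fun n => (hc n).a0.le) (fun n => (ha n).le)
      tendsto_one_div_add_atTop_nhds_zero_nat).mono_left le
  obtain ⟨O, hO, tx⟩ := ud.cpt.ultrafilter_le_nhds (U.map fun n => dO (D n)) (by
    rw [Ultrafilter.coe_map, le_principal_iff, mem_map]
    exact Eventually.of_forall mK)
  have n := (hK O hO).1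
  have bl := RHOaux.bl_of_ud (l := (U : Filter ℕ)) (x := fun n => dO (D n)) h ud hO n mK tx
  have ep : ∀ i, 0 < F O (dB (D i) - dO (D i)) := fun i => n.pos _ (sub_ne_zero.2 fun e => by
    have := (hc i).eB
    rw [e, h.self (hc i).mO] at this
    exact (div_pos (hc i).a0 (hc i).r0).ne this)
  obtain ⟨L, L0, hL⟩ := n.lower
  have cp : IsCompact {v : P | F O v = 1} := by
    refine (isCompact_closedBall (0 : P) L).of_isClosed_subset
      (isClosed_eq n.cont continuous_const) fun v hv => ?_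
    have := hL v
    rw [show F O v = 1 from hv, mul_one] at this
    simpa using this
  obtain ⟨u, u1, tu⟩ := cp.ultrafilter_le_nhds
    (U.map fun i => (F O (dB (D i) - dO (D i)))⁻¹ • (dB (D i) - dO (D i))) (by
      rw [Ultrafilter.coe_map, le_principal_iff, mem_map]
      refine Eventually.of_forall fun i => ?_
      show F O _ = 1
      rw [n.smul_nonneg (inv_pos.2 (ep i)).le, inv_mul_cancel₀ (ep i).ne'])
  obtain ⟨ρ, hρ, tr⟩ := (isCompact_Icc (a := (0 : ℝ)) (b := 1 - ε)).ultrafilter_le_nhds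
    (U.map fun i => dr (D i)) (by
      rw [Ultrafilter.coe_map, le_principal_iff, mem_map]
      exact Eventually.of_forall fun i => ⟨(hc i).r0.le, (hr i).le⟩)
  refine (hK O hO).2 ?_
  rcases hρ.1.eq_or_lt with e | e
  · subst e
    exact t_l0 _ u n u1 (RHOaux.case0 bl hc a0 ep u1 tu tr)
  · exact hLRR _ u n u1 (RHOaux.caseR bl hc a0 ep u1 tu tr e (by linarith [hρ.2]))

end Pool.Agent.P.MP_874adf_gt.Gn
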