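import Pool.Agent.P.MP_874adf_gt.Gn.IfaceGa
import Pool.Agent.P.MP_874adf_gt.Gn.GaBase
import Pool.Agent.P.MP_874adf_gt.Gn.TRHO

/-! Step GGEO. -/

set_option autoImplicit false

namespace Pool.Agent.P.MP_874adf_gt.Gn

open Pool.Agent.P.MP_874adf_gt.Fs Ga Set Filter Topology Metric MeasureTheory

theorem p_GGEO :
    S_GGEO := by
  intro k e e0 ε ε0
  by_contra hn
  have ex : ∀ n : ℕ, ∃ (C : P) (D : Dat) (c : Set (P × ℝ)), C ∈ k.K ∧ dO D ∈ k.K ∧
      Circ k.M k.d D (k.d (dO D) C) ∧ k.d (dO D) C < 1 / ((n : ℝ) + 1) ∧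
      Dir (dO D) C e (1 / ((n : ℝ) + 1)) ∧ pat k D ∈ c ∧ ¬ Geo' k C c e ε (k.d (dO D) C) D := by
    intro n
    by_contra hx
    refine hn ⟨1 / ((n : ℝ) + 1), by positivity, fun C h1 D h2 h3 h4 h5 c h6 => ?_⟩
    by_contra h7
    exact hx ⟨C, D, c, h1, h2, h3, h4, h5, h6, h7⟩
  choose C D c mC mK hc ha hd hp bad using ex
  set a : ℕ → ℝ := fun n => k.d (dO (D n)) (C n) with ha'
  set U : Ultrafilter ℕ := Ultrafilter.of atTop with hU
  have le : (U : Filter ℕ) ≤ atTop := Ultrafilter.of_le _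
  have t0 : Tendsto (fun n : ℕ => 1 / ((n : ℝ) + 1)) U (𝓝 0) :=
    tendsto_one_div_add_atTop_nhds_zero_nat.mono_left le
  have a0 : Tendsto a U (𝓝 0) := squeeze_zero (fun n => (hc n).a0.le) (fun n => (ha n).le) t0
  have ap : ∀ᶠ n in (U : Filter ℕ), 0 < a n := Eventually.of_forall fun n => (hc n).a0
  obtain ⟨O, hO, tx⟩ := k.ud.cpt.ultrafilter_le_nhds (U.map fun n => dO (D n)) (by
    rw [Ultrafilter.coe_map, le_principal_iff, mem_map]
    exact Eventually.of_forall mK)
  have n := k.isN O hO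
  have bl := RHOaux.bl_of_ud (l := (U : Filter ℕ)) (x := fun n => dO (D n)) k.pm k.ud hO n mK tx
  have tr : Tendsto (fun i => dr (D i)) U (𝓝 1) := by
    rw [Metric.tendsto_nhds]
    intro η η0
    obtain ⟨a2, a20, h⟩ := k.rho _ (half_pos η0)
    filter_upwards [a0.eventually (gt_mem_nhds a20)] with i hi
    have h1 := h _ _ (mK i) hi (hc i)
    have h2 := (hc i).r1
    rw [Real.dist_eq, abs_lt]
    constructor <;> linarith
  have ep : ∀ i, 0 < k.F O (dB (D i) - dO (D i)) := fun i => n.pos _ (sub_ne_zero.2 fun e => by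
    have := (hc i).eB
    rw [e, k.pm.self (hc i).mO] at this
    exact (div_pos (hc i).a0 (hc i).r0).ne this)
  obtain ⟨L, L0, hL⟩ := n.lower
  have cp : IsCompact {v : P | k.F O v = 1} := by
    refine (isCompact_closedBall (0 : P) L).of_isClosed_subset
      (isClosed_eq n.cont continuous_const) fun v hv => ?_
    have := hL v
    rw [show k.F O v = 1 from hv, mul_one] at this
    simpa using this
  obtain ⟨u, u1, tu⟩ := cp.ultrafilter_le_nhds
    (U.map fun i => (k.F O (dB (D i) - dO (D i)))⁻¹ • (dB (D i) - dO (D i))) (by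
      rw [Ultrafilter.coe_map, le_principal_iff, mem_map]
      refine Eventually.of_forall fun i => ?_
      show k.F O _ = 1
      rw [n.smul_nonneg (inv_pos.2 (ep i)).le, inv_mul_cancel₀ (ep i).ne'])
  have u1' : k.F O u = 1 := u1
  have B2 := bl.pt a0 ap (κ := 1⁻¹) u1' (Eventually.of_forall fun i => (hc i).mB)
    (Eventually.of_forall ep) tu ((tr.inv₀ one_ne_zero).congr fun i => by
      have := (hc i).a0
      rw [(hc i).eB]
      simp only [ha']
      field_simp)
  have A2 := bl.pt a0 ap (κ := 1) u1'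
    (Eventually.of_forall fun i => clo_memA k.pm (hc i))
    (Eventually.of_forall fun i => mul_pos (hc i).l0 (ep i)) (RHOaux.dirA hc ep tu)
    (tr.congr fun i => by
      have := (hc i).a0
      rw [(hc i).eA]
      simp only [ha']
      field_simp)
  rw [inv_one, one_smul] at B2
  rw [one_smul] at A2
  have tl : Tendsto (fun i => dl (D i)) U (𝓝 1) := by
    have h1 := (n.cont.tendsto _).comp A2
    have h2 := (n.cont.tendsto _).comp B2
    have h3 := h1.div h2 (by rw [u1']; exact one_ne_zero)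
    rw [u1', div_one] at h3
    rw [u1'] at h2
    refine h3.congr' ?_
    filter_upwards [h2.eventually (lt_mem_nhds one_pos)] with i hi
    simp only [Pi.div_apply, Function.comp] at hi ⊢
    rw [add_sub_cancel_left, smul_comm, n.smul_nonneg (hc i).l0.le,
      mul_div_cancel_right₀ _ hi.ne']
  have Ne : 0 < k.F O e := n.pos e e0
  have ne : 0 < ‖e‖ := norm_pos_iff.2 e0
  have nC : ∀ i, 0 < ‖C i - dO (D i)‖ := fun i => norm_pos_iff.2 (sub_ne_zero.2 (hd i).1)
  have td : Tendsto (fun i => ‖C i - dO (D i)‖⁻¹ • (C i - dO (D i))) U (𝓝 (‖e‖⁻¹ • e)) := by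
    rw [tendsto_iff_norm_sub_tendsto_zero]
    exact squeeze_zero (fun _ => norm_nonneg _) (fun i => (hd i).2) t0
  have C2 := bl.pt a0 ap (κ := 1) (u := (k.F O e)⁻¹ • e)
    (e := fun i => k.F O e / ‖e‖ * ‖C i - dO (D i)‖)
    (by rw [n.smul_nonneg (inv_pos.2 Ne).le, inv_mul_cancel₀ Ne.ne'])
    (Eventually.of_forall fun i => k.ud.sub (mC i))
    (Eventually.of_forall fun i => mul_pos (div_pos Ne ne) (nC i)) (by
      have := td.const_smul (k.F O e / ‖e‖)⁻¹
      rw [smul_smul, inv_div, show ‖e‖ / k.F O e * ‖e‖⁻¹ = (k.F O e)⁻¹ by field_simp] at this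
      refine this.congr fun i => ?_
      rw [smul_smul, mul_inv, inv_div])
    (tendsto_const_nhds.congr fun i => (div_self (hc i).a0.ne').symm)
  rw [one_smul] at C2
  have tC := bl.near a0 ap C2
  have tF : ∀ {w : ℕ → P} {w0 : P}, Tendsto w U (𝓝 w0) →
      Tendsto (fun i => k.F (C i) (w i)) U (𝓝 (k.F O w0)) := fun {w w0} hw =>
    (k.ud.cont (O, w0) ⟨hO, mem_univ _⟩).tendsto.comp (tendsto_nhdsWithin_iff.2
      ⟨tC.prodMk_nhds hw, Eventually.of_forall fun i => ⟨mC i, mem_univ _⟩⟩)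
  have g1 := (C2.sub (((tF (tendsto_const_nhds (x := e))).inv₀ Ne.ne').smul_const e)).norm
  rw [sub_self, norm_zero] at g1
  have g2 := ((tF B2).sub_const 1).abs
  rw [u1', sub_self, abs_zero] at g2
  have o : 1 - ε < 1 := by linarith
  obtain ⟨i, h1, h2, h3, h4⟩ := ((g1.eventually (ge_mem_nhds ε0)).and
    ((g2.eventually (ge_mem_nhds ε0)).and ((tl.eventually (le_mem_nhds o)).and
      (tr.eventually (le_mem_nhds o))))).exists
  refine bad i ⟨h1, ⟨_, hp i, ?_, ?_, ?_⟩, h3, h4⟩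
  · rw [pat, rad_eq (hc i), sub_self, norm_zero]; exact ε0.le
  · rw [pat, sub_self, abs_zero]; exact ε0.le
  · rw [pat, rad_eq (hc i)]; exact h2

end Pool.Agent.P.MP_874adf_gt.Gn
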