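import Pool.Agent.P.MP_874adf_gt.Gn.IfaceGa
import Pool.Agent.P.MP_874adf_gt.Gn.GaDen

/-! Step GHVS. -/

set_option autoImplicit false

namespace Pool.Agent.P.MP_874adf_gt.Gn

open Pool.Agent.P.MP_874adf_gt.Fs Ga Set Filter Topology Metric MeasureTheory

theorem GHVS_add {k : Kx} {v : Set Dat} {Q Q0 Q1 : Set P} {QQ : Set (Set P)} {U : Set (P × ℝ)}
    (h : HVd k v Q Q0 QQ U) (h1 : Pc k Q1) (hs : Q1 ⊆ Q) : St k Q0 (insert Q1 QQ) U v := by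
  obtain ⟨W, -, hW, hc⟩ := h.cov
  obtain ⟨y, hy, hd⟩ := dn_nonempty h1.cpt.measurableSet h1.pos
  obtain ⟨O, hO, hU⟩ := hc y (hW (hs hy))
  refine ⟨⟨h.st.fr.p0, h.st.fr.fin.insert _, ?_, h.st.fr.opn, h.st.fr.rng,
    ⟨_, ⟨hO.1, ?_⟩, hU⟩⟩, h.st.good, fun p hp => h.st.val p
      ⟨⟨hp.1.1, fun Y hY => hp.1.2 Y (mem_insert_of_mem _ hY)⟩, hp.2⟩⟩
  · rintro Y (rfl | hY)
    · exact h1
    · exact h.st.fr.pc Y hY
  · rintro Y (rfl | hY)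
    · exact ⟨y, ⟨hy, hd⟩, rfl⟩
    · exact hO.2 Y hY

theorem p_GHVS (hGBAIRE : S_GBAIRE) (hGCOV : S_GCOV) :
    S_GHVS := by
  rintro k v Q ⟨Q0, QQ, U, h⟩ δ δ0
  obtain ⟨y, hy, hd⟩ := dn_nonempty h.pc.cpt.measurableSet h.pc.pos
  have h1 : Pc k (Q ∩ closedBall y (δ / 2)) :=
    ⟨h.pc.cpt.inter_right isClosed_closedBall, inter_subset_left.trans h.pc.sub,
      hd.pos_ball (half_pos δ0)⟩
  obtain ⟨w, hw, U', -, hst, hdw⟩ :=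
    (hGBAIRE k Q0 _ U).2.2 v (GHVS_add h h1 inter_subset_left) δ δ0
  obtain ⟨Y, hY, hv⟩ := (hGCOV k Q0 _ U' _ (mem_insert _ _)
    fun O hO z hz => h.sc O hO z hz.1).2 w hst
  refine ⟨w, hw, Y, hY.trans inter_subset_left, ⟨_, _, _, hv⟩, hdw, fun z hz z' hz' => ?_⟩
  have a := mem_closedBall.1 (hY hz).2
  have b := mem_closedBall.1 (hY hz').2
  linarith [dist_triangle_right z z' y]

end Pool.Agent.P.MP_874adf_gt.Gn
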