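import Pool.Agent.P.MP_874adf_gt.Gn.IfaceGa

/-! Step GLEV. -/

set_option autoImplicit false

namespace Pool.Agent.P.MP_874adf_gt.Gn

open Pool.Agent.P.MP_874adf_gt.Fs Ga Set Filter Topology Metric MeasureTheory

lemma GLEV_norm (e : P) : ‖((-e.2, e.1) : P)‖ = ‖e‖ := by
  rw [Prod.norm_def, Prod.norm_def, norm_neg, max_comm]

lemma GLEV_mem (x e : P) {δ L κ τ : ℝ} (hδ : 0 ≤ δ) (hκ : |κ| ≤ 1) (hτ : |τ| ≤ L * δ) :
    par x e (δ * κ) τ ∈ closedBall x ((L + 1) * ‖e‖ * δ) := by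
  rw [mem_closedBall, dist_eq_norm]
  have e1 : par x e (δ * κ) τ - x = (δ * κ) • ((-e.2, e.1) : P) + τ • e := by
    unfold par
    abel
  rw [e1]
  refine (norm_add_le _ _).trans ?_
  rw [norm_smul, norm_smul, GLEV_norm, Real.norm_eq_abs, Real.norm_eq_abs, abs_mul, abs_of_nonneg hδ]
  have h0 := norm_nonneg e
  have h1 : δ * |κ| ≤ δ := by nlinarith
  nlinarith [mul_le_mul_of_nonneg_right h1 h0, mul_le_mul_of_nonneg_right hτ h0]

lemma GLEV_inj {x e : P} (he : e ≠ 0) {κ τ κ' τ' : ℝ} (h : par x e κ τ = par x e κ' τ') : κ = κ' := by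
  have h1 := congrArg Prod.fst h
  have h2 := congrArg Prod.snd h
  simp only [par, Prod.fst_add, Prod.snd_add, Prod.smul_mk, Prod.smul_fst, Prod.smul_snd,
    smul_eq_mul] at h1 h2
  have h3 : (κ - κ') * (e.1 ^ 2 + e.2 ^ 2) = 0 := by linear_combination e.1 * h2 - e.2 * h1
  rcases mul_eq_zero.1 h3 with h4 | h4
  · linarith
  · exfalso
    apply he
    ext
    · simp only [Prod.fst_zero]
      nlinarith [sq_nonneg e.1, sq_nonneg e.2]
    · simp only [Prod.snd_zero]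
      nlinarith [sq_nonneg e.1, sq_nonneg e.2]

/-- all levels near the level of `x` are hit on each parallel segment -/
lemma GLEV_ivt (k : Kx) {O x : P} (hO : O ∈ k.M) (hx : x ∈ k.K) (hne : x ≠ O) {ρ : ℝ} (hρ : 0 < ρ) :
    ∃ L > (0 : ℝ), ∀ᶠ δ in 𝓝[>] (0 : ℝ), ∀ κ, |κ| ≤ 1 →
      (∀ τ ∈ Icc (-(L * δ)) (L * δ), par x (x - O) (δ * κ) τ ∈ k.M ∩ ball x ρ) ∧
      ∀ a ∈ Icc (k.d O x - δ) (k.d O x + δ), ∃ τ ∈ Icc (-(L * δ)) (L * δ),
        k.d O (par x (x - O) (δ * κ) τ) = a := by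
  set e := x - O with he
  have e0 : e ≠ 0 := sub_ne_zero.2 hne
  have hN := k.isN x hx
  have hxM : x ∈ k.M := k.ud.sub hx
  set e' : P := (-e.2, e.1) with he'
  have n0 : 0 < k.F x e := hN.pos e e0
  have n1 : 0 ≤ k.F x e' := hN.nonneg e'
  set L := (k.F x e' + 3) / k.F x e with hL
  have L0 : 0 < L := by positivity
  have LN : L * k.F x e = k.F x e' + 3 := div_mul_cancel₀ _ n0.ne'
  have ne0 : 0 < ‖e‖ := norm_pos_iff.2 e0
  set R := (L + 1) * ‖e‖ with hR
  have R0 : 0 < R := by positivity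
  obtain ⟨δ0, δ00, hn⟩ := k.ud.unif R⁻¹ (inv_pos.2 R0)
  obtain ⟨r, r0, hr⟩ := Metric.isOpen_iff.1 (k.pm.isOpen.inter (isOpen_ball (x := x) (ε := ρ))) x
    ⟨hxM, mem_ball_self hρ⟩
  refine ⟨L, L0, ?_⟩
  have ev : ∀ c > (0 : ℝ), ∀ b > (0 : ℝ), ∀ᶠ δ in 𝓝[>] (0 : ℝ), c * δ < b := by
    intro c _ b hb
    have : Tendsto (fun δ : ℝ => c * δ) (𝓝[>] 0) (𝓝 0) := by
      have h1 : Tendsto (fun δ : ℝ => c * δ) (𝓝 0) (𝓝 (c * 0)) :=
        (by fun_prop : Continuous fun δ : ℝ => c * δ).tendsto 0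
      rw [mul_zero] at h1
      exact h1.mono_left nhdsWithin_le_nhds
    exact this.eventually (gt_mem_nhds hb)
  filter_upwards [ev R R0 δ0 δ00, ev R R0 r r0, ev L L0 1 one_pos, self_mem_nhdsWithin]
    with δ h1 h2 h3 h4
  have d0 : 0 < δ := h4
  have Ld : 0 < L * δ := by positivity
  have inB : ∀ κ τ, |κ| ≤ 1 → |τ| ≤ L * δ → par x e (δ * κ) τ ∈ closedBall x (R * δ) :=
    fun κ τ a b => GLEV_mem x e d0.le a b
  have inM : ∀ y ∈ closedBall x (R * δ), y ∈ k.M ∩ ball x ρ := fun y hy =>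
    hr (closedBall_subset_ball h2 hy)
  have near : ∀ y ∈ closedBall x (R * δ), ∀ z ∈ closedBall x (R * δ),
      |k.d y z - k.F x (z - y)| ≤ δ := by
    intro y hy z hz
    have := hn x hx (R * δ) (by positivity) h1.le y hy z hz
    rwa [← mul_assoc, inv_mul_cancel₀ R0.ne', one_mul] at this
  intro κ hκ
  have hmem : ∀ τ ∈ Icc (-(L * δ)) (L * δ), par x e (δ * κ) τ ∈ k.M ∩ ball x ρ :=
    fun τ hτ => inM _ (inB κ τ hκ (abs_le.2 hτ))
  refine ⟨hmem, ?_⟩
  have xB : x ∈ closedBall x (R * δ) := mem_closedBall_self (by positivity)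
  have side : ∀ τ, |τ| ≤ L * δ →
      k.d (par x e (δ * 0) τ) (par x e (δ * κ) τ) ≤ δ * k.F x e' + δ := by
    intro τ hτ
    have a1 := near _ (inB 0 τ (by simp) hτ) _ (inB κ τ hκ hτ)
    have a2 : par x e (δ * κ) τ - par x e (δ * 0) τ = (δ * κ) • e' := by
      simp only [par, mul_zero, zero_smul, add_zero]
      abel
    rw [a2, hN.smul, abs_mul, abs_of_pos d0] at a1
    have a3 : δ * |κ| * k.F x e' ≤ δ * k.F x e' := by
      have : δ * |κ| ≤ δ := by nlinarith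
      exact mul_le_mul_of_nonneg_right this n1
    linarith [(abs_le.1 a1).2]
  have along : ∀ τ, |τ| = L * δ → δ * (k.F x e' + 2) ≤ k.d x (par x e (δ * 0) τ) := by
    intro τ hτ
    have a1 := near _ xB _ (inB 0 τ (by simp) hτ.le)
    have a2 : par x e (δ * 0) τ - x = τ • e := by
      simp only [par, mul_zero, zero_smul, add_zero]
      abel
    rw [a2, hN.smul, hτ] at a1
    have a3 : L * δ * k.F x e = δ * (k.F x e' + 3) := by rw [← LN]; ring
    linarith [(abs_le.1 a1).1]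
  have pe : ∀ τ, par x e (δ * 0) τ = O + (1 + τ) • e := by
    intro τ
    simp only [par, mul_zero, zero_smul, add_zero, he]
    module
  have xe : x = O + (1 : ℝ) • e := by simp [he]
  have O0 : O + (0 : ℝ) • e = O := by simp
  have tp : |L * δ| = L * δ := abs_of_pos Ld
  have tm : |-(L * δ)| = L * δ := by rw [abs_neg, tp]
  have mp := (inM _ (inB 0 _ (by simp) tp.le)).1
  have mm := (inM _ (inB 0 _ (by simp) tm.le)).1
  have qp := (inM _ (inB κ _ hκ tp.le)).1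
  have qm := (inM _ (inB κ _ hκ tm.le)).1
  have up : k.d O x + δ ≤ k.d O (par x e (δ * κ) (L * δ)) := by
    have a1 := k.pm.line_add (x := O) (v := e) (r := 0) (s := 1) (t := 1 + L * δ)
      (by rw [O0]; exact hO) (by rw [← pe]; exact mp) zero_le_one (by linarith)
    rw [O0, ← xe, ← pe] at a1
    have a2 := k.pm.triangle _ hO _ qp _ mp
    rw [k.pm.symm _ qp _ mp] at a2
    have a3 := side _ tp.le
    have a4 := along _ tp
    linarith
  have dn : k.d O (par x e (δ * κ) (-(L * δ))) ≤ k.d O x - δ := by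
    have a1 := k.pm.line_add (x := O) (v := e) (r := 0) (s := 1 + -(L * δ)) (t := 1)
      (by rw [O0]; exact hO) (by rw [← xe]; exact hxM) (by linarith) (by linarith)
    rw [O0, ← xe, ← pe, k.pm.symm _ mm _ hxM] at a1
    have a2 := k.pm.triangle _ hO _ mm _ qm
    have a3 := side _ tm.le
    have a4 := along _ tm
    linarith
  have ct : ContinuousOn (fun τ => k.d O (par x e (δ * κ) τ)) (Icc (-(L * δ)) (L * δ)) :=
    k.pm.contOn_line (x := x + (δ * κ) • e') (v := e) hO fun τ hτ => (hmem τ hτ).1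
  intro a ha
  exact intermediate_value_Icc (by linarith) ct ⟨dn.trans ha.1, ha.2.trans up⟩

theorem p_GLEV (hGSEG : S_GSEG) :
    S_GLEV := by
  intro k O hO x hx hne E hE hD η η0 ρ ρ0 m
  have e0 : x - O ≠ 0 := sub_ne_zero.2 hne
  obtain ⟨L, L0, hL⟩ := GLEV_ivt k hO hx hne ρ0
  have m0 : (0 : ℝ) < m + 1 := by positivity
  have hw : ∀ i : Fin m, ∀ᶠ δ in 𝓝[>] (0 : ℝ),
      ∃ κ ∈ Icc (((i : ℕ) : ℝ) / (m + 1)) ((((i : ℕ) : ℝ) + 1 / 2) / (m + 1)),
      ∃ T : Set ℝ, IsCompact T ∧ T ⊆ Icc (-(L * δ)) (L * δ) ∧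
        (∀ τ ∈ T, par x (x - O) (δ * κ) τ ∈ E) ∧
        Sm k.d (par x (x - O) (δ * κ)) (Icc (-(L * δ)) (L * δ) \ T) (η / (m + 1) * δ) := by
    intro i
    have hi : ((i : ℕ) : ℝ) < m := by exact_mod_cast i.2
    refine hGSEG k x hx E hE hD _ e0 L L0 _ (by positivity) _ _ ?_ ?_ ?_
    · have : (0 : ℝ) ≤ ((i : ℕ) : ℝ) / (m + 1) := by positivity
      linarith
    · exact div_lt_div_of_pos_right (by linarith) m0
    · rw [div_le_one m0]
      linarith
  filter_upwards [eventually_all.2 hw, hL, self_mem_nhdsWithin] with δ h1 h2 h3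
  have d0 : (0 : ℝ) < δ := h3
  choose κ hκ T _ hT hTE hS using h1
  have k1 : ∀ i, |κ i| ≤ 1 := by
    intro i
    have hi : ((i : ℕ) : ℝ) < m := by exact_mod_cast i.2
    have a1 : (0 : ℝ) ≤ ((i : ℕ) : ℝ) / (m + 1) := by positivity
    have a2 : (((i : ℕ) : ℝ) + 1 / 2) / (m + 1) ≤ 1 := by
      rw [div_le_one m0]
      linarith
    exact abs_le.2 ⟨by linarith [(hκ i).1], (hκ i).2.trans a2⟩
  have klt : ∀ i j : Fin m, i < j → κ i < κ j := by
    intro i j hij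
    have a0 : (i : ℕ) + 1 ≤ j := hij
    have a1 : ((i : ℕ) : ℝ) + 1 ≤ ((j : ℕ) : ℝ) := by exact_mod_cast a0
    have a2 : (((i : ℕ) : ℝ) + 1 / 2) / (m + 1) < ((j : ℕ) : ℝ) / (m + 1) :=
      div_lt_div_of_pos_right (by linarith) m0
    linarith [(hκ i).2, (hκ j).1]
  let Z : Fin m → Set ℝ := fun i => {a ∈ Icc (k.d O x - δ) (k.d O x + δ) |
    ¬ ∃ τ ∈ T i, k.d O (par x (x - O) (δ * κ i) τ) = a}
  have hZ : ∀ i, volume (Z i) ≤ ENNReal.ofReal (η / (m + 1) * δ) := by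
    intro i
    obtain ⟨b1, b2⟩ := h2 (κ i) (k1 i)
    choose! τ hτ hτa using b2
    have := hS i (Z i) τ 1 one_pos (fun a ha => ⟨hτ a ha.1, fun h => ha.2 ⟨_, h, hτa a ha.1⟩⟩) ?_
    · rwa [div_one] at this
    intro a ha a' ha'
    have c1 := (b1 _ (hτ a ha.1)).1
    have c2 := (b1 _ (hτ a' ha'.1)).1
    have t1 := k.pm.triangle _ hO _ c1 _ c2
    have t2 := k.pm.triangle _ hO _ c2 _ c1
    rw [k.pm.symm _ c2 _ c1] at t2
    rw [hτa a ha.1, hτa a' ha'.1] at t1 t2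
    rw [one_mul, abs_le]
    constructor <;> linarith
  have hsub : {a ∈ Icc (k.d O x - δ) (k.d O x + δ) |
      {y ∈ E ∩ ball x ρ | k.d O y = a}.encard < m} ⊆ ⋃ i, Z i := by
    rintro a ⟨ha, hc⟩
    by_contra hn
    have : ∀ i, ∃ τ ∈ T i, k.d O (par x (x - O) (δ * κ i) τ) = a := by
      intro i
      by_contra h
      exact hn (mem_iUnion.2 ⟨i, ha, h⟩)
    choose τ hτ hτa using this
    let f : Fin m → P := fun i => par x (x - O) (δ * κ i) (τ i)
    have finj : Function.Injective f := by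
      intro i j hij
      have a1 : κ i = κ j := mul_left_cancel₀ d0.ne' (GLEV_inj e0 hij)
      rcases lt_trichotomy i j with h | h | h
      · exact absurd a1 (klt i j h).ne
      · exact h
      · exact absurd a1 (klt j i h).ne'
    have a2 : f '' univ ⊆ {y ∈ E ∩ ball x ρ | k.d O y = a} := by
      rintro _ ⟨i, -, rfl⟩
      exact ⟨⟨hTE i _ (hτ i), ((h2 (κ i) (k1 i)).1 _ (hT i (hτ i))).2⟩, hτa i⟩
    have a3 := encard_le_encard a2
    rw [finj.injOn.encard_image, encard_univ, ENat.card_eq_coe_fintype_card, Fintype.card_fin] at a3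
    exact absurd hc (not_lt.2 a3)
  refine (measure_mono hsub).trans ((measure_iUnion_fintype_le _ _).trans ?_)
  refine (Finset.sum_le_sum fun i _ => hZ i).trans ?_
  rw [Finset.sum_const, Finset.card_univ, Fintype.card_fin, nsmul_eq_mul, ← ENNReal.ofReal_natCast,
    ← ENNReal.ofReal_mul (Nat.cast_nonneg _)]
  refine ENNReal.ofReal_le_ofReal ?_
  have : (m : ℝ) * (η / (m + 1) * δ) = (m / (m + 1)) * (η * δ) := by
    field_simp
  rw [this]
  have a1 : (m : ℝ) / (m + 1) ≤ 1 := by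
    rw [div_le_one m0]
    linarith
  have a2 : 0 < η * δ := by positivity
  nlinarith

end Pool.Agent.P.MP_874adf_gt.Gn
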