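import Pool.Agent.P.MP_874adf_gt.Gn.IfaceGa
import Pool.Agent.P.MP_874adf_gt.Gn.GaU0

/-! Step GLEVO. -/

set_option autoImplicit false

namespace Pool.Agent.P.MP_874adf_gt.Gn

open Pool.Agent.P.MP_874adf_gt.Fs Ga Set Filter Topology Metric MeasureTheory

lemma GLEVO_dir {e : P} (he : e ≠ 0) (e' : P) {η : ℝ} (η0 : 0 < η) : ∃ b > (0 : ℝ), ∀ (O : P)
    (t τ : ℝ), 0 < τ → |t| ≤ b * τ → Dir O (O + t • e' + τ • e) e η := by
  have c0 : ContinuousAt (fun l : ℝ => e + l • e') 0 := by fun_prop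
  have z0 : e + (0 : ℝ) • e' ≠ 0 := by simpa using he
  have c1 : ContinuousAt (fun l : ℝ => ‖e + l • e'‖⁻¹ • (e + l • e')) 0 :=
    (c0.norm.inv₀ (norm_ne_zero_iff.2 z0)).smul c0
  have h1 := c1.eventually (closedBall_mem_nhds _ η0)
  obtain ⟨b, b0, hb⟩ := Metric.eventually_nhds_iff.1 (h1.and (c0.eventually_ne z0))
  refine ⟨b / 2, half_pos b0, fun O t τ τ0 ht => ?_⟩
  have : dist (t / τ) 0 < b := by
    rw [dist_zero_right, Real.norm_eq_abs, abs_div, abs_of_pos τ0, div_lt_iff₀ τ0]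
    nlinarith
  obtain ⟨a1, a2⟩ := hb this
  have e1 : O + t • e' + τ • e - O = τ • (e + (t / τ) • e') := by
    rw [smul_add, smul_smul, mul_div_cancel₀ _ τ0.ne']
    abel
  refine ⟨fun h => smul_ne_zero τ0.ne' a2 (by rw [← e1, h, sub_self]), ?_⟩
  rw [e1, norm_smul, Real.norm_eq_abs, abs_of_pos τ0, smul_smul, mul_inv, mul_right_comm,
    inv_mul_cancel₀ τ0.ne', one_mul]
  simpa [dist_eq_norm] using a1

lemma GLEVO_one (hGSEG : S_GSEG) (k : Kx) {O : P} (hO : O ∈ k.K) {E : Set P} (hE : E ⊆ k.K)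
    (hD : DenW E O) {e : P} (he : e ≠ 0) {η θ : ℝ} (η0 : 0 < η) (θ0 : 0 < θ) :
    ∀ᶠ δ in 𝓝[>] (0 : ℝ), volume {a ∈ Icc δ (2 * δ) | ¬ ∃ y ∈ E, k.d O y = a ∧ Dir O y e η} ≤
      ENNReal.ofReal (θ * δ) := by
  have hN := k.isN O hO
  have mO := k.ud.sub hO
  set e' : P := (-e.2, e.1) with he'
  set f := k.F O e
  have f0 : 0 < f := hN.pos e he
  have g0 := hN.nonneg e'
  obtain ⟨b, b0, hb⟩ := GLEVO_dir he e' η0
  set β := min (min 1 (b / (2 * f))) (1 / (4 * (k.F O e' + 1))) with hβ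
  have β0 : 0 < β := by positivity
  have β1 : β ≤ 1 := (min_le_left _ _).trans (min_le_left _ _)
  have β2 : β ≤ b / (2 * f) := (min_le_left _ _).trans (min_le_right _ _)
  have β3 : β * (4 * (k.F O e' + 1)) ≤ 1 := (le_div_iff₀ (by positivity)).1 (min_le_right _ _)
  set W := ‖e'‖ + 3 / f * ‖e‖ + 1 with hW
  have W0 : 0 < W := by positivity
  obtain ⟨δ0, δ00, hc⟩ := u0_cmp k (ε := 1 / (4 * W)) (by positivity)
  filter_upwards [hGSEG k O hO E hE hD e he (3 / f) (by positivity) θ θ0 0 β (by norm_num) β0 β1,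
    Ioo_mem_nhdsGT (div_pos δ00 W0)] with δ ⟨κ, hκ, T, _, _, hT, sm⟩ hδ
  have d0 : 0 < δ := hδ.1
  have d1 : δ * W < δ0 := (lt_div_iff₀ W0).1 hδ.2
  have k0 : 0 ≤ δ * κ := mul_nonneg d0.le hκ.1
  have ev : ∀ τ, par O e (δ * κ) τ - O = (δ * κ) • e' + τ • e := fun τ => by
    rw [par]; abel
  have t1 : 0 < δ / (2 * f) := by positivity
  have t2 : δ / (2 * f) ≤ 3 / f * δ := by
    rw [div_le_iff₀ (by positivity)]
    field_simp
    norm_num
  have cm : ∀ τ ∈ Icc (δ / (2 * f)) (3 / f * δ), par O e (δ * κ) τ ∈ k.M ∧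
      |k.d O (par O e (δ * κ) τ) - k.F O ((δ * κ) • e' + τ • e)| ≤ δ / 4 := fun τ hτ => by
    have n : ‖par O e (δ * κ) τ - O‖ ≤ δ * W := by
      rw [ev]
      refine (norm_add_le _ _).trans ?_
      rw [norm_smul, norm_smul, Real.norm_eq_abs, Real.norm_eq_abs, abs_of_nonneg k0,
        abs_of_pos (t1.trans_le hτ.1), hW]
      have a1 : δ * κ * ‖e'‖ ≤ δ * ‖e'‖ := mul_le_mul_of_nonneg_right
        (mul_le_of_le_one_right d0.le (hκ.2.trans β1)) (norm_nonneg _)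
      have a2 : τ * ‖e‖ ≤ 3 / f * δ * ‖e‖ := mul_le_mul_of_nonneg_right hτ.2 (norm_nonneg _)
      nlinarith
    obtain ⟨m, h⟩ := hc O hO _ (n.trans d1.le)
    refine ⟨m, ?_⟩
    rw [← ev]
    refine h.trans ((mul_le_mul_of_nonneg_left n (by positivity)).trans_eq ?_)
    field_simp
  have sm1 : k.F O ((δ * κ) • e') ≤ δ / 4 := by
    rw [hN.smul_nonneg k0]
    have : κ * k.F O e' ≤ 1 / 4 := by nlinarith [hκ.1, hκ.2]
    nlinarith
  have lo : k.d O (par O e (δ * κ) (δ / (2 * f))) ≤ δ := by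
    have a1 := (abs_le.1 (cm _ ⟨le_rfl, t2⟩).2).2
    have a2 := hN.add ((δ * κ) • e') ((δ / (2 * f)) • e)
    have a3 : k.F O ((δ / (2 * f)) • e) = δ / 2 := by
      rw [hN.smul_nonneg t1.le]
      show δ / (2 * f) * f = δ / 2
      field_simp
    linarith
  have hi : 2 * δ ≤ k.d O (par O e (δ * κ) (3 / f * δ)) := by
    have a1 := (abs_le.1 (cm _ ⟨t2, le_rfl⟩).2).1
    have a2 := hN.sub_le ((3 / f * δ) • e) ((δ * κ) • e' + (3 / f * δ) • e)
    rw [sub_add_cancel_right, hN.neg] at a2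
    have a3 : k.F O ((3 / f * δ) • e) = 3 * δ := by
      rw [hN.smul_nonneg (by positivity)]
      show 3 / f * δ * f = 3 * δ
      field_simp
    linarith
  have ct : ContinuousOn (fun τ => k.d O (par O e (δ * κ) τ)) (Icc (δ / (2 * f)) (3 / f * δ)) :=
    k.pm.contOn_line mO fun τ hτ => (cm τ hτ).1
  have iv : ∀ a ∈ Icc δ (2 * δ), ∃ τ ∈ Icc (δ / (2 * f)) (3 / f * δ),
      k.d O (par O e (δ * κ) τ) = a := fun a ha =>
    intermediate_value_Icc t2 ct ⟨lo.trans ha.1, ha.2.trans hi⟩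
  choose! τ hτ eτ using iv
  have dir : ∀ a ∈ Icc δ (2 * δ), Dir O (par O e (δ * κ) (τ a)) e η := fun a ha => by
    have a1 := (hτ a ha).1
    refine hb O _ _ (t1.trans_le a1) ?_
    rw [abs_of_nonneg k0]
    calc δ * κ ≤ δ * (b / (2 * f)) := mul_le_mul_of_nonneg_left (hκ.2.trans β2) d0.le
      _ = b * (δ / (2 * f)) := by ring
      _ ≤ b * τ a := mul_le_mul_of_nonneg_left a1 b0.le
  rw [← div_one (θ * δ)]
  refine sm _ τ 1 one_pos (fun a ha => ⟨⟨?_, (hτ a ha.1).2⟩,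
    fun m => ha.2 ⟨_, hT _ m, eτ a ha.1, dir a ha.1⟩⟩) fun a ha a' ha' => ?_
  · have := (hτ a ha.1).1
    have : 0 < 3 / f * δ := by positivity
    linarith
  · have m1 := (cm _ (hτ a ha.1)).1
    have m2 := (cm _ (hτ a' ha'.1)).1
    have a1 := k.pm.triangle _ mO _ m1 _ m2
    have a2 := k.pm.triangle _ mO _ m2 _ m1
    rw [k.pm.symm _ m2 _ m1] at a2
    rw [eτ a ha.1, eτ a' ha'.1] at a1 a2
    rw [one_mul, abs_le]
    constructor <;> linarith

theorem p_GLEVO (hGSEG : S_GSEG) :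
    S_GLEVO := by
  intro k O hO E hE hD S hS hne η η0
  lift S to Finset P using hS
  have θ0 : (0 : ℝ) < 1 / (S.card + 1) := by positivity
  have h := (eventually_all_finset S).2 fun e he => GLEVO_one hGSEG k hO hE hD (hne e he) η0 θ0
  obtain ⟨δ, h1, d0, d1⟩ := (h.and (Ioo_mem_nhdsGT (half_pos η0))).exists
  by_contra hc
  have sub : Icc δ (2 * δ) ⊆
      ⋃ e ∈ S, {a ∈ Icc δ (2 * δ) | ¬ ∃ y ∈ E, k.d O y = a ∧ Dir O y e η} := fun a ha => by
    by_contra hn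
    refine hc ⟨a, d0.trans_le ha.1, by linarith [ha.2], fun e he => ?_⟩
    by_contra h2
    exact hn (mem_iUnion₂.2 ⟨e, he, ha, h2⟩)
  have := ((measure_mono sub).trans (measure_biUnion_finset_le S _)).trans (Finset.sum_le_sum h1)
  rw [Real.volume_Icc, Finset.sum_const, nsmul_eq_mul, ← ENNReal.ofReal_natCast,
    ← ENNReal.ofReal_mul (Nat.cast_nonneg _), ENNReal.ofReal_le_ofReal_iff (by positivity)] at this
  have e : (S.card : ℝ) * (1 / (S.card + 1) * δ) = δ - 1 / (S.card + 1) * δ := by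
    field_simp
    ring
  have := mul_pos θ0 d0
  linarith

end Pool.Agent.P.MP_874adf_gt.Gn
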