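import Pool.Agent.P.MP_874adf_gt.Gn.IfaceGa
import Pool.Agent.P.MP_874adf_gt.Gn.GaL2

/-! Step GLIP2. -/

set_option autoImplicit false

namespace Pool.Agent.P.MP_874adf_gt.Gn

open Pool.Agent.P.MP_874adf_gt.Fs Ga Set Filter Topology Metric MeasureTheory

theorem p_GLIP2 :
    S_GLIP2 := by
  intro k O0 hO y1 h1 y2 h2 y3 h3 w12 w13 w23 _ s2 s3
  obtain ⟨κ, κ0, ρ, ρ0, H⟩ := L2.lip2 k hO h1 h2 h3 w12 w13 w23 s2 s3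
  exact ⟨κ, κ0, ρ, ρ0, fun O hO1 O' hO2 z1 hz1 z2 hz2 z3 hz3 =>
    H O hO1.1 hO1.2 O' hO2.2 z1 hz1 z2 hz2 z3 hz3⟩

end Pool.Agent.P.MP_874adf_gt.Gn
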