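import Pool.Agent.P.MP_874adf_gt.Gn.IfaceGa
import Pool.Agent.P.MP_874adf_gt.Gn.GaDen

/-! Step GOFF. -/

set_option autoImplicit false

namespace Pool.Agent.P.MP_874adf_gt.Gn

open Pool.Agent.P.MP_874adf_gt.Fs Ga Set Filter Topology Metric MeasureTheory

lemma goff_near (k : Kx) {U : Set (P × ℝ)} (hU : IsOpen U) {O0 y : P} (hO : O0 ∈ k.M)
    (hy : y ∈ k.M) (hm : (O0, k.d O0 y) ∈ U) :
    ∃ δ > (0 : ℝ), ∀ O ∈ k.M, O ∈ ball O0 δ → (O, k.d O y) ∈ U := by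
  obtain ⟨ε, ε0, hε⟩ := Metric.isOpen_iff.1 hU _ hm
  have h1 : {z ∈ k.M | k.d O0 z < ε} ∈ 𝓝[k.M] O0 := (k.pm.top O0 hO _).2 ⟨ε, ε0, subset_rfl⟩
  obtain ⟨δ, δ0, hδ⟩ := Metric.mem_nhdsWithin_iff.1 h1
  refine ⟨min δ ε, lt_min δ0 ε0, fun O hOM hb => hε ?_⟩
  have b1 : O ∈ ball O0 δ := ball_subset_ball (min_le_left _ _) hb
  have b2 : O ∈ ball O0 ε := ball_subset_ball (min_le_right _ _) hb
  have h2 : k.d O0 O < ε := (hδ ⟨b1, hOM⟩).2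
  have t1 := k.pm.triangle O0 hO O hOM y hy
  have t2 := k.pm.triangle O hOM O0 hO y hy
  have s := k.pm.symm O hOM O0 hO
  rw [mem_ball, Prod.dist_eq, max_lt_iff]
  refine ⟨b2, ?_⟩
  rw [Real.dist_eq, abs_lt]
  constructor <;> simp only <;> linarith

theorem p_GOFF (hGTWO : S_GTWO) (hGFAMP : S_GFAMP) :
    S_GOFF := by
  intro k Q0 QQ U hF Y hY hsc A hA
  obtain ⟨p, hp⟩ := hF.ne
  obtain ⟨a, haU, ha⟩ := hGTWO k Q0 QQ U hF p hp 2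
  have a0 : 0 < a := (hF.rng _ haU).1
  have hO : p.1 ∈ Den Q0 := hp.1.1
  have hOK : p.1 ∈ k.K := hF.p0.sub hO.1
  have two : ∀ Q ∈ QQ, ∀ w : P, ∃ x ∈ Den Q, k.d p.1 x = a ∧ x ≠ w := by
    intro Q hQ w
    have h1 : (1 : ℕ∞) < {y ∈ Den Q | k.d p.1 y = a}.encard :=
      lt_of_lt_of_le (by norm_num) (ha Q hQ)
    obtain ⟨x, hx, hw⟩ := Set.exists_ne_of_one_lt_encard h1 w
    exact ⟨x, hx.1, hx.2, hw⟩
  obtain ⟨y1, hy1, e1, -⟩ := two Y hY 0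
  have y1K : y1 ∈ k.K := (hF.pc Y hY).sub hy1.1
  have y1M : y1 ∈ k.M := k.ud.sub y1K
  have OM : p.1 ∈ k.M := k.ud.sub hOK
  have n1 : y1 ≠ p.1 := by
    intro e
    rw [e, (k.pm.eq_zero _ OM _ OM).2 rfl] at e1
    exact a0.ne e1
  have nA : y1 - A ≠ 0 := by
    intro e
    rw [sub_eq_zero] at e
    exact hA (e ▸ hy1.1)
  choose x hx ex nx using fun j : QQ => two j.1 j.2 y1
  have : Finite QQ := hF.fin.to_subtype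
  obtain ⟨δ, δ0, hδ⟩ := goff_near k hF.opn OM y1M (by rw [e1]; exact haU)
  obtain ⟨ρ, ρ0, c, c0, h⟩ := hGFAMP k QQ x
    (fun j => Den j.1 \ {z : P | wed (z - A) (y1 - A) = 0}) (Den Q0) p.1 hOK y1 y1M n1
    (hsc _ hO.1 _ hy1.1) (fun z hz => hF.p0.sub hz.1)
    (Dn.den hF.p0.cpt.measurableSet hO.2)
    (fun j => ⟨(hF.pc j.1 j.2).sub (hx j).1, nx j, by rw [ex j, e1],
      fun z hz => (hF.pc j.1 j.2).sub hz.1.1,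
      (Dn.den (hF.pc j.1 j.2).cpt.measurableSet (hx j).2).diff_null (den_line A _ nA)⟩) δ δ0
  obtain ⟨O, hO', -, hz⟩ := h y1 (mem_ball_self ρ0) ∅ (by simpa using c0)
  obtain ⟨y2, hy2, e2⟩ := hz ⟨Y, hY⟩
  refine ⟨(O, k.d O y1), ⟨⟨hO'.1, fun Q hQ => ?_⟩,
    hδ O (k.ud.sub (hF.p0.sub hO'.1.1)) hO'.2⟩, y1, hy1, y2, hy2.1.1, rfl, e2, fun e => ?_⟩
  · obtain ⟨z, hz1, hz2⟩ := hz ⟨Q, hQ⟩
    exact ⟨z, hz1.1.1, hz2⟩
  · refine hy2.1.2 ?_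
    simp only [wed, mem_ofPred_eq] at e ⊢
    linarith

end Pool.Agent.P.MP_874adf_gt.Gn
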