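import Pool.Agent.P.MP_874adf_gt.Gn.IfaceGa
import Pool.Agent.P.MP_874adf_gt.Gn.GaBase

/-! Step GOSPLIT. -/

set_option autoImplicit false

namespace Pool.Agent.P.MP_874adf_gt.Gn

open Pool.Agent.P.MP_874adf_gt.Fs Ga Set Filter Topology Metric MeasureTheory

theorem gosplit_loc (hGCOV : S_GCOV) {k : Kx} {Q0 Y : Set P} {QQ : Set (Set P)} {U : Set (P × ℝ)}
    {w : Set Dat} (st : St k Q0 QQ U w) (hY : Pc k Y) (sc : SCs k Q0 Y) {O y : P} (hy : y ∈ Den Y)
    (hO : (O, k.d O y) ∈ Rich k Q0 QQ ∩ U) {r : ℝ} (r0 : 0 < r) :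
    ∃ Y' ⊆ Y, HV k (w ∩ dO ⁻¹' closedBall O r) Y' := by
  obtain ⟨p1, d1⟩ := st.fr.p0.inter_closedBall hO.1.1 r0
  have s1 : St k (Q0 ∩ closedBall O r) (insert Y QQ) U w :=
    st.change p1 inter_subset_left (st.fr.fin.insert _)
      (fun Z m => m.elim (fun e => e ▸ hY) (st.fr.pc Z))
      (fun Z m => ⟨Z, mem_insert_of_mem _ m, subset_rfl⟩) st.fr.opn subset_rfl
      ⟨_, Rich.insert (p := (O, k.d O y)) ⟨d1, hO.1.2⟩ hy rfl, hO.2⟩
  have s2 := s1.sub' (c := dO ⁻¹' closedBall O r) (isClosed_closedBall.preimage contO)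
    fun p hp D _ e _ => by
      rw [mem_preimage, e]
      exact hp.1.1.1.2
  obtain ⟨Y', a, b⟩ := (hGCOV k _ _ U Y (mem_insert _ _) (sc.mono inter_subset_left subset_rfl)).2 _ s2
  exact ⟨Y', a, b.hv⟩

theorem gosplit_cont {X : Type} [TopologicalSpace X] {f g : X → P} (hf : Continuous f)
    (hg : Continuous g) : Continuous fun x => wed (f x) (g x) :=
  (hf.fst.mul hg.snd).sub (hf.snd.mul hg.fst)

theorem p_GOSPLIT (hGCOV : S_GCOV) :
    S_GOSPLIT := by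
  rintro k w Q ⟨Q0, QQ, U, h⟩
  have st := h.add h.pc subset_rfl
  obtain ⟨y2, hy2, ρ, ρ0, c, c0, H⟩ := (hGCOV k Q0 _ U Q (mem_insert _ _) h.sc).1 st.fr
  obtain ⟨O1, -, hO1⟩ := H y2 (mem_ball_self ρ0) ∅ (by simpa using c0)
  have ne : O1 - y2 ≠ 0 := fun e => by
    have := (st.fr.rng _ hO1.2).1
    rw [sub_eq_zero.1 e, k.pm.self (h.pc.subM hy2.1)] at this
    exact lt_irrefl _ this
  obtain ⟨V, V1, V2, V3⟩ := Set.exists_isOpen_lt_of_lt (μ := volume)
    {z : P | wed (O1 - y2) (z - y2) = 0} (ENNReal.ofReal c) (by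
      rw [line_null y2 ne]
      simpa using c0)
  have ct : Continuous fun z : P => |wed (O1 - y2) (z - y2)| :=
    (gosplit_cont continuous_const (continuous_id.sub continuous_const)).abs
  obtain ⟨t, t0, ht⟩ := (k.ud.cpt.diff V2).exists_forall_le' ct.continuousOn (a := 0)
    fun z hz => abs_pos.2 fun e => hz.2 (V1 e)
  have ev : ∀ᶠ q : P × P in 𝓝 (y2, O1), ∀ O ∈ k.K,
      |wed (q.2 - q.1) (O - q.1) - wed (O1 - y2) (O - y2)| < t / 2 := by
    refine k.ud.cpt.eventually_forall_of_forall_eventually fun O _ => ?_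
    have c1 : Continuous fun z : (P × P) × P =>
        |wed (z.1.2 - z.1.1) (z.2 - z.1.1) - wed (O1 - y2) (z.2 - y2)| :=
      ((gosplit_cont (by fun_prop) (by fun_prop)).sub
        (gosplit_cont continuous_const (by fun_prop))).abs
    exact c1.continuousAt.eventually_lt continuousAt_const (by simpa using t0)
  obtain ⟨r, r0, hr⟩ := Metric.nhds_basis_closedBall.mem_iff.1
    (ev.and ((continuous_fst.tendsto (y2, O1)).eventually (ball_mem_nhds y2 ρ0)))
  rw [← closedBall_prod_same] at hr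
  obtain ⟨p1, d1⟩ := h.pc.inter_closedBall hy2 r0
  obtain ⟨Y1, s1, h1⟩ := gosplit_loc hGCOV st p1 (h.sc.mono subset_rfl inter_subset_left) d1 hO1 r0
  obtain ⟨y, hy⟩ := h1.pc.den_nonempty
  obtain ⟨O2, n2, hO2⟩ := H y (hr (a := (y, O1)) ⟨(s1 hy.1).2, mem_closedBall_self r0.le⟩).2 V V3
  obtain ⟨r2, r20, hr2⟩ := Metric.nhds_basis_closedBall.mem_iff.1
    (continuousAt_const.eventually_lt (ct.continuousAt (x := O2))
      ((half_lt_self t0).trans_le (ht O2 ⟨st.fr.memK hO2.1, n2⟩)))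
  obtain ⟨Y2, s2, h2⟩ := gosplit_loc hGCOV st h1.pc
    (h.sc.mono subset_rfl (s1.trans inter_subset_left)) hy hO2 r20
  refine ⟨Y2, s2.trans (s1.trans inter_subset_left), _, inter_subset_left, _, inter_subset_left,
    h1.mono h2.pc s2, h2, fun z hz D hD D' hD' e => ?_⟩
  have a := (hr (a := (z, dO D)) ⟨(s1 (s2 hz)).2, hD.2⟩).1 _ (h.st.good.mO D' hD'.1)
  have b : t / 2 < |wed (O1 - y2) (dO D' - y2)| := hr2 hD'.2
  rw [e, zero_sub, abs_neg] at a
  exact lt_asymm a b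

end Pool.Agent.P.MP_874adf_gt.Gn
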