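import Pool.Agent.P.MP_874adf_gt.Gn.IfaceGa
import Pool.Agent.P.MP_874adf_gt.Gn.GaClo

/-! Step GP1. -/

set_option autoImplicit false

namespace Pool.Agent.P.MP_874adf_gt.Gn

open Pool.Agent.P.MP_874adf_gt.Fs Ga Set Filter Topology Metric MeasureTheory

lemma GP1_cont (k : Kx) {v : Set Dat} (g : Good k v) : ContinuousOn (pat k) v := by
  intro D hD
  apply ContinuousAt.continuousWithinAt
  have mO := k.ud.sub (g.mO D hD)
  have h1 : ContinuousAt (rad k) D :=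
    clo_contr.continuousAt.mul (k.pm.tendsto mO (g.mB D hD) (clo_contO.tendsto D)
      (clo_contB.tendsto D))
  have h2 : rad k D ≠ 0 := (mul_pos (g.r0 D hD) (k.pm.pos mO (g.mB D hD) (g.ne D hD))).ne'
  have h3 : 2 - dl D - dr D ≠ 0 := by linarith [g.l1 D hD, g.r1 D hD] |> fun h : (0 : ℝ) < 2 - dl D - dr D => h.ne'
  have h4 : ContinuousAt piD D :=
    (continuous_const.sub clo_contl).continuousAt.div
      ((continuous_const.sub clo_contl).sub clo_contr).continuousAt h3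
  exact ((h1.inv₀ h2).smul (clo_contB.sub clo_contO).continuousAt).prodMk h4

lemma GP1_mono {k : Kx} {Q Q' : Set P} {c : Set (P × ℝ)} {E E' : Set P} {η η' : ℝ}
    (h : Av k Q c E η) (hQ : Q ⊆ Q') (hE : E' ⊆ E) (hη : η ≤ η') : Av k Q' c E' η' := by
  obtain ⟨Q0, s0, QQ, U, v, st, hp, hU, hd⟩ := h
  refine ⟨Q0, s0.trans hQ, QQ, U, v, st, hp, fun p hp => (hU p hp).trans_le hη, fun e he => ?_⟩
  obtain ⟨Y, mY, sY, hY⟩ := hd e (hE he)
  exact ⟨Y, mY, sY.trans hQ, fun O hO y hy => ⟨(hY O hO y hy).1, (hY O hO y hy).2.trans hη⟩⟩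

lemma GP1_ind {k : Kx} {Q : Set P} (pQ : Pc k Q) {ι : Type} {t : Set ι} (ht : t.Finite)
    (c : ι → Set (P × ℝ))
    (h : ∀ i ∈ t, ∀ Q1 ⊆ Q, Pc k Q1 → ∃ Q' ⊆ Q1, Pc k Q' ∧ ∃ E : Set P, E.Finite ∧
      (∀ e ∈ E, e ≠ 0) ∧ ∃ η > (0 : ℝ), ¬ Av k Q' (c i) E η) :
    ∃ Q' ⊆ Q, Pc k Q' ∧ ∃ E : Set P, E.Finite ∧ (∀ e ∈ E, e ≠ 0) ∧ ∃ η > (0 : ℝ),
      ∀ i ∈ t, ¬ Av k Q' (c i) E η := by
  induction t, ht using Set.Finite.induction_on with
  | empty => exact ⟨Q, subset_rfl, pQ, ∅, finite_empty, by simp, 1, one_pos, by simp⟩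
  | @insert i t _ _ ih =>
    obtain ⟨Q1, s1, p1, E1, f1, n1, η1, η10, h1⟩ := ih fun j hj => h j (mem_insert_of_mem _ hj)
    obtain ⟨Q2, s2, p2, E2, f2, n2, η2, η20, h2⟩ := h i (mem_insert _ _) Q1 s1 p1
    refine ⟨Q2, s2.trans s1, p2, E1 ∪ E2, f1.union f2, fun e he => he.elim (n1 e) (n2 e),
      min η1 η2, lt_min η10 η20, fun j hj a => ?_⟩
    rcases hj with rfl | hj
    · exact h2 (GP1_mono a subset_rfl subset_union_right (min_le_right _ _))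
    · exact h1 j hj (GP1_mono a s2 subset_union_left (min_le_left _ _))

theorem p_GP1 (hGBAIRE : S_GBAIRE) :
    S_GP1 := by
  intro k Q c pQ pe δ δ0
  by_contra hn
  obtain ⟨t, -, tf, tc⟩ := finite_cover_balls_of_compact pe.cpt (half_pos δ0)
  have cp : ∀ p : P × ℝ, IsCompact (c ∩ closedBall p (δ / 2)) := fun p =>
    pe.cpt.inter_right isClosed_closedBall
  obtain ⟨Q', s', p', E, fE, nE, η, η0, hE⟩ := GP1_ind pQ tf (fun p => c ∩ closedBall p (δ / 2))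
    (fun p _ Q1 s1 p1 => by
      by_contra hh
      refine hn ⟨Q1, s1, c ∩ closedBall p (δ / 2), inter_subset_left, p1,
        ⟨cp p, fun Q2 s2 p2 E fE nE η η0 => ?_⟩, fun x hx y hy => ?_⟩
      · by_contra ha
        exact hh ⟨Q2, s2, p2, E, fE, nE, η, η0, ha⟩
      · have h1 := mem_closedBall.1 hx.2
        have h2 := mem_closedBall.1 hy.2
        linarith [dist_triangle_right x y p])
  obtain ⟨Q0, s0, QQ, U, v, st, hp, hU, hd⟩ := pe.av Q' s' p' E fE nE η η0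
  have := tf.to_subtype
  obtain ⟨i, U', sU, st'⟩ := (hGBAIRE k Q0 QQ U).2.1 v st t
    (fun i => v ∩ pat k ⁻¹' (c ∩ closedBall i.1 (δ / 2)))
    (fun i => (GP1_cont k st.good).preimage_isClosed_of_isClosed st.good.cpt.isClosed
      (cp i.1).isClosed)
    (fun D hD => by
      obtain ⟨p, mp, hp'⟩ := mem_iUnion₂.1 (tc (hp D hD))
      exact mem_iUnion.2 ⟨⟨p, mp⟩, hD, hp D hD, ball_subset_closedBall hp'⟩)
  exact hE i.1 i.2 ⟨Q0, s0, QQ, U', _, st', fun D hD => hD.2.2, fun p hp => hU p (sU hp), hd⟩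

end Pool.Agent.P.MP_874adf_gt.Gn
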