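import Pool.Agent.P.MP_874adf_gt.Gn.IfaceGa
import Pool.Agent.P.MP_874adf_gt.Gn.GaU0
import Pool.Agent.P.MP_874adf_gt.Gn.GaClo
import Pool.Agent.P.MP_874adf_gt.Gn.GaDen

/-! Step GPAS. -/

set_option autoImplicit false

namespace Pool.Agent.P.MP_874adf_gt.Gn

open Pool.Agent.P.MP_874adf_gt.Fs Ga Set Filter Topology Metric MeasureTheory

/-- most levels near a rich level are rich -/
theorem GPAS_lev (hGLEV : S_GLEV) (k : Kx) {O : P} (mO : O ∈ k.M) {a : ℝ} (a0 : 0 < a)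
    {QQ : Set (Set P)} (fin : QQ.Finite) (pc : ∀ Q ∈ QQ, Pc k Q)
    (ri : ∀ Q ∈ QQ, ∃ y ∈ Den Q, k.d O y = a) : ∀ η > (0 : ℝ), ∀ᶠ δ in 𝓝[>] (0 : ℝ),
    volume {b ∈ Icc (a - δ) (a + δ) | ¬ ∀ Q ∈ QQ, ∃ y ∈ Den Q, k.d O y = b} ≤
      ENNReal.ofReal (η * δ) := by
  induction QQ, fin using Set.Finite.induction_on with
  | empty => exact fun η _ => Eventually.of_forall fun δ => by simp
  | @insert Q s _ _ ih =>
    intro η η0
    obtain ⟨x, hx, ex⟩ := ri Q (mem_insert _ _)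
    have pQ := pc Q (mem_insert _ _)
    have ne : x ≠ O := by
      rintro rfl
      rw [k.pm.self mO] at ex
      exact a0.ne ex
    have h1 := hGLEV k O mO x (pQ.sub hx.1) ne (Den Q) (fun y hy => pQ.sub hy.1)
      (Dn.den pQ.cpt.measurableSet hx.2) _ (half_pos η0) 1 one_pos 1
    have h2 := ih (fun Q' h => pc Q' (mem_insert_of_mem _ h))
      (fun Q' h => ri Q' (mem_insert_of_mem _ h)) _ (half_pos η0)
    filter_upwards [h1, h2, self_mem_nhdsWithin] with δ h1 h2 (δ0 : 0 < δ)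
    rw [ex] at h1
    refine le_trans (measure_mono ?_) ((measure_union_le _ _).trans ((add_le_add h1 h2).trans ?_))
    · rintro b ⟨hb, hn⟩
      by_cases e : ∃ y ∈ Den Q, k.d O y = b
      · exact Or.inr ⟨hb, fun h => hn (forall_mem_insert.2 ⟨e, h⟩)⟩
      · refine Or.inl ⟨hb, ?_⟩
        have : {y ∈ Den Q ∩ ball x 1 | k.d O y = b} = ∅ :=
          eq_empty_of_forall_notMem fun y hy => e ⟨y, hy.1.1, hy.2⟩
        rw [this]
        simp
    · rw [← ENNReal.ofReal_add (by positivity) (by positivity)]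
      exact le_of_eq (by congr 1; ring)

theorem p_GPAS (hGLEV : S_GLEV) (hGLEV0 : S_GLEV0) (hGCLO : S_GCLO) (hGGEO : S_GGEO) :
    S_GPAS := by
  intro k Q c _ hP e he ε ε0
  have _ := hGCLO
  obtain ⟨η0, η00, geo⟩ := hGGEO k e he ε ε0
  obtain ⟨Q0, -, QQ, U, v, st, hpat, hU, hE⟩ := hP.av Q subset_rfl ‹_› {e} (finite_singleton e)
    (fun _ h => h ▸ he) (min η0 ε) (lt_min η00 ε0)
  obtain ⟨Y, YQ, sY, dir⟩ := hE e rfl
  obtain ⟨⟨O, a⟩, ⟨hO, ri⟩, pU⟩ := st.fr.ne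
  have a0 : 0 < a := (st.fr.rng _ pU).1
  have OK : O ∈ k.K := st.fr.p0.sub hO.1
  have mO := k.ud.sub OK
  have pY := st.fr.pc Y YQ
  obtain ⟨x, hx, ex⟩ := ri Y YQ
  dsimp only at ex ri hO
  have xK := pY.sub hx.1
  obtain ⟨C, C0, hC⟩ := hGLEV0 k O mO x xK (dir O hO.1 x hx.1).1
  obtain ⟨L, L0, δL, δL0, hL⟩ := u0_lip k
  have tL : Tendsto (fun δ : ℝ => L * δ) (𝓝[>] 0) (𝓝[>] 0) := by
    refine tendsto_nhdsWithin_iff.2 ⟨?_, ?_⟩
    · have : Tendsto (fun δ : ℝ => L * δ) (𝓝 0) (𝓝 (L * 0)) := tendsto_id.const_mul L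
      rw [mul_zero] at this
      exact this.mono_left nhdsWithin_le_nhds
    · filter_upwards [self_mem_nhdsWithin] with δ (h : 0 < δ)
      exact mul_pos L0 h
  have h1 := tL.eventually (GPAS_lev hGLEV k mO a0 st.fr.fin st.fr.pc ri (1 / (C * L))
    (by positivity))
  obtain ⟨ρ, ρ0, hρ⟩ := Metric.isOpen_iff.1 (st.fr.opn.preimage (f := fun b : ℝ => (O, b))
    (by fun_prop)) a pU
  have h2 := tL.eventually (Ioo_mem_nhdsGT ρ0)
  obtain ⟨δ, h1, h2, h3, h4, δ0, δ1⟩ := (h1.and (h2.and (hC.and ((hx.2 1 one_pos).and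
    (Ioc_mem_nhdsGT δL0))))).exists
  have lev : ∀ y ∈ closedBall x δ, y ∈ k.M ∧ k.d O y ∈ Icc (a - L * δ) (a + L * δ) := by
    intro y hy
    rw [mem_closedBall, dist_eq_norm] at hy
    obtain ⟨my, -, l⟩ := (hL x xK).2 y (hy.trans δ1)
    have mx := k.ud.sub xK
    have t1 := k.pm.triangle O mO x mx y my
    have t2 := k.pm.triangle O mO y my x mx
    rw [k.pm.symm y my x mx] at t2
    have := mul_le_mul_of_nonneg_left hy L0.le
    exact ⟨my, by linarith, by linarith⟩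
  have inU : ∀ y ∈ closedBall x δ, (O, k.d O y) ∈ U := fun y hy => hρ (by
    have := (lev y hy).2
    rw [mem_ball, Real.dist_eq, abs_lt]
    constructor <;> linarith [this.1, this.2, h2.2])
  refine ⟨{y ∈ Y ∩ closedBall x δ | Vd k v (O, k.d O y)}, fun y hy => sY hy.1.1, ⟨?_,
    fun y hy => pY.sub hy.1.1, ?_⟩, ?_⟩
  · have cp : IsCompact (Y ∩ closedBall x δ) := pY.cpt.inter_right isClosed_closedBall
    refine cp.of_isClosed_subset (isClosed_of_closure_subset fun y hy => ?_) fun y hy => hy.1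
    have my : y ∈ Y ∩ closedBall x δ := cp.isClosed.closure_subset_iff.2 (fun y hy => hy.1) hy
    have g := st.good
    refine ⟨my, clo k g.cpt (fun D h => ⟨g.mO D h, g.mB D h, g.l0 D h, g.l1 D h, g.r0 D h, g.r1 D h⟩)
      (st.fr.rng _ (inU y my.2)).1 (st.fr.rng _ (inU y my.2)).2 ?_⟩
    have ca : ContinuousAt (fun z => (O, k.d O z)) y :=
      continuousAt_const.prodMk (k.pm.tendsto mO (lev y my.2).1 tendsto_const_nhds tendsto_id)
    exact ca.continuousWithinAt.mem_closure hy fun z hz => hz.2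
  · rw [pos_iff_ne_zero]
    intro z
    have h5 := (h3 _).trans (mul_le_mul_right h1 _)
    have : volume (closedBall x δ) ≤ ENNReal.ofReal (1 * δ ^ 2) +
        (ENNReal.ofReal (C * δ) * ENNReal.ofReal (1 / (C * L) * (L * δ)) + 0) := by
      refine le_trans (measure_mono ?_) ((measure_union_le _ _).trans (add_le_add h4
        ((measure_union_le _ _).trans (add_le_add h5 z.le))))
      intro y hy
      by_cases e1 : y ∈ Y
      · by_cases e2 : ∀ Q ∈ QQ, ∃ z ∈ Den Q, k.d O z = k.d O y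
        · exact Or.inr (Or.inr ⟨⟨e1, hy⟩, st.val _ ⟨⟨hO, e2⟩, inU y hy⟩⟩)
        · exact Or.inr (Or.inl ⟨⟨pY.sub e1, hy⟩, (lev y hy).2, e2⟩)
      · exact Or.inl ⟨hy, e1⟩
    rw [den_vol x δ0.le, add_zero, ← ENNReal.ofReal_mul (by positivity),
      ← ENNReal.ofReal_add (by positivity) (by positivity),
      ENNReal.ofReal_le_ofReal_iff (by positivity)] at this
    have e : C * δ * (1 / (C * L) * (L * δ)) = δ ^ 2 := by field_simp
    nlinarith [sq_pos_of_pos δ0]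
  · rintro y ⟨hy, D, Dv, eD, cD⟩
    dsimp only at eD cD
    have s1 := hU _ (inU y hy.2)
    have s0 := (st.fr.rng _ (inU y hy.2)).1
    have dy := dir O hO.1 y hy.1
    subst eD
    exact ⟨D, _, s0, s1.trans_le (min_le_right _ _), cD, geo y (pY.sub hy.1) D OK cD
      (s1.trans_le (min_le_left _ _)) ⟨dy.1, dy.2.trans (min_le_left _ _)⟩ c (hpat D Dv)⟩

end Pool.Agent.P.MP_874adf_gt.Gn
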