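import Pool.Agent.P.MP_874adf_gt.Gn.IfaceGa
import Pool.Agent.P.MP_874adf_gt.Gn.GaBase

/-! Step GRIG1. -/

set_option autoImplicit false

namespace Pool.Agent.P.MP_874adf_gt.Gn

open Pool.Agent.P.MP_874adf_gt.Fs Ga Set Filter Topology Metric MeasureTheory

lemma Rig1.touch {k : Kx} {f : Dat → P} {w u : Set Dat} {Q Qb G : Set P} (hf : Continuous f)
    (ns : ¬ Split k f w Q) (hu : u ⊆ w) (hG : G ⊆ Q) (hv : HV k u G) {y : P} {r : ℝ} (r0 : 0 < r)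
    (hr : Qb ∩ ball y r ⊆ G) {D : Dat} (om : Om k w Qb y D) :
    ∃ D2 ∈ u, wed (f D - y) (f D2 - y) = 0 := by
  by_contra hc
  push Not at hc
  have c : Continuous fun z : (P × Dat) × Dat => wed (f z.1.2 - z.1.1) (f z.2 - z.1.1) := by
    unfold wed; fun_prop
  have ev := hv.good.cpt.eventually_forall_of_forall_eventually (x₀ := (y, D))
    (P := fun (p : P × Dat) (D2 : Dat) => wed (f p.2 - p.1) (f D2 - p.1) ≠ 0)
    fun D2 m => c.continuousAt.eventually_ne (hc D2 m)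
  obtain ⟨ε, ε0, hε⟩ := Metric.eventually_nhds_iff.1 ev
  obtain ⟨w', a, Y', b, h'⟩ := om.2 (min ε r) (lt_min ε0 r0)
  have sG : Y' ⊆ G := fun z m => hr ⟨(b m).1, ball_subset_ball (min_le_right _ _) (b m).2⟩
  refine ns ⟨Y', sG.trans hG, w', fun _ m => (a m).1, u, hu, h', hv.mono h'.pc sG,
    fun y1 m D1 m1 D2 m2 => ?_⟩
  refine hε (y := (y1, D1)) ?_ D2 m2
  exact max_lt (lt_of_lt_of_le (mem_ball.1 (b m).2) (min_le_left _ _))
    (lt_of_lt_of_le (mem_ball.1 (a m1).2) (min_le_left _ _))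

lemma Rig1.par {a b e : P} (he : e ≠ 0) (h1 : wed a e = 0) (h2 : wed b e = 0) : wed a b = 0 := by
  unfold wed at *
  by_cases e1 : e.1 = 0
  · have e2 : e.2 ≠ 0 := fun h => he (Prod.ext e1 h)
    refine mul_left_cancel₀ e2 ?_
    linear_combination b.2 * h1 - a.2 * h2
  · refine mul_left_cancel₀ e1 ?_
    linear_combination b.1 * h1 - a.1 * h2

theorem p_GRIG1 (hGEXH : S_GEXH) (hGHVS : S_GHVS) :
    S_GRIG1 := by
  intro k f w Q hf hv aw ns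
  have pQ := hv.pc
  obtain ⟨ε, ε0, hε⟩ := ENNReal.exists_pos_sum_of_countable pQ.pos.ne' ℕ
  have ex := fun n : ℕ => hGEXH Q {G | Pc k G ∧ G ⊆ Q ∧ ∃ u ⊆ w, HV k u G ∧
      ∀ D ∈ u, ∀ D' ∈ u, dist D D' ≤ 1 / ((n : ℝ) + 1)} pQ.cpt
    (fun G m => ⟨m.1.cpt, m.1.pos, m.2.1⟩)
    (fun Q' s c p => by
      obtain ⟨u, a, G, b, h1, h2, -⟩ := hGHVS k w Q' (hv.mono ⟨c, s.trans pQ.sub, p⟩ s)
        (1 / ((n : ℝ) + 1)) (by positivity)
      exact ⟨G, ⟨h1.pc, b.trans s, u, a, h1, h2⟩, b⟩) (ε n) (ε0 n)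
  choose S S1 S2 S3 S4 using ex
  have cl : ∀ n, ∀ T ⊆ S n, IsClosed (⋃₀ T) := fun n T hT => by
    rw [sUnion_eq_biUnion]
    exact ((S2 n).subset hT).isClosed_biUnion fun G m => (S1 n (hT m)).1.cpt.isClosed
  refine ⟨Q ∩ ⋂ n, ⋃₀ S n, inter_subset_left, ⟨pQ.cpt.inter_right
    (isClosed_iInter fun n => cl n _ subset_rfl), inter_subset_left.trans pQ.sub, ?_⟩, ?_⟩
  · rw [pos_iff_ne_zero]
    intro h0
    have cov : Q ⊆ (Q ∩ ⋂ n, ⋃₀ S n) ∪ ⋃ n, Q \ ⋃₀ S n := fun z m => by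
      by_cases h : ∀ n, z ∈ ⋃₀ S n
      · exact Or.inl ⟨m, mem_iInter.2 h⟩
      · obtain ⟨n, hn⟩ := not_forall.1 h
        exact Or.inr (mem_iUnion.2 ⟨n, m, hn⟩)
    have v := (measure_mono cov).trans ((measure_union_le (μ := volume) _ _).trans
      (add_le_add h0.le ((measure_iUnion_le _).trans (ENNReal.tsum_le_tsum fun n => (S4 n).le))))
    simp only [zero_add, ENNReal.ofReal_coe_nnreal] at v
    exact absurd hε (not_lt.2 v)
  intro y hy D D' om om'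
  have st : ∀ n : ℕ, ∃ E ∈ w, ∃ E' : Dat, dist E E' ≤ 1 / ((n : ℝ) + 1) ∧
      wed (f D - y) (f E - y) = 0 ∧ wed (f D' - y) (f E' - y) = 0 := fun n => by
    obtain ⟨G, mG, yG⟩ := mem_iInter.1 hy.2 n
    obtain ⟨-, sG, u, hu, h1, h2⟩ := S1 n mG
    have ny : y ∉ ⋃₀ (S n \ {G}) := by
      rintro ⟨G', m', y'⟩
      exact disjoint_left.1 (S3 n m'.1 mG m'.2) y' yG
    obtain ⟨r, r0, hr⟩ := Metric.isOpen_iff.1 (cl n (S n \ {G}) sdiff_subset).isOpen_compl y ny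
    have sb : (Q ∩ ⋂ n, ⋃₀ S n) ∩ ball y r ⊆ G := fun z m => by
      obtain ⟨G', m', z'⟩ := mem_iInter.1 m.1.2 n
      by_contra hz
      exact hr m.2 ⟨G', ⟨m', fun e => hz (mem_singleton_iff.1 e ▸ z')⟩, z'⟩
    obtain ⟨E, mE, e1⟩ := Rig1.touch hf ns hu sG h1 r0 sb om
    obtain ⟨E', mE', e2⟩ := Rig1.touch hf ns hu sG h1 r0 sb om'
    exact ⟨E, hu mE, E', h2 E mE E' mE', e1, e2⟩
  choose E mE E' dE e1 e2 using st
  obtain ⟨A, mA, φ, hφ, tA⟩ := hv.good.cpt.tendsto_subseq mE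
  have t0 : Tendsto (fun n => dist (E (φ n)) (E' (φ n))) atTop (𝓝 0) :=
    squeeze_zero (fun _ => dist_nonneg) (fun n => dE (φ n))
      (tendsto_one_div_add_atTop_nhds_zero_nat.comp hφ.tendsto_atTop)
  have tA' : Tendsto (fun n => E' (φ n)) atTop (𝓝 A) := tA.congr_dist t0
  have lim : ∀ (a : P) (g : ℕ → Dat), Tendsto g atTop (𝓝 A) → (∀ n, wed a (f (g n) - y) = 0) →
      wed a (f A - y) = 0 := fun a g tg hg => by
    have c : Continuous fun X : Dat => wed a (f X - y) := by unfold wed; fun_prop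
    exact tendsto_nhds_unique ((c.tendsto A).comp tg) (tendsto_const_nhds.congr fun n => (hg n).symm)
  have ne : f A - y ≠ 0 := fun e => aw A mA (sub_eq_zero.1 e ▸ hy.1)
  exact Rig1.par ne (lim _ _ tA fun n => e1 (φ n)) (lim _ _ tA' fun n => e2 (φ n))

end Pool.Agent.P.MP_874adf_gt.Gn
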