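import Pool.Agent.P.MP_874adf_gt.Gn.IfaceGa
import Pool.Agent.P.MP_874adf_gt.Gn.GaBase

/-! Step GRIG2. -/

set_option autoImplicit false

namespace Pool.Agent.P.MP_874adf_gt.Gn

open Pool.Agent.P.MP_874adf_gt.Fs Ga Set Filter Topology Metric MeasureTheory

theorem p_GRIG2 (hGCLO : S_GCLO) (hGBAIRE : S_GBAIRE) (hGCOV : S_GCOV) :
    S_GRIG2 := by
  intro k w Q Q0 QQ U h Qb sb pb p hp s fs hs
  have key : ∀ n : ℕ, ∃ D ∈ w, ∃ q : P × ℝ, dist q p < 1 / ((n : ℝ) + 1) ∧ dO D = q.1 ∧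
      Circ k.M k.d D q.2 ∧ ∃ w' ⊆ w, (∀ D' ∈ w', dist D' D ≤ 1 / ((n : ℝ) + 1)) ∧
        ∀ y ∈ s, ∃ Y' ⊆ Qb ∩ closedBall y (1 / ((n : ℝ) + 1)), HV k w' Y' := by
    intro n
    have e0 : (0 : ℝ) < 1 / ((n : ℝ) + 1) := Nat.one_div_pos_of_nat
    set ε : ℝ := 1 / ((n : ℝ) + 1)
    have st : St k Q0 (QQ ∪ (fun y => Qb ∩ closedBall y ε) '' s) (U ∩ ball p ε) w :=
      h.st.change h.st.fr.p0 subset_rfl (h.st.fr.fin.union (fs.image _)) (by
        rintro Z (hZ | ⟨y, hy, rfl⟩)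
        · exact h.st.fr.pc Z hZ
        · exact (pb.inter_closedBall (hs y hy).1 e0).1)
        (fun Z m => ⟨Z, Or.inl m, subset_rfl⟩) (h.st.fr.opn.inter isOpen_ball) inter_subset_left
        ⟨p, Rich.union hp.1 (by
          rintro Z ⟨y, hy, rfl⟩
          exact ⟨y, (pb.inter_closedBall (hs y hy).1 e0).2, (hs y hy).2⟩), hp.2, mem_ball_self e0⟩
    obtain ⟨w', sw, U', sU, st', dw⟩ := (hGBAIRE k Q0 _ _).2.2 w st ε e0
    obtain ⟨q, hq⟩ := st'.fr.ne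
    obtain ⟨D, m, eO, cD⟩ := st'.val q hq
    refine ⟨D, sw m, q, (sU hq.2).2, eO, cD, w', sw, fun D' m' => dw D' m' D m, fun y hy => ?_⟩
    obtain ⟨Y', s', hv⟩ := (hGCOV k Q0 _ U' _ (Or.inr ⟨y, hy, rfl⟩)
      (h.sc.mono subset_rfl (inter_subset_left.trans sb))).2 _ st'
    exact ⟨Y', s', hv.hv⟩
  choose D mD q dq eO cD w' sw dw hY using key
  obtain ⟨E, mE, φ, hφ, tE⟩ := h.st.good.cpt.tendsto_subseq mD
  have t0 : Tendsto (fun n => 1 / (((φ n : ℕ) : ℝ) + 1)) atTop (𝓝 0) :=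
    tendsto_one_div_add_atTop_nhds_zero_nat.comp hφ.tendsto_atTop
  have tq : Tendsto (fun n => q (φ n)) atTop (𝓝 p) :=
    tendsto_iff_dist_tendsto_zero.2 (squeeze_zero (fun _ => dist_nonneg) (fun n => (dq _).le) t0)
  refine ⟨E, mE, ?_, ?_, fun y hy => ⟨mE, fun ε ε0 => ?_⟩⟩
  · exact tendsto_nhds_unique ((contO.tendsto E).comp tE)
      (((continuous_fst.tendsto p).comp tq).congr fun n => (eO _).symm)
  · refine hGCLO k w h.st.good E mE p.2 (h.st.fr.rng p hp.2).1 (h.st.fr.rng p hp.2).2 ?_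
    exact mem_closure_of_tendsto (tE.prodMk_nhds ((continuous_snd.tendsto p).comp tq))
      (Eventually.of_forall fun n => ⟨mD _, cD _⟩)
  · obtain ⟨n, h1, h2⟩ := ((t0.eventually (gt_mem_nhds (half_pos ε0))).and
      (tE.eventually (ball_mem_nhds E (half_pos ε0)))).exists
    obtain ⟨Y', s', hv⟩ := hY (φ n) y hy
    refine ⟨w' (φ n), fun D' m => ⟨sw _ m, ?_⟩, Y', fun z m => ⟨(s' m).1, ?_⟩, hv⟩
    · have h3 : dist (D (φ n)) E < ε / 2 := h2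
      rw [mem_ball]
      linarith [dist_triangle D' (D (φ n)) E, dw _ D' m]
    · exact closedBall_subset_ball (by linarith) (s' m).2

end Pool.Agent.P.MP_874adf_gt.Gn
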