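import Pool.Agent.P.MP_874adf_gt.Gn.IfaceGa
import Pool.Agent.P.MP_874adf_gt.Gn.GaBase

/-! Step GRIG3. -/

set_option autoImplicit false

namespace Pool.Agent.P.MP_874adf_gt.Gn

open Pool.Agent.P.MP_874adf_gt.Fs Ga Set Filter Topology Metric MeasureTheory

lemma Rig3.wed_ne {M : Set P} {d : P → P → ℝ} (pm : PM M d) {O x y : P} {V : Set P}
    (hV : Convex ℝ V) (hO : O ∈ M) (hx : x ∈ M) (hy : y ∈ M) (hOV : O ∉ V) (hxV : x ∈ V)
    (hyV : y ∈ V) (hne : x ≠ y) (he : d O x = d O y) : wed (x - O) (y - O) ≠ 0 := by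
  intro hw
  have hyO : y - O ≠ 0 := fun e => hOV (sub_eq_zero.1 e ▸ hyV)
  obtain ⟨c, hc⟩ : ∃ c : ℝ, x - O = c • (y - O) := by
    set v := x - O
    set w := y - O
    have hp : 0 < w.1 ^ 2 + w.2 ^ 2 := by
      by_contra hh
      have h1 : w.1 = 0 := by nlinarith [sq_nonneg w.1, sq_nonneg w.2]
      have h2 : w.2 = 0 := by nlinarith [sq_nonneg w.1, sq_nonneg w.2]
      exact hyO (Prod.ext h1 h2)
    unfold wed at hw
    refine ⟨(v.1 * w.1 + v.2 * w.2) / (w.1 ^ 2 + w.2 ^ 2), Prod.ext ?_ ?_⟩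
    · simp only [Prod.smul_fst, smul_eq_mul]; field_simp; linear_combination w.2 * hw
    · simp only [Prod.smul_snd, smul_eq_mul]; field_simp; linear_combination (-w.1) * hw
  have hx' : x = O + c • (y - O) := by rw [← hc]; abel
  have e0 : O + (0 : ℝ) • (y - O) = O := by module
  have e1 : O + (1 : ℝ) • (y - O) = y := by module
  have hc0 : c < 0 := by
    by_contra hh
    push Not at hh
    rcases le_total c 1 with h1 | h1
    · have a := pm.line_add (x := O) (v := y - O) (r := 0) (s := c) (t := 1) (by rw [e0]; exact hO)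
        (by rw [e1]; exact hy) hh h1
      rw [e0, e1, ← hx'] at a
      exact hne ((pm.eq_zero x hx y hy).1 (by linarith))
    · have a := pm.line_add (x := O) (v := y - O) (r := 0) (s := 1) (t := c) (by rw [e0]; exact hO)
        (by rw [← hx']; exact hx) zero_le_one h1
      rw [e0, e1, ← hx'] at a
      exact hne ((pm.eq_zero y hy x hx).1 (by linarith)).symm
  have c1 : 0 < 1 - c := by linarith
  have m := hV hxV hyV (a := 1 / (1 - c)) (b := -c / (1 - c)) (by positivity)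
    (div_nonneg (by linarith) c1.le) (by field_simp; ring)
  have e : (1 / (1 - c)) • x + (-c / (1 - c)) • y = O := by
    rw [hx']
    ext <;> simp only [Prod.fst_add, Prod.snd_add, Prod.smul_fst, Prod.smul_snd, Prod.fst_sub,
      Prod.snd_sub, smul_eq_mul] <;> field_simp <;> ring
  exact hOV (e ▸ m)

lemma Rig3.meet {A1 y1 z A B : P} (h1 : wed (A1 - y1) (A - y1) = 0) (h2 : wed (A1 - y1) (B - y1) = 0)
    (h3 : wed (A - z) (B - z) = 0) (h4 : wed (A1 - y1) (z - y1) ≠ 0) : B = A := by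
  simp only [wed, Prod.fst_sub, Prod.snd_sub] at h1 h2 h3 h4
  ext
  · refine mul_left_cancel₀ h4 ?_
    linear_combination (A.1 - z.1) * h1 - (A.1 - z.1) * h2 + (A1.1 - y1.1) * h3 +
      (B.1 - A.1) * h1
  · refine mul_left_cancel₀ h4 ?_
    linear_combination (A.2 - z.2) * h1 - (A.2 - z.2) * h2 + (A1.2 - y1.2) * h3 +
      (B.2 - A.2) * h1

lemma Rig3.closed (k : Kx) {w : Set Dat} (hw : IsClosed w) (Qb : Set P) :
    IsClosed {p : P × Dat | Om k w Qb p.1 p.2} := by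
  refine isClosed_of_closure_subset fun p hp => ⟨?_, fun ε ε0 => ?_⟩
  · exact closure_minimal (t := Prod.snd ⁻¹' w) (fun q hq => hq.1) (hw.preimage continuous_snd) hp
  · obtain ⟨q, hq, hd⟩ := Metric.mem_closure_iff.1 hp (ε / 2) (half_pos ε0)
    rw [Prod.dist_eq, max_lt_iff] at hd
    obtain ⟨w', a, Y', b, c⟩ := hq.2 (ε / 2) (half_pos ε0)
    refine ⟨w', fun D m => ⟨(a m).1, ?_⟩, Y', fun y m => ⟨(b m).1, ?_⟩, c⟩
    · have := mem_ball.1 (a m).2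
      rw [mem_ball]; linarith [dist_triangle_right D p.2 q.2, hd.2]
    · have := mem_ball.1 (b m).2
      rw [mem_ball]; linarith [dist_triangle_right y p.1 q.1, hd.1]

theorem p_GRIG3 (hGTWO : S_GTWO) (hGTRI : S_GTRI) (hGRIG2 : S_GRIG2) :
    S_GRIG3 := by
  intro k f w Q hf ⟨Q0, QQ, U, h⟩ aw Qb hQb pb uni
  obtain ⟨y0, hy0⟩ := pb.den_nonempty
  obtain ⟨O0, hO0⟩ := h.rich (hQb hy0.1)
  have OK : O0 ∈ k.K := h.st.fr.memK hO0.1
  have OM : O0 ∈ k.M := k.ud.sub OK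
  have ne0 : O0 ≠ y0 := by
    rintro rfl
    have := (h.st.fr.rng _ hO0.2).1
    simp only [k.pm.self OM] at this
    exact lt_irrefl _ this
  have r0 : 0 < dist O0 y0 / 2 := half_pos (dist_pos.2 ne0)
  obtain ⟨p1, d1⟩ := pb.inter_closedBall hy0 r0
  set Q1 := Qb ∩ closedBall y0 (dist O0 y0 / 2) with hQ1
  have OV : O0 ∉ closedBall y0 (dist O0 y0 / 2) := by
    rw [mem_closedBall]; linarith
  have st := h.add p1 (inter_subset_left.trans hQb)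
  obtain ⟨a, haU, ha⟩ := hGTWO k Q0 _ U st.fr (O0, k.d O0 y0) ⟨Rich.insert hO0.1 d1 rfl, hO0.2⟩ 3
  simp only at haU ha
  obtain ⟨t, ht, ht3⟩ := exists_subset_encard_eq (ha Q1 (mem_insert _ _))
  obtain ⟨y1, y2, y3, n12, n13, n23, rfl⟩ := encard_eq_three.1 ht3
  obtain ⟨b1, e1⟩ := ht (show y1 ∈ _ by simp)
  obtain ⟨b2, e2⟩ := ht (show y2 ∈ _ by simp)
  obtain ⟨b3, e3⟩ := ht (show y3 ∈ _ by simp)
  have hx : ∀ j : QQ, ∃ x ∈ Den j.1, k.d O0 x = a ∧ x ≠ y1 := fun j => by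
    have l : (1 : ℕ∞) < {y ∈ Den j.1 | k.d O0 y = a}.encard :=
      lt_of_lt_of_le (by norm_num) (ha j.1 (mem_insert_of_mem _ j.2))
    obtain ⟨x, m, n⟩ := exists_ne_of_one_lt_encard l y1
    exact ⟨x, m.1, m.2, n⟩
  choose x x1 x2 x3 using hx
  have dn : ∀ {y}, y ∈ Den Q1 → y ∈ Den Qb := fun m => Den.mono inter_subset_left m
  have wd : ∀ {y z}, y ∈ Den Q1 → z ∈ Den Q1 → y ≠ z → k.d O0 y = a → k.d O0 z = a →
      wed (y - O0) (z - O0) ≠ 0 := fun m m' n e e' =>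
    Rig3.wed_ne k.pm (convex_closedBall _ _) OM (p1.subM m.1) (p1.subM m'.1) OV m.1.2 m'.1.2 n
      (e.trans e'.symm)
  have sc : ∀ {y}, y ∈ Den Q1 → SCd (k.F O0) (y - O0) := fun m => h.sc O0 hO0.1.1.1 _ (hQb m.1.1)
  have rich0 : (O0, a) ∈ Rich k Q0 QQ ∩ U :=
    ⟨⟨hO0.1.1, fun Y m => ⟨x ⟨Y, m⟩, x1 ⟨Y, m⟩, x2 ⟨Y, m⟩⟩⟩, haU⟩
  obtain ⟨D1, m1, -, -, o1⟩ := hGRIG2 k w Q Q0 QQ U h Qb hQb pb _ rich0 {y1} (finite_singleton _)
    (by rintro y rfl; exact ⟨dn b1, e1⟩)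
  have o1' := o1 y1 rfl
  have u0 : f D1 - y1 ≠ 0 := fun e => aw D1 m1 (sub_eq_zero.1 e ▸ hQb b1.1.1)
  obtain ⟨δ0, δp, hδ⟩ : ∃ δ0 > (0 : ℝ), ∀ O ∈ ball O0 δ0, (O, k.d O y1) ∈ U := by
    have c : Tendsto (fun O : P => (O, k.d O y1)) (𝓝 O0) (𝓝 (O0, k.d O0 y1)) :=
      tendsto_id.prodMk_nhds (k.pm.tendsto OM (p1.subM b1.1) tendsto_id tendsto_const_nhds)
    rw [e1] at c
    obtain ⟨δ0, δp, hδ⟩ := Metric.mem_nhds_iff.1 (c (h.st.fr.opn.mem_nhds haU))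
    exact ⟨δ0, δp, fun O m => hδ m⟩
  haveI : Finite QQ := h.st.fr.fin.to_subtype
  obtain ⟨z2, hz2, Y0, hY0, pY, H⟩ := hGTRI k QQ x (fun j => Den j.1) (Den Q0)
    (Den Qb \ {z | wed (f D1 - y1) (z - y1) = 0}) (Den Qb) O0 OK y1 (p1.sub b1.1) y2 (p1.sub b2.1)
    y3 (p1.sub b3.1) (wd b1 b2 n12 e1 e2) (wd b1 b3 n13 e1 e3) (wd b2 b3 n23 e2 e3) (sc b1) (sc b2)
    (sc b3) (e2.trans e1.symm) (e3.trans e1.symm) h.st.fr.p0.den_subK (DenW.den h.st.fr.p0 hO0.1.1)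
    (sdiff_subset.trans pb.den_subK) ((DenW.den pb (dn b2)).diff_null (line_null y1 u0))
    pb.den_subK (DenW.den pb (dn b3))
    (fun j => ⟨(h.st.fr.pc _ j.2).den_subK (x1 j), x3 j, (x2 j).trans e1.symm,
      (h.st.fr.pc _ j.2).den_subK, DenW.den (h.st.fr.pc _ j.2) (x1 j)⟩) δ0 δp
  have key : ∀ z3 ∈ Y0, ∃ D, Om k w Qb y1 D ∧ Om k w Qb z2 D ∧ Om k w Qb z3 D := fun z3 m => by
    obtain ⟨O, g1, g2, g3, g4⟩ := H z3 m
    obtain ⟨D, -, -, -, o⟩ := hGRIG2 k w Q Q0 QQ U h Qb hQb pb (O, k.d O y1)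
      ⟨⟨g1.1, fun Y mY => g4 ⟨Y, mY⟩⟩, hδ O g1.2⟩ {y1, z2, z3} (toFinite _) (by
        rintro y (rfl | rfl | rfl)
        · exact ⟨dn b1, rfl⟩
        · exact ⟨hz2.1, g2⟩
        · exact ⟨hY0 m, g3⟩)
    exact ⟨D, o y1 (by simp), o z2 (by simp), o z3 (by simp)⟩
  obtain ⟨z0, hz0⟩ := nonempty_of_measure_ne_zero pY.ne'
  obtain ⟨D2, o21, o22, -⟩ := key z0 hz0
  have cw := h.st.good.cpt
  have cΩ : IsCompact ((Qb ×ˢ w) ∩ ({p : P × Dat | Om k w Qb p.1 p.2} ∩ {p | f p.2 = f D2})) :=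
    (pb.cpt.prod cw).inter_right ((Rig3.closed k cw.isClosed Qb).inter
      (isClosed_eq (hf.comp continuous_snd) continuous_const))
  refine ⟨f D2, _, ?_, ⟨cΩ.image continuous_fst, ?_, pY.trans_le (measure_mono fun z3 m => ?_)⟩, ?_⟩
  · rintro _ ⟨p, hp, rfl⟩; exact hp.1.1
  · rintro _ ⟨p, hp, rfl⟩; exact pb.sub hp.1.1
  · obtain ⟨D, g1, g2, g3⟩ := key z3 m
    refine ⟨(z3, D), ⟨⟨(hY0 m).1, g1.1⟩, g3, ?_⟩, rfl⟩
    exact Rig3.meet (uni y1 b1.1.1 D1 D2 o1' o21) (uni y1 b1.1.1 D1 D o1' g1)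
      (uni z2 hz2.1.1 D2 D o22 g2) hz2.2
  · rintro _ ⟨p, hp, rfl⟩
    exact ⟨p.2, hp.2.1, hp.2.2⟩

end Pool.Agent.P.MP_874adf_gt.Gn
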