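import Pool.Agent.P.MP_874adf_gt.Gn.IfaceGa
import Pool.Agent.P.MP_874adf_gt.Gn.GaBase

/-! Step GRIG4. -/

set_option autoImplicit false

namespace Pool.Agent.P.MP_874adf_gt.Gn

open Pool.Agent.P.MP_874adf_gt.Fs Ga Set Filter Topology Metric MeasureTheory

lemma GRIG4_alg {B A z1 z2 : P} (h : wed (z1 - A) (z2 - A) ≠ 0) (h1 : wed (B - z1) (A - z1) = 0)
    (h2 : wed (B - z2) (A - z2) = 0) : B = A := by
  simp only [wed, Prod.fst_sub, Prod.snd_sub] at *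
  ext
  · apply mul_left_cancel₀ h
    linear_combination (z2.1 - A.1) * h1 - (z1.1 - A.1) * h2
  · apply mul_left_cancel₀ h
    linear_combination (z2.2 - A.2) * h1 - (z1.2 - A.2) * h2

theorem p_GRIG4 (hGOFF : S_GOFF) (hGCOV : S_GCOV) (hGRIG2 : S_GRIG2) :
    S_GRIG4 := by
  rintro k f w Q hf ⟨Q0, QQ, U, h⟩ ha Qb sb pb un A Y sY pY hY
  have sQ := sY.trans sb
  have hA : A ∉ Y := by
    obtain ⟨y, hy⟩ := pY.nonempty
    obtain ⟨D, o, e⟩ := hY y hy
    exact fun m => ha D o.1 (e ▸ sQ m)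
  obtain ⟨p, hp, y1, m1, y2, m2, e1, e2, hw⟩ := hGOFF k Q0 _ U (h.add pY sQ).fr Y (mem_insert _ _)
    (h.sc.mono subset_rfl sQ) A hA
  have c : Continuous fun z : P × P => wed (z.1 - A) (z.2 - A) :=
    wed_cont.comp ((continuous_fst.sub continuous_const).prodMk (continuous_snd.sub continuous_const))
  obtain ⟨r, r0, hr⟩ := Metric.nhds_basis_closedBall.mem_iff.1
    ((c.continuousAt (x := (y1, y2))).eventually_ne hw)
  obtain ⟨p1, d1⟩ := pY.inter_closedBall m1 r0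
  obtain ⟨p2, d2⟩ := pY.inter_closedBall m2 r0
  have hp0 : p ∈ Rich k Q0 QQ := Rich.mono_right (subset_insert _ _) hp.1
  have ss : QQ ⊆ insert (Y ∩ closedBall y1 r) (insert (Y ∩ closedBall y2 r) QQ) :=
    (subset_insert _ _).trans (subset_insert _ _)
  have st := h.st.more ((h.st.fr.fin.insert _).insert _) (by
      rintro Z (rfl | rfl | hZ)
      · exact p1
      · exact p2
      · exact h.st.fr.pc Z hZ) ss ⟨p, Rich.insert (Rich.insert hp0 d2 e2) d1 e1, hp.2⟩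
  have st2 := st.sub (c := {D | f D = A}) (isClosed_eq hf continuous_const) fun q hq => by
    obtain ⟨z1, n1, f1⟩ := hq.1.2 _ (mem_insert _ _)
    obtain ⟨z2, n2, f2⟩ := hq.1.2 _ (mem_insert_of_mem _ (mem_insert _ _))
    obtain ⟨D, m, eO, cD, om⟩ := hGRIG2 k w Q Q0 QQ U h Qb sb pb q ⟨Rich.mono_right ss hq.1, hq.2⟩
      {z1, z2} (toFinite _) (by
        rintro y (rfl | rfl)
        · exact ⟨Den.mono (inter_subset_left.trans sY) n1, f1⟩
        · exact ⟨Den.mono (inter_subset_left.trans sY) n2, f2⟩)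
    obtain ⟨D1, o1, g1⟩ := hY z1 n1.1.1
    obtain ⟨D2, o2, g2⟩ := hY z2 n2.1.1
    refine ⟨D, ⟨m, GRIG4_alg (z1 := z1) (z2 := z2) (hr (a := (z1, z2)) ?_) ?_ ?_⟩, eO, cD⟩
    · rw [← closedBall_prod_same]
      exact ⟨n1.1.2, n2.1.2⟩
    · exact g1 ▸ un z1 (sY n1.1.1) D D1 (om z1 (Or.inl rfl)) o1
    · exact g2 ▸ un z2 (sY n2.1.1) D D2 (om z2 (Or.inr rfl)) o2
  obtain ⟨Y', s', hv⟩ := (hGCOV k Q0 _ U _ (mem_insert _ _)
    (h.sc.mono subset_rfl (inter_subset_left.trans sQ))).2 _ st2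
  exact ⟨_, inter_subset_left, Y', s'.trans (inter_subset_left.trans sQ), hv.hv, A,
    fun D m => m.2⟩

end Pool.Agent.P.MP_874adf_gt.Gn
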