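import Pool.Agent.P.MP_874adf_gt.Gn.IfaceGa

/-! Step GSEG. -/

set_option autoImplicit false

namespace Pool.Agent.P.MP_874adf_gt.Gn

open Pool.Agent.P.MP_874adf_gt.Fs Ga Set Filter Topology Metric MeasureTheory

theorem p_GSEG (hGSLICE : S_GSLICE) (hGEXP : S_GEXP) :
    S_GSEG := by
  intro k x hx E hE hD e he L hL η hη α β hα hαβ hβ
  obtain ⟨η', hη', h1⟩ := hGEXP k x hx e he L hL η hη
  filter_upwards [h1, hGSLICE E x e hD he L hL η' hη' α β hα hαβ hβ] with δ h1 h2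
  obtain ⟨E', hE', hc, hpos⟩ := h2
  obtain ⟨κ, hκ, hv⟩ := nonempty_of_measure_ne_zero hpos.ne'
  have hcont : Continuous fun τ : ℝ => par x e (δ * κ) τ := by
    unfold par; fun_prop
  have hT : IsCompact (Icc (-(L * δ)) (L * δ) ∩ (fun τ : ℝ => par x e (δ * κ) τ) ⁻¹' E') :=
    isCompact_Icc.inter_right (hc.isClosed.preimage hcont)
  refine ⟨κ, hκ, _, hT, inter_subset_left, fun τ hτ => hE' hτ.2, ?_⟩
  refine h1 κ ⟨hα.trans hκ.1, hκ.2.trans hβ⟩ _ hT inter_subset_left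
    (fun τ hτ => hE (hE' hτ.2)) (le_trans (measure_mono ?_) hv)
  rintro τ ⟨h3, h4⟩
  exact ⟨h3, fun h5 => h4 ⟨h3, h5⟩⟩

end Pool.Agent.P.MP_874adf_gt.Gn
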