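import Pool.Agent.P.MP_874adf_gt.Gn.IfaceGa
import Pool.Agent.P.MP_874adf_gt.Gn.GaBase

/-! Step GSEPN. -/

set_option autoImplicit false

namespace Pool.Agent.P.MP_874adf_gt.Gn

open Pool.Agent.P.MP_874adf_gt.Fs Ga Set Filter Topology Metric MeasureTheory

lemma GSEPN_symm {f : Dat → P} {w1 w2 : Set Dat} {Q : Set P} (h : Sep2 f w1 w2 Q) :
    Sep2 f w2 w1 Q :=
  fun y m D m1 D' m2 e => h y m D' m2 D m1 (by simp only [wed] at e ⊢; linarith)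

lemma GSEPN_step (hGRESEP : S_GRESEP) (k : Kx) {f : Dat → P} (hf : Continuous f) {v : Set Dat}
    {Q : Set P} (h : HS k f v Q ∨ Cst f v) (ha : Aw f v Q) {w1 w2 : Set Dat} (s1 : w1 ⊆ v)
    (s2 : w2 ⊆ v) {Q1 : Set P} (s3 : Q1 ⊆ Q) (h1 : HV k w1 Q1) (h2 : HV k w2 Q1) :
    ∃ u1 ⊆ w1, ∃ u2 ⊆ w2, ∃ Q2 ⊆ Q1, HV k u1 Q2 ∧ HV k u2 Q2 ∧ (¬ Cst f v → Sep2 f u1 u2 Q2) := by
  rcases h with h | h
  · obtain ⟨u1, a, u2, b, Q2, c, g1, g2, sep⟩ := hGRESEP k f v Q hf h ha w1 s1 w2 s2 Q1 s3 h1 h2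
    exact ⟨u1, a, u2, b, Q2, c, g1, g2, fun _ => sep⟩
  · exact ⟨w1, subset_rfl, w2, subset_rfl, Q1, subset_rfl, h1, h2, fun n => (n h).elim⟩

/-- separation of two cells -/
def GSEPN_S (v w1 w2 : Set Dat) (Q : Set P) : Prop :=
  Sep2 dO w1 w2 Q ∧ (¬ Cst dA v → Sep2 dA w1 w2 Q) ∧ (¬ Cst dB v → Sep2 dB w1 w2 Q)

lemma GSEPN_S.mono {v w1 w2 u1 u2 : Set Dat} {Q Q1 : Set P} (h : GSEPN_S v w1 w2 Q) (a : u1 ⊆ w1)
    (b : u2 ⊆ w2) (c : Q1 ⊆ Q) : GSEPN_S v u1 u2 Q1 :=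
  ⟨h.1.mono a b c, fun n => (h.2.1 n).mono a b c, fun n => (h.2.2 n).mono a b c⟩

lemma GSEPN_S.symm {v w1 w2 : Set Dat} {Q : Set P} (h : GSEPN_S v w1 w2 Q) : GSEPN_S v w2 w1 Q :=
  ⟨GSEPN_symm h.1, fun n => GSEPN_symm (h.2.1 n), fun n => GSEPN_symm (h.2.2 n)⟩

lemma GSEPN_pair (hGOSPLIT : S_GOSPLIT) (hGRESEP : S_GRESEP) (k : Kx) {v : Set Dat} {Q : Set P}
    (h : HT k v Q) {w : Set Dat} (s : w ⊆ v) {Q1 : Set P} (s1 : Q1 ⊆ Q) (hw : HV k w Q1) :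
    ∃ u1 ⊆ w, ∃ u2 ⊆ w, ∃ Q2 ⊆ Q1, HV k u1 Q2 ∧ HV k u2 Q2 ∧ GSEPN_S v u1 u2 Q2 := by
  obtain ⟨Q2, a, w1, b, w2, c, g1, g2, sep⟩ := hGOSPLIT k w Q1 hw
  obtain ⟨x1, b1, x2, c1, Q3, a1, g3, g4, sA⟩ := GSEPN_step hGRESEP k contA h.hA h.aA (b.trans s)
    (c.trans s) (a.trans s1) g1 g2
  obtain ⟨u1, b2, u2, c2, Q4, a2, g5, g6, sB⟩ := GSEPN_step hGRESEP k contB h.hB h.aB
    ((b1.trans b).trans s) ((c1.trans c).trans s) ((a1.trans a).trans s1) g3 g4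
  exact ⟨u1, (b2.trans b1).trans b, u2, (c2.trans c1).trans c, Q4, (a2.trans a1).trans a, g5, g6,
    sep.mono (b2.trans b1) (c2.trans c1) (a2.trans a1), fun n => (sA n).mono b2 c2 a2, sB⟩

/-- `m` separated cells and a spare cell separated from all of them -/
lemma GSEPN_ind (hGOSPLIT : S_GOSPLIT) (hGRESEP : S_GRESEP) (k : Kx) {v : Set Dat} {Q : Set P}
    (h : HT k v Q) (m : ℕ) : ∃ Q' ⊆ Q, ∃ w : Fin m → Set Dat, ∃ z ⊆ v, HV k z Q' ∧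
      (∀ i, w i ⊆ v ∧ HV k (w i) Q' ∧ GSEPN_S v (w i) z Q') ∧
      ∀ i j, i ≠ j → GSEPN_S v (w i) (w j) Q' := by
  induction m with
  | zero => exact ⟨Q, subset_rfl, Fin.elim0, v, subset_rfl, h.hv, fun i => i.elim0, fun i => i.elim0⟩
  | succ m ih =>
    obtain ⟨Q1, s1, w, z, sz, hz, hw, sep⟩ := ih
    obtain ⟨u1, a, u2, b, Q2, c, g1, g2, s⟩ := GSEPN_pair hGOSPLIT hGRESEP k h sz s1 hz
    refine ⟨Q2, c.trans s1, Fin.cons u1 w, u2, b.trans sz, g2, fun i => ?_, fun i j hij => ?_⟩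
    · refine Fin.cases ?_ (fun i => ?_) i
      · exact ⟨a.trans sz, g1, s⟩
      · exact ⟨(hw i).1, (hw i).2.1.mono g1.pc c, (hw i).2.2.mono subset_rfl b c⟩
    · revert hij
      refine Fin.cases ?_ (fun i => ?_) i <;> refine Fin.cases ?_ (fun j => ?_) j
      · exact fun e => (e rfl).elim
      · exact fun _ => ((hw j).2.2.mono subset_rfl a c).symm
      · exact fun _ => (hw i).2.2.mono subset_rfl a c
      · exact fun e => (sep i j fun e' => e (e' ▸ rfl)).mono subset_rfl subset_rfl c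

theorem p_GSEPN (hGOSPLIT : S_GOSPLIT) (hGRESEP : S_GRESEP) :
    S_GSEPN := by
  intro k v Q h m
  obtain ⟨Q', s, w, z, -, hz, hw, sep⟩ := GSEPN_ind hGOSPLIT hGRESEP k h m
  refine ⟨Q', s, hz.pc, w, fun i => ⟨(hw i).1, h.sub (hw i).1 s (hw i).2.1⟩, fun C hC =>
    ⟨fun i j e => (sep i j e).1 C hC, ?_, ?_⟩⟩
  · by_cases c : Cst dA v
    · exact Or.inr c
    · exact Or.inl fun i j e => (sep i j e).2.1 c C hC
  · by_cases c : Cst dB v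
    · exact Or.inr c
    · exact Or.inl fun i j e => (sep i j e).2.2 c C hC

end Pool.Agent.P.MP_874adf_gt.Gn
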