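import Pool.Agent.P.MP_874adf_gt.Gn.IfaceGa
import Pool.Agent.P.MP_874adf_gt.Gn.GaBase

/-! Step GSLICE. -/

set_option autoImplicit false

namespace Pool.Agent.P.MP_874adf_gt.Gn

open Pool.Agent.P.MP_874adf_gt.Fs Ga Set Filter Topology Metric MeasureTheory

theorem GSLICE_cpt {E : Set P} {x : P} {r a : ℝ} (ha : 0 < a)
    (h : volume (closedBall x r \ E) ≤ ENNReal.ofReal a) :
    ∃ E' ⊆ E, IsCompact E' ∧ volume (closedBall x r \ E') ≤ ENNReal.ofReal (2 * a) := by
  set T := toMeasurable volume (closedBall x r \ E) with hT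
  have hm : MeasurableSet (closedBall x r \ T) :=
    measurableSet_closedBall.diff (measurableSet_toMeasurable _ _)
  have hf : volume (closedBall x r \ T) ≠ ⊤ :=
    ((measure_mono sdiff_subset).trans_lt (isCompact_closedBall x r).measure_lt_top).ne
  obtain ⟨K, hK, hc, hlt⟩ := hm.exists_isCompact_sdiff_lt hf (ε := ENNReal.ofReal a)
    (by simpa using ha)
  refine ⟨K, fun y hy => ?_, hc, ?_⟩
  · by_contra hn
    exact (hK hy).2 (subset_toMeasurable _ _ ⟨(hK hy).1, hn⟩)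
  · have hs : closedBall x r \ K ⊆ T ∪ ((closedBall x r \ T) \ K) := fun y hy => by
      by_cases hy' : y ∈ T
      · exact .inl hy'
      · exact .inr ⟨⟨hy.1, hy'⟩, hy.2⟩
    calc volume (closedBall x r \ K) ≤ volume T + volume ((closedBall x r \ T) \ K) :=
          (measure_mono hs).trans (measure_union_le _ _)
      _ ≤ ENNReal.ofReal a + ENNReal.ofReal a := by
          refine add_le_add ?_ hlt.le
          rw [hT, measure_toMeasurable]
          exact h
      _ = ENNReal.ofReal (2 * a) := by rw [← ENNReal.ofReal_add ha.le ha.le, two_mul]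

theorem GSLICE_mem (x e : P) {L δ κ τ : ℝ} (hδ : 0 < δ) (hκ : |κ| ≤ 1) (hτ : |τ| ≤ L * δ) :
    par x e (δ * κ) τ ∈ closedBall x (((1 + L) * ‖e‖ + 1) * δ) := by
  rw [mem_closedBall, dist_eq_norm]
  have h1 : par x e (δ * κ) τ - x = (δ * κ) • ((-e.2, e.1) : P) + τ • e := by
    unfold par; abel
  have h2 : ‖((-e.2, e.1) : P)‖ = ‖e‖ := by
    rw [Prod.norm_def, Prod.norm_def, norm_neg, max_comm]
  have h3 : |δ * κ| ≤ δ := by
    rw [abs_mul, abs_of_pos hδ]
    exact mul_le_of_le_one_right hδ.le hκ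
  rw [h1]
  refine (norm_add_le _ _).trans ?_
  rw [norm_smul, norm_smul, h2, Real.norm_eq_abs, Real.norm_eq_abs]
  have := norm_nonneg e
  nlinarith [mul_le_mul_of_nonneg_right h3 this, mul_le_mul_of_nonneg_right hτ this]

theorem GSLICE_fub {B : Set (ℝ × ℝ)} (hB : MeasurableSet B) {δ α β b : ℝ} (hδ : 0 < δ)
    (hb : 0 ≤ b) {Z : Set ℝ} (hZ : volume Z = 0)
    (h : ∀ κ ∈ Icc α β, κ ∉ Z → ENNReal.ofReal b ≤ volume (Prod.mk (δ * κ) ⁻¹' B)) :
    ENNReal.ofReal (b * (δ * (β - α))) ≤ volume B := by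
  set S := {t : ℝ | ENNReal.ofReal b ≤ volume (Prod.mk t ⁻¹' B)} with hS
  have h1 : ENNReal.ofReal b * volume S ≤ volume B := by
    rw [Measure.volume_eq_prod, Measure.prod_apply hB]
    exact mul_meas_ge_le_lintegral₀ (measurable_measure_prodMk_left hB).aemeasurable _
  have h2 : ENNReal.ofReal (β - α) ≤ ENNReal.ofReal |δ⁻¹| * volume S := by
    rw [← Real.volume_preimage_mul_left hδ.ne', ← Real.volume_Icc, ← measure_sdiff_null hZ]
    exact measure_mono fun κ hκ => h κ hκ.1 hκ.2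
  have h3 : ENNReal.ofReal (δ * (β - α)) ≤ volume S := by
    rw [ENNReal.ofReal_mul hδ.le]
    refine (mul_le_mul_right h2 _).trans (le_of_eq ?_)
    rw [← mul_assoc, ← ENNReal.ofReal_mul hδ.le, abs_of_pos (inv_pos.2 hδ), mul_inv_cancel₀ hδ.ne',
      ENNReal.ofReal_one, one_mul]
  rw [ENNReal.ofReal_mul hb]
  exact (mul_le_mul_right h3 _).trans h1

theorem p_GSLICE (hGPAR : S_GPAR) :
    S_GSLICE := by
  intro E x e hE he L hL η hη α β hα hαβ hβ
  have hc : 0 < e.1 ^ 2 + e.2 ^ 2 := by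
    by_contra hn
    refine he (Prod.ext ?_ ?_)
    · exact pow_eq_zero_iff two_ne_zero |>.1 (by nlinarith [sq_nonneg e.1, sq_nonneg e.2])
    · exact pow_eq_zero_iff two_ne_zero |>.1 (by nlinarith [sq_nonneg e.1, sq_nonneg e.2])
  set c := e.1 ^ 2 + e.2 ^ 2 with hcd
  set C := (1 + L) * ‖e‖ + 1 with hCd
  have hC : 0 < C := by positivity
  have hab : 0 < β - α := sub_pos.2 hαβ
  have ht : Tendsto (fun δ : ℝ => C * δ) (𝓝[>] 0) (𝓝[>] 0) := by
    refine tendsto_nhdsWithin_iff.2 ⟨?_, eventually_mem_nhdsWithin.mono fun δ h => mul_pos hC h⟩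
    have : Tendsto (fun δ : ℝ => C * δ) (𝓝 0) (𝓝 (C * 0)) :=
      (continuous_const.mul continuous_id).tendsto 0
    rw [mul_zero] at this
    exact this.mono_left nhdsWithin_le_nhds
  filter_upwards [ht.eventually (hE (c * η * (β - α) / (4 * C ^ 2)) (by positivity)),
    self_mem_nhdsWithin] with δ h hδ
  have hδ : 0 < δ := hδ
  obtain ⟨E', hE', hK, hv⟩ := GSLICE_cpt (by positivity) h
  refine ⟨E', hE', hK, pos_iff_ne_zero.2 fun hZ => ?_⟩
  have hp : Continuous fun q : ℝ × ℝ => par x e q.1 q.2 := by unfold par; fun_prop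
  have hB : MeasurableSet {q : ℝ × ℝ | par x e q.1 q.2 ∈ closedBall x (C * δ) \ E'} :=
    hp.measurable (measurableSet_closedBall.diff hK.measurableSet)
  have h1 := GSLICE_fub hB (α := α) (β := β) (b := η * δ) hδ (by positivity) hZ fun κ hκ hn => by
    refine (not_le.1 fun hle => hn ⟨hκ, hle⟩).le.trans (measure_mono fun τ hτ => ⟨?_, hτ.2⟩)
    exact GSLICE_mem x e hδ (abs_le.2 ⟨hα.trans hκ.1, hκ.2.trans hβ⟩) (abs_le.2 hτ.1)
  rw [hGPAR x e he] at hv
  have h2 := (mul_le_mul_right h1 (ENNReal.ofReal c)).trans hv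
  rw [← ENNReal.ofReal_mul hc.le, ENNReal.ofReal_le_ofReal_iff (by positivity)] at h2
  have h3 : 2 * (c * η * (β - α) / (4 * C ^ 2) * (C * δ) ^ 2) = c * (η * δ * (δ * (β - α))) / 2 := by
    field_simp
    ring
  have h4 : 0 < c * (η * δ * (δ * (β - α))) := by positivity
  linarith

end Pool.Agent.P.MP_874adf_gt.Gn
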