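import Pool.Agent.P.MP_874adf_gt.Gn.IfaceGa
import Pool.Agent.P.MP_874adf_gt.Gn.GaBase

/-! Step GST0. -/

set_option autoImplicit false

namespace Pool.Agent.P.MP_874adf_gt.Gn

open Pool.Agent.P.MP_874adf_gt.Fs Ga Set Filter Topology Metric MeasureTheory

theorem gst0_dir {O y e : P} {η η' : ℝ} (h : Dir O y e η') (hη : η' < η) :
    ∀ᶠ r in 𝓝 (0 : ℝ), ∀ O' ∈ closedBall O r, ∀ y' ∈ closedBall y r, Dir O' y' e η := by
  have n0 : ‖y - O‖ ≠ 0 := norm_ne_zero_iff.2 (sub_ne_zero.2 h.1)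
  have c1 : Continuous fun p : P × P => p.2 - p.1 := by fun_prop
  have c : ContinuousAt (fun p : P × P => ‖‖p.2 - p.1‖⁻¹ • (p.2 - p.1) - ‖e‖⁻¹ • e‖) (O, y) :=
    (((c1.norm.continuousAt.inv₀ n0).smul c1.continuousAt).sub continuousAt_const).norm
  have e1 : ∀ᶠ p in 𝓝 (O, y), ‖‖p.2 - p.1‖⁻¹ • (p.2 - p.1) - ‖e‖⁻¹ • e‖ < η :=
    c.eventually (gt_mem_nhds (h.2.trans_lt hη))
  have e2 : ∀ᶠ p : P × P in 𝓝 (O, y), ‖p.2 - p.1‖ ≠ 0 := c1.norm.continuousAt.eventually_ne n0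
  filter_upwards [eventually_closedBall_subset (e1.and e2)] with r hr O' hO y' hy
  have m : (O', y') ∈ closedBall (O, y) r := by
    rw [← closedBall_prod_same]
    exact ⟨hO, hy⟩
  exact ⟨sub_ne_zero.1 (norm_ne_zero_iff.1 (hr m).2), (hr m).1.le⟩

/-- the compact sets of data that exhaust all data near `K` -/
def gst0_cell (k : Kx) (δ t : ℝ) : Set Dat :=
  (k.K ×ˢ cthickening δ k.K ×ˢ Icc t (1 - t) ×ˢ Icc t (1 - t)) ∩ {D | t ≤ dist (dO D) (dB D)}

theorem gst0_good (k : Kx) {δ t : ℝ} (h : cthickening δ k.K ⊆ k.M) (t0 : 0 < t) :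
    Good k (gst0_cell k δ t) := by
  refine ⟨(k.ud.cpt.prod (k.ud.cpt.cthickening.prod (isCompact_Icc.prod isCompact_Icc))).inter_right
    (isClosed_le continuous_const (contO.dist contB)), fun D m => m.1.1, fun D m => h m.1.2.1,
    fun D m => dist_pos.1 (t0.trans_le m.2), fun D m => t0.trans_le m.1.2.2.1.1,
    fun D m => m.1.2.2.1.2.trans_lt (by linarith), fun D m => t0.trans_le m.1.2.2.2.1,
    fun D m => m.1.2.2.2.2.trans_lt (by linarith)⟩

theorem p_GST0 (hGLEVO : S_GLEVO) (hGBAIRE : S_GBAIRE) :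
    S_GST0 := by
  intro k
  obtain ⟨L, L0, δ, δ0, hL⟩ := u0_lip k
  obtain ⟨a2, a20, h2⟩ := k.rho (1 / 2) (by norm_num)
  obtain ⟨δ1, δ10, h1⟩ := k.ud.cpt.exists_cthickening_subset_open k.pm.isOpen k.ud.sub
  obtain ⟨η1, η10, hη1⟩ := u0_small k δ10
  have cc : IsCompact (closedBall (0 : P) (2 * L) ×ˢ Icc (0 : ℝ) 1) :=
    (isCompact_closedBall _ _).prod isCompact_Icc
  refine ⟨_, prod_mono (subset_univ _) subset_rfl, cc, fun Q1 _ hQ E Ef E0 η η0 => ?_⟩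
  obtain ⟨μ, μ0, m1, m2, m3, m4, m5⟩ : ∃ μ > (0 : ℝ), μ < η ∧ μ ≤ k.a1 ∧ μ ≤ a2 ∧ μ ≤ δ / 2 ∧
      μ ≤ η1 / 2 := by
    have := k.a10
    refine ⟨min (η / 2) (min k.a1 (min a2 (min (δ / 2) (η1 / 2)))), by positivity,
      (min_le_left _ _).trans_lt (half_lt_self η0), ?_, ?_, ?_, ?_⟩ <;> simp
  obtain ⟨O, hO⟩ := hQ.den_nonempty
  obtain ⟨a, a0, aμ, hy⟩ := hGLEVO k O (hQ.den_subK hO) (Den Q1) hQ.den_subK (DenW.den hQ hO) E Ef
    E0 μ μ0
  choose! y y1 y2 y3 using hy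
  have ev : ∀ᶠ r in 𝓝 (0 : ℝ), ∀ e ∈ E, ∀ O' ∈ closedBall O r, ∀ y' ∈ closedBall (y e) r,
      Dir O' y' e η := (eventually_all_finite Ef).2 fun e he => gst0_dir (y3 e he) m1
  obtain ⟨r, hr, (r0 : 0 < r)⟩ := ((ev.filter_mono nhdsWithin_le_nhds).and
    (self_mem_nhdsWithin (s := Ioi (0 : ℝ)))).exists
  have fr : Fr k (Q1 ∩ closedBall O r) ((fun e => Q1 ∩ closedBall (y e) r) '' E)
      (univ ×ˢ Ioo 0 μ) := by
    refine ⟨(hQ.inter_closedBall hO r0).1, Ef.image _, ?_, isOpen_univ.prod isOpen_Ioo,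
      fun p hp => ⟨hp.2.1, hp.2.2.trans_le m2⟩, (O, a), ⟨(hQ.inter_closedBall hO r0).2, ?_⟩,
      mem_univ _, a0, aμ⟩
    · rintro _ ⟨e, he, rfl⟩
      exact (hQ.inter_closedBall (y1 e he) r0).1
    · rintro _ ⟨e, he, rfl⟩
      exact ⟨y e, (hQ.inter_closedBall (y1 e he) r0).2, y2 e he⟩
  have gd : ∀ n : ℕ, Good k (gst0_cell k δ1 (1 / ((n : ℝ) + 1))) := fun n =>
    gst0_good k h1 Nat.one_div_pos_of_nat
  obtain ⟨n, U', hU, st⟩ := (hGBAIRE k _ _ _).1 (fun n : ℕ => gst0_cell k δ1 (1 / ((n : ℝ) + 1)) ∩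
      pat k ⁻¹' (closedBall (0 : P) (2 * L) ×ˢ Icc (0 : ℝ) 1)) fr
    (fun n => (gd n).sub inter_subset_left
      ((gd n).cpt.of_isClosed_subset ((gd n).pat_closed cc.isClosed) inter_subset_left))
    (fun p hp => by
      have pK : p.1 ∈ k.K := closure_minimal (fun q hq => fr.memK hq)
        (k.ud.cpt.isClosed.preimage continuous_fst) hp.1
      obtain ⟨p0, p1⟩ := hp.2.2
      obtain ⟨D, e, c⟩ := k.ex _ pK p.2 p0 (p1.trans_le m2)
      have OK : dO D ∈ k.K := e ▸ pK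
      have r2 := h2 D p.2 OK (p1.trans_le m3) c
      have l0 := c.l0
      have l1 := c.l1
      have r0 := c.r0
      have r1 := c.r1
      have dB2 : k.d (dO D) (dB D) ≤ 2 * p.2 := by
        rw [c.eB, div_le_iff₀ r0]
        nlinarith
      have ne : 0 < dist (dO D) (dB D) := dist_pos.2 fun e' => by
        have := c.eB
        rw [← e', k.pm.self c.mO] at this
        exact (div_pos p0 r0).ne this
      obtain ⟨n, hn⟩ := exists_nat_one_div_lt (K := ℝ) (ε := min (dist (dO D) (dB D))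
        (min (min (dl D) (1 - dl D)) (min (dr D) (1 - dr D))))
        (lt_min ne (lt_min (lt_min l0 (by linarith)) (lt_min r0 (by linarith))))
      simp only [lt_min_iff] at hn
      obtain ⟨n1, ⟨n2, n3⟩, n4, n5⟩ := hn
      refine ⟨n, D, ⟨⟨⟨OK, ?_, ⟨n2.le, by linarith⟩, n4.le, by linarith⟩, n1.le⟩, ?_, ?_, ?_⟩, e, c⟩
      · refine closedBall_subset_cthickening OK δ1 ?_
        rw [mem_closedBall, dist_eq_norm]
        exact (hη1 _ OK _ c.mB (by linarith)).le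
      · have b := (hL _ OK).1 _ c.mB (by linarith)
        show (rad k D)⁻¹ • (dB D - dO D) ∈ closedBall (0 : P) (2 * L)
        rw [mem_closedBall_zero_iff, rad_eq c, norm_smul, norm_inv, Real.norm_of_nonneg p0.le,
          inv_mul_le_iff₀ p0]
        nlinarith
      · exact div_nonneg (by linarith) (by linarith)
      · exact (div_le_one (by linarith)).2 (by linarith))
  refine ⟨_, inter_subset_left, _, U', _, st, fun D m => m.2, fun p m => (hU m).2.2.trans m1,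
    fun e he => ⟨_, ⟨e, he, rfl⟩, inter_subset_left, fun O' mO y' my => hr e he O' mO.2 y' my.2⟩⟩

end Pool.Agent.P.MP_874adf_gt.Gn
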