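import Pool.Agent.P.MP_874adf_gt.Gn.DefsGa

/-! Measure lemmas for circles through three points. -/

set_option autoImplicit false

namespace Pool.Agent.P.MP_874adf_gt.Gn.Tri

open Pool.Agent.P.MP_874adf_gt.Fs Ga Set Filter Topology Metric MeasureTheory

lemma lip_null {α : Type} [Nonempty α] (W : Set α) (a b : α → ℝ × P) {C : ℝ} (C0 : 0 ≤ C)
    (h : ∀ p ∈ W, ∀ p' ∈ W, dist (b p) (b p') ≤ C * dist (a p) (a p'))
    (h0 : volume (a '' W) = 0) : volume (b '' W) = 0 := by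
  set g : ℝ × P → ℝ × P := fun s => b (Function.invFunOn a W s) with hg
  have lip : LipschitzOnWith ⟨C, C0⟩ g (a '' W) := by
    refine LipschitzOnWith.of_dist_le_mul fun s hs s' hs' => ?_
    have := h _ (Function.invFunOn_mem hs) _ (Function.invFunOn_mem hs')
    rwa [Function.invFunOn_eq hs, Function.invFunOn_eq hs'] at this
  have sub : b '' W ⊆ g '' (a '' W) := by
    rintro _ ⟨p, hp, rfl⟩
    have hs : a p ∈ a '' W := ⟨p, hp, rfl⟩
    refine ⟨a p, hs, ?_⟩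
    have := h _ (Function.invFunOn_mem hs) _ hp
    rw [Function.invFunOn_eq hs, dist_self, mul_zero] at this
    exact dist_le_zero.1 this
  refine measure_mono_null sub ?_
  set μ : Measure (ℝ × P) := Measure.hausdorffMeasure (Module.finrank ℝ (ℝ × P)) with hμ
  haveI : (volume : Measure (ℝ × P)).IsAddHaarMeasure := by
    rw [Measure.volume_eq_prod]; exact Measure.prod.instIsAddHaarMeasure _ _
  have a1 : μ ≪ volume := Measure.absolutelyContinuous_isAddHaarMeasure _ _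
  have a2 : (volume : Measure (ℝ × P)) ≪ μ := Measure.absolutelyContinuous_isAddHaarMeasure _ _
  refine a2 ?_
  have := lip.hausdorffMeasure_image_le (d := (Module.finrank ℝ (ℝ × P) : ℝ)) (by positivity)
  rw [← hμ, a1 h0, mul_zero] at this
  exact le_zero_iff.1 this

lemma fub {M : Set P} {d : P → P → ℝ} (pm : PM M d) {ι : Type} [Finite ι] (i0 : ι) {Q E : Set P}
    {σ : ι → ℝ → P} {T : ι → Set ℝ} {y : P} {h : P → ℝ} {H : Set ℝ} {C : ℝ} (C0 : 0 ≤ C)
    (cQ : IsCompact Q) (cE : IsCompact E) (cT : ∀ j, IsCompact (T j)) (cσ : ∀ j, Continuous (σ j))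
    (mQ : Q ⊆ M) (mE : E ⊆ M) (mσ : ∀ j, ∀ τ ∈ T j, σ j τ ∈ M) (my : y ∈ M)
    (lipH : ∀ z ∈ E, ∀ z' ∈ E, |h z - h z'| ≤ C * ‖z - z'‖)
    (lipO : ∀ O ∈ Q, ∀ O' ∈ Q, ∀ τ ∈ T i0, ∀ τ' ∈ T i0, ∀ z ∈ E, ∀ z' ∈ E, d O (σ i0 τ) = d O y →
      d O z = d O y → d O' (σ i0 τ') = d O' y → d O' z' = d O' y →
      ‖O - O'‖ ≤ C * max |τ - τ'| ‖z - z'‖)
    (hH : volume H ≠ 0)
    (hS : ∀ κ ∈ H, volume {O ∈ Q | (∀ j, ∃ τ ∈ T j, d O (σ j τ) = d O y) ∧
      ∃ z ∈ E, h z = κ ∧ d O z = d O y} ≠ 0) :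
    ∃ τ ∈ T i0, volume {z ∈ E | ∃ O ∈ Q, d O (σ i0 τ) = d O y ∧ d O z = d O y ∧
      ∀ j, ∃ τ' ∈ T j, d O (σ j τ') = d O y} ≠ 0 := by
  by_contra hc
  push Not at hc
  set B : Set (P × (ι → ℝ) × P) := Q ×ˢ (Set.pi univ T) ×ˢ E with hB
  have cB : IsCompact B := cQ.prod ((isCompact_univ_pi cT).prod cE)
  have cd : ∀ f : P × (ι → ℝ) × P → P, Continuous f → (∀ p ∈ B, f p ∈ M) →
      ContinuousOn (fun p : P × (ι → ℝ) × P => d p.1 (f p)) B := fun f hf hm =>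
    ContinuousOn.comp (f := fun p : P × (ι → ℝ) × P => (p.1, f p)) pm.cont
      (continuous_fst.prodMk hf).continuousOn fun p hp => ⟨mQ hp.1, hm p hp⟩
  have c1 : ContinuousOn (fun p : P × (ι → ℝ) × P =>
      ((fun j => d p.1 (σ j (p.2.1 j))), d p.1 p.2.2)) B := by
    refine ContinuousOn.prodMk (continuousOn_pi.2 fun j => ?_) ?_
    · exact cd _ ((cσ j).comp (by fun_prop)) fun p hp => mσ j _ (hp.2.1 j (mem_univ _))
    · exact cd _ (by fun_prop) fun p hp => mE hp.2.2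
  have c0 : ContinuousOn (fun p : P × (ι → ℝ) × P => d p.1 y) B :=
    cd _ continuous_const fun _ _ => my
  have c2 : ContinuousOn (fun p : P × (ι → ℝ) × P => ((fun _ : ι => d p.1 y), d p.1 y)) B :=
    ContinuousOn.prodMk (continuousOn_pi.2 fun _ => c0) c0
  set W : Set (P × (ι → ℝ) × P) := {p ∈ B | ((fun j => d p.1 (σ j (p.2.1 j))), d p.1 p.2.2) =
    ((fun _ : ι => d p.1 y), d p.1 y)} with hW
  have cW : IsCompact W := cB.of_isClosed_subset (cB.isClosed.isClosed_eq c1 c2) fun p hp => hp.1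
  have mW : ∀ p ∈ W, p.1 ∈ Q ∧ (∀ j, p.2.1 j ∈ T j) ∧ p.2.2 ∈ E ∧
      (∀ j, d p.1 (σ j (p.2.1 j)) = d p.1 y) ∧ d p.1 p.2.2 = d p.1 y := fun p hp =>
    ⟨hp.1.1, fun j => hp.1.2.1 j (mem_univ _), hp.1.2.2, fun j => congrFun (congrArg Prod.fst hp.2) j,
      congrArg Prod.snd hp.2⟩
  set a : P × (ι → ℝ) × P → ℝ × P := fun p => (p.2.1 i0, p.2.2) with ha
  set b : P × (ι → ℝ) × P → ℝ × P := fun p => (h p.2.2, p.1) with hb
  have n1 : volume (a '' W) = 0 := by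
    have ms : MeasurableSet (a '' W) := (cW.image (by rw [ha]; fun_prop)).measurableSet
    rw [Measure.volume_eq_prod, Measure.measure_prod_null ms]
    refine Eventually.of_forall fun τ => ?_
    by_cases hτ : τ ∈ T i0
    · refine measure_mono_null ?_ (hc τ hτ)
      rintro z ⟨p, hp, e⟩
      obtain ⟨q1, q2, q3, q4, q5⟩ := mW p hp
      have e1 : p.2.1 i0 = τ := congrArg Prod.fst e
      have e2 : p.2.2 = z := congrArg Prod.snd e
      exact ⟨e2 ▸ q3, p.1, q1, e1 ▸ q4 i0, e2 ▸ q5, fun j => ⟨_, q2 j, q4 j⟩⟩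
    · refine measure_mono_null (t := ∅) ?_ measure_empty
      rintro z ⟨p, hp, e⟩
      have e1 : p.2.1 i0 = τ := congrArg Prod.fst e
      exact hτ (e1 ▸ (mW p hp).2.1 i0)
  have n2 : volume (b '' W) = 0 := by
    refine lip_null W a b C0 (fun p hp p' hp' => ?_) n1
    obtain ⟨q1, q2, q3, q4, q5⟩ := mW p hp
    obtain ⟨r1, r2, r3, r4, r5⟩ := mW p' hp'
    have l1 := lipH _ q3 _ r3
    have l2 := lipO _ q1 _ r1 _ (q2 i0) _ (r2 i0) _ q3 _ r3 (q4 i0) q5 (r4 i0) r5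
    simp only [ha, hb]
    rw [Prod.dist_eq (x := (h p.2.2, p.1)), Prod.dist_eq (x := (p.2.1 i0, p.2.2))]
    simp only [dist_eq_norm]
    exact max_le (l1.trans (mul_le_mul_of_nonneg_left (le_max_right _ _) C0)) l2
  rw [Measure.volume_eq_prod] at n2
  obtain ⟨κ, hκ, e⟩ := Measure.exists_mem_of_measure_ne_zero_of_ae hH
    (ae_restrict_of_ae (Measure.measure_ae_null_of_prod_null n2))
  refine hS κ hκ (measure_mono_null ?_ e)
  rintro O ⟨q1, q2, z, q3, q4, q5⟩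
  choose τ t1 t2 using q2
  refine ⟨(O, τ, z), ⟨⟨q1, fun j _ => t1 j, q3⟩, Prod.ext (funext t2) q5⟩, ?_⟩
  simp only [hb, q4]

lemma compact_sub {E : Set P} {x : P} (h : DenW E x) : ∀ᶠ δ in 𝓝[>] (0 : ℝ),
    ∃ Q ⊆ E ∩ closedBall x δ, IsCompact Q ∧
      volume (closedBall x δ \ Q) ≤ ENNReal.ofReal (2 * δ ^ 2) := by
  filter_upwards [h 1 one_pos, self_mem_nhdsWithin] with δ h1 h2
  have δ0 : 0 < δ := h2
  set N := toMeasurable volume (closedBall x δ \ E) with hN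
  have ms : MeasurableSet (closedBall x δ \ N) :=
    measurableSet_closedBall.diff (measurableSet_toMeasurable _ _)
  have fin : volume (closedBall x δ \ N) ≠ ⊤ :=
    ((measure_mono sdiff_subset).trans_lt measure_closedBall_lt_top).ne
  obtain ⟨Q, q1, q2, q3⟩ := ms.exists_isCompact_sdiff_lt fin (ε := ENNReal.ofReal (δ ^ 2))
    (ENNReal.ofReal_pos.2 (by positivity)).ne'
  refine ⟨Q, fun z hz => ⟨?_, (q1 hz).1⟩, q2, ?_⟩
  · by_contra hz'
    exact (q1 hz).2 (subset_toMeasurable _ _ ⟨(q1 hz).1, hz'⟩)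
  · have sub : closedBall x δ \ Q ⊆ N ∪ (closedBall x δ \ N) \ Q := by
      intro z hz
      by_cases hn : z ∈ N
      · exact Or.inl hn
      · exact Or.inr ⟨⟨hz.1, hn⟩, hz.2⟩
    refine (measure_mono sub).trans ((measure_union_le _ _).trans ?_)
    rw [hN, measure_toMeasurable]
    refine (add_le_add h1 q3.le).trans ?_
    rw [← ENNReal.ofReal_add (by positivity) (by positivity)]
    exact ENNReal.ofReal_le_ofReal (by linarith)

lemma vol_ball (x : P) {δ : ℝ} (δ0 : 0 ≤ δ) : volume (closedBall x δ) = ENNReal.ofReal (4 * δ ^ 2) := by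
  rw [← closedBall_prod_same x.1 x.2, Measure.volume_eq_prod, Measure.prod_prod,
    Real.volume_closedBall, Real.volume_closedBall, ← ENNReal.ofReal_mul (by positivity)]
  congr 1; ring

lemma par_near (x e : P) {δ κ L τ : ℝ} (δ0 : 0 ≤ δ) (hκ : κ ∈ Icc (-1 : ℝ) 1)
    (hτ : τ ∈ Icc (-(L * δ)) (L * δ)) : ‖par x e (δ * κ) τ - x‖ ≤ (1 + L) * ‖e‖ * δ := by
  have e1 : par x e (δ * κ) τ - x = (δ * κ) • ((-e.2, e.1) : P) + τ • e := by unfold par; abel
  have n1 : ‖((-e.2, e.1) : P)‖ = ‖e‖ := by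
    rw [Prod.norm_def, Prod.norm_def, norm_neg, max_comm]
  have a1 : |δ * κ| ≤ δ := by
    rw [abs_mul, abs_of_nonneg δ0]
    exact mul_le_of_le_one_right δ0 (abs_le.2 hκ)
  have a2 : |τ| ≤ L * δ := abs_le.2 hτ
  rw [e1]
  refine (norm_add_le _ _).trans ?_
  rw [norm_smul, norm_smul, n1, Real.norm_eq_abs, Real.norm_eq_abs]
  nlinarith [mul_le_mul_of_nonneg_right a1 (norm_nonneg e), mul_le_mul_of_nonneg_right a2 (norm_nonneg e)]

lemma par_cont (x e : P) (κ : ℝ) : Continuous (par x e κ) := by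
  unfold par; fun_prop

lemma par_sub (x e : P) (κ τ τ' : ℝ) : ‖par x e κ τ - par x e κ τ'‖ = |τ - τ'| * ‖e‖ := by
  have : par x e κ τ - par x e κ τ' = (τ - τ') • e := by unfold par; module
  rw [this, norm_smul, Real.norm_eq_abs]

lemma par_wed (x e : P) (κ τ : ℝ) : wed e (par x e κ τ - x) = κ * (e.1 ^ 2 + e.2 ^ 2) := by
  simp only [wed, par, Prod.fst_sub, Prod.snd_sub, Prod.fst_add, Prod.snd_add, Prod.smul_fst,
    Prod.smul_snd, smul_eq_mul]
  ring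

lemma small {A r : ℝ} (r0 : 0 < r) : ∀ᶠ δ in 𝓝[>] (0 : ℝ), A * δ < r := by
  have : Tendsto (fun δ : ℝ => A * δ) (𝓝 0) (𝓝 (A * 0)) :=
    (by fun_prop : Continuous fun δ : ℝ => A * δ).tendsto 0
  rw [mul_zero] at this
  exact eventually_nhdsWithin_of_eventually_nhds (this.eventually (gt_mem_nhds r0))

end Pool.Agent.P.MP_874adf_gt.Gn.Tri
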