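import Pool.Agent.P.MP_874adf_gt.Gn.IfaceGa
import Pool.Agent.P.MP_874adf_gt.Gn.GaBase
import Pool.Agent.P.MP_874adf_gt.Gn.GaU0
import Pool.Agent.P.MP_874adf_gt.Gn.GaL2
import Pool.Agent.P.MP_874adf_gt.Gn.GaTri

/-! Step GTRI. -/

set_option autoImplicit false

namespace Pool.Agent.P.MP_874adf_gt.Gn

open Pool.Agent.P.MP_874adf_gt.Fs Ga Set Filter Topology Metric MeasureTheory

lemma Tri.core (hSL : S_GSLICE) (hEXP : S_GEXP) (hSEG : S_GSEG) (hLIP : S_GLIP2) (hFAM : S_GFAM)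
    (k : Kx) (ι : Type) [Finite ι] (i0 : ι) (x : ι → P) (E : ι → Set P) (E0 E3 : Set P)
    {O0 y1 y3 : P} (hO : O0 ∈ k.K) (h1 : y1 ∈ k.K) (h3 : y3 ∈ k.K)
    (w12 : wed (y1 - O0) (x i0 - O0) ≠ 0) (w13 : wed (y1 - O0) (y3 - O0) ≠ 0)
    (w23 : wed (x i0 - O0) (y3 - O0) ≠ 0) (s1 : SCd (k.F O0) (y1 - O0))
    (s2 : SCd (k.F O0) (x i0 - O0)) (s3 : SCd (k.F O0) (y3 - O0)) (e3 : k.d O0 y3 = k.d O0 y1)
    (hE0 : E0 ⊆ k.K) (dE0 : DenW E0 O0) (hE3 : E3 ⊆ k.K) (dE3 : DenW E3 y3)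
    (hx : ∀ j, x j ∈ k.K ∧ x j ≠ y1 ∧ k.d O0 (x j) = k.d O0 y1 ∧ E j ⊆ k.K ∧ DenW (E j) (x j))
    {δ0 : ℝ} (hδ0 : 0 < δ0) :
    ∃ z2 ∈ E i0, ∃ Y ⊆ E3, 0 < volume Y ∧ ∀ z3 ∈ Y, ∃ O ∈ E0 ∩ ball O0 δ0,
      k.d O z2 = k.d O y1 ∧ k.d O z3 = k.d O y1 ∧ ∀ j, ∃ z ∈ E j, k.d O z = k.d O y1 := by
  have sub := k.ud.sub
  have y1O : y1 ≠ O0 := by rintro rfl; simp [wed] at w12
  have y31 : y3 ≠ y1 := by rintro rfl; apply w13; unfold wed; ring
  have y3O : y3 - O0 ≠ 0 := by intro e; rw [e] at w13; simp [wed] at w13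
  have xO : ∀ j, x j - O0 ≠ 0 := fun j e => by
    have e1 := (hx j).2.2.1
    rw [sub_eq_zero.1 e, k.pm.self (sub hO)] at e1
    exact y1O ((k.pm.eq_zero _ (sub hO) _ (sub h1)).1 e1.symm).symm
  choose L L0 C C0 HF using fun j =>
    hFAM k O0 hO y1 (sub h1) (x j) (hx j).1 y1O (hx j).2.1 (hx j).2.2.1 s1
  obtain ⟨L3, L30, C3, C30, HF3⟩ := hFAM k O0 hO y1 (sub h1) y3 h3 y1O y31 e3 s1
  haveI := Fintype.ofFinite ι
  have sC : 0 ≤ ∑ j, C j := Finset.sum_nonneg fun j _ => (C0 j).le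
  set η : ℝ := 1 / (∑ j, C j + C3) with hη
  have η0 : 0 < η := by positivity
  obtain ⟨η', η'0, HE⟩ := hEXP k y3 h3 _ y3O L3 L30 η η0
  have HL := hSL E3 y3 _ dE3 y3O L3 L30 η' η'0 (-1) 1 le_rfl (by norm_num) le_rfl
  have HG := eventually_all.2 fun j => hSEG k (x j) (hx j).1 (E j) (hx j).2.2.2.1 (hx j).2.2.2.2 _
    (xO j) (L j) (L0 j) η η0 (-1) 1 le_rfl (by norm_num) le_rfl
  obtain ⟨κL, κ0, ρL, ρ0, HP⟩ := hLIP k O0 hO y1 (sub h1) (x i0) (sub (hx i0).1) y3 (sub h3) w12 w13 w23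
    s1 s2 s3
  obtain ⟨Lp, Lp0, δL, δL0, HU⟩ := u0_lip k
  set r := min ρL δL / 2 with hr
  have r0 : 0 < r := by positivity
  have r1 : r < ρL := by linarith [min_le_left ρL δL]
  have r2 : 2 * r ≤ δL := by linarith [min_le_right ρL δL]
  obtain ⟨δ, δp, hF, hF3, hE, ⟨E', E'1, E'2, hH⟩, hG, ⟨Q, Q1, Q2, Q3⟩, m1, m2, m3, m4⟩ :=
    ((self_mem_nhdsWithin : Ioi (0 : ℝ) ∈ 𝓝[>] (0 : ℝ)) |> fun h => Eventually.and h
      ((eventually_all.2 HF).and (HF3.and (HE.and (HL.and (HG.and ((Tri.compact_sub dE0).and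
      ((Tri.small (A := (1 + L i0) * ‖x i0 - O0‖) r0).and
      ((Tri.small (A := (1 + L3) * ‖y3 - O0‖) r0).and
      ((Tri.small (A := 1) hδ0).and (Tri.small (A := 1) ρ0))))))))))).exists
  have δ0' : 0 < δ := δp
  rw [one_mul] at m3 m4
  choose ρ ρp hF using hF
  obtain ⟨ρ3, ρ3p, hF3⟩ := hF3
  choose κ κ1 T T1 T2 T3 T4 using hG
  set e := y3 - O0 with he
  have q0 : 0 < e.1 ^ 2 + e.2 ^ 2 := by
    by_contra hh
    have a1 : e.1 = 0 := by nlinarith [sq_nonneg e.1, sq_nonneg e.2]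
    have a2 : e.2 = 0 := by nlinarith [sq_nonneg e.1, sq_nonneg e.2]
    exact y3O (Prod.ext a1 a2)
  set q := δ * (e.1 ^ 2 + e.2 ^ 2) with hq
  have qp : 0 < q := by positivity
  set A1 := 2 * ‖e‖ / q with hA1
  set A2 := Lp * (‖x i0 - O0‖ + 1) / κL with hA2
  have A10 : 0 ≤ A1 := by positivity
  have A20 : 0 ≤ A2 := by positivity
  have QK : ∀ O ∈ Q, O ∈ k.K := fun O h => hE0 (Q1 h).1
  have near : ∀ c : P, ∀ z ∈ k.K, ∀ z' ∈ k.K, ‖z - c‖ ≤ r → ‖z' - c‖ ≤ r → ∀ O ∈ k.M,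
      |k.d O z - k.d O z'| ≤ Lp * ‖z - z'‖ := by
    intro c z hz z' hz' n1 n2 O hOM
    have n3 : ‖z - z'‖ ≤ δL := by
      have : z - z' = (z - c) - (z' - c) := by abel
      rw [this]; linarith [norm_sub_le (z - c) (z' - c)]
    have u := ((HU z' hz').2 z n3).2.2
    have t1 := k.pm.triangle O hOM z' (sub hz') z (sub hz)
    have t2 := k.pm.triangle O hOM z (sub hz) z' (sub hz')
    rw [k.pm.symm z (sub hz) z' (sub hz')] at t2
    rw [abs_le]; constructor <;> linarith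
  obtain ⟨τ, hτ, hY⟩ := Tri.fub k.pm i0 (Q := Q) (E := E' ∩ closedBall y3 r)
    (σ := fun j => par (x j) (x j - O0) (δ * κ j)) (T := T) (y := y1)
    (h := fun z => wed e (z - y3) / q) (C := A1 + A2) (by positivity) Q2
    (E'2.inter_right isClosed_closedBall) T1 (fun j => Tri.par_cont _ _ _)
    (fun O h => sub (QK O h)) (fun z h => sub (hE3 (E'1 h.1)))
    (fun j τ h => sub ((hx j).2.2.2.1 (T3 j τ h))) (sub h1)
    (fun z _ z' _ => by
      have e1 : wed e (z - y3) / q - wed e (z' - y3) / q = wed e (z - z') / q := by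
        simp only [wed, Prod.fst_sub, Prod.snd_sub]; ring
      rw [e1, abs_div, abs_of_pos qp, div_le_iff₀ qp]
      have := L2.wed_le e (z - z')
      have e2 : (A1 + A2) * ‖z - z'‖ * q = 2 * (‖e‖ * ‖z - z'‖) + A2 * ‖z - z'‖ * q := by
        rw [hA1]; field_simp
      rw [e2]
      have : 0 ≤ A2 * ‖z - z'‖ * q := by positivity
      linarith)
    (fun O hO1 O' hO2 τ hτ τ' hτ' z hz z' hz' a1 a2 a3 a4 => by
      have b1 : ∀ O ∈ Q, O ∈ k.K ∩ ball O0 ρL := fun O h =>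
        ⟨QK O h, lt_of_le_of_lt (mem_closedBall.1 (Q1 h).2) m4⟩
      have n1 : ∀ τ ∈ T i0, ‖par (x i0) (x i0 - O0) (δ * κ i0) τ - x i0‖ ≤ r := fun τ h =>
        (Tri.par_near _ _ δ0'.le (κ1 i0) (T2 i0 h)).trans m1.le
      have n2 : ∀ z ∈ E' ∩ closedBall y3 r, ‖z - y3‖ ≤ r := fun z h => by
        rw [← dist_eq_norm]; exact h.2
      have k1 : ∀ τ ∈ T i0, par (x i0) (x i0 - O0) (δ * κ i0) τ ∈ k.K := fun τ h =>
        (hx i0).2.2.2.1 (T3 i0 τ h)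
      have p := HP O (b1 O hO1) O' (b1 O' hO2) y1 (mem_ball_self ρ0) _
        (by rw [mem_ball, dist_eq_norm]; exact (n1 τ hτ).trans_lt r1) z
        (by rw [mem_ball, dist_eq_norm]; exact (n2 z hz).trans_lt r1)
      have u1 := near _ _ (k1 τ hτ) _ (k1 τ' hτ') (n1 τ hτ) (n1 τ' hτ') O' (sub (QK O' hO2))
      have u2 := near _ _ (hE3 (E'1 hz.1)) _ (hE3 (E'1 hz'.1)) (n2 z hz) (n2 z' hz') O'
        (sub (QK O' hO2))
      rw [Tri.par_sub] at u1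
      rw [a1, a2, sub_sub_sub_cancel_right, sub_sub_sub_cancel_right] at p
      rw [a3] at u1
      rw [a4] at u2
      set m := max |τ - τ'| ‖z - z'‖ with hm
      have l1 : |τ - τ'| ≤ m := le_max_left _ _
      have l2 : ‖z - z'‖ ≤ m := le_max_right _ _
      have m0 : 0 ≤ m := (abs_nonneg _).trans l1
      have nn := norm_nonneg (x i0 - O0)
      have v1 : Lp * (|τ - τ'| * ‖x i0 - O0‖) ≤ Lp * (‖x i0 - O0‖ + 1) * m := by
        rw [mul_assoc]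
        exact mul_le_mul_of_nonneg_left (by nlinarith) Lp0.le
      have v2 : Lp * ‖z - z'‖ ≤ Lp * (‖x i0 - O0‖ + 1) * m := by
        rw [mul_assoc]
        exact mul_le_mul_of_nonneg_left (by nlinarith) Lp0.le
      have v3 : κL * ‖O' - O‖ ≤ Lp * (‖x i0 - O0‖ + 1) * m :=
        p.trans (max_le (u1.trans v1) (u2.trans v2))
      have v4 : ‖O' - O‖ ≤ A2 * m := by
        rw [hA2, div_mul_eq_mul_div, le_div_iff₀ κ0]; linarith
      rw [norm_sub_rev]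
      nlinarith [mul_nonneg A10 m0])
    hH.ne'
    (fun κ3 hκ hz => by
      set T' := Icc (-(L3 * δ)) (L3 * δ) ∩ (par y3 e (δ * κ3)) ⁻¹' E' with hT'
      have c' : IsCompact T' :=
        isCompact_Icc.inter_right (E'2.isClosed.preimage (Tri.par_cont _ _ _))
      have sb : Icc (-(L3 * δ)) (L3 * δ) \ T' ⊆
          {τ ∈ Icc (-(L3 * δ)) (L3 * δ) | par y3 e (δ * κ3) τ ∉ E'} :=
        fun τ h => ⟨h.1, fun h' => h.2 ⟨h.1, h'⟩⟩
      have sm := hE κ3 hκ.1 T' c' inter_subset_left (fun τ h => hE3 (E'1 h.2))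
        ((measure_mono sb).trans hκ.2)
      have b3 := hF3 η η0 κ3 hκ.1 T' c' inter_subset_left sm y1 (mem_ball_self ρ3p)
      have bj := fun j => hF j η η0 (κ j) (κ1 j) (T j) (T1 j) (T2 j) (T4 j) y1 (mem_ball_self (ρp j))
      have cov : closedBall O0 δ ⊆ ((closedBall O0 δ \ Q ∪ ⋃ j, {O ∈ k.K ∩ closedBall O0 δ |
          ¬ ∃ τ ∈ T j, k.d O (par (x j) (x j - O0) (δ * κ j) τ) = k.d O y1}) ∪
          {O ∈ k.K ∩ closedBall O0 δ | ¬ ∃ τ ∈ T', k.d O (par y3 e (δ * κ3) τ) = k.d O y1}) ∪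
          {O ∈ Q | (∀ j, ∃ τ ∈ T j, k.d O (par (x j) (x j - O0) (δ * κ j) τ) = k.d O y1) ∧
            ∃ z ∈ E' ∩ closedBall y3 r, wed e (z - y3) / q = κ3 ∧ k.d O z = k.d O y1} := by
        intro O hOb
        by_cases g1 : O ∈ Q
        swap
        · exact Or.inl (Or.inl (Or.inl ⟨hOb, g1⟩))
        by_cases g2 : ∀ j, ∃ τ ∈ T j, k.d O (par (x j) (x j - O0) (δ * κ j) τ) = k.d O y1
        swap
        · obtain ⟨j, hj⟩ := not_forall.1 g2
          exact Or.inl (Or.inl (Or.inr (mem_iUnion.2 ⟨j, ⟨QK O g1, hOb⟩, hj⟩)))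
        by_cases g3 : ∃ τ ∈ T', k.d O (par y3 e (δ * κ3) τ) = k.d O y1
        swap
        · exact Or.inl (Or.inr ⟨⟨QK O g1, hOb⟩, g3⟩)
        obtain ⟨τ, t1, t2⟩ := g3
        refine Or.inr ⟨g1, g2, _, ⟨t1.2, ?_⟩, ?_, t2⟩
        · rw [mem_closedBall, dist_eq_norm]
          exact (Tri.par_near _ _ δ0'.le hκ.1 t1.1).trans m2.le
        · rw [Tri.par_wed, hq]; field_simp
      have v := (measure_mono cov).trans ((measure_union_le (μ := volume) _ _).trans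
        (add_le_add ((measure_union_le _ _).trans (add_le_add ((measure_union_le _ _).trans
          (add_le_add Q3 ((measure_iUnion_fintype_le _ _).trans
            (Finset.sum_le_sum fun j _ => bj j)))) b3)) hz.le))
      rw [Tri.vol_ball _ δ0'.le, add_zero, ← ENNReal.ofReal_sum_of_nonneg
        (fun j _ => by have := C0 j; positivity), ← ENNReal.ofReal_add (by positivity)
        (Finset.sum_nonneg fun j _ => by have := C0 j; positivity), ← ENNReal.ofReal_add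
        (add_nonneg (by positivity) (Finset.sum_nonneg fun j _ => by have := C0 j; positivity))
        (by positivity), ENNReal.ofReal_le_ofReal_iff
        (add_nonneg (add_nonneg (by positivity)
          (Finset.sum_nonneg fun j _ => by have := C0 j; positivity)) (by positivity)),
        ← Finset.sum_mul, ← Finset.sum_mul] at v
      have e1 : (∑ j, C j) * η * δ ^ 2 + C3 * η * δ ^ 2 = δ ^ 2 := by
        rw [hη]; field_simp
      nlinarith [pow_pos δ0' 2])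
  refine ⟨_, T3 i0 τ hτ, _, fun z h => E'1 h.1.1, pos_iff_ne_zero.2 hY, ?_⟩
  rintro z ⟨-, O, g1, g2, g3, g4⟩
  refine ⟨O, ⟨(Q1 g1).1, lt_of_le_of_lt (mem_closedBall.1 (Q1 g1).2) m3⟩, g2, g3, fun j => ?_⟩
  obtain ⟨τ', t1, t2⟩ := g4 j
  exact ⟨_, T3 j τ' t1, t2⟩

theorem p_GTRI (hGGAPL : S_GGAPL) (hGPAR : S_GPAR) (hGSLICE : S_GSLICE) (hGEXP : S_GEXP) (hGSEG : S_GSEG) (hGLIP2 : S_GLIP2) (hGFAM : S_GFAM) :
    S_GTRI := by
  intro k ι _ x E E0 E2 E3 O0 hO y1 h1 y2 h2 y3 h3 w12 w13 w23 s1 s2 s3 e2 e3 a0 b0 a2 b2 a3 b3 hx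
    δ0 hδ0
  have y21 : y2 ≠ y1 := by rintro rfl; apply w12; unfold wed; ring
  obtain ⟨z2, hz2, Y, hY, pY, H⟩ := Tri.core hGSLICE hGEXP hGSEG hGLIP2 hGFAM k (Option ι) none
    (fun j => j.elim y2 x) (fun j => j.elim E2 E) E0 E3 hO h1 h3 w12 w13 w23 s1 s2 s3 e3 a0 b0 a3 b3
    (fun j => by
      cases j with
      | none => exact ⟨h2, y21, e2, a2, b2⟩
      | some j => exact hx j) hδ0
  refine ⟨z2, hz2, Y, hY, pY, fun z3 h => ?_⟩
  obtain ⟨O, g1, g2, g3, g4⟩ := H z3 h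
  exact ⟨O, g1, g2, g3, fun j => g4 (some j)⟩

end Pool.Agent.P.MP_874adf_gt.Gn
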