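import Pool.Agent.P.MP_874adf_gt.Gn.IfaceGa
import Pool.Agent.P.MP_874adf_gt.Gn.GaDen

/-! Step GTWO. -/

set_option autoImplicit false

namespace Pool.Agent.P.MP_874adf_gt.Gn

open Pool.Agent.P.MP_874adf_gt.Fs Ga Set Filter Topology Metric MeasureTheory

theorem p_GTWO (hGLEV : S_GLEV) :
    S_GTWO := by
  intro k Q0 QQ U hF p hp m
  obtain ⟨⟨hO, hy⟩, hU⟩ := hp
  have hOM : p.1 ∈ k.M := k.ud.sub (hF.p0.sub hO.1)
  have hp0 : 0 < p.2 := (hF.rng p hU).1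
  set s := hF.fin.toFinset with hs
  set n : ℝ := (s.card : ℝ) with hn
  have n0 : 0 ≤ n := Nat.cast_nonneg _
  have η0 : (0 : ℝ) < 1 / (n + 1) := by positivity
  have h1 : ∀ Q ∈ QQ, ∀ᶠ δ in 𝓝[>] (0 : ℝ),
      volume {a ∈ Icc (p.2 - δ) (p.2 + δ) | {y ∈ Den Q | k.d p.1 y = a}.encard < m} ≤
        ENNReal.ofReal (1 / (n + 1) * δ) := by
    intro Q hQ
    obtain ⟨x, hx, hd⟩ := hy Q hQ
    have hpc := hF.pc Q hQ
    have hne : x ≠ p.1 := by
      intro e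
      rw [e, (k.pm.eq_zero _ hOM _ hOM).2 rfl] at hd
      exact hp0.ne hd
    have hD : DenW (Den Q) x := Dn.den hpc.cpt.measurableSet hx.2
    have := hGLEV k p.1 hOM x (hpc.sub hx.1) hne (Den Q) (fun y hy => hpc.sub hy.1) hD _ η0 1
      one_pos m
    rw [hd] at this
    filter_upwards [this] with δ hδ
    refine (measure_mono ?_).trans hδ
    rintro a ⟨ha, hb⟩
    refine ⟨ha, lt_of_le_of_lt (encard_le_encard ?_) hb⟩
    rintro y ⟨hy1, hy2⟩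
    exact ⟨hy1.1, hy2⟩
  have h2 := (eventually_all_finite hF.fin).2 h1
  have h3 : ∀ᶠ δ in 𝓝[>] (0 : ℝ), ∀ a ∈ Icc (p.2 - δ) (p.2 + δ), (p.1, a) ∈ U := by
    have hc : Continuous fun a : ℝ => (p.1, a) := by fun_prop
    have : {a : ℝ | (p.1, a) ∈ U} ∈ 𝓝 p.2 := (hF.opn.preimage hc).mem_nhds hU
    obtain ⟨ρ, ρ0, hρ⟩ := Metric.nhds_basis_closedBall.mem_iff.1 this
    filter_upwards [Ioc_mem_nhdsGT ρ0] with δ hδ a ha
    refine hρ ?_
    rw [Real.closedBall_eq_Icc]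
    exact ⟨by linarith [ha.1, hδ.2], by linarith [ha.2, hδ.2]⟩
  obtain ⟨δ, ⟨h4, h5⟩, (δ0 : 0 < δ)⟩ := ((h2.and h3).and self_mem_nhdsWithin).exists
  by_contra hno
  have hsub : Icc (p.2 - δ) (p.2 + δ) ⊆ ⋃ Q ∈ s,
      {a ∈ Icc (p.2 - δ) (p.2 + δ) | {y ∈ Den Q | k.d p.1 y = a}.encard < m} := by
    intro a ha
    by_contra hc
    refine hno ⟨a, h5 a ha, fun Q hQ => ?_⟩
    by_contra hlt
    exact hc (mem_biUnion (show Q ∈ s from hF.fin.mem_toFinset.2 hQ) ⟨ha, not_le.1 hlt⟩)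
  have h6 := (measure_mono (μ := volume) hsub).trans (measure_biUnion_finset_le s _)
  have h7 := h6.trans (Finset.sum_le_sum fun Q hQ => h4 Q (hF.fin.mem_toFinset.1 hQ))
  rw [Finset.sum_const, nsmul_eq_mul, Real.volume_Icc, ← ENNReal.ofReal_natCast,
    ← ENNReal.ofReal_mul (Nat.cast_nonneg _), ENNReal.ofReal_le_ofReal_iff (by positivity)] at h7
  have h8 : n * (1 / (n + 1) * δ) < δ := by
    rw [← mul_assoc, mul_one_div]
    exact mul_lt_of_lt_one_left δ0 ((div_lt_one (by positivity)).2 (by linarith))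
  linarith

end Pool.Agent.P.MP_874adf_gt.Gn
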