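import Pool.Agent.P.MP_874adf_gt.Gn.IfaceGa
import Pool.Agent.P.MP_874adf_gt.Gn.GaBase

/-! Step GTYPE. -/

set_option autoImplicit false

namespace Pool.Agent.P.MP_874adf_gt.Gn

open Pool.Agent.P.MP_874adf_gt.Fs Ga Set Filter Topology Metric MeasureTheory

lemma GTYPE_one (hGRIG1 : S_GRIG1) (hGRIG3 : S_GRIG3) (hGRIG4 : S_GRIG4) (k : Kx) {f : Dat → P}
    (hf : Continuous f) {v : Set Dat} {Q : Set P} (h : HV k v Q) (ha : Aw f v Q) :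
    ∃ w ⊆ v, ∃ Q' ⊆ Q, HV k w Q' ∧ (HS k f w Q' ∨ Cst f w) := by
  by_cases hs : HS k f v Q
  · exact ⟨v, subset_rfl, Q, subset_rfl, h, Or.inl hs⟩
  · simp only [HS, not_forall] at hs
    obtain ⟨w, s1, Q1, s2, hv, hn⟩ := hs
    have ha1 := ha.mono s1 s2
    obtain ⟨Qb, s3, pb, un⟩ := hGRIG1 k f w Q1 hf hv ha1 hn
    obtain ⟨A, Y, s4, pY, hY⟩ := hGRIG3 k f w Q1 hf hv ha1 Qb s3 pb un
    obtain ⟨w', s5, Q', s6, hv', c⟩ := hGRIG4 k f w Q1 hf hv ha1 Qb s3 pb un A Y s4 pY hY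
    exact ⟨w', s5.trans s1, Q', s6.trans s2, hv', Or.inr c⟩

theorem p_GTYPE (hGAWAY : S_GAWAY) (hGRIG1 : S_GRIG1) (hGRIG3 : S_GRIG3) (hGRIG4 : S_GRIG4) :
    S_GTYPE := by
  intro k v Q h
  obtain ⟨w, s1, Q1, s2, hv, aO, aA, aB⟩ := hGAWAY k v Q h
  obtain ⟨w2, s3, Q2, s4, hv2, hA⟩ := GTYPE_one hGRIG1 hGRIG3 hGRIG4 k contA hv aA
  obtain ⟨w3, s5, Q3, s6, hv3, hB⟩ := GTYPE_one hGRIG1 hGRIG3 hGRIG4 k contB hv2 (aB.mono s3 s4)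
  exact ⟨w3, (s5.trans s3).trans s1, Q3, (s6.trans s4).trans s2, hv3,
    aO.mono (s5.trans s3) (s6.trans s4), aA.mono (s5.trans s3) (s6.trans s4),
    aB.mono (s5.trans s3) (s6.trans s4),
    hA.imp (fun a => a.mono s5 s6) fun a => cst_mono a s5, hB⟩

end Pool.Agent.P.MP_874adf_gt.Gn
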