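import Pool.Agent.P.MP_874adf_gt.Gn.Defs

/-! Uniqueness of the decomposition into ridge functions, by Morera's theorem. -/

set_option autoImplicit false

namespace Pool.Agent.P.MP_874adf_gt.Gn

open Pool.Agent.P.MP_874adf_gt.Fs Set Filter Topology Metric MeasureTheory Complex
open scoped BoundedContinuousFunction

namespace HgMo

/-- integral of `f dy₁` over the boundary of the rectangle `[a,b] × [c,e]` -/
noncomputable def I1 (f : P → ℂ) (a b c e : ℝ) : ℂ := (∫ x in a..b, f (x, c)) - ∫ x in a..b, f (x, e)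

/-- integral of `f dy₂` over the boundary of the rectangle `[a,b] × [c,e]` -/
noncomputable def I2 (f : P → ℂ) (a b c e : ℝ) : ℂ := (∫ y in c..e, f (b, y)) - ∫ y in c..e, f (a, y)

def Aff (f : P → ℂ) : Prop := ∃ α β γ : ℂ, ∀ y : P, f y = α * y.1 + β * y.2 + γ

lemma ii1 {f : P → ℂ} (hf : Continuous f) (a b c : ℝ) :
    IntervalIntegrable (fun x => f (x, c)) volume a b :=
  (by fun_prop : Continuous fun x => f (x, c)).intervalIntegrable a b

lemma ii2 {f : P → ℂ} (hf : Continuous f) (a c e : ℝ) :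
    IntervalIntegrable (fun y => f (a, y)) volume c e :=
  (by fun_prop : Continuous fun y => f (a, y)).intervalIntegrable c e

lemma I1_add {f g : P → ℂ} (hf : Continuous f) (hg : Continuous g) (a b c e : ℝ) :
    I1 (fun y => f y + g y) a b c e = I1 f a b c e + I1 g a b c e := by
  simp only [I1, intervalIntegral.integral_add (ii1 hf _ _ _) (ii1 hg _ _ _)]
  ring

lemma I2_add {f g : P → ℂ} (hf : Continuous f) (hg : Continuous g) (a b c e : ℝ) :
    I2 (fun y => f y + g y) a b c e = I2 f a b c e + I2 g a b c e := by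
  simp only [I2, intervalIntegral.integral_add (ii2 hf _ _ _) (ii2 hg _ _ _)]
  ring

lemma I1_mul (t : ℂ) (f : P → ℂ) (a b c e : ℝ) :
    I1 (fun y => t * f y) a b c e = t * I1 f a b c e := by
  simp only [I1, intervalIntegral.integral_const_mul]
  ring

lemma I2_mul (t : ℂ) (f : P → ℂ) (a b c e : ℝ) :
    I2 (fun y => t * f y) a b c e = t * I2 f a b c e := by
  simp only [I2, intervalIntegral.integral_const_mul]
  ring

/-- the rectangle relation for a ridge function -/
lemma ridge (k : ℝ → ℂ) (hk : ∀ a b, IntervalIntegrable k volume a b) (θ a b c e : ℝ) :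
    I1 (fun y => k (pr θ y)) a b c e = θ * I2 (fun y => k (pr θ y)) a b c e := by
  have h1 : ∀ h : ℝ, ∫ x in a..b, k (pr θ (x, h)) = ∫ x in a - θ * h..b - θ * h, k x := fun h =>
    intervalIntegral.integral_comp_sub_right k (θ * h)
  have h2 : ∀ x : ℝ, (θ : ℂ) * ∫ y in c..e, k (pr θ (x, y)) = ∫ t in x - θ * e..x - θ * c, k t :=
    fun x => by
      have := intervalIntegral.smul_integral_comp_sub_mul (a := c) (b := e) k θ x
      rw [← this, real_smul]
      rfl
  rw [I1, I2, mul_sub, h1, h1, h2, h2]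
  have e1 := intervalIntegral.integral_add_adjacent_intervals (hk (a - θ * e) (a - θ * c))
    (hk (a - θ * c) (b - θ * c))
  have e2 := intervalIntegral.integral_add_adjacent_intervals (hk (a - θ * e) (b - θ * e))
    (hk (b - θ * e) (b - θ * c))
  linear_combination e1 - e2

lemma liouville {F : ℂ → ℂ} (hF : Differentiable ℂ F) {C : ℝ} (hC : ∀ z, ‖F z‖ ≤ C * (1 + ‖z‖)) :
    ∃ α γ : ℂ, ∀ z, F z = α * z + γ := by
  have C0 : 0 ≤ C := by simpa using (norm_nonneg _).trans (hC 0)
  have hb : ∀ c, ‖deriv F c‖ ≤ 2 * C := fun c => by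
    have R0 : 0 < 1 + ‖c‖ := by positivity
    have := Complex.norm_deriv_le_of_forall_mem_sphere_norm_le (c := c) (f := F)
      (C := 2 * C * (1 + ‖c‖)) R0 hF.diffContOnCl fun z hz => (hC z).trans (by
        have : ‖z‖ ≤ ‖z - c‖ + ‖c‖ := by simpa using norm_add_le (z - c) c
        rw [mem_sphere, dist_eq_norm] at hz
        nlinarith)
    rwa [mul_div_cancel_right₀ _ R0.ne'] at this
  have hd : Differentiable ℂ (deriv F) := hF.deriv
  obtain ⟨α, hα⟩ := hd.exists_const_forall_eq_of_bounded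
    (isBounded_iff_forall_norm_le.2 ⟨2 * C, by rintro _ ⟨c, rfl⟩; exact hb c⟩)
  have hG : ∀ z, HasDerivAt (fun z => F z - α * z) 0 z := fun z => by
    have := (hF z).hasDerivAt.sub ((hasDerivAt_id z).const_mul α)
    rwa [hα, mul_one, sub_self] at this
  refine ⟨α, F 0, fun z => ?_⟩
  have := is_const_of_deriv_eq_zero (fun z => (hG z).differentiableAt) (fun z => (hG z).deriv) z 0
  linear_combination this

lemma morera {f : P → ℂ} (hf : Continuous f) {C : ℝ} (hC : ∀ y, ‖f y‖ ≤ C * (1 + ‖y‖)) {ε : ℝ}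
    (hε : ε * ε = 1) (h : ∀ a b c e, I1 f a b c e + ε * I * I2 f a b c e = 0) : Aff f := by
  have C0 : 0 ≤ C := by simpa using (norm_nonneg _).trans (hC 0)
  have ε1 : |ε| = 1 := by
    have : |ε| * |ε| = 1 := by rw [← abs_mul, hε, abs_one]
    nlinarith [abs_nonneg ε]
  have εc : (ε : ℂ) * ε = 1 := by exact_mod_cast hε
  set F : ℂ → ℂ := fun z => f (z.re, ε * z.im) with hF
  have cF : Continuous F := by fun_prop
  have hc : IsConservativeOn F univ := by
    intro z w _
    rw [← add_eq_zero_iff_eq_neg, wedgeIntegral_add_wedgeIntegral_eq]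
    have e : ∀ x : ℝ, ∫ y in z.im..w.im, f (x, ε * y) = ε * ∫ y in ε * z.im..ε * w.im, f (x, y) :=
      fun x => by
        have := intervalIntegral.smul_integral_comp_mul_left (a := z.im) (b := w.im)
          (fun y => f (x, y)) ε
        rw [← this, real_smul, ← mul_assoc, εc, one_mul]
    have := h z.re w.re (ε * z.im) (ε * w.im)
    simp only [I1, I2] at this
    simp only [hF, add_re, ofReal_re, mul_re, I_re, mul_zero, ofReal_im, I_im, mul_one, sub_self,
      add_zero, add_im, mul_im, zero_add, smul_eq_mul, e]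
    linear_combination this
  have hd : Differentiable ℂ F := differentiableOn_univ.1
    ((isConservativeOn_and_continuousOn_iff_isDifferentiableOn isOpen_univ).1 ⟨hc, cF.continuousOn⟩)
  obtain ⟨α, γ, e⟩ := liouville hd (C := C) fun z => (hC _).trans (by
    have : ‖((z.re, ε * z.im) : P)‖ ≤ ‖z‖ := by
      refine max_le (abs_re_le_norm z) ?_
      rw [Real.norm_eq_abs, abs_mul, ε1, one_mul]
      exact abs_im_le_norm z
    nlinarith)
  refine ⟨α, α * (ε * I), γ, fun y => ?_⟩
  have := e (y.1 + ε * y.2 * I)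
  simp only [hF, add_re, ofReal_re, mul_re, I_re, mul_zero, ofReal_im, I_im, mul_one, sub_self,
    add_zero, add_im, mul_im, zero_add, zero_mul, sub_zero] at this
  rw [← mul_assoc, hε, one_mul] at this
  rw [this]
  ring

/-- the limits of the weighted sums of indicator functions of half planes -/
structure Mo (u : (ℝ →ᵇ ℂ) → P → ℂ) (C : ℝ) : Prop where
  add : ∀ H G y, u (H + G) y = u H y + u G y
  smul : ∀ (t : ℂ) H y, u (t • H) y = t * u H y
  cont : ∀ H, Continuous (u H)
  bd : ∀ H y, ‖u H y‖ ≤ ‖H‖ * (C * (1 + ‖y‖))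
  rect : ∀ H G : ℝ →ᵇ ℂ, (∀ θ : ℝ, G θ = θ * H θ) → ∀ a b c e, I1 (u H) a b c e = I2 (u G) a b c e

lemma den_ne {ε : ℝ} (hε : ε * ε = 1) (θ : ℝ) : 1 ≤ ‖(θ : ℂ) + ε * I‖ := by
  have ε1 : |ε| = 1 := by
    have : |ε| * |ε| = 1 := by rw [← abs_mul, hε, abs_one]
    nlinarith [abs_nonneg ε]
  simpa [ε1] using abs_im_le_norm ((θ : ℂ) + ε * I)

/-- the resolvent function -/
noncomputable def res (ε : ℝ) (hε : ε * ε = 1) : ℝ →ᵇ ℂ :=
  BoundedContinuousFunction.ofNormedAddCommGroup (fun θ : ℝ => ((θ : ℂ) + ε * I)⁻¹)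
    (Continuous.inv₀ (by fun_prop) fun θ e => by
      have := den_ne hε θ
      rw [e, norm_zero] at this
      linarith) 1 fun θ => by
      rw [norm_inv]
      exact inv_le_one_of_one_le₀ (den_ne hε θ)

lemma res_apply {ε : ℝ} (hε : ε * ε = 1) (θ : ℝ) : res ε hε θ = ((θ : ℂ) + ε * I)⁻¹ := rfl

lemma res_mul {ε : ℝ} (hε : ε * ε = 1) (θ : ℝ) : ((θ : ℂ) + ε * I) * res ε hε θ = 1 :=
  mul_inv_cancel₀ fun e => by
    have := den_ne hε θ
    rw [e, norm_zero] at this
    linarith

variable {u : (ℝ →ᵇ ℂ) → P → ℂ} {C C' ξ : ℝ} {k : ℝ → ℂ}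

/-- the difference with the ridge function -/
noncomputable def g (u : (ℝ →ᵇ ℂ) → P → ℂ) (k : ℝ → ℂ) (ξ : ℝ) (H : ℝ →ᵇ ℂ) (y : P) : ℂ :=
  u H y - H ξ * k (pr ξ y)

def Q (u : (ℝ →ᵇ ℂ) → P → ℂ) (k : ℝ → ℂ) (ξ : ℝ) (H : ℝ →ᵇ ℂ) : Prop :=
  ∀ x y : ℝ, g u k ξ H (x, y) - g u k ξ H (0, y) = (g u k ξ H (1, 0) - g u k ξ H (0, 0)) * x

lemma Aff.q {H : ℝ →ᵇ ℂ} (h : Aff (g u k ξ H)) : Q u k ξ H := by
  obtain ⟨α, β, γ, e⟩ := h
  intro x y
  simp only [e]
  push_cast
  ring

lemma pr_cont (ξ : ℝ) : Continuous (pr ξ) := by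
  unfold pr
  fun_prop

lemma step (h : Mo u C) (hk : Continuous k) (hb : ∀ t, ‖k t‖ ≤ C' * (1 + |t|)) {ε : ℝ}
    (hε : ε * ε = 1) {R : ℝ →ᵇ ℂ} (hR : Q u k ξ R) : Aff (g u k ξ (res ε hε * R)) := by
  set H := res ε hε * R with hH
  set a := g u k ξ R (1, 0) - g u k ξ R (0, 0)
  have ck : Continuous fun y => k (pr ξ y) := hk.comp (pr_cont ξ)
  have cg : ∀ G, Continuous (g u k ξ G) := fun G => (h.cont G).sub (continuous_const.mul ck)
  have C0 : 0 ≤ C' := by simpa using (norm_nonneg _).trans (hb 0)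
  have : Aff fun y => g u k ξ H y + a * y.2 := by
    refine morera ((cg H).add (by fun_prop))
      (C := ‖H‖ * C + ‖H‖ * (C' * (1 + |ξ|)) + ‖a‖) (fun y => ?_) hε fun a0 b c e => ?_
    · have y0 := norm_nonneg y
      have y1 : |y.1| ≤ ‖y‖ := norm_fst_le y
      have y2 : |y.2| ≤ ‖y‖ := norm_snd_le y
      have ξ0 := abs_nonneg ξ
      have p1 : |pr ξ y| ≤ |y.1| + |ξ| * |y.2| := by
        rw [← abs_mul]
        exact abs_sub _ _
      have k1 : ‖k (pr ξ y)‖ ≤ C' * (1 + |ξ|) * (1 + ‖y‖) := by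
        refine (hb _).trans ?_
        rw [mul_assoc]
        exact mul_le_mul_of_nonneg_left (by nlinarith) C0
      have k2 : ‖H ξ * k (pr ξ y)‖ ≤ ‖H‖ * (C' * (1 + |ξ|) * (1 + ‖y‖)) := by
        rw [norm_mul]
        exact mul_le_mul (H.norm_coe_le_norm ξ) k1 (norm_nonneg _) (norm_nonneg _)
      have k3 : ‖a * y.2‖ ≤ ‖a‖ * (1 + ‖y‖) := by
        rw [norm_mul, norm_real]
        exact mul_le_mul_of_nonneg_left (by rw [Real.norm_eq_abs]; linarith) (norm_nonneg _)
      have k4 := norm_add_le (g u k ξ H y) (a * y.2)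
      have k5 : ‖g u k ξ H y‖ ≤ ‖u H y‖ + ‖H ξ * k (pr ξ y)‖ := norm_sub_le _ _
      have k6 := h.bd H y
      nlinarith
    · have r1 := h.rect H (R + (-(ε * I)) • H) (fun θ => by
        have := res_mul hε θ
        simp only [hH, BoundedContinuousFunction.coe_add, BoundedContinuousFunction.coe_smul,
          BoundedContinuousFunction.coe_mul, Pi.add_apply, Pi.mul_apply, smul_eq_mul]
        linear_combination (-R θ) * this) a0 b c e
      have e1 : u (R + (-(ε * I)) • H) = fun y => u R y + -(ε * I) * u H y := by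
        funext y
        rw [h.add, h.smul]
      have cm : ∀ (t : ℂ) {f : P → ℂ}, Continuous f → Continuous fun y => t * f y :=
        fun t f hf => continuous_const.mul hf
      rw [e1, I2_add (h.cont R) (cm _ (h.cont H)), I2_mul] at r1
      have r2 := ridge k (fun a b => hk.intervalIntegrable a b) ξ a0 b c e
      have e2 : ∀ G, u G = fun y => g u k ξ G y + G ξ * k (pr ξ y) := fun G => by
        funext y
        simp [g]
      have r3 : I2 (g u k ξ R) a0 b c e = a * (b - a0) * (e - c) := by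
        rw [I2, ← intervalIntegral.integral_sub (ii2 (cg R) _ _ _) (ii2 (cg R) _ _ _)]
        have : ∀ y : ℝ, g u k ξ R (b, y) - g u k ξ R (a0, y) = a * (b - a0) := fun y => by
          linear_combination hR b y - hR a0 y
        simp only [this, intervalIntegral.integral_const, real_smul]
        push_cast
        ring
      have r4 : I1 (fun y : P => (y.2 : ℂ)) a0 b c e = -((b - a0) * (e - c)) := by
        simp only [I1, intervalIntegral.integral_const, real_smul]
        push_cast
        ring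
      have r5 : I2 (fun y : P => (y.2 : ℂ)) a0 b c e = 0 := by simp only [I2, sub_self]
      have r6 : R ξ = (ξ + ε * I) * H ξ := by
        have := res_mul hε ξ
        simp only [hH, BoundedContinuousFunction.coe_mul, Pi.mul_apply]
        linear_combination (-R ξ) * this
      rw [e2 H, e2 R, I1_add (cg H) (cm _ ck), I2_add (cg H) (cm _ ck),
        I2_add (cg R) (cm _ ck), I1_mul, I2_mul, I2_mul, r2, r3, r6] at r1
      rw [I1_add (cg H) (by fun_prop), I2_add (cg H) (by fun_prop), I1_mul, I2_mul, r4, r5]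
      linear_combination r1
  obtain ⟨α, β, γ, e⟩ := this
  exact ⟨α, β - a, γ, fun y => by linear_combination e y⟩

lemma Mo.cont_at (h : Mo u C) (y : P) : Continuous fun H => u H y := by
  let f : (ℝ →ᵇ ℂ) →ₗ[ℂ] ℂ := ⟨⟨fun H => u H y, fun H G => h.add H G y⟩, fun t H => h.smul t H y⟩
  exact (f.mkContinuous (C * (1 + ‖y‖)) fun H => (h.bd H y).trans_eq (mul_comm _ _)).continuous

lemma q_closed (h : Mo u C) : IsClosed {H | Q u k ξ H} := by
  have c : ∀ y, Continuous fun H => g u k ξ H y := fun y =>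
    (h.cont_at y).sub ((continuous_eval_const ξ).mul continuous_const)
  simp only [Q, ofPred_forall]
  exact isClosed_iInter fun x => isClosed_iInter fun y =>
    isClosed_eq ((c _).sub (c _)) (((c _).sub (c _)).mul continuous_const)

lemma q_add (h : Mo u C) {H G : ℝ →ᵇ ℂ} (h1 : Q u k ξ H) (h2 : Q u k ξ G) : Q u k ξ (H + G) := by
  intro x y
  have a1 := h1 x y
  have a2 := h2 x y
  simp only [g, h.add, BoundedContinuousFunction.coe_add, Pi.add_apply] at a1 a2 ⊢
  linear_combination a1 + a2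

lemma q_smul (h : Mo u C) (t : ℂ) {H : ℝ →ᵇ ℂ} (h1 : Q u k ξ H) : Q u k ξ (t • H) := by
  intro x y
  have := h1 x y
  simp only [g, h.smul, BoundedContinuousFunction.coe_smul, smul_eq_mul] at *
  linear_combination t * this

/-- multiplication by continuous functions of the resolvent -/
lemma q_comp (h : Mo u C) (hk : Continuous k) (hb : ∀ t, ‖k t‖ ≤ C' * (1 + |t|))
    (f : C(closedBall (0 : ℂ) 1, ℂ)) (ρ : C(ℝ, closedBall (0 : ℂ) 1))
    (hρ : ∀ θ, (ρ θ : ℂ) = res 1 (one_mul 1) θ) :
    ∀ G, Q u k ξ G → Q u k ξ ((BoundedContinuousFunction.mkOfCompact f).compContinuous ρ * G) := by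
  induction f using ContinuousMap.induction_on_of_compact with
  | const r =>
    intro G hG
    have : (BoundedContinuousFunction.mkOfCompact
        (ContinuousMap.const (closedBall (0 : ℂ) 1) r)).compContinuous ρ * G = r • G := by
      ext θ; simp
    rw [this]
    exact q_smul h r hG
  | id =>
    intro G hG
    have : (BoundedContinuousFunction.mkOfCompact (ContinuousMap.restrict (closedBall (0 : ℂ) 1)
        (ContinuousMap.id ℂ))).compContinuous ρ = res 1 (one_mul 1) := by
      ext θ; simpa using hρ θ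
    rw [this]
    exact (step h hk hb _ hG).q
  | star_id =>
    intro G hG
    have : (BoundedContinuousFunction.mkOfCompact (star (ContinuousMap.restrict
        (closedBall (0 : ℂ) 1) (ContinuousMap.id ℂ)))).compContinuous ρ =
          res (-1) (by norm_num) := by
      ext θ
      have := hρ θ
      simp [this, res_apply]
    rw [this]
    exact (step h hk hb _ hG).q
  | add f1 f2 h1 h2 =>
    intro G hG
    have : (BoundedContinuousFunction.mkOfCompact (f1 + f2)).compContinuous ρ * G =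
        (BoundedContinuousFunction.mkOfCompact f1).compContinuous ρ * G +
          (BoundedContinuousFunction.mkOfCompact f2).compContinuous ρ * G := by
      ext θ; simp [add_mul]
    rw [this]
    exact q_add h (h1 G hG) (h2 G hG)
  | mul f1 f2 h1 h2 =>
    intro G hG
    have : (BoundedContinuousFunction.mkOfCompact (f1 * f2)).compContinuous ρ * G =
        (BoundedContinuousFunction.mkOfCompact f1).compContinuous ρ *
          ((BoundedContinuousFunction.mkOfCompact f2).compContinuous ρ * G) := by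
      ext θ; simp [mul_assoc]
    rw [this]
    exact h1 _ (h2 G hG)
  | frequently f hf =>
    intro G hG
    have c : Continuous fun f : C(closedBall (0 : ℂ) 1, ℂ) =>
        (BoundedContinuousFunction.mkOfCompact f).compContinuous ρ * G :=
      ((BoundedContinuousFunction.continuous_compContinuous ρ).comp
        (ContinuousMap.isometryEquivBoundedOfCompact _ _).continuous).mul continuous_const
    exact (hf.mono fun g hg => hg G hG).mem_of_closed ((q_closed h).preimage c)

/-- main statement for a weight of the form `H / (θ + i) ^ 2` -/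
theorem main_res (h : Mo u C) (hk : Continuous k) (hb : ∀ t, ‖k t‖ ≤ C' * (1 + |t|)) (m : ℝ → ℂ)
    (h1 : ∀ y, u 1 y = k (pr ξ y) + m y.2) (H : ℝ →ᵇ ℂ) :
    Aff (g u k ξ (res 1 (one_mul 1) * (res 1 (one_mul 1) * H))) := by
  refine step h hk hb _ ?_
  have q1 : Q u k ξ 1 := fun x y => by simp [g, h1]
  have hm : ∀ θ, res 1 (one_mul 1) θ ∈ closedBall (0 : ℂ) 1 := fun θ => by
    rw [mem_closedBall_zero_iff, res_apply, norm_inv]
    exact inv_le_one_of_one_le₀ (den_ne (one_mul 1) θ)
  let ρ : C(ℝ, closedBall (0 : ℂ) 1) :=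
    ⟨fun θ => ⟨res 1 (one_mul 1) θ, hm θ⟩, (res 1 (one_mul 1)).continuous.subtype_mk hm⟩
  have cf : Continuous fun w : ℂ => w * H (w⁻¹).re := by
    refine continuous_iff_continuousAt.2 fun w => ?_
    rcases eq_or_ne w 0 with rfl | hw
    · rw [ContinuousAt, zero_mul]
      refine squeeze_zero_norm (a := fun w : ℂ => ‖w‖ * ‖H‖) (fun w => ?_) ?_
      · rw [norm_mul]
        exact mul_le_mul_of_nonneg_left (H.norm_coe_le_norm _) (norm_nonneg _)
      · simpa using (continuous_norm.tendsto (0 : ℂ)).mul_const ‖H‖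
    · exact continuousAt_id.mul (H.continuous.continuousAt.comp
        (continuous_re.continuousAt.comp (continuousAt_inv₀ hw)))
  have := q_comp h hk hb ⟨fun w => (w : ℂ) * H ((w : ℂ)⁻¹).re, cf.comp continuous_subtype_val⟩ ρ
    (fun _ => rfl) 1 q1
  refine (congrArg (Q u k ξ) ?_).mp this
  ext θ
  show res 1 (one_mul 1) θ * H ((res 1 (one_mul 1) θ)⁻¹).re * 1 = res 1 (one_mul 1) θ * H θ
  rw [res_apply, inv_inv]
  simp

/-- weights with compact support give affine functions, up to the ridge function -/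
theorem main (h : Mo u C) (hk : Continuous k) (hb : ∀ t, ‖k t‖ ≤ C' * (1 + |t|)) (m : ℝ → ℂ)
    (h1 : ∀ y, u 1 y = k (pr ξ y) + m y.2) (H : ℝ →ᵇ ℂ) (hH : HasCompactSupport H) :
    ∃ α β γ : ℂ, ∀ y : P, u H y = H ξ * k (pr ξ y) + (α * y.1 + β * y.2 + γ) := by
  have c : Continuous fun θ : ℝ => ((θ : ℂ) + (1 : ℝ) * I) ^ 2 * H θ := by fun_prop
  have s : HasCompactSupport fun θ : ℝ => ((θ : ℂ) + (1 : ℝ) * I) ^ 2 * H θ := hH.mul_left
  obtain ⟨K, hK⟩ := c.bounded_above_of_compact_support s
  obtain ⟨α, β, γ, e⟩ := main_res h hk hb m h1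
    (BoundedContinuousFunction.ofNormedAddCommGroup _ c K hK)
  have : res 1 (one_mul 1) * (res 1 (one_mul 1) *
      BoundedContinuousFunction.ofNormedAddCommGroup _ c K hK) = H := by
    ext θ
    have := res_mul (one_mul 1) θ
    simp only [BoundedContinuousFunction.coe_mul, Pi.mul_apply,
      BoundedContinuousFunction.coe_ofNormedAddCommGroup]
    linear_combination (H θ * (((θ : ℂ) + (1 : ℝ) * I) * res 1 (one_mul 1) θ + 1)) * this
  rw [this] at e
  exact ⟨α, β, γ, fun y => by rw [← e y, g]; ring⟩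

end HgMo

end Pool.Agent.P.MP_874adf_gt.Gn
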