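import Pool.Agent.P.MP_874adf_gt.Gn.IfaceHg0
import Pool.Agent.P.MP_874adf_gt.Gn.HgMo

/-! Step HGFL. -/

set_option autoImplicit false

namespace Pool.Agent.P.MP_874adf_gt.Gn

open Pool.Agent.P.MP_874adf_gt.Fs Set Filter Topology Metric MeasureTheory
open scoped BoundedContinuousFunction

namespace HgMo

lemma ex_lim {ι : Type} (U : Ultrafilter ι) {f : ι → ℂ} {B : ℝ} (h : ∀ᶠ i in (U : Filter ι), ‖f i‖ ≤ B) :
    ∃ a, Tendsto f U (𝓝 a) := by
  obtain ⟨a, -, ha⟩ := (isCompact_closedBall (0 : ℂ) B).ultrafilter_le_nhds (U.map f)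
    (by rw [Ultrafilter.coe_map, le_principal_iff, mem_map]
        exact h.mono fun i hi => mem_closedBall_zero_iff.2 hi)
  exact ⟨a, ha⟩

/-- asymptotically equicontinuous families converge uniformly on bounded sets -/
lemma unif {ι : Type} {U : Filter ι} [U.NeBot] {f : ι → P → ℂ} {g : P → ℂ}
    (ht : ∀ y, Tendsto (fun i => f i y) U (𝓝 (g y)))
    (he : ∀ R : ℝ, ∀ ε > (0 : ℝ), ∃ η > (0 : ℝ), ∀ᶠ i in U, ∀ y ∈ closedBall (0 : P) R,
      ∀ z ∈ closedBall (0 : P) R, ‖z - y‖ ≤ η → ‖f i z - f i y‖ ≤ ε) :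
    Continuous g ∧ ∀ R : ℝ, ∀ ε > (0 : ℝ), ∀ᶠ i in U, ∀ y ∈ closedBall (0 : P) R,
      ‖f i y - g y‖ ≤ ε := by
  have hg : ∀ R : ℝ, ∀ ε η : ℝ, (∀ᶠ i in U, ∀ y ∈ closedBall (0 : P) R,
      ∀ z ∈ closedBall (0 : P) R, ‖z - y‖ ≤ η → ‖f i z - f i y‖ ≤ ε) → ∀ y ∈ closedBall (0 : P) R,
      ∀ z ∈ closedBall (0 : P) R, ‖z - y‖ ≤ η → ‖g z - g y‖ ≤ ε := fun R ε η h y hy z hz e =>
    le_of_tendsto ((ht z).sub (ht y)).norm (h.mono fun i hi => hi y hy z hz e)
  refine ⟨Metric.continuous_iff.2 fun y ε ε0 => ?_, fun R ε ε0 => ?_⟩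
  · obtain ⟨η, η0, h⟩ := he (‖y‖ + 1) (ε / 2) (half_pos ε0)
    refine ⟨min η 1, by positivity, fun z hz => ?_⟩
    rw [dist_eq_norm] at hz ⊢
    have : ‖z‖ ≤ ‖z - y‖ + ‖y‖ := by simpa using norm_add_le (z - y) y
    have := hg _ _ _ h y (mem_closedBall_zero_iff.2 (by linarith)) z
      (mem_closedBall_zero_iff.2 (by linarith [min_le_right η 1])) (hz.le.trans (min_le_left _ _))
    linarith
  · obtain ⟨η, η0, h⟩ := he R (ε / 3) (by positivity)
    obtain ⟨t, ts, tf, tc⟩ := (isCompact_closedBall (0 : P) R).finite_cover_balls η0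
    have h2 : ∀ᶠ i in U, ∀ c ∈ t, ‖f i c - g c‖ ≤ ε / 3 := (eventually_all_finite tf).2 fun c _ =>
      ((Metric.tendsto_nhds.1 (ht c)) (ε / 3) (by positivity)).mono fun i hi => by
        rw [dist_eq_norm] at hi; exact hi.le
    filter_upwards [h, h2] with i a1 a2 y hy
    obtain ⟨c, hc, m⟩ := mem_iUnion₂.1 (tc hy)
    rw [mem_ball, dist_eq_norm] at m
    have b1 := a1 c (ts hc) y hy m.le
    have b2 := a2 c hc
    have b3 := hg _ _ _ h c (ts hc) y hy m.le
    have e : f i y - g y = (f i y - f i c) + (f i c - g c) - (g y - g c) := by ring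
    rw [e]
    linarith [norm_sub_le (f i y - f i c + (f i c - g c)) (g y - g c),
      norm_add_le (f i y - f i c) (f i c - g c)]

/-- passage to the limit in an integral over a segment -/
lemma int_lim {ι : Type} {U : Filter ι} {f : ι → P → ℂ} {g : P → ℂ} (hg : Continuous g)
    (hu : ∀ R : ℝ, ∀ ε > (0 : ℝ), ∀ᶠ i in U, ∀ y ∈ closedBall (0 : P) R, ‖f i y - g y‖ ≤ ε)
    {γ : ℝ → P} (hγ : Continuous γ) (a b : ℝ)
    (hi : ∀ i, IntervalIntegrable (fun t => f i (γ t)) volume a b) :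
    Tendsto (fun i => ∫ t in a..b, f i (γ t)) U (𝓝 (∫ t in a..b, g (γ t))) := by
  obtain ⟨R, hR⟩ := (isCompact_uIcc (a := a) (b := b)).exists_bound_of_continuousOn hγ.continuousOn
  refine Metric.tendsto_nhds.2 fun ε ε0 => ?_
  have p0 : 0 < |b - a| + 1 := by positivity
  filter_upwards [hu R (ε / (|b - a| + 1)) (div_pos ε0 p0)] with i h
  have cg : Continuous fun t => g (γ t) := hg.comp hγ
  rw [dist_eq_norm, ← intervalIntegral.integral_sub (hi i) (cg.intervalIntegrable a b)]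
  refine (intervalIntegral.norm_integral_le_of_norm_le_const fun t ht =>
    h _ (mem_closedBall_zero_iff.2 (hR t (uIoc_subset_uIcc ht)))).trans_lt ?_
  rw [div_mul_eq_mul_div, div_lt_iff₀ p0]
  nlinarith

lemma ind_meas : Measurable fun p : (ℝ × ℝ) × P => ind p.1 p.2 := by
  unfold ind pr
  exact Measurable.ite (measurableSet_lt (by fun_prop) (by fun_prop)) measurable_const
    measurable_const

lemma ind_sub_le (l : ℝ × ℝ) (y z : P) : |ind l z - ind l y| ≤ 1 := by
  unfold ind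
  split_ifs <;> simp

lemma ind_sub_eq (l : ℝ × ℝ) (y z : P) : |ind l z - ind l y| = (sp y z).indicator 1 l := by
  by_cases h1 : l.1 < pr l.2 y <;> by_cases h2 : l.1 < pr l.2 z <;> simp [ind, sp, indicator, h1, h2]

lemma sp_ms (y z : P) : MeasurableSet (sp y z) := by
  have m : ∀ w : P, MeasurableSet {l : ℝ × ℝ | l.1 < pr l.2 w} := fun w => by
    unfold pr
    exact measurableSet_lt (by fun_prop) (by fun_prop)
  exact ((m y).iff (m z)).compl

variable (μ : Measure (ℝ × ℝ)) (x : P) (s N : ℝ) (w : ℝ × ℝ → ℝ)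

/-- the integrand -/
noncomputable def te (H : ℝ →ᵇ ℂ) (y : P) (l : ℝ × ℝ) : ℂ :=
  H l.2 * (w l * (ind l (x + s • y) - ind l x) : ℝ)

noncomputable def vv (H : ℝ →ᵇ ℂ) (y : P) : ℂ := (∫ l, te x s w H y l ∂μ) / N

variable {μ x s N w} {K : ℝ}

lemma te_meas (hw : Measurable w) (H : ℝ →ᵇ ℂ) :
    Measurable fun p : P × (ℝ × ℝ) => te x s w H p.1 p.2 := by
  unfold te
  refine (H.continuous.measurable.comp (by fun_prop)).mul (Complex.measurable_ofReal.comp
    ((hw.comp measurable_snd).mul (Measurable.sub ?_ ?_)))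
  · exact ind_meas.comp (f := fun p : P × (ℝ × ℝ) => (p.2, x + s • p.1)) (by fun_prop)
  · exact ind_meas.comp (f := fun p : P × (ℝ × ℝ) => (p.2, x)) (by fun_prop)

lemma te_le (hK : ∀ l, |w l| ≤ K) (H : ℝ →ᵇ ℂ) (y : P) (l : ℝ × ℝ) :
    ‖te x s w H y l‖ ≤ ‖H‖ * K := by
  rw [te, norm_mul, Complex.norm_real, Real.norm_eq_abs, abs_mul]
  refine mul_le_mul (H.norm_coe_le_norm _) ?_ (by positivity) (norm_nonneg _)
  exact (mul_le_of_le_one_right (abs_nonneg _) (ind_sub_le _ _ _)).trans (hK l)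

lemma te_int [IsFiniteMeasure μ] (hw : Measurable w) (hK : ∀ l, |w l| ≤ K) (H : ℝ →ᵇ ℂ) (y : P) :
    Integrable (te x s w H y) μ :=
  Integrable.of_bound ((te_meas hw H).comp (f := fun l => (y, l)) (by fun_prop)).aestronglyMeasurable
    _ (ae_of_all _ (te_le hK H y))

lemma te_int2 [IsFiniteMeasure μ] (hw : Measurable w) (hK : ∀ l, |w l| ≤ K) (H : ℝ →ᵇ ℂ)
    {γ : ℝ → P} (hγ : Continuous γ) (a b : ℝ) :
    Integrable (Function.uncurry fun t l => te x s w H (γ t) l)
      ((volume.restrict (uIoc a b)).prod μ) := by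
  have : IsFiniteMeasure (volume.restrict (uIoc a b)) :=
    ⟨by rw [Measure.restrict_apply_univ]; exact measure_Ioc_lt_top⟩
  exact Integrable.of_bound ((te_meas hw H).comp (f := fun p : ℝ × (ℝ × ℝ) => (γ p.1, p.2))
    (by fun_prop)).aestronglyMeasurable _ (ae_of_all _ fun p => te_le hK H _ _)

lemma vv_ii [IsFiniteMeasure μ] (hw : Measurable w) (hK : ∀ l, |w l| ≤ K) (H : ℝ →ᵇ ℂ)
    {γ : ℝ → P} (hγ : Continuous γ) (a b : ℝ) :
    IntervalIntegrable (fun t => vv μ x s N w H (γ t)) volume a b :=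
  (intervalIntegrable_iff.2 (te_int2 hw hK H hγ a b).integral_prod_left).div_const _

lemma vv_int [IsFiniteMeasure μ] (hw : Measurable w) (hK : ∀ l, |w l| ≤ K) (H : ℝ →ᵇ ℂ)
    {γ : ℝ → P} (hγ : Continuous γ) (a b : ℝ) :
    Integrable (fun l => ∫ t in a..b, te x s w H (γ t) l) μ ∧
      ∫ t in a..b, vv μ x s N w H (γ t) = (∫ l, (∫ t in a..b, te x s w H (γ t) l) ∂μ) / N := by
  have h := te_int2 (μ := μ) (x := x) (s := s) hw hK H hγ a b
  refine ⟨?_, ?_⟩
  · simp only [intervalIntegral.intervalIntegral_eq_integral_uIoc]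
    exact h.integral_prod_right.smul (if a ≤ b then (1 : ℝ) else -1)
  · rw [← intervalIntegral_integral_swap h, ← intervalIntegral.integral_div]
    rfl

lemma te_rect (H G : ℝ →ᵇ ℂ) (h : ∀ θ : ℝ, G θ = θ * H θ) (l : ℝ × ℝ) (a b c e : ℝ) :
    I1 (fun y => te x s w H y l) a b c e = I2 (fun y => te x s w G y l) a b c e := by
  set k : ℝ → ℂ := fun t => (w l * (ind l (x + s • (t, 0)) - ind l x) : ℝ) with hk
  have e1 : ∀ (F : ℝ →ᵇ ℂ) (y : P), te x s w F y l = F l.2 * k (pr l.2 y) := fun F y => by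
    have : pr l.2 (x + s • (pr l.2 y, 0)) = pr l.2 (x + s • y) := by
      simp only [pr, Prod.fst_add, Prod.snd_add, Prod.smul_fst, Prod.smul_snd, smul_eq_mul]
      ring
    simp only [te, hk, ind, this]
  have mk : Measurable k := Complex.measurable_ofReal.comp (measurable_const.mul
    ((ind_meas.comp (f := fun t : ℝ => (l, x + s • ((t, 0) : P))) (by fun_prop)).sub
      measurable_const))
  have ik : ∀ a b, IntervalIntegrable k volume a b := fun a b => by
    refine intervalIntegrable_iff.2 (Measure.integrableOn_of_bounded (M := |w l|)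
      measure_Ioc_lt_top.ne mk.aestronglyMeasurable (ae_of_all _ fun t => ?_))
    rw [hk, Complex.norm_real, Real.norm_eq_abs, abs_mul]
    exact mul_le_of_le_one_right (abs_nonneg _) (ind_sub_le _ _ _)
  simp only [e1]
  rw [I1_mul, I2_mul, ridge k ik, h]
  ring

lemma vv_rect [IsFiniteMeasure μ] (hw : Measurable w) (hK : ∀ l, |w l| ≤ K) (H G : ℝ →ᵇ ℂ)
    (h : ∀ θ : ℝ, G θ = θ * H θ) (a b c e : ℝ) :
    I1 (vv μ x s N w H) a b c e = I2 (vv μ x s N w G) a b c e := by
  obtain ⟨i1, e1⟩ := vv_int (μ := μ) (x := x) (s := s) (N := N) hw hK H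
    (γ := fun t => (t, c)) (by fun_prop) a b
  obtain ⟨i2, e2⟩ := vv_int (μ := μ) (x := x) (s := s) (N := N) hw hK H
    (γ := fun t => (t, e)) (by fun_prop) a b
  obtain ⟨i3, e3⟩ := vv_int (μ := μ) (x := x) (s := s) (N := N) hw hK G
    (γ := fun t => (b, t)) (by fun_prop) c e
  obtain ⟨i4, e4⟩ := vv_int (μ := μ) (x := x) (s := s) (N := N) hw hK G
    (γ := fun t => (a, t)) (by fun_prop) c e
  rw [I1, I2, e1, e2, e3, e4, ← sub_div, ← sub_div, ← integral_sub i1 i2, ← integral_sub i3 i4]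
  exact congrArg (· / (N : ℂ)) (integral_congr_ae (ae_of_all _ fun l => te_rect H G h l a b c e))

lemma vv_sub_le [IsFiniteMeasure μ] (hw : Measurable w) (hK : ∀ l, |w l| ≤ K) (N0 : 0 < N)
    (Ψ : ℝ → ℝ) (H : ℝ →ᵇ ℂ) (y z : P) {B : ℝ} (hB : ce μ Ψ x s y z ≤ B * N) :
    ‖vv μ x s N w H z - vv μ x s N w H y‖ ≤ ‖H‖ * K * B := by
  have K0 : 0 ≤ K := (abs_nonneg _).trans (hK 0)
  rw [vv, vv, ← sub_div, ← integral_sub (te_int hw hK H z) (te_int hw hK H y), norm_div,
    Complex.norm_real, Real.norm_eq_abs, abs_of_pos N0, div_le_iff₀ N0]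
  have m := sp_ms (x + s • y) (x + s • z)
  have h1 := norm_integral_le_of_norm_le (μ := μ) (f := fun l => te x s w H z l - te x s w H y l)
    (g := fun l => ‖H‖ * K * (sp (x + s • y) (x + s • z)).indicator 1 l)
    (((integrable_const (1 : ℝ)).indicator m).const_mul _) (ae_of_all _ fun l => by
      have : te x s w H z l - te x s w H y l =
          H l.2 * (w l * (ind l (x + s • z) - ind l (x + s • y)) : ℝ) := by
        simp only [te]
        push_cast
        ring
      rw [this, norm_mul, Complex.norm_real, Real.norm_eq_abs, abs_mul, ← ind_sub_eq, mul_assoc]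
      exact mul_le_mul (H.norm_coe_le_norm _) (mul_le_mul_of_nonneg_right (hK l) (abs_nonneg _))
        (by positivity) (norm_nonneg _))
  rw [integral_const_mul, integral_indicator_one m] at h1
  refine h1.trans ?_
  rw [mul_assoc (‖H‖ * K)]
  refine mul_le_mul_of_nonneg_left (le_trans ?_ hB) (by positivity)
  exact le_add_of_nonneg_right (abs_nonneg _)

lemma vv_zero (H : ℝ →ᵇ ℂ) : vv μ x s N w H 0 = 0 := by simp [vv, te]

lemma vv_add [IsFiniteMeasure μ] (hw : Measurable w) (hK : ∀ l, |w l| ≤ K) (H G : ℝ →ᵇ ℂ) (y : P) :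
    vv μ x s N w (H + G) y = vv μ x s N w H y + vv μ x s N w G y := by
  rw [vv, vv, vv, ← add_div, ← integral_add (te_int hw hK H y) (te_int hw hK G y)]
  simp only [te, BoundedContinuousFunction.coe_add, Pi.add_apply, add_mul]

lemma vv_smul (t : ℂ) (H : ℝ →ᵇ ℂ) (y : P) : vv μ x s N w (t • H) y = t * vv μ x s N w H y := by
  rw [vv, vv, ← mul_div_assoc, ← integral_const_mul]
  simp only [te, BoundedContinuousFunction.coe_smul, smul_eq_mul, mul_assoc]

lemma bw_eq (Ψ : ℝ → ℝ) (H : ℝ →ᵇ ℂ) (f : ℝ → ℝ) (hf : ∀ θ, H θ = f θ) (β : ℝ) (y : P) :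
    (bw μ Ψ x s N (fun l => f l.2 * w l) β y : ℂ) =
      vv μ x s N w H y + β * (((Ψ (x + s • y).2 - Ψ x.2) / N : ℝ) : ℂ) := by
  have : ∫ l, te x s w H y l ∂μ =
      ((∫ l, f l.2 * w l * (ind l (x + s • y) - ind l x) ∂μ : ℝ) : ℂ) := by
    rw [← integral_complex_ofReal]
    refine integral_congr_ae (ae_of_all _ fun l => ?_)
    simp only [te, hf]
    push_cast
    ring
  rw [vv, this, bw]
  push_cast
  ring

end HgMo

open HgMo in
theorem p_HGFL :
    S_HGFL := by
  intro ι U μ Ψ x s N w K c ξ β ψ b hμ _ _ N0 hw hK cψ sψ hξ ⟨C, hC⟩ hE hL hb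
  obtain ⟨i0⟩ : Nonempty ι := (U : Filter ι).nonempty_of_neBot
  have K0 : 0 ≤ K := (abs_nonneg _).trans (hK i0 0)
  have gr : ∀ y : P, ∀ᶠ i in (U : Filter ι), ce μ Ψ (x i) (s i) 0 y ≤ C * (1 + ‖y‖) * N i :=
    fun y => (hC (1 + ‖y‖) (by linarith [norm_nonneg y])).mono fun i h =>
      h 0 (mem_closedBall_self (by positivity)) y (mem_closedBall_zero_iff.2 (by linarith))
  have bd : ∀ (H : ℝ →ᵇ ℂ) (y : P), ∀ᶠ i in (U : Filter ι),
      ‖vv μ (x i) (s i) (N i) (w i) H y‖ ≤ ‖H‖ * K * (C * (1 + ‖y‖)) := fun H y =>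
    (gr y).mono fun i h => by
      simpa only [vv_zero, sub_zero] using vv_sub_le (hw i) (hK i) (N0 i) Ψ H 0 y h
  choose u hu using fun H y => ex_lim U (bd H y)
  have un := fun H : ℝ →ᵇ ℂ => unif (hu H) fun R ε ε0 => by
    have p0 : 0 < ‖H‖ * K + 1 := by positivity
    obtain ⟨η, η0, h⟩ := hE R (ε / (‖H‖ * K + 1)) (div_pos ε0 p0)
    refine ⟨η, η0, h.mono fun i hi y hy z hz e =>
      (vv_sub_le (hw i) (hK i) (N0 i) Ψ H y z (hi y hy z hz e)).trans ?_⟩
    rw [← mul_div_assoc, div_le_iff₀ p0]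
    nlinarith
  have mo : Mo u (K * C) := by
    refine ⟨fun H G y => ?_, fun t H y => ?_, fun H => (un H).1, fun H y => ?_,
      fun H G h a b c e => ?_⟩
    · refine tendsto_nhds_unique (hu (H + G) y) ?_
      simp only [vv_add (hw _) (hK _)]
      exact (hu H y).add (hu G y)
    · refine tendsto_nhds_unique (hu (t • H) y) ?_
      simp only [vv_smul]
      exact (hu H y).const_mul t
    · exact (le_of_tendsto (hu H y).norm (bd H y)).trans_eq (by ring)
    · have l : ∀ (F : ℝ →ᵇ ℂ) {γ : ℝ → P} (hγ : Continuous γ) (a b : ℝ), _ := fun F γ hγ a b =>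
        int_lim (un F).1 (un F).2 hγ a b fun i => vv_ii (hw i) (hK i) F hγ a b
      have t1 : Tendsto (fun i => I1 (vv μ (x i) (s i) (N i) (w i) H) a b c e) U
          (𝓝 (I1 (u H) a b c e)) :=
        (l H (γ := fun t => (t, c)) (by fun_prop) a b).sub
          (l H (γ := fun t => (t, e)) (by fun_prop) a b)
      have t2 : Tendsto (fun i => I2 (vv μ (x i) (s i) (N i) (w i) G) a b c e) U
          (𝓝 (I2 (u G) a b c e)) :=
        (l G (γ := fun t => (b, t)) (by fun_prop) c e).sub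
          (l G (γ := fun t => (a, t)) (by fun_prop) c e)
      refine tendsto_nhds_unique t1 ?_
      simp only [vv_rect (hw _) (hK _) H G h]
      exact t2
  have bp : ∀ y : P, ∀ᶠ i in (U : Filter ι),
      ‖(((Ψ (x i + s i • y).2 - Ψ (x i).2) / N i : ℝ) : ℂ)‖ ≤ C * (1 + ‖y‖) := fun y =>
    (gr y).mono fun i h => by
      rw [Complex.norm_real, Real.norm_eq_abs, abs_div, abs_of_pos (N0 i), div_le_iff₀ (N0 i)]
      refine le_trans ?_ h
      simp only [ce, smul_zero, add_zero]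
      exact le_add_of_nonneg_left measureReal_nonneg
  choose p hp using fun y => ex_lim U (bp y)
  have p1 : ∀ y : P, p y = p (0, y.2) := fun y =>
    tendsto_nhds_unique (hp y) (by simpa using hp (0, y.2))
  have p0 : p 0 = 0 := tendsto_nhds_unique (hp 0) (by simp)
  have t1 : ∀ y, Tendsto (fun i => (bw μ Ψ (x i) (s i) (N i) (w i) c y : ℂ)) U
      (𝓝 (u 1 y + c * p y)) := fun y => by
    have := fun i => bw_eq (μ := μ) (x := x i) (s := s i) (N := N i) (w := w i) Ψ 1 (fun _ => 1)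
      (fun _ => by simp) c y
    simp only [one_mul] at this
    simp only [this]
    exact (hu 1 y).add ((hp y).const_mul _)
  have h1 : ∀ y, u 1 y = u 1 (pr ξ y, 0) + -(c * p (0, y.2)) := fun y => by
    have e : u 1 (pr ξ y, 0) + c * p (pr ξ y, 0) - (u 1 y + c * p y) = 0 := by
      refine tendsto_nhds_unique ((t1 _).sub (t1 _)) (NormedAddGroup.tendsto_nhds_zero.2
        fun ε ε0 => ?_)
      filter_upwards [hL (max ‖y‖ ‖((pr ξ y, 0) : P)‖) (ε / 2) (half_pos ε0)] with i h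
      have := h y (mem_closedBall_zero_iff.2 (le_max_left _ _)) (pr ξ y, 0)
        (mem_closedBall_zero_iff.2 (le_max_right _ _)) (by simp [pr])
      rw [← Complex.ofReal_sub, Complex.norm_real, Real.norm_eq_abs]
      linarith
    have e2 : p (pr ξ y, 0) = 0 := (p1 _).trans p0
    rw [e2, p1 y] at e
    linear_combination -e
  have cc : Continuous fun θ => (ψ θ : ℂ) := by fun_prop
  have sc : HasCompactSupport fun θ => (ψ θ : ℂ) := sψ.comp_left Complex.ofReal_zero
  obtain ⟨B, hB⟩ := cc.bounded_above_of_compact_support sc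
  set H := BoundedContinuousFunction.ofNormedAddCommGroup _ cc B hB
  obtain ⟨α, α', γ, e⟩ := main (k := fun t => u 1 (t, 0)) (C' := K * C) mo
    ((mo.cont 1).comp (by fun_prop)) (fun t => by simpa using mo.bd 1 (t, 0))
    (fun t => -(c * p (0, t))) h1 H sc
  have fin : ∀ y, (b y : ℂ) = α * y.1 + α' * y.2 + γ := fun y => by
    have t2 : Tendsto (fun i => (bw μ Ψ (x i) (s i) (N i) (fun l => (β + ψ l.2) * w i l) (β * c) y : ℂ))
        U (𝓝 (b y)) := by
      refine (Complex.continuous_ofReal.tendsto _).comp (Metric.tendsto_nhds.2 fun ε ε0 => ?_)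
      filter_upwards [hb ‖y‖ (ε / 2) (half_pos ε0)] with i h
      exact (h y (mem_closedBall_zero_iff.2 le_rfl)).trans_lt (half_lt_self ε0)
    have := fun i => bw_eq (μ := μ) (x := x i) (s := s i) (N := N i) (w := w i) Ψ
      ((β : ℂ) • 1 + H) (fun θ => β + ψ θ) (fun _ => by simp [H]) (β * c) y
    simp only [this] at t2
    have e3 := tendsto_nhds_unique t2 ((hu _ y).add ((hp y).const_mul _))
    have e4 : (β : ℂ) + H ξ = 0 := by
      show (β : ℂ) + ψ ξ = 0
      exact_mod_cast hξ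
    rw [e3, mo.add, mo.smul, e y, h1 y, p1 y]
    push_cast
    linear_combination (u 1 (pr ξ y, 0)) * e4
  intro y a v
  apply Complex.ofReal_injective
  push_cast
  simp only [fin, Prod.fst_add, Prod.snd_add]
  push_cast
  ring

end Pool.Agent.P.MP_874adf_gt.Gn
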