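import Pool.Agent.P.MP_874adf_gt.Gn.HgU

/-! Asymptotically affine families and translation invariance of the limit distance. -/

set_option autoImplicit false

namespace Pool.Agent.P.MP_874adf_gt.Gn

open Pool.Agent.P.MP_874adf_gt.Fs Set Filter Topology Metric MeasureTheory

namespace HgA

open HgU

variable {ι : Type}

/-- mixed second differences tend to zero -/
def TI (U : Filter ι) (f : ι → P → ℝ) : Prop :=
  ∀ y u v : P, Tendsto (fun i => f i (y + u + v) - f i (y + u) - (f i (y + v) - f i y)) U (𝓝 0)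

lemma TI.congr {U : Filter ι} {f g : ι → P → ℝ} (h : TI U f) (e : ∀ y, ∀ᶠ i in U, f i y = g i y) :
    TI U g := by
  intro y u v
  refine (h y u v).congr' ?_
  filter_upwards [e (y + u + v), e (y + u), e (y + v), e y] with i a1 a2 a3 a4
  rw [a1, a2, a3, a4]

lemma TI.add {U : Filter ι} {f g : ι → P → ℝ} (h : TI U f) (h' : TI U g) :
    TI U fun i y => f i y + g i y := by
  intro y u v
  have := (h y u v).add (h' y u v)
  rw [add_zero] at this
  refine this.congr fun i => ?_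
  ring

lemma TI.of_lim {U : Filter ι} {f : ι → P → ℝ} {b : P → ℝ} (h : ULim U f b)
    (e : ∀ y u v : P, b (y + u + v) - b (y + u) = b (y + v) - b y) : TI U f := by
  intro y u v
  have := ((ULim.tendsto h (y + u + v)).sub (ULim.tendsto h (y + u))).sub
    ((ULim.tendsto h (y + v)).sub (ULim.tendsto h y))
  rwa [e, sub_self] at this

lemma bw_add (μ : Measure (ℝ × ℝ)) [IsFiniteMeasure μ] (Ψ : ℝ → ℝ) (x : P) (s N : ℝ)
    {W W' : ℝ × ℝ → ℝ} (m : Measurable W) (m' : Measurable W') {K K' : ℝ} (h : ∀ l, |W l| ≤ K)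
    (h' : ∀ l, |W' l| ≤ K') (β β' : ℝ) (y : P) :
    bw μ Ψ x s N W β y + bw μ Ψ x s N W' β' y =
      bw μ Ψ x s N (fun l => W l + W' l) (β + β') y := by
  unfold bw
  have e : (∫ l, (W l + W' l) * (ind l (x + s • y) - ind l x) ∂μ) =
      (∫ l, W l * (ind l (x + s • y) - ind l x) ∂μ) +
        ∫ l, W' l * (ind l (x + s • y) - ind l x) ∂μ := by
    rw [← integral_add (integ μ m h _ _) (integ μ m' h' _ _)]
    refine integral_congr_ae (Eventually.of_forall fun l => ?_)
    ring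
  rw [e]
  ring

lemma bw_congr (μ : Measure (ℝ × ℝ)) (Ψ : ℝ → ℝ) (x : P) (s N : ℝ) {W W' : ℝ × ℝ → ℝ} (β : ℝ)
    (y : P) (h : ∀ l ∈ sp x (x + s • y), W l = W' l) :
    bw μ Ψ x s N W β y = bw μ Ψ x s N W' β y := by
  unfold bw
  congr 2
  refine integral_congr_ae (Eventually.of_forall fun l => ?_)
  by_cases hl : l ∈ sp x (x + s • y)
  · simp only [h l hl]
  · simp only [ind_eq hl, mul_zero]

lemma bdd {ψ : ℝ → ℝ} (c : Continuous ψ) (h : HasCompactSupport ψ) : ∃ K, ∀ t, |ψ t| ≤ K := by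
  obtain ⟨K, hK⟩ := c.bounded_above_of_compact_support h
  exact ⟨K, hK⟩

/-- from small windows to all weights with compact support -/
lemma glue {U : Filter ι} (μ : Measure (ℝ × ℝ)) [IsFiniteMeasure μ] {Ψ : ℝ → ℝ} {x : ι → P}
    {s N : ι → ℝ}
    (h : ∀ θ : ℝ, ∃ η > (0 : ℝ), ∀ ψ : ℝ → ℝ, Continuous ψ → HasCompactSupport ψ →
      (∀ t, η ≤ |t - θ| → ψ t = 0) →
        TI U fun i => bw μ Ψ (x i) (s i) (N i) (fun l => ψ l.2) 0)
    {ψ : ℝ → ℝ} (c : Continuous ψ) (k : HasCompactSupport ψ) :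
    TI U fun i => bw μ Ψ (x i) (s i) (N i) (fun l => ψ l.2) 0 := by
  have key : ∃ ρ : ℝ → ℝ, Continuous ρ ∧ (∀ t ∈ tsupport ψ, ρ t = 1) ∧ ∀ φ : ℝ → ℝ, Continuous φ →
      HasCompactSupport φ → TI U fun i => bw μ Ψ (x i) (s i) (N i) (fun l => ρ l.2 * φ l.2) 0 := by
    refine IsCompact.induction_on (p := fun K => ∃ ρ : ℝ → ℝ, Continuous ρ ∧ (∀ t ∈ K, ρ t = 1) ∧
      ∀ φ : ℝ → ℝ, Continuous φ → HasCompactSupport φ →
        TI U fun i => bw μ Ψ (x i) (s i) (N i) (fun l => ρ l.2 * φ l.2) 0) k ?_ ?_ ?_ ?_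
    · refine ⟨fun _ => 0, continuous_const, by simp, fun φ _ _ y u v => ?_⟩
      simp [bw, tendsto_const_nhds]
    · rintro A B AB ⟨ρ, c1, c2, c3⟩
      exact ⟨ρ, c1, fun t ht => c2 t (AB ht), c3⟩
    · rintro A B ⟨ρ, c1, c2, c3⟩ ⟨ρ', e1, e2, e3⟩
      refine ⟨fun t => ρ t + ρ' t * (1 - ρ t), by fun_prop, ?_, fun φ f1 f2 => ?_⟩
      · rintro t (ht | ht)
        · simp [c2 t ht]
        · simp [e2 t ht]
      · have g1 : Continuous fun t => (1 - ρ t) * φ t := by fun_prop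
        have g2 : HasCompactSupport fun t => (1 - ρ t) * φ t := f2.mul_left
        refine ((c3 φ f1 f2).add (e3 _ g1 g2)).congr fun y => Eventually.of_forall fun i => ?_
        obtain ⟨K, hK⟩ := bdd (ψ := fun t => ρ t * φ t) (by fun_prop) f2.mul_left
        obtain ⟨K', hK'⟩ := bdd (ψ := fun t => ρ' t * ((1 - ρ t) * φ t)) (by fun_prop) g2.mul_left
        rw [bw_add μ Ψ _ _ _ (by fun_prop) (by fun_prop) (fun l => hK l.2) (fun l => hK' l.2),
          add_zero]
        refine bw_congr μ Ψ _ _ _ _ _ fun l _ => ?_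
        ring
    · intro θ _
      obtain ⟨η, η0, hη⟩ := h θ
      refine ⟨ball θ (η / 2), mem_nhdsWithin_of_mem_nhds (ball_mem_nhds _ (by positivity)),
        fun t => max 0 (min 1 (2 - 2 * |t - θ| / η)), by fun_prop, fun t ht => ?_,
        fun φ f1 f2 => ?_⟩
      · rw [mem_ball, Real.dist_eq] at ht
        have : 2 * |t - θ| / η ≤ 1 := by
          rw [div_le_one η0]
          linarith
        show max 0 (min 1 (2 - 2 * |t - θ| / η)) = 1
        rw [min_eq_left (by linarith), max_eq_right zero_le_one]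
      · refine hη (fun t => max 0 (min 1 (2 - 2 * |t - θ| / η)) * φ t) (by fun_prop) f2.mul_left
          fun t ht => ?_
        have : 2 ≤ 2 * |t - θ| / η := by
          rw [le_div_iff₀ η0]
          linarith
        rw [max_eq_left (min_le_of_right_le (by linarith)), zero_mul]
  obtain ⟨ρ, -, c2, c3⟩ := key
  refine (c3 ψ c k).congr fun y => Eventually.of_forall fun i => ?_
  refine bw_congr μ Ψ _ _ _ _ _ fun l _ => ?_
  by_cases hl : l.2 ∈ tsupport ψ
  · rw [c2 _ hl, one_mul]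
  · rw [image_eq_zero_of_notMem_tsupport hl, mul_zero]

lemma ce_symm (μ : Measure (ℝ × ℝ)) (Ψ : ℝ → ℝ) (x : P) (s : ℝ) (y z : P) :
    ce μ Ψ x s y z = ce μ Ψ x s z y := by
  unfold ce
  rw [MOVaux.sp_comm, abs_sub_comm]

lemma ce_nonneg (μ : Measure (ℝ × ℝ)) (Ψ : ℝ → ℝ) (x : P) (s : ℝ) (y z : P) :
    0 ≤ ce μ Ψ x s y z := add_nonneg measureReal_nonneg (abs_nonneg _)

lemma ce_tri (μ : Measure (ℝ × ℝ)) [IsFiniteMeasure μ] (Ψ : ℝ → ℝ) (x : P) (s : ℝ) (y w z : P) :
    ce μ Ψ x s y z ≤ ce μ Ψ x s y w + ce μ Ψ x s w z := by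
  unfold ce
  have h1 : sp (x + s • y) (x + s • z) ⊆ sp (x + s • y) (x + s • w) ∪ sp (x + s • w) (x + s • z) := by
    intro l
    simp only [sp, mem_union, mem_ofPred_eq]
    tauto
  have h2 := (measureReal_mono (μ := μ) h1).trans (measureReal_union_le _ _)
  have h3 := abs_sub_le (Ψ (x + s • z).2) (Ψ (x + s • w).2) (Ψ (x + s • y).2)
  linarith

lemma pr_add (θ : ℝ) (a b : P) : pr θ (a + b) = pr θ a + pr θ b := by
  simp only [pr, Prod.fst_add, Prod.snd_add]
  ring

lemma pr_smul (θ s : ℝ) (a : P) : pr θ (s • a) = s * pr θ a := by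
  simp only [pr, Prod.smul_fst, Prod.smul_snd, smul_eq_mul]
  ring

/-- a continuous version of the sign of `t - θ` -/
noncomputable def sg (t η θ : ℝ) : ℝ := max (-1) (min 1 ((t - θ) / η))

lemma sg_cont (t η : ℝ) : Continuous (sg t η) := by
  unfold sg
  fun_prop

lemma sg_le (t η θ : ℝ) : |sg t η θ| ≤ 1 :=
  abs_le.2 ⟨le_max_left _ _, max_le (by norm_num) (min_le_left _ _)⟩

lemma sg_pos {t η θ : ℝ} (η0 : 0 < η) (h : η ≤ t - θ) : sg t η θ = 1 := by
  unfold sg
  rw [min_eq_left ((one_le_div η0).2 h), max_eq_right (by norm_num)]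

lemma sg_neg {t η θ : ℝ} (η0 : 0 < η) (h : t - θ ≤ -η) : sg t η θ = -1 := by
  unfold sg
  refine max_eq_left (min_le_of_right_le ?_)
  rw [div_le_iff₀ η0]
  linarith

/-- the distance along an upward vector is almost a difference of weighted masses -/
lemma ce_near (μ : Measure (ℝ × ℝ)) [IsFiniteMeasure μ] {Ψ : ℝ → ℝ} (mΨ : Monotone Ψ) (x : P)
    {s N η : ℝ} (s0 : 0 < s) (N0 : 0 < N) (η0 : 0 < η) (y u : P) (u0 : 0 < u.2) :
    |ce μ Ψ x s y (y + u) / N - (bw μ Ψ x s N (fun l => sg (u.1 / u.2) η l.2) 1 (y + u) -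
      bw μ Ψ x s N (fun l => sg (u.1 / u.2) η l.2) 1 y)| ≤
      2 * ce μ Ψ x s (y - (η * u.2, 0)) (y + (η * u.2, 0)) / N := by
  set t := u.1 / u.2 with ht
  have mS : Measurable fun l : ℝ × ℝ => sg t η l.2 := (sg_cont t η).measurable.comp measurable_snd
  rw [bw_sub μ Ψ x s N mS (fun l => sg_le t η l.2), ← sub_div, abs_div, abs_of_pos N0]
  refine div_le_div_of_nonneg_right ?_ N0.le
  set a := x + s • y with ha
  set b := x + s • (y + u) with hb
  have hp : ∀ θ, pr θ b = pr θ a + s * u.2 * (t - θ) := by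
    intro θ
    rw [hb, ha, smul_add, ← add_assoc, pr_add θ _ (s • u), pr_smul, ht]
    congr 1
    unfold pr
    field_simp
  have su : 0 < s * u.2 := by positivity
  have h2 : a.2 ≤ b.2 := by
    simp only [ha, hb, Prod.snd_add, Prod.smul_snd, smul_eq_mul]
    nlinarith
  have mI : Measurable fun l => ind l b - ind l a := (meas_ind b).sub (meas_ind a)
  have e1 : μ.real (sp a b) = ∫ l, (ind l b - ind l a) * (ind l b - ind l a) ∂μ := by
    rw [← integral_indicator_one (MOVaux.meas_sp a b)]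
    refine integral_congr_ae (Eventually.of_forall fun l => ?_)
    simp only [← abs_ind]
    rcases ind01 l a with h | h <;> rcases ind01 l b with h' | h' <;> simp [h, h']
  have e2 : ce μ Ψ x s y (y + u) - ((∫ l, sg t η l.2 * (ind l b - ind l a) ∂μ) +
      1 * (Ψ b.2 - Ψ a.2)) = ∫ l, (ind l b - ind l a - sg t η l.2) * (ind l b - ind l a) ∂μ := by
    unfold ce
    rw [← ha, ← hb, e1, abs_of_nonneg (sub_nonneg.2 (mΨ h2)), one_mul, add_sub_add_right_eq_sub,
      ← integral_sub (integ μ mI (fun l => abs_ind_le l a b) _ _)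
        (integ μ mS (fun l => sg_le t η l.2) _ _)]
    refine integral_congr_ae (Eventually.of_forall fun l => ?_)
    ring
  rw [e2]
  refine (int_le μ (K := 2) (MOVaux.meas_sp (x + s • (y - (η * u.2, 0))) (x + s • (y + (η * u.2, 0))))
    (by norm_num) (fun l _ => ?_) (fun l h1 h3 => ?_)).trans ?_
  · have := abs_sub (ind l b - ind l a) (sg t η l.2)
    linarith [abs_ind_le l a b, sg_le t η l.2]
  · have q1 : pr l.2 (x + s • (y - (η * u.2, 0))) = pr l.2 a - s * u.2 * η := by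
      simp only [ha, pr, Prod.fst_add, Prod.snd_add, Prod.smul_fst, Prod.smul_snd, smul_eq_mul,
        Prod.fst_sub, Prod.snd_sub]
      ring
    have q2 : pr l.2 (x + s • (y + (η * u.2, 0))) = pr l.2 a + s * u.2 * η := by
      simp only [ha, pr, Prod.fst_add, Prod.snd_add, Prod.smul_fst, Prod.smul_snd, smul_eq_mul]
      ring
    simp only [sp, mem_ofPred_eq, q1, q2, not_not] at h3
    simp only [sp, mem_ofPred_eq] at h1
    have q3 := hp l.2
    have sη : 0 < s * u.2 * η := by positivity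
    by_cases c1 : l.1 < pr l.2 a
    · have c2 : ¬ l.1 < pr l.2 b := fun c => h1 ⟨fun _ => c, fun _ => c1⟩
      have c3 : l.1 < pr l.2 a - s * u.2 * η := h3.2 (by linarith)
      have c4 : t - l.2 ≤ -η := by
        by_contra c
        nlinarith [not_le.1 c, not_lt.1 c2]
      rw [sg_neg η0 c4]
      simp [ind, c1, c2]
    · have c2 : l.1 < pr l.2 b := by
        by_contra c
        exact h1 ⟨fun a => absurd a c1, fun a => absurd a c⟩
      have c3 : ¬ l.1 < pr l.2 a + s * u.2 * η := fun c => by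
        have := h3.2 c
        linarith [not_lt.1 c1]
      have c4 : η ≤ t - l.2 := by
        by_contra c
        nlinarith [not_le.1 c, not_lt.1 c3]
      rw [sg_pos η0 c4]
      simp [ind, c1, c2]
  · unfold ce
    linarith [abs_nonneg (Ψ (x + s • (y + (η * u.2, 0))).2 - Ψ (x + s • (y - (η * u.2, 0))).2)]

/-- the limit distance -/
lemma dist_lim (U : Ultrafilter ι) (μ : Measure (ℝ × ℝ)) [IsFiniteMeasure μ]
    {Ψ : ℝ → ℝ} {x : ι → P} {s N : ι → ℝ} (N0 : ∀ i, 0 < N i) (gr : Gr (U : Filter ι) μ Ψ x s N)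
    (eq : HgU.Eq (U : Filter ι) μ Ψ x s N) :
    ∃ D : P × P → ℝ, Continuous D ∧
      (∀ q : P × P, Tendsto (fun i => ce μ Ψ (x i) (s i) q.1 q.2 / N i) U (𝓝 (D q))) ∧
      ∀ R : ℝ, ∀ ε > (0 : ℝ), ∀ᶠ i in (U : Filter ι), ∀ q ∈ closedBall (0 : P × P) R,
        ‖ce μ Ψ (x i) (s i) q.1 q.2 / N i - D q‖ ≤ ε := by
  refine ulim U (fun i (q : P × P) => ce μ Ψ (x i) (s i) q.1 q.2 / N i) ?_ ?_
  · intro q
    obtain ⟨C, hC⟩ := gr
    refine ⟨C * (‖q‖ + 1), ?_⟩
    filter_upwards [hC (‖q‖ + 1) (by linarith [norm_nonneg q])] with i hi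
    have a1 := hi q.1 (mem_closedBall_zero_iff.2 (by linarith [norm_fst_le q])) q.2
      (mem_closedBall_zero_iff.2 (by linarith [norm_snd_le q]))
    rw [Real.norm_eq_abs, abs_of_nonneg (div_nonneg (ce_nonneg _ _ _ _ _ _) (N0 i).le),
      div_le_iff₀ (N0 i)]
    exact a1
  · intro R ε ε0
    obtain ⟨η, η0, hη⟩ := eq R (ε / 2) (by positivity)
    refine ⟨η, η0, ?_⟩
    filter_upwards [hη] with i hi p hp q hq hpq
    rw [mem_closedBall_zero_iff] at hp hq
    have a1 := hi p.1 (mem_closedBall_zero_iff.2 ((norm_fst_le p).trans hp)) q.1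
      (mem_closedBall_zero_iff.2 ((norm_fst_le q).trans hq)) ((norm_fst_le (q - p)).trans hpq)
    have a2 := hi p.2 (mem_closedBall_zero_iff.2 ((norm_snd_le p).trans hp)) q.2
      (mem_closedBall_zero_iff.2 ((norm_snd_le q).trans hq)) ((norm_snd_le (q - p)).trans hpq)
    rw [Real.norm_eq_abs, ← sub_div, abs_div, abs_of_pos (N0 i), div_le_iff₀ (N0 i), abs_le]
    have b1 := ce_tri μ Ψ (x i) (s i) p.1 q.1 p.2
    have b2 := ce_tri μ Ψ (x i) (s i) q.1 q.2 p.2
    have b3 := ce_tri μ Ψ (x i) (s i) q.1 p.1 q.2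
    have b4 := ce_tri μ Ψ (x i) (s i) p.1 p.2 q.2
    have b5 := ce_symm μ Ψ (x i) (s i) q.1 p.1
    have b6 := ce_symm μ Ψ (x i) (s i) q.2 p.2
    constructor <;> linarith

/-- translation invariance of the limit distance -/
lemma invar {U : Filter ι} [U.NeBot] (μ : Measure (ℝ × ℝ)) [IsFiniteMeasure μ]
    {Ψ : ℝ → ℝ} (mΨ : Monotone Ψ) {x : ι → P} {s N : ι → ℝ} (s0 : ∀ i, 0 < s i) (N0 : ∀ i, 0 < N i)
    (eq : HgU.Eq U μ Ψ x s N)
    (h : ∀ t η : ℝ, 0 < η → η ≤ 1 → TI U fun i => bw μ Ψ (x i) (s i) (N i) (fun l => sg t η l.2) 1)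
    {D : P × P → ℝ} (c : Continuous D)
    (hD : ∀ q : P × P, Tendsto (fun i => ce μ Ψ (x i) (s i) q.1 q.2 / N i) U (𝓝 (D q)))
    (y u v : P) : D (y + v, y + v + u) = D (y, y + u) := by
  have sy : ∀ a b : P, D (a, b) = D (b, a) := fun a b =>
    tendsto_nhds_unique (hD (a, b)) ((hD (b, a)).congr fun i => by rw [ce_symm])
  have up : ∀ y u v : P, 0 < u.2 → D (y + v, y + v + u) = D (y, y + u) := by
    intro y u v u0
    rw [← sub_eq_zero, ← abs_nonpos_iff]
    refine le_of_forall_pos_le_add fun ε ε0 => ?_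
    obtain ⟨η, η0, hη⟩ := eq (‖y‖ + ‖v‖ + u.2) (ε / 4) (by positivity)
    set κ := min 1 (η / (2 * u.2)) with hκ
    have κ0 : 0 < κ := by positivity
    have κ1 : κ ≤ 1 := min_le_left _ _
    have κ2 : κ * (2 * u.2) ≤ η := (le_div_iff₀ (by positivity)).1 (min_le_right _ _)
    have nn : ‖((κ * u.2, 0) : P)‖ = κ * u.2 := by
      rw [Prod.norm_def]
      simp [abs_of_pos κ0, abs_of_pos u0, mul_nonneg κ0.le u0.le]
    have small : ∀ᶠ i in U, ∀ a : P, ‖a‖ ≤ ‖y‖ + ‖v‖ →
        2 * ce μ Ψ (x i) (s i) (a - (κ * u.2, 0)) (a + (κ * u.2, 0)) / N i ≤ ε / 2 := by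
      filter_upwards [hη] with i hi a ha
      have k1 : κ * u.2 ≤ u.2 := by nlinarith
      have := hi (a - (κ * u.2, 0))
        (mem_closedBall_zero_iff.2 ((norm_sub_le _ _).trans (by rw [nn]; linarith)))
        (a + (κ * u.2, 0))
        (mem_closedBall_zero_iff.2 ((norm_add_le _ _).trans (by rw [nn]; linarith))) (by
          rw [add_sub_sub_cancel]
          refine (norm_add_le _ _).trans ?_
          rw [nn]
          linarith)
      rw [div_le_iff₀ (N0 i)]
      linarith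
    have t1 := ((hD (y + v, y + v + u)).sub (hD (y, y + u))).sub (h (u.1 / u.2) κ κ0 κ1 y v u)
    rw [sub_zero] at t1
    rw [zero_add]
    refine le_of_tendsto t1.abs ?_
    filter_upwards [small] with i hi
    have a1 := (ce_near μ mΨ (x i) (s0 i) (N0 i) κ0 (y + v) u u0).trans (hi _ (norm_add_le _ _))
    have a2 := (ce_near μ mΨ (x i) (s0 i) (N0 i) κ0 y u u0).trans
      (hi _ (by linarith [norm_nonneg v]))
    rw [abs_le] at a1 a2 ⊢
    constructor <;> linarith [a1.1, a1.2, a2.1, a2.2]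
  rcases lt_trichotomy u.2 0 with u0 | u0 | u0
  · have := up (y + u) (-u) v (by simpa using u0)
    rw [sy (y + v), sy y]
    have e1 : y + u + v + -u = y + v := by abel
    have e2 : y + u + -u = y := by abel
    have e3 : y + u + v = y + v + u := by abel
    rwa [e1, e2, e3] at this
  · have c1 : Continuous fun δ : ℝ => D (y + v, y + v + (u + (0, δ))) := by fun_prop
    have c2 : Continuous fun δ : ℝ => D (y, y + (u + (0, δ))) := by fun_prop
    have cl : closure (Ioi (0 : ℝ)) ⊆ {δ | D (y + v, y + v + (u + (0, δ))) = D (y, y + (u + (0, δ)))} :=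
      closure_minimal (fun δ hδ => up y _ v (by simpa [u0] using hδ)) (isClosed_eq c1 c2)
    have := cl (a := 0) (by simp)
    simpa [Prod.mk_zero_zero] using this
  · exact up y u v u0

/-- an even continuous function that is additive along rays is homogeneous -/
lemma homog {H : P → ℝ} (c : Continuous H) (ev : ∀ v, H (-v) = H v)
    (ad : ∀ (v : P) (a b : ℝ), 0 ≤ a → 0 ≤ b → H ((a + b) • v) = H (a • v) + H (b • v))
    (t : ℝ) (v : P) : H (t • v) = |t| * H v := by
  have h0 : H 0 = 0 := by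
    have := ad v 0 0 le_rfl le_rfl
    simp only [add_zero, zero_smul] at this
    linarith
  have hn : ∀ (n : ℕ) (w : P), H ((n : ℝ) • w) = n * H w := by
    intro n w
    induction n with
    | zero => simp [h0]
    | succ n ih =>
      push_cast
      rw [ad w n 1 (Nat.cast_nonneg n) zero_le_one, ih, one_smul]
      ring
  have ha : ∀ (a : ℝ) (w : P), H (a • w) = H (|a| • w) := by
    intro a w
    rcases abs_cases a with ⟨e, -⟩ | ⟨e, -⟩
    · rw [e]
    · rw [e, neg_smul, ev]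
  refine Rat.denseRange_cast.induction_on (p := fun t : ℝ => H (t • v) = |t| * H v) t
    (isClosed_eq (by fun_prop) (by fun_prop)) fun q => ?_
  have d0 : (0 : ℝ) < q.den := Nat.cast_pos.2 q.den_pos
  have e : |(q : ℝ)| = (q.num.natAbs : ℝ) * (q.den : ℝ)⁻¹ := by
    rw [Rat.cast_def, abs_div, abs_of_pos d0, Nat.cast_natAbs, Int.cast_abs, div_eq_mul_inv]
  have e2 := hn q.den ((q.den : ℝ)⁻¹ • v)
  rw [smul_smul, mul_inv_cancel₀ d0.ne', one_smul] at e2
  rw [ha, e, mul_smul, hn, e2]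
  field_simp

end HgA

end Pool.Agent.P.MP_874adf_gt.Gn
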