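import Pool.Agent.P.MP_874adf_gt.Gn.Iface0

/-! The Fourier lemma used for honest limits. -/

set_option autoImplicit false

namespace Pool.Agent.P.MP_874adf_gt.Gn

open Pool.Agent.P.MP_874adf_gt.Fs Set Filter Topology Metric MeasureTheory

/-- weighted signed mass of the lines between `x` and `x + s y`, divided by `N` -/
noncomputable def bw (μ : Measure (ℝ × ℝ)) (Ψ : ℝ → ℝ) (x : P) (s N : ℝ) (W : ℝ × ℝ → ℝ) (β : ℝ)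
    (y : P) : ℝ :=
  ((∫ l, W l * (ind l (x + s • y) - ind l x) ∂μ) + β * (Ψ (x + s • y).2 - Ψ x.2)) / N

/-- convergence that is uniform on bounded sets -/
def ULim {ι : Type} (U : Filter ι) (f : ι → P → ℝ) (g : P → ℝ) : Prop :=
  ∀ R : ℝ, ∀ ε > (0 : ℝ), ∀ᶠ i in U, ∀ y ∈ closedBall (0 : P) R, |f i y - g y| ≤ ε

/-- the Crofton distance of two rescaled points -/
noncomputable def ce (μ : Measure (ℝ × ℝ)) (Ψ : ℝ → ℝ) (x : P) (s : ℝ) (y z : P) : ℝ :=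
  μ.real (sp (x + s • y) (x + s • z)) + |Ψ (x + s • z).2 - Ψ (x + s • y).2|

-- deps:
def S_HGFL : Prop := ∀ (ι : Type) (U : Ultrafilter ι) (μ : Measure (ℝ × ℝ)) (Ψ : ℝ → ℝ) (x : ι → P)
  (s N : ι → ℝ) (w : ι → ℝ × ℝ → ℝ) (K c ξ β : ℝ) (ψ : ℝ → ℝ) (b : P → ℝ),
  IsFiniteMeasure μ → Monotone Ψ → (∀ i, 0 < s i) → (∀ i, 0 < N i) →
  (∀ i, Measurable (w i)) → (∀ i l, |w i l| ≤ K) →
  Continuous ψ → HasCompactSupport ψ → β + ψ ξ = 0 →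
  (∃ C : ℝ, ∀ R ≥ (1 : ℝ), ∀ᶠ i in (U : Filter ι), ∀ y ∈ closedBall (0 : P) R,
    ∀ z ∈ closedBall (0 : P) R, ce μ Ψ (x i) (s i) y z ≤ C * R * N i) →
  (∀ R : ℝ, ∀ ε > (0 : ℝ), ∃ η > (0 : ℝ), ∀ᶠ i in (U : Filter ι), ∀ y ∈ closedBall (0 : P) R,
    ∀ z ∈ closedBall (0 : P) R, ‖z - y‖ ≤ η → ce μ Ψ (x i) (s i) y z ≤ ε * N i) →
  (∀ R : ℝ, ∀ ε > (0 : ℝ), ∀ᶠ i in (U : Filter ι), ∀ y ∈ closedBall (0 : P) R,
    ∀ z ∈ closedBall (0 : P) R, pr ξ y = pr ξ z →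
      |bw μ Ψ (x i) (s i) (N i) (w i) c z - bw μ Ψ (x i) (s i) (N i) (w i) c y| ≤ ε) →
  ULim (U : Filter ι) (fun i => bw μ Ψ (x i) (s i) (N i) (fun l => (β + ψ l.2) * w i l) (β * c)) b →
  ∀ y u v : P, b (y + u + v) - b (y + u) = b (y + v) - b y

-- redeps: HONG HGFL

end Pool.Agent.P.MP_874adf_gt.Gn
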