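import Pool.Agent.P.MP_874adf_gt.Gn.Iface0
import Pool.Agent.P.MP_874adf_gt.Gn.IfaceHg0
import Pool.Agent.P.MP_874adf_gt.Gn.HgA

/-! Step HONG. -/

set_option autoImplicit false

namespace Pool.Agent.P.MP_874adf_gt.Gn

open Pool.Agent.P.MP_874adf_gt.Fs Set Filter Topology Metric MeasureTheory

namespace HgB

open HgU HgA

variable {c : Ctx} {ι : Type} (S : Sys c ι)

lemma memB (i : ι) {k : ℝ} {y : P} (hy : y ∈ closedBall (0 : P) k) :
    S.x i + S.s i • y ∈ S.B k i := by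
  rw [mem_closedBall_zero_iff] at hy
  unfold Sys.B
  rw [mem_closedBall, dist_eq_norm, add_sub_cancel_left, norm_smul, Real.norm_eq_abs,
    abs_of_pos (S.s0 i), mul_comm]
  exact mul_le_mul_of_nonneg_right hy (S.s0 i).le

lemma small (k : ℝ) {ρ : ℝ} (ρ0 : 0 < ρ) :
    ∀ᶠ i in (S.U : Filter ι), S.s i < ρ ∧ ∀ y ∈ S.B k i, y ∈ ball (0 : P) ρ := by
  have t1 : Tendsto (fun i => ‖S.x i‖ + k * S.s i) S.U (𝓝 (‖(0 : P)‖ + k * 0)) :=
    S.tx.norm.add (S.ts.const_mul k)
  rw [norm_zero, mul_zero, add_zero] at t1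
  filter_upwards [t1.eventually (gt_mem_nhds ρ0), S.ts.eventually (gt_mem_nhds ρ0)] with i h1 h2
  refine ⟨h2, fun y hy => ?_⟩
  unfold Sys.B at hy
  rw [mem_closedBall, dist_eq_norm] at hy
  rw [mem_ball_zero_iff]
  have := norm_add_le (S.x i) (y - S.x i)
  rw [add_sub_cancel] at this
  linarith

lemma ce_eq (k : ℝ) : ∀ᶠ i in (S.U : Filter ι), ∀ y ∈ closedBall (0 : P) k,
    ∀ z ∈ closedBall (0 : P) k,
      ce c.μ c.Ψ (S.x i) (S.s i) y z = c.d (S.x i + S.s i • y) (S.x i + S.s i • z) := by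
  filter_upwards [small S k c.rho0] with i hi y hy z hz
  exact (c.crof.eq _ (hi.2 _ (memB S i hy)) _ (hi.2 _ (memB S i hz))).symm

lemma mT_le (μ : Measure (ℝ × ℝ)) [IsFiniteMeasure μ] {T r a b : ℝ} {x y : P}
    (hy : y ∈ closedBall x r) (h : a + (1 + |T|) * r ≤ b) : mT μ T y a ≤ mT μ T x b := by
  refine measureReal_mono fun l hl => ⟨hl.1, ?_⟩
  have h1 : |l.2| ≤ |T| := (abs_le.2 hl.1).trans (le_abs_self T)
  have h2 := MOVaux.pr_le h1 hy
  have h3 := abs_sub_le l.1 (pr l.2 y) (pr l.2 x)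
  linarith [hl.2]

lemma nsub (i : ι) (y z : P) :
    ‖S.x i + S.s i • z - (S.x i + S.s i • y)‖ = S.s i * ‖z - y‖ := by
  rw [add_sub_add_left_eq_sub, ← smul_sub, norm_smul, Real.norm_eq_abs, abs_of_pos (S.s0 i)]

lemma gr (db : S.DB) (go : S.Gro) : Gr (S.U : Filter ι) c.μ c.Ψ S.x S.s S.N := by
  have := c.crof.fin
  obtain ⟨K, K0, T, hK⟩ := db
  obtain ⟨C, C0, hC⟩ := go T
  refine ⟨K * (C * (2 * K + 1 + |T|)) + 1, fun R R1 => ?_⟩
  have T0 := abs_nonneg T
  filter_upwards [hK R 1 one_pos, hC ((2 * K + 1 + |T|) * R) (by nlinarith), ce_eq S R]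
    with i h1 h2 h3 y hy z hz
  rw [h3 y hy z hz]
  have a1 := h1 _ (memB S i hy) _ (memB S i hz)
  rw [nsub] at a1
  have a2 : ‖z - y‖ ≤ 2 * R := by
    rw [mem_closedBall_zero_iff] at hy hz
    linarith [norm_sub_le z y]
  have s0 := S.s0 i
  have N0 := S.N0 i
  have a3 := mT_le c.μ (T := T) (a := K * (S.s i * ‖z - y‖)) (b := (2 * K + 1 + |T|) * R * S.s i)
    (memB S i hy) (by
      have : K * (S.s i * ‖z - y‖) ≤ K * (S.s i * (2 * R)) := by gcongr
      nlinarith)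
  have a4 := mul_le_mul_of_nonneg_left (a3.trans h2) K0.le
  have a5 : 1 * S.N i ≤ R * S.N i := by gcongr
  nlinarith

lemma eqc (rg : Reg c) (db : S.DB) (go : S.Gro) :
    HgU.Eq (S.U : Filter ι) c.μ c.Ψ S.x S.s S.N := by
  have := c.crof.fin
  obtain ⟨K, K0, T, hK⟩ := db
  obtain ⟨C, C0, hC⟩ := go c.T0
  intro R ε ε0
  set R' := 1 + (1 + |c.T0|) * |R| with hR'
  have R1 : 1 ≤ R' := le_add_of_nonneg_right (by positivity)
  obtain ⟨η, η0, ρ, ρ0, hη⟩ := rg.lg T (ε / (2 * K * (C * R'))) (by positivity)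
  refine ⟨η / K, by positivity, ?_⟩
  filter_upwards [hK R (ε / 2) (by positivity), hC R' R1, ce_eq S R, small S R ρ0]
    with i h1 h2 h3 h4 y hy z hz hyz
  rw [h3 y hy z hz]
  have a1 := h1 _ (memB S i hy) _ (memB S i hz)
  rw [nsub] at a1
  have s0 := S.s0 i
  have N0 := S.N0 i
  have a2 := hη _ (h4.2 _ (memB S i hy)) _ s0 h4.1
  have a3 : mT c.μ T (S.x i + S.s i • y) (K * (S.s i * ‖z - y‖)) ≤
      mT c.μ T (S.x i + S.s i • y) (η * S.s i) :=
    mT_le c.μ (r := 0) (by simp) (by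
      rw [le_div_iff₀ K0] at hyz
      nlinarith)
  have a4 : mT c.μ c.T0 (S.x i + S.s i • y) (S.s i) ≤ mT c.μ c.T0 (S.x i) (R' * S.s i) :=
    mT_le c.μ (memB S i hy) (by
      have : (1 + |c.T0|) * (R * S.s i) ≤ (1 + |c.T0|) * (|R| * S.s i) := by
        gcongr
        exact le_abs_self R
      rw [hR']
      nlinarith)
  have a5 := (a3.trans a2).trans
    (mul_le_mul_of_nonneg_left (a4.trans h2) (by positivity : 0 ≤ ε / (2 * K * (C * R'))))
  have a6 := mul_le_mul_of_nonneg_left a5 K0.le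
  have e : K * (ε / (2 * K * (C * R')) * (C * R' * S.N i)) = ε / 2 * S.N i := by field_simp
  linarith

/-- the weight of a line in a relation -/
noncomputable def wt (X : Fin 3 → P) (α : Fin 3 → ℝ) (l : ℝ × ℝ) : ℝ :=
  ∑ j, α j * (1 - 2 * ind l (X j))

lemma one_ind (l : ℝ × ℝ) (X : P) : |1 - 2 * ind l X| ≤ 1 := by
  rcases ind01 l X with h | h <;> norm_num [h]

lemma wt_meas (X : Fin 3 → P) (α : Fin 3 → ℝ) : Measurable (wt X α) :=
  Finset.measurable_sum _ fun j _ =>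
    (measurable_const.sub ((meas_ind (X j)).const_mul 2)).const_mul _

lemma wt_le (X : Fin 3 → P) (α : Fin 3 → ℝ) (l : ℝ × ℝ) : |wt X α l| ≤ ∑ j, |α j| := by
  refine (Finset.abs_sum_le_sum_abs _ _).trans (Finset.sum_le_sum fun j _ => ?_)
  rw [abs_mul]
  exact mul_le_of_le_one_right (abs_nonneg _) (one_ind l _)

lemma sp_int (μ : Measure (ℝ × ℝ)) (X y : P) :
    μ.real (sp X y) = ∫ l, (1 - 2 * ind l X) * (ind l y - ind l X) ∂μ := by
  rw [← integral_indicator_one (MOVaux.meas_sp X y)]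
  refine integral_congr_ae (Eventually.of_forall fun l => ?_)
  simp only [← abs_ind]
  rcases ind01 l X with h | h <;> rcases ind01 l y with h' | h' <;> norm_num [h, h']

/-- increments of a distance function from a point below -/
lemma ef {X y z : P} (hX : X ∈ ball (0 : P) c.ρ0) (hy : y ∈ ball (0 : P) c.ρ0)
    (hz : z ∈ ball (0 : P) c.ρ0) (h1 : X.2 ≤ y.2) (h2 : X.2 ≤ z.2) :
    c.d X z - c.d X y = (∫ l, (1 - 2 * ind l X) * (ind l z - ind l y) ∂c.μ) +
      (c.Ψ z.2 - c.Ψ y.2) := by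
  have := c.crof.fin
  have m : Measurable fun l => 1 - 2 * ind l X := measurable_const.sub ((meas_ind X).const_mul 2)
  rw [c.crof.eq X hX z hz, c.crof.eq X hX y hy, abs_of_nonneg (sub_nonneg.2 (c.crof.mono h1)),
    abs_of_nonneg (sub_nonneg.2 (c.crof.mono h2)), sp_int, sp_int]
  have e : (∫ l, (1 - 2 * ind l X) * (ind l z - ind l y) ∂c.μ) =
      (∫ l, (1 - 2 * ind l X) * (ind l z - ind l X) ∂c.μ) -
        ∫ l, (1 - 2 * ind l X) * (ind l y - ind l X) ∂c.μ := by
    rw [← integral_sub (integ c.μ m (fun l => one_ind l X) _ _)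
      (integ c.μ m (fun l => one_ind l X) _ _)]
    refine integral_congr_ae (Eventually.of_forall fun l => ?_)
    ring
  rw [e]
  ring

/-- the Fourier lemma applied to a relation -/
lemma fl (hF : S_HGFL) (rg : Reg c) (db : S.DB) (go : S.Gro) {X : Fin 3 → ι → P}
    {t α : Fin 3 → ℝ} {ξ : ℝ} (far : ∀ j, S.Far 1 (X j) (t j)) (lin : S.Lin X α ξ) {β : ℝ}
    {ψ : ℝ → ℝ} (c1 : Continuous ψ) (c2 : HasCompactSupport ψ) (h : β + ψ ξ = 0) :
    TI (S.U : Filter ι) fun i => bw c.μ c.Ψ (S.x i) (S.s i) (S.N i)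
      (fun l => (β + ψ l.2) * wt (fun j => X j i) α l) (β * ∑ j, α j) := by
  have := c.crof.fin
  obtain ⟨K, hK⟩ := bdd c1 c2
  obtain ⟨b, -, hb⟩ := bw_lim S.U c.μ S.N0 (gr S db go) (eqc S rg db go)
    (W := fun i l => (β + ψ l.2) * wt (fun j => X j i) α l)
    (fun i => (measurable_const.add (c1.measurable.comp measurable_snd)).mul (wt_meas _ _))
    (K := (|β| + K) * ∑ j, |α j|) (fun i l => by
      rw [abs_mul]
      exact mul_le_mul ((abs_add_le _ _).trans (by linarith [hK l.2])) (wt_le _ _ _) (abs_nonneg _)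
        (by linarith [abs_nonneg β, (abs_nonneg _).trans (hK 0)])) (β * ∑ j, α j)
  refine TI.of_lim hb (hF ι S.U c.μ c.Ψ S.x S.s S.N (fun i => wt (fun j => X j i) α) (∑ j, |α j|)
    (∑ j, α j) ξ β ψ b this c.crof.mono S.s0 S.N0 (fun i => wt_meas _ _) (fun i l => wt_le _ _ _)
    c1 c2 h (gr S db go) (eqc S rg db go) ?_ hb)
  intro R ε ε0
  have fa : ∀ᶠ i in (S.U : Filter ι), ∀ j, X j i ∈ ball (0 : P) c.ρ0 ∧
      ∀ y ∈ S.B R i, R * S.s i ≤ 1 * (y.2 - (X j i).2) ∧ |sl y (X j i) - t j| ≤ 1 :=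
    eventually_all.2 fun j => far j R 1 one_pos
  filter_upwards [lin R ε ε0, fa, small S R c.rho0] with i h1 h2 h3 y hy z hz hyz
  have R0 : 0 ≤ R * S.s i :=
    mul_nonneg ((norm_nonneg y).trans (mem_closedBall_zero_iff.1 hy)) (S.s0 i).le
  have my := memB S i hy
  have mz := memB S i hz
  have a1 := h1 _ my _ mz (by rw [pr_add, pr_add, pr_smul, pr_smul, hyz])
  rw [bw_sub c.μ c.Ψ _ _ _ (wt_meas _ _) (wt_le _ _), abs_div, abs_of_pos (S.N0 i),
    div_le_iff₀ (S.N0 i)]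
  refine le_of_eq_of_le (congrArg _ ?_) a1
  have a2 : ∀ j, c.d (X j i) (S.x i + S.s i • z) - c.d (X j i) (S.x i + S.s i • y) = _ := fun j =>
    ef (h2 j).1 (h3.2 _ my) (h3.2 _ mz) (by linarith [((h2 j).2 _ my).1])
      (by linarith [((h2 j).2 _ mz).1])
  simp only [a2, mul_add, Finset.sum_add_distrib, ← Finset.sum_mul, ← integral_const_mul]
  congr 1
  rw [← integral_finset_sum]
  · refine integral_congr_ae (Eventually.of_forall fun l => ?_)
    simp only [wt, Finset.sum_mul, mul_assoc]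
  · intro j _
    exact (integ c.μ (measurable_const.sub ((meas_ind (X j i)).const_mul 2))
      (fun l => one_ind l _) _ _).const_mul _

/-- on the lines that matter the weight depends on the slope only -/
lemma wt_eq {X : Fin 3 → ι → P} {t : Fin 3 → ℝ} (α : Fin 3 → ℝ)
    (far : ∀ j, S.Far 1 (X j) (t j)) (y : P) {η : ℝ} (η0 : 0 < η) :
    ∀ᶠ i in (S.U : Filter ι), ∀ l ∈ sp (S.x i) (S.x i + S.s i • y), (∀ j, η < |l.2 - t j|) →
      wt (fun j => X j i) α l = ∑ j, α j * Real.sign (t j - l.2) := by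
  have fa : ∀ᶠ i in (S.U : Filter ι), ∀ j, X j i ∈ ball (0 : P) c.ρ0 ∧
      ∀ w ∈ S.B (‖y‖ + 1) i, (‖y‖ + 1) * S.s i ≤ 1 * (w.2 - (X j i).2) ∧
        |sl w (X j i) - t j| ≤ η :=
    eventually_all.2 fun j => far j _ η η0
  filter_upwards [fa] with i h l hl hη
  obtain ⟨w, hw, ew⟩ := MOVaux.line_pt hl
  have s0 := S.s0 i
  have mw : w ∈ S.B (‖y‖ + 1) i :=
    (convex_closedBall _ _).segment_subset (mem_closedBall_self (by positivity))
      (memB S i (by simp)) hw
  refine Finset.sum_congr rfl fun j _ => ?_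
  obtain ⟨a1, a2⟩ := (h j).2 w mw
  have h0 : 0 < w.2 - (X j i).2 := by
    have : 0 < (‖y‖ + 1) * S.s i := by positivity
    linarith
  have e := MOVaux.side (θ := l.2) h0.ne'
  rw [ew] at e
  rw [abs_le] at a2
  congr 1
  rcases lt_abs.1 (hη j) with b | b
  · have : l.1 < pr l.2 (X j i) := by nlinarith [mul_pos h0 (by linarith : 0 < l.2 - sl w (X j i))]
    rw [Real.sign_of_neg (by linarith)]
    norm_num [ind, this]
  · have : ¬ l.1 < pr l.2 (X j i) := by
      nlinarith [mul_pos h0 (by linarith : 0 < sl w (X j i) - l.2)]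
    rw [Real.sign_of_pos (by linarith)]
    norm_num [ind, this]

lemma sign_eq {a b : ℝ} (h : |b - a| < |a|) : Real.sign b = Real.sign a := by
  rcases lt_trichotomy a 0 with h0 | h0 | h0
  · rw [abs_of_neg h0, abs_lt] at h
    rw [Real.sign_of_neg h0, Real.sign_of_neg (by linarith)]
  · rw [h0, abs_zero] at h
    exact absurd h (not_lt.2 (abs_nonneg _))
  · rw [abs_of_pos h0, abs_lt] at h
    rw [Real.sign_of_pos h0, Real.sign_of_pos (by linarith)]

lemma window (hF : S_HGFL) (rg : Reg c) (db : S.DB) (go : S.Gro) {X : Fin 3 → ι → P}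
    {t α : Fin 3 → ℝ} {ξ : ℝ} (far : ∀ j, S.Far 1 (X j) (t j)) (lin : S.Lin X α ξ) {θ : ℝ}
    (h : Sees t α ξ θ) : ∃ η > (0 : ℝ), ∀ ψ : ℝ → ℝ, Continuous ψ → HasCompactSupport ψ →
      (∀ r, η ≤ |r - θ| → ψ r = 0) →
        TI (S.U : Filter ι) fun i => bw c.μ c.Ψ (S.x i) (S.s i) (S.N i) (fun l => ψ l.2) 0 := by
  obtain ⟨h1, h2, h3⟩ := h
  have p0 : ∀ j, 0 < |t j - θ| := fun j => abs_pos.2 (sub_ne_zero.2 (h2 j).symm)
  have p1 : 0 < |ξ - θ| := abs_pos.2 (sub_ne_zero.2 h1.symm)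
  obtain ⟨η, η0, e1, e2⟩ : ∃ η > (0 : ℝ), η ≤ |ξ - θ| ∧ ∀ j, 2 * η ≤ |t j - θ| := by
    refine ⟨min |ξ - θ| (min (|t 0 - θ| / 2) (min (|t 1 - θ| / 2) (|t 2 - θ| / 2))), ?_,
      min_le_left _ _, fun j => ?_⟩
    · have := p0 0
      have := p0 1
      have := p0 2
      positivity
    · have m1 := min_le_right |ξ - θ| (min (|t 0 - θ| / 2) (min (|t 1 - θ| / 2) (|t 2 - θ| / 2)))
      have m2 := min_le_left (|t 0 - θ| / 2) (min (|t 1 - θ| / 2) (|t 2 - θ| / 2))
      have m3 := min_le_right (|t 0 - θ| / 2) (min (|t 1 - θ| / 2) (|t 2 - θ| / 2))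
      have m4 := min_le_left (|t 1 - θ| / 2) (|t 2 - θ| / 2)
      have m5 := min_le_right (|t 1 - θ| / 2) (|t 2 - θ| / 2)
      fin_cases j <;> simp only [Fin.zero_eta, Fin.mk_one, Fin.reduceFinMk] <;> linarith
  refine ⟨η, η0, fun ψ c1 c2 c3 => ?_⟩
  set w0 := ∑ j, α j * Real.sign (t j - θ) with hw
  refine (fl S hF rg db go far lin (β := 0) (ψ := fun r => ψ r * w0⁻¹) (by fun_prop) c2.mul_right
    (by rw [c3 ξ e1]; simp)).congr fun y => ?_
  filter_upwards [wt_eq S α far y η0] with i hi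
  rw [zero_mul]
  refine bw_congr _ _ _ _ _ _ _ fun l hl => ?_
  by_cases hr : η ≤ |l.2 - θ|
  · simp [c3 _ hr]
  · rw [not_le] at hr
    rw [hi l hl fun j => by
      have := abs_sub_le (t j) l.2 θ
      rw [abs_sub_comm]
      linarith [e2 j]]
    have : ∑ j, α j * Real.sign (t j - l.2) = w0 := Finset.sum_congr rfl fun j _ => by
      rw [sign_eq (a := t j - θ)]
      rw [sub_sub_sub_cancel_left, abs_sub_comm]
      linarith [e2 j]
    rw [this]
    field_simp
    ring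

/-- a cut-off function -/
noncomputable def cut (T r : ℝ) : ℝ := max 0 (min 1 (T + 1 - |r|))

lemma cut_cont (T : ℝ) : Continuous (cut T) := by
  unfold cut
  fun_prop

lemma cut_supp (T : ℝ) : HasCompactSupport (cut T) := by
  refine HasCompactSupport.intro (isCompact_Icc (a := -(T + 1)) (b := T + 1)) fun r hr => ?_
  have : T + 1 < |r| := not_le.1 fun h => hr (abs_le.1 h)
  exact max_eq_left (min_le_of_right_le (by linarith))

lemma cut_one {T r : ℝ} (h : |r| ≤ T) : cut T r = 1 := by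
  unfold cut
  rw [min_eq_left (by linarith), max_eq_right zero_le_one]

lemma cut_le (T r : ℝ) : |1 - cut T r| ≤ 1 := by
  have h1 : 0 ≤ cut T r := le_max_left _ _
  have h2 : cut T r ≤ 1 := max_le zero_le_one (min_le_left _ _)
  rw [abs_le]
  constructor <;> linarith

lemma steep (hF : S_HGFL) (rg : Reg c) (db : S.DB) (go : S.Gro) {X : Fin 3 → ι → P}
    {t α : Fin 3 → ℝ} {ξ : ℝ} (far : ∀ j, S.Far 1 (X j) (t j)) (lin : S.Lin X α ξ)
    (h : ∑ j, α j ≠ 0) {T a η : ℝ} (η0 : 0 < η) (η1 : η ≤ 1) (T1 : |ξ| ≤ T)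
    (T2 : ∀ j, |t j| + 1 ≤ T) (T3 : |a| + 1 ≤ T) :
    TI (S.U : Filter ι) fun i => bw c.μ c.Ψ (S.x i) (S.s i) (S.N i)
      (fun l => (1 - cut T l.2) * sg a η l.2) 1 := by
  refine (fl S hF rg db go far lin (β := (∑ j, α j)⁻¹) (ψ := fun r => cut T r * -(∑ j, α j)⁻¹)
    ((cut_cont T).mul continuous_const) (cut_supp T).mul_right
    (by rw [cut_one T1]; simp)).congr fun y => ?_
  filter_upwards [wt_eq S α far y one_pos] with i hi
  rw [inv_mul_cancel₀ h]
  refine bw_congr _ _ _ _ _ _ _ fun l hl => ?_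
  by_cases hr : |l.2| ≤ T
  · simp [cut_one hr]
  · rw [not_le] at hr
    rw [hi l hl fun j => by
      have := abs_sub_abs_le_abs_sub l.2 (t j)
      linarith [T2 j]]
    have : ∑ j, α j * Real.sign (t j - l.2) = (∑ j, α j) * sg a η l.2 := by
      rw [Finset.sum_mul]
      refine Finset.sum_congr rfl fun j _ => ?_
      have b1 := abs_le.1 (le_refl |t j|)
      have b2 := abs_le.1 (le_refl |a|)
      have b3 := T2 j
      rcases lt_abs.1 hr with b | b
      · rw [Real.sign_of_neg (by linarith), sg_neg η0 (by linarith)]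
      · rw [Real.sign_of_pos (by linarith), sg_pos η0 (by linarith)]
    rw [this]
    field_simp
    ring

lemma pos (rg : Reg c) {v : P} (hv : v ≠ 0) :
    ∃ κ > (0 : ℝ), ∀ᶠ i in (S.U : Filter ι), κ ≤ ce c.μ c.Ψ (S.x i) (S.s i) 0 v / S.N i := by
  have := c.crof.fin
  obtain ⟨b, hb, κ, κ0, hκ⟩ : ∃ b ≤ 1 - c.T0, ∃ κ > (0 : ℝ), ∀ θ ≤ b, κ ≤ |pr θ v| := by
    by_cases h : v.2 = 0
    · refine ⟨_, le_rfl, |v.1|, abs_pos.2 fun h1 => hv (Prod.ext h1 h), fun θ _ => ?_⟩
      simp [pr, h]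
    · refine ⟨min (1 - c.T0) (v.1 / v.2 - 1), min_le_left _ _, |v.2|, abs_pos.2 h, fun θ hθ => ?_⟩
      have e : pr θ v = v.2 * (v.1 / v.2 - θ) := by
        unfold pr
        field_simp
      have := hθ.trans (min_le_right _ _)
      rw [e, abs_mul]
      exact le_mul_of_one_le_right (abs_nonneg _) (le_abs.2 (Or.inl (by linarith)))
  have ng : Neg (ln c.G) b := by
    obtain ⟨z, z1, z2⟩ := c.neg
    exact ⟨z, z1, hb.trans_lt z2⟩
  set k := 1 + ‖v‖ + 4 / κ with hk
  have k4 : 0 < 4 / κ := by positivity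
  have k1 : 1 ≤ k := by linarith [norm_nonneg v]
  obtain ⟨C, C0, ρ, ρ0, hC⟩ := rg.cmp c.T0 (b - 1) b (by linarith) ng k k1
  obtain ⟨C', C1, hC'⟩ := S.cmp
  refine ⟨(C' * C)⁻¹, by positivity, ?_⟩
  filter_upwards [hC', small S 0 ρ0] with i h1 h2
  have s0 := S.s0 i
  have N0 := S.N0 i
  have mm : (2⁻¹ : ℝ) • v ∈ closedBall (0 : P) k := by
    rw [mem_closedBall_zero_iff, norm_smul, Real.norm_eq_abs, abs_of_pos (by norm_num)]
    linarith [norm_nonneg v]
  have a1 := hC _ (h2.2 _ (mem_closedBall_self (by simp))) _ s0 h2.1 _ (memB S i mm)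
  have a2 : mT c.μ c.T0 (S.x i) (S.s i) ≤ mT c.μ c.T0 (S.x i) (k * S.s i) :=
    mT_le c.μ (r := 0) (by simp) (by nlinarith)
  have a3 : mw c.μ (Icc (b - 1) b) (S.x i + S.s i • (2⁻¹ : ℝ) • v) (S.s i / k) ≤
      c.μ.real (sp (S.x i + S.s i • (0 : P)) (S.x i + S.s i • v)) := by
    refine measureReal_mono fun l hl => ?_
    obtain ⟨l1, l2⟩ := hl
    have b1 := hκ l.2 l1.2
    have b2 : S.s i / k ≤ S.s i * κ / 4 := by
      rw [div_le_iff₀ (by linarith)]
      have : 4 / κ ≤ k := by linarith [norm_nonneg v]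
      rw [div_le_iff₀ κ0] at this
      nlinarith
    have b3 : 0 < S.s i * κ := by positivity
    rw [pr_add, pr_smul, pr_smul, abs_le] at l2
    simp only [sp, mem_ofPred_eq, smul_zero, add_zero, pr_add, pr_smul]
    rcases le_abs.1 b1 with b4 | b4
    · have := mul_le_mul_of_nonneg_left b4 s0.le
      intro hh
      have := hh.2 (by linarith)
      linarith
    · have := mul_le_mul_of_nonneg_left b4 s0.le
      intro hh
      have := hh.1 (by linarith)
      linarith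
  have a4 : S.N i ≤ C' * (C * ce c.μ c.Ψ (S.x i) (S.s i) 0 v) := by
    refine h1.2.trans (mul_le_mul_of_nonneg_left ((a2.trans a1).trans
      (mul_le_mul_of_nonneg_left (a3.trans ?_) C0.le)) C1.le)
    exact le_add_of_nonneg_right (abs_nonneg _)
  rw [le_div_iff₀ N0, inv_mul_le_iff₀ (by positivity)]
  linarith

end HgB

open HgU HgA HgB in
theorem p_HONG (hHGFL : S_HGFL) :
    S_HONG := by
  intro c rg ι S db go X t α ξ far lin h0 sees
  have := c.crof.fin
  obtain ⟨D, Dc, Dt, Du⟩ := dist_lim S.U c.μ S.N0 (gr S db go) (eqc S rg db go)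
  have all : ∀ a η : ℝ, 0 < η → η ≤ 1 → TI (S.U : Filter ι) fun i =>
      bw c.μ c.Ψ (S.x i) (S.s i) (S.N i) (fun l => sg a η l.2) 1 := by
    intro a η η0 η1
    set T := |ξ 0| + ∑ j, |t 0 j| + |a| + 1 with hT
    have q0 : 0 ≤ ∑ j, |t 0 j| := Finset.sum_nonneg fun j _ => abs_nonneg _
    have q1 : ∀ j, |t 0 j| ≤ ∑ j, |t 0 j| := fun j =>
      Finset.single_le_sum (f := fun j => |t 0 j|) (fun j _ => abs_nonneg _) (Finset.mem_univ j)
    have q2 := abs_nonneg (ξ 0)
    have q3 := abs_nonneg a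
    have s1 := steep S hHGFL rg db go (far 0) (lin 0) h0 (T := T) (a := a) η0 η1 (by linarith)
      (fun j => by linarith [q1 j]) (by linarith)
    have g1 : Continuous fun r => cut T r * sg a η r := (cut_cont T).mul (sg_cont a η)
    have g2 : HasCompactSupport fun r => cut T r * sg a η r := (cut_supp T).mul_right
    have s2 := glue (U := (S.U : Filter ι)) c.μ (Ψ := c.Ψ) (x := S.x) (s := S.s) (N := S.N)
      (fun θ => by
        obtain ⟨e, he⟩ := sees θ
        exact window S hHGFL rg db go (far e) (lin e) he) g1 g2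
    refine (s1.add s2).congr fun y => Eventually.of_forall fun i => ?_
    obtain ⟨K, hK⟩ := bdd g1 g2
    have g3 : Continuous fun r => (1 - cut T r) * sg a η r :=
      (continuous_const.sub (cut_cont T)).mul (sg_cont a η)
    rw [bw_add c.μ c.Ψ _ _ _ (W := fun l => (1 - cut T l.2) * sg a η l.2)
      (W' := fun l => cut T l.2 * sg a η l.2) (g3.measurable.comp measurable_snd)
      (g1.measurable.comp measurable_snd) (K := 1) (fun l => by
        rw [abs_mul]
        exact mul_le_one₀ (cut_le _ _) (abs_nonneg _) (sg_le _ _ _)) (fun l => hK l.2), add_zero]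
    refine bw_congr _ _ _ _ _ _ _ fun l _ => ?_
    ring
  have inv := invar c.μ c.crof.mono S.s0 S.N0 (eqc S rg db go) all Dc Dt
  have tr : ∀ y z : P, D (y, z) = D (0, z - y) := fun y z => by
    have := inv 0 (z - y) y
    simpa using this
  have sy : ∀ a b : P, D (a, b) = D (b, a) := fun a b =>
    tendsto_nhds_unique (Dt (a, b)) ((Dt (b, a)).congr fun i => by rw [ce_symm])
  refine ⟨fun v => D (0, v), ⟨homog (H := fun v => D (0, v)) (by fun_prop) (fun v => ?_) (fun v a b a0 b0 => ?_),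
    fun v w => ?_, fun v hv => ?_⟩, fun k ε ε0 => ?_⟩
  · rw [sy 0 v, tr v 0, zero_sub]
  · have e : D (0, b • v) = D (a • v, (a + b) • v) := by rw [tr (a • v), add_smul, add_sub_cancel_left]
    rw [e]
    refine tendsto_nhds_unique (Dt (0, (a + b) • v))
      (((Dt (0, a • v)).add (Dt (a • v, (a + b) • v))).congr' ?_)
    have m0 : (0 : P) ∈ closedBall (0 : P) ((a + b) * ‖v‖) := mem_closedBall_self (by positivity)
    have m1 : a • v ∈ closedBall (0 : P) ((a + b) * ‖v‖) := by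
      rw [mem_closedBall_zero_iff, norm_smul, Real.norm_eq_abs, abs_of_nonneg a0]
      nlinarith [norm_nonneg v]
    have m2 : (a + b) • v ∈ closedBall (0 : P) ((a + b) * ‖v‖) := by
      rw [mem_closedBall_zero_iff, norm_smul, Real.norm_eq_abs, abs_of_nonneg (by linarith)]
    filter_upwards [ce_eq S ((a + b) * ‖v‖), small S ((a + b) * ‖v‖) c.rho0] with i h1 h2
    rw [← add_div, h1 _ m0 _ m1, h1 _ m1 _ m2, h1 _ m0 _ m2]
    congr 1
    refine (c.gp.pm.straight _ (c.sub (h2.2 _ (memB S i m0))) _ (c.sub (h2.2 _ (memB S i m1))) _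
      (c.sub (h2.2 _ (memB S i m2)))).2 ?_
    rcases (add_nonneg a0 b0).eq_or_lt with e0 | e0
    · have : a = 0 := by linarith
      rw [this, zero_smul]
      exact left_mem_segment _ _ _
    · refine ⟨b / (a + b), a / (a + b), by positivity, by positivity, by field_simp; ring, ?_⟩
      have ne := e0.ne'
      refine Prod.ext ?_ ?_ <;>
        simp only [Prod.fst_add, Prod.snd_add, Prod.smul_fst, Prod.smul_snd, smul_eq_mul,
          Prod.fst_zero, Prod.snd_zero] <;> field_simp <;> ring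
  · have e : D (0, w) = D (v, v + w) := by rw [tr v, add_sub_cancel_left]
    rw [e]
    refine le_of_tendsto_of_tendsto' (Dt (0, v + w)) ((Dt (0, v)).add (Dt (v, v + w))) fun i => ?_
    rw [← add_div]
    exact div_le_div_of_nonneg_right (ce_tri _ _ _ _ _ _ _) (S.N0 i).le
  · obtain ⟨κ, κ0, hκ⟩ := pos S rg hv
    exact κ0.trans_le (ge_of_tendsto (Dt (0, v)) hκ)
  · filter_upwards [Du k ε ε0, ce_eq S k] with i h1 h2 y hy z hz
    have := h1 (y, z) (by
      rw [mem_closedBall_zero_iff] at hy hz ⊢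
      exact max_le hy hz)
    rw [Real.norm_eq_abs, h2 y hy z hz, tr y z] at this
    have N0 := S.N0 i
    have e : c.d (S.x i + S.s i • y) (S.x i + S.s i • z) - S.N i * D (0, z - y) =
        (c.d (S.x i + S.s i • y) (S.x i + S.s i • z) / S.N i - D (0, z - y)) * S.N i := by
      field_simp
    rw [e, abs_mul, abs_of_pos N0]
    exact mul_le_mul_of_nonneg_right this N0.le

end Pool.Agent.P.MP_874adf_gt.Gn
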