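import Pool.Agent.P.MP_874adf_gt.Gn.IfaceF
import Pool.Agent.P.MP_874adf_gt.Gn.BasS

/-! Step KA. -/

set_option autoImplicit false

namespace Pool.Agent.P.MP_874adf_gt.Gn

open Pool.Agent.P.MP_874adf_gt.Fs Set Filter Topology Metric MeasureTheory

/-- the staircase estimate in linear form -/
lemma ka_lin {d : P → P → ℝ} {D : Dat} {Q : Set P} {lv k δ ε : ℝ} (hδ : 0 < δ)
    (h : Stair d D Q lv k δ ε) : ∃ ρ : ℝ, ∀ u ∈ Q, ∀ w ∈ Q, |d (dO D) u - lv| ≤ k →
      |d (dO D) w - lv| ≤ k →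
      |hf d D w - hf d D u - ρ * (d (dO D) w - d (dO D) u)| ≤ ε + |ρ| * δ := by
  obtain ⟨dd, h⟩ := h
  have key : ∀ u ∈ Q, ∀ w ∈ Q, |d (dO D) u - lv| ≤ k → |d (dO D) w - lv| ≤ k →
      0 ≤ d (dO D) w - d (dO D) u →
      |hf d D w - hf d D u - dd / δ * (d (dO D) w - d (dO D) u)| ≤ ε + |dd / δ| * δ := by
    intro u hu w hw lu lw h0
    set b := d (dO D) w - d (dO D) u with hb
    have f1 : (⌊b / δ⌋₊ : ℝ) * δ ≤ b := by
      rw [← le_div_iff₀ hδ]
      exact Nat.floor_le (by positivity)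
    have f2 : b ≤ ((⌊b / δ⌋₊ : ℝ) + 1) * δ := by
      rw [← div_le_iff₀ hδ]
      exact (Nat.lt_floor_add_one _).le
    obtain ⟨a1, a2⟩ := h u hu w hw lu lw ⌊b / δ⌋₊ f1 f2
    set m : ℝ := (⌊b / δ⌋₊ : ℝ)
    set ρ := dd / δ with hρ
    have e : dd = ρ * δ := by rw [hρ]; field_simp
    rw [e] at a1 a2
    have g1 : ρ * (b - m * δ) ≤ |ρ| * δ :=
      (mul_le_mul_of_nonneg_right (le_abs_self ρ) (by linarith)).trans
        (mul_le_mul_of_nonneg_left (by linarith) (abs_nonneg ρ))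
    have g2 : ρ * ((m + 1) * δ - b) ≤ |ρ| * δ :=
      (mul_le_mul_of_nonneg_right (le_abs_self ρ) (by linarith)).trans
        (mul_le_mul_of_nonneg_left (by linarith) (abs_nonneg ρ))
    rw [abs_le]
    constructor <;> nlinarith
  refine ⟨dd / δ, fun u hu w hw lu lw => ?_⟩
  rcases le_total 0 (d (dO D) w - d (dO D) u) with h0 | h0
  · exact key u hu w hw lu lw h0
  · have := key w hw u hu lw lu (by linarith)
    rw [← abs_neg] at this
    convert this using 2
    ring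

/-- the numerical conclusion -/
lemma ka_real {c3 C3 k η N δ ρ q κ H b : ℝ} (hc : 0 < c3) (hN : 0 < N) (hk : 0 ≤ k) (hδ0 : 0 ≤ δ)
    (hδ : δ ≤ c3 / 2) (hη1 : η ≤ 1) (hq : |q| * c3 ≤ C3) (hR : 2 * (C3 + 1) / c3 * δ ≤ η)
    (h1 : |q * (c3 * N) - ρ * (c3 * N)| ≤ η * N + |ρ| * (δ * N))
    (h2 : |H - ρ * b| ≤ η * N + |ρ| * (δ * N)) (hb : |b| ≤ 2 * k * N) (hκ : |q - κ| ≤ η) :
    |H - κ * b| ≤ η * (2 + 4 * k / c3 + 2 * k) * N := by
  have r0 := abs_nonneg ρ
  have a1 : |q - ρ| * c3 ≤ η + |ρ| * δ := by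
    rw [← sub_mul, abs_mul, abs_of_pos (mul_pos hc hN)] at h1
    refine le_of_mul_le_mul_right ?_ hN
    linarith
  have a2 : |ρ| ≤ |q| + |q - ρ| := by
    have := abs_sub q (q - ρ)
    rwa [sub_sub_cancel] at this
  have a3 : |ρ| ≤ 2 * (C3 + 1) / c3 := by
    rw [le_div_iff₀ hc]
    have := mul_le_mul_of_nonneg_right a2 hc.le
    have := mul_le_mul_of_nonneg_left hδ r0
    nlinarith
  have a4 : |ρ| * δ ≤ η := (mul_le_mul_of_nonneg_right a3 hδ0).trans hR
  have a5 : |q - ρ| ≤ 2 * η / c3 := by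
    rw [le_div_iff₀ hc]
    linarith
  have a6 : |ρ - κ| ≤ 2 * η / c3 + η := by
    have := abs_sub_le ρ q κ
    rw [abs_sub_comm ρ q] at this
    linarith
  have a7 : |H - κ * b| ≤ |H - ρ * b| + |ρ - κ| * |b| := by
    rw [← abs_mul]
    have := abs_add_le (H - ρ * b) ((ρ - κ) * b)
    rwa [show H - ρ * b + (ρ - κ) * b = H - κ * b by ring] at this
  have a8 : |ρ - κ| * |b| ≤ (2 * η / c3 + η) * (2 * k * N) :=
    mul_le_mul a6 hb (abs_nonneg _) ((abs_nonneg _).trans a6)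
  have a9 : |ρ| * (δ * N) ≤ η * N := by
    rw [← mul_assoc]
    exact mul_le_mul_of_nonneg_right a4 hN.le
  have e : η * (2 + 4 * k / c3 + 2 * k) * N = η * N + η * N + (2 * η / c3 + η) * (2 * k * N) := by
    ring
  linarith

/-- two distance functions from far points differ by a bounded amount -/
lemma ka_two {c : Ctx} (R : Reg c) {ι : Type} (S : Sys c ι) {X X' : ι → P} {t t' : ℝ}
    (hX : S.Far 1 X t) (hX' : S.Far 1 X' t') {k : ℝ} (hk : 0 < k) : ∃ C > (0 : ℝ),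
    ∀ᶠ i in (S.U : Filter ι), ∀ y ∈ S.B k i, ∀ z ∈ S.B k i,
      |c.d (X i) z - c.d (X i) y - (c.d (X' i) z - c.d (X' i) y)| ≤ C * S.N i := by
  have := c.crof.fin
  set T := |t| + |t'| + 1 with hT
  have T0 : 0 < T := by positivity
  obtain ⟨C, C0, hC⟩ := S.up R T ((1 + T) * k)
  refine ⟨2 * C, by positivity, ?_⟩
  filter_upwards [hC, hX k 1 one_pos, hX' k 1 one_pos, S.ev_ball k c.rho0] with i a b b' e y hy z hz
  have s0 := S.s0 i
  have ks : 0 < k * S.s i := by positivity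
  have sg : Sg 1 := Or.inl rfl
  rw [c.crof.two sg b.1 b'.1 (e.1 hy) (e.1 hz) (ks.le.trans (b.2 y hy).1) (ks.le.trans (b.2 z hz).1)
    (ks.le.trans (b'.2 y hy).1) (ks.le.trans (b'.2 z hz).1)]
  have m : c.μ.real (sp y z ∩ sp (X i) (X' i)) ≤ C * S.N i := by
    refine le_trans ?_ (a (S.x i) (mem_closedBall_self (by positivity)))
    refine measureReal_mono fun l hl => ?_
    obtain ⟨w, hw, el⟩ := sp_cross hl.1
    have wB : w ∈ S.B k i := (convex_closedBall _ _).segment_subset hy hz hw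
    have sl1 := sp_slope sg (ks.trans_le (b.2 w wB).1) (ks.trans_le (b'.2 w wB).1) el hl.2
    have p1 := abs_le.1 (b.2 w wB).2
    have p2 := abs_le.1 (b'.2 w wB).2
    have q1 := abs_le.1 (le_refl |t|)
    have q2 := abs_le.1 (le_refl |t'|)
    have q3 := abs_nonneg t
    have q4 := abs_nonneg t'
    have lT : l.2 ∈ Icc (-T) T := by
      rcases mem_uIcc.1 sl1 with g | g <;> constructor <;> linarith [g.1, g.2]
    refine ⟨lT, (sp_near hy hz hl.1).trans ?_⟩
    rw [mul_assoc]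
    exact mul_le_mul_of_nonneg_right (by linarith [abs_le.2 lT]) ks.le
  have m1 : c.μ.real (sp y z ∩ sp (X i) (X' i) ∩ sp (X i) z) ≤ C * S.N i :=
    (measureReal_mono inter_subset_left).trans m
  have m2 : c.μ.real (sp y z ∩ sp (X i) (X' i) ∩ sp (X i) y) ≤ C * S.N i :=
    (measureReal_mono inter_subset_left).trans m
  have n1 : 0 ≤ c.μ.real (sp y z ∩ sp (X i) (X' i) ∩ sp (X i) z) := measureReal_nonneg
  have n2 : 0 ≤ c.μ.real (sp y z ∩ sp (X i) (X' i) ∩ sp (X i) y) := measureReal_nonneg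
  rw [abs_le]
  constructor <;> linarith

/-- the increments of `hf` are bounded -/
lemma ka_bdd {c : Ctx} (R : Reg c) {ι : Type} (S : Sys c ι) {D : ι → Dat} {tO tA tB r : ℝ}
    (F : S.Fam 1 D tO tA tB r) (hr : r < 1) {k : ℝ} (hk : 0 < k) : ∃ C > (0 : ℝ),
    ∀ᶠ i in (S.U : Filter ι), ∀ y ∈ S.B k i, ∀ z ∈ S.B k i, |S.dh D i y z| ≤ C * S.N i := by
  obtain ⟨C1, p1, h1⟩ := ka_two R S F.fA F.fO hk
  obtain ⟨C2, p2, h2⟩ := ka_two R S F.fA F.fB hk
  have r1 : 0 < 1 - r := by linarith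
  refine ⟨C1 + 2 / (1 - r) * C2, by positivity, ?_⟩
  have h3 : ∀ᶠ i in (S.U : Filter ι), dr (D i) < (1 + r) / 2 :=
    F.tr.eventually (gt_mem_nhds (by linarith))
  filter_upwards [h1, h2, h3] with i a b e y hy z hz
  obtain ⟨u0, u1⟩ := F.r01 i
  have u2 : 0 < 1 - dr (D i) := by linarith
  have u3 : dr (D i) / (1 - dr (D i)) ≤ 2 / (1 - r) := by
    rw [div_le_div_iff₀ u2 r1]
    nlinarith
  have u4 : 0 ≤ dr (D i) / (1 - dr (D i)) := by positivity
  unfold Sys.dh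
  rw [hf_diff c.d u1.ne y z]
  refine (abs_add_le _ _).trans ?_
  rw [abs_mul, abs_of_nonneg u4, add_mul, mul_assoc]
  exact add_le_add (a y hy z hz) (mul_le_mul u3 (b y hy z hz) (abs_nonneg _) (by positivity))

/-- a test point whose level is higher by a fixed multiple of `N` -/
lemma ka_test {c : Ctx} (R : Reg c) {ι : Type} (S : Sys c ι) {O : ι → P} {t : ℝ}
    (hO : S.Far 1 O t) : ∃ c3 > (0 : ℝ), ∀ᶠ i in (S.U : Filter ι), ∃ z ∈ S.B (|t| + 2) i,
      c.d (O i) z - c.d (O i) (S.x i) = c3 * S.N i := by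
  have := c.crof.fin
  have t0 := abs_nonneg t
  have hb : Neg (ln c.G) (min (1 - c.T0) (t - 4)) := by
    obtain ⟨z, hz, h⟩ := c.neg
    exact ⟨z, hz, (min_le_left _ _).trans_lt h⟩
  have hb4 : min (1 - c.T0) (t - 4) ≤ t - 4 := min_le_right _ _
  set b := min (1 - c.T0) (t - 4)
  obtain ⟨c3, c0, h3⟩ := S.low R (a := b - 1) (b := b) (by linarith) hb (k := |t| + 2) (by linarith)
  refine ⟨c3, c0, ?_⟩
  filter_upwards [h3, hO (|t| + 2) 1 one_pos, S.ev_ball (|t| + 2) c.rho0] with i a f e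
  have s0 := S.s0 i
  have N0 := S.N0 i
  have ks : 0 < (|t| + 2) * S.s i := by positivity
  have xB : S.x i ∈ S.B (|t| + 2) i := mem_closedBall_self ks.le
  obtain ⟨g1, g2⟩ := f.2 _ xB
  rw [one_mul] at g1
  set x := S.x i with hx
  set s := S.s i with hs
  set τ := sl x (O i) with hτ
  set v : P := (τ, 1) with hv
  have g3 := abs_le.1 g2
  have nv : ‖v‖ ≤ |t| + 2 := by
    rw [hv, Prod.norm_def, max_le_iff]
    refine ⟨?_, by rw [norm_one]; linarith⟩
    rw [Real.norm_eq_abs, abs_le]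
    constructor <;> linarith [le_abs_self t, neg_abs_le t]
  have mem : ∀ u ∈ Icc (0 : ℝ) s, x + u • v ∈ S.B (|t| + 2) i := by
    intro u hu
    show dist (x + u • v) x ≤ (|t| + 2) * s
    rw [dist_eq_norm, add_sub_cancel_left, norm_smul, Real.norm_eq_abs, abs_of_nonneg hu.1, mul_comm]
    exact mul_le_mul nv hu.2 hu.1 (by linarith)
  have memM : ∀ u ∈ Icc (0 : ℝ) s, x + u • v ∈ c.M := fun u hu => c.sub (e.1 (mem u hu))
  have xM : x ∈ c.M := c.sub (e.1 xB)
  have low : c3 * S.N i ≤ c.d x (x + s • v) := by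
    rw [c.crof.eq x (e.1 xB) _ (e.1 (mem s ⟨s0.le, le_rfl⟩))]
    refine le_add_of_le_of_nonneg ?_ (abs_nonneg _)
    refine (a _ (mem (s / 2) ⟨by positivity, by linarith⟩)).trans ?_
    refine measureReal_mono fun l hl => ?_
    have l1 : l.2 ≤ b := hl.1.2
    have l2 := abs_le.1 hl.2
    have l3 : s / (|t| + 2) ≤ s := div_le_self s0.le (by linarith)
    have l4 : pr l.2 v = τ - l.2 := by simp [pr, hv]
    have l5 : s * 3 ≤ s * (τ - l.2) := mul_le_mul_of_nonneg_left (by linarith) s0.le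
    rw [pr_add, pr_smul, l4] at l2
    intro hiff
    rw [pr_add, pr_smul, l4] at hiff
    have := hiff.2 (by linarith [l2.2])
    linarith [l2.1]
  have ct := c.gp.pm.contOn_line (x := x) (v := v) xM memM
  obtain ⟨u, hu, eu⟩ := intermediate_value_Icc s0.le ct
    (show c3 * S.N i ∈ Icc (c.d x (x + (0 : ℝ) • v)) (c.d x (x + s • v)) from
      ⟨by rw [zero_smul, add_zero, c.gp.pm.self xM]; positivity, low⟩)
  refine ⟨x + u • v, mem u hu, ?_⟩
  have h0 : 0 < x.2 - (O i).2 := ks.trans_le g1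
  have eO : x + (-(x.2 - (O i).2)) • v = O i := by
    ext
    · simp only [hv, hτ, sl, Prod.fst_add, Prod.smul_fst, smul_eq_mul]
      field_simp
      ring
    · simp [hv]
  have ad := c.gp.pm.line_add (x := x) (v := v) (r := -(x.2 - (O i).2)) (s := 0) (t := u)
    (by rw [eO]; exact c.sub f.1) (memM u hu) (by linarith) hu.1
  rw [eO, zero_smul, add_zero] at ad
  have eu' : c.d x (x + u • v) = c3 * S.N i := eu
  linarith

theorem p_KA :
    S_KA := by
  intro c R ι S D tO tA tB r δ F hr δ0 δt st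
  obtain ⟨c3, c0, h3⟩ := ka_test R S F.fO
  have K0 : 0 < |tO| + 2 := by positivity
  set K := |tO| + 2
  obtain ⟨C3, C0, hC⟩ := ka_bdd R S F hr K0
  have hz : ∀ i, ∃ z : P, (∃ z ∈ S.B K i, c.d (dO (D i)) z - c.d (dO (D i)) (S.x i) = c3 * S.N i) →
      z ∈ S.B K i ∧ c.d (dO (D i)) z - c.d (dO (D i)) (S.x i) = c3 * S.N i := by
    intro i
    by_cases h : ∃ z ∈ S.B K i, c.d (dO (D i)) z - c.d (dO (D i)) (S.x i) = c3 * S.N i
    · obtain ⟨z, hz⟩ := h
      exact ⟨z, fun _ => hz⟩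
    · exact ⟨0, fun h' => absurd h' h⟩
  choose z hz using hz
  have zz : ∀ᶠ i in (S.U : Filter ι), z i ∈ S.B K i ∧
      c.d (dO (D i)) (z i) - c.d (dO (D i)) (S.x i) = c3 * S.N i := h3.mono fun i a => hz i a
  have xB : ∀ k : ℝ, 0 ≤ k → ∀ i, S.x i ∈ S.B k i := fun k hk i =>
    mem_closedBall_self (mul_nonneg hk (S.s0 i).le)
  set q : ι → ℝ := fun i => S.dh D i (S.x i) (z i) / (c3 * S.N i) with hq
  have eq : ∀ i, q i * (c3 * S.N i) = S.dh D i (S.x i) (z i) := fun i =>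
    div_mul_cancel₀ _ (mul_pos c0 (S.N0 i)).ne'
  have qb : ∀ᶠ i in (S.U : Filter ι), |q i| * c3 ≤ C3 := by
    filter_upwards [zz, hC] with i a b
    have := b _ (xB K K0.le i) _ a.1
    rw [← eq i, abs_mul, abs_of_pos (mul_pos c0 (S.N0 i)), ← mul_assoc] at this
    exact le_of_mul_le_mul_right this (S.N0 i)
  obtain ⟨κ, -, tκ⟩ := (isCompact_Icc (a := -(C3 / c3)) (b := C3 / c3)).ultrafilter_le_nhds
    (S.U.map q) (by
      rw [Ultrafilter.coe_map, le_principal_iff, mem_map]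
      filter_upwards [qb] with i a
      exact abs_le.1 ((le_div_iff₀ c0).2 a))
  have tq : Tendsto q S.U (𝓝 κ) := tκ
  refine ⟨κ, ?_, ?_⟩
  · refine le_of_forall_pos_le_add fun ε hε => ?_
    have : -ε ≤ κ := by
      refine ge_of_tendsto tq ?_
      filter_upwards [zz, F.mon K (ε * c3) (by positivity)] with i a b
      have N0 := S.N0 i
      have cN : 0 < c3 * S.N i := by positivity
      have := b _ (xB K K0.le i) _ a.1 (by linarith [a.2])
      refine le_of_mul_le_mul_right ?_ cN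
      rw [eq i]
      unfold Sys.dh
      linarith
    linarith
  · intro k ε hε
    set k' := max k (max K c3) with hk'
    have k1 : k ≤ k' := le_max_left _ _
    have k2 : K ≤ k' := (le_max_left _ _).trans (le_max_right _ _)
    have k3 : c3 ≤ k' := (le_max_right _ _).trans (le_max_right _ _)
    have k0 : 0 < k' := c0.trans_le k3
    have A0 : 0 < 2 + 4 * k' / c3 + 2 * k' := by positivity
    set η := min 1 (ε / (2 + 4 * k' / c3 + 2 * k')) with hη
    have η0 : 0 < η := lt_min one_pos (by positivity)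
    have η1 : η ≤ 1 := min_le_left _ _
    have η2 : η * (2 + 4 * k' / c3 + 2 * k') ≤ ε := (le_div_iff₀ A0).1 (min_le_right _ _)
    have d1 : ∀ᶠ i in (S.U : Filter ι), δ i < c3 / 2 := δt.eventually (gt_mem_nhds (by positivity))
    have d2 : ∀ᶠ i in (S.U : Filter ι), 2 * (C3 + 1) / c3 * δ i < η :=
      (δt.const_mul (2 * (C3 + 1) / c3)).eventually (gt_mem_nhds (by rwa [mul_zero]))
    have d3 : ∀ᶠ i in (S.U : Filter ι), dist (q i) κ < η := Metric.tendsto_nhds.1 tq η η0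
    filter_upwards [zz, qb, d1, d2, d3, st k' η η0] with i a b e1 e2 e3 f u hu w hw lu lw
    have N0 := S.N0 i
    obtain ⟨ρ, hρ⟩ := ka_lin (mul_pos (δ0 i) N0) f
    have kN : k * S.N i ≤ k' * S.N i := mul_le_mul_of_nonneg_right k1 N0.le
    have lu' : |c.d (dO (D i)) u - c.d (dO (D i)) (S.x i)| ≤ k' * S.N i := le_trans lu kN
    have lw' : |c.d (dO (D i)) w - c.d (dO (D i)) (S.x i)| ≤ k' * S.N i := le_trans lw kN
    have g1 := hρ _ (xB k' k0.le i) _ (S.bass_sub k2 i a.1) (by rw [sub_self, abs_zero]; positivity)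
      (by
        rw [a.2, abs_of_pos (mul_pos c0 N0)]
        exact mul_le_mul_of_nonneg_right k3 N0.le)
    have g2 := hρ u (S.bass_sub k1 i hu) w (S.bass_sub k1 i hw) lu' lw'
    rw [a.2] at g1
    have g3 : |S.db D i u w| ≤ 2 * k' * S.N i := by
      unfold Sys.db
      rw [abs_le] at lu' lw' ⊢
      constructor <;> linarith [lu'.1, lu'.2, lw'.1, lw'.2]
    refine (ka_real (q := q i) (ρ := ρ) c0 N0 k0.le (δ0 i).le e1.le η1 b e2.le ?_ g2 g3
      (le_of_lt e3)).trans (mul_le_mul_of_nonneg_right η2 N0.le)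
    rw [eq i]
    exact g1

end Pool.Agent.P.MP_874adf_gt.Gn
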