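import Pool.Agent.P.MP_874adf_gt.Gn.KiCon
import Pool.Agent.P.MP_874adf_gt.Gn.BasS

/-! Facts that hold eventually along a system, for the zigzag argument. -/

set_option autoImplicit false

namespace Pool.Agent.P.MP_874adf_gt.Gn

open Pool.Agent.P.MP_874adf_gt.Fs Set Filter Topology Metric MeasureTheory

namespace KiDet

variable {c : Ctx} {ι : Type}

lemma cell_mono {n : ℝ → ℝ} {ρ0 π σ ζ ε ρ : ℝ} {v w : Set Dat} (h : Cell ρ0 n π v σ ζ ε ρ)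
    (hw : w ⊆ v) : Cell ρ0 n π w σ ζ ε ρ :=
  ⟨h.rho, fun D m => h.mO D (hw m), fun D m => h.mB D (hw m), fun D m => h.hO D (hw m),
    fun D m => h.hA D (hw m), fun D m => h.hB D (hw m), fun D m => h.sO D (hw m),
    fun D m => h.sA D (hw m), fun D m => h.sB D (hw m), fun D m => h.ord D (hw m),
    fun D m => h.thin D (hw m)⟩

lemma Bel.mono {ρ0 lo hi : ℝ} {Q Q' : Set P} {X : P} (h : Bel ρ0 Q lo hi X) (hQ : Q' ⊆ Q) :
    Bel ρ0 Q' lo hi X := ⟨h.1, fun w hw => h.2 w (hQ hw)⟩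

lemma Ord.mono {Q Q' : Set P} {X X' : P} (h : Ord Q X X') (hQ : Q' ⊆ Q) : Ord Q' X X' :=
  h.imp (fun h w hw => h w (hQ hw)) fun h w hw => h w (hQ hw)

/-- the data of a cell are below the small ball -/
lemma cell_bel {v : Set Dat} (hv : v ∈ c.𝓥) {ζ ε ρ : ℝ} (h : Cell c.ρ0 (ln c.G) c.π v 1 ζ ε ρ)
    {D : Dat} (hD : D ∈ v) {Q : Set P} (hQ : Q ⊆ ball 0 ρ) :
    Bel c.ρ0 Q (ζ - ε) (ζ + ε) (dO D) ∧
    Bel c.ρ0 Q (fx (ln c.G) 1 ζ - ε) (fx (ln c.G) 1 ζ + ε) (dA D) ∧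
    Bel c.ρ0 Q (fx (ln c.G) 1 ζ - ε) (fx (ln c.G) 1 ζ + ε) (dB D) ∧ Ord Q (dA D) (dB D) := by
  have g := c.gp.cells.good v hv D hD
  have r0 := h.rho
  refine ⟨⟨h.mO D hD, fun w hw => ?_⟩,
    ⟨(convex_ball 0 c.ρ0).add_smul_sub_mem (h.mO D hD) (h.mB D hD) ⟨g.1.le, g.2.1.le⟩,
      fun w hw => ?_⟩, ⟨h.mB D hD, fun w hw => ?_⟩, Or.inr fun w hw => ?_⟩
  · have m := ball_subset_closedBall (hQ hw)
    have a := h.hO D hD w m
    have b := abs_le.1 (h.sO D hD w m)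
    exact ⟨by linarith, by linarith [b.1], by linarith [b.2]⟩
  · have m := ball_subset_closedBall (hQ hw)
    have a := h.hA D hD w m
    have b := abs_le.1 (h.sA D hD w m)
    exact ⟨by linarith, by linarith [b.1], by linarith [b.2]⟩
  · have m := ball_subset_closedBall (hQ hw)
    have a := h.hB D hD w m
    have b := abs_le.1 (h.sB D hD w m)
    exact ⟨by linarith, by linarith [b.1], by linarith [b.2]⟩
  · linarith [h.ord D hD w (ball_subset_closedBall (hQ hw))]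

lemma sl_ne {X X' : P} (h : wed (X - 0) (X' - 0) ≠ 0) (h1 : X.2 ≠ 0) (h2 : X'.2 ≠ 0) :
    sl 0 X ≠ sl 0 X' := by
  intro e
  apply h
  simp only [sl, Prod.fst_zero, Prod.snd_zero, zero_sub, neg_div_neg_eq] at e
  rw [div_eq_div_iff h1 h2] at e
  simp only [wed, sub_zero]
  linarith

lemma ev_sep (S : Sys c ι) {X X' : ι → P} {t t' j1 j2 : ℝ} (h : S.Far 1 X t) (h' : S.Far 1 X' t')
    (a : t < j1) (b : j2 < t') (k : ℝ) :
    ∀ᶠ i in (S.U : Filter ι), ∀ w ∈ S.B k i, sl w (X i) < j1 ∧ j2 < sl w (X' i) := by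
  filter_upwards [h k ((j1 - t) / 2) (by linarith), h' k ((t' - j2) / 2) (by linarith)]
    with i i1 i2 w hw
  have a1 := abs_le.1 (i1.2 w hw).2
  have a2 := abs_le.1 (i2.2 w hw).2
  exact ⟨by linarith [a1.2], by linarith [a2.1]⟩

lemma ev_ord (S : Sys c ι) {X X' : ι → P} {t t' : ℝ} (h : S.Far 1 X t) (h' : S.Far 1 X' t')
    (ne : t ≠ t') (k : ℝ) : ∀ᶠ i in (S.U : Filter ι), Ord (S.B k i) (X i) (X' i) := by
  rcases lt_or_gt_of_ne ne with lt | lt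
  · filter_upwards [ev_sep S h h' (j1 := (t + t') / 2) (j2 := (t + t') / 2) (by linarith)
      (by linarith) k] with i hi
    exact Or.inl fun w hw => by linarith [(hi w hw).1, (hi w hw).2]
  · filter_upwards [ev_sep S h' h (j1 := (t + t') / 2) (j2 := (t + t') / 2) (by linarith)
      (by linarith) k] with i hi
    exact Or.inr fun w hw => by linarith [(hi w hw).1, (hi w hw).2]

/-- the mass grows without bound with the scale -/
lemma growth (hR : Reg c) (S : Sys c ι) {Λ : ℝ} (Λ0 : 0 < Λ) : ∃ R1 ≥ (1 : ℝ), ∀ R ≥ R1,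
    ∀ᶠ i in (S.U : Filter ι), Λ * S.N i ≤ mT c.μ c.T0 (S.x i) (R * S.s i) := by
  have := c.crof.fin
  obtain ⟨C, C0, hC⟩ := S.cmp
  obtain ⟨η, η0, ρ, ρ0, h⟩ := hR.lg c.T0 (1 / (C * Λ)) (by positivity)
  refine ⟨max 1 η⁻¹, le_max_left _ _, fun R hR' => ?_⟩
  filter_upwards [hC, S.ev_ball η⁻¹ ρ0] with i i1 i2
  have s0 := S.s0 i
  have p0 : 0 < η⁻¹ * S.s i := by positivity
  have a := h _ (i2.1 (mem_closedBall_self p0.le)) _ p0 i2.2
  rw [← mul_assoc, mul_inv_cancel₀ η0.ne', one_mul] at a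
  have b : mT c.μ c.T0 (S.x i) (η⁻¹ * S.s i) ≤ mT c.μ c.T0 (S.x i) (R * S.s i) :=
    mw_mono _ subset_rfl _ (mul_le_mul_of_nonneg_right ((le_max_right _ _).trans hR') s0.le)
  have e := mul_le_mul_of_nonneg_left a (mul_pos C0 Λ0).le
  rw [← mul_assoc, mul_one_div_cancel (mul_pos C0 Λ0).ne', one_mul] at e
  have f := mul_le_mul_of_nonneg_left i1.2 Λ0.le
  linarith

/-- far left windows at a larger scale carry more than the mass -/
lemma reach (hR : Reg c) {ζ : ℝ} (hζ : Neg (ln c.G) ζ) {C2 : ℝ} (C0 : 0 < C2) :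
    ∃ C3 > (0 : ℝ), ∃ ρ > (0 : ℝ), ∀ x ∈ ball (0 : P) ρ, ∀ r, 0 < r → C3 * r < ρ →
      ∀ y ∈ closedBall x (4 * (C3 * r)),
        C2 * mT c.μ c.T0 x r ≤ mw c.μ (Icc (ζ - 3) (ζ - 2)) y (C3 * r / 4) := by
  have := c.crof.fin
  obtain ⟨z, z1, z2⟩ := hζ
  obtain ⟨C, c0, ρ, ρ0, h⟩ := hR.cmp c.T0 (ζ - 3) (ζ - 2) (by linarith) ⟨z, z1, by linarith⟩ 4
    (by norm_num)
  obtain ⟨η, η0, ρ', ρ1, h'⟩ := hR.lg c.T0 (1 / (C * C2)) (by positivity)
  refine ⟨η⁻¹, inv_pos.2 η0, min ρ ρ', lt_min ρ0 ρ1, fun x hx r r0 hr y hy => ?_⟩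
  have p0 : 0 < η⁻¹ * r := by positivity
  have a := h x (ball_subset_ball (min_le_left _ _) hx) _ p0 (hr.trans_le (min_le_left _ _)) y hy
  have b := h' x (ball_subset_ball (min_le_right _ _) hx) _ p0 (hr.trans_le (min_le_right _ _))
  rw [← mul_assoc, mul_inv_cancel₀ η0.ne', one_mul] at b
  have e : mT c.μ c.T0 x (η⁻¹ * r) ≤ mT c.μ c.T0 x (4 * (η⁻¹ * r)) :=
    mw_mono _ subset_rfl _ (by linarith)
  have f := mul_le_mul_of_nonneg_left b (mul_pos c0 C0).le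
  rw [← mul_assoc, mul_one_div_cancel (mul_pos c0 C0).ne', one_mul] at f
  refine le_of_mul_le_mul_left ?_ c0
  linarith

lemma big (hR : Reg c) (T : ℝ) {k : ℝ} (hk : 1 ≤ k) : ∃ C > (0 : ℝ), ∃ ρ > (0 : ℝ),
    ∀ x ∈ ball (0 : P) ρ, ∀ r, 0 < r → r < ρ →
      c.μ.real (XX T x (k * r)) ≤ C * mT c.μ c.T0 x r := by
  have := c.crof.fin
  obtain ⟨C, c0, ρ, ρ0, h⟩ := hR.cmp T (-c.T0) (1 - c.T0) (by linarith) c.neg k hk
  refine ⟨C, c0, ρ, ρ0, fun x hx r r0 hr => ?_⟩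
  have a := h x hx r r0 hr x (mem_closedBall_self (by positivity))
  have b : mw c.μ (Icc (-c.T0) (1 - c.T0)) x (r / k) ≤ mT c.μ c.T0 x r :=
    mw_mono _ (Icc_subset_Icc_right (by linarith [c.t0])) _ (div_le_self r0.le hk)
  exact a.trans (mul_le_mul_of_nonneg_left b c0.le)

lemma jumpc (hR : Reg c) {j1 j2 : ℝ} (j12 : j1 < j2) (hj : Neg (ln c.G) j2) :
    ∃ C > (0 : ℝ), ∃ ρ > (0 : ℝ), ∀ x ∈ ball (0 : P) ρ, ∀ r, 0 < r → r < ρ →
      mT c.μ c.T0 x r ≤ C * mw c.μ (Icc j1 j2) (x + (r / 4, 0)) (r / 8) := by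
  have := c.crof.fin
  obtain ⟨C, c0, ρ, ρ0, h⟩ := hR.cmp c.T0 j1 j2 j12 hj 8 (by norm_num)
  refine ⟨C, c0, ρ, ρ0, fun x hx r r0 hr => ?_⟩
  have a := h x hx r r0 hr (x + (r / 4, 0)) (by
    rw [mem_closedBall, dist_eq_norm, add_sub_cancel_left, Prod.norm_def, max_le_iff,
      Real.norm_of_nonneg (by positivity), norm_zero]
    constructor <;> linarith)
  exact (mw_mono _ subset_rfl _ (by linarith : r ≤ 8 * r)).trans a

/-- the ratio is bounded and uniformly continuous on a cell -/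
lemma ratio {v : Set Dat} (hv : v ∈ c.𝓥) : ∃ ρm > (0 : ℝ), (∀ D ∈ v, dr D / (1 - dr D) ≤ ρm) ∧
    ∀ η > (0 : ℝ), ∃ w ∈ c.𝓥, w ⊆ v ∧
      ∀ D ∈ w, ∀ D' ∈ w, |dr D / (1 - dr D) - dr D' / (1 - dr D')| ≤ η := by
  have g := c.gp.cells.good v hv
  have cp := c.gp.cells.cpt v hv
  have ct : ContinuousOn (fun D : Dat => dr D / (1 - dr D)) v :=
    ContinuousOn.div (by fun_prop) (by fun_prop) fun D hD => (sub_pos.2 (g D hD).2.2.2).ne'
  obtain ⟨b, hb⟩ := (cp.image_of_continuousOn ct).bddAbove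
  refine ⟨max b 1, lt_max_of_lt_right one_pos,
    fun D hD => (hb (mem_image_of_mem _ hD)).trans (le_max_left _ _), fun η η0 => ?_⟩
  obtain ⟨δ, δ0, hδ⟩ := Metric.uniformContinuousOn_iff_le.1
    (cp.uniformContinuousOn_of_continuous ct) η η0
  obtain ⟨w, w1, w2, w3⟩ := c.gp.cells.ref v hv δ δ0
  exact ⟨w, w1, w2, fun D hD D' hD' => hδ D (w2 hD) D' (w2 hD') (w3 D hD D' hD')⟩

end KiDet

end Pool.Agent.P.MP_874adf_gt.Gn
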