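import Pool.Agent.P.MP_874adf_gt.Gn.IfaceF
import Pool.Agent.P.MP_874adf_gt.Gn.KiEv

/-! Step KI1. -/

set_option autoImplicit false

namespace Pool.Agent.P.MP_874adf_gt.Gn

open Pool.Agent.P.MP_874adf_gt.Fs Set Filter Topology Metric MeasureTheory

open KiDet in
theorem p_KI1 (hMOV : S_MOV) (hLIPL : S_LIPL) :
    S_KI1 := by
  intro c hR ι S ζ hζ C2 C20
  have := c.crof.fin
  obtain ⟨γ, γ0, ρL, ρL0, γ1, hL⟩ := hLIPL c hR ζ
  obtain ⟨C3, C30, ρ3, ρ30, h3⟩ := reach hR hζ (C2 := C2 + 1) (by linarith)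
  obtain ⟨z, z1, z2⟩ := hζ
  have n0 : 0 < ln c.G ζ := c.gp.isN.pos _ (by simp)
  have eξ : fx (ln c.G) 1 ζ = ζ - ln c.G ζ := by simp [fx]
  obtain ⟨T, hT⟩ : ∃ T, T = |ζ| + ln c.G ζ + 1 := ⟨_, rfl⟩
  have T0 : 0 ≤ T := by rw [hT]; positivity
  obtain ⟨K, hK⟩ : ∃ K, K = 1 + (C3 + 3 / γ) * (T + 1) := ⟨_, rfl⟩
  have q0 : 0 < C3 + 3 / γ := by positivity
  have K1 : 1 ≤ K := by rw [hK]; linarith [mul_pos q0 (by linarith : 0 < T + 1)]
  have K2 : K ≤ (1 + T) * K := by nlinarith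
  obtain ⟨C4, C40, ρ4, ρ40, h4⟩ := big hR T (K1.trans K2)
  obtain ⟨ρp, ρp0, hp⟩ := hR.pos
  refine ⟨min (min (min 1 (γ / 2)) (min ((fx (ln c.G) 1 z - ζ) / 2) (ln c.G ζ / 3)))
    (1 / (4 * (C3 + 3 / γ))), lt_min (lt_min (lt_min one_pos (by linarith))
      (lt_min (by linarith) (by linarith))) (by positivity), ?_⟩
  intro v hv ε ρ ε0 hε cell k δ e θ δ0 δk e0 θ0
  simp only [le_min_iff] at hε
  obtain ⟨⟨⟨ε1, ε2⟩, ε3, ε4⟩, ε5⟩ := hε
  rw [le_div_iff₀ (by positivity)] at ε5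
  have k0 : 0 < k := δ0.trans_le δk
  obtain ⟨e1, he1⟩ : ∃ e1, e1 = e / (6 * k / δ + 5) := ⟨_, rfl⟩
  have e10 : 0 < e1 := by rw [he1]; positivity
  obtain ⟨ρm, ρm0, hρm, href⟩ := ratio hv
  obtain ⟨M, hM⟩ := exists_nat_gt (8 * (1 + ρm) * C4 / (e1 * θ))
  have M1 : (0 : ℝ) < M := lt_trans (by positivity) hM
  have M0 : 0 < M := Nat.cast_pos.1 M1
  obtain ⟨w0, hw0, w0v, hw⟩ := href (1 / M) (by positivity)
  obtain ⟨u, hu, sO, sA, sB⟩ := c.gp.cells.sep w0 hw0 ((M + 1) * (M + 1) + 1)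
  have uv : ∀ a, u a ⊆ v := fun a => (hu a).2.trans w0v
  choose D E hE hD _ fam using fun a => hMOV c hR ι S (u a) (hu a).1 1 ζ ε ρ (Or.inl rfl)
    (cell_mono cell (uv a)) (by linarith)
  have z0 : (0 : P) ∈ closedBall (0 : P) ρ := mem_closedBall_self cell.rho.le
  have nz : ∀ X : P, ρ ≤ 1 * ((0 : P).2 - X.2) → X.2 ≠ 0 := fun X h e => by
    rw [e] at h
    simp at h
    linarith [cell.rho]
  have tne : ∀ a b, a ≠ b → sl 0 (dO (E a)) ≠ sl 0 (dO (E b)) := fun a b ab =>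
    sl_ne (sO a b ab _ (hE a) _ (hE b)) (nz _ (cell.hO _ (uv a (hE a)) 0 z0))
      (nz _ (cell.hO _ (uv b (hE b)) 0 z0))
  have oA : ∀ a b, a ≠ b → ∀ k, ∀ᶠ i in (S.U : Filter ι),
      Ord (S.B k i) (dA (D a i)) (dA (D b i)) := fun a b ab k => by
    rcases sA with s | ⟨A, s⟩
    · exact ev_ord S (fam a).fA (fam b).fA (sl_ne (s a b ab _ (hE a) _ (hE b))
        (nz _ (cell.hA _ (uv a (hE a)) 0 z0)) (nz _ (cell.hA _ (uv b (hE b)) 0 z0))) k
    · exact Eventually.of_forall fun i => Or.inl fun w _ => by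
        rw [s _ ((hu a).2 (hD a i)), s _ ((hu b).2 (hD b i))]
  have oB : ∀ a b, a ≠ b → ∀ k, ∀ᶠ i in (S.U : Filter ι),
      Ord (S.B k i) (dB (D a i)) (dB (D b i)) := fun a b ab k => by
    rcases sB with s | ⟨A, s⟩
    · exact ev_ord S (fam a).fB (fam b).fB (sl_ne (s a b ab _ (hE a) _ (hE b))
        (nz _ (cell.hB _ (uv a (hE a)) 0 z0)) (nz _ (cell.hB _ (uv b (hE b)) 0 z0))) k
    · exact Eventually.of_forall fun i => Or.inl fun w _ => by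
        rw [s _ ((hu a).2 (hD a i)), s _ ((hu b).2 (hD b i))]
  set t : Fin ((M + 1) * (M + 1) + 1) → ℝ := fun a => sl 0 (dO (E a)) with ht
  have jc : ∀ a b, ∃ C > (0 : ℝ), ∃ ρ > (0 : ℝ), t a < t b → ∀ x ∈ ball (0 : P) ρ, ∀ r, 0 < r →
      r < ρ → mT c.μ c.T0 x r ≤
        C * mw c.μ (Icc ((2 * t a + t b) / 3) ((t a + 2 * t b) / 3)) (x + (r / 4, 0)) (r / 8) := by
    intro a b
    by_cases h : t a < t b
    · have b1 := abs_le.1 (cell.sO _ (uv b (hE b)) 0 z0)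
      obtain ⟨C, c0, ρ, ρ0, hh⟩ := jumpc hR (j1 := (2 * t a + t b) / 3)
        (j2 := (t a + 2 * t b) / 3) (by linarith) ⟨z, z1, by
          have : t b - ζ ≤ ε := b1.2
          linarith⟩
      exact ⟨C, c0, ρ, ρ0, fun _ => hh⟩
    · exact ⟨1, one_pos, 1, one_pos, fun h' => absurd h' h⟩
  choose Cj Cj0 ρj ρj0 hj using jc
  obtain ⟨Cm, hCm⟩ := (Set.finite_range fun p : _ × _ => Cj p.1 p.2).bddAbove
  have hCm' : ∀ a b, Cj a b ≤ Cm := fun a b => hCm ⟨(a, b), rfl⟩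
  have Cm0 : 0 < Cm := (Cj0 0 0).trans_le (hCm' 0 0)
  obtain ⟨R1, R11, hR1⟩ := growth hR S (Λ := 2 * k + δ * Cm) (by positivity)
  refine ⟨R1, fun R hRR => ?_⟩
  have R0 : 0 < R := by linarith
  have sub1 : ∀ i, S.B (K * R) i ⊆ S.B ((1 + T) * K * R) i := fun i =>
    S.bass_sub (mul_le_mul_of_nonneg_right K2 R0.le) i
  have eB : ∀ i, S.B (K * R) i = closedBall (S.x i) (K * (R * S.s i)) := fun i => by
    rw [Sys.B, mul_assoc]
  have eX : ∀ i, (1 + T) * (K * (R * S.s i)) = (1 + T) * K * (R * S.s i) := fun i => by ring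
  have x0 : ∀ i, ∀ k ≥ (0 : ℝ), S.x i ∈ S.B k i := fun i k hk =>
    mem_closedBall_self (mul_nonneg hk (S.s0 i).le)
  have mass : ∀ᶠ i in (S.U : Filter ι), 0 < mT c.μ c.T0 (S.x i) (R * S.s i) ∧
      c.μ.real (XX T (S.x i) ((1 + T) * K * (R * S.s i))) ≤
        C4 * mT c.μ c.T0 (S.x i) (R * S.s i) := by
    filter_upwards [S.ev_ball R ρp0, S.ev_ball R ρ40] with i i1 i2
    have r0 := mul_pos R0 (S.s0 i)
    exact ⟨hp _ (i1.1 (x0 i R R0.le)) _ r0, h4 _ (i2.1 (x0 i R R0.le)) _ r0 i2.2⟩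
  have pair : ∀ᶠ i in (S.U : Filter ι), ∃ p : _ × _, t p.1 < t p.2 ∧
      c.μ.real (XX T (S.x i) ((1 + T) * K * (R * S.s i)) ∩ sp (dA (D p.1 i)) (dA (D p.2 i))) ≤
        C4 * mT c.μ c.T0 (S.x i) (R * S.s i) / M ∧
      c.μ.real (XX T (S.x i) ((1 + T) * K * (R * S.s i)) ∩ sp (dB (D p.1 i)) (dB (D p.2 i))) ≤
        C4 * mT c.μ c.T0 (S.x i) (R * S.s i) / M := by
    have all : ∀ᶠ i in (S.U : Filter ι), ∀ a b, a ≠ b →
        Ord (S.B ((1 + T) * K * R) i) (dA (D a i)) (dA (D b i)) ∧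
        Ord (S.B ((1 + T) * K * R) i) (dB (D a i)) (dB (D b i)) :=
      eventually_all.2 fun a => eventually_all.2 fun b => by
        by_cases ab : a = b
        · exact Eventually.of_forall fun i h => absurd ab h
        · exact ((oA a b ab _).and (oB a b ab _)).mono fun i hi _ => hi
    filter_upwards [all, mass, S.ev_ball ((1 + T) * K * R) cell.rho] with i i1 i2 i3
    have e : S.B ((1 + T) * K * R) i = closedBall (S.x i) ((1 + T) * K * (R * S.s i)) := by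
      rw [Sys.B, mul_assoc]
    rw [e] at i1 i3
    obtain ⟨a, b, ab, p1, p2⟩ := pigeon (Nat.lt_succ_self _) M0 (fun a => dA (D a i))
      (fun a => dB (D a i)) (fun a => (cell_bel hv cell (uv a (hD a i)) i3.1).2.1)
      (fun a => (cell_bel hv cell (uv a (hD a i)) i3.1).2.2.1) (fun a b ab => (i1 a b ab).1)
      (fun a b ab => (i1 a b ab).2) (mul_pos C40 i2.1) i2.2
    rcases lt_or_gt_of_ne (tne a b ab) with h | h
    · exact ⟨(a, b), h, p1, p2⟩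
    · exact ⟨(b, a), h, by rwa [sp_comm], by rwa [sp_comm]⟩
  obtain ⟨⟨a, b⟩, pair⟩ := Ultrafilter.eventually_exists_iff.1 pair
  have tab : t a < t b := pair.exists.elim fun _ h => h.1
  have ab : a ≠ b := fun h => by rw [h] at tab; exact lt_irrefl _ tab
  have main : ∀ᶠ i in (S.U : Filter ι), ∃ Ω : ℝ → ℝ, Monotone Ω ∧
      (∀ a b, Ω b - Ω a ≤ θ * mT c.μ c.T0 (S.x i) (R * S.s i)) ∧
      ∀ Q' : Set P, (∀ y ∈ S.B (K * R) i ∪ Q', ∀ z ∈ S.B (K * R) i ∪ Q',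
        c.d (dO (D b i)) y ≤ c.d (dO (D b i)) z →
          hf c.d (D b i) y ≤ hf c.d (D b i) z + e1 * S.N i) →
      ∀ lv, |lv - c.d (dO (D b i)) (S.x i)| ≤ C2 * mT c.μ c.T0 (S.x i) (R * S.s i) →
        Ω (lv + 2 * k * S.N i) - Ω (lv - 2 * k * S.N i) ≤ S.N i →
        Stair c.d (D b i) Q' lv (k * S.N i) (δ * S.N i) (e * S.N i) := by
    filter_upwards [pair, mass, S.ev_ball (K * R) cell.rho, S.ev_ball (K * R) c.rho0,
      S.ev_ball (K * R) ρL0, S.ev_ball (C3 * R) ρ30, S.ev_ball R (ρj0 a b), hR1 R hRR,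
      ev_sep S (fam a).fO (fam b).fO (j1 := (2 * t a + t b) / 3) (j2 := (t a + 2 * t b) / 3)
        (by change t a < _; linarith) (by change _ < t b; linarith) (K * R),
      oA a b ab (K * R), oB a b ab (K * R), (fam a).mon (K * R) e1 e10]
      with i i1 i2 i3 i4 i5 i6 i7 i8 i9 j1 j2 j3
    have r0 := mul_pos R0 (S.s0 i)
    have N0 := S.N0 i
    rw [eB] at i3 i4 i5 i9 j1 j2 j3 ⊢
    obtain ⟨a1, a2, a3, _⟩ := cell_bel hv cell (uv a (hD a i)) i3.1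
    obtain ⟨b1, b2, b3, b4⟩ := cell_bel hv cell (uv b (hD b i)) i3.1
    have x3 := i6.1 (x0 i _ (by positivity))
    have H0 : 0 < C3 * (R * S.s i) := mul_pos C30 r0
    have nrm : ‖((C3 * (R * S.s i) / 2, 0) : P)‖ ≤ 4 * (C3 * (R * S.s i)) := by
      rw [Prod.norm_def, max_le_iff, Real.norm_of_nonneg (by positivity), norm_zero]
      constructor <;> linarith
    have jm := hj a b tab _ (i7.1 (x0 i R R0.le)) _ r0 i7.2
    have jm2 : δ * S.N i ≤ mw c.μ (Icc ((2 * t a + t b) / 3) ((t a + 2 * t b) / 3))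
        (S.x i + (R * S.s i / 4, 0)) (R * S.s i / 8) := by
      refine le_of_mul_le_mul_left ?_ Cm0
      have := mul_le_mul_of_nonneg_right (hCm' a b) (mw_nonneg c.μ
        (Icc ((2 * t a + t b) / 3) ((t a + 2 * t b) / 3)) (S.x i + (R * S.s i / 4, 0))
        (R * S.s i / 8))
      have := mul_pos k0 N0
      linarith
    have L := lev (c := c) (A := (C2 + 1) * mT c.μ c.T0 (S.x i) (R * S.s i)) (T := T) r0 γ0
      (mul_pos δ0 N0).le C30 (by linarith) (by linarith) ε1 (by rw [hT]; linarith)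
      (by rw [hK]) i4.1 a1 b1 i9 (by linarith)
      (fun y hy y' hy' l1 l2 => hL _ a1.1 y (i5.1 hy) y' (i5.1 hy') (fun w hw => by
        have := a1.2 w ((convex_closedBall _ _).segment_subset hy hy' hw)
        exact ⟨this.1, abs_le.2 ⟨by linarith [this.2.1], by linarith [this.2.2]⟩⟩) l1 l2)
      (h3 _ x3 _ r0 (by rw [← mul_assoc]; exact i6.2) _ (by
        rwa [mem_closedBall, dist_eq_norm, add_sub_cancel_left]))
      (h3 _ x3 _ r0 (by rw [← mul_assoc]; exact i6.2) _ (by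
        rwa [mem_closedBall, dist_eq_norm, sub_sub_cancel_left, norm_neg])) jm2
    have t1 := le_abs_self ζ
    have t2 := neg_abs_le ζ
    obtain ⟨Ω, o1, o2, o3⟩ := con (k := k * S.N i) (T := T) L i4.1 a2 b2 a3 b3 j1 j2 b4
      (by rw [eξ, hT]; linarith) (by rw [eξ, hT]; linarith) (by rw [eξ]; linarith)
      (eX i ▸ i1.2.1) (eX i ▸ i1.2.2) (eX i ▸ i2.2) ((fam a).r01 i).1 ((fam a).r01 i).2
      ((fam b).r01 i).2 (hρm _ (uv a (hD a i)))
      (hw _ ((hu a).2 (hD a i)) _ ((hu b).2 (hD b i))) e10 N0.le (mul_pos δ0 N0)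
      (mul_le_mul_of_nonneg_right δk N0.le) (mul_pos (by linarith) i2.1).le j3
    refine ⟨Ω, o1, fun a b => (o2 a b).trans ?_, fun Q' m2 lv l1 l2 => ?_⟩
    · rw [div_lt_iff₀ (mul_pos e10 θ0)] at hM
      rw [div_le_iff₀ e10]
      have e : 4 * ((1 + 2 * ρm) * (C4 * mT c.μ c.T0 (S.x i) (R * S.s i) / M) +
          1 / M * (C4 * mT c.μ c.T0 (S.x i) (R * S.s i))) =
          8 * (1 + ρm) * C4 * mT c.μ c.T0 (S.x i) (R * S.s i) / M := by ring
      rw [e, div_le_iff₀ M1]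
      linarith [mul_le_mul_of_nonneg_right hM.le i2.1.le]
    · have := o3 Q' m2 lv (by
        have := mul_pos (mul_pos δ0 Cm0) N0
        linarith) (by rwa [← mul_assoc])
      have e : (6 * (k * S.N i) / (δ * S.N i) + 5) * (e1 * S.N i) = e * S.N i := by
        rw [he1]
        field_simp
      rwa [e] at this
  obtain ⟨Ω, hΩ⟩ : ∃ Ω : ι → ℝ → ℝ, (∀ i, Monotone (Ω i)) ∧ ∀ᶠ i in (S.U : Filter ι),
      (∀ a b, Ω i b - Ω i a ≤ θ * mT c.μ c.T0 (S.x i) (R * S.s i)) ∧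
      ∀ Q' : Set P, (∀ y ∈ S.B (K * R) i ∪ Q', ∀ z ∈ S.B (K * R) i ∪ Q',
        c.d (dO (D b i)) y ≤ c.d (dO (D b i)) z →
          hf c.d (D b i) y ≤ hf c.d (D b i) z + e1 * S.N i) →
      ∀ lv, |lv - c.d (dO (D b i)) (S.x i)| ≤ C2 * mT c.μ c.T0 (S.x i) (R * S.s i) →
        Ω i (lv + 2 * k * S.N i) - Ω i (lv - 2 * k * S.N i) ≤ S.N i →
        Stair c.d (D b i) Q' lv (k * S.N i) (δ * S.N i) (e * S.N i) := by
    have ex : ∀ (p : ι → (ℝ → ℝ) → Prop), (∀ᶠ i in (S.U : Filter ι), ∃ Ω, Monotone Ω ∧ p i Ω) →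
        ∃ Ω : ι → ℝ → ℝ, (∀ i, Monotone (Ω i)) ∧ ∀ᶠ i in (S.U : Filter ι), p i (Ω i) := by
      intro p h
      have : ∀ i, ∃ Ω : ℝ → ℝ, Monotone Ω ∧ ((∃ Ω, Monotone Ω ∧ p i Ω) → p i Ω) := fun i => by
        by_cases q : ∃ Ω, Monotone Ω ∧ p i Ω
        · obtain ⟨Ω, q1, q2⟩ := q
          exact ⟨Ω, q1, fun _ => q2⟩
        · exact ⟨fun _ => 0, monotone_const, fun h => absurd h q⟩
      choose Ω h1 h2 using this
      exact ⟨Ω, h1, h.mono fun i hi => h2 i hi⟩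
    exact ex _ main
  refine ⟨D b, Ω, ⟨E b, uv b (hE b), fun i => uv b (hD b i), fam b⟩, hΩ.1,
    hΩ.2.mono fun i hi => hi.1, fun L => ?_⟩
  filter_upwards [hΩ.2, (fam b).mon (max L (K * R)) e1 e10] with i i1 i2 lv l1 l2
  have s : S.B (K * R) i ∪ S.B L i ⊆ S.B (max L (K * R)) i :=
    union_subset (S.bass_sub (le_max_right _ _) i) (S.bass_sub (le_max_left _ _) i)
  exact i1.2 _ (fun y hy z hz => i2 y (s hy) z (s hz)) lv l1 l2

end Pool.Agent.P.MP_874adf_gt.Gn
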