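import Pool.Agent.P.MP_874adf_gt.Gn.IfaceF
import Pool.Agent.P.MP_874adf_gt.Gn.BasS

/-! Step KI2. -/

set_option autoImplicit false

namespace Pool.Agent.P.MP_874adf_gt.Gn

open Pool.Agent.P.MP_874adf_gt.Fs Set Filter Topology Metric MeasureTheory

/-- the level curve of the distance from `X` through `x` is a Lipschitz graph -/
lemma ki2_leaf {M : Set P} {d : P → P → ℝ} (pm : PM M d) {X x : P} {ζ γ r : ℝ} (γ0 : 0 < γ)
    (hX : X ∈ M) (hQ : closedBall x ((1 + (|ζ| + 1) / γ) * r) ⊆ M)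
    (lip : ∀ y ∈ closedBall x ((1 + (|ζ| + 1) / γ) * r),
      ∀ y' ∈ closedBall x ((1 + (|ζ| + 1) / γ) * r), y.2 < y'.2 →
        |pr ζ (y' - y)| ≤ γ * (y'.2 - y.2) → d X y < d X y') (r0 : 0 < r) :
    ∃ g : ℝ → P, g 0 = x ∧ ContinuousOn g (Icc 0 r) ∧
      (∀ τ ∈ Icc 0 r, g τ ∈ closedBall x ((1 + (|ζ| + 1) / γ) * r) ∧ d X (g τ) = d X x) ∧
      ∀ τ ∈ Icc 0 r, ∀ τ' ∈ Icc 0 r, τ ≤ τ' → ∀ θ : ℝ,
        (τ' - τ) * (1 - |θ - ζ| / γ) ≤ pr θ (g τ' - g τ) := by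
  set p : ℝ → ℝ → P := fun τ h => x + (τ, 0) + h • (ζ, 1) with hp
  have p1 : ∀ τ h, (p τ h).1 = x.1 + τ + h * ζ := fun τ h => by simp [hp]
  have p2 : ∀ τ h, (p τ h).2 = x.2 + h := fun τ h => by simp [hp]
  have pp : ∀ θ τ h τ' h', pr θ (p τ' h' - p τ h) = τ' - τ + (h' - h) * (ζ - θ) := by
    intro θ τ h τ' h'
    simp only [pr, Prod.fst_sub, Prod.snd_sub, p1, p2]; ring
  have rγ : 0 < r / γ := by positivity
  have mem : ∀ τ ∈ Icc 0 r, ∀ h, |h| ≤ r / γ →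
      p τ h ∈ closedBall x ((1 + (|ζ| + 1) / γ) * r) := by
    intro τ hτ h hh
    have e : (1 + (|ζ| + 1) / γ) * r = r + r / γ * |ζ| + r / γ := by ring
    have a : |h * ζ| ≤ r / γ * |ζ| := by rw [abs_mul]; gcongr
    have b : 0 ≤ r / γ * |ζ| := by positivity
    rw [mem_closedBall, Prod.dist_eq, Real.dist_eq, Real.dist_eq, max_le_iff, p1, p2, e]
    rw [abs_le] at a hh
    constructor <;> rw [abs_le] <;> constructor <;> linarith [hτ.1, hτ.2, a.1, a.2, hh.1, hh.2]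
  have up : ∀ τ ∈ Icc 0 r, ∀ τ' ∈ Icc 0 r, ∀ h h', |h| ≤ r / γ → |h'| ≤ r / γ → h < h' →
      |τ' - τ| ≤ γ * (h' - h) → d X (p τ h) < d X (p τ' h') := by
    intro τ hτ τ' hτ' h h' a a' b c
    refine lip _ (mem τ hτ h a) _ (mem τ' hτ' h' a') (by rw [p2, p2]; linarith) ?_
    rw [pp, p2, p2, sub_self, mul_zero, add_zero]
    linarith
  have z0 : p 0 0 = x := by ext <;> simp [hp]
  have i0 : (0 : ℝ) ∈ Icc 0 r := ⟨le_rfl, r0.le⟩
  have ex : ∀ τ ∈ Icc 0 r, ∃ h, |h| ≤ τ / γ ∧ d X (p τ h) = d X x := by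
    intro τ hτ
    rcases hτ.1.eq_or_lt with e | t0
    · exact ⟨0, by rw [← e]; simp, by rw [← e, z0]⟩
    have q0 : 0 < τ / γ := by positivity
    have q1 : τ / γ ≤ r / γ := by gcongr; exact hτ.2
    have q2 : γ * (τ / γ) = τ := by field_simp
    have a := up 0 i0 τ hτ 0 (τ / γ) (by simpa using rγ.le) (by rwa [abs_of_pos q0]) q0
      (by rw [sub_zero, sub_zero, q2, abs_of_pos t0])
    have b := up τ hτ 0 i0 (-(τ / γ)) 0 (by rwa [abs_neg, abs_of_pos q0]) (by simpa using rγ.le)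
      (by linarith) (by rw [zero_sub, zero_sub, neg_neg, q2, abs_neg, abs_of_pos t0])
    rw [z0] at a b
    have ct : ContinuousOn (fun h : ℝ => d X (p τ h)) (Icc (-(τ / γ)) (τ / γ)) :=
      pm.contOn_line hX fun h hh => hQ (mem τ hτ h ((abs_le.2 hh).trans q1))
    obtain ⟨h, hh, e⟩ := intermediate_value_Icc (by linarith) ct ⟨b.le, a.le⟩
    exact ⟨h, abs_le.2 hh, e⟩
  choose! h hb he using ex
  have hb' : ∀ τ ∈ Icc 0 r, |h τ| ≤ r / γ := fun τ hτ =>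
    (hb τ hτ).trans (by gcongr; exact hτ.2)
  have lp : ∀ τ ∈ Icc 0 r, ∀ τ' ∈ Icc 0 r, h τ' - h τ ≤ |τ' - τ| / γ := by
    intro τ hτ τ' hτ'
    by_contra c
    push Not at c
    have c0 : 0 ≤ |τ' - τ| / γ := by positivity
    have := up τ hτ τ' hτ' _ _ (hb' τ hτ) (hb' τ' hτ') (by linarith)
      (by rw [div_lt_iff₀' γ0] at c; exact c.le)
    rw [he τ hτ, he τ' hτ'] at this
    exact lt_irrefl _ this
  have lp' : ∀ τ ∈ Icc 0 r, ∀ τ' ∈ Icc 0 r, |h τ' - h τ| ≤ |τ' - τ| / γ := by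
    intro τ hτ τ' hτ'
    have := lp τ' hτ' τ hτ
    rw [abs_sub_comm] at this
    rw [abs_le]; constructor <;> linarith [lp τ hτ τ' hτ']
  have hc : ContinuousOn h (Icc 0 r) := by
    refine (LipschitzOnWith.of_dist_le' (K := γ⁻¹) fun a ha b hb => ?_).continuousOn
    rw [Real.dist_eq, Real.dist_eq, ← div_eq_inv_mul]
    exact lp' b hb a ha
  refine ⟨fun τ => p τ (h τ), ?_, ?_, fun τ hτ => ⟨mem τ hτ _ (hb' τ hτ), he τ hτ⟩, ?_⟩
  · have : h 0 = 0 := by simpa using hb 0 i0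
    simp only [this, z0]
  · exact (continuousOn_const.add (continuousOn_id.prodMk continuousOn_const)).add
      (hc.smul continuousOn_const)
  · intro τ hτ τ' hτ' le θ
    rw [pp]
    have a := lp' τ hτ τ' hτ'
    rw [abs_of_nonneg (sub_nonneg.2 le)] at a
    have b : |(h τ' - h τ) * (ζ - θ)| ≤ (τ' - τ) / γ * |θ - ζ| := by
      rw [abs_mul, abs_sub_comm ζ θ]; gcongr
    have e : (τ' - τ) * (1 - |θ - ζ| / γ) = τ' - τ - (τ' - τ) / γ * |θ - ζ| := by ring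
    rw [e]
    linarith [neg_abs_le ((h τ' - h τ) * (ζ - θ))]

/-- along a chord to the right the distance from the point of smaller slope drops -/
lemma ki2_mono {d : P → P → ℝ} {x0 : P} {ρ : ℝ} {μ : Measure (ℝ × ℝ)} {Ψ : ℝ → ℝ}
    (c : Crof d x0 ρ μ Ψ) {X X' y z : P} {J : Set ℝ} (hX : X ∈ ball x0 ρ) (hX' : X' ∈ ball x0 ρ)
    (hy : y ∈ ball x0 ρ) (hz : z ∈ ball x0 ρ)
    (hw : ∀ w ∈ segment ℝ y z, X.2 < w.2 ∧ X'.2 < w.2 ∧ sl w X ≤ sl w X' ∧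
      Icc (sl w X) (sl w X') ⊆ J) (hJ : ∀ θ ∈ J, 0 ≤ pr θ (z - y)) :
    d X z - d X y - (d X' z - d X' y) = -(2 * μ.real (sp y z ∩ sp X X')) := by
  have wy := hw y (left_mem_segment ℝ y z)
  have wz := hw z (right_mem_segment ℝ y z)
  have key : ∀ l ∈ sp y z ∩ sp X X', l ∉ sp X z := by
    rintro l ⟨h1, h2⟩
    obtain ⟨w, hs, e⟩ := sp_cross h1
    obtain ⟨a, a', b, b'⟩ := hw w hs
    have m := sp_slope (σ := 1) (Or.inl rfl) (by linarith) (by linarith) e h2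
    rw [uIcc_of_le b] at m
    have j := hJ _ (b' m)
    rw [pr_sub] at j
    have f := pr_sl a'.ne' l.2
    have f' : (w.2 - X'.2) * (l.2 - sl w X') ≤ 0 :=
      mul_nonpos_of_nonneg_of_nonpos (by linarith) (by linarith [m.2])
    simp only [sp, mem_ofPred_eq] at h1 h2 ⊢
    have n1 : ¬ l.1 < pr l.2 X' := by linarith
    have n2 : l.1 < pr l.2 z := by
      by_contra n
      exact h1 ⟨fun u => absurd (u.trans_le (by linarith)) n, fun u => absurd u n⟩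
    tauto
  have e1 : sp y z ∩ sp X X' ∩ sp X z = ∅ :=
    eq_empty_of_forall_notMem fun l hl => key l hl.1 hl.2
  have e2 : sp y z ∩ sp X X' ∩ sp X y = sp y z ∩ sp X X' := by
    refine inter_eq_left.2 fun l hl => ?_
    have a := key l hl
    have b := hl.1
    simp only [sp, mem_ofPred_eq] at a b ⊢
    tauto
  rw [c.two (σ := 1) (Or.inl rfl) hX hX' hy hz (by linarith [wy.1]) (by linarith [wz.1])
    (by linarith [wy.2.1]) (by linarith [wz.2.1]), e1, e2, measureReal_empty]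
  ring

lemma ki2_sum {Ω : ℝ → ℝ} (hΩ : Monotone Ω) (u : ℕ → ℝ) (w : ℝ) (n : ℕ)
    (hu : ∀ j < n, u (j + 1) + w ≤ u j - w) :
    ∑ j ∈ Finset.range (n + 1), (Ω (u j + w) - Ω (u j - w)) ≤ Ω (u 0 + w) - Ω (u n - w) := by
  induction n with
  | zero => simp
  | succ n ih =>
    rw [Finset.sum_range_succ]
    have a := ih fun j hj => hu j (by omega)
    have b := hΩ (hu n (by omega))
    linarith

/-- a parameter at which both levels lie in good blocks -/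
lemma ki2_pigeon {Ω1 Ω2 c1 c2 : ℝ → ℝ} (h1 : Monotone Ω1) (h2 : Monotone Ω2) {r w N V : ℝ}
    (r0 : 0 ≤ r) (w0 : 0 < w) (N0 : 0 < N) (ct : ContinuousOn c2 (Icc 0 r))
    (m2 : ∀ τ ∈ Icc 0 r, ∀ τ' ∈ Icc 0 r, τ ≤ τ' → c2 τ' ≤ c2 τ)
    (m1 : ∀ τ ∈ Icc 0 r, ∀ τ' ∈ Icc 0 r, τ ≤ τ' → c1 τ' - c1 τ ≤ c2 τ' - c2 τ)
    (v1 : ∀ a b, Ω1 b - Ω1 a ≤ V) (v2 : ∀ a b, Ω2 b - Ω2 a ≤ V)
    (hV : 4 * w * V ≤ N * (c2 0 - c2 r)) :
    ∃ τ ∈ Icc 0 r, Ω1 (c1 τ + w) - Ω1 (c1 τ - w) ≤ N ∧ Ω2 (c2 τ + w) - Ω2 (c2 τ - w) ≤ N := by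
  by_contra hc
  push Not at hc
  have d0 : 0 ≤ c2 0 - c2 r := sub_nonneg.2 (m2 0 ⟨le_rfl, r0⟩ r ⟨r0, le_rfl⟩ r0)
  set n := ⌊(c2 0 - c2 r) / (2 * w)⌋₊ with hn
  have n1 : (n : ℝ) * (2 * w) ≤ c2 0 - c2 r := by
    rw [← le_div_iff₀ (by positivity)]; exact Nat.floor_le (by positivity)
  have n2 : c2 0 - c2 r < (n + 1) * (2 * w) := by
    rw [← div_lt_iff₀ (by positivity)]; exact Nat.lt_floor_add_one _
  have ex : ∀ j ≤ n, ∃ τ ∈ Icc 0 r, c2 τ = c2 0 - j * (2 * w) := by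
    intro j hj
    have a : (j : ℝ) * (2 * w) ≤ n * (2 * w) := by gcongr
    have b : 0 ≤ (j : ℝ) * (2 * w) := by positivity
    exact intermediate_value_Icc' r0 ct ⟨by linarith, by linarith⟩
  choose! t ht et using ex
  have s2 : ∀ j < n, c2 (t (j + 1)) - c2 (t j) = -(2 * w) := by
    intro j hj
    rw [et j hj.le, et (j + 1) hj]; push_cast; ring
  have tm : ∀ j < n, t j ≤ t (j + 1) := by
    intro j hj
    by_contra c
    have := m2 _ (ht (j + 1) hj) _ (ht j hj.le) (not_le.1 c).le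
    linarith [s2 j hj]
  have a1 := ki2_sum h1 (fun j => c1 (t j)) w n fun j hj => by
    have := m1 _ (ht j hj.le) _ (ht (j + 1) hj) (tm j hj)
    linarith [s2 j hj]
  have a2 := ki2_sum h2 (fun j => c2 (t j)) w n fun j hj => by linarith [s2 j hj]
  have a3 : ∑ _j ∈ Finset.range (n + 1), N ≤ ∑ j ∈ Finset.range (n + 1),
      ((Ω1 (c1 (t j) + w) - Ω1 (c1 (t j) - w)) + (Ω2 (c2 (t j) + w) - Ω2 (c2 (t j) - w))) := by
    refine Finset.sum_le_sum fun j hj => ?_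
    have hj' : j ≤ n := Nat.lt_succ_iff.1 (Finset.mem_range.1 hj)
    have b1 := h1 (show c1 (t j) - w ≤ c1 (t j) + w by linarith)
    have b2 := h2 (show c2 (t j) - w ≤ c2 (t j) + w by linarith)
    by_cases b : Ω1 (c1 (t j) + w) - Ω1 (c1 (t j) - w) ≤ N
    · linarith [hc _ (ht j hj') b]
    · linarith [not_le.1 b]
  rw [Finset.sum_add_distrib, Finset.sum_const, Finset.card_range, nsmul_eq_mul] at a3
  push_cast at a3
  have b1 := v1 (c1 (t n) - w) (c1 (t 0) + w)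
  have b2 := v2 (c2 (t n) - w) (c2 (t 0) + w)
  have b3 : (n + 1 : ℝ) * N ≤ 2 * V := by linarith
  nlinarith [mul_lt_mul_of_pos_left n2 N0, mul_le_mul_of_nonneg_left b3 w0.le]

theorem p_KI2 (hLIPL : S_LIPL) (hKI1 : S_KI1) :
    S_KI2 := by
  intro c R ι S ζ hζ
  have := c.crof.fin
  obtain ⟨γ, γ0, ρL, ρL0, γ1, lipl⟩ := hLIPL c R ζ
  refine ⟨γ / 4, by positivity, fun η η0 η1 => ?_⟩
  have neg : ∀ t ≤ ζ, Neg (ln c.G) t := fun t ht => by
    obtain ⟨z, hz, a⟩ := hζ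
    exact ⟨z, hz, ht.trans_lt a⟩
  set Λ := 1 + (|ζ| + 1) / γ with hΛ
  have Λ1 : 1 ≤ Λ := by rw [hΛ]; have : 0 ≤ (|ζ| + 1) / γ := by positivity
                        linarith
  set K := (|ζ| + 2) * Λ with hK
  have K1 : 1 ≤ K := by nlinarith [abs_nonneg ζ]
  obtain ⟨C1, C10, ρ1', ρ10, cm1⟩ := R.cmp (|ζ| + 1) (-c.T0) (1 - c.T0) (by linarith) c.neg K K1
  obtain ⟨C2, C20, ρ2', ρ20, cm2⟩ := R.cmp c.T0 (ζ - η / 2) (ζ - η / 4) (by linarith)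
    (neg _ (by linarith)) 4 (by norm_num)
  obtain ⟨ε1, ε10, k1⟩ := hKI1 c R ι S (ζ - 2 * η) (neg _ (by linarith)) (2 * C1) (by positivity)
  obtain ⟨ε2, ε20, k2⟩ := hKI1 c R ι S (ζ - η) (neg _ (by linarith)) (2 * C1) (by positivity)
  refine ⟨min (min ε1 ε2) (η / 16), by positivity,
    fun v1 hv1 v2 hv2 ε ρ1 ρ2 ε0 hε ce1 ce2 X t hX ht k δ e δ0 δk e0 => ?_⟩
  have k0 : 0 < k := δ0.trans_le δk
  have a1 : ε ≤ ε1 := hε.trans ((min_le_left _ _).trans (min_le_left _ _))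
  have a2 : ε ≤ ε2 := hε.trans ((min_le_left _ _).trans (min_le_right _ _))
  have a3 : ε ≤ η / 16 := hε.trans (min_le_right _ _)
  have a4 : |t - ζ| ≤ η / 16 := ht.trans (min_le_right _ _)
  obtain ⟨R1, k1⟩ := k1 v1 hv1 ε ρ1 ε0 a1 ce1 k δ e (1 / (4 * k * C2)) δ0 δk e0 (by positivity)
  obtain ⟨R2, k2⟩ := k2 v2 hv2 ε ρ2 ε0 a2 ce2 k δ e (1 / (4 * k * C2)) δ0 δk e0 (by positivity)
  set Rr := max (max R1 R2) 1 with hR
  have Rr0 : 0 < Rr := one_pos.trans_le (le_max_right _ _)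
  obtain ⟨D1, Ω1, f1, mo1, tv1, st1⟩ := k1 Rr ((le_max_left _ _).trans (le_max_left _ _))
  obtain ⟨D2, Ω2, f2, mo2, tv2, st2⟩ := k2 Rr ((le_max_right _ _).trans (le_max_left _ _))
  have main : ∀ᶠ i in (S.U : Filter ι), ∃ y, y ∈ S.B (Λ * Rr) i ∧
      c.d (X i) y = c.d (X i) (S.x i) ∧
      |c.d (dO (D1 i)) y - c.d (dO (D1 i)) (S.x i)| ≤
        2 * C1 * mT c.μ c.T0 (S.x i) (Rr * S.s i) ∧
      |c.d (dO (D2 i)) y - c.d (dO (D2 i)) (S.x i)| ≤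
        2 * C1 * mT c.μ c.T0 (S.x i) (Rr * S.s i) ∧
      Ω1 i (c.d (dO (D1 i)) y + 2 * k * S.N i) - Ω1 i (c.d (dO (D1 i)) y - 2 * k * S.N i) ≤
        S.N i ∧
      Ω2 i (c.d (dO (D2 i)) y + 2 * k * S.N i) - Ω2 i (c.d (dO (D2 i)) y - 2 * k * S.N i) ≤
        S.N i := by
    obtain ⟨-, -, m1, -⟩ := f1
    obtain ⟨-, -, m2, -⟩ := f2
    filter_upwards [tv1, tv2, hX (Λ * Rr) (η / 16) (by positivity), S.ev_ball (Λ * Rr) ρL0,
      S.ev_ball (Λ * Rr) c.rho0, S.ev_ball (Λ * Rr) ce1.rho, S.ev_ball (Λ * Rr) ce2.rho,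
      S.ev_ball (Λ * Rr) ρ10, S.ev_ball (Λ * Rr) ρ20] with i t1 t2 fX bL b0 b1 b2 b3 b4
    have s0 := S.s0 i
    have N0 := S.N0 i
    set r := Rr * S.s i with hr
    have r0 : 0 < r := by positivity
    have eB : S.B (Λ * Rr) i = closedBall (S.x i) (Λ * r) := by rw [Sys.B, mul_assoc]
    rw [eB] at bL b0 b1 b2 b3 b4 fX ⊢
    rw [mul_assoc, ← hr] at b3 b4 fX
    have rΛ : r ≤ Λ * r := le_mul_of_one_le_left r0.le Λ1
    set x := S.x i with hx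
    set Q := closedBall x (Λ * r) with hQ
    have xQ : x ∈ Q := mem_closedBall_self (by linarith)
    have cv : ∀ {y z : P}, y ∈ Q → z ∈ Q → segment ℝ y z ⊆ Q := fun hy hz =>
      (convex_closedBall _ _).segment_subset hy hz
    have sX : ∀ w ∈ Q, (X i).2 < w.2 ∧ ζ - η / 8 ≤ sl w (X i) ∧ sl w (X i) ≤ ζ + η / 8 := by
      intro w hw
      obtain ⟨u1, u2⟩ := fX.2 w hw
      rw [abs_le] at u2 a4
      exact ⟨by linarith, by linarith [u2.1, a4.1], by linarith [u2.2, a4.2]⟩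
    have s1 : ∀ w ∈ Q, (dO (D1 i)).2 < w.2 ∧ ζ - 17 * η / 8 ≤ sl w (dO (D1 i)) ∧
        sl w (dO (D1 i)) ≤ ζ - 15 * η / 8 := by
      intro w hw
      have u1 := ce1.hO _ (m1 i) w (ball_subset_closedBall (b1.1 hw))
      have u2 := abs_le.1 (ce1.sO _ (m1 i) w (ball_subset_closedBall (b1.1 hw)))
      exact ⟨by linarith [ce1.rho], by linarith [u2.1], by linarith [u2.2]⟩
    have s2 : ∀ w ∈ Q, (dO (D2 i)).2 < w.2 ∧ ζ - 9 * η / 8 ≤ sl w (dO (D2 i)) ∧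
        sl w (dO (D2 i)) ≤ ζ - 7 * η / 8 := by
      intro w hw
      have u1 := ce2.hO _ (m2 i) w (ball_subset_closedBall (b2.1 hw))
      have u2 := abs_le.1 (ce2.sO _ (m2 i) w (ball_subset_closedBall (b2.1 hw)))
      exact ⟨by linarith [ce2.rho], by linarith [u2.1], by linarith [u2.2]⟩
    obtain ⟨g, g0, gc, gm, gp⟩ := ki2_leaf c.gp.pm (X := X i) (x := x) (ζ := ζ) γ0 (c.sub fX.1)
      (b0.1.trans c.sub) (fun y hy y' hy' => lipl _ fX.1 y (bL.1 hy) y' (bL.1 hy') fun w hw => by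
        obtain ⟨u1, u2, u3⟩ := sX w (cv hy hy' hw)
        exact ⟨u1, by rw [abs_le]; constructor <;> linarith⟩) r0
    have o1 := ce1.mO _ (m1 i)
    have o2 := ce2.mO _ (m2 i)
    have ch : ∀ τ ∈ Icc 0 r, ∀ τ' ∈ Icc 0 r, τ ≤ τ' → ∀ θ ∈ Icc (ζ - γ) (ζ + γ),
        0 ≤ pr θ (g τ' - g τ) := by
      intro τ hτ τ' hτ' le θ hθ
      refine le_trans (mul_nonneg (by linarith) ?_) (gp τ hτ τ' hτ' le θ)
      rw [sub_nonneg, div_le_one γ0, abs_le]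
      constructor <;> linarith [hθ.1, hθ.2]
    have mono : ∀ A ∈ ball (0 : P) c.ρ0, ∀ A' ∈ ball (0 : P) c.ρ0,
        (∀ w ∈ Q, A.2 < w.2 ∧ A'.2 < w.2 ∧ sl w A ≤ sl w A' ∧ ζ - γ ≤ sl w A ∧
          sl w A' ≤ ζ + γ) → ∀ τ ∈ Icc 0 r, ∀ τ' ∈ Icc 0 r, τ ≤ τ' →
        c.d A (g τ') - c.d A (g τ) - (c.d A' (g τ') - c.d A' (g τ)) =
          -(2 * c.μ.real (sp (g τ) (g τ') ∩ sp A A')) := by
      intro A hA A' hA' hw τ hτ τ' hτ' le
      refine ki2_mono c.crof hA hA' (b0.1 (gm τ hτ).1) (b0.1 (gm τ' hτ').1) (fun w hs => ?_)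
        (ch τ hτ τ' hτ' le)
      obtain ⟨u1, u2, u3, u4, u5⟩ := hw w (cv (gm τ hτ).1 (gm τ' hτ').1 hs)
      exact ⟨u1, u2, u3, Icc_subset_Icc u4 u5⟩
    have w1X : ∀ w ∈ Q, (dO (D1 i)).2 < w.2 ∧ (X i).2 < w.2 ∧ sl w (dO (D1 i)) ≤ sl w (X i) ∧
        ζ - γ ≤ sl w (dO (D1 i)) ∧ sl w (X i) ≤ ζ + γ := fun w hw => by
      obtain ⟨u1, u2, u3⟩ := s1 w hw
      obtain ⟨u4, u5, u6⟩ := sX w hw
      exact ⟨u1, u4, by linarith, by linarith, by linarith⟩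
    have w2X : ∀ w ∈ Q, (dO (D2 i)).2 < w.2 ∧ (X i).2 < w.2 ∧ sl w (dO (D2 i)) ≤ sl w (X i) ∧
        ζ - γ ≤ sl w (dO (D2 i)) ∧ sl w (X i) ≤ ζ + γ := fun w hw => by
      obtain ⟨u1, u2, u3⟩ := s2 w hw
      obtain ⟨u4, u5, u6⟩ := sX w hw
      exact ⟨u1, u4, by linarith, by linarith, by linarith⟩
    have w12 : ∀ w ∈ Q, (dO (D1 i)).2 < w.2 ∧ (dO (D2 i)).2 < w.2 ∧
        sl w (dO (D1 i)) ≤ sl w (dO (D2 i)) ∧ ζ - γ ≤ sl w (dO (D1 i)) ∧
        sl w (dO (D2 i)) ≤ ζ + γ := fun w hw => by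
      obtain ⟨u1, u2, u3⟩ := s1 w hw
      obtain ⟨u4, u5, u6⟩ := s2 w hw
      exact ⟨u1, u4, by linarith, by linarith, by linarith⟩
    have i0 : (0 : ℝ) ∈ Icc 0 r := ⟨le_rfl, r0.le⟩
    have ir : r ∈ Icc 0 r := ⟨r0.le, le_rfl⟩
    have bound : ∀ A ∈ ball (0 : P) c.ρ0,
        (∀ w ∈ Q, A.2 < w.2 ∧ (X i).2 < w.2 ∧ sl w A ≤ sl w (X i) ∧ ζ - γ ≤ sl w A ∧
          sl w (X i) ≤ ζ + γ) → ∀ τ ∈ Icc 0 r,
        |c.d A (g τ) - c.d A x| ≤ 2 * C1 * mT c.μ c.T0 x r := by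
      intro A hA hw τ hτ
      have u := mono A hA _ fX.1 hw 0 i0 τ hτ hτ.1
      rw [(gm τ hτ).2, g0, sub_self, sub_zero] at u
      rw [u, abs_neg, abs_of_nonneg (by positivity), mul_assoc]
      gcongr
      have v1 : c.μ.real (sp x (g τ) ∩ sp A (X i)) ≤ mT c.μ (|ζ| + 1) x (K * r) := by
        refine measureReal_mono ?_
        rintro l ⟨l1, l2⟩
        obtain ⟨w, hs, e⟩ := sp_cross l1
        obtain ⟨u1, u2, u3, u4, u5⟩ := hw w (cv xQ (gm τ hτ).1 hs)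
        have m := sp_slope (σ := 1) (Or.inl rfl) (by linarith) (by linarith) e l2
        rw [uIcc_of_le u3] at m
        have b : |l.2| ≤ |ζ| + 1 := by
          rw [abs_le]
          constructor <;> linarith [m.1, m.2, le_abs_self ζ, neg_abs_le ζ]
        refine ⟨abs_le.1 b, (sp_near xQ (gm τ hτ).1 l1).trans ?_⟩
        rw [hK, mul_assoc]
        exact mul_le_mul_of_nonneg_right (by linarith) (by linarith)
      refine v1.trans ((cm1 x (b3.1 xQ) r r0 (by linarith [b3.2]) x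
        (mem_closedBall_self (by positivity))).trans ?_)
      gcongr
      exact mw_mono c.μ (Icc_subset_Icc le_rfl (by linarith [c.t0])) _ (div_le_self r0.le K1)
    have drop : 2 * mT c.μ c.T0 x r ≤ C2 * (c.d (dO (D2 i)) (g 0) - c.d (dO (D2 i)) (g r)) := by
      have u := mono _ o2 _ fX.1 w2X 0 i0 r ir r0.le
      rw [(gm r ir).2, (gm 0 i0).2, sub_self, sub_zero] at u
      have v1 := cm2 x (b4.1 xQ) r r0 (by linarith [b4.2]) (x + (r / 2, 0)) (by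
        rw [mem_closedBall, dist_self_add_left, Prod.norm_def, max_le_iff, Real.norm_eq_abs,
          abs_of_pos (by positivity), norm_zero]
        constructor <;> linarith)
      have v2 : mT c.μ c.T0 x r ≤ mT c.μ c.T0 x (4 * r) := mw_mono c.μ Subset.rfl _ (by linarith)
      have v3 : mw c.μ (Icc (ζ - η / 2) (ζ - η / 4)) (x + (r / 2, 0)) (r / 4) ≤
          c.μ.real (sp (g 0) (g r) ∩ sp (dO (D2 i)) (X i)) := by
        refine measureReal_mono ?_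
        rintro l ⟨l1, l2⟩
        have p1 := gp 0 i0 r ir r0.le l.2
        have p2 : |l.2 - ζ| / γ ≤ 1 / 8 := by
          rw [div_le_iff₀ γ0, abs_le]; constructor <;> linarith [l1.1, l1.2]
        have p3 : pr l.2 (x + (r / 2, 0)) = pr l.2 x + r / 2 := by
          rw [pr_add]; simp [pr]
        rw [p3, abs_le] at l2
        rw [pr_sub, g0] at p1
        have l3 : l ∈ sp (g 0) (g r) := by
          rw [g0]
          intro hh
          have := hh.2 (by nlinarith [l2.2])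
          linarith [l2.1]
        obtain ⟨w, hs, e⟩ := sp_cross l3
        have wQ := cv (gm 0 i0).1 (gm r ir).1 hs
        obtain ⟨u1, u2, u3⟩ := s2 w wQ
        obtain ⟨u4, u5, u6⟩ := sX w wQ
        exact ⟨l3, sp_of_slope (σ := 1) (Or.inl rfl) (by linarith) (by linarith) e
          (by linarith [l1.1]) (by linarith [l1.2])⟩
      nlinarith [mul_le_mul_of_nonneg_left v3 C20.le]
    obtain ⟨τ, hτ, q1, q2⟩ := ki2_pigeon (c1 := fun τ => c.d (dO (D1 i)) (g τ))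
      (c2 := fun τ => c.d (dO (D2 i)) (g τ)) (mo1 i) (mo2 i) (w := 2 * k * S.N i) r0.le
      (by positivity) N0
      (c.gp.pm.cont.comp (continuousOn_const.prodMk gc)
        fun τ hτ => ⟨c.sub o2, c.sub (b0.1 (gm τ hτ).1)⟩)
      (fun τ hτ τ' hτ' le => by
        have u := mono _ o2 _ fX.1 w2X τ hτ τ' hτ' le
        rw [(gm τ hτ).2, (gm τ' hτ').2] at u
        have : 0 ≤ c.μ.real (sp (g τ) (g τ') ∩ sp (dO (D2 i)) (X i)) := measureReal_nonneg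
        linarith)
      (fun τ hτ τ' hτ' le => by
        have u := mono _ o1 _ o2 w12 τ hτ τ' hτ' le
        have : 0 ≤ c.μ.real (sp (g τ) (g τ') ∩ sp (dO (D1 i)) (dO (D2 i))) := measureReal_nonneg
        linarith) t1 t2 (by
        have e1 : 4 * (2 * k * S.N i) * (1 / (4 * k * C2) * mT c.μ c.T0 x r) =
            S.N i * (2 * mT c.μ c.T0 x r / C2) := by field_simp
        rw [e1]
        gcongr
        rw [div_le_iff₀' C20]
        exact drop)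
    exact ⟨g τ, (gm τ hτ).1, (gm τ hτ).2, bound _ o1 w1X τ hτ, bound _ o2 w2X τ hτ, q1, q2⟩
  obtain ⟨y, hy⟩ := main.choice
  refine ⟨D1, D2, y, Λ * Rr, f1, f2, hy.mono fun i h => ⟨h.1, h.2.1⟩, fun L => ?_⟩
  filter_upwards [hy, st1 L, st2 L] with i h u1 u2
  exact ⟨u1 _ h.2.2.1 h.2.2.2.2.1, u2 _ h.2.2.2.1 h.2.2.2.2.2⟩

end Pool.Agent.P.MP_874adf_gt.Gn
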