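import Pool.Agent.P.MP_874adf_gt.Gn.LinA

/-! The mass along the line through the foci, and the covering. -/

set_option autoImplicit false

namespace Pool.Agent.P.MP_874adf_gt.Gn

open Pool.Agent.P.MP_874adf_gt.Fs Set Filter Topology Metric MeasureTheory

namespace LINaux

open MOVaux

variable {d : P → P → ℝ} {x0 : P} {ρ : ℝ} {μ : Measure (ℝ × ℝ)} {Ψ : ℝ → ℝ}

lemma abs_mul_le {a b A B : ℝ} (ha : |a| ≤ A) (hb : |b| ≤ B) : |a * b| ≤ A * B := by
  rw [abs_mul]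
  exact mul_le_mul ha hb (abs_nonneg _) ((abs_nonneg _).trans ha)

lemma det (h : Crof d x0 ρ μ Ψ) {O A B x : P} {s N k q ζ ν t t' L a η τm K lam : ℝ}
    (hO : O ∈ ball x0 ρ) (hA : A ∈ ball x0 ρ) (hB : B ∈ ball x0 ρ)
    (sub : closedBall x (k * s) ⊆ ball x0 ρ) (s0 : 0 < s) (q0 : 0 ≤ q)
    (mon : ∀ y ∈ closedBall x (k * s), ∀ z ∈ closedBall x (k * s), d O y ≤ d O z →
      d A y - d O y + q * (d A y - d B y) ≤ d A z - d O z + q * (d A z - d B z) + N)
    (fO : ∀ y ∈ closedBall x (k * s), k * s ≤ y.2 - O.2 ∧ |sl y O - ζ| ≤ η)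
    (fA : ∀ y ∈ closedBall x (k * s), k * s ≤ y.2 - A.2 ∧ |sl y A - (ζ - ν)| ≤ η)
    (fB : ∀ y ∈ closedBall x (k * s), k * s ≤ y.2 - B.2 ∧ |sl y B - (ζ - ν)| ≤ η)
    (ord : ∀ y ∈ closedBall x (k * s), sl y B ≤ sl y A)
    (ν0 : 0 < ν) (γ0 : t < ζ - ν) (L0 : 0 < L) (ha : a = 0 ∨ a = -1)
    (η1 : η ≤ (ζ - ν - t) / 2) (η2 : η ≤ ν / 6) (η3 : ζ + η ≤ t') (τ0 : 0 ≤ τm)
    (η4 : τm * η ≤ L * (ζ - ν - t) / 8) (K1 : 1 ≤ K) (K2 : |t| ≤ K) (K3 : |ζ| + 2 * ν ≤ K)
    (l0 : 0 < lam) (l1 : lam * ν = L * (ζ - ν - t) / 8) (hk : (L + τm + lam) * K ≤ k)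
    (g : Good μ x s a L t t') {τ : ℝ} (hτ : |τ| ≤ τm) :
    μ.real {l | l.2 ∈ Icc (ζ - ν + ν / 3) (ζ - ν + 2 * ν / 3) ∧
        pr l.2 (pt x s ((a + 3 / 4) * L * t + τ * (ζ - ν)) ((a + 3 / 4) * L + τ)) ≤ l.1 ∧
        l.1 < pr l.2 (pt x s ((a + 3 / 4) * L * t + τ * (ζ - ν)) ((a + 3 / 4) * L + τ)) +
          s * (lam * ν / 6)} ≤ mT μ K x ((1 + K) * (L * K) * s) + N := by
  have := h.fin
  set γ := ζ - ν - t with hγ
  have γp : 0 < γ := by linarith
  have K0 : 0 < K := by linarith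
  have LK : L * K ≤ k := by linarith [mul_nonneg (add_nonneg τ0 l0.le) K0.le]
  have LK0 : L ≤ L * K := le_mul_of_one_le_right L0.le K1
  have k0 : 0 < k := by linarith
  have ks : 0 < k * s := mul_pos k0 s0
  have aL : |a * L| ≤ L := by
    rcases ha with rfl | rfl <;> simp [abs_of_pos L0, L0.le]
  have aL1 : |(a + 1) * L| ≤ L := by
    rcases ha with rfl | rfl <;> simp [abs_of_pos L0, L0.le]
  have aL2 : |(a + 3 / 4) * L| ≤ L := by
    rw [abs_le]
    rcases ha with rfl | rfl <;> constructor <;> linarith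
  have zK : |ζ - ν| ≤ K := by
    have := abs_sub ζ ν
    rw [abs_of_pos ν0] at this
    linarith
  set y := pt x s (a * L * t) (a * L) with hy
  set z := pt x s ((a + 1) * L * t) ((a + 1) * L) with hz
  set w := pt x s ((a + 3 / 4) * L * t + τ * (ζ - ν)) ((a + 3 / 4) * L + τ) with hw
  have my' : y ∈ closedBall x (L * K * s) := mem_pt s0.le (abs_mul_le aL K2) (aL.trans LK0)
  have mz' : z ∈ closedBall x (L * K * s) := mem_pt s0.le (abs_mul_le aL1 K2) (aL1.trans LK0)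
  have sub' : closedBall x (L * K * s) ⊆ closedBall x (k * s) :=
    closedBall_subset_closedBall (mul_le_mul_of_nonneg_right LK s0.le)
  have my := sub' my'
  have mz := sub' mz'
  have c1 := abs_mul_le aL2 K2
  have c2 := abs_mul_le hτ zK
  have c3 : τm ≤ τm * K := le_mul_of_one_le_right τ0 K1
  have c4 : lam ≤ lam * K := le_mul_of_one_le_right l0.le K1
  have c5 : 0 ≤ lam * K := by positivity
  have mw' : w ∈ closedBall x (k * s) := by
    refine mem_pt s0.le ((abs_add_le _ _).trans ?_) ((abs_add_le _ _).trans ?_) <;> linarith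
  set σ := sl w O with hσ
  have σ1 := (fO w mw').2
  rw [← hσ] at σ1
  have σK : |σ| ≤ K := by
    have := abs_sub_abs_le_abs_sub σ ζ
    linarith
  set w' := pt x s ((a + 3 / 4) * L * t + τ * (ζ - ν) + lam * σ) ((a + 3 / 4) * L + τ + lam) with hw'
  have c6 : |lam * σ| ≤ lam * K := abs_mul_le (abs_of_pos l0).le σK
  have mw2 : w' ∈ closedBall x (k * s) := by
    refine mem_pt s0.le ((abs_add_three _ _ _).trans ?_) ((abs_add_three _ _ _).trans ?_)
    · linarith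
    · rw [abs_of_pos l0]
      linarith
  rw [abs_le] at σ1
  -- upper bound
  have u1 : d O y ≤ d O z := by
    refine up h hO sub s0.le L0.le my mz (fun p hp => ?_) g
    obtain ⟨b1, b2⟩ := fO p hp
    rw [abs_le] at b2
    exact ⟨by linarith, by linarith, by linarith⟩
  have u2 := mon y my z mz u1
  have u3 := diff_le (σ := 1) h (Or.inl rfl) hA hO (sub my) (sub mz) (by linarith [(fA y my).1])
    (by linarith [(fA z mz).1]) (by linarith [(fO y my).1]) (by linarith [(fO z mz).1])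
  have u4 : μ.real (sp y z ∩ sp A O) ≤ mT μ K x ((1 + K) * (L * K) * s) := by
    refine measureReal_mono ((win (σ := 1) (t := 0) (g := K) (T := K)
      (R := (1 + K) * (L * K) * s) (Or.inl rfl) my' mz'
      (le_of_eq (by ring)) fun p hp => ?_).trans fun l hl => ⟨hl.1.2, hl.2⟩)
    obtain ⟨b1, b2⟩ := fO p (sub' hp)
    obtain ⟨b3, b4⟩ := fA p (sub' hp)
    have b5 := abs_sub_abs_le_abs_sub (sl p O) ζ
    have b6 := abs_sub_abs_le_abs_sub (sl p A) (ζ - ν)
    have b7 := abs_sub ζ ν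
    rw [abs_of_pos ν0] at b7
    have b8 : |sl p A| ≤ K := by linarith
    have b9 : |sl p O| ≤ K := by linarith
    exact ⟨by linarith, by linarith, b8, b9, by simpa using b8, by simpa using b9⟩
  rw [abs_le] at u3
  -- comparison of the two steps
  have hab : ∀ p ∈ closedBall x (k * s), A.2 < p.2 ∧ B.2 < p.2 ∧ |sl p A - (ζ - ν)| ≤ η ∧
      |sl p B - (ζ - ν)| ≤ η ∧ sl p B ≤ sl p A := fun p hp =>
    ⟨by linarith [(fA p hp).1], by linarith [(fB p hp).1], (fA p hp).2, (fB p hp).2, ord p hp⟩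
  have g1 : d A z - d B z ≤ d A w - d B w := by
    refine gm h hA hB sub mz mw' hab fun θ hθ => ?_
    have b1 := abs_mul_le hτ hθ
    rw [abs_le] at hθ b1
    rw [hz, hw, pr_pt, pr_pt]
    have b2 : L * (γ / 2) ≤ L * (θ - t) := mul_le_mul_of_nonneg_left (by linarith [hθ.1]) L0.le
    have b3 : (a + 1) * L * t - θ * ((a + 1) * L) ≤
        (a + 3 / 4) * L * t + τ * (ζ - ν) - θ * ((a + 3 / 4) * L + τ) := by linarith [b1.2]
    linarith [mul_le_mul_of_nonneg_left b3 s0.le]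
  have g2 : d A w' - d B w' ≤ d A y - d B y := by
    refine gm h hA hB sub mw2 my hab fun θ hθ => ?_
    have b1 := abs_mul_le hτ hθ
    rw [abs_le] at hθ b1
    rw [hy, hw', pr_pt, pr_pt]
    have b2 : L * (γ / 2) ≤ L * (θ - t) := mul_le_mul_of_nonneg_left (by linarith [hθ.1]) L0.le
    have b4 : lam * (σ - θ) ≤ lam * (2 * ν) := mul_le_mul_of_nonneg_left (by linarith [hθ.1]) l0.le
    have b3 : (a + 3 / 4) * L * t + τ * (ζ - ν) + lam * σ - θ * ((a + 3 / 4) * L + τ + lam) ≤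
        a * L * t - θ * (a * L) := by linarith [b1.1]
    linarith [mul_le_mul_of_nonneg_left b3 s0.le]
  -- lower bound
  obtain ⟨r1, r2⟩ := ray (c := s * lam) (m := s * (lam * ν / 6))
    (J := Icc (ζ - ν + ν / 3) (ζ - ν + 2 * ν / 3)) h hO hA (sub mw') (sub mw2)
    (by linarith [(fO w mw').1]) (by linarith [(fA w mw').1]) (by positivity)
    (by rw [← hσ]; simp only [hw', hw, pt]; ring) (by simp only [hw', hw, pt]; ring) (fun θ hθ => by
      obtain ⟨b1, b2⟩ := fA w mw'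
      rw [abs_le] at b2
      have b3 : ν / 6 ≤ σ - θ := by linarith [hθ.2]
      have b4 : ν / 6 ≤ θ - sl w A := by linarith [hθ.1]
      have b5 : 0 < s * lam := by positivity
      have b6 : s * lam ≤ w.2 - A.2 := by
        have : lam ≤ k := by linarith [mul_nonneg (add_nonneg L0.le τ0) K0.le]
        linarith [mul_le_mul_of_nonneg_left this s0.le]
      constructor
      · rw [← hσ]
        linarith [mul_le_mul_of_nonneg_left b3 b5.le]
      · have := mul_le_mul b6 b4 (by positivity) (by linarith)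
        linarith)
  have r3 := mon w mw' w' mw2 r1
  have g3 := mul_le_mul_of_nonneg_left g1 q0
  have g4 := mul_le_mul_of_nonneg_left g2 q0
  linarith [u3.1, u3.2]

lemma cover [IsFiniteMeasure μ] {x : P} {s α t ξ ν δ m c0 R Q : ℝ} (s0 : 0 < s) (ν0 : 0 < ν)
    (δ0 : 0 < δ) (hm : δ * (2 * ν / 3) ≤ m) (R0 : 0 ≤ R)
    (hc : ∀ θ ∈ Icc (ξ + ν / 3) (ξ + 2 * ν / 3), |α * (t - θ)| ≤ c0) (Q0 : 0 ≤ Q)
    (hQ : ∀ τ, |τ| ≤ 3 * (R + c0) / ν + 2 * δ →
      μ.real {l | l.2 ∈ Icc (ξ + ν / 3) (ξ + 2 * ν / 3) ∧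
        pr l.2 (pt x s (α * t + τ * ξ) (α + τ)) ≤ l.1 ∧
        l.1 < pr l.2 (pt x s (α * t + τ * ξ) (α + τ)) + s * m} ≤ Q) :
    mw μ (Icc (ξ + ν / 3) (ξ + 2 * ν / 3)) x (R * s) ≤ (6 * (R + c0) / (δ * ν) + 5) * Q := by
  have c00 : 0 ≤ c0 := (abs_nonneg _).trans (hc (ξ + ν / 3) ⟨le_rfl, by linarith⟩)
  set b := 3 * (R + c0) / (δ * ν) with hb
  have b0 : 0 ≤ b := by positivity
  have bδ : b * (δ * ν) = 3 * (R + c0) := div_mul_cancel₀ _ (by positivity)
  set n : ℕ := ⌈b⌉₊ + 1 with hn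
  have n1 : b + 1 ≤ n := by
    push_cast [hn]
    linarith [Nat.le_ceil b]
  have n2 : (n : ℝ) ≤ b + 2 := by
    push_cast [hn]
    linarith [Nat.ceil_lt_add_one b0]
  set F : ℤ → Set (ℝ × ℝ) := fun j => {l | l.2 ∈ Icc (ξ + ν / 3) (ξ + 2 * ν / 3) ∧
        pr l.2 (pt x s (α * t + j * δ * ξ) (α + j * δ)) ≤ l.1 ∧
        l.1 < pr l.2 (pt x s (α * t + j * δ * ξ) (α + j * δ)) + s * m} with hF
  have cov : {l : ℝ × ℝ | l.2 ∈ Icc (ξ + ν / 3) (ξ + 2 * ν / 3) ∧ |l.1 - pr l.2 x| ≤ R * s} ⊆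
      ⋃ j ∈ Finset.Icc (-(n : ℤ)) n, F j := by
    rintro ⟨p, θ⟩ ⟨h1, h2⟩
    simp only at h1 h2
    have β1 : ν / 3 ≤ θ - ξ := by linarith [h1.1]
    have β2 : θ - ξ ≤ 2 * ν / 3 := by linarith [h1.2]
    have β0 : 0 < δ * (θ - ξ) := mul_pos δ0 (by linarith)
    set u := (p - pr θ x) / s - α * (t - θ) with hu
    have u1 : |u| ≤ R + c0 := by
      have a1 : |(p - pr θ x) / s| ≤ R := by
        rw [abs_div, abs_of_pos s0, div_le_iff₀ s0]
        exact h2
      linarith [abs_sub ((p - pr θ x) / s) (α * (t - θ)), hc θ h1]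
    have u2 : p = pr θ x + s * (u + α * (t - θ)) := by
      rw [hu]
      field_simp
      ring
    set e := -u / (δ * (θ - ξ)) with he
    have e1 : e * (δ * (θ - ξ)) = -u := div_mul_cancel₀ _ β0.ne'
    have e2 : |e| ≤ b := by
      rw [he, abs_div, abs_neg, abs_of_pos β0, div_le_iff₀ β0]
      have : b * (δ * (ν / 3)) ≤ b * (δ * (θ - ξ)) :=
        mul_le_mul_of_nonneg_left (mul_le_mul_of_nonneg_left β1 δ0.le) b0
      linarith
    rw [abs_le] at e2
    have j1 := Int.le_ceil e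
    have j2 := Int.ceil_lt_add_one e
    simp only [mem_iUnion, Finset.mem_Icc]
    refine ⟨⌈e⌉, ⟨?_, ?_⟩, h1, ?_, ?_⟩
    · have : ((-(n : ℤ) : ℤ) : ℝ) ≤ (⌈e⌉ : ℤ) := by
        push_cast
        linarith
      exact_mod_cast this
    · have : ((⌈e⌉ : ℤ) : ℝ) ≤ ((n : ℤ) : ℝ) := by
        push_cast
        linarith
      exact_mod_cast this
    · simp only [pr_pt]
      have a1 := mul_le_mul_of_nonneg_right j1 β0.le
      have a2 : α * t + ⌈e⌉ * δ * ξ - θ * (α + ⌈e⌉ * δ) ≤ u + α * (t - θ) := by linarith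
      linarith [mul_le_mul_of_nonneg_left a2 s0.le]
    · simp only [pr_pt]
      have a1 := mul_lt_mul_of_pos_right j2 β0
      have a3 := mul_le_mul_of_nonneg_left β2 δ0.le
      have a2 : u + α * (t - θ) < α * t + ⌈e⌉ * δ * ξ - θ * (α + ⌈e⌉ * δ) + m := by linarith
      linarith [mul_lt_mul_of_pos_left a2 s0]
  have each : ∀ j ∈ Finset.Icc (-(n : ℤ)) n, μ.real (F j) ≤ Q := by
    intro j hj
    rw [Finset.mem_Icc] at hj
    refine hQ (j * δ) ?_
    have a1 : |(j : ℝ)| ≤ n := by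
      rw [abs_le]
      constructor
      · exact_mod_cast hj.1
      · exact_mod_cast hj.2
    have a2 : b * δ = 3 * (R + c0) / ν := by
      rw [hb]
      field_simp
    rw [abs_mul, abs_of_pos δ0]
    linarith [mul_le_mul_of_nonneg_right (a1.trans n2) δ0.le]
  have tot : μ.real (⋃ j ∈ Finset.Icc (-(n : ℤ)) n, F j) ≤ (2 * n + 1) * Q := by
    refine (measureReal_biUnion_finset_le _ _).trans ?_
    refine (Finset.sum_le_card_nsmul _ _ _ each).trans (le_of_eq ?_)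
    rw [Int.card_Icc, nsmul_eq_mul]
    have : (n : ℤ) + 1 - -(n : ℤ) = ((2 * n + 1 : ℕ) : ℤ) := by
      push_cast
      ring
    rw [this, Int.toNat_natCast]
    push_cast
    ring
  have fin : (2 * (n : ℝ) + 1) * Q ≤ (6 * (R + c0) / (δ * ν) + 5) * Q := by
    refine mul_le_mul_of_nonneg_right ?_ Q0
    have : 6 * (R + c0) / (δ * ν) = 2 * b := by
      rw [hb]
      ring
    linarith
  exact (measureReal_mono cov (measure_ne_top _ _)).trans (tot.trans fin)

end LINaux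

end Pool.Agent.P.MP_874adf_gt.Gn
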