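import Pool.Agent.P.MP_874adf_gt.Gn.Iface0
import Pool.Agent.P.MP_874adf_gt.Gn.LinB

/-! Step LIN. -/

set_option autoImplicit false

namespace Pool.Agent.P.MP_874adf_gt.Gn

open Pool.Agent.P.MP_874adf_gt.Fs Set Filter Topology Metric MeasureTheory

namespace LINaux

lemma mw_mono (μ : Measure (ℝ × ℝ)) [IsFiniteMeasure μ] {J J' : Set ℝ} (x : P) {s s' : ℝ}
    (hJ : J ⊆ J') (hs : s ≤ s') : mw μ J x s ≤ mw μ J' x s' :=
  measureReal_mono fun _ hl => ⟨hJ hl.1, hl.2.trans hs⟩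

lemma neg_mono {n : ℝ → ℝ} {a b : ℝ} (h : Neg n b) (hab : a ≤ b) : Neg n a := by
  obtain ⟨z, h1, h2⟩ := h
  exact ⟨z, h1, hab.trans_lt h2⟩

lemma neg_act {n : ℝ → ℝ} {a : ℝ} (h : Neg n a) : a ∈ Act n := by
  obtain ⟨z, -, h2⟩ := h
  exact Or.inl ⟨z, by simpa using h2⟩

lemma ln_pos (c : Ctx) (t : ℝ) : 0 < ln c.G t :=
  c.gp.isN.pos _ (by simp)

variable {c : Ctx} {ι : Type} (S : Sys c ι)

lemma ev_small {ρ : ℝ} (hρ : 0 < ρ) (k : ℝ) :
    ∀ᶠ i in (S.U : Filter ι), S.x i ∈ ball (0 : P) ρ ∧ k * S.s i < ρ := by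
  have h1 := S.tx.eventually (ball_mem_nhds (0 : P) hρ)
  have h2 : Tendsto (fun i => k * S.s i) S.U (𝓝 0) := by simpa using S.ts.const_mul k
  exact h1.and (h2.eventually (gt_mem_nhds hρ))

lemma ev_sub (k : ℝ) : ∀ᶠ i in (S.U : Filter ι), S.B k i ⊆ ball (0 : P) c.ρ0 := by
  filter_upwards [ev_small S (half_pos c.rho0) k] with i hi y hy
  have h1 := dist_triangle y (S.x i) 0
  have h2 := mem_closedBall.1 hy
  have h3 := mem_ball.1 hi.1
  rw [mem_ball]
  linarith [hi.2]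

/-- bounded ranges have bounded mass -/
lemma ev_bdd (hR : Reg c) (T k : ℝ) : ∃ C > (0 : ℝ), ∀ᶠ i in (S.U : Filter ι),
    mT c.μ T (S.x i) (k * S.s i) ≤ C * S.N i := by
  have := c.crof.fin
  obtain ⟨C, C0, ρ, ρ0, h⟩ := hR.cmp T (-c.T0) (1 - c.T0) (by linarith) c.neg (max k 1)
    (le_max_right _ _)
  obtain ⟨C', C0', h'⟩ := S.cmp
  refine ⟨C * C', mul_pos C0 C0', ?_⟩
  filter_upwards [ev_small S ρ0 1, h'] with i hi h1
  have s0 := S.s0 i
  have k1 : 1 ≤ max k 1 := le_max_right _ _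
  have a1 := h _ hi.1 _ s0 (by linarith [hi.2]) (S.x i) (mem_closedBall_self (by positivity))
  have a2 : mT c.μ T (S.x i) (k * S.s i) ≤ mT c.μ T (S.x i) (max k 1 * S.s i) :=
    mw_mono _ _ subset_rfl (mul_le_mul_of_nonneg_right (le_max_left _ _) s0.le)
  have a3 : mw c.μ (Icc (-c.T0) (1 - c.T0)) (S.x i) (S.s i / max k 1) ≤ mT c.μ c.T0 (S.x i) (S.s i) :=
    mw_mono _ _ (Icc_subset_Icc le_rfl (by linarith [c.t0])) (div_le_self s0.le k1)
  have a4 := mul_le_mul_of_nonneg_left (a3.trans h1.1) C0.le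
  linarith

lemma hf_eq (d : P → P → ℝ) (D : Dat) (h : dr D < 1) (z : P) : hf d D z =
    d (dA D) z - d (dO D) z + dr D / (1 - dr D) * (d (dA D) z - d (dB D) z) := by
  have : 1 - dr D ≠ 0 := by linarith
  unfold hf Vf
  field_simp
  ring

lemma core (hMOV : S_MOV) (hR : Reg c) {ζ t t' L a : ℝ} (hN : Neg (ln c.G) t') (z1 : ζ < t')
    (z2 : t < ζ - ln c.G ζ) (L0 : 0 < L) (ha : a = 0 ∨ a = -1)
    (g : ∀ᶠ i in (S.U : Filter ι), Good c.μ (S.x i) (S.s i) a L t t') : S.Gro := by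
  have := c.crof.fin
  intro T
  have ν0 := ln_pos c ζ
  set ν := ln c.G ζ with hν
  have γ0 : 0 < ζ - ν - t := by linarith
  set K := 1 + |t| + |ζ| + 2 * ν with hK
  have t0 := abs_nonneg t
  have ζ0 := abs_nonneg ζ
  have K0 : 0 < K := by linarith
  set lam := L * (ζ - ν - t) / 8 / ν with hlam
  have l0 : 0 < lam := by positivity
  have l1 : lam * ν = L * (ζ - ν - t) / 8 := div_mul_cancel₀ _ ν0.ne'
  set δ := lam / 4 with hδ
  have δ0 : 0 < δ := by positivity
  obtain ⟨C1, C10, h1⟩ := ev_bdd S hR K ((1 + K) * (L * K))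
  obtain ⟨C2, C20, ρ2, ρ20, h2⟩ := hR.cmp T (ζ - ν + ν / 3) (ζ - ν + 2 * ν / 3) (by linarith)
    (neg_mono hN (by linarith)) 1 le_rfl
  set c0 := L * (2 * K) with hc0
  have c00 : 0 < c0 := by positivity
  refine ⟨C2 * (6 * (1 + c0) / (δ * ν) + 5) * (C1 + 1), by positivity, fun R R1 => ?_⟩
  set τm := 3 * (R + c0) / ν + 2 * δ with hτ
  have τ0 : 0 < τm := by positivity
  set η := min (min ((ζ - ν - t) / 2) (ν / 6)) (min (t' - ζ) (L * (ζ - ν - t) / 8 / τm)) with hη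
  have η0 : 0 < η := lt_min (lt_min (by positivity) (by positivity))
    (lt_min (by linarith) (by positivity))
  have η1 : η ≤ (ζ - ν - t) / 2 := (min_le_left _ _).trans (min_le_left _ _)
  have η2 : η ≤ ν / 6 := (min_le_left _ _).trans (min_le_right _ _)
  have η3 : η ≤ t' - ζ := (min_le_right _ _).trans (min_le_left _ _)
  have η4 : τm * η ≤ L * (ζ - ν - t) / 8 := by
    have : η ≤ L * (ζ - ν - t) / 8 / τm := (min_le_right _ _).trans (min_le_right _ _)
    rwa [le_div_iff₀ τ0, mul_comm] at this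
  obtain ⟨v, hv, ρ, cell⟩ := c.root 1 (Or.inl rfl) ζ (neg_act (neg_mono hN z1.le)) (η / 2)
    (half_pos η0)
  obtain ⟨D, E, hE, -, -, fam⟩ := hMOV c hR ι S v hv 1 ζ (η / 2) ρ (Or.inl rfl) cell (by linarith)
  obtain ⟨th1, th2, th3, -⟩ := cell.thin E hE
  have fx1 : fx (ln c.G) 1 ζ = ζ - ν := by simp [fx, hν]
  rw [fx1] at th2 th3
  set k := (L + τm + lam) * K with hk
  have tri : ∀ {p q r : ℝ}, |p - q| ≤ η / 2 → |q - r| ≤ η / 2 → |p - r| ≤ η := fun {p q r} a b => by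
    linarith [abs_sub_le p q r]
  filter_upwards [g, h1, ev_small S ρ20 R, ev_sub S k, fam.fO k _ (half_pos η0),
    fam.fA k _ (half_pos η0), fam.fB k _ (half_pos η0), fam.ord k, fam.mon k 1 one_pos]
    with i gi b1 b2 b3 fO fA fB ord mon
  have s0 := S.s0 i
  have N0 := S.N0 i
  obtain ⟨r0, r1⟩ := fam.r01 i
  have a1 := h2 _ b2.1 (R * S.s i) (by positivity) b2.2 (S.x i) (mem_closedBall_self (by positivity))
  rw [one_mul, div_one] at a1
  have a2 := cover (μ := c.μ) (x := S.x i) (α := (a + 3 / 4) * L) (t := t) (ξ := ζ - ν) (δ := δ)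
    (m := lam * ν / 6) (c0 := c0) (R := R) (Q := (C1 + 1) * S.N i) s0 ν0 δ0
    (le_of_eq (by rw [hδ]; ring)) (by linarith) (fun θ hθ => by
      refine abs_mul_le ?_ ?_
      · rw [abs_le]
        rcases ha with rfl | rfl <;> constructor <;> linarith
      · have e1 := abs_sub t θ
        have e2 : |θ| ≤ K := by
          rw [abs_le]
          constructor <;> linarith [hθ.1, hθ.2, le_abs_self ζ, neg_abs_le ζ]
        linarith) (by positivity) (fun τ hτ' => by
      have := det (N := S.N i) (k := k) (q := dr (D i) / (1 - dr (D i))) (K := K) (η := η) (τm := τm)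
        c.crof fO.1 fA.1 fB.1 b3 s0 (div_nonneg r0.le (by linarith))
        (fun y hy z hz hyz => by
          have := mon y hy z hz hyz
          rwa [hf_eq _ _ r1, hf_eq _ _ r1, one_mul] at this)
        (fun y hy => ⟨by simpa using (fO.2 y hy).1, tri (fO.2 y hy).2 th1⟩)
        (fun y hy => ⟨by simpa using (fA.2 y hy).1, tri (fA.2 y hy).2 th2⟩)
        (fun y hy => ⟨by simpa using (fB.2 y hy).1, tri (fB.2 y hy).2 th3⟩)
        (fun y hy => by simpa using ord y hy) ν0 z2 L0 ha η1 η2 (by linarith) τ0.le η4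
        (by linarith) (by linarith) (by linarith) l0 l1 le_rfl gi hτ'
      linarith)
  have a3 : 6 * (R + c0) / (δ * ν) + 5 ≤ (6 * (1 + c0) / (δ * ν) + 5) * R := by
    have e : (6 * (1 + c0) / (δ * ν) + 5) * R = 6 * ((1 + c0) * R) / (δ * ν) + 5 * R := by ring
    have e2 : 6 * (R + c0) / (δ * ν) ≤ 6 * ((1 + c0) * R) / (δ * ν) := by
      refine div_le_div_of_nonneg_right ?_ (by positivity)
      have := mul_le_mul_of_nonneg_left R1 c00.le
      linarith
    linarith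
  have a4 := mul_le_mul_of_nonneg_right a3 (by positivity : 0 ≤ (C1 + 1) * S.N i)
  have a5 := mul_le_mul_of_nonneg_left (a2.trans a4) C20.le
  linarith

end LINaux

open LINaux in
theorem p_LIN (hMOV : S_MOV) :
    S_LIN := by
  intro c hR ι S
  have := c.crof.fin
  set t0 := 1 - c.T0 with h0
  set t1 := t0 - 1 - ln c.G (t0 - 1) - 1 with h1
  set t2 := t1 - 1 - ln c.G (t1 - 1) - 1 with h2
  set t3 := t2 - 1 - ln c.G (t2 - 1) - 1 with h3
  have p0 := ln_pos c (t0 - 1)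
  have p1 := ln_pos c (t1 - 1)
  have p2 := ln_pos c (t2 - 1)
  have n0 : Neg (ln c.G) t0 := c.neg
  have n1 : Neg (ln c.G) t1 := neg_mono n0 (by linarith)
  have n2 : Neg (ln c.G) t2 := neg_mono n1 (by linarith)
  obtain ⟨L1, L10, L2, L20, h⟩ := six (t0 := t0) (t1 := t1) (t2 := t2) (t3 := t3) (by linarith)
    (by linarith) (by linarith)
  have ev := Eventually.of_forall (f := (S.U : Filter ι)) fun i =>
    h c.μ (S.x i) (S.s i) (S.s0 i).le
  simp only [Ultrafilter.eventually_or] at ev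
  rcases ev with (ev | ev) | (ev | ev) | ev | ev
  · exact core S hMOV hR (ζ := t0 - 1) n0 (by linarith) (by linarith) one_pos (Or.inl rfl) ev
  · exact core S hMOV hR (ζ := t0 - 1) n0 (by linarith) (by linarith) one_pos (Or.inr rfl) ev
  · exact core S hMOV hR (ζ := t1 - 1) n1 (by linarith) (by linarith) L10 (Or.inl rfl) ev
  · exact core S hMOV hR (ζ := t1 - 1) n1 (by linarith) (by linarith) L10 (Or.inr rfl) ev
  · exact core S hMOV hR (ζ := t2 - 1) n2 (by linarith) (by linarith) L20 (Or.inl rfl) ev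
  · exact core S hMOV hR (ζ := t2 - 1) n2 (by linarith) (by linarith) L20 (Or.inr rfl) ev

end Pool.Agent.P.MP_874adf_gt.Gn
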