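import Pool.Agent.P.MP_874adf_gt.Gn.Iface0
import Pool.Agent.P.MP_874adf_gt.Gn.LrrCore
import Pool.Agent.P.MP_874adf_gt.Fs.LR

/-! Step LRR. -/

set_option autoImplicit false

namespace Pool.Agent.P.MP_874adf_gt.Gn

open Pool.Agent.P.MP_874adf_gt.Fs Set Filter Topology Metric MeasureTheory

theorem lrr_euclid {E : Type*} [NormedAddCommGroup E] [NormedSpace ℝ E]
    (h2 : Module.finrank ℝ E = 2) {u : E} {r : ℝ} (hu : ‖u‖ = 1) (r0 : 0 < r) (r1 : r < 1)
    (h : ∀ X : E, ‖X‖ = 1 → ‖X - r • u‖ = ‖r • X - u‖) :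
    Nonempty (E ≃ₗᵢ[ℝ] EuclideanSpace ℝ (Fin 2)) := by
  have : FiniteDimensional ℝ E := Module.finite_of_finrank_pos (by omega)
  obtain ⟨g, g1, g2⟩ := exists_dual_vector ℝ u (by rw [hu]; exact one_ne_zero)
  have g3 : g u = 1 := by simpa [hu] using g2
  obtain ⟨v, hv0, hv⟩ : ∃ v : E, v ≠ 0 ∧ g v = 0 := by
    by_contra hc
    push Not at hc
    have inj : Function.Injective (g : E →ₗ[ℝ] ℝ) := (injective_iff_map_eq_zero _).2 fun v hv => by
      by_contra h0; exact hc v h0 hv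
    have := LinearMap.finrank_le_finrank_of_injective inj
    rw [h2, Module.finrank_self] at this
    omega
  have hn : 0 < ‖v‖ := norm_pos_iff.2 hv0
  set w := ‖v‖⁻¹ • v with hw
  have hw1 : ‖w‖ = 1 := by simp [hw, norm_smul, hn.ne']
  have hgw : g w = 0 := by simp [hw, hv]
  have S : St u w r := ⟨r0, r1, hu, hw1, fun x y => by
    have := g.le_opNorm (x • u + y • w)
    simpa [g1, g3, hgw] using this, h⟩
  obtain ⟨c, c0, hc⟩ := S.quadN
  let L : EuclideanSpace ℝ (Fin 2) →ₗ[ℝ] E :=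
    { toFun := fun p => p 0 • u + (p 1 / √c) • w
      map_add' := fun p q => by simp only [PiLp.add_apply, add_div]; module
      map_smul' := fun t p => by
        simp only [PiLp.smul_apply, smul_eq_mul, RingHom.id_apply, mul_div_assoc]; module }
  have hL : ∀ p, ‖L p‖ = ‖p‖ := fun p => by
    rw [← sq_eq_sq₀ (norm_nonneg _) (norm_nonneg _), EuclideanSpace.real_norm_sq_eq, Fin.sum_univ_two]
    show ‖p 0 • u + (p 1 / √c) • w‖ ^ 2 = _
    rw [hc, div_pow, Real.sq_sqrt c0.le, mul_div_cancel₀ _ c0.ne']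
  let L' : EuclideanSpace ℝ (Fin 2) →ₗᵢ[ℝ] E := ⟨L, hL⟩
  exact ⟨(L'.toLinearIsometryEquiv (by simp [h2])).symm⟩

theorem p_LRR :
    S_LRR := by
  intro N u n u1 ⟨r, r0, r1, h⟩
  let i1 : NormedAddCommGroup lrSyn := AddGroupNorm.toNormedAddCommGroup
    { toFun := N
      map_zero' := n.zero
      add_le' := n.add
      neg' := n.neg
      eq_zero_of_map_eq_zero' := fun x hx => by
        by_contra c
        exact (n.pos x c).ne' hx }
  let i2 : NormedSpace ℝ lrSyn := ⟨fun t v => (n.smul t v).le⟩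
  obtain ⟨e⟩ := lrr_euclid (E := lrSyn) (by change Module.finrank ℝ (ℝ × ℝ) = 2; simp)
    (u := u) u1 r0 r1 h
  let a : lrSyn := ((1, 0) : P)
  let b : lrSyn := ((0, 1) : P)
  refine ⟨‖e a‖ ^ 2, inner ℝ (e a) (e b), ‖e b‖ ^ 2, fun v => ?_⟩
  have ev : (v : lrSyn) = v.1 • a + v.2 • b := by
    change v = v.1 • ((1, 0) : P) + v.2 • ((0, 1) : P)
    ext <;> simp
  have : N v = ‖v.1 • e a + v.2 • e b‖ := by
    rw [← map_smul, ← map_smul, ← map_add, e.norm_map, ← ev]
    rfl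
  rw [this, norm_add_sq_real, norm_smul, norm_smul, inner_smul_left, inner_smul_right, mul_pow,
    mul_pow, Real.norm_eq_abs, Real.norm_eq_abs, sq_abs, sq_abs]
  simp only [bf, conj_trivial]
  ring

end Pool.Agent.P.MP_874adf_gt.Gn
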