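import Pool.Agent.P.MP_874adf_gt.Gn.Iface0
import Pool.Agent.P.MP_874adf_gt.Fs.Final

/-! Step MAIN. -/

set_option autoImplicit false

namespace Pool.Agent.P.MP_874adf_gt.Gn

open Pool.Agent.P.MP_874adf_gt.Fs Set Filter Topology Metric MeasureTheory

theorem p_MAIN (hSTRUCTU : S_STRUCTU) (hT1 : S_T1) (hT2 : S_T2) (hAEQ : S_AEQ) (hSTEPC : S_STEPC) :
    S_MAIN := by
  intro M d h hap
  have hU := hSTRUCTU M d h hap
  obtain ⟨F, hF⟩ := hT1 M d h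
  have hS := hSTEPC M d F h hU hF (hT2 M d F h hU hF) (hAEQ M d F h hU hF)
  let G : P → P → ℝ := fun x v => limUnder (𝓝[>] (0 : ℝ)) fun t : ℝ => d x (x + t • v) / t
  have key : ∀ (W : Set P) (F' : P → P → ℝ), Fins W d F' → ∀ x ∈ W, ∀ v, G x v = F' x v :=
    fun W F' hf x hx v => (hf.lim x hx v).limUnder_eq
  refine ⟨⋃₀ {W | W ⊆ M ∧ IsOpen W ∧ ∃ F', Fins W d F'}, G, isOpen_sUnion fun W hW => hW.2.1,
    sUnion_subset fun W hW => hW.1, ?_, ?_, ?_, ?_⟩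
  · intro x hx
    rw [_root_.mem_closure_iff]
    intro o ho hxo
    obtain ⟨W', s, o', ⟨y, hy⟩, F', hf⟩ := hS (o ∩ M) inter_subset_right (ho.inter h.isOpen)
      ⟨x, hxo, hx⟩
    exact ⟨y, (s hy).1, W', ⟨fun z hz => (s hz).2, o', F', hf⟩, hy⟩
  · rintro ⟨x, v⟩ ⟨⟨W, ⟨-, oW, F', hf⟩, hx⟩, -⟩
    have hn : W ×ˢ (univ : Set P) ∈ 𝓝 (x, v) := (oW.prod isOpen_univ).mem_nhds ⟨hx, mem_univ _⟩
    refine ((hf.cont.continuousAt hn).congr ?_).continuousWithinAt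
    filter_upwards [hn] with p hp using (key W F' hf _ hp.1 _).symm
  · rintro x ⟨W, ⟨-, -, F', hf⟩, hx⟩ v hv
    rw [key W F' hf x hx]
    exact hf.pos x hx v hv
  · rintro x ⟨W, ⟨-, -, F', hf⟩, hx⟩ v
    rw [key W F' hf x hx]
    exact hf.lim x hx v

end Pool.Agent.P.MP_874adf_gt.Gn
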