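import Pool.Agent.P.MP_874adf_gt.Gn.Iface0

/-! Step MON. -/

set_option autoImplicit false

namespace Pool.Agent.P.MP_874adf_gt.Gn

open Pool.Agent.P.MP_874adf_gt.Fs Set Filter Topology Metric MeasureTheory

namespace MONaux

lemma memA {M : Set P} {d : P → P → ℝ} {D : Dat} {a : ℝ} (h : PM M d) (c : Circ M d D a) :
    dA D ∈ M := h.seg_mem c.mO c.mB c.l0.le c.l1.le

/-- the segment from the inner focus to an outer point meets the circle -/
lemma cross {M : Set P} {d : P → P → ℝ} {D : Dat} {a : ℝ} (h : PM M d) (c : Circ M d D a)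
    {z : P} (hz : z ∈ M) (ha : a ≤ d (dO D) z) :
    ∃ C ∈ M, d (dO D) C = a ∧ d (dA D) C + d C z = d (dA D) z := by
  have hA := memA h c
  have hc : ContinuousOn (fun t : ℝ => d (dO D) (dA D + t • (z - dA D))) (Icc 0 1) :=
    h.contOn_line c.mO fun t ht => h.seg_mem hA hz ht.1 ht.2
  have h0 : d (dO D) (dA D + (0 : ℝ) • (z - dA D)) ≤ a := by
    rw [zero_smul, add_zero, c.eA]
    nlinarith [c.a0, c.r1]
  have h1 : a ≤ d (dO D) (dA D + (1 : ℝ) • (z - dA D)) := by
    rwa [one_smul, add_sub_cancel]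
  obtain ⟨t, ht, e⟩ := intermediate_value_Icc zero_le_one hc ⟨h0, h1⟩
  exact ⟨_, h.seg_mem hA hz ht.1 ht.2, e, h.add hA hz ht.1 ht.2⟩

/-- an inner point is close to the circle -/
lemma reach {M : Set P} {d : P → P → ℝ} {D : Dat} {a : ℝ} (h : PM M d) (c : Circ M d D a)
    {z : P} (hz : z ∈ M) (ha : d (dO D) z ≤ a) :
    ∃ C ∈ M, d (dO D) C = a ∧ d z C ≤ a - d (dO D) z := by
  rcases eq_or_ne z (dO D) with e | e
  · obtain ⟨t, -, m, e1⟩ := c.ray (1, 0) (by simp)
    refine ⟨_, m, e1, ?_⟩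
    rw [e, e1, h.self c.mO, sub_zero]
  obtain ⟨t, t0, m, e1⟩ := c.ray (z - dO D) (sub_ne_zero.2 e)
  refine ⟨_, m, e1, ?_⟩
  have m0 : dO D + (0 : ℝ) • (z - dO D) ∈ M := by rw [zero_smul, add_zero]; exact c.mO
  have m1 : dO D + (1 : ℝ) • (z - dO D) ∈ M := by rwa [one_smul, add_sub_cancel]
  rcases le_total 1 t with t1 | t1
  · have := h.line_add m0 m zero_le_one t1
    rw [zero_smul, add_zero, one_smul, add_sub_cancel, e1] at this
    linarith
  · have := h.line_add m0 m1 t0.le t1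
    rw [zero_smul, add_zero, one_smul, add_sub_cancel, e1] at this
    rw [h.symm _ hz _ m]
    have := h.nonneg m hz
    linarith

end MONaux

theorem p_MON :
    S_MON := by
  intro M d D a h c z hz
  have hA := MONaux.memA h c
  have r1 : 0 < 1 - dr D := sub_pos.2 c.r1
  have r0 := c.r0
  constructor
  · intro ha
    obtain ⟨C, hC, e1, e2⟩ := MONaux.cross h c hz ha
    have e3 := c.on C hC e1
    have t1 := h.triangle _ c.mB _ hC _ hz
    have t2 := h.triangle _ c.mO _ hC _ hz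
    rw [Vf, le_div_iff₀ r1]
    nlinarith [mul_le_mul_of_nonneg_left t1 r0.le, mul_le_mul_of_nonneg_left t2 r1.le]
  · intro ha
    obtain ⟨C, hC, e1, e2⟩ := MONaux.reach h c hz ha
    have e3 := c.on C hC e1
    have t1 := h.triangle _ c.mB _ hC _ hz
    have t2 := h.triangle _ hA _ hz _ hC
    rw [h.symm _ hC _ hz] at t1
    rw [Vf, le_div_iff₀ r1]
    have e4 : -((1 + dr D) / (1 - dr D) * (a - d (dO D) z)) * (1 - dr D) =
        -((1 + dr D) * (a - d (dO D) z)) := by field_simp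
    rw [e4]
    nlinarith [mul_le_mul_of_nonneg_left t1 r0.le, mul_le_mul_of_nonneg_left e2 r0.le]

end Pool.Agent.P.MP_874adf_gt.Gn
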