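import Pool.Agent.P.MP_874adf_gt.Gn.Iface0
import Pool.Agent.P.MP_874adf_gt.Gn.MvA

/-! Step MOV. -/

set_option autoImplicit false

namespace Pool.Agent.P.MP_874adf_gt.Gn

open Pool.Agent.P.MP_874adf_gt.Fs Set Filter Topology Metric MeasureTheory

namespace MOVaux

/-- a point in a nested sequence of cells with prescribed properties -/
lemma nest {M : Set P} {d : P → P → ℝ} {C : P} {𝓥 : Set (Set Dat)} (h : Cells M d C 𝓥)
    {v : Set Dat} (hv : v ∈ 𝓥) (Q : ℕ → Set Dat → Prop)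
    (hQ : ∀ j, ∀ w ∈ 𝓥, w ⊆ v → ∃ w' ∈ 𝓥, w' ⊆ w ∧ Q j w') :
    ∃ E ∈ v, ∀ j, ∃ w ∈ 𝓥, w ⊆ v ∧ E ∈ w ∧ Q j w := by
  have st : ∀ j, ∀ w : {w : Set Dat // w ∈ 𝓥 ∧ w ⊆ v},
      ∃ w' : {w : Set Dat // w ∈ 𝓥 ∧ w ⊆ v}, w'.1 ⊆ w.1 ∧ Q j w'.1 := by
    intro j w
    obtain ⟨w', h1, h2, h3⟩ := hQ j w.1 w.2.1 w.2.2
    exact ⟨⟨w', h1, h2.trans w.2.2⟩, h2, h3⟩
  choose f hf1 hf2 using st
  let t : ℕ → {w : Set Dat // w ∈ 𝓥 ∧ w ⊆ v} :=
    fun n => Nat.rec ⟨v, hv, Subset.rfl⟩ (fun j w => f j w) n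
  have ne : ∀ w ∈ 𝓥, w.Nonempty := by
    intro w hw
    obtain ⟨ρ, hρ, hh⟩ := h.val w hw
    obtain ⟨D, hD, -⟩ := hh C (mem_ball_self hρ)
    exact ⟨D, hD⟩
  obtain ⟨E, hE⟩ := IsCompact.nonempty_iInter_of_sequence_nonempty_isCompact_isClosed
    (fun n => (t n).1) (fun n => hf1 n (t n)) (fun n => ne _ (t n).2.1) (h.cpt _ (t 0).2.1)
    (fun n => (h.cpt _ (t n).2.1).isClosed)
  rw [mem_iInter] at hE
  exact ⟨E, hE 0, fun j => ⟨(t (j + 1)).1, (t (j + 1)).2.1, (t (j + 1)).2.2, hE (j + 1),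
    hf2 j (t j)⟩⟩

lemma pt {M : Set P} {d : P → P → ℝ} {C : P} {𝓥 : Set (Set Dat)} (h : Cells M d C 𝓥)
    {v : Set Dat} (hv : v ∈ 𝓥) :
    ∃ E ∈ v, ∀ δ > (0 : ℝ), ∃ w ∈ 𝓥, w ⊆ v ∧ E ∈ w ∧ ∀ D ∈ w, dist D E < δ := by
  obtain ⟨E, hE, H⟩ := nest h hv (fun j w => ∀ D ∈ w, ∀ D' ∈ w, dist D D' ≤ 1 / ((j : ℝ) + 1))
    fun j w hw _ => h.ref w hw _ Nat.one_div_pos_of_nat
  refine ⟨E, hE, fun δ hδ => ?_⟩
  obtain ⟨j, hj⟩ := exists_nat_one_div_lt hδ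
  obtain ⟨w, h1, h2, h3, h4⟩ := H j
  exact ⟨w, h1, h2, h3, fun D hD => (h4 D hD E h3).trans_lt hj⟩

variable {c : Ctx} {ι : Type}

lemma ev_ball (S : Sys c ι) (k : ℝ) {ρ : ℝ} (hρ : 0 < ρ) :
    ∀ᶠ i in (S.U : Filter ι), S.B k i ⊆ ball 0 ρ ∧ k * S.s i ≤ ρ := by
  have h1 : Tendsto (fun i => dist (S.x i) 0 + |k| * S.s i) S.U (𝓝 (0 + |k| * 0)) :=
    (tendsto_iff_dist_tendsto_zero.1 S.tx).add (S.ts.const_mul _)
  rw [mul_zero, add_zero] at h1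
  filter_upwards [h1.eventually (gt_mem_nhds hρ)] with i hi
  have h2 : k * S.s i ≤ |k| * S.s i := mul_le_mul_of_nonneg_right (le_abs_self k) (S.s0 i).le
  refine ⟨fun y hy => ?_, by linarith [dist_nonneg (x := S.x i) (y := 0)]⟩
  have := dist_triangle y (S.x i) 0
  rw [mem_ball]
  have hy' : dist y (S.x i) ≤ k * S.s i := hy
  linarith

lemma mw_mono (μ : Measure (ℝ × ℝ)) [IsFiniteMeasure μ] {J J' : Set ℝ} (h : J ⊆ J') (x : P)
    {s s' : ℝ} (hs : s ≤ s') : mw μ J x s ≤ mw μ J' x s' :=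
  measureReal_mono fun _ hl => ⟨h hl.1, hl.2.trans hs⟩

/-- the total mass at a fixed multiple of the scale is bounded -/
lemma bound (R : Reg c) (S : Sys c ι) (T K : ℝ) (hK : 1 ≤ K) :
    ∃ C > (0 : ℝ), ∀ᶠ i in (S.U : Filter ι), mT c.μ T (S.x i) (K * S.s i) ≤ C * S.N i := by
  have := c.crof.fin
  obtain ⟨C, hC, ρ, hρ, H⟩ := R.cmp T (-c.T0) (1 - c.T0) (by linarith) c.neg K hK
  obtain ⟨C', hC', H'⟩ := S.cmp
  refine ⟨C * C', mul_pos hC hC', ?_⟩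
  filter_upwards [H', S.tx.eventually (ball_mem_nhds 0 hρ), S.ts.eventually (gt_mem_nhds hρ)]
    with i h1 h2 h3
  have s0 := S.s0 i
  have h4 := H _ h2 _ s0 h3 (S.x i) (mem_closedBall_self (by positivity))
  have h5 : mw c.μ (Icc (-c.T0) (1 - c.T0)) (S.x i) (S.s i / K) ≤ mT c.μ c.T0 (S.x i) (S.s i) :=
    mw_mono _ (Icc_subset_Icc le_rfl (by linarith [c.t0])) _ (div_le_self s0.le hK)
  calc _ ≤ C * mT c.μ c.T0 (S.x i) (S.s i) := h4.trans (mul_le_mul_of_nonneg_left h5 hC.le)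
    _ ≤ C * (C' * S.N i) := mul_le_mul_of_nonneg_left h1.1 hC.le
    _ = _ := by ring

lemma meas_w {J : Set ℝ} (hJ : MeasurableSet J) (x : P) (s : ℝ) :
    MeasurableSet {l : ℝ × ℝ | l.2 ∈ J ∧ |l.1 - pr l.2 x| ≤ s} := by
  have h : IsClosed {l : ℝ × ℝ | |l.1 - pr l.2 x| ≤ s} :=
    isClosed_le (by unfold pr; fun_prop) continuous_const
  exact (measurable_snd hJ).inter h.measurableSet

/-- one of many disjoint windows carries a small mass -/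
lemma pigeon (R : Reg c) (S : Sys c ι) (T K : ℝ) (hK : 1 ≤ K) {η : ℝ} (hη : 0 < η) :
    ∃ m : ℕ, ∀ J : Fin m → Set ℝ, (∀ j, MeasurableSet (J j)) →
      Pairwise (Function.onFun Disjoint J) →
      ∃ j, ∀ᶠ i in (S.U : Filter ι),
        mw c.μ (J j ∩ Icc (-T) T) (S.x i) (K * S.s i) ≤ η * S.N i := by
  have := c.crof.fin
  obtain ⟨C, hC, H⟩ := bound R S T K hK
  obtain ⟨m, hm⟩ := exists_nat_gt (C / η)
  refine ⟨m, fun J hJ hd => Ultrafilter.eventually_exists_iff.1 ?_⟩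
  filter_upwards [H] with i hi
  by_contra hn
  push Not at hn
  have e := measureReal_iUnion_fintype (μ := c.μ)
    (f := fun j => {l : ℝ × ℝ | l.2 ∈ J j ∩ Icc (-T) T ∧ |l.1 - pr l.2 (S.x i)| ≤ K * S.s i})
    (fun a b hab => Set.disjoint_left.2 fun l h1 h2 => Set.disjoint_left.1 (hd hab) h1.1.1 h2.1.1)
    (fun j => meas_w ((hJ j).inter measurableSet_Icc) _ _)
  have l1 : c.μ.real (⋃ j, {l : ℝ × ℝ | l.2 ∈ J j ∩ Icc (-T) T ∧
      |l.1 - pr l.2 (S.x i)| ≤ K * S.s i}) ≤ mT c.μ T (S.x i) (K * S.s i) :=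
    measureReal_mono (iUnion_subset fun j l hl => ⟨hl.1.2, hl.2⟩)
  have l2 : ∑ _j : Fin m, η * S.N i ≤ ∑ j, mw c.μ (J j ∩ Icc (-T) T) (S.x i) (K * S.s i) :=
    Finset.sum_le_sum fun j _ => (hn j).le
  rw [Finset.sum_const, Finset.card_univ, Fintype.card_fin, nsmul_eq_mul] at l2
  rw [e] at l1
  rw [div_lt_iff₀ hη] at hm
  have l3 : (m : ℝ) * (η * S.N i) ≤ C * S.N i := l2.trans (l1.trans hi)
  nlinarith [S.N0 i]

lemma gap {m : ℕ} (t : Fin m → ℝ) (ht : ∀ a b, a ≠ b → t a ≠ t b) :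
    ∃ g > (0 : ℝ), Pairwise (Function.onFun Disjoint fun j => Icc (t j - g) (t j + g)) := by
  have h : ∀ᶠ g in 𝓝[>] (0 : ℝ), ∀ a b, a ≠ b → 2 * g < |t a - t b| := by
    refine eventually_all.2 fun a => eventually_all.2 fun b => ?_
    by_cases hab : a = b
    · exact Eventually.of_forall fun g h => absurd hab h
    · have hp : 0 < |t a - t b| / 2 := half_pos (abs_pos.2 (sub_ne_zero.2 (ht a b hab)))
      filter_upwards [mem_nhdsWithin_of_mem_nhds (gt_mem_nhds hp)] with g hg _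
      linarith
  obtain ⟨g, h1, h2⟩ := (h.and self_mem_nhdsWithin).exists
  refine ⟨g, h2, fun a b hab => Set.disjoint_left.2 fun θ ha hb => ?_⟩
  have := h1 a b hab
  rw [lt_abs] at this
  rcases this with h | h <;> linarith [ha.1, ha.2, hb.1, hb.2]

lemma sl_cont {f : Dat → P} (hf : Continuous f) {E : Dat} (hE : (f E).2 ≠ 0) {g : ℝ}
    (hg : 0 < g) : ∃ δ > (0 : ℝ), ∀ w ∈ ball (0 : P) δ, ∀ D, dist D E < δ →
      |sl w (f D) - sl 0 (f E)| ≤ g := by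
  have hc : ContinuousAt (fun p : P × Dat => sl p.1 (f p.2)) (0, E) := by
    unfold sl
    refine ContinuousAt.div (by fun_prop) (by fun_prop) ?_
    simpa using hE
  obtain ⟨δ, hδ, H⟩ := Metric.continuousAt_iff.1 hc g hg
  refine ⟨δ, hδ, fun w hw D hD => ?_⟩
  have := H (x := (w, D)) (by rw [Prod.dist_eq]; exact max_lt hw hD)
  rw [Real.dist_eq] at this
  exact this.le

/-- the points `f D` of the cell lie on one side and are seen under bounded slopes -/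
structure Below (c : Ctx) (v : Set Dat) (σ ρ T : ℝ) (f : Dat → P) : Prop where
  cont : Continuous f
  mem : ∀ D ∈ v, f D ∈ ball (0 : P) c.ρ0
  h : ∀ D ∈ v, ∀ y ∈ closedBall (0 : P) ρ, ρ ≤ σ * (y.2 - (f D).2)
  s : ∀ D ∈ v, ∀ y ∈ closedBall (0 : P) ρ, |sl y (f D)| ≤ T

/-- the increments of the distance from `f D` hardly depend on `D` -/
def Qf (S : Sys c ι) (f : Dat → P) (k η : ℝ) (w : Set Dat) : Prop :=
  ∀ᶠ i in (S.U : Filter ι), ∀ D ∈ w, ∀ D' ∈ w, ∀ y ∈ S.B k i, ∀ z ∈ S.B k i,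
    |c.d (f D) z - c.d (f D) y - (c.d (f D') z - c.d (f D') y)| ≤ η * S.N i

lemma Qf.mono {S : Sys c ι} {f : Dat → P} {k η : ℝ} {w w' : Set Dat} (h : Qf S f k η w)
    (hw : w' ⊆ w) : Qf S f k η w' :=
  Eventually.mono h fun _ hi D hD D' hD' => hi D (hw hD) D' (hw hD')

lemma Below.ne {v : Set Dat} {σ ρ T : ℝ} {f : Dat → P} (hb : Below c v σ ρ T f) (hρ : 0 < ρ)
    {D : Dat} (hD : D ∈ v) : (f D).2 ≠ 0 := by
  intro e
  have := hb.h D hD 0 (mem_closedBall_self hρ.le)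
  rw [e] at this
  simp at this
  linarith

lemma step (R : Reg c) (S : Sys c ι) {v : Set Dat} {σ ρ T : ℝ} (hσ : Sg σ) (hρ : 0 < ρ)
    (hT : 0 ≤ T) {f : Dat → P} (hb : Below c v σ ρ T f) {w : Set Dat} (hw : w ∈ c.𝓥)
    (hwv : w ⊆ v) (k : ℝ) {η : ℝ} (hη : 0 < η)
    (hs : ∀ m : ℕ, ∃ u : Fin m → Set Dat, (∀ i, u i ∈ c.𝓥 ∧ u i ⊆ w) ∧
      (SepF 0 f u ∨ Cst f w)) :
    ∃ w' ∈ c.𝓥, w' ⊆ w ∧ Qf S f k η w' := by
  have := c.crof.fin
  by_cases hc : Cst f w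
  · obtain ⟨A, hA⟩ := hc
    refine ⟨w, hw, Subset.rfl, Eventually.of_forall fun i D hD D' hD' y _ z _ => ?_⟩
    rw [hA D hD, hA D' hD', sub_self, abs_zero]
    exact (mul_pos hη (S.N0 i)).le
  have hK : 1 ≤ (1 + T) * (|k| + 1) := by nlinarith [abs_nonneg k]
  obtain ⟨m, hm⟩ := pigeon R S T _ hK (half_pos hη)
  obtain ⟨u, hu, hsep⟩ := hs m
  have hsep : SepF 0 f u := hsep.resolve_right hc
  choose E hE hE' using fun j => pt c.gp.cells (hu j).1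
  have hEv : ∀ j, E j ∈ v := fun j => hwv ((hu j).2 (hE j))
  obtain ⟨g, hg, hd⟩ := gap (fun j => sl 0 (f (E j))) (by
    intro a b hab e
    apply hsep a b hab _ (hE a) _ (hE b)
    have n1 := hb.ne hρ (hEv a)
    have n2 := hb.ne hρ (hEv b)
    simp only [sl, Prod.fst_zero, Prod.snd_zero, zero_sub, neg_div_neg_eq] at e
    rw [div_eq_div_iff n1 n2] at e
    simp only [wed, sub_zero]
    linarith)
  obtain ⟨j, hj⟩ := hm _ (fun j => measurableSet_Icc) hd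
  obtain ⟨δ, hδ, hsl⟩ := sl_cont hb.cont (hb.ne hρ (hEv j)) hg
  obtain ⟨w', h1, h2, -, h4⟩ := hE' j δ hδ
  refine ⟨w', h1, h2.trans (hu j).2, ?_⟩
  have hw' : w' ⊆ v := h2.trans ((hu j).2.trans hwv)
  filter_upwards [hj, ev_ball S k hδ, ev_ball S k hρ, ev_ball S k c.rho0] with i hi b1 b2 b3
    D hD D' hD' y hy z hz
  have cl : ∀ x ∈ S.B k i, x ∈ closedBall (0 : P) ρ := fun x hx => ball_subset_closedBall (b2.1 hx)
  have pos : ∀ D ∈ w', ∀ x ∈ S.B k i, 0 < σ * (x.2 - (f D).2) := fun D hD x hx =>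
    hρ.trans_le (hb.h D (hw' hD) x (cl x hx))
  have d1 := diff_le c.crof hσ (hb.mem D (hw' hD)) (hb.mem D' (hw' hD')) (b3.1 hy) (b3.1 hz)
    (pos D hD y hy) (pos D hD z hz) (pos D' hD' y hy) (pos D' hD' z hz)
  have hR : (1 + T) * (k * S.s i) ≤ (1 + T) * (|k| + 1) * S.s i := by
    rw [mul_assoc]
    refine mul_le_mul_of_nonneg_left ?_ (by linarith)
    exact mul_le_mul_of_nonneg_right (by linarith [le_abs_self k]) (S.s0 i).le
  have d2 := win (X := f D) (X' := f D') (t := sl 0 (f (E j))) (g := g) hσ hy hz hR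
    fun x hx => ⟨pos D hD x hx, pos D' hD' x hx, hb.s D (hw' hD) x (cl x hx),
      hb.s D' (hw' hD') x (cl x hx), hsl x (b1.1 hx) D (h4 D hD), hsl x (b1.1 hx) D' (h4 D' hD')⟩
  have d3 : c.μ.real (sp y z ∩ sp (f D) (f D')) ≤ η / 2 * S.N i :=
    (measureReal_mono d2).trans hi
  linarith

lemma alg {q q' δ C N ε oE aE bE o a b : ℝ} (hq : 0 < q) (hq1 : q ≤ 1) (hqq : |q' - q| ≤ δ)
    (hδ : δ ≤ q / 2) (hN : 0 < N) (hO : |oE - o| ≤ δ * N) (hA : |aE - a| ≤ δ * N)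
    (hB : |bE - b| ≤ δ * N) (hAB : |a - b| ≤ 2 * (C * N)) (h0 : 0 ≤ oE)
    (h1 : 0 ≤ o → o ≤ (a - (1 - q') * b) / q')
    (h2 : o ≤ 0 → -((1 + (1 - q')) / q' * -o) ≤ (a - (1 - q') * b) / q')
    (hε : δ * (8 / q + 4 * C / q ^ 2) ≤ ε) :
    0 ≤ (aE - (1 - q) * bE) / q - oE + ε * N := by
  have d0 : 0 ≤ δ := (abs_nonneg _).trans hqq
  have q2 : q / 2 ≤ q' := by linarith [(abs_le.1 hqq).1]
  have q0 : 0 < q' := by linarith
  have dN : 0 ≤ δ * N := by positivity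
  have i1 : 1 ≤ 1 / q := by rw [le_div_iff₀ hq]; linarith
  have i2 : 1 / q' ≤ 2 * (1 / q) := by
    rw [mul_one_div, div_le_div_iff₀ q0 hq]; linarith
  have m : -(4 * (1 / q) * (δ * N)) ≤ (a - (1 - q') * b) / q' - o := by
    rcases le_total 0 o with h | h
    · have := h1 h
      have : 0 ≤ 4 * (1 / q) * (δ * N) := by positivity
      linarith
    · have h3 := h2 h
      have e : (1 + (1 - q')) / q' = 2 * (1 / q') - 1 := by field_simp; ring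
      rw [e] at h3
      have h4 : -o ≤ δ * N := by linarith [(abs_le.1 hO).2]
      have h5 : (1 / q') * -o ≤ 2 * (1 / q) * (δ * N) :=
        mul_le_mul i2 h4 (by linarith) (by positivity)
      nlinarith
  have k : |1 / q - 1 / q'| ≤ 2 * δ / q ^ 2 := by
    have e : 1 / q - 1 / q' = (q' - q) * (1 / q * (1 / q')) := by field_simp
    rw [e, abs_mul, abs_of_pos (by positivity : 0 < 1 / q * (1 / q'))]
    calc _ ≤ δ * (1 / q * (2 * (1 / q))) :=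
          mul_le_mul hqq (mul_le_mul_of_nonneg_left i2 (by positivity)) (by positivity) d0
      _ = _ := by field_simp
  have k2 : |(1 / q - 1 / q') * (a - b)| ≤ 2 * δ / q ^ 2 * (2 * (C * N)) := by
    rw [abs_mul]
    exact mul_le_mul k hAB (abs_nonneg _) (by positivity)
  have e : (aE - (1 - q) * bE) / q - oE = ((a - (1 - q') * b) / q' - o) + (bE - b) +
      1 / q * ((aE - a) - (bE - b)) + (1 / q - 1 / q') * (a - b) - (oE - o) := by
    field_simp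
    ring
  have k3 : 1 / q * -(2 * (δ * N)) ≤ 1 / q * ((aE - a) - (bE - b)) :=
    mul_le_mul_of_nonneg_left (by linarith [(abs_le.1 hA).1, (abs_le.1 hB).2]) (by positivity)
  have k4 : δ * N ≤ 1 / q * (δ * N) := le_mul_of_one_le_left dN i1
  have k5 : δ * (8 / q + 4 * C / q ^ 2) * N ≤ ε * N := mul_le_mul_of_nonneg_right hε hN.le
  have k6 : δ * (8 / q + 4 * C / q ^ 2) * N =
      8 * (1 / q * (δ * N)) + 2 * δ / q ^ 2 * (2 * (C * N)) := by ring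
  rw [e]
  linarith [(abs_le.1 k2).1, (abs_le.1 hB).1, (abs_le.1 hO).2]

lemma Below.far (S : Sys c ι) {v : Set Dat} {σ ρ T : ℝ} {f : Dat → P} (hb : Below c v σ ρ T f)
    (hρ : 0 < ρ) {E : Dat} (hE : E ∈ v) : S.Far σ (fun _ => f E) (sl 0 (f E)) := by
  intro k η hη
  obtain ⟨δ, hδ, H⟩ := sl_cont hb.cont (hb.ne hρ hE) hη
  filter_upwards [ev_ball S k hδ, ev_ball S k hρ] with i b1 b2
  exact ⟨hb.mem E hE, fun y hy => ⟨b2.2.trans (hb.h E hE y (ball_subset_closedBall (b2.1 hy))),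
    H y (b1.1 hy) E (by simpa using hδ)⟩⟩

end MOVaux

open MOVaux in
theorem p_MOV (hMON : S_MON) :
    S_MOV := by
  intro c R ι S v hv σ ζ ε ρ hσ hc hε
  have := c.crof.fin
  have hρ := hc.rho
  have z0 : (0 : P) ∈ closedBall (0 : P) ρ := mem_closedBall_self hρ.le
  obtain ⟨T, hT, t1, t2⟩ : ∃ T : ℝ, 0 ≤ T ∧ |ζ| + ε ≤ T ∧ |fx (ln c.G) σ ζ| + ε ≤ T :=
    ⟨|ζ| + |fx (ln c.G) σ ζ| + |ε|, by positivity,
      by linarith [abs_nonneg (fx (ln c.G) σ ζ), le_abs_self ε],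
      by linarith [abs_nonneg ζ, le_abs_self ε]⟩
  have ab : ∀ a b : ℝ, |a - b| ≤ ε → |a| ≤ |b| + ε := fun a b h => by
    linarith [abs_sub_abs_le_abs_sub a b]
  have bO : Below c v σ ρ T dO :=
    ⟨continuous_fst, hc.mO, hc.hO, fun D hD y hy => (ab _ _ (hc.sO D hD y hy)).trans t1⟩
  have bB : Below c v σ ρ T dB :=
    ⟨by unfold dB; fun_prop, hc.mB, hc.hB, fun D hD y hy => (ab _ _ (hc.sB D hD y hy)).trans t2⟩
  have bA : Below c v σ ρ T dA := by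
    refine ⟨by unfold dA dl dB dO; fun_prop, fun D hD => ?_, hc.hA,
      fun D hD y hy => (ab _ _ (hc.sA D hD y hy)).trans t2⟩
    obtain ⟨l0, l1, -⟩ := c.gp.cells.good v hv D hD
    exact (convex_ball (0 : P) c.ρ0).add_smul_sub_mem (hc.mO D hD) (hc.mB D hD) ⟨l0.le, l1.le⟩
  obtain ⟨E, hE, H⟩ := nest c.gp.cells hv (fun j w =>
      (∀ D ∈ w, ∀ D' ∈ w, dist D D' ≤ 1 / ((j : ℝ) + 1)) ∧ Qf S dO j (1 / ((j : ℝ) + 1)) w ∧
        Qf S dA j (1 / ((j : ℝ) + 1)) w ∧ Qf S dB j (1 / ((j : ℝ) + 1)) w) (by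
    intro j w hw hwv
    have hη : (0 : ℝ) < 1 / ((j : ℝ) + 1) := Nat.one_div_pos_of_nat
    obtain ⟨w1, a1, s1, p1⟩ := c.gp.cells.ref w hw _ hη
    obtain ⟨w2, a2, s2, p2⟩ := step R S hσ hρ hT bO a1 (s1.trans hwv) j hη fun m => by
      obtain ⟨u, h1, h2, -⟩ := c.gp.cells.sep w1 a1 m
      exact ⟨u, h1, Or.inl h2⟩
    obtain ⟨w3, a3, s3, p3⟩ := step R S hσ hρ hT bA a2 (s2.trans (s1.trans hwv)) j hη fun m => by
      obtain ⟨u, h1, -, h2, -⟩ := c.gp.cells.sep w2 a2 m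
      exact ⟨u, h1, h2⟩
    obtain ⟨w4, a4, s4, p4⟩ := step R S hσ hρ hT bB a3 (s3.trans (s2.trans (s1.trans hwv))) j hη
      fun m => by
        obtain ⟨u, h1, -, -, h2⟩ := c.gp.cells.sep w3 a3 m
        exact ⟨u, h1, h2⟩
    have s := s4.trans (s3.trans s2)
    exact ⟨w4, a4, s.trans s1, fun D hD D' hD' => p1 D (s hD) D' (s hD'),
      p2.mono (s4.trans s3), p3.mono s4, p4⟩)
  obtain ⟨-, -, r0, r1⟩ := c.gp.cells.good v hv E hE
  refine ⟨fun _ => E, E, hE, fun _ => hE, tendsto_const_nhds, bO.far S hρ hE, bA.far S hρ hE,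
    bB.far S hρ hE, ?_, fun k => ?_, fun _ => ⟨r0, r1⟩, tendsto_const_nhds, fun k ε1 hε1 => ?_⟩
  · have h1 := abs_le.1 (hc.sO E hE 0 z0)
    have h2 := abs_le.1 (hc.sA E hE 0 z0)
    unfold fx at h2
    rcases hσ with rfl | rfl <;> linarith [h1.1, h1.2, h2.1, h2.2]
  · filter_upwards [ev_ball S k hρ] with i hi y hy
    exact (hc.ord E hE y (ball_subset_closedBall (hi.1 hy))).le
  have hK : 1 ≤ (1 + T) * (|k| + 1) := by nlinarith [abs_nonneg k]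
  obtain ⟨C, hC, HC⟩ := bound R S T _ hK
  have hq : 0 < 1 - dr E := by linarith
  have hp : 0 < 8 / (1 - dr E) + 4 * C / (1 - dr E) ^ 2 := by positivity
  obtain ⟨j, j1, j2, j3⟩ : ∃ j : ℕ, k ≤ j ∧ 1 / ((j : ℝ) + 1) ≤ (1 - dr E) / 2 ∧
      1 / ((j : ℝ) + 1) * (8 / (1 - dr E) + 4 * C / (1 - dr E) ^ 2) ≤ ε1 := by
    have h1 := tendsto_one_div_add_atTop_nhds_zero_nat (𝕜 := ℝ)
    have h2 := h1.eventually (ge_mem_nhds (half_pos hq))
    have h3 := h1.eventually (ge_mem_nhds (div_pos hε1 hp))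
    have h4 := tendsto_natCast_atTop_atTop (R := ℝ).eventually (eventually_ge_atTop k)
    obtain ⟨j, j1, j2, j3⟩ := (h4.and (h2.and h3)).exists
    exact ⟨j, j1, j2, (le_div_iff₀ hp).1 j3⟩
  obtain ⟨w, hw, hwv, hEw, hd, qO, qA, qB⟩ := H j
  obtain ⟨ρw, hρw, hval⟩ := c.gp.cells.val w hw
  filter_upwards [HC, qO, qA, qB, ev_ball S k hρw, ev_ball S k hρ, ev_ball S k c.rho0] with i
    hm q1 q2 q3 b1 b2 b3 y hy z hz hyz
  have sub : S.B k i ⊆ S.B j i :=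
    closedBall_subset_closedBall (mul_le_mul_of_nonneg_right j1 (S.s0 i).le)
  obtain ⟨D, hD, hci⟩ := hval y (b1.1 hy)
  have hDv := hwv hD
  have cl : ∀ x ∈ S.B k i, x ∈ closedBall (0 : P) ρ := fun x hx => ball_subset_closedBall (b2.1 hx)
  have pA : ∀ x ∈ S.B k i, 0 < σ * (x.2 - (dA D).2) := fun x hx =>
    hρ.trans_le (bA.h D hDv x (cl x hx))
  have pB : ∀ x ∈ S.B k i, 0 < σ * (x.2 - (dB D).2) := fun x hx =>
    hρ.trans_le (bB.h D hDv x (cl x hx))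
  have d1 := diff_le c.crof hσ (bA.mem D hDv) (bB.mem D hDv) (b3.1 hy) (b3.1 hz)
    (pA y hy) (pA z hz) (pB y hy) (pB z hz)
  have hR : (1 + T) * (k * S.s i) ≤ (1 + T) * (|k| + 1) * S.s i := by
    rw [mul_assoc]
    refine mul_le_mul_of_nonneg_left ?_ (by linarith)
    exact mul_le_mul_of_nonneg_right (by linarith [le_abs_self k]) (S.s0 i).le
  have d2 := win (X := dA D) (X' := dB D) (t := 0) (g := T) hσ hy hz hR
    fun x hx => ⟨pA x hx, pB x hx, bA.s D hDv x (cl x hx), bB.s D hDv x (cl x hx),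
      by simpa using bA.s D hDv x (cl x hx), by simpa using bB.s D hDv x (cl x hx)⟩
  have d3 : c.μ.real (sp y z ∩ sp (dA D) (dB D)) ≤ C * S.N i :=
    ((measureReal_mono d2).trans (mw_mono _ inter_subset_right _ le_rfl)).trans hm
  have on := hci.on y (c.sub (b3.1 hy)) rfl
  obtain ⟨m1, m2⟩ := hMON c.M c.d D _ c.gp.pm hci z (c.sub (b3.1 hz))
  have hr : |1 - dr D - (1 - dr E)| ≤ 1 / ((j : ℝ) + 1) := by
    have h1 : dist (dr E) (dr D) ≤ dist E D :=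
      (le_max_right _ _).trans ((le_max_right _ _).trans (le_max_right _ _))
    rw [Real.dist_eq] at h1
    rw [show 1 - dr D - (1 - dr E) = dr E - dr D by ring]
    exact h1.trans (hd E hEw D hD)
  have eV : Vf c.d D z = (c.d (dA D) z - c.d (dA D) y -
      (1 - (1 - dr D)) * (c.d (dB D) z - c.d (dB D) y)) / (1 - dr D) := by
    unfold Vf
    rw [on]
    congr 1
    ring
  have key := alg hq (by linarith) hr j2 (S.N0 i) (q1 E hEw D hD y (sub hy) z (sub hz))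
    (q2 E hEw D hD y (sub hy) z (sub hz)) (q3 E hEw D hD y (sub hy) z (sub hz))
    (d1.trans (by linarith)) (sub_nonneg.2 hyz)
    (fun h => by rw [← eV]; exact m1 (sub_nonneg.1 h))
    (fun h => by
      rw [← eV, sub_sub_cancel, neg_sub]
      exact m2 (sub_nonpos.1 h)) j3
  have e : hf c.d E z - hf c.d E y = (c.d (dA E) z - c.d (dA E) y -
      (1 - (1 - dr E)) * (c.d (dB E) z - c.d (dB E) y)) / (1 - dr E) -
      (c.d (dO E) z - c.d (dO E) y) := by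
    unfold hf Vf
    ring
  linarith

end Pool.Agent.P.MP_874adf_gt.Gn
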