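import Pool.Agent.P.MP_874adf_gt.Gn.NlRec
import Pool.Agent.P.MP_874adf_gt.Gn.TGAP

/-! Common tools for the two statements about norms. -/

set_option autoImplicit false

namespace Pool.Agent.P.MP_874adf_gt.Gn.Nl

open Pool.Agent.P.MP_874adf_gt.Fs Set Filter Topology Metric Function

lemma mkN0 {G : P → ℝ} (h : IsN G) (h1 : G (1, 0) = 1) : N0 (ln G) :=
  ⟨GAPaux.pos h, GAPaux.lip h h1, GAPaux.big h h1⟩

lemma NS.toNT {n β : ℝ → ℝ} (s : NS n β) (sc : SCout n) : NT n β := by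
  have h := s.toN0
  have hβ := s.sub
  refine ⟨s, fun a b ab => ?_, fun a b ab hb => ?_⟩
  · by_contra hc
    rw [not_lt, fxe, fxe] at hc
    have b1 : 1 ≤ β b := by
      have : 1 * (b - a) ≤ β b * (b - a) := by linarith [hβ b a]
      exact le_of_mul_le_mul_right this (sub_pos.2 ab)
    obtain ⟨u, u1, u2⟩ : ∃ u, b ≤ u ∧ n 0 < u :=
      ⟨max b (n 0 + 1), le_max_left _ _, (lt_add_one _).trans_le (le_max_right _ _)⟩
    have k := sc.2.2 (x := u) ⟨0, by simp only [fx]; linarith⟩ (y := u + 2)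
      ⟨0, by simp only [fx]; linarith⟩ (by linarith) one_half_pos one_half_pos (by norm_num)
    simp only [smul_eq_mul] at k
    rw [show 1 / 2 * u + 1 / 2 * (u + 2) = u + 1 by ring] at k
    have a1 := hβ u (u + 1)
    have a2 := h.lip u (u + 2)
    rw [add_sub_cancel_left, abs_two] at a2
    have a3 := s.mono u1
    rw [add_sub_cancel_left] at a1
    linarith
  · have k := sc.1.2 (NT.lower hb ab.le) hb ab.ne one_half_pos one_half_pos (by norm_num)
    simp only [smul_eq_mul] at k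
    linarith [hβ b (1 / 2 * a + 1 / 2 * b)]

lemma mkNT {n : ℝ → ℝ} (h : N0 n) (cv : ConvexOn ℝ univ n) (sc : SCout n) : ∃ β, NT n β :=
  (exists_sub cv).imp fun _ hβ => NS.toNT ⟨h, hβ⟩ sc

lemma NS.refl {n β : ℝ → ℝ} (h : NS n β) : NS (fun t => n (-t)) fun t => -β (-t) :=
  ⟨h.toN0.refl, fun s t => by linarith [h.sub (-s) (-t)]⟩

lemma conv_refl {n : ℝ → ℝ} {s s' : Set ℝ} (h : StrictConvexOn ℝ s n) (e : ∀ t, t ∈ s' ↔ -t ∈ s) :
    StrictConvexOn ℝ s' fun t => n (-t) := by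
  refine ⟨fun x hx y hy a b a0 b0 ab => ?_, fun x hx y hy xy a b a0 b0 ab => ?_⟩
  · have := h.1 ((e x).1 hx) ((e y).1 hy) a0 b0 ab
    rw [e]
    simp only [smul_eq_mul] at this ⊢
    rwa [show -(a * x + b * y) = a * -x + b * -y by ring]
  · have := h.2 ((e x).1 hx) ((e y).1 hy) (neg_injective.ne xy) a0 b0 ab
    simp only [smul_eq_mul] at this ⊢
    rwa [show -(a * x + b * y) = a * -x + b * -y by ring]

lemma lf_refl (n : ℝ → ℝ) (σ t : ℝ) : t ∈ Lf (fun t => n (-t)) σ ↔ -t ∈ Lf n (-σ) := by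
  constructor
  · rintro ⟨z, hz⟩
    exact ⟨-z, by simp only [fx] at hz ⊢; linarith⟩
  · rintro ⟨z, hz⟩
    exact ⟨-z, by simp only [fx, neg_neg] at hz ⊢; linarith⟩

lemma sc_refl {n : ℝ → ℝ} (h : SCout n) : SCout fun t => n (-t) :=
  ⟨conv_refl h.2 (lf_refl n 1), conv_refl h.1 fun t => by simpa using lf_refl n (-1) t⟩

def C1 (t0 : ℝ) (F : ℝ → ℝ) : Prop :=
  ∃ F' : ℝ → ℝ, (∀ t < t0, HasDerivAt F (F' t) t) ∧ ContinuousOn F' (Iio t0)

namespace C1

variable {t0 : ℝ} {F G : ℝ → ℝ}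

lemma const (c : ℝ) : C1 t0 fun _ => c :=
  ⟨fun _ => 0, fun t _ => hasDerivAt_const t c, continuousOn_const⟩

lemma sub (h : C1 t0 F) (k : C1 t0 G) : C1 t0 fun t => F t - G t := by
  obtain ⟨F', a, b⟩ := h
  obtain ⟨G', c, d⟩ := k
  exact ⟨_, fun t ht => (a t ht).sub (c t ht), b.sub d⟩

lemma mul (h : C1 t0 F) (k : C1 t0 G) : C1 t0 fun t => F t * G t := by
  obtain ⟨F', a, b⟩ := h
  obtain ⟨G', c, d⟩ := k
  exact ⟨_, fun t ht => (a t ht).mul (c t ht), (b.mul (contOn_of c)).add ((contOn_of a).mul d)⟩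

lemma div (h : C1 t0 F) (k : C1 t0 G) (ne : ∀ t < t0, G t ≠ 0) : C1 t0 fun t => F t / G t := by
  obtain ⟨F', a, b⟩ := h
  obtain ⟨G', c, d⟩ := k
  exact ⟨_, fun t ht => (a t ht).div (c t ht) (ne t ht),
    ((b.mul (contOn_of c)).sub ((contOn_of a).mul d)).div ((contOn_of c).pow 2)
      fun t ht => pow_ne_zero 2 (ne t ht)⟩

lemma comp (h : C1 t0 F) (k : C1 t0 G) (m : ∀ t < t0, G t < t0) : C1 t0 fun t => F (G t) := by
  obtain ⟨F', a, b⟩ := h
  obtain ⟨G', c, d⟩ := k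
  exact ⟨_, fun t ht => (a _ (m t ht)).comp t (c t ht), (b.comp (contOn_of c) m).mul d⟩

end C1

namespace ST

variable {n β : ℝ → ℝ} {π z t0 : ℝ} (h : ST n β π z) (t1 : t0 ≤ fx n 1 z)
include h t1

lemma c1n : C1 t0 n :=
  ⟨β, fun _ ht => h.dn ((ht.trans_le t1).trans (h.flt z)),
    fun t ht => (h.ct t ((ht.trans_le t1).trans (h.flt z))).continuousWithinAt⟩

lemma c1f : C1 t0 (fx n 1) :=
  ⟨fun t => 1 - β t, fun _ ht => h.df ((ht.trans_le t1).trans (h.flt z)), continuousOn_const.sub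
    fun t ht => (h.ct t ((ht.trans_le t1).trans (h.flt z))).continuousWithinAt⟩

lemma c1b : C1 t0 (bq n) :=
  ⟨db n β, fun _ ht => (h.sb (ht.trans_le t1)).hasDerivAt,
    fun _ ht => (h.cdb (ht.trans_le t1)).continuousWithinAt⟩

lemma c1c {F : ℝ → ℝ} (k : C1 t0 F) : C1 t0 fun t => F (fx n 1 t) :=
  k.comp (h.c1f t1) fun t ht => (h.flt t).trans ht

end ST

namespace NT

variable {n β : ℝ → ℝ} (h : NT n β)
include h

lemma bcf (t : ℝ) : ContinuousAt (fun t => bq n (fx n 1 t)) t :=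
  (h.bcont (h.memf t)).comp h.fcont.continuousAt

lemma nofix {z : ℝ} (hz : z ∈ Lf n 1) {Z : Set ℝ} (hZ : Z.Countable)
    (e : ∀ t < z, t ∉ Z → bq n (fx n 1 t) = bq n t) : False := by
  have all : ∀ t < z, bq n (fx n 1 t) = bq n t := fun t ht =>
    tendsto_nhds_unique_of_frequently_eq ((h.bcf t).tendsto.mono_left nhdsWithin_le_nhds)
      ((h.bcont (lower hz ht.le)).tendsto.mono_left nhdsWithin_le_nhds)
      (((freqR hZ t).and_eventually (nhdsWithin_le_nhds (Iio_mem_nhds ht))).mono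
        fun s hs => e s hs.2 hs.1)
  obtain ⟨δ, δ0, hδ⟩ := h.down
  have ht : z - 1 < z := by linarith
  have it : ∀ k : ℕ, bq n (fx n 1 ((fx n 1)^[k] (z - 1))) + 1 = bq n (fx n 1 (z - 1)) + 1 := by
    intro k
    induction k with
    | zero => rfl
    | succ k ih =>
      have a : (0 : ℝ) ≤ k * δ := by positivity
      rw [iterate_succ_apply', all _ ((h.flt _).trans
        (by linarith [iter_le δ0 (fun s _ => hδ s) ht k])), ih]
  have t1 := h.qlim.comp (iter_bot δ0 (fun s _ => hδ s) ht)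
  exact (h.qpos (z - 1)).ne' (tendsto_nhds_unique (tendsto_const_nhds.congr fun k => (it k).symm) t1)

lemma bneg' {t : ℝ} (ht : t ∈ Lf n 1) : bq n t < 0 := by
  obtain ⟨s, rfl⟩ := h.surj ht
  exact h.bneg s

end NT

end Pool.Agent.P.MP_874adf_gt.Gn.Nl
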