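import Pool.Agent.P.MP_874adf_gt.Gn.Iface0
import Pool.Agent.P.MP_874adf_gt.Gn.NlCom

/-! Step NLF. -/

set_option autoImplicit false

namespace Pool.Agent.P.MP_874adf_gt.Gn

open Pool.Agent.P.MP_874adf_gt.Fs Set Filter Topology Metric MeasureTheory

namespace Nl

lemma noflat {n β : ℝ → ℝ} {π : ℝ} (h : NT n β) (p0 : 0 ≤ π) (p1 : π ≤ 1)
    (rel : ∀ ζ, RelR n n π ζ) : ¬ FlatRel n π := by
  rintro ⟨Z, hZ, z, hz, R⟩
  have e0 : ∀ t < z, t ∉ Z ∪ {z | ¬ (ContinuousAt β z ∧ ContinuousAt β (fx n 1 z))} →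
      (1 - π) * (bq n (fx n 1 t) - bq n t) + π * n t * dB n t (β t) (β (fx n 1 t)) = 0 := by
    intro t ht hn
    rw [mem_union, not_or, mem_ofPred_eq, not_not] at hn
    exact (flat_sl (h.pos t) (h.bcont (NT.lower hz ht.le)) (h.bcont (h.memf t))
      (R t ht hn.1)).eq (h.bstrict hn.2.1 hn.2.2)
  have cZ := hZ.countable.union h.bad
  rcases p0.eq_or_lt with rfl | p0
  · exact h.nofix hz cZ fun t ht hn => by linarith [e0 t ht hn]
  obtain ⟨ct, e⟩ := h.nojump (z := z) (L := fun t => (1 - π) / π * (bq n t - bq n (fx n 1 t)) / n t)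
    cZ (fun t ht => ((continuousAt_const.mul ((h.bcont (NT.lower hz (le_of_lt ht))).sub
      (h.bcf t))).div h.cont.continuousAt (h.pos t).ne').continuousWithinAt) fun t ht hn => by
      have p := h.pos t
      field_simp
      linarith [e0 t ht hn]
  have s : ST n β π z := ⟨h, ct, rel, p0, p1⟩
  obtain ⟨T, hT⟩ := eventually_atBot.1 (h.tl1.eventually (gt_mem_nhds one_pos))
  obtain ⟨t0, t1, t2, t3⟩ : ∃ t0, t0 ≤ fx n 1 z ∧ t0 ≤ -n 0 ∧ t0 ≤ T :=
    ⟨min (fx n 1 z) (min (-n 0) T), min_le_left _ _, (min_le_right _ _).trans (min_le_left _ _),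
      (min_le_right _ _).trans (min_le_right _ _)⟩
  have lz : ∀ t < t0, t < z := fun t ht => (ht.trans_le t1).trans (h.flt z)
  obtain ⟨L', dL, cL⟩ := ((C1.const ((1 - π) / π)).mul ((s.c1b t1).sub (s.c1c t1 (s.c1b t1)))).div
    (s.c1n t1) fun t _ => (h.pos t).ne'
  have up := fun t ht => s.upper (t := t) t1 t2 dL cL (fun t ht => e t (lz t ht)) ht
  set u : ℝ → ℝ := fun t => 2 * (1 - π) / π * (bq n t + 1) - (β t + 1) with hu
  have inc : ∀ t < t0, u t < u (fx n 1 t) := by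
    intro t ht
    have a1 := e t (lz t ht)
    have a2 := h.qlt (NT.lower hz (lz t ht).le)
    have a3 : β t < 0 := by linarith [hT t (ht.le.trans t3)]
    have p := h.pos t
    have q : 0 < 1 - β t := by linarith
    have a4 : n (fx n 1 t) = -(2 * n t * bq n (fx n 1 t)) := by rw [h.bqf]; field_simp
    have a5 : u t - u (fx n 1 t) = -β t * (2 * bq n (fx n 1 t) + 1 - β t) / (1 - β t) := by
      simp only [hu, dB] at a1 ⊢
      rw [a4] at a1
      field_simp at a1 ⊢
      linarith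
    have a6 : -β t * (2 * bq n (fx n 1 t) + 1 - β t) / (1 - β t) < 0 :=
      div_neg_of_neg_of_pos (mul_neg_of_pos_of_neg (by linarith) (by linarith)) q
    linarith
  obtain ⟨δ, δ0, hδ⟩ := h.down
  have ht : t0 - 1 < t0 := by linarith
  have it : ∀ k : ℕ, u (fx n 1 (t0 - 1)) ≤ u (fx n 1 ((fx n 1)^[k] (t0 - 1))) := by
    intro k
    induction k with
    | zero => rfl
    | succ k ih =>
      have a : (0 : ℝ) ≤ k * δ := by positivity
      rw [Function.iterate_succ_apply']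
      exact ih.trans (inc _ ((h.flt _).trans
        (by linarith [iter_le δ0 (fun s _ => hδ s) ht k]))).le
  have tf : Tendsto (fx n 1) atBot atBot := tendsto_atBot_mono (fun t => (h.flt t).le) tendsto_id
  have tt := ((h.qlim.const_mul (2 * (1 - π) / π)).sub (h.tl1.comp tf)).comp
    (iter_bot δ0 (fun s _ => hδ s) ht)
  rw [mul_zero, sub_self] at tt
  have a1 : u (fx n 1 (t0 - 1)) ≤ 0 := ge_of_tendsto' tt it
  have a2 := inc _ ht
  have a3 := up _ ht
  simp only [hu] at a1 a2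
  linarith

end Nl

theorem p_NLF :
    S_NLF := by
  intro G π h h1 p0 p1 sc R
  obtain ⟨β, k⟩ := Nl.mkNT (Nl.mkN0 h h1) (GAPaux.conv h) sc
  exact Nl.noflat k p0 p1 fun ζ => Nl.relR h (R ζ)

end Pool.Agent.P.MP_874adf_gt.Gn
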