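import Pool.Agent.P.MP_874adf_gt.Gn.NlCom

/-! The theorem of Thales for one diameter excludes corners at its ends. -/

set_option autoImplicit false

namespace Pool.Agent.P.MP_874adf_gt.Gn.Nl

open Set Filter Topology Metric Function

lemma flat_of {φ ψ : ℝ → ℝ} (d : ∀ t, HasDerivAt φ (ψ t) t) {x y s : ℝ}
    (lo : ∀ t ∈ Icc x y, s ≤ ψ t) (e : φ y - φ x = s * (y - x)) {t : ℝ} (ht : t ∈ Ioo x y) :
    ψ t = s := by
  have d1 : ∀ t, HasDerivAt (fun t => φ t - s * t) (ψ t - s) t := fun t =>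
    ((d t).sub ((hasDerivAt_id t).const_mul s)).congr_deriv (by simp)
  have m : MonotoneOn (fun t => φ t - s * t) (Icc x y) :=
    monotoneOn_of_deriv_nonneg (convex_Icc x y)
      (fun t _ => (d1 t).continuousAt.continuousWithinAt)
      (fun t _ => (d1 t).differentiableAt.differentiableWithinAt)
      fun t ht => by rw [(d1 t).deriv]; linarith [lo t (interior_subset ht)]
  have xy : x ≤ y := (ht.1.trans ht.2).le
  have d2 : HasDerivAt (fun t => φ t - s * t) 0 t := by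
    refine (hasDerivAt_const t (φ x - s * x)).congr_of_eventuallyEq ?_
    filter_upwards [Icc_mem_nhds ht.1 ht.2] with u hu
    have a1 := m ⟨le_rfl, xy⟩ hu hu.1
    have a2 := m hu ⟨xy, le_rfl⟩ hu.2
    simp only at a1 a2
    linarith
  linarith [(d1 t).unique d2]

lemma nomax {ψ : ℝ → ℝ} (c : Continuous ψ) {x y s : ℝ} (ne : ∃ t ∈ Icc x y, ψ t = s)
    (h : ∀ t ∈ Icc x y, ψ t = s → ∃ u ∈ Icc x y, ψ u = s ∧ t < u) : False := by
  have k : IsCompact (Icc x y ∩ {t | ψ t = s}) :=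
    isCompact_Icc.inter_right (isClosed_eq c continuous_const)
  obtain ⟨t, ht, mx⟩ := k.exists_isGreatest ne
  obtain ⟨u, u1, u2, u3⟩ := h t ht.1 ht.2
  exact absurd (mx ⟨u1, u2⟩) (not_le.2 u3)

/-- a function whose values left of `a` are averages over windows to the right -/
structure AvL (φ ψ f : ℝ → ℝ) (a : ℝ) : Prop where
  d : ∀ t, HasDerivAt φ (ψ t) t
  c : Continuous ψ
  lt : ∀ t, f t < t
  mono : StrictMono f
  surj : ∀ t < a, ∃ z, f z = t
  av : ∀ z, φ z - φ (f z) = ψ (f z) * (z - f z)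

lemma AvL.win {φ ψ f : ℝ → ℝ} {a : ℝ} (h : AvL φ ψ f a) {x : ℝ} (hx : x ≤ a) :
    ∃ y ∈ Icc (f a) a, ψ y ≤ ψ x := by
  by_contra hc
  push Not at hc
  obtain ⟨y, hy, mn⟩ := isCompact_Icc.exists_isMinOn (nonempty_Icc.2 hx) h.c.continuousOn
  refine nomax h.c ⟨y, hy, rfl⟩ fun t ht e => ?_
  have t1 : t < f a := by
    by_contra k
    exact absurd (e.le.trans (mn ⟨le_rfl, hx⟩)) (not_le.2 (hc t ⟨not_lt.1 k, ht.2⟩))
  obtain ⟨z, rfl⟩ := h.surj t (t1.trans (h.lt a))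
  have za := h.mono.lt_iff_lt.1 t1
  obtain ⟨u, u1, u2⟩ := exists_between (h.lt z)
  exact ⟨u, ⟨ht.1.trans u1.le, (u2.trans za).le⟩, flat_of h.d
    (fun v hv => mn ⟨ht.1.trans hv.1, hv.2.trans za.le⟩) (by rw [h.av, e]) ⟨u1, u2⟩, u1⟩

lemma AvL.top {φ ψ f : ℝ → ℝ} {a s : ℝ} (h : AvL φ ψ f a) (lo : ∀ t, s ≤ ψ t) (ha : s < ψ a)
    {x : ℝ} (hx : x ≤ a) : ψ x ≠ s := fun e0 => by
  refine nomax h.c ⟨x, ⟨le_rfl, hx⟩, e0⟩ fun t ht e => ?_
  have t1 : t < a := lt_of_le_of_ne ht.2 fun k => ha.ne' (k ▸ e)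
  obtain ⟨z, rfl⟩ := h.surj t t1
  obtain ⟨u, u1, u2⟩ := exists_between (lt_min (h.lt z) t1)
  exact ⟨u, ⟨ht.1.trans u1.le, (u2.trans_le (min_le_right _ _)).le⟩, flat_of h.d
    (fun v _ => lo v) (by rw [h.av, e]) ⟨u1, u2.trans_le (min_le_left _ _)⟩, u1⟩

lemma NT.edge {n β : ℝ → ℝ} (h : NT n β) (e : ∀ t ∈ Lf n 1, β t = bq n t) :
    ∃ a, (∀ t, t ∈ Lf n 1 ↔ t < a) ∧ ∀ ε > (0 : ℝ), ∃ t < a, -ε < β t := by
  have bd : BddAbove (range (fx n 1)) := ⟨n 0, by
    rintro _ ⟨t, rfl⟩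
    rw [fxe]
    linarith [h.big t, le_abs_self t]⟩
  have k : ∀ t, t ∈ Lf n 1 ↔ t < ⨆ z, fx n 1 z := fun t => by
    rw [lt_ciSup_iff bd]
    simp [Lf]
  refine ⟨_, k, fun ε ε0 => ?_⟩
  have t1 := (h.cont.tendsto _).comp (tendsto_atTop_ciSup h.sf.monotone bd)
  have t2 : Tendsto n atTop atTop :=
    tendsto_atTop_mono h.big (tendsto_atTop_add_const_right _ (-n 0) tendsto_abs_atTop_atTop)
  obtain ⟨z, hz⟩ := ((t1.neg.div_atTop (t2.const_mul_atTop two_pos)).eventually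
    (lt_mem_nhds (neg_neg_of_pos ε0))).exists
  exact ⟨_, (k _).1 (h.memf z), by rw [e _ (h.memf z), h.bqf]; exact hz⟩

lemma nogap {n β : ℝ → ℝ} (h : NT n β) (h' : NT (fun t => n (-t)) fun t => -β (-t))
    (e : ∀ t ∈ Lf n 1, ContinuousAt β t ∧ β t = bq n t)
    (e' : ∀ t ∈ Lf (fun t => n (-t)) 1, ContinuousAt (fun t => -β (-t)) t ∧
      -β (-t) = bq (fun t => n (-t)) t) :
    ∃ a b, b ≤ a ∧ (∀ t < a, t ∈ Lf n 1) ∧ ∀ t > b, t ∈ Lf n (-1) := by
  obtain ⟨a, a1, a2⟩ := h.edge fun t ht => (e t ht).2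
  obtain ⟨a', b1, b2⟩ := h'.edge fun t ht => (e' t ht).2
  obtain ⟨b, rfl⟩ : ∃ b, a' = -b := ⟨-a', by simp⟩
  refine ⟨a, b, ?_, fun t ht => (a1 t).2 ht, fun t ht => ?_⟩
  swap
  · have := (lf_refl n 1 (-t)).1 ((b1 (-t)).2 (neg_lt_neg ht))
    rwa [neg_neg] at this
  by_contra ab
  rw [not_le] at ab
  have z1 : ∀ t, a ≤ t → 0 ≤ β t := fun t ht => le_of_forall_pos_le_add fun ε ε0 => by
    obtain ⟨s, s1, s2⟩ := a2 ε ε0
    linarith [h.mono (s1.le.trans ht)]
  have z2 : ∀ t, t ≤ b → β t ≤ 0 := fun t ht => le_of_forall_pos_le_add fun ε ε0 => by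
    obtain ⟨s, s1, s2⟩ := b2 ε ε0
    linarith [h.mono (show t ≤ -s by linarith)]
  have cβ : Continuous β := by
    refine continuous_iff_continuousAt.2 fun t => ?_
    rcases lt_or_ge t a with c | c
    · exact (e t ((a1 t).2 c)).1
    rcases lt_or_ge b t with c' | c'
    · have := ((e' (-t) ((b1 _).2 (neg_lt_neg c'))).1.comp continuous_neg.continuousAt).neg
      convert this using 1
      ext u
      simp
    rw [ContinuousAt, Metric.tendsto_nhds]
    intro ε ε0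
    obtain ⟨s, s1, s2⟩ := a2 ε ε0
    obtain ⟨s', s3, s4⟩ := b2 ε ε0
    filter_upwards [Ioo_mem_nhds (s1.trans_le c) (show t < -s' by linarith)] with u hu
    rw [le_antisymm (z2 t c') (z1 t c), Real.dist_eq, sub_zero, abs_lt]
    constructor <;> linarith [h.mono hu.1.le, h.mono hu.2.le]
  have cn := h.cont
  have d : ∀ t, HasDerivAt (fun t => n t ^ 2 - (t - b) ^ 2) (2 * n t * β t - 2 * (t - b)) t :=
    fun t => (((h.strict cβ.continuousAt).hasDerivAt.fun_pow 2).fun_sub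
      (((hasDerivAt_id' t).sub_const b).fun_pow 2)).congr_deriv (by simp)
  set φ : ℝ → ℝ := fun t => n t ^ 2 - (t - b) ^ 2 with hφ
  set ψ : ℝ → ℝ := fun t => 2 * n t * β t - 2 * (t - b) with hψ
  have cψ : Continuous ψ := by rw [hψ]; fun_prop
  have L : AvL φ ψ (fx n 1) a := ⟨d, cψ, h.flt, h.sf, fun t ht => h.surj ((a1 t).2 ht), fun z => by
    have p := h.pos z
    simp only [hφ, hψ]
    rw [(e _ (h.memf z)).2, h.bqf, fxe]
    field_simp
    ring⟩
  have R : AvL (fun t => -φ (-t)) (fun t => ψ (-t)) (fx (fun t => n (-t)) 1) (-b) :=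
    ⟨fun t => (((d (-t)).comp t (hasDerivAt_neg t)).neg).congr_deriv (by simp [hψ]),
      cψ.comp continuous_neg, h'.flt, h'.sf, fun t ht => h'.surj ((b1 t).2 ht), fun z => by
      have p := h.pos (-z)
      have k := (e' _ (h'.memf z)).2
      simp only [hφ, hψ]
      rw [← neg_neg (β _), k, h'.bqf, fxe]
      field_simp
      ring⟩
  have fa := h.flt a
  have fb := h'.flt (-b)
  obtain ⟨y, -, mn⟩ := (isCompact_Icc (a := fx n 1 a) (b := -fx (fun t => n (-t)) 1 (-b))).exists_isMinOn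
    ⟨a, fa.le, by linarith⟩ cψ.continuousOn
  have lo : ∀ t, ψ y ≤ ψ t := fun t => by
    rcases le_total t a with c | c
    · obtain ⟨u, u1, u2⟩ := L.win c
      exact (mn ⟨u1.1, by linarith [u1.2]⟩).trans u2
    rcases le_total b t with c' | c'
    · obtain ⟨u, u1, u2⟩ := R.win (neg_le_neg c')
      rw [neg_neg] at u2
      exact (mn ⟨by linarith [u1.2], by linarith [u1.1]⟩).trans u2
    · exact mn ⟨fa.le.trans c, by linarith⟩
  obtain ⟨w, w1, w2⟩ := (isCompact_Icc (a := fx n 1 a) (b := a)).exists_isMinOn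
    ⟨a, fa.le, le_rfl⟩ cψ.continuousOn
  have mid : ∀ t, a ≤ t → t ≤ b → ψ t = 2 * (b - t) := fun t c c' => by
    simp only [hψ]
    rw [le_antisymm (z2 t c') (z1 t c)]
    ring
  have w0 : ψ w ≤ 0 := by
    by_contra hc
    rw [not_le] at hc
    have m := mono_of (t0 := a) (F := fun t => φ t - ψ w * t) (F' := fun t => ψ t - ψ w)
      (fun t _ => ((d t).sub ((hasDerivAt_id t).const_mul (ψ w))).congr_deriv (by simp [hψ]))
      fun t ht => by
        obtain ⟨u, u1, u2⟩ := L.win ht.le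
        exact sub_nonneg.2 (le_trans (w2 u1) u2)
    obtain ⟨x, x1, x2⟩ : ∃ x, x ≤ a - 1 ∧ x < a - 1 - φ (a - 1) / ψ w :=
      ⟨min (a - 1) (a - 1 - φ (a - 1) / ψ w - 1), min_le_left _ _,
        (min_le_right _ _).trans_lt (by linarith)⟩
    have k1 := m (show x < a by linarith) (show a - 1 < a by linarith) x1
    have k2 : φ (a - 1) / ψ w < a - 1 - x := by linarith
    rw [div_lt_iff₀ hc] at k2
    have k3 : b - x ≤ n x := by
      have := (b1 _).1 (h'.memf (-x))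
      rw [fxe, neg_neg] at this
      linarith
    have k4 : 0 ≤ φ x := by
      simp only [hφ]
      nlinarith
    simp only at k1
    nlinarith
  have s0 : ψ y < ψ a := by rw [mid a le_rfl ab.le]; linarith [lo w]
  have s1 : ψ y < 0 := (lt_of_le_of_ne (lo w) (L.top lo s0 w1.2).symm).trans_le w0
  rcases le_total y a with c | c
  · exact L.top lo s0 c rfl
  rcases le_total b y with c' | c'
  · exact R.top (s := ψ y) (fun t => lo _) (by
      simp only [neg_neg]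
      rw [mid b ab.le le_rfl]
      linarith) (neg_le_neg c') (by simp)
  · rw [mid y c c'] at s1
    linarith

end Pool.Agent.P.MP_874adf_gt.Gn.Nl
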