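import Pool.Agent.P.MP_874adf_gt.Gn.NlCom

/-! The two norms agree left of the cone. -/

set_option autoImplicit false

namespace Pool.Agent.P.MP_874adf_gt.Gn.Nl

open Set Filter Topology Metric Function

lemma ratio_one {m n b β : ℝ → ℝ} {z : ℝ} (hm : N0 m) (hn : N0 n)
    (dm : ∀ t < z, HasDerivAt m (b t) t) (dn : ∀ t < z, HasDerivAt n (β t) t)
    (e : ∀ t < z, n t * b t = m t * β t) {t : ℝ} (ht : t < z) : m t = n t := by
  have d : ∀ t < z, HasDerivAt (fun t => m t / n t) 0 t := fun t ht =>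
    ((dm t ht).div (dn t ht) (hn.pos t).ne').congr_deriv (by
      rw [mul_comm (b t), e t ht, sub_self, zero_div])
  have m1 := mono_of (F' := fun _ => 0) d fun _ _ => le_rfl
  have m2 := mono_of (F' := fun _ => -0) (fun t ht => (d t ht).neg) fun _ _ => by simp
  have t1 := hm.ratio.div hn.ratio one_ne_zero
  rw [div_one] at t1
  have t2 : Tendsto (fun _ : ℝ => m t / n t) atBot (𝓝 1) := by
    refine t1.congr' ?_
    filter_upwards [eventually_le_atBot t, eventually_lt_atBot 0] with s hs s0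
    have a1 := m1 (hs.trans_lt ht) ht hs
    have a2 := m2 (hs.trans_lt ht) ht hs
    simp only [Pi.neg_apply] at a1 a2
    rw [Pi.div_apply, div_div_div_cancel_right₀ (by linarith)]
    linarith
  exact (div_eq_one_iff_eq (hn.pos t).ne').1 (tendsto_nhds_unique tendsto_const_nhds t2)

lemma left {m n β : ℝ → ℝ} {π : ℝ} (h : NT n β) (hm : N0 m) (p0 : 0 ≤ π) (p1 : π ≤ 1)
    (rel : ∀ ζ, RelR n n π ζ) (relm : ∀ ζ ∈ Lf n 1, RelR m n π ζ)
    (sm0 : ∀ ζ t, m (fx n 1 ζ) + bq n (fx n 1 ζ) * (t - fx n 1 ζ) ≤ m t) :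
    ∀ t ∈ Lf n 1, ContinuousAt β t ∧ β t = bq n t := by
  have sm : ∀ s ∈ Lf n 1, ∀ t, m s + bq n s * (t - s) ≤ m t := fun s hs t => by
    obtain ⟨ζ, rfl⟩ := h.surj hs
    exact sm0 ζ t
  have dm : ∀ s ∈ Lf n 1, HasDerivAt m (bq n s) s := fun s hs =>
    (strict_sub ((NT.nhd hs).mono sm) (h.bcont hs)).hasDerivAt
  have E0 : ∀ s ∈ Lf n 1, 0 < m s - n s * bq n s := fun s hs => by
    linarith [hm.pos s, mul_neg_of_pos_of_neg (h.pos s) (h.bneg' hs)]
  have e0 : ∀ t ∈ Lf n 1, t ∉ {z | ¬ (ContinuousAt β z ∧ ContinuousAt β (fx n 1 z))} →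
      (1 - π) * (bq n (fx n 1 t) * (m t - n t * bq n t) - m (fx n 1 t) * bq n t) +
        π * n t * (m t - n t * bq n t) * dB n t (β t) (β (fx n 1 t)) = 0 := by
    intro t ht hn
    rw [mem_ofPred_eq, not_not] at hn
    exact ((relm t ht).sl (h.pos t) ((NT.nhd ht).mono dm) ((NT.nhd (h.memf t)).mono dm)
      (h.bcont ht) (h.bcont (h.memf t)) ((NT.nhd (h.memf t)).mono sm)).eq (h.bstrict hn.1 hn.2)
  have fD : ∀ t, t - fx n 1 t = n t := fun t => by rw [fxe]; ring
  rcases p0.eq_or_lt with rfl | p0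
  · refine (h.nofix (h.memf 0) h.bad fun t ht hn => ?_).elim
    have mt := NT.lower (h.memf 0) ht.le
    have a1 := e0 t mt hn
    have a2 := sm0 t t
    have a3 := sm t mt (fx n 1 t)
    have a4 := h.bneg' mt
    have p := h.pos t
    have q := hm.pos t
    rw [fD] at a2
    rw [← neg_sub, fD] at a3
    refine le_antisymm (le_of_mul_le_mul_right (by linarith) p) (le_of_mul_le_mul_right ?_ q)
    nlinarith
  set L : ℝ → ℝ := fun t => (1 - π) / π * (m (fx n 1 t) * bq n t -
    bq n (fx n 1 t) * (m t - n t * bq n t)) / (n t * (m t - n t * bq n t)) with hL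
  have nj : ∀ z ∈ Lf n 1, (∀ t < z, ContinuousAt β t) ∧
      ∀ t < z, dB n t (β t) (β (fx n 1 t)) = L t := fun z hz => by
    refine h.nojump h.bad (fun t ht => ?_) fun t ht hn => ?_
    · have mt := NT.lower hz (le_of_lt ht)
      have c1 : ContinuousAt (fun t => m t - n t * bq n t) t :=
        hm.cont.continuousAt.sub (h.cont.continuousAt.mul (h.bcont mt))
      exact ((continuousAt_const.mul ((((hm.cont.comp h.fcont).continuousAt).mul (h.bcont mt)).sub
        ((h.bcf t).mul c1))).div (h.cont.continuousAt.mul c1)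
        (mul_pos (h.pos t) (E0 t mt)).ne').continuousWithinAt
    · have mt := NT.lower hz ht.le
      have p := h.pos t
      have q := E0 t mt
      have a1 := e0 t mt hn
      simp only [hL]
      generalize m t - n t * bq n t = E at *
      field_simp
      linarith
  have up : ∀ t ∈ Lf n 1, ∃ z ∈ Lf n 1, t < z := fun t ht => by
    obtain ⟨z, a, b⟩ := (((NT.nhd ht).filter_mono nhdsWithin_le_nhds).and
      (self_mem_nhdsWithin (s := Ioi t))).exists
    exact ⟨z, a, b⟩
  have ct : ∀ t ∈ Lf n 1, ContinuousAt β t := fun t ht => by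
    obtain ⟨z, a, b⟩ := up t ht
    exact (nj z a).1 t b
  have dn : ∀ t ∈ Lf n 1, HasDerivAt n (β t) t := fun t ht => (h.strict (ct t ht)).hasDerivAt
  have e : ∀ t ∈ Lf n 1, -β (fx n 1 t) * (1 - β t) * (m t - n t * bq n t) -
      2 * bq n (fx n 1 t) * β t * (m t - n t * bq n t) = 2 * (1 - π) / π * (1 - β t) *
      (m (fx n 1 t) * bq n t - bq n (fx n 1 t) * (m t - n t * bq n t)) := fun t ht => by
    obtain ⟨z, a, b⟩ := up t ht
    have a1 := (nj z a).2 t b
    have p := h.pos t
    have q := E0 t ht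
    have q' := sub_pos.2 (h.lt1 h.sf t)
    have a4 : n (fx n 1 t) = -(2 * n t * bq n (fx n 1 t)) := by rw [h.bqf]; field_simp
    simp only [hL, dB] at a1
    rw [a4] at a1
    generalize m t - n t * bq n t = E at *
    field_simp at a1 ⊢
    linarith
  have s : ST n β π (fx n 1 0) := ⟨h, (nj _ (h.memf 0)).1, rel, p0, p1⟩
  obtain ⟨t0, t1, t2⟩ : ∃ t0, t0 ≤ fx n 1 (fx n 1 0) ∧ t0 ≤ -n 0 :=
    ⟨min _ _, min_le_left _ _, min_le_right _ _⟩
  have lz : ∀ t < t0, t ∈ Lf n 1 := fun t ht => NT.lower (h.memf _) (ht.le.trans t1)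
  have c1m : C1 t0 m :=
    ⟨bq n, fun t ht => dm t (lz t ht), fun t ht => (h.bcont (lz t ht)).continuousWithinAt⟩
  have c1E := c1m.sub ((s.c1n t1).mul (s.c1b t1))
  obtain ⟨L', dL, cL⟩ := ((C1.const ((1 - π) / π)).mul (((s.c1c t1 c1m).mul (s.c1b t1)).sub
    ((s.c1c t1 (s.c1b t1)).mul c1E))).div ((s.c1n t1).mul c1E)
    fun t ht => (mul_pos (h.pos t) (E0 t (lz t ht))).ne'
  have ex := fun t ht => s.exact (t := t) t1 t2 dL cL
    (fun t ht => (nj _ (h.memf 0)).2 t ((ht.trans_le t1).trans (h.flt _))) hm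
    (fun t ht => dm t (lz t ht)) ht
  generalize 2 * (1 - π) / π = c at *
  have dd : ∀ t < t0, HasDerivAt (fun t => n t - c * m t - (c - 1) * t) 0 t := fun t ht =>
    (((dn t (lz t ht)).sub ((dm t (lz t ht)).const_mul c)).sub
      ((hasDerivAt_id t).const_mul (c - 1))).congr_deriv (by linarith [ex t ht])
  have m1 := mono_of (F' := fun _ => 0) dd fun _ _ => le_rfl
  have m2 := mono_of (F' := fun _ => -0) (fun t ht => (dd t ht).neg) fun _ _ => by simp
  have base : ∀ t < t0, m t = n t := fun t ht =>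
    ratio_one hm h.toN0 (fun t ht => dm t (lz t ht)) (fun t ht => dn t (lz t ht)) (fun t ht => by
      have ht' := (h.flt t).trans ht
      have a1 := e t (lz t ht)
      have a2 := ex t ht
      have a3 := ex _ ht'
      have a4 : n (fx n 1 t) = -(2 * n t * bq n (fx n 1 t)) := by
        have p := h.pos t
        rw [h.bqf]; field_simp
      have a5 := m1 ht' ht (h.flt t).le
      have a6 := m2 ht' ht (h.flt t).le
      have a7 := h.qlt (lz t ht)
      simp only [Pi.neg_apply] at a5 a6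
      have a8 : c * m (fx n 1 t) = c * m t - 2 * n t * bq n (fx n 1 t) + (c - 2) * n t := by
        have := congrArg ((c - 1) * ·) (fD t)
        linarith
      have a9 : (2 * bq n (fx n 1 t) + 1 - β t) * (n t * bq n t - m t * β t) = 0 := by
        linear_combination a1 + (1 - β t) * bq n t * a8 +
          (1 - β t) * (m t - n t * bq n t) * a3 - (1 - β t) * m t * a2
      linarith [(mul_eq_zero.1 a9).resolve_left (by linarith)]) ht
  have db : ∀ T, (∀ t < T, t ∈ Lf n 1 → m t = n t) → ∀ t < T, t ∈ Lf n 1 → β t = bq n t :=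
    fun T hT t ht mt => (dn t mt).unique ((dm t mt).congr_of_eventuallyEq (by
      filter_upwards [Iio_mem_nhds ht, NT.nhd mt] with s s1 s2 using (hT s s1 s2).symm))
  have c1 : c = 1 := by
    have ht : fx n 1 (t0 - 1) < t0 := by linarith [h.flt (t0 - 1)]
    have a1 := ex _ ht
    rw [db t0 (fun t ht _ => base t ht) _ ht (h.memf _)] at a1
    exact mul_right_cancel₀ (h.qpos (t0 - 1)).ne' (by linarith)
  subst c1
  obtain ⟨δ, δ0, hδ⟩ := h.down
  have ind : ∀ k : ℕ, ∀ t < t0 + k * δ, t ∈ Lf n 1 → m t = n t := by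
    intro k
    induction k with
    | zero => exact fun t ht _ => base t (by simpa using ht)
    | succ k ih =>
      intro t ht mt
      obtain ⟨z, z1, z2⟩ := up t mt
      have lo : ∀ s < min z (t0 + (k + 1 : ℕ) * δ), s ∈ Lf n 1 := fun s hs =>
        NT.lower z1 (hs.le.trans (min_le_left _ _))
      refine ratio_one hm h.toN0 (fun s hs => dm s (lo s hs)) (fun s hs => dn s (lo s hs))
        (fun s hs => ?_) (lt_min z2 ht)
      have a0 : fx n 1 s < t0 + k * δ := by
        have := hs.trans_le (min_le_right _ _)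
        push_cast at this
        linarith [hδ s]
      have a1 := e s (lo s hs)
      have a4 : n (fx n 1 s) = -(2 * n s * bq n (fx n 1 s)) := by
        have p := h.pos s
        rw [h.bqf]; field_simp
      rw [db _ ih _ a0 (h.memf s), ih _ a0 (h.memf s), a4] at a1
      have a9 : bq n (fx n 1 s) * (n s * bq n s - m s * β s) = 0 := by
        linear_combination (1 / 2) * a1
      linarith [(mul_eq_zero.1 a9).resolve_left (h.bneg s).ne]
  intro t ht
  obtain ⟨k, hk⟩ := exists_nat_gt ((t - t0) / δ)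
  rw [div_lt_iff₀ δ0] at hk
  exact ⟨ct t ht, db _ (ind k) t (by linarith) ht⟩

end Pool.Agent.P.MP_874adf_gt.Gn.Nl
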