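import Pool.Agent.P.MP_874adf_gt.Gn.Iface0
import Pool.Agent.P.MP_874adf_gt.Gn.NlLeft
import Pool.Agent.P.MP_874adf_gt.Gn.NlGap
import Pool.Agent.P.MP_874adf_gt.Fs.L1

/-! Step NLH. -/

set_option autoImplicit false

namespace Pool.Agent.P.MP_874adf_gt.Gn

open Pool.Agent.P.MP_874adf_gt.Fs Set Filter Topology Metric MeasureTheory

namespace Nl

lemma nice_sub {G H : P → ℝ} (g : IsN G) (h : IsN H) (k : Nice H G) {σ : ℝ} (hσ : Sg σ) (ζ t : ℝ) :
    ln H (fx (ln G) σ ζ) - σ * ln G (fx (ln G) σ ζ) / (2 * ln G ζ) * (t - fx (ln G) σ ζ) ≤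
      ln H t := by
  have p := GAPaux.pos g ζ
  have s2 : σ * σ = 1 := by rcases hσ with rfl | rfl <;> norm_num
  have s1 : |σ| = 1 := by rcases hσ with rfl | rfl <;> norm_num
  set D := ln G ζ with hD
  set x := fx (ln G) σ ζ with hx
  have hx' : x = ζ - σ * D := rfl
  have ab : |σ / D| = D⁻¹ := by rw [abs_div, s1, abs_of_pos p, one_div]
  have hX : G ((σ / D) • (ζ, 1)) = 1 := by
    rw [g.smul, ab]; exact inv_mul_cancel₀ p.ne'
  have e : ∀ s : ℝ, ((1, 0) : P) - (σ / D) • (ζ, 1) + s • (1, 0) =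
      (-(σ / D)) • (x - σ * s * D, 1) := fun s => by
    ext
    · simp only [Prod.fst_add, Prod.fst_sub, Prod.smul_fst, smul_eq_mul, hx']
      field_simp
      linear_combination (-D - s * D) * s2
    · simp
  have e0 := e 0
  rw [zero_smul, add_zero, mul_zero, zero_mul, sub_zero] at e0
  have v : ∀ {N : P → ℝ}, IsN N → ∀ u, N ((-(σ / D)) • (u, 1)) = D⁻¹ * ln N u := fun n u => by
    rw [n.smul, abs_neg, ab]; rfl
  rcases lt_trichotomy (σ * (t - x)) 0 with c | c | c
  · have := (k _ hX (-(σ * (t - x)) / D) (div_pos (by linarith) p)).2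
    rw [e, e0, v h, v h, v g, show x - σ * (-(σ * (t - x)) / D) * D = t by
      field_simp; linear_combination (t - x) * s2] at this
    have k := mul_le_mul_of_nonneg_left this p.le
    have e1 : D * (-(σ * (t - x)) / D * (D⁻¹ * ln G x) / 2) = -(σ * ln G x / (2 * D) * (t - x)) := by
      field_simp
    have e2 : D * (D⁻¹ * ln H t - D⁻¹ * ln H x) = ln H t - ln H x := by field_simp
    linarith
  · have : t = x := by linear_combination σ * c - (t - x) * s2
    simp [this]
  · have := (k _ hX (σ * (t - x) / D) (div_pos c p)).1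
    rw [sub_eq_add_neg (_ - _) (_ • _), ← neg_smul, e, e0, v h, v h, v g,
      show x - σ * -(σ * (t - x) / D) * D = t by
        field_simp; linear_combination (t - x) * s2] at this
    have k := mul_le_mul_of_nonneg_left this p.le
    have e1 : D * (σ * (t - x) / D * (D⁻¹ * ln G x) / 2) = σ * ln G x / (2 * D) * (t - x) := by
      field_simp
    have e2 : D * (D⁻¹ * ln H x - D⁻¹ * ln H t) = ln H x - ln H t := by field_simp
    linarith

lemma noaff {n : ℝ → ℝ} {s : Set ℝ} (h : StrictConvexOn ℝ s n) {x y c e : ℝ} (hx : x ∈ s)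
    (hy : y ∈ s) (xy : x < y) (a : ∀ t ∈ Icc x y, n t = c * t + e) : False := by
  have k := h.2 hx hy xy.ne one_half_pos one_half_pos (by norm_num)
  simp only [smul_eq_mul] at k
  rw [a x ⟨le_rfl, xy.le⟩, a y ⟨xy.le, le_rfl⟩, a _ ⟨by linarith, by linarith⟩] at k
  linarith

end Nl

theorem p_NLH :
    S_NLH := by
  intro G H π g g1 h h1 p0 p1 sc RG nice RH
  obtain ⟨β, hβ⟩ := Nl.exists_sub (GAPaux.conv g)
  have s : Nl.NS (ln G) β := ⟨Nl.mkN0 g g1, hβ⟩
  have k := s.toNT sc
  have k' := s.refl.toNT (Nl.sc_refl sc)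
  have fr : ∀ z, fx (fun t => ln G (-t)) 1 z = -fx (ln G) (-1) (-z) := fun z => by
    simp only [fx]; ring
  have e := Nl.left k (Nl.mkN0 h h1) p0 p1 (fun ζ => Nl.relR g (RG 1 (Or.inl rfl) ζ))
    (fun ζ hζ => Nl.relR h (RH 1 (Or.inl rfl) ζ (Or.inl hζ))) fun ζ t => by
      have := Nl.nice_sub g h nice (Or.inl rfl) ζ t
      rw [k.bqf, neg_div]
      rw [one_mul] at this
      linarith
  have e' := Nl.left k' (Nl.mkN0 h h1).refl p0 p1
    (fun ζ => Nl.relL g (RG (-1) (Or.inr rfl) (-ζ)))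
    (fun ζ hζ => Nl.relL h (RH (-1) (Or.inr rfl) (-ζ) (Or.inr ((Nl.lf_refl _ 1 ζ).1 hζ))))
    fun ζ t => by
      have := Nl.nice_sub g h nice (Or.inr rfl) (-ζ) (-t)
      rw [k'.bqf, fr, neg_neg, neg_div]
      rw [neg_one_mul, neg_div] at this
      linarith
  obtain ⟨a, b, ab, ha, hb⟩ := Nl.nogap k k' e e'
  have st : StrictConvexOn ℝ univ (ln G) := by
    refine GAPaux.strict (GAPaux.conv g) convex_univ fun x _ y _ xy c e f => ?_
    rcases lt_or_ge x a with c1 | c1
    · obtain ⟨u, u1, u2⟩ := exists_between (lt_min xy c1)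
      exact Nl.noaff sc.1 (ha x c1) (ha u (u2.trans_le (min_le_right _ _))) u1
        fun t ht => f t ⟨ht.1, ht.2.trans (u2.trans_le (min_le_left _ _)).le⟩
    · obtain ⟨u, u1, u2⟩ := exists_between xy
      exact Nl.noaff sc.2 (hb u (by linarith)) (hb y (by linarith)) u2
        fun t ht => f t ⟨u1.le.trans ht.1, ht.2⟩
  have L : L1H (ln G) := by
    refine ⟨s.pos, s.cont, fun x y xy => ?_, fun x y xy => ?_, ⟨_, s.big⟩, fun x y xy => ?_,
      fun m t => ?_, fun m t => ?_⟩
    · simpa [Nl.fxe] using k.sf xy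
    · have := k'.sf (neg_lt_neg xy)
      simp only [Nl.fxe, neg_neg] at this ⊢
      linarith
    · have := st.2 (mem_univ x) (mem_univ y) xy one_half_pos one_half_pos (by norm_num)
      simp only [smul_eq_mul] at this
      rw [show (x + y) / 2 = 1 / 2 * x + 1 / 2 * y by ring]
      linarith
    · have a1 := (e' _ (k'.memf (-m))).2
      rw [k'.bqf, Nl.fxe, neg_neg, show -(-m - ln G m) = m + ln G m by ring, neg_div,
        neg_inj] at a1
      rw [← a1]
      exact hβ _ _
    · have a1 := (e _ (k.memf m)).2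
      have a2 := hβ (fx (ln G) 1 m) t
      rw [a1, k.bqf, Nl.fxe, neg_div] at a2
      linarith
  obtain ⟨c, e, q⟩ := L.quad
  refine quad_of_line g (u := (1, 0)) (w := (0, 1)) g1 (by simp [wed]) (c := c) (e := e) fun m => ?_
  rw [← q m]
  simp [ln]

end Pool.Agent.P.MP_874adf_gt.Gn
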