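import Pool.Agent.P.MP_874adf_gt.Gn.IfaceF
import Pool.Agent.P.MP_874adf_gt.Gn.BasS

/-! Step ORG. -/

set_option autoImplicit false

namespace Pool.Agent.P.MP_874adf_gt.Gn

open Pool.Agent.P.MP_874adf_gt.Fs Set Filter Topology Metric MeasureTheory

lemma org_hf (d : P → P → ℝ) {D : Dat} (h : dr D ≠ 1) (y z : P) : hf d D z - hf d D y =
    (d (dA D) z - d (dA D) y - (d (dO D) z - d (dO D) y)) +
      dr D / (1 - dr D) * (d (dA D) z - d (dA D) y - (d (dB D) z - d (dB D) y)) := by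
  have : 1 - dr D ≠ 0 := sub_ne_zero.2 h.symm
  simp only [hf, Vf]
  field_simp
  ring

/-- the point at height `τ` above `y` on the ray from `X` through `y` -/
lemma org_ray {M : Set P} {d : P → P → ℝ} (pm : PM M d) {X y : P} {τ : ℝ} (τ0 : 0 ≤ τ)
    (h : 0 < y.2 - X.2) (hX : X ∈ M) (hz : y + τ • ((sl y X, 1) : P) ∈ M) :
    d X y + d y (y + τ • ((sl y X, 1) : P)) = d X (y + τ • ((sl y X, 1) : P)) := by
  have e : X = y + (-(y.2 - X.2)) • ((sl y X, 1) : P) := by
    ext
    · simp only [sl, Prod.fst_add, Prod.smul_fst, smul_eq_mul]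
      field_simp
      ring
    · simp
  have a := pm.line_add (x := y) (v := ((sl y X, 1) : P)) (r := -(y.2 - X.2)) (s := 0) (t := τ)
    (e ▸ hX) hz (by linarith) τ0
  rw [← e, zero_smul, add_zero] at a
  exact a

lemma org_near {ξ t τ b η : ℝ} {y z : P} (h : pr ξ y = pr ξ z) (e : τ = z.2 - y.2) (τ0 : 0 ≤ τ)
    (τb : τ ≤ b) (ht : |t - ξ| ≤ η) : ‖y + τ • ((t, 1) : P) - z‖ ≤ b * η := by
  have η0 : 0 ≤ η := (abs_nonneg _).trans ht
  have e2 : y + τ • ((t, 1) : P) - z = (τ * (t - ξ), 0) := by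
    simp only [pr] at h
    ext
    · simp only [Prod.fst_sub, Prod.fst_add, Prod.smul_fst, smul_eq_mul]
      rw [e]
      linarith
    · simp only [Prod.snd_sub, Prod.snd_add, Prod.smul_snd, smul_eq_mul]
      linarith
  rw [e2, Prod.norm_def]
  simp only [norm_zero, Real.norm_eq_abs, abs_mul, abs_of_nonneg τ0]
  refine max_le (mul_le_mul τb ht (abs_nonneg _) (τ0.trans τb)) ?_
  exact mul_nonneg (τ0.trans τb) η0

lemma org_low {c : Ctx} {ι : Type} (S : Sys c ι) {D : ι → Dat} {lam : ℝ} (mon : S.Mon D)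
    (l0 : 0 ≤ lam) (l1 : lam < 1) (law : S.Law D lam) : S.Low D (1 - lam) := by
  intro k ε hε
  have e0 : 0 < ε / 2 := by positivity
  have k0 := le_abs_self k
  have k1 := abs_nonneg k
  filter_upwards [law (2 * |k|) (ε / 2) e0, mon k (ε / 2) e0] with i a b u hu w hw lu lw h
  have N0 := S.N0 i
  have kk : k * S.N i ≤ 2 * |k| * S.N i := mul_le_mul_of_nonneg_right (by linarith) N0.le
  have kN : k * S.N i ≤ |k| * S.N i := mul_le_mul_of_nonneg_right k0 N0.le
  have hl : lam * S.db D i u w ≥ 0 := mul_nonneg l0 h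
  by_cases c1 : S.db D i u w ≤ ε / 2 * S.N i
  · have := b u hu w hw (by simpa [Sys.db] using h)
    simp only [Sys.dh]
    linarith
  · push Not at c1
    obtain ⟨t, ht⟩ : ∃ t, t * S.N i = S.db D i u w - ε / 2 * S.N i :=
      ⟨(S.db D i u w - ε / 2 * S.N i) / S.N i, div_mul_cancel₀ _ N0.ne'⟩
    have t0 : 0 ≤ t := by
      by_contra n
      push Not at n
      have := mul_neg_of_neg_of_pos n N0
      linarith
    have eN : 0 < ε / 2 * S.N i := by positivity
    have up : S.db D i u w ≤ 2 * |k| * S.N i := by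
      have x1 := abs_le.1 lu
      have x2 := abs_le.1 lw
      simp only [Sys.db]
      linarith [x1.1, x2.2]
    have t1 : t ≤ 2 * |k| := le_of_mul_le_mul_right (by linarith) N0
    have tN : 0 ≤ t * S.N i := mul_nonneg t0 N0.le
    have x1 : lam * (t * S.N i) ≤ t * S.N i := mul_le_of_le_one_left tN l1.le
    have x2 : 0 ≤ lam * (ε / 2 * S.N i) := mul_nonneg l0 eN.le
    have := (a u (S.bass_sub (by linarith) i hu) w (S.bass_sub (by linarith) i hw) (lu.trans kk)
      (lw.trans kk) t t0 t1).2 (by linarith)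
    have e : S.db D i u w = t * S.N i + ε / 2 * S.N i := by linarith
    rw [e]
    linarith

theorem p_ORG (hRAYB : S_RAYB) (hDBB : S_DBB) :
    S_ORG := by
  intro c R ι S D ζ ξ r lam fam l0 l1 law
  have db : S.DB := hRAYB c R ι S D ζ ξ ξ r (1 - lam) fam (by linarith) (org_low S fam.mon l0 l1 law)
  refine ⟨db, ?_⟩
  obtain ⟨big, small⟩ := hDBB c R ι S db
  have pm := c.gp.pm
  intro k0 ε hε
  obtain ⟨k, k1, kk⟩ : ∃ k : ℝ, 1 ≤ k ∧ k0 ≤ k := ⟨max 1 k0, le_max_left _ _, le_max_right _ _⟩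
  have e0 : 0 < ε / 5 := by positivity
  obtain ⟨C, C0, hC⟩ := big (3 * k)
  obtain ⟨η, η0, hη⟩ := small (3 * k) (ε / 5) e0
  obtain ⟨γ, γ0, γ1, γ2⟩ : ∃ γ : ℝ, 0 < γ ∧ γ ≤ 1 ∧ 2 * k * γ ≤ η := by
    refine ⟨min 1 (η / (2 * k)), by positivity, min_le_left _ _, ?_⟩
    have : 2 * k * min 1 (η / (2 * k)) ≤ 2 * k * (η / (2 * k)) :=
      mul_le_mul_of_nonneg_left (min_le_right _ _) (by positivity)
    rwa [mul_div_cancel₀ _ (by positivity)] at this
  filter_upwards [hC, hη, law (3 * k + C) (ε / 5) e0, fam.fO k γ γ0, fam.fA k γ γ0, fam.fB k γ γ0,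
    S.ev_ball (3 * k) c.rho0] with i aC aη aL aO aA aB ab
  have N0 := S.N0 i
  have s0 := S.s0 i
  have mO : dO (D i) ∈ c.M := c.sub aO.1
  have mA : dA (D i) ∈ c.M := c.sub aA.1
  have mB : dB (D i) ∈ c.M := c.sub aB.1
  have mem : ∀ u ∈ S.B (3 * k) i, u ∈ c.M := fun u hu => c.sub (ab.1 hu)
  have mx : S.x i ∈ S.B (3 * k) i := mem_closedBall_self (by positivity)
  have lip : ∀ X ∈ c.M, ∀ u ∈ c.M, ∀ w ∈ c.M, c.d X w - c.d X u ≤ c.d u w ∧
      c.d X u - c.d X w ≤ c.d u w := fun X hX u hu w hw => by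
    have a1 := pm.triangle X hX u hu w hw
    have a2 := pm.triangle X hX w hw u hu
    rw [pm.symm w hw u hu] at a2
    constructor <;> linarith
  have kN : 0 ≤ 3 * k * S.N i := by positivity
  have lv : ∀ u ∈ S.B (3 * k) i, S.Lv D (3 * k + C) i u := fun u hu => by
    have a1 := lip _ mO _ (mem _ mx) _ (mem _ hu)
    have a2 := aC _ mx _ hu
    unfold Sys.Lv
    rw [abs_le]
    constructor <;> linarith [a1.1, a1.2]
  have sub3 : S.B k i ⊆ S.B (3 * k) i := S.bass_sub (by linarith) i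
  have sub4 : S.B (3 * k) i ⊆ S.B (3 * k + C) i := S.bass_sub (by linarith) i
  have r0 := (fam.r01 i).1
  have r1 := (fam.r01 i).2
  have q0 : 0 ≤ dr (D i) / (1 - dr (D i)) := div_nonneg r0.le (by linarith)
  have eN : 0 < ε / 5 * S.N i := by positivity
  have key : ∀ y ∈ S.B k i, ∀ z ∈ S.B k i, pr ξ y = pr ξ z → y.2 ≤ z.2 →
      |(c.d (dO (D i)) z - c.d (dO (D i)) y) - lam * (c.d (dA (D i)) z - c.d (dA (D i)) y)| ≤
        ε * S.N i := by
    intro y hy z hz hp hle
    have τ0 : 0 ≤ z.2 - y.2 := by linarith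
    have τb : z.2 - y.2 ≤ 2 * k * S.s i := by
      have a1 : dist y (S.x i) ≤ k * S.s i := hy
      have a2 : dist z (S.x i) ≤ k * S.s i := hz
      have a3 := dist_triangle_right z y (S.x i)
      have a4 : |(z - y).2| ≤ ‖z - y‖ := norm_snd_le (z - y)
      rw [← dist_eq_norm] at a4
      have a5 := le_abs_self (z - y).2
      simp only [Prod.snd_sub] at a4 a5
      linarith
    have my := mem _ (sub3 hy)
    have mz := mem _ (sub3 hz)
    have ray : ∀ X ∈ c.M, k * S.s i ≤ 1 * (y.2 - X.2) → |sl y X - ξ| ≤ γ →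
        ∃ w ∈ S.B (3 * k) i, c.d X y + c.d y w = c.d X w ∧ c.d z w ≤ ε / 5 * S.N i ∧
          ∃ t, 0 ≤ t ∧ t ≤ 3 * k + C ∧ t * S.N i = c.d y w := by
      intro X hX h1 h2
      have n := org_near hp rfl τ0 τb h2
      have ks : 0 < k * S.s i := by positivity
      have hw : y + (z.2 - y.2) • ((sl y X, 1) : P) ∈ S.B (3 * k) i := by
        have a2 : dist z (S.x i) ≤ k * S.s i := hz
        have a3 := dist_triangle (y + (z.2 - y.2) • ((sl y X, 1) : P)) z (S.x i)
        rw [← dist_eq_norm] at n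
        have a4 : 2 * k * S.s i * γ ≤ 2 * k * S.s i := mul_le_of_le_one_right (by positivity) γ1
        show dist _ _ ≤ _
        linarith
      refine ⟨_, hw, org_ray pm τ0 (by linarith) hX (mem _ hw), aη z (sub3 hz) _ hw ?_, ?_⟩
      · have := mul_le_mul_of_nonneg_right γ2 s0.le
        linarith
      · have a1 := aC y (sub3 hy) _ hw
        have a2 := pm.nonneg my (mem _ hw)
        refine ⟨_ / S.N i, div_nonneg a2 N0.le, ?_, div_mul_cancel₀ _ N0.ne'⟩
        rw [div_le_iff₀ N0]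
        linarith
    obtain ⟨u, hu, u1, u2, t, t0, t1, ht⟩ := ray _ mA (aA.2 y hy).1 (aA.2 y hy).2
    obtain ⟨w, hw, w1, w2, t', t0', t1', ht'⟩ := ray _ mB (aB.2 y hy).1 (aB.2 y hy).2
    have mu := mem _ hu
    have mw := mem _ hw
    have up : lam * c.d y u ≤ c.d (dO (D i)) u - c.d (dO (D i)) y + ε / 5 * S.N i := by
      by_contra n
      push Not at n
      have a := (aL y (sub4 (sub3 hy)) u (sub4 hu) (lv _ (sub3 hy)) (lv _ hu) t t0 t1).1 (by
        simp only [Sys.db]
        rw [← ht] at n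
        linarith)
      simp only [Sys.dh] at a
      rw [org_hf c.d r1.ne] at a
      have b := (lip _ mB _ my _ mu).1
      have b2 : 0 ≤ dr (D i) / (1 - dr (D i)) * (c.d (dA (D i)) u - c.d (dA (D i)) y -
          (c.d (dB (D i)) u - c.d (dB (D i)) y)) := mul_nonneg q0 (by linarith)
      rw [← ht] at n u1
      linarith
    have lo : c.d (dO (D i)) w - c.d (dO (D i)) y ≤ lam * c.d y w + ε / 5 * S.N i := by
      by_contra n
      push Not at n
      have a := (aL y (sub4 (sub3 hy)) w (sub4 hw) (lv _ (sub3 hy)) (lv _ hw) t' t0' t1').2 (by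
        simp only [Sys.db]
        rw [← ht'] at n
        linarith)
      simp only [Sys.dh] at a
      rw [org_hf c.d r1.ne] at a
      have b := (lip _ mA _ my _ mw).1
      have b2 : dr (D i) / (1 - dr (D i)) * (c.d (dA (D i)) w - c.d (dA (D i)) y -
          (c.d (dB (D i)) w - c.d (dB (D i)) y)) ≤ 0 := mul_nonpos_of_nonneg_of_nonpos q0 (by linarith)
      rw [← ht'] at n b
      linarith
    have o1 := lip _ mO _ mz _ mu
    have o2 := lip _ mO _ mz _ mw
    have a1 := lip _ mA _ mz _ mu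
    have y1 := lip _ my _ mz _ mu
    have y2 := lip _ my _ mz _ mw
    have m1 : lam * (c.d (dA (D i)) z - c.d (dA (D i)) y - c.d y u) ≤ lam * (ε / 5 * S.N i) :=
      mul_le_mul_of_nonneg_left (by linarith [a1.2]) l0
    have m2 : lam * (c.d y w - (c.d (dA (D i)) z - c.d (dA (D i)) y)) ≤ lam * (3 * (ε / 5 * S.N i)) :=
      mul_le_mul_of_nonneg_left (by linarith [a1.1, y1.2, y2.1]) l0
    have m3 : lam * (ε / 5 * S.N i) ≤ ε / 5 * S.N i := mul_le_of_le_one_left eN.le l1.le
    rw [abs_le]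
    constructor <;> linarith [o1.1, o2.2]
  intro y hy z hz hp
  have sub0 : S.B k0 i ⊆ S.B k i := S.bass_sub kk i
  simp only [Fin.sum_univ_three, Matrix.cons_val_zero, Matrix.cons_val_one, Matrix.cons_val_two,
    Matrix.head_cons, Matrix.tail_cons]
  rcases le_total y.2 z.2 with h | h
  · have := abs_le.1 (key y (sub0 hy) z (sub0 hz) hp h)
    rw [abs_le]
    constructor <;> linarith [this.1, this.2]
  · have := abs_le.1 (key z (sub0 hz) y (sub0 hy) hp.symm h)
    rw [abs_le]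
    constructor <;> linarith [this.1, this.2]

end Pool.Agent.P.MP_874adf_gt.Gn
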