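import Pool.Agent.P.MP_874adf_gt.Gn.IfaceF

/-! Step OVF. -/

set_option autoImplicit false

namespace Pool.Agent.P.MP_874adf_gt.Gn

open Pool.Agent.P.MP_874adf_gt.Fs Set Filter Topology Metric MeasureTheory

section
variable {c : Ctx} {ι : Type} {S : Sys c ι} {S' : Sys c (ℕ × ι)}

lemma ovf_ev (h : S.Over S') (p : ℕ × ι → Prop)
    (hp : ∀ᶠ j in (W0 : Filter ℕ), ∀ᶠ i in (S.U : Filter ι), p (j, i)) :
    ∀ᶠ q in (S'.U : Filter (ℕ × ι)), p q := by
  rw [h.eU]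
  exact (S.ev_UU p).2 hp

lemma ovf_rng (h : S.Over S') (k : ℝ) (j : ℕ) : ∃ K : ℝ, ∀ᶠ i in (S.U : Filter ι),
    S'.B k (j, i) ⊆ S.B K i ∧ k * S'.s (j, i) ≤ K * S.s i := by
  obtain ⟨L, hL⟩ := h.rng j
  refine ⟨L * (1 + |k|), ?_⟩
  filter_upwards [hL] with i ⟨a, b⟩
  have s0 := S'.s0 (j, i)
  have e1 : k * S'.s (j, i) ≤ |k| * (L * S.s i) :=
    (mul_le_mul_of_nonneg_right (le_abs_self k) s0.le).trans
      (mul_le_mul_of_nonneg_left b (abs_nonneg k))
  have e2 : L * (1 + |k|) * S.s i = L * S.s i + |k| * (L * S.s i) := by ring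
  refine ⟨fun y hy => ?_, by linarith⟩
  have hy' : dist y (S'.x (j, i)) ≤ k * S'.s (j, i) := hy
  have a' : dist (S'.x (j, i)) (S.x i) ≤ L * S.s i := a
  have := dist_triangle y (S'.x (j, i)) (S.x i)
  show dist y (S.x i) ≤ L * (1 + |k|) * S.s i
  linarith

lemma ovf_far (h : S.Over S') {σ : ℝ} {X : ℕ → ι → P} {t : ℕ → ℝ} {u : ℝ}
    (hX : ∀ j, S.Far σ (X j) (t j)) (ht : Tendsto t W0 (𝓝 u)) :
    S'.Far σ (fun q => X q.1 q.2) u := by
  intro k η hη
  refine ovf_ev h _ ?_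
  filter_upwards [Metric.tendsto_nhds.1 ht (η / 2) (by positivity)] with j hj
  obtain ⟨K, hK⟩ := ovf_rng h k j
  filter_upwards [hK, hX j K (η / 2) (by positivity)] with i ⟨a, b⟩ ⟨e, f⟩
  refine ⟨e, fun y hy => ⟨b.trans (f y (a hy)).1, ?_⟩⟩
  have g := (f y (a hy)).2
  rw [Real.dist_eq] at hj
  have := abs_sub_le (sl y (X j i)) (t j) u
  show |sl y (X j i) - u| ≤ η
  linarith
end

theorem p_OVF :
    S_OVF := by
  intro c ι S S' h D tO tA tB r uO uA uB u hD hO hA hB hr hlt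
  refine ⟨ovf_far (X := fun j i => dO (D j i)) h (fun j => (hD j).fO) hO,
    ovf_far (X := fun j i => dA (D j i)) h (fun j => (hD j).fA) hA,
    ovf_far (X := fun j i => dB (D j i)) h (fun j => (hD j).fB) hB, by linarith, fun k => ?_,
    fun q => (hD q.1).r01 q.2, ?_, fun k ε hε => ?_⟩
  · refine ovf_ev h _ (Eventually.of_forall fun j => ?_)
    obtain ⟨K, hK⟩ := ovf_rng h k j
    filter_upwards [hK, (hD j).ord K] with i a b y hy
    exact b y (a.1 hy)
  · refine Metric.tendsto_nhds.2 fun ε hε => ovf_ev h _ ?_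
    filter_upwards [Metric.tendsto_nhds.1 hr (ε / 2) (by positivity)] with j hj
    filter_upwards [Metric.tendsto_nhds.1 (hD j).tr (ε / 2) (by positivity)] with i hi
    have := dist_triangle (dr (D j i)) (r j) u
    linarith
  · refine ovf_ev h _ (Eventually.of_forall fun j => ?_)
    obtain ⟨K, hK⟩ := ovf_rng h k j
    filter_upwards [hK, (hD j).mon K ε hε] with i a b y hy z hz hyz
    rw [h.eN]
    exact b y (a.1 hy) z (a.1 hz) hyz

end Pool.Agent.P.MP_874adf_gt.Gn
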