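import Pool.Agent.P.MP_874adf_gt.Gn.IfaceF

/-! Step POSK. -/

set_option autoImplicit false

namespace Pool.Agent.P.MP_874adf_gt.Gn

open Pool.Agent.P.MP_874adf_gt.Fs Set Filter Topology Metric MeasureTheory

lemma posk_tri {M : Set P} {d : P → P → ℝ} (h : PM M d) {X y z : P} (hX : X ∈ M) (hy : y ∈ M)
    (hz : z ∈ M) : |d X z - d X y| ≤ d y z := by
  have a := h.triangle X hX y hy z hz
  have b := h.triangle X hX z hz y hy
  rw [h.symm z hz y hy] at b
  rw [abs_le]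
  constructor <;> linarith

lemma posk_ball {c : Ctx} {ι : Type} (S : Sys c ι) (k : ℝ) {ρ : ℝ} (hρ : 0 < ρ) :
    ∀ᶠ i in (S.U : Filter ι), S.B k i ⊆ ball (0 : P) ρ ∧
    k * S.s i < ρ := by
  have h1 : ∀ᶠ i in (S.U : Filter ι), S.x i ∈ ball (0 : P) (ρ / 2) :=
    S.tx (ball_mem_nhds _ (by positivity))
  have h2 : Tendsto (fun i => k * S.s i) S.U (𝓝 (k * 0)) := S.ts.const_mul k
  have h3 : ∀ᶠ i in (S.U : Filter ι), k * S.s i < ρ / 2 :=
    h2.eventually (gt_mem_nhds (by rw [mul_zero]; positivity))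
  filter_upwards [h1, h3] with i a b
  refine ⟨fun y hy => ?_, by linarith⟩
  have hy' : dist y (S.x i) ≤ k * S.s i := hy
  have a' : dist (S.x i) 0 < ρ / 2 := a
  have := dist_triangle y (S.x i) 0
  show dist y 0 < ρ
  linarith

theorem p_POSK (hRAYB : S_RAYB) (hDBB : S_DBB) :
    S_POSK := by
  intro c R ι S D tO tA tB r κ F r1 κ0 hK
  have hDB : S.DB := hRAYB c R ι S D tO tA tB r κ F κ0 fun k ε ε0 =>
    (hK k ε ε0).mono fun i h u hu w hw a b _ => by linarith [(abs_le.1 (h u hu w hw a b)).1]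
  refine ⟨hDB, fun ξ k ε ε0 => ?_⟩
  obtain ⟨C, C0, hC⟩ := (hDBB c R ι S hDB).1 k
  have ht : Tendsto (fun i => 1 / (1 - dr (D i))) S.U (𝓝 (1 / (1 - r))) :=
    tendsto_const_nhds.div (tendsto_const_nhds.sub F.tr) (sub_pos.2 r1).ne'
  filter_upwards [hC, hK (max k C) _ (half_pos ε0), F.fO 0 1 one_pos, F.fA 0 1 one_pos,
    F.fB 0 1 one_pos, posk_ball S k c.rho0,
    Metric.tendsto_nhds.1 ht (ε / (4 * C)) (by positivity)] with i h1 h2 hO hA hB hb hu y hy z hz _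
  have hx : S.x i ∈ S.B k i := mem_closedBall_self (dist_nonneg.trans hy)
  have m : ∀ w ∈ S.B k i, w ∈ c.M := fun w hw => c.sub (hb.1 hw)
  have tri : ∀ X ∈ ball (0 : P) c.ρ0, ∀ u ∈ S.B k i, ∀ w ∈ S.B k i,
      |c.d X w - c.d X u| ≤ C * S.N i := fun X hX u hu w hw =>
    (posk_tri c.gp.pm (c.sub hX) (m u hu) (m w hw)).trans (h1 u hu w hw)
  have lv : ∀ w ∈ S.B k i, S.Lv D (max k C) i w := fun w hw =>
    (tri _ hO.1 _ hx w hw).trans (mul_le_mul_of_nonneg_right (le_max_right _ _) (S.N0 i).le)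
  have sb : S.B k i ⊆ S.B (max k C) i :=
    closedBall_subset_closedBall (mul_le_mul_of_nonneg_right (le_max_left k C) (S.s0 i).le)
  have h3 := h2 y (sb hy) z (sb hz) (lv y hy) (lv z hz)
  have hA' := tri _ hA.1 y hy z hz
  have hB' := tri _ hB.1 y hy z hz
  have n1 : 1 - dr (D i) ≠ 0 := (sub_pos.2 (F.r01 i).2).ne'
  have n2 : 1 - r ≠ 0 := (sub_pos.2 r1).ne'
  have e : ∑ j, ![-(1 + κ), 1 / (1 - r), -(r / (1 - r))] j *
      (c.d (![fun i => dO (D i), fun i => dA (D i), fun i => dB (D i)] j i) z -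
        c.d (![fun i => dO (D i), fun i => dA (D i), fun i => dB (D i)] j i) y) =
      (S.dh D i y z - κ * S.db D i y z) - (1 / (1 - dr (D i)) - 1 / (1 - r)) *
        ((c.d (dA (D i)) z - c.d (dA (D i)) y) - (c.d (dB (D i)) z - c.d (dB (D i)) y)) := by
    simp only [Fin.sum_univ_three, Matrix.cons_val_zero, Matrix.cons_val_one, Matrix.cons_val_two,
      Matrix.head_cons, Matrix.tail_cons, Sys.dh, Sys.db, hf, Vf]
    field_simp
    ring
  rw [e]
  refine (abs_sub _ _).trans ?_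
  rw [abs_mul]
  rw [Real.dist_eq] at hu
  have h4 := mul_le_mul hu.le ((abs_sub _ _).trans (add_le_add hA' hB')) (abs_nonneg _)
    (by positivity)
  have h5 : ε / (4 * C) * (C * S.N i + C * S.N i) = ε / 2 * S.N i := by
    field_simp
    ring
  linarith

end Pool.Agent.P.MP_874adf_gt.Gn
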