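import Pool.Agent.P.MP_874adf_gt.Gn.IfaceF
import Pool.Agent.P.MP_874adf_gt.Gn.BasS

/-! Step RAYB. -/

set_option autoImplicit false

namespace Pool.Agent.P.MP_874adf_gt.Gn

open Pool.Agent.P.MP_874adf_gt.Fs Set Filter Topology Metric MeasureTheory

/-- the data are far below the convex set `Q` and seen under bounded slopes -/
structure RaybG (c : Ctx) (D : Dat) (Q : Set P) (T : ℝ) : Prop where
  mO : dO D ∈ ball (0 : P) c.ρ0
  mA : dA D ∈ ball (0 : P) c.ρ0
  mB : dB D ∈ ball (0 : P) c.ρ0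
  sub : Q ⊆ ball (0 : P) c.ρ0
  cvx : Convex ℝ Q
  hO : ∀ v ∈ Q, (dO D).2 < v.2
  hB : ∀ v ∈ Q, (dB D).2 < v.2
  sO : ∀ v ∈ Q, |sl v (dO D)| ≤ T
  sB : ∀ v ∈ Q, |sl v (dB D)| ≤ T
  r0 : 0 < dr D
  r1 : dr D < 1

lemma rayb_ev {c : Ctx} {ι : Type} (S : Sys c ι) {D : ι → Dat} {tO tA tB r : ℝ}
    (F : S.Fam 1 D tO tA tB r) (k : ℝ) :
    ∀ᶠ i in (S.U : Filter ι), RaybG c (D i) (S.B k i) (|tO| + |tB| + 1) := by
  filter_upwards [F.fO (|k| + 1) 1 one_pos, F.fA (|k| + 1) 1 one_pos, F.fB (|k| + 1) 1 one_pos,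
    S.ev_ball k c.rho0] with i h1 h2 h3 h4
  have hs : S.B k i ⊆ S.B (|k| + 1) i := S.bass_sub (by linarith [le_abs_self k]) i
  have h0 : 0 < (|k| + 1) * S.s i := mul_pos (by positivity) (S.s0 i)
  refine ⟨h1.1, h2.1, h3.1, h4.1, convex_closedBall _ _, fun v hv => ?_, fun v hv => ?_,
    fun v hv => ?_, fun v hv => ?_, (F.r01 i).1, (F.r01 i).2⟩
  · have := (h1.2 v (hs hv)).1; linarith
  · have := (h3.2 v (hs hv)).1; linarith
  · have h := (h1.2 v (hs hv)).2
    have := abs_sub_abs_le_abs_sub (sl v (dO (D i))) tO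
    linarith [abs_nonneg tB]
  · have h := (h3.2 v (hs hv)).2
    have := abs_sub_abs_le_abs_sub (sl v (dB (D i))) tB
    linarith [abs_nonneg tO]

lemma rayb_norm {p : P} {t a T r : ℝ} (ht : |t| ≤ T) (hT : 1 ≤ T) (ha : |a| ≤ r) :
    p + a • ((t, 1) : P) ∈ closedBall p (T * r) := by
  rw [mem_closedBall, dist_eq_norm, add_sub_cancel_left, norm_smul, Real.norm_eq_abs, mul_comm]
  have h : ‖((t, 1) : P)‖ ≤ T := by
    rw [Prod.norm_def]
    exact max_le (by simpa using ht) (by simpa using hT)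
  exact mul_le_mul h ha (abs_nonneg _) (by linarith)

/-- two points on a line through `B` -/
lemma rayb_ray {c : Ctx} {D : Dat} {Q : Set P} {T1 T : ℝ} (G : RaybG c D Q T1) (hT : T1 ≤ T)
    (h1 : 1 ≤ T) {p : P} (hp : p ∈ Q) {a b r : ℝ} (hab : a ≤ b) (ha : |a| ≤ r) (hb : |b| ≤ r)
    {u w : P} (eu : u = p + a • ((sl p (dB D), 1) : P)) (ew : w = p + b • ((sl p (dB D), 1) : P))
    (hu : u ∈ Q) (hw : w ∈ Q) :
    c.d u w ≤ c.d (dO D) w - c.d (dO D) u + 2 * mT c.μ T p ((1 + T) * (T * r)) ∧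
      hf c.d D w - hf c.d D u ≤ 2 * mT c.μ T p ((1 + T) * (T * r)) := by
  have := c.crof.fin
  have ht : |sl p (dB D)| ≤ T := (G.sB p hp).trans hT
  have bu : u ∈ closedBall p (T * r) := eu ▸ rayb_norm ht h1 ha
  have bw : w ∈ closedBall p (T * r) := ew ▸ rayb_norm ht h1 hb
  have hr : 0 ≤ T * r := mul_nonneg (by linarith) ((abs_nonneg _).trans ha)
  have u2 : u.2 = p.2 + a := by rw [eu]; simp
  have w2 : w.2 = p.2 + b := by rw [ew]; simp
  have hBu := G.hB u hu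
  have hBp := G.hB p hp
  have hOu := G.hO u hu
  have e : w = u + ((b - a) / (u.2 - (dB D).2)) • (u - dB D) := by
    have n1 : p.2 + a - (dB D).2 ≠ 0 := by rw [← u2]; linarith
    have n2 : p.2 - (dB D).2 ≠ 0 := by linarith
    rw [u2, eu, ew]
    ext
    · simp only [Prod.fst_add, Prod.smul_fst, Prod.fst_sub, smul_eq_mul, sl]
      field_simp
      ring
    · simp only [Prod.snd_add, Prod.smul_snd, Prod.snd_sub, smul_eq_mul]
      field_simp
      ring
  have side : ∀ l ∈ sp u w, l ∉ sp (dB D) u := fun l hl =>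
    sp_side (α := (b - a) / (u.2 - (dB D).2)) (div_nonneg (by linarith) (by linarith)) (e ▸ hl)
  have dB0 := c.crof.defect G.mB (G.sub hu) (G.sub hw)
    (mem_uIcc.2 (Or.inl ⟨hBu.le, by linarith⟩))
  have hB0 : sp u w ∩ sp (dB D) u = ∅ := eq_empty_of_forall_notMem fun l hl => side l hl.1 hl.2
  rw [hB0, measureReal_empty] at dB0
  have dO0 := c.crof.defect G.mO (G.sub hu) (G.sub hw)
    (mem_uIcc.2 (Or.inl ⟨hOu.le, by linarith⟩))
  have hm : c.μ.real (sp u w ∩ sp (dO D) u) ≤ mT c.μ T p ((1 + T) * (T * r)) := by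
    refine measureReal_mono fun l hl => ?_
    obtain ⟨v, hv, ev⟩ := sp_cross hl.1
    have hvQ : v ∈ Q := G.cvx.segment_subset hu hw hv
    have hOB : l ∈ sp (dO D) (dB D) := by
      rcases sp_trans (dO D) (dB D) u hl.2 with h | h
      · exact h
      · exact absurd h (side l hl.1)
    have hs := sp_slope (σ := 1) (Or.inl rfl) (by linarith [G.hO v hvQ]) (by linarith [G.hB v hvQ])
      ev hOB
    have a1 := abs_le.1 ((G.sO v hvQ).trans hT)
    have a2 := abs_le.1 ((G.sB v hvQ).trans hT)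
    have a3 : |l.2| ≤ T := by
      rw [abs_le]
      rcases mem_uIcc.1 hs with h | h <;> constructor <;> linarith [h.1, h.2, a1.1, a1.2, a2.1, a2.2]
    refine ⟨abs_le.1 a3, (sp_near bu bw hl.1).trans ?_⟩
    exact mul_le_mul_of_nonneg_right (by linarith) hr
  have tA := c.gp.pm.triangle _ (c.sub G.mA) _ (c.sub (G.sub hu)) _ (c.sub (G.sub hw))
  refine ⟨by linarith, ?_⟩
  rw [hf_diff c.d G.r1.ne]
  have q : 0 ≤ dr D / (1 - dr D) := div_nonneg G.r0.le (by linarith [G.r1])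
  have := mul_nonpos_of_nonneg_of_nonpos q
    (show c.d (dA D) w - c.d (dA D) u - (c.d (dB D) w - c.d (dB D) u) ≤ 0 by linarith)
  linarith

/-- a long almost vertical segment is crossed by all lines of large slope -/
lemma rayb_geo {c : Ctx} {y z u w : P} {t T1 : ℝ} (ht : |t| ≤ T1)
    (eu : u = y + (-((T1 + 4) * ‖z - y‖)) • ((t, 1) : P))
    (ew : w = y + ((T1 + 4) * ‖z - y‖) • ((t, 1) : P)) (hy : y ∈ ball (0 : P) c.ρ0)
    (hz : z ∈ ball (0 : P) c.ρ0) (hu : u ∈ ball (0 : P) c.ρ0) (hw : w ∈ ball (0 : P) c.ρ0) :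
    c.d y z ≤ mT c.μ (T1 + 2) y ((1 + (T1 + 2)) * ‖z - y‖) + c.d u w := by
  have := c.crof.fin
  have T0 : 0 ≤ T1 := (abs_nonneg _).trans ht
  have n0 := norm_nonneg (z - y)
  have u2 : u.2 = y.2 - (T1 + 4) * ‖z - y‖ := by rw [eu]; simp; ring
  have w2 : w.2 = y.2 + (T1 + 4) * ‖z - y‖ := by rw [ew]; simp
  have z2 : |z.2 - y.2| ≤ ‖z - y‖ := by simpa using norm_snd_le (z - y)
  have z3 := abs_le.1 z2
  have k1 : ‖z - y‖ ≤ (T1 + 4) * ‖z - y‖ := by nlinarith
  have m := c.crof.mono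
  have p1 : |c.Ψ z.2 - c.Ψ y.2| ≤ |c.Ψ w.2 - c.Ψ u.2| := by
    have a1 : c.Ψ u.2 ≤ c.Ψ y.2 := m (by linarith)
    have a2 : c.Ψ u.2 ≤ c.Ψ z.2 := m (by linarith)
    have a3 : c.Ψ y.2 ≤ c.Ψ w.2 := m (by linarith)
    have a4 : c.Ψ z.2 ≤ c.Ψ w.2 := m (by linarith)
    refine le_trans (abs_le.2 ⟨by linarith, by linarith⟩) (le_abs_self _)
  have p2 : c.μ.real (sp y z) ≤ mT c.μ (T1 + 2) y ((1 + (T1 + 2)) * ‖z - y‖) + c.μ.real (sp u w) := by
    refine le_trans (measureReal_mono fun l hl => ?_) (measureReal_union_le _ _)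
    have hn := sp_near (x := y) (mem_closedBall_self n0)
      (show z ∈ closedBall y ‖z - y‖ by rw [mem_closedBall, dist_eq_norm]) hl
    by_cases hθ : |l.2| ≤ T1 + 2
    · exact Or.inl ⟨abs_le.1 hθ, hn.trans (mul_le_mul_of_nonneg_right (by linarith) n0)⟩
    · right
      have hpos : 0 < ‖z - y‖ := by
        refine n0.lt_of_ne fun h => ?_
        have : z = y := sub_eq_zero.1 (norm_eq_zero.1 h.symm)
        rw [this, sp_self] at hl
        exact hl
      have pu : pr l.2 u = pr l.2 y - (T1 + 4) * ‖z - y‖ * (t - l.2) := by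
        rw [eu]; simp [pr]; ring
      have pw : pr l.2 w = pr l.2 y + (T1 + 4) * ‖z - y‖ * (t - l.2) := by
        rw [ew]; simp [pr]; ring
      have t1 := abs_le.1 ht
      have hn' := abs_le.1 hn
      push Not at hθ
      change ¬ (l.1 < pr l.2 u ↔ l.1 < pr l.2 w)
      rw [pu, pw]
      rcases le_total 0 l.2 with h | h
      · rw [abs_of_nonneg h] at hθ hn'
        have b : 1 + l.2 < (T1 + 4) * (l.2 - t) := by nlinarith
        have b' := mul_lt_mul_of_pos_right b hpos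
        intro hh
        have := hh.1 (by nlinarith)
        nlinarith
      · rw [abs_of_nonpos h] at hθ hn'
        have b : 1 + -l.2 < (T1 + 4) * (t - l.2) := by nlinarith
        have b' := mul_lt_mul_of_pos_right b hpos
        intro hh
        have := hh.2 (by nlinarith)
        nlinarith
  rw [c.crof.eq y hy z hz, c.crof.eq u hu w hw]
  linarith

lemma rayb_both {c : Ctx} {D : Dat} {Q : Set P} {T1 : ℝ} (G : RaybG c D Q T1) {y z u w : P}
    (hy : y ∈ Q) (hz : z ∈ Q)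
    (eu : u = y + (-((T1 + 4) * ‖z - y‖)) • ((sl y (dB D), 1) : P))
    (ew : w = y + ((T1 + 4) * ‖z - y‖) • ((sl y (dB D), 1) : P)) (hu : u ∈ Q) (hw : w ∈ Q) :
    c.d y z ≤ c.d (dO D) w - c.d (dO D) u +
        3 * mT c.μ (T1 + 2) y ((1 + (T1 + 2)) * ((T1 + 2) * ((T1 + 4) * ‖z - y‖))) ∧
      hf c.d D w - hf c.d D u ≤
        2 * mT c.μ (T1 + 2) y ((1 + (T1 + 2)) * ((T1 + 2) * ((T1 + 4) * ‖z - y‖))) := by
  have := c.crof.fin
  have T0 : 0 ≤ T1 := (abs_nonneg _).trans (G.sB y hy)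
  have n0 := norm_nonneg (z - y)
  have k0 : 0 ≤ (T1 + 4) * ‖z - y‖ := by positivity
  obtain ⟨h1, h2⟩ := rayb_ray (T := T1 + 2) (r := (T1 + 4) * ‖z - y‖) G (by linarith) (by linarith) hy
    (by linarith) (by rw [abs_neg, abs_of_nonneg k0]) (by rw [abs_of_nonneg k0]) eu ew hu hw
  have h3 := rayb_geo (G.sB y hy) eu ew (G.sub hy) (G.sub hz) (G.sub hu) (G.sub hw)
  have h4 : mT c.μ (T1 + 2) y ((1 + (T1 + 2)) * ‖z - y‖) ≤
      mT c.μ (T1 + 2) y ((1 + (T1 + 2)) * ((T1 + 2) * ((T1 + 4) * ‖z - y‖))) := by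
    refine mw_mono _ le_rfl _ (mul_le_mul_of_nonneg_left ?_ (by linarith))
    have : 1 ≤ (T1 + 2) * (T1 + 4) := by nlinarith
    nlinarith
  exact ⟨by linarith, h2⟩

section
variable {c : Ctx} (R : Reg c) {ι : Type} (S : Sys c ι) {D : ι → Dat} {tO tA tB r κ : ℝ}
  (F : S.Fam 1 D tO tA tB r) (hκ : 0 < κ) (L : S.Low D κ)
include R F hκ L

/-- bounded levels on the line through `B` and the place -/
lemma rayb_line {k : ℝ} (hk : 0 ≤ k) : ∃ C > (0 : ℝ), ∀ᶠ i in (S.U : Filter ι), ∀ b, 0 ≤ b →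
    b ≤ k * S.s i → c.d (dO (D i)) (S.x i + b • ((sl (S.x i) (dB (D i)), 1) : P)) -
      c.d (dO (D i)) (S.x i + (-b) • ((sl (S.x i) (dB (D i)), 1) : P)) ≤ C * S.N i := by
  set T := |tO| + |tB| + 1 with hT
  have T1 : 1 ≤ T := by linarith [abs_nonneg tO, abs_nonneg tB]
  obtain ⟨C, C0, hC⟩ := S.up R T ((1 + T) * (T * k))
  set k2 := (2 * C + 2) / κ with hk2
  have k0 : 0 < k2 := by positivity
  have e2 : κ * k2 = 2 * C + 2 := by rw [hk2]; field_simp
  have Tk : 0 ≤ T * k := by positivity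
  refine ⟨2 * k2, by positivity, ?_⟩
  filter_upwards [hC, L (T * k + k2) 1 one_pos, rayb_ev S F (T * k + k2)] with i h1 h2 G b b0 b1
  have s0 := S.s0 i
  have N0 := S.N0 i
  set x := S.x i with hx
  set v : P := (sl x (dB (D i)), 1) with hv
  have xQ : x ∈ S.B (T * k + k2) i := mem_closedBall_self (by positivity)
  have mem : ∀ τ, |τ| ≤ k * S.s i → x + τ • v ∈ S.B (T * k + k2) i := fun τ hτ =>
    closedBall_subset_closedBall (by nlinarith) (rayb_norm (G.sB x xQ) T1 hτ)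
  have hm : mT c.μ T x ((1 + T) * (T * (k * S.s i))) ≤ C * S.N i := by
    have := h1 x (mem_closedBall_self (by positivity))
    rwa [show (1 + T) * (T * k) * S.s i = (1 + T) * (T * (k * S.s i)) by ring] at this
  have key : ∀ a a', a ≤ a' → |a| ≤ k * S.s i → |a'| ≤ k * S.s i →
      |c.d (dO (D i)) (x + a • v) - c.d (dO (D i)) x| ≤ k2 * S.N i →
      |c.d (dO (D i)) (x + a' • v) - c.d (dO (D i)) x| ≤ k2 * S.N i →
      c.d (dO (D i)) (x + a' • v) - c.d (dO (D i)) (x + a • v) ≠ k2 * S.N i := by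
    intro a a' h3 h4 h5 h6 h7 h8
    have q : k2 * S.N i ≤ (T * k + k2) * S.N i := by nlinarith
    have h9 := h2 _ (mem a h4) _ (mem a' h5) (h6.trans q) (h7.trans q)
      (by unfold Sys.db; rw [h8]; positivity)
    have h10 := (rayb_ray G le_rfl T1 xQ h3 h4 h5 rfl rfl (mem a h4) (mem a' h5)).2
    unfold Sys.db Sys.dh at h9
    rw [h8, ← mul_assoc, e2] at h9
    nlinarith
  have cont : ContinuousOn (fun τ : ℝ => c.d (dO (D i)) (x + τ • v)) (Icc (-b) b) :=
    c.gp.pm.contOn_line (c.sub G.mO) fun τ hτ =>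
      c.sub (G.sub (mem τ ((abs_le.2 hτ).trans b1)))
  have kN : 0 < k2 * S.N i := by positivity
  have z0 : |(0 : ℝ)| ≤ k * S.s i := by rw [abs_zero]; positivity
  have e0 : x + (0 : ℝ) • v = x := by simp
  have up : c.d (dO (D i)) (x + b • v) - c.d (dO (D i)) x ≤ k2 * S.N i := by
    by_contra hc
    push Not at hc
    obtain ⟨τ, hτ, e⟩ := intermediate_value_Icc b0 (cont.mono (Icc_subset_Icc_left (by linarith)))
      (show c.d (dO (D i)) x + k2 * S.N i ∈ Icc _ _ from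
        ⟨by simp only [e0]; linarith, by linarith⟩)
    simp only at e
    refine key 0 τ hτ.1 z0 (by rw [abs_of_nonneg hτ.1]; linarith [hτ.2]) ?_ ?_ ?_
    · rw [e0, sub_self, abs_zero]; exact kN.le
    · rw [e, add_sub_cancel_left, abs_of_pos kN]
    · rw [e, e0]; ring
  have dn : c.d (dO (D i)) x - c.d (dO (D i)) (x + (-b) • v) ≤ k2 * S.N i := by
    by_contra hc
    push Not at hc
    obtain ⟨τ, hτ, e⟩ := intermediate_value_Icc (show -b ≤ 0 by linarith)
      (cont.mono (Icc_subset_Icc_right b0))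
      (show c.d (dO (D i)) x - k2 * S.N i ∈ Icc _ _ from
        ⟨by linarith, by simp only [e0]; linarith⟩)
    simp only at e
    refine key τ 0 hτ.2 (by rw [abs_of_nonpos hτ.2]; linarith [hτ.1]) z0 ?_ ?_ ?_
    · rw [e, sub_sub_cancel_left, abs_neg, abs_of_pos kN]
    · rw [e0, sub_self, abs_zero]; exact kN.le
    · rw [e, e0]; ring
  linarith

/-- bounded levels on every range -/
lemma rayb_lev {k : ℝ} (hk : 0 ≤ k) : ∃ C > (0 : ℝ), ∀ᶠ i in (S.U : Filter ι), ∀ z ∈ S.B k i,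
    S.Lv D C i z := by
  have := c.crof.fin
  set T := |tO| + |tB| + 1 with hT
  have T1 : 1 ≤ T := by linarith [abs_nonneg tO, abs_nonneg tB]
  obtain ⟨C, C0, hC⟩ := S.up R (T + 2) ((1 + (T + 2)) * ((T + 2) * ((T + 4) * k)))
  obtain ⟨C', C0', hC'⟩ := rayb_line R S F hκ L (k := (T + 4) * k) (by positivity)
  refine ⟨C' + 3 * C, by positivity, ?_⟩
  filter_upwards [hC, hC', rayb_ev S F (T * ((T + 4) * k))] with i h1 h2 G z hz
  have s0 := S.s0 i
  have hn : ‖z - S.x i‖ ≤ k * S.s i := by rw [← dist_eq_norm]; exact hz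
  have n0 := norm_nonneg (z - S.x i)
  have b0 : 0 ≤ (T + 4) * ‖z - S.x i‖ := by positivity
  have b1 : (T + 4) * ‖z - S.x i‖ ≤ (T + 4) * k * S.s i := by nlinarith
  have xQ : S.x i ∈ S.B (T * ((T + 4) * k)) i := mem_closedBall_self (by positivity)
  have zQ : z ∈ S.B (T * ((T + 4) * k)) i := by
    refine S.bass_sub ?_ i hz
    have : 1 ≤ T * (T + 4) := by nlinarith
    nlinarith
  have mem : ∀ τ, |τ| ≤ (T + 4) * k * S.s i →
      S.x i + τ • ((sl (S.x i) (dB (D i)), 1) : P) ∈ S.B (T * ((T + 4) * k)) i := fun τ hτ =>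
    closedBall_subset_closedBall (le_of_eq (by ring)) (rayb_norm (G.sB _ xQ) T1 hτ)
  have h3 := (rayb_both G xQ zQ rfl rfl (mem _ (by rw [abs_neg, abs_of_nonneg b0]; exact b1))
    (mem _ (by rw [abs_of_nonneg b0]; exact b1))).1
  have h4 := h2 _ b0 b1
  have h5 : mT c.μ (T + 2) (S.x i) ((1 + (T + 2)) * ((T + 2) * ((T + 4) * ‖z - S.x i‖))) ≤
      C * S.N i := by
    refine le_trans (mw_mono _ le_rfl _ ?_) (h1 _ (mem_closedBall_self (by positivity)))
    rw [mul_assoc (1 + (T + 2)), mul_assoc (T + 2)]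
    gcongr
  have mO := c.sub G.mO
  have mx := c.sub (G.sub xQ)
  have mz := c.sub (G.sub zQ)
  have t1 := c.gp.pm.triangle _ mO _ mx _ mz
  have t2 := c.gp.pm.triangle _ mO _ mz _ mx
  rw [c.gp.pm.symm _ mz _ mx] at t2
  unfold Sys.Lv
  rw [abs_le]
  constructor <;> linarith

end

theorem p_RAYB :
    S_RAYB := by
  intro c R ι S D tO tA tB r κ F hκ L
  have := c.crof.fin
  set T := |tO| + |tB| + 1 with hT
  have T1 : 1 ≤ T := by linarith [abs_nonneg tO, abs_nonneg tB]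
  set K := (1 + (T + 2)) * ((T + 2) * (T + 4)) + (3 + 2 / κ) with hK
  refine ⟨K, by positivity, T + 2, fun k ε hε => ?_⟩
  set k1 := |k| + T * ((T + 4) * (2 * |k|)) with hk1
  have a0 := abs_nonneg k
  have k10 : 0 ≤ k1 := by positivity
  obtain ⟨C, C0, hC⟩ := rayb_lev R S F hκ L k10
  filter_upwards [hC, L (k1 + C) (ε * κ) (by positivity), rayb_ev S F k1] with i h1 h2 G y hy z hz
  have s0 := S.s0 i
  have N0 := S.N0 i
  have hy' : y ∈ S.B |k| i := S.bass_sub (le_abs_self k) i hy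
  have hz' : z ∈ S.B |k| i := S.bass_sub (le_abs_self k) i hz
  have q : |k| ≤ k1 := by
    have : 0 ≤ T * ((T + 4) * (2 * |k|)) := by positivity
    linarith
  have yQ := S.bass_sub q i hy'
  have zQ := S.bass_sub q i hz'
  have dy : dist y (S.x i) ≤ |k| * S.s i := hy'
  have dz : dist z (S.x i) ≤ |k| * S.s i := hz'
  have hn : ‖z - y‖ ≤ 2 * |k| * S.s i := by
    rw [← dist_eq_norm]
    linarith [dist_triangle_right z y (S.x i)]
  have n0 := norm_nonneg (z - y)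
  have b0 : 0 ≤ (T + 4) * ‖z - y‖ := by positivity
  have b1 : (T + 4) * ‖z - y‖ ≤ (T + 4) * (2 * |k| * S.s i) := by gcongr
  have mem : ∀ τ, |τ| ≤ (T + 4) * (2 * |k| * S.s i) →
      y + τ • ((sl y (dB (D i)), 1) : P) ∈ S.B k1 i := fun τ hτ => by
    have h := rayb_norm (p := y) (G.sB _ yQ) T1 hτ
    rw [mem_closedBall] at h
    change dist _ _ ≤ _
    refine (dist_triangle _ y _).trans ?_
    rw [hk1]
    linarith
  have uQ := mem (-((T + 4) * ‖z - y‖)) (by rw [abs_neg, abs_of_nonneg b0]; exact b1)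
  have wQ := mem ((T + 4) * ‖z - y‖) (by rw [abs_of_nonneg b0]; exact b1)
  obtain ⟨h3, h4⟩ := rayb_both G yQ zQ rfl rfl uQ wQ
  have k2 : 0 < 2 / κ := by positivity
  have h5 : mT c.μ (T + 2) y ((1 + (T + 2)) * ((T + 2) * ((T + 4) * ‖z - y‖))) ≤
      mT c.μ (T + 2) y (K * ‖z - y‖) := by
    refine mw_mono _ le_rfl _ ?_
    rw [hK]
    nlinarith
  have h6 : 0 ≤ mT c.μ (T + 2) y (K * ‖z - y‖) := mw_nonneg _ _ _ _
  have h7 : (3 + 2 / κ) * mT c.μ (T + 2) y (K * ‖z - y‖) ≤ K * mT c.μ (T + 2) y (K * ‖z - y‖) := by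
    refine mul_le_mul_of_nonneg_right ?_ h6
    have : 0 ≤ (1 + (T + 2)) * ((T + 2) * (T + 4)) := by positivity
    linarith
  have q' : C * S.N i ≤ (k1 + C) * S.N i := by nlinarith
  have h8 := h2 _ (S.bass_sub (by linarith) i uQ) _ (S.bass_sub (by linarith) i wQ)
    ((h1 _ uQ).trans q') ((h1 _ wQ).trans q')
  unfold Sys.db Sys.dh at h8
  generalize c.d (dO (D i)) (y + ((T + 4) * ‖z - y‖) • ((sl y (dB (D i)), 1) : P)) -
    c.d (dO (D i)) (y + (-((T + 4) * ‖z - y‖)) • ((sl y (dB (D i)), 1) : P)) = β at h3 h8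
  generalize mT c.μ (T + 2) y (K * ‖z - y‖) = m at h5 h6 h7 ⊢
  have eN : 0 < ε * S.N i := by positivity
  have km : 0 ≤ 2 / κ * m := by positivity
  rcases lt_or_ge β 0 with h | h
  · linarith
  · have h9 := h8 h
    have h10 : κ * β ≤ κ * (2 / κ * m + ε * S.N i) := by
      have : κ * (2 / κ * m + ε * S.N i) = 2 * m + ε * κ * S.N i := by field_simp
      linarith
    have := le_of_mul_le_mul_left h10 hκ
    linarith

end Pool.Agent.P.MP_874adf_gt.Gn
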