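import Pool.Agent.P.MP_874adf_gt.Gn.RgStep

/-! Comparison at all places and scales from the steps. -/

set_option autoImplicit false

namespace Pool.Agent.P.MP_874adf_gt.Gn

open Pool.Agent.P.MP_874adf_gt.Fs Set Filter Topology Metric MeasureTheory

namespace Rg2

open Rgs

lemma mw_union (μ : Measure (ℝ × ℝ)) [IsFiniteMeasure μ] (J J' : Set ℝ) (x : P) (s : ℝ) :
    mw μ (J ∪ J') x s ≤ mw μ J x s + mw μ J' x s := by
  refine (measureReal_mono ?_ (measure_ne_top _ _)).trans (measureReal_union_le _ _)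
  rintro l ⟨h | h, h2⟩
  · exact Or.inl ⟨h, h2⟩
  · exact Or.inr ⟨h, h2⟩

lemma mw_empty (μ : Measure (ℝ × ℝ)) (x : P) (s : ℝ) : mw μ ∅ x s = 0 := by simp [mw]

lemma pr_hor (t τ : ℝ) (x : P) : pr t (x + (τ, 0)) = pr t x + τ := by
  simp only [pr, Prod.fst_add, Prod.snd_add]
  ring

lemma pr_dir (t h θ : ℝ) (x : P) : pr t (x + h • (θ, 1)) - pr t x = h * (θ - t) := by
  simp only [pr, Prod.fst_add, Prod.snd_add, Prod.smul_fst, Prod.smul_snd, smul_eq_mul]
  ring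

/-- a long segment is covered by short ones -/
lemma cover (μ : Measure (ℝ × ℝ)) [IsFiniteMeasure μ] (J : Set ℝ) (x : P) {R δ B : ℝ} {N : ℕ}
    (R0 : 0 ≤ R) (δ0 : 0 < δ) (hN : 2 * R ≤ N * δ)
    (h : ∀ τ, |τ| ≤ R → mw μ J (x + (τ, 0)) δ ≤ B) : mw μ J x R ≤ (N + 1) * B := by
  have sub : {l : ℝ × ℝ | l.2 ∈ J ∧ |l.1 - pr l.2 x| ≤ R} ⊆ ⋃ i ∈ Finset.range (N + 1),
      {l : ℝ × ℝ | l.2 ∈ J ∧ |l.1 - pr l.2 (x + (min (-R + i * δ) R, 0))| ≤ δ} := by
    rintro l ⟨h1, h2⟩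
    have h3 := abs_le.1 h2
    set u := l.1 - pr l.2 x with hu
    have u0 : 0 ≤ (u + R) / δ := div_nonneg (by linarith [h3.1]) δ0.le
    have a := (le_div_iff₀ δ0).1 (Nat.floor_le u0)
    have b := (div_lt_iff₀ δ0).1 (Nat.lt_floor_add_one ((u + R) / δ))
    have c : ⌊(u + R) / δ⌋₊ ≤ N := by
      refine Nat.floor_le_of_le ?_
      rw [div_le_iff₀ δ0]
      linarith [h3.2]
    refine mem_biUnion (Finset.mem_coe.2 (Finset.mem_range.2 (Nat.lt_succ_of_le c))) ⟨h1, ?_⟩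
    rw [min_eq_left (by linarith [h3.2]), pr_hor]
    exact abs_le.2 ⟨by linarith, by linarith⟩
  refine (measureReal_mono sub (measure_ne_top _ _)).trans
    ((measureReal_biUnion_finset_le _ _).trans ?_)
  have := Finset.sum_le_card_nsmul (Finset.range (N + 1)) (fun i : ℕ => μ.real
    {l : ℝ × ℝ | l.2 ∈ J ∧ |l.1 - pr l.2 (x + (min (-R + i * δ) R, 0))| ≤ δ}) B fun i _ =>
    h _ (abs_le.2 ⟨le_min (by have : 0 ≤ (i : ℝ) * δ := by positivity
                              linarith) (by linarith), min_le_right _ _⟩)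
  simpa using this

lemma pick (θ : ℝ) {a b : ℝ} (ab : a < b) :
    ∃ t, a + (b - a) / 3 ≤ t ∧ t ≤ b - (b - a) / 3 ∧ t ≠ θ := by
  by_cases h : a + (b - a) / 3 = θ
  · exact ⟨b - (b - a) / 3, by linarith, le_rfl, fun e => by linarith⟩
  · exact ⟨_, le_rfl, by linarith, h⟩

lemma cmp_loc {μ : Measure (ℝ × ℝ)} [IsFiniteMeasure μ] {θ t a b k : ℝ} (st : Stp μ θ t)
    (ne : t ≠ θ) (ha : a < t) (hb : t < b) (k1 : 1 ≤ k) :
    ∃ η > (0 : ℝ), ∃ C > (0 : ℝ), ∃ ρ > (0 : ℝ), ∀ x ∈ ball (0 : P) ρ, ∀ s, 0 < s → s < ρ →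
      ∀ y ∈ closedBall x (k * s),
        mw μ (Icc (θ - η) (θ + η)) x (k * s) ≤ C * mw μ (Icc a b) y (s / k) := by
  obtain ⟨L, L1, e0, e00, st⟩ := st
  have k0 : 0 < k := by linarith
  have L0 : 0 < L := by linarith
  have γ0 : 0 < |θ - t| := abs_pos.2 (sub_ne_zero.2 ne.symm)
  obtain ⟨H, hH⟩ : ∃ H, H = (1 + |t|) * (2 * k) / |θ - t| := ⟨_, rfl⟩
  have H0 : 0 < H := by rw [hH]; positivity
  obtain ⟨δ, hδ⟩ : ∃ δ, δ = 1 / (3 * k * L) := ⟨_, rfl⟩
  have δ0 : 0 < δ := by rw [hδ]; positivity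
  obtain ⟨η, η0, η1, η2⟩ : ∃ η > (0 : ℝ), η ≤ e0 ∧ η ≤ δ / H :=
    ⟨min e0 (δ / H), by positivity, min_le_left _ _, min_le_right _ _⟩
  obtain ⟨e, ep, e1, e2, e3⟩ : ∃ e > (0 : ℝ), e ≤ t - a ∧ e ≤ b - t ∧ e ≤ 1 / (3 * k) / (k + H) :=
    ⟨min (min (t - a) (b - t)) (1 / (3 * k) / (k + H)),
      lt_min (lt_min (by linarith) (by linarith)) (by positivity),
      (min_le_left _ _).trans (min_le_left _ _), (min_le_left _ _).trans (min_le_right _ _),
      min_le_right _ _⟩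
  rw [le_div_iff₀ H0] at η2
  rw [le_div_iff₀ (by positivity)] at e3
  obtain ⟨K, K0, ρ, ρ0, st⟩ := st e ep
  obtain ⟨N, hN⟩ := exists_nat_ge (2 * k / δ)
  rw [div_le_iff₀ δ0] at hN
  obtain ⟨Q, hQ⟩ : ∃ Q, Q = 1 + k + H * (|θ| + 1) + 2 * δ := ⟨_, rfl⟩
  have p1 : 0 < H * (|θ| + 1) := by positivity
  have Q0 : 0 < Q := by rw [hQ]; positivity
  refine ⟨η, η0, (N + 1) * K, by positivity, ρ / Q, by positivity, fun x hx s s0 hs y hy => ?_⟩
  rw [mem_ball_zero_iff, lt_div_iff₀ Q0] at hx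
  rw [lt_div_iff₀ Q0] at hs
  rw [mul_assoc]
  refine cover μ _ x (δ := δ * s) (by positivity) (by positivity)
    (by have := mul_le_mul_of_nonneg_right hN s0.le
        linarith) fun τ hτ => ?_
  set x' : P := x + (τ, 0) with hx'
  rw [mem_closedBall, dist_eq_norm] at hy
  have y1 : |y.1 - x.1| ≤ k * s := (norm_fst_le (y - x)).trans hy
  have y2 : |y.2 - x.2| ≤ k * s := (norm_snd_le (y - x)).trans hy
  have q1 : |y.1 - x'.1| ≤ 2 * k * s := by
    have : y.1 - x'.1 = (y.1 - x.1) - τ := by simp [hx']; ring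
    rw [this]
    exact (abs_sub _ _).trans (by linarith)
  have q2 : |y.2 - x'.2| ≤ k * s := by simpa [hx'] using y2
  obtain ⟨h, hh⟩ : ∃ h, h = (y.1 - x'.1 - t * (y.2 - x'.2)) / (θ - t) := ⟨_, rfl⟩
  have ks : 0 < k * s := by positivity
  have hb : |h| ≤ H * s := by
    rw [hh, hH, abs_div, div_mul_eq_mul_div]
    refine div_le_div_of_nonneg_right ((abs_sub _ _).trans ?_) γ0.le
    rw [abs_mul]
    have := mul_le_mul_of_nonneg_left (q2.trans (show k * s ≤ 2 * k * s by linarith))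
      (abs_nonneg t)
    linarith
  set w : P := x' + h • (θ, 1) with hw
  have yw : y = w + (y.2 - x'.2 - h) • (t, 1) := by
    have θt : θ - t ≠ 0 := sub_ne_zero.2 ne.symm
    have : h * (θ - t) = y.1 - x'.1 - t * (y.2 - x'.2) := by rw [hh]; field_simp
    ext
    · simp only [hw, Prod.fst_add, Prod.smul_fst, smul_eq_mul]
      linear_combination -this
    · simp only [hw, Prod.snd_add, Prod.smul_snd, smul_eq_mul]
      ring
  have a1 : mw μ (Icc (θ - η) (θ + η)) x' (δ * s) ≤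
      mw μ (Icc (θ - e0) (θ + e0)) w (2 * δ * s) := by
    refine mw_le μ (Icc_subset_Icc (by linarith) (by linarith)) fun u hu => ?_
    rw [hw, pr_dir, abs_mul]
    have a : |θ - u| ≤ η := abs_le.2 ⟨by linarith [hu.2], by linarith [hu.1]⟩
    have := mul_le_mul hb a (abs_nonneg _) (by positivity)
    have := mul_le_mul_of_nonneg_right η2 s0.le
    linarith
  have nw : ‖w‖ < ρ := by
    have a : ‖w‖ ≤ ‖x‖ + |τ| + |h| * (|θ| + 1) := by
      refine (norm_add_le _ _).trans (add_le_add ((norm_add_le _ _).trans ?_) ?_)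
      · simp
      · rw [norm_smul, Real.norm_eq_abs]
        refine mul_le_mul_of_nonneg_left ?_ (abs_nonneg _)
        have := abs_nonneg θ
        rw [Prod.norm_def]
        exact max_le (by simp) (by simp)
    have b := mul_le_mul_of_nonneg_right hb (show 0 ≤ |θ| + 1 by positivity)
    have x0 := norm_nonneg x
    rcases le_total ‖x‖ s with c | c
    · have : 0 < δ * s := by positivity
      rw [hQ] at hs
      linarith
    · have c1 := mul_le_mul_of_nonneg_left c k0.le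
      have c2 := mul_le_mul_of_nonneg_left c p1.le
      have : 0 ≤ ‖x‖ * δ := by positivity
      rw [hQ] at hx
      linarith
  have a2 := st w (mem_ball_zero_iff.2 nw) (2 * δ * s) (by positivity) (by
    have : 0 < s * (1 + k + H * (|θ| + 1)) := by positivity
    rw [hQ] at hs
    linarith)
  have a3 : mw μ (Icc (t - e) (t + e)) w (L * (2 * δ * s)) ≤ mw μ (Icc a b) y (s / k) := by
    refine mw_le μ (Icc_subset_Icc (by linarith) (by linarith)) fun u hu => ?_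
    have a : |t - u| ≤ e := abs_le.2 ⟨by linarith [hu.2], by linarith [hu.1]⟩
    have b : |y.2 - x'.2 - h| ≤ (k + H) * s := (abs_sub _ _).trans (by linarith)
    have c := pr_dir u (y.2 - x'.2 - h) t w
    rw [← yw] at c
    rw [c, abs_mul]
    have c1 := mul_le_mul b a (abs_nonneg _) (by positivity)
    have c2 := mul_le_mul_of_nonneg_right e3 s0.le
    have c3 : L * (2 * δ * s) + 1 / (3 * k) * s = s / k := by rw [hδ]; field_simp; ring
    linarith
  exact a1.trans (a2.trans (mul_le_mul_of_nonneg_left a3 K0.le))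

theorem cmp {μ : Measure (ℝ × ℝ)} [IsFiniteMeasure μ] {a b k : ℝ} (ab : a < b) (k1 : 1 ≤ k)
    (st : ∀ θ, ∀ t < b, Stp μ θ t) (T : ℝ) :
    ∃ C > (0 : ℝ), ∃ ρ > (0 : ℝ), ∀ x ∈ ball (0 : P) ρ, ∀ s, 0 < s → s < ρ →
      ∀ y ∈ closedBall x (k * s), mT μ T x (k * s) ≤ C * mw μ (Icc a b) y (s / k) := by
  refine (isCompact_Icc (a := -T) (b := T)).induction_on (p := fun J => ∃ C > (0 : ℝ),
    ∃ ρ > (0 : ℝ), ∀ x ∈ ball (0 : P) ρ, ∀ s, 0 < s → s < ρ →
      ∀ y ∈ closedBall x (k * s), mw μ J x (k * s) ≤ C * mw μ (Icc a b) y (s / k)) ?_ ?_ ?_ ?_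
  · exact ⟨1, one_pos, 1, one_pos, fun x _ s _ _ y _ => by
      rw [mw_empty, one_mul]; exact mw_nonneg _ _ _ _⟩
  · rintro J J' hJ ⟨C, C0, ρ, ρ0, h⟩
    exact ⟨C, C0, ρ, ρ0, fun x hx s s0 hs y hy =>
      (mw_mono μ x hJ le_rfl).trans (h x hx s s0 hs y hy)⟩
  · rintro J J' ⟨C, C0, ρ, ρ0, h⟩ ⟨C', C0', ρ', ρ0', h'⟩
    refine ⟨C + C', by positivity, min ρ ρ', by positivity, fun x hx s s0 hs y hy => ?_⟩
    rw [add_mul]
    exact (mw_union μ J J' x _).trans (add_le_add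
      (h x (ball_subset_ball (min_le_left _ _) hx) s s0 (hs.trans_le (min_le_left _ _)) y hy)
      (h' x (ball_subset_ball (min_le_right _ _) hx) s s0 (hs.trans_le (min_le_right _ _)) y hy))
  · intro θ _
    obtain ⟨t, t1, t2, ne⟩ := pick θ ab
    obtain ⟨η, η0, h⟩ := cmp_loc (st θ t (by linarith)) ne (show a < t by linarith)
      (show t < b by linarith) k1
    exact ⟨_, mem_nhdsWithin_of_mem_nhds (Icc_mem_nhds (by linarith) (by linarith)), h⟩

lemma lg_one {μ : Measure (ℝ × ℝ)} [IsFiniteMeasure μ] {θ t a b : ℝ} (st : Stp μ θ t)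
    (ne : t ≠ θ) (ha : a < t) (hb : t < b) :
    ∃ e > (0 : ℝ), ∃ η > (0 : ℝ), ∃ K > (0 : ℝ), ∃ ρ > (0 : ℝ), ∀ x ∈ ball (0 : P) ρ, ∀ s,
      0 < s → s < ρ → mw μ (Icc (θ - e) (θ + e)) x (η * s) ≤
        K * (mw μ (Icc a b) x s - mw μ (Icc a b) x (s / 5)) := by
  obtain ⟨L, L1, e0, e00, st⟩ := st
  have L0 : 0 < L := by linarith
  obtain ⟨γ, hγ⟩ : ∃ γ, γ = |θ - t| := ⟨_, rfl⟩
  have γ0 : 0 < γ := hγ ▸ abs_pos.2 (sub_ne_zero.2 ne.symm)
  obtain ⟨η, η0, η1, η2⟩ : ∃ η > (0 : ℝ), η ≤ e0 ∧ η ≤ γ / (8 * L) :=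
    ⟨min e0 (γ / (8 * L)), by positivity, min_le_left _ _, min_le_right _ _⟩
  obtain ⟨e, ep, e1, e2, e3⟩ : ∃ e > (0 : ℝ), e ≤ t - a ∧ e ≤ b - t ∧ e ≤ γ / 4 :=
    ⟨min (min (t - a) (b - t)) (γ / 4),
      lt_min (lt_min (by linarith) (by linarith)) (by positivity),
      (min_le_left _ _).trans (min_le_left _ _), (min_le_left _ _).trans (min_le_right _ _),
      min_le_right _ _⟩
  obtain ⟨K, K0, ρ, ρ0, st⟩ := st e ep
  obtain ⟨Q, hQ⟩ : ∃ Q, Q = 1 + 1 / (2 * γ) * (|θ| + 1) := ⟨_, rfl⟩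
  have p1 : 0 < 1 / (2 * γ) * (|θ| + 1) := by positivity
  have Q0 : 0 < Q := by rw [hQ]; positivity
  refine ⟨η, η0, 1 / (16 * L), by positivity, K, K0, ρ / Q, by positivity,
    fun x hx s s0 hs => ?_⟩
  rw [mem_ball_zero_iff, lt_div_iff₀ Q0] at hx
  rw [lt_div_iff₀ Q0] at hs
  obtain ⟨h, hh⟩ : ∃ h, h = 1 / (2 * γ) * s := ⟨_, rfl⟩
  have h0 : 0 < h := by rw [hh]; positivity
  have hγ' : h * γ = s / 2 := by rw [hh]; field_simp
  set w : P := x + h • (θ, 1) with hw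
  have a1 : mw μ (Icc (θ - η) (θ + η)) x (1 / (16 * L) * s) ≤
      mw μ (Icc (θ - e0) (θ + e0)) w (1 / (8 * L) * s) := by
    refine mw_le μ (Icc_subset_Icc (by linarith) (by linarith)) fun u hu => ?_
    rw [hw, pr_dir, abs_mul, abs_of_pos h0]
    have a : |θ - u| ≤ γ / (8 * L) := abs_le.2 ⟨by linarith [hu.2], by linarith [hu.1]⟩
    have b := mul_le_mul_of_nonneg_left a h0.le
    have c : 1 / (16 * L) * s + h * (γ / (8 * L)) = 1 / (8 * L) * s := by
      rw [hh]; field_simp; ring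
    linarith
  have nw : ‖w‖ < ρ := by
    have a : ‖w‖ ≤ ‖x‖ + h * (|θ| + 1) := by
      refine (norm_add_le _ _).trans (add_le_add le_rfl ?_)
      rw [norm_smul, Real.norm_eq_abs, abs_of_pos h0]
      refine mul_le_mul_of_nonneg_left ?_ h0.le
      have := abs_nonneg θ
      rw [Prod.norm_def]
      exact max_le (by simp) (by simp)
    rw [hh] at a
    rcases le_total ‖x‖ s with c | c
    · rw [hQ] at hs
      linarith
    · have c2 := mul_le_mul_of_nonneg_left c p1.le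
      rw [hQ] at hx
      linarith
  have a2 := st w (mem_ball_zero_iff.2 nw) (1 / (8 * L) * s) (by positivity) (by
    have a : 1 / (8 * L) ≤ 1 := by rw [div_le_one (by positivity)]; linarith
    have b := mul_le_mul_of_nonneg_right a s0.le
    have : 0 < s * (1 / (2 * γ) * (|θ| + 1)) := by positivity
    rw [hQ] at hs
    linarith)
  have q : L * (1 / (8 * L) * s) = s / 8 := by field_simp
  rw [q] at a2
  have key : ∀ l : ℝ × ℝ, l.2 ∈ Icc (t - e) (t + e) → |l.1 - pr l.2 w| ≤ s / 8 →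
      s / 4 ≤ |l.1 - pr l.2 x| ∧ |l.1 - pr l.2 x| ≤ s := fun l h1 h2 => by
    have a : |t - l.2| ≤ γ / 4 := abs_le.2 ⟨by linarith [h1.2], by linarith [h1.1]⟩
    have b1 : |θ - l.2| ≤ γ + γ / 4 := by
      have := abs_add_le (θ - t) (t - l.2)
      rw [sub_add_sub_cancel, ← hγ] at this
      linarith
    have b2 : γ - γ / 4 ≤ |θ - l.2| := by
      have := abs_sub (θ - l.2) (t - l.2)
      rw [sub_sub_sub_cancel_right, ← hγ] at this
      linarith
    have c := pr_dir l.2 h θ x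
    rw [← hw] at c
    have c1 : |pr l.2 w - pr l.2 x| = h * |θ - l.2| := by rw [c, abs_mul, abs_of_pos h0]
    have c2 := mul_le_mul_of_nonneg_left b1 h0.le
    have c3 := mul_le_mul_of_nonneg_left b2 h0.le
    have c4 := abs_add_le (l.1 - pr l.2 w) (pr l.2 w - pr l.2 x)
    have c5 := abs_sub (l.1 - pr l.2 x) (l.1 - pr l.2 w)
    rw [sub_add_sub_cancel] at c4
    rw [sub_sub_sub_cancel_left] at c5
    constructor <;> linarith
  have a3 : mw μ (Icc (t - e) (t + e)) w (s / 8) + mw μ (Icc a b) x (s / 5) ≤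
      mw μ (Icc a b) x s := by
    unfold mw
    rw [← measureReal_union _ (mw_meas measurableSet_Icc x _)]
    · refine measureReal_mono ?_ (measure_ne_top _ _)
      rintro l (⟨h1, h2⟩ | ⟨h1, h2⟩)
      · exact ⟨⟨by linarith [h1.1], by linarith [h1.2]⟩, (key l h1 h2).2⟩
      · exact ⟨h1, by linarith⟩
    · refine disjoint_left.2 ?_
      rintro l ⟨h1, h2⟩ ⟨-, h3⟩
      linarith [(key l h1 h2).1]
  exact a1.trans (a2.trans (mul_le_mul_of_nonneg_left (by linarith) K0.le))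

lemma lg_loc {μ : Measure (ℝ × ℝ)} [IsFiniteMeasure μ] {θ t a b : ℝ} (st : Stp μ θ t)
    (ne : t ≠ θ) (ha : a < t) (hb : t < b) :
    ∃ e > (0 : ℝ), ∀ ε > (0 : ℝ), ∃ η > (0 : ℝ), ∃ ρ > (0 : ℝ), ∀ x ∈ ball (0 : P) ρ, ∀ s,
      0 < s → s < ρ → mw μ (Icc (θ - e) (θ + e)) x (η * s) ≤ ε * mw μ (Icc a b) x s := by
  obtain ⟨e, e0, η, η0, K, K0, ρ, ρ0, h⟩ := lg_one st ne ha hb
  refine ⟨e, e0, fun ε ε0 => ?_⟩
  obtain ⟨m, hm⟩ := exists_nat_gt (K / ε)
  have m0 : (0 : ℝ) < m := (div_pos K0 ε0).trans hm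
  refine ⟨η / 5 ^ m, by positivity, ρ, ρ0, fun x hx s s0 hs => ?_⟩
  have key : ∀ j : ℕ, j ≤ m → j * mw μ (Icc (θ - e) (θ + e)) x (η / 5 ^ m * s) ≤
      K * (mw μ (Icc a b) x s - mw μ (Icc a b) x (s / 5 ^ j)) := by
    intro j
    induction j with
    | zero => simp
    | succ j ih =>
      intro hj
      have p : (1 : ℝ) ≤ 5 ^ j := one_le_pow₀ (by norm_num)
      have a := h x hx (s / 5 ^ j) (by positivity) ((div_le_self s0.le p).trans_lt hs)
      have b : mw μ (Icc (θ - e) (θ + e)) x (η / 5 ^ m * s) ≤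
          mw μ (Icc (θ - e) (θ + e)) x (η * (s / 5 ^ j)) := by
        refine mw_mono μ x Subset.rfl ?_
        rw [div_mul_eq_mul_div, ← mul_div_assoc]
        exact div_le_div_of_nonneg_left (by positivity) (by positivity)
          (pow_le_pow_right₀ (by norm_num) (by omega))
      rw [div_div, ← pow_succ] at a
      have := ih (by omega)
      push_cast
      linarith
  have a1 := key m le_rfl
  have a2 := mul_nonneg K0.le (mw_nonneg μ (Icc a b) x (s / 5 ^ m))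
  have a3 := mul_le_mul_of_nonneg_right ((div_lt_iff₀ ε0).1 hm).le (mw_nonneg μ (Icc a b) x s)
  refine le_of_mul_le_mul_left ?_ m0
  linarith

theorem lg {μ : Measure (ℝ × ℝ)} [IsFiniteMeasure μ] {a b b' : ℝ} (ab : a < b) (bb : b ≤ b')
    (st : ∀ θ, ∀ t < b, Stp μ θ t) (T : ℝ) : ∀ ε > (0 : ℝ), ∃ η > (0 : ℝ), ∃ ρ > (0 : ℝ),
      ∀ x ∈ ball (0 : P) ρ, ∀ s, 0 < s → s < ρ → mT μ T x (η * s) ≤ ε * mw μ (Icc a b') x s := by
  refine (isCompact_Icc (a := -T) (b := T)).induction_on (p := fun J => ∀ ε > (0 : ℝ),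
    ∃ η > (0 : ℝ), ∃ ρ > (0 : ℝ), ∀ x ∈ ball (0 : P) ρ, ∀ s, 0 < s → s < ρ →
      mw μ J x (η * s) ≤ ε * mw μ (Icc a b') x s) ?_ ?_ ?_ ?_
  · exact fun ε ε0 => ⟨1, one_pos, 1, one_pos, fun x _ s _ _ => by
      rw [mw_empty]; exact mul_nonneg ε0.le (mw_nonneg _ _ _ _)⟩
  · intro J J' hJ h ε ε0
    obtain ⟨η, η0, ρ, ρ0, h⟩ := h ε ε0
    exact ⟨η, η0, ρ, ρ0, fun x hx s s0 hs => (mw_mono μ x hJ le_rfl).trans (h x hx s s0 hs)⟩
  · intro J J' h h' ε ε0
    obtain ⟨η, η0, ρ, ρ0, h⟩ := h (ε / 2) (by positivity)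
    obtain ⟨η', η0', ρ', ρ0', h'⟩ := h' (ε / 2) (by positivity)
    refine ⟨min η η', by positivity, min ρ ρ', by positivity, fun x hx s s0 hs => ?_⟩
    have a1 := h x (ball_subset_ball (min_le_left _ _) hx) s s0 (hs.trans_le (min_le_left _ _))
    have a2 := h' x (ball_subset_ball (min_le_right _ _) hx) s s0 (hs.trans_le (min_le_right _ _))
    have a3 := mw_mono μ x (Subset.refl J) (mul_le_mul_of_nonneg_right (min_le_left η η') s0.le)
    have a4 := mw_mono μ x (Subset.refl J') (mul_le_mul_of_nonneg_right (min_le_right η η') s0.le)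
    have a5 := mw_union μ J J' x (min η η' * s)
    linarith
  · intro θ _
    obtain ⟨t, t1, t2, ne⟩ := pick θ ab
    obtain ⟨e, e0, h⟩ := lg_loc (st θ t (by linarith)) ne (show a < t by linarith)
      (show t < b' by linarith)
    exact ⟨_, mem_nhdsWithin_of_mem_nhds (Icc_mem_nhds (by linarith) (by linarith)), h⟩

end Rg2

end Pool.Agent.P.MP_874adf_gt.Gn
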