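import Pool.Agent.P.MP_874adf_gt.Gn.Rg0

/-! The one step comparison. -/

set_option autoImplicit false

namespace Pool.Agent.P.MP_874adf_gt.Gn

open Pool.Agent.P.MP_874adf_gt.Fs Set Filter Topology Metric MeasureTheory

namespace Rg1

lemma sq_one {σ : ℝ} (h : Sg σ) : σ * σ = 1 := by rcases h with rfl | rfl <;> norm_num

lemma abs_one {σ : ℝ} (h : Sg σ) : |σ| = 1 := by rcases h with rfl | rfl <;> norm_num

lemma le_of_abs {σ a e : ℝ} (h : Sg σ) (ha : |a| ≤ e) : -e ≤ σ * a ∧ σ * a ≤ e := by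
  have : |σ * a| ≤ e := by rw [abs_mul, abs_one h, one_mul]; exact ha
  exact abs_le.1 this

lemma abs_of_le {σ a e : ℝ} (h : Sg σ) (h1 : -e ≤ σ * a) (h2 : σ * a ≤ e) : |a| ≤ e := by
  have : |σ * a| ≤ e := abs_le.2 ⟨h1, h2⟩
  rwa [abs_mul, abs_one h, one_mul] at this

/-- a separating line passes through a point of the segment -/
lemma thru {l : ℝ × ℝ} {y z : P} (h : l ∈ sp y z) :
    ∃ τ ∈ Icc (0 : ℝ) 1, l.1 = pr l.2 (y + τ • (z - y)) := by
  have e : ∀ τ : ℝ, pr l.2 (y + τ • (z - y)) = pr l.2 y + τ * (pr l.2 z - pr l.2 y) := fun τ => by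
    simp only [pr, Prod.fst_add, Prod.snd_add, Prod.smul_fst, Prod.smul_snd, Prod.fst_sub,
      Prod.snd_sub, smul_eq_mul]
    ring
  have hc : Continuous fun τ : ℝ => pr l.2 y + τ * (pr l.2 z - pr l.2 y) := by fun_prop
  simp only [e]
  rw [Rg0.mem_sp] at h
  by_cases a : l.1 < pr l.2 y
  · have b : pr l.2 z ≤ l.1 := not_lt.1 fun b => h (iff_of_true a b)
    obtain ⟨τ, hτ, q⟩ := intermediate_value_Icc' zero_le_one hc.continuousOn
      (show l.1 ∈ Icc _ _ from ⟨by simpa using b, by simpa using a.le⟩)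
    exact ⟨τ, hτ, q.symm⟩
  · have b : l.1 < pr l.2 z := by
      by_contra b
      exact h (iff_of_false a b)
    obtain ⟨τ, hτ, q⟩ := intermediate_value_Icc zero_le_one hc.continuousOn
      (show l.1 ∈ Icc _ _ from ⟨by simpa using not_lt.1 a, by simpa using b.le⟩)
    exact ⟨τ, hτ, q.symm⟩

/-- the side of a point below or above, for a line through `w` -/
lemma side_iff {l : ℝ × ℝ} {w X : P} {σ : ℝ} (hσ : Sg σ) (hw : l.1 = pr l.2 w)
    (hX : 0 < σ * (w.2 - X.2)) : l.1 < pr l.2 X ↔ σ * sl w X < σ * l.2 := by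
  have ne : w.2 ≠ X.2 := fun e => by simp [e] at hX
  have e := Rg0.pr_sub l.2 ne
  have q : pr l.2 X - l.1 = (σ * (w.2 - X.2)) * (σ * l.2 - σ * sl w X) := by
    rw [hw, e]
    linear_combination (-(w.2 - X.2) * (l.2 - sl w X)) * sq_one hσ
  rw [← sub_pos, q, mul_pos_iff_of_pos_left hX, sub_pos]

/-- the slope of a line through `w` that separates two points on the same side -/
lemma slope_mem {l : ℝ × ℝ} {w X Y : P} {σ t ε : ℝ} (hσ : Sg σ) (hw : l.1 = pr l.2 w)
    (hX : 0 < σ * (w.2 - X.2)) (hY : 0 < σ * (w.2 - Y.2)) (sX : |sl w X - t| ≤ ε)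
    (sY : |sl w Y - t| ≤ ε) (h : l ∈ sp X Y) : |l.2 - t| ≤ ε := by
  rw [Rg0.mem_sp, side_iff hσ hw hX, side_iff hσ hw hY] at h
  have a := le_of_abs hσ sX
  have b := le_of_abs hσ sY
  by_cases c : σ * sl w X < σ * l.2
  · have e : σ * l.2 ≤ σ * sl w Y := not_lt.1 fun e => h (iff_of_true c e)
    exact abs_of_le hσ (by linarith [a.1]) (by linarith [b.2])
  · have e : σ * sl w Y < σ * l.2 := by
      by_contra e
      exact h (iff_of_false c e)
    exact abs_of_le hσ (by linarith [b.1]) (by linarith [a.2, not_lt.1 c])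

lemma ratio_bound {M : Set P} {d : P → P → ℝ} {C : P} {𝓥 : Set (Set Dat)} (h : Cells M d C 𝓥)
    {v : Set Dat} (hv : v ∈ 𝓥) : ∃ K > (0 : ℝ), ∀ D ∈ v, dr D / (1 - dr D) ≤ K := by
  have hc : ContinuousOn (fun D : Dat => dr D / (1 - dr D)) v :=
    ContinuousOn.div (by fun_prop) (by fun_prop) fun D hD => by
      have := (h.good v hv D hD).2.2.2
      linarith
  obtain ⟨K, hK⟩ := (h.cpt v hv).exists_bound_of_continuousOn hc
  exact ⟨|K| + 1, by positivity, fun D hD =>
    (le_abs_self _).trans ((hK D hD).trans (by linarith [le_abs_self K]))⟩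

theorem one_step (hMON : S_MON) (c : Ctx) : OneStp c.μ (ln c.G) := by
  intro σ hσ ζ hζ θ h1 h2
  have := c.crof.fin
  set f := fx (ln c.G) σ ζ with hf
  set g := min (σ * θ - σ * f) (σ * ζ - σ * θ) / 4 with hg
  have g0 : 0 < g := by
    have := lt_min (sub_pos.2 h1) (sub_pos.2 h2)
    positivity
  have g1 : 4 * g ≤ σ * θ - σ * f := by
    have := min_le_left (σ * θ - σ * f) (σ * ζ - σ * θ)
    linarith
  have g2 : 4 * g ≤ σ * ζ - σ * θ := by
    have := min_le_right (σ * θ - σ * f) (σ * ζ - σ * θ)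
    linarith
  clear_value g
  have L0 : 0 ≤ 2 * |ζ - f| / g := by positivity
  refine ⟨6 + 2 * |ζ - f| / g, by linarith, g, g0, fun e e0 => ?_⟩
  obtain ⟨v, hv, ρ1, ce⟩ := c.root σ hσ ζ hζ (min e g) (lt_min e0 g0)
  have me : min e g ≤ e := min_le_left _ _
  have mg : min e g ≤ g := min_le_right _ _
  obtain ⟨ρ2, ρ20, val⟩ := c.gp.cells.val v hv
  obtain ⟨K, K0, hK⟩ := ratio_bound c.gp.cells hv
  have ρ10 := ce.rho
  have ρ00 := c.rho0
  set m := min c.ρ0 (min ρ1 ρ2) with hm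
  have m0 : 0 < m := by positivity
  have m1 : m ≤ c.ρ0 := min_le_left _ _
  have m2 : m ≤ ρ1 := (min_le_right _ _).trans (min_le_left _ _)
  have m3 : m ≤ ρ2 := (min_le_right _ _).trans (min_le_right _ _)
  set Q := 3 + 2 * (|ζ| + g + 1) / g with hQ
  have Q3 : 3 ≤ Q := by
    have : 0 ≤ 2 * (|ζ| + g + 1) / g := by positivity
    linarith
  refine ⟨K, K0, min (m / 2 / Q) (g * ρ1 / 2), by positivity, fun x hx s s0 hs => ?_⟩
  have sQ : s * Q < m / 2 := (lt_div_iff₀ (by linarith)).1 (hs.trans_le (min_le_left _ _))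
  have sg : s < g * ρ1 / 2 := hs.trans_le (min_le_right _ _)
  have xQ : ‖x‖ * Q < m / 2 := (lt_div_iff₀ (by linarith)).1
    ((mem_ball_zero_iff.1 hx).trans_le (min_le_left _ _))
  have x3 : ‖x‖ * 3 ≤ ‖x‖ * Q := mul_le_mul_of_nonneg_left Q3 (norm_nonneg x)
  have s3 : s * 3 ≤ s * Q := mul_le_mul_of_nonneg_left Q3 s0.le
  set y : P := x - (2 * s, 0) with hy
  have py : ∀ t, pr t y = pr t x - 2 * s := fun t => by simp [hy, pr]; ring
  have ny : ‖y‖ ≤ ‖x‖ + 2 * s := (norm_sub_le _ _).trans (by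
    simp [abs_of_pos s0, s0.le])
  have ym : ‖y‖ < m := by linarith only [ny, x3, s3, sQ, xQ, m0]
  have yb : y ∈ closedBall (0 : P) ρ1 := mem_closedBall_zero_iff.2 (by linarith)
  obtain ⟨D, hD, ci⟩ := val y (mem_ball_zero_iff.2 (by linarith))
  have hO := ce.hO D hD y yb
  set α := 2 * s / g / (σ * (y.2 - (dO D).2)) with hα
  have pO : 0 < σ * (y.2 - (dO D).2) := by linarith
  have α0 : 0 ≤ α := by positivity
  have neO : y.2 ≠ (dO D).2 := fun e => by simp [e] at pO
  have αe : α * (y.2 - (dO D).2) = σ * (2 * s / g) := by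
    have ne : y.2 - (dO D).2 ≠ 0 := sub_ne_zero.2 neO
    have σ0 : σ ≠ 0 := fun e => by simp [e] at pO
    rw [hα]
    field_simp
    linear_combination (-1) * sq_one hσ
  set z := y + α • (y - dO D) with hz
  have pz : ∀ t, pr t z - pr t y = 2 * s / g * (σ * sl y (dO D) - σ * t) := fun t => by
    rw [hz, Rg0.pr_ray]
    have := Rg0.pr_sub t neO
    linear_combination (-α) * this + (sl y (dO D) - t) * αe
  have sO := ce.sO D hD y yb
  have nz : ‖z - y‖ ≤ 2 * s / g * (|ζ| + g + 1) := by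
    have a : (z - y).2 = σ * (2 * s / g) := by simp [hz, ← αe]
    have b : (z - y).1 = σ * (2 * s / g) * sl y (dO D) := by
      have := pz 0
      simp only [pr, zero_mul, sub_zero, mul_zero] at this
      rw [Prod.fst_sub, this]; ring
    have q : |sl y (dO D)| ≤ |ζ| + g := by
      have := abs_sub_abs_le_abs_sub (sl y (dO D)) ζ
      linarith
    have p : 0 < 2 * s / g := by positivity
    rw [Prod.norm_def, a, b, Real.norm_eq_abs, Real.norm_eq_abs, abs_mul, abs_mul, abs_one hσ,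
      abs_of_pos p, one_mul]
    have := abs_nonneg ζ
    exact max_le (mul_le_mul_of_nonneg_left (by linarith only [q]) p.le)
      (le_mul_of_one_le_right p.le (by linarith only [this, g0]))
  have zm : ‖z‖ < m := by
    have a : ‖z‖ ≤ ‖y‖ + ‖z - y‖ := by
      have := norm_add_le y (z - y)
      rwa [add_sub_cancel] at this
    have b : s * Q = 3 * s + 2 * s / g * (|ζ| + g + 1) := by rw [hQ]; ring
    linarith only [a, b, ny, nz, x3, sQ, xQ, m0, s0]
  have zb : z ∈ closedBall (0 : P) ρ1 := mem_closedBall_zero_iff.2 (by linarith)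
  have hA := ce.hA D hD y yb
  have main := Rg0.hs hMON c.gp.pm c.sub c.crof α0 ci (ce.mO D hD) (ce.mB D hD)
    (mem_ball_zero_iff.2 (by linarith)) (mem_ball_zero_iff.2 (show ‖z‖ < c.ρ0 by linarith)) hσ
    pO.le (by linarith) (by linarith [ce.hB D hD y yb])
  rw [← hz] at main
  have lo : mw c.μ (Icc (θ - g) (θ + g)) x s ≤ c.μ.real (sp y z ∩ sp (dO D) (dA D)) := by
    refine measureReal_mono ?_ (measure_ne_top _ _)
    rintro l ⟨hl, hp⟩
    have t1 := le_of_abs hσ (show |l.2 - θ| ≤ g from abs_le.2 ⟨by linarith [hl.1], by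
      linarith [hl.2]⟩)
    have hp' := abs_le.1 hp
    have ny : ¬ l.1 < pr l.2 y := by rw [py]; linarith [hp'.1]
    have o1 := le_of_abs hσ sO
    have lz : l.1 < pr l.2 z := by
      have a := pz l.2
      have b : 2 * g ≤ σ * sl y (dO D) - σ * l.2 := by linarith [o1.1, t1.2]
      have e : 2 * s / g * (2 * g) = 4 * s := by field_simp; ring
      have := mul_le_mul_of_nonneg_left b (show 0 ≤ 2 * s / g by positivity)
      rw [py] at a
      linarith [hp'.2]
    have m : l ∈ sp y z := fun h => ny (h.2 lz)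
    refine ⟨m, ?_⟩
    rw [Rg0.mem_sp, Rg0.side α0 m]
    refine fun h => ny (h.2 ?_)
    have neA : y.2 ≠ (dA D).2 := fun e => by
      rw [e] at hA; simp at hA; linarith
    have a := Rg0.pr_sub l.2 neA
    have a1 := le_of_abs hσ (ce.sA D hD y yb)
    have b : 2 * g ≤ σ * l.2 - σ * sl y (dA D) := by linarith [a1.2, t1.1]
    have e : (y.2 - (dA D).2) * (l.2 - sl y (dA D)) =
        (σ * (y.2 - (dA D).2)) * (σ * l.2 - σ * sl y (dA D)) := by
      linear_combination (-(y.2 - (dA D).2) * (l.2 - sl y (dA D))) * sq_one hσ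
    have := mul_le_mul hA b (by positivity) (by linarith)
    rw [py] at a
    linarith only [a, e, this, hp'.2, sg, s0]
  have hi : c.μ.real (sp y z ∩ sp (dA D) (dB D)) ≤
      mw c.μ (Icc (f - e) (f + e)) x ((6 + 2 * |ζ - f| / g) * s) := by
    refine measureReal_mono ?_ (measure_ne_top _ _)
    rintro l ⟨hl, hl'⟩
    obtain ⟨τ, hτ, hw⟩ := thru hl
    have wb : y + τ • (z - y) ∈ closedBall (0 : P) ρ1 :=
      (convex_closedBall _ _).add_smul_sub_mem yb zb hτ
    have sm := slope_mem hσ hw (by linarith [ce.hA D hD _ wb]) (by linarith [ce.hB D hD _ wb])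
      (ce.sA D hD _ wb) (ce.sB D hD _ wb) hl'
    have sm' := abs_le.1 sm
    refine ⟨⟨by linarith [sm'.1], by linarith [sm'.2]⟩, ?_⟩
    have e1 : l.1 - pr l.2 x = -(2 * s) + τ * (pr l.2 z - pr l.2 y) := by
      rw [hw]
      have := py l.2
      simp only [pr, Prod.fst_add, Prod.snd_add, Prod.smul_fst, Prod.smul_snd, Prod.fst_sub,
        Prod.snd_sub, smul_eq_mul] at this ⊢
      linear_combination this
    have e2 : |pr l.2 z - pr l.2 y| ≤ 2 * s / g * (|ζ - f| + 2 * g) := by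
      rw [pz, abs_mul, ← mul_sub, abs_mul, abs_one hσ, one_mul,
        abs_of_pos (show 0 < 2 * s / g by positivity)]
      refine mul_le_mul_of_nonneg_left ?_ (by positivity)
      have a : sl y (dO D) - l.2 = (sl y (dO D) - ζ) + (ζ - f) - (l.2 - f) := by ring
      rw [a]
      have := abs_add_le (sl y (dO D) - ζ) (ζ - f)
      exact (abs_sub _ _).trans (by linarith)
    have e3 : |τ * (pr l.2 z - pr l.2 y)| ≤ |pr l.2 z - pr l.2 y| := by
      rw [abs_mul, abs_of_nonneg hτ.1]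
      exact mul_le_of_le_one_left (abs_nonneg _) hτ.2
    have e4 : (6 + 2 * |ζ - f| / g) * s = 2 * s + 2 * s / g * (|ζ - f| + 2 * g) := by
      field_simp; ring
    rw [e1, e4]
    refine (abs_add_le _ _).trans ?_
    rw [abs_neg, abs_of_pos (by positivity)]
    linarith
  refine lo.trans (main.trans ?_)
  exact mul_le_mul (hK D hD) hi measureReal_nonneg K0.le

end Rg1

end Pool.Agent.P.MP_874adf_gt.Gn
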