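import Pool.Agent.P.MP_874adf_gt.Gn.Iface0
import Pool.Agent.P.MP_874adf_gt.Gn.RgOne
import Pool.Agent.P.MP_874adf_gt.Gn.RgCmp

/-! Step REG. -/

set_option autoImplicit false

namespace Pool.Agent.P.MP_874adf_gt.Gn

open Pool.Agent.P.MP_874adf_gt.Fs Set Filter Topology Metric MeasureTheory

lemma REG_pos (c : Ctx) :
    ∃ ρ > (0 : ℝ), ∀ x ∈ ball (0 : P) ρ, ∀ s > (0 : ℝ), 0 < mT c.μ c.T0 x s := by
  have := c.crof.fin
  have r0 := c.rho0
  refine ⟨c.ρ0 / 2, by positivity, fun x hx s s0 => ?_⟩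
  obtain ⟨u, u0, u1, u2⟩ : ∃ u > (0 : ℝ), u ≤ s ∧ u ≤ c.ρ0 / 2 :=
    ⟨min s (c.ρ0 / 2), by positivity, min_le_left _ _, min_le_right _ _⟩
  rw [mem_ball_zero_iff] at hx
  have m : ∀ v : P, ‖v‖ ≤ u → x + v ∈ ball (0 : P) c.ρ0 := fun v hv =>
    mem_ball_zero_iff.2 ((norm_add_le _ _).trans_lt (by linarith))
  have mx : x ∈ ball (0 : P) c.ρ0 := mem_ball_zero_iff.2 (by linarith)
  have mX := m (u, -u) (by simp [abs_of_pos u0])
  have mz := m (u, u) (by simp [abs_of_pos u0])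
  have df := Rg0.defect0 c.crof mX mx mz (σ := 1) (Or.inl rfl) (by simp [u0.le]) (by simp [u0.le])
  have tri := c.gp.pm.triangle _ (c.sub mX) _ (c.sub mx) _ (c.sub mz)
  have ne : c.d (x + (u, -u)) x + c.d x (x + (u, u)) ≠ c.d (x + (u, -u)) (x + (u, u)) := by
    intro e
    obtain ⟨a, b, -, -, ab, h⟩ := (c.gp.pm.straight _ (c.sub mX) _ (c.sub mx) _ (c.sub mz)).1 e
    have h1 := congrArg Prod.fst h
    simp only [Prod.fst_add, Prod.smul_fst, smul_eq_mul] at h1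
    have : u = 0 := by linear_combination h1 - (x.1 + u) * ab
    linarith
  have p : 0 < c.μ.real (sp x (x + (u, -u)) ∩ sp x (x + (u, u))) := by
    have := lt_of_le_of_ne tri ne.symm
    linarith
  refine p.trans_le (measureReal_mono ?_ (measure_ne_top _ _))
  rintro l ⟨h1, h2⟩
  have e1 : pr l.2 (x + (u, -u)) = pr l.2 x + u * (1 + l.2) := by
    simp only [pr, Prod.fst_add, Prod.snd_add]; ring
  have e2 : pr l.2 (x + (u, u)) = pr l.2 x + u * (1 - l.2) := by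
    simp only [pr, Prod.fst_add, Prod.snd_add]; ring
  rw [Rg0.mem_sp, e1] at h1
  rw [Rg0.mem_sp, e2] at h2
  by_cases a : l.1 < pr l.2 x
  · have b1 := not_lt.1 fun b => h1 (iff_of_true a b)
    have b2 := not_lt.1 fun b => h2 (iff_of_true a b)
    linarith
  · have b1 : l.1 < pr l.2 x + u * (1 + l.2) := by
      by_contra b
      exact h1 (iff_of_false a b)
    have b2 : l.1 < pr l.2 x + u * (1 - l.2) := by
      by_contra b
      exact h2 (iff_of_false a b)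
    have a' := not_lt.1 a
    have c1 : 0 < 1 + l.2 := pos_of_mul_pos_left (a := 1 + l.2) (b := u) (by linarith) u0.le
    have c2 : 0 < 1 - l.2 := pos_of_mul_pos_left (a := 1 - l.2) (b := u) (by linarith) u0.le
    have := c.t0
    exact ⟨⟨by linarith, by linarith⟩, abs_le.2 ⟨by linarith, by linarith⟩⟩

theorem p_REG (hMON : S_MON) :
    S_REG := by
  intro c
  have := c.crof.fin
  have st : ∀ b, Neg (ln c.G) b → ∀ θ, ∀ t < b, Stp c.μ θ t := by
    rintro b ⟨z, hz, bz⟩ θ t tb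
    exact Rgs.reach c.gp.isN c.gp.u1 c.sc (Rg1.one_step hMON c) θ ⟨z, hz, tb.trans bz⟩
  refine ⟨REG_pos c, fun T a b ab hb k k1 => Rg2.cmp ab k1 (st b hb) T, fun T => ?_⟩
  have := c.t0
  exact Rg2.lg (a := -c.T0) (b := 1 - c.T0) (by linarith) (by linarith) (st _ c.neg) T

end Pool.Agent.P.MP_874adf_gt.Gn
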