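import Pool.Agent.P.MP_874adf_gt.Gn.IfaceF
import Pool.Agent.P.MP_874adf_gt.Gn.BasS

/-! Step SEC. -/

set_option autoImplicit false

namespace Pool.Agent.P.MP_874adf_gt.Gn

open Pool.Agent.P.MP_874adf_gt.Fs Set Filter Topology Metric MeasureTheory

/-- doubling of the mass at small scales -/
lemma sec_dbl {c : Ctx} (R : Reg c) : ∃ C > (0 : ℝ), ∃ ρ > (0 : ℝ), ∀ x ∈ ball (0 : P) ρ,
    ∀ s, 0 < s → s < ρ → mT c.μ c.T0 x (2 * s) ≤ C * mT c.μ c.T0 x s := by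
  have := c.crof.fin
  obtain ⟨C, hC, ρ, hρ, h⟩ := R.cmp c.T0 (-c.T0) (1 - c.T0) (by linarith) c.neg 2 (by norm_num)
  refine ⟨C, hC, ρ, hρ, fun x hx s s0 sρ => ?_⟩
  have e2 := h x hx s s0 sρ x (mem_closedBall_self (by positivity))
  have e3 : mw c.μ (Icc (-c.T0) (1 - c.T0)) x (s / 2) ≤ mT c.μ c.T0 x s :=
    mw_mono c.μ (Icc_subset_Icc le_rfl (by linarith [c.t0])) _ (by linarith)
  exact e2.trans (mul_le_mul_of_nonneg_left e3 hC.le)

/-- at a bounded multiple of the scale the mass exceeds the normalisation -/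
lemma sec_big {c : Ctx} {ι : Type} (S : Sys c ι) (R : Reg c) (k : ℝ) : ∃ L > (0 : ℝ),
    ∀ᶠ i in (S.U : Filter ι), ∀ y ∈ S.B k i, S.N i < mT c.μ c.T0 y (L * S.s i) := by
  have := c.crof.fin
  have hk : 1 ≤ max k 1 := le_max_right k 1
  obtain ⟨κ, hκ, h⟩ := S.low R (a := -c.T0) (b := 1 - c.T0) (by linarith) c.neg hk
  obtain ⟨η, hη, ρ, hρ, h'⟩ := R.lg c.T0 (κ / 2) (by positivity)
  refine ⟨η⁻¹, by positivity, ?_⟩
  filter_upwards [h, S.ev_ball (max k 1) hρ, S.ev_ball η⁻¹ hρ] with i a b b' y hy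
  have s0 := S.s0 i
  have n0 := S.N0 i
  have hy' := S.bass_sub (le_max_left k 1) i hy
  have e2 := h' y (b.1 hy') (η⁻¹ * S.s i) (by positivity) b'.2
  rw [mul_inv_cancel_left₀ hη.ne'] at e2
  have e3 : mw c.μ (Icc (-c.T0) (1 - c.T0)) y (S.s i / max k 1) ≤ mT c.μ c.T0 y (S.s i) :=
    mw_mono c.μ (Icc_subset_Icc le_rfl (by linarith [c.t0])) _ (div_le_self s0.le hk)
  have e4 := ((a y hy').trans e3).trans e2
  have e5 : κ * S.N i ≤ κ * (mT c.μ c.T0 y (η⁻¹ * S.s i) / 2) := by linarith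
  have e6 := le_of_mul_le_mul_left e5 hκ
  linarith

/-- a scale at which the mass is comparable with the normalisation -/
lemma sec_core {c : Ctx} {ι : Type} (S : Sys c ι) (R : Reg c) : ∃ C > (0 : ℝ), ∀ k : ℝ, ∃ L : ℝ,
    ∀ᶠ i in (S.U : Filter ι), ∀ y ∈ S.B k i, ∃ σ : {t : ℝ // 0 < t}, σ.1 ≤ L * S.s i ∧
      mT c.μ c.T0 y σ.1 ≤ C * S.N i ∧ S.N i ≤ C * mT c.μ c.T0 y σ.1 := by
  have := c.crof.fin
  obtain ⟨C, hC, ρ, hρ, h⟩ := sec_dbl R
  refine ⟨C + 1, by positivity, fun k => ?_⟩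
  obtain ⟨η, hη, h1⟩ := S.small R c.T0 k one_pos
  obtain ⟨L, hL, h2⟩ := sec_big S R k
  obtain ⟨q0, hq0⟩ := pow_unbounded_of_one_lt (L / η) (one_lt_two (α := ℝ))
  have hq : L ≤ 2 ^ q0 * η := by
    rw [div_lt_iff₀ hη] at hq0
    exact hq0.le
  refine ⟨2 ^ q0 * η, ?_⟩
  filter_upwards [h1, h2, S.ev_ball k hρ, S.ev_ball (2 ^ q0 * η) hρ] with i a b e f y hy
  have s0 := S.s0 i
  have n0 := S.N0 i
  have ex0 : S.N i < mT c.μ c.T0 y (2 ^ q0 * η * S.s i) :=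
    (b y hy).trans_le (mw_mono c.μ Subset.rfl _ (mul_le_mul_of_nonneg_right hq s0.le))
  have ex : ∃ q : ℕ, S.N i < mT c.μ c.T0 y (2 ^ q * η * S.s i) := ⟨q0, ex0⟩
  classical
  have g1 := Nat.find_spec ex
  have g2 : Nat.find ex ≤ q0 := Nat.find_min' ex ex0
  have mono : ∀ q ≤ q0, (2 : ℝ) ^ q * η * S.s i ≤ 2 ^ q0 * η * S.s i := fun q hq' =>
    mul_le_mul_of_nonneg_right (mul_le_mul_of_nonneg_right
      (pow_le_pow_right₀ one_le_two hq') hη.le) s0.le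
  refine ⟨⟨2 ^ Nat.find ex * η * S.s i, by positivity⟩, mono _ g2, ?_, ?_⟩
  · show mT c.μ c.T0 y (2 ^ Nat.find ex * η * S.s i) ≤ (C + 1) * S.N i
    obtain hz | ⟨p, hp⟩ : Nat.find ex = 0 ∨ ∃ p, Nat.find ex = p + 1 :=
      (Nat.eq_zero_or_pos _).imp id fun h => ⟨Nat.find ex - 1, by omega⟩
    · rw [hz, pow_zero, one_mul] at g1
      have := a y hy
      linarith
    · have g3 : ¬ S.N i < mT c.μ c.T0 y (2 ^ p * η * S.s i) := Nat.find_min ex (by omega)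
      have g4 := h y (e.1 hy) (2 ^ p * η * S.s i) (by positivity)
        ((mono p (by omega)).trans_lt f.2)
      have g5 : (2 : ℝ) ^ Nat.find ex * η * S.s i = 2 * (2 ^ p * η * S.s i) := by
        rw [hp, pow_succ]
        ring
      rw [g5]
      have g6 := mul_le_mul_of_nonneg_left (not_lt.1 g3) hC.le
      linarith
  · show S.N i ≤ (C + 1) * mT c.μ c.T0 y (2 ^ Nat.find ex * η * S.s i)
    have g7 := mul_pos hC (n0.trans g1)
    linarith

theorem p_SEC :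
    S_SEC := by
  intro c R ι S y hy
  obtain ⟨C, hC, h⟩ := sec_core S R
  choose L hL using hy
  have key : ∀ j, ∃ L' : ℝ, ∃ σ : ι → {t : ℝ // 0 < t}, ∀ᶠ i in (S.U : Filter ι),
      (σ i).1 ≤ L' * S.s i ∧ mT c.μ c.T0 (y j i) (σ i).1 ≤ C * S.N i ∧
        S.N i ≤ C * mT c.μ c.T0 (y j i) (σ i).1 := by
    intro j
    obtain ⟨L', h'⟩ := h (L j)
    refine ⟨L', Filter.Eventually.choice (r := fun i (σ : {t : ℝ // 0 < t}) =>
      σ.1 ≤ L' * S.s i ∧ mT c.μ c.T0 (y j i) σ.1 ≤ C * S.N i ∧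
        S.N i ≤ C * mT c.μ c.T0 (y j i) σ.1) ?_⟩
    filter_upwards [h', hL j] with i a b
    exact a _ b
  choose L' σ hσ using key
  have tx : ∀ j, Tendsto (y j) S.U (𝓝 0) := by
    intro j
    rw [Metric.tendsto_nhds]
    intro ε hε
    filter_upwards [hL j, S.ev_ball (L j) hε] with i a b
    exact b.1 a
  have ts : ∀ j, Tendsto (fun i => (σ j i).1) S.U (𝓝 0) := by
    intro j
    have h2 : Tendsto (fun i => L' j * S.s i) S.U (𝓝 (L' j * 0)) := S.ts.const_mul _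
    rw [mul_zero] at h2
    exact squeeze_zero' (Eventually.of_forall fun i => (σ j i).2.le)
      ((hσ j).mono fun i a => a.1) h2
  refine ⟨{ U := S.UU
            x := fun q => y q.1 q.2
            s := fun q => (σ q.1 q.2).1
            N := fun q => S.N q.2
            tx := fun _ h => Eventually.of_forall (f := (W0 : Filter ℕ)) fun j => tx j h
            ts := fun _ h => Eventually.of_forall (f := (W0 : Filter ℕ)) fun j => ts j h
            s0 := fun q => (σ q.1 q.2).2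
            N0 := fun q => S.N0 q.2
            cmp := ⟨C, hC, (S.ev_UU _).2 (Eventually.of_forall fun j =>
              (hσ j).mono fun i a => a.2)⟩ }, ⟨rfl, fun _ => rfl, fun j => ?_⟩, fun _ _ => rfl⟩
  refine ⟨max (L j) (L' j), ?_⟩
  filter_upwards [hL j, hσ j] with i a b
  exact ⟨S.bass_sub (le_max_left _ _) i a,
    b.1.trans (mul_le_mul_of_nonneg_right (le_max_right _ _) (S.s0 i).le)⟩

end Pool.Agent.P.MP_874adf_gt.Gn
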