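import Pool.Agent.P.MP_874adf_gt.Gn.IfaceF
import Pool.Agent.P.MP_874adf_gt.Gn.BasS

/-! Step SPAN. -/

set_option autoImplicit false

namespace Pool.Agent.P.MP_874adf_gt.Gn

open Pool.Agent.P.MP_874adf_gt.Fs Set Filter Topology Metric MeasureTheory

lemma span_ray {x X : P} (h : x.2 ≠ X.2) {a b : ℝ} (ha : 0 < x.2 + a - X.2) :
    x + b • ((sl x X, 1) : P) = (x + a • ((sl x X, 1) : P)) +
      ((b - a) / (x.2 + a - X.2)) • ((x + a • ((sl x X, 1) : P)) - X) := by
  have n1 : x.2 - X.2 ≠ 0 := sub_ne_zero.2 h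
  have n2 : x.2 + a - X.2 ≠ 0 := ha.ne'
  ext
  · simp only [Prod.fst_add, Prod.smul_fst, Prod.fst_sub, smul_eq_mul, sl]
    field_simp
    ring
  · simp only [Prod.snd_add, Prod.smul_snd, Prod.snd_sub, smul_eq_mul]
    field_simp
    ring

/-- the lines that separate two points of a ray from `X` and separate `O` from the first one -/
lemma span_win (μ : Measure (ℝ × ℝ)) [IsFiniteMeasure μ] {x y O X : P} {α r T tO tX : ℝ}
    (hα : 0 ≤ α) (hy : y ∈ closedBall x r) (hz : y + α • (y - X) ∈ closedBall x r)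
    (hT : |tO| + |tX| + 1 ≤ T)
    (h : ∀ w ∈ closedBall x r, 0 < w.2 - O.2 ∧ 0 < w.2 - X.2 ∧ |sl w O - tO| ≤ 1 ∧ |sl w X - tX| ≤ 1) :
    μ.real (sp y (y + α • (y - X)) ∩ sp O y) ≤ mT μ T x ((1 + T) * r) := by
  refine measureReal_mono fun l hl => ?_
  have n := sp_side hα hl.1
  have m : l ∈ sp O X := by
    have h2 := hl.2
    simp only [sp, mem_ofPred_eq] at n h2 ⊢
    tauto
  obtain ⟨w, hw, e⟩ := sp_cross hl.1
  have hw' := (convex_closedBall x r).segment_subset hy hz hw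
  obtain ⟨a1, a2, a3, a4⟩ := h w hw'
  have sl' := sp_slope (σ := 1) (Or.inl rfl) (by linarith) (by linarith) e m
  have b1 := abs_le.1 a3
  have b2 := abs_le.1 a4
  have c1 := le_abs_self tO
  have c2 := neg_abs_le tO
  have c3 := le_abs_self tX
  have c4 := neg_abs_le tX
  have c5 := abs_nonneg tO
  have c6 := abs_nonneg tX
  have hl2 : |l.2| ≤ T := by
    rw [abs_le]
    rcases mem_uIcc.1 sl' with q | q <;> constructor <;> linarith [q.1, q.2, b1.1, b1.2, b2.1, b2.2]
  refine ⟨abs_le.1 hl2, ?_⟩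
  rw [e]
  exact MOVaux.pr_le hl2 hw'

theorem p_SPAN :
    S_SPAN := by
  intro c R ι S D tO tA tB r F W k ε hε
  have fin := c.crof.fin
  set T : ℝ := |tO| + |tB| + 1 with hT
  have T0 : 0 < T := by positivity
  have e0 : 0 < min ε 1 / 2 := by positivity
  obtain ⟨η0, hη0, sm⟩ := S.small R T 1 e0
  set Q : ℝ := 1 + |tB| with hQ
  have Q1 : 1 ≤ Q := by linarith [abs_nonneg tB]
  set η : ℝ := min 1 (η0 / (1 + T)) / Q with hη
  have η1 : 0 < η := by positivity
  have ηQ : η * Q = min 1 (η0 / (1 + T)) := by rw [hη]; field_simp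
  have q1 : η * Q ≤ 1 := ηQ ▸ min_le_left _ _
  have q2 : (1 + T) * (η * Q) ≤ η0 := by
    have : η * Q ≤ η0 / (1 + T) := ηQ ▸ min_le_right _ _
    rwa [le_div_iff₀ (by positivity), mul_comm] at this
  filter_upwards [sm, W Q (k + 1) η η1, F.fO 1 1 one_pos, F.fA 1 1 one_pos, F.fB 1 1 one_pos,
    S.ev_ball 1 c.rho0] with i sm W fO fA fB eb
  have s0 := S.s0 i
  have N0 := S.N0 i
  set x := S.x i with hx
  set O := dO (D i) with hO
  set A := dA (D i) with hA
  set X := dB (D i) with hX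
  set τ := η * S.s i with hτ
  have τ0 : 0 < τ := by positivity
  have xB : x ∈ S.B 1 i := mem_closedBall_self (by positivity)
  have tQ : |sl x X| ≤ Q := by
    have a := (fB.2 x xB).2
    have b := abs_add_le (sl x X - tB) tB
    rw [sub_add_cancel] at b
    linarith
  have sub : closedBall x (τ * Q) ⊆ S.B 1 i :=
    closedBall_subset_closedBall (by rw [hτ]; nlinarith)
  have mem : ∀ a : ℝ, |a| ≤ τ → x + a • ((sl x X, 1) : P) ∈ closedBall x (τ * Q) := by
    intro a ha
    rw [mem_closedBall, dist_eq_norm, add_sub_cancel_left, norm_smul, Real.norm_eq_abs]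
    refine mul_le_mul ha ?_ (norm_nonneg _) τ0.le
    rw [Prod.norm_def, max_le_iff]
    exact ⟨tQ, by simpa using Q1⟩
  have geo : ∀ w ∈ closedBall x (τ * Q),
      0 < w.2 - O.2 ∧ 0 < w.2 - X.2 ∧ |sl w O - tO| ≤ 1 ∧ |sl w X - tB| ≤ 1 := by
    intro w hw
    have a := fO.2 w (sub hw)
    have b := fB.2 w (sub hw)
    exact ⟨by linarith [a.1], by linarith [b.1], a.2, b.2⟩
  have nx : x.2 ≠ X.2 := by
    have := (geo x (mem_closedBall_self (by positivity))).2.1
    exact fun e => by simp [e] at this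
  have snd : ∀ a : ℝ, (x + a • ((sl x X, 1) : P)).2 = x.2 + a := fun a => by simp
  -- the facts on pairs of points of the ray
  have key : ∀ a b : ℝ, |a| ≤ τ → |b| ≤ τ → a ≤ b →
      c.d (x + a • ((sl x X, 1) : P)) (x + b • ((sl x X, 1) : P)) - min ε 1 * S.N i ≤
        S.db D i (x + a • ((sl x X, 1) : P)) (x + b • ((sl x X, 1) : P)) ∧
      S.dh D i (x + a • ((sl x X, 1) : P)) (x + b • ((sl x X, 1) : P)) ≤ min ε 1 * S.N i := by
    intro a b ha hb hab
    have my := mem a ha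
    have mz := mem b hb
    have g := geo _ my
    have p : 0 < x.2 + a - X.2 := by have := g.2.1; rwa [snd] at this
    have α0 : 0 ≤ (b - a) / (x.2 + a - X.2) := div_nonneg (by linarith) p.le
    have ry := span_ray (b := b) nx p
    set y := x + a • ((sl x X, 1) : P) with hy
    set z := x + b • ((sl x X, 1) : P) with hz
    have yz : y.2 ≤ z.2 := by rw [hy, hz, snd, snd]; linarith
    have w1 : c.μ.real (sp y z ∩ sp O y) ≤ min ε 1 / 2 * S.N i := by
      have a1 := span_win c.μ (O := O) α0 my (ry ▸ mz) hT.ge geo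
      rw [← ry] at a1
      refine a1.trans (le_trans ?_ (sm x xB))
      refine mw_mono c.μ Subset.rfl _ ?_
      rw [hτ]
      nlinarith
    have by' := eb.1 (sub my)
    have bz := eb.1 (sub mz)
    have yA : 0 < y.2 - A.2 := by linarith [(fA.2 y (sub my)).1]
    have dO' := c.crof.defect fO.1 by' bz (mem_uIcc.2 (Or.inl ⟨by linarith [g.1], yz⟩))
    have dA' := c.crof.defect fA.1 by' bz (mem_uIcc.2 (Or.inl ⟨by linarith, yz⟩))
    have dB' := c.crof.defect fB.1 by' bz (mem_uIcc.2 (Or.inl ⟨by linarith [g.2.1], yz⟩))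
    have em : sp y z ∩ sp X y = ∅ := by
      refine eq_empty_of_forall_notMem fun l hl => ?_
      have h1 := hl.1
      rw [ry] at h1
      exact sp_side α0 h1 hl.2
    rw [em, measureReal_empty] at dB'
    have nA : 0 ≤ c.μ.real (sp y z ∩ sp A y) := measureReal_nonneg
    have r01 := F.r01 i
    have rr : 0 ≤ dr (D i) / (1 - dr (D i)) := div_nonneg r01.1.le (by linarith [r01.2])
    refine ⟨by simp only [Sys.db]; linarith, ?_⟩
    simp only [Sys.dh]
    rw [hf_diff c.d r01.2.ne]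
    have := mul_nonpos_of_nonneg_of_nonpos rr
      (show c.d A z - c.d A y - (c.d X z - c.d X y) ≤ 0 by linarith)
    linarith
  have m1 : min ε 1 * S.N i ≤ S.N i := by nlinarith [min_le_right ε 1]
  have m2 : min ε 1 * S.N i ≤ ε * S.N i := mul_le_mul_of_nonneg_right (min_le_left _ _) N0.le
  have a1 : |(-τ)| ≤ τ := by rw [abs_neg, abs_of_pos τ0]
  have a2 : |τ| ≤ τ := by rw [abs_of_pos τ0]
  have a0 : |(0 : ℝ)| ≤ τ := by rw [abs_zero]; exact τ0.le
  have k1 := (key (-τ) 0 a1 a0 (by linarith)).1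
  have k2 := (key 0 τ a0 a2 τ0.le).1
  have k3 := (key (-τ) τ a1 a2 (by linarith)).2
  rw [zero_smul, add_zero] at k1 k2
  have W' := W (sl x X) tQ
  have sy : c.d (x + (-τ) • ((sl x X, 1) : P)) x = c.d x (x - τ • ((sl x X, 1) : P)) := by
    have b1 := eb.1 (sub (mem _ a1))
    have b2 := eb.1 xB
    rw [sub_eq_add_neg, ← neg_smul, c.crof.eq _ b1 _ b2, c.crof.eq _ b2 _ b1, sp_comm, abs_sub_comm]
  refine ⟨_, sub (mem _ a1), _, sub (mem _ a2), ?_, ?_, k3.trans m2⟩
  · linarith [W'.2]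
  · linarith [W'.1]

end Pool.Agent.P.MP_874adf_gt.Gn
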