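import Pool.Agent.P.MP_874adf_gt.Gn.ScE

/-! Small circles are circles of the model. -/

set_option autoImplicit false

namespace Pool.Agent.P.MP_874adf_gt.Gn

open Pool.Agent.P.MP_874adf_gt.Fs Set Filter Topology Metric MeasureTheory

variable {M K : Set P} {d F : P → P → ℝ}

lemma sc_lt (pm : PM M d) {O v : P} (hO : O ∈ M) (hv : v ≠ 0) {t t' : ℝ} (t0 : 0 ≤ t) (lt : t < t')
    (h : O + t' • v ∈ M) : O + t • v ∈ M ∧ d O (O + t • v) < d O (O + t' • v) := by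
  have m0 : O + (0 : ℝ) • v ∈ M := by simpa using hO
  have m1 := pm.line_mem m0 h t0 lt.le
  have := pm.line_add m0 h t0 lt.le
  rw [zero_smul, add_zero] at this
  have := pm.pos m1 h fun c => lt.ne (smul_left_injective ℝ hv (add_left_cancel c))
  exact ⟨m1, by linarith⟩

lemma sc_lt' (pm : PM M d) {O v : P} (hO : O ∈ M) (hv : v ≠ 0) {t t' : ℝ} (t0 : 0 ≤ t')
    (h : O + t • v ∈ M) (lt : d O (O + t • v) < d O (O + t' • v)) : t < t' := by
  by_contra c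
  rcases (not_lt.1 c).eq_or_lt with rfl | c
  · exact lt.false
  · exact (sc_lt pm hO hv t0 c h).2.not_gt lt

lemma sc_circ (pm : PM M d) {O : P} (hO : O ∈ M) {a1 : ℝ} (ray : ∀ a ∈ Ioo 0 a1, Ray M d O a) :
    ∃ t : ℝ × P → ℝ, ContinuousOn t (Ioo 0 a1 ×ˢ {0}ᶜ) ∧ ∀ z ∈ Ioo 0 a1 ×ˢ ({0}ᶜ : Set P),
      0 < t z ∧ O + t z • z.2 ∈ M ∧ d O (O + t z • z.2) = z.1 := by
  have ex : ∀ z : ℝ × P, ∃ t : ℝ, z ∈ Ioo 0 a1 ×ˢ ({0}ᶜ : Set P) →
      0 < t ∧ O + t • z.2 ∈ M ∧ d O (O + t • z.2) = z.1 := fun z => by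
    by_cases h : z ∈ Ioo 0 a1 ×ˢ ({0}ᶜ : Set P)
    · obtain ⟨t, ht⟩ := ray z.1 h.1 z.2 h.2
      exact ⟨t, fun _ => ht⟩
    · exact ⟨0, fun c => (h c).elim⟩
  choose t ht using ex
  refine ⟨t, fun z hz => ?_, ht⟩
  obtain ⟨t0, m0, e0⟩ := ht z hz
  have c : ∀ τ : ℝ, O + τ • z.2 ∈ M → Tendsto (fun w : ℝ × P => d O (O + τ • w.2) - w.1) (𝓝 z)
      (𝓝 (d O (O + τ • z.2) - z.1)) ∧ ∀ᶠ w : ℝ × P in 𝓝 z, O + τ • w.2 ∈ M := fun τ hτ =>
    have c1 := (by fun_prop : Continuous fun w : ℝ × P => O + τ • w.2).tendsto z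
    ⟨(pm.tendsto hO hτ tendsto_const_nhds c1).sub (continuous_fst.tendsto z),
      c1.eventually (pm.isOpen.mem_nhds hτ)⟩
  refine tendsto_order.2 ⟨fun τ hτ => ?_, fun τ hτ => ?_⟩
  · rcases le_or_gt τ 0 with h | h
    · exact eventually_mem_nhdsWithin.mono fun w hw => h.trans_lt (ht w hw).1
    · obtain ⟨m1, l1⟩ := sc_lt pm hO hz.2 h.le hτ m0
      filter_upwards [self_mem_nhdsWithin, mem_nhdsWithin_of_mem_nhds (((c τ m1).1.eventually
        (gt_mem_nhds (show _ < (0 : ℝ) by linarith))).and (c τ m1).2)] with w hw k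
      exact sc_lt' pm hO hw.2 (ht w hw).1.le k.2 (by linarith [k.1, (ht w hw).2.2])
  · have e1 : ∀ᶠ σ : ℝ in 𝓝 (t z), O + σ • z.2 ∈ M := (by fun_prop : Continuous fun σ : ℝ =>
      O + σ • z.2).continuousAt.eventually_mem (pm.isOpen.mem_nhds m0)
    obtain ⟨σ, m1, s1, s2⟩ := ((e1.filter_mono nhdsWithin_le_nhds).and (Ioo_mem_nhdsGT hτ)).exists
    have l1 := (sc_lt pm hO hz.2 t0.le s1 m1).2
    filter_upwards [self_mem_nhdsWithin, mem_nhdsWithin_of_mem_nhds ((c σ m1).1.eventually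
      (lt_mem_nhds (show (0 : ℝ) < _ by linarith)))] with w hw k
    have k' : 0 < d O (O + σ • w.2) - w.1 := k
    exact (sc_lt' pm hO hw.2 (t0.trans s1).le (ht w hw).2.1
      (by linarith [(ht w hw).2.2])).trans s2

lemma sc_gam_sub (O b v : P) (p q s : ℝ) {t t' : ℝ} (t0 : 0 ≤ t) (t1 : 0 ≤ t')
    (h : ell O b (O + t • v) ≠ 0) (h' : ell O b (O + t' • v) ≠ 0) :
    gam O b p q s (O + t' • v) - gam O b p q s (O + t • v) =
      √(bf p q s v v) * (t' - t) / (ell O b (O + t • v) * ell O b (O + t' • v)) := by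
  simp only [gam, add_sub_cancel_left, bf_smul_smul]
  rw [Real.sqrt_mul (sq_nonneg _), Real.sqrt_mul (sq_nonneg _), Real.sqrt_sq t0, Real.sqrt_sq t1]
  field_simp
  simp only [ell_line, ell_self]
  ring

lemma sc_bf_le (p q s : ℝ) : ∃ K > (0 : ℝ), ∀ v : P, √(bf p q s v v) ≤ K * ‖v‖ := by
  refine ⟨√(|p| + 2 * |q| + |s| + 1), by positivity, fun v => ?_⟩
  rw [← Real.sqrt_sq (norm_nonneg v), ← Real.sqrt_mul (by positivity)]
  refine Real.sqrt_le_sqrt ?_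
  have a : ∀ c x y : ℝ, |x| ≤ ‖v‖ → |y| ≤ ‖v‖ → c * x * y ≤ |c| * ‖v‖ ^ 2 := fun c x y hx hy => by
    refine (le_abs_self _).trans ?_
    rw [abs_mul, abs_mul, mul_assoc, sq]
    gcongr
  have a1 : |v.1| ≤ ‖v‖ := norm_fst_le v
  have a2 : |v.2| ≤ ‖v‖ := norm_snd_le v
  simp only [bf]
  nlinarith [a p _ _ a1 a1, a q _ _ a1 a2, a s _ _ a2 a2, sq_nonneg ‖v‖]

lemma sc_thick {S : Set P} {v β : P} (h : Thick S v) (hv : v ≠ 0) (hβ : β ≠ 0) :
    ∃ᶠ u in 𝓝 v, (u ∈ S ∧ Thick S u ∧ wed u β ≠ 0) ∧ wed u v ≠ 0 := by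
  rw [frequently_iff]
  intro U hU
  by_contra c
  refine h U hU (measure_eq_zero_iff_ae_notMem.2 ?_)
  filter_upwards [measure_eq_zero_iff_ae_notMem.1 (sc_thin S), sc_line 0 hv, sc_line 0 hβ]
    with u h1 h2 h3 h4
  rw [sub_zero] at h2 h3
  exact c ⟨u, h4.2, ⟨h4.1, by_contra fun k => h1 ⟨h4.1, k⟩, h3⟩, h2⟩

section
variable {O b : P} {p q s k a1 c : ℝ} {N : Set P}

lemma sc_low (pm : PM M d) (hO : O ∈ M)
    (gd : ∀ y ∈ M, y ∉ N → Gd M d F (Qm O b p q s k) (Dm O b p q s k) y)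
    (low : ∀ y ∈ M, y ∉ N → d O y < a1 → ∀ v, c * ‖v‖ ≤ F y v) {v : P} (hv : v ≠ 0)
    (h : volume {t : ℝ | 0 < t ∧ O + t • v ∈ N} = 0) {t t' : ℝ} (t0 : 0 < t) (le : t ≤ t')
    (m : O + t' • v ∈ M) (lt : d O (O + t' • v) < a1) :
    c * ‖v‖ * (t' - t) ≤ d O (O + t' • v) - d O (O + t • v) := by
  have k : ∀ σ τ : ℝ, 0 ≤ σ → σ ≤ τ → O + τ • v ∈ M →
      O + σ • v ∈ M ∧ d O (O + σ • v) ≤ d O (O + τ • v) := fun σ τ s0 h m => by
    rcases h.eq_or_lt with rfl | h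
    · exact ⟨m, le_rfl⟩
    · exact (sc_lt pm hO hv s0 h m).imp id le_of_lt
  have := sc_mono (f := fun τ => d O (O + τ • v)) (m := c * ‖v‖) le
    (fun σ hσ τ hτ h => (k σ τ (t0.le.trans hσ.1) h (k τ t' (t0.le.trans hτ.1) hτ.2 m).1).2)
    measurableSet_Icc subset_rfl ?_
  · rwa [Real.volume_real_Icc_of_le le] at this
  filter_upwards [measure_eq_zero_iff_ae_notMem.1 h] with τ h1 h2
  have τ0 := t0.trans_le h2.1
  obtain ⟨m1, l1⟩ := k τ t' τ0.le h2.2 m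
  have n1 : O + τ • v ∉ N := fun c => h1 ⟨τ0, c⟩
  have g := gd _ m1 n1
  obtain ⟨p', q', s', e1, -⟩ := g.quad
  obtain ⟨L, d1, d2⟩ := sc_grad' pm m1 hO g.isN g.du e1
    (by rw [add_sub_cancel_left]; exact smul_ne_zero τ0.ne' hv)
  refine ⟨_, ?_, sc_lineD d1⟩
  have := g.isN.pos v hv
  rw [d2, add_sub_cancel_left, bf_smul_left, ← e1, g.isN.smul_nonneg τ0.le]
  refine (low _ m1 n1 (l1.trans_lt lt) v).trans_eq ?_
  field_simp

lemma sc_level (hFIN : S_FIN) (pm : PM M d) (hO : O ∈ M) (p0 : 0 < p) (D0 : 0 < p * s - q ^ 2)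
    (mN : MeasurableSet N) (N0 : volume N = 0)
    (gd : ∀ y ∈ M, y ∉ N → Gd M d F (Qm O b p q s k) (Dm O b p q s k) y) (c0 : 0 < c)
    (ex : ∀ a ∈ Ioo 0 a1, ∃ D : Dat, dO D = O ∧ Circ M d D a)
    (el : ∀ y ∈ M, d O y < a1 → 1 / 2 ≤ ell O b y)
    (low : ∀ y ∈ M, y ∉ N → d O y < a1 → ∀ v, c * ‖v‖ ≤ F y v) {y y' : P} (hy : y ∈ M)
    (hy' : y' ∈ M) (e : d O y' = d O y) (h0 : 0 < d O y) (h1 : d O y < a1) :
    gam O b p q s y = gam O b p q s y' := by
  obtain ⟨t, ct, ht⟩ := sc_circ pm hO (a1 := a1) fun a ha => by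
    obtain ⟨D, rfl, ci⟩ := ex a ha
    exact ci.ray
  set U : Set (ℝ × P) := Ioo 0 a1 ×ˢ {0}ᶜ with hU
  have oU : IsOpen U := isOpen_Ioo.prod isOpen_compl_singleton
  set f : ℝ × P → P := fun z => O + t z • z.2 with hf
  have cf : ContinuousOn f U := continuousOn_const.add (ct.smul continuousOn_snd)
  have l0 : ∀ z ∈ U, 1 / 2 ≤ ell O b (f z) := fun z hz =>
    el _ (ht z hz).2.1 ((ht z hz).2.2.trans_lt hz.1.2)
  set G : ℝ × P → ℝ := fun z => gam O b p q s (f z) with hG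
  have cG : ContinuousOn G U := by
    refine ContinuousOn.div (Continuous.comp_continuousOn (g := fun X : P =>
      √(bf p q s (X - O) (X - O))) (by unfold bf; fun_prop) cf)
      ((ell_cont O b).comp_continuousOn cf) fun z hz => ?_
    exact ne_of_gt (by linarith [l0 z hz])
  have mΩ : MeasurableSet {z ∈ U | f z ∉ N} := by
    classical
    have := (cf.measurable_piecewise (continuousOn_const (c := O)) oU.measurableSet) mN.compl
    convert oU.measurableSet.inter this using 1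
    ext z
    exact and_congr_right fun hz => by simp [hz]
  obtain ⟨Z, mZ, z1, z2⟩ := sc_supp mΩ
  obtain ⟨K, K0, hK⟩ := sc_bf_le p q s
  have lip : ∀ v, ∀ τ τ' : ℝ, 0 ≤ τ → 0 ≤ τ' → 1 / 2 ≤ ell O b (O + τ • v) →
      1 / 2 ≤ ell O b (O + τ' • v) → |gam O b p q s (O + τ • v) - gam O b p q s (O + τ' • v)| ≤
        4 * K * ‖v‖ * |τ - τ'| := fun v τ τ' a1 a2 a3 a4 => by
    rw [sc_gam_sub O b v p q s a2 a1 (by linarith) (by linarith), abs_div, abs_mul,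
      abs_of_nonneg (Real.sqrt_nonneg _), abs_of_pos (by positivity : 0 < ell O b _ * ell O b _),
      div_le_iff₀ (by positivity)]
    calc _ ≤ K * ‖v‖ * |τ - τ'| := by gcongr; exact hK v
      _ = 4 * K * ‖v‖ * |τ - τ'| * (1 / 2 * (1 / 2)) := by ring
      _ ≤ _ := by gcongr
  have main : ∀ α β, 0 < α → α < β → β < a1 → ∀ v w : P, v ≠ 0 → w ≠ 0 →
      G (α, v) - G (α, w) ≤ 4 * K / c * (β - α) := by
    intro α β α0 αβ β1 v w v0 w0
    have mu : ∀ a ∈ Icc α β, ∀ u : P, u ≠ 0 → (a, u) ∈ U := fun a ha u hu =>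
      ⟨⟨α0.trans_le ha.1, ha.2.trans_lt β1⟩, hu⟩
    have ia := left_mem_Icc.2 αβ.le
    have ib := right_mem_Icc.2 αβ.le
    have lp : ∀ u : P, u ≠ 0 → volume {t : ℝ | 0 < t ∧ O + t • u ∈ N} = 0 → ∀ x ∈ Icc α β,
        ∀ y ∈ Icc α β, |G (x, u) - G (y, u)| ≤ 4 * K / c * |x - y| := fun u u0 hu x hx y hy => by
      obtain ⟨x1, x2, x3⟩ := ht _ (mu x hx u u0)
      obtain ⟨y1, y2, y3⟩ := ht _ (mu y hy u u0)
      refine (lip u _ _ x1.le y1.le (l0 _ (mu x hx u u0)) (l0 _ (mu y hy u u0))).trans ?_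
      have : c * ‖u‖ * |t (x, u) - t (y, u)| ≤ |x - y| := by
        rcases le_total (t (x, u)) (t (y, u)) with h | h
        · have := sc_low pm hO gd low u0 hu x1 h y2 (y3.trans_lt (hy.2.trans_lt β1))
          rw [abs_sub_comm, abs_of_nonneg (sub_nonneg.2 h), abs_sub_comm]
          exact (this.trans_eq (by rw [x3, y3])).trans (le_abs_self _)
        · have := sc_low pm hO gd low u0 hu y1 h x2 (x3.trans_lt (hx.2.trans_lt β1))
          rw [abs_of_nonneg (sub_nonneg.2 h)]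
          exact (this.trans_eq (by rw [x3, y3])).trans (le_abs_self _)
      calc _ = 4 * K / c * (c * ‖u‖ * |t (x, u) - t (y, u)|) := by field_simp
        _ ≤ _ := by gcongr
    refine sc_count (S := {0}ᶜ) (Θ := {u | u ≠ 0 ∧ volume {t : ℝ | 0 < t ∧ O + t • u ∈ N} = 0 ∧
      volume {a | (a, u) ∈ Z} = 0}) (g1 := fun u => G (α, u)) (g2 := fun u => G (β, u))
      (G := fun u a => G (a, u)) (A := fun u => {a ∈ Icc α β | f (a, u) ∉ N ∧ (a, u) ∉ Z})
      (isConnected_compl_singleton_of_one_lt_rank (by simp [← Module.finrank_eq_rank]) 0).isPreconnected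
      (cG.comp (by fun_prop) (mu α ia)) (cG.comp (by fun_prop) (mu β ib)) (fun u u0 => ?_)
      isOpen_compl_singleton (Measure.dense_of_ae (μ := volume) ?_) αβ.le (by positivity)
      (fun u hu => ?_) (fun u _ a ha => ha.1) (fun u hu x hx y hy => lp u hu.1 hu.2.1 x hx.1 y hy.1)
      (fun u hu => ?_) (fun u hu u' hu' a ha ha' => ?_) v0 w0
    · obtain ⟨x1, x2, x3⟩ := ht _ (mu α ia u u0)
      obtain ⟨y1, -, y3⟩ := ht _ (mu β ib u u0)
      have k1 := sc_lt' pm hO u0 y1.le x2 (by rw [x3, y3]; exact αβ)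
      have k2 := l0 _ (mu α ia u u0)
      have k3 := l0 _ (mu β ib u u0)
      have k4 := Real.sqrt_pos.2 (bf_pos p0 D0 u0)
      rw [← sub_pos]
      refine lt_of_lt_of_eq (div_pos (mul_pos k4 (sub_pos.2 k1)) (mul_pos (by linarith) (by linarith)))
        (sc_gam_sub O b u p q s x1.le y1.le (ne_of_gt (by linarith)) (ne_of_gt (by linarith))).symm
    · filter_upwards [sc_line 0 (β := (1, 0)) (by simp), sc_ray mN N0 O, z1] with u a1 a2 a3
      exact ⟨fun c => a1 (by simp [c, wed]), a2, a3⟩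
    · convert (measurableSet_Icc (a := α) (b := β)).inter
        (measurable_prodMk_right (y := u) (mΩ.diff mZ)) using 1
      ext a
      exact and_congr_right fun ha => ⟨fun h => ⟨⟨mu a ha u hu.1, h.1⟩, h.2⟩, fun h => ⟨h.1.2, h.2⟩⟩
    · have n1 := sc_lip (f := fun a => G (a, u)) (s := Icc α β ∩ {a | (a, u) ∈ Z}) (by positivity)
        fun x hx y hy => lp u hu.1 hu.2.1 x hx.1 y hy.1
      have n2 := sc_lip (f := fun τ : ℝ => gam O b p q s (O + τ • u))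
        (s := {τ | 1 / 2 ≤ ell O b (O + τ • u)} ∩ {t : ℝ | 0 < t ∧ O + t • u ∈ N}) (by positivity)
        fun x hx y hy => lip u x y hx.2.1.le hy.2.1.le hx.1 hy.1
      rw [measure_inter_null_of_null_right _ hu.2.2, mul_zero, nonpos_iff_eq_zero] at n1
      rw [measure_inter_null_of_null_right _ hu.2.1, mul_zero, nonpos_iff_eq_zero] at n2
      refine measure_mono_null (fun x hx => ?_) (measure_union_null n1 n2)
      obtain ⟨a, ha, rfl⟩ := intermediate_value_Icc αβ.le (f := fun a => G (a, u))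
        (cG.comp (by fun_prop) fun a ha => mu a ha u hu.1) hx.1
      by_cases c1 : (a, u) ∈ Z
      · exact Or.inl ⟨a, ⟨ha, c1⟩, rfl⟩
      · refine Or.inr ⟨t (a, u), ⟨l0 _ (mu a ha u hu.1), (ht _ (mu a ha u hu.1)).1, ?_⟩, rfl⟩
        by_contra c2
        exact hx.2 ⟨a, ⟨ha, c2, c1⟩, rfl⟩
    · obtain ⟨D, hD, ci⟩ := ex a (mu a ha.1 u hu.1).1
      have β0 : dB D - O ≠ 0 := fun c => by
        have := ci.eB
        rw [hD, sub_eq_zero.1 c, pm.self hO] at this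
        exact (div_pos ci.a0 ci.r0).ne this
      set T := {w | (a, w) ∈ {z ∈ U | f z ∉ N}} with hT
      have ca : ∀ w : P, w ≠ 0 → ∀ {Y : Type} [TopologicalSpace Y] {g : ℝ × P → Y},
          ContinuousOn g U → Tendsto (fun w => g (a, w)) (𝓝 w) (𝓝 (g (a, w))) := fun w w0 _ _ g cg =>
        (cg.continuousAt (oU.mem_nhds (mu a ha.1 w w0))).tendsto.comp
          ((by fun_prop : Continuous fun w : P => (a, w)).tendsto w)
      have lev := fun C C' => sc_lev1 (F := F) hFIN pm (b := b) (k := k) p0 D0 hD ci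
        (S := (fun w => f (a, w)) '' {w | w ∈ T ∧ Thick T w ∧ wed w (dB D - O) ≠ 0})
        (C := C) (C' := C') (by
          rintro _ ⟨w, ⟨w1, w2, w3⟩, rfl⟩
          obtain ⟨x1, x2, x3⟩ := ht _ w1.1
          refine ⟨gd _ x2 w1.2, x3, ?_, by linarith [l0 _ w1.1], accPt_iff_nhds.2 fun V hV => ?_⟩
          · refine fun c => mul_ne_zero x1.ne' w3 (c.symm.trans ?_).symm
            simp only [hf, wed, add_sub_cancel_left, Prod.smul_fst, Prod.smul_snd, smul_eq_mul]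
            ring
          · obtain ⟨w', ⟨k1, k2⟩, k3⟩ := ((sc_thick w2 w1.1.2 β0).and_eventually
              (ca w w1.1.2 cf hV)).exists
            refine ⟨_, ⟨k3, w', k1, rfl⟩, fun c => mul_ne_zero (ht _ k1.1.1).1.ne' k2 ?_⟩
            have c1 := add_left_cancel c
            have c2 := congrArg Prod.fst c1
            have c3 := congrArg Prod.snd c1
            simp only [wed, Prod.smul_fst, Prod.smul_snd, smul_eq_mul] at c2 c3 ⊢
            linear_combination w.2 * c2 - w.1 * c3)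
      have t1 := sc_thick (z2 a u ⟨mu a ha.1 u hu.1, ha.2.1⟩ ha.2.2) hu.1 β0
      have t2 := sc_thick (z2 a u' ⟨mu a ha.1 u' hu'.1, ha'.2.1⟩ ha'.2.2) hu'.1 β0
      obtain ⟨w, w1, -⟩ := t1.exists
      exact (tendsto_nhds_unique_of_frequently_eq (ca u hu.1 cG) tendsto_const_nhds
        (t1.mono fun x hx => lev _ _ ⟨x, hx.1, rfl⟩ ⟨w, w1, rfl⟩)).trans
        (tendsto_nhds_unique_of_frequently_eq (ca u' hu'.1 cG) tendsto_const_nhds
          (t2.mono fun x hx => lev _ _ ⟨x, hx.1, rfl⟩ ⟨w, w1, rfl⟩)).symm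
  have fin : ∀ v w : P, v ≠ 0 → w ≠ 0 → G (d O y, v) - G (d O y, w) ≤ 0 := fun v w v0 w0 => by
    have : Tendsto (fun β : ℝ => 4 * K / c * (β - d O y)) (𝓝[>] d O y) (𝓝 0) :=
      (Continuous.tendsto' (by fun_prop) _ _ (by simp)).mono_left nhdsWithin_le_nhds
    refine ge_of_tendsto this ?_
    filter_upwards [Ioo_mem_nhdsGT h1] with β hβ using main _ β h0 hβ.1 hβ.2 v w v0 w0
  have id : ∀ x ∈ M, d O x = d O y → x - O ≠ 0 ∧ G (d O y, x - O) = gam O b p q s x := by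
    intro x hx ex
    have x0 : x - O ≠ 0 := fun c => by
      rw [sub_eq_zero.1 c, pm.self hO] at ex
      exact h0.ne ex
    obtain ⟨x1, x2, x3⟩ := ht (d O y, x - O) ⟨⟨h0, h1⟩, x0⟩
    have e1 : O + (1 : ℝ) • (x - O) = x := by simp
    have : t (d O y, x - O) = 1 := by
      rcases lt_trichotomy (t (d O y, x - O)) 1 with h | h | h
      · have := (sc_lt pm hO x0 x1.le h (e1.symm ▸ hx)).2
        rw [e1, x3, ex] at this
        exact this.false.elim
      · exact h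
      · have := (sc_lt pm hO x0 zero_le_one h x2).2
        rw [e1, x3, ex] at this
        exact this.false.elim
    exact ⟨x0, by simp only [hG, hf, this, e1]⟩
  obtain ⟨i1, i2⟩ := id y hy rfl
  obtain ⟨j1, j2⟩ := id y' hy' e
  linarith [fin _ _ i1 j1, fin _ _ j1 i1]

end

end Pool.Agent.P.MP_874adf_gt.Gn
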