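import Pool.Agent.P.MP_874adf_gt.Gn.Iface0
import Pool.Agent.P.MP_874adf_gt.Gn.ScF

/-! Step STEPC. -/

set_option autoImplicit false

namespace Pool.Agent.P.MP_874adf_gt.Gn

open Pool.Agent.P.MP_874adf_gt.Fs Set Filter Topology Metric MeasureTheory

section
variable {M : Set P} {d F : P → P → ℝ}

lemma sc_small (pm : PM M d) {o : P} (ho : o ∈ M) {ρ : ℝ} (ρ0 : 0 < ρ) : ∃ ρ' > (0 : ℝ), ρ' ≤ ρ ∧
    ∃ a > (0 : ℝ), ∀ O ∈ ball o ρ', O ∈ M ∧ ∀ y ∈ M, d O y < a → y ∈ ball o ρ := by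
  obtain ⟨ε, ε0, h1⟩ := pm.near ho ρ0
  obtain ⟨δ, δ0, h2⟩ := Metric.eventually_nhds_iff_ball.1 (pm.ev_lt ho (half_pos ε0))
  refine ⟨min δ ρ, lt_min δ0 ρ0, min_le_right _ _, ε / 2, half_pos ε0, fun O hO => ?_⟩
  obtain ⟨a, b⟩ := h2 O (ball_subset_ball (min_le_left _ _) hO)
  exact ⟨a, fun y hy h => h1 y hy (by linarith [pm.triangle o ho O a y hy])⟩

/-- two points at distance less than `a` have a common point at distance `a` -/
lemma sc_apex (pm : PM M d) {z z' : P} (hz : z ∈ M) (hz' : z' ∈ M) {a a1 : ℝ} (a0 : 0 < a)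
    (lt : a < a1) (ray : ∀ a ∈ Ioo 0 a1, Ray M d z a) (h : d z z' < a) :
    ∃ Y ∈ M, d z Y = a ∧ d z' Y = a := by
  obtain ⟨t, ct, ht⟩ := sc_circ pm hz ray
  have mu : ∀ u ∈ ({0}ᶜ : Set P), (a, u) ∈ Ioo 0 a1 ×ˢ ({0}ᶜ : Set P) := fun u hu => ⟨⟨a0, lt⟩, hu⟩
  rcases eq_or_ne z' z with rfl | ne
  · obtain ⟨-, x2, x3⟩ := ht _ (mu (1, 0) (by simp))
    exact ⟨_, x2, x3, x3⟩
  have v0 : z' - z ≠ 0 := sub_ne_zero.2 ne
  have c1 : ContinuousOn (fun u : P => z + t (a, u) • u) {0}ᶜ :=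
    continuousOn_const.add ((ct.comp (by fun_prop) mu).smul continuousOn_id)
  have c2 : ContinuousOn (fun u : P => d z' (z + t (a, u) • u)) {0}ᶜ :=
    pm.cont.comp (continuousOn_const.prodMk c1) fun u hu => ⟨hz', (ht _ (mu u hu)).2.1⟩
  have e1 : z + (1 : ℝ) • (z' - z) = z' := by simp
  have e0 : z + (0 : ℝ) • (z' - z) = z := by simp
  obtain ⟨u, hu, e⟩ := (isConnected_compl_singleton_of_one_lt_rank
    (by simp [← Module.finrank_eq_rank]) (0 : P)).isPreconnected.intermediate_value v0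
      (neg_ne_zero.2 v0) c2 (show a ∈ Icc _ _ from ⟨by
        obtain ⟨x1, x2, x3⟩ := ht _ (mu _ v0)
        have := pm.line_add (e0.symm ▸ hz) x2 zero_le_one
          (sc_lt' pm hz v0 x1.le (e1.symm ▸ hz') (by rw [e1, x3]; exact h)).le
        rw [e0, e1, x3] at this
        linarith [pm.nonneg hz hz'], by
        obtain ⟨x1, x2, x3⟩ := ht _ (mu _ (neg_ne_zero.2 v0))
        simp only [smul_neg, ← neg_smul] at x2 x3 ⊢
        have := pm.line_add x2 (e1.symm ▸ hz') (neg_nonpos.2 x1.le) zero_le_one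
        rw [e0, e1, pm.symm _ x2 z hz, pm.symm _ x2 z' hz', x3] at this
        linarith [pm.nonneg hz hz']⟩)
  exact ⟨_, (ht _ (mu u hu)).2.1, (ht _ (mu u hu)).2.2, e⟩

lemma sc_iso (pm : PM M d) {o : P} (ho : o ∈ M) {ρ a1 : ℝ} (ρ0 : 0 < ρ) (a0 : 0 < a1)
    {ω : P → P → ℝ} (sym : ∀ x y, ω x y = ω y x)
    (ray : ∀ O ∈ ball o ρ, ∀ a ∈ Ioo 0 a1, Ray M d O a)
    (lev : ∀ O ∈ ball o ρ, ∀ y ∈ M, ∀ y' ∈ M, d O y' = d O y → 0 < d O y → d O y < a1 →
      ω O y = ω O y') : ∃ ρ' > (0 : ℝ), ρ' ≤ ρ ∧ ∃ a > (0 : ℝ), a ≤ a1 ∧ ∀ z ∈ ball o ρ', ∀ y ∈ M,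
        ∀ y' ∈ M, d o y' = d z y → 0 < d z y → d z y < a → ω z y = ω o y' := by
  obtain ⟨ρ', r0, r1, a2, a20, h⟩ := sc_small pm ho ρ0
  refine ⟨ρ', r0, r1, min a2 a1, lt_min a20 a0, min_le_right _ _, fun z hz y hy y' hy' e p l => ?_⟩
  obtain ⟨l1, l2⟩ := lt_min_iff.1 l
  generalize ha : d z y = a at e p l1 l2
  have sb := ball_subset_ball (x := o) r1
  let R : P → P → Prop := fun x x' => x ∈ ball o ρ' ∧ x' ∈ ball o ρ' ∧
    ∀ y ∈ M, ∀ y' ∈ M, d x y = a → d x' y' = a → ω x y = ω x' y'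
  have step : ∀ x ∈ ball o ρ', ∀ x' ∈ ball o ρ', d x x' < a → R x x' := fun x hx x' hx' lt => by
    obtain ⟨Y, y1, y2, y3⟩ := sc_apex pm (h x hx).1 (h x' hx').1 p l2 (ray x (sb hx)) lt
    refine ⟨hx, hx', fun w hw w' hw' e1 e2 => ?_⟩
    have s1 := pm.symm Y y1 x (h x hx).1
    have s2 := pm.symm Y y1 x' (h x' hx').1
    rw [lev x (sb hx) w hw Y y1 (by linarith) (by linarith) (by linarith),
      lev x' (sb hx') w' hw' Y y1 (by linarith) (by linarith) (by linarith), sym x, sym x']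
    exact lev Y ((h x hx).2 Y y1 (by linarith)) x (h x hx).1 x' (h x' hx').1 (by linarith)
      (by linarith) (by linarith)
  have := (convex_ball o ρ').isPreconnected.induction₂' R (fun x hx => ?_)
    (fun x x' x'' _ _ _ h1 h2 => ?_) hz (mem_ball_self r0)
  · exact this.2.2 y hy y' hy' ha e
  · filter_upwards [self_mem_nhdsWithin, mem_nhdsWithin_of_mem_nhds (pm.ev_lt (h x hx).1 p)]
      with x' h1 h2
    exact ⟨step x hx x' h1 h2.2, step x' h1 x hx (pm.symm x (h x hx).1 x' h2.1 ▸ h2.2)⟩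
  · obtain ⟨t, -, t1, t2⟩ := ray x' (sb h1.2.1) a ⟨p, l2⟩ (1, 0) (by simp)
    exact ⟨h1.1, h2.2.1, fun w hw w' hw' e1 e2 =>
      (h1.2.2 w hw _ t1 e1 t2).trans (h2.2.2 _ t1 w' hw' t2 e2)⟩

lemma sc_om {O b y y' : P} {p q s : ℝ} (k : ℝ) (p0 : 0 < p) (D0 : 0 < p * s - q ^ 2)
    (h : gam O b p q s y = gam O b p q s y') (l : ell O b y ≠ 0) (l' : ell O b y' ≠ 0) :
    Qm O b p q s k O (y - O) / (Dm O b p q s k O * Dm O b p q s k y) =
      Qm O b p q s k O (y' - O) / (Dm O b p q s k O * Dm O b p q s k y') := by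
  have e : ∀ x, ell O b x ≠ 0 → Qm O b p q s k O (x - O) / (Dm O b p q s k O * Dm O b p q s k x) =
      gam O b p q s x ^ 2 / (Dm O b p q s k O * (p * s - q ^ 2 + k * gam O b p q s x ^ 2)) := by
    intro x hx
    have e1 : bf p q s (x - O) (x - O) = gam O b p q s x ^ 2 * ell O b x ^ 2 := by
      rw [gam, div_pow, Real.sq_sqrt (bf_nonneg p0 D0 _)]
      field_simp
    have e2 : Qm O b p q s k O (x - O) = bf p q s (x - O) (x - O) := by simp [Qm, wed]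
    rw [e2, Dm.eq_1 O b p q s k x, e1,
      ← mul_div_mul_right (gam O b p q s x ^ 2) _ (pow_ne_zero 2 hx)]
    congr 1
    ring
  rw [e y l, e y' l', h]

lemma sc_Qsmul (o b : P) (p q s k : ℝ) (X v : P) (t : ℝ) :
    Qm o b p q s k X (t • v) = t ^ 2 * Qm o b p q s k X v := by
  simp only [Qm, bf, wed, Prod.fst_add, Prod.snd_add, Prod.smul_fst, Prod.smul_snd, smul_eq_mul]
  ring

lemma sc_omlim {Q : P → P → ℝ} {D : P → ℝ} (hQ : ∀ X v t, Q X (t • v) = t ^ 2 * Q X v)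
    (cD : Continuous D) {x : P} (h : 0 < D x) (v : P) :
    Tendsto (fun t : ℝ => √(Q x (x + t • v - x) / (D x * D (x + t • v))) / t) (𝓝[>] 0)
      (𝓝 (√(Q x v) / D x)) := by
  have c : Tendsto (fun t : ℝ => √(Q x v / (D x * D (x + t • v)))) (𝓝 0) (𝓝 (√(Q x v) / D x)) := by
    have c1 : Tendsto (fun t : ℝ => D x * D (x + t • v)) (𝓝 0) (𝓝 (D x * D x)) :=
      Continuous.tendsto' (by fun_prop) _ _ (by simp)
    have := ((tendsto_const_nhds (x := Q x v)).div c1 (mul_pos h h).ne').sqrt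
    rwa [Real.sqrt_div' _ (mul_pos h h).le, Real.sqrt_mul_self h.le] at this
  refine (c.mono_left nhdsWithin_le_nhds).congr' (eventually_mem_nhdsWithin.mono fun t ht => ?_)
  have t0 : 0 < t := ht
  simp only
  rw [add_sub_cancel_left, hQ, mul_div_assoc, Real.sqrt_mul (sq_nonneg _), Real.sqrt_sq t0.le,
    mul_div_cancel_left₀ _ t0.ne']

lemma sc_fins (pm : PM M d) {o : P} (ho : o ∈ M) {H : P → ℝ} (n : IsN H) (du : DU d o H)
    {Q : P → P → ℝ} {D : P → ℝ} (hQ : ∀ X v t, Q X (t • v) = t ^ 2 * Q X v)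
    (cQ : Continuous fun z : P × P => Q z.1 z.2) (cD : Continuous D) {ρ a : ℝ} (ρ0 : 0 < ρ)
    (a0 : 0 < a) (pos : ∀ x ∈ ball o ρ, x ∈ M ∧ 0 < D x ∧ ∀ v, v ≠ 0 → 0 < Q x v)
    (ray : ∀ r ∈ Ioo 0 a, Ray M d o r)
    (iso : ∀ z ∈ ball o ρ, ∀ y ∈ M, ∀ y' ∈ M, d o y' = d z y → 0 < d z y → d z y < a →
      Q z (y - z) / (D z * D y) = Q o (y' - o) / (D o * D y')) : ∃ F', Fins (ball o ρ) d F' := by
  obtain ⟨-, D0, Q0⟩ := pos o (mem_ball_self ρ0)
  have e0 : ((1, 0) : P) ≠ 0 := by simp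
  have q0 : 0 < √(Q o (1, 0)) / D o := div_pos (Real.sqrt_pos.2 (Q0 _ e0)) D0
  have h0 := n.pos _ e0
  refine ⟨fun x v => H (1, 0) / (√(Q o (1, 0)) / D o) * (√(Q x v) / D x), ?_, fun x hx v hv => ?_,
    fun x hx v => ?_⟩
  · exact continuousOn_const.mul (cQ.sqrt.continuousOn.div (cD.comp continuous_fst).continuousOn
      fun z hz => (pos _ hz.1).2.1.ne')
  · have := Real.sqrt_pos.2 ((pos x hx).2.2 v hv)
    have := (pos x hx).2.1
    positivity
  obtain ⟨mx, Dx, Qx⟩ := pos x hx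
  rcases eq_or_ne v 0 with rfl | hv
  · have : Q x 0 = 0 := by simpa using hQ x 0 0
    simp [this, pm.self mx]
  have ex : ∀ r : ℝ, ∃ τ : ℝ, r ∈ Ioo 0 a →
      0 < τ ∧ o + τ • (1, 0) ∈ M ∧ d o (o + τ • (1, 0)) = r := fun r => by
    by_cases h : r ∈ Ioo 0 a
    · obtain ⟨t, ht⟩ := ray r h _ e0
      exact ⟨t, fun _ => ht⟩
    · exact ⟨0, fun c => (h c).elim⟩
  choose τ hτ using ex
  have c1 : Tendsto (fun t : ℝ => x + t • v) (𝓝[>] 0) (𝓝 x) :=
    (Continuous.tendsto' (by fun_prop) _ _ (by simp)).mono_left nhdsWithin_le_nhds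
  have c2 : Tendsto (fun t : ℝ => d x (x + t • v)) (𝓝[>] 0) (𝓝 0) := by
    have := pm.tendsto mx mx tendsto_const_nhds c1
    rwa [pm.self mx] at this
  have ev : ∀ᶠ t : ℝ in 𝓝[>] 0, x + t • v ∈ M ∧ d x (x + t • v) ∈ Ioo 0 a := by
    filter_upwards [c1.eventually (pm.isOpen.mem_nhds mx), c2.eventually (gt_mem_nhds a0),
      self_mem_nhdsWithin] with t h1 h2 (t0 : 0 < t)
    exact ⟨h1, pm.pos mx h1 fun c => smul_ne_zero t0.ne' hv (left_eq_add.1 c), h2⟩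
  have c3 : Tendsto (fun t : ℝ => τ (d x (x + t • v))) (𝓝[>] 0) (𝓝[>] 0) := by
    refine tendsto_nhdsWithin_iff.2 ⟨?_, ev.mono fun t ht => (hτ _ ht.2).1⟩
    have := pm.tendsto_of_d ho (y := fun t : ℝ => o + τ (d x (x + t • v)) • (1, 0))
      (ev.mono fun t ht => (hτ _ ht.2).2.1) (c2.congr' (ev.mono fun t ht => (hτ _ ht.2).2.2.symm))
    simpa using ((continuous_fst.tendsto o).comp this).sub_const o.1
  have c4 : Tendsto (fun t : ℝ => d o (o + t • (1, 0)) / t) (𝓝[>] 0) (𝓝 (H (1, 0))) := by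
    refine Metric.tendsto_nhds.2 fun ε ε0 => ?_
    filter_upwards [sc_appr n du 1 _ (half_pos ε0), self_mem_nhdsWithin] with t h (t0 : 0 < t)
    have := h 0 (by simp) (1, 0) (by simp [Prod.norm_def])
    simp only [id, smul_zero, add_zero, sub_zero] at this
    rw [Real.dist_eq, div_sub' t0.ne', abs_div, abs_of_pos t0, div_lt_iff₀ t0]
    nlinarith
  have c5 := sc_omlim hQ cD D0 (1, 0)
  refine ((((c4.div c5 q0.ne').comp c3).mul (sc_omlim hQ cD Dx v))).congr' ?_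
  filter_upwards [ev, self_mem_nhdsWithin, c1.eventually (cD.continuousAt.eventually
    (lt_mem_nhds Dx))] with t h (t0 : 0 < t) h2
  obtain ⟨k1, k2, k3⟩ := hτ _ h.2
  have k4 := iso x hx _ h.1 _ k2 k3 h.2.1 h.2.2
  have k5 : 0 < √(Q x (x + t • v - x) / (D x * D (x + t • v))) := by
    rw [add_sub_cancel_left]
    exact Real.sqrt_pos.2 (div_pos (Qx _ (smul_ne_zero t0.ne' hv)) (mul_pos Dx h2))
  simp only [Function.comp, Pi.div_apply]
  rw [← k4, k3]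
  field_simp

end

theorem p_STEPC (hEG : S_EG) (hFIN : S_FIN) :
    S_STEPC := by
  intro M d F pm au ae h1 hq W sub oW ne
  obtain ⟨o, oW', b, p, q, s, k, p0, D0, n, du, gd⟩ := sc_model hEG pm ae h1 hq sub oW ne
  obtain ⟨N, n1, mN, N0⟩ := exists_measurable_superset_of_null (ae_iff.1 gd)
  replace gd : ∀ y ∈ M, y ∉ N → Gd M d F (Qm o b p q s k) (Dm o b p q s k) y := fun y hy hn => by
    by_contra c
    exact hn (n1 fun c2 => c (c2 hy))
  have ho := sub oW'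
  have cQ : Continuous fun z : P × P => Qm o b p q s k z.1 z.2 := by
    unfold Qm bf wed
    fun_prop
  have cD : Continuous (Dm o b p q s k) := by
    unfold Dm bf ell wed
    fun_prop
  have eD : Dm o b p q s k o = p * s - q ^ 2 := by simp [Dm, ell_self, bf]
  have eQ : Qm o b p q s k o (1, 0) = p := by simp [Qm, bf, wed]
  have c1 : Tendsto (fun X => Qm o b p q s k X (1, 0)) (𝓝 o) (𝓝 p) :=
    (cQ.comp (continuous_id.prodMk continuous_const)).tendsto' o p eQ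
  have c2 : Tendsto (Dm o b p q s k) (𝓝 o) (𝓝 (p * s - q ^ 2)) := cD.tendsto' o _ eD
  obtain ⟨ρ1, ρ10, b1⟩ := nhds_basis_closedBall.eventually_iff.1
    ((eventually_mem_set.2 (oW.mem_nhds oW')).and ((c1.eventually (lt_mem_nhds p0)).and
      (c2.eventually (Ioo_mem_nhds (show 6 / 7 * (p * s - q ^ 2) < _ by linarith)
        (show _ < 8 / 7 * (p * s - q ^ 2) by linarith)))))
  have pos : ∀ x ∈ closedBall o ρ1, 0 < Dm o b p q s k x ∧ ∀ v, v ≠ 0 → 0 < Qm o b p q s k x v :=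
    fun x hx => by
      have d0 : 0 < Dm o b p q s k x := by linarith [(b1 hx).2.2.1]
      refine ⟨d0, fun v hv => ?_⟩
      rw [sc_Qbf]
      exact bf_pos (b1 hx).2.1 (by rwa [det_ident]) hv
  obtain ⟨c, c0, low⟩ : ∃ c > (0 : ℝ), ∀ x ∈ closedBall o ρ1, ∀ v : P,
      c * ‖v‖ ≤ √(Qm o b p q s k x v) / Dm o b p q s k x := by
    obtain ⟨z, hz, hm⟩ := ((isCompact_closedBall o ρ1).prod (isCompact_sphere (0 : P) 1)).exists_isMinOn
      ((nonempty_closedBall.2 ρ10.le).prod (NormedSpace.sphere_nonempty.2 zero_le_one))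
      (cQ.sqrt.continuousOn.div (cD.comp continuous_fst).continuousOn fun z hz => (pos _ hz.1).1.ne')
    refine ⟨_, div_pos (Real.sqrt_pos.2 ((pos _ hz.1).2 z.2 fun c => by simpa [c] using hz.2))
      (pos _ hz.1).1, fun x hx v => ?_⟩
    rcases eq_or_ne v 0 with rfl | hv
    · rw [norm_zero, mul_zero]
      exact div_nonneg (Real.sqrt_nonneg _) (pos x hx).1.le
    have v0 : 0 < ‖v‖ := norm_pos_iff.2 hv
    have := hm (a := (x, ‖v‖⁻¹ • v)) ⟨hx, by simp [norm_smul, v0.ne']⟩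
    simp only [mem_ofPred_eq, Pi.div_apply, Function.comp, sc_Qsmul] at this
    rw [Real.sqrt_mul (sq_nonneg _), Real.sqrt_sq (inv_pos.2 v0).le, mul_div_assoc,
      le_inv_mul_iff₀ v0, mul_comm] at this
    exact this
  obtain ⟨ρA, ρA0, aA, aA0, -, ex⟩ := au o ho
  obtain ⟨ρ2, ρ20, le2, a2, a20, sm⟩ := sc_small pm ho (lt_min ρ10 ρA0)
  have in1 : ∀ {y}, y ∈ ball o (min ρ1 ρA) → y ∈ closedBall o ρ1 := fun h =>
    ball_subset_closedBall (ball_subset_ball (min_le_left _ _) h)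
  have ex' : ∀ O ∈ ball o ρ2, ∀ a ∈ Ioo 0 (min a2 aA), ∃ D : Dat, dO D = O ∧ Circ M d D a :=
    fun O hO a ha => ex O (ball_subset_ball (le2.trans (min_le_right _ _)) hO) a ha.1
      (ha.2.trans_le (min_le_right _ _))
  have ray : ∀ O ∈ ball o ρ2, ∀ a ∈ Ioo 0 (min a2 aA), Ray M d O a := fun O hO a ha => by
    obtain ⟨D, rfl, ci⟩ := ex' O hO a ha
    exact ci.ray
  obtain ⟨ρ3, ρ30, le3, a3, a30, la3, iso⟩ := sc_iso pm ho ρ20 (lt_min a20 aA0)
    (ω := fun X Y => Qm o b p q s k X (Y - X) / (Dm o b p q s k X * Dm o b p q s k Y))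
    (fun X Y => by
      rw [mul_comm, ← sc_Qsym, ← neg_sub X Y, ← neg_one_smul ℝ (X - Y), sc_Qsmul, neg_one_sq,
        one_mul]) ray fun O hO y hy y' hy' e l0 l1 => by
      have iO := in1 (ball_subset_ball le2 hO)
      have iy : ∀ y ∈ M, d O y < min a2 aA → y ∈ closedBall o ρ1 := fun y hy h =>
        in1 ((sm O hO).2 y hy (h.trans_le (min_le_left _ _)))
      obtain ⟨b', p', q', s', k', e1, e2, e3, e4⟩ := sc_rebase o b p q s k (pos O iO).1.ne'
      have p0' : 0 < p' := e1 ▸ (b1 iO).2.1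
      have D0' : 0 < p' * s' - q' ^ 2 := e2 ▸ (pos O iO).1
      have el : ∀ y ∈ M, d O y < min a2 aA → 1 / 2 ≤ ell O b' y := fun y hy h => by
        have f1 := sc_ell O b' p' q' s' k' y
        rw [← e4, e2] at f1
        have f2 := (b1 iO).2.2
        have f3 := (b1 (iy y hy h)).2.2
        have f4 := (b1 ((convex_closedBall o ρ1).add_smul_sub_mem iO (iy y hy h) (t := 1 / 2)
          ⟨by norm_num, by norm_num⟩)).2.2
        refine le_of_mul_le_mul_left ?_ (pos O iO).1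
        linarith [f2.2, f3.2, f4.1]
      simp only [e3, e4] at gd ⊢
      refine sc_om k' p0' D0' (sc_level hFIN pm (sm O hO).1 p0' D0' mN N0 gd c0 (ex' O hO) el
        (fun z hz zN h v => (low z (iy z hz h) v).trans_eq ?_) hy hy' e l0 l1)
        (ne_of_gt (by linarith [el y hy l1])) (ne_of_gt (by linarith [el y' hy' (e ▸ l1)]))
      have g := gd z hz zN
      rw [e3, e4, ← g.eq, Real.sqrt_sq (mul_nonneg g.pos.le (g.isN.nonneg v)),
        mul_div_cancel_left₀ _ g.pos.ne']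
  have in3 : ∀ {y}, y ∈ ball o ρ3 → y ∈ closedBall o ρ1 := fun h =>
    in1 (ball_subset_ball (le3.trans le2) h)
  exact ⟨ball o ρ3, fun y hy => (b1 (in3 hy)).1, isOpen_ball, ⟨o, mem_ball_self ρ30⟩,
    sc_fins pm ho n du (sc_Qsmul o b p q s k) cQ cD ρ30 a30
      (fun x hx => ⟨sub (b1 (in3 hx)).1, pos x (in3 hx)⟩)
      (fun r hr => ray o (mem_ball_self ρ20) r ⟨hr.1, hr.2.trans_le la3⟩) iso⟩

end Pool.Agent.P.MP_874adf_gt.Gn
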