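import Pool.Agent.P.MP_874adf_gt.Gn.CraC

/-! Monotone functions of two variables are differentiable almost everywhere; tangent seminorms
of the Crofton integrals. -/

set_option autoImplicit false

namespace Pool.Agent.P.MP_874adf_gt.Gn

open Pool.Agent.P.MP_874adf_gt.Fs Set Filter Topology Metric MeasureTheory

theorem t1_mono {f : P → ℝ} {U : Set P} (hU : IsOpen U) (cf : ContinuousOn f U)
    (mono : ∀ y ∈ U, ∀ z ∈ U, 3 * |z.2 - y.2| ≤ z.1 - y.1 → f y ≤ f z) :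
    ∀ᵐ y : P, y ∈ U → DifferentiableAt ℝ f y := by
  rcases U.eq_empty_or_nonempty with rfl | ⟨y0, -⟩
  · simp
  set Φ : P → P := fun y => (y.1 + f y, y.2) with hΦ
  have lip : ∀ y ∈ U, ∀ z ∈ U, f y - f z ≤ 4 * dist (Φ y) (Φ z) := fun y hy z hz => by
    by_contra c
    rw [not_le] at c
    have h1 : |y.1 + f y - (z.1 + f z)| ≤ dist (Φ y) (Φ z) := le_max_left _ _
    have h2 : |y.2 - z.2| ≤ dist (Φ y) (Φ z) := le_max_right _ _
    have h3 := mono y hy z hz (by rw [abs_sub_comm]; linarith [le_abs_self (y.1 + f y - (z.1 + f z))])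
    linarith [dist_nonneg (x := Φ y) (y := Φ z)]
  have l0 : LipschitzOnWith 4 (fun w => f (Function.invFunOn Φ U w)) (Φ '' U) := by
    refine LipschitzOnWith.of_le_add_mul _ fun w hw w' hw' => ?_
    have := lip _ (Function.invFunOn_mem hw) _ (Function.invFunOn_mem hw')
    rw [Function.invFunOn_eq hw, Function.invFunOn_eq hw'] at this
    push_cast
    linarith
  obtain ⟨g, lg, eg⟩ := l0.extend_real
  have gf : ∀ y ∈ U, g (Φ y) = f y := fun y hy => by
    have hw : ∃ a ∈ U, Φ a = Φ y := ⟨y, hy, rfl⟩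
    have h1 := lip _ (Function.invFunOn_mem hw) y hy
    have h2 := lip y hy _ (Function.invFunOn_mem hw)
    rw [Function.invFunOn_eq hw, dist_self] at h1 h2
    rw [← eg ⟨y, hy, rfl⟩]
    simp only
    linarith
  set Ψ : P → P := fun w => (w.1 - g w, w.2) with hΨ
  have lΨ : ∃ K, LipschitzWith K Ψ := ⟨_, (LipschitzWith.prod_fst.sub lg).prodMk LipschitzWith.prod_snd⟩
  obtain ⟨K, lΨ⟩ := lΨ
  have inv : ∀ y ∈ U, Ψ (Φ y) = y := fun y hy => by
    simp only [hΨ, gf y hy]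
    simp [hΦ]
  have n1 : volume (Ψ '' {w | ¬ DifferentiableAt ℝ Ψ w}) = 0 := by
    have := lΨ.hausdorffMeasure_image_le (d := 2) zero_le_two {w | ¬ DifferentiableAt ℝ Ψ w}
    rw [hausdorffMeasure_prod_real, ae_iff.1 lΨ.ae_differentiableAt, mul_zero] at this
    exact nonpos_iff_eq_zero.1 this
  have n2 : volume (Ψ '' {w | DifferentiableAt ℝ Ψ w ∧ (fderiv ℝ Ψ w).det = 0}) = 0 :=
    addHaar_image_eq_zero_of_det_fderivWithin_eq_zero volume (f' := fderiv ℝ Ψ)
      (fun w hw => hw.1.hasFDerivAt.hasFDerivWithinAt) fun w hw => hw.2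
  filter_upwards [measure_eq_zero_iff_ae_notMem.1 n1, measure_eq_zero_iff_ae_notMem.1 n2]
    with y h1 h2 hy
  have d1 : DifferentiableAt ℝ Ψ (Φ y) := by
    by_contra c
    exact h1 ⟨Φ y, c, inv y hy⟩
  have d2 : (fderiv ℝ Ψ (Φ y)).det ≠ 0 := fun c => h2 ⟨Φ y, ⟨d1, c⟩, inv y hy⟩
  have cΦ : ContinuousAt Φ y :=
    (continuousAt_fst.add (cf.continuousAt (hU.mem_nhds hy))).prodMk continuousAt_snd
  have d3 := HasFDerivAt.of_local_left_inverse
    (f' := (fderiv ℝ Ψ (Φ y)).toContinuousLinearEquivOfDetNeZero d2) cΦ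
    (by simpa using d1.hasFDerivAt) ((hU.eventually_mem hy).mono inv)
  have d4 := d3.differentiableAt.fst.sub (differentiableAt_fst (p := y))
  refine d4.congr_of_eventuallyEq (Eventually.of_forall fun z => ?_)
  simp [hΦ]

theorem t1_lim {d : P → P → ℝ} {x : P}
    (h : ∀ ε > (0 : ℝ), ∃ G, IsS G ∧ ∃ δ > (0 : ℝ), Near d G x ε δ) : ∃ G, IsS G ∧ DU d x G := by
  have cmp : ∀ {G G' : P → ℝ} {ε ε' δ δ' : ℝ}, IsS G → IsS G' → 0 < δ → 0 < δ' → Near d G x ε δ →
      Near d G' x ε' δ' → ∀ v, |G v - G' v| ≤ (ε + ε') * ‖v‖ := by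
    intro G G' ε ε' δ δ' s s' d0 d0' n n' v
    rcases eq_or_ne v 0 with rfl | v0
    · have a := s.smul 0 0
      have b := s'.smul 0 0
      simp only [zero_smul, abs_zero, zero_mul] at a b
      simp [a, b]
    have p : 0 < ‖v‖ := norm_pos_iff.2 v0
    have m0 : 0 < min δ δ' := lt_min d0 d0'
    set t := min δ δ' / ‖v‖ with ht
    have t0 : 0 < t := div_pos m0 p
    have e : min δ δ' = t * ‖v‖ := by rw [ht]; field_simp
    have m : x + t • v ∈ closedBall x (min δ δ') := by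
      rw [mem_closedBall, dist_self_add_left, norm_smul, Real.norm_of_nonneg t0.le, e]
    have a := n _ m0 (min_le_left _ _) x (mem_closedBall_self m0.le) _ m
    have b := n' _ m0 (min_le_right _ _) x (mem_closedBall_self m0.le) _ m
    rw [add_sub_cancel_left, s.smul, abs_of_pos t0, e, abs_le] at a
    rw [add_sub_cancel_left, s'.smul, abs_of_pos t0, e, abs_le] at b
    refine le_of_mul_le_mul_left ?_ t0
    rw [← abs_of_pos t0, ← abs_mul, abs_of_pos t0, abs_le]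
    constructor <;> linarith [a.1, a.2, b.1, b.2]
  choose G sG δ δ0 nG using fun n : ℕ => h (1 / ((n : ℝ) + 1)) (by positivity)
  have t0 : Tendsto (fun n : ℕ => 1 / ((n : ℝ) + 1)) atTop (𝓝 0) :=
    tendsto_one_div_add_atTop_nhds_zero_nat
  have cau : ∀ v, ∃ c, Tendsto (fun n => G n v) atTop (𝓝 c) := fun v => by
    refine cauchySeq_tendsto_of_complete (cauchySeq_of_le_tendsto_0
      (fun N : ℕ => (1 / ((N : ℝ) + 1) + 1 / ((N : ℝ) + 1)) * ‖v‖) (fun n m N h1 h2 => ?_)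
      (by simpa using (t0.add t0).mul_const ‖v‖))
    refine (cmp (sG n) (sG m) (δ0 n) (δ0 m) (nG n) (nG m) v).trans ?_
    gcongr
  choose H hH using cau
  refine ⟨H, ⟨fun t v => tendsto_nhds_unique (hH _) ?_, fun v w =>
    le_of_tendsto_of_tendsto' (hH _) ((hH v).add (hH w)) fun n => (sG n).add v w⟩, fun ε hε => ?_⟩
  · simpa only [(sG _).smul] using (hH v).const_mul |t|
  obtain ⟨G', s', δ', d0, n'⟩ := h (ε / 3) (by positivity)
  refine ⟨δ', d0, fun s s0 s1 y hy z hz => ?_⟩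
  have a := n' s s0 s1 y hy z hz
  have b : |H (z - y) - G' (z - y)| ≤ (0 + ε / 3) * ‖z - y‖ :=
    le_of_tendsto_of_tendsto' ((hH _).sub_const _).abs ((t0.add_const _).mul_const _)
      fun n => cmp (sG n) s' (δ0 n) d0 (nG n) n' _
  have c : ‖z - y‖ ≤ 2 * s := by
    rw [← dist_eq_norm]
    linarith [dist_triangle_right z y x, mem_closedBall.1 hy, mem_closedBall.1 hz]
  rw [abs_le] at a b ⊢
  constructor <;> nlinarith [a.1, a.2, b.1, b.2]

/-- the lines with slope in a window that pass on the left of a point -/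
def t1S (a b : ℝ) (y : P) : Set (ℝ × ℝ) := {l | l.1 < pr l.2 y} ∩ {l | l.2 ∈ Ico a b}

lemma t1_win (a b : ℝ) : MeasurableSet {l : ℝ × ℝ | l.2 ∈ Ico a b} := measurable_snd measurableSet_Ico

lemma t1_lt (y : P) : MeasurableSet {l : ℝ × ℝ | l.1 < pr l.2 y} :=
  measurableSet_lt measurable_fst (by unfold pr; fun_prop)

lemma t1S_meas (a b : ℝ) (y : P) : MeasurableSet (t1S a b y) := (t1_lt y).inter (t1_win a b)

lemma t1_sum (ν : Measure (ℝ × ℝ)) [IsFiniteMeasure ν] {S : Set (ℝ × ℝ)} (hS : MeasurableSet S)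
    (a : ℝ) {η : ℝ} (hη : 0 ≤ η) (n : ℕ) :
    ∑ j ∈ Finset.range n, ν.real (S ∩ {l | l.2 ∈ Ico (a + j * η) (a + (j + 1) * η)}) =
      ν.real (S ∩ {l | l.2 ∈ Ico a (a + n * η)}) := by
  induction n with
  | zero => simp
  | succ n ih =>
    rw [Finset.sum_range_succ, ih, ← measureReal_union _ (hS.inter (t1_win _ _)),
      ← inter_union_distrib_left]
    · congr 2
      ext l
      have p : 0 ≤ n * η := by positivity
      have := Set.ext_iff.1 (Ico_union_Ico_eq_Ico (a := a) (b := a + n * η) (c := a + (n + 1) * η)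
        (by linarith) (by linarith)) l.2
      push_cast
      exact this
    · exact disjoint_left.2 fun l h h' => (not_le.2 h.2.2) h'.2.1

lemma t1_symm (a b : ℝ) (u w : P) :
    sp u w ∩ {l | l.2 ∈ Ico a b} = symmDiff (t1S a b u) (t1S a b w) := by
  ext l
  simp only [sp, t1S, mem_inter_iff, mem_ofPred_eq, mem_symmDiff]
  tauto

lemma t1_abs (ν : Measure (ℝ × ℝ)) [IsFiniteMeasure ν] (a b : ℝ) (u w : P) :
    |ν.real (t1S a b w) - ν.real (t1S a b u)| ≤ ν.real (sp u w ∩ {l | l.2 ∈ Ico a b}) := by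
  rw [t1_symm, symmDiff_comm]
  exact abs_measureReal_sub_le_measureReal_symmDiff (t1S_meas _ _ _).nullMeasurableSet
    (t1S_meas _ _ _).nullMeasurableSet

lemma t1_window (ν : Measure (ℝ × ℝ)) [IsFiniteMeasure ν] {a b η ρ : ℝ} (hb : b = a + η) {u w : P}
    (h : η * |w.2 - u.2| ≤ ρ) (hρ : 0 ≤ ρ) :
    ν.real (sp u w ∩ {l | l.2 ∈ Ico a b}) ≤ |ν.real (t1S a b w) - ν.real (t1S a b u)| +
      (ν.real (t1S a b (u.1 + ρ, u.2)) - ν.real (t1S a b (u.1 - ρ, u.2))) := by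
  have ss : t1S a b (u.1 - ρ, u.2) ⊆ t1S a b (u.1 + ρ, u.2) := fun l hl => ⟨by
    have : l.1 < u.1 - ρ - l.2 * u.2 := hl.1
    change l.1 < u.1 + ρ - l.2 * u.2
    linarith, hl.2⟩
  have e0 := measureReal_mono (μ := ν) ss
  rw [t1_symm]
  by_cases c1 : ∀ θ ∈ Ico a b, pr θ u ≤ pr θ w
  · have s1 : t1S a b u ⊆ t1S a b w := fun l hl => ⟨lt_of_lt_of_le hl.1 (c1 _ hl.2), hl.2⟩
    rw [symmDiff_of_le s1, measureReal_sdiff s1 (t1S_meas _ _ _)]
    linarith [le_abs_self (ν.real (t1S a b w) - ν.real (t1S a b u))]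
  by_cases c2 : ∀ θ ∈ Ico a b, pr θ w ≤ pr θ u
  · have s1 : t1S a b w ⊆ t1S a b u := fun l hl => ⟨lt_of_lt_of_le hl.1 (c2 _ hl.2), hl.2⟩
    rw [symmDiff_of_ge s1, measureReal_sdiff s1 (t1S_meas _ _ _)]
    linarith [neg_abs_le (ν.real (t1S a b w) - ν.real (t1S a b u))]
  push Not at c1 c2
  obtain ⟨θ1, m1, c1⟩ := c1
  obtain ⟨θ2, m2, c2⟩ := c2
  have bd : ∀ θ ∈ Ico a b, ∀ θ' ∈ Ico a b, (θ - θ') * (w.2 - u.2) ≤ ρ := fun θ m θ' m' => by
    refine (le_abs_self _).trans (le_trans ?_ h)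
    rw [abs_mul]
    refine mul_le_mul_of_nonneg_right (abs_le.2 ⟨?_, ?_⟩) (abs_nonneg _) <;>
      linarith [m.1, m.2, m'.1, m'.2]
  rw [← measureReal_sdiff ss (t1S_meas _ _ _)]
  refine le_trans (measureReal_mono fun l hl => ?_) (le_add_of_nonneg_left (abs_nonneg _))
  simp only [t1S, pr, mem_symmDiff, mem_inter_iff, mem_ofPred_eq, Set.mem_sdiff] at hl c1 c2 ⊢
  rcases hl with ⟨⟨q1, q2⟩, q3⟩ | ⟨⟨q1, q2⟩, q3⟩
  · have q4 := not_lt.1 fun c => q3 ⟨c, q2⟩
    have := bd _ q2 _ m2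
    exact ⟨⟨by linarith, q2⟩, fun c => by linarith [c.1]⟩
  · have q4 := not_lt.1 fun c => q3 ⟨c, q2⟩
    have := bd _ m1 _ q2
    exact ⟨⟨by linarith, q2⟩, fun c => by linarith [c.1]⟩

lemma t1_der {f : P → ℝ} {y : P} (h : DifferentiableAt ℝ f y) {ε : ℝ} (hε : 0 < ε) :
    ∀ᶠ δ in 𝓝[>] (0 : ℝ), ∀ s ≤ δ, ∀ u ∈ closedBall y s, ∀ w ∈ closedBall y s,
      |f w - f u - fderiv ℝ f y (w - u)| ≤ ε * s := by
  obtain ⟨δ, δ0, hδ⟩ := Metric.nhds_basis_closedBall.mem_iff.1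
    (h.hasFDerivAt.isLittleO.def (half_pos hε))
  filter_upwards [Ioo_mem_nhdsGT δ0] with r hr s hs u hu w hw
  have sub := closedBall_subset_closedBall (x := y) (hs.trans hr.2.le)
  have a : |f u - f y - fderiv ℝ f y (u - y)| ≤ ε / 2 * ‖u - y‖ := hδ (sub hu)
  have b : |f w - f y - fderiv ℝ f y (w - y)| ≤ ε / 2 * ‖w - y‖ := hδ (sub hw)
  rw [mem_closedBall, dist_eq_norm] at hu hw
  have a' := mul_le_mul_of_nonneg_left hu (half_pos hε).le
  have b' := mul_le_mul_of_nonneg_left hw (half_pos hε).le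
  rw [map_sub, abs_le] at a b ⊢
  constructor <;> linarith [a.1, a.2, b.1, b.2]

theorem t1_one (ν : Measure (ℝ × ℝ)) [IsFiniteMeasure ν] (n0 : ν {l | 2 < |l.2|} = 0) {U : Set P}
    (hU : IsOpen U) (ct : ∀ y ∈ U, Tendsto (fun z => ν.real (sp y z)) (𝓝 y) (𝓝 0)) :
    ∀ᵐ y : P, y ∈ U → ∀ ε > (0 : ℝ), ∃ G, IsS G ∧ ∃ δ > (0 : ℝ),
      Near (fun a b => ν.real (sp a b)) G y ε δ := by
  have df : ∀ a b : ℝ, ∀ᵐ y : P, -3 ≤ a → b ≤ 3 →
      y ∈ U → DifferentiableAt ℝ (fun y => ν.real (t1S a b y)) y := by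
    intro a b
    by_cases ha : -3 ≤ a
    swap
    · simp [ha]
    by_cases hb : b ≤ 3
    swap
    · simp [hb]
    simp only [ha, hb, forall_true_left]
    refine t1_mono hU (fun y hy => ContinuousAt.continuousWithinAt ?_) fun y _ z _ h =>
      measureReal_mono fun l hl => ⟨?_, hl.2⟩
    · rw [ContinuousAt, tendsto_iff_dist_tendsto_zero]
      refine squeeze_zero (fun _ => dist_nonneg) (fun z => ?_) (ct y hy)
      exact (t1_abs ν a b y z).trans (measureReal_mono inter_subset_left)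
    · have h1 : -(l.2 * (y.2 - z.2)) ≤ 3 * |z.2 - y.2| := by
        refine (neg_le_abs _).trans ?_
        rw [abs_mul, abs_sub_comm]
        exact mul_le_mul_of_nonneg_right (abs_le.2 ⟨by linarith [hl.2.1], by linarith [hl.2.2]⟩)
          (abs_nonneg _)
      have h2 : l.1 < y.1 - l.2 * y.2 := hl.1
      change l.1 < z.1 - l.2 * z.2
      linarith
  set η : ℕ → ℝ := fun N => 1 / ((N : ℝ) + 1) with hη
  have η0 : ∀ N, 0 < η N := fun N => by positivity
  have η5 : ∀ N, -2 + ((5 * (N + 1) : ℕ) : ℝ) * η N = 3 := fun N => by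
    simp only [hη]; push_cast; field_simp; ring
  filter_upwards [df (-2) 3, ae_all_iff.2 fun N : ℕ => ae_all_iff.2 fun j : ℕ =>
    df (-2 + j * η N) (-2 + (j + 1) * η N)] with y d0 d1 hy ε hε
  replace d0 := d0 (by norm_num) le_rfl hy
  set A := fderiv ℝ (fun y => ν.real (t1S (-2) 3 y)) y with hA
  obtain ⟨N, hN⟩ := (((tendsto_one_div_add_atTop_nhds_zero_nat (𝕜 := ℝ)).mul_const (4 * ‖A‖)).eventually
    (gt_mem_nhds (show 0 * (4 * ‖A‖) < ε / 3 by rw [zero_mul]; positivity))).exists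
  change η N * (4 * ‖A‖) < ε / 3 at hN
  have η1 : η N ≤ 1 := (div_le_one (by positivity)).2 (by linarith [Nat.cast_nonneg (α := ℝ) N])
  set n := 5 * (N + 1) with hn
  have n0' : (0 : ℝ) < n := by rw [hn]; positivity
  set m : ℕ → P → ℝ := fun j y => ν.real (t1S (-2 + j * η N) (-2 + (j + 1) * η N) y) with hm
  have dm : ∀ j ∈ Finset.range n, DifferentiableAt ℝ (m j) y := fun j hj => by
    refine d1 N j (by have := η0 N; have : 0 ≤ j * η N := by positivity
                      linarith) ?_ hy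
    rw [← η5 N]
    have : (j : ℝ) + 1 ≤ (n : ℕ) := by exact_mod_cast Finset.mem_range.1 hj
    have := mul_le_mul_of_nonneg_right this (η0 N).le
    linarith
  refine ⟨fun v => ∑ j ∈ Finset.range n, |fderiv ℝ (m j) y v|, ⟨fun t v => ?_, fun v w => ?_⟩, ?_⟩
  · simp only [map_smul, smul_eq_mul, abs_mul, Finset.mul_sum]
  · rw [← Finset.sum_add_distrib]
    exact Finset.sum_le_sum fun j _ => by rw [map_add]; exact abs_add_le _ _
  obtain ⟨δ, ⟨e1, e2⟩, δ0⟩ := (((t1_der d0 (show 0 < ε / 9 by positivity)).and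
    ((eventually_all_finset (Finset.range n)).2 fun j hj =>
      t1_der (dm j hj) (show 0 < ε / (3 * n) by positivity))).and self_mem_nhdsWithin).exists
  have δ0' : 0 < δ := δ0
  refine ⟨δ / 3, by positivity, fun s s0 s1 u hu w hw => ?_⟩
  set ρ := η N * (2 * s) with hρ
  have ρ0 : 0 ≤ ρ := by have := η0 N; positivity
  have ρ1 : ρ ≤ 2 * s := mul_le_of_le_one_left (by positivity) η1
  have wu : |w.2 - u.2| ≤ 2 * s := by
    have h1 : |w.2 - u.2| ≤ dist w u := le_max_right _ _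
    linarith [dist_triangle_right w u y, mem_closedBall.1 hu, mem_closedBall.1 hw]
  have mb : ∀ t : ℝ, |t| ≤ 2 * s → ((u.1 + t, u.2) : P) ∈ closedBall y (3 * s) := fun t ht => by
    have h1 : dist ((u.1 + t, u.2) : P) u = |t| := by simp [Prod.dist_eq]
    have := dist_triangle ((u.1 + t, u.2) : P) u y
    rw [mem_closedBall] at hu ⊢
    linarith
  have b1 := e1 (3 * s) (by linarith) _ (mb (-ρ) (by rwa [abs_neg, abs_of_nonneg ρ0])) _
    (mb ρ (by rwa [abs_of_nonneg ρ0]))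
  have b2 : A ((u.1 + ρ, u.2) - (u.1 + -ρ, u.2)) ≤ ‖A‖ * (2 * ρ) := by
    refine (le_abs_self _).trans ((A.le_opNorm _).trans_eq ?_)
    congr 1
    simp only [Prod.mk_sub_mk, sub_self, Prod.norm_mk, norm_zero, Real.norm_eq_abs]
    rw [max_eq_left (abs_nonneg _), show u.1 + ρ - (u.1 + -ρ) = 2 * ρ by ring,
      abs_of_nonneg (by positivity)]
  have tot : ∀ z : P, ∑ j ∈ Finset.range n, m j z = ν.real (t1S (-2) 3 z) := fun z => by
    have := t1_sum ν (t1_lt z) (-2) (η0 N).le n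
    rwa [η5 N] at this
  have all : ν.real (sp u w) = ∑ j ∈ Finset.range n,
      ν.real (sp u w ∩ {l | l.2 ∈ Ico (-2 + j * η N) (-2 + (j + 1) * η N)}) := by
    rw [t1_sum ν (cra_sp_meas u w) (-2) (η0 N).le n, η5 N]
    refine measureReal_congr ?_
    filter_upwards [measure_eq_zero_iff_ae_notMem.1 n0] with l hl
    have := abs_le.1 (not_lt.1 hl)
    exact propext (and_iff_left ⟨this.1, by linarith [this.2]⟩).symm
  have lo : ∑ j ∈ Finset.range n, (|fderiv ℝ (m j) y (w - u)| - ε / (3 * n) * s) ≤ ν.real (sp u w) := by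
    rw [all]
    refine Finset.sum_le_sum fun j hj => le_trans ?_ (t1_abs ν _ _ u w)
    have := e2 j hj s (by linarith) u hu w hw
    rw [abs_sub_comm] at this
    linarith [abs_sub_abs_le_abs_sub (fderiv ℝ (m j) y (w - u)) (m j w - m j u)]
  have up : ν.real (sp u w) ≤ ∑ j ∈ Finset.range n, (|fderiv ℝ (m j) y (w - u)| + ε / (3 * n) * s +
      (m j (u.1 + ρ, u.2) - m j (u.1 - ρ, u.2))) := by
    rw [all]
    refine Finset.sum_le_sum fun j hj => (t1_window ν (η := η N) (ρ := ρ) (by ring)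
      (mul_le_mul_of_nonneg_left wu (η0 N).le) ρ0).trans ?_
    have := e2 j hj s (by linarith) u hu w hw
    linarith [abs_sub_abs_le_abs_sub (m j w - m j u) (fderiv ℝ (m j) y (w - u))]
  have cn : ∑ _j ∈ Finset.range n, ε / (3 * n) * s = ε / 3 * s := by
    rw [Finset.sum_const, Finset.card_range, nsmul_eq_mul]; field_simp
  rw [Finset.sum_sub_distrib, cn] at lo
  rw [Finset.sum_add_distrib, Finset.sum_add_distrib, Finset.sum_sub_distrib, cn, tot, tot,
    sub_eq_add_neg u.1 ρ] at up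
  have b3 : ‖A‖ * (2 * ρ) ≤ ε / 3 * s := by
    have := mul_le_mul_of_nonneg_right hN.le s0.le
    rw [hρ]; linarith
  have : 0 < ε * s := by positivity
  rw [abs_le] at b1 ⊢
  constructor <;> linarith [b1.2]

end Pool.Agent.P.MP_874adf_gt.Gn
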