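import Pool.Agent.P.MP_874adf_gt.Gn.Iface0
import Pool.Agent.P.MP_874adf_gt.Gn.T1a

/-! Step T1. -/

set_option autoImplicit false

namespace Pool.Agent.P.MP_874adf_gt.Gn

open Pool.Agent.P.MP_874adf_gt.Fs Set Filter Topology Metric MeasureTheory

theorem p_T1 (hCRA : S_CRA) :
    S_T1 := by
  classical
  intro M d pm
  suffices h : ∀ᵐ y : P, y ∈ M → ∃ G, IsS G ∧ DU d y G by
    refine ⟨fun y => if h : ∃ G, IsS G ∧ DU d y G then h.choose else 0, ?_⟩
    filter_upwards [h] with y hy my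
    simp only [dif_pos (hy my)]
    exact (hy my).choose_spec
  rw [ae_iff]
  refine measure_null_of_locally_null _ fun x hx => ?_
  have mx : x ∈ M := (Classical.not_imp.1 hx).1
  obtain ⟨ρ, ρ0, sub, μ1, μ2, f1, f2, n1, n2, e⟩ := hCRA M d pm x mx
  refine ⟨_, inter_mem_nhdsWithin _ (ball_mem_nhds x ρ0), ?_⟩
  have c0 : ∀ y ∈ ball x ρ, Tendsto (fun z => d y z) (𝓝 y) (𝓝 0) := fun y hy => by
    have := pm.tendsto (sub hy) (sub hy) (tendsto_const_nhds (f := 𝓝 y)) tendsto_id
    rwa [pm.self (sub hy)] at this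
  have a1 := t1_one μ1 n1 (isOpen_ball (x := x) (ε := ρ)) fun y hy =>
    squeeze_zero' (Eventually.of_forall fun _ => measureReal_nonneg)
      ((isOpen_ball.eventually_mem hy).mono fun z hz => by
        rw [e y hy z hz]; exact le_add_of_nonneg_right measureReal_nonneg) (c0 y hy)
  have a2 := t1_one μ2 n2 ((isOpen_ball (x := x) (ε := ρ)).preimage continuous_swap) fun y hy =>
    squeeze_zero' (Eventually.of_forall fun _ => measureReal_nonneg)
      ((((isOpen_ball (x := x) (ε := ρ)).preimage continuous_swap).eventually_mem hy).mono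
        fun z hz => by
          rw [Function.comp_apply, e _ hy _ hz]; exact le_add_of_nonneg_left measureReal_nonneg)
      ((c0 _ hy).comp (continuous_swap.tendsto y))
  have a3 := (Measure.measurePreserving_swap (μ := (volume : Measure ℝ))
    (ν := (volume : Measure ℝ))).quasiMeasurePreserving.ae a2
  refine measure_eq_zero_iff_ae_notMem.2 ?_
  filter_upwards [a1, a3] with y h1 h2 ⟨h3, hy⟩
  refine h3 fun _ => t1_lim fun ε hε => ?_
  obtain ⟨G1, s1, δ1, d1, g1⟩ := h1 hy (ε / 2) (half_pos hε)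
  obtain ⟨G2, s2, δ2, d2, g2⟩ := h2 hy (ε / 2) (half_pos hε)
  obtain ⟨δ3, d3, g3⟩ := Metric.nhds_basis_closedBall.mem_iff.1 (isOpen_ball.mem_nhds hy)
  refine ⟨fun v => G1 v + G2 v.swap, ⟨fun t v => ?_, fun v w => ?_⟩, min δ1 (min δ2 δ3),
    by positivity, fun s s0 hs u hu w hw => ?_⟩
  · have := s2.smul t v.swap
    rw [s1.smul, mul_add, ← this]
    rfl
  · have : G2 (v + w).swap ≤ G2 v.swap + G2 w.swap := s2.add v.swap w.swap
    linarith [s1.add v w]
  simp only [le_min_iff] at hs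
  have sw : ∀ u ∈ closedBall y s, u.swap ∈ closedBall y.swap s := fun u hu => by
    simpa only [mem_closedBall, Prod.dist_eq, Prod.fst_swap, Prod.snd_swap, max_comm] using hu
  have b1 := g1 s s0 hs.1 u hu w hw
  have b2 : |μ2.real (sp u.swap w.swap) - G2 (w - u).swap| ≤ ε / 2 * s :=
    g2 s s0 hs.2.1 _ (sw u hu) _ (sw w hw)
  rw [e u (g3 (closedBall_subset_closedBall hs.2.2 hu)) w
    (g3 (closedBall_subset_closedBall hs.2.2 hw))]
  rw [abs_le] at b1 b2 ⊢
  constructor <;> linarith [b1.1, b1.2, b2.1, b2.2]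

end Pool.Agent.P.MP_874adf_gt.Gn
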