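import Pool.Agent.P.MP_874adf_gt.Gn.T2c
import Pool.Agent.P.MP_874adf_gt.Gn.TAFF

/-! Step T2. -/

set_option autoImplicit false

namespace Pool.Agent.P.MP_874adf_gt.Gn

open Pool.Agent.P.MP_874adf_gt.Fs Set Filter Topology Metric MeasureTheory

namespace T2

/-- every function has a point near which its graph is somewhere dense at all scales -/
lemma baire {Y : Type} [PseudoMetricSpace Y] [SecondCountableTopology Y] (f : ℝ → Y) {α β : ℝ}
    (h : α < β) : ∃ a0 ∈ Ioo α β, ∀ ε > (0 : ℝ),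
      (interior (closure {a | dist a a0 < ε ∧ dist (f a) (f a0) < ε})).Nonempty := by
  by_contra hc
  push Not at hc
  choose! e e0 he using hc
  obtain ⟨t, ts, tc, hcov⟩ := TopologicalSpace.countable_cover_nhdsWithin
    (s := (fun a => (a, f a)) '' Ioo α β) (f := fun p : ℝ × Y => ball p (e p.1)) (by
      rintro _ ⟨a, ha, rfl⟩
      exact mem_nhdsWithin_of_mem_nhds (ball_mem_nhds _ (e0 a ha)))
  refine not_isMeagre_of_isOpen isOpen_Ioo (nonempty_Ioo.2 h) (IsMeagre.mono ?_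
    (isMeagre_biUnion tc (f := fun p => {a | dist a p.1 < e p.1 ∧ dist (f a) (f p.1) < e p.1})
      fun p hp => IsNowhereDense.isMeagre ?_))
  · intro a ha
    obtain ⟨p, hp, m⟩ := mem_iUnion₂.1 (hcov ⟨a, ha, rfl⟩)
    refine mem_iUnion₂.2 ⟨p, hp, ?_⟩
    obtain ⟨b, -, rfl⟩ := ts hp
    rw [mem_ball, Prod.dist_eq, max_lt_iff] at m
    exact m
  · obtain ⟨b, hb, rfl⟩ := ts hp
    exact he b hb

/-- moving a point along its ray to a neighbouring circle -/
lemma radial {M : Set P} {d : P → P → ℝ} (h : PM M d) {O y : P} (hO : O ∈ M) (hy : y ∈ M)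
    (ne : y ≠ O) {η : ℝ} (η0 : 0 < η) : ∃ δ > (0 : ℝ), ∀ a, |a - d O y| < δ → Ray M d O a →
      ∃ y' ∈ ball y η, d O y' = a := by
  obtain ⟨δ, δ0, hδ⟩ := h.near hy η0
  refine ⟨δ, δ0, fun a ha hr => ?_⟩
  obtain ⟨t, t0, m, e⟩ := hr (y - O) (sub_ne_zero.2 ne)
  refine ⟨_, hδ _ m ?_, e⟩
  have e0 : O + (0 : ℝ) • (y - O) = O := by simp
  have e1 : O + (1 : ℝ) • (y - O) = y := by simp
  rw [abs_lt] at ha
  rcases le_total t 1 with c | c
  · have := h.line_add (x := O) (v := y - O) (r := 0) (s := t) (t := 1) (by rwa [e0])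
      (by rwa [e1]) t0.le c
    rw [e0, e1, h.symm _ m _ hy] at this
    linarith [ha.1]
  · have := h.line_add (x := O) (v := y - O) (r := 0) (s := 1) (t := t) (by rwa [e0]) m
      zero_le_one c
    rw [e0, e1] at this
    linarith [ha.2]

lemma exists_dn {M : Set P} {d : P → P → ℝ} (h : PM M d) (hU : AllU M d) {W : Set P}
    (hWM : W ⊆ M) (hW : IsOpen W) (hne : W.Nonempty) :
    ∃ (O C B0 : P) (l0 r0 : ℝ), C ∈ W ∧ 0 < l0 ∧ l0 < 1 ∧ r0 < 1 ∧ wed (B0 - O) (C - O) ≠ 0 ∧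
      Dn M d O C B0 l0 r0 := by
  obtain ⟨O, hO⟩ := hne
  have mO := hWM hO
  obtain ⟨ρ, ρ0, a1, a10, -, ex⟩ := hU O mO
  obtain ⟨η, η0, hη⟩ := Metric.isOpen_iff.1 hW O hO
  obtain ⟨a2, a20, h2⟩ := h.near mO η0
  have ex' := ex O (mem_ball_self ρ0)
  choose! f fO fc using ex'
  obtain ⟨a0, ⟨b0, b1⟩, hb⟩ := baire f (lt_min a10 a20)
  have b2 : a0 < a1 := b1.trans_le (min_le_left _ _)
  have b3 : a0 < a2 := b1.trans_le (min_le_right _ _)
  have c0 := fc a0 b0 b2
  have o0 := fO a0 b0 b2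
  set B0 := dB (f a0) with hB0
  have nB : B0 - O ≠ 0 := by
    intro e
    have e1 := c0.eB
    rw [o0, ← hB0, sub_eq_zero.1 e, h.self mO] at e1
    have := div_pos b0 c0.r0
    linarith
  have pos : 0 < (B0 - O).1 ^ 2 + (B0 - O).2 ^ 2 := by
    by_contra c
    have e1 : (B0 - O).1 = 0 := by nlinarith [sq_nonneg (B0 - O).1, sq_nonneg (B0 - O).2]
    have e2 : (B0 - O).2 = 0 := by nlinarith [sq_nonneg (B0 - O).1, sq_nonneg (B0 - O).2]
    exact nB (Prod.ext e1 e2)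
  have ray := c0.ray
  rw [o0] at ray
  obtain ⟨t, t0, mC, eC⟩ := ray (-(B0 - O).2, (B0 - O).1) (by
    intro e
    have e1 : -(B0 - O).2 = 0 := congrArg Prod.fst e
    have e2 : (B0 - O).1 = 0 := congrArg Prod.snd e
    exact nB (Prod.ext e2 (neg_eq_zero.1 e1)))
  set C := O + t • ((-(B0 - O).2, (B0 - O).1) : P) with hC
  have far : ∀ y, 0 < d O y → y ≠ O := fun y hy e => by
    rw [e, h.self mO] at hy; exact lt_irrefl _ hy
  refine ⟨O, C, B0, dl (f a0), dr (f a0), hη (h2 _ mC (by linarith)), c0.l0, c0.l1, c0.r1, ?_, ?_⟩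
  · have e : wed (B0 - O) (C - O) = t * ((B0 - O).1 ^ 2 + (B0 - O).2 ^ 2) := by
      rw [hC, add_sub_cancel_left]
      simp only [wed, Prod.smul_fst, Prod.smul_snd, smul_eq_mul]; ring
    rw [e]; positivity
  intro ε ε0
  obtain ⟨η1, η10, hη1⟩ := Metric.isOpen_iff.1 h.isOpen C mC
  obtain ⟨δ, δ0, hδ⟩ := radial h mO mC (far C (by linarith)) (lt_min ε0 η10)
  obtain ⟨e, e0, e1, e2, e3, e4⟩ : ∃ e > (0 : ℝ), e ≤ ε ∧ e ≤ δ / 2 ∧ e ≤ a0 / 2 ∧
      e ≤ (a1 - a0) / 2 :=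
    ⟨min (min ε (δ / 2)) (min (a0 / 2) ((a1 - a0) / 2)), by
      have : 0 < a1 - a0 := by linarith
      positivity, (min_le_left _ _).trans (min_le_left _ _),
      (min_le_left _ _).trans (min_le_right _ _), (min_le_right _ _).trans (min_le_left _ _),
      (min_le_right _ _).trans (min_le_right _ _)⟩
  set S := {a | dist a a0 < e ∧ dist (f a) (f a0) < e} with hS
  obtain ⟨a, ha⟩ := hb e e0
  have cl : ∀ b ∈ interior (closure S), |b - a0| ≤ e := fun b hb' => by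
    have : closure S ⊆ closedBall a0 e :=
      closure_minimal (fun _ hx => le_of_lt hx.1) isClosed_closedBall
    exact this (interior_subset hb')
  have rayb : ∀ b, |b - a0| ≤ e → Circ M d (f b) b ∧ dO (f b) = O := fun b hb' => by
    rw [abs_le] at hb'
    exact ⟨fc b (by linarith [hb'.1]) (by linarith [hb'.2]),
      fO b (by linarith [hb'.1]) (by linarith [hb'.2])⟩
  have cont : ContinuousOn (fun y => d O y) (ball C (min ε η1)) := fun y hy =>
    (h.tendsto mO (hη1 (ball_subset_ball (min_le_right _ _) hy)) tendsto_const_nhds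
      tendsto_id).mono_left nhdsWithin_le_nhds
  refine ⟨ball C (min ε η1) ∩ (fun y => d O y) ⁻¹' interior (closure S),
    cont.isOpen_inter_preimage isOpen_ball isOpen_interior, ?_,
    inter_subset_left.trans (ball_subset_ball (min_le_left _ _)), ?_⟩
  · obtain ⟨y, hy, ey⟩ := hδ a (by rw [eC]; linarith [cl a ha]) (by
      have := (rayb a (cl a ha)).1.ray
      rwa [(rayb a (cl a ha)).2] at this)
    exact ⟨y, hy, by rw [mem_preimage, ey]; exact ha⟩
  rintro y ⟨hy, hy2⟩ η2 η20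
  have my : y ∈ M := hη1 (ball_subset_ball (min_le_right _ _) hy)
  have c1 := abs_le.1 (cl _ hy2)
  obtain ⟨δ2, δ20, hδ2⟩ := radial h mO my (far y (by linarith [c1.1])) η20
  obtain ⟨b, hbS, hb2⟩ := Metric.mem_closure_iff.1 (interior_subset hy2) δ2 δ20
  obtain ⟨cb, ob⟩ := rayb b (le_of_lt hbS.1)
  obtain ⟨y', hy', ey⟩ := hδ2 b (by rw [abs_sub_comm]; exact hb2) (by
    have := cb.ray
    rwa [ob] at this)
  have dd : dist (f b).2 (f a0).2 < ε := ((le_max_right _ _).trans_lt hbS.2).trans_le e1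
  have d2 : dist (f b).2.2 (f a0).2.2 < ε := (le_max_right _ _).trans_lt dd
  refine ⟨y', hy', dB (f b), dl (f b), dr (f b), (le_max_left _ _).trans_lt dd,
    (le_max_left _ _).trans_lt d2, (le_max_right _ _).trans_lt d2, ?_⟩
  rw [ey, ← ob]
  exact cb

lemma exists_equiv {e f : P} (h : wed e f ≠ 0) :
    ∃ L : P ≃L[ℝ] P, L (1, 0) = e ∧ L (0, 1) = f := by
  let A : P →ₗ[ℝ] P := (LinearMap.fst ℝ ℝ ℝ).smulRight e + (LinearMap.snd ℝ ℝ ℝ).smulRight f
  have hA : ∀ v : P, A v = v.1 • e + v.2 • f := fun v => rfl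
  have inj : Function.Injective A := by
    rw [injective_iff_map_eq_zero]
    intro v hv
    rw [hA] at hv
    have e1 := congrArg Prod.fst hv
    have e2 := congrArg Prod.snd hv
    simp only [Prod.fst_add, Prod.snd_add, Prod.smul_fst, Prod.smul_snd, smul_eq_mul,
      Prod.fst_zero, Prod.snd_zero] at e1 e2
    have f1 : v.1 * wed e f = 0 := by unfold wed; linear_combination f.2 * e1 - f.1 * e2
    have f2 : v.2 * wed e f = 0 := by unfold wed; linear_combination e.1 * e2 - e.2 * e1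
    exact Prod.ext ((mul_eq_zero.1 f1).resolve_right h) ((mul_eq_zero.1 f2).resolve_right h)
  refine ⟨(LinearEquiv.ofInjectiveEndo A inj).toContinuousLinearEquiv, ?_, ?_⟩
  · show A (1, 0) = e
    rw [hA]; simp
  · show A (0, 1) = f
    rw [hA]; simp

lemma dn_tr (hAFF : S_AFF) {M : Set P} {d : P → P → ℝ} {O C B0 : P} {l0 r0 : ℝ}
    (L : P ≃L[ℝ] P) (hD : Dn M d O (tr O L C) (tr O L B0) l0 r0) :
    Dn (tr O L ⁻¹' M) (trd O L d) 0 C B0 l0 r0 := by
  obtain ⟨K, K0, hK⟩ := AFFaux.tr_lip 0 L.symm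
  have lip : ∀ y z : P, dist y z ≤ (K + 1) * dist (tr O L y) (tr O L z) := by
    intro y z
    have := hK (L y) (L z)
    simp only [tr, zero_add, ContinuousLinearEquiv.symm_apply_apply] at this
    have e : dist (tr O L y) (tr O L z) = dist (L y) (L z) := dist_add_left _ _ _
    rw [e]
    linarith [dist_nonneg (x := L y) (y := L z)]
  have K1 : 0 < K + 1 := by linarith
  have sm : ∀ {y z : P} {η : ℝ}, dist (tr O L y) (tr O L z) < η / (K + 1) → dist y z < η := by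
    intro y z η hh
    rw [lt_div_iff₀' K1] at hh
    exact (lip y z).trans_lt hh
  intro ε ε0
  have le : ε / (K + 1) ≤ ε := div_le_self ε0.le (by linarith)
  obtain ⟨Ω, Ωo, ⟨c, hc⟩, Ωs, hΩ⟩ := hD (ε / (K + 1)) (by positivity)
  refine ⟨tr O L ⁻¹' Ω, Ωo.preimage (AFFaux.tr_cont O L), ?_, fun y hy => sm (Ωs hy), ?_⟩
  · obtain ⟨c', rfl⟩ := AFFaux.tr_surj O L c
    exact ⟨c', hc⟩
  intro y hy η η0
  obtain ⟨y', hy', B, l, r, hB, hl, hr, cc⟩ := hΩ _ hy (η / (K + 1)) (by positivity)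
  obtain ⟨y2, rfl⟩ := AFFaux.tr_surj O L y'
  obtain ⟨B2, rfl⟩ := AFFaux.tr_surj O L B
  refine ⟨y2, sm hy', B2, l, r, sm hB, hl.trans_le le, hr.trans_le le, ?_⟩
  rw [(hAFF M d O L).2.1]
  have e : tr O L 0 = O := by simp [tr]
  show Circ M d (tr O L 0, tr O L B2, l, r) (d (tr O L 0) (tr O L y2))
  rw [e]
  exact cc

end T2

theorem p_T2 (hMON : S_MON) (hAFF : S_AFF) (hCR : S_CR) :
    S_T2 := by
  intro M d F h hU hF W hWM hW hne hae
  obtain ⟨O, C, B0, l0, r0, hC, l00, l01, r01, hw, hD⟩ := T2.exists_dn h hU hWM hW hne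
  obtain ⟨L, e1, e2⟩ := T2.exists_equiv hw
  have eC : tr O L (0, 1) = C := by rw [tr, e2, add_sub_cancel]
  have eB : tr O L (1, 0) = B0 := by rw [tr, e1, add_sub_cancel]
  rw [← eC, ← eB] at hD
  refine T2.normal hMON hCR ((hAFF M d O L).1 h) (hW.preimage (AFFaux.tr_cont O L))
    (preimage_mono hWM) (by rwa [mem_preimage, eC]) l00 l01 r01 (T2.dn_tr hAFF L hD) ?_
  filter_upwards [(hAFF M d O L).2.2.2.1 F hF, AFFaux.ae O L hae] with y h1 h2 hy
  refine ⟨_, (h1 (hWM hy)).1, fun hn => h2 hy ⟨?_, ?_, fun v hv => ?_⟩, (h1 (hWM hy)).2⟩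
  · intro t v
    simpa using hn.smul t (L.symm v)
  · intro v w
    simpa using hn.add (L.symm v) (L.symm w)
  · simpa using hn.pos (L.symm v) (by simpa using hv)

end Pool.Agent.P.MP_874adf_gt.Gn
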