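import Pool.Agent.P.MP_874adf_gt.Gn.IfaceF

/-! Step TRF. -/

set_option autoImplicit false

namespace Pool.Agent.P.MP_874adf_gt.Gn

open Pool.Agent.P.MP_874adf_gt.Fs Set Filter Topology Metric MeasureTheory

lemma trf_mono {c : Ctx} {ι : Type} (S : Sys c ι) {k k' : ℝ} (h : k ≤ k') (i : ι) :
    S.B k i ⊆ S.B k' i :=
  closedBall_subset_closedBall (mul_le_mul_of_nonneg_right h (S.s0 i).le)

lemma trf_sub {c : Ctx} {ι : Type} (S : Sys c ι) (S' : Sys c (ℕ × ι)) {Lj L : ℝ} {j : ℕ} {i : ι}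
    (h : S'.x (j, i) ∈ S.B Lj i ∧ S'.s (j, i) ≤ Lj * S.s i) :
    S'.B L (j, i) ⊆ S.B (Lj * (1 + |L|)) i := by
  intro u hu
  obtain ⟨h1, h2⟩ := h
  simp only [Sys.B, mem_closedBall] at hu h1 ⊢
  have t := dist_triangle u (S'.x (j, i)) (S.x i)
  have a1 : L * S'.s (j, i) ≤ |L| * S'.s (j, i) :=
    mul_le_mul_of_nonneg_right (le_abs_self L) (S'.s0 _).le
  have a2 : |L| * S'.s (j, i) ≤ |L| * (Lj * S.s i) :=
    mul_le_mul_of_nonneg_left h2 (abs_nonneg L)
  nlinarith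

lemma trf_lev {N k e β : ℝ} (N0 : 0 < N) (e0 : 0 < e) (h : |β| ≤ k * N) (σ : ℝ) (hσ : |σ| ≤ e) :
    |β / N + σ| ≤ k + e := by
  have h1 : |β / N| ≤ k := by
    rw [abs_div, abs_of_pos N0, div_le_iff₀ N0]
    exact h
  exact (abs_add_le _ _).trans (add_le_add h1 hσ)

theorem p_TRF :
    S_TRF := by
  intro c ι S S' hO D hM hx
  choose Lj hL using hO.rng
  refine ⟨fun lam l0 l1 hT k ε ε0 => ?_, fun hS k ε ε0 => ?_⟩
  · obtain ⟨L, hT⟩ := hT (k + ε)
    have e0 : 0 < ε / 8 := by positivity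
    have h1 := hT (ε / 8) e0
    rw [hO.eU, S.ev_UU] at h1
    refine (S.ev_UU _).2 (h1.mono fun j hj => ?_)
    filter_upwards [hj, hL j, hx j, hM j (max k (Lj j * (1 + |L|))) (ε / 8) e0]
      with i h2 h3 h4 h5 u0 hu0 w0 hw0 lu _ t t0 tk
    have N0 := S.N0 i
    have s1 : S.B k i ⊆ S.B (max k (Lj j * (1 + |L|))) i := trf_mono S (le_max_left _ _) i
    have s2 : S'.B L (j, i) ⊆ S.B (max k (Lj j * (1 + |L|))) i :=
      (trf_sub S S' h3).trans (trf_mono S (le_max_right _ _) i)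
    have hu : u0 ∈ S.B (max k (Lj j * (1 + |L|))) i := s1 hu0
    have hw : w0 ∈ S.B (max k (Lj j * (1 + |L|))) i := s1 hw0
    have lu' : |c.d (dO (D j i)) u0 - c.d (dO (D j i)) (S.x i)| ≤ k * S.N i := lu
    have eN : S'.N (j, i) = S.N i := hO.eN _
    have eN' : S.lift.N (j, i) = S.N i := rfl
    have q0 : 0 < ε * S.N i := mul_pos ε0 N0
    simp only [Sys.db, Sys.dh, eN, eN', h4] at h2 ⊢
    constructor
    · intro hb
      obtain ⟨u, mu, w, -, w', mw', a1, -, a3, -, a5⟩ := h2 _ t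
        (trf_lev N0 ε0 lu' (-(ε / 2)) (by rw [abs_neg, abs_of_pos (half_pos ε0)]; linarith))
        t0 (by linarith)
      rw [add_mul, div_mul_cancel₀ _ N0.ne', abs_le] at a1
      rw [abs_le] at a3
      have m1 := h5 u (s2 mu) u0 hu (by linarith [a1.2])
      have m2 := h5 w0 hw w' (s2 mw') (by linarith [a1.1, a3.1])
      linarith
    · intro hb
      obtain ⟨u, mu, w, mw, w', -, a1, a2, -, a4, -⟩ := h2 _ t
        (trf_lev N0 ε0 lu' (ε / 2) (by rw [abs_of_pos (half_pos ε0)]; linarith))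
        t0 (by linarith)
      rw [add_mul, div_mul_cancel₀ _ N0.ne', abs_le] at a1
      rw [abs_le] at a2
      have m1 := h5 u0 hu u (s2 mu) (by linarith [a1.1])
      have m2 := h5 w (s2 mw) w0 hw (by linarith [a1.2, a2.2])
      linarith
  · have e0 : 0 < ε / 3 := by positivity
    have h1 := hS k (ε / 3) e0
    rw [hO.eU, S.ev_UU] at h1
    refine h1.mono fun j hj => ?_
    filter_upwards [hj, hL j, hx j, hM j (max k (Lj j * (1 + |1|))) (ε / 3) e0]
      with i h2 h3 h4 h5 y hy z hz ly lz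
    have s1 : S.B k i ⊆ S.B (max k (Lj j * (1 + |1|))) i := trf_mono S (le_max_left _ _) i
    have s2 : S'.B 1 (j, i) ⊆ S.B (max k (Lj j * (1 + |1|))) i :=
      (trf_sub S S' h3).trans (trf_mono S (le_max_right _ _) i)
    have eN : S'.N (j, i) = S.N i := hO.eN _
    simp only [Sys.db, Sys.dh, eN, h4] at h2
    obtain ⟨u, mu, w, mw, a1, a2, a3⟩ := h2
    simp only [Sys.Lv, abs_le] at ly lz
    have m1 := h5 u (s2 mu) y (s1 hy) (by linarith [ly.1])
    have m2 := h5 u (s2 mu) z (s1 hz) (by linarith [lz.1])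
    have m3 := h5 y (s1 hy) w (s2 mw) (by linarith [ly.2])
    have m4 := h5 z (s1 hz) w (s2 mw) (by linarith [lz.2])
    rw [abs_le]
    constructor <;> linarith

end Pool.Agent.P.MP_874adf_gt.Gn
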