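import Pool.Agent.P.MP_874adf_gt.Gn.IfaceF
import Pool.Agent.P.MP_874adf_gt.Gn.BasS

/-! Step WALL. -/

set_option autoImplicit false

namespace Pool.Agent.P.MP_874adf_gt.Gn

open Pool.Agent.P.MP_874adf_gt.Fs Set Filter Topology Metric MeasureTheory

lemma wall_ray {x X : P} (h : x.2 ≠ X.2) {a b : ℝ} (ha : 0 < x.2 + a - X.2) :
    x + b • ((sl x X, 1) : P) = (x + a • ((sl x X, 1) : P)) +
      ((b - a) / (x.2 + a - X.2)) • ((x + a • ((sl x X, 1) : P)) - X) := by
  have n1 : x.2 - X.2 ≠ 0 := sub_ne_zero.2 h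
  have n2 : x.2 + a - X.2 ≠ 0 := ha.ne'
  ext
  · simp only [Prod.fst_add, Prod.smul_fst, Prod.fst_sub, smul_eq_mul, sl]
    field_simp
    ring
  · simp only [Prod.snd_add, Prod.smul_snd, Prod.snd_sub, smul_eq_mul]
    field_simp
    ring

lemma wall_mem {x : P} {t a Q τ : ℝ} (ht : |t| ≤ Q) (hQ : 1 ≤ Q) (ha : |a| ≤ τ) :
    x + a • ((t, 1) : P) ∈ closedBall x (τ * Q) := by
  rw [mem_closedBall, dist_eq_norm, add_sub_cancel_left, norm_smul, Real.norm_eq_abs]
  refine mul_le_mul ha ?_ (norm_nonneg _) ((abs_nonneg _).trans ha)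
  rw [Prod.norm_def, max_le_iff]
  exact ⟨ht, by simpa using hQ⟩

/-- a window of lines that separate two points and separate `O` from the first one -/
lemma wall_win (μ : Measure (ℝ × ℝ)) [IsFiniteMeasure μ] {y O : P} {σ τ g a b ρ : ℝ} (hτ : 0 < τ)
    (hg : 0 < g) (h1 : σ + g ≤ a) (h2 : b + g ≤ sl y O) (h3 : τ ≤ y.2 - O.2) (hρ : ρ ≤ τ * g / 4) :
    mw μ (Icc a b) (y - (τ * g / 2, 0)) ρ ≤ μ.real (sp y (y + τ • ((σ, 1) : P)) ∩ sp O y) := by
  refine measureReal_mono fun l hl => ?_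
  have n : y.2 ≠ O.2 := fun e => by rw [e, sub_self] at h3; linarith
  have e1 := pr_sl n l.2
  have e2 : pr l.2 (y + τ • ((σ, 1) : P)) = pr l.2 y + τ * (σ - l.2) := by simp [pr]; ring
  have e3 : pr l.2 (y - (τ * g / 2, 0)) = pr l.2 y - τ * g / 2 := by simp [pr]; ring
  have w := abs_le.1 (hl.2.trans hρ)
  rw [e3] at w
  have tg : 0 < τ * g := mul_pos hτ hg
  have p1 : l.1 < pr l.2 y := by linarith [w.2]
  have p2 : τ * (σ - l.2) ≤ τ * (-g) := mul_le_mul_of_nonneg_left (by linarith [hl.1.1]) hτ.le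
  have p3 : τ * g ≤ (y.2 - O.2) * (sl y O - l.2) :=
    mul_le_mul h3 (by linarith [hl.1.2]) hg.le (by linarith)
  refine ⟨fun hh => ?_, fun hh => ?_⟩
  · have := hh.1 p1
    rw [e2] at this
    linarith [w.1]
  · have := hh.2 p1
    linarith [w.1]

/-- on a ray from `A` the function `hf` gains at least the defect of `O` -/
lemma wall_gain {c : Ctx} {D : Dat} {y z : P} {α : ℝ} (mO : dO D ∈ ball (0 : P) c.ρ0)
    (mA : dA D ∈ ball (0 : P) c.ρ0) (mB : dB D ∈ ball (0 : P) c.ρ0) (hy : y ∈ ball (0 : P) c.ρ0)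
    (hz : z ∈ ball (0 : P) c.ρ0) (hα : 0 ≤ α) (e : z = y + α • (y - dA D)) (yO : (dO D).2 ≤ y.2)
    (yA : (dA D).2 ≤ y.2) (yz : y.2 ≤ z.2) (r0 : 0 < dr D) (r1 : dr D < 1) :
    2 * c.μ.real (sp y z ∩ sp (dO D) y) ≤ hf c.d D z - hf c.d D y := by
  have dO' := c.crof.defect mO hy hz (mem_uIcc.2 (Or.inl ⟨yO, yz⟩))
  have dA' := c.crof.defect mA hy hz (mem_uIcc.2 (Or.inl ⟨yA, yz⟩))
  have em : sp y z ∩ sp (dA D) y = ∅ := by
    refine eq_empty_of_forall_notMem fun l hl => ?_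
    have h1 := hl.1
    rw [e] at h1
    exact sp_side hα h1 hl.2
  rw [em, measureReal_empty] at dA'
  have tB := c.gp.pm.triangle _ (c.sub mB) _ (c.sub hy) _ (c.sub hz)
  have rr : 0 ≤ dr D / (1 - dr D) := div_nonneg r0.le (by linarith)
  rw [hf_diff c.d r1.ne]
  have := mul_nonneg rr
    (show 0 ≤ c.d (dA D) z - c.d (dA D) y - (c.d (dB D) z - c.d (dB D) y) by linarith)
  linarith

/-- a steep segment is crossed by the flat lines that cross a shorter one -/
lemma wall_geo {c : Ctx} {x : P} {σ t τ Q T : ℝ} (hσ : |σ| ≤ Q) (hQ : 1 ≤ Q) (ht : |t| ≤ T)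
    (hx : x ∈ ball (0 : P) c.ρ0) (hz : x + τ • ((σ, 1) : P) ∈ ball (0 : P) c.ρ0)
    (hw : x + (2 * τ) • ((t, 1) : P) ∈ ball (0 : P) c.ρ0) :
    c.d x (x + τ • ((σ, 1) : P)) ≤
      mT c.μ (2 * T + Q) x ((1 + (2 * T + Q)) * (|τ| * Q)) + c.d x (x + (2 * τ) • ((t, 1) : P)) := by
  have := c.crof.fin
  have m := c.crof.mono
  have z2 : (x + τ • ((σ, 1) : P)).2 = x.2 + τ := by simp
  have w2 : (x + (2 * τ) • ((t, 1) : P)).2 = x.2 + 2 * τ := by simp
  have p1 : |c.Ψ (x.2 + τ) - c.Ψ x.2| ≤ |c.Ψ (x.2 + 2 * τ) - c.Ψ x.2| := by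
    rcases le_total 0 τ with h | h
    · have a1 : c.Ψ x.2 ≤ c.Ψ (x.2 + τ) := m (by linarith)
      have a2 : c.Ψ (x.2 + τ) ≤ c.Ψ (x.2 + 2 * τ) := m (by linarith)
      rw [abs_of_nonneg (by linarith), abs_of_nonneg (by linarith)]
      linarith
    · have a1 : c.Ψ (x.2 + τ) ≤ c.Ψ x.2 := m (by linarith)
      have a2 : c.Ψ (x.2 + 2 * τ) ≤ c.Ψ (x.2 + τ) := m (by linarith)
      rw [abs_of_nonpos (by linarith), abs_of_nonpos (by linarith)]
      linarith
  have p2 : c.μ.real (sp x (x + τ • ((σ, 1) : P))) ≤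
      mT c.μ (2 * T + Q) x ((1 + (2 * T + Q)) * (|τ| * Q)) +
        c.μ.real (sp x (x + (2 * τ) • ((t, 1) : P))) := by
    refine le_trans (measureReal_mono fun l hl => ?_) (measureReal_union_le _ _)
    have r0 : 0 ≤ |τ| * Q := mul_nonneg (abs_nonneg _) (by linarith)
    have hn := sp_near (x := x) (mem_closedBall_self r0) (wall_mem hσ hQ le_rfl) hl
    by_cases hθ : |l.2| ≤ 2 * T + Q
    · exact Or.inl ⟨abs_le.1 hθ, hn.trans (mul_le_mul_of_nonneg_right (by linarith) r0)⟩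
    · right
      have pz : pr l.2 (x + τ • ((σ, 1) : P)) = pr l.2 x + τ * (σ - l.2) := by simp [pr]; ring
      have pw : pr l.2 (x + (2 * τ) • ((t, 1) : P)) = pr l.2 x + τ * (2 * (t - l.2)) := by
        simp [pr]; ring
      have t1 := abs_le.1 ht
      have s1 := abs_le.1 hσ
      have T0 : 0 ≤ T := (abs_nonneg _).trans ht
      have key : (0 ≤ τ * (σ - l.2) ∧ τ * (σ - l.2) ≤ τ * (2 * (t - l.2))) ∨
          (τ * (σ - l.2) ≤ 0 ∧ τ * (2 * (t - l.2)) ≤ τ * (σ - l.2)) := by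
        rcases lt_abs.1 (not_le.1 hθ) with h | h <;> rcases le_total 0 τ with h' | h'
        · exact Or.inr ⟨mul_nonpos_of_nonneg_of_nonpos h' (by linarith),
            mul_le_mul_of_nonneg_left (by linarith) h'⟩
        · exact Or.inl ⟨mul_nonneg_of_nonpos_of_nonpos h' (by linarith),
            mul_le_mul_of_nonpos_left (by linarith) h'⟩
        · exact Or.inl ⟨mul_nonneg h' (by linarith), mul_le_mul_of_nonneg_left (by linarith) h'⟩
        · exact Or.inr ⟨mul_nonpos_of_nonpos_of_nonneg h' (by linarith),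
            mul_le_mul_of_nonpos_left (by linarith) h'⟩
      change ¬ (l.1 < pr l.2 x ↔ l.1 < pr l.2 (x + τ • ((σ, 1) : P))) at hl
      change ¬ (l.1 < pr l.2 x ↔ l.1 < pr l.2 (x + (2 * τ) • ((t, 1) : P)))
      rw [pz] at hl
      rw [pw]
      intro hh
      apply hl
      rcases key with k | k
      · exact ⟨fun a => by linarith [k.1], fun a => hh.2 (by linarith [k.2])⟩
      · exact ⟨fun a => by linarith [hh.1 a, k.2], fun a => by linarith [k.1]⟩
  rw [c.crof.eq x hx _ hz, c.crof.eq x hx _ hw, z2, w2]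
  linarith

theorem p_WALL :
    S_WALL := by
  intro c R ι S D tO tA tB r F hN K T k η hη
  have fin := c.crof.fin
  obtain ⟨g, hg, g0⟩ : ∃ g : ℝ, tO - tA = 6 * g ∧ 0 < g :=
    ⟨(tO - tA) / 6, by ring, by have := F.lt; linarith⟩
  set Q : ℝ := 1 + g + |tA| with hQ
  have Q1 : 1 ≤ Q := by linarith [abs_nonneg tA]
  set T1 : ℝ := 1 + |T| with hT1
  have T11 : 1 ≤ T1 := by linarith [abs_nonneg T]
  set k1 : ℝ := 1 + 8 / (η * g) + η * (Q + g + T1) with hk1
  have q0 : 0 < 8 / (η * g) := by positivity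
  have q1 : 0 < η * (Q + g + T1) := by positivity
  have k11 : 1 ≤ k1 := by linarith
  have neg : Neg (ln c.G) (tO - 2 * g) := hN.imp fun z hz => ⟨hz.1, by linarith [hz.2]⟩
  obtain ⟨κ, κ0, low⟩ := S.low R (a := tA + 2 * g) (by linarith) neg k11
  obtain ⟨C, C0, up⟩ := S.up R (2 * T1 + Q) ((1 + (2 * T1 + Q)) * (η * Q))
  set k2 : ℝ := k1 + |k| + C with hk2
  have k12 : k1 ≤ k2 := by linarith [abs_nonneg k]
  filter_upwards [low, up, K k2 κ κ0, F.fO k1 g g0, F.fA k1 g g0, F.fB k1 g g0,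
    S.ev_ball k1 c.rho0] with i low up K fO fA fB eb t ht
  have s0 := S.s0 i
  have N0 := S.N0 i
  set x := S.x i with hx
  set τ := η * S.s i / 2 with hτ
  have τ0 : 0 < τ := by positivity
  have xB : x ∈ S.B k1 i := mem_closedBall_self (by positivity)
  have big : 2 * τ * (Q + g + T1) ≤ k1 * S.s i := by
    have : η * (Q + g + T1) * S.s i ≤ k1 * S.s i := mul_le_mul_of_nonneg_right (by linarith) s0.le
    rw [hτ]; linarith
  have a1 : 0 < τ * Q := by positivity
  have a2 : 0 < τ * g := by positivity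
  have a3 : τ ≤ τ * T1 := le_mul_of_one_le_right τ0.le T11
  have sA := abs_le.1 (fA.2 x xB).2
  have tQ : |sl x (dA (D i))| ≤ Q := by
    rw [abs_le]
    constructor <;> linarith [sA.1, sA.2, le_abs_self tA, neg_abs_le tA]
  have sub : closedBall x (τ * Q) ⊆ S.B k1 i := closedBall_subset_closedBall (by nlinarith)
  have mem : ∀ a : ℝ, |a| ≤ τ → x + a • ((sl x (dA (D i)), 1) : P) ∈ S.B k1 i :=
    fun a ha => sub (wall_mem tQ Q1 ha)
  have nx : x.2 ≠ (dA (D i)).2 := by
    have := (fA.2 x xB).1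
    intro e
    rw [e, sub_self] at this
    nlinarith
  have snd : ∀ a : ℝ, (x + a • ((sl x (dA (D i)), 1) : P)).2 = x.2 + a := fun a => by simp
  have gain : ∀ a : ℝ, |a| ≤ τ → |a + τ| ≤ τ →
      2 * (κ * S.N i) ≤ S.dh D i (x + a • ((sl x (dA (D i)), 1) : P))
        (x + (a + τ) • ((sl x (dA (D i)), 1) : P)) := by
    intro a ha hb
    have my := mem a ha
    have mz := mem _ hb
    have hA := (fA.2 _ my).1
    have hO := fO.2 _ my
    have p : 0 < x.2 + a - (dA (D i)).2 := by rw [snd] at hA; nlinarith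
    have α0 : 0 ≤ (a + τ - a) / (x.2 + a - (dA (D i)).2) := div_nonneg (by linarith) p.le
    have ry := wall_ray (b := a + τ) nx p
    have e : x + (a + τ) • ((sl x (dA (D i)), 1) : P) =
        x + a • ((sl x (dA (D i)), 1) : P) + τ • ((sl x (dA (D i)), 1) : P) := by
      rw [add_smul, add_assoc]
    have hb1 := wall_mem (x := x) tQ Q1 ha
    set y := x + a • ((sl x (dA (D i)), 1) : P) with hy
    have g1 := wall_gain fO.1 fA.1 fB.1 (eb.1 my) (eb.1 mz) α0 ry (by nlinarith [hO.1])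
      (by nlinarith) (by rw [hy, snd, snd]; linarith) (F.r01 i).1 (F.r01 i).2
    have sO := abs_le.1 hO.2
    have g2 := wall_win c.μ (y := y) (O := dO (D i)) (σ := sl x (dA (D i))) (a := tA + 2 * g)
      (b := tO - 2 * g) (ρ := S.s i / k1) τ0 g0 (by linarith [sA.2]) (by linarith [sO.1])
      (by nlinarith [hO.1]) (by
        rw [div_le_iff₀ (by linarith), hτ]
        have e8 : η * g * (8 / (η * g)) = 8 := by field_simp
        have : η * g * (8 / (η * g)) ≤ η * g * k1 :=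
          mul_le_mul_of_nonneg_left (by linarith) (by positivity)
        nlinarith)
    have g3 := low (y - (τ * g / 2, 0)) (by
      have d1 : dist (y - ((τ * g / 2, 0) : P)) y = τ * g / 2 := by
        rw [dist_eq_norm, sub_sub_cancel_left, norm_neg, Prod.norm_def]
        simp only [Real.norm_eq_abs, abs_zero]
        rw [abs_of_pos (by positivity), max_eq_left (by positivity)]
      have d2 : dist y x ≤ τ * Q := hb1
      have d3 := dist_triangle (y - ((τ * g / 2, 0) : P)) y x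
      show dist _ x ≤ k1 * S.s i
      nlinarith)
    rw [← e] at g2
    unfold Sys.dh
    linarith
  have far : ∀ a : ℝ, (a = τ ∨ a = -τ) → k2 * S.N i ≤ c.d x (x + a • ((sl x (dA (D i)), 1) : P)) := by
    intro a ha
    by_contra hc
    have aτ : |a| ≤ τ := by rcases ha with rfl | rfl <;> simp [abs_of_pos τ0]
    have mz := mem a aτ
    have bx := c.sub (eb.1 xB)
    have bz := c.sub (eb.1 mz)
    have bO := c.sub fO.1
    have t1 := c.gp.pm.triangle _ bO _ bx _ bz
    have t2 := c.gp.pm.triangle _ bO _ bz _ bx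
    rw [c.gp.pm.symm _ bz _ bx] at t2
    have L1 : S.Lv D k2 i (x + a • ((sl x (dA (D i)), 1) : P)) :=
      abs_le.2 ⟨by linarith, by linarith⟩
    have L0 : S.Lv D k2 i x := by
      unfold Sys.Lv
      rw [← hx, sub_self, abs_zero]
      positivity
    have kN : 0 < κ * S.N i := by positivity
    rcases ha with rfl | rfl
    · have g1 := gain 0 (by simp [τ0.le]) (by simp [abs_of_pos τ0])
      rw [zero_smul, add_zero, zero_add] at g1
      have := (abs_le.1 (K _ (S.bass_sub k12 i xB) _ (S.bass_sub k12 i mz) L0 L1)).2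
      linarith
    · have g1 := gain (-τ) aτ (by simp [τ0.le])
      rw [neg_add_cancel, zero_smul, add_zero] at g1
      have := (abs_le.1 (K _ (S.bass_sub k12 i mz) _ (S.bass_sub k12 i xB) L1 L0)).2
      linarith
  have fin2 : ∀ a : ℝ, (a = τ ∨ a = -τ) → k * S.N i ≤ c.d x (x + (2 * a) • ((t, 1) : P)) := by
    intro a ha
    have aτ : |a| = τ := by rcases ha with rfl | rfl <;> simp [abs_of_pos τ0]
    have tT : |t| ≤ T1 := by linarith [le_abs_self T]
    have mw' : x + (2 * a) • ((t, 1) : P) ∈ S.B k1 i :=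
      closedBall_subset_closedBall (by nlinarith)
        (wall_mem (x := x) (τ := 2 * τ) tT T11 (by rw [abs_mul, aτ]; simp))
    have g1 := wall_geo tQ Q1 tT (eb.1 xB) (eb.1 (mem a aτ.le)) (eb.1 mw')
    have g2 := far a ha
    have g3 := up x (mem_closedBall_self (by positivity))
    have g4 : mT c.μ (2 * T1 + Q) x ((1 + (2 * T1 + Q)) * (|a| * Q)) ≤
        mT c.μ (2 * T1 + Q) x ((1 + (2 * T1 + Q)) * (η * Q) * S.s i) := by
      refine mw_mono c.μ Subset.rfl _ ?_
      rw [aτ, mul_assoc]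
      refine mul_le_mul_of_nonneg_left ?_ (by linarith)
      have : η * Q * S.s i = 2 * (τ * Q) := by rw [hτ]; ring
      linarith
    have g5 : (k + C) * S.N i ≤ k2 * S.N i :=
      mul_le_mul_of_nonneg_right (by linarith [le_abs_self k]) N0.le
    linarith
  have e2 : η * S.s i = 2 * τ := by rw [hτ]; ring
  refine ⟨e2 ▸ fin2 τ (Or.inl rfl), ?_⟩
  have := fin2 (-τ) (Or.inr rfl)
  rwa [mul_neg, neg_smul, ← sub_eq_add_neg, ← e2] at this

end Pool.Agent.P.MP_874adf_gt.Gn
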