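import Pool.Agent.P.MP_874adf_gt.Gn.TSTRUCTU
import Pool.Agent.P.MP_874adf_gt.Gn.TCRA
import Pool.Agent.P.MP_874adf_gt.Gn.TT1
import Pool.Agent.P.MP_874adf_gt.Gn.TMON
import Pool.Agent.P.MP_874adf_gt.Gn.TAFF
import Pool.Agent.P.MP_874adf_gt.Gn.TCR
import Pool.Agent.P.MP_874adf_gt.Gn.TT2
import Pool.Agent.P.MP_874adf_gt.Gn.TEG
import Pool.Agent.P.MP_874adf_gt.Gn.TLRR
import Pool.Agent.P.MP_874adf_gt.Gn.TRHO
import Pool.Agent.P.MP_874adf_gt.Gn.TGPAR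
import Pool.Agent.P.MP_874adf_gt.Gn.TGSLICE
import Pool.Agent.P.MP_874adf_gt.Gn.TGGAPL
import Pool.Agent.P.MP_874adf_gt.Gn.TGEXP
import Pool.Agent.P.MP_874adf_gt.Gn.TGSEG
import Pool.Agent.P.MP_874adf_gt.Gn.TGLEVO
import Pool.Agent.P.MP_874adf_gt.Gn.TGCLO
import Pool.Agent.P.MP_874adf_gt.Gn.TGBAIRE
import Pool.Agent.P.MP_874adf_gt.Gn.TGST0
import Pool.Agent.P.MP_874adf_gt.Gn.TGP1
import Pool.Agent.P.MP_874adf_gt.Gn.TGLEV
import Pool.Agent.P.MP_874adf_gt.Gn.TGLEV0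
import Pool.Agent.P.MP_874adf_gt.Gn.TGGEO
import Pool.Agent.P.MP_874adf_gt.Gn.TGPAS
import Pool.Agent.P.MP_874adf_gt.Gn.TGDEC
import Pool.Agent.P.MP_874adf_gt.Gn.TGTWO
import Pool.Agent.P.MP_874adf_gt.Gn.TGGAP2
import Pool.Agent.P.MP_874adf_gt.Gn.TGFAM
import Pool.Agent.P.MP_874adf_gt.Gn.TGFAMP
import Pool.Agent.P.MP_874adf_gt.Gn.TGCOV
import Pool.Agent.P.MP_874adf_gt.Gn.TGHVS
import Pool.Agent.P.MP_874adf_gt.Gn.TGAWAY
import Pool.Agent.P.MP_874adf_gt.Gn.TGEXH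
import Pool.Agent.P.MP_874adf_gt.Gn.TGRIG1
import Pool.Agent.P.MP_874adf_gt.Gn.TGLIP2
import Pool.Agent.P.MP_874adf_gt.Gn.TGTRI
import Pool.Agent.P.MP_874adf_gt.Gn.TGRIG2
import Pool.Agent.P.MP_874adf_gt.Gn.TGRIG3
import Pool.Agent.P.MP_874adf_gt.Gn.TGOFF
import Pool.Agent.P.MP_874adf_gt.Gn.TGRIG4
import Pool.Agent.P.MP_874adf_gt.Gn.TGTYPE
import Pool.Agent.P.MP_874adf_gt.Gn.TGACT
import Pool.Agent.P.MP_874adf_gt.Gn.TGOSPLIT
import Pool.Agent.P.MP_874adf_gt.Gn.TGRESEP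
import Pool.Agent.P.MP_874adf_gt.Gn.TGSEPN
import Pool.Agent.P.MP_874adf_gt.Gn.TGAME
import Pool.Agent.P.MP_874adf_gt.Gn.TFIN
import Pool.Agent.P.MP_874adf_gt.Gn.TGAP
import Pool.Agent.P.MP_874adf_gt.Gn.TCTX
import Pool.Agent.P.MP_874adf_gt.Gn.TREG
import Pool.Agent.P.MP_874adf_gt.Gn.TMOV
import Pool.Agent.P.MP_874adf_gt.Gn.TLIN
import Pool.Agent.P.MP_874adf_gt.Gn.THGFL
import Pool.Agent.P.MP_874adf_gt.Gn.THONG
import Pool.Agent.P.MP_874adf_gt.Gn.TLIPL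
import Pool.Agent.P.MP_874adf_gt.Gn.TKI1
import Pool.Agent.P.MP_874adf_gt.Gn.TKI2
import Pool.Agent.P.MP_874adf_gt.Gn.TSEC
import Pool.Agent.P.MP_874adf_gt.Gn.TOVF
import Pool.Agent.P.MP_874adf_gt.Gn.TKA
import Pool.Agent.P.MP_874adf_gt.Gn.TWALL
import Pool.Agent.P.MP_874adf_gt.Gn.TSPAN
import Pool.Agent.P.MP_874adf_gt.Gn.TRAYB
import Pool.Agent.P.MP_874adf_gt.Gn.TDBB
import Pool.Agent.P.MP_874adf_gt.Gn.TPOSK
import Pool.Agent.P.MP_874adf_gt.Gn.TADD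
import Pool.Agent.P.MP_874adf_gt.Gn.TTRF
import Pool.Agent.P.MP_874adf_gt.Gn.TORG
import Pool.Agent.P.MP_874adf_gt.Gn.TDZ
import Pool.Agent.P.MP_874adf_gt.Gn.TDICH
import Pool.Agent.P.MP_874adf_gt.Gn.TFOC
import Pool.Agent.P.MP_874adf_gt.Gn.TNLH
import Pool.Agent.P.MP_874adf_gt.Gn.TNLF
import Pool.Agent.P.MP_874adf_gt.Gn.TAEQ
import Pool.Agent.P.MP_874adf_gt.Gn.TSTEPC
import Pool.Agent.P.MP_874adf_gt.Gn.TMAIN
import Pool.Agent.P.MP_874adf_gt.Gn.Final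

/-! All steps put together. -/

namespace Pool.Agent.P.MP_874adf_gt.Gn

theorem all_STRUCTU : S_STRUCTU := p_STRUCTU
theorem all_CRA : S_CRA := p_CRA
theorem all_T1 : S_T1 := p_T1 all_CRA
theorem all_MON : S_MON := p_MON
theorem all_AFF : S_AFF := p_AFF
theorem all_CR : S_CR := p_CR all_CRA
theorem all_T2 : S_T2 := p_T2 all_MON all_AFF all_CR
theorem all_EG : S_EG := p_EG
theorem all_LRR : S_LRR := p_LRR
theorem all_RHO : S_RHO := p_RHO all_LRR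
theorem all_GPAR : S_GPAR := p_GPAR
theorem all_GSLICE : S_GSLICE := p_GSLICE all_GPAR
theorem all_GGAPL : S_GGAPL := p_GGAPL
theorem all_GEXP : S_GEXP := p_GEXP all_GGAPL
theorem all_GSEG : S_GSEG := p_GSEG all_GSLICE all_GEXP
theorem all_GLEVO : S_GLEVO := p_GLEVO all_GSEG
theorem all_GCLO : S_GCLO := p_GCLO
theorem all_GBAIRE : S_GBAIRE := p_GBAIRE all_GCLO
theorem all_GST0 : S_GST0 := p_GST0 all_GLEVO all_GBAIRE
theorem all_GP1 : S_GP1 := p_GP1 all_GBAIRE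
theorem all_GLEV : S_GLEV := p_GLEV all_GSEG
theorem all_GLEV0 : S_GLEV0 := p_GLEV0 all_GGAPL all_GPAR
theorem all_GGEO : S_GGEO := p_GGEO
theorem all_GPAS : S_GPAS := p_GPAS all_GLEV all_GLEV0 all_GCLO all_GGEO
theorem all_GDEC : S_GDEC := p_GDEC
theorem all_GTWO : S_GTWO := p_GTWO all_GLEV
theorem all_GGAP2 : S_GGAP2 := p_GGAP2
theorem all_GFAM : S_GFAM := p_GFAM all_GPAR all_GGAP2
theorem all_GFAMP : S_GFAMP := p_GFAMP all_GSEG all_GFAM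
theorem all_GCOV : S_GCOV := p_GCOV all_GTWO all_GFAMP
theorem all_GHVS : S_GHVS := p_GHVS all_GBAIRE all_GCOV
theorem all_GAWAY : S_GAWAY := p_GAWAY all_GHVS
theorem all_GEXH : S_GEXH := p_GEXH
theorem all_GRIG1 : S_GRIG1 := p_GRIG1 all_GEXH all_GHVS
theorem all_GLIP2 : S_GLIP2 := p_GLIP2
theorem all_GTRI : S_GTRI := p_GTRI all_GGAPL all_GPAR all_GSLICE all_GEXP all_GSEG all_GLIP2 all_GFAM
theorem all_GRIG2 : S_GRIG2 := p_GRIG2 all_GCLO all_GBAIRE all_GCOV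
theorem all_GRIG3 : S_GRIG3 := p_GRIG3 all_GTWO all_GTRI all_GRIG2
theorem all_GOFF : S_GOFF := p_GOFF all_GTWO all_GFAMP
theorem all_GRIG4 : S_GRIG4 := p_GRIG4 all_GOFF all_GCOV all_GRIG2
theorem all_GTYPE : S_GTYPE := p_GTYPE all_GAWAY all_GRIG1 all_GRIG3 all_GRIG4
theorem all_GACT : S_GACT := p_GACT all_GDEC all_GCOV all_GHVS all_GGEO all_GTYPE
theorem all_GOSPLIT : S_GOSPLIT := p_GOSPLIT all_GCOV
theorem all_GRESEP : S_GRESEP := p_GRESEP all_GHVS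
theorem all_GSEPN : S_GSEPN := p_GSEPN all_GOSPLIT all_GRESEP
theorem all_GAME : S_GAME := p_GAME all_GST0 all_GP1 all_GPAS all_GACT all_GHVS all_GSEPN
theorem all_FIN : S_FIN := p_FIN all_MON
theorem all_GAP : S_GAP := p_GAP
theorem all_CTX : S_CTX := p_CTX all_AFF all_FIN all_CR all_GAP
theorem all_REG : S_REG := p_REG all_MON
theorem all_MOV : S_MOV := p_MOV all_MON
theorem all_LIN : S_LIN := p_LIN all_MOV
theorem all_HGFL : S_HGFL := p_HGFL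
theorem all_HONG : S_HONG := p_HONG all_HGFL
theorem all_LIPL : S_LIPL := p_LIPL
theorem all_KI1 : S_KI1 := p_KI1 all_MOV all_LIPL
theorem all_KI2 : S_KI2 := p_KI2 all_LIPL all_KI1
theorem all_SEC : S_SEC := p_SEC
theorem all_OVF : S_OVF := p_OVF
theorem all_KA : S_KA := p_KA
theorem all_WALL : S_WALL := p_WALL
theorem all_SPAN : S_SPAN := p_SPAN
theorem all_RAYB : S_RAYB := p_RAYB
theorem all_DBB : S_DBB := p_DBB
theorem all_POSK : S_POSK := p_POSK all_RAYB all_DBB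
theorem all_ADD : S_ADD := p_ADD
theorem all_TRF : S_TRF := p_TRF
theorem all_ORG : S_ORG := p_ORG all_RAYB all_DBB
theorem all_DZ : S_DZ := p_DZ all_MOV all_LIN all_HONG all_KI2 all_SEC all_OVF all_KA all_WALL all_SPAN all_POSK all_ADD all_TRF all_ORG
theorem all_DICH : S_DICH := p_DICH all_DZ all_LIN all_HONG
theorem all_FOC : S_FOC := p_FOC all_FIN
theorem all_NLH : S_NLH := p_NLH
theorem all_NLF : S_NLF := p_NLF
theorem all_AEQ : S_AEQ := p_AEQ all_EG all_RHO all_GAME all_CTX all_REG all_DICH all_FOC all_NLH all_NLF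
theorem all_STEPC : S_STEPC := p_STEPC all_EG all_FIN
theorem all_MAIN : S_MAIN := p_MAIN all_STRUCTU all_T1 all_T2 all_AEQ all_STEPC

end Pool.Agent.P.MP_874adf_gt.Gn
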