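import Mathlib

/-! A measure in the plane with prescribed masses of rectangles. -/

set_option autoImplicit false

namespace Pool.Agent.P.MP_874adf_gt.Gn

open Set Filter Topology Metric MeasureTheory

lemma cra_limit (ν : ℕ → Measure (ℝ × ℝ)) (m : NNReal) (hm : ∀ n, ν n univ = m)
    {K : Set (ℝ × ℝ)} (hK : IsCompact K) (hs : ∀ n, ν n Kᶜ = 0) :
    ∃ μ : Measure (ℝ × ℝ), IsFiniteMeasure μ ∧
      (∀ F, IsClosed F → ∀ c : ENNReal, (∀ᶠ n in atTop, c ≤ ν n F) → c ≤ μ F) ∧
      (∀ U, IsOpen U → ∀ c : ENNReal, (∀ᶠ n in atTop, ν n U ≤ c) → μ U ≤ c) := by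
  have fin : ∀ n, IsFiniteMeasure (ν n) := fun n => ⟨by rw [hm]; exact ENNReal.coe_lt_top⟩
  let μs : ℕ → FiniteMeasure (ℝ × ℝ) := fun n => ⟨ν n, fin n⟩
  have ms : ∀ n, (μs n).mass = m := fun n => by
    have := FiniteMeasure.ennreal_mass (μ := μs n)
    exact ENNReal.coe_injective (this.trans (hm n))
  have cpt := isCompact_setOfPred_finiteMeasure_le_of_isCompact (E := ℝ × ℝ) m hK
  let U : Ultrafilter ℕ := Ultrafilter.of atTop
  have hU : (U : Filter ℕ) ≤ atTop := Ultrafilter.of_le _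
  obtain ⟨μ, -, hμ⟩ := isCompact_iff_ultrafilter_le_nhds.1 cpt (U.map μs) (by
    rw [Ultrafilter.coe_map, le_principal_iff, mem_map]
    refine univ_mem' fun n => ⟨(ms n).le, ?_⟩
    have : ((μs n Kᶜ : NNReal) : ENNReal) = 0 := by
      rw [FiniteMeasure.ennreal_coeFn_eq_coeFn_toMeasure]; exact hs n
    exact_mod_cast this)
  have hμ' : Tendsto μs U (𝓝 μ) := hμ
  have mm : μ.mass = m := by
    have := hμ'.mass
    simp only [ms] at this
    exact tendsto_nhds_unique this tendsto_const_nhds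
  have cl : ∀ F, IsClosed F → ∀ c : ENNReal, (∀ᶠ n in atTop, c ≤ ν n F) →
      c ≤ (μ : Measure (ℝ × ℝ)) F := fun F hF c h =>
    (le_limsup_of_frequently_le (h.filter_mono hU).frequently).trans
      (FiniteMeasure.limsup_measure_closed_le_of_tendsto hμ' hF)
  refine ⟨μ, inferInstance, cl, fun V hV c h => ?_⟩
  have h1 := cl Vᶜ hV.isClosed_compl (m - c) (h.mono fun n hn => by
    have := fin n
    rw [measure_compl hV.measurableSet (measure_ne_top _ _), hm]
    exact tsub_le_tsub_left hn _)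
  have h2 : (μ : Measure (ℝ × ℝ)) univ = m := by rw [← FiniteMeasure.ennreal_mass, mm]
  have h3 := measure_add_measure_compl (μ := (μ : Measure (ℝ × ℝ))) hV.measurableSet
  rw [h2] at h3
  have h4 : (m : ENNReal) ≤ c + (μ : Measure (ℝ × ℝ)) Vᶜ := by
    rw [add_comm]; exact tsub_le_iff_right.1 h1
  rw [← h3] at h4
  exact (ENNReal.add_le_add_iff_right (measure_ne_top _ _)).1 h4

/-- the mixed difference -/
def crD (F : ℝ → ℝ → ℝ) (s s' t t' : ℝ) : ℝ := F s t' + F s' t - F s t - F s' t'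

lemma crD_sum (F : ℝ → ℝ → ℝ) (g : ℕ → ℝ) (I J : ℕ) :
    ∑ i ∈ Finset.range I, ∑ j ∈ Finset.range J, crD F (g i) (g (i + 1)) (g j) (g (j + 1)) =
      crD F (g 0) (g I) (g 0) (g J) := by
  have h1 : ∀ i, ∑ j ∈ Finset.range J, crD F (g i) (g (i + 1)) (g j) (g (j + 1)) =
      crD F (g i) (g (i + 1)) (g 0) (g J) := fun i => by
    induction J with
    | zero => simp [crD]
    | succ J ih => rw [Finset.sum_range_succ, ih]; simp only [crD]; ring
  simp only [h1]
  induction I with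
  | zero => simp [crD]
  | succ I ih => rw [Finset.sum_range_succ, ih]; simp only [crD]; ring

theorem cra_measure (F : ℝ → ℝ → ℝ) {a b : ℝ} (ab : a < b)
    (cont : ContinuousOn (fun p : ℝ × ℝ => F p.1 p.2) (Icc a b ×ˢ Icc a b))
    (inc : ∀ s s' t t', a ≤ s → s ≤ s' → s' ≤ b → a ≤ t → t ≤ t' → t' ≤ b → 0 ≤ crD F s s' t t') :
    ∃ μ : Measure (ℝ × ℝ), IsFiniteMeasure μ ∧ ∀ s ∈ Ioo a b, ∀ t ∈ Ioo a b,
      μ.real (Iic s ×ˢ Iic t) = crD F a s a t := by
  classical
  set g : ℕ → ℕ → ℝ := fun n i => a + i * ((b - a) / (n + 1)) with hg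
  have dp : ∀ n : ℕ, 0 < (b - a) / (n + 1) := fun n => div_pos (by linarith) (by positivity)
  have g0 : ∀ n, g n 0 = a := fun n => by simp [hg]
  have g1 : ∀ n, g n (n + 1) = b := fun n => by
    simp only [hg]; push_cast; field_simp; ring
  have gm : ∀ n, StrictMono (g n) := fun n i j h => by
    have : (i : ℝ) < j := by exact_mod_cast h
    have := dp n
    simp only [hg]; nlinarith
  have ga : ∀ n i, a ≤ g n i := fun n i => by
    have := (gm n).monotone (Nat.zero_le i); rwa [g0] at this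
  have gb : ∀ n i, i ≤ n + 1 → g n i ≤ b := fun n i h => by
    have := (gm n).monotone h; rwa [g1] at this
  set w : ℕ → ℕ → ℕ → ℝ := fun n i j => crD F (g n i) (g n (i + 1)) (g n j) (g n (j + 1)) with hw
  have w0 : ∀ n, ∀ i ∈ Finset.range (n + 1), ∀ j ∈ Finset.range (n + 1), 0 ≤ w n i j :=
    fun n i hi j hj => inc _ _ _ _ (ga _ _) ((gm n).monotone (Nat.le_succ i))
      (gb n _ (by have := Finset.mem_range.1 hi; omega)) (ga _ _)
      ((gm n).monotone (Nat.le_succ j)) (gb n _ (by have := Finset.mem_range.1 hj; omega))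
  set ν : ℕ → Measure (ℝ × ℝ) := fun n => ∑ i ∈ Finset.range (n + 1), ∑ j ∈ Finset.range (n + 1),
    ENNReal.ofReal (w n i j) • Measure.dirac (g n (i + 1), g n (j + 1)) with hν
  have ap : ∀ n (S : Set (ℝ × ℝ)), ν n S = ∑ i ∈ Finset.range (n + 1), ∑ j ∈ Finset.range (n + 1),
      if (g n (i + 1), g n (j + 1)) ∈ S then ENNReal.ofReal (w n i j) else 0 := fun n S => by
    simp only [hν, Measure.coe_finsetSum, Finset.sum_apply, Measure.smul_apply, Measure.dirac_apply,
      smul_eq_mul, indicator, Pi.one_apply, mul_ite, mul_one, mul_zero]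
  have key : ∀ n I J, I ≤ n + 1 → J ≤ n + 1 →
      ν n (Iic (g n I) ×ˢ Iic (g n J)) = ENNReal.ofReal (crD F a (g n I) a (g n J)) := by
    intro n I J hI hJ
    have sI : Finset.range I ⊆ Finset.range (n + 1) := Finset.range_subset_range.2 hI
    have sJ : Finset.range J ⊆ Finset.range (n + 1) := Finset.range_subset_range.2 hJ
    have e := crD_sum F (g n) I J
    rw [g0] at e
    rw [ap, ← e, ENNReal.ofReal_sum_of_nonneg fun i hi =>
      Finset.sum_nonneg fun j hj => w0 n i (sI hi) j (sJ hj)]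
    symm
    refine Finset.sum_subset_zero_on_sdiff sI (fun i hi => Finset.sum_eq_zero fun j _ =>
      if_neg fun h => ?_) fun i hi => ?_
    · have := (gm n).le_iff_le.1 h.1
      exact (Finset.mem_sdiff.1 hi).2 (Finset.mem_range.2 (by omega))
    rw [ENNReal.ofReal_sum_of_nonneg fun j hj => w0 n i (sI hi) j (sJ hj)]
    refine Finset.sum_subset_zero_on_sdiff sJ (fun j hj => if_neg fun h => ?_)
      fun j hj => (if_pos ⟨?_, ?_⟩).symm
    · have := (gm n).le_iff_le.1 h.2
      exact (Finset.mem_sdiff.1 hj).2 (Finset.mem_range.2 (by omega))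
    · exact (gm n).monotone (Finset.mem_range.1 hi)
    · exact (gm n).monotone (Finset.mem_range.1 hj)
  have supp : ∀ n, ν n (Icc a b ×ˢ Icc a b)ᶜ = 0 := fun n => by
    rw [ap]
    refine Finset.sum_eq_zero fun i hi => Finset.sum_eq_zero fun j hj => if_neg fun h => h ?_
    exact ⟨⟨ga _ _, gb n _ (Finset.mem_range.1 hi)⟩, ⟨ga _ _, gb n _ (Finset.mem_range.1 hj)⟩⟩
  have tot : ∀ n, ν n univ = (crD F a b a b).toNNReal := fun n => by
    have := key n (n + 1) (n + 1) le_rfl le_rfl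
    rw [g1] at this
    refine Eq.trans ?_ this
    refine le_antisymm ?_ (measure_mono (subset_univ _))
    calc ν n univ ≤ ν n (Iic b ×ˢ Iic b ∪ (Icc a b ×ˢ Icc a b)ᶜ) := measure_mono fun p _ => by
          by_cases h : p ∈ Icc a b ×ˢ Icc a b
          · exact Or.inl ⟨h.1.2, h.2.2⟩
          · exact Or.inr h
      _ ≤ _ := by
          refine (measure_union_le _ _).trans ?_
          rw [supp, add_zero]
  obtain ⟨μ, fin, cl, op⟩ := cra_limit ν _ tot (isCompact_Icc.prod isCompact_Icc) supp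
  have grid : ∀ s s', a ≤ s → s < s' → s' ≤ b → ∀ᶠ n in atTop, ∃ I ≤ n + 1, s ≤ g n I ∧ g n I ≤ s' := by
    intro s s' h1 h2 h3
    have t : Tendsto (fun n : ℕ => (b - a) / ((n : ℝ) + 1)) atTop (𝓝 0) :=
      tendsto_const_nhds.div_atTop (tendsto_natCast_atTop_atTop.atTop_add tendsto_const_nhds)
    filter_upwards [t.eventually (gt_mem_nhds (sub_pos.2 h2))] with n hn
    have d0 := dp n
    set δ := (b - a) / ((n : ℝ) + 1) with hδ
    have q0 : 0 ≤ (s - a) / δ := div_nonneg (by linarith) d0.le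
    have c1 := Nat.le_ceil ((s - a) / δ)
    have c2 := Nat.ceil_lt_add_one q0
    rw [div_le_iff₀ d0] at c1
    have c3 : (⌈(s - a) / δ⌉₊ : ℝ) * δ < s - a + δ := by
      have := mul_lt_mul_of_pos_right c2 d0
      rwa [add_mul, div_mul_cancel₀ _ d0.ne', one_mul] at this
    have u : g n ⌈(s - a) / δ⌉₊ ≤ s' := by simp only [hg]; linarith
    refine ⟨_, ?_, by simp only [hg]; linarith, u⟩
    exact (gm n).le_iff_le.1 (by rw [g1]; linarith)
  have mono : ∀ s s' t t', a ≤ s → s ≤ s' → s' ≤ b → a ≤ t → t ≤ t' → t' ≤ b →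
      crD F a s a t ≤ crD F a s' a t' := by
    intro s s' t t' h1 h2 h3 h4 h5 h6
    have e1 := inc s s' a t' h1 h2 h3 le_rfl (h4.trans h5) h6
    have e2 := inc a s t t' le_rfl h1 (h2.trans h3) h4 h5 h6
    simp only [crD] at *
    linarith
  refine ⟨μ, fin, fun s hs t ht => ?_⟩
  have mem : ∀ η : ℝ, |η| < min (min (s - a) (b - s)) (min (t - a) (b - t)) →
      a < s + η ∧ s + η < b ∧ a < t + η ∧ t + η < b := fun η h => by
    simp only [lt_min_iff, abs_lt] at h
    refine ⟨?_, ?_, ?_, ?_⟩ <;> linarith [h.1.1.1, h.1.2.2, h.2.1.1, h.2.2.2]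
  set r := min (min (s - a) (b - s)) (min (t - a) (b - t)) with hr
  have r0 : 0 < r := by
    simp only [hr, lt_min_iff, sub_pos]; exact ⟨⟨hs.1, hs.2⟩, ht.1, ht.2⟩
  have ct : Tendsto (fun η : ℝ => crD F a (s + η) a (t + η)) (𝓝 0) (𝓝 (crD F a s a t)) := by
    have ev : ∀ᶠ η : ℝ in 𝓝 0, |η| < r := by
      filter_upwards [Metric.ball_mem_nhds (0 : ℝ) r0] with η h using by simpa using h
    have aux : ∀ f : ℝ → ℝ × ℝ, Continuous f → (∀ η, |η| < r → f η ∈ Icc a b ×ˢ Icc a b) →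
        Tendsto (fun η => F (f η).1 (f η).2) (𝓝 0) (𝓝 (F (f 0).1 (f 0).2)) := fun f cf hf =>
      (cont _ (hf 0 (by simpa using r0))).tendsto.comp
        (tendsto_nhdsWithin_iff.2 ⟨cf.tendsto 0, ev.mono hf⟩)
    have t1 := aux (fun η => (a, t + η)) (by fun_prop) fun η h =>
      ⟨⟨le_rfl, ab.le⟩, (mem η h).2.2.1.le, (mem η h).2.2.2.le⟩
    have t2 := aux (fun η => (s + η, a)) (by fun_prop) fun η h =>
      ⟨⟨(mem η h).1.le, (mem η h).2.1.le⟩, le_rfl, ab.le⟩
    have t3 := aux (fun η => (s + η, t + η)) (by fun_prop) fun η h =>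
      ⟨⟨(mem η h).1.le, (mem η h).2.1.le⟩, (mem η h).2.2.1.le, (mem η h).2.2.2.le⟩
    simp only [add_zero] at t1 t2 t3
    exact ((t1.add t2).sub tendsto_const_nhds).sub t3
  apply le_antisymm
  · refine ge_of_tendsto (ct.mono_left (nhdsWithin_le_nhds (s := Ioi 0))) ?_
    filter_upwards [Ioo_mem_nhdsGT r0] with η h
    obtain ⟨m1, m2, m3, m4⟩ := mem η (by rw [abs_of_pos h.1]; exact h.2)
    have h0 := h.1
    have := op (Iio (s + η / 2) ×ˢ Iio (t + η / 2)) (isOpen_Iio.prod isOpen_Iio)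
      (ENNReal.ofReal (crD F a (s + η) a (t + η))) (by
        filter_upwards [grid (s + η / 2) (s + η) (by linarith [hs.1]) (by linarith) m2.le,
          grid (t + η / 2) (t + η) (by linarith [ht.1]) (by linarith) m4.le] with n ⟨I, i1, i2, i3⟩
          ⟨J, j1, j2, j3⟩
        refine (measure_mono (prod_mono (Iio_subset_Iic_self.trans (Iic_subset_Iic.2 i2))
          (Iio_subset_Iic_self.trans (Iic_subset_Iic.2 j2)))).trans ?_
        rw [key n I J i1 j1]
        exact ENNReal.ofReal_le_ofReal (mono _ _ _ _ (ga _ _) i3 m2.le (ga _ _) j3 m4.le))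
    refine ENNReal.toReal_le_of_le_ofReal (inc _ _ _ _ le_rfl m1.le m2.le le_rfl m3.le m4.le)
      (le_trans (measure_mono (prod_mono (Iic_subset_Iio.2 ?_) (Iic_subset_Iio.2 ?_))) this)
    · linarith
    · linarith
  · refine le_of_tendsto (ct.mono_left (nhdsWithin_le_nhds (s := Iio 0))) ?_
    filter_upwards [Ioo_mem_nhdsLT (neg_lt_zero.2 r0)] with η h
    obtain ⟨m1, m2, m3, m4⟩ := mem η (by rw [abs_of_neg h.2]; linarith [h.1])
    have h0 := h.2
    have := cl (Iic s ×ˢ Iic t) (isClosed_Iic.prod isClosed_Iic)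
      (ENNReal.ofReal (crD F a (s + η) a (t + η))) (by
        filter_upwards [grid (s + η) s m1.le (by linarith) hs.2.le,
          grid (t + η) t m3.le (by linarith) ht.2.le] with n ⟨I, i1, i2, i3⟩ ⟨J, j1, j2, j3⟩
        refine le_trans ?_ (measure_mono (prod_mono (Iic_subset_Iic.2 i3) (Iic_subset_Iic.2 j3)))
        rw [key n I J i1 j1]
        exact ENNReal.ofReal_le_ofReal (mono _ _ _ _ m1.le i2 (gb n I i1) m3.le j2 (gb n J j1)))
    exact (ENNReal.ofReal_le_iff_le_toReal (measure_ne_top _ _)).1 this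

end Pool.Agent.P.MP_874adf_gt.Gn
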