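import Pool.Agent.P.MP_874adf_gt.Gn.CraA

/-! Masses below decreasing lines, by staircase sums. -/

set_option autoImplicit false

namespace Pool.Agent.P.MP_874adf_gt.Gn

open Set Filter Topology Metric MeasureTheory

lemma cra_steps {f : ℝ → ℝ} {s0 s1 δ : ℝ} (hδ : 0 < δ) (h01 : s0 ≤ s1)
    (h : ∀ u v, s0 ≤ u → u ≤ v → v ≤ s1 → v - u ≤ δ → f u ≤ f v) : f s0 ≤ f s1 := by
  have key : ∀ n : ℕ, ∀ v, s0 ≤ v → v ≤ s1 → v ≤ s0 + n * δ → f s0 ≤ f v := by
    intro n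
    induction n with
    | zero =>
      intro v h1 _ h3
      rw [le_antisymm (by simpa using h3) h1]
    | succ n ih =>
      intro v h1 h2 h3
      rcases le_total v (s0 + n * δ) with c | c
      · exact ih v h1 h2 c
      · have p : s0 ≤ s0 + n * δ := le_add_of_nonneg_right (by positivity)
        push_cast at h3
        exact (ih _ p (c.trans h2) le_rfl).trans (h _ _ p c h2 (by linarith))
  obtain ⟨n, hn⟩ := exists_nat_ge ((s1 - s0) / δ)
  rw [div_le_iff₀ hδ] at hn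
  exact key n s1 h01 le_rfl (by linarith)

/-- the part of a strip below a line -/
def crS (s0 s1 α β : ℝ) : Set (ℝ × ℝ) := {p | s0 < p.1 ∧ p.1 ≤ s1 ∧ p.2 ≤ α - β * p.1}

def crO (s0 s1 α β : ℝ) : Set (ℝ × ℝ) := {p | s0 < p.1 ∧ p.1 ≤ s1 ∧ p.2 < α - β * p.1}

lemma crS_meas (s0 s1 α β : ℝ) : MeasurableSet (crS s0 s1 α β) :=
  (measurableSet_lt measurable_const measurable_fst).inter
    ((measurableSet_le measurable_fst measurable_const).inter
      (measurableSet_le measurable_snd (by fun_prop)))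

lemma crO_meas (s0 s1 α β : ℝ) : MeasurableSet (crO s0 s1 α β) :=
  (measurableSet_lt measurable_const measurable_fst).inter
    ((measurableSet_le measurable_fst measurable_const).inter
      (measurableSet_lt measurable_snd (by fun_prop)))

lemma crS_add (μ : Measure (ℝ × ℝ)) [IsFiniteMeasure μ] {s0 u v : ℝ} (h1 : s0 ≤ u) (h2 : u ≤ v)
    (α β : ℝ) : μ.real (crS s0 v α β) = μ.real (crS s0 u α β) + μ.real (crS u v α β) := by
  rw [← measureReal_union _ (crS_meas _ _ _ _)]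
  · congr 1
    ext p
    simp only [crS, mem_union, mem_ofPred_eq]
    constructor
    · rintro ⟨a, b, c⟩
      rcases le_or_gt p.1 u with e | e
      · exact Or.inl ⟨a, e, c⟩
      · exact Or.inr ⟨e, b, c⟩
    · rintro (⟨a, b, c⟩ | ⟨a, b, c⟩)
      · exact ⟨a, b.trans h2, c⟩
      · exact ⟨h1.trans_lt a, b, c⟩
  · exact disjoint_left.2 fun p h h' => (not_le.2 h'.1) h.2.1

lemma cra_strip {μ : Measure (ℝ × ℝ)} [IsFiniteMeasure μ] {F : ℝ → ℝ → ℝ} {a b : ℝ}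
    (hμ : ∀ s ∈ Ioo a b, ∀ t ∈ Ioo a b, μ.real (Iic s ×ˢ Iic t) = crD F a s a t)
    {u v t : ℝ} (hu : u ∈ Ioo a b) (hv : v ∈ Ioo a b) (uv : u ≤ v) (ht : t ∈ Ioo a b) :
    μ.real (Ioc u v ×ˢ Iic t) = F u t - F v t + F v a - F u a := by
  have e : Iic v ×ˢ Iic t = Iic u ×ˢ Iic t ∪ Ioc u v ×ˢ Iic t := by
    rw [← union_prod, Iic_union_Ioc_eq_Iic uv]
  have := hμ v hv t ht
  rw [e, measureReal_union (Disjoint.set_prod_left (Iic_disjoint_Ioc le_rfl) _ _)
    (measurableSet_Ioc.prod measurableSet_Iic), hμ u hu t ht] at this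
  simp only [crD] at this
  linarith

lemma cra_stair {μ : Measure (ℝ × ℝ)} [IsFiniteMeasure μ] {F : ℝ → ℝ → ℝ} {a b : ℝ}
    (hμ : ∀ s ∈ Ioo a b, ∀ t ∈ Ioo a b, μ.real (Iic s ×ˢ Iic t) = crD F a s a t)
    {s0 s1 α β : ℝ} (a0 : a < s0) (h01 : s0 ≤ s1) (b1 : s1 < b) (hβ : 0 < β)
    (hφ : ∀ s ∈ Icc s0 s1, α - β * s ∈ Ioo a b) {D E : ℝ → ℝ}
    (le : ∀ s ∈ Icc s0 s1, ∀ t ∈ Ioo a b, F s t ≤ D s + E t)
    (eq : ∀ s ∈ Icc s0 s1, F s (α - β * s) = D s + E (α - β * s)) {η : ℝ} (hη : 0 < η) :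
    μ.real (crS s0 s1 (α - η) β) ≤ D s0 - D s1 + F s1 a - F s0 a ∧
      D s0 - D s1 + F s1 a - F s0 a ≤ μ.real (crS s0 s1 (α + η) β) := by
  have z : ∀ γ, μ.real (crS s0 s0 γ β) = 0 := fun γ => by
    have : crS s0 s0 γ β = ∅ := eq_empty_of_forall_notMem fun p h => (not_le.2 h.1) h.2.1
    rw [this, measureReal_empty]
  have d0 : 0 < η / β := div_pos hη hβ
  constructor
  · have := cra_steps (f := fun s => F s a - D s - μ.real (crS s0 s (α - η) β)) d0 h01 ?_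
    · simp only [z] at this; linarith
    intro u v h1 h2 h3 h4
    have mu : u ∈ Icc s0 s1 := ⟨h1, h2.trans h3⟩
    have mv : v ∈ Icc s0 s1 := ⟨h1.trans h2, h3⟩
    rw [le_div_iff₀ hβ] at h4
    have e1 := cra_strip hμ ⟨a0.trans_le h1, mu.2.trans_lt b1⟩ ⟨a0.trans_le mv.1, h3.trans_lt b1⟩ h2
      (hφ v mv)
    have e2 : μ.real (crS u v (α - η) β) ≤ μ.real (Ioc u v ×ˢ Iic (α - β * v)) :=
      measureReal_mono fun p hp => ⟨⟨hp.1, hp.2.1⟩, by
        have := hp.2.2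
        have := mul_le_mul_of_nonneg_left hp.1.le hβ.le
        simp only [mem_Iic]; linarith⟩
    have e3 := le u mu _ (hφ v mv)
    have e4 := eq v mv
    simp only [crS_add μ h1 h2]
    linarith
  · have := cra_steps (f := fun s => μ.real (crS s0 s (α + η) β) - (F s a - D s)) d0 h01 ?_
    · simp only [z] at this; linarith
    intro u v h1 h2 h3 h4
    have mu : u ∈ Icc s0 s1 := ⟨h1, h2.trans h3⟩
    have mv : v ∈ Icc s0 s1 := ⟨h1.trans h2, h3⟩
    rw [le_div_iff₀ hβ] at h4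
    have e1 := cra_strip hμ ⟨a0.trans_le h1, mu.2.trans_lt b1⟩ ⟨a0.trans_le mv.1, h3.trans_lt b1⟩ h2
      (hφ u mu)
    have e2 : μ.real (Ioc u v ×ˢ Iic (α - β * u)) ≤ μ.real (crS u v (α + η) β) :=
      measureReal_mono fun p hp => ⟨hp.1.1, hp.1.2, by
        have : p.2 ≤ α - β * u := hp.2
        have := mul_le_mul_of_nonneg_left hp.1.2 hβ.le
        linarith⟩
    have e3 := le v mv _ (hφ u mu)
    have e4 := eq u mu
    simp only [crS_add μ h1 h2]
    linarith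

/-- with a continuous family of shifted lines the mass below the line is determined -/
lemma cra_exact {μ : Measure (ℝ × ℝ)} [IsFiniteMeasure μ] {s0 s1 α β : ℝ} {X : ℝ → ℝ}
    (cX : ContinuousAt X 0)
    (h : ∀ᶠ γ in 𝓝 (0 : ℝ), ∀ η > (0 : ℝ), μ.real (crS s0 s1 (α + γ - η) β) ≤ X γ ∧
      X γ ≤ μ.real (crS s0 s1 (α + γ + η) β)) :
    μ.real (crO s0 s1 α β) = X 0 := by
  apply le_antisymm
  · refine ge_of_tendsto (cX.tendsto.mono_left (nhdsWithin_le_nhds (s := Ioi 0))) ?_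
    filter_upwards [h.filter_mono nhdsWithin_le_nhds, self_mem_nhdsWithin] with γ h1 h2
    refine le_trans ?_ (h1 γ h2).1
    refine measureReal_mono fun p hp => ⟨hp.1, hp.2.1, ?_⟩
    have := hp.2.2
    linarith
  · refine le_of_tendsto (cX.tendsto.mono_left (nhdsWithin_le_nhds (s := Iio 0))) ?_
    filter_upwards [h.filter_mono nhdsWithin_le_nhds, self_mem_nhdsWithin] with γ h1 h2
    have h3 : γ < 0 := h2
    refine le_trans (h1 (-γ / 2) (by linarith)).2 (measureReal_mono fun p hp => ⟨hp.1, hp.2.1, ?_⟩)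
    have := hp.2.2
    linarith

lemma cra_sign {V : ℝ → ℝ → ℝ} {g : ℝ → ℝ} {s0 s1 A B δ : ℝ} (h01 : s0 < s1)
    (add : ∀ c ∈ Icc s0 s1, V s0 s1 = V s0 c + V c s1)
    (pos : ∀ u ∈ Icc s0 s1, ∀ v ∈ Icc s0 s1, u ≤ v → 0 ≤ A + B * u → 0 ≤ A + B * v →
      V u v = g v - g u)
    (neg : ∀ u ∈ Icc s0 s1, ∀ v ∈ Icc s0 s1, u ≤ v → A + B * u ≤ 0 → A + B * v ≤ 0 →
      V u v = g u - g v)
    (cp : ∀ c ∈ Icc s0 s1, A + B * c = 0 → 0 < B → g c = -δ)
    (cn : ∀ c ∈ Icc s0 s1, A + B * c = 0 → B < 0 → g c = δ) (nz : B = 0 → A ≠ 0) :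
    V s0 s1 = Real.sign (A + B * s1) * g s1 - Real.sign (A + B * s0) * g s0 +
      |Real.sign (A + B * s1) - Real.sign (A + B * s0)| * δ := by
  have m0 : s0 ∈ Icc s0 s1 := left_mem_Icc.2 h01.le
  have m1 : s1 ∈ Icc s0 s1 := right_mem_Icc.2 h01.le
  have e : A + B * s1 = A + B * s0 + B * (s1 - s0) := by ring
  have q : 0 < s1 - s0 := sub_pos.2 h01
  have root : B ≠ 0 → A + B * (-A / B) = 0 := fun h => by field_simp; ring
  rcases lt_trichotomy (A + B * s0) 0 with a | a | a <;>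
    rcases lt_trichotomy (A + B * s1) 0 with b | b | b
  · rw [Real.sign_of_neg a, Real.sign_of_neg b, neg _ m0 _ m1 h01.le a.le b.le]; simp; ring
  · have B0 : 0 < B := by nlinarith
    rw [Real.sign_of_neg a, b, Real.sign_zero, neg _ m0 _ m1 h01.le a.le b.le, cp _ m1 b B0]
    norm_num
  · have B0 : 0 < B := by nlinarith
    have r := root B0.ne'
    have mc : -A / B ∈ Icc s0 s1 := ⟨by nlinarith, by nlinarith⟩
    rw [Real.sign_of_neg a, Real.sign_of_pos b, add _ mc, neg _ m0 _ mc mc.1 a.le r.le,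
      pos _ mc _ m1 mc.2 r.ge b.le, cp _ mc r B0]
    norm_num; ring
  · have B0 : B < 0 := by nlinarith
    rw [Real.sign_of_neg b, a, Real.sign_zero, neg _ m0 _ m1 h01.le a.le b.le, cn _ m0 a B0]
    norm_num; ring
  · have B0 : B = 0 := by
      rw [a, b, zero_add] at e
      exact (mul_eq_zero.1 e.symm).resolve_right q.ne'
    rw [B0] at a
    exact absurd (by simpa using a) (nz B0)
  · have B0 : 0 < B := by nlinarith
    rw [Real.sign_of_pos b, a, Real.sign_zero, pos _ m0 _ m1 h01.le a.ge b.le, cp _ m0 a B0]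
    norm_num
  · have B0 : B < 0 := by nlinarith
    have r := root B0.ne
    have mc : -A / B ∈ Icc s0 s1 := ⟨by nlinarith, by nlinarith⟩
    rw [Real.sign_of_pos a, Real.sign_of_neg b, add _ mc, pos _ m0 _ mc mc.1 a.le r.ge,
      neg _ mc _ m1 mc.2 r.le b.le, cn _ mc r B0]
    norm_num; ring
  · have B0 : B < 0 := by nlinarith
    rw [Real.sign_of_pos a, b, Real.sign_zero, pos _ m0 _ m1 h01.le a.le b.ge, cn _ m1 b B0]
    norm_num; ring
  · rw [Real.sign_of_pos a, Real.sign_of_pos b, pos _ m0 _ m1 h01.le a.le b.le]; simp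

/-- two sign changes around a parallelogram -/
lemma cra_four {p q r s : ℝ} (e : p + r = q + s) (hp : 0 < p ∨ 0 < q ∨ 0 < r ∨ 0 < s)
    (hn : p < 0 ∨ q < 0 ∨ r < 0 ∨ s < 0) :
    |Real.sign p - Real.sign q| + |Real.sign q - Real.sign r| + |Real.sign r - Real.sign s| +
      |Real.sign s - Real.sign p| = 4 := by
  have tri : ∀ x : ℝ, (x < 0 ∧ Real.sign x = -1) ∨ (x = 0 ∧ Real.sign x = 0) ∨
      (0 < x ∧ Real.sign x = 1) := fun x => by
    rcases lt_trichotomy x 0 with a | a | a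
    · exact Or.inl ⟨a, Real.sign_of_neg a⟩
    · exact Or.inr (Or.inl ⟨a, by rw [a, Real.sign_zero]⟩)
    · exact Or.inr (Or.inr ⟨a, Real.sign_of_pos a⟩)
  rcases tri p with ⟨a, a'⟩ | ⟨a, a'⟩ | ⟨a, a'⟩ <;> rcases tri q with ⟨b, b'⟩ | ⟨b, b'⟩ | ⟨b, b'⟩ <;>
    rcases tri r with ⟨c, c'⟩ | ⟨c, c'⟩ | ⟨c, c'⟩ <;>
    rcases tri s with ⟨f, f'⟩ | ⟨f, f'⟩ | ⟨f, f'⟩ <;> rw [a', b', c', f'] <;>
    first
    | (norm_num; done)
    | (exfalso; linarith)
    | (exfalso; rcases hp with h | h | h | h <;> linarith)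
    | (exfalso; rcases hn with h | h | h | h <;> linarith)

end Pool.Agent.P.MP_874adf_gt.Gn
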