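import Pool.Agent.P.MP_874adf_gt.Gn.Iface0

/-! Definitions for the dichotomy along a system of places. -/

set_option autoImplicit false

namespace Pool.Agent.P.MP_874adf_gt.Gn

open Pool.Agent.P.MP_874adf_gt.Fs Set Filter Topology Metric MeasureTheory

/-- on the points of `Q` with level within `k` of `lv` the function `hf` climbs by `dd` per level step `δ` -/
def Stair (d : P → P → ℝ) (D : Dat) (Q : Set P) (lv k δ ε : ℝ) : Prop :=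
  ∃ dd : ℝ, ∀ u ∈ Q, ∀ w ∈ Q, |d (dO D) u - lv| ≤ k → |d (dO D) w - lv| ≤ k → ∀ m : ℕ,
    m * δ ≤ d (dO D) w - d (dO D) u → d (dO D) w - d (dO D) u ≤ (m + 1) * δ →
      m * dd - ε ≤ hf d D w - hf d D u ∧ hf d D w - hf d D u ≤ (m + 1) * dd + ε

noncomputable def W0 : Ultrafilter ℕ := Ultrafilter.of atTop

lemma W0_le : (W0 : Filter ℕ) ≤ atTop := Ultrafilter.of_le _

namespace Sys

variable {c : Ctx} {ι : Type} (S : Sys c ι)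

noncomputable def UU : Ultrafilter (ℕ × ι) := W0.bind fun j => S.U.map (Prod.mk j)

lemma ev_UU (p : ℕ × ι → Prop) : (∀ᶠ q in (S.UU : Filter (ℕ × ι)), p q) ↔
    ∀ᶠ j in (W0 : Filter ℕ), ∀ᶠ i in (S.U : Filter ι), p (j, i) := Iff.rfl

/-- a system whose places lie in bounded ranges of `S` and which has the same normalisation -/
structure Over (S' : Sys c (ℕ × ι)) : Prop where
  eU : S'.U = S.UU
  eN : ∀ q, S'.N q = S.N q.2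
  rng : ∀ j, ∃ L : ℝ, ∀ᶠ i in (S.U : Filter ι), S'.x (j, i) ∈ S.B L i ∧ S'.s (j, i) ≤ L * S.s i

/-- the same system indexed by pairs -/
noncomputable def lift : Sys c (ℕ × ι) where
  U := S.UU
  x q := S.x q.2
  s q := S.s q.2
  N q := S.N q.2
  tx := fun _ h => Eventually.of_forall (f := (W0 : Filter ℕ)) fun _ => S.tx h
  ts := fun _ h => Eventually.of_forall (f := (W0 : Filter ℕ)) fun _ => S.ts h
  s0 q := S.s0 q.2
  N0 q := S.N0 q.2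
  cmp := by
    obtain ⟨C, h0, h⟩ := S.cmp
    exact ⟨C, h0, (S.ev_UU _).2 (Eventually.of_forall fun _ => h)⟩

lemma ev_lift (p : ι → Prop) : (∀ᶠ q in (S.lift.U : Filter (ℕ × ι)), p q.2) ↔
    ∀ᶠ i in (S.U : Filter ι), p i :=
  ⟨fun h => ((S.ev_UU _).1 h).exists.elim fun _ h => h,
    fun h => (S.ev_UU _).2 (Eventually.of_forall fun _ => h)⟩

lemma over_lift : S.Over S.lift :=
  ⟨rfl, fun _ => rfl, fun _ => ⟨1, Eventually.of_forall fun i =>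
    ⟨mem_closedBall_self (by simpa using (S.s0 i).le), by simp [lift]⟩⟩⟩

/-- the level of `u` is within `k N` of the level of the place -/
def Lv (D : ι → Dat) (k : ℝ) (i : ι) (u : P) : Prop :=
  |c.d (dO (D i)) u - c.d (dO (D i)) (S.x i)| ≤ k * S.N i

/-- increment of the level -/
def db (_S : Sys c ι) (D : ι → Dat) (i : ι) (u w : P) : ℝ := c.d (dO (D i)) w - c.d (dO (D i)) u

/-- increment of `hf` -/
noncomputable def dh (_S : Sys c ι) (D : ι → Dat) (i : ι) (u w : P) : ℝ :=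
  hf c.d (D i) w - hf c.d (D i) u

def KAff (D : ι → Dat) (κ : ℝ) : Prop :=
  ∀ k : ℝ, ∀ ε > (0 : ℝ), ∀ᶠ i in (S.U : Filter ι), ∀ u ∈ S.B k i, ∀ w ∈ S.B k i,
    S.Lv D k i u → S.Lv D k i w → |S.dh D i u w - κ * S.db D i u w| ≤ ε * S.N i

def Low (D : ι → Dat) (κ : ℝ) : Prop :=
  ∀ k : ℝ, ∀ ε > (0 : ℝ), ∀ᶠ i in (S.U : Filter ι), ∀ u ∈ S.B k i, ∀ w ∈ S.B k i,
    S.Lv D k i u → S.Lv D k i w → 0 ≤ S.db D i u w → κ * S.db D i u w - ε * S.N i ≤ S.dh D i u w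

/-- the places lie on a wall of almost horizontal lines -/
def Wall : Prop :=
  ∀ T k : ℝ, ∀ η > (0 : ℝ), ∀ᶠ i in (S.U : Filter ι), ∀ t : ℝ, |t| ≤ T →
    k * S.N i ≤ c.d (S.x i) (S.x i + (η * S.s i) • (t, 1)) ∧
      k * S.N i ≤ c.d (S.x i) (S.x i - (η * S.s i) • (t, 1))

/-- two points with far apart levels and almost the same value of `hf` -/
def Span (D : ι → Dat) : Prop :=
  ∀ k : ℝ, ∀ ε > (0 : ℝ), ∀ᶠ i in (S.U : Filter ι), ∃ u ∈ S.B 1 i, ∃ w ∈ S.B 1 i,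
    k * S.N i ≤ S.db D i u (S.x i) ∧ k * S.N i ≤ S.db D i (S.x i) w ∧ S.dh D i u w ≤ ε * S.N i

/-- test pairs at all bounded levels -/
def Test (D : ι → Dat) (lam : ℝ) : Prop :=
  ∀ k : ℝ, ∃ L : ℝ, ∀ ε > (0 : ℝ), ∀ᶠ i in (S.U : Filter ι), ∀ a t : ℝ, |a| ≤ k → 0 ≤ t → t ≤ k →
    ∃ u ∈ S.B L i, ∃ w ∈ S.B L i, ∃ w' ∈ S.B L i, |S.db D i (S.x i) u - a * S.N i| ≤ ε * S.N i ∧
      |S.db D i u w - lam * t * S.N i| ≤ ε * S.N i ∧ |S.db D i u w' - lam * t * S.N i| ≤ ε * S.N i ∧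
      ((1 - lam) * t - ε) * S.N i ≤ S.dh D i u w ∧ S.dh D i u w' ≤ ((1 - lam) * t + ε) * S.N i

def Law (D : ι → Dat) (lam : ℝ) : Prop :=
  ∀ k : ℝ, ∀ ε > (0 : ℝ), ∀ᶠ i in (S.U : Filter ι), ∀ u ∈ S.B k i, ∀ w ∈ S.B k i,
    S.Lv D k i u → S.Lv D k i w → ∀ t : ℝ, 0 ≤ t → t ≤ k →
      (S.db D i u w ≤ (lam * t - ε) * S.N i → S.dh D i u w ≤ ((1 - lam) * t + ε) * S.N i) ∧
      ((lam * t + ε) * S.N i ≤ S.db D i u w → ((1 - lam) * t - ε) * S.N i ≤ S.dh D i u w)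

def FlatAt (ζ : ℝ) : Prop := ∀ ε > (0 : ℝ), ∀ k : ℝ,
  ∃ (D : ι → Dat) (tO tA tB r : ℝ), S.Fam 1 D tO tA tB r ∧ Thin (ln c.G) c.π 1 ζ ε tO tA tB r ∧
    ∀ᶠ i in (S.U : Filter ι), ∀ y ∈ S.B k i, ∀ z ∈ S.B k i, c.d (S.x i) y ≤ k * S.N i →
      c.d (S.x i) z ≤ k * S.N i → |hf c.d (D i) z - hf c.d (D i) y| ≤ ε * S.N i

def AffAt (ζ : ℝ) : Prop := S.DB ∧ ∃ (O A : ι → P) (lam : ℝ), 0 ≤ lam ∧ lam < 1 ∧ S.Far 1 O ζ ∧
  S.Far 1 A (fx (ln c.G) 1 ζ) ∧ S.Lin ![O, A, A] ![1, -lam, 0] (fx (ln c.G) 1 ζ)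

/-- a family taken from the cell `v` -/
def FamIn (v : Set Dat) (D : ι → Dat) : Prop :=
  ∃ E ∈ v, (∀ i, D i ∈ v) ∧ S.Fam 1 D (sl 0 (dO E)) (sl 0 (dA E)) (sl 0 (dB E)) (dr E)

end Sys

end Pool.Agent.P.MP_874adf_gt.Gn
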