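import Pool.Agent.P.MP_874adf_gt.Gn.Iface0

/-! Definitions for the block GAME. -/

set_option autoImplicit false

namespace Pool.Agent.P.MP_874adf_gt.Gn

open Pool.Agent.P.MP_874adf_gt.Fs Set Filter Topology Metric MeasureTheory

namespace Ga

/-! ### Measure part -/

/-- `x` is a density point of the arbitrary set `E` (the complement has outer density zero) -/
def DenW (E : Set P) (x : P) : Prop :=
  ∀ η > (0 : ℝ), ∀ᶠ r in 𝓝[>] (0 : ℝ), volume (closedBall x r \ E) ≤ ENNReal.ofReal (η * r ^ 2)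

def Den (Q : Set P) : Set P := {x | x ∈ Q ∧ DenW Q x}

/-- the point with offset `κ` and parameter `τ` in the frame of `e` at `x` -/
def par (x e : P) (κ τ : ℝ) : P := x + κ • ((-e.2, e.1) : P) + τ • e

/-- the part `B` of the parameter line of `σ` has `d`-length at most `η` -/
def Sm (d : P → P → ℝ) (σ : ℝ → P) (B : Set ℝ) (η : ℝ) : Prop :=
  ∀ (Z : Set ℝ) (τ : ℝ → ℝ) (κ : ℝ), 0 < κ → (∀ a ∈ Z, τ a ∈ B) →
    (∀ a ∈ Z, ∀ a' ∈ Z, κ * |a - a'| ≤ d (σ (τ a)) (σ (τ a'))) →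
    volume Z ≤ ENNReal.ofReal (η / κ)

/-! ### States -/

/-- a piece -/
structure Pc (k : Kx) (Q : Set P) : Prop where
  cpt : IsCompact Q
  sub : Q ⊆ k.K
  pos : 0 < volume Q

/-- a good cell -/
structure Good (k : Kx) (v : Set Dat) : Prop where
  cpt : IsCompact v
  mO : ∀ D ∈ v, dO D ∈ k.K
  mB : ∀ D ∈ v, dB D ∈ k.M
  ne : ∀ D ∈ v, dO D ≠ dB D
  l0 : ∀ D ∈ v, 0 < dl D
  l1 : ∀ D ∈ v, dl D < 1
  r0 : ∀ D ∈ v, 0 < dr D
  r1 : ∀ D ∈ v, dr D < 1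

/-- the cell contains focal data of the circle `p = (centre, radius)` -/
def Vd (k : Kx) (v : Set Dat) (p : P × ℝ) : Prop := ∃ D ∈ v, dO D = p.1 ∧ Circ k.M k.d D p.2

/-- circles with centre a density point of `Q0` through density points of all members of `QQ` -/
def Rich (k : Kx) (Q0 : Set P) (QQ : Set (Set P)) : Set (P × ℝ) :=
  {p | p.1 ∈ Den Q0 ∧ ∀ Q ∈ QQ, ∃ y ∈ Den Q, k.d p.1 y = p.2}

/-- a frame: pieces and an open set of circles that contains a rich circle -/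
structure Fr (k : Kx) (Q0 : Set P) (QQ : Set (Set P)) (U : Set (P × ℝ)) : Prop where
  p0 : Pc k Q0
  fin : QQ.Finite
  pc : ∀ Q ∈ QQ, Pc k Q
  opn : IsOpen U
  rng : ∀ p ∈ U, 0 < p.2 ∧ p.2 < k.a1
  ne : (Rich k Q0 QQ ∩ U).Nonempty

/-- a state: the cell is valid for all rich circles of the frame -/
structure St (k : Kx) (Q0 : Set P) (QQ : Set (Set P)) (U : Set (P × ℝ)) (v : Set Dat) : Prop where
  fr : Fr k Q0 QQ U
  good : Good k v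
  val : ∀ p ∈ Rich k Q0 QQ ∩ U, Vd k v p

/-- the directions from `Q0` to `Q` are directions of strict convexity -/
def SCs (k : Kx) (Q0 Q : Set P) : Prop := ∀ O ∈ Q0, ∀ y ∈ Q, SCd (k.F O) (y - O)

structure HVd (k : Kx) (v : Set Dat) (Q Q0 : Set P) (QQ : Set (Set P)) (U : Set (P × ℝ)) : Prop where
  pc : Pc k Q
  st : St k Q0 QQ U v
  cov : ∃ W, IsOpen W ∧ Q ⊆ W ∧ ∀ y ∈ W, ∃ O, (O, k.d O y) ∈ Rich k Q0 QQ ∩ U
  sc : SCs k Q0 Q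

/-- the cell is valid on a full neighbourhood of the piece, hereditarily -/
def HV (k : Kx) (v : Set Dat) (Q : Set P) : Prop := ∃ Q0 QQ U, HVd k v Q Q0 QQ U

def Aw (f : Dat → P) (v : Set Dat) (Q : Set P) : Prop := ∀ D ∈ v, f D ∉ Q

def Sep2 (f : Dat → P) (w1 w2 : Set Dat) (Q : Set P) : Prop :=
  ∀ y ∈ Q, ∀ D ∈ w1, ∀ D' ∈ w2, wed (f D - y) (f D' - y) ≠ 0

def Split (k : Kx) (f : Dat → P) (w : Set Dat) (Q : Set P) : Prop :=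
  ∃ Q' ⊆ Q, ∃ w1 ⊆ w, ∃ w2 ⊆ w, HV k w1 Q' ∧ HV k w2 Q' ∧ Sep2 f w1 w2 Q'

/-- limit data at a point -/
def Om (k : Kx) (w : Set Dat) (Qb : Set P) (y : P) (D : Dat) : Prop :=
  D ∈ w ∧ ∀ ε > (0 : ℝ), ∃ w' ⊆ w ∩ ball D ε, ∃ Y' ⊆ Qb ∩ ball y ε, HV k w' Y'

/-- the limit data at each point of `Qb` are seen on one line -/
def Uni (k : Kx) (f : Dat → P) (w : Set Dat) (Qb : Set P) : Prop :=
  ∀ y ∈ Qb, ∀ D D', Om k w Qb y D → Om k w Qb y D' → wed (f D - y) (f D' - y) = 0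

def HS (k : Kx) (f : Dat → P) (v : Set Dat) (Q : Set P) : Prop :=
  ∀ w ⊆ v, ∀ Q' ⊆ Q, HV k w Q' → Split k f w Q'

structure HT (k : Kx) (v : Set Dat) (Q : Set P) : Prop where
  hv : HV k v Q
  aO : Aw dO v Q
  aA : Aw dA v Q
  aB : Aw dB v Q
  hA : HS k dA v Q ∨ Cst dA v
  hB : HS k dB v Q ∨ Cst dB v

/-! ### Patterns -/

/-- the radius determined by the data -/
def rad (k : Kx) (D : Dat) : ℝ := dr D * k.d (dO D) (dB D)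

noncomputable def pat (k : Kx) (D : Dat) : P × ℝ := ((rad k D)⁻¹ • (dB D - dO D), piD D)

/-- the direction from `O` to `y` is within `η` of the direction of `e` -/
def Dir (O y e : P) (η : ℝ) : Prop := y ≠ O ∧ ‖‖y - O‖⁻¹ • (y - O) - ‖e‖⁻¹ • e‖ ≤ η

def Av (k : Kx) (Q : Set P) (c : Set (P × ℝ)) (E : Set P) (η : ℝ) : Prop :=
  ∃ Q0 ⊆ Q, ∃ QQ U v, St k Q0 QQ U v ∧ (∀ D ∈ v, pat k D ∈ c) ∧ (∀ p ∈ U, p.2 < η) ∧
    ∀ e ∈ E, ∃ Y ∈ QQ, Y ⊆ Q ∧ ∀ O ∈ Q0, ∀ y ∈ Y, Dir O y e η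

structure Pers (k : Kx) (Q : Set P) (c : Set (P × ℝ)) : Prop where
  cpt : IsCompact c
  av : ∀ Q' ⊆ Q, Pc k Q' → ∀ E : Set P, E.Finite → (∀ e ∈ E, e ≠ 0) → ∀ η > (0 : ℝ), Av k Q' c E η

def Geo' (k : Kx) (C : P) (c : Set (P × ℝ)) (e : P) (ε s : ℝ) (D : Dat) : Prop :=
  ‖s⁻¹ • (C - dO D) - (k.F C e)⁻¹ • e‖ ≤ ε ∧
    (∃ p ∈ c, ‖s⁻¹ • (dB D - dO D) - p.1‖ ≤ ε ∧ |piD D - p.2| ≤ ε ∧ |k.F C p.1 - 1| ≤ ε) ∧
    1 - ε ≤ dl D ∧ 1 - ε ≤ dr D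

end Ga

end Pool.Agent.P.MP_874adf_gt.Gn
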