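import Pool.Agent.P.MP_874adf_gt.Fs.Plane

/-! Projective-metric planes on open convex sets as abstract metric spaces, with no regularity. -/

set_option autoImplicit false

namespace Pool.Agent.P.MP_874adf_gt.Gn

open Pool.Agent.P.MP_874adf_gt.Fs

/-- `X` is a projective-metric plane `(M, d)` on an open convex set `M` of the plane. -/
def ConvType (X : Type) [MetricSpace X] : Prop :=
  ∃ (M : Set (ℝ × ℝ)) (d : ℝ × ℝ → ℝ × ℝ → ℝ) (e : X ≃ M), PM M d ∧
    ∀ x y : X, dist x y = d (e x) (e y)

end Pool.Agent.P.MP_874adf_gt.Gn
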