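import Pool.Agent.P.MP_874adf_gt.Fs.Final
import Pool.Agent.P.MP_874adf_gt.Gn.Plane
import Pool.Agent.P.MP_874adf_gt.Gn.Iface0

/-! The classification without regularity, from the existence of the Finsler function. -/

set_option autoImplicit false

namespace Pool.Agent.P.MP_874adf_gt.Gn

open Pool.Agent.P.MP_874adf_gt.Fs Set Filter Topology Metric

variable {X : Type} [MetricSpace X]

lemma final_aff (hM : S_MAIN) (h : ConvType X)
    (ap : ∀ (O : X) (a : ℝ), 0 < a → {Y | dist O Y = a}.Nonempty → Apo X O a) : AffType X := by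
  obtain ⟨M, d, e, pm, he⟩ := h
  obtain ⟨W, F, oW, sub, de, fi⟩ := hM M d pm fun O hO a a0 ne => by
    have := ap (e.symm ⟨O, hO⟩) a a0 ((fin_ne he _ a).2 (by simpa using ne))
    simpa using (fin_apo he _ a).1 this
  exact ⟨M, W, d, F, e, pm, he, oW, sub, de, fi⟩

lemma final_up (hM : S_MAIN) (h : ConvType X ∨ ProjType X)
    (ap : ∀ (O : X) (a : ℝ), 0 < a → {Y | dist O Y = a}.Nonempty → Apo X O a) :
    AffType X ∨ ProjType X := h.imp_left fun h => final_aff hM h ap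

lemma final_conv (h : ConvType X ∨ ProjType X) {U : Set E2} (i : X ≃ᵢ U) (O : X) (a : ℝ) (a0 : 0 < a)
    (ne : {Y | dist O Y = a}.Nonempty) : Apo X O a := by
  rcases h with h | h
  · obtain ⟨M, d, e, pm, he⟩ := h
    exact (fin_apo he O a).2 ((t_conv M d pm).1 (fin_emb he i) _ (e O).2 a a0 ((fin_ne he O a).1 ne))
  · exact (proj_not_emb h i).elim

lemma final_cpl (h : ConvType X ∨ ProjType X) {U : Set E2} (oU : IsOpen U) (i : X ≃ᵢ U)
    (c : CompleteSpace X) : U = univ := by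
  rcases h with h | h
  · obtain ⟨M, d, e, pm, he⟩ := h
    obtain ⟨x, hx⟩ := pm.nonempty
    have : CompleteSpace U := i.completeSpace_iff.1 inferInstance
    have cl : IsClosed U := (completeSpace_coe_iff_isComplete.1 this).isClosed
    exact IsClopen.eq_univ ⟨cl, oU⟩ ⟨_, (i (e.symm ⟨x, hx⟩)).2⟩
  · exact (proj_not_emb h i).elim

theorem final_ne (hM : S_MAIN) (h : ConvType X ∨ ProjType X) :
    (∀ (O : X) (a : ℝ), 0 < a → {Y | dist O Y = a}.Nonempty → Apo X O a) ↔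
      ∃ U : Set E2, IsOpen U ∧ Convex ℝ U ∧ (CompleteSpace X → U = univ) ∧ Nonempty (X ≃ᵢ U) := by
  constructor
  · intro ap
    obtain ⟨U, oU, cU, ⟨i⟩⟩ := ((tfae (final_up hM h ap)).out 0 2).1 ap
    exact ⟨U, oU, cU, final_cpl h oU i, ⟨i⟩⟩
  · rintro ⟨U, -, -, -, ⟨i⟩⟩
    exact final_conv h i

theorem final_all (hM : S_MAIN) (h : ConvType X ∨ ProjType X) :
    (∀ (O : X) (a : ℝ), 0 < a → Apo X O a) ↔
      ∃ U : Set E2, IsOpen U ∧ Convex ℝ U ∧ ¬ Bornology.IsBounded U ∧ (CompleteSpace X → U = univ) ∧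
        Nonempty (X ≃ᵢ U) := by
  constructor
  · intro ap
    obtain ⟨U, oU, cU, hb, ⟨i⟩⟩ := (literal (final_up hM h fun O a a0 _ => ap O a a0)).1 ap
    exact ⟨U, oU, cU, hb, final_cpl h oU i, ⟨i⟩⟩
  · rintro ⟨U, oU, cU, hb, -, ⟨i⟩⟩
    exact (literal (final_up hM h (final_conv h i))).2 ⟨U, oU, cU, hb, ⟨i⟩⟩

end Pool.Agent.P.MP_874adf_gt.Gn
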