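import Pool.Agent.P.MP_874adf_gt.Gn.TFIN
import Pool.Agent.P.MP_874adf_gt.Gn.TGAP

/-! Geometric and measure theoretic lemmas for the step FOC. -/

set_option autoImplicit false

namespace Pool.Agent.P.MP_874adf_gt.Gn

open Pool.Agent.P.MP_874adf_gt.Fs Set Filter Topology Metric MeasureTheory

namespace FOCaux

variable {M : Set P} {d : P → P → ℝ}

/-- a point of a triangle gives a shorter broken line than the third vertex -/
lemma tri (h : PM M d) {X Y Z p : P} (hX : X ∈ M) (hY : Y ∈ M) (hZ : Z ∈ M) {α β γ : ℝ}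
    (a0 : 0 < α) (b0 : 0 < β) (c0 : 0 < γ)
    (e : α • (X - p) + β • (Y - p) + γ • (Z - p) = 0) :
    d X p + d p Y ≤ d X Z + d Z Y := by
  have s0 : 0 < β + γ := by linarith
  have t0 : 0 < α + β + γ := by linarith
  have e1 := congrArg Prod.fst e
  have e2 := congrArg Prod.snd e
  simp only [Prod.fst_add, Prod.smul_fst, Prod.fst_sub, smul_eq_mul, Prod.fst_zero, Prod.snd_add,
    Prod.smul_snd, Prod.snd_sub, Prod.snd_zero] at e1 e2
  have l0 : 0 ≤ β / (β + γ) := by positivity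
  have l1 : β / (β + γ) ≤ 1 := by rw [div_le_one s0]; linarith
  have m0 : 0 ≤ (β + γ) / (α + β + γ) := by positivity
  have m1 : (β + γ) / (α + β + γ) ≤ 1 := by rw [div_le_one t0]; linarith
  have hq := h.seg_mem hZ hY l0 l1
  have a1 := h.add hZ hY l0 l1
  set q := Z + (β / (β + γ)) • (Y - Z) with hqd
  have ep : p = X + ((β + γ) / (α + β + γ)) • (q - X) := by
    rw [hqd]
    ext
    · simp only [Prod.fst_add, Prod.smul_fst, Prod.fst_sub, smul_eq_mul]
      field_simp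
      linarith
    · simp only [Prod.snd_add, Prod.smul_snd, Prod.snd_sub, smul_eq_mul]
      field_simp
      linarith
  have hp := h.seg_mem hX hq m0 m1
  have a2 := h.add hX hq m0 m1
  rw [← ep] at hp a2
  have t1 := h.triangle _ hp _ hq _ hY
  have t2 := h.triangle _ hX _ hZ _ hq
  linarith

lemma fst_sub_eq {y X : P} (h : y.2 ≠ X.2) : y.1 - X.1 = sl y X * (y.2 - X.2) := by
  rw [sl, div_mul_cancel₀ _ (sub_ne_zero.2 h)]

/-- the same in slope form -/
lemma tri_slope (h : PM M d) {X Y Z p : P} (hX : X ∈ M) (hY : Y ∈ M) (hZ : Z ∈ M)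
    (lo : X.2 < p.2) (hi : p.2 < Y.2) {κ : ℝ}
    (h1 : 0 < κ * (sl p X - sl p Y)) (h2 : 0 < κ * pr (sl p X) (Z - p))
    (h3 : 0 < κ * pr (sl p Y) (Z - p)) : d X p + d p Y ≤ d X Z + d Z Y := by
  have e1 := fst_sub_eq lo.ne'
  have e2 := fst_sub_eq hi.ne
  have p1 : 0 < p.2 - X.2 := sub_pos.2 lo
  have p2 : 0 < Y.2 - p.2 := sub_pos.2 hi
  refine tri h hX hY hZ (mul_pos p2 h3) (mul_pos p1 h2) (mul_pos (mul_pos p1 p2) h1) ?_
  have f1 : X.1 = p.1 - sl p X * (p.2 - X.2) := by linarith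
  have f2 : Y.1 = p.1 - sl p Y * (p.2 - Y.2) := by linarith
  generalize sl p X = a at *
  generalize sl p Y = b at *
  ext
  · simp only [Prod.fst_add, Prod.smul_fst, Prod.fst_sub, smul_eq_mul, Prod.fst_zero, pr,
      Prod.snd_sub]
    rw [f1, f2]; ring
  · simp only [Prod.snd_add, Prod.smul_snd, Prod.fst_sub, smul_eq_mul, Prod.snd_zero, pr,
      Prod.snd_sub]
    ring

lemma meas_lt (y : P) : MeasurableSet {l : ℝ × ℝ | l.1 < pr l.2 y} := by
  refine (isOpen_lt continuous_fst ?_).measurableSet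
  unfold pr
  fun_prop

lemma meas_sp (y z : P) : MeasurableSet (sp y z) := by
  have e : sp y z = ({l : ℝ × ℝ | l.1 < pr l.2 y} \ {l : ℝ × ℝ | l.1 < pr l.2 z}) ∪
      ({l : ℝ × ℝ | l.1 < pr l.2 z} \ {l : ℝ × ℝ | l.1 < pr l.2 y}) := by
    ext l
    simp only [sp, mem_setOf_eq, mem_union, mem_diff]
    tauto
  rw [e]
  exact ((meas_lt y).diff (meas_lt z)).union ((meas_lt z).diff (meas_lt y))

lemma sp_formula (μ : Measure (ℝ × ℝ)) [IsFiniteMeasure μ] (Y x B : P) :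
    μ.real (sp Y B) - μ.real (sp Y x) = μ.real (sp x B) - 2 * μ.real (sp x B ∩ sp Y x) := by
  have a1 := measureReal_inter_add_diff (μ := μ) (s := sp Y B) (meas_sp x B)
  have a2 := measureReal_inter_add_diff (μ := μ) (s := sp Y x) (meas_sp x B)
  have a3 := measureReal_inter_add_diff (μ := μ) (s := sp x B) (meas_sp Y x)
  have e1 : sp Y B \ sp x B = sp Y x \ sp x B := by
    ext l
    simp only [sp, mem_setOf_eq, mem_diff]
    tauto
  have e2 : sp Y B ∩ sp x B = sp x B \ sp Y x := by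
    ext l
    simp only [sp, mem_setOf_eq, mem_diff, mem_inter_iff]
    tauto
  rw [e1, e2] at a1
  rw [inter_comm] at a2
  linarith

/-- two points above a pair: the increments differ by the lines that separate both pairs -/
lemma two_above {x0 : P} {ρ : ℝ} {μ : Measure (ℝ × ℝ)} {Ψ : ℝ → ℝ} (h : Crof d x0 ρ μ Ψ)
    {x B Y Z : P} (hx : x ∈ ball x0 ρ) (hB : B ∈ ball x0 ρ) (hY : Y ∈ ball x0 ρ)
    (hZ : Z ∈ ball x0 ρ) (y1 : x.2 < Y.2) (y2 : B.2 < Y.2) (z1 : x.2 < Z.2) (z2 : B.2 < Z.2) :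
    (d Y B - d Y x) - (d Z B - d Z x) ≤ 2 * μ.real (sp x B ∩ sp Y Z) := by
  haveI := h.fin
  rw [h.eq Y hY B hB, h.eq Y hY x hx, h.eq Z hZ B hB, h.eq Z hZ x hx,
    abs_of_nonpos (sub_nonpos.2 (h.mono y1.le)), abs_of_nonpos (sub_nonpos.2 (h.mono y2.le)),
    abs_of_nonpos (sub_nonpos.2 (h.mono z1.le)), abs_of_nonpos (sub_nonpos.2 (h.mono z2.le))]
  have a1 := sp_formula μ Y x B
  have a2 := sp_formula μ Z x B
  have a3 : μ.real (sp x B ∩ sp Z x) ≤ μ.real (sp x B ∩ sp Y x) + μ.real (sp x B ∩ sp Y Z) := by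
    refine le_trans (measureReal_mono ?_) (measureReal_union_le _ _)
    intro l
    simp only [sp, mem_setOf_eq, mem_union, mem_inter_iff]
    tauto
  linarith

lemma pr_sub_above {θ : ℝ} {y Y : P} (h : y.2 < Y.2) :
    pr θ Y - pr θ y = (Y.2 - y.2) * (sl y Y - θ) := by
  have := fst_sub_eq h.ne
  simp only [pr]
  linarith

/-- the lines that separate both pairs have bounded slope -/
lemma window {x B Y Z : P} {T k : ℝ} (y1 : x.2 < Y.2) (y2 : B.2 < Y.2) (z1 : x.2 < Z.2)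
    (z2 : B.2 < Z.2) (s1 : |sl x Y| ≤ T) (s2 : |sl B Y| ≤ T) (s3 : |sl x Z| ≤ T)
    (s4 : |sl B Z| ≤ T) (hk : |B.1 - x.1| + T * |B.2 - x.2| ≤ k) :
    sp x B ∩ sp Y Z ⊆ {l | l.2 ∈ Icc (-T) T ∧ |l.1 - pr l.2 x| ≤ k} := by
  rintro ⟨p, θ⟩ ⟨h1, h2⟩
  simp only [sp, mem_setOf_eq] at h1 h2
  have e1 := pr_sub_above (θ := θ) y1
  have e2 := pr_sub_above (θ := θ) y2
  have e3 := pr_sub_above (θ := θ) z1
  have e4 := pr_sub_above (θ := θ) z2
  rw [abs_le] at s1 s2 s3 s4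
  have hθ : θ ∈ Icc (-T) T := by
    constructor
    · by_contra hc
      rw [not_le] at hc
      have b1 : 0 < pr θ Y - pr θ x := e1 ▸ mul_pos (sub_pos.2 y1) (by linarith)
      have b2 : 0 < pr θ Y - pr θ B := e2 ▸ mul_pos (sub_pos.2 y2) (by linarith)
      have b3 : 0 < pr θ Z - pr θ x := e3 ▸ mul_pos (sub_pos.2 z1) (by linarith)
      have b4 : 0 < pr θ Z - pr θ B := e4 ▸ mul_pos (sub_pos.2 z2) (by linarith)
      by_cases q : p < pr θ x
      · exact h2 ⟨fun _ => by linarith, fun _ => by linarith⟩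
      · have q' : p < pr θ B := by tauto
        exact h2 ⟨fun _ => by linarith, fun _ => by linarith⟩
    · by_contra hc
      rw [not_le] at hc
      have b1 : pr θ Y - pr θ x < 0 := e1 ▸ mul_neg_of_pos_of_neg (sub_pos.2 y1) (by linarith)
      have b2 : pr θ Y - pr θ B < 0 := e2 ▸ mul_neg_of_pos_of_neg (sub_pos.2 y2) (by linarith)
      have b3 : pr θ Z - pr θ x < 0 := e3 ▸ mul_neg_of_pos_of_neg (sub_pos.2 z1) (by linarith)
      have b4 : pr θ Z - pr θ B < 0 := e4 ▸ mul_neg_of_pos_of_neg (sub_pos.2 z2) (by linarith)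
      by_cases q : p < pr θ x
      · have q' : ¬ p < pr θ B := by tauto
        rw [not_lt] at q'
        exact h2 ⟨fun _ => by linarith, fun _ => by linarith⟩
      · rw [not_lt] at q
        exact h2 ⟨fun _ => by linarith, fun _ => by linarith⟩
  refine ⟨hθ, le_trans ?_ hk⟩
  have b0 : |θ| ≤ T := abs_le.2 hθ
  have b1 : |pr θ B - pr θ x| ≤ |B.1 - x.1| + T * |B.2 - x.2| := by
    have e : pr θ B - pr θ x = (B.1 - x.1) - θ * (B.2 - x.2) := by simp only [pr]; ring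
    rw [e]
    refine (abs_sub _ _).trans ?_
    rw [abs_mul]
    have := mul_le_mul_of_nonneg_right b0 (abs_nonneg (B.2 - x.2))
    linarith
  refine le_trans ?_ b1
  show |p - pr θ x| ≤ _
  have b2 := le_abs_self (pr θ B - pr θ x)
  have b3 := neg_abs_le (pr θ B - pr θ x)
  rw [abs_le]
  by_cases q : p < pr θ x
  · have q' : ¬ p < pr θ B := by tauto
    rw [not_lt] at q'
    constructor <;> linarith
  · have q' : p < pr θ B := by tauto
    rw [not_lt] at q
    constructor <;> linarith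

lemma mw_mono (μ : Measure (ℝ × ℝ)) [IsFiniteMeasure μ] {J J' : Set ℝ} (x : P) {s s' : ℝ}
    (hJ : J ⊆ J') (hs : s ≤ s') : mw μ J x s ≤ mw μ J' x s' :=
  measureReal_mono fun _ hl => ⟨hJ hl.1, hl.2.trans hs⟩

/-! ### the function `fx` -/

variable {G : P → ℝ}

lemma cont_ln (h : IsN G) : Continuous (ln G) := by
  unfold ln
  exact h.cont.comp (by fun_prop)

lemma cont_fx (h : IsN G) : Continuous (fx (ln G) 1) := by
  have := cont_ln h
  unfold fx
  fun_prop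

lemma fx_mono (h : IsN G) (h1 : G (1, 0) = 1) : Monotone (fx (ln G) 1) := by
  intro s t st
  have := GAPaux.lip h h1 s t
  rw [abs_of_nonneg (sub_nonneg.2 st)] at this
  simp only [fx]
  linarith

lemma lf_lower {n : ℝ → ℝ} {s t : ℝ} (ht : t ∈ Lf n 1) (st : s ≤ t) : s ∈ Lf n 1 := by
  obtain ⟨z, hz⟩ := ht
  exact ⟨z, by linarith⟩

lemma fx_strict (h : IsN G) (h1 : G (1, 0) = 1) (sc : SCout (ln G)) {s t : ℝ}
    (ht : t ∈ Lf (ln G) 1) (st : s < t) : fx (ln G) 1 s < fx (ln G) 1 t := by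
  have a1 := sc.1.2 (lf_lower ht st.le) ht st.ne (by norm_num : (0 : ℝ) < 1 / 2)
    (by norm_num : (0 : ℝ) < 1 / 2) (by norm_num)
  simp only [smul_eq_mul] at a1
  have a2 := GAPaux.lip h h1 (1 / 2 * s + 1 / 2 * t) t
  have a3 := GAPaux.lip h h1 s t
  rw [abs_of_nonneg (by linarith)] at a2 a3
  simp only [fx]
  linarith

lemma fx_inv (h : IsN G) {t z : ℝ} (ht : t < fx (ln G) 1 z) :
    fx (ln G) 1 (Function.invFun (fx (ln G) 1) t) = t := by
  refine Function.invFun_eq ?_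
  have a1 : fx (ln G) 1 t ≤ t := by
    have := GAPaux.pos h t
    simp only [fx]
    linarith
  exact intermediate_value_univ t z (cont_fx h) ⟨a1, ht.le⟩

/-- the upper unit vector of slope `ζ` -/
noncomputable def uv (G : P → ℝ) (ζ : ℝ) : P := (ln G ζ)⁻¹ • (ζ, 1)

lemma uv_unit (h : IsN G) (ζ : ℝ) : G (uv G ζ) = 1 := by
  have := GAPaux.pos h ζ
  rw [uv, h.smul_nonneg (inv_pos.2 this).le]
  exact inv_mul_cancel₀ this.ne'

lemma uv_sub (h : IsN G) (ζ : ℝ) :
    (1, 0) - uv G ζ = (-(ln G ζ)⁻¹) • ((fx (ln G) 1 ζ, 1) : P) := by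
  have := (GAPaux.pos h ζ).ne'
  ext
  · simp only [uv, fx, Prod.fst_sub, Prod.smul_fst, smul_eq_mul]
    field_simp
    ring
  · simp [uv]

lemma uv_val (h : IsN G) (ζ : ℝ) : G ((1, 0) - uv G ζ) = ln G (fx (ln G) 1 ζ) / ln G ζ := by
  have := GAPaux.pos h ζ
  rw [uv_sub h, h.smul, abs_neg, abs_of_pos (inv_pos.2 this), div_eq_inv_mul]
  rfl

lemma uv_gap (h : IsN G) (h1 : G (1, 0) = 1) :
    ∃ ζ1 ζ2, G ((1, 0) - uv G ζ2) < G ((1, 0) - uv G ζ1) := by
  have n0 := GAPaux.pos h 0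
  refine ⟨-(4 * ln G 0), 4 * ln G 0, ?_⟩
  rw [uv_val h, uv_val h]
  have a1 := GAPaux.big h h1 (4 * ln G 0)
  have a2 := GAPaux.lip h h1 0 (4 * ln G 0)
  have a3 := GAPaux.lip h h1 0 (fx (ln G) 1 (4 * ln G 0))
  have b1 := GAPaux.big h h1 (-(4 * ln G 0))
  have b2 := GAPaux.lip h h1 0 (-(4 * ln G 0))
  have b3 := GAPaux.big h h1 (fx (ln G) 1 (-(4 * ln G 0)))
  rw [sub_zero] at a2 a3 b2
  rw [abs_neg] at b1 b2
  rw [abs_of_pos (by linarith)] at a1 a2 b1 b2
  have a4 : |fx (ln G) 1 (4 * ln G 0)| ≤ ln G 0 := by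
    rw [abs_le]
    simp only [fx]
    constructor <;> linarith
  have b4 := neg_abs_le (fx (ln G) 1 (-(4 * ln G 0)))
  have b5 : fx (ln G) 1 (-(4 * ln G 0)) = -(4 * ln G 0) - ln G (-(4 * ln G 0)) := by simp [fx]
  refine lt_trans (b := 1) ?_ ?_
  · rw [div_lt_one (GAPaux.pos h _)]
    linarith
  · rw [one_lt_div (GAPaux.pos h _)]
    have := neg_le_abs (fx (ln G) 1 (-(4 * ln G 0)))
    linarith

lemma rv_sign {H : P → ℝ} (h : IsN H) {σ : ℝ} (hσ : Sg σ) {a b c : P} {r : ℝ}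
    (hr : Rv H (σ • a) (σ • b) (σ • c) r) : Rv H a b c r := by
  rcases hσ with rfl | rfl
  · simpa using hr
  · intro w α α0 hw β β0 γ γ0
    have e1 : ∀ (t : ℝ) (v : P), H (t • (-1 : ℝ) • v - -w) = H (t • v - w) := fun t v => by
      rw [← h.neg]; congr 1; module
    have e2 : ∀ (t : ℝ) (v : P), H (t • (-1 : ℝ) • v + -w) = H (t • v + w) := fun t v => by
      rw [← h.neg]; congr 1; module
    have e3 : ∀ (t : ℝ) (v : P), H (t • (-1 : ℝ) • v) = H (t • v) := fun t v => by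
      rw [← h.neg]; congr 1; module
    have := hr (-w) α α0 (by rw [e1, e3]; exact hw) β β0 γ γ0
    rwa [e1, e2, e3, e3] at this

end FOCaux

end Pool.Agent.P.MP_874adf_gt.Gn
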