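import Pool.Agent.P.MP_874adf_gt.Gn.FoA

/-! The focal segments of small circles through the good point. -/

set_option autoImplicit false

namespace Pool.Agent.P.MP_874adf_gt.Gn

open Pool.Agent.P.MP_874adf_gt.Fs Set Filter Topology Metric MeasureTheory

namespace FOCaux

/-- the focal segments `[x i, B i]` of a sequence of small circles of radius about `t i` -/
structure Seq (c : Ctx) where
  x : ℕ → P
  B : ℕ → P
  s : ℕ → ℝ
  t : ℕ → ℝ
  s0 : ∀ i, 0 < s i
  t0 : ∀ i, 0 < t i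
  N0 : ∀ i, 0 < c.d (x i) (B i)
  tt : Tendsto t atTop (𝓝 0)
  st : Tendsto (fun i => s i / t i) atTop (𝓝 0)
  xt : Tendsto (fun i => (t i)⁻¹ • x i) atTop (𝓝 0)
  w : Tendsto (fun i => (s i)⁻¹ • (B i - x i)) atTop (𝓝 (1, 0))
  circ : ∀ X, c.G X = 1 → ∃ Y : ℕ → P,
    Tendsto (fun i => (t i)⁻¹ • (x i - Y i)) atTop (𝓝 ((1, 0) - X)) ∧
    Tendsto (fun i => (c.d (Y i) (B i) - c.d (Y i) (x i)) / c.d (x i) (B i)) atTop
      (𝓝 (c.G ((1, 0) - X) / 2))

lemma small {t : ℕ → ℝ} (t0 : ∀ i, 0 < t i) (tt : Tendsto t atTop (𝓝 0)) {y : ℕ → P} {y0 : P}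
    (hy : Tendsto (fun i => (t i)⁻¹ • y i) atTop (𝓝 y0)) : Tendsto y atTop (𝓝 0) := by
  have := tt.smul hy
  rw [zero_smul] at this
  refine this.congr fun i => ?_
  rw [smul_smul, mul_inv_cancel₀ (t0 i).ne', one_smul]

lemma isS {G : P → ℝ} (h : IsN G) : IsS G := ⟨h.smul, h.add⟩

lemma appr0 {d : P → P → ℝ} {G : P → ℝ} (h : IsN G) (du : DU d 0 G) {t : ℕ → ℝ}
    (t0 : ∀ i, 0 < t i) (tt : Tendsto t atTop (𝓝 0)) :
    Appr atTop d (fun _ => (0 : P)) t t G := by
  intro k ε ε0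
  have k0 : 0 < |k| + 1 := by positivity
  obtain ⟨δ, δ0, hδ⟩ := du (ε / (|k| + 1)) (by positivity)
  have := tt.const_mul (|k| + 1)
  rw [mul_zero] at this
  filter_upwards [this.eventually (gt_mem_nhds δ0)] with i hi y hy z hz
  have b : ∀ y ∈ closedBall (0 : P) k, t i • y ∈ closedBall (0 : P) ((|k| + 1) * t i) := by
    intro y hy
    rw [mem_closedBall_zero_iff] at hy ⊢
    rw [norm_smul, Real.norm_of_nonneg (t0 i).le, mul_comm]
    exact mul_le_mul_of_nonneg_right (by linarith [le_abs_self k]) (t0 i).le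
  have a := hδ _ (mul_pos k0 (t0 i)) hi.le _ (b y hy) _ (b z hz)
  rw [← smul_sub, h.smul_nonneg (t0 i).le] at a
  simp only [zero_add]
  refine a.trans (le_of_eq ?_)
  field_simp

lemma scaled0 {d : P → P → ℝ} {G : P → ℝ} (h : IsN G) (du : DU d 0 G) {t : ℕ → ℝ}
    (t0 : ∀ i, 0 < t i) (tt : Tendsto t atTop (𝓝 0)) {y z : ℕ → P} {y0 z0 : P}
    (hy : Tendsto (fun i => (t i)⁻¹ • y i) atTop (𝓝 y0))
    (hz : Tendsto (fun i => (t i)⁻¹ • z i) atTop (𝓝 z0)) :
    Tendsto (fun i => d (y i) (z i) / t i) atTop (𝓝 (G (z0 - y0))) := by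
  have := FINaux.scaled (isS h) (Eventually.of_forall fun i => ⟨t0 i, t0 i⟩) (appr0 h du t0 tt)
    hy hz
  refine this.congr fun i => ?_
  simp only [zero_add, smul_smul, mul_inv_cancel₀ (t0 i).ne', one_smul]

lemma lim_of_le {E : Type*} [NormedAddCommGroup E] {f : ℕ → E} {a : E}
    (h : ∀ i, ‖f i - a‖ ≤ 1 / ((i : ℝ) + 1)) : Tendsto f atTop (𝓝 a) :=
  tendsto_iff_norm_sub_tendsto_zero.2
    (squeeze_zero (fun _ => norm_nonneg _) h tendsto_one_div_add_atTop_nhds_zero_nat)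

/-- the points of the circle in a given direction -/
lemma on_circle {M : Set P} {d : P → P → ℝ} {G : P → ℝ} (pm : PM M d) (m0 : (0 : P) ∈ M)
    (h : IsN G) (du : DU d 0 G) {t a τ : ℕ → ℝ}
    (t0 : ∀ i, 0 < t i) (tt : Tendsto t atTop (𝓝 0)) {O : ℕ → P} {O0 X : P} (hO : ∀ i, O i ∈ M)
    (tO : Tendsto (fun i => (t i)⁻¹ • O i) atTop (𝓝 O0))
    (ta : Tendsto (fun i => a i / t i) atTop (𝓝 1)) (hX : G X = 1)
    (hτ : ∀ i, 0 < τ i ∧ O i + τ i • X ∈ M ∧ d (O i) (O i + τ i • X) = a i) :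
    Tendsto (fun i => τ i / t i) atTop (𝓝 1) := by
  have key : ∀ b : ℝ, 0 < b →
      Tendsto (fun i => d (O i) (O i + (b * t i) • X) / t i - a i / t i) atTop (𝓝 (b - 1)) ∧
      ∀ᶠ i in atTop, O i + (b * t i) • X ∈ M := by
    intro b b0
    have e : Tendsto (fun i => (t i)⁻¹ • (O i + (b * t i) • X)) atTop (𝓝 (O0 + b • X)) := by
      refine (tO.add_const (b • X)).congr fun i => ?_
      rw [smul_add, smul_smul, mul_comm b, ← mul_assoc, inv_mul_cancel₀ (t0 i).ne', one_mul]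
    have e1 := scaled0 h du t0 tt tO e
    rw [add_sub_cancel_left, h.smul_nonneg b0.le, hX, mul_one] at e1
    exact ⟨e1.sub ta, (small t0 tt e).eventually (pm.isOpen.mem_nhds m0)⟩
  have z : ∀ i, O i + (0 : ℝ) • X = O i := fun i => by rw [zero_smul, add_zero]
  rw [tendsto_order]
  constructor
  · intro b hb
    have b0 : 0 < max b (1 / 2) := lt_max_of_lt_right (by norm_num)
    have b1 : max b (1 / 2) < 1 := max_lt hb (by norm_num)
    obtain ⟨k1, k2⟩ := key _ b0
    filter_upwards [k1.eventually (gt_mem_nhds (sub_neg.2 b1)), k2] with i i1 i2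
    refine lt_of_le_of_lt (le_max_left b (1 / 2)) ?_
    rw [lt_div_iff₀ (t0 i)]
    by_contra hc
    rw [not_lt] at hc
    have ad := pm.line_add (r := 0) ((z i).symm ▸ hO i) i2 (hτ i).1.le hc
    rw [z i, (hτ i).2.2] at ad
    have := pm.nonneg (hτ i).2.1 i2
    rw [← sub_div, div_neg_iff] at i1
    rcases i1 with i1 | i1
    · linarith [i1.2, t0 i]
    · linarith [i1.1]
  · intro b hb
    have b0 : 0 < b := by linarith
    obtain ⟨k1, k2⟩ := key _ b0
    filter_upwards [k1.eventually (lt_mem_nhds (sub_pos.2 hb)), k2] with i i1 i2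
    rw [div_lt_iff₀ (t0 i)]
    by_contra hc
    rw [not_lt] at hc
    have ad := pm.line_add (r := 0) ((z i).symm ▸ hO i) (hτ i).2.1
      (mul_pos b0 (t0 i)).le hc
    rw [z i, (hτ i).2.2] at ad
    have := pm.nonneg i2 (hτ i).2.1
    rw [← sub_div, div_pos_iff_of_pos_right (t0 i)] at i1
    linarith

theorem exists_seq (c : Ctx) : Nonempty (Seq c) := by
  have gp := c.gp
  have pm := gp.pm
  have hG := gp.isN
  choose D t t0 t1 hc hg using fun i : ℕ =>
    gp.pas (1, 0) gp.u1 (1 / ((i : ℝ) + 1)) Nat.one_div_pos_of_nat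
  have tt : Tendsto t atTop (𝓝 0) :=
    squeeze_zero (fun i => (t0 i).le) (fun i => (t1 i).le) tendsto_one_div_add_atTop_nhds_zero_nat
  have g1 := lim_of_le fun i => (hg i).1
  have g2 := lim_of_le fun i => (hg i).2.1
  have g3 : Tendsto (fun i => dl (D i)) atTop (𝓝 1) := lim_of_le fun i => by
    rw [Real.norm_eq_abs, abs_le]
    have := (hg i).2.2.1
    have := (hc i).l1
    have : (0 : ℝ) < 1 / ((i : ℝ) + 1) := Nat.one_div_pos_of_nat
    constructor <;> linarith
  have g4 : Tendsto (fun i => dr (D i)) atTop (𝓝 1) := lim_of_le fun i => by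
    rw [Real.norm_eq_abs, abs_le]
    have := (hg i).2.2.2.1
    have := (hc i).r1
    have : (0 : ℝ) < 1 / ((i : ℝ) + 1) := Nat.one_div_pos_of_nat
    constructor <;> linarith
  have tO : Tendsto (fun i => (t i)⁻¹ • dO (D i)) atTop (𝓝 (-(1, 0))) :=
    g1.neg.congr fun i => by rw [zero_sub, smul_neg, neg_neg]
  have tB : Tendsto (fun i => (t i)⁻¹ • dB (D i)) atTop (𝓝 0) := by
    have := tO.add g2
    rw [neg_add_cancel] at this
    exact this.congr fun i => by rw [← smul_add, add_sub_cancel]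
  have tA : Tendsto (fun i => (t i)⁻¹ • dA (D i)) atTop (𝓝 0) := by
    have := tO.add (g3.smul g2)
    rw [one_smul, neg_add_cancel] at this
    exact this.congr fun i => by rw [smul_comm, ← smul_add]
  have mA : ∀ i, dA (D i) ∈ c.M := fun i =>
    pm.seg_mem (hc i).mO (hc i).mB (hc i).l0.le (hc i).l1.le
  have eN : ∀ i, c.d (dA (D i)) (dB (D i)) =
      c.d (dO (D i)) 0 * (1 - dr (D i)) * (1 + dr (D i)) / dr (D i) := fun i => by
    have a := pm.add (hc i).mO (hc i).mB (hc i).l0.le (hc i).l1.le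
    have a1 := (hc i).eA
    have a2 := (hc i).eB
    have r0 := (hc i).r0.ne'
    have : c.d (dA (D i)) (dB (D i)) =
      c.d (dO (D i)) 0 / dr (D i) - dr (D i) * c.d (dO (D i)) 0 := by linarith
    rw [this]
    field_simp
    ring
  have ne : ∀ i, dB (D i) - dO (D i) ≠ 0 := fun i e => by
    have a2 := (hc i).eB
    rw [sub_eq_zero.1 e, pm.self (hc i).mO] at a2
    exact (div_pos (hc i).a0 (hc i).r0).ne a2
  have ta : Tendsto (fun i => c.d (dO (D i)) 0 / t i) atTop (𝓝 1) := by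
    have := scaled0 hG gp.du t0 tt tO (z := fun _ => 0) (z0 := 0) (by simp)
    rwa [zero_sub, neg_neg, gp.u1] at this
  have n1 : ‖((1, 0) : P)‖ = 1 := by simp [Prod.norm_def]
  have nq : ∀ i, ‖(t i)⁻¹ • (dB (D i) - dO (D i))‖ = (t i)⁻¹ * ‖dB (D i) - dO (D i)‖ := fun i => by
    rw [norm_smul, Real.norm_of_nonneg (inv_pos.2 (t0 i)).le]
  refine ⟨⟨fun i => dA (D i), fun i => dB (D i), fun i => (1 - dl (D i)) * ‖dB (D i) - dO (D i)‖,
    t, fun i => mul_pos (sub_pos.2 (hc i).l1) (norm_pos_iff.2 (ne i)), t0, fun i => ?_, tt, ?_,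
    tA, ?_, fun X hX => ?_⟩⟩
  · rw [eN]
    have := (hc i).a0
    have := (hc i).r0
    have := sub_pos.2 (hc i).r1
    positivity
  · have := (g3.const_sub 1).mul g2.norm
    rw [sub_self, zero_mul] at this
    refine this.congr fun i => ?_
    rw [nq]
    ring
  · have := (g2.norm.inv₀ (by rw [n1]; exact one_ne_zero)).smul g2
    rw [n1, inv_one, one_smul] at this
    refine this.congr fun i => ?_
    have e : dB (D i) - dA (D i) = (1 - dl (D i)) • (dB (D i) - dO (D i)) := by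
      simp only [dA]; module
    rw [nq, e, smul_smul, smul_smul]
    congr 1
    have := (t0 i).ne'
    have := (norm_pos_iff.2 (ne i)).ne'
    have := (sub_pos.2 (hc i).l1).ne'
    field_simp
  · have X0 : X ≠ 0 := fun e => by
      rw [e, hG.zero] at hX
      exact zero_ne_one hX
    choose τ hτ1 hτ2 hτ3 using fun i => (hc i).ray X X0
    have tτ := on_circle pm gp.mem hG gp.du t0 tt (fun i => (hc i).mO) tO ta hX
      fun i => ⟨hτ1 i, hτ2 i, hτ3 i⟩
    have tY : Tendsto (fun i => (t i)⁻¹ • (dO (D i) + τ i • X)) atTop (𝓝 (-(1, 0) + X)) := by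
      have := tO.add (tτ.smul_const X)
      rw [one_smul] at this
      refine this.congr fun i => ?_
      rw [smul_add, smul_smul, div_eq_inv_mul]
    refine ⟨fun i => dO (D i) + τ i • X, ?_, ?_⟩
    · have := tA.sub tY
      rw [show (0 : P) - (-(1, 0) + X) = (1, 0) - X by abel] at this
      exact this.congr fun i => by rw [← smul_sub]
    · have a1 := scaled0 hG gp.du t0 tt tY tB
      rw [show (0 : P) - (-(1, 0) + X) = (1, 0) - X by abel] at a1
      have a2 := (g4.mul a1).div (ta.mul (g4.const_add 1)) (by norm_num)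
      rw [show 1 * c.G ((1, 0) - X) / (1 * (1 + 1)) = c.G ((1, 0) - X) / 2 by ring] at a2
      refine a2.congr fun i => ?_
      have on := (hc i).on _ (hτ2 i) (hτ3 i)
      rw [pm.symm _ (mA i) _ (hτ2 i), pm.symm _ (hc i).mB _ (hτ2 i)] at on
      simp only [Pi.div_apply]
      rw [eN, on]
      have := (hc i).a0.ne'
      have := (hc i).r0.ne'
      have := (sub_pos.2 (hc i).r1).ne'
      have := (t0 i).ne'
      have : 1 + dr (D i) ≠ 0 := by linarith [(hc i).r0]
      field_simp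

end FOCaux

end Pool.Agent.P.MP_874adf_gt.Gn
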