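import Pool.Agent.P.MP_874adf_gt.Gn.FoB

/-! The focal segments form a system of places. -/

set_option autoImplicit false

namespace Pool.Agent.P.MP_874adf_gt.Gn

open Pool.Agent.P.MP_874adf_gt.Fs Set Filter Topology Metric MeasureTheory

namespace FOCaux

lemma slope_lim {t : ℕ → ℝ} (t0 : ∀ i, 0 < t i) {y Y : ℕ → P} {κ θ : ℝ} (κ0 : κ < 0)
    (h : Tendsto (fun i => (t i)⁻¹ • (y i - Y i)) atTop (𝓝 (κ • (θ, 1)))) :
    (∀ᶠ i in atTop, (y i).2 < (Y i).2) ∧ Tendsto (fun i => sl (y i) (Y i)) atTop (𝓝 θ) := by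
  have h1 := (continuous_fst.tendsto _).comp h
  have h2 := (continuous_snd.tendsto _).comp h
  simp only [Prod.smul_fst, Prod.smul_snd, smul_eq_mul, mul_one] at h1 h2
  constructor
  · filter_upwards [h2.eventually (gt_mem_nhds κ0)] with i hi
    simp only [Function.comp, Prod.smul_snd, smul_eq_mul, Prod.snd_sub] at hi
    have := (mul_neg_iff.1 hi).resolve_right fun q => absurd q.1 (not_lt.2 (inv_pos.2 (t0 i)).le)
    linarith [this.2]
  · have := h1.div h2 κ0.ne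
    rw [mul_div_cancel_left₀ _ κ0.ne] at this
    refine this.congr fun i => ?_
    simp only [Function.comp, Prod.smul_snd, Prod.smul_fst, smul_eq_mul, Prod.snd_sub,
      Prod.fst_sub, Pi.div_apply, sl]
    rw [mul_div_mul_left _ _ (inv_pos.2 (t0 i)).ne']

namespace Seq

variable {c : Ctx} (q : Seq c)

lemma tx : Tendsto q.x atTop (𝓝 0) := small q.t0 q.tt q.xt

lemma ts : Tendsto q.s atTop (𝓝 0) := by
  have := q.st.mul q.tt
  rw [zero_mul] at this
  exact this.congr fun i => div_mul_cancel₀ _ (q.t0 i).ne'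

lemma wt : Tendsto (fun i => (q.t i)⁻¹ • (q.B i - q.x i)) atTop (𝓝 0) := by
  have := q.st.smul q.w
  rw [zero_smul] at this
  refine this.congr fun i => ?_
  rw [smul_smul]
  congr 1
  have := (q.s0 i).ne'
  field_simp

lemma tB : Tendsto q.B atTop (𝓝 0) := by
  have := (small q.t0 q.tt q.wt).add q.tx
  rw [add_zero] at this
  exact this.congr fun i => sub_add_cancel _ _

lemma top : Tendsto (fun i => q.t i / q.s i) atTop atTop := by
  have : Tendsto (fun i => q.s i / q.t i) atTop (𝓝[>] 0) :=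
    tendsto_nhdsWithin_iff.2 ⟨q.st, Eventually.of_forall fun i => div_pos (q.s0 i) (q.t0 i)⟩
  exact (tendsto_inv_nhdsGT_zero.comp this).congr fun i => by simp

lemma inball {ρ : ℝ} (ρ0 : 0 < ρ) (k : ℝ) :
    ∀ᶠ i in atTop, closedBall (q.x i) (k * q.s i) ⊆ ball 0 ρ := by
  have := q.tx.norm.add (q.ts.const_mul k)
  rw [norm_zero, mul_zero, add_zero] at this
  filter_upwards [this.eventually (gt_mem_nhds ρ0)] with i hi
  exact closedBall_subset_ball' (by rw [dist_zero_right]; linarith)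

lemma hM (k : ℝ) : ∀ᶠ i in atTop, closedBall (q.x i) (k * q.s i) ⊆ c.M :=
  (q.inball c.rho0 k).mono fun _ hi => hi.trans c.sub

lemma B_eq (i : ℕ) : q.x i + q.s i • (q.s i)⁻¹ • (q.B i - q.x i) = q.B i := by
  rw [smul_smul, mul_inv_cancel₀ (q.s0 i).ne', one_smul, add_sub_cancel]

lemma B_near : ∀ᶠ i in atTop, ‖q.B i - q.x i‖ ≤ 2 * q.s i := by
  have n1 : ‖((1, 0) : P)‖ < 2 := by simp [Prod.norm_def]
  filter_upwards [q.w.norm.eventually (gt_mem_nhds n1)] with i hi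
  rw [norm_smul, Real.norm_of_nonneg (inv_pos.2 (q.s0 i)).le, inv_mul_lt_iff₀ (q.s0 i)] at hi
  linarith

/-- the focal segment is almost horizontal -/
lemma hor (T : ℝ) : ∀ᶠ i in atTop, ∀ θ, |θ| ≤ T → 3 / 4 * q.s i ≤ pr θ (q.B i - q.x i) := by
  have h1 := (continuous_fst.tendsto _).comp q.w
  have h2 := (((continuous_snd.tendsto _).comp q.w).abs).const_mul T
  have h3 := h1.sub h2
  simp only [abs_zero, mul_zero, sub_zero] at h3
  filter_upwards [h3.eventually (lt_mem_nhds (by norm_num : (3 : ℝ) / 4 < 1))] with i hi θ hθ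
  simp only [Function.comp, Prod.smul_snd, Prod.smul_fst, smul_eq_mul] at hi
  have s0 := q.s0 i
  rw [abs_mul, abs_of_pos (inv_pos.2 s0), mul_left_comm, ← mul_sub, lt_inv_mul_iff₀ s0] at hi
  have a1 : θ * (q.B i - q.x i).2 ≤ T * |(q.B i - q.x i).2| :=
    (le_abs_self _).trans (by
      rw [abs_mul]; exact mul_le_mul_of_nonneg_right hθ (abs_nonneg _))
  simp only [pr]
  linarith

/-- the points of the small circles above the focal segment -/
lemma up (ζ : ℝ) : ∃ Y : ℕ → P, Tendsto Y atTop (𝓝 0) ∧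
    (∀ᶠ i in atTop, (q.x i).2 < (Y i).2) ∧ (∀ᶠ i in atTop, (q.B i).2 < (Y i).2) ∧
    Tendsto (fun i => sl (q.x i) (Y i)) atTop (𝓝 (fx (ln c.G) 1 ζ)) ∧
    Tendsto (fun i => sl (q.B i) (Y i)) atTop (𝓝 (fx (ln c.G) 1 ζ)) ∧
    Tendsto (fun i => (c.d (Y i) (q.B i) - c.d (Y i) (q.x i)) / c.d (q.x i) (q.B i)) atTop
      (𝓝 (c.G ((1, 0) - uv c.G ζ) / 2)) := by
  have hG := c.gp.isN
  obtain ⟨Y, y1, y2⟩ := q.circ _ (uv_unit hG ζ)
  have κ0 : -(ln c.G ζ)⁻¹ < 0 := neg_neg_of_pos (inv_pos.2 (GAPaux.pos hG ζ))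
  have y3 : Tendsto (fun i => (q.t i)⁻¹ • (q.B i - Y i)) atTop (𝓝 ((1, 0) - uv c.G ζ)) := by
    have := q.wt.add y1
    rw [zero_add] at this
    exact this.congr fun i => by rw [← smul_add, sub_add_sub_cancel]
  have y4 : Tendsto Y atTop (𝓝 0) := by
    have := q.tx.sub (small q.t0 q.tt y1)
    rw [sub_zero] at this
    exact this.congr fun i => sub_sub_cancel _ _
  rw [uv_sub hG] at y1 y3
  have a := slope_lim q.t0 κ0 y1
  have b := slope_lim q.t0 κ0 y3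
  exact ⟨Y, y4, a.1, b.1, a.2, b.2, y2⟩

lemma cmp_up (hR : Reg c) : ∃ C > (0 : ℝ), ∀ᶠ i in atTop,
    mT c.μ c.T0 (q.x i) (q.s i) ≤ C * c.d (q.x i) (q.B i) := by
  have := c.crof.fin
  obtain ⟨C, C0, ρ, ρ0, hC⟩ := hR.cmp c.T0 (-c.T0) (1 - c.T0) (by linarith) c.neg 4 (by norm_num)
  refine ⟨C, C0, ?_⟩
  filter_upwards [q.tx.eventually (ball_mem_nhds _ ρ0), q.ts.eventually (gt_mem_nhds ρ0),
    q.tx.eventually (ball_mem_nhds _ c.rho0), q.tB.eventually (ball_mem_nhds _ c.rho0), q.B_near,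
    q.hor c.T0] with i i1 i2 i3 i4 i5 i6
  have s0 := q.s0 i
  have a1 := hC _ i1 _ s0 i2 (q.x i + (1 / 2 : ℝ) • (q.B i - q.x i)) (by
    rw [mem_closedBall, dist_eq_norm, add_sub_cancel_left, norm_smul, Real.norm_of_nonneg
      (by norm_num)]
    linarith)
  have a2 : mT c.μ c.T0 (q.x i) (q.s i) ≤ mT c.μ c.T0 (q.x i) (4 * q.s i) :=
    mw_mono _ _ subset_rfl (by linarith)
  have a3 : mw c.μ (Icc (-c.T0) (1 - c.T0)) (q.x i + (1 / 2 : ℝ) • (q.B i - q.x i)) (q.s i / 4) ≤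
      c.μ.real (sp (q.x i) (q.B i)) := by
    refine measureReal_mono ?_
    rintro ⟨p, θ⟩ ⟨h1, h2⟩
    have t0 := c.t0
    have b1 := i6 θ (abs_le.2 ⟨h1.1, by linarith [h1.2]⟩)
    rw [abs_le] at h2
    simp only [pr, Prod.fst_add, Prod.snd_add, Prod.smul_fst, Prod.smul_snd, smul_eq_mul,
      Prod.fst_sub, Prod.snd_sub] at b1 h2
    intro hc
    simp only [pr] at hc
    have := hc.2 (by linarith [h2.2])
    linarith [h2.1]
  have a4 := c.crof.eq _ i3 _ i4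
  have a5 := abs_nonneg (c.Ψ (q.B i).2 - c.Ψ (q.x i).2)
  calc _ ≤ _ := a2
    _ ≤ _ := a1
    _ ≤ _ := mul_le_mul_of_nonneg_left (by linarith) C0.le

lemma cmp_low (hR : Reg c) : ∃ C > (0 : ℝ), ∀ᶠ i in atTop,
    c.d (q.x i) (q.B i) ≤ C * mT c.μ c.T0 (q.x i) (q.s i) := by
  have := c.crof.fin
  obtain ⟨ζ1, ζ2, gap⟩ := uv_gap c.gp.isN c.gp.u1
  obtain ⟨Y, y0, y1, y2, y3, y4, y5⟩ := q.up ζ1
  obtain ⟨Z, z0, z1, z2, z3, z4, z5⟩ := q.up ζ2
  set T := |fx (ln c.G) 1 ζ1| + |fx (ln c.G) 1 ζ2| + 1 with hT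
  have T1 : |fx (ln c.G) 1 ζ1| < T := by linarith [abs_nonneg (fx (ln c.G) 1 ζ2)]
  have T2 : |fx (ln c.G) 1 ζ2| < T := by linarith [abs_nonneg (fx (ln c.G) 1 ζ1)]
  have T0 : 0 < T := (abs_nonneg _).trans_lt T1
  obtain ⟨C, C0, ρ, ρ0, hC⟩ := hR.cmp T (-c.T0) (1 - c.T0) (by linarith) c.neg (2 + 2 * T)
    (by linarith)
  set κ := (c.G ((1, 0) - uv c.G ζ1) / 2 - c.G ((1, 0) - uv c.G ζ2) / 2) / 2 with hκ
  have κ0 : 0 < κ := by linarith
  have κ1 : κ < c.G ((1, 0) - uv c.G ζ1) / 2 - c.G ((1, 0) - uv c.G ζ2) / 2 := by linarith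
  refine ⟨2 * C / κ, by positivity, ?_⟩
  filter_upwards [q.tx.eventually (ball_mem_nhds _ ρ0), q.ts.eventually (gt_mem_nhds ρ0),
    q.tx.eventually (ball_mem_nhds _ c.rho0), q.tB.eventually (ball_mem_nhds _ c.rho0),
    y0.eventually (ball_mem_nhds _ c.rho0), z0.eventually (ball_mem_nhds _ c.rho0), q.B_near,
    y1, y2, z1, z2, y3.abs.eventually (gt_mem_nhds T1), y4.abs.eventually (gt_mem_nhds T1),
    z3.abs.eventually (gt_mem_nhds T2), z4.abs.eventually (gt_mem_nhds T2),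
    (y5.sub z5).eventually (lt_mem_nhds κ1)] with i i1 i2 i3 i4 i5 i6 i7 j1 j2 j3 j4 k1 k2 k3 k4 k5
  have s0 := q.s0 i
  have a1 := two_above c.crof i3 i4 i5 i6 j1 j2 j3 j4
  have b1 : |(q.B i).1 - (q.x i).1| ≤ 2 * q.s i := (norm_fst_le (q.B i - q.x i)).trans i7
  have b2 : |(q.B i).2 - (q.x i).2| ≤ 2 * q.s i := (norm_snd_le (q.B i - q.x i)).trans i7
  have a2 : c.μ.real (sp (q.x i) (q.B i) ∩ sp (Y i) (Z i)) ≤
      mT c.μ T (q.x i) ((2 + 2 * T) * q.s i) :=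
    measureReal_mono (window j1 j2 j3 j4 k1.le k2.le k3.le k4.le (by nlinarith))
  have a3 := hC _ i1 _ s0 i2 (q.x i) (mem_closedBall_self (by positivity))
  have a4 : mw c.μ (Icc (-c.T0) (1 - c.T0)) (q.x i) (q.s i / (2 + 2 * T)) ≤
      mT c.μ c.T0 (q.x i) (q.s i) :=
    mw_mono _ _ (Icc_subset_Icc_right (by linarith [c.t0])) (div_le_self s0.le (by linarith))
  rw [← sub_div, lt_div_iff₀ (q.N0 i)] at k5
  have a5 := mul_le_mul_of_nonneg_left a4 C0.le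
  rw [div_mul_eq_mul_div, le_div_iff₀ κ0]
  linarith

/-- the system of the focal segments -/
noncomputable def sys (hR : Reg c) : Sys c ℕ where
  U := hyperfilter ℕ
  x := q.x
  s := q.s
  N := fun i => c.d (q.x i) (q.B i)
  tx := q.tx.mono_left Nat.hyperfilter_le_atTop
  ts := q.ts.mono_left Nat.hyperfilter_le_atTop
  s0 := q.s0
  N0 := q.N0
  cmp := by
    have := c.crof.fin
    obtain ⟨C1, c1, h1⟩ := q.cmp_up hR
    obtain ⟨C2, c2, h2⟩ := q.cmp_low hR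
    refine ⟨C1 + C2, by positivity, Eventually.filter_mono Nat.hyperfilter_le_atTop ?_⟩
    filter_upwards [h1, h2] with i i1 i2
    have a1 := mul_pos c2 (q.N0 i)
    have a2 : 0 ≤ C1 * mT c.μ c.T0 (q.x i) (q.s i) := mul_nonneg c1.le measureReal_nonneg
    constructor <;> linarith

end Seq

end FOCaux

end Pool.Agent.P.MP_874adf_gt.Gn
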