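import Pool.Agent.P.MP_874adf_gt.Gn.DefsF
import Pool.Agent.P.MP_874adf_gt.Gn.BasL

/-! Two deterministic lemmas for the zigzag. -/

set_option autoImplicit false

namespace Pool.Agent.P.MP_874adf_gt.Gn

open Pool.Agent.P.MP_874adf_gt.Fs Set Filter Topology Metric MeasureTheory

namespace KiA

/-- a point of prescribed level and prescribed value of `om` -/
lemma point {b om : P → ℝ} {x : P} {r ζ γ ε ρ H t g a w : ℝ} (γ0 : 0 < γ) (ρ0 : 0 < ρ) (H0 : 0 ≤ H)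
    (ht : |t - ζ| ≤ ε) (sm : 2 * ε * H + ε * (ρ / γ) ≤ ρ / 2)
    (hr : ρ + (|ζ| + ε + 1) * (H + ρ / γ) ≤ r)
    (cb : ContinuousOn b (closedBall x r)) (co : ContinuousOn om (closedBall x r))
    (lip : ∀ y ∈ closedBall x r, ∀ y' ∈ closedBall x r, y.2 < y'.2 →
      |pr ζ (y' - y)| ≤ γ * (y'.2 - y.2) → b y < b y')
    (mon : ∀ y ∈ closedBall x r, (∀ θ ∈ Icc (ζ - ε) (ζ + ε), 0 ≤ pr θ (x - y)) → om y ≤ om x)
    (gain : ∀ y ∈ closedBall x r, (∀ θ ∈ Icc (ζ - ε) (ζ + ε), ρ / 2 ≤ pr θ (y - x)) → om x + g ≤ om y)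
    (lo : b (x - H • (t, 1)) ≤ a) (hi : a ≤ b (x + H • (t, 1))) (w0 : om x ≤ w) (w1 : w ≤ om x + g) :
    ∃ y ∈ closedBall x r, b y = a ∧ om y = w := by
  have ε0 : 0 ≤ ε := (abs_nonneg _).trans ht
  have q0 : 0 < ρ / γ := div_pos ρ0 γ0
  set Y : ℝ → ℝ → ℝ → P := fun u τ h => (x.1 + u * t + τ + h * ζ, x.2 + u + h) with hY
  have ta : |t| ≤ |ζ| + ε := by
    have := abs_add_le (t - ζ) ζ
    rw [sub_add_cancel] at this
    linarith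
  have mem : ∀ u τ h, |u| ≤ H → |τ| ≤ ρ → |h| ≤ ρ / γ → Y u τ h ∈ closedBall x r := by
    intro u τ h h1 h2 h3
    have a1 : |u * t| ≤ H * (|ζ| + ε) := by rw [abs_mul]; gcongr
    have a2 : |h * ζ| ≤ ρ / γ * |ζ| := by rw [abs_mul]; gcongr
    have a3 : 0 ≤ ε * (ρ / γ) := by positivity
    have a4 : 0 ≤ (|ζ| + ε) * (H + ρ / γ) := by positivity
    rw [mem_closedBall, Prod.dist_eq, max_le_iff, Real.dist_eq, Real.dist_eq]
    rw [abs_le] at h1 h2 h3 a1 a2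
    simp only [hY, abs_le]
    refine ⟨⟨?_, ?_⟩, ?_, ?_⟩ <;> linarith [h1.1, h1.2, h2.1, h2.2, h3.1, h3.2, a1.1, a1.2, a2.1, a2.2]
  obtain ⟨u, hu, eu⟩ : ∃ u ∈ Icc (-H) H, b (Y u 0 0) = a := by
    refine intermediate_value_Icc (f := fun u => b (Y u 0 0)) (by linarith)
      (cb.comp (by fun_prop) fun u hu => mem u 0 0 (abs_le.2 hu) (by simpa using ρ0.le)
        (by simpa using q0.le)) ⟨?_, ?_⟩
    · have : Y (-H) 0 0 = x - H • (t, 1) := by ext <;> simp [hY, sub_eq_add_neg]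
      simpa only [this] using lo
    · have : Y H 0 0 = x + H • (t, 1) := by ext <;> simp [hY]
      simpa only [this] using hi
  replace hu := abs_le.2 hu
  have cmp : ∀ τ h τ' h', |τ| ≤ ρ → |h| ≤ ρ / γ → |τ'| ≤ ρ → |h'| ≤ ρ / γ → h < h' →
      |τ' - τ| ≤ γ * (h' - h) → b (Y u τ h) < b (Y u τ' h') := by
    intro τ h τ' h' a1 a2 a3 a4 a5 a6
    refine lip _ (mem _ _ _ hu a1 a2) _ (mem _ _ _ hu a3 a4) (by simp only [hY]; linarith) ?_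
    convert a6 using 2
    · simp only [hY, pr, Prod.fst_sub, Prod.snd_sub]; ring
    · simp only [hY]; ring
  have z1 : |(0 : ℝ)| ≤ ρ := by simpa using ρ0.le
  have z2 : |(0 : ℝ)| ≤ ρ / γ := by simpa using q0.le
  have ex : ∀ τ, ∃ h, |τ| ≤ ρ → |h| ≤ ρ / γ ∧ b (Y u τ h) = a := by
    intro τ
    by_cases hτ : |τ| ≤ ρ
    swap
    · exact ⟨0, fun c => absurd c hτ⟩
    have e : γ * (ρ / γ) = ρ := by field_simp
    have p1 := cmp 0 0 τ (ρ / γ) z1 z2 hτ (abs_of_pos q0).le q0 (by simpa [e] using hτ)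
    have p2 := cmp τ (-(ρ / γ)) 0 0 hτ (by rw [abs_neg, abs_of_pos q0]) z1 z2 (by linarith)
      (by simpa [e] using hτ)
    obtain ⟨h, hh, eh⟩ := intermediate_value_Icc (f := fun h => b (Y u τ h)) (a := -(ρ / γ))
      (b := ρ / γ) (by linarith) (cb.comp (by fun_prop) fun h hh => mem u τ h hu hτ (abs_le.2 hh))
      (show a ∈ _ from ⟨(eu ▸ p2.le :), (eu ▸ p1.le :)⟩)
    exact ⟨h, fun _ => ⟨abs_le.2 hh, eh⟩⟩
  choose h hh using ex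
  have l1 : ∀ τ τ', |τ| ≤ ρ → |τ'| ≤ ρ → h τ' - h τ ≤ |τ' - τ| / γ := by
    intro τ τ' a1 a2
    by_contra c
    rw [not_le, div_lt_iff₀ γ0] at c
    have p : h τ < h τ' := by
      have := (abs_nonneg _).trans_lt c
      exact sub_pos.1 ((mul_pos_iff_of_pos_right γ0).1 this)
    have := cmp τ _ τ' _ a1 (hh τ a1).1 a2 (hh τ' a2).1 p (by linarith)
    rw [(hh τ a1).2, (hh τ' a2).2] at this
    exact lt_irrefl _ this
  have ch : ContinuousOn h (Icc (-ρ) ρ) := by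
    refine (LipschitzOnWith.of_le_add_mul' γ⁻¹ fun τ a1 τ' a2 => ?_).continuousOn
    have := l1 τ' τ (abs_le.2 a2) (abs_le.2 a1)
    rw [Real.dist_eq, inv_mul_eq_div]
    linarith
  have est : ∀ τ, |τ| ≤ ρ → ∀ θ ∈ Icc (ζ - ε) (ζ + ε), |pr θ (Y u τ (h τ) - x) - τ| ≤ ρ / 2 := by
    intro τ a1 θ hθ
    have e : pr θ (Y u τ (h τ) - x) - τ = u * (t - θ) + h τ * (ζ - θ) := by
      simp only [hY, pr, Prod.fst_sub, Prod.snd_sub]; ring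
    have b1 : |t - θ| ≤ 2 * ε := by
      rw [abs_le] at ht ⊢
      constructor <;> linarith [ht.1, ht.2, hθ.1, hθ.2]
    have b2 : |ζ - θ| ≤ ε := abs_le.2 ⟨by linarith [hθ.2], by linarith [hθ.1]⟩
    have b3 : |u * (t - θ)| ≤ H * (2 * ε) := by rw [abs_mul]; gcongr
    have b4 : |h τ * (ζ - θ)| ≤ ρ / γ * ε := by
      rw [abs_mul]; exact mul_le_mul (hh τ a1).1 b2 (abs_nonneg _) q0.le
    rw [e]
    linarith [abs_add_le (u * (t - θ)) (h τ * (ζ - θ))]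
  have r1 : |ρ| ≤ ρ := (abs_of_pos ρ0).le
  have r2 : |-ρ| ≤ ρ := by rwa [abs_neg]
  obtain ⟨τ, hτ, eτ⟩ := intermediate_value_Icc (f := fun τ => om (Y u τ (h τ))) (a := -ρ) (b := ρ)
    (by linarith) (co.comp (by
      refine ContinuousOn.prodMk ?_ ?_
      · exact ((continuousOn_const.add continuousOn_id).add (ch.mul continuousOn_const))
      · exact continuousOn_const.add ch) fun τ hτ =>
        mem u τ _ hu (abs_le.2 hτ) (hh τ (abs_le.2 hτ)).1)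
    (show w ∈ _ from ⟨le_trans (mon _ (mem _ _ _ hu r2 (hh _ r2).1) fun θ hθ => by
        have := abs_le.1 (est _ r2 θ hθ)
        rw [pr_sub] at this ⊢
        linarith [this.2]) w0,
      w1.trans (gain _ (mem _ _ _ hu r1 (hh _ r1).1) fun θ hθ => by
        have := abs_le.1 (est _ r1 θ hθ)
        linarith [this.1])⟩)
  exact ⟨_, mem u τ _ hu (abs_le.2 hτ) (hh τ (abs_le.2 hτ)).1, (hh τ (abs_le.2 hτ)).2, eτ⟩

/-- chords between points with equal value of `om` -/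
lemma chord {b om : P → ℝ} {Q : Set P} {ζ γ ε : ℝ} (ε0 : 0 ≤ ε) (εγ : ε ≤ γ)
    (lip : ∀ y ∈ Q, ∀ y' ∈ Q, y.2 < y'.2 → |pr ζ (y' - y)| ≤ γ * (y'.2 - y.2) → b y < b y')
    (smon : ∀ y ∈ Q, ∀ y' ∈ Q, (∀ θ ∈ Icc (ζ - ε) (ζ + ε), 0 < pr θ (y' - y)) → om y < om y')
    {y y' : P} (hy : y ∈ Q) (hy' : y' ∈ Q) (e : om y = om y') (lt : b y < b y') :
    ∃ h > (0 : ℝ), ∃ θ ∈ Icc (ζ - ε) (ζ + ε), y' - y = h • ((θ, 1) : P) := by
  obtain ⟨θ, hθ, e0⟩ : ∃ θ ∈ Icc (ζ - ε) (ζ + ε), pr θ (y' - y) = 0 := by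
    have h1 : ¬ ∀ θ ∈ Icc (ζ - ε) (ζ + ε), 0 < pr θ (y' - y) := fun c => (smon y hy y' hy' c).ne e
    have h2 : ¬ ∀ θ ∈ Icc (ζ - ε) (ζ + ε), 0 < pr θ (y - y') := fun c => (smon y' hy' y hy c).ne' e
    push Not at h1 h2
    obtain ⟨a, ha, h1⟩ := h1
    obtain ⟨a', ha', h2⟩ := h2
    have h3 : 0 ≤ pr a' (y' - y) := by rw [pr_sub] at h2 ⊢; linarith
    exact isPreconnected_Icc.intermediate_value ha ha' (f := fun θ => pr θ (y' - y))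
      (by unfold pr; fun_prop) ⟨h1, h3⟩
  have e1 : y' - y = (y'.2 - y.2) • ((θ, 1) : P) := by
    simp only [pr, Prod.fst_sub, Prod.snd_sub] at e0
    ext
    · simp only [Prod.fst_sub, Prod.smul_fst, smul_eq_mul]; linarith
    · simp
  refine ⟨_, ?_, θ, hθ, e1⟩
  rcases lt_trichotomy y.2 y'.2 with c | c | c
  · exact sub_pos.2 c
  · rw [c, sub_self, zero_smul, sub_eq_zero] at e1
    rw [e1] at lt
    exact absurd lt (lt_irrefl _)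
  · refine absurd (lip y' hy' y hy c ?_) lt.not_gt
    have e2 : pr ζ (y - y') = (y.2 - y'.2) * (θ - ζ) := by
      simp only [pr, Prod.fst_sub, Prod.snd_sub] at e0 ⊢; linarith
    rw [e2, abs_mul, abs_of_pos (sub_pos.2 c), mul_comm]
    exact mul_le_mul_of_nonneg_right (abs_le.2 ⟨by linarith [hθ.1], by linarith [hθ.2]⟩)
      (sub_pos.2 c).le

theorem path {b om : P → ℝ} {x : P} {r ζ γ ε ρ H t g lo hi w : ℝ} (γ0 : 0 < γ) (εγ : ε ≤ γ)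
    (ρ0 : 0 < ρ) (H0 : 0 ≤ H) (ht : |t - ζ| ≤ ε) (sm : 2 * ε * H + ε * (ρ / γ) ≤ ρ / 2)
    (hr : ρ + (|ζ| + ε + 1) * (H + ρ / γ) ≤ r)
    (cb : ContinuousOn b (closedBall x r)) (co : ContinuousOn om (closedBall x r))
    (lip : ∀ y ∈ closedBall x r, ∀ y' ∈ closedBall x r, y.2 < y'.2 →
      |pr ζ (y' - y)| ≤ γ * (y'.2 - y.2) → b y < b y')
    (smon : ∀ y ∈ closedBall x r, ∀ y' ∈ closedBall x r,
      (∀ θ ∈ Icc (ζ - ε) (ζ + ε), 0 < pr θ (y' - y)) → om y < om y')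
    (mon : ∀ y ∈ closedBall x r, (∀ θ ∈ Icc (ζ - ε) (ζ + ε), 0 ≤ pr θ (x - y)) → om y ≤ om x)
    (gain : ∀ y ∈ closedBall x r, (∀ θ ∈ Icc (ζ - ε) (ζ + ε), ρ / 2 ≤ pr θ (y - x)) → om x + g ≤ om y)
    (hlo : b (x - H • (t, 1)) ≤ lo) (hhi : hi ≤ b (x + H • (t, 1))) (w0 : om x ≤ w)
    (w1 : w ≤ om x + g) :
    ∃ Pa : ℝ → P, (∀ a ∈ Icc lo hi, Pa a ∈ closedBall x r ∧ b (Pa a) = a ∧ om (Pa a) = w) ∧
      ∀ a ∈ Icc lo hi, ∀ a' ∈ Icc lo hi, a < a' →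
        ∃ h > (0 : ℝ), ∃ θ ∈ Icc (ζ - ε) (ζ + ε), Pa a' - Pa a = h • ((θ, 1) : P) := by
  have ex : ∀ a, ∃ y, a ∈ Icc lo hi → y ∈ closedBall x r ∧ b y = a ∧ om y = w := fun a => by
    by_cases ha : a ∈ Icc lo hi
    · obtain ⟨y, h⟩ := point γ0 ρ0 H0 ht sm hr cb co lip mon gain (hlo.trans ha.1) (ha.2.trans hhi)
        w0 w1
      exact ⟨y, fun _ => h⟩
    · exact ⟨x, fun c => absurd c ha⟩
  choose Pa hP using ex
  refine ⟨Pa, hP, fun a ha a' ha' lt => chord ((abs_nonneg _).trans ht) εγ lip smon (hP a ha).1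
    (hP a' ha').1 ((hP a ha).2.2.trans (hP a' ha').2.2.symm) ?_⟩
  rw [(hP a ha).2.1, (hP a' ha').2.1]
  exact lt

/-- the staircase; `Vf d D1 - Vf d D2` oscillates little along the two paths -/
theorem stair {d : P → P → ℝ} {D1 D2 : Dat} {Q Q' : Set P} (sub : Q' ⊆ Q) {P0 P1 : ℝ → P}
    {ω lv k δ e e1 : ℝ} (δ0 : 0 < δ) (δk : δ ≤ k) (he : (8 * k / δ + 6) * e1 ≤ e) (e0 : 0 ≤ e1)
    (hP : ∀ a ∈ Icc (lv - ω - 2 * k) (lv - ω + 2 * k), P0 a ∈ Q ∧ P1 a ∈ Q ∧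
      d (dO D1) (P0 a) = a ∧ d (dO D1) (P1 a) = a ∧ d (dO D2) (P0 a) = a + ω ∧
      d (dO D2) (P1 a) = a + ω + δ)
    (m1 : ∀ y ∈ Q, ∀ z ∈ Q, d (dO D1) y ≤ d (dO D1) z → hf d D1 y ≤ hf d D1 z + e1)
    (m2 : ∀ y ∈ Q, ∀ z ∈ Q, d (dO D2) y ≤ d (dO D2) z → hf d D2 y ≤ hf d D2 z + e1)
    (osc : ∀ a ∈ Icc (lv - ω - 2 * k) (lv - ω + 2 * k),
      |Vf d D1 (P0 a) - Vf d D2 (P0 a) - (Vf d D1 (P0 (lv - ω)) - Vf d D2 (P0 (lv - ω)))| ≤ e1 ∧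
      |Vf d D1 (P1 a) - Vf d D2 (P1 a) - (Vf d D1 (P1 (lv - ω)) - Vf d D2 (P1 (lv - ω)))| ≤ e1) :
    Stair d D2 Q' lv k δ e := by
  set dd := Vf d D1 (P0 (lv - ω)) - Vf d D2 (P0 (lv - ω)) -
    (Vf d D1 (P1 (lv - ω)) - Vf d D2 (P1 (lv - ω))) - δ with hdd
  have step : ∀ a, lv - ω - 2 * k ≤ a → a + δ ≤ lv - ω + 2 * k →
      |hf d D2 (P0 (a + δ)) - hf d D2 (P0 a) - dd| ≤ 4 * e1 := by
    intro a h1 h2
    have ma : a ∈ Icc (lv - ω - 2 * k) (lv - ω + 2 * k) := ⟨h1, by linarith⟩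
    obtain ⟨q0, q1, a0, a1, b0, b1⟩ := hP a ma
    obtain ⟨q2, -, -, -, b2, -⟩ := hP (a + δ) ⟨by linarith, h2⟩
    obtain ⟨o0, o1⟩ := osc a ma
    have f1 := m1 _ q0 _ q1 (by rw [a0, a1])
    have f2 := m1 _ q1 _ q0 (by rw [a0, a1])
    have f3 := m2 _ q1 _ q2 (by rw [b1, b2]; linarith)
    have f4 := m2 _ q2 _ q1 (by rw [b1, b2]; linarith)
    have g0 : hf d D1 (P0 a) = Vf d D1 (P0 a) - a := by rw [hf, a0]
    have g1 : hf d D1 (P1 a) = Vf d D1 (P1 a) - a := by rw [hf, a1]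
    have g2 : hf d D2 (P0 a) = Vf d D2 (P0 a) - (a + ω) := by rw [hf, b0]
    have g3 : hf d D2 (P1 a) = Vf d D2 (P1 a) - (a + ω + δ) := by rw [hf, b1]
    rw [abs_le] at o0 o1 ⊢
    constructor <;> linarith [o0.1, o0.2, o1.1, o1.2]
  have many : ∀ a, lv - ω - 2 * k ≤ a → ∀ m : ℕ, a + m * δ ≤ lv - ω + 2 * k →
      |hf d D2 (P0 (a + m * δ)) - hf d D2 (P0 a) - m * dd| ≤ m * (4 * e1) := by
    intro a h1 m
    induction m with
    | zero => simp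
    | succ m ih =>
      intro h2
      push_cast at h2 ⊢
      have p : 0 ≤ m * δ := by positivity
      have i1 := ih (by linarith)
      have i2 := step (a + m * δ) (by linarith) (by linarith)
      rw [show a + (m + 1) * δ = a + m * δ + δ by ring]
      rw [abs_le] at i1 i2 ⊢
      constructor <;> linarith [i1.1, i1.2, i2.1, i2.2]
  refine ⟨dd, fun u hu w hw lu lw m h1 h2 => ?_⟩
  rw [abs_le] at lu lw
  set a := d (dO D2) u - ω with ha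
  have p : 0 ≤ m * δ := by positivity
  have a0 : lv - ω - 2 * k ≤ a := by linarith [lu.1]
  have j1 := many a a0 m (by linarith [lw.2])
  have j2 := many a a0 (m + 1) (by push_cast; linarith [lw.2])
  push_cast at j2
  obtain ⟨q0, -, -, -, b0, -⟩ := hP a ⟨a0, by linarith [lu.2]⟩
  obtain ⟨q1, -, -, -, b1, -⟩ := hP (a + m * δ) ⟨by linarith, by linarith [lw.2]⟩
  obtain ⟨q2, -, -, -, b2, -⟩ := hP (a + (m + 1) * δ) ⟨by linarith, by linarith [lw.2]⟩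
  have f1 := m2 _ q0 _ (sub hu) (by rw [b0]; linarith)
  have f2 := m2 _ (sub hu) _ q0 (by rw [b0]; linarith)
  have f3 := m2 _ q1 _ (sub hw) (by rw [b1]; linarith)
  have f4 := m2 _ (sub hw) _ q2 (by rw [b2]; linarith)
  have mk : (m : ℝ) ≤ 2 * k / δ := by rw [le_div_iff₀ δ0]; linarith [lu.1, lw.2]
  have mk' : m * (4 * e1) ≤ 2 * k / δ * (4 * e1) := by gcongr
  have e2 : (8 * k / δ + 6) * e1 = 2 * k / δ * (4 * e1) + 6 * e1 := by ring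
  rw [abs_le] at j1 j2
  constructor <;> linarith [j1.1, j2.2]

end KiA

end Pool.Agent.P.MP_874adf_gt.Gn
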