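import Pool.Agent.P.MP_874adf_gt.Gn.T2a

/-! Step T2, part b: defects of the triangle inequality and masses of lines. -/

set_option autoImplicit false

namespace Pool.Agent.P.MP_874adf_gt.Gn.T2

open Pool.Agent.P.MP_874adf_gt.Fs Set Filter Topology Metric MeasureTheory

lemma meas_sp (y z : P) : MeasurableSet (sp y z) := by
  have m : ∀ w : P, MeasurableSet {l : ℝ × ℝ | l.1 < pr l.2 w} := fun w =>
    (isOpen_lt (by fun_prop) (by unfold pr; fun_prop)).measurableSet
  have e : sp y z = ({l : ℝ × ℝ | l.1 < pr l.2 y} \ {l : ℝ × ℝ | l.1 < pr l.2 z}) ∪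
      ({l : ℝ × ℝ | l.1 < pr l.2 z} \ {l : ℝ × ℝ | l.1 < pr l.2 y}) := by
    ext l; simp only [sp, mem_ofPred_eq, mem_union, Set.mem_sdiff]; tauto
  rw [e]
  exact ((m y).diff (m z)).union ((m z).diff (m y))

/-- the defect of the triangle inequality counts the lines that cut off the middle point -/
lemma defect {d : P → P → ℝ} {x : P} {ρ : ℝ} {μ : Measure (ℝ × ℝ)} {Ψ : ℝ → ℝ}
    (hc : Crof d x ρ μ Ψ) {X y z : P} (hX : X ∈ ball x ρ) (hy : y ∈ ball x ρ) (hz : z ∈ ball x ρ)
    (h1 : X.2 ≤ y.2) (h2 : y.2 ≤ z.2) :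
    d X y + d y z - d X z = 2 * μ.real (sp X y ∩ sp y z) := by
  have := hc.fin
  rw [hc.eq X hX y hy, hc.eq y hy z hz, hc.eq X hX z hz,
    abs_of_nonneg (sub_nonneg.2 (hc.mono h1)), abs_of_nonneg (sub_nonneg.2 (hc.mono h2)),
    abs_of_nonneg (sub_nonneg.2 (hc.mono (h1.trans h2)))]
  have e1 := measureReal_inter_add_sdiff (μ := μ) (s := sp X y) (meas_sp y z)
  have e2 := measureReal_inter_add_sdiff (μ := μ) (s := sp y z) (meas_sp X y)
  have e3 : sp X z = (sp X y \ sp y z) ∪ (sp y z \ sp X y) := by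
    ext l; simp only [sp, mem_ofPred_eq, mem_union, Set.mem_sdiff]; tauto
  have e4 : μ.real (sp X z) = μ.real (sp X y \ sp y z) + μ.real (sp y z \ sp X y) := by
    rw [e3]
    exact measureReal_union (disjoint_sdiff_sdiff) ((meas_sp y z).diff (meas_sp X y))
  rw [inter_comm] at e2
  linarith

lemma isS_nonneg {G : P → ℝ} (h : IsS G) (v : P) : 0 ≤ G v := by
  have h0 : G 0 = 0 := by simpa using h.smul 0 0
  have h1 : G (-v) = G v := by simpa using h.smul (-1) v
  have := h.add v (-v)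
  rw [add_neg_cancel] at this
  linarith

/-- a seminorm that is not a norm is additive on one side of every slope -/
lemma degenerate {G : P → ℝ} (h : IsS G) (hn : ¬ IsN G) {a m b : ℝ} (h1 : a ≤ m) (h2 : m ≤ b) :
    G (a, 1) + G (m, 1) ≤ G (a + m, 2) ∨ G (m, 1) + G (b, 1) ≤ G (m + b, 2) := by
  obtain ⟨v, v0, hv⟩ : ∃ v : P, v ≠ 0 ∧ G v = 0 := by
    by_contra hc
    refine hn ⟨h.smul, h.add, fun v hv => ?_⟩
    rcases (isS_nonneg h v).lt_or_eq with e | e
    · exact e
    · exact absurd ⟨v, hv, e.symm⟩ hc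
  have inv : ∀ (w : P) (t : ℝ), G (w + t • v) = G w := by
    intro w t
    have a1 := h.add w (t • v)
    have a2 := h.add (w + t • v) ((-t) • v)
    rw [h.smul, hv] at a1 a2
    have e : w + t • v + (-t) • v = w := by rw [neg_smul, add_neg_cancel_right]
    rw [e] at a2
    linarith
  by_cases hv2 : v.2 = 0
  · have hv1 : v.1 ≠ 0 := fun e => v0 (Prod.ext e hv2)
    have e : ∀ t u : ℝ, G (t, u) = |u| * G (0, 1) := by
      intro t u
      rw [← h.smul, ← inv (u • ((0 : ℝ), (1 : ℝ))) (t / v.1)]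
      congr 1
      ext
      · simp; field_simp
      · simp [hv2]
    left
    rw [e a, e m, e (a + m), abs_one, abs_two]
    linarith
  · have e : ∀ t u : ℝ, G (t, u) = |t - v.1 / v.2 * u| * G (1, 0) := by
      intro t u
      rw [← h.smul, ← inv ((t - v.1 / v.2 * u) • ((1 : ℝ), (0 : ℝ))) (u / v.2)]
      congr 1
      ext
      · simp; field_simp; ring
      · simp; field_simp
    rw [e a, e m, e b, e (a + m), e (m + b)]
    rcases le_total (v.1 / v.2) m with h3 | h3
    · right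
      rw [abs_of_nonneg (by linarith), abs_of_nonneg (by linarith), abs_of_nonneg (by linarith)]
      exact le_of_eq (by ring)
    · left
      rw [abs_of_nonpos (by linarith), abs_of_nonpos (by linarith), abs_of_nonpos (by linarith)]
      exact le_of_eq (by ring)

lemma mem_cb {y w : P} {r : ℝ} (h1 : |w.1 - y.1| ≤ r) (h2 : |w.2 - y.2| ≤ r) :
    w ∈ closedBall y r := by
  rw [mem_closedBall, Prod.dist_eq, Real.dist_eq, Real.dist_eq, max_le_iff]
  exact ⟨h1, h2⟩

/-- where the tangent seminorm is additive the lines of intermediate slope have density zero -/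
lemma littleo {d : P → P → ℝ} {x : P} {ρ : ℝ} {μ : Measure (ℝ × ℝ)} {Ψ : ℝ → ℝ}
    (hc : Crof d x ρ μ Ψ) {y : P} (hy : y ∈ ball x ρ) {G : P → ℝ} (hG : IsS G) (hd : DU d y G)
    {a j k b : ℝ} (h1 : a < j) (h2 : k < b) (he : G (a, 1) + G (b, 1) ≤ G (a + b, 2)) :
    ∀ ε > (0 : ℝ), ∃ δ > (0 : ℝ), ∀ s, 0 < s → s < δ → mw μ (Icc j k) y s ≤ ε * s := by
  intro ε ε0
  have := hc.fin
  set g := min (j - a) (b - k) with hg
  have g0 : 0 < g := lt_min (by linarith) (by linarith)
  have g1 : g ≤ j - a := min_le_left _ _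
  have g2 : g ≤ b - k := min_le_right _ _
  set R := 2 + 4 / g * (|a| + |b| + 1) with hR
  have R0 : 0 < R := by positivity
  obtain ⟨δ, δ0, hδ⟩ := hd (ε / (2 * R)) (by positivity)
  obtain ⟨η, η0, hη⟩ := Metric.isOpen_iff.1 isOpen_ball y hy
  refine ⟨min δ η / R, by positivity, fun s s0 hs => ?_⟩
  rw [lt_div_iff₀ R0] at hs
  have hs1 : s * R ≤ δ := hs.le.trans (min_le_left _ _)
  have hs2 : s * R < η := hs.trans_le (min_le_right _ _)
  set t := 4 / g * s with ht
  have t0 : 0 < t := by positivity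
  have tg : t * g = 4 * s := by rw [ht]; field_simp
  have eR : s * R = 2 * s + t * (|a| + |b| + 1) := by rw [hR, ht]; ring
  have pa := abs_nonneg a
  have pb := abs_nonneg b
  have qa := le_abs_self a
  have qb := le_abs_self b
  have ra := neg_abs_le a
  have rb := neg_abs_le b
  have m1 : ((y.1 - 2 * s, y.2) : P) ∈ closedBall y (s * R) := by
    refine mem_cb ?_ ?_ <;> rw [abs_le] <;> constructor <;> simp only [] <;> nlinarith
  have m2 : ((y.1 - 2 * s - t * a, y.2 - t) : P) ∈ closedBall y (s * R) := by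
    refine mem_cb ?_ ?_ <;> rw [abs_le] <;> constructor <;> simp only [] <;> nlinarith
  have m3 : ((y.1 - 2 * s + t * b, y.2 + t) : P) ∈ closedBall y (s * R) := by
    refine mem_cb ?_ ?_ <;> rw [abs_le] <;> constructor <;> simp only [] <;> nlinarith
  have sub : closedBall y (s * R) ⊆ ball x ρ := (closedBall_subset_ball hs2).trans hη
  have df := defect hc (sub m2) (sub m1) (sub m3) (by simp only []; linarith)
    (by simp only []; linarith)
  have n1 := hδ _ (by positivity) hs1 _ m2 _ m1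
  have n2 := hδ _ (by positivity) hs1 _ m1 _ m3
  have n3 := hδ _ (by positivity) hs1 _ m2 _ m3
  have e1 : ((y.1 - 2 * s, y.2) : P) - (y.1 - 2 * s - t * a, y.2 - t) = t • (a, 1) := by
    ext <;> simp
  have e2 : ((y.1 - 2 * s + t * b, y.2 + t) : P) - (y.1 - 2 * s, y.2) = t • (b, 1) := by
    ext <;> simp
  have e3 : ((y.1 - 2 * s + t * b, y.2 + t) : P) - (y.1 - 2 * s - t * a, y.2 - t) =
      t • (a + b, 2) := by
    ext <;> simp <;> ring
  rw [e1, hG.smul, abs_of_pos t0, abs_le] at n1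
  rw [e2, hG.smul, abs_of_pos t0, abs_le] at n2
  rw [e3, hG.smul, abs_of_pos t0, abs_le] at n3
  have e4 : ε / (2 * R) * (s * R) = ε * s / 2 := by field_simp
  rw [e4] at n1 n2 n3
  have hm : mw μ (Icc j k) y s ≤ μ.real (sp (y.1 - 2 * s - t * a, y.2 - t) (y.1 - 2 * s, y.2) ∩
      sp (y.1 - 2 * s, y.2) (y.1 - 2 * s + t * b, y.2 + t)) := by
    refine measureReal_mono ?_
    rintro l ⟨⟨l1, l2⟩, l3⟩
    simp only [pr, abs_le] at l3
    have u1 : t * g ≤ t * (l.2 - a) := by gcongr; linarith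
    have u2 : t * g ≤ t * (b - l.2) := by gcongr; linarith
    constructor <;> simp only [sp, pr, mem_ofPred_eq]
    · intro hh
      have := hh.1 (by nlinarith [l3.1, l3.2])
      linarith [l3.1]
    · intro hh
      have := hh.2 (by nlinarith [l3.1, l3.2])
      linarith [l3.1]
  have he' := mul_le_mul_of_nonneg_left he t0.le
  have : 0 < ε * s := by positivity
  nlinarith [n1.2, n2.2, n3.1]

/-- lines of slope in any interval pass near any point -/
lemma mass_pos {M : Set P} {d : P → P → ℝ} (h : PM M d) {x : P} {ρ : ℝ} (hM : ball x ρ ⊆ M)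
    {μ : Measure (ℝ × ℝ)} {Ψ : ℝ → ℝ} (hc : Crof d x ρ μ Ψ) {y : P} (hy : y ∈ ball x ρ)
    {j k : ℝ} (hjk : j < k) {s : ℝ} (s0 : 0 < s) : 0 < mw μ (Icc j k) y s := by
  have := hc.fin
  obtain ⟨η, η0, hη⟩ := Metric.isOpen_iff.1 isOpen_ball y hy
  set R := |j| + |k| + 1 with hR
  have R0 : 0 < R := by positivity
  set t := min s (η / 2) / R with ht
  have t0 : 0 < t := by positivity
  have tR : t * R = min s (η / 2) := by rw [ht]; field_simp
  have t1 : t * R ≤ s := tR ▸ min_le_left _ _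
  have t2 : t * R ≤ η / 2 := tR ▸ min_le_right _ _
  have pa := abs_nonneg j
  have pb := abs_nonneg k
  have qa := le_abs_self j
  have qb := le_abs_self k
  have ra := neg_abs_le j
  have rb := neg_abs_le k
  have m2 : ((y.1 - t * j, y.2 - t) : P) ∈ closedBall y (η / 2) := by
    refine mem_cb ?_ ?_ <;> rw [abs_le] <;> constructor <;> simp only [] <;> nlinarith
  have m3 : ((y.1 + t * k, y.2 + t) : P) ∈ closedBall y (η / 2) := by
    refine mem_cb ?_ ?_ <;> rw [abs_le] <;> constructor <;> simp only [] <;> nlinarith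
  have sub : closedBall y (η / 2) ⊆ ball x ρ := (closedBall_subset_ball (by linarith)).trans hη
  have df := defect hc (sub m2) hy (sub m3) (by simp only []; linarith)
    (by simp only []; linarith)
  have tri := h.triangle _ (hM (sub m2)) _ (hM hy) _ (hM (sub m3))
  have ne : d (y.1 - t * j, y.2 - t) y + d y (y.1 + t * k, y.2 + t) ≠
      d (y.1 - t * j, y.2 - t) (y.1 + t * k, y.2 + t) := by
    intro e
    obtain ⟨u, v, -, -, uv, e⟩ := (h.straight _ (hM (sub m2)) _ (hM hy) _ (hM (sub m3))).1 e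
    have e1 := congrArg Prod.fst e
    have e2 := congrArg Prod.snd e
    simp only [Prod.fst_add, Prod.snd_add, Prod.smul_fst, Prod.smul_snd, smul_eq_mul] at e1 e2
    have hv : v = 1 - u := by linarith
    subst hv
    have u1 : t * (1 - 2 * u) = 0 := by linarith
    have u2 : u = 1 / 2 := by
      rcases mul_eq_zero.1 u1 with c | c <;> linarith
    subst u2
    nlinarith
  have hp : 0 < μ.real (sp (y.1 - t * j, y.2 - t) y ∩ sp y (y.1 + t * k, y.2 + t)) := by
    have := lt_of_le_of_ne tri ne.symm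
    linarith
  refine hp.trans_le (measureReal_mono ?_)
  rintro l ⟨l1, l2⟩
  simp only [sp, pr, mem_ofPred_eq] at l1 l2
  by_cases c : l.1 < y.1 - l.2 * y.2
  · have c1 : ¬ l.1 < y.1 - t * j - l.2 * (y.2 - t) := fun c' => l1 ⟨fun _ => c, fun _ => c'⟩
    have c2 : ¬ l.1 < y.1 + t * k - l.2 * (y.2 + t) := fun c' => l2 ⟨fun _ => c', fun _ => c⟩
    nlinarith
  · have c1 : l.1 < y.1 - t * j - l.2 * (y.2 - t) := by tauto
    have c2 : l.1 < y.1 + t * k - l.2 * (y.2 + t) := by tauto
    have d1 : 0 < t * (l.2 - j) := by nlinarith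
    have d2 : 0 < t * (k - l.2) := by nlinarith
    have d3 := (mul_pos_iff_of_pos_left t0).1 d1
    have d4 := (mul_pos_iff_of_pos_left t0).1 d2
    refine ⟨⟨by linarith, by linarith⟩, ?_⟩
    simp only [pr]
    rw [abs_le]
    constructor <;> nlinarith

/-- a comparison of two separated slope windows forces norms on a set of positive measure -/
theorem core {M : Set P} {d : P → P → ℝ} (h : PM M d) {x : P} {ρ : ℝ} (hM : ball x ρ ⊆ M)
    {μ : Measure (ℝ × ℝ)} {Ψ : ℝ → ℝ} (hc : Crof d x ρ μ Ψ) {c : P} {q : ℝ} (q0 : 0 < q)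
    (hq : closedBall c q ⊆ ball x ρ) {j k j2 k2 : ℝ} (h2 : j2 ≤ k2) (hg : k2 < j) (hjk : j < k)
    {K s0 : ℝ} (K0 : 0 < K) (s00 : 0 < s0)
    (hcmp : ∀ y ∈ closedBall c q, ∀ s, 0 < s → s < s0 →
      mw μ (Icc j k) y s ≤ K * mw μ (Icc j2 k2) y (K * s))
    (hae : ∀ᵐ y : P, y ∈ closedBall c q → ∃ G, IsS G ∧ ¬ IsN G ∧ DU d y G) : False := by
  have := hc.fin
  refine core_e μ c q0 j k j2 k2 hg K0 s00
    (mass_pos h hM hc (hq (mem_closedBall_self q0.le)) hjk (by linarith)) hcmp ?_
  filter_upwards [hae] with y hy hyc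
  obtain ⟨G, hG, hn, hd⟩ := hy hyc
  rcases degenerate hG hn (a := j2 - 1) (m := (k2 + j) / 2) (b := k + 1) (by linarith)
    (by linarith) with e | e
  · intro ε ε0
    obtain ⟨δ, δ0, hδ⟩ := littleo hc (hq hyc) hG hd (j := j2) (k := k2) (by linarith)
      (by linarith) e (ε / (K * K)) (by positivity)
    refine ⟨min s0 (δ / K), by positivity, fun s s1 s2 => ?_⟩
    have s3 : K * s < δ := by
      have := s2.trans_le (min_le_right _ _)
      rwa [lt_div_iff₀' K0] at this
    refine (hcmp y hyc s s1 (s2.trans_le (min_le_left _ _))).trans ?_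
    calc _ ≤ K * (ε / (K * K) * (K * s)) := by gcongr; exact hδ _ (by positivity) s3
      _ = _ := by field_simp
  · exact littleo hc (hq hyc) hG hd (by linarith) (by linarith) e

end Pool.Agent.P.MP_874adf_gt.Gn.T2
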