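import Pool.Agent.P.MP_874adf_gt.Gn.KiDet
import Pool.Agent.P.MP_874adf_gt.Gn.T2b

/-! The zigzag argument for two concrete focal data. -/

set_option autoImplicit false

namespace Pool.Agent.P.MP_874adf_gt.Gn

open Pool.Agent.P.MP_874adf_gt.Fs Set Filter Topology Metric MeasureTheory

namespace KiDet

/-- the lines of bounded slope that meet a horizontal segment -/
def XX (T : ℝ) (x : P) (s : ℝ) : Set (ℝ × ℝ) := {l | l.2 ∈ Icc (-T) T ∧ |l.1 - pr l.2 x| ≤ s}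

/-- the point `X` is below the set `Q` and is seen under slopes in `[lo, hi]` -/
def Bel (ρ0 : ℝ) (Q : Set P) (lo hi : ℝ) (X : P) : Prop :=
  X ∈ ball (0 : P) ρ0 ∧ ∀ w ∈ Q, X.2 < w.2 ∧ lo ≤ sl w X ∧ sl w X ≤ hi

def Ord (Q : Set P) (X X' : P) : Prop :=
  (∀ w ∈ Q, sl w X ≤ sl w X') ∨ (∀ w ∈ Q, sl w X' ≤ sl w X)

variable {c : Ctx}

lemma sub_XX {x X X' y z : P} {K T lo hi : ℝ} (h1 : Bel c.ρ0 (closedBall x K) lo hi X)
    (h2 : Bel c.ρ0 (closedBall x K) lo hi X') (hlo : -T ≤ lo) (hhi : hi ≤ T)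
    (hy : y ∈ closedBall x K) (hz : z ∈ closedBall x K) :
    sp y z ∩ sp X X' ⊆ XX T x ((1 + T) * K) ∩ sp X X' := by
  rintro l ⟨l1, l2⟩
  obtain ⟨w, w1, w2⟩ := sp_cross l1
  have hw := (convex_closedBall x K).segment_subset hy hz w1
  obtain ⟨a1, a2, a3⟩ := h1.2 w hw
  obtain ⟨b1, b2, b3⟩ := h2.2 w hw
  have s := sp_slope (σ := 1) (Or.inl rfl) (by linarith) (by linarith) w2 l2
  have s' : l.2 ∈ Icc (-T) T := by
    rcases mem_uIcc.1 s with s | s <;> constructor <;> linarith [s.1, s.2]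
  refine ⟨⟨s', ?_⟩, l2⟩
  rw [w2]
  exact MOVaux.pr_le (abs_le.2 s') hw

/-- a difference of two distance functions is monotone along steep chords -/
lemma bracket {x X X' : P} {K T lo hi ζ ε m : ℝ} (hQ : closedBall x K ⊆ ball 0 c.ρ0)
    (h1 : Bel c.ρ0 (closedBall x K) lo hi X) (h2 : Bel c.ρ0 (closedBall x K) lo hi X')
    (ord : Ord (closedBall x K) X X') (hlo : -T ≤ lo) (hhi : hi ≤ T) (hζ : hi ≤ ζ - ε)
    (hm : c.μ.real (XX T x ((1 + T) * K) ∩ sp X X') ≤ m) :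
    ∃ g : P → ℝ, (∀ y ∈ closedBall x K, ∀ y' ∈ closedBall x K, Chord ζ ε y y' →
      |c.d X y' - c.d X y - (c.d X' y' - c.d X' y)| ≤ g y' - g y) ∧
      ∀ y ∈ closedBall x K, ∀ y' ∈ closedBall x K, g y' - g y ≤ 2 * m := by
  have := c.crof.fin
  have osc : ∀ y ∈ closedBall x K, ∀ y' ∈ closedBall x K,
      |c.d X y' - c.d X y - (c.d X' y' - c.d X' y)| ≤ 2 * m := by
    intro y hy y' hy'
    have a := MOVaux.diff_le c.crof (σ := 1) (Or.inl rfl) h1.1 h2.1 (hQ hy) (hQ hy')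
      (by linarith [(h1.2 y hy).1]) (by linarith [(h1.2 y' hy').1])
      (by linarith [(h2.2 y hy).1]) (by linarith [(h2.2 y' hy').1])
    have b := measureReal_mono (μ := c.μ) (sub_XX h1 h2 hlo hhi hy hy')
    linarith
  have hp : ∀ y y', Chord ζ ε y y' → ∀ θ ∈ Icc lo hi, 0 ≤ pr θ (y' - y) := by
    rintro y y' ⟨h, h0, θ0, m0, e⟩ θ hθ
    rw [e, pr_smul]
    refine mul_nonneg h0.le ?_
    simp only [pr]
    linarith [m0.1, hθ.2]
  rcases ord with ord | ord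
  · refine ⟨fun y => c.d X' y - c.d X y, fun y hy y' hy' ch => ?_, fun y hy y' hy' => ?_⟩
    · have a := two_mono c.crof h1.1 h2.1 (hQ hy) (hQ hy') (lo := lo) (hi := hi) (fun w hw => by
        have hw := (convex_closedBall x K).segment_subset hy hy' hw
        exact ⟨(h1.2 w hw).1, (h2.2 w hw).1, (h1.2 w hw).2.1, ord w hw, (h2.2 w hw).2.2⟩)
        (hp y y' ch)
      have b : 0 ≤ c.μ.real (sp y y' ∩ sp X X') := measureReal_nonneg
      rw [abs_le]
      constructor <;> linarith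
    · linarith [(abs_le.1 (osc y hy y' hy')).1]
  · refine ⟨fun y => c.d X y - c.d X' y, fun y hy y' hy' ch => ?_, fun y hy y' hy' => ?_⟩
    · have a := two_mono c.crof h2.1 h1.1 (hQ hy) (hQ hy') (lo := lo) (hi := hi) (fun w hw => by
        have hw := (convex_closedBall x K).segment_subset hy hy' hw
        exact ⟨(h2.2 w hw).1, (h1.2 w hw).1, (h2.2 w hw).2.1, ord w hw, (h1.2 w hw).2.2⟩)
        (hp y y' ch)
      have b : 0 ≤ c.μ.real (sp y y' ∩ sp X' X) := measureReal_nonneg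
      rw [abs_le]
      constructor <;> linarith
    · linarith [(abs_le.1 (osc y hy y' hy')).2]

/-- lower bound for the increment of the difference of the levels -/
lemma om_low {x X X' y y' z : P} {K lo hi j1 j2 s : ℝ} (hQ : closedBall x K ⊆ ball 0 c.ρ0)
    (h1 : Bel c.ρ0 (closedBall x K) lo hi X) (h2 : Bel c.ρ0 (closedBall x K) lo hi X')
    (sep : ∀ w ∈ closedBall x K, sl w X < j1 ∧ j2 < sl w X') (j12 : j1 ≤ j2)
    (hy : y ∈ closedBall x K) (hy' : y' ∈ closedBall x K)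
    (hp : ∀ θ ∈ Icc lo hi, 0 ≤ pr θ (y' - y))
    (hz : ∀ θ ∈ Icc j1 j2, s ≤ pr θ (z - y) ∧ s < pr θ (y' - z)) :
    2 * mw c.μ (Icc j1 j2) z s ≤ c.d X' y' - c.d X y' - (c.d X' y - c.d X y) := by
  have := c.crof.fin
  have a := two_mono c.crof h1.1 h2.1 (hQ hy) (hQ hy') (lo := lo) (hi := hi) (fun w hw => by
    have hw := (convex_closedBall x K).segment_subset hy hy' hw
    exact ⟨(h1.2 w hw).1, (h2.2 w hw).1, (h1.2 w hw).2.1,
      by linarith [(sep w hw).1, (sep w hw).2], (h2.2 w hw).2.2⟩) hp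
  have b : mw c.μ (Icc j1 j2) z s ≤ c.μ.real (sp y y' ∩ sp X X') := by
    refine measureReal_mono fun l hl => ?_
    have e := hz l.2 hl.1
    have e2 := abs_le.1 hl.2
    rw [pr_sub, pr_sub] at e
    have l1 : l ∈ sp y y' := fun h => by
      have := h.2 (by linarith [e.2, e2.2])
      linarith [e.1, e2.1]
    obtain ⟨w, w1, w2⟩ := sp_cross l1
    have hw := (convex_closedBall x K).segment_subset hy hy' w1
    exact ⟨l1, sp_of_slope (σ := 1) (Or.inl rfl) (by linarith [(h1.2 w hw).1])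
      (by linarith [(h2.2 w hw).1]) w2 (by linarith [(sep w hw).1, hl.1.1])
      (by linarith [(sep w hw).2, hl.1.2])⟩
  linarith

/-- a window of lines that separate two points -/
lemma d_low {y y' z : P} {J : Set ℝ} {s : ℝ} (hy : y ∈ ball (0 : P) c.ρ0)
    (hy' : y' ∈ ball (0 : P) c.ρ0) (hz : ∀ θ ∈ J, s ≤ pr θ (z - y) ∧ s < pr θ (y' - z)) :
    mw c.μ J z s ≤ c.d y y' := by
  have := c.crof.fin
  have b : mw c.μ J z s ≤ c.μ.real (sp y y') := by
    refine measureReal_mono fun l hl h => ?_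
    have e := hz l.2 hl.1
    have e2 := abs_le.1 hl.2
    rw [pr_sub, pr_sub] at e
    have := h.2 (by linarith [e.2, e2.2])
    linarith [e.1, e2.1]
  rw [c.crof.eq y hy y' hy']
  linarith [abs_nonneg (c.Ψ y'.2 - c.Ψ y.2)]

lemma pt_mem {x : P} {t τ h r C T : ℝ} (r0 : 0 < r) (ht : |t| ≤ T) (h1 : |τ| ≤ r)
    (h2 : |h| ≤ C * r) : pt x t τ h ∈ closedBall x ((1 + C * (T + 1)) * r) := by
  have a0 := abs_nonneg h
  have t0 := (abs_nonneg t).trans ht
  have a1 : |h * t| ≤ C * r * T := by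
    rw [abs_mul]; exact mul_le_mul h2 ht (abs_nonneg _) (a0.trans h2)
  have a2 : 0 ≤ C * r * T := mul_nonneg (a0.trans h2) t0
  rw [mem_closedBall, Prod.dist_eq, max_le_iff, Real.dist_eq, Real.dist_eq]
  simp only [pt]
  constructor
  · rw [show x.1 + τ + h * t - x.1 = τ + h * t by ring]
    refine (abs_add_le _ _).trans ?_
    linarith
  · rw [add_sub_cancel_left]
    linarith

/-- the two level functions -/
lemma lev {x O1 O2 : P} {ζ ε γ r C3 K A δ j1 j2 T : ℝ} (r0 : 0 < r) (γ0 : 0 < γ) (δ0 : 0 ≤ δ)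
    (C0 : 0 < C3) (εγ : 2 * ε ≤ γ) (εC : 4 * ε * (C3 + 3 / γ) ≤ 1) (ε1 : ε ≤ 1)
    (hT : |ζ| + 1 ≤ T) (hK : K = (1 + (C3 + 3 / γ) * (T + 1)) * r)
    (hQ : closedBall x K ⊆ ball 0 c.ρ0)
    (h1 : Bel c.ρ0 (closedBall x K) (ζ - ε) (ζ + ε) O1)
    (h2 : Bel c.ρ0 (closedBall x K) (ζ - ε) (ζ + ε) O2)
    (sep : ∀ w ∈ closedBall x K, sl w O1 < j1 ∧ j2 < sl w O2) (j12 : j1 < j2)
    (cone : ∀ y ∈ closedBall x K, ∀ y' ∈ closedBall x K, y.2 < y'.2 →
      |pr ζ (y' - y)| ≤ γ * (y'.2 - y.2) → c.d O1 y < c.d O1 y')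
    (up : A ≤ mw c.μ (Icc (ζ - 3) (ζ - 2)) (x + (C3 * r / 2, 0)) (C3 * r / 4))
    (down : A ≤ mw c.μ (Icc (ζ - 3) (ζ - 2)) (x - (C3 * r / 2, 0)) (C3 * r / 4))
    (jump : δ ≤ mw c.μ (Icc j1 j2) (x + (r / 4, 0)) (r / 8)) :
    Lev (closedBall x K) (c.d O1) (fun y => c.d O2 y - c.d O1 y) x ζ ε γ (sl x O1) r (C3 * r)
      A δ := by
  have pm := c.gp.pm
  have T0 : 0 ≤ T := by linarith [abs_nonneg ζ]
  have K0 : 0 ≤ K := by rw [hK]; positivity
  have xQ : x ∈ closedBall x K := mem_closedBall_self K0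
  obtain ⟨x1, x2, x3⟩ := h1.2 x xQ
  have ht : |sl x O1| ≤ T := by
    rw [abs_le]
    constructor <;> linarith [le_abs_self ζ, neg_abs_le ζ]
  have eH : C3 * r + 3 * r / γ = (C3 + 3 / γ) * r := by ring
  have sub : ∀ τ h, |τ| ≤ r → |h| ≤ C3 * r + 3 * r / γ → pt x (sl x O1) τ h ∈ closedBall x K := by
    intro τ h a1 a2
    rw [hK]
    exact pt_mem r0 ht a1 (eH ▸ a2)
  have H0 : 0 < C3 * r := mul_pos C0 r0
  have q0 : 0 < 3 * r / γ := by positivity
  have z0 : |(0 : ℝ)| ≤ r := by rw [abs_zero]; exact r0.le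
  have mu := sub 0 (C3 * r) z0 (by rw [abs_of_pos H0]; linarith)
  have md := sub 0 (-(C3 * r)) z0 (by rw [abs_neg, abs_of_pos H0]; linarith)
  have mM : ∀ y ∈ closedBall x K, y ∈ c.M := fun y hy => c.sub (hQ hy)
  have cont : ∀ O ∈ ball (0 : P) c.ρ0, ContinuousOn (c.d O) (closedBall x K) := fun O hO y hy =>
    (pm.tendsto (c.sub hO) (mM y hy) tendsto_const_nhds tendsto_id).mono_left nhdsWithin_le_nhds
  have jI : Icc j1 j2 ⊆ Icc (ζ - ε) (ζ + ε) :=
    Icc_subset_Icc (by linarith [(sep x xQ).1]) (by linarith [(sep x xQ).2, (h2.2 x xQ).2.2])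
  have ray : ∀ h : ℝ, pt x (sl x O1) 0 h = x + h • ((sl x O1, 1) : P) := fun h => by
    ext <;> simp [pt]
  have eO : x + (-(x.2 - O1.2)) • ((sl x O1, 1) : P) = O1 := by
    have := sub_ne_zero.2 x1.ne'
    ext
    · simp only [Prod.fst_add, Prod.smul_fst, smul_eq_mul, sl]
      field_simp
      ring
    · simp
  have e0 : x + (0 : ℝ) • ((sl x O1, 1) : P) = x := by rw [zero_smul, add_zero]
  refine ⟨r0, H0.le, γ0, δ0, abs_le.2 ⟨by linarith, by linarith⟩, εγ, ?_, sub, cont _ h1.1,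
    (cont _ h2.1).sub (cont _ h1.1), cone, ?_, ?_, fun y hy y' hy' hp => ?_,
    fun y hy y' hy' hp => ?_, fun y' hy' hp => ?_⟩
  · rw [eH]
    nlinarith
  · have a := pm.line_add (x := x) (v := (sl x O1, 1)) (r := -(x.2 - O1.2)) (s := 0) (t := C3 * r)
      (eO.symm ▸ c.sub h1.1) (ray _ ▸ mM _ mu) (by linarith) H0.le
    rw [eO, e0, ← ray] at a
    have b := d_low (hQ xQ) (hQ mu) (J := Icc (ζ - 3) (ζ - 2)) (z := x + (C3 * r / 2, 0))
      (s := C3 * r / 4) fun θ hθ => by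
        simp only [pr, pt, Prod.fst_add, Prod.snd_add, Prod.fst_sub, Prod.snd_sub]
        have : C3 * r * 1 ≤ C3 * r * (sl x O1 - θ) :=
          mul_le_mul_of_nonneg_left (by linarith [hθ.2]) H0.le
        constructor <;> linarith
    linarith
  · have lo := (h1.2 _ md).1
    simp only [pt] at lo
    have a := pm.line_add (x := x) (v := (sl x O1, 1)) (r := -(x.2 - O1.2)) (s := -(C3 * r))
      (t := 0) (eO.symm ▸ c.sub h1.1) (e0.symm ▸ mM _ xQ) (by linarith) (by linarith)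
    rw [eO, e0, ← ray] at a
    have b := d_low (hQ md) (hQ xQ) (J := Icc (ζ - 3) (ζ - 2)) (z := x - (C3 * r / 2, 0))
      (s := C3 * r / 4) fun θ hθ => by
        simp only [pr, pt, Prod.fst_sub, Prod.snd_sub]
        have : C3 * r * 1 ≤ C3 * r * (sl x O1 - θ) :=
          mul_le_mul_of_nonneg_left (by linarith [hθ.2]) H0.le
        constructor <;> linarith
    linarith
  · have a := two_mono c.crof h1.1 h2.1 (hQ hy) (hQ hy') (lo := ζ - ε) (hi := ζ + ε)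
      (fun w hw => by
        have hw := (convex_closedBall x K).segment_subset hy hy' hw
        exact ⟨(h1.2 w hw).1, (h2.2 w hw).1, (h1.2 w hw).2.1,
          by linarith [(sep w hw).1, (sep w hw).2], (h2.2 w hw).2.2⟩) hp
    have b : 0 ≤ c.μ.real (sp y y' ∩ sp O1 O2) := measureReal_nonneg
    linarith
  · have p1 := hp j1 (jI ⟨le_rfl, j12.le⟩)
    have p2 := hp j2 (jI ⟨j12.le, le_rfl⟩)
    have κ0 : 0 < min (pr j1 (y' - y)) (pr j2 (y' - y)) := lt_min p1 p2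
    have lowp : ∀ θ ∈ Icc j1 j2, min (pr j1 (y' - y)) (pr j2 (y' - y)) ≤ pr θ (y' - y) := by
      intro θ hθ
      rcases le_total 0 (y' - y).2 with h | h
      · refine (min_le_right _ _).trans ?_
        simp only [pr]
        linarith [mul_le_mul_of_nonneg_right hθ.2 h]
      · refine (min_le_left _ _).trans ?_
        simp only [pr]
        linarith [mul_le_mul_of_nonpos_right hθ.1 h]
    set κ := min (pr j1 (y' - y)) (pr j2 (y' - y)) with hκ
    have mz : y + (1 / 2 : ℝ) • (y' - y) ∈ closedBall x K :=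
      (convex_closedBall x K).add_smul_sub_mem hy hy' ⟨by norm_num, by norm_num⟩
    have a := om_low hQ h1 h2 sep j12.le hy hy' (fun θ hθ => (hp θ hθ).le)
      (z := y + (1 / 2 : ℝ) • (y' - y)) (s := κ / 4) fun θ hθ => by
        have := lowp θ hθ
        rw [pr_sub] at this
        simp only [pr_sub, pr_add, pr_smul]
        constructor <;> linarith
    have b := T2.mass_pos pm c.sub c.crof (hQ mz) j12 (s := κ / 4) (by linarith)
    linarith
  · have a := om_low hQ h1 h2 sep j12.le xQ hy' (fun θ hθ => by linarith [hp θ hθ])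
      (z := x + (r / 4, 0)) (s := r / 8) fun θ hθ => by
        have := hp θ (jI hθ)
        simp only [pr, Prod.fst_add, Prod.snd_add, Prod.fst_sub, Prod.snd_sub] at this ⊢
        constructor <;> linarith
    have b := mw_nonneg c.μ (Icc j1 j2) (x + (r / 4, 0)) (r / 8)
    linarith

/-- the zigzag for two data -/
lemma con {x : P} {D1 D2 : Dat} {ζ ξ ε γ t r H0 K A δ T N k e1 m B ρm η : ℝ}
    (L : Lev (closedBall x K) (c.d (dO D1)) (fun y => c.d (dO D2) y - c.d (dO D1) y) x ζ ε γ t r H0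
      A δ) (hQ : closedBall x K ⊆ ball 0 c.ρ0)
    (a1 : Bel c.ρ0 (closedBall x K) (ξ - ε) (ξ + ε) (dA D1))
    (a2 : Bel c.ρ0 (closedBall x K) (ξ - ε) (ξ + ε) (dA D2))
    (b1 : Bel c.ρ0 (closedBall x K) (ξ - ε) (ξ + ε) (dB D1))
    (b2 : Bel c.ρ0 (closedBall x K) (ξ - ε) (ξ + ε) (dB D2))
    (oA : Ord (closedBall x K) (dA D1) (dA D2)) (oB : Ord (closedBall x K) (dB D1) (dB D2))
    (oC : Ord (closedBall x K) (dA D2) (dB D2)) (hlo : -T ≤ ξ - ε) (hhi : ξ + ε ≤ T)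
    (hζ : ξ + ε ≤ ζ - ε) (mA : c.μ.real (XX T x ((1 + T) * K) ∩ sp (dA D1) (dA D2)) ≤ m)
    (mB : c.μ.real (XX T x ((1 + T) * K) ∩ sp (dB D1) (dB D2)) ≤ m)
    (mC : c.μ.real (XX T x ((1 + T) * K)) ≤ B)
    (r0 : 0 < dr D1) (r1 : dr D1 < 1) (r2 : dr D2 < 1) (hρ : dr D1 / (1 - dr D1) ≤ ρm)
    (hη : |dr D1 / (1 - dr D1) - dr D2 / (1 - dr D2)| ≤ η)
    (e0 : 0 < e1) (N0 : 0 ≤ N) (δ0 : 0 < δ) (δk : δ ≤ k) (A0 : 0 ≤ A)
    (m1 : ∀ y ∈ closedBall x K, ∀ z ∈ closedBall x K, c.d (dO D1) y ≤ c.d (dO D1) z →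
      hf c.d D1 y ≤ hf c.d D1 z + e1 * N) :
    ∃ Ω : ℝ → ℝ, Monotone Ω ∧ (∀ a b, Ω b - Ω a ≤ 4 * ((1 + 2 * ρm) * m + η * B) / e1) ∧
      ∀ Q' : Set P, (∀ y ∈ closedBall x K ∪ Q', ∀ z ∈ closedBall x K ∪ Q',
        c.d (dO D2) y ≤ c.d (dO D2) z → hf c.d D2 y ≤ hf c.d D2 z + e1 * N) →
      ∀ lv, |lv - c.d (dO D2) x| + 2 * k ≤ A → Ω (lv + 2 * k) - Ω (lv - 2 * k) ≤ N →
        Stair c.d D2 Q' lv k δ ((6 * k / δ + 5) * (e1 * N)) := by
  have := c.crof.fin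
  obtain ⟨gA, gA1, gA2⟩ := bracket hQ a1 a2 oA hlo hhi hζ mA
  obtain ⟨gB, gB1, gB2⟩ := bracket hQ b1 b2 oB hlo hhi hζ mB
  obtain ⟨gC, gC1, gC2⟩ := bracket hQ a2 b2 oC hlo hhi hζ
    ((measureReal_mono inter_subset_left).trans mC)
  set p := dr D1 / (1 - dr D1) with hp
  set q := dr D2 / (1 - dr D2) with hq
  have p0 : 0 ≤ p := div_nonneg r0.le (sub_pos.2 r1).le
  have m0 : 0 ≤ m := measureReal_nonneg.trans mA
  have B0 : 0 ≤ B := measureReal_nonneg.trans mC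
  obtain ⟨Ω, o1, o2, o3⟩ := L.stair (h1 := hf c.d D1) (h2 := hf c.d D2)
    (W := fun y => hf c.d D1 y - hf c.d D2 y - (c.d (dO D2) y - c.d (dO D1) y))
    (g := fun y => (1 + p) * gA y + p * gB y + η * gC y) (mg := 2 * ((1 + 2 * ρm) * m + η * B))
    (k := k) e0 N0 δ0 δk (fun _ _ => rfl) (fun y hy y' hy' ch => by
      have c1 := gA1 y hy y' hy' ch
      have c2 := gB1 y hy y' hy' ch
      have c3 := gC1 y hy y' hy' ch
      have d1 := hf_diff c.d r1.ne y y'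
      have d2 := hf_diff c.d r2.ne y y'
      rw [← hp] at d1
      rw [← hq] at d2
      set uA := c.d (dA D1) y' - c.d (dA D1) y - (c.d (dA D2) y' - c.d (dA D2) y) with huA
      set uB := c.d (dB D1) y' - c.d (dB D1) y - (c.d (dB D2) y' - c.d (dB D2) y) with huB
      set uC := c.d (dA D2) y' - c.d (dA D2) y - (c.d (dB D2) y' - c.d (dB D2) y) with huC
      have e : hf c.d D1 y' - hf c.d D2 y' - (c.d (dO D2) y' - c.d (dO D1) y') -
          (hf c.d D1 y - hf c.d D2 y - (c.d (dO D2) y - c.d (dO D1) y)) =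
          (1 + p) * uA - p * uB + (p - q) * uC := by
        rw [huA, huB, huC]
        linear_combination d1 - d2
      rw [e]
      have f1 : |(1 + p) * uA| ≤ (1 + p) * (gA y' - gA y) := by
        rw [abs_mul, abs_of_nonneg (by linarith : 0 ≤ 1 + p)]
        exact mul_le_mul_of_nonneg_left c1 (by linarith)
      have f2 : |p * uB| ≤ p * (gB y' - gB y) := by
        rw [abs_mul, abs_of_nonneg p0]
        exact mul_le_mul_of_nonneg_left c2 p0
      have f3 : |(p - q) * uC| ≤ η * (gC y' - gC y) := by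
        rw [abs_mul]
        exact mul_le_mul hη c3 (abs_nonneg _) ((abs_nonneg _).trans hη)
      rw [abs_le] at f1 f2 f3 ⊢
      constructor <;> linarith [f1.1, f1.2, f2.1, f2.2, f3.1, f3.2])
    (fun y hy y' hy' => by
      have c1 := mul_le_mul_of_nonneg_left (gA2 y hy y' hy') (by linarith : 0 ≤ 1 + p)
      have c2 := mul_le_mul_of_nonneg_left (gB2 y hy y' hy') p0
      have c3 := mul_le_mul_of_nonneg_left (gC2 y hy y' hy') ((abs_nonneg _).trans hη)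
      have c4 := mul_le_mul_of_nonneg_right hρ m0
      linarith) m1 A0
  refine ⟨Ω, o1, fun a b => (o2 a b).trans (le_of_eq (by ring)), fun Q' m2 lv l1 l2 => ?_⟩
  simp only [add_sub_cancel] at o3
  exact o3 Q' m2 lv l1 l2

/-! ### pigeonhole -/

lemma pigeon_real {n M : ℕ} (hn : (M + 1) * (M + 1) < n) (M0 : 0 < M) (F G : Fin n → ℝ) {B : ℝ}
    (B0 : 0 < B) (hF : ∀ a, 0 ≤ F a ∧ F a ≤ B) (hG : ∀ a, 0 ≤ G a ∧ G a ≤ B) :
    ∃ a b, a ≠ b ∧ |F a - F b| ≤ B / M ∧ |G a - G b| ≤ B / M := by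
  have M1 : (0 : ℝ) < M := Nat.cast_pos.2 M0
  have rg : ∀ u : ℝ, 0 ≤ u ∧ u ≤ B → ⌊M * u / B⌋₊ ∈ Finset.range (M + 1) := fun u hu => by
    rw [Finset.mem_range, Nat.lt_succ_iff]
    refine Nat.floor_le_of_le ?_
    rw [div_le_iff₀ B0]
    exact mul_le_mul_of_nonneg_left hu.2 M1.le
  have cl : ∀ u v : ℝ, 0 ≤ u → 0 ≤ v → ⌊M * u / B⌋₊ = ⌊M * v / B⌋₊ → |u - v| ≤ B / M := by
    intro u v u0 v0 e
    have a1 := Nat.floor_le (by positivity : 0 ≤ M * u / B)
    have a2 := Nat.lt_floor_add_one (M * u / B)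
    have a3 := Nat.floor_le (by positivity : 0 ≤ M * v / B)
    have a4 := Nat.lt_floor_add_one (M * v / B)
    rw [e] at a1 a2
    have b1 : M * u / B - M * v / B ≤ 1 := by linarith
    have b2 : M * v / B - M * u / B ≤ 1 := by linarith
    rw [← sub_div, div_le_one B0] at b1 b2
    rw [abs_le, neg_le, le_div_iff₀ M1, le_div_iff₀ M1]
    constructor <;> linarith
  obtain ⟨a, _, b, _, ab, e⟩ := Finset.exists_ne_map_eq_of_card_lt_of_maps_to
    (s := (Finset.univ : Finset (Fin n))) (t := Finset.range (M + 1) ×ˢ Finset.range (M + 1))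
    (by simpa using hn) (f := fun a => (⌊M * F a / B⌋₊, ⌊M * G a / B⌋₊))
    fun a _ => Finset.mem_coe.2 (Finset.mem_product.2 ⟨rg _ (hF a), rg _ (hG a)⟩)
  exact ⟨a, b, ab, cl _ _ (hF a).1 (hF b).1 (congrArg Prod.fst e),
    cl _ _ (hG a).1 (hG b).1 (congrArg Prod.snd e)⟩

lemma nested {x X X' : P} {T s lo hi : ℝ} (h1 : Bel c.ρ0 (closedBall x s) lo hi X)
    (h2 : Bel c.ρ0 (closedBall x s) lo hi X') (ord : ∀ w ∈ closedBall x s, sl w X ≤ sl w X') :
    c.μ.real (XX T x s ∩ sp X X') =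
      c.μ.real (XX T x s ∩ {l | l.1 < pr l.2 X}) - c.μ.real (XX T x s ∩ {l | l.1 < pr l.2 X'}) := by
  have := c.crof.fin
  have key : ∀ l ∈ XX T x s, l.1 < pr l.2 X' → l.1 < pr l.2 X := by
    intro l hl h
    have hw : x + (l.1 - pr l.2 x, 0) ∈ closedBall x s := by
      rw [mem_closedBall, dist_eq_norm, add_sub_cancel_left, Prod.norm_def, max_le_iff]
      exact ⟨hl.2, by simpa using (abs_nonneg _).trans hl.2⟩
    have e : pr l.2 (x + (l.1 - pr l.2 x, 0)) = l.1 := by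
      simp only [pr, Prod.fst_add, Prod.snd_add]; ring
    have e1 := pr_sl (h1.2 _ hw).1.ne' l.2
    have e2 := pr_sl (h2.2 _ hw).1.ne' l.2
    rw [e] at e1 e2
    have p2 := (mul_pos_iff_of_pos_left (sub_pos.2 (h2.2 _ hw).1)).1 (e2 ▸ sub_pos.2 h)
    have p1 := mul_pos (sub_pos.2 (h1.2 _ hw).1) (by linarith [ord _ hw] :
      0 < l.2 - sl (x + (l.1 - pr l.2 x, 0)) X)
    linarith
  have a := measureReal_inter_add_sdiff (μ := c.μ) (s := XX T x s ∩ {l | l.1 < pr l.2 X})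
    (MOVaux.meas_lt X')
  have e1 : XX T x s ∩ {l | l.1 < pr l.2 X} ∩ {l | l.1 < pr l.2 X'} =
      XX T x s ∩ {l | l.1 < pr l.2 X'} := by
    ext l
    have := key l
    simp only [mem_inter_iff, mem_ofPred_eq]
    tauto
  have e2 : (XX T x s ∩ {l | l.1 < pr l.2 X}) \ {l | l.1 < pr l.2 X'} = XX T x s ∩ sp X X' := by
    ext l
    have := key l
    simp only [sp, mem_inter_iff, mem_ofPred_eq, Set.mem_sdiff]
    tauto
  rw [e1, e2] at a
  linarith

lemma nested_abs {x X X' : P} {T s lo hi : ℝ} (h1 : Bel c.ρ0 (closedBall x s) lo hi X)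
    (h2 : Bel c.ρ0 (closedBall x s) lo hi X') (ord : Ord (closedBall x s) X X') :
    c.μ.real (XX T x s ∩ sp X X') ≤
      |c.μ.real (XX T x s ∩ {l | l.1 < pr l.2 X}) - c.μ.real (XX T x s ∩ {l | l.1 < pr l.2 X'})| := by
  rcases ord with ord | ord
  · rw [nested h1 h2 ord]
    exact le_abs_self _
  · rw [sp_comm, nested h2 h1 ord, abs_sub_comm]
    exact le_abs_self _

lemma pigeon {n M : ℕ} (hn : (M + 1) * (M + 1) < n) (M0 : 0 < M) {x : P} {T s lo hi B : ℝ}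
    (X Y : Fin n → P) (hX : ∀ a, Bel c.ρ0 (closedBall x s) lo hi (X a))
    (hY : ∀ a, Bel c.ρ0 (closedBall x s) lo hi (Y a))
    (oX : ∀ a b, a ≠ b → Ord (closedBall x s) (X a) (X b))
    (oY : ∀ a b, a ≠ b → Ord (closedBall x s) (Y a) (Y b)) (B0 : 0 < B)
    (hB : c.μ.real (XX T x s) ≤ B) :
    ∃ a b, a ≠ b ∧ c.μ.real (XX T x s ∩ sp (X a) (X b)) ≤ B / M ∧
      c.μ.real (XX T x s ∩ sp (Y a) (Y b)) ≤ B / M := by
  have := c.crof.fin
  obtain ⟨a, b, ab, h1, h2⟩ := pigeon_real hn M0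
    (fun a => c.μ.real (XX T x s ∩ {l | l.1 < pr l.2 (X a)}))
    (fun a => c.μ.real (XX T x s ∩ {l | l.1 < pr l.2 (Y a)})) B0
    (fun a => ⟨measureReal_nonneg, (measureReal_mono inter_subset_left).trans hB⟩)
    (fun a => ⟨measureReal_nonneg, (measureReal_mono inter_subset_left).trans hB⟩)
  exact ⟨a, b, ab, (nested_abs (hX a) (hX b) (oX a b ab)).trans h1,
    (nested_abs (hY a) (hY b) (oY a b ab)).trans h2⟩

end KiDet

end Pool.Agent.P.MP_874adf_gt.Gn
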