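import Pool.Agent.P.MP_874adf_gt.Gn.DefsF
import Pool.Agent.P.MP_874adf_gt.Gn.BasL

/-! The deterministic core of the zigzag argument. -/

set_option autoImplicit false

namespace Pool.Agent.P.MP_874adf_gt.Gn

open Pool.Agent.P.MP_874adf_gt.Fs Set Filter Topology Metric MeasureTheory

namespace KiDet

/-- an upward chord whose slope is within `ε` of `ζ` -/
def Chord (ζ ε : ℝ) (y y' : P) : Prop :=
  ∃ h > (0 : ℝ), ∃ θ ∈ Icc (ζ - ε) (ζ + ε), y' - y = h • (θ, 1)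

/-- the point with coordinates `τ`, `h` in the frame `(1,0)`, `(t,1)` at `x` -/
def pt (x : P) (t τ h : ℝ) : P := (x.1 + τ + h * t, x.2 + h)

/-- the data of two level functions `b` and `b + ω` on the set `Q` -/
structure Lev (Q : Set P) (b ω : P → ℝ) (x : P) (ζ ε γ t r H0 A δ : ℝ) : Prop where
  r0 : 0 < r
  H00 : 0 ≤ H0
  γ0 : 0 < γ
  δ0 : 0 ≤ δ
  tζ : |t - ζ| ≤ ε
  εγ : 2 * ε ≤ γ
  εH : 4 * ε * (H0 + 3 * r / γ) ≤ r
  sub : ∀ τ h, |τ| ≤ r → |h| ≤ H0 + 3 * r / γ → pt x t τ h ∈ Q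
  cb : ContinuousOn b Q
  cω : ContinuousOn ω Q
  cone : ∀ y ∈ Q, ∀ y' ∈ Q, y.2 < y'.2 → |pr ζ (y' - y)| ≤ γ * (y'.2 - y.2) → b y < b y'
  up : b x + A ≤ b (pt x t 0 H0)
  down : b (pt x t 0 (-H0)) ≤ b x - A
  mono : ∀ y ∈ Q, ∀ y' ∈ Q, (∀ θ ∈ Icc (ζ - ε) (ζ + ε), 0 ≤ pr θ (y' - y)) → ω y ≤ ω y'
  strict : ∀ y ∈ Q, ∀ y' ∈ Q, (∀ θ ∈ Icc (ζ - ε) (ζ + ε), 0 < pr θ (y' - y)) → ω y < ω y'
  jump : ∀ y' ∈ Q, (∀ θ ∈ Icc (ζ - ε) (ζ + ε), r / 2 ≤ pr θ (y' - x)) → ω x + δ ≤ ω y'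

lemma pr_pt (θ : ℝ) (x : P) (t τ h τ' h' : ℝ) :
    pr θ (pt x t τ' h' - pt x t τ h) = (τ' - τ) + (h' - h) * (t - θ) := by
  simp only [pr, pt, Prod.fst_sub, Prod.snd_sub]; ring

lemma pt_zero (x : P) (t : ℝ) : pt x t 0 0 = x := by
  ext <;> simp [pt]

namespace Lev

variable {Q : Set P} {b ω : P → ℝ} {x : P} {ζ ε γ t r H0 A δ : ℝ}
  (L : Lev Q b ω x ζ ε γ t r H0 A δ)

include L

lemma lt {τ h τ' h' : ℝ} (a1 : |τ| ≤ r) (a2 : |h| ≤ H0 + 3 * r / γ) (a3 : |τ'| ≤ r)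
    (a4 : |h'| ≤ H0 + 3 * r / γ) (hh : h < h') (hτ : 2 * |τ' - τ| ≤ γ * (h' - h)) :
    b (pt x t τ h) < b (pt x t τ' h') := by
  refine L.cone _ (L.sub _ _ a1 a2) _ (L.sub _ _ a3 a4) (by simp only [pt]; linarith) ?_
  rw [pr_pt]
  have e : (pt x t τ' h').2 - (pt x t τ h).2 = h' - h := by simp only [pt]; ring
  rw [e]
  refine (abs_add_le _ _).trans ?_
  rw [abs_mul, abs_of_pos (sub_pos.2 hh)]
  have := mul_le_mul_of_nonneg_left L.tζ (sub_pos.2 hh).le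
  have := mul_le_mul_of_nonneg_left L.εγ (sub_pos.2 hh).le
  linarith

lemma leaf {a : ℝ} (ha : |a - b x| ≤ A) : ∃ g : ℝ → ℝ, ContinuousOn g (Icc (-r) r) ∧
    ∀ τ ∈ Icc (-r) r, |g τ| ≤ H0 + 3 * r / γ ∧ b (pt x t τ (g τ)) = a := by
  have r0 := L.r0
  have γ0 := L.γ0
  have H00 := L.H00
  have q0 : 0 < 3 * r / γ := by positivity
  have q1 : γ * (3 * r / γ) = 3 * r := by field_simp
  have z0 : |(0 : ℝ)| ≤ r := by rw [abs_zero]; exact r0.le
  rw [abs_le] at ha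
  have ex : ∀ τ, ∃ h, τ ∈ Icc (-r) r → |h| ≤ H0 + 3 * r / γ ∧ b (pt x t τ h) = a := by
    intro τ
    by_cases hτ : τ ∈ Icc (-r) r
    swap
    · exact ⟨0, fun h => absurd h hτ⟩
    have aτ : |τ| ≤ r := abs_le.2 hτ
    have u1 := L.lt (τ := 0) (h := H0) (τ' := τ) (h' := H0 + 3 * r / γ) z0
      (by rw [abs_of_nonneg H00]; linarith) aτ (by rw [abs_of_nonneg (by linarith)])
      (by linarith) (by rw [sub_zero, add_sub_cancel_left, q1]; linarith)
    have u2 := L.lt (τ := τ) (h := -(H0 + 3 * r / γ)) (τ' := 0) (h' := -H0) aτ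
      (by rw [abs_neg, abs_of_nonneg (by linarith)]) z0
      (by rw [abs_neg, abs_of_nonneg H00]; linarith) (by linarith)
      (by rw [zero_sub, abs_neg, show -H0 - -(H0 + 3 * r / γ) = 3 * r / γ by ring, q1]; linarith)
    have cont : ContinuousOn (fun h => b (pt x t τ h))
        (Icc (-(H0 + 3 * r / γ)) (H0 + 3 * r / γ)) :=
      L.cb.comp (by unfold pt; fun_prop) fun h hh => L.sub _ _ aτ (abs_le.2 hh)
    obtain ⟨h, h1, h2⟩ := intermediate_value_Icc (by linarith) cont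
      (⟨by linarith [L.down], by linarith [L.up]⟩ : a ∈ Icc _ _)
    exact ⟨h, fun _ => ⟨abs_le.2 h1, h2⟩⟩
  choose g hg using ex
  refine ⟨g, ?_, hg⟩
  have lip : ∀ τ ∈ Icc (-r) r, ∀ τ' ∈ Icc (-r) r, g τ' - g τ ≤ 2 / γ * |τ' - τ| := by
    intro τ h1 τ' h2
    by_contra hc
    rw [not_le, div_mul_eq_mul_div, div_lt_iff₀ γ0] at hc
    have p0 : 0 < (g τ' - g τ) * γ := lt_of_le_of_lt (by positivity) hc
    have := L.lt (abs_le.2 h1) (hg τ h1).1 (abs_le.2 h2) (hg τ' h2).1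
      (sub_pos.1 ((mul_pos_iff_of_pos_right γ0).1 p0)) (by linarith)
    rw [(hg τ h1).2, (hg τ' h2).2] at this
    exact lt_irrefl _ this
  refine (LipschitzOnWith.of_dist_le' (K := 2 / γ) fun τ h1 τ' h2 => ?_).continuousOn
  rw [Real.dist_eq, Real.dist_eq, abs_le]
  have a1 := lip τ h1 τ' h2
  have a2 := lip τ' h2 τ h1
  rw [abs_sub_comm] at a1
  constructor <;> linarith

lemma point {a β : ℝ} (ha : |a - b x| ≤ A) (b1 : ω x ≤ β) (b2 : β ≤ ω x + δ) :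
    ∃ y ∈ Q, b y = a ∧ ω y = β := by
  obtain ⟨g, gc, hg⟩ := L.leaf ha
  have r0 := L.r0
  have ε0 : 0 ≤ ε := (abs_nonneg _).trans L.tζ
  have m1 : -r ∈ Icc (-r) r := ⟨le_rfl, by linarith⟩
  have m2 : r ∈ Icc (-r) r := ⟨by linarith, le_rfl⟩
  have mem : ∀ τ ∈ Icc (-r) r, pt x t τ (g τ) ∈ Q := fun τ h => L.sub _ _ (abs_le.2 h) (hg τ h).1
  have small : ∀ τ ∈ Icc (-r) r, ∀ θ ∈ Icc (ζ - ε) (ζ + ε), |g τ * (t - θ)| ≤ r / 2 := by
    intro τ h θ hθ
    have c1 : |t - θ| ≤ 2 * ε := by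
      have := abs_le.1 L.tζ
      rw [abs_le]
      constructor <;> linarith [hθ.1, hθ.2]
    rw [abs_mul]
    have := mul_le_mul (hg τ h).1 c1 (abs_nonneg _) ((abs_nonneg _).trans (hg τ h).1)
    linarith [L.εH]
  have xQ : x ∈ Q := by
    have := L.sub 0 0 (by rw [abs_zero]; exact r0.le)
      (by rw [abs_zero]; exact (abs_nonneg _).trans (hg r m2).1)
    rwa [pt_zero] at this
  have lo : ω (pt x t (-r) (g (-r))) ≤ ω x := by
    refine L.mono _ (mem _ m1) _ xQ fun θ hθ => ?_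
    have e := pr_pt θ x t (-r) (g (-r)) 0 0
    rw [pt_zero] at e
    have := abs_le.1 (small _ m1 θ hθ)
    rw [e]
    linarith [this.2]
  have hi : ω x + δ ≤ ω (pt x t r (g r)) := by
    refine L.jump _ (mem _ m2) fun θ hθ => ?_
    have e := pr_pt θ x t 0 0 r (g r)
    rw [pt_zero] at e
    have := abs_le.1 (small _ m2 θ hθ)
    rw [e]
    linarith [this.1]
  have cont : ContinuousOn (fun τ => ω (pt x t τ (g τ))) (Icc (-r) r) := by
    refine L.cω.comp ?_ mem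
    unfold pt
    exact ((continuousOn_const.add continuousOn_id).add (gc.mul continuousOn_const)).prodMk
      (continuousOn_const.add gc)
  obtain ⟨τ, h1, h2⟩ := intermediate_value_Icc (by linarith) cont
    (⟨by linarith, by linarith⟩ : β ∈ Icc _ _)
  exact ⟨_, mem τ h1, (hg τ h1).2, h2⟩

lemma chord {y y' : P} (hy : y ∈ Q) (hy' : y' ∈ Q) (e : ω y = ω y') (lt : b y < b y') :
    Chord ζ ε y y' := by
  have ε0 : 0 ≤ ε := (abs_nonneg _).trans L.tζ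
  have c : Continuous fun θ => pr θ (y' - y) := by unfold pr; fun_prop
  have e1 : ∃ θ ∈ Icc (ζ - ε) (ζ + ε), pr θ (y' - y) ≤ 0 := by
    by_contra hc
    push Not at hc
    exact (L.strict _ hy _ hy' hc).ne e
  have e2 : ∃ θ ∈ Icc (ζ - ε) (ζ + ε), 0 ≤ pr θ (y' - y) := by
    by_contra hc
    push Not at hc
    refine (L.strict _ hy' _ hy fun θ hθ => ?_).ne e.symm
    have := hc θ hθ
    rw [pr_sub] at this ⊢
    linarith
  obtain ⟨θ1, m1, p1⟩ := e1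
  obtain ⟨θ2, m2, p2⟩ := e2
  obtain ⟨θ, m, p⟩ := isPreconnected_Icc.intermediate_value m1 m2 c.continuousOn ⟨p1, p2⟩
  have p' : y'.1 - y.1 = θ * (y'.2 - y.2) := by
    simp only [pr, Prod.fst_sub, Prod.snd_sub] at p
    linarith
  refine ⟨y'.2 - y.2, ?_, θ, m, ?_⟩
  · rcases lt_trichotomy y.2 y'.2 with h | h | h
    · exact sub_pos.2 h
    · have : y = y' := Prod.ext (by rw [h, sub_self, mul_zero] at p'; linarith) h
      rw [this] at lt
      exact absurd lt (lt_irrefl _)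
    · refine absurd (L.cone _ hy' _ hy h ?_) (not_lt.2 lt.le)
      have e3 : pr ζ (y - y') = (θ - ζ) * (y.2 - y'.2) := by
        simp only [pr, Prod.fst_sub, Prod.snd_sub]
        linarith
      rw [e3, abs_mul, abs_of_pos (sub_pos.2 h)]
      refine mul_le_mul_of_nonneg_right ?_ (sub_pos.2 h).le
      rw [abs_le]
      constructor <;> linarith [m.1, m.2, L.εγ]
  · ext
    · simp only [Prod.fst_sub, Prod.smul_fst, smul_eq_mul]
      linarith
    · simp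

/-- the zigzag: `h2` climbs by the same amount on every level step -/
lemma stair {h1 h2 W g : P → ℝ} {mg e1 N k : ℝ} (e0 : 0 < e1) (N0 : 0 ≤ N) (δ0 : 0 < δ)
    (δk : δ ≤ k) (hW : ∀ y ∈ Q, W y = h1 y - h2 y - ω y)
    (hg : ∀ y ∈ Q, ∀ y' ∈ Q, Chord ζ ε y y' → |W y' - W y| ≤ g y' - g y)
    (og : ∀ y ∈ Q, ∀ y' ∈ Q, g y' - g y ≤ mg)
    (m1 : ∀ y ∈ Q, ∀ z ∈ Q, b y ≤ b z → h1 y ≤ h1 z + e1 * N) (A0 : 0 ≤ A) :
    ∃ Ω : ℝ → ℝ, Monotone Ω ∧ (∀ a c, Ω c - Ω a ≤ 2 * mg / e1) ∧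
      ∀ Q' : Set P, (∀ y ∈ Q ∪ Q', ∀ z ∈ Q ∪ Q', b y + ω y ≤ b z + ω z → h2 y ≤ h2 z + e1 * N) →
      ∀ lv, |lv - (b x + ω x)| + 2 * k ≤ A → Ω (lv + 2 * k) - Ω (lv - 2 * k) ≤ N →
      ∃ dd : ℝ, ∀ u ∈ Q', ∀ w ∈ Q', |b u + ω u - lv| ≤ k → |b w + ω w - lv| ≤ k → ∀ m : ℕ,
        m * δ ≤ b w + ω w - (b u + ω u) → b w + ω w - (b u + ω u) ≤ (m + 1) * δ →
        m * dd - (6 * k / δ + 5) * (e1 * N) ≤ h2 w - h2 u ∧
          h2 w - h2 u ≤ (m + 1) * dd + (6 * k / δ + 5) * (e1 * N) := by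
  have ex : ∀ β, ω x ≤ β → β ≤ ω x + δ → ∃ p : ℝ → P,
      ∀ a, |a - b x| ≤ A → p a ∈ Q ∧ b (p a) = a ∧ ω (p a) = β := by
    intro β b1 b2
    have : ∀ a, ∃ y, |a - b x| ≤ A → y ∈ Q ∧ b y = a ∧ ω y = β := fun a => by
      by_cases ha : |a - b x| ≤ A
      · obtain ⟨y, hy⟩ := L.point ha b1 b2
        exact ⟨y, fun _ => hy⟩
      · exact ⟨x, fun h => absurd h ha⟩
    choose p hp using this
    exact ⟨p, hp⟩
  obtain ⟨p, hp⟩ := ex (ω x) le_rfl (by linarith)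
  obtain ⟨q, hq⟩ := ex (ω x + δ) (by linarith) le_rfl
  have var : ∀ (p : ℝ → P) (β : ℝ), (∀ a, |a - b x| ≤ A → p a ∈ Q ∧ b (p a) = a ∧ ω (p a) = β) →
      ∀ a a', |a - b x| ≤ A → |a' - b x| ≤ A → a ≤ a' →
        |W (p a') - W (p a)| ≤ g (p a') - g (p a) := by
    intro p β hp a a' ha ha' le
    rcases le.eq_or_lt with rfl | lt
    · simp
    · refine hg _ (hp a ha).1 _ (hp a' ha').1 (L.chord (hp a ha).1 (hp a' ha').1 ?_ ?_)
      · rw [(hp a ha).2.2, (hp a' ha').2.2]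
      · rwa [(hp a ha).2.1, (hp a' ha').2.1]
  set cl : ℝ → ℝ := fun c => max (b x - A) (min (b x + A) (c - ω x)) with hcl
  have cl1 : ∀ c, |cl c - b x| ≤ A := fun c => by
    rw [abs_le]
    have := le_max_left (b x - A) (min (b x + A) (c - ω x))
    have : cl c ≤ b x + A := max_le (by linarith) (min_le_left _ _)
    constructor <;> linarith
  have cl2 : Monotone cl := fun c c' h =>
    max_le_max le_rfl (min_le_min le_rfl (by linarith))
  have cl3 : ∀ c, |c - ω x - b x| ≤ A → cl c = c - ω x := fun c h => by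
    rw [abs_le] at h
    simp only [hcl]
    rw [min_eq_right (by linarith), max_eq_right (by linarith)]
  refine ⟨fun c => (g (p (cl c)) + g (q (cl c))) / e1, fun c c' h => ?_, fun a c => ?_, ?_⟩
  · have a1 := (abs_nonneg _).trans (var p _ hp _ _ (cl1 c) (cl1 c') (cl2 h))
    have a2 := (abs_nonneg _).trans (var q _ hq _ _ (cl1 c) (cl1 c') (cl2 h))
    exact div_le_div_of_nonneg_right (by linarith) e0.le
  · have a1 := og _ (hp _ (cl1 a)).1 _ (hp _ (cl1 c)).1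
    have a2 := og _ (hq _ (cl1 a)).1 _ (hq _ (cl1 c)).1
    rw [← sub_div]
    exact div_le_div_of_nonneg_right (by linarith) e0.le
  intro Q' m2 lv hlv hΩ
  have k0 : 0 < k := δ0.trans_le δk
  have eN : 0 ≤ e1 * N := mul_nonneg e0.le N0
  set s := lv - ω x with hs
  have rng : ∀ a, s - 2 * k ≤ a → a ≤ s + 2 * k → |a - b x| ≤ A := fun a a1 a2 => by
    have := le_abs_self (lv - (b x + ω x))
    have := neg_abs_le (lv - (b x + ω x))
    rw [abs_le]
    constructor <;> linarith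
  have r1 := rng (s - 2 * k) le_rfl (by linarith)
  have r2 := rng (s + 2 * k) (by linarith) le_rfl
  have r3 := rng s (by linarith) (by linarith)
  simp only at hΩ
  rw [cl3 _ (by rwa [show lv + 2 * k - ω x = s + 2 * k by rw [hs]; ring]),
    cl3 _ (by rwa [show lv - 2 * k - ω x = s - 2 * k by rw [hs]; ring]),
    show lv + 2 * k - ω x = s + 2 * k by rw [hs]; ring,
    show lv - 2 * k - ω x = s - 2 * k by rw [hs]; ring, ← sub_div, div_le_iff₀ e0] at hΩ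
  have osc : ∀ (p : ℝ → P) (β : ℝ), (∀ a, |a - b x| ≤ A → p a ∈ Q ∧ b (p a) = a ∧ ω (p a) = β) →
      ∀ a, s - 2 * k ≤ a → a ≤ s + 2 * k →
        |W (p a) - W (p s)| ≤ g (p (s + 2 * k)) - g (p (s - 2 * k)) := by
    intro p β hp a a1 a2
    have ra := rng a a1 a2
    have c1 := (abs_nonneg _).trans (var p β hp _ _ r1 ra a1)
    have c2 := (abs_nonneg _).trans (var p β hp _ _ ra r2 a2)
    have c3 := (abs_nonneg _).trans (var p β hp _ _ r1 r3 (by linarith))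
    have c4 := (abs_nonneg _).trans (var p β hp _ _ r3 r2 (by linarith))
    rcases le_total a s with h | h
    · have := var p β hp _ _ ra r3 h
      rw [abs_sub_comm]
      linarith
    · have := var p β hp _ _ r3 ra h
      linarith
  refine ⟨W (p s) - W (q s) - δ, fun u hu w hw lu lw m b1 b2 => ?_⟩
  set dd := W (p s) - W (q s) - δ with hdd
  have step : ∀ a, s - 2 * k ≤ a → a + δ ≤ s + 2 * k →
      |h2 (p (a + δ)) - h2 (p a) - dd| ≤ 3 * (e1 * N) := by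
    intro a a1 a2
    have ra := rng a a1 (by linarith)
    have rb := rng (a + δ) (by linarith) a2
    obtain ⟨p1, p2, p3⟩ := hp a ra
    obtain ⟨q1, q2, q3⟩ := hq a ra
    obtain ⟨s1, s2, s3⟩ := hp _ rb
    have c1 := m1 _ p1 _ q1 (by rw [p2, q2])
    have c2 := m1 _ q1 _ p1 (by rw [p2, q2])
    have c3 := m2 _ (Or.inl s1) _ (Or.inl q1) (by rw [s2, s3, q2, q3]; linarith)
    have c4 := m2 _ (Or.inl q1) _ (Or.inl s1) (by rw [s2, s3, q2, q3]; linarith)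
    have c5 := hW _ p1
    have c6 := hW _ q1
    rw [p3] at c5
    rw [q3] at c6
    have c7 := abs_le.1 (osc p _ hp a a1 (by linarith))
    have c8 := abs_le.1 (osc q _ hq a a1 (by linarith))
    rw [abs_le]
    constructor <;> linarith [c7.1, c7.2, c8.1, c8.2]
  rw [abs_le] at lu lw
  set a := b u + ω u - ω x with ha
  have iter : ∀ j : ℕ, a + j * δ ≤ s + 2 * k →
      |h2 (p (a + j * δ)) - h2 (p a) - j * dd| ≤ j * (3 * (e1 * N)) := by
    intro j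
    induction j with
    | zero => intro _; simp
    | succ j ih =>
      intro hj
      push_cast at hj ⊢
      have j0 : 0 ≤ (j : ℝ) * δ := by positivity
      have c1 := abs_le.1 (ih (by linarith))
      have c2 := abs_le.1 (step (a + j * δ) (by linarith [lu.1]) (by linarith))
      rw [show a + (j + 1) * δ = a + j * δ + δ by ring, abs_le]
      constructor <;> linarith [c1.1, c1.2, c2.1, c2.2]
  have m0 : 0 ≤ (m : ℝ) * δ := by positivity
  have mk : (m : ℝ) ≤ 2 * k / δ := by rw [le_div_iff₀ δ0]; linarith [lu.1, lw.2]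
  have t1 : a + m * δ ≤ s + 2 * k := by linarith [lw.2]
  have t2 : a + (m + 1) * δ ≤ s + 2 * k := by linarith [lw.2]
  have i1 := abs_le.1 (iter m t1)
  have i2 := abs_le.1 (iter (m + 1) (by push_cast; exact t2))
  push_cast at i2
  obtain ⟨p1, p2, p3⟩ := hp a (rng a (by linarith [lu.1]) (by linarith))
  obtain ⟨q1, q2, q3⟩ := hp _ (rng (a + m * δ) (by linarith [lu.1]) t1)
  obtain ⟨s1, s2, s3⟩ := hp _ (rng (a + (m + 1) * δ) (by linarith [lu.1]) t2)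
  have c1 := m2 _ (Or.inl p1) _ (Or.inr hu) (by rw [p2, p3]; linarith)
  have c2 := m2 _ (Or.inr hu) _ (Or.inl p1) (by rw [p2, p3]; linarith)
  have c3 := m2 _ (Or.inl q1) _ (Or.inr hw) (by rw [q2, q3]; linarith)
  have c4 := m2 _ (Or.inr hw) _ (Or.inl s1) (by rw [s2, s3]; linarith)
  have c5 := mul_le_mul_of_nonneg_right mk eN
  have e6 : (6 * k / δ + 5) * (e1 * N) = 3 * (2 * k / δ * (e1 * N)) + 5 * (e1 * N) := by ring
  rw [e6]
  constructor <;> linarith [i1.1, i1.2, i2.1, i2.2]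

end Lev

/-- two base points below a segment with ordered slopes -/
lemma two_mono {d : P → P → ℝ} {x0 : P} {ρ : ℝ} {μ : Measure (ℝ × ℝ)} {Ψ : ℝ → ℝ}
    (cr : Crof d x0 ρ μ Ψ) {X X' y z : P} (hX : X ∈ ball x0 ρ) (hX' : X' ∈ ball x0 ρ)
    (hy : y ∈ ball x0 ρ) (hz : z ∈ ball x0 ρ) {lo hi : ℝ}
    (hs : ∀ w ∈ segment ℝ y z, X.2 < w.2 ∧ X'.2 < w.2 ∧ lo ≤ sl w X ∧ sl w X ≤ sl w X' ∧
      sl w X' ≤ hi) (hp : ∀ θ ∈ Icc lo hi, 0 ≤ pr θ (z - y)) :
    d X' z - d X' y - (d X z - d X y) = 2 * μ.real (sp y z ∩ sp X X') := by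
  have sy := hs y (left_mem_segment ℝ y z)
  have sz := hs z (right_mem_segment ℝ y z)
  have a := cr.two (σ := 1) (Or.inl rfl) hX hX' hy hz (by linarith [sy.1]) (by linarith [sz.1])
    (by linarith [sy.2.1]) (by linarith [sz.2.1])
  have key : ∀ l ∈ sp y z ∩ sp X X', l.1 < pr l.2 X ∧ ¬ l.1 < pr l.2 y ∧ l.1 < pr l.2 z := by
    rintro l ⟨l1, l2⟩
    obtain ⟨w, w1, w2⟩ := sp_cross l1
    obtain ⟨s1, s2, s3, s4, s5⟩ := hs w w1
    have e1 := pr_sl s1.ne' l.2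
    have e2 := pr_sl s2.ne' l.2
    have sl1 := sp_slope (σ := 1) (Or.inl rfl) (by linarith) (by linarith) w2 l2
    rw [uIcc_of_le s4] at sl1
    have b1 : ¬ l.1 < pr l.2 X' := by
      have := mul_nonpos_of_nonneg_of_nonpos (sub_pos.2 s2).le (sub_nonpos.2 sl1.2)
      linarith
    have b2 := hp l.2 ⟨s3.trans sl1.1, sl1.2.trans s5⟩
    rw [pr_sub] at b2
    simp only [sp, mem_ofPred_eq] at l1 l2
    have b3 : ¬ l.1 < pr l.2 y := fun h => l1 (iff_of_true h (by linarith))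
    exact ⟨by tauto, b3, by tauto⟩
  have e1 : sp y z ∩ sp X X' ∩ sp X z = ∅ := by
    refine eq_empty_of_forall_notMem fun l hl => ?_
    have := key l hl.1
    exact hl.2 (iff_of_true this.1 this.2.2)
  have e2 : sp y z ∩ sp X X' ∩ sp X y = sp y z ∩ sp X X' := by
    refine inter_eq_left.2 fun l hl => ?_
    have := key l hl
    exact fun h => this.2.1 (h.1 this.1)
  rw [e1, e2, measureReal_empty] at a
  linarith

end KiDet

end Pool.Agent.P.MP_874adf_gt.Gn
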