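import Pool.Agent.P.MP_874adf_gt.Gn.MvA

/-! Deterministic lemmas for the linear growth of the mass. -/

set_option autoImplicit false

namespace Pool.Agent.P.MP_874adf_gt.Gn

open Pool.Agent.P.MP_874adf_gt.Fs Set Filter Topology Metric MeasureTheory

namespace LINaux

open MOVaux

def pt (x : P) (s u v : ℝ) : P := (x.1 + s * u, x.2 + s * v)

lemma pr_pt (θ : ℝ) (x : P) (s u v : ℝ) : pr θ (pt x s u v) = pr θ x + s * (u - θ * v) := by
  simp only [pr, pt]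
  ring

lemma mem_pt {x : P} {s u v k : ℝ} (hs : 0 ≤ s) (hu : |u| ≤ k) (hv : |v| ≤ k) :
    pt x s u v ∈ closedBall x (k * s) := by
  rw [mem_closedBall, Prod.dist_eq, max_le_iff, Real.dist_eq, Real.dist_eq]
  simp only [pt, add_sub_cancel_left, abs_mul, abs_of_nonneg hs]
  constructor <;> nlinarith

def sg (x : P) (s a L t : ℝ) : Set (ℝ × ℝ) :=
  sp (pt x s (a * L * t) (a * L)) (pt x s ((a + 1) * L * t) ((a + 1) * L))

def Good (μ : Measure (ℝ × ℝ)) (x : P) (s a L t t' : ℝ) : Prop :=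
  2 * μ.real (sg x s a L t ∩ {l | l.2 ∈ Ioc t t'}) ≤ μ.real (sg x s a L t)

lemma meas_Ioc (t t' : ℝ) : MeasurableSet {l : ℝ × ℝ | l.2 ∈ Ioc t t'} :=
  measurable_snd measurableSet_Ioc

lemma step {μ : Measure (ℝ × ℝ)} [IsFiniteMeasure μ] {x : P} {s a L t t' b b' : ℝ}
    (h : ¬ Good μ x s a L t t') (hb : b' ≤ t ∨ t' ≤ b) :
    μ.real (sg x s a L t ∩ {l | l.2 ∈ Ioc b b'}) < μ.real (sg x s a L t ∩ {l | l.2 ∈ Ioc t t'}) := by
  have e := measureReal_inter_add_sdiff (μ := μ) (s := sg x s a L t) (meas_Ioc t t')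
  have m : μ.real (sg x s a L t ∩ {l | l.2 ∈ Ioc b b'}) ≤
      μ.real (sg x s a L t \ {l | l.2 ∈ Ioc t t'}) := by
    refine measureReal_mono ?_
    rintro l ⟨h1, h2⟩
    refine ⟨h1, fun h3 => ?_⟩
    rcases hb with hb | hb
    · exact absurd (h2.2.trans hb) (not_le.2 h3.1)
    · exact absurd (h3.2.trans hb) (not_le.2 h2.1)
  unfold Good at h
  linarith [not_le.1 h]

lemma mem_sg {x : P} {s a L t : ℝ} {l : ℝ × ℝ} : l ∈ sg x s a L t ↔
    ¬ (l.1 - pr l.2 x < a * (s * (L * (t - l.2))) ↔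
      l.1 - pr l.2 x < (a + 1) * (s * (L * (t - l.2)))) := by
  simp only [sg, sp, mem_ofPred_eq, pr_pt]
  have e1 : l.1 < pr l.2 x + s * (a * L * t - l.2 * (a * L)) ↔
      l.1 - pr l.2 x < a * (s * (L * (t - l.2))) := by
    constructor <;> intro h <;> linarith
  have e2 : l.1 < pr l.2 x + s * ((a + 1) * L * t - l.2 * ((a + 1) * L)) ↔
      l.1 - pr l.2 x < (a + 1) * (s * (L * (t - l.2))) := by
    constructor <;> intro h <;> linarith
  rw [e1, e2]

lemma sep_mono {u p q p' q' : ℝ} (h : ¬ (u < p ↔ u < q))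
    (h1 : (p' ≤ p ∧ p' ≤ q ∧ p ≤ q' ∧ q ≤ q') ∨ (q' ≤ p ∧ q' ≤ q ∧ p ≤ p' ∧ q ≤ p')) :
    ¬ (u < p' ↔ u < q') := by
  intro h2
  apply h
  rcases h1 with ⟨a, b, c, e⟩ | ⟨a, b, c, e⟩
  · by_cases h3 : u < p'
    · exact ⟨fun _ => h3.trans_le b, fun _ => h3.trans_le a⟩
    · have h4 : ¬ u < q' := fun h4 => h3 (h2.2 h4)
      exact ⟨fun h5 => absurd (h5.trans_le c) h4, fun h5 => absurd (h5.trans_le e) h4⟩
  · by_cases h3 : u < q'
    · exact ⟨fun _ => h3.trans_le b, fun _ => h3.trans_le a⟩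
    · have h4 : ¬ u < p' := fun h4 => h3 (h2.1 h4)
      exact ⟨fun h5 => absurd (h5.trans_le c) h4, fun h5 => absurd (h5.trans_le e) h4⟩

lemma inc1 {μ : Measure (ℝ × ℝ)} [IsFiniteMeasure μ] {x : P} {s a L L' t t' b : ℝ} (hs : 0 ≤ s)
    (ha : a = 0 ∨ a = -1) (hL : 0 ≤ L) (h : ∀ θ ∈ Ioc t b, L * (θ - t) ≤ L' * (θ - t')) :
    μ.real (sg x s a L t ∩ {l | l.2 ∈ Ioc t b}) ≤ μ.real (sg x s a L' t' ∩ {l | l.2 ∈ Ioc t b}) := by
  refine measureReal_mono ?_
  rintro l ⟨h1, h2⟩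
  refine ⟨mem_sg.2 (sep_mono (mem_sg.1 h1) ?_), h2⟩
  have a1 := mul_le_mul_of_nonneg_left (h l.2 h2) hs
  have a2 : 0 ≤ s * (L * (l.2 - t)) := mul_nonneg hs (mul_nonneg hL (sub_nonneg.2 h2.1.le))
  rcases ha with rfl | rfl
  · right
    refine ⟨?_, ?_, ?_, ?_⟩ <;> linarith
  · right
    refine ⟨?_, ?_, ?_, ?_⟩ <;> linarith

lemma inc2 {μ : Measure (ℝ × ℝ)} [IsFiniteMeasure μ] {x : P} {s a L L' t t' b : ℝ} (hs : 0 ≤ s)
    (ha : a = 0 ∨ a = -1) (hL : 0 ≤ L) (h : ∀ θ ∈ Ioc t b, L * (θ - t) ≤ L' * (t' - θ)) :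
    μ.real (sg x s a L t ∩ {l | l.2 ∈ Ioc t b}) ≤
      μ.real (sg x s (-1 - a) L' t' ∩ {l | l.2 ∈ Ioc t b}) := by
  refine measureReal_mono ?_
  rintro l ⟨h1, h2⟩
  refine ⟨mem_sg.2 (sep_mono (mem_sg.1 h1) ?_), h2⟩
  have a1 := mul_le_mul_of_nonneg_left (h l.2 h2) hs
  have a2 : 0 ≤ s * (L * (l.2 - t)) := mul_nonneg hs (mul_nonneg hL (sub_nonneg.2 h2.1.le))
  rcases ha with rfl | rfl
  · left
    refine ⟨?_, ?_, ?_, ?_⟩ <;> linarith
  · left
    refine ⟨?_, ?_, ?_, ?_⟩ <;> linarith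

/-- one of six segments is good -/
lemma six {t0 t1 t2 t3 : ℝ} (h1 : t1 < t0) (h2 : t2 < t1) (h3 : t3 < t2) :
    ∃ L1 > (0 : ℝ), ∃ L2 > (0 : ℝ), ∀ (μ : Measure (ℝ × ℝ)) [IsFiniteMeasure μ] (x : P) (s : ℝ),
      0 ≤ s → (Good μ x s 0 1 t1 t0 ∨ Good μ x s (-1) 1 t1 t0) ∨
        (Good μ x s 0 L1 t2 t1 ∨ Good μ x s (-1) L1 t2 t1) ∨
        (Good μ x s 0 L2 t3 t2 ∨ Good μ x s (-1) L2 t3 t2) := by
  have p1 : 0 < t0 - t2 := by linarith
  have p2 : 0 < t1 - t3 := by linarith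
  set L1 := (t0 - t1) / (t0 - t2) with hL1
  have q1 : 0 < L1 := div_pos (by linarith) p1
  have e1 : L1 * (t0 - t2) = t0 - t1 := div_mul_cancel₀ _ p1.ne'
  have q1' : L1 ≤ 1 := (div_le_one p1).2 (by linarith)
  set K := (t1 - t2) / (t1 - t3) with hK
  have q2 : 0 < K := div_pos (by linarith) p2
  have e2 : K * (t1 - t3) = t1 - t2 := div_mul_cancel₀ _ p2.ne'
  have q2' : K ≤ 1 := (div_le_one p2).2 (by linarith)
  refine ⟨L1, q1, L1 * K, mul_pos q1 q2, fun μ _ x s hs => ?_⟩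
  by_contra hc
  simp only [not_or] at hc
  obtain ⟨⟨c1, c2⟩, ⟨c3, c4⟩, c5, c6⟩ := hc
  have i1 : ∀ θ ∈ Ioc t1 t0, 1 * (θ - t1) ≤ L1 * (θ - t2) := fun θ hθ => by
    nlinarith [hθ.2]
  have i2 : ∀ θ ∈ Ioc t2 t1, L1 * (θ - t2) ≤ L1 * K * (θ - t3) := fun θ hθ => by
    have : θ - t2 ≤ K * (θ - t3) := by nlinarith [hθ.2]
    nlinarith
  have i3 : ∀ θ ∈ Ioc t3 t2, L1 * K * (θ - t3) ≤ 1 * (t1 - θ) := fun θ hθ => by
    have a1 : K * (θ - t3) ≤ t1 - θ := by nlinarith [hθ.2, hθ.1]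
    have a2 : 0 ≤ K * (θ - t3) := mul_nonneg q2.le (by linarith [hθ.1])
    nlinarith
  have chain : ∀ a : ℝ, (a = 0 ∨ a = -1) → ¬ Good μ x s a 1 t1 t0 → ¬ Good μ x s a L1 t2 t1 →
      ¬ Good μ x s a (L1 * K) t3 t2 → μ.real (sg x s a 1 t1 ∩ {l | l.2 ∈ Ioc t3 t2}) <
        μ.real (sg x s (-1 - a) 1 t1 ∩ {l | l.2 ∈ Ioc t3 t2}) := by
    intro a ha g1 g2 g3
    have s1 := step (b := t3) (b' := t2) g1 (Or.inl h2.le)
    have s2 := inc1 (μ := μ) (x := x) hs ha zero_le_one i1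
    have s3 := step (b := t1) (b' := t0) g2 (Or.inr le_rfl)
    have s4 := inc1 (μ := μ) (x := x) hs ha q1.le i2
    have s5 := step (b := t2) (b' := t1) g3 (Or.inr le_rfl)
    have s6 := inc2 (μ := μ) (x := x) hs ha (mul_pos q1 q2).le i3
    linarith
  have k1 := chain 0 (Or.inl rfl) c1 c3 c5
  have k2 := chain (-1) (Or.inr rfl) c2 c4 c6
  norm_num at k1 k2
  linarith

lemma spf (μ : Measure (ℝ × ℝ)) [IsFiniteMeasure μ] (X y z : P) :
    μ.real (sp X z) - μ.real (sp X y) = μ.real (sp y z) - 2 * μ.real (sp y z ∩ sp X y) := by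
  have a1 := measureReal_inter_add_sdiff (μ := μ) (s := sp X z) (meas_sp y z)
  have a2 := measureReal_inter_add_sdiff (μ := μ) (s := sp X y) (meas_sp y z)
  have a3 := measureReal_inter_add_sdiff (μ := μ) (s := sp y z) (meas_sp X y)
  have e1 : sp X z \ sp y z = sp X y \ sp y z := by
    ext l
    simp only [sp, Set.mem_sdiff, mem_ofPred_eq]
    tauto
  have e2 : sp X z ∩ sp y z = sp y z \ sp X y := by
    ext l
    simp only [sp, Set.mem_sdiff, mem_inter_iff, mem_ofPred_eq]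
    tauto
  rw [e1, e2] at a1
  rw [inter_comm] at a2
  linarith

variable {d : P → P → ℝ} {x0 : P} {ρ : ℝ} {μ : Measure (ℝ × ℝ)} {Ψ : ℝ → ℝ}

/-- increments of the distance from a point below -/
lemma ef (h : Crof d x0 ρ μ Ψ) {X y z : P} (hX : X ∈ ball x0 ρ) (hy : y ∈ ball x0 ρ)
    (hz : z ∈ ball x0 ρ) (a1 : X.2 < y.2) (a2 : X.2 < z.2) :
    d X z - d X y = μ.real (sp y z) - 2 * μ.real (sp y z ∩ sp X y) + (Ψ z.2 - Ψ y.2) := by
  have := h.fin
  rw [h.eq X hX z hz, h.eq X hX y hy, abs_of_nonneg (sub_nonneg.2 (h.mono a1.le)),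
    abs_of_nonneg (sub_nonneg.2 (h.mono a2.le))]
  linarith [spf μ X y z]

/-- monotonicity of the difference of the distances from the two foci -/
lemma gm (h : Crof d x0 ρ μ Ψ) {A B x y z : P} {r ξ η : ℝ} (hA : A ∈ ball x0 ρ) (hB : B ∈ ball x0 ρ)
    (sub : closedBall x r ⊆ ball x0 ρ) (hy : y ∈ closedBall x r) (hz : z ∈ closedBall x r)
    (a : ∀ w ∈ closedBall x r, A.2 < w.2 ∧ B.2 < w.2 ∧ |sl w A - ξ| ≤ η ∧ |sl w B - ξ| ≤ η ∧
      sl w B ≤ sl w A) (hp : ∀ θ, |θ - ξ| ≤ η → pr θ y ≤ pr θ z) :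
    d A y - d B y ≤ d A z - d B z := by
  have := h.fin
  have e1 := ef h hA (sub hy) (sub hz) (a y hy).1 (a z hz).1
  have e2 := ef h hB (sub hy) (sub hz) (a y hy).2.1 (a z hz).2.1
  have m : μ.real (sp y z ∩ sp A y) ≤ μ.real (sp y z ∩ sp B y) := by
    refine measureReal_mono ?_
    rintro l ⟨h1, h2⟩
    refine ⟨h1, fun h3 => ?_⟩
    obtain ⟨w, hw, e⟩ := line_pt h1
    have hwb : w ∈ closedBall x r := (convex_closedBall x r).segment_subset hy hz hw
    obtain ⟨a1, a2, a3, a4, a5⟩ := a w hwb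
    have hAB : l ∈ sp A B := by
      simp only [sp, mem_ofPred_eq] at h2 ⊢
      tauto
    have hs := slope_le (σ := 1) (Or.inl rfl) e hAB (by linarith) (by linarith)
    rw [abs_le] at a3 a4
    have hθ : |l.2 - ξ| ≤ η := by
      rw [abs_le]
      rcases hs with hs | hs <;> constructor <;> linarith [hs.1, hs.2]
    have b1 := hp l.2 hθ
    simp only [sp, mem_ofPred_eq] at h1 h2
    have b2 : ¬ l.1 < pr l.2 y := fun b => h1 ⟨fun _ => b.trans_le b1, fun _ => b⟩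
    have b3 : l.1 < pr l.2 A := by
      by_contra b3
      exact h2 ⟨fun b => absurd b b3, fun b => absurd b b2⟩
    have s1 := side (w := w) (X := A) (θ := l.2) (by linarith)
    have s2 := side (w := w) (X := B) (θ := l.2) (by linarith)
    rw [e] at s1 s2
    have b4 : 0 < l.2 - sl w A := by
      by_contra b4
      nlinarith [not_lt.1 b4]
    have b5 : 0 < (w.2 - B.2) * (l.2 - sl w B) := mul_pos (by linarith) (by linarith)
    exact b2 (h3.1 (by linarith))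
  linarith

/-- a good segment leads away from the centre -/
lemma up (h : Crof d x0 ρ μ Ψ) {O x : P} {s a L t t' r : ℝ} (hO : O ∈ ball x0 ρ)
    (sub : closedBall x r ⊆ ball x0 ρ) (hs : 0 ≤ s) (hL : 0 ≤ L)
    (hy : pt x s (a * L * t) (a * L) ∈ closedBall x r)
    (hz : pt x s ((a + 1) * L * t) ((a + 1) * L) ∈ closedBall x r)
    (b : ∀ w ∈ closedBall x r, O.2 < w.2 ∧ t < sl w O ∧ sl w O ≤ t') (g : Good μ x s a L t t') :
    d O (pt x s (a * L * t) (a * L)) ≤ d O (pt x s ((a + 1) * L * t) ((a + 1) * L)) := by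
  have := h.fin
  have e1 := ef h hO (sub hy) (sub hz) (b _ hy).1 (b _ hz).1
  have m0 : Ψ (pt x s (a * L * t) (a * L)).2 ≤ Ψ (pt x s ((a + 1) * L * t) ((a + 1) * L)).2 := by
    apply h.mono
    simp only [pt]
    nlinarith [mul_nonneg hs hL]
  have m : μ.real (sg x s a L t ∩ sp O (pt x s (a * L * t) (a * L))) ≤
      μ.real (sg x s a L t ∩ {l | l.2 ∈ Ioc t t'}) := by
    refine measureReal_mono ?_
    rintro l ⟨h1, h2⟩
    refine ⟨h1, ?_⟩
    obtain ⟨w, hw, e⟩ := line_pt h1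
    have hwb : w ∈ closedBall x r := (convex_closedBall x r).segment_subset hy hz hw
    obtain ⟨a1, a2, a3⟩ := b w hwb
    have s1 := side (w := w) (X := O) (θ := l.2) (by linarith)
    rw [e] at s1
    have dz : pr l.2 (pt x s ((a + 1) * L * t) ((a + 1) * L)) =
        pr l.2 (pt x s (a * L * t) (a * L)) + s * L * (t - l.2) := by
      rw [pr_pt, pr_pt]
      ring
    simp only [sg, sp, mem_ofPred_eq] at h1 h2
    rw [dz] at h1
    have sL := mul_nonneg hs hL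
    constructor
    · by_contra b1
      have b2 : 0 ≤ s * L * (t - l.2) := mul_nonneg sL (by linarith [not_lt.1 b1])
      have b3 : ¬ l.1 < pr l.2 (pt x s (a * L * t) (a * L)) := fun b =>
        h1 ⟨fun _ => by linarith, fun _ => b⟩
      have b4 : ¬ l.1 < pr l.2 O := by
        have : (w.2 - O.2) * (l.2 - sl w O) < 0 :=
          mul_neg_of_pos_of_neg (by linarith) (by linarith [not_lt.1 b1])
        linarith
      exact h2 ⟨fun b => absurd b b4, fun b => absurd b b3⟩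
    · by_contra b1
      have b0 := not_le.1 b1
      have b2 : s * L * (t - l.2) ≤ 0 := mul_nonpos_of_nonneg_of_nonpos sL (by linarith)
      have b3 : l.1 < pr l.2 (pt x s (a * L * t) (a * L)) := by
        by_contra b
        exact h1 ⟨fun c => absurd c b, fun c => absurd (by linarith) b⟩
      have b4 : l.1 < pr l.2 O := by
        have : 0 < (w.2 - O.2) * (l.2 - sl w O) := mul_pos (by linarith) (by linarith)
        linarith
      exact h2 ⟨fun _ => b3, fun _ => b4⟩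
  unfold Good at g
  unfold sg at g m
  linarith

/-- a step along the ray from the centre -/
lemma ray (h : Crof d x0 ρ μ Ψ) {O A w z : P} {c m : ℝ} {J : Set ℝ} (hO : O ∈ ball x0 ρ)
    (hA : A ∈ ball x0 ρ) (hw : w ∈ ball x0 ρ) (hz : z ∈ ball x0 ρ) (a1 : O.2 < w.2) (a2 : A.2 < w.2)
    (c0 : 0 ≤ c) (e1 : z.1 = w.1 + c * sl w O) (e2 : z.2 = w.2 + c)
    (hJ : ∀ θ ∈ J, m ≤ c * (sl w O - θ) ∧ m ≤ (w.2 - A.2) * (θ - sl w A)) :
    d O w ≤ d O z ∧ 2 * μ.real {l | l.2 ∈ J ∧ pr l.2 w ≤ l.1 ∧ l.1 < pr l.2 w + m} ≤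
      (d O z - d O w) - (d A z - d A w) := by
  have := h.fin
  have f1 := ef h hO hw hz a1 (by linarith)
  have f2 := ef h hA hw hz a2 (by linarith)
  have dz : ∀ θ, pr θ z = pr θ w + c * (sl w O - θ) := fun θ => by
    simp only [pr, e1, e2]
    ring
  have z0 : sp w z ∩ sp O w = ∅ := by
    ext l
    simp only [sp, mem_inter_iff, mem_ofPred_eq, mem_empty_iff_false, iff_false, not_and, not_not]
    intro h1
    have s1 := side (w := w) (X := O) (θ := l.2) (by linarith)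
    rw [dz] at h1
    rcases le_total l.2 (sl w O) with b | b
    · have b1 : 0 ≤ c * (sl w O - l.2) := mul_nonneg c0 (by linarith)
      have b2 : (w.2 - O.2) * (l.2 - sl w O) ≤ 0 :=
        mul_nonpos_of_nonneg_of_nonpos (by linarith) (by linarith)
      have b3 : ¬ l.1 < pr l.2 w := fun b => h1 ⟨fun _ => by linarith, fun _ => b⟩
      exact ⟨fun b => absurd (by linarith) b3, fun b => absurd b b3⟩
    · have b1 : c * (sl w O - l.2) ≤ 0 := mul_nonpos_of_nonneg_of_nonpos c0 (by linarith)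
      have b2 : 0 ≤ (w.2 - O.2) * (l.2 - sl w O) := mul_nonneg (by linarith) (by linarith)
      have b3 : l.1 < pr l.2 w := by
        by_contra b
        exact h1 ⟨fun c => absurd c b, fun c => absurd (by linarith) b⟩
      exact ⟨fun _ => b3, fun _ => by linarith⟩
  rw [z0, measureReal_empty] at f1
  have m0 : Ψ w.2 ≤ Ψ z.2 := h.mono (by linarith)
  have m1 : μ.real {l | l.2 ∈ J ∧ pr l.2 w ≤ l.1 ∧ l.1 < pr l.2 w + m} ≤
      μ.real (sp w z ∩ sp A w) := by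
    refine measureReal_mono ?_
    rintro l ⟨h1, h2, h3⟩
    obtain ⟨b1, b2⟩ := hJ l.2 h1
    have s1 := side (w := w) (X := A) (θ := l.2) (by linarith)
    simp only [sp, mem_inter_iff, mem_ofPred_eq, dz]
    exact ⟨fun b => absurd (b.2 (by linarith)) (not_lt.2 h2),
      fun b => absurd (b.1 (by linarith)) (not_lt.2 h2)⟩
  have m2 : 0 ≤ μ.real (sp w z) := measureReal_nonneg
  constructor <;> linarith

end LINaux

end Pool.Agent.P.MP_874adf_gt.Gn
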