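import Mathlib

/-! Monotone functions whose increments are expanded by a map that pushes points to the left. -/

set_option autoImplicit false

namespace Pool.Agent.P.MP_874adf_gt.Gn.Nl

open Set Filter Topology Metric MeasureTheory

lemma strict_ev {F : ℝ → ℝ} {F' x : ℝ} (h : HasStrictDerivAt F F' x) {ε : ℝ} (ε0 : 0 < ε) :
    ∀ᶠ p : ℝ × ℝ in 𝓝 (x, x), p.1 < p.2 →
      |F p.2 - F p.1 - F' * (p.2 - p.1)| ≤ ε * (p.2 - p.1) := by
  have := (hasStrictFDerivAt_iff_isLittleO.1 h.hasStrictFDerivAt).def ε0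
  filter_upwards [this] with p hp lt
  have e1 : ‖p.1 - p.2‖ = p.2 - p.1 := by
    rw [Real.norm_eq_abs, abs_sub_comm, abs_of_pos (sub_pos.2 lt)]
  rw [e1, Real.norm_eq_abs] at hp
  simp only [ContinuousLinearMap.toSpanSingleton_apply, smul_eq_mul] at hp
  rw [← abs_neg]
  convert hp using 2
  ring

lemma strict_of {F F' : ℝ → ℝ} {t0 : ℝ} (d : ∀ t < t0, HasDerivAt F (F' t) t)
    (c : ContinuousOn F' (Iio t0)) {x : ℝ} (hx : x < t0) : HasStrictDerivAt F (F' x) x :=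
  hasStrictDerivAt_of_hasDerivAt_of_continuousAt
    (Filter.mem_of_superset (Iio_mem_nhds hx) fun t ht => d t ht) (c.continuousAt (Iio_mem_nhds hx))

lemma ev_lt {x t0 : ℝ} (hx : x < t0) : ∀ᶠ p : ℝ × ℝ in 𝓝 (x, x), p.1 < t0 ∧ p.2 < t0 :=
  ((continuous_fst.tendsto (x, x)).eventually (Iio_mem_nhds hx)).and
    ((continuous_snd.tendsto (x, x)).eventually (Iio_mem_nhds hx))

/-- local to global -/
lemma glue {F θ : ℝ → ℝ} {t0 : ℝ} (cF : ContinuousOn F (Iio t0)) (cθ : ContinuousOn θ (Iio t0))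
    (h : ∀ x < t0, ∀ ε > (0 : ℝ), ∀ᶠ p : ℝ × ℝ in 𝓝 (x, x), p.1 < p.2 →
      F p.1 - F p.2 ≤ ε * (θ p.2 - θ p.1)) : MonotoneOn F (Iio t0) := by
  intro s _ t ht st
  have key : ∀ ε > (0 : ℝ), F s + ε * θ s ≤ F t + ε * θ t := by
    intro ε ε0
    have sub : Icc s t ⊆ Iio t0 := fun y hy => hy.2.trans_lt ht
    have cl : IsClosed ({y | F s + ε * θ s ≤ F y + ε * θ y} ∩ Icc s t) := by
      rw [inter_comm]
      exact ((cF.add (continuousOn_const.mul cθ)).mono sub).preimage_isClosed_of_isClosed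
        isClosed_Icc isClosed_Ici
    refine cl.mem_of_ge_of_forall_exists_gt (show F s + ε * θ s ≤ F s + ε * θ s from le_rfl) st ?_
    rintro x ⟨hx, x1, x2⟩
    have tt : Tendsto (fun v : ℝ => (x, v)) (𝓝[>] x) (𝓝 (x, x)) :=
      ((continuous_const.prodMk continuous_id).tendsto x).mono_left nhdsWithin_le_nhds
    obtain ⟨v, v1, v2⟩ := ((tt.eventually (h x (x2.trans ht) ε ε0)).and (Ioc_mem_nhdsGT x2)).exists
    refine ⟨v, ?_, v2⟩
    have := v1 v2.1
    simp only [mem_ofPred_eq] at hx this ⊢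
    linarith
  by_contra hc
  rw [not_le] at hc
  have p : 0 < |θ t - θ s| + 1 := by positivity
  have k := key ((F s - F t) / (|θ t - θ s| + 1)) (div_pos (sub_pos.2 hc) p)
  set e := (F s - F t) / (|θ t - θ s| + 1) with he
  have e0 : 0 < e := div_pos (sub_pos.2 hc) p
  have e1 : e * (|θ t - θ s| + 1) = F s - F t := div_mul_cancel₀ _ p.ne'
  have e2 : e * (θ t - θ s) ≤ e * |θ t - θ s| := mul_le_mul_of_nonneg_left (le_abs_self _) e0.le
  nlinarith

lemma prim {S : ℝ → ℝ} {t0 : ℝ} (c : ContinuousOn S (Iio t0)) :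
    ∃ V : ℝ → ℝ, ∀ t < t0, HasDerivAt V (S t) t := by
  refine ⟨fun u => ∫ x in (t0 - 1)..u, S x, fun t ht => ?_⟩
  refine intervalIntegral.integral_hasDerivAt_right (ContinuousOn.intervalIntegrable (c.mono ?_))
    (c.stronglyMeasurableAtFilter isOpen_Iio t ht) (c.continuousAt (Iio_mem_nhds ht))
  exact ordConnected_Iio.uIcc_subset (show t0 - 1 < t0 by linarith) ht

lemma contOn_of {F F' : ℝ → ℝ} {t0 : ℝ} (d : ∀ t < t0, HasDerivAt F (F' t) t) :
    ContinuousOn F (Iio t0) := fun t ht => (d t ht).continuousAt.continuousWithinAt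

lemma mono_of {F F' : ℝ → ℝ} {t0 : ℝ} (d : ∀ t < t0, HasDerivAt F (F' t) t)
    (h : ∀ t < t0, 0 ≤ F' t) : MonotoneOn F (Iio t0) :=
  monotoneOn_of_deriv_nonneg (convex_Iio t0) (contOn_of d)
    (fun t ht => (d t (mem_Iio.1 (interior_subset ht))).differentiableAt.differentiableWithinAt)
    fun t ht => by
      have ht' : t < t0 := mem_Iio.1 (interior_subset ht)
      rw [(d t ht').deriv]; exact h t ht'

lemma iter_le {f : ℝ → ℝ} {t0 δ : ℝ} (δ0 : 0 < δ) (h : ∀ t < t0, f t ≤ t - δ) {t : ℝ} (ht : t < t0)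
    (k : ℕ) : f^[k] t ≤ t - k * δ := by
  induction k with
  | zero => simp
  | succ k ih =>
    rw [Function.iterate_succ_apply']
    have a : (0 : ℝ) ≤ k * δ := by positivity
    have := h (f^[k] t) (by linarith)
    push_cast
    linarith

lemma iter_bot {f : ℝ → ℝ} {t0 δ : ℝ} (δ0 : 0 < δ) (h : ∀ t < t0, f t ≤ t - δ) {t : ℝ}
    (ht : t < t0) : Tendsto (fun k => f^[k] t) atTop atBot := by
  refine tendsto_atBot_mono (iter_le δ0 h ht) ?_
  simp only [sub_eq_add_neg]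
  exact tendsto_atBot_add_const_left _ _
    (tendsto_neg_atTop_atBot.comp (tendsto_natCast_atTop_atTop.atTop_mul_const δ0))

/-- a monotone function that is bounded below has small increments far left -/
lemma tail {ψ : ℝ → ℝ} {t0 B : ℝ} (m : MonotoneOn ψ (Iio t0)) (b : ∀ t < t0, B ≤ ψ t) {ε : ℝ}
    (ε0 : 0 < ε) : ∀ᶠ t in atBot, ∀ s < t0, ψ t - ψ s ≤ ε := by
  have ne : (ψ '' Iio t0).Nonempty := ⟨_, t0 - 1, show t0 - 1 < t0 by linarith, rfl⟩
  have bd : BddBelow (ψ '' Iio t0) := ⟨B, by rintro _ ⟨t, ht, rfl⟩; exact b t ht⟩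
  obtain ⟨_, ⟨y, hy, rfl⟩, lt⟩ := exists_lt_of_csInf_lt ne (lt_add_of_pos_right _ ε0)
  filter_upwards [eventually_le_atBot y] with t ht s hs
  have a1 := m (ht.trans_lt hy) hy ht
  have a2 := csInf_le bd ⟨s, hs, rfl⟩
  linarith

structure Rec (t0 : ℝ) (κ f f' A E : ℝ → ℝ) : Prop where
  cκ : ContinuousOn κ (Iio t0)
  mκ : MonotoneOn κ (Iio t0)
  bκ : ∃ B, ∀ t < t0, B ≤ κ t
  df : ∀ t < t0, HasDerivAt f (f' t) t
  cf : ContinuousOn f' (Iio t0)
  mf : Monotone f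
  down : ∃ δ > (0 : ℝ), ∀ t < t0, f t ≤ t - δ
  cA : ContinuousOn A (Iio t0)
  cE : ContinuousOn E (Iio t0)
  A1 : ∀ t < t0, 1 ≤ A t
  rc : ∀ x < t0, ∀ ε > (0 : ℝ), ∀ᶠ p : ℝ × ℝ in 𝓝 (x, x), p.1 < p.2 →
    |κ (f p.2) - κ (f p.1) - A x * (κ p.2 - κ p.1) - E x * (p.2 - p.1)| ≤
      ε * (κ p.2 - κ p.1 + (p.2 - p.1))

namespace Rec

variable {t0 : ℝ} {κ f f' A E : ℝ → ℝ} (R : Rec t0 κ f f' A E)
include R

lemma maps {t : ℝ} (ht : t < t0) : f t < t0 := by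
  obtain ⟨δ, δ0, h⟩ := R.down
  linarith [h t ht]

lemma compS {V S : ℝ → ℝ} (d : ∀ t < t0, HasDerivAt V (S t) t) (c : ContinuousOn S (Iio t0))
    {x : ℝ} (hx : x < t0) : HasStrictDerivAt (fun t => V (f t)) (S (f x) * f' x) x :=
  (strict_of d c (R.maps hx)).comp x (strict_of R.df R.cf hx)

lemma cfo {ψ : ℝ → ℝ} (c : ContinuousOn ψ (Iio t0)) : ContinuousOn (fun t => ψ (f t)) (Iio t0) :=
  c.comp (contOn_of R.df) fun _ ht => R.maps ht

lemma zero {ψ : ℝ → ℝ} {B : ℝ} (m : MonotoneOn ψ (Iio t0)) (b : ∀ t < t0, B ≤ ψ t) {s t D : ℝ}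
    (hs : s < t0) (ht : t < t0) (h : ∀ k, D ≤ ψ (f^[k] t) - ψ (f^[k] s)) : D ≤ 0 := by
  obtain ⟨δ, δ0, hδ⟩ := R.down
  refine le_of_forall_pos_le_add fun ε ε0 => ?_
  obtain ⟨k, hk⟩ := ((iter_bot δ0 hδ ht).eventually (tail m b ε0)).exists
  have a : (0 : ℝ) ≤ k * δ := by positivity
  have := hk (f^[k] s) (by linarith [iter_le δ0 hδ hs k])
  linarith [h k]

lemma step {V S : ℝ → ℝ} (d : ∀ t < t0, HasDerivAt V (S t) t) (c : ContinuousOn S (Iio t0))
    (m : MonotoneOn (fun t => κ t - V t) (Iio t0)) :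
    ∃ W T : ℝ → ℝ, (∀ t < t0, HasDerivAt W (T t) t) ∧ ContinuousOn T (Iio t0) ∧
      MonotoneOn (fun t => κ t - W t) (Iio t0) ∧
      MonotoneOn (fun t => κ (f t) - V (f t) - (κ t - W t)) (Iio t0) := by
  have cT : ContinuousOn (fun t => (S (f t) * f' t - E t) / A t) (Iio t0) :=
    (((R.cfo c).mul R.cf).sub R.cE).div R.cA fun t ht => by linarith [R.A1 t ht]
  obtain ⟨W, dW⟩ := prim cT
  have cθ : ContinuousOn (fun t => κ t + t) (Iio t0) := R.cκ.add continuousOn_id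
  have loc : ∀ x < t0, ∀ ε > (0 : ℝ), ∀ᶠ p : ℝ × ℝ in 𝓝 (x, x), p.1 < p.2 →
      p.1 < t0 ∧ p.2 < t0 ∧ |κ (f p.2) - V (f p.2) - (κ (f p.1) - V (f p.1)) -
        A x * (κ p.2 - W p.2 - (κ p.1 - W p.1))| ≤ ε * (κ p.2 + p.2 - (κ p.1 + p.1)) := by
    intro x hx ε ε0
    have A1 := R.A1 x hx
    filter_upwards [ev_lt hx, R.rc x hx (ε / 3) (by linarith),
      strict_ev (R.compS d c hx) (show 0 < ε / 3 by linarith),
      strict_ev (strict_of dW cT hx) (show 0 < ε / 3 / A x by positivity)] with p h0 h1 h2 h3 lt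
    refine ⟨h0.1, h0.2, ?_⟩
    have k0 : κ p.1 ≤ κ p.2 := R.mκ h0.1 h0.2 lt.le
    have b1 := abs_le.1 (h1 lt)
    have b2 := abs_le.1 (h2 lt)
    have b3 := mul_le_mul_of_nonneg_left (h3 lt) (show 0 ≤ A x by linarith)
    rw [← abs_of_nonneg (show 0 ≤ A x by linarith), ← abs_mul, abs_of_nonneg (show 0 ≤ A x by linarith),
      show A x * (W p.2 - W p.1 - (S (f x) * f' x - E x) / A x * (p.2 - p.1)) =
        A x * (W p.2 - W p.1) - (S (f x) * f' x - E x) * (p.2 - p.1) by field_simp,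
      show A x * (ε / 3 / A x * (p.2 - p.1)) = ε / 3 * (p.2 - p.1) by field_simp] at b3
    have b4 := abs_le.1 b3
    have b5 : 0 ≤ ε * (κ p.2 - κ p.1) := mul_nonneg ε0.le (by linarith)
    rw [abs_le]
    constructor <;> linarith [b1.1, b1.2, b2.1, b2.2, b4.1, b4.2]
  have m1 : MonotoneOn (fun t => κ t - W t) (Iio t0) := by
    refine glue (R.cκ.sub (contOn_of dW)) cθ fun x hx ε ε0 => ?_
    filter_upwards [loc x hx ε ε0] with p hp lt
    obtain ⟨h1, h2, h3⟩ := hp lt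
    have k0 : κ p.1 ≤ κ p.2 := R.mκ h1 h2 lt.le
    have a1 := m (R.maps h1) (R.maps h2) (R.mf lt.le)
    have a2 := (abs_le.1 h3).2
    have A1 := R.A1 x hx
    have b5 : 0 ≤ ε * (κ p.2 + p.2 - (κ p.1 + p.1)) := mul_nonneg ε0.le (by linarith)
    simp only at a1 ⊢
    by_contra hc
    rw [not_le] at hc
    have a3 := (abs_le.1 h3).1
    nlinarith
  refine ⟨W, _, dW, cT, m1, ?_⟩
  refine glue ((R.cfo (R.cκ.sub (contOn_of d))).sub (R.cκ.sub (contOn_of dW))) cθ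
    fun x hx ε ε0 => ?_
  filter_upwards [loc x hx ε ε0] with p hp lt
  obtain ⟨h1, h2, h3⟩ := hp lt
  have a1 := m1 h1 h2 lt.le
  have a2 := (abs_le.1 h3).1
  have A1 := R.A1 x hx
  simp only at a1 ⊢
  nlinarith

lemma chain (k : ℕ) : ∃ V S : ℝ → ℝ, (∀ t < t0, HasDerivAt V (S t) t) ∧ ContinuousOn S (Iio t0) ∧
    MonotoneOn (fun t => κ t - V t) (Iio t0) ∧
    ∀ s t, s ≤ t → t < t0 → κ t - V t - (κ s - V s) ≤ κ (f^[k] t) - κ (f^[k] s) := by
  induction k with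
  | zero =>
    exact ⟨fun _ => 0, fun _ => 0, fun t _ => hasDerivAt_const t 0, continuousOn_const,
      by simpa using R.mκ, fun s t _ _ => by simp⟩
  | succ k ih =>
    obtain ⟨V, S, d, c, m, h⟩ := ih
    obtain ⟨W, T, dW, cT, m1, m2⟩ := R.step d c m
    refine ⟨W, T, dW, cT, m1, fun s t st ht => ?_⟩
    have a1 := m2 (st.trans_lt ht) ht st
    have a2 := h (f s) (f t) (R.mf st) (R.maps ht)
    simp only [Function.iterate_succ_apply] at a1 ⊢
    linarith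

/-- if slopes below `lam` occur near every point then all slopes are below `lam` -/
lemma upper {V lam : ℝ → ℝ} (d : ∀ t < t0, HasDerivAt V (lam t) t)
    (h : ∀ x < t0, ∀ ε > (0 : ℝ), ∃ᶠ p : ℝ × ℝ in 𝓝 (x, x), p.1 < p.2 ∧
      κ p.2 - κ p.1 ≤ (lam x + ε) * (p.2 - p.1)) : MonotoneOn (fun t => V t - κ t) (Iio t0) := by
  intro s hs t ht st
  obtain ⟨B, hB⟩ := R.bκ
  have : κ t - V t - (κ s - V s) ≤ 0 := by
    refine R.zero R.mκ hB hs ht fun k => ?_
    obtain ⟨W, S, dW, c, m, hk⟩ := R.chain k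
    have le : ∀ x < t0, 0 ≤ lam x - S x := by
      intro x hx
      refine le_of_forall_pos_le_add fun ε ε0 => ?_
      obtain ⟨p, ⟨lt, h1⟩, h2, h3⟩ := ((h x hx (ε / 2) (by linarith)).and_eventually
        ((ev_lt hx).and (strict_ev (strict_of dW c hx) (show 0 < ε / 2 by linarith)))).exists
      have a1 := m h2.1 h2.2 lt.le
      have a2 := (abs_le.1 (h3 lt)).1
      simp only at a1
      have a3 : S x * (p.2 - p.1) ≤ (lam x + ε) * (p.2 - p.1) := by nlinarith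
      have := le_of_mul_le_mul_right a3 (sub_pos.2 lt)
      linarith
    have a1 := mono_of (fun t ht => (d t ht).sub (dW t ht)) le hs ht st
    have a2 := hk s t st ht
    simp only [Pi.sub_apply] at a1
    linarith
  simp only
  linarith

/-- if moreover slopes above `lam` occur then `lam` is the derivative -/
lemma exact {V lam : ℝ → ℝ} (d : ∀ t < t0, HasDerivAt V (lam t) t) (c : ContinuousOn lam (Iio t0))
    (m : MonotoneOn (fun t => V t - κ t) (Iio t0)) {B : ℝ} (b : ∀ t < t0, B ≤ V t - κ t)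
    (h : ∀ x < t0, ∀ ε > (0 : ℝ), ∃ᶠ p : ℝ × ℝ in 𝓝 (x, x), p.1 < p.2 ∧
      (lam x - ε) * (p.2 - p.1) ≤ κ p.2 - κ p.1 ∧ κ p.2 - κ p.1 ≤ (lam x + ε) * (p.2 - p.1))
    {s t : ℝ} (st : s ≤ t) (ht : t < t0) : V t - κ t = V s - κ s := by
  have ineq : ∀ x < t0, A x * lam x + E x ≤ lam (f x) * f' x := by
    intro x hx
    have A1 := R.A1 x hx
    refine le_of_forall_pos_le_add fun ε ε0 => ?_
    obtain ⟨η, η0, η1, η2⟩ : ∃ η > (0 : ℝ), η ≤ 1 ∧ η * (A x + |lam x| + 3) ≤ ε := by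
      have p : 0 < A x + |lam x| + 3 := by positivity
      refine ⟨min 1 (ε / (A x + |lam x| + 3)), lt_min one_pos (div_pos ε0 p), min_le_left _ _, ?_⟩
      exact (le_div_iff₀ p).1 (min_le_right _ _)
    obtain ⟨p, ⟨lt, h1, h1'⟩, h2, h3, h4⟩ := ((h x hx η η0).and_eventually
      ((ev_lt hx).and ((strict_ev (R.compS d c hx) η0).and (R.rc x hx η η0)))).exists
    have a1 := m (R.maps h2.1) (R.maps h2.2) (R.mf lt.le)
    have a2 := (abs_le.1 (h3 lt)).2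
    have a3 := (abs_le.1 (h4 lt)).1
    simp only at a1
    have d0 : 0 < p.2 - p.1 := sub_pos.2 lt
    have a4 : A x * ((lam x - η) * (p.2 - p.1)) ≤ A x * (κ p.2 - κ p.1) :=
      mul_le_mul_of_nonneg_left h1 (by linarith)
    have a5 : κ p.2 - κ p.1 ≤ (|lam x| + 1) * (p.2 - p.1) :=
      h1'.trans (mul_le_mul_of_nonneg_right (by linarith [le_abs_self (lam x)]) d0.le)
    have a6 : η * (κ p.2 - κ p.1) ≤ η * ((|lam x| + 1) * (p.2 - p.1)) :=
      mul_le_mul_of_nonneg_left a5 η0.le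
    have a7 : η * (A x + |lam x| + 3) * (p.2 - p.1) ≤ ε * (p.2 - p.1) :=
      mul_le_mul_of_nonneg_right η2 d0.le
    have a8 : (A x * lam x + E x) * (p.2 - p.1) ≤ (lam (f x) * f' x + ε) * (p.2 - p.1) := by
      nlinarith
    exact le_of_mul_le_mul_right a8 d0
  have cχ : ContinuousOn (fun t => V t - κ t) (Iio t0) := (contOn_of d).sub R.cκ
  have m2 : MonotoneOn (fun t => V (f t) - κ (f t) - (V t - κ t)) (Iio t0) := by
    refine glue ((R.cfo cχ).sub cχ) (R.cκ.add continuousOn_id) fun x hx ε ε0 => ?_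
    have A1 := R.A1 x hx
    filter_upwards [ev_lt hx, R.rc x hx (ε / 3) (by linarith),
      strict_ev (R.compS d c hx) (show 0 < ε / 3 by linarith),
      strict_ev (strict_of d c hx) (show 0 < ε / 3 / A x by positivity)] with p h0 h1 h2 h3 lt
    have k0 : κ p.1 ≤ κ p.2 := R.mκ h0.1 h0.2 lt.le
    have b1 := (abs_le.1 (h1 lt)).2
    have b2 := (abs_le.1 (h2 lt)).1
    have b3 := mul_le_mul_of_nonneg_left (abs_le.1 (h3 lt)).2 (show 0 ≤ A x by linarith)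
    rw [show A x * (ε / 3 / A x * (p.2 - p.1)) = ε / 3 * (p.2 - p.1) by field_simp] at b3
    have b4 := mul_le_mul_of_nonneg_right (ineq x hx) (sub_pos.2 lt).le
    have b5 : 0 ≤ ε * (κ p.2 - κ p.1) := mul_nonneg ε0.le (by linarith)
    have b6 := m h0.1 h0.2 lt.le
    simp only [Pi.add_apply, id] at b6 ⊢
    have b7 : 0 ≤ (A x - 1) * (V p.2 - κ p.2 - (V p.1 - κ p.1)) :=
      mul_nonneg (by linarith) (by linarith)
    nlinarith
  have hs : s < t0 := st.trans_lt ht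
  refine le_antisymm ?_ (m hs ht st)
  rw [← sub_nonpos]
  refine R.zero m b hs ht fun k => ?_
  obtain ⟨δ, δ0, hδ⟩ := R.down
  induction k with
  | zero => simp
  | succ k ih =>
    have a : (0 : ℝ) ≤ k * δ := by positivity
    have := m2 (show f^[k] s < t0 by linarith [iter_le δ0 hδ hs k])
      (show f^[k] t < t0 by linarith [iter_le δ0 hδ ht k]) (R.mf.iterate k st)
    simp only [Function.iterate_succ_apply'] at this ⊢
    linarith

end Rec

lemma freqR {Z : Set ℝ} (h : Z.Countable) (x : ℝ) : ∃ᶠ t in 𝓝[>] x, t ∉ Z := by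
  rw [(nhdsGT_basis x).frequently_iff]
  intro u hu
  obtain ⟨t, t1, t2⟩ := (h.dense_compl ℝ).exists_mem_open isOpen_Ioo (nonempty_Ioo.2 hu)
  exact ⟨t, t2, t1⟩

lemma freqL {Z : Set ℝ} (h : Z.Countable) (x : ℝ) : ∃ᶠ t in 𝓝[<] x, t ∉ Z := by
  rw [(nhdsLT_basis x).frequently_iff]
  intro u hu
  obtain ⟨t, t1, t2⟩ := (h.dense_compl ℝ).exists_mem_open isOpen_Ioo (nonempty_Ioo.2 hu)
  exact ⟨t, t2, t1⟩

end Pool.Agent.P.MP_874adf_gt.Gn.Nl
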