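import Pool.Agent.P.MP_874adf_gt.Gn.Iface0
import Pool.Agent.P.MP_874adf_gt.Gn.NlAbs

/-! A norm in slope coordinates together with a choice of support lines. -/

set_option autoImplicit false

namespace Pool.Agent.P.MP_874adf_gt.Gn.Nl

open Set Filter Topology Metric Function

lemma fxe (n : ℝ → ℝ) (t : ℝ) : fx n 1 t = t - n t := by simp [fx]

lemma exists_sub {n : ℝ → ℝ} (h : ConvexOn ℝ univ n) :
    ∃ β : ℝ → ℝ, ∀ s t, n s + β s * (t - s) ≤ n t := by
  refine ⟨fun s => derivWithin n (Ioi s) s, fun s t => ?_⟩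
  rcases lt_trichotomy s t with c | rfl | c
  · have := h.rightDeriv_le_slope_of_mem_interior (x := s) (by simp) (mem_univ t) c
    rw [slope_def_field, le_div_iff₀ (sub_pos.2 c)] at this
    linarith
  · simp
  · have := (h.slope_le_leftDeriv_of_mem_interior (mem_univ t) (y := s) (by simp) c).trans
      (h.leftDeriv_le_rightDeriv_of_mem_interior (by simp))
    rw [slope_def_field, div_le_iff₀ (sub_pos.2 c)] at this
    linarith

lemma strict_of_ev {F : ℝ → ℝ} {F' x : ℝ} (h : ∀ ε > (0 : ℝ), ∀ᶠ p : ℝ × ℝ in 𝓝 (x, x),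
    |F p.1 - F p.2 - F' * (p.1 - p.2)| ≤ ε * |p.1 - p.2|) : HasStrictDerivAt F F' x := by
  rw [hasStrictDerivAt_iff_hasStrictFDerivAt, hasStrictFDerivAt_iff_isLittleO,
    Asymptotics.isLittleO_iff]
  intro ε ε0
  filter_upwards [h ε ε0] with p hp
  simp only [ContinuousLinearMap.toSpanSingleton_apply, smul_eq_mul, Real.norm_eq_abs]
  rwa [mul_comm (p.1 - p.2)]

/-- a function with support lines whose slope is continuous at a point -/
lemma strict_sub {n β : ℝ → ℝ} {x : ℝ} (h : ∀ᶠ s in 𝓝 x, ∀ t, n s + β s * (t - s) ≤ n t)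
    (c : ContinuousAt β x) : HasStrictDerivAt n (β x) x := by
  refine strict_of_ev fun ε ε0 => ?_
  have e : ∀ᶠ s in 𝓝 x, (∀ t, n s + β s * (t - s) ≤ n t) ∧ |β s - β x| ≤ ε :=
    h.and ((c.eventually (closedBall_mem_nhds _ ε0)).mono fun s hs => by
      simpa [Real.dist_eq] using hs)
  filter_upwards [(continuous_fst.tendsto (x, x)).eventually e,
    (continuous_snd.tendsto (x, x)).eventually e] with p h1 h2
  have a1 := h1.1 p.2
  have a2 := h2.1 p.1
  have b1 : |(β p.1 - β x) * (p.1 - p.2)| ≤ ε * |p.1 - p.2| := by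
    rw [abs_mul]; exact mul_le_mul_of_nonneg_right h1.2 (abs_nonneg _)
  have b2 : |(β p.2 - β x) * (p.1 - p.2)| ≤ ε * |p.1 - p.2| := by
    rw [abs_mul]; exact mul_le_mul_of_nonneg_right h2.2 (abs_nonneg _)
  rw [abs_le] at b1 b2 ⊢
  constructor <;> nlinarith [b1.1, b1.2, b2.1, b2.2]

structure N0 (n : ℝ → ℝ) : Prop where
  pos : ∀ t, 0 < n t
  lip : ∀ s t, n t - n s ≤ |t - s|
  big : ∀ t, |t| - n 0 ≤ n t

namespace N0

variable {n : ℝ → ℝ} (h : N0 n)
include h

lemma cont : Continuous n := by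
  refine (LipschitzWith.of_dist_le' (K := 1) fun s t => ?_).continuous
  rw [Real.dist_eq, Real.dist_eq, one_mul, abs_le]
  have a1 := h.lip s t
  have a2 := h.lip t s
  rw [abs_sub_comm] at a1
  constructor <;> linarith

lemma low : ∃ δ > (0 : ℝ), ∀ t, δ ≤ n t := by
  have p := h.pos 0
  obtain ⟨x, -, hx⟩ := (isCompact_Icc (a := -(2 * n 0)) (b := 2 * n 0)).exists_isMinOn
    ⟨0, by constructor <;> linarith⟩ h.cont.continuousOn
  refine ⟨n x, h.pos x, fun t => ?_⟩
  by_cases c : |t| ≤ 2 * n 0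
  · exact hx (abs_le.1 c)
  · have a : n x ≤ n 0 := hx (show (0 : ℝ) ∈ Icc (-(2 * n 0)) (2 * n 0) by constructor <;> linarith)
    linarith [h.big t, not_le.1 c]

lemma gmono : Monotone fun t => n t + t := fun s t st => by
  have := h.lip t s
  rw [abs_sub_comm, abs_of_nonneg (sub_nonneg.2 st)] at this
  simp only
  linarith

lemma glow (t : ℝ) : -n 0 ≤ n t + t := by linarith [h.big t, neg_abs_le t]

lemma fcont : Continuous (fx n 1) := by
  have := h.cont
  unfold fx
  fun_prop

lemma flt (t : ℝ) : fx n 1 t < t := by rw [fxe]; linarith [h.pos t]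

lemma down : ∃ δ > (0 : ℝ), ∀ t, fx n 1 t ≤ t - δ := by
  obtain ⟨δ, δ0, hδ⟩ := h.low
  exact ⟨δ, δ0, fun t => by rw [fxe]; linarith [hδ t]⟩

lemma refl : N0 fun t => n (-t) where
  pos t := h.pos _
  lip s t := by
    have := h.lip (-s) (-t)
    rwa [show -t - -s = -(t - s) by ring, abs_neg] at this
  big t := by
    have := h.big (-t)
    rwa [abs_neg, ← neg_zero] at this

lemma ratio : Tendsto (fun t => n t / -t) atBot (𝓝 1) := by
  have t0 : Tendsto (fun t : ℝ => n 0 / -t) atBot (𝓝 0) :=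
    tendsto_const_nhds.div_atTop tendsto_neg_atBot_atTop
  refine tendsto_of_tendsto_of_tendsto_of_le_of_le' (g := fun t => 1 - n 0 / -t)
    (h := fun t => 1 + n 0 / -t) (by simpa using t0.const_sub 1) (by simpa using t0.const_add 1)
    ?_ ?_
  · filter_upwards [eventually_lt_atBot 0] with t ht
    have a := h.big t
    rw [abs_of_neg ht] at a
    rw [le_div_iff₀ (by linarith), sub_mul, div_mul_cancel₀ _ (by linarith)]
    linarith
  · filter_upwards [eventually_lt_atBot 0] with t ht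
    have a := h.lip 0 t
    rw [sub_zero, abs_of_neg ht] at a
    rw [div_le_iff₀ (by linarith), add_mul, div_mul_cancel₀ _ (by linarith)]
    linarith

end N0

structure NS (n β : ℝ → ℝ) : Prop extends N0 n where
  sub : ∀ s t, n s + β s * (t - s) ≤ n t

namespace NS

variable {n β : ℝ → ℝ} (h : NS n β)
include h

lemma mono : Monotone β := fun s t st => by
  rcases st.eq_or_lt with rfl | st
  · rfl
  have a1 := h.sub s t
  have a2 := h.sub t s
  have : β s * (t - s) ≤ β t * (t - s) := by linarith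
  exact le_of_mul_le_mul_right this (sub_pos.2 st)

lemma ge1 (t : ℝ) : -1 ≤ β t := by
  have a1 := h.sub t (t - 1)
  have a2 := h.lip (t - 1) t
  have a3 := h.lip t (t - 1)
  have a4 := h.sub t (t + 1)
  by_contra hc
  rw [not_le] at hc
  rw [show t - 1 - t = -1 by ring, abs_neg, abs_one] at a3
  rw [show t - 1 - t = -1 by ring] at a1
  linarith

lemma right : NS n (rightLim β) where
  toN0 := h.toN0
  sub s t := by
    have t1 : Tendsto (fun v => n v + β v * (t - v)) (𝓝[>] s) (𝓝 (n s + rightLim β s * (t - s))) :=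
      ((h.cont.tendsto s).mono_left nhdsWithin_le_nhds).add ((h.mono.tendsto_rightLim s).mul
        (((continuous_const.sub continuous_id).tendsto s).mono_left nhdsWithin_le_nhds))
    exact le_of_tendsto' t1 fun v => h.sub v t

lemma left : NS n (leftLim β) where
  toN0 := h.toN0
  sub s t := by
    have t1 : Tendsto (fun v => n v + β v * (t - v)) (𝓝[<] s) (𝓝 (n s + leftLim β s * (t - s))) :=
      ((h.cont.tendsto s).mono_left nhdsWithin_le_nhds).add ((h.mono.tendsto_leftLim s).mul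
        (((continuous_const.sub continuous_id).tendsto s).mono_left nhdsWithin_le_nhds))
    exact le_of_tendsto' t1 fun v => h.sub v t

lemma strict {x : ℝ} (c : ContinuousAt β x) : HasStrictDerivAt n (β x) x :=
  strict_sub (Eventually.of_forall h.sub) c

lemma tl : Tendsto (fun t => n t * (β t + 1)) atBot (𝓝 0) := by
  rw [Metric.tendsto_nhds]
  intro ε ε0
  have e := tail (t0 := 0) (h.gmono.monotoneOn _) (fun t _ => h.glow t) (show 0 < ε / 5 by linarith)
  have t2 : Tendsto (fun t : ℝ => t / 2) atBot atBot := tendsto_id.atBot_div_const two_pos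
  filter_upwards [t2.eventually e, eventually_lt_atBot (-n 0)] with t h1 h2
  have p := h.pos 0
  have a1 := h1 t (by linarith)
  have a2 := h.sub t (t / 2)
  have a3 := h.lip 0 t
  rw [sub_zero, abs_of_neg (by linarith)] at a3
  have a4 := h.ge1 t
  have a5 : n t * (β t + 1) ≤ (-2 * t) * (β t + 1) :=
    mul_le_mul_of_nonneg_right (by linarith) (by linarith)
  rw [Real.dist_eq, sub_zero, abs_of_nonneg (mul_nonneg (h.pos t).le (by linarith))]
  nlinarith

lemma tl1 : Tendsto (fun t => β t + 1) atBot (𝓝 0) := by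
  obtain ⟨δ, δ0, hδ⟩ := h.low
  refine squeeze_zero (g := fun t => n t * (β t + 1) / δ) (fun t => by linarith [h.ge1 t])
    (fun t => ?_) (by simpa using h.tl.div_const δ)
  rw [le_div_iff₀ δ0, mul_comm]
  exact mul_le_mul_of_nonneg_right (hδ t) (by linarith [h.ge1 t])

lemma chord (t : ℝ) : n t * (1 - β t) ≤ n (fx n 1 t) := by
  have := h.sub t (fx n 1 t)
  rw [fxe] at this ⊢
  linarith

lemma lt1 (sf : StrictMono (fx n 1)) (t : ℝ) : β t < 1 := by
  have a1 := h.sub t (t + 1)
  have a2 := sf (lt_add_one t)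
  simp only [fxe] at a2
  linarith

end NS

/-- the derivative of `bq n` at `fx n 1 z` in terms of the slopes `x` at `z` and `y` at its image -/
noncomputable def dB (n : ℝ → ℝ) (z x y : ℝ) : ℝ :=
  -y / (2 * n z) + n (fx n 1 z) * x / (2 * n z ^ 2 * (1 - x))

structure NT (n β : ℝ → ℝ) : Prop extends NS n β where
  sf : StrictMono (fx n 1)
  mid : ∀ s t, s < t → t ∈ Lf n 1 → n t + β t * (s - t) < n s

namespace NT

variable {n β : ℝ → ℝ} (h : NT n β)
include h

lemma memf (z : ℝ) : fx n 1 z ∈ Lf n 1 := ⟨z + 1, by simpa using h.sf (lt_add_one z)⟩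

omit h in
lemma lower {s t : ℝ} (ht : t ∈ Lf n 1) (st : s ≤ t) : s ∈ Lf n 1 :=
  ht.imp fun z hz => by linarith

omit h in
lemma nhd {t : ℝ} (ht : t ∈ Lf n 1) : ∀ᶠ s in 𝓝 t, s ∈ Lf n 1 := by
  obtain ⟨z, hz⟩ := ht
  rw [one_mul, one_mul] at hz
  filter_upwards [Iio_mem_nhds hz] with s hs
  exact ⟨z, by simpa using hs⟩

lemma surj {t : ℝ} (ht : t ∈ Lf n 1) : ∃ z, fx n 1 z = t := by
  obtain ⟨z, hz⟩ := ht
  rw [one_mul, one_mul] at hz
  exact intermediate_value_univ t z h.fcont ⟨(h.flt t).le, hz.le⟩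

lemma gf (z : ℝ) : invFun (fx n 1) (fx n 1 z) = z := leftInverse_invFun h.sf.injective z

lemma fg {t : ℝ} (ht : t ∈ Lf n 1) : fx n 1 (invFun (fx n 1) t) = t := invFun_eq (h.surj ht)

lemma gcont {t : ℝ} (ht : t ∈ Lf n 1) : ContinuousAt (invFun (fx n 1)) t := by
  refine continuousAt_of_monotoneOn_of_image_mem_nhds (s := Lf n 1) ?_ (nhd ht) ?_
  · intro a ha b hb ab
    rw [← h.sf.le_iff_le, h.fg ha, h.fg hb]
    exact ab
  · exact univ_mem' fun z => ⟨_, h.memf z, h.gf z⟩

lemma bqf (z : ℝ) : bq n (fx n 1 z) = -n (fx n 1 z) / (2 * n z) := by rw [bq, h.gf]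

lemma bcont {t : ℝ} (ht : t ∈ Lf n 1) : ContinuousAt (bq n) t :=
  (h.cont.continuousAt.neg).div (continuousAt_const.mul (h.cont.continuousAt.comp (h.gcont ht)))
    (mul_pos two_pos (h.pos _)).ne'

lemma fstrict {z : ℝ} (c : ContinuousAt β z) : HasStrictDerivAt (fx n 1) (1 - β z) z := by
  have := (hasStrictDerivAt_id z).sub (h.strict c)
  rwa [show id - n = fx n 1 from funext fun t => (fxe n t).symm] at this

lemma gstrict {z : ℝ} (c : ContinuousAt β z) :
    HasStrictDerivAt (invFun (fx n 1)) (1 - β z)⁻¹ (fx n 1 z) :=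
  (h.fstrict c).to_local_left_inverse (sub_pos.2 (h.lt1 h.sf z)).ne' (Eventually.of_forall h.gf)

lemma bstrict {z : ℝ} (c : ContinuousAt β z) (c' : ContinuousAt β (fx n 1 z)) :
    HasStrictDerivAt (bq n) (dB n z (β z) (β (fx n 1 z))) (fx n 1 z) := by
  have a1 : HasStrictDerivAt n (β z) (invFun (fx n 1) (fx n 1 z)) := by
    rw [h.gf]; exact h.strict c
  have a2 := (a1.comp _ (h.gstrict c)).const_mul 2
  have a3 := (h.strict c').neg.div a2 (mul_pos two_pos (h.pos _)).ne'
  have p := h.pos z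
  have q := sub_pos.2 (h.lt1 h.sf z)
  refine HasStrictDerivAt.congr_deriv a3 ?_
  simp only [dB, comp, h.gf, Pi.neg_apply]
  field_simp
  ring

lemma gt1 {t : ℝ} (ht : t ∈ Lf n 1) : -1 < β t := by
  have a1 := h.mid (t - 1) t (by linarith) ht
  have a3 := h.lip t (t - 1)
  rw [show t - 1 - t = -1 by ring, abs_neg, abs_one] at a3
  rw [show t - 1 - t = -1 by ring] at a1
  linarith

lemma bneg (z : ℝ) : bq n (fx n 1 z) < 0 := by
  rw [h.bqf]
  exact div_neg_of_neg_of_pos (neg_neg_of_pos (h.pos _)) (mul_pos two_pos (h.pos z))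

lemma qpos (z : ℝ) : 0 < bq n (fx n 1 z) + 1 := by
  have a1 := h.gt1 (h.memf z)
  have a2 := h.sub (fx n 1 z) z
  have p := h.pos z
  rw [show z - fx n 1 z = n z by rw [fxe]; ring] at a2
  rw [h.bqf, ← neg_lt_iff_pos_add', neg_div, neg_neg, div_lt_one (by linarith)]
  nlinarith

lemma qle (z : ℝ) : bq n (fx n 1 z) + 1 ≤ (β z + 1) / 2 := by
  have a1 := h.chord z
  have p := h.pos z
  rw [h.bqf, ← le_sub_iff_add_le, div_le_iff₀ (by linarith)]
  linarith

lemma qlt {z : ℝ} (hz : z ∈ Lf n 1) : bq n (fx n 1 z) + 1 < (β z + 1) / 2 := by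
  have a1 := h.mid _ z (h.flt z) hz
  have p := h.pos z
  rw [show fx n 1 z - z = -n z by rw [fxe]; ring] at a1
  rw [h.bqf, ← lt_sub_iff_add_lt, div_lt_iff₀ (by linarith)]
  linarith

lemma qlim : Tendsto (fun z => bq n (fx n 1 z) + 1) atBot (𝓝 0) :=
  squeeze_zero (fun z => (h.qpos z).le) h.qle (by simpa using h.tl1.div_const 2)

lemma bad : {z | ¬ (ContinuousAt β z ∧ ContinuousAt β (fx n 1 z))}.Countable := by
  refine (h.mono.countable_not_continuousAt.union
    (h.mono.countable_not_continuousAt.preimage h.sf.injective)).mono fun z hz => ?_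
  by_cases c : ContinuousAt β z
  · exact Or.inr fun c' => hz ⟨c, c'⟩
  · exact Or.inl c

lemma side {L : ℝ → ℝ} {x a b : ℝ} {l : Filter ℝ} (le : l ≤ 𝓝 x) (cL : ContinuousAt L x)
    (ta : Tendsto β l (𝓝 a)) (tb : Tendsto (fun t => β (fx n 1 t)) l (𝓝 b)) (a1 : a < 1)
    (fr : ∃ᶠ t in l, dB n t (β t) (β (fx n 1 t)) = L t) : dB n x a b = L x := by
  have t1 : Tendsto n l (𝓝 (n x)) := (h.cont.tendsto x).mono_left le
  have t2 : Tendsto (fun t => n (fx n 1 t)) l (𝓝 (n (fx n 1 x))) :=
    ((h.cont.comp h.fcont).tendsto x).mono_left le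
  have p := h.pos x
  have q := sub_pos.2 a1
  exact tendsto_nhds_unique_of_frequently_eq
    ((tb.neg.div (t1.const_mul 2) (by positivity)).add ((t2.mul ta).div
      (((t1.pow 2).const_mul 2).mul (ta.const_sub 1)) (by positivity))) (cL.tendsto.mono_left le) fr

/-- if the derivative of `bq` extends continuously then the slopes do not jump -/
lemma nojump {z : ℝ} {Z : Set ℝ} {L : ℝ → ℝ} (hZ : Z.Countable) (cL : ContinuousOn L (Iio z))
    (e : ∀ t < z, t ∉ Z → dB n t (β t) (β (fx n 1 t)) = L t) :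
    (∀ t < z, ContinuousAt β t) ∧ ∀ t < z, dB n t (β t) (β (fx n 1 t)) = L t := by
  have fr : ∀ x < z, ∀ l : Filter ℝ, l ≤ 𝓝 x → (∃ᶠ t in l, t ∉ Z) →
      ∃ᶠ t in l, dB n t (β t) (β (fx n 1 t)) = L t := fun x hx l le k =>
    (k.and_eventually (le (Iio_mem_nhds hx))).mono fun t ht => e t ht.2 ht.1
  have eR : ∀ x < z, dB n x (rightLim β x) (rightLim β (fx n 1 x)) = L x := fun x hx =>
    h.side nhdsWithin_le_nhds (cL.continuousAt (Iio_mem_nhds hx)) (h.mono.tendsto_rightLim x)
      ((h.mono.tendsto_rightLim _).comp (tendsto_nhdsWithin_of_tendsto_nhds_of_eventually_within _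
        ((h.fcont.tendsto x).mono_left nhdsWithin_le_nhds)
        (eventually_nhdsWithin_of_forall fun t ht => h.sf ht)))
      (h.right.lt1 h.sf x) (fr x hx _ nhdsWithin_le_nhds (freqR hZ x))
  have eL : ∀ x < z, dB n x (leftLim β x) (leftLim β (fx n 1 x)) = L x := fun x hx =>
    h.side nhdsWithin_le_nhds (cL.continuousAt (Iio_mem_nhds hx)) (h.mono.tendsto_leftLim x)
      ((h.mono.tendsto_leftLim _).comp (tendsto_nhdsWithin_of_tendsto_nhds_of_eventually_within _
        ((h.fcont.tendsto x).mono_left nhdsWithin_le_nhds)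
        (eventually_nhdsWithin_of_forall fun t ht => h.sf ht)))
      (h.left.lt1 h.sf x) (fr x hx _ nhdsWithin_le_nhds (freqL hZ x))
  have up : ∀ x < z, n x * (rightLim β x - leftLim β x) ≤
      n (fx n 1 x) * (rightLim β (fx n 1 x) - leftLim β (fx n 1 x)) := by
    intro x hx
    have a1 := (eR x hx).trans (eL x hx).symm
    have c1 := h.right.chord x
    have c2 := h.left.chord x
    have q1 := sub_pos.2 (h.right.lt1 h.sf x)
    have q2 := sub_pos.2 (h.left.lt1 h.sf x)
    have j : 0 ≤ rightLim β x - leftLim β x := sub_nonneg.2 (h.mono.leftLim_le_rightLim le_rfl)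
    have p := h.pos x
    simp only [dB] at a1
    generalize rightLim β x = a at *
    generalize leftLim β x = b at *
    generalize rightLim β (fx n 1 x) = a' at *
    generalize leftLim β (fx n 1 x) = b' at *
    generalize n (fx n 1 x) = N at *
    generalize n x = D at *
    have e1 : a' - b' = N * (a - b) / (D * (1 - a) * (1 - b)) := by
      field_simp at a1 ⊢
      linarith
    rw [e1, ← mul_div_assoc, le_div_iff₀ (by positivity)]
    have k : (D * (1 - a)) * (D * (1 - b)) ≤ N * N :=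
      mul_le_mul c1 c2 (by positivity) (le_trans (by positivity) c1)
    nlinarith [mul_le_mul_of_nonneg_right k j]
  obtain ⟨δ, δ0, hδ⟩ := h.down
  have ct : ∀ t < z, ContinuousAt β t := by
    intro t ht
    rw [h.mono.continuousAt_iff_leftLim_eq_rightLim]
    refine le_antisymm (h.mono.leftLim_le_rightLim le_rfl) ?_
    have it : ∀ k : ℕ, n t * (rightLim β t - leftLim β t) ≤
        n ((fx n 1)^[k] t) * (rightLim β ((fx n 1)^[k] t) - leftLim β ((fx n 1)^[k] t)) := by
      intro k
      induction k with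
      | zero => rfl
      | succ k ih =>
        have a : (0 : ℝ) ≤ k * δ := by positivity
        rw [iterate_succ_apply']
        exact ih.trans (up _ (by linarith [iter_le δ0 (fun s _ => hδ s) ht k]))
    have t1 := h.right.tl.comp (iter_bot δ0 (fun s _ => hδ s) ht)
    have k := ge_of_tendsto' t1 fun k => (it k).trans (mul_le_mul_of_nonneg_left
      (show _ ≤ rightLim β ((fx n 1)^[k] t) + 1 by linarith [h.left.ge1 ((fx n 1)^[k] t)])
      (h.pos _).le)
    have p := h.pos t
    nlinarith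
  refine ⟨ct, fun t ht => ?_⟩
  exact h.side nhdsWithin_le_nhds (cL.continuousAt (Iio_mem_nhds ht))
    ((ct t ht).tendsto.mono_left nhdsWithin_le_nhds)
    ((((ct _ ((h.flt t).trans ht)).comp h.fcont.continuousAt).tendsto).mono_left nhdsWithin_le_nhds)
    (h.lt1 h.sf t) (fr t ht _ nhdsWithin_le_nhds (freqR hZ t))

end NT

end Pool.Agent.P.MP_874adf_gt.Gn.Nl
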