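import Pool.Agent.P.MP_874adf_gt.Gn.NlRel

/-! The slopes of the support lines are determined by the slopes at the focal segment. -/

set_option autoImplicit false

namespace Pool.Agent.P.MP_874adf_gt.Gn.Nl

open Set Filter Topology Metric Function

/-- short intervals near `x` -/
def lx (x : ℝ) : Filter (ℝ × ℝ) := 𝓝[{p | p.1 < p.2}] (x, x)

lemma lx_lt (x : ℝ) : ∀ᶠ p in lx x, p.1 < p.2 := self_mem_nhdsWithin

lemma lx1 (x : ℝ) : Tendsto Prod.fst (lx x) (𝓝 x) :=
  (continuous_fst.tendsto (x, x)).mono_left nhdsWithin_le_nhds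

lemma lx2 (x : ℝ) : Tendsto Prod.snd (lx x) (𝓝 x) :=
  (continuous_snd.tendsto (x, x)).mono_left nhdsWithin_le_nhds

noncomputable def sq (F : ℝ → ℝ) (p : ℝ × ℝ) : ℝ := (F p.2 - F p.1) / (p.2 - p.1)

lemma sq_mul (F : ℝ → ℝ) {p : ℝ × ℝ} (h : p.1 < p.2) : F p.2 - F p.1 = sq F p * (p.2 - p.1) :=
  (div_mul_cancel₀ _ (sub_pos.2 h).ne').symm

lemma sq_lim {F : ℝ → ℝ} {F' x : ℝ} (h : HasStrictDerivAt F F' x) :
    Tendsto (sq F) (lx x) (𝓝 F') := by
  rw [Metric.tendsto_nhds]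
  intro ε ε0
  filter_upwards [nhdsWithin_le_nhds (strict_ev h (half_pos ε0)), lx_lt x] with p h1 lt
  have a := h1 lt
  have d0 := sub_pos.2 lt
  rw [sq_mul F lt, ← sub_mul, abs_mul, abs_of_pos d0] at a
  rw [Real.dist_eq]
  linarith [le_of_mul_le_mul_right a d0]

def kp (n β : ℝ → ℝ) (t0 t : ℝ) : ℝ := n t + (t0 - t) * β t

lemma NS.wex {n β : ℝ → ℝ} (h : NS n β) (t0 : ℝ) : ∃ w : ℝ × ℝ → ℝ,
    (∀ p : ℝ × ℝ, p.1 < p.2 → kp n β t0 p.2 - kp n β t0 p.1 = w p * (β p.2 - β p.1)) ∧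
      ∀ x, Tendsto w (lx x) (𝓝 (t0 - x)) := by
  have : ∀ p : ℝ × ℝ, ∃ w : ℝ, p.1 < p.2 → kp n β t0 p.2 - kp n β t0 p.1 = w * (β p.2 - β p.1) ∧
      t0 - p.2 ≤ w ∧ w ≤ t0 - p.1 := by
    intro p
    have a1 := h.sub p.1 p.2
    have a2 := h.sub p.2 p.1
    by_cases lt : p.1 < p.2
    · rcases (h.mono lt.le).eq_or_lt with e | e
      · refine ⟨t0 - p.2, fun _ => ⟨?_, le_rfl, by linarith⟩⟩
        rw [← e] at a2
        simp only [kp, ← e]
        linarith
      · have d := sub_pos.2 e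
        refine ⟨(kp n β t0 p.2 - kp n β t0 p.1) / (β p.2 - β p.1),
          fun _ => ⟨(div_mul_cancel₀ _ d.ne').symm, ?_, ?_⟩⟩
        · rw [le_div_iff₀ d]; simp only [kp]; linarith
        · rw [div_le_iff₀ d]; simp only [kp]; linarith
    · exact ⟨0, fun c => absurd c lt⟩
  choose w hw using this
  refine ⟨w, fun p lt => (hw p lt).1, fun x => ?_⟩
  exact tendsto_of_tendsto_of_tendsto_of_le_of_le' ((lx2 x).const_sub t0) ((lx1 x).const_sub t0)
    ((lx_lt x).mono fun p lt => (hw p lt).2.1) ((lx_lt x).mono fun p lt => (hw p lt).2.2)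

noncomputable def db (n β : ℝ → ℝ) (t : ℝ) : ℝ :=
  dB n (invFun (fx n 1) t) (β (invFun (fx n 1) t)) (β t)

structure ST (n β : ℝ → ℝ) (π z : ℝ) : Prop extends NT n β where
  ct : ∀ t < z, ContinuousAt β t
  rel : ∀ ζ, RelR n n π ζ
  p0 : 0 < π
  p1 : π ≤ 1

namespace ST

variable {n β : ℝ → ℝ} {π z : ℝ} (h : ST n β π z)
include h

lemma pre {t : ℝ} (ht : t < fx n 1 z) : ∃ s < z, fx n 1 s = t := by
  obtain ⟨s, rfl⟩ := h.surj (NT.lower (h.memf z) ht.le)
  exact ⟨s, h.sf.lt_iff_lt.1 ht, rfl⟩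

lemma dbf (s : ℝ) : db n β (fx n 1 s) = dB n s (β s) (β (fx n 1 s)) := by rw [db, h.gf]

lemma dn {t : ℝ} (ht : t < z) : HasDerivAt n (β t) t := (h.strict (h.ct t ht)).hasDerivAt

lemma df {t : ℝ} (ht : t < z) : HasDerivAt (fx n 1) (1 - β t) t := (h.fstrict (h.ct t ht)).hasDerivAt

lemma sb {t : ℝ} (ht : t < fx n 1 z) : HasStrictDerivAt (bq n) (db n β t) t := by
  obtain ⟨s, hs, rfl⟩ := h.pre ht
  rw [h.dbf]
  exact h.bstrict (h.ct s hs) (h.ct _ ((h.flt s).trans hs))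

lemma cdb {t : ℝ} (ht : t < fx n 1 z) : ContinuousAt (db n β) t := by
  have g := h.gcont (NT.lower (h.memf z) ht.le)
  obtain ⟨s, hs, rfl⟩ := h.pre ht
  have c1 : ContinuousAt (fun t => β (invFun (fx n 1) t)) (fx n 1 s) :=
    ContinuousAt.comp (by rw [h.gf]; exact h.ct s hs) g
  have c2 := h.ct _ ((h.flt s).trans hs)
  have c3 : ContinuousAt (fun t => n (invFun (fx n 1) t)) (fx n 1 s) := h.cont.continuousAt.comp g
  have c4 : ContinuousAt (fun t => n (fx n 1 (invFun (fx n 1) t))) (fx n 1 s) :=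
    (h.cont.comp h.fcont).continuousAt.comp g
  have p := h.pos (invFun (fx n 1) (fx n 1 s))
  have q := sub_pos.2 (h.lt1 h.sf (invFun (fx n 1) (fx n 1 s)))
  exact (c2.neg.div (continuousAt_const.mul c3) (mul_pos two_pos p).ne').add ((c4.mul c1).div
    ((continuousAt_const.mul (c3.pow 2)).mul (continuousAt_const.sub c1))
    (mul_pos (mul_pos two_pos (pow_pos p 2)) q).ne')

/-- slopes of `β` along some short intervals -/
lemma slopes {t : ℝ} (ht : t < fx n 1 z) {ε : ℝ} (ε0 : 0 < ε) : ∃ᶠ p in lx t,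
    |sq β p - 2 * (1 - π) / π * db n β t| ≤ ε := by
  obtain ⟨s, hs, rfl⟩ := h.pre ht
  have hs' := (h.flt s).trans hs
  have p := h.pos s
  have q := sub_pos.2 (h.lt1 h.sf s)
  have p0 := h.p0
  have k := (h.rel s).sl p (mem_of_superset (Iio_mem_nhds hs) fun t ht => h.dn ht)
    (mem_of_superset (Iio_mem_nhds hs') fun t ht => h.dn ht) (h.ct s hs) (h.ct _ hs')
    (Eventually.of_forall h.sub)
  rw [show (1 - π) * (β (fx n 1 s) * (n s - n s * β s) - n (fx n 1 s) * β s) =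
    -(π * n s * (n s - n s * β s) * (2 * (1 - π) / π * db n β (fx n 1 s))) by
      rw [h.dbf, dB]; field_simp; ring] at k
  have := k.slope (by rw [← mul_one_sub]; positivity) ε0
  rw [lx, frequently_nhdsWithin_iff]
  refine this.mono fun p ⟨lt, h1⟩ => ⟨?_, lt⟩
  have d0 := sub_pos.2 lt
  rw [sq_mul β lt, ← sub_mul, abs_mul, abs_of_pos d0] at h1
  exact le_of_mul_le_mul_right h1 d0

lemma recur {L L' : ℝ → ℝ} {t0 : ℝ} (t1 : t0 ≤ z) (t2 : t0 ≤ -n 0)
    (dL : ∀ t < t0, HasDerivAt L (L' t) t) (cL : ContinuousOn L' (Iio t0))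
    (e : ∀ t < t0, dB n t (β t) (β (fx n 1 t)) = L t) :
    ∃ A E, Rec t0 (kp n β t0) (fx n 1) (fun t => 1 - β t) A E := by
  have cβ : ContinuousOn β (Iio t0) := fun t ht => (h.ct t (ht.trans_le t1)).continuousWithinAt
  have cβf : ContinuousOn (fun t => β (fx n 1 t)) (Iio t0) :=
    cβ.comp h.fcont.continuousOn fun t ht => (h.flt t).trans ht
  have cn := h.cont.continuousOn (s := Iio t0)
  have cf := h.fcont.continuousOn (s := Iio t0)
  have cnf : ContinuousOn (fun t => n (fx n 1 t)) (Iio t0) := (h.cont.comp h.fcont).continuousOn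
  have q : ∀ t, 0 < 1 - β t := fun t => sub_pos.2 (h.lt1 h.sf t)
  have d1 : ∀ t < t0, HasDerivAt (fun t => n (fx n 1 t) / n t)
      ((β (fx n 1 t) * (1 - β t) * n t - n (fx n 1 t) * β t) / n t ^ 2) t := fun t ht =>
    ((h.dn (((h.flt t).trans ht).trans_le t1)).comp t (h.df (ht.trans_le t1))).div
      (h.dn (ht.trans_le t1)) (h.pos t).ne'
  have c1 : ContinuousOn
      (fun t => (β (fx n 1 t) * (1 - β t) * n t - n (fx n 1 t) * β t) / n t ^ 2) (Iio t0) :=
    (((cβf.mul (continuousOn_const.sub cβ)).mul cn).sub (cnf.mul cβ)).div (cn.pow 2)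
      fun t _ => (pow_pos (h.pos t) 2).ne'
  have d2 : ∀ t < t0, HasDerivAt (fun t => n t * L t) (β t * L t + n t * L' t) t := fun t ht =>
    (h.dn (ht.trans_le t1)).mul (dL t ht)
  have c2 : ContinuousOn (fun t => β t * L t + n t * L' t) (Iio t0) :=
    (cβ.mul (contOn_of dL)).add (cn.mul cL)
  have mκ : MonotoneOn (kp n β t0) (Iio t0) := by
    intro s _ t ht st
    have a1 := h.sub s t
    have a2 := mul_nonneg (sub_pos.2 (mem_Iio.1 ht)).le (sub_nonneg.2 (h.mono st))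
    simp only [kp]
    linarith
  have k0 : ∀ t < t0, 0 ≤ kp n β t0 t := by
    intro t ht
    have a1 := mul_le_mul_of_nonneg_left (h.ge1 t) (sub_pos.2 ht).le
    have a2 := h.glow t
    simp only [kp]
    linarith
  obtain ⟨δ, δ0, hδ⟩ := h.down
  obtain ⟨w, w1, w2⟩ := h.toNS.wex t0
  refine ⟨fun x => (t0 - fx n 1 x) * (n (fx n 1 x) / n x / ((1 - β x) * (1 - β x))) / (t0 - x),
    fun x => (t0 - fx n 1 x) * ((β (fx n 1 x) * (1 - β x) * n x - n (fx n 1 x) * β x) / n x ^ 2 *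
      (β x / (1 - β x)) - 2 * (β x * L x + n x * L' x)),
    cn.add ((continuousOn_const.sub continuousOn_id).mul cβ), mκ, ⟨0, k0⟩,
    fun t ht => h.df (ht.trans_le t1), continuousOn_const.sub cβ, h.sf.monotone,
    ⟨δ, δ0, fun t _ => hδ t⟩, ?_, ?_, ?_, ?_⟩
  · exact ((continuousOn_const.sub cf).mul ((cnf.div cn fun t _ => (h.pos t).ne').div
      ((continuousOn_const.sub cβ).mul (continuousOn_const.sub cβ))
      fun t _ => (mul_pos (q t) (q t)).ne')).div (continuousOn_const.sub continuousOn_id)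
      fun t ht => (sub_pos.2 (mem_Iio.1 ht)).ne'
  · exact (continuousOn_const.sub cf).mul ((c1.mul (cβ.div (continuousOn_const.sub cβ)
      fun t _ => (q t).ne')).sub (continuousOn_const.mul c2))
  · intro t ht
    have a1 := h.chord t
    have a2 : (t0 - t) * (1 - β t) ≤ t0 - fx n 1 t := by
      have := k0 t ht
      simp only [kp] at this
      rw [fxe]
      linarith
    have p := h.pos t
    have q1 := q t
    have d := sub_pos.2 ht
    rw [le_div_iff₀ d, one_mul, ← mul_div_assoc, le_div_iff₀ (by positivity), ← mul_div_assoc,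
      le_div_iff₀ p]
    have := mul_le_mul a2 a1 (by positivity) (le_trans (by positivity) a2)
    linarith
  · intro x hx ε ε0
    have tf : Tendsto (fun p : ℝ × ℝ => (fx n 1 p.1, fx n 1 p.2)) (lx x) (lx (fx n 1 x)) :=
      tendsto_nhdsWithin_of_tendsto_nhds_of_eventually_within _
        (((h.fcont.tendsto x).comp (lx1 x)).prodMk_nhds ((h.fcont.tendsto x).comp (lx2 x)))
        ((lx_lt x).mono fun p lt => h.sf lt)
    have tw := (w2 _).comp tf
    have b1 := (h.ct x (hx.trans_le t1)).tendsto.comp (lx1 x)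
    have b2 := (h.ct x (hx.trans_le t1)).tendsto.comp (lx2 x)
    have tU := (tw.mul (((d1 x hx).continuousAt.tendsto.comp (lx2 x)).div
      ((b1.const_sub 1).mul (b2.const_sub 1)) (mul_pos (q x) (q x)).ne')).div (w2 x)
      (sub_pos.2 hx).ne'
    have tW := tw.mul (((sq_lim (strict_of d1 c1 hx)).mul
      (b1.div (b1.const_sub 1) (q x).ne')).sub ((sq_lim (strict_of d2 c2 hx)).const_mul 2))
    refine eventually_nhdsWithin_iff.1 ?_
    filter_upwards [tU.eventually (closedBall_mem_nhds _ ε0),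
      tW.eventually (closedBall_mem_nhds _ ε0), lx_lt x, (lx1 x).eventually (Iio_mem_nhds hx),
      (lx2 x).eventually (Iio_mem_nhds hx), (w2 x).eventually (lt_mem_nhds (sub_pos.2 hx))]
      with p u1 u2 lt h1 h2 w0
    rw [Real.dist_eq] at u1 u2
    simp only [comp, Pi.div_apply] at u1 u2
    have r1 := w1 p lt
    have r2 := w1 (fx n 1 p.1, fx n 1 p.2) (h.sf lt)
    have r3 := sq_mul (fun t => n (fx n 1 t) / n t) lt
    have r4 := sq_mul (fun t => n t * L t) lt
    have e1 := e p.1 h1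
    have e2 := e p.2 h2
    have km := sub_nonneg.2 (mκ h1 h2 lt.le)
    have d0 := sub_pos.2 lt
    have f1 := mul_le_mul_of_nonneg_right u1 km
    have f2 := mul_le_mul_of_nonneg_right u2 d0.le
    rw [← abs_of_nonneg km, ← abs_mul, abs_of_nonneg km] at f1
    rw [← abs_of_pos d0, ← abs_mul, abs_of_pos d0] at f2
    have y : ∀ t < t0, β (fx n 1 t) = n (fx n 1 t) / n t * (β t / (1 - β t)) - 2 * (n t * L t) := by
      intro t ht
      have p := h.pos t
      have q1 := q t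
      rw [← e t ht, dB]
      field_simp
      ring
    have id : kp n β t0 (fx n 1 p.2) - kp n β t0 (fx n 1 p.1) =
        w (fx n 1 p.1, fx n 1 p.2) * (n (fx n 1 p.2) / n p.2 / ((1 - β p.1) * (1 - β p.2))) / w p *
          (kp n β t0 p.2 - kp n β t0 p.1) + w (fx n 1 p.1, fx n 1 p.2) *
          (sq (fun t => n (fx n 1 t) / n t) p * (β p.1 / (1 - β p.1)) -
            2 * sq (fun t => n t * L t) p) * (p.2 - p.1) := by
      have q1 := q p.1
      have q2 := q p.2
      simp only at r2 r3 r4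
      have s1 : β p.2 / (1 - β p.2) - β p.1 / (1 - β p.1) =
          (β p.2 - β p.1) / ((1 - β p.1) * (1 - β p.2)) := by
        field_simp
        ring
      have s2 : w (fx n 1 p.1, fx n 1 p.2) * (n (fx n 1 p.2) / n p.2 /
          ((1 - β p.1) * (1 - β p.2))) / w p * (w p * (β p.2 - β p.1)) =
          w (fx n 1 p.1, fx n 1 p.2) * (n (fx n 1 p.2) / n p.2 *
            ((β p.2 - β p.1) / ((1 - β p.1) * (1 - β p.2)))) := by
        field_simp
      rw [r2, r1, s2, ← s1, y p.1 h1, y p.2 h2]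
      linear_combination w (fx n 1 p.1, fx n 1 p.2) * (β p.1 / (1 - β p.1)) * r3 -
        2 * w (fx n 1 p.1, fx n 1 p.2) * r4
    rw [id]
    rw [abs_le] at f1 f2 ⊢
    constructor <;> linarith [f1.1, f1.2, f2.1, f2.2]

lemma kslopes {t0 : ℝ} (t1 : t0 ≤ fx n 1 z) {x : ℝ} (hx : x < t0) {ε : ℝ} (ε0 : 0 < ε) :
    ∃ᶠ p : ℝ × ℝ in 𝓝 (x, x), p.1 < p.2 ∧
      ((t0 - x) * (2 * (1 - π) / π * db n β x) - ε) * (p.2 - p.1) ≤ kp n β t0 p.2 - kp n β t0 p.1 ∧
      kp n β t0 p.2 - kp n β t0 p.1 ≤ ((t0 - x) * (2 * (1 - π) / π * db n β x) + ε) * (p.2 - p.1) := by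
  obtain ⟨w, w1, w2⟩ := h.toNS.wex t0
  set l := 2 * (1 - π) / π * db n β x with hl
  have c : ContinuousAt (fun u : ℝ × ℝ => u.1 * u.2) (t0 - x, l) := by fun_prop
  obtain ⟨η, η0, hη⟩ := Metric.continuousAt_iff.1 c ε ε0
  have := (h.slopes (hx.trans_le t1) (half_pos η0)).and_eventually
    ((w2 x).eventually (ball_mem_nhds _ η0))
  rw [lx, frequently_nhdsWithin_iff] at this
  refine this.mono fun p ⟨⟨h1, h2⟩, lt⟩ => ⟨lt, ?_⟩
  have lt' : p.1 < p.2 := lt
  have k := hη (x := (w p, sq β p)) (by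
    rw [Prod.dist_eq, max_lt_iff]
    exact ⟨h2, by rw [Real.dist_eq]; simp only; linarith⟩)
  rw [Real.dist_eq, abs_lt] at k
  rw [w1 p lt', sq_mul β lt', ← mul_assoc (w p)]
  have d0 := (sub_pos.2 lt').le
  exact ⟨mul_le_mul_of_nonneg_right (by linarith [k.1]) d0,
    mul_le_mul_of_nonneg_right (by linarith [k.2]) d0⟩

lemma clam {t0 : ℝ} (t1 : t0 ≤ fx n 1 z) :
    ContinuousOn (fun x => (t0 - x) * (2 * (1 - π) / π * db n β x)) (Iio t0) :=
  (continuousOn_const.sub continuousOn_id).mul (continuousOn_const.mul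
    fun _ ht => (h.cdb (ht.trans_le t1)).continuousWithinAt)

/-- removing the weight -/
lemma unw {t0 σ : ℝ} (t1 : t0 ≤ fx n 1 z) {V : ℝ → ℝ}
    (d : ∀ t < t0, HasDerivAt V ((t0 - t) * (2 * (1 - π) / π * db n β t)) t)
    (m : MonotoneOn (fun t => σ * (V t - kp n β t0 t)) (Iio t0)) {t : ℝ} (ht : t < t0) :
    0 ≤ σ * (2 * (1 - π) / π * (bq n t + 1) - (β t + 1)) := by
  obtain ⟨w, w1, w2⟩ := h.toNS.wex t0
  set c := 2 * (1 - π) / π with hc
  have mo : MonotoneOn (fun t => σ * (c * (bq n t + 1) - (β t + 1))) (Iio t0) := by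
    refine glue (θ := id) (fun t ht => ?_) continuousOn_id fun x hx ε ε0 => ?_
    · exact (continuousAt_const.mul ((continuousAt_const.mul
        ((h.sb (ht.trans_le t1)).hasDerivAt.continuousAt.add continuousAt_const)).sub
        ((h.ct t ((ht.trans_le t1).trans (h.flt z))).add continuousAt_const))).continuousWithinAt
    have d0 := sub_pos.2 hx
    have tt := (((sq_lim (strict_of d (h.clam t1) hx)).div (w2 x) d0.ne').sub
      ((sq_lim (h.sb (hx.trans_le t1))).const_mul c)).const_mul σ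
    rw [mul_div_cancel_left₀ _ d0.ne', sub_self, mul_zero] at tt
    refine eventually_nhdsWithin_iff.1 ?_
    filter_upwards [tt.eventually (ge_mem_nhds ε0), lx_lt x, (lx1 x).eventually (Iio_mem_nhds hx),
      (lx2 x).eventually (Iio_mem_nhds hx), (w2 x).eventually (lt_mem_nhds d0)]
      with p u lt h1 h2 w0
    have a1 := m h1 h2 lt.le
    have r1 := w1 p lt
    have r2 := sq_mul V lt
    have r3 := sq_mul (bq n) lt
    have d1 := sub_pos.2 lt
    simp only [Pi.div_apply, id] at u a1 ⊢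
    have a2 : w p * (σ * (β p.2 - β p.1)) ≤ w p * (σ * (sq V p / w p) * (p.2 - p.1)) := by
      rw [show w p * (σ * (sq V p / w p) * (p.2 - p.1)) = σ * (sq V p * (p.2 - p.1)) by
        field_simp, ← r2]
      have := congrArg (σ * ·) r1
      linarith
    have a3 := le_of_mul_le_mul_left a2 w0
    have a4 := mul_le_mul_of_nonneg_right u d1.le
    have a5 : σ * c * (bq n p.2 - bq n p.1) = σ * c * (sq (bq n) p * (p.2 - p.1)) := by rw [r3]
    nlinarith
  have tf : Tendsto (fx n 1) atBot atBot := tendsto_atBot_mono (fun t => (h.flt t).le) tendsto_id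
  have tt := ((h.qlim.const_mul c).sub (h.tl1.comp tf)).const_mul σ
  rw [mul_zero, sub_self, mul_zero] at tt
  refine le_of_tendsto tt ?_
  filter_upwards [eventually_le_atBot t] with s hs
  exact mo (((h.flt s).trans_le hs).trans ht) ht ((h.flt s).le.trans hs)

lemma upper {L L' : ℝ → ℝ} {t0 : ℝ} (t1 : t0 ≤ fx n 1 z) (t2 : t0 ≤ -n 0)
    (dL : ∀ t < t0, HasDerivAt L (L' t) t) (cL : ContinuousOn L' (Iio t0))
    (e : ∀ t < t0, dB n t (β t) (β (fx n 1 t)) = L t) {t : ℝ} (ht : t < t0) :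
    β t + 1 ≤ 2 * (1 - π) / π * (bq n t + 1) := by
  obtain ⟨A, E, R⟩ := h.recur (t1.trans (h.flt z).le) t2 dL cL e
  obtain ⟨V, d⟩ := prim (h.clam t1)
  have m := R.upper d fun x hx ε ε0 => (h.kslopes t1 hx ε0).mono fun p hp => ⟨hp.1, hp.2.2⟩
  have := h.unw (σ := 1) t1 d (by simpa using m) ht
  linarith

lemma exact {L L' m : ℝ → ℝ} {t0 : ℝ} (t1 : t0 ≤ fx n 1 z) (t2 : t0 ≤ -n 0)
    (dL : ∀ t < t0, HasDerivAt L (L' t) t) (cL : ContinuousOn L' (Iio t0))
    (e : ∀ t < t0, dB n t (β t) (β (fx n 1 t)) = L t) (hm : N0 m)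
    (dm : ∀ t < t0, HasDerivAt m (bq n t) t) {t : ℝ} (ht : t < t0) :
    β t + 1 = 2 * (1 - π) / π * (bq n t + 1) := by
  obtain ⟨A, E, R⟩ := h.recur (t1.trans (h.flt z).le) t2 dL cL e
  set c := 2 * (1 - π) / π with hc
  have c0 : 0 ≤ c := div_nonneg (by linarith [h.p1]) h.p0.le
  have d : ∀ t < t0, HasDerivAt (fun t => c * (m t + (t0 - t) * bq n t))
      ((t0 - t) * (c * db n β t)) t := fun t ht =>
    (((dm t ht).add (((hasDerivAt_id t).const_sub t0).mul
      (h.sb (ht.trans_le t1)).hasDerivAt)).const_mul c).congr_deriv (by simp only [id]; ring)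
  have m1 := R.upper d fun x hx ε ε0 => (h.kslopes t1 hx ε0).mono fun p hp => ⟨hp.1, hp.2.2⟩
  have k := fun s t => R.exact (s := s) (t := t) d (h.clam t1) m1 (B := c * (-m 0 - t0) - n t0)
    (fun t ht => by
      obtain ⟨s, -, rfl⟩ := h.pre (ht.trans_le t1)
      have a1 := h.sub (fx n 1 s) t0
      have a2 := mul_nonneg (sub_pos.2 ht).le (h.qpos s).le
      have a3 := hm.glow (fx n 1 s)
      have a4 : c * (-m 0 - t0) ≤ c * (m (fx n 1 s) + (t0 - fx n 1 s) * bq n (fx n 1 s)) :=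
        mul_le_mul_of_nonneg_left (by linarith) c0
      simp only [kp]
      linarith) fun x hx ε ε0 => h.kslopes t1 hx ε0
  have a1 := h.unw (σ := 1) t1 d (by simpa using m1) ht
  have a2 := h.unw (σ := -1) t1 d (fun s _ t ht st => by
    simp only
    rw [k s t st ht]) ht
  linarith

end ST

end Pool.Agent.P.MP_874adf_gt.Gn.Nl
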