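import Pool.Agent.P.MP_874adf_gt.Gn.NlNs

/-! The tangency relation in slope coordinates and its limit for thin data. -/

set_option autoImplicit false

namespace Pool.Agent.P.MP_874adf_gt.Gn.Nl

open Pool.Agent.P.MP_874adf_gt.Fs Set Filter Topology Metric Function

lemma dirlim {H : P → ℝ} (h : IsN H) {b t : ℝ} (d : HasDerivAt (ln H) b t) (w : P) :
    Tendsto (fun s : ℝ => H (s⁻¹ • (t, 1) + w) - H (s⁻¹ • (t, 1))) (𝓝[>] 0)
      (𝓝 (b * w.1 + (ln H t - t * b) * w.2)) := by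
  have d1 : HasDerivAt (fun s : ℝ => 1 + s * w.2) w.2 0 := by
    simpa using ((hasDerivAt_id (0 : ℝ)).mul_const w.2).const_add 1
  have d2 : HasDerivAt (fun s : ℝ => t + s * w.1) w.1 0 := by
    simpa using ((hasDerivAt_id (0 : ℝ)).mul_const w.1).const_add t
  have d3 := d2.div d1 (by simp)
  have d4 : HasDerivAt (ln H) b (((fun s : ℝ => t + s * w.1) / fun s : ℝ => 1 + s * w.2) 0) := by
    simpa using d
  have d5 := (d1.mul (d4.comp 0 d3)).tendsto_slope_zero_right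
  have e2 : ∀ᶠ s : ℝ in 𝓝 0, 0 < 1 + s * w.2 := d1.continuousAt.eventually (lt_mem_nhds (by simp))
  have e : b * w.1 + (ln H t - t * b) * w.2 = w.2 * (ln H ∘ ((fun s : ℝ => t + s * w.1) /
      fun s : ℝ => 1 + s * w.2)) 0 + (1 + 0 * w.2) *
      (b * ((w.1 * (1 + 0 * w.2) - (t + 0 * w.1) * w.2) / (1 + 0 * w.2) ^ 2)) := by
    simp
    ring
  rw [e]
  refine d5.congr' ?_
  filter_upwards [nhdsWithin_le_nhds e2, self_mem_nhdsWithin] with s s1 s0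
  have s0' : 0 < s := s0
  have e3 : s⁻¹ • ((t, 1) : P) + w =
      (s⁻¹ * (1 + s * w.2)) • (((t + s * w.1) / (1 + s * w.2), 1) : P) := by
    ext
    · simp only [Prod.fst_add, Prod.smul_fst, smul_eq_mul]; field_simp
    · simp only [Prod.snd_add, Prod.smul_snd, smul_eq_mul]; field_simp
  rw [e3, h.smul_nonneg (by positivity), h.smul_nonneg (by positivity)]
  simp [ln]
  ring

lemma rv_eq {H : P → ℝ} (h : IsN H) {tO tA tB r bO bA bB : ℝ} (R : Rv H (tO, 1) (tA, 1) (tB, 1) r)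
    (dO : HasDerivAt (ln H) bO tO) (dA : HasDerivAt (ln H) bA tA) (dB : HasDerivAt (ln H) bB tB) :
    bA * (ln H tO - (tO - tA) * bO) - ln H tA * bO =
      r * (bB * (ln H tO - (tO - tB) * bO) - ln H tB * bO) := by
  have key : ∀ w : P, 0 < bO * w.1 + (ln H tO - tO * bO) * w.2 →
      0 ≤ bA * w.1 + (ln H tA - tA * bA) * w.2 - r * (bB * w.1 + (ln H tB - tB * bB) * w.2) := by
    intro w hw
    obtain ⟨s, s1, s0⟩ := (((dirlim h dO (-w)).eventually (gt_mem_nhds (show _ < (0 : ℝ) by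
      simp only [Prod.fst_neg, Prod.snd_neg]; linarith))).and self_mem_nhdsWithin).exists
    have s0' : 0 < s := s0
    have k := R w s⁻¹ (inv_pos.2 s0') (by rw [sub_eq_add_neg]; linarith)
    have t1 := (dirlim h dA w).add ((dirlim h dB (-w)).const_mul r)
    have := ge_of_tendsto t1 (by
      filter_upwards [self_mem_nhdsWithin] with u u0
      have u0' : 0 < u := u0
      have := k u⁻¹ (inv_pos.2 u0') u⁻¹ (inv_pos.2 u0')
      rwa [sub_eq_add_neg (u⁻¹ • ((tB, 1) : P))] at this)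
    simp only [Prod.fst_neg, Prod.snd_neg] at this
    linarith
  have p : 0 < ln H tO := h.pos _ (by simp)
  have two : ∀ σ : ℝ, 0 ≤ σ * (bA * (ln H tO - (tO - tA) * bO) - ln H tA * bO -
      r * (bB * (ln H tO - (tO - tB) * bO) - ln H tB * bO)) := by
    intro σ
    have t1 : Tendsto (fun η : ℝ => bA * (σ * (ln H tO - tO * bO) + η * tO) +
        (ln H tA - tA * bA) * (σ * -bO + η) - r * (bB * (σ * (ln H tO - tO * bO) + η * tO) +
        (ln H tB - tB * bB) * (σ * -bO + η))) (𝓝[>] 0) (𝓝 _) :=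
      (Continuous.tendsto (by fun_prop) 0).mono_left nhdsWithin_le_nhds
    have := ge_of_tendsto t1 (by
      filter_upwards [self_mem_nhdsWithin] with η η0
      have η0' : 0 < η := η0
      exact key (σ * (ln H tO - tO * bO) + η * tO, σ * -bO + η) (by
        simp only
        nlinarith [mul_pos η0' p]))
    linarith
  linarith [two 1, two (-1)]

def RelR (m n : ℝ → ℝ) (π ζ : ℝ) : Prop :=
  ∀ ε > (0 : ℝ), ∃ tO tA tB r, Thin n π 1 ζ ε tO tA tB r ∧ ∀ bO bA bB, HasDerivAt m bO tO →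
    HasDerivAt m bA tA → HasDerivAt m bB tB →
      bA * (m tO - (tO - tA) * bO) - m tA * bO = r * (bB * (m tO - (tO - tB) * bO) - m tB * bO)

lemma relR {H : P → ℝ} (h : IsN H) {n : ℝ → ℝ} {π ζ : ℝ} (R : Rel H n π 1 ζ) :
    RelR (ln H) n π ζ := fun ε ε0 => by
  obtain ⟨tO, tA, tB, r, a, b⟩ := R ε ε0
  exact ⟨tO, tA, tB, r, a, fun _ _ _ d1 d2 d3 => rv_eq h b d1 d2 d3⟩

lemma relL {H : P → ℝ} (h : IsN H) {n : ℝ → ℝ} {π ζ : ℝ} (R : Rel H n π (-1) (-ζ)) :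
    RelR (fun t => ln H (-t)) (fun t => n (-t)) π ζ := fun ε ε0 => by
  obtain ⟨tO, tA, tB, r, ⟨a1, a2, a3, a4, a5, a6, a7⟩, b⟩ := R ε ε0
  refine ⟨-tO, -tA, -tB, r, ⟨?_, ?_, ?_, by linarith, a5, a6, ?_⟩, fun bO bA bB d1 d2 d3 => ?_⟩
  · rwa [← abs_neg, show -(-tO - ζ) = tO - -ζ by ring]
  · rwa [← abs_neg, show -(-tA - fx (fun t => n (-t)) 1 ζ) = tA - fx n (-1) (-ζ) by
      simp only [fx]; ring]
  · rwa [← abs_neg, show -(-tB - fx (fun t => n (-t)) 1 ζ) = tB - fx n (-1) (-ζ) by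
      simp only [fx]; ring]
  · have : pis (-tO) (-tA) (-tB) r = pis tO tA tB r := by
      unfold pis
      rw [← neg_div_neg_eq]
      congr 1 <;> ring
    rwa [this]
  · have k : ∀ {b t : ℝ}, HasDerivAt (fun t => ln H (-t)) b (-t) → HasDerivAt (ln H) (-b) t := by
      intro b t d
      have := d.comp t (hasDerivAt_neg t)
      simpa [comp_def] using this
    have := rv_eq h b (k d1) (k d2) (k d3)
    simp only [neg_neg]
    linarith

lemma thin_seq {n : ℝ → ℝ} {π ζ : ℝ} {Q : ℝ → ℝ → ℝ → ℝ → ℝ → Prop} (p : 0 < n ζ)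
    (h : ∀ ε > (0 : ℝ), ∃ tO tA tB r, Thin n π 1 ζ ε tO tA tB r ∧ Q ε tO tA tB r) :
    ∃ e tO tA tB r c : ℕ → ℝ, Tendsto e atTop (𝓝 0) ∧ Tendsto tO atTop (𝓝 ζ) ∧
      Tendsto tA atTop (𝓝 (fx n 1 ζ)) ∧ Tendsto tB atTop (𝓝 (fx n 1 ζ)) ∧ Tendsto r atTop (𝓝 1) ∧
      Tendsto c atTop (𝓝 π) ∧ Tendsto (fun k => tO k - tA k) atTop (𝓝 (n ζ)) ∧
      ∀ᶠ k in atTop, tB k < tA k ∧ r k < 1 ∧ Q (e k) (tO k) (tA k) (tB k) (r k) ∧
        (1 - r k) * (tO k - tA k) * c k = (tA k - tB k) * (1 - c k) := by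
  choose tO tA tB r h1 h2 using fun k : ℕ => h (1 / (k + 1 : ℝ)) Nat.one_div_pos_of_nat
  have t0 : Tendsto (fun k : ℕ => 1 / (k + 1 : ℝ)) atTop (𝓝 0) :=
    tendsto_one_div_add_atTop_nhds_zero_nat
  have sq : ∀ (u : ℕ → ℝ) (a : ℝ), (∀ k : ℕ, |u k - a| ≤ 1 / (k + 1 : ℝ)) → Tendsto u atTop (𝓝 a) :=
    fun u a hu => tendsto_iff_dist_tendsto_zero.2 (squeeze_zero (fun _ => dist_nonneg) hu t0)
  have a1 := sq tO _ fun k => (h1 k).1
  have a2 := sq tA _ fun k => (h1 k).2.1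
  have a3 : Tendsto (fun k => tO k - tA k) atTop (𝓝 (n ζ)) := by
    have := a1.sub a2
    rwa [fxe, sub_sub_cancel] at this
  refine ⟨_, tO, tA, tB, r, fun k => pis (tO k) (tA k) (tB k) (r k), t0, a1, a2,
    sq tB _ fun k => (h1 k).2.2.1, sq r _ fun k => ?_, sq _ _ fun k => (h1 k).2.2.2.2.2.2, a3, ?_⟩
  · rw [abs_le]
    constructor <;> linarith [(h1 k).2.2.2.2.1, (h1 k).2.2.2.2.2.1,
      (Nat.one_div_pos_of_nat : 0 < 1 / (k + 1 : ℝ))]
  · filter_upwards [a3.eventually (lt_mem_nhds p)] with k hk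
    have b1 : tB k < tA k := by simpa using (h1 k).2.2.2.1
    have b2 := (h1 k).2.2.2.2.2.1
    refine ⟨b1, b2, h2 k, ?_⟩
    have : 0 < tA k - tB k + (1 - r k) * (tO k - tA k) :=
      add_pos (sub_pos.2 b1) (mul_pos (sub_pos.2 b2) hk)
    unfold pis
    field_simp
    ring

/-- increments of `b` along some short intervals near `x` satisfy a linear relation -/
def Sl (b : ℝ → ℝ) (x X Y : ℝ) : Prop :=
  ∀ ε > (0 : ℝ), ∃ᶠ p : ℝ × ℝ in 𝓝 (x, x), p.1 < p.2 ∧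
    |X * (p.2 - p.1) + Y * (b p.2 - b p.1)| ≤ ε * (p.2 - p.1 + |b p.2 - b p.1|)

lemma sl_of {b : ℝ → ℝ} {x X Y : ℝ} {tA tB U V W : ℕ → ℝ} (a : Tendsto tA atTop (𝓝 x))
    (a' : Tendsto tB atTop (𝓝 x)) (u : Tendsto U atTop (𝓝 X)) (v : Tendsto V atTop (𝓝 Y))
    (w : Tendsto W atTop (𝓝 0)) (h : ∀ᶠ k in atTop, tB k < tA k ∧
      |U k * (tA k - tB k) + V k * (b (tA k) - b (tB k))| ≤
        W k * (tA k - tB k + |b (tA k) - b (tB k)|)) : Sl b x X Y := by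
  intro ε ε0
  refine (a'.prodMk_nhds a).frequently (Eventually.frequently ?_)
  filter_upwards [h, u.eventually (closedBall_mem_nhds _ (half_pos ε0)),
    v.eventually (closedBall_mem_nhds _ (half_pos ε0)), w.eventually (ge_mem_nhds (half_pos ε0))]
    with k h1 h2 h3 h4
  refine ⟨h1.1, ?_⟩
  have d0 := sub_pos.2 h1.1
  have b1 : |(U k - X) * (tA k - tB k)| ≤ ε / 2 * (tA k - tB k) := by
    rw [abs_mul, abs_of_pos d0]; exact mul_le_mul_of_nonneg_right h2 d0.le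
  have b2 : |(V k - Y) * (b (tA k) - b (tB k))| ≤ ε / 2 * |b (tA k) - b (tB k)| := by
    rw [abs_mul]; exact mul_le_mul_of_nonneg_right h3 (abs_nonneg _)
  have b3 := h1.2.trans (mul_le_mul_of_nonneg_right h4 (by positivity))
  rw [abs_le] at b1 b2 b3
  refine abs_le.2 ⟨?_, ?_⟩ <;> nlinarith [b1.1, b1.2, b2.1, b2.2, b3.1, b3.2]

lemma RelR.sl {m n b : ℝ → ℝ} {π ζ : ℝ} (R : RelR m n π ζ) (p : 0 < n ζ)
    (d1 : ∀ᶠ t in 𝓝 ζ, HasDerivAt m (b t) t) (d2 : ∀ᶠ t in 𝓝 (fx n 1 ζ), HasDerivAt m (b t) t)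
    (c1 : ContinuousAt b ζ) (c2 : ContinuousAt b (fx n 1 ζ))
    (sb : ∀ᶠ s in 𝓝 (fx n 1 ζ), ∀ t, m s + b s * (t - s) ≤ m t) :
    Sl b (fx n 1 ζ) ((1 - π) * (b (fx n 1 ζ) * (m ζ - n ζ * b ζ) - m (fx n 1 ζ) * b ζ))
      (π * n ζ * (m ζ - n ζ * b ζ)) := by
  obtain ⟨e, tO, tA, tB, r, c, -, a1, a2, a3, a4, a5, a6, ev⟩ := thin_seq (Q := fun _ tO tA tB r =>
    ∀ bO bA bB, HasDerivAt m bO tO → HasDerivAt m bA tA → HasDerivAt m bB tB →
      bA * (m tO - (tO - tA) * bO) - m tA * bO = r * (bB * (m tO - (tO - tB) * bO) - m tB * bO)) p R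
  have mO := (d1.self_of_nhds.continuousAt.tendsto).comp a1
  have mA := (d2.self_of_nhds.continuousAt.tendsto).comp a2
  have bO := c1.tendsto.comp a1
  have bA := c2.tendsto.comp a2
  have tE := mO.sub (a6.mul bO)
  have tV := ((a4.mul a5).mul a6).mul tE
  have tW := ((((a4.mul a5).mul a6).mul bO).abs).mul (a2.sub a3)
  rw [one_mul] at tV
  rw [sub_self, mul_zero] at tW
  refine sl_of a2 a3 ((a5.const_sub 1).mul ((bA.mul tE).sub (mA.mul bO))) tV tW ?_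
  filter_upwards [ev, a1.eventually d1, a2.eventually d2, a3.eventually d2, a2.eventually sb,
    a3.eventually sb] with k ⟨h1, _, h3, h4⟩ e1 e2 e3 s1 s2
  refine ⟨h1, ?_⟩
  have k1 := h3 _ _ _ e1 e2 e3
  have k2 := s1 (tB k)
  have k3 := s2 (tA k)
  simp only [comp]
  have d0 := sub_pos.2 h1
  have id : (1 - c k) * (b (tA k) * (m (tO k) - (tO k - tA k) * b (tO k)) - m (tA k) * b (tO k)) *
      (tA k - tB k) + r k * c k * (tO k - tA k) * (m (tO k) - (tO k - tA k) * b (tO k)) *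
      (b (tA k) - b (tB k)) = r k * c k * (tO k - tA k) * b (tO k) *
        (m (tA k) - m (tB k) - b (tB k) * (tA k - tB k)) := by
    linear_combination (-(b (tA k) * (m (tO k) - (tO k - tA k) * b (tO k)) -
      m (tA k) * b (tO k))) * h4 + (tO k - tA k) * c k * k1
  rw [id, abs_mul, mul_assoc _ (tA k - tB k)]
  refine mul_le_mul_of_nonneg_left ?_ (abs_nonneg _)
  rw [abs_of_nonneg (by linarith)]
  nlinarith [mul_le_mul_of_nonneg_left (le_abs_self (b (tA k) - b (tB k))) d0.le, mul_pos d0 d0]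

lemma flat_sl {n b : ℝ → ℝ} {π ζ : ℝ} (p : 0 < n ζ) (c1 : ContinuousAt b ζ)
    (c2 : ContinuousAt b (fx n 1 ζ)) (R : ∀ ε > (0 : ℝ), ∃ tO tA tB r,
      Thin n π 1 ζ ε tO tA tB r ∧ |b tA - b tO + r / (1 - r) * (b tA - b tB)| ≤ ε) :
    Sl b (fx n 1 ζ) ((1 - π) * (b (fx n 1 ζ) - b ζ)) (π * n ζ) := by
  obtain ⟨e, tO, tA, tB, r, c, a0, a1, a2, a3, a4, a5, a6, ev⟩ := thin_seq
    (Q := fun ε tO tA tB r => |b tA - b tO + r / (1 - r) * (b tA - b tB)| ≤ ε) p R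
  have tV := (a4.mul a5).mul a6
  have tW := (a5.const_sub 1).abs.mul a0
  rw [one_mul] at tV
  rw [mul_zero] at tW
  refine sl_of a2 a3 ((a5.const_sub 1).mul ((c2.tendsto.comp a2).sub (c1.tendsto.comp a1))) tV tW ?_
  filter_upwards [ev] with k ⟨h1, h2, h3, h4⟩
  refine ⟨h1, ?_⟩
  have d0 := sub_pos.2 h1
  have r0 := sub_pos.2 h2
  have id : (1 - c k) * (b (tA k) - b (tO k)) * (tA k - tB k) +
      r k * c k * (tO k - tA k) * (b (tA k) - b (tB k)) = (1 - c k) *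
      ((b (tA k) - b (tO k) + r k / (1 - r k) * (b (tA k) - b (tB k))) * (tA k - tB k)) := by
    field_simp
    linear_combination r k * (b (tA k) - b (tB k)) * h4
  simp only [comp]
  rw [id, abs_mul, abs_mul, abs_of_pos d0, mul_assoc]
  refine mul_le_mul_of_nonneg_left ?_ (abs_nonneg _)
  exact mul_le_mul h3 (le_add_of_nonneg_right (abs_nonneg _)) d0.le ((abs_nonneg _).trans h3)

lemma Sl.eq {b : ℝ → ℝ} {x X Y b' : ℝ} (h : Sl b x X Y) (d : HasStrictDerivAt b b' x) :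
    X + Y * b' = 0 := by
  rw [← abs_nonpos_iff]
  refine le_of_forall_pos_le_add fun ε ε0 => ?_
  obtain ⟨η, η0, η1, η2⟩ : ∃ η > (0 : ℝ), η ≤ 1 ∧ η * (|Y| + |b'| + 2) ≤ ε := by
    have p : 0 < |Y| + |b'| + 2 := by positivity
    refine ⟨min 1 (ε / (|Y| + |b'| + 2)), lt_min one_pos (div_pos ε0 p), min_le_left _ _, ?_⟩
    exact (le_div_iff₀ p).1 (min_le_right _ _)
  obtain ⟨p, ⟨lt, h1⟩, h2⟩ := ((h η η0).and_eventually (strict_ev d η0)).exists
  have h3 := h2 lt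
  have d0 := sub_pos.2 lt
  generalize p.2 - p.1 = Δ at *
  generalize b p.2 - b p.1 = δ at *
  have a1 : |δ| ≤ (|b'| + 1) * Δ := by
    have := abs_add_le (δ - b' * Δ) (b' * Δ)
    rw [sub_add_cancel, abs_mul, abs_of_pos d0] at this
    nlinarith
  have a2 : |Y * (δ - b' * Δ)| ≤ |Y| * (η * Δ) := by
    rw [abs_mul]; exact mul_le_mul_of_nonneg_left h3 (abs_nonneg _)
  have a3 : |X + Y * b'| * Δ ≤ |X * Δ + Y * δ| + |Y * (δ - b' * Δ)| := by
    rw [← abs_of_pos d0, ← abs_mul, abs_of_pos d0,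
      show (X + Y * b') * Δ = X * Δ + Y * δ - Y * (δ - b' * Δ) by ring]
    exact abs_sub _ _
  have a4 : |X + Y * b'| * Δ ≤ (0 + ε) * Δ := by
    nlinarith [mul_le_mul_of_nonneg_left a1 η0.le, mul_le_mul_of_nonneg_right η2 d0.le]
  exact le_of_mul_le_mul_right a4 d0

lemma Sl.slope {b : ℝ → ℝ} {x l Y : ℝ} (h : Sl b x (-(Y * l)) Y) (Y0 : 0 < Y) {ε : ℝ}
    (ε0 : 0 < ε) : ∃ᶠ p : ℝ × ℝ in 𝓝 (x, x), p.1 < p.2 ∧
      |b p.2 - b p.1 - l * (p.2 - p.1)| ≤ ε * (p.2 - p.1) := by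
  obtain ⟨η, η0, η1, η2⟩ : ∃ η > (0 : ℝ), η ≤ Y / 2 ∧ η * (1 + |l|) ≤ Y / 2 * ε := by
    have p : 0 < 1 + |l| := by positivity
    refine ⟨min (Y / 2) (Y / 2 * ε / (1 + |l|)), lt_min (by linarith) (by positivity),
      min_le_left _ _, ?_⟩
    exact (le_div_iff₀ p).1 (min_le_right _ _)
  refine (h η η0).mono fun p ⟨lt, h1⟩ => ⟨lt, ?_⟩
  have d0 := sub_pos.2 lt
  generalize p.2 - p.1 = Δ at *
  generalize b p.2 - b p.1 = δ at *
  rw [show -(Y * l) * Δ + Y * δ = Y * (δ - l * Δ) by ring, abs_mul, abs_of_pos Y0] at h1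
  have a1 : |δ| ≤ |δ - l * Δ| + |l| * Δ := by
    have := abs_add_le (δ - l * Δ) (l * Δ)
    rwa [sub_add_cancel, abs_mul, abs_of_pos d0] at this
  have a2 : Y / 2 * |δ - l * Δ| ≤ Y / 2 * (ε * Δ) := by
    nlinarith [mul_le_mul_of_nonneg_left a1 η0.le, mul_le_mul_of_nonneg_right η2 d0.le,
      mul_le_mul_of_nonneg_right η1 (abs_nonneg (δ - l * Δ))]
  exact le_of_mul_le_mul_left a2 (by linarith)

end Pool.Agent.P.MP_874adf_gt.Gn.Nl
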