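import Pool.Agent.P.MP_874adf_gt.Gn.RgStep

/-! Crofton formulas for differences of distance functions and for defects. -/

set_option autoImplicit false

namespace Pool.Agent.P.MP_874adf_gt.Gn

open Pool.Agent.P.MP_874adf_gt.Fs Set Filter Topology Metric MeasureTheory

namespace Rg0

lemma meas_lt (w : P) : MeasurableSet {l : ℝ × ℝ | l.1 < pr l.2 w} :=
  measurableSet_lt measurable_fst (by unfold pr; fun_prop)

lemma mem_sp {y z : P} {l : ℝ × ℝ} : l ∈ sp y z ↔ ¬ (l.1 < pr l.2 y ↔ l.1 < pr l.2 z) := Iff.rfl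

lemma sp_meas (y z : P) : MeasurableSet (sp y z) := by
  have : sp y z = symmDiff {l : ℝ × ℝ | l.1 < pr l.2 y} {l : ℝ × ℝ | l.1 < pr l.2 z} := by
    ext l
    simp only [mem_sp, mem_ofPred_eq, mem_symmDiff]
    tauto
  rw [this]
  exact (meas_lt y).symmDiff (meas_lt z)

lemma sp_comm (y z : P) : sp y z = sp z y := by
  ext l
  simp only [mem_sp]
  tauto

lemma sp_tri (x y z : P) : sp x z ⊆ sp x y ∪ sp y z := by
  intro l
  simp only [mem_sp, mem_union]
  tauto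

lemma ind_meas (y : P) : Measurable fun l : ℝ × ℝ => ind l y :=
  Measurable.ite (meas_lt y) measurable_const measurable_const

lemma ind_cases (l : ℝ × ℝ) (y : P) : ind l y = 0 ∨ ind l y = 1 := by
  unfold ind
  split_ifs <;> simp

lemma abs_ind_sub (l : ℝ × ℝ) (y z : P) : |ind l z - ind l y| ≤ 1 := by
  rcases ind_cases l y with a | a <;> rcases ind_cases l z with b | b <;> simp [a, b]

/-- bounded measurable functions are integrable -/
lemma integ (μ : Measure (ℝ × ℝ)) [IsFiniteMeasure μ] {f : ℝ × ℝ → ℝ} (hf : Measurable f) {C : ℝ}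
    (hC : ∀ l, |f l| ≤ C) : Integrable f μ :=
  (integrable_const C).mono' hf.aestronglyMeasurable (Eventually.of_forall fun l => hC l)

lemma integ_mul (μ : Measure (ℝ × ℝ)) [IsFiniteMeasure μ] (y z X Y : P) :
    Integrable (fun l => (ind l z - ind l y) * (ind l X - ind l Y)) μ := by
  refine integ μ (((ind_meas z).sub (ind_meas y)).mul ((ind_meas X).sub (ind_meas Y))) (C := 1)
    fun l => ?_
  rw [abs_mul]
  exact mul_le_one₀ (abs_ind_sub _ _ _) (abs_nonneg _) (abs_ind_sub _ _ _)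

lemma integ_E (μ : Measure (ℝ × ℝ)) [IsFiniteMeasure μ] (y z X : P) :
    Integrable (fun l => (ind l z - ind l y) * (1 - 2 * ind l X)) μ := by
  refine integ μ (((ind_meas z).sub (ind_meas y)).mul (measurable_const.sub
    (measurable_const.mul (ind_meas X)))) (C := 1) fun l => ?_
  rw [abs_mul]
  refine mul_le_one₀ (abs_ind_sub _ _ _) (abs_nonneg _) ?_
  rcases ind_cases l X with a | a <;> norm_num [a]

lemma real_sp (μ : Measure (ℝ × ℝ)) (y z : P) :
    μ.real (sp y z) = ∫ l, |ind l z - ind l y| ∂μ := by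
  rw [← integral_indicator_one (sp_meas y z)]
  refine integral_congr_ae (Eventually.of_forall fun l => ?_)
  by_cases a : l.1 < pr l.2 y <;> by_cases b : l.1 < pr l.2 z <;>
    simp [indicator, mem_sp, ind, a, b]

lemma real_inter (μ : Measure (ℝ × ℝ)) (y z X Y : P) :
    μ.real (sp y z ∩ sp Y X) = ∫ l, |(ind l z - ind l y) * (ind l X - ind l Y)| ∂μ := by
  rw [← integral_indicator_one ((sp_meas y z).inter (sp_meas Y X))]
  refine integral_congr_ae (Eventually.of_forall fun l => ?_)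
  by_cases a : l.1 < pr l.2 y <;> by_cases b : l.1 < pr l.2 z <;>
    by_cases c : l.1 < pr l.2 X <;> by_cases e : l.1 < pr l.2 Y <;>
    simp [indicator, mem_sp, ind, a, b, c, e]

lemma abs_int_le (μ : Measure (ℝ × ℝ)) (y z X Y : P) :
    |∫ l, (ind l z - ind l y) * (ind l X - ind l Y) ∂μ| ≤ μ.real (sp y z ∩ sp Y X) := by
  rw [real_inter]
  exact abs_integral_le_integral_abs

variable {d : P → P → ℝ} {x : P} {ρ : ℝ} {μ : Measure (ℝ × ℝ)} {Ψ : ℝ → ℝ}

/-- the formula (E) -/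
theorem eform (c : Crof d x ρ μ Ψ) {X y z : P} (hX : X ∈ ball x ρ) (hy : y ∈ ball x ρ)
    (hz : z ∈ ball x ρ) : d X z - d X y = ∫ l, (ind l z - ind l y) * (1 - 2 * ind l X) ∂μ +
      (|Ψ z.2 - Ψ X.2| - |Ψ y.2 - Ψ X.2|) := by
  have := c.fin
  have i : ∀ w : P, Integrable (fun l => |ind l w - ind l X|) μ := fun w =>
    integ μ ((ind_meas w).sub (ind_meas X)).abs (C := 1) fun l => by
      rw [abs_abs]; exact abs_ind_sub _ _ _
  have e : ∫ l, (ind l z - ind l y) * (1 - 2 * ind l X) ∂μ =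
      ∫ l, |ind l z - ind l X| ∂μ - ∫ l, |ind l y - ind l X| ∂μ := by
    rw [← integral_sub (i z) (i y)]
    refine integral_congr_ae (Eventually.of_forall fun l => ?_)
    rcases ind_cases l y with a | a <;> rcases ind_cases l z with b | b <;>
      rcases ind_cases l X with e | e <;> norm_num [a, b, e]
  rw [c.eq X hX z hz, c.eq X hX y hy, real_sp, real_sp, e]
  ring

lemma psi_side (hΨ : Monotone Ψ) {σ a b : ℝ} (hσ : Sg σ) (h : 0 ≤ σ * (b - a)) :
    |Ψ b - Ψ a| = σ * (Ψ b - Ψ a) := by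
  rcases hσ with rfl | rfl
  · rw [abs_of_nonneg (sub_nonneg.2 (hΨ (by linarith))), one_mul]
  · rw [abs_of_nonpos (sub_nonpos.2 (hΨ (by linarith)))]; ring

/-- the formula (E) for a point below or above -/
theorem eside (c : Crof d x ρ μ Ψ) {X y z : P} (hX : X ∈ ball x ρ) (hy : y ∈ ball x ρ)
    (hz : z ∈ ball x ρ) {σ : ℝ} (hσ : Sg σ) (h1 : 0 ≤ σ * (y.2 - X.2))
    (h2 : 0 ≤ σ * (z.2 - X.2)) : d X z - d X y =
      ∫ l, (ind l z - ind l y) * (1 - 2 * ind l X) ∂μ + σ * (Ψ z.2 - Ψ y.2) := by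
  rw [eform c hX hy hz, psi_side c.mono hσ h1, psi_side c.mono hσ h2]
  ring

/-- difference of two distance functions with base points on the same side -/
theorem ediff (c : Crof d x ρ μ Ψ) {X Y y z : P} (hX : X ∈ ball x ρ) (hY : Y ∈ ball x ρ)
    (hy : y ∈ ball x ρ) (hz : z ∈ ball x ρ) {σ : ℝ} (hσ : Sg σ) (h1 : 0 ≤ σ * (y.2 - X.2))
    (h2 : 0 ≤ σ * (z.2 - X.2)) (h3 : 0 ≤ σ * (y.2 - Y.2)) (h4 : 0 ≤ σ * (z.2 - Y.2)) :
    (d X z - d X y) - (d Y z - d Y y) =
      -2 * ∫ l, (ind l z - ind l y) * (ind l X - ind l Y) ∂μ := by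
  have := c.fin
  rw [eside c hX hy hz hσ h1 h2, eside c hY hy hz hσ h3 h4, add_sub_add_right_eq_sub,
    ← integral_sub (integ_E μ y z X) (integ_E μ y z Y), ← integral_const_mul]
  refine integral_congr_ae (Eventually.of_forall fun l => ?_)
  ring

lemma memA {D : Dat} (hO : dO D ∈ ball x ρ) (hB : dB D ∈ ball x ρ) (l0 : 0 ≤ dl D)
    (l1 : dl D ≤ 1) : dA D ∈ ball x ρ := (convex_ball x ρ).add_smul_sub_mem hO hB ⟨l0, l1⟩

/-- the increment of `hf` -/
theorem hform (c : Crof d x ρ μ Ψ) {D : Dat} {y z : P} (hO : dO D ∈ ball x ρ)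
    (hA : dA D ∈ ball x ρ) (hB : dB D ∈ ball x ρ) (hy : y ∈ ball x ρ) (hz : z ∈ ball x ρ)
    (r1 : dr D < 1) {σ : ℝ} (hσ : Sg σ)
    (yO : 0 ≤ σ * (y.2 - (dO D).2)) (zO : 0 ≤ σ * (z.2 - (dO D).2))
    (yA : 0 ≤ σ * (y.2 - (dA D).2)) (zA : 0 ≤ σ * (z.2 - (dA D).2))
    (yB : 0 ≤ σ * (y.2 - (dB D).2)) (zB : 0 ≤ σ * (z.2 - (dB D).2)) :
    hf d D z - hf d D y = -2 * ∫ l, (ind l z - ind l y) * (ind l (dA D) - ind l (dO D)) ∂μ -
      2 * (dr D / (1 - dr D)) * ∫ l, (ind l z - ind l y) * (ind l (dA D) - ind l (dB D)) ∂μ := by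
  have a := ediff c hA hO hy hz hσ yA zA yO zO
  have b := ediff c hA hB hy hz hσ yA zA yB zB
  have r : 1 - dr D ≠ 0 := by linarith
  have e : hf d D z - hf d D y = ((d (dA D) z - d (dA D) y) - (d (dO D) z - d (dO D) y)) +
      dr D / (1 - dr D) * ((d (dA D) z - d (dA D) y) - (d (dB D) z - d (dB D) y)) := by
    simp only [hf, Vf]
    field_simp
    ring
  rw [e, a, b]
  ring

lemma real_defect (μ : Measure (ℝ × ℝ)) [IsFiniteMeasure μ] (X y z : P) :
    μ.real (sp X y) + μ.real (sp y z) - μ.real (sp X z) = 2 * μ.real (sp y X ∩ sp y z) := by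
  have a := measureReal_inter_add_sdiff (μ := μ) (s := sp X y) (sp_meas y z)
  have b := measureReal_inter_add_sdiff (μ := μ) (s := sp y z) (sp_meas X y)
  have e : sp X z = (sp X y \ sp y z) ∪ (sp y z \ sp X y) := by
    ext l
    simp only [mem_sp, mem_union, Set.mem_sdiff]
    tauto
  have c : μ.real (sp X z) = μ.real (sp X y \ sp y z) + μ.real (sp y z \ sp X y) := by
    rw [e]
    exact measureReal_union disjoint_sdiff_sdiff ((sp_meas _ _).diff (sp_meas _ _))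
  rw [inter_comm] at b
  rw [sp_comm y X]
  linarith

/-- the formula (DEF) -/
theorem defect (c : Crof d x ρ μ Ψ) {X y z : P} (hX : X ∈ ball x ρ) (hy : y ∈ ball x ρ)
    (hz : z ∈ ball x ρ) : d X y + d y z - d X z = 2 * μ.real (sp y X ∩ sp y z) +
      (|Ψ y.2 - Ψ X.2| + |Ψ z.2 - Ψ y.2| - |Ψ z.2 - Ψ X.2|) := by
  have := c.fin
  rw [c.eq X hX y hy, c.eq y hy z hz, c.eq X hX z hz, ← real_defect]
  ring

/-- the formula (DEF) if the middle point has middle height -/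
theorem defect0 (c : Crof d x ρ μ Ψ) {X y z : P} (hX : X ∈ ball x ρ) (hy : y ∈ ball x ρ)
    (hz : z ∈ ball x ρ) {σ : ℝ} (hσ : Sg σ) (h1 : 0 ≤ σ * (y.2 - X.2))
    (h2 : 0 ≤ σ * (z.2 - y.2)) : d X y + d y z - d X z = 2 * μ.real (sp y X ∩ sp y z) := by
  rw [defect c hX hy hz, psi_side c.mono hσ h1, psi_side c.mono hσ h2,
    psi_side c.mono hσ (show 0 ≤ σ * (z.2 - X.2) by linarith)]
  ring

lemma pr_ray (θ α : ℝ) (y X : P) : pr θ (y + α • (y - X)) = pr θ y + α * (pr θ y - pr θ X) := by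
  simp only [pr, Prod.fst_add, Prod.snd_add, Prod.smul_fst, Prod.smul_snd, Prod.fst_sub,
    Prod.snd_sub, smul_eq_mul]
  ring

/-- (SIDE) -/
lemma side {l : ℝ × ℝ} {y X : P} {α : ℝ} (α0 : 0 ≤ α) (h : l ∈ sp y (y + α • (y - X))) :
    l.1 < pr l.2 X ↔ l.1 < pr l.2 y := by
  rw [mem_sp, pr_ray] at h
  by_cases a : l.1 < pr l.2 y
  · have b : pr l.2 y + α * (pr l.2 y - pr l.2 X) ≤ l.1 := not_lt.1 fun b => h (iff_of_true a b)
    refine iff_of_true ?_ a
    by_contra e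
    nlinarith [not_lt.1 e]
  · have b : l.1 < pr l.2 y + α * (pr l.2 y - pr l.2 X) := by
      by_contra b
      exact h (iff_of_false a b)
    refine iff_of_false (fun e => ?_) a
    nlinarith [not_lt.1 a]

/-- (HS) -/
theorem hs (hMON : S_MON) {M : Set P} (pm : PM M d) (sub : ball x ρ ⊆ M) (c : Crof d x ρ μ Ψ)
    {D : Dat} {y : P} {α : ℝ} (α0 : 0 ≤ α) (ci : Circ M d D (d (dO D) y))
    (hO : dO D ∈ ball x ρ) (hB : dB D ∈ ball x ρ) (hy : y ∈ ball x ρ)
    (hz : y + α • (y - dO D) ∈ ball x ρ) {σ : ℝ} (hσ : Sg σ)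
    (yO : 0 ≤ σ * (y.2 - (dO D).2)) (yA : 0 ≤ σ * (y.2 - (dA D).2))
    (yB : 0 ≤ σ * (y.2 - (dB D).2)) :
    μ.real (sp y (y + α • (y - dO D)) ∩ sp (dO D) (dA D)) ≤
      dr D / (1 - dr D) * μ.real (sp y (y + α • (y - dO D)) ∩ sp (dA D) (dB D)) := by
  have := c.fin
  set z := y + α • (y - dO D) with zdef
  have hA := memA hO hB ci.l0.le ci.l1.le
  have yz : 0 ≤ σ * (z.2 - y.2) := by
    have : z.2 - y.2 = α * (y.2 - (dO D).2) := by simp [zdef]
    rw [this, mul_left_comm]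
    exact mul_nonneg α0 yO
  have add : d (dO D) y + d y z = d (dO D) z := by
    have m0 : y + (-1 : ℝ) • (y - dO D) = dO D := by module
    have m1 : y + (0 : ℝ) • (y - dO D) = y := by module
    have := pm.line_add (x := y) (v := y - dO D) (r := -1) (s := 0) (t := α)
      (by rw [m0]; exact sub hO) (sub hz) (by norm_num) α0
    rwa [m0, m1] at this
  have n0 := pm.nonneg (sub hy) (sub hz)
  have mon := (hMON M d D _ pm ci z (sub hz)).1 (by linarith)
  have r1 : 0 < 1 - dr D := sub_pos.2 ci.r1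
  rw [Vf, le_div_iff₀ r1] at mon
  have on := ci.on y (sub hy) rfl
  have dfA := defect0 c hA hy hz hσ yA yz
  have dfB := defect0 c hB hy hz hσ yB yz
  have eA : sp y (dA D) ∩ sp y z = sp y z ∩ sp (dO D) (dA D) := by
    ext l
    simp only [mem_inter_iff]
    refine ⟨fun h => ⟨h.2, ?_⟩, fun h => ⟨?_, h.1⟩⟩
    · rw [mem_sp, side α0 h.2]; exact h.1
    · have := h.2
      rwa [mem_sp, side α0 h.1] at this
  have eB : μ.real (sp y (dB D) ∩ sp y z) ≤
      μ.real (sp y z ∩ sp (dO D) (dA D)) + μ.real (sp y z ∩ sp (dA D) (dB D)) := by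
    refine (measureReal_mono ?_ (measure_ne_top _ _)).trans (measureReal_union_le _ _)
    rintro l ⟨h1, h2⟩
    have : l ∈ sp (dO D) (dB D) := by rw [mem_sp, side α0 h2]; exact h1
    rcases sp_tri _ (dA D) _ this with h | h
    · exact Or.inl ⟨h2, h⟩
    · exact Or.inr ⟨h2, h⟩
  rw [eA] at dfA
  rw [div_mul_eq_mul_div, le_div_iff₀ r1]
  nlinarith [mul_le_mul_of_nonneg_left eB ci.r0.le]

lemma pr_sub (θ : ℝ) {y X : P} (h : y.2 ≠ X.2) :
    pr θ X - pr θ y = (y.2 - X.2) * (θ - sl y X) := by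
  have : y.2 - X.2 ≠ 0 := sub_ne_zero.2 h
  simp only [pr, sl]
  field_simp
  ring

end Rg0

end Pool.Agent.P.MP_874adf_gt.Gn
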