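import Pool.Agent.P.MP_874adf_gt.Gn.Iface0

/-! Comparison steps between windows of slopes, and which slopes are reached. -/

set_option autoImplicit false

namespace Pool.Agent.P.MP_874adf_gt.Gn

open Pool.Agent.P.MP_874adf_gt.Fs Set Filter Topology Metric MeasureTheory

/-- the mass of a window around `θ` is controlled by every window around `θ'` -/
def Stp (μ : Measure (ℝ × ℝ)) (θ θ' : ℝ) : Prop :=
  ∃ L ≥ (1 : ℝ), ∃ e0 > (0 : ℝ), ∀ e > (0 : ℝ), ∃ K > (0 : ℝ), ∃ ρ > (0 : ℝ),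
    ∀ x ∈ ball (0 : P) ρ, ∀ s, 0 < s → s < ρ →
      mw μ (Icc (θ - e0) (θ + e0)) x s ≤ K * mw μ (Icc (θ' - e) (θ' + e)) x (L * s)

/-- the one step statement -/
def OneStp (μ : Measure (ℝ × ℝ)) (n : ℝ → ℝ) : Prop :=
  ∀ σ, Sg σ → ∀ z ∈ Act n, ∀ θ, σ * fx n σ z < σ * θ → σ * θ < σ * z → Stp μ θ (fx n σ z)

namespace Rgs

lemma mw_nonneg (μ : Measure (ℝ × ℝ)) (J : Set ℝ) (x : P) (s : ℝ) : 0 ≤ mw μ J x s :=
  measureReal_nonneg

lemma mw_le (μ : Measure (ℝ × ℝ)) [IsFiniteMeasure μ] {J J' : Set ℝ} {x y : P} {s s' : ℝ}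
    (hJ : J ⊆ J') (h : ∀ t ∈ J, s + |pr t y - pr t x| ≤ s') : mw μ J x s ≤ mw μ J' y s' := by
  refine measureReal_mono ?_ (measure_ne_top _ _)
  rintro l ⟨h1, h2⟩
  refine ⟨hJ h1, ?_⟩
  have h3 := h _ h1
  have h4 : l.1 - pr l.2 y = (l.1 - pr l.2 x) - (pr l.2 y - pr l.2 x) := by ring
  rw [h4]
  exact (abs_sub _ _).trans (by linarith)

lemma mw_mono (μ : Measure (ℝ × ℝ)) [IsFiniteMeasure μ] {J J' : Set ℝ} (x : P) {s s' : ℝ}
    (hJ : J ⊆ J') (h : s ≤ s') : mw μ J x s ≤ mw μ J' x s' :=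
  mw_le μ hJ fun t _ => by simpa using h

lemma pr_cont : Continuous fun p : ℝ × P => pr p.1 p.2 := by
  unfold pr; fun_prop

lemma mw_meas {J : Set ℝ} (hJ : MeasurableSet J) (x : P) (s : ℝ) :
    MeasurableSet {l : ℝ × ℝ | l.2 ∈ J ∧ |l.1 - pr l.2 x| ≤ s} := by
  have m : Measurable fun l : ℝ × ℝ => |l.1 - pr l.2 x| := by
    unfold pr
    fun_prop
  exact (measurable_snd hJ).inter (measurableSet_le m measurable_const)

lemma trans {μ : Measure (ℝ × ℝ)} {a b c : ℝ} (h1 : Stp μ a b) (h2 : Stp μ b c) :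
    Stp μ a c := by
  obtain ⟨L, hL, e0, he0, h1⟩ := h1
  obtain ⟨L', hL', e1, he1, h2⟩ := h2
  refine ⟨L' * L, one_le_mul_of_one_le_of_one_le hL' hL, e0, he0, fun e he => ?_⟩
  obtain ⟨K, hK, ρ, hρ, h1⟩ := h1 e1 he1
  obtain ⟨K', hK', ρ', hρ', h2⟩ := h2 e he
  have L0 : 0 < L := by linarith
  refine ⟨K * K', by positivity, min ρ (ρ' / L), by positivity, fun x hx s s0 hs => ?_⟩
  have r1 : ρ' / L ≤ ρ' := div_le_self hρ'.le hL
  have a1 := h1 x (ball_subset_ball (min_le_left _ _) hx) s s0 (hs.trans_le (min_le_left _ _))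
  have hs' : L * s < ρ' := by
    have := hs.trans_le (min_le_right _ _)
    rwa [lt_div_iff₀ L0, mul_comm] at this
  have a2 := h2 x (ball_subset_ball ((min_le_right _ _).trans r1) hx) (L * s) (by positivity) hs'
  rw [mul_assoc, mul_assoc]
  exact a1.trans (mul_le_mul_of_nonneg_left a2 hK.le)

section Slopes

variable {G : P → ℝ}

lemma hor (h : IsN G) (h1 : G (1, 0) = 1) (t : ℝ) : G (t, 0) = |t| := by
  have := h.smul t (1, 0)
  simpa [h1] using this

lemma lip (h : IsN G) (h1 : G (1, 0) = 1) (s t : ℝ) : ln G t - ln G s ≤ |t - s| := by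
  have := h.sub_le (t, 1) (s, 1)
  rw [← hor h h1]
  simpa [ln] using this

lemma sum_ge (h : IsN G) (h1 : G (1, 0) = 1) (s t : ℝ) : s - t ≤ ln G s + ln G t := by
  have a := h.add (s, 1) (-(t, 1))
  rw [h.neg] at a
  have b : ((s, 1) : P) + -(t, 1) = (s - t, 0) := by ext <;> simp [sub_eq_add_neg]
  rw [b, hor h h1] at a
  exact (le_abs_self _).trans a

lemma low (h : IsN G) : ∃ c > (0 : ℝ), ∀ t, c ≤ ln G t := by
  obtain ⟨K, hK, hl⟩ := h.lower
  refine ⟨1 / K, by positivity, fun t => ?_⟩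
  have a := hl (t, 1)
  have b : (1 : ℝ) ≤ ‖((t, 1) : P)‖ := by simp
  rw [div_le_iff₀ hK, mul_comm]
  exact b.trans a

lemma fcont (h : IsN G) : Continuous (fx (ln G) 1) := by
  have := h.cont
  unfold fx ln
  fun_prop

lemma fmono (h : IsN G) (h1 : G (1, 0) = 1) : Monotone (fx (ln G) 1) := by
  intro s t st
  have := lip h h1 s t
  rw [abs_of_nonneg (by linarith)] at this
  simp only [fx]
  linarith

lemma fstrict (h : IsN G) (h1 : G (1, 0) = 1) {S : Set ℝ} (hs : StrictConvexOn ℝ S (ln G))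
    {a b : ℝ} (ha : a ∈ S) (hb : b ∈ S) (ab : a < b) : fx (ln G) 1 a < fx (ln G) 1 b := by
  have c := hs.2 ha hb ab.ne (show (0 : ℝ) < 1 / 2 by norm_num) (show (0 : ℝ) < 1 / 2 by norm_num)
    (by norm_num)
  have m := fmono h h1 (show (1 / 2 : ℝ) • a + (1 / 2 : ℝ) • b ≤ b by
    simp only [smul_eq_mul]; linarith)
  simp only [fx, smul_eq_mul] at *
  linarith

lemma mem_left {n : ℝ → ℝ} {t : ℝ} : t ∈ Lf n 1 ↔ ∃ z, t < fx n 1 z := by simp [Lf]

lemma mem_right {n : ℝ → ℝ} {t : ℝ} : t ∈ Lf n (-1) ↔ ∃ z, fx n (-1) z < t := by simp [Lf]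

lemma left_down {n : ℝ → ℝ} {s t : ℝ} (ht : t ∈ Lf n 1) (st : s ≤ t) : s ∈ Lf n 1 := by
  obtain ⟨z, hz⟩ := mem_left.1 ht
  exact mem_left.2 ⟨z, st.trans_lt hz⟩

end Slopes

/-- one step to the left inside the left part -/
lemma down {μ : Measure (ℝ × ℝ)} {G : P → ℝ} (h : IsN G) (h1 : G (1, 0) = 1)
    (one : OneStp μ (ln G)) {w t : ℝ} (a : fx (ln G) 1 w < t) (b : t < w) (ht : Neg (ln G) t) :
    Stp μ w t := by
  obtain ⟨z, hz, tz⟩ := ht
  have wz : w < z := by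
    by_contra c
    have := fmono h h1 (not_lt.1 c)
    linarith
  obtain ⟨y, hy, e⟩ := intermediate_value_Ioo wz.le (fcont h).continuousOn ⟨a, tz⟩
  have := one 1 (Or.inl rfl) y (Or.inl (left_down hz hy.2.le)) w (by rw [e]; simpa using b)
    (by simpa using hy.1)
  rwa [e] at this

lemma down_all {μ : Measure (ℝ × ℝ)} {G : P → ℝ} (h : IsN G) (h1 : G (1, 0) = 1)
    (sc : SCout (ln G)) (one : OneStp μ (ln G)) {w t : ℝ} (hw : w ∈ Lf (ln G) 1) (b : t < w)
    (ht : Neg (ln G) t) : Stp μ w t := by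
  obtain ⟨c, c0, hc⟩ := low h
  obtain ⟨k, hk⟩ := exists_nat_ge ((w - t) / (c / 2))
  rw [div_le_iff₀ (by positivity)] at hk
  induction k generalizing w with
  | zero => simp at hk; linarith
  | succ k ih =>
    by_cases a : fx (ln G) 1 w < t
    · exact down h h1 one a b ht
    · obtain ⟨z, hz⟩ := mem_left.1 hw
      have m : (w + fx (ln G) 1 z) / 2 ∈ Lf (ln G) 1 := mem_left.2 ⟨z, by linarith⟩
      have q := fstrict h h1 sc.1 hw m (by linarith)
      have fw : fx (ln G) 1 w ≤ w - c := by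
        have := hc w
        simp only [fx]
        linarith
      obtain ⟨u, u1, u2⟩ := exists_between (lt_min q (show fx (ln G) 1 w < fx (ln G) 1 w + c / 2 by
        linarith))
      have u3 := u2.trans_le (min_le_left _ _)
      have u4 := u2.trans_le (min_le_right _ _)
      have uw : u < w := by linarith
      have s1 : Stp μ w u := down h h1 one u1 uw ⟨_, m, u3⟩
      refine trans s1 (ih (left_down hw uw.le) (by linarith [not_lt.1 a]) ?_)
      push_cast at hk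
      linarith

/-- every `Neg` slope is reached from every slope -/
theorem reach {μ : Measure (ℝ × ℝ)} {G : P → ℝ} (h : IsN G) (h1 : G (1, 0) = 1)
    (sc : SCout (ln G)) (one : OneStp μ (ln G)) (θ : ℝ) {t : ℝ} (ht : Neg (ln G) t) :
    Stp μ θ t := by
  have right : ∀ w, w ∉ Lf (ln G) 1 → Stp μ w t := by
    intro w hw
    obtain ⟨z1, hz1, tz⟩ := ht
    obtain ⟨z2, hz2⟩ := mem_left.1 hz1
    set y := max (max z2 (w + 1)) (fx (ln G) (-1) 0 + 1) with hy
    have y1 : z2 ≤ y := (le_max_left _ _).trans (le_max_left _ _)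
    have y2 : w + 1 ≤ y := (le_max_right _ _).trans (le_max_left _ _)
    have y3 : fx (ln G) (-1) 0 + 1 ≤ y := le_max_right _ _
    have m1 : y ∈ Lf (ln G) (-1) := mem_right.2 ⟨0, by linarith⟩
    have m2 : y + 1 ∈ Lf (ln G) (-1) := mem_right.2 ⟨0, by linarith⟩
    have q := fstrict h h1 sc.2 m1 m2 (by linarith)
    have m3 : fx (ln G) 1 y ∈ Lf (ln G) 1 := mem_left.2 ⟨_, q⟩
    have lt : fx (ln G) 1 y < w := by
      by_contra c
      exact hw (left_down m3 (not_lt.1 c))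
    have s1 := one 1 (Or.inl rfl) y (Or.inr m1) w (by simpa using lt) (by simp; linarith)
    refine trans s1 (down_all h h1 sc one m3 ?_ ⟨z1, hz1, tz⟩)
    have a := fmono h h1 y1
    obtain ⟨c, c0, hc⟩ := low h
    have b : fx (ln G) 1 z1 < z1 := by
      have := hc z1
      simp only [fx]
      linarith
    linarith
  by_cases hθ : θ ∈ Lf (ln G) 1
  · have key : ∀ z, fx (ln G) 1 z ≤ fx (ln G) (-1) (θ - 1) := fun z => by
      have := sum_ge h h1 z (θ - 1)
      simp only [fx]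
      linarith
    obtain ⟨z, hz⟩ := mem_left.1 hθ
    have s1 := one (-1) (Or.inr rfl) (θ - 1) (Or.inl (left_down hθ (by linarith))) θ
      (by have := key z; linarith) (by linarith)
    refine trans s1 (right _ fun c => ?_)
    obtain ⟨y, hy⟩ := mem_left.1 c
    exact absurd (key y) (not_le.2 hy)
  · exact right θ hθ

end Rgs

end Pool.Agent.P.MP_874adf_gt.Gn
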