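import Pool.Agent.P.MP_874adf_gt.Gn.Defs

/-! Measure theoretic tools for the last step. -/

set_option autoImplicit false

namespace Pool.Agent.P.MP_874adf_gt.Gn

open Pool.Agent.P.MP_874adf_gt.Fs Set Filter Topology Metric MeasureTheory

/-- a monotone function grows at least as much as its derivative says -/
lemma sc_mono {f : ℝ → ℝ} {a b m : ℝ} (hab : a ≤ b) (hf : MonotoneOn f (Icc a b)) {T : Set ℝ}
    (hT : MeasurableSet T) (sub : T ⊆ Icc a b)
    (hd : ∀ᵐ x, x ∈ T → ∃ c, m ≤ c ∧ HasDerivAt f c x) : m * volume.real T ≤ f b - f a := by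
  have hf' : MonotoneOn f (uIcc a b) := by rwa [uIcc_of_le hab]
  have h1 := hf'.intervalIntegral_deriv_mem_uIcc
  have h2 := hf'.intervalIntegrable_deriv
  have h3 : f a ≤ f b := hf (left_mem_Icc.2 hab) (right_mem_Icc.2 hab) hab
  rw [uIcc_of_le (by linarith), intervalIntegral.integral_of_le hab,
    ← integral_Icc_eq_integral_Ioc] at h1
  rw [intervalIntegrable_iff_integrableOn_Icc_of_le hab] at h2
  refine le_trans ?_ h1.2
  have h4 : ∫ x in Icc a b, T.indicator (fun _ => m) x = m * volume.real T := by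
    rw [setIntegral_indicator hT, setIntegral_const, inter_eq_right.2 sub, smul_eq_mul, mul_comm]
  rw [← h4]
  refine integral_mono_ae ((integrable_const m).indicator hT) h2 ?_
  rw [EventuallyLE, ← restrict_Ioo_eq_restrict_Icc, ae_restrict_iff' measurableSet_Ioo]
  filter_upwards [hd] with x hx hx'
  by_cases h : x ∈ T
  · obtain ⟨c, c1, c2⟩ := hx h
    rw [indicator_of_mem h, c2.deriv]
    exact c1
  · rw [indicator_of_notMem h, ← derivWithin_of_mem_nhds (Icc_mem_nhds hx'.1 hx'.2)]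
    exact hf.derivWithin_nonneg

lemma sc_lip {f : ℝ → ℝ} {s : Set ℝ} {K : ℝ} (K0 : 0 ≤ K)
    (h : ∀ x ∈ s, ∀ y ∈ s, |f x - f y| ≤ K * |x - y|) :
    volume (f '' s) ≤ ENNReal.ofReal K * volume s := by
  have h1 : LipschitzOnWith ⟨K, K0⟩ f s := LipschitzOnWith.of_dist_le_mul h
  have := h1.hausdorffMeasure_image_le (d := 1) zero_le_one
  rw [hausdorffMeasure_real, ENNReal.rpow_one] at this
  rwa [ENNReal.ofReal_eq_coe_nnreal K0]

/-- the counting argument -/
lemma sc_count {S Θ : Set P} (hS : IsPreconnected S) {g1 g2 : P → ℝ} (c1 : ContinuousOn g1 S)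
    (c2 : ContinuousOn g2 S) (lt : ∀ v ∈ S, g1 v < g2 v) (oS : IsOpen S) (de : Dense Θ)
    {G : P → ℝ → ℝ} {A : P → Set ℝ} {α β K : ℝ} (ab : α ≤ β) (K0 : 0 ≤ K)
    (mA : ∀ v ∈ Θ, MeasurableSet (A v)) (sA : ∀ v ∈ Θ, A v ⊆ Icc α β)
    (lip : ∀ v ∈ Θ, ∀ x ∈ A v, ∀ y ∈ A v, |G v x - G v y| ≤ K * |x - y|)
    (cov : ∀ v ∈ Θ, volume (Icc (g1 v) (g2 v) \ G v '' A v) = 0)
    (cp : ∀ v ∈ Θ, ∀ w ∈ Θ, ∀ a ∈ A v, a ∈ A w → G v a = G w a) {v w : P} (hv : v ∈ S)
    (hw : w ∈ S) : g1 v - g1 w ≤ K * (β - α) := by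
  obtain ⟨Θ', s1, s2, s3⟩ := de.exists_countable_dense_subset
  obtain ⟨θ, rfl⟩ := s2.exists_eq_range s3.nonempty
  have hθ : ∀ j, θ j ∈ Θ := fun j => s1 ⟨j, rfl⟩
  have k1 : Ioo (g1 w) (g1 v) ⊆ ⋃ j, Icc (g1 (θ j)) (g2 (θ j)) := by
    intro x hx
    have o1 := c1.isOpen_inter_preimage oS (isOpen_Iio (a := x))
    have o2 := c2.isOpen_inter_preimage oS (isOpen_Ioi (a := x))
    obtain ⟨z, -, z1, z2⟩ := hS _ _ o1 o2 (fun z hz => by
      rcases lt_or_ge (g1 z) x with h | h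
      · exact Or.inl ⟨hz, h⟩
      · exact Or.inr ⟨hz, h.trans_lt (lt z hz)⟩) ⟨w, hw, hw, hx.1⟩ ⟨v, hv, hv, hx.2.trans (lt v hv)⟩
    obtain ⟨_, ⟨j, rfl⟩, y1, y2⟩ := s3.exists_mem_open (o1.inter o2) ⟨z, z1, z2⟩
    exact mem_iUnion.2 ⟨j, le_of_lt y1.2, le_of_lt y2.2⟩
  set A' : ℕ → Set ℝ := disjointed fun j => A (θ j) with hA'
  have k2 : Ioo (g1 w) (g1 v) ⊆ (⋃ j, Icc (g1 (θ j)) (g2 (θ j)) \ G (θ j) '' A (θ j)) ∪
      ⋃ j, G (θ j) '' A' j := by
    intro x hx
    obtain ⟨j, hj⟩ := mem_iUnion.1 (k1 hx)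
    by_cases h : x ∈ G (θ j) '' A (θ j)
    · obtain ⟨a, a1, rfl⟩ := h
      have : a ∈ ⋃ i, A' i := by
        rw [hA', iUnion_disjointed]
        exact mem_iUnion.2 ⟨j, a1⟩
      obtain ⟨i, hi⟩ := mem_iUnion.1 this
      exact Or.inr (mem_iUnion.2 ⟨i, a, hi, cp _ (hθ i) _ (hθ j) a (disjointed_subset _ i hi) a1⟩)
    · exact Or.inl (mem_iUnion.2 ⟨j, hj, h⟩)
  have k3 : volume (Ioo (g1 w) (g1 v)) ≤ ENNReal.ofReal K * volume (Icc α β) := by
    refine (measure_mono k2).trans ((measure_union_le _ _).trans ?_)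
    rw [measure_iUnion_null fun j => cov _ (hθ j), zero_add]
    refine (measure_iUnion_le _).trans ?_
    have : ∀ j, volume (G (θ j) '' A' j) ≤ ENNReal.ofReal K * volume (A' j) := fun j =>
      sc_lip K0 fun x hx y hy =>
        lip _ (hθ j) x (disjointed_subset _ j hx) y (disjointed_subset _ j hy)
    refine (ENNReal.tsum_le_tsum this).trans ?_
    rw [ENNReal.tsum_mul_left, ← measure_iUnion (disjoint_disjointed _)
      (MeasurableSet.disjointed fun j => mA _ (hθ j)), iUnion_disjointed]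
    gcongr
    exact iUnion_subset fun j => sA _ (hθ j)
  rw [Real.volume_Ioo, Real.volume_Icc, ← ENNReal.ofReal_mul K0] at k3
  exact (ENNReal.ofReal_le_ofReal_iff (mul_nonneg K0 (sub_nonneg.2 ab))).1 k3

/-- `v` sees positive measure of `S` in each neighbourhood -/
def Thick (S : Set P) (v : P) : Prop := ∀ U ∈ 𝓝 v, volume (S ∩ U) ≠ 0

lemma sc_thin (S : Set P) : volume {v ∈ S | ¬ Thick S v} = 0 := by
  refine measure_null_of_locally_null _ fun v hv => ?_
  have := hv.2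
  simp only [Thick, not_forall, not_not] at this
  obtain ⟨U, h1, h2⟩ := this
  exact ⟨{v ∈ S | ¬ Thick S v} ∩ U, inter_mem_nhdsWithin _ h1,
    measure_mono_null (inter_subset_inter_left _ (sep_subset _ _)) h2⟩

lemma sc_supp {Ω : Set (ℝ × P)} (hΩ : MeasurableSet Ω) : ∃ Z : Set (ℝ × P), MeasurableSet Z ∧
    (∀ᵐ v : P, volume {a | (a, v) ∈ Z} = 0) ∧
      ∀ a v, (a, v) ∈ Ω → (a, v) ∉ Z → Thick {w | (a, w) ∈ Ω} v := by
  obtain ⟨b, b1, -, b2⟩ := TopologicalSpace.exists_countable_basis P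
  set Z : Set P → Set (ℝ × P) := fun U => (Ω ∩ univ ×ˢ U) ∩
    Prod.fst ⁻¹' {a | volume (Prod.mk a ⁻¹' (Ω ∩ univ ×ˢ U)) = 0} with hZ
  have m1 : ∀ U ∈ b, MeasurableSet (Ω ∩ univ ×ˢ U) := fun U hU =>
    hΩ.inter (MeasurableSet.univ.prod (b2.isOpen hU).measurableSet)
  have m2 : ∀ U ∈ b, MeasurableSet (Z U) := fun U hU => (m1 U hU).inter (measurable_fst
    (measurable_measure_prodMk_left (m1 U hU) (measurableSet_singleton 0)))
  have m3 : MeasurableSet (⋃ U ∈ b, Z U) := MeasurableSet.biUnion b1 m2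
  have n1 : (volume : Measure ℝ).prod (volume : Measure P) (⋃ U ∈ b, Z U) = 0 := by
    rw [measure_biUnion_null_iff b1]
    intro U hU
    refine Measure.measure_prod_null_of_ae_null (m2 U hU) (Eventually.of_forall fun a => ?_)
    by_cases h : volume (Prod.mk a ⁻¹' (Ω ∩ univ ×ˢ U)) = 0
    · exact measure_mono_null (fun w hw => hw.1) h
    · have : Prod.mk a ⁻¹' Z U = ∅ := eq_empty_of_forall_notMem fun w hw => h hw.2
      simp [this]
  refine ⟨_, m3, ?_, fun a v h1 h2 U hU h3 => h2 ?_⟩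
  · rw [Measure.prod_apply_symm m3, lintegral_eq_zero_iff (measurable_measure_prodMk_right m3)] at n1
    exact n1
  · obtain ⟨V, v1, v2, v3⟩ := b2.mem_nhds_iff.1 hU
    have : Prod.mk a ⁻¹' (Ω ∩ univ ×ˢ V) ⊆ {w | (a, w) ∈ Ω} ∩ U := fun w hw => ⟨hw.1, v3 hw.2.2⟩
    exact mem_biUnion v1 ⟨⟨h1, mem_univ _, v2⟩, measure_mono_null this h3⟩

/-- almost every ray meets a null set in a null set -/
lemma sc_ray {N : Set P} (mN : MeasurableSet N) (hN : volume N = 0) (O : P) :
    ∀ᵐ v : P, volume {t : ℝ | 0 < t ∧ O + t • v ∈ N} = 0 := by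
  set Z : Set (ℝ × P) := {z | 0 < z.1 ∧ O + z.1 • z.2 ∈ N} with hZ
  have m : MeasurableSet Z := (measurableSet_lt measurable_const measurable_fst).inter
    ((by fun_prop : Continuous fun z : ℝ × P => O + z.1 • z.2).measurable mN)
  have n1 : (volume : Measure ℝ).prod (volume : Measure P) Z = 0 := by
    refine Measure.measure_prod_null_of_ae_null m (Eventually.of_forall fun t => ?_)
    by_cases h : 0 < t
    · have : Prod.mk t ⁻¹' Z = (t • ·) ⁻¹' ((O + ·) ⁻¹' N) := by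
        ext w
        simp [hZ, h]
      simp [this, Measure.addHaar_preimage_smul _ h.ne', hN]
    · have : Prod.mk t ⁻¹' Z = ∅ := eq_empty_of_forall_notMem fun w hw => h hw.1
      simp [this]
  rw [Measure.prod_apply_symm m, lintegral_eq_zero_iff (measurable_measure_prodMk_right m)] at n1
  exact n1

/-- lines are null -/
lemma sc_line (a : P) {β : P} (hβ : β ≠ 0) : ∀ᵐ X : P, wed (X - a) β ≠ 0 := by
  let L : P →ₗ[ℝ] ℝ := β.2 • LinearMap.fst ℝ ℝ ℝ - β.1 • LinearMap.snd ℝ ℝ ℝ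
  have hL : ∀ v, L v = wed v β := fun v => by
    simp only [L, wed, LinearMap.sub_apply, LinearMap.smul_apply, LinearMap.fst_apply,
      LinearMap.snd_apply, smul_eq_mul]
    ring
  have h1 : LinearMap.ker L ≠ ⊤ := fun h => hβ (by
    have e1 : L (1, 0) = 0 := LinearMap.mem_ker.1 (h ▸ Submodule.mem_top)
    have e2 : L (0, 1) = 0 := LinearMap.mem_ker.1 (h ▸ Submodule.mem_top)
    rw [hL] at e1 e2
    simp only [wed] at e1 e2
    exact Prod.ext (by simpa using e2) (by simpa using e1))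
  have h2 := Measure.addHaar_submodule (volume : Measure P) _ h1
  rw [← measure_preimage_add_right volume (-a)] at h2
  rw [ae_iff]
  refine measure_mono_null (fun X hX => ?_) h2
  have : wed (X - a) β = 0 := not_not.1 hX
  simpa [← sub_eq_add_neg, ← map_sub, hL] using this

/-- density of `K` at `Y` -/
def Dens (K : Set P) (Y : P) : Prop :=
  Tendsto (fun r => volume (K ∩ closedBall Y r) / volume (closedBall Y r)) (𝓝[>] 0) (𝓝 1)

lemma sc_slice {K : Set P} (hK : MeasurableSet K) {Y : P} (hY : Dens K Y) {η : ℝ} (η0 : 0 < η)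
    (η1 : η < 1) : ∀ᶠ r in 𝓝[>] (0 : ℝ), ∃ h, |h - Y.2| ≤ r ∧
      (1 - η) * (2 * r) ≤ volume.real {x | x ∈ Icc (Y.1 - r) (Y.1 + r) ∧ (x, h) ∈ K} := by
  have l1 : ENNReal.ofReal (1 - η) < 1 := by
    rw [ENNReal.ofReal_lt_one]
    linarith
  filter_upwards [hY.eventually (lt_mem_nhds l1), self_mem_nhdsWithin] with r h1 (r0 : 0 < r)
  by_contra c
  push Not at c
  have e : closedBall Y r = Icc (Y.1 - r) (Y.1 + r) ×ˢ Icc (Y.2 - r) (Y.2 + r) := by
    rw [← Real.closedBall_eq_Icc, ← Real.closedBall_eq_Icc, closedBall_prod_same]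
  have v1 : volume (closedBall Y r) = ENNReal.ofReal (2 * r) * ENNReal.ofReal (2 * r) := by
    rw [e, Measure.volume_eq_prod, Measure.prod_prod, Real.volume_Icc, Real.volume_Icc]
    congr 2 <;> ring
  have m : MeasurableSet (K ∩ closedBall Y r) := hK.inter measurableSet_closedBall
  have v2 : volume (K ∩ closedBall Y r) ≤
      ENNReal.ofReal (1 - η) * (ENNReal.ofReal (2 * r) * ENNReal.ofReal (2 * r)) := by
    rw [Measure.volume_eq_prod, Measure.prod_apply_symm m]
    calc _ ≤ ∫⁻ h, (Icc (Y.2 - r) (Y.2 + r)).indicator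
          (fun _ => ENNReal.ofReal ((1 - η) * (2 * r))) h := by
          refine lintegral_mono fun h => ?_
          by_cases hh : h ∈ Icc (Y.2 - r) (Y.2 + r)
          · rw [indicator_of_mem hh]
            have := c h (abs_le.2 ⟨by linarith [hh.1], by linarith [hh.2]⟩)
            have f : volume {x | x ∈ Icc (Y.1 - r) (Y.1 + r) ∧ (x, h) ∈ K} ≠ ⊤ :=
              measure_ne_top_of_subset (fun x hx => hx.1) measure_Icc_lt_top.ne
            refine le_trans (measure_mono fun x hx => ?_)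
              ((ENNReal.le_ofReal_iff_toReal_le f (by nlinarith)).2 this.le)
            rw [e] at hx
            exact ⟨hx.2.1, hx.1⟩
          · have : (fun x => (x, h)) ⁻¹' (K ∩ closedBall Y r) = ∅ :=
              eq_empty_of_forall_notMem fun x hx => hh (by rw [e] at hx; exact hx.2.2)
            simp [this]
      _ = _ := by
          rw [lintegral_indicator measurableSet_Icc, setLIntegral_const, Real.volume_Icc,
            ENNReal.ofReal_mul (by linarith), mul_assoc]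
          congr 3
          ring
  rw [ENNReal.lt_div_iff_mul_lt (Or.inl (by rw [v1]; simp [r0]))
    (Or.inl measure_closedBall_lt_top.ne), v1] at h1
  exact h1.not_ge v2

/-- derivatives along tangent vectors of functions that are constant on a set -/
lemma sc_tan {S : Set P} {C w : P} (hw : w ∈ tangentConeAt ℝ S C) {φ : P → ℝ} {L : P →L[ℝ] ℝ}
    (h : HasFDerivAt φ L C) (c : ∀ y ∈ S, φ y = φ C) : L w = 0 := by
  have h2 : HasFDerivWithinAt φ (0 : P →L[ℝ] ℝ) S C :=
    (hasFDerivWithinAt_const (φ C) C S).congr c rfl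
  exact h.hasFDerivWithinAt.unique_on h2 hw

lemma sc_tan2 {S : Set P} {C w : P} (hw : w ∈ tangentConeAt ℝ S C) {φ : P → ℝ}
    (h : DifferentiableAt ℝ φ C) (c : ∀ y ∈ S, φ y = φ C) {x y : ℝ}
    (e : ∀ t : ℝ, φ (C + t • w) = φ C + t * x + t * t * y) : x = 0 := by
  have h1 := sc_tan hw h.hasFDerivAt c
  have h2 : HasDerivAt (fun t : ℝ => C + t • w) w 0 := by
    simpa using ((hasDerivAt_id (0 : ℝ)).smul_const w).const_add C
  have h3 := HasFDerivAt.comp_hasDerivAt_of_eq (0 : ℝ) h.hasFDerivAt h2 (by simp)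
  have h4 : HasDerivAt (φ ∘ fun t : ℝ => C + t • w) x 0 := by
    have : (φ ∘ fun t : ℝ => C + t • w) = fun t => φ C + t * x + t * t * y := funext e
    rw [this]
    simpa using (((hasDerivAt_id (0 : ℝ)).mul_const x).const_add (φ C)).fun_add
      (((hasDerivAt_id (0 : ℝ)).fun_mul (hasDerivAt_id (0 : ℝ))).mul_const y)
  rw [← h1]
  exact h4.unique h3

end Pool.Agent.P.MP_874adf_gt.Gn
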