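import Pool.Agent.P.MP_874adf_gt.Gn.ScA
import Pool.Agent.P.MP_874adf_gt.Gn.Iface0
import Pool.Agent.P.MP_874adf_gt.Fs.INV

/-! Derivatives of distance functions and mixed differences. -/

set_option autoImplicit false

namespace Pool.Agent.P.MP_874adf_gt.Gn

open Pool.Agent.P.MP_874adf_gt.Fs Set Filter Topology Metric MeasureTheory

variable {M K : Set P} {d F : P → P → ℝ}

lemma sc_four (pm : PM M d) {X Y w : P} {s t : ℝ} (hX : X ∈ M) (hY : Y ∈ M) (s0 : 0 < s)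
    (t0 : 0 ≤ t) (h1 : X + s • w ∈ M) (h2 : Y + t • w ∈ M) :
    d (X + s • w) (Y + t • w) + d X Y ≤ d X (Y + t • w) + d (X + s • w) Y := by
  have st : 0 < s + t := by linarith
  have l0 : 0 ≤ s / (s + t) := by positivity
  have l1 : s / (s + t) ≤ 1 := (div_le_one st).2 (by linarith)
  have a1 := pm.add hX h2 l0 l1
  have a2 := pm.add h1 hY l0 l1
  have mZ := pm.seg_mem hX h2 l0 l1
  have e : X + s • w + (s / (s + t)) • (Y - (X + s • w)) =
      X + (s / (s + t)) • (Y + t • w - X) := by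
    ext <;> simp only [Prod.fst_add, Prod.snd_add, Prod.fst_sub, Prod.snd_sub, Prod.smul_fst,
      Prod.smul_snd, smul_eq_mul] <;> field_simp <;> ring
  rw [e] at a2
  linarith [pm.triangle X hX _ mZ Y hY, pm.triangle _ h1 _ mZ _ h2]

lemma sc_grad (pm : PM M d) {C O : P} {H : P → ℝ} (hC : C ∈ M) (hO : O ∈ M) (hs : IsS H)
    (du : DU d C H) {L : P →L[ℝ] ℝ} (hL : HasFDerivAt H L (C - O)) : HasFDerivAt (d O) L C := by
  rw [hasFDerivAt_iff_isLittleO_nhds_zero, Asymptotics.isLittleO_iff] at hL ⊢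
  intro ε ε0
  set v := C - O with hv
  obtain ⟨δ, δ0, h1⟩ := Metric.eventually_nhds_iff_ball.1 (hL (half_pos ε0))
  set R := ‖v‖ / (δ / 2) + 1 with hR
  have R0 : 0 < R := by positivity
  obtain ⟨δ2, δ20, h2⟩ := du (ε / (4 * R)) (by positivity)
  obtain ⟨δ3, δ30, h3⟩ := nhds_basis_closedBall.mem_iff.1 (pm.isOpen.mem_nhds hC)
  have c : Tendsto (fun h : P => ‖h‖) (𝓝 0) (𝓝 0) := tendsto_norm_zero
  have c2 : Tendsto (fun h : P => R * ‖h‖) (𝓝 0) (𝓝 0) := by simpa using c.const_mul R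
  filter_upwards [c.eventually (gt_mem_nhds (half_pos δ0)), c2.eventually (gt_mem_nhds δ20),
    c2.eventually (gt_mem_nhds δ30)] with h k1 k2 k3
  rcases eq_or_ne h 0 with rfl | h0
  · simp
  have n0 : 0 < ‖h‖ := norm_pos_iff.2 h0
  set θ := ‖h‖ / (δ / 2) with hθ
  have θ0 : 0 < θ := by positivity
  have θ1 : θ ≤ 1 := (div_le_one (half_pos δ0)).2 k1.le
  have eR : R * ‖h‖ = θ * ‖v‖ + ‖h‖ := by
    rw [hR, hθ]
    ring
  have b : ∀ z : P, ‖z‖ ≤ R * ‖h‖ → C + z ∈ closedBall C (R * ‖h‖) := fun z hz => by simpa using hz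
  have nv : ∀ t : ℝ, |t| = θ → ‖t • v‖ ≤ R * ‖h‖ := fun t ht => by
    rw [norm_smul, Real.norm_eq_abs, ht, eR]
    linarith
  have b0 : C ∈ closedBall C (R * ‖h‖) := mem_closedBall_self (by positivity)
  have b1 := b h (by rw [eR]; nlinarith [norm_nonneg v])
  have b2 := b _ (nv θ (abs_of_pos θ0))
  have b3 := b _ (nv (-θ) (by rw [abs_neg, abs_of_pos θ0]))
  have m := fun z (hz : z ∈ closedBall C (R * ‖h‖)) => h3 (closedBall_subset_closedBall k3.le hz)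
  have nr := h2 _ (by positivity) k2.le
  have eO : C + (-1 : ℝ) • v = O := by rw [hv]; module
  have a1 := pm.line_add (x := C) (v := v) (r := -1) (s := -θ) (t := 0) (eO ▸ hO) (by simpa using hC)
    (by linarith) (by linarith)
  have a2 := pm.line_add (x := C) (v := v) (r := -1) (s := 0) (t := θ) (eO ▸ hO) (m _ b2)
    (by linarith) θ0.le
  rw [eO, zero_smul, add_zero] at a1 a2
  have t1 := pm.triangle O hO _ (m _ b3) _ (m _ b1)
  have t2 := pm.triangle O hO _ (m _ b1) _ (m _ b2)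
  have u1 := (abs_le.1 (nr _ b3 _ b1)).2
  have u2 := (abs_le.1 (nr _ b3 _ b0)).1
  have u3 := (abs_le.1 (nr _ b1 _ b2)).2
  have u4 := (abs_le.1 (nr _ b0 _ b2)).1
  have nz : ‖θ⁻¹ • h‖ = δ / 2 := by
    rw [norm_smul, Real.norm_eq_abs, abs_of_pos (inv_pos.2 θ0), hθ]
    field_simp
  have w1 := (abs_le.1 (h1 (θ⁻¹ • h) (by rw [mem_ball_zero_iff, nz]; linarith))).2
  have w2 := (abs_le.1 (h1 (-(θ⁻¹ • h)) (by rw [mem_ball_zero_iff, norm_neg, nz]; linarith))).2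
  rw [norm_neg, map_neg] at w2
  rw [nz, map_smul, smul_eq_mul] at w1 w2
  have e1 : C + h - (C + -θ • v) = θ • (v + θ⁻¹ • h) := by
    rw [smul_add, smul_smul, mul_inv_cancel₀ θ0.ne']; module
  have e2 : C - (C + -θ • v) = θ • v := by module
  have e3 : C + θ • v - (C + h) = θ • (v + -(θ⁻¹ • h)) := by
    rw [smul_add, smul_neg, smul_smul, mul_inv_cancel₀ θ0.ne']; module
  rw [e1, hs.smul, abs_of_pos θ0] at u1
  rw [e2, hs.smul, abs_of_pos θ0] at u2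
  rw [e3, hs.smul, abs_of_pos θ0] at u3
  rw [add_sub_cancel_left, hs.smul, abs_of_pos θ0] at u4
  have e4 : ε / (4 * R) * (R * ‖h‖) = ε * ‖h‖ / 4 := by field_simp
  have e5 : θ * (ε / 2 * (δ / 2)) = ε * ‖h‖ / 2 := by rw [hθ]; field_simp
  have e6 : θ * (θ⁻¹ * L h) = L h := by field_simp
  rw [e4] at u1 u2 u3 u4
  have w3 := mul_le_mul_of_nonneg_left w1 θ0.le
  have w4 := mul_le_mul_of_nonneg_left w2 θ0.le
  rw [Real.norm_eq_abs, abs_le]
  constructor <;> nlinarith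

lemma sc_fder {N : P → ℝ} (n : IsN N) {p q s : ℝ} (e : ∀ v, N v ^ 2 = bf p q s v v) {v : P}
    (hv : v ≠ 0) : ∃ L : P →L[ℝ] ℝ, HasFDerivAt N L v ∧ ∀ w, L w = bf p q s v w / N v := by
  have sq : N = fun v => √(bf p q s v v) := funext fun v => by rw [← e, Real.sqrt_sq (n.nonneg v)]
  have f1 : HasFDerivAt (fun z : P => z.1) (ContinuousLinearMap.fst ℝ ℝ ℝ) v := hasFDerivAt_fst
  have f2 : HasFDerivAt (fun z : P => z.2) (ContinuousLinearMap.snd ℝ ℝ ℝ) v := hasFDerivAt_snd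
  have h1 := ((((f1.const_mul p).fun_mul f1).fun_add
    (((f1.fun_mul f2).fun_add (f2.fun_mul f1)).const_mul q)).fun_add
      ((f2.const_mul s).fun_mul f2)).sqrt (show bf p q s v v ≠ 0 by rw [← e]; exact (pow_pos (n.pos v hv) 2).ne')
  refine ⟨_, sq ▸ h1, fun w => ?_⟩
  have := n.pos v hv
  have e2 : √(p * v.1 * v.1 + q * (v.1 * v.2 + v.2 * v.1) + s * v.2 * v.2) = N v := by rw [sq]; rfl
  simp only [e2, bf, smul_apply, add_apply,
    ContinuousLinearMap.coe_fst', ContinuousLinearMap.coe_snd', smul_eq_mul]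
  field_simp
  ring

/-- derivative of the distance at a point with a quadratic norm -/
lemma sc_grad' (pm : PM M d) {C O : P} {H : P → ℝ} (hC : C ∈ M) (hO : O ∈ M) (n : IsN H)
    (du : DU d C H) {p q s : ℝ} (e : ∀ v, H v ^ 2 = bf p q s v v) (ne : C - O ≠ 0) :
    ∃ L : P →L[ℝ] ℝ, HasFDerivAt (d O) L C ∧ ∀ w, L w = bf p q s (C - O) w / H (C - O) := by
  obtain ⟨L, h1, h2⟩ := sc_fder n e ne
  exact ⟨L, sc_grad pm hC hO ⟨n.smul, n.add⟩ du h1, h2⟩

lemma sc_lineD {φ : P → ℝ} {L : P →L[ℝ] ℝ} {X w : P} {t : ℝ} (h : HasFDerivAt φ L (X + t • w)) :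
    HasDerivAt (fun t : ℝ => φ (X + t • w)) (L w) t := by
  have h2 : HasDerivAt (fun t : ℝ => X + t • w) w t := by
    simpa using ((hasDerivAt_id t).smul_const w).const_add X
  exact h.comp_hasDerivAt t h2

noncomputable def dt (N : P → ℝ) : ℝ :=
  N (1, 0) ^ 2 * N (0, 1) ^ 2 - ((N (1, 1) ^ 2 - N (1, 0) ^ 2 - N (0, 1) ^ 2) / 2) ^ 2

noncomputable def kap (N : P → ℝ) (z : P) : ℝ := dt N * z.2 ^ 2 / N z ^ 3

lemma sc_dt {N : P → ℝ} {p q s : ℝ} (e : ∀ v, N v ^ 2 = bf p q s v v) : dt N = p * s - q ^ 2 := by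
  simp only [dt, e, bf]
  ring

/-- the mean value form of the derivative of the direction -/
lemma sc_mvt {N : P → ℝ} (n : IsN N) {p q s : ℝ} (e : ∀ v, N v ^ 2 = bf p q s v v) {A Y : P}
    (h : A.2 ≠ Y.2) {t : ℝ} (t0 : 0 < t) : ∃ σ ∈ Ioo 0 t,
      bf p q s (A - Y) (1, 0) / N (A - Y) -
        bf p q s (A - (Y + t • (1, 0))) (1, 0) / N (A - (Y + t • (1, 0))) =
          t * kap N (A - (Y + σ • (1, 0))) := by
  have ne : ∀ σ : ℝ, A - (Y + σ • ((1, 0) : P)) ≠ 0 := fun σ c =>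
    h (by simpa [sub_eq_zero] using congrArg Prod.snd c)
  have D := fun σ => inv_der n e A Y (1, 0) (ne σ)
  obtain ⟨σ, h1, h2⟩ := exists_hasDerivAt_eq_slope _ _ t0
    (fun σ _ => (D σ).continuousAt.continuousWithinAt) fun σ _ => D σ
  refine ⟨σ, h1, ?_⟩
  rw [zero_smul, add_zero, sub_zero, eq_div_iff t0.ne'] at h2
  rw [kap, sc_dt e]
  have : wed (A - (Y + σ • ((1, 0) : P))) (1, 0) ^ 2 = (A - (Y + σ • ((1, 0) : P))).2 ^ 2 := by
    simp only [wed]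
    ring
  rw [this] at h2
  linarith

lemma UD.du (ud : UD M d K F) {x : P} (hx : x ∈ K) : DU d x (F x) := fun ε ε0 =>
  (ud.unif ε ε0).imp fun _ h => ⟨h.1, h.2 x hx⟩

lemma UD.tend (ud : UD M d K F) {Y : P} (hY : Y ∈ K) (v : P) :
    Tendsto (fun z : P × P => F z.1 z.2) (𝓝[K] Y ×ˢ 𝓝 v) (𝓝 (F Y v)) := by
  have := ud.cont (Y, v) ⟨hY, mem_univ _⟩
  rwa [ContinuousWithinAt, nhdsWithin_prod_eq, nhdsWithin_univ] at this

lemma UD.near (ud : UD M d K F) {Y : P} (hY : Y ∈ K) (n : IsN (F Y)) :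
    ∀ᶠ y in 𝓝[K] Y, IsN (F y) := by
  have h1 : ∀ᶠ y in 𝓝[K] Y, ∀ v ∈ sphere (0 : P) 1, 0 < F y v := by
    have h0 : ∀ᶠ z : P × P in 𝓝[K] Y ×ˢ 𝓝ˢ (sphere (0 : P) 1), 0 < F z.1 z.2 :=
      (isCompact_sphere (0 : P) 1).mem_prod_nhdsSet_of_forall fun v hv =>
        (ud.tend hY v).eventually (lt_mem_nhds (n.pos v (by rintro rfl; simp at hv)))
    exact h0.curry.mono fun y hy => hy.self_of_nhdsSet
  filter_upwards [h1, self_mem_nhdsWithin] with y h2 hy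
  refine ⟨(ud.isS y hy).smul, (ud.isS y hy).add, fun v hv => ?_⟩
  have n0 : 0 < ‖v‖ := norm_pos_iff.2 hv
  have := h2 (‖v‖⁻¹ • v) (by simp [norm_smul, n0.ne'])
  rw [(ud.isS y hy).smul] at this
  exact (pos_iff_pos_of_mul_pos this).1 (abs_pos.2 (inv_pos.2 n0).ne')

/-- a density point of a compact set of uniform differentiability -/
def Dn (M : Set P) (d F : P → P → ℝ) (y : P) : Prop :=
  ∃ K, UD M d K F ∧ y ∈ K ∧ (∀ x ∈ K, IsN (F x) → Quad (F x)) ∧ Dens K y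

lemma sc_dens (hEG : S_EG) (pm : PM M d) (ae : AeD M d F)
    (hq : ∀ᵐ y : P, y ∈ M → IsN (F y) → Quad (F y)) : ∀ᵐ y : P, y ∈ M → Dn M d F y := by
  obtain ⟨N, n1, n2, n3⟩ := exists_measurable_superset_of_null (ae_iff.1 hq)
  have k : ∀ n : ℕ, ∀ᵐ y : P, y ∈ (M \ N) ∩ ball 0 n → Dn M d F y := by
    intro n
    rw [ae_iff]
    refine le_antisymm (ENNReal.le_of_forall_pos_le_add fun ε ε0 _ => ?_) zero_le
    obtain ⟨K, k1, ud, k2⟩ := hEG M d F pm ae ((M \ N) ∩ ball 0 n) (fun y hy => hy.1.1)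
      ((pm.isOpen.measurableSet.diff n2).inter measurableSet_ball)
      (measure_ne_top_of_subset inter_subset_right measure_ball_lt_top.ne) ε ε0
    have k3 := Besicovitch.ae_tendsto_measure_inter_div (volume : Measure P) K
    rw [ae_restrict_iff' ud.cpt.measurableSet, ae_iff] at k3
    rw [zero_add, ← ENNReal.ofReal_coe_nnreal]
    refine le_trans ?_ k2.le
    rw [← add_zero (volume (_ \ K)), ← k3]
    refine (measure_mono fun y hy => ?_).trans (measure_union_le _ _)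
    rw [mem_ofPred_eq, Classical.not_imp] at hy
    by_cases h : y ∈ K
    · refine Or.inr fun c => hy.2 ⟨K, ud, h, fun x hx => ?_, c h⟩
      by_contra c2
      exact (k1 hx).1.2 (n1 fun c3 => c2 (c3 (k1 hx).1.1))
    · exact Or.inl ⟨hy.1, h⟩
  filter_upwards [ae_all_iff.2 k, measure_eq_zero_iff_ae_notMem.1 n3] with y h1 h2 hy
  obtain ⟨n, hn⟩ := exists_nat_gt ‖y‖
  exact h1 n ⟨⟨hy, h2⟩, mem_ball_zero_iff.2 hn⟩

end Pool.Agent.P.MP_874adf_gt.Gn
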