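import Pool.Agent.P.MP_874adf_gt.Gn.ScB
import Pool.Agent.P.MP_874adf_gt.Fs.ALG

/-! The tangent norms agree almost everywhere with a model field. -/

set_option autoImplicit false

namespace Pool.Agent.P.MP_874adf_gt.Gn

open Pool.Agent.P.MP_874adf_gt.Fs Set Filter Topology Metric MeasureTheory

variable {M K : Set P} {d F : P → P → ℝ}

lemma sc_kap_pos {N : P → ℝ} (n : IsN N) (hq : Quad N) {z : P} (hz : z.2 ≠ 0) : 0 < kap N z := by
  obtain ⟨p, q, s, e⟩ := hq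
  have := (n.posdef e).2
  have := n.pos z (by rintro rfl; exact hz rfl)
  rw [kap, sc_dt e]
  positivity

lemma UD.kap_tend (ud : UD M d K F) {Y z : P} (hY : Y ∈ K) (h : F Y z ≠ 0) :
    Tendsto (fun w : P × P => kap (F w.1) w.2) (𝓝[K] Y ×ˢ 𝓝 z) (𝓝 (kap (F Y) z)) := by
  have c : ∀ v, Tendsto (fun w : P × P => F w.1 v) (𝓝[K] Y ×ˢ 𝓝 z) (𝓝 (F Y v)) := fun v =>
    (ud.tend hY v).comp (tendsto_fst.prodMk tendsto_const_nhds)
  exact (((((c _).pow 2).mul ((c _).pow 2)).sub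
    ((((((c _).pow 2).sub ((c _).pow 2)).sub ((c _).pow 2)).div_const 2).pow 2)).mul
      ((((continuous_snd.tendsto z).comp tendsto_snd)).pow 2)).div ((ud.tend hY z).pow 3)
        (pow_ne_zero 3 h)

lemma sc_mix (pm : PM M d) {X Y : P} (hX : X ∈ M) (hY : Dn M d F Y) (n : IsN (F Y))
    (ne : X.2 ≠ Y.2) {g : P → ℝ} {κ : ℝ}
    (h1 : ∀ᶠ Z in 𝓝 Y, HasDerivAt (fun s : ℝ => d Z (X + s • (1, 0))) (g Z) 0)
    (h2 : ∀ ε > (0 : ℝ), ∃ δ > (0 : ℝ), ∀ Z ∈ ball Y δ, ∀ t > (0 : ℝ), Z + t • (1, 0) ∈ ball Y δ →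
      g Z - g (Z + t • (1, 0)) ≤ t * (κ + ε)) : kap (F Y) (Y - X) ≤ κ := by
  obtain ⟨K, ud, yK, qd, de⟩ := hY
  have nz : (Y - X).2 ≠ 0 := sub_ne_zero.2 ne.symm
  have k0 := sc_kap_pos n (qd Y yK n) nz
  set k := kap (F Y) (Y - X) with hk
  have main : ∀ η, 0 < η → η < 1 → η < k → (k - η) * (1 - η) ≤ κ + η := by
    intro η η0 η1 ηk
    have t1 : Tendsto (fun w : P × ℝ => (w.1, w.1 - (X + w.2 • ((1, 0) : P)))) (𝓝[K] Y ×ˢ 𝓝 0)
        (𝓝[K] Y ×ˢ 𝓝 (Y - X)) := by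
      refine tendsto_fst.prodMk (Tendsto.mono_left ?_ (prod_mono_left _ nhdsWithin_le_nhds))
      rw [← nhds_prod_eq]
      exact Continuous.tendsto' (by fun_prop) _ _ (by simp)
    have t2 := ((ud.kap_tend yK (n.pos _ (by rintro c; rw [c] at nz; exact nz rfl)).ne').comp
      t1).eventually (lt_mem_nhds (sub_lt_self k η0))
    obtain ⟨pa, a1, pb, b1, ab⟩ := eventually_prod_iff.1 t2
    obtain ⟨δ1, δ10, a2⟩ := h2 η η0
    have a3 : ∀ᶠ y in 𝓝 Y, y.2 ≠ X.2 := (continuous_snd.tendsto Y).eventually_ne ne.symm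
    obtain ⟨δ, δ0, a4⟩ := Metric.eventually_nhds_iff_ball.1
      ((eventually_nhdsWithin_iff.1 (a1.and (ud.near yK n))).and (h1.and (a3.and
        ((eventually_mem_set.2 (pm.isOpen.mem_nhds (ud.sub yK))).and
          (eventually_mem_set.2 (ball_mem_nhds Y δ10))))))
    obtain ⟨r, ⟨⟨h, hh, hT⟩, r0⟩, rδ⟩ := (((sc_slice ud.cpt.measurableSet de η0 η1).and
      self_mem_nhdsWithin).and (mem_nhdsWithin_of_mem_nhds (gt_mem_nhds δ0))).exists
    replace r0 : 0 < r := r0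
    set Z : P := (0, h) with hZ
    have eZ : ∀ τ : ℝ, Z + τ • ((1, 0) : P) = (τ, h) := fun τ => by simp [hZ]
    have inb : ∀ τ ∈ Icc (Y.1 - r) (Y.1 + r), Z + τ • ((1, 0) : P) ∈ ball Y δ := fun τ hτ => by
      rw [eZ, mem_ball, Prod.dist_eq, Real.dist_eq, Real.dist_eq]
      exact max_lt (lt_of_le_of_lt (abs_le.2 ⟨by linarith [hτ.1], by linarith [hτ.2]⟩) rδ)
        (hh.trans_lt rδ)
    have ab' : Y.1 - r ≤ Y.1 + r := by linarith
    have ia := inb _ (left_mem_Icc.2 ab')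
    have ib := inb _ (right_mem_Icc.2 ab')
    obtain ⟨ρ, ρ0, b2⟩ := Metric.eventually_nhds_iff_ball.1 (b1.and
      ((by fun_prop : Continuous fun s : ℝ => X + s • ((1, 0) : P)).continuousAt.eventually_mem
        (pm.isOpen.mem_nhds (by simpa using hX))))
    have key : (k - η) * ((1 - η) * (2 * r)) ≤
        g (Z + (Y.1 - r) • (1, 0)) - g (Z + (Y.1 + r) • (1, 0)) := by
      refine ge_of_tendsto ((a4 _ ia).2.1.tendsto_slope_zero_right.sub
        (a4 _ ib).2.1.tendsto_slope_zero_right) ?_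
      filter_upwards [self_mem_nhdsWithin, mem_nhdsWithin_of_mem_nhds (gt_mem_nhds ρ0)] with s
        (s0 : 0 < s) sρ
      have bb : ∀ σ, 0 < σ → σ ≤ s → σ ∈ ball (0 : ℝ) ρ := fun σ c1 c2 => by
        rw [mem_ball_zero_iff, Real.norm_eq_abs, abs_of_pos c1]
        exact c2.trans_lt sρ
      have mS := (b2 s (bb s s0 le_rfl)).2
      have := sc_mono (f := fun τ => d X (Z + τ • (1, 0)) - d (X + s • (1, 0)) (Z + τ • (1, 0)))
        (m := s * (k - η)) ab' (T := {x | x ∈ Icc (Y.1 - r) (Y.1 + r) ∧ (x, h) ∈ K}) ?_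
        (measurableSet_Icc.inter (measurable_prodMk_right ud.cpt.measurableSet)) (fun x hx => hx.1)
        (Eventually.of_forall fun τ hτ => ?_)
      · simp only [zero_add, zero_smul, add_zero, smul_eq_mul]
        rw [pm.symm _ (a4 _ ia).2.2.2.1 _ mS, pm.symm _ (a4 _ ia).2.2.2.1 _ hX,
          pm.symm _ (a4 _ ib).2.2.2.1 _ mS, pm.symm _ (a4 _ ib).2.2.2.1 _ hX, ← mul_sub,
          le_inv_mul_iff₀ s0]
        have := mul_le_mul_of_nonneg_left hT (mul_pos s0 (sub_pos.2 ηk)).le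
        linarith
      · intro τ hτ τ' hτ' le
        have e : Z + τ • ((1, 0) : P) + (τ' - τ) • ((1, 0) : P) = Z + τ' • (1, 0) := by module
        have := sc_four pm (w := (1, 0)) hX (a4 _ (inb τ hτ)).2.2.2.1 s0 (sub_nonneg.2 le) mS
          (by rw [e]; exact (a4 _ (inb τ' hτ')).2.2.2.1)
        rw [e] at this
        simp only
        linarith
      · have yK' : Z + τ • ((1, 0) : P) ∈ K := eZ τ ▸ hτ.2
        obtain ⟨c1, -, c3, c4, -⟩ := a4 _ (inb τ hτ.1)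
        obtain ⟨c1, c2⟩ := c1 yK'
        obtain ⟨p, q, u, e⟩ := qd _ yK' c2
        obtain ⟨L1, d1, e1⟩ := sc_grad' pm c4 hX c2 (ud.du yK') e
          (fun c => c3 (by simpa [sub_eq_zero] using congrArg Prod.snd c))
        obtain ⟨L2, d2, e2⟩ := sc_grad' pm c4 mS c2 (ud.du yK') e
          (fun c => c3 (by simpa [sub_eq_zero] using congrArg Prod.snd c))
        obtain ⟨σ, σ1, σ2⟩ := sc_mvt c2 e c3 s0
        refine ⟨_, ?_, (sc_lineD d1).fun_sub (sc_lineD d2)⟩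
        rw [e1, e2, σ2]
        exact mul_le_mul_of_nonneg_left (ab c1 (b2 σ (bb σ σ1.1 σ1.2.le)).1).le s0.le
    have e : Z + (Y.1 - r) • ((1, 0) : P) + (2 * r) • ((1, 0) : P) = Z + (Y.1 + r) • (1, 0) := by
      module
    have := a2 _ (a4 _ ia).2.2.2.2 (2 * r) (by linarith) (by rw [e]; exact (a4 _ ib).2.2.2.2)
    rw [e] at this
    nlinarith
  have t : Tendsto (fun η : ℝ => (k - η) * (1 - η) - η) (𝓝[>] 0) (𝓝 k) :=
    (Continuous.tendsto' (by fun_prop) _ _ (by simp)).mono_left nhdsWithin_le_nhds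
  refine le_of_tendsto t ?_
  filter_upwards [self_mem_nhdsWithin, mem_nhdsWithin_of_mem_nhds (gt_mem_nhds one_pos),
    mem_nhdsWithin_of_mem_nhds (gt_mem_nhds k0)] with η a b c
  linarith [main η a b c]

lemma Dn.mem {y : P} (h : Dn M d F y) : y ∈ M := by
  obtain ⟨K, ud, yK, -⟩ := h
  exact ud.sub yK

lemma Dn.du {y : P} (h : Dn M d F y) : DU d y (F y) := by
  obtain ⟨K, ud, yK, -⟩ := h
  exact ud.du yK

lemma Dn.quad {y : P} (h : Dn M d F y) (n : IsN (F y)) : Quad (F y) := by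
  obtain ⟨K, -, yK, qd, -⟩ := h
  exact qd y yK n

lemma sc_inv1 (pm : PM M d) {X Y : P} (hX : Dn M d F X) (nX : IsN (F X)) (hY : Dn M d F Y)
    (nY : IsN (F Y)) (ne : X.2 ≠ Y.2) : kap (F Y) (Y - X) ≤ kap (F X) (X - Y) := by
  obtain ⟨p, q, s, e⟩ := hX.quad nX
  have a3 : ∀ᶠ y in 𝓝 Y, X.2 ≠ y.2 :=
    ((continuous_snd.tendsto Y).eventually_ne ne.symm).mono fun _ h => h.symm
  refine sc_mix pm hX.mem hY nY ne (g := fun Z => bf p q s (X - Z) (1, 0) / F X (X - Z)) ?_ ?_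
  · filter_upwards [a3, pm.isOpen.mem_nhds hY.mem] with Z h1 h2
    obtain ⟨L, d1, e1⟩ := sc_grad' pm hX.mem h2 nX hX.du e
      (fun c => h1 (by simpa [sub_eq_zero] using congrArg Prod.snd c))
    exact e1 _ ▸ sc_lineD (t := 0) (by simpa using d1)
  · intro ε ε0
    have c : ContinuousAt (fun Z => kap (F X) (X - Z)) Y := by
      have := nX.cont
      refine ContinuousAt.div (by fun_prop) (by fun_prop) (pow_pos (nX.pos _ fun c => ne ?_) 3).ne'
      simpa [sub_eq_zero] using congrArg Prod.snd c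
    obtain ⟨δ, δ0, h⟩ := Metric.eventually_nhds_iff_ball.1
      (a3.and (c.eventually (gt_mem_nhds (lt_add_of_pos_right _ ε0))))
    refine ⟨δ, δ0, fun Z hZ t t0 hZ' => ?_⟩
    obtain ⟨σ, σ1, σ2⟩ := sc_mvt nX e (h Z hZ).1 t0
    simp only [σ2]
    refine mul_le_mul_of_nonneg_left (h _ ?_).2.le t0.le
    have := (convex_ball Y δ).add_smul_mem hZ hZ' (t := σ / t)
      ⟨div_nonneg σ1.1.le t0.le, (div_le_one t0).2 σ1.2.le⟩
    rwa [smul_smul, div_mul_cancel₀ _ t0.ne'] at this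

lemma sc_full (pm : PM M d) {X : P} {H : P → ℝ} (hX : X ∈ M) (hs : IsS H) (du : DU d X H)
    (ex : ∀ W ⊆ M, IsOpen W → W.Nonempty → ∃ Y ∈ W, Dn M d F Y ∧ IsN (F Y)) : IsN H := by
  refine ⟨hs.smul, hs.add, fun v v0 => ?_⟩
  by_contra c
  have neg : ∀ w, H (-w) = H w := fun w => by simpa using hs.smul (-1) w
  have nn : ∀ w, 0 ≤ H w := fun w => by
    have h1 := hs.add w (-w)
    have h2 := hs.smul 0 0
    rw [add_neg_cancel, neg] at h1
    simp only [smul_zero, abs_zero, zero_mul] at h2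
    linarith
  have z : H v = 0 := le_antisymm (not_lt.1 c) (nn v)
  have sh : ∀ (t : ℝ) w, H (w + t • v) = H w := fun t w => by
    have h1 := hs.add w (t • v)
    have h2 := hs.add (w + t • v) ((-t) • v)
    rw [hs.smul, z] at h1 h2
    rw [neg_smul, add_neg_cancel_right] at h2
    linarith
  have S0 : 0 < bf 1 0 1 v v := bf_pos one_pos (by norm_num) v0
  have fm : ∀ w, H w = |wed v w| * (H (rot 1 0 1 v) / bf 1 0 1 v v) := fun w => by
    have e : w = (wed v w / bf 1 0 1 v v) • rot 1 0 1 v + (bf 1 0 1 v w / bf 1 0 1 v v) • v := by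
      ext <;> simp only [Prod.fst_add, Prod.snd_add, Prod.smul_fst, Prod.smul_snd, smul_eq_mul] <;>
        field_simp <;> simp only [bf, wed, rot] <;> ring
    conv_lhs => rw [e, sh, hs.smul, abs_div, abs_of_pos S0]
    ring
  have o1 : IsOpen {Y : P | wed (Y - X) v ≠ 0} :=
    isOpen_ne_fun (by unfold wed; fun_prop) continuous_const
  have o2 : IsOpen {Y : P | wed (Y - X) (1, 0) ≠ 0} :=
    isOpen_ne_fun (by unfold wed; fun_prop) continuous_const
  obtain ⟨Y, ⟨⟨-, y1⟩, y2⟩, y3, y4⟩ := ex _ (fun y hy => hy.1.1) ((pm.isOpen.inter o1).inter o2) (by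
    obtain ⟨y, a, b⟩ := (Measure.dense_of_ae ((sc_line X v0).and
      (sc_line X (β := (1, 0)) (by simp)))).exists_mem_open pm.isOpen ⟨X, hX⟩
    exact ⟨y, ⟨b, a.1⟩, a.2⟩)
  have ne : X.2 ≠ Y.2 := fun c => y2 (by simp [wed, c])
  obtain ⟨σ, hσ⟩ : ∃ σ : ℝ, ∀ᶠ w in 𝓝 (X - Y), |wed v w| = σ * wed v w := by
    have cw : Tendsto (wed v) (𝓝 (X - Y)) (𝓝 (wed (Y - X) v)) :=
      Continuous.tendsto' (by unfold wed; fun_prop) _ _ (by simp only [wed, Prod.fst_sub, Prod.snd_sub]; ring)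
    rcases lt_or_gt_of_ne y1 with h | h
    · exact ⟨-1, (cw.eventually (gt_mem_nhds h)).mono fun w hw => by rw [abs_of_neg hw]; ring⟩
    · exact ⟨1, (cw.eventually (lt_mem_nhds h)).mono fun w hw => by rw [abs_of_pos hw]; ring⟩
  let L : P →L[ℝ] ℝ := (σ * (H (rot 1 0 1 v) / bf 1 0 1 v v)) •
    (v.1 • ContinuousLinearMap.snd ℝ ℝ ℝ - v.2 • ContinuousLinearMap.fst ℝ ℝ ℝ)
  have hL : H =ᶠ[𝓝 (X - Y)] L := hσ.mono fun w hw => by
    rw [fm, hw]
    simp only [L, wed, smul_apply, sub_apply, ContinuousLinearMap.coe_fst',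
      ContinuousLinearMap.coe_snd', smul_eq_mul]
    ring
  have := sc_mix pm hX y3 y4 ne (g := fun _ => L (1, 0)) (κ := 0) ?_
    fun ε ε0 => ⟨1, one_pos, fun Z _ t t0 _ => by simp only [sub_self]; positivity⟩
  · exact (sc_kap_pos y4 (y3.quad y4) (sub_ne_zero.2 ne.symm)).not_ge this
  · filter_upwards [((continuous_sub_left X).tendsto Y).eventually hL.eventuallyEq_nhds,
      pm.isOpen.mem_nhds y3.mem] with Z h1 h2
    exact sc_lineD (t := 0) (by
      simpa using sc_grad pm hX h2 hs du (L.hasFDerivAt.congr_of_eventuallyEq h1))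

end Pool.Agent.P.MP_874adf_gt.Gn
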