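import Pool.Agent.P.MP_874adf_gt.Gn.ScC

/-! The model field. -/

set_option autoImplicit false

namespace Pool.Agent.P.MP_874adf_gt.Gn

open Pool.Agent.P.MP_874adf_gt.Fs Set Filter Topology Metric MeasureTheory

variable {M K : Set P} {d F : P → P → ℝ}

/-- a point where the tangent norm is given by the form `Q` and the denominator `D` -/
structure Gd (M : Set P) (d F : P → P → ℝ) (Q : P → P → ℝ) (D : P → ℝ) (y : P) : Prop where
  mem : y ∈ M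
  isN : IsN (F y)
  du : DU d y (F y)
  pos : 0 < D y
  eq : ∀ v, (D y * F y v) ^ 2 = Q y v

lemma sc_normal {N : P → ℝ} (n : IsN N) (hq : Quad N) : ∃ p q s c : ℝ, 0 < c ∧ c ^ 3 = dt N ∧
    0 < p ∧ (p * s - q ^ 2) * c = 1 ∧ ∀ v, bf p q s v v = (N v / c) ^ 2 := by
  obtain ⟨p, q, s, e⟩ := hq
  obtain ⟨p0, D0⟩ := n.posdef e
  have c0 : 0 < (p * s - q ^ 2) ^ ((3 : ℕ) : ℝ)⁻¹ := Real.rpow_pos_of_pos D0 _
  have c3 : ((p * s - q ^ 2) ^ ((3 : ℕ) : ℝ)⁻¹) ^ 3 = p * s - q ^ 2 :=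
    Real.rpow_inv_natCast_pow D0.le (by norm_num)
  generalize (p * s - q ^ 2) ^ ((3 : ℕ) : ℝ)⁻¹ = c at c0 c3
  refine ⟨p / c ^ 2, q / c ^ 2, s / c ^ 2, c, c0, by rw [c3, sc_dt e], by positivity, ?_, fun v => ?_⟩
  · field_simp
    linarith
  · rw [div_pow, e, bf, bf]
    ring

lemma sc_mk {p q s : ℝ} (h : p * s - q ^ 2 ≠ 0) (x y κ : ℝ) : ∃ (b : P) (k : ℝ), ∀ (z : ℝ) (v : P),
    bf p q s (v + z • b) (v + z • b) + k * z ^ 2 =
      bf p q s v v + 2 * z * (x * v.1 + y * v.2) + κ * z ^ 2 := by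
  obtain ⟨b, e1, e2⟩ : ∃ b : P, p * b.1 + q * b.2 = x ∧ q * b.1 + s * b.2 = y :=
    have e := mul_inv_cancel₀ h
    ⟨((s * x - q * y) / (p * s - q ^ 2), (p * y - q * x) / (p * s - q ^ 2)),
      by linear_combination x * e, by linear_combination y * e⟩
  refine ⟨b, κ - bf p q s b b, fun z v => ?_⟩
  rw [← e1, ← e2]
  simp only [bf, Prod.fst_add, Prod.snd_add, Prod.smul_fst, Prod.smul_snd, smul_eq_mul]
  ring

lemma sc_div {A B C : ℝ} {ξ : P} (h : bf A B C ξ ξ = 0) (h2 : ξ.2 ≠ 0) :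
    ∃ x y : ℝ, ∀ v, bf A B C v v = wed ξ v * (x * v.1 + y * v.2) := by
  refine ⟨-A / ξ.2, (ξ.1 * (-A / ξ.2) - 2 * B) / ξ.2, fun v => ?_⟩
  simp only [bf, wed] at h ⊢
  field_simp
  linear_combination v.2 ^ 2 * h

lemma sc_alg3 {p q s p2 q2 s2 p3 q3 s3 : ℝ} {o o2 o3 : P} (h : p * s - q ^ 2 ≠ 0)
    (n2 : (o2 - o).2 ≠ 0) (n3 : (o3 - o).2 ≠ 0) (n4 : (o3 - o2).2 ≠ 0)
    (w : wed (o3 - o) (o2 - o) ≠ 0)
    (e2 : bf p2 q2 s2 (o2 - o) (o2 - o) = bf p q s (o2 - o) (o2 - o))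
    (e3 : bf p3 q3 s3 (o3 - o) (o3 - o) = bf p q s (o3 - o) (o3 - o))
    (e4 : bf p3 q3 s3 (o3 - o2) (o3 - o2) = bf p2 q2 s2 (o3 - o2) (o3 - o2)) :
    ∃ (b : P) (k : ℝ), (∀ v, bf p2 q2 s2 v v = Qm o b p q s k o2 v) ∧
      ∀ v, bf p3 q3 s3 v v = Qm o b p q s k o3 v := by
  obtain ⟨x2, y2, f2⟩ := sc_div (A := p2 - p) (B := q2 - q) (C := s2 - s) (ξ := o2 - o)
    (by simp only [bf] at e2 ⊢; linear_combination e2) n2
  obtain ⟨x3, y3, f3⟩ := sc_div (A := p3 - p) (B := q3 - q) (C := s3 - s) (ξ := o3 - o)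
    (by simp only [bf] at e3 ⊢; linear_combination e3) n3
  have f4 : (x3 - x2) * (o3 - o2).1 + (y3 - y2) * (o3 - o2).2 = 0 := by
    apply mul_left_cancel₀ w
    have a2 := f2 (o3 - o2)
    have a3 := f3 (o3 - o2)
    simp only [bf, wed, Prod.fst_sub, Prod.snd_sub] at a2 a3 e4 ⊢
    linear_combination a3 - a2 - e4
  obtain ⟨κ, k1, k2⟩ : ∃ κ, x3 - x2 = -κ * (o3 - o2).2 ∧ y3 - y2 = κ * (o3 - o2).1 :=
    ⟨-(x3 - x2) / (o3 - o2).2, by field_simp, by field_simp; linarith⟩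
  obtain ⟨b, k, e⟩ := sc_mk h ((x2 + κ * (o2 - o).2) / 2) ((y2 - κ * (o2 - o).1) / 2) κ
  refine ⟨b, k, fun v => ?_, fun v => ?_⟩
  · have a := f2 v
    rw [Qm, e]
    simp only [bf, wed] at a ⊢
    linear_combination a
  · have a := f3 v
    rw [Qm, e]
    simp only [bf, wed, Prod.fst_sub, Prod.snd_sub] at a k1 k2 ⊢
    linear_combination a + ((o3.1 - o.1) * v.2 - (o3.2 - o.2) * v.1) * (v.1 * k1 + v.2 * k2)

lemma sc_Qsym (o b : P) (p q s k : ℝ) (X Y : P) :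
    Qm o b p q s k X (X - Y) = Qm o b p q s k Y (X - Y) := by
  simp only [Qm, bf, wed, Prod.fst_add, Prod.snd_add, Prod.smul_fst, Prod.smul_snd,
    smul_eq_mul, Prod.fst_sub, Prod.snd_sub]
  ring

lemma sc_Qbf (o b : P) (p q s k : ℝ) (X v : P) : Qm o b p q s k X v =
    bf (Qm o b p q s k X (1, 0)) ((Qm o b p q s k X (1, 1) - Qm o b p q s k X (1, 0) -
      Qm o b p q s k X (0, 1)) / 2) (Qm o b p q s k X (0, 1)) v v := by
  simp only [Qm, bf, wed, Prod.fst_add, Prod.snd_add, Prod.smul_fst, Prod.smul_snd, smul_eq_mul]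
  ring

lemma sc_model (hEG : S_EG) (pm : PM M d) (ae : AeD M d F)
    (h1 : ∀ W ⊆ M, IsOpen W → W.Nonempty → ¬ ∀ᵐ y : P, y ∈ W → ¬ IsN (F y))
    (hq : ∀ᵐ y : P, y ∈ M → IsN (F y) → Quad (F y)) {W : Set P} (sub : W ⊆ M) (oW : IsOpen W)
    (ne : W.Nonempty) : ∃ o ∈ W, ∃ (b : P) (p q s k : ℝ), 0 < p ∧ 0 < p * s - q ^ 2 ∧ IsN (F o) ∧
      DU d o (F o) ∧ ∀ᵐ y : P, y ∈ M → Gd M d F (Qm o b p q s k) (Dm o b p q s k) y := by
  have de := sc_dens hEG pm ae hq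
  have E : ∀ᵐ y : P, y ∈ M → Dn M d F y ∧ IsN (F y) := by
    filter_upwards [de, ae] with y a1 a2 hy
    refine ⟨a1 hy, sc_full (F := F) pm hy (a2 hy).1 (a2 hy).2 fun V sV oV nV => ?_⟩
    by_contra c
    refine h1 V sV oV nV (de.mono fun z hz zV n => c ⟨z, zV, hz (sV zV), n⟩)
  have nm : ∀ y, ∃ p q s c : ℝ, Dn M d F y ∧ IsN (F y) → 0 < c ∧ c ^ 3 = dt (F y) ∧
      0 < p ∧ (p * s - q ^ 2) * c = 1 ∧ ∀ v, bf p q s v v = (F y v / c) ^ 2 := fun y => by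
    by_cases h : Dn M d F y ∧ IsN (F y)
    · obtain ⟨p, q, s, c, e⟩ := sc_normal h.2 (h.1.quad h.2)
      exact ⟨p, q, s, c, fun _ => e⟩
    · exact ⟨0, 0, 0, 0, fun c => (h c).elim⟩
  choose p q s c hc using nm
  have inv : ∀ X Y, Dn M d F X ∧ IsN (F X) → Dn M d F Y ∧ IsN (F Y) → (X - Y).2 ≠ 0 →
      bf (p X) (q X) (s X) (X - Y) (X - Y) = bf (p Y) (q Y) (s Y) (X - Y) (X - Y) := by
    intro X Y hX hY n
    have n' : X.2 ≠ Y.2 := sub_ne_zero.1 n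
    have k := le_antisymm (sc_inv1 pm hX.1 hX.2 hY.1 hY.2 n') (sc_inv1 pm hY.1 hY.2 hX.1 hX.2 n'.symm)
    have e1 : (Y - X).2 ^ 2 = (X - Y).2 ^ 2 := by
      simp only [Prod.snd_sub]
      ring
    rw [kap, kap, e1, hY.2.sub_comm Y X, mul_div_right_comm, mul_div_right_comm, ← (hc X hX).2.1,
      ← (hc Y hY).2.1, ← div_pow, ← div_pow] at k
    have k2 := (Odd.strictMono_pow (R := ℝ) (n := 3) (by decide)).injective
      (mul_right_cancel₀ (pow_ne_zero 2 n) k)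
    rw [(hc X hX).2.2.2.2, (hc Y hY).2.2.2.2, ← inv_div (c X), ← inv_div (c Y)]
    exact congrArg (fun x => x⁻¹ ^ 2) k2.symm
  have hz : ∀ a : P, ∀ᵐ y : P, (y - a).2 ≠ 0 := fun a =>
    (sc_line a (β := (1, 0)) (by simp)).mono fun y h c => h (by rw [wed, c]; simp)
  have nz : ∀ {v : P}, v.2 ≠ 0 → v ≠ 0 := fun h c => h (by rw [c]; rfl)
  obtain ⟨o, o1, oW'⟩ := (Measure.dense_of_ae E).exists_mem_open oW ne
  replace o1 := o1 (sub oW')
  obtain ⟨o2, ⟨a1, a2⟩, a3⟩ := (Measure.dense_of_ae (E.and (hz o))).exists_mem_open oW ne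
  replace a1 := a1 (sub a3)
  obtain ⟨o3, ⟨b1, b2, b3, b4⟩, b5⟩ := (Measure.dense_of_ae (E.and ((hz o).and ((hz o2).and
    (sc_line o (nz a2)))))).exists_mem_open oW ne
  replace b1 := b1 (sub b5)
  have pos : ∀ y, Dn M d F y ∧ IsN (F y) → 0 < p y * s y - q y ^ 2 := fun y h =>
    (mul_pos_iff_of_pos_right (hc y h).1).1 (by rw [(hc y h).2.2.2.1]; exact one_pos)
  obtain ⟨b, k, e2, e3⟩ := sc_alg3 (pos o o1).ne' a2 b2 b3 b4 (inv _ _ a1 o1 a2) (inv _ _ b1 o1 b2)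
    (inv _ _ b1 a1 b3)
  have e1 : ∀ v, bf (p o) (q o) (s o) v v = Qm o b (p o) (q o) (s o) k o v := fun v => by
    simp [Qm, wed]
  refine ⟨o, oW', b, p o, q o, s o, k, (hc o o1).2.2.1, pos o o1, o1.2, o1.1.du, ?_⟩
  filter_upwards [E, hz o, hz o2, hz o3, sc_line o (nz a2), sc_line o (nz b2), sc_line o2 (nz b3)]
    with y y1 z1 z2 z3 w1 w2 w3 hy
  replace y1 := y1 hy
  set Q := Qm o b (p o) (q o) (s o) k with hQ
  have df : ∀ v, bf (p y - Q y (1, 0)) (q y - (Q y (1, 1) - Q y (1, 0) - Q y (0, 1)) / 2)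
      (s y - Q y (0, 1)) v v = bf (p y) (q y) (s y) v v - Q y v := fun v => by
    rw [hQ, sc_Qbf o b _ _ _ k y v]
    simp only [bf]
    ring
  have key : ∀ v, bf (p y) (q y) (s y) v v = Q y v := fun v => by
    rw [← sub_eq_zero, ← df]
    refine alg_three (u := y - o) (v := y - o2) (w := y - o3) ?_ ?_ ?_ ?_ v
    · rw [df, inv _ _ y1 o1 z1, e1, hQ, sc_Qsym, sub_self]
    · rw [df, inv _ _ y1 a1 z2, e2, hQ, sc_Qsym, sub_self]
    · rw [df, inv _ _ y1 b1 z3, e3, hQ, sc_Qsym, sub_self]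
    · have : wed (y - o) (y - o2) * wed (y - o) (y - o3) * wed (y - o2) (y - o3) =
          -(wed (y - o) (o2 - o) * wed (y - o) (o3 - o) * wed (y - o2) (o3 - o2)) := by
        simp only [wed, Prod.fst_sub, Prod.snd_sub]
        ring
      rw [this]
      exact neg_ne_zero.2 (mul_ne_zero (mul_ne_zero w1 w2) w3)
  have hD : Dm o b (p o) (q o) (s o) k y = p y * s y - q y ^ 2 := by
    rw [← det_ident, ← hQ, ← key, ← key, ← key]
    simp only [bf]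
    ring
  refine ⟨hy, y1.2, y1.1.du, hD ▸ pos y y1, fun v => ?_⟩
  obtain ⟨c0, -, -, c1, c2⟩ := hc y y1
  rw [hD, ← key, c2, eq_div_of_mul_eq c0.ne' c1]
  ring

/-- the model seen from another centre -/
lemma sc_rebase (o b : P) (p q s k : ℝ) {O : P} (h : Dm o b p q s k O ≠ 0) :
    ∃ (b' : P) (p' q' s' k' : ℝ), p' = Qm o b p q s k O (1, 0) ∧
      p' * s' - q' ^ 2 = Dm o b p q s k O ∧ Qm o b p q s k = Qm O b' p' q' s' k' ∧
      Dm o b p q s k = Dm O b' p' q' s' k' := by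
  rw [← det_ident] at h
  obtain ⟨b', k', e⟩ := sc_mk h
    (bf p q s ((1, 0) + wed (O - o) (1, 0) • b) b + k * wed (O - o) (1, 0))
    (bf p q s ((0, 1) + wed (O - o) (0, 1) • b) b + k * wed (O - o) (0, 1)) (bf p q s b b + k)
  have hQ : Qm o b p q s k = Qm O b' (Qm o b p q s k O (1, 0)) ((Qm o b p q s k O (1, 1) -
      Qm o b p q s k O (1, 0) - Qm o b p q s k O (0, 1)) / 2) (Qm o b p q s k O (0, 1)) k' := by
    funext X v
    conv_rhs => rw [Qm, e, ← sc_Qbf]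
    simp only [Qm, bf, wed, Prod.fst_add, Prod.snd_add, Prod.smul_fst, Prod.smul_snd,
      smul_eq_mul, Prod.fst_sub, Prod.snd_sub]
    ring
  refine ⟨b', _, _, _, k', rfl, det_ident .., hQ, funext fun X => ?_⟩
  rw [← det_ident, ← det_ident, ← hQ]

lemma sc_ell (O b : P) (p q s k : ℝ) (X : P) : (p * s - q ^ 2) * ell O b X =
    2 * Dm O b p q s k (O + (1 / 2 : ℝ) • (X - O)) - (Dm O b p q s k O + Dm O b p q s k X) / 2 := by
  simp only [Dm, ell, bf, wed, Prod.fst_add, Prod.snd_add, Prod.smul_fst, Prod.smul_snd,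
    smul_eq_mul, Prod.fst_sub, Prod.snd_sub]
  ring

end Pool.Agent.P.MP_874adf_gt.Gn
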