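import Pool.Agent.P.MP_874adf_gt.Gn.ScD
import Pool.Agent.P.MP_874adf_gt.Fs.GRAD

/-! Good points of one circle lie on a circle of the model. -/

set_option autoImplicit false

namespace Pool.Agent.P.MP_874adf_gt.Gn

open Pool.Agent.P.MP_874adf_gt.Fs Set Filter Topology Metric MeasureTheory

variable {M K : Set P} {d F : P → P → ℝ}

lemma sc_appr {C : P} {H : P → ℝ} (n : IsN H) (du : DU d C H) :
    Appr (𝓝[>] (0 : ℝ)) d (fun _ => C) id id H := by
  intro k ε ε0
  have k0 : 0 < |k| + 1 := by positivity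
  obtain ⟨δ, δ0, h⟩ := du (ε / (|k| + 1)) (by positivity)
  filter_upwards [self_mem_nhdsWithin, mem_nhdsWithin_of_mem_nhds (gt_mem_nhds (div_pos δ0 k0))]
    with i (i0 : 0 < i) h1 y hy z hz
  rw [lt_div_iff₀ k0] at h1
  have b : ∀ y ∈ closedBall (0 : P) k, C + i • y ∈ closedBall C (i * (|k| + 1)) := fun y hy => by
    rw [mem_closedBall_zero_iff] at hy
    rw [add_mem_closedBall_iff_norm, norm_smul, Real.norm_eq_abs, abs_of_pos i0]
    gcongr
    linarith [le_abs_self k]
  have := h _ (by positivity) h1.le _ (b y hy) _ (b z hz)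
  rw [add_sub_add_left_eq_sub, ← smul_sub, n.smul_nonneg i0.le] at this
  refine this.trans_eq ?_
  simp only [id]
  field_simp

lemma sc_conic (hFIN : S_FIN) (pm : PM M d) {D : Dat} {C : P} {H : P → ℝ} (hC : C ∈ M) (n : IsN H)
    (du : DU d C H) {p q s : ℝ} (hq : ∀ v, H v ^ 2 = bf p q s v v)
    (ci : Circ M d D (d (dO D) C)) (hw : wed (C - dO D) (dB D - dO D) ≠ 0) :
    dl D * H (C - dB D) = dr D * H (C - dA D) := by
  have t1 : Tendsto (fun i : ℝ => 1 / id i) (𝓝[>] 0) atTop := by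
    simpa using tendsto_inv_nhdsGT_zero
  have rv := hFIN M d ℝ (𝓝[>] 0) (fun _ => C) id id H (fun _ => D) (C - dO D) (C - dA D) (C - dB D)
    (fun _ => 1) (fun _ => 1) (fun _ => 1) (dr D) pm inferInstance ⟨n.smul, n.add⟩
    (eventually_mem_nhdsWithin.mono fun i hi => ⟨hi, hi⟩) (sc_appr n du) (fun k => by
      obtain ⟨δ, δ0, h⟩ := nhds_basis_closedBall.mem_iff.1 (pm.isOpen.mem_nhds hC)
      have c : Tendsto (fun i : ℝ => k * i) (𝓝[>] 0) (𝓝 0) :=
        (Continuous.tendsto' (by fun_prop) _ _ (by simp)).mono_left nhdsWithin_le_nhds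
      exact (c.eventually (gt_mem_nhds δ0)).mono fun i hi =>
        (closedBall_subset_closedBall hi.le).trans h)
    (Eventually.of_forall fun _ => ci) t1 t1 t1 (by simp) (by simp) (by simp) tendsto_const_nhds
  obtain ⟨O, B, l, r⟩ := D
  simp only [dO, dB, dl, dr, dA] at *
  obtain ⟨p0, D0⟩ := n.posdef hq
  have ne : ∀ t : ℝ, C - (O + t • (B - O)) ≠ 0 := by
    intro t c
    apply hw
    rw [sub_eq_zero.1 c]
    simp only [add_sub_cancel_left, wed, Prod.smul_fst, Prod.smul_snd, smul_eq_mul]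
    ring
  have nO : C - O ≠ 0 := by simpa using ne 0
  have nB : C - B ≠ 0 := by simpa using ne 1
  set A := O + l • (B - O) with hA
  have nA : C - A ≠ 0 := ne l
  have FO := n.pos _ nO
  have FA := n.pos _ nA
  have FB := n.pos _ nB
  have S0 := bf_pos p0 D0 nO
  set G : P → ℝ := fun z => bf p q s (C - A) z / H (C - A) - r * (bf p q s (C - B) z / H (C - B))
    with hG
  have ng : ∀ v z : P, bf p q s v (-z) = -bf p q s v z := fun v z => by
    simp only [bf, Prod.fst_neg, Prod.snd_neg]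
    ring
  have key : ∀ z, 0 < bf p q s (C - O) z → 0 ≤ G z := by
    intro z hz
    obtain ⟨t, h1, t0⟩ := (((grad_norm n hq nO (-z)).eventually (gt_mem_nhds (by
      rw [ng]; exact div_neg_of_neg_of_pos (neg_neg_of_pos hz) FO))).and self_mem_nhdsWithin).exists
    have k := rv z t⁻¹ (inv_pos.2 t0) (by rw [neg_add_eq_sub] at h1; linarith)
    have := (grad_norm n hq nA z).add ((grad_norm n hq nB (-z)).const_mul r)
    rw [ng, neg_div, mul_neg, ← sub_eq_add_neg] at this
    refine ge_of_tendsto this (eventually_mem_nhdsWithin.mono fun i hi => ?_)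
    rw [neg_add_eq_sub, add_comm z]
    exact k _ (inv_pos.2 hi) _ (inv_pos.2 hi)
  have lin : ∀ (σ ε : ℝ), G (σ • rot p q s (C - O) + ε • (C - O)) =
      σ * G (rot p q s (C - O)) + ε * G (C - O) := fun σ ε => by
    simp only [hG, bf, Prod.fst_add, Prod.snd_add, Prod.smul_fst, Prod.smul_snd, smul_eq_mul]
    ring
  have z : ∀ σ : ℝ, 0 ≤ σ * G (rot p q s (C - O)) := by
    intro σ
    have t : Tendsto (fun ε : ℝ => σ * G (rot p q s (C - O)) + ε * G (C - O)) (𝓝[>] 0)
        (𝓝 (σ * G (rot p q s (C - O)))) :=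
      (Continuous.tendsto' (by fun_prop) _ _ (by simp)).mono_left nhdsWithin_le_nhds
    refine ge_of_tendsto t (eventually_mem_nhdsWithin.mono fun ε hε => ?_)
    rw [← lin]
    apply key
    have : bf p q s (C - O) (σ • rot p q s (C - O) + ε • (C - O)) = ε * bf p q s (C - O) (C - O) := by
      simp only [bf, rot, Prod.fst_add, Prod.snd_add, Prod.smul_fst, Prod.smul_snd, smul_eq_mul]
      ring
    rw [this]
    exact mul_pos hε S0
  have z0 : G (rot p q s (C - O)) = 0 := by linarith [z 1, z (-1)]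
  have e1 : wed (C - O) (C - A) = -l * wed (C - O) (B - O) := by
    simp only [hA, wed, Prod.fst_sub, Prod.snd_sub, Prod.fst_add, Prod.snd_add, Prod.smul_fst,
      Prod.smul_snd, smul_eq_mul]
    ring
  have e2 : wed (C - O) (C - B) = -wed (C - O) (B - O) := by
    simp only [wed, Prod.fst_sub, Prod.snd_sub]
    ring
  simp only [hG, bf_rot, e1, e2] at z0
  field_simp at z0
  apply mul_left_cancel₀ (mul_ne_zero D0.ne' hw)
  linarith

lemma Gd.quad {O b y : P} {p q s k : ℝ} (g : Gd M d F (Qm O b p q s k) (Dm O b p q s k) y) :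
    ∃ p' q' s', (∀ v, F y v ^ 2 = bf p' q' s' v v) ∧ ∀ w, Dm O b p q s k y ^ 2 *
      bf p' q' s' (y - O) w = bf p q s (y - O) (ell O b y • w - wed w b • (y - O)) := by
  have D0 := g.pos.ne'
  refine ⟨Qm O b p q s k y (1, 0) / Dm O b p q s k y ^ 2, ((Qm O b p q s k y (1, 1) -
    Qm O b p q s k y (1, 0) - Qm O b p q s k y (0, 1)) / 2) / Dm O b p q s k y ^ 2,
    Qm O b p q s k y (0, 1) / Dm O b p q s k y ^ 2, fun v => ?_, fun w => ?_⟩
  · have := g.eq v
    rw [sc_Qbf, mul_pow] at this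
    simp only [bf] at this ⊢
    field_simp
    linarith
  · generalize Dm O b p q s k y = D at D0
    simp only [bf]
    field_simp
    simp only [Qm, bf, wed, ell, Prod.fst_add, Prod.snd_add, Prod.smul_fst, Prod.smul_snd,
      smul_eq_mul, Prod.fst_sub, Prod.snd_sub]
    ring

/-- the conic -/
def con (O b β : P) (p q s k x y z : ℝ) (X : P) : ℝ :=
  x * bf p q s (X - O) (X - O) - 2 * y * ell O b X * bf p q s (X - O) β +
    z * (ell O b X ^ 2 * bf p q s β β + k * wed (X - O) β ^ 2)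

lemma sc_alg1 {p q s k x y z e m : ℝ} {ξ β w : P} (D0 : 0 < p * s - q ^ 2)
    (e0 : e ≠ 0) (hw : wed ξ β ≠ 0) (hj : wed ξ w ≠ 0)
    (h0 : x * bf p q s ξ ξ - 2 * y * e * bf p q s ξ β +
      z * (e ^ 2 * bf p q s β β + k * wed ξ β ^ 2) = 0)
    (h1 : 2 * x * bf p q s ξ w - 2 * y * (m * bf p q s ξ β + e * bf p q s w β) +
      2 * z * (e * m * bf p q s β β + k * wed ξ β * wed w β) = 0)
    (h2 : bf p q s ξ (e • w - m • ξ) = 0) :
    y * (p * s - q ^ 2) * e + z * k * bf p q s ξ β = 0 ∧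
      e * bf p q s w β - m * bf p q s ξ β ≠ 0 := by
  have i1 : bf p q s ξ ξ * (e * bf p q s w β - m * bf p q s ξ β) =
      (p * s - q ^ 2) * e * wed ξ w * wed ξ β := by
    simp only [bf, wed, Prod.fst_sub, Prod.snd_sub, Prod.smul_fst, Prod.smul_snd, smul_eq_mul] at *
    linear_combination (p * ξ.1 * β.1 + q * (ξ.1 * β.2 + ξ.2 * β.1) + s * ξ.2 * β.2) * h2
  have i2 : bf p q s ξ ξ * (e * wed w β - m * wed ξ β) = -bf p q s ξ β * e * wed ξ w := by
    simp only [bf, wed, Prod.fst_sub, Prod.snd_sub, Prod.smul_fst, Prod.smul_snd, smul_eq_mul] at *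
    linear_combination (ξ.1 * β.2 - ξ.2 * β.1) * h2
  have i3 : y * e * (e * bf p q s w β - m * bf p q s ξ β) =
      z * k * wed ξ β * (e * wed w β - m * wed ξ β) := by
    simp only [bf, wed, Prod.fst_sub, Prod.snd_sub, Prod.smul_fst, Prod.smul_snd, smul_eq_mul] at *
    linear_combination x * h2 - e / 2 * h1 + m * h0
  constructor
  · apply mul_left_cancel₀ (mul_ne_zero (mul_ne_zero e0 hj) hw)
    linear_combination bf p q s ξ ξ * i3 - y * e * i1 + z * k * wed ξ β * i2
  · intro c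
    rw [c, mul_zero] at i1
    exact mul_ne_zero (mul_ne_zero (mul_ne_zero D0.ne' e0) hj) hw i1.symm

/-- the radius function of the model around `O` -/
noncomputable def gam (O b : P) (p q s : ℝ) (X : P) : ℝ := √(bf p q s (X - O) (X - O)) / ell O b X

lemma sc_lev1 (hFIN : S_FIN) (pm : PM M d) {O b : P} {p q s k : ℝ} (p0 : 0 < p)
    (D0 : 0 < p * s - q ^ 2) {D : Dat} {a : ℝ} (hO : dO D = O) (ci : Circ M d D a) {S : Set P}
    (hS : ∀ C ∈ S, Gd M d F (Qm O b p q s k) (Dm O b p q s k) C ∧ d O C = a ∧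
      wed (C - O) (dB D - O) ≠ 0 ∧ 0 < ell O b C ∧ AccPt C (𝓟 S)) {C C' : P} (hC : C ∈ S)
    (hC' : C' ∈ S) : gam O b p q s C = gam O b p q s C' := by
  subst hO
  set O := dO D with hO
  set β := dB D - O with hβ
  obtain ⟨x, y, z, z0, h0⟩ : ∃ x y z : ℝ, z ≠ 0 ∧ ∀ C ∈ S, con O b β p q s k x y z C = 0 := by
    have l0 := ci.l0
    have r1 : 0 < 1 - dr D ^ 2 := by nlinarith [ci.r0, ci.r1]
    refine ⟨dl D ^ 2 * ell O b (dB D) ^ 2 - dr D ^ 2 * ell O b (dA D) ^ 2,
      dl D ^ 2 * ell O b (dB D) - dr D ^ 2 * dl D * ell O b (dA D), dl D ^ 2 * (1 - dr D ^ 2),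
      by positivity, fun C hC => ?_⟩
    obtain ⟨g, e, w, -⟩ := hS C hC
    obtain ⟨p', q', s', e1, -⟩ := g.quad
    have h1 := sc_conic hFIN pm g.mem g.isN g.du e1 (e ▸ ci) w
    have h2 : dl D ^ 2 * Qm O b p q s k C (C - dB D) = dr D ^ 2 * Qm O b p q s k C (C - dA D) := by
      rw [← g.eq, ← g.eq]
      linear_combination Dm O b p q s k C ^ 2 * (dl D * F C (C - dB D) + dr D * F C (C - dA D)) * h1
    simp only [con, hβ, dA, ← hO, Qm, bf, wed, ell, Prod.fst_add, Prod.snd_add, Prod.smul_fst,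
      Prod.smul_snd, smul_eq_mul, Prod.fst_sub, Prod.snd_sub] at h2 ⊢
    linear_combination h2
  have tan : ∀ C ∈ S, ∃ w ∈ tangentConeAt ℝ S C,
      y * (p * s - q ^ 2) * ell O b C + z * k * bf p q s (C - O) β = 0 ∧
        ell O b C * bf p q s w β - wed w b * bf p q s (C - O) β ≠ 0 := by
    intro C hC
    obtain ⟨g, e, hw, l0, ac⟩ := hS C hC
    obtain ⟨w, w1, w0⟩ := tangentConeAt_nonempty_of_properSpace (𝕜 := ℝ) ac
    obtain ⟨p', q', s', e1, e2⟩ := g.quad
    have nO : C - O ≠ 0 := fun c => hw (by rw [c]; simp [wed])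
    obtain ⟨L, d1, d2⟩ := sc_grad' pm g.mem ci.mO g.isN g.du e1 nO
    have h1 := sc_tan w1 d1 fun y hy => (hS y hy).2.1.trans e.symm
    rw [d2, div_eq_zero_iff, or_iff_left (g.isN.pos _ nO).ne'] at h1
    have h2 := e2 w
    rw [h1, mul_zero] at h2
    refine ⟨w, w1, sc_alg1 D0 l0.ne' hw (fun c => ?_) (h0 C hC) (sc_tan2 w1
      (φ := con O b β p q s k x y z) (by unfold con bf ell wed; fun_prop)
      (fun y hy => (h0 y hy).trans (h0 C hC).symm) (y := x * bf p q s w w - 2 * y * wed w b *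
        bf p q s w β + z * (wed w b ^ 2 * bf p q s β β + k * wed w β ^ 2)) fun t => ?_) h2.symm⟩
    · have h3 : bf p q s (C - O) w = 0 := by
        simp only [bf, wed, ell, Prod.smul_fst, Prod.smul_snd, smul_eq_mul, Prod.fst_sub,
          Prod.snd_sub] at h2 c ⊢
        linear_combination -h2 - (p * (C.1 - O.1) * b.1 + q * ((C.1 - O.1) * b.2 +
          (C.2 - O.2) * b.1) + s * (C.2 - O.2) * b.2) * c
      have := lagrange p q s (C - O) w
      rw [h3, c] at this
      nlinarith [mul_pos (bf_pos p0 D0 nO) (bf_pos p0 D0 w0)]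
    · simp only [con, bf, wed, ell, Prod.fst_add, Prod.snd_add, Prod.smul_fst, Prod.smul_snd,
        smul_eq_mul, Prod.fst_sub, Prod.snd_sub]
      ring
  obtain ⟨w, w1, w2, w3⟩ := tan C hC
  have h1 : y * (p * s - q ^ 2) * wed w b + z * k * bf p q s w β = 0 := by
    refine sc_tan2 w1 (φ := fun X => y * (p * s - q ^ 2) * ell O b X + z * k * bf p q s (X - O) β)
      (by unfold bf ell wed; fun_prop) (fun X hX => (tan X hX).choose_spec.2.1.trans w2.symm)
      (y := 0) fun t => ?_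
    simp only [bf, wed, ell, Prod.fst_add, Prod.snd_add, Prod.smul_fst, Prod.smul_snd,
      smul_eq_mul, Prod.fst_sub, Prod.snd_sub]
    ring
  obtain ⟨-, -, hw, l0, -⟩ := hS C hC
  obtain ⟨-, -, -, l0', -⟩ := hS C' hC'
  have k0 : z * k = 0 := mul_right_cancel₀ w3 (by linear_combination ell O b C * h1 - wed w b * w2)
  have y0 : y = 0 := by
    rw [k0, zero_mul, add_zero] at w2
    simpa [D0.ne', l0.ne'] using w2
  have b0 := bf_pos p0 D0 (v := β) fun c => hw (by rw [c]; simp [wed])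
  have a1 := h0 C hC
  have a2 := h0 C' hC'
  simp only [con, y0] at a1 a2
  have x0 : x ≠ 0 := by
    rintro rfl
    exact mul_ne_zero z0 (mul_pos (pow_pos l0 2) b0).ne' (by linear_combination a1 - wed (C - O) β ^ 2 * k0)
  rw [gam, gam, ← sq_eq_sq₀ (by positivity) (by positivity), div_pow, div_pow,
    Real.sq_sqrt (bf_nonneg p0 D0 _), Real.sq_sqrt (bf_nonneg p0 D0 _),
    div_eq_div_iff (by positivity) (by positivity)]
  apply mul_left_cancel₀ x0
  linear_combination ell O b C' ^ 2 * a1 - ell O b C ^ 2 * a2 -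
    (ell O b C' ^ 2 * wed (C - O) β ^ 2 - ell O b C ^ 2 * wed (C' - O) β ^ 2) * k0

end Pool.Agent.P.MP_874adf_gt.Gn
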