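import Pool.Agent.P.MP_874adf_gt.Gn.Iface0

/-! Step T2, part a: the second moment argument for strips. -/

set_option autoImplicit false

namespace Pool.Agent.P.MP_874adf_gt.Gn.T2

open Pool.Agent.P.MP_874adf_gt.Fs Set Filter Topology Metric MeasureTheory ENNReal

/-- bounded second moments and convergence to zero force the first moments to zero -/
lemma second_moment {α : Type} [MeasurableSpace α] (ν : Measure α) [IsFiniteMeasure ν]
    (u : ℕ → α → ℝ≥0∞) (hu : ∀ n, Measurable (u n))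
    (h0 : ∀ᵐ y ∂ν, Tendsto (fun n => u n y) atTop (𝓝 0)) (K κ : ℝ≥0∞) (hK : K ≠ ⊤)
    (h2 : ∀ n, ∫⁻ y, u n y * u n y ∂ν ≤ K) (h1 : ∀ n, κ ≤ ∫⁻ y, u n y ∂ν) : κ = 0 := by
  have key : ∀ L : ℝ≥0∞, L ≠ 0 → L ≠ ⊤ → κ ≤ K * L⁻¹ := by
    intro L L0 L1
    have hb : ∀ n, κ ≤ ∫⁻ y, min (u n y) L ∂ν + K * L⁻¹ := by
      intro n
      refine (h1 n).trans ?_
      have e : ∀ y, u n y ≤ min (u n y) L + u n y * u n y * L⁻¹ := by
        intro y
        rcases le_total (u n y) L with h | h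
        · rw [min_eq_left h]; exact le_self_add
        · refine le_add_left ?_
          calc u n y = u n y * (L * L⁻¹) := by rw [ENNReal.mul_inv_cancel L0 L1, mul_one]
            _ ≤ u n y * (u n y * L⁻¹) := by gcongr
            _ = _ := by rw [mul_assoc]
      calc ∫⁻ y, u n y ∂ν ≤ ∫⁻ y, (min (u n y) L + u n y * u n y * L⁻¹) ∂ν := lintegral_mono e
        _ = ∫⁻ y, min (u n y) L ∂ν + (∫⁻ y, u n y * u n y ∂ν) * L⁻¹ := by
          rw [lintegral_add_left ((hu n).min measurable_const),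
            lintegral_mul_const' _ _ (ENNReal.inv_ne_top.2 L0)]
        _ ≤ _ := by gcongr; exact h2 n
    have hl : Tendsto (fun n => ∫⁻ y, min (u n y) L ∂ν) atTop (𝓝 (∫⁻ _y, 0 ∂ν)) := by
      refine tendsto_lintegral_of_dominated_convergence (fun _ => L)
        (fun n => (hu n).min measurable_const)
        (fun n => Eventually.of_forall fun y => min_le_right _ _) ?_ ?_
      · rw [lintegral_const]; exact ENNReal.mul_ne_top L1 (measure_ne_top _ _)
      · filter_upwards [h0] with y hy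
        have := hy.min (tendsto_const_nhds (x := L))
        simpa using this
    have hl2 := hl.add (tendsto_const_nhds (x := K * L⁻¹))
    have := ge_of_tendsto' hl2 hb
    simpa using this
  have ht : Tendsto (fun n : ℕ => K * ((n : ℝ≥0∞))⁻¹) atTop (𝓝 (K * 0)) :=
    ENNReal.Tendsto.const_mul ENNReal.tendsto_inv_nat_nhds_zero (Or.inr hK)
  have : κ ≤ K * 0 := by
    refine ge_of_tendsto ht ?_
    filter_upwards [eventually_ge_atTop 1] with n hn
    exact key n (by simp; omega) (by simp)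
  simpa using this

/-- the lines with slope in `J` that pass near `x` -/
def St (J : Set ℝ) (x : P) (s : ℝ) : Set (ℝ × ℝ) := {l | l.2 ∈ J ∧ |l.1 - pr l.2 x| ≤ s}

lemma mw_eq (μ : Measure (ℝ × ℝ)) (J : Set ℝ) (x : P) (s : ℝ) :
    mw μ J x s = μ.real (St J x s) := rfl

lemma meas_St (j k s : ℝ) : MeasurableSet {w : P × (ℝ × ℝ) | w.2 ∈ St (Icc j k) w.1 s} := by
  have e : {w : P × (ℝ × ℝ) | w.2 ∈ St (Icc j k) w.1 s} =
      {w | j ≤ w.2.2} ∩ {w | w.2.2 ≤ k} ∩ {w | |w.2.1 - (w.1.1 - w.2.2 * w.1.2)| ≤ s} := by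
    ext w; simp [St, pr]
  rw [e]
  refine (IsClosed.inter (IsClosed.inter ?_ ?_) ?_).measurableSet <;>
    exact isClosed_le (by fun_prop) (by fun_prop)

lemma meas_St' (j k s : ℝ) (x : P) : MeasurableSet (St (Icc j k) x s) :=
  measurable_prodMk_left (meas_St j k s)

lemma vol_slab (a b θ p δ : ℝ) :
    volume {y : P | y.2 ∈ Icc a b ∧ |p - pr θ y| ≤ δ} =
      ENNReal.ofReal (2 * δ) * ENNReal.ofReal (b - a) := by
  have hm : MeasurableSet {y : P | y.2 ∈ Icc a b ∧ |p - pr θ y| ≤ δ} := by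
    have e : {y : P | y.2 ∈ Icc a b ∧ |p - pr θ y| ≤ δ} =
        {y | a ≤ y.2} ∩ {y | y.2 ≤ b} ∩ {y | |p - (y.1 - θ * y.2)| ≤ δ} := by
      ext w; simp [pr]
    rw [e]
    refine (IsClosed.inter (IsClosed.inter ?_ ?_) ?_).measurableSet <;>
      exact isClosed_le (by fun_prop) (by fun_prop)
  rw [Measure.volume_eq_prod, Measure.prod_apply_symm hm]
  have e : ∀ t : ℝ, volume ((fun x : ℝ => (x, t)) ⁻¹'
      {y : P | y.2 ∈ Icc a b ∧ |p - pr θ y| ≤ δ}) =
      (Icc a b).indicator (fun _ => ENNReal.ofReal (2 * δ)) t := by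
    intro t
    by_cases ht : t ∈ Icc a b
    · rw [indicator_of_mem ht]
      have : (fun x : ℝ => (x, t)) ⁻¹' {y : P | y.2 ∈ Icc a b ∧ |p - pr θ y| ≤ δ} =
          Icc (p + θ * t - δ) (p + θ * t + δ) := by
        ext x
        simp only [mem_preimage, mem_ofPred_eq, pr, abs_le, mem_Icc]
        constructor
        · rintro ⟨-, h1, h2⟩; constructor <;> linarith
        · rintro ⟨h1, h2⟩; exact ⟨ht, by linarith, by linarith⟩
      rw [this, Real.volume_Icc]
      congr 1; ring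
    · rw [indicator_of_notMem ht]
      have : (fun x : ℝ => (x, t)) ⁻¹' {y : P | y.2 ∈ Icc a b ∧ |p - pr θ y| ≤ δ} = ∅ := by
        ext x
        simp only [mem_preimage, mem_ofPred_eq, ht, false_and, mem_empty_iff_false]
      rw [this, measure_empty]
  simp_rw [e]
  rw [lintegral_indicator measurableSet_Icc, setLIntegral_const, Real.volume_Icc]

lemma first_moment (μ : Measure (ℝ × ℝ)) [IsFiniteMeasure μ] (c : P) {q : ℝ} (q0 : 0 < q)
    (j k : ℝ) {δ : ℝ} (δ1 : δ ≤ q / 4) :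
    ENNReal.ofReal (2 * δ) * ENNReal.ofReal (q / (|j| + |k| + 1)) * μ (St (Icc j k) c (q / 4)) ≤
      ∫⁻ y in closedBall c q, μ (St (Icc j k) y δ) := by
  set T := |j| + |k| + 1 with hT
  have T1 : 1 ≤ T := by have := abs_nonneg j; have := abs_nonneg k; linarith
  have e1 := Measure.prod_apply (μ := volume.restrict (closedBall c q)) (ν := μ) (meas_St j k δ)
  have e2 :=
    Measure.prod_apply_symm (μ := volume.restrict (closedBall c q)) (ν := μ) (meas_St j k δ)
  have e3 : ∫⁻ y in closedBall c q, μ (St (Icc j k) y δ) =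
      ∫⁻ l, (volume.restrict (closedBall c q)) {y : P | l ∈ St (Icc j k) y δ} ∂μ :=
    e1.symm.trans e2
  rw [e3, ← setLIntegral_const]
  refine le_trans ?_ (setLIntegral_le_lintegral (St (Icc j k) c (q / 4)) _)
  refine setLIntegral_mono' (meas_St' _ _ _ _) fun l hl => ?_
  have hq : q / T = (c.2 + q / T / 2) - (c.2 - q / T / 2) := by ring
  rw [Measure.restrict_apply' measurableSet_closedBall, hq, ← vol_slab _ _ l.2 l.1 δ]
  refine measure_mono ?_
  rintro y ⟨h1, h2⟩
  refine ⟨⟨hl.1, h2⟩, ?_⟩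
  have hθ : |l.2| ≤ T := by
    have := le_abs_self k; have := neg_abs_le j; have := abs_nonneg j; have := abs_nonneg k
    rw [abs_le]; constructor <;> linarith [hl.1.1, hl.1.2]
  have hqT : q / T ≤ q := div_le_self q0.le T1
  have h3 : |y.2 - c.2| ≤ q / T / 2 := by rw [abs_le]; constructor <;> linarith [h1.1, h1.2]
  have h4 : |l.2 * (y.2 - c.2)| ≤ q / 2 := by
    rw [abs_mul]
    calc |l.2| * |y.2 - c.2| ≤ T * (q / T / 2) := by gcongr
      _ = q / 2 := by field_simp
  have h5 := hl.2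
  simp only [pr] at h2 h5
  rw [mem_closedBall, Prod.dist_eq, Real.dist_eq, Real.dist_eq, max_le_iff]
  rw [abs_le] at h2 h3 h4 h5
  constructor <;> rw [abs_le] <;> constructor <;> nlinarith [h2.1, h2.2, h3.1, h3.2]

lemma mixed_moment (μ : Measure (ℝ × ℝ)) [IsFiniteMeasure μ] (j k j2 k2 : ℝ) (hg : k2 < j)
    (δ η : ℝ) :
    ∫⁻ y : P, μ (St (Icc j k) y δ) * μ (St (Icc j2 k2) y η) ≤
      ENNReal.ofReal (2 * δ) * ENNReal.ofReal (2 * (δ + η) / (j - k2)) * (μ univ * μ univ) := by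
  set S : Set (P × ((ℝ × ℝ) × (ℝ × ℝ))) :=
    {w | w.2.1 ∈ St (Icc j k) w.1 δ ∧ w.2.2 ∈ St (Icc j2 k2) w.1 η} with hS
  have hm : MeasurableSet S := by
    have m1 : Measurable fun w : P × ((ℝ × ℝ) × (ℝ × ℝ)) => (w.1, w.2.1) := by fun_prop
    have m2 : Measurable fun w : P × ((ℝ × ℝ) × (ℝ × ℝ)) => (w.1, w.2.2) := by fun_prop
    exact (m1 (meas_St j k δ)).inter (m2 (meas_St j2 k2 η))
  have e1 := Measure.prod_apply (μ := (volume : Measure P)) (ν := μ.prod μ) hm
  have e2 := Measure.prod_apply_symm (μ := (volume : Measure P)) (ν := μ.prod μ) hm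
  have e0 : ∀ y : P, μ (St (Icc j k) y δ) * μ (St (Icc j2 k2) y η) =
      (μ.prod μ) (Prod.mk y ⁻¹' S) := by
    intro y
    rw [← Measure.prod_prod]; rfl
  simp_rw [e0]
  rw [← e1, e2, ← Measure.prod_prod, univ_prod_univ, ← lintegral_const]
  refine lintegral_mono fun w => ?_
  by_cases h : w.1.2 ∈ Icc j k ∧ w.2.2 ∈ Icc j2 k2
  · have g0 : 0 < j - k2 := by linarith
    have hθ : j - k2 ≤ w.1.2 - w.2.2 := by linarith [h.1.1, h.2.2]
    set m := (w.2.1 - w.1.1) / (w.1.2 - w.2.2) with hmm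
    have hq : 2 * (δ + η) / (j - k2) = (m + (δ + η) / (j - k2)) - (m - (δ + η) / (j - k2)) := by
      ring
    simp only []
    rw [hq, ← vol_slab _ _ w.1.2 w.1.1 δ]
    refine measure_mono ?_
    rintro y ⟨h1, h2⟩
    refine ⟨?_, h1.2⟩
    have a1 := h1.2
    have a2 := h2.2
    simp only [pr] at a1 a2
    have t0 : 0 < w.1.2 - w.2.2 := by linarith
    have e : y.2 - m = ((w.1.1 - (y.1 - w.1.2 * y.2)) - (w.2.1 - (y.1 - w.2.2 * y.2))) /
        (w.1.2 - w.2.2) := by
      rw [hmm]; field_simp; ring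
    have b : |y.2 - m| ≤ (δ + η) / (j - k2) := by
      rw [e, abs_div, abs_of_pos t0]
      have := abs_sub (w.1.1 - (y.1 - w.1.2 * y.2)) (w.2.1 - (y.1 - w.2.2 * y.2))
      have n1 := abs_nonneg (w.1.1 - (y.1 - w.1.2 * y.2))
      have n2 := abs_nonneg (w.2.1 - (y.1 - w.2.2 * y.2))
      have hn : 0 ≤ δ + η := by linarith
      gcongr
      linarith
    rw [abs_le] at b
    constructor <;> linarith [b.1, b.2]
  · have : (fun x : P => (x, w)) ⁻¹' S = ∅ := by
      ext y
      simp only [hS, mem_preimage, mem_ofPred_eq, mem_empty_iff_false, iff_false]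
      exact fun hy => h ⟨hy.1.1, hy.2.1⟩
    simp only [this, measure_empty, zero_le]

theorem core_e (μ : Measure (ℝ × ℝ)) [IsFiniteMeasure μ] (c : P) {q : ℝ} (q0 : 0 < q)
    (j k j2 k2 : ℝ) (hg : k2 < j) {K s0 : ℝ} (K0 : 0 < K) (s00 : 0 < s0)
    (hpos : 0 < mw μ (Icc j k) c (q / 4))
    (hcmp : ∀ y ∈ closedBall c q, ∀ s, 0 < s → s < s0 →
      mw μ (Icc j k) y s ≤ K * mw μ (Icc j2 k2) y (K * s))
    (hlim : ∀ᵐ y : P, y ∈ closedBall c q → ∀ ε > (0 : ℝ), ∃ δ > (0 : ℝ), ∀ s, 0 < s → s < δ →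
      mw μ (Icc j k) y s ≤ ε * s) : False := by
  have hfin : IsFiniteMeasure (volume.restrict (closedBall c q) : Measure P) :=
    isFiniteMeasure_restrict.2 (isCompact_closedBall c q).measure_lt_top.ne
  set s1 := min (s0 / 2) (q / 4) with hs1
  have s10 : 0 < s1 := lt_min (by linarith) (by linarith)
  set δ : ℕ → ℝ := fun n => s1 * (1 / ((n : ℝ) + 1)) with hδ
  have δ0 : ∀ n, 0 < δ n := fun n => by positivity
  have δ1 : ∀ n, δ n ≤ s1 := fun n => by
    have : 1 / ((n : ℝ) + 1) ≤ 1 := by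
      rw [div_le_one (by positivity)]; linarith [Nat.cast_nonneg (α := ℝ) n]
    exact mul_le_of_le_one_right s10.le this
  have δt : Tendsto δ atTop (𝓝 0) := by
    have := (tendsto_one_div_add_atTop_nhds_zero_nat (𝕜 := ℝ)).const_mul s1
    rwa [mul_zero] at this
  set T := |j| + |k| + 1 with hT
  have T0 : 0 < T := by positivity
  have g0 : 0 < j - k2 := by linarith
  have hz := second_moment (volume.restrict (closedBall c q))
    (fun n y => ENNReal.ofReal (δ n)⁻¹ * μ (St (Icc j k) y (δ n)))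
    (fun n => (measurable_measure_prodMk_left (meas_St j k (δ n))).const_mul _) ?_
    (ENNReal.ofReal (4 * K * (1 + K) / (j - k2)) * (μ univ * μ univ))
    (ENNReal.ofReal (2 * (q / T)) * μ (St (Icc j k) c (q / 4))) ?_ ?_ ?_
  · rcases mul_eq_zero.1 hz with h | h
    · rw [ENNReal.ofReal_eq_zero] at h
      have : 0 < 2 * (q / T) := by positivity
      linarith
    · rw [mw_eq, measureReal_def, h] at hpos
      simp at hpos
  · rw [ae_restrict_iff' measurableSet_closedBall]
    filter_upwards [hlim] with y hy hyc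
    have e : ∀ n, ENNReal.ofReal (δ n)⁻¹ * μ (St (Icc j k) y (δ n)) =
        ENNReal.ofReal ((δ n)⁻¹ * mw μ (Icc j k) y (δ n)) := by
      intro n
      rw [ENNReal.ofReal_mul (inv_pos.2 (δ0 n)).le, mw_eq, ofReal_measureReal]
    simp_rw [e]
    rw [← ENNReal.ofReal_zero]
    refine ENNReal.tendsto_ofReal ?_
    rw [Metric.tendsto_nhds]
    intro ε ε0
    obtain ⟨δ', δ'0, h⟩ := hy hyc (ε / 2) (by linarith)
    filter_upwards [δt.eventually (gt_mem_nhds δ'0)] with n hn
    have h1 := h _ (δ0 n) hn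
    have h2 : 0 ≤ mw μ (Icc j k) y (δ n) := measureReal_nonneg
    rw [Real.dist_eq, sub_zero, abs_of_nonneg (by have := δ0 n; positivity),
      inv_mul_lt_iff₀ (δ0 n)]
    nlinarith [δ0 n]
  · exact ENNReal.mul_ne_top ENNReal.ofReal_ne_top
      (ENNReal.mul_ne_top (measure_ne_top _ _) (measure_ne_top _ _))
  · intro n
    have hs : δ n < s0 := by have := δ1 n; have := min_le_left (s0 / 2) (q / 4); linarith
    have hmm := mixed_moment μ j k j2 k2 hg (δ n) (K * δ n)
    set A := ENNReal.ofReal (δ n)⁻¹ * ENNReal.ofReal (δ n)⁻¹ * ENNReal.ofReal K with hA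
    have d0 := δ0 n
    calc _ ≤ ∫⁻ y in closedBall c q,
          A * (μ (St (Icc j k) y (δ n)) * μ (St (Icc j2 k2) y (K * δ n))) := by
          refine setLIntegral_mono' measurableSet_closedBall fun y hy => ?_
          have h1 := ENNReal.ofReal_le_ofReal (hcmp y hy _ (δ0 n) hs)
          rw [ENNReal.ofReal_mul K0.le, mw_eq, mw_eq, ofReal_measureReal,
            ofReal_measureReal] at h1
          calc _ ≤ ENNReal.ofReal (δ n)⁻¹ * μ (St (Icc j k) y (δ n)) * (ENNReal.ofReal (δ n)⁻¹ *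
              (ENNReal.ofReal K * μ (St (Icc j2 k2) y (K * δ n)))) := by gcongr
            _ = _ := by rw [hA]; ring
      _ ≤ ∫⁻ y, A * (μ (St (Icc j k) y (δ n)) * μ (St (Icc j2 k2) y (K * δ n))) :=
          setLIntegral_le_lintegral _ _
      _ = A * ∫⁻ y, μ (St (Icc j k) y (δ n)) * μ (St (Icc j2 k2) y (K * δ n)) := by
          refine lintegral_const_mul' _ _ ?_
          rw [hA]
          exact ENNReal.mul_ne_top (ENNReal.mul_ne_top ENNReal.ofReal_ne_top
            ENNReal.ofReal_ne_top) ENNReal.ofReal_ne_top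
      _ ≤ A * (ENNReal.ofReal (2 * δ n) * ENNReal.ofReal (2 * (δ n + K * δ n) / (j - k2)) *
          (μ univ * μ univ)) := by gcongr
      _ = _ := by
          rw [← mul_assoc A, hA, ← ENNReal.ofReal_mul (by positivity),
            ← ENNReal.ofReal_mul (by positivity), ← ENNReal.ofReal_mul (by positivity),
            ← ENNReal.ofReal_mul (by positivity)]
          congr 2
          field_simp
          ring
  · intro n
    have hs : δ n ≤ q / 4 := (δ1 n).trans (min_le_right _ _)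
    have h1 := first_moment μ c q0 j k hs
    have d0 := δ0 n
    rw [lintegral_const_mul' _ _ ENNReal.ofReal_ne_top]
    refine le_trans (le_of_eq ?_) (mul_le_mul_right h1 _)
    rw [← mul_assoc, ← ENNReal.ofReal_mul (by positivity), ← ENNReal.ofReal_mul (by positivity)]
    congr 2
    field_simp
    rfl

end Pool.Agent.P.MP_874adf_gt.Gn.T2
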