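import Pool.Agent.P.MP_874adf_gt.Gn.T2b

/-! Step T2, part c: the comparison of slope windows in normalised coordinates. -/

set_option autoImplicit false

namespace Pool.Agent.P.MP_874adf_gt.Gn.T2

open Pool.Agent.P.MP_874adf_gt.Fs Set Filter Topology Metric MeasureTheory

lemma pr_add (θ t : ℝ) (y u : P) : pr θ (y + t • u) = pr θ y + t * pr θ u := by
  simp only [pr, Prod.fst_add, Prod.snd_add, Prod.smul_fst, Prod.smul_snd, smul_eq_mul]; ring

lemma pr_near (θ : ℝ) {u v : P} {e : ℝ} (h : ‖u - v‖ ≤ e) : |pr θ u - pr θ v| ≤ e * (1 + |θ|) := by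
  have h1 : |u.1 - v.1| ≤ e := (norm_fst_le (u - v)).trans h
  have h2 : |u.2 - v.2| ≤ e := (norm_snd_le (u - v)).trans h
  have e1 : pr θ u - pr θ v = (u.1 - v.1) - θ * (u.2 - v.2) := by simp only [pr]; ring
  have h3 := abs_sub (u.1 - v.1) (θ * (u.2 - v.2))
  rw [abs_mul] at h3
  have h4 : |θ| * |u.2 - v.2| ≤ |θ| * e := by gcongr
  rw [e1]; nlinarith

lemma geo_lo {y u a : P} {lam e t τ : ℝ} (l0 : 0 < lam) (l1 : lam ≤ 1 / 12) (e1 : e ≤ lam)
    (hu : ‖u - (0, 1)‖ ≤ e) (ha : ‖a - (12 * lam, -1)‖ ≤ e) (t0 : 0 < t) (tτ : t ≤ τ)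
    {l : ℝ × ℝ} (h1 : l.2 ∈ Icc (-8 * lam) (-4 * lam)) (h2 : pr l.2 y ≤ l.1)
    (h3 : l.1 < pr l.2 y + 2 * lam * t) : l ∈ sp (y + τ • a) y ∩ sp y (y + t • u) := by
  have a1 := pr_near l.2 hu
  have a2 := pr_near l.2 ha
  have e0 : 0 ≤ e := (norm_nonneg _).trans hu
  have b : |l.2| ≤ 1 := by rw [abs_le]; constructor <;> linarith [h1.1, h1.2]
  have c : e * (1 + |l.2|) ≤ 2 * lam := by nlinarith
  rw [abs_le] at a1 a2
  have p1 : pr l.2 ((0, 1) : P) = -l.2 := by simp [pr]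
  have p2 : pr l.2 ((12 * lam, -1) : P) = 12 * lam + l.2 := by simp [pr]
  have d1 : 2 * lam ≤ pr l.2 u := by linarith [a1.1, h1.2]
  have d2 : 2 * lam ≤ pr l.2 a := by linarith [a2.1, h1.1]
  constructor <;> simp only [sp, mem_ofPred_eq, pr_add]
  · intro hh
    have := hh.1 (by nlinarith)
    linarith
  · intro hh
    have := hh.2 (by nlinarith)
    linarith

lemma geo_up {y u a b : P} {lam e t τ : ℝ} (l0 : 0 < lam) (l1 : lam ≤ 1 / 12) (e1 : e ≤ lam / 2)
    (hu : ‖u - (0, 1)‖ ≤ e) (ha : ‖a - (12 * lam, -1)‖ ≤ e) (hb : ‖b - (1, -1)‖ ≤ e)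
    (t0 : 0 < t) (tτ : 4 * t < τ * lam) {l : ℝ × ℝ}
    (h : l ∈ sp (y + τ • a) (y + t • u + τ • b) ∩ sp y (y + t • u)) :
    l.2 ∈ Icc (-2 : ℝ) (-10 * lam) ∧ |l.1 - pr l.2 y| ≤ 6 * t := by
  obtain ⟨h1, h2⟩ := h
  simp only [sp, mem_ofPred_eq, pr_add] at h1 h2
  have a1 := pr_near l.2 hu
  have a2 := pr_near l.2 ha
  have a3 := pr_near l.2 hb
  have e0 : 0 ≤ e := (norm_nonneg _).trans hu
  have τ0 : 0 < τ := by nlinarith
  have p1 : pr l.2 ((0, 1) : P) = -l.2 := by simp [pr]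
  have p2 : pr l.2 ((12 * lam, -1) : P) = 12 * lam + l.2 := by simp [pr]
  have p3 : pr l.2 ((1, -1) : P) = 1 + l.2 := by simp [pr]
  rw [p1, abs_le] at a1
  rw [p2, abs_le] at a2
  rw [p3, abs_le] at a3
  have q1 := le_abs_self l.2
  have q2 := neg_abs_le l.2
  have q0 := abs_nonneg l.2
  set ω := 1 + |l.2| with hω
  have eω : e * ω ≤ ω * (lam / 2) := by nlinarith
  have u1 : pr l.2 u ≤ 2 * ω := by nlinarith [a1.2]
  have u2 : -(2 * ω) ≤ pr l.2 u := by nlinarith [a1.1]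
  have u3 : t * pr l.2 u ≤ 2 * t * ω := by nlinarith
  have u4 : -(2 * t * ω) ≤ t * pr l.2 u := by nlinarith
  have f : |l.1 - pr l.2 y| ≤ 2 * t * ω ∧ |l.1 - (pr l.2 y + t * pr l.2 u)| ≤ 2 * t * ω := by
    by_cases c : l.1 < pr l.2 y
    · have c' : ¬ l.1 < pr l.2 y + t * pr l.2 u := fun c' => h2 ⟨fun _ => c', fun _ => c⟩
      constructor <;> rw [abs_le] <;> constructor <;> linarith
    · have c' : l.1 < pr l.2 y + t * pr l.2 u := by tauto
      constructor <;> rw [abs_le] <;> constructor <;> linarith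
  obtain ⟨f1, f2⟩ := f
  have f1' := abs_le.1 f1
  have f2' := abs_le.1 f2
  have w : 2 * t * ω < τ * (ω * (lam / 2)) := by nlinarith
  have k1 : l.2 ≤ -10 * lam := by
    by_contra c
    push Not at c
    have g : ω * lam ≤ 12 * lam + l.2 := by
      rcases le_total 0 l.2 with s | s
      · rw [hω, abs_of_nonneg s]; nlinarith
      · rw [hω, abs_of_nonpos s]; nlinarith
    have g1 : τ * (ω * (lam / 2)) ≤ τ * pr l.2 a := by gcongr; linarith [a2.1]
    have g2 : τ * (ω * (lam / 2)) ≤ τ * pr l.2 b := by gcongr; linarith [a3.1]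
    exact h1 ⟨fun _ => by linarith [f2'.2], fun _ => by linarith [f1'.2]⟩
  have k2 : -2 ≤ l.2 := by
    by_contra c
    push Not at c
    have g : 1 + l.2 ≤ -(ω * lam) := by
      rw [hω, abs_of_nonpos (by linarith)]; nlinarith
    have g1 : τ * pr l.2 a ≤ τ * -(ω * (lam / 2)) := by gcongr; linarith [a2.2]
    have g2 : τ * pr l.2 b ≤ τ * -(ω * (lam / 2)) := by gcongr; linarith [a3.2]
    exact h1 ⟨fun c => by linarith [f1'.1], fun c => by linarith [f2'.1]⟩
  refine ⟨⟨k2, k1⟩, f1.trans ?_⟩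
  have : ω ≤ 3 := by rw [hω, abs_of_nonpos (by linarith)]; linarith
  nlinarith

/-- the inequality between the two defects, read through the Crofton formula -/
lemma defect_cmp (hMON : S_MON) {M : Set P} {d : P → P → ℝ} (h : PM M d) {x : P} {ρ : ℝ}
    (hM : ball x ρ ⊆ M) {μ : Measure (ℝ × ℝ)} {Ψ : ℝ → ℝ} (hc : Crof d x ρ μ Ψ) {y B : P}
    {l r t τ : ℝ} (c : Circ M d (0, B, l, r) (d 0 y)) (t0 : 0 ≤ t) (τ0 : 0 ≤ τ) (τ1 : τ ≤ 1)
    (hy : y ∈ ball x ρ) (hz : y + t • y ∈ ball x ρ) (hA : y + τ • (l • B - y) ∈ ball x ρ)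
    (hB : y + t • y + τ • (B - (y + t • y)) ∈ ball x ρ) (h1 : (y + τ • (l • B - y)).2 ≤ y.2)
    (h2 : (y + t • y + τ • (B - (y + t • y))).2 ≤ y.2) (h3 : y.2 ≤ (y + t • y).2) :
    (1 - r) * μ.real (sp (y + τ • (l • B - y)) y ∩ sp y (y + t • y)) ≤
      μ.real (sp (y + τ • (l • B - y)) (y + t • y + τ • (B - (y + t • y))) ∩
        sp y (y + t • y)) := by
  have := hc.fin
  have eA : dA ((0 : P), B, l, r) = l • B := by
    show (0 : P) + l • (B - 0) = _
    rw [zero_add, sub_zero]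
  have mO : (0 : P) ∈ M := c.mO
  have mB : B ∈ M := c.mB
  have r0 : 0 < r := c.r0
  have r1 : r < 1 := c.r1
  have mA : l • B ∈ M := by simpa using h.seg_mem mO mB c.l0.le c.l1.le
  set z := y + t • y with hzz
  set A' := y + τ • (l • B - y) with hA'
  set B' := z + τ • (B - z) with hB'
  have add : d 0 y + d y z = d 0 z := by
    have := h.line_add (x := 0) (v := y) (r := 0) (s := 1) (t := 1 + t) (by simpa using mO)
      (by rw [zero_add, add_smul, one_smul]; exact hM hz) zero_le_one (by linarith)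
    simpa [add_smul] using this
  have n := h.nonneg (hM hy) (hM hz)
  have mon := ((hMON M d _ _ h c) z (hM hz)).1 (by show d 0 y ≤ d 0 z; linarith)
  have on := c.on y (hM hy) rfl
  simp only [Vf] at mon
  rw [eA] at mon on
  change d 0 z - d 0 y ≤ (d (l • B) z - r * d B z) / (1 - r) at mon
  change d (l • B) y = r * d B y at on
  rw [le_div_iff₀ (by linarith)] at mon
  have a1 := h.add (hM hy) mA τ0 τ1
  have a2 := h.triangle _ mA _ (hM hA) _ (hM hz)
  have b1 := h.add (hM hz) mB τ0 τ1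
  have b2 := h.triangle _ mB _ (hM hB) _ (hM hy)
  rw [← hA', h.symm _ (hM hy) _ (hM hA), h.symm _ (hM hA) _ mA, h.symm _ (hM hy) _ mA] at a1
  rw [← hB', h.symm _ (hM hz) _ (hM hB), h.symm _ (hM hB) _ mB, h.symm _ (hM hz) _ mB] at b1
  have d1 := defect hc hA hy hz h1 h3
  have d2 := defect hc hB hy hz h2 h3
  have u : μ.real (sp B' y ∩ sp y z) ≤ μ.real (sp A' y ∩ sp y z) + μ.real (sp A' B' ∩ sp y z) := by
    refine le_trans (measureReal_mono ?_) (measureReal_union_le _ _)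
    intro w
    simp only [sp, mem_inter_iff, mem_union, mem_ofPred_eq]
    tauto
  have p1 : 0 ≤ μ.real (sp A' B' ∩ sp y z) := measureReal_nonneg
  have k : d A' y + d y z - d A' z ≤ r * (d B' y + d y z - d B' z) := by nlinarith
  rw [d1, d2] at k
  nlinarith

/-- focal data close to the given ones are valid on a dense subset of an open set near `C` -/
def Dn (M : Set P) (d : P → P → ℝ) (O C B0 : P) (l0 r0 : ℝ) : Prop :=
  ∀ ε > (0 : ℝ), ∃ Ω : Set P, IsOpen Ω ∧ Ω.Nonempty ∧ Ω ⊆ ball C ε ∧ ∀ y ∈ Ω, ∀ η > (0 : ℝ),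
    ∃ y' ∈ ball y η, ∃ (B : P) (l r : ℝ), dist B B0 < ε ∧ |l - l0| < ε ∧ |r - r0| < ε ∧
      Circ M d (O, B, l, r) (d O y')

lemma nrm {v : P} {e : ℝ} (h1 : |v.1| ≤ e) (h2 : |v.2| ≤ e) : ‖v‖ ≤ e := by
  rw [Prod.norm_def, Real.norm_eq_abs, Real.norm_eq_abs]; exact max_le h1 h2

theorem normal (hMON : S_MON) (hCR : S_CR) {M : Set P} {d : P → P → ℝ} (h : PM M d) {W : Set P}
    (hW : IsOpen W) (hWM : W ⊆ M) (hC : ((0, 1) : P) ∈ W) {l0 r0 : ℝ} (l00 : 0 < l0)
    (l01 : l0 < 1) (r01 : r0 < 1) (hD : Dn M d 0 (0, 1) (1, 0) l0 r0)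
    (hae : ∀ᵐ y : P, y ∈ W → ∃ G, IsS G ∧ ¬ IsN G ∧ DU d y G) : False := by
  obtain ⟨ρ, ρ0, hM, μ, Ψ, hc⟩ := hCR M d h _ (hWM hC)
  have := hc.fin
  obtain ⟨ρ1, ρ10, hρ1⟩ := Metric.isOpen_iff.1 hW _ hC
  set lam := l0 / 12 with hlam
  have lam0 : 0 < lam := by positivity
  have lam1 : lam ≤ 1 / 12 := by linarith
  obtain ⟨ε, ε0, ε1, ε2, ε3, ε4⟩ : ∃ ε > (0 : ℝ), ε ≤ ρ1 ∧ ε ≤ ρ / 20 ∧ ε ≤ lam / 16 ∧
      ε ≤ (1 - r0) / 2 :=
    ⟨min (min ρ1 (ρ / 20)) (min (lam / 16) ((1 - r0) / 2)), by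
      have : 0 < 1 - r0 := by linarith
      positivity, (min_le_left _ _).trans (min_le_left _ _),
      (min_le_left _ _).trans (min_le_right _ _), (min_le_right _ _).trans (min_le_left _ _),
      (min_le_right _ _).trans (min_le_right _ _)⟩
  obtain ⟨Ω, Ωo, ⟨c, hcΩ⟩, Ωs, hΩ⟩ := hD ε ε0
  obtain ⟨q, q0, hq⟩ := Metric.isOpen_iff.1 Ωo c hcΩ
  have hq' : closedBall c (q / 2) ⊆ Ω := (closedBall_subset_ball (by linarith)).trans hq
  have r02 : 0 < 1 - r0 := by linarith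
  set K := 2 / (1 - r0) + (12 / lam + 3) with hK
  have K1 : 2 / (1 - r0) ≤ K := by rw [hK]; have : 0 < 12 / lam + 3 := by positivity
                                   linarith
  have K2 : 12 / lam + 3 ≤ K := by rw [hK]; have : 0 < 2 / (1 - r0) := by positivity
                                   linarith
  refine core h hM hc (c := c) (q := q / 2) (by linarith)
    (hq'.trans (Ωs.trans (ball_subset_ball (by linarith)))) (j := -8 * lam) (k := -4 * lam)
    (j2 := -2) (k2 := -10 * lam) (by linarith) (by linarith) (by linarith) (K := K)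
    (s0 := min (q / 8) (ε * lam * lam / 8)) (by positivity) (by positivity) ?_ ?_
  swap
  · filter_upwards [hae] with y hy hyc
    exact hy (hρ1 (ball_subset_ball ε1 (Ωs (hq' hyc))))
  intro y hy s s0 s1
  have s2 : s < q / 8 := s1.trans_le (min_le_left _ _)
  have s3 : s < ε * lam * lam / 8 := s1.trans_le (min_le_right _ _)
  have sε : s ≤ ε := by nlinarith [mul_pos ε0 lam0]
  have m : ((y.1 - 2 * s, y.2) : P) ∈ Ω := by
    refine hq ?_
    have a : ((y.1 - 2 * s, y.2) : P) ∈ closedBall y (2 * s) := by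
      refine mem_cb ?_ ?_ <;> rw [abs_le] <;> constructor <;> simp only [] <;> linarith
    have b := dist_triangle ((y.1 - 2 * s, y.2) : P) y c
    rw [mem_closedBall] at a hy
    rw [mem_ball]; linarith
  obtain ⟨y', hy', B, l, r, hB, hl, hr, cc⟩ := hΩ _ m (s / 4) (by linarith)
  have m1 := Ωs m
  rw [mem_ball, dist_eq_norm] at hy' m1
  rw [dist_eq_norm] at hB
  have n1 : ‖y' - (0, 1)‖ ≤ 2 * ε := by
    have := norm_sub_le_norm_sub_add_norm_sub y' (y.1 - 2 * s, y.2) (0, 1)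
    linarith
  set t := 2 * s / lam with ht
  have t0 : 0 < t := by positivity
  have tl : t * lam = 2 * s := by rw [ht]; field_simp
  have t1 : 4 * t < ε * lam := by
    by_contra c
    push Not at c
    nlinarith [mul_le_mul_of_nonneg_right c lam0.le]
  have t2 : t ≤ ε := by nlinarith
  have ε5 : ε ≤ 1 / 100 := by linarith
  have y1 : |y'.1| ≤ 2 * ε := by simpa using (norm_fst_le _).trans n1
  have y2 : |y'.2 - 1| ≤ 2 * ε := by simpa using (norm_snd_le _).trans n1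
  have B1 : |B.1 - 1| ≤ ε := by simpa using (norm_fst_le _).trans hB.le
  have B2 : |B.2| ≤ ε := by simpa using (norm_snd_le _).trans hB.le
  have l0' : 0 < l := cc.l0
  have l1' : l < 1 := cc.l1
  rw [abs_le] at y1 y2 B1 B2
  rw [abs_lt] at hl hr
  have na : ‖(l • B - y') - (12 * lam, -1)‖ ≤ 8 * ε := by
    refine nrm ?_ ?_ <;> rw [abs_le] <;>
      simp only [Prod.fst_sub, Prod.snd_sub, Prod.smul_fst, Prod.smul_snd, smul_eq_mul] <;>
      constructor <;> nlinarith [y1.1, y1.2, y2.1, y2.2, B1.1, B1.2, B2.1, B2.2, hl.1, hl.2]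
  have nz : ‖y' + t • y' - (0, 1)‖ ≤ 4 * ε := by
    refine nrm ?_ ?_ <;> rw [abs_le] <;>
      simp only [Prod.fst_sub, Prod.snd_sub, Prod.smul_fst, Prod.smul_snd, smul_eq_mul,
        Prod.fst_add, Prod.snd_add] <;>
      constructor <;> nlinarith [y1.1, y1.2, y2.1, y2.2]
  have nb : ‖(B - (y' + t • y')) - (1, -1)‖ ≤ 8 * ε := by
    have e : (B - (y' + t • y')) - (1, -1) = (B - (1, 0)) - (y' + t • y' - (0, 1)) := by
      ext <;> simp <;> ring
    rw [e]
    linarith [norm_sub_le (B - (1, 0)) (y' + t • y' - (0, 1))]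
  have bd : ∀ w v v0 : P, ‖w - (0, 1)‖ ≤ 4 * ε → ‖v - v0‖ ≤ 8 * ε → ‖v0‖ ≤ 1 →
      w + ε • v ∈ ball ((0, 1) : P) ρ := by
    intro w v v0 h1 h2 h3
    rw [mem_ball, dist_eq_norm, add_sub_right_comm]
    have a := norm_add_le (w - (0, 1)) (ε • v)
    have b := norm_le_insert' v v0
    rw [norm_smul, Real.norm_eq_abs, abs_of_pos ε0] at a
    nlinarith
  have a2 : (l • B - y').2 ≤ -(1 / 2) := by
    have := abs_le.1 ((norm_snd_le _).trans na)
    simp only [Prod.snd_sub] at this ⊢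
    linarith [this.2]
  have b2 : (B - (y' + t • y')).2 ≤ -(1 / 2) := by
    have := abs_le.1 ((norm_snd_le _).trans nb)
    simp only [Prod.snd_sub] at this ⊢
    linarith [this.2]
  have key := defect_cmp hMON h hM hc cc t0.le ε0.le (by linarith)
    (by rw [mem_ball, dist_eq_norm]; linarith) (by rw [mem_ball, dist_eq_norm]; linarith)
    (bd _ _ _ (by linarith) na (nrm (by simp only []; rw [abs_le]; constructor <;> linarith)
      (by simp))) (bd _ _ _ nz nb (nrm (by simp) (by simp)))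
    (by rw [Prod.snd_add, Prod.smul_snd, smul_eq_mul]; nlinarith)
    (by rw [Prod.snd_add, Prod.snd_add, Prod.smul_snd, Prod.smul_snd, smul_eq_mul, smul_eq_mul]
        nlinarith [y2.2])
    (by rw [Prod.snd_add, Prod.smul_snd, smul_eq_mul]; nlinarith [y2.1])
  have sh : ∀ θ : ℝ, |θ| ≤ 2 → |pr θ y' - (pr θ y - 2 * s)| ≤ 3 * s / 4 := by
    intro θ hθ
    have a := pr_near θ hy'.le
    have e : pr θ ((y.1 - 2 * s, y.2) : P) = pr θ y - 2 * s := by simp only [pr]; ring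
    rw [e] at a
    nlinarith
  have lo : mw μ (Icc (-8 * lam) (-4 * lam)) y s ≤
      μ.real (sp (y' + ε • (l • B - y')) y' ∩ sp y' (y' + t • y')) := by
    refine measureReal_mono ?_
    rintro w ⟨w1, w2⟩
    have a := abs_le.1 (sh w.2 (by rw [abs_le]; constructor <;> linarith [w1.1, w1.2]))
    rw [abs_le] at w2
    exact geo_lo lam0 lam1 (e := 8 * ε) (by linarith) (by linarith) na t0 t2 w1
      (by linarith [a.2, w2.1]) (by linarith [a.1, w2.2])
  have up : μ.real (sp (y' + ε • (l • B - y')) (y' + t • y' + ε • (B - (y' + t • y'))) ∩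
      sp y' (y' + t • y')) ≤ mw μ (Icc (-2) (-10 * lam)) y (K * s) := by
    refine measureReal_mono ?_
    intro w hw
    obtain ⟨w1, w2⟩ := geo_up lam0 lam1 (e := 8 * ε) (by linarith) (by linarith) na nb t0 t1 hw
    refine ⟨w1, ?_⟩
    have a := abs_le.1 (sh w.2 (by rw [abs_le]; constructor <;> linarith [w1.1, w1.2]))
    have b : 6 * t + 3 * s ≤ K * s := by
      have : (12 / lam + 3) * s = 6 * t + 3 * s := by rw [ht]; ring
      nlinarith
    rw [abs_le] at w2 ⊢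
    constructor <;> linarith [w2.1, w2.2, a.1, a.2]
  have p1 : 0 ≤ mw μ (Icc (-8 * lam) (-4 * lam)) y s := measureReal_nonneg
  have p2 : 0 ≤ mw μ (Icc (-2) (-10 * lam)) y (K * s) := measureReal_nonneg
  have f : (1 - r0) / 2 * mw μ (Icc (-8 * lam) (-4 * lam)) y s ≤
      mw μ (Icc (-2) (-10 * lam)) y (K * s) := by
    refine le_trans ?_ (key.trans up)
    exact mul_le_mul (by linarith [hr.2]) lo p1 (by linarith [hr.2])
  calc _ = 2 / (1 - r0) * ((1 - r0) / 2 * mw μ (Icc (-8 * lam) (-4 * lam)) y s) := by field_simp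
    _ ≤ _ := mul_le_mul K1 f (by positivity) (by positivity)

end Pool.Agent.P.MP_874adf_gt.Gn.T2
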