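import Pool.Agent.P.MP_874adf_gt.Gn.IfaceF
import Pool.Agent.P.MP_874adf_gt.Gn.BasS
import Pool.Agent.P.MP_874adf_gt.Gn.HgU

/-! Step ADD. -/

set_option autoImplicit false

namespace Pool.Agent.P.MP_874adf_gt.Gn

open Pool.Agent.P.MP_874adf_gt.Fs Set Filter Topology Metric MeasureTheory

/-- a function whose increments along `w` are ordered by the step is affine along `w` -/
theorem addx_lin (g : P → ℝ) (gc : Continuous g) (w : P)
    (h : ∀ (y y2 : P) (τ τ2 : ℝ), 0 ≤ τ → 0 ≤ τ2 → g (y + τ • w) - g y < g (y2 + τ2 • w) - g y2 →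
      τ < τ2) : ∃ m : ℝ, 0 ≤ m ∧ ∀ (y : P) (τ : ℝ), 0 ≤ τ → g (y + τ • w) - g y = m * τ := by
  have ind : ∀ (y : P) (τ : ℝ), 0 ≤ τ → g (y + τ • w) - g y = g (τ • w) - g 0 := fun y τ t0 => by
    have a := h y 0 τ τ t0 t0
    have b := h 0 y τ τ t0 t0
    rw [zero_add] at a b
    exact le_antisymm (not_lt.1 fun q => lt_irrefl _ (b q)) (not_lt.1 fun q => lt_irrefl _ (a q))
  have ad : ∀ a b : ℝ, g ((a + b) • w) - g 0 = (g (a • w) - g 0) + (g (b • w) - g 0) := fun a b => by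
    rcases le_total 0 b with q | q
    · have := ind (a • w) b q
      rw [← add_smul] at this
      linarith
    · have e1 := ind ((a + b) • w) (-b) (by linarith)
      have e2 := ind (b • w) (-b) (by linarith)
      rw [← add_smul, add_neg_cancel_right] at e1
      rw [← add_smul, add_neg_cancel, zero_smul] at e2
      linarith
  let ψ : ℝ →+ ℝ := AddMonoidHom.mk' (fun t => g (t • w) - g 0) ad
  have cψ : Continuous ψ := by
    change Continuous fun t : ℝ => g (t • w) - g 0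
    fun_prop
  have e : ∀ t : ℝ, g (t • w) - g 0 = (g ((1 : ℝ) • w) - g 0) * t := fun t => by
    have := map_real_smul ψ cψ t (1 : ℝ)
    rw [smul_eq_mul, mul_one, smul_eq_mul, mul_comm] at this
    exact this
  refine ⟨g ((1 : ℝ) • w) - g 0, not_lt.1 fun q => ?_, fun y τ t0 => (ind y τ t0).trans (e τ)⟩
  have := h 0 0 1 0 zero_le_one le_rfl (by simpa using q)
  linarith

theorem addx_pos {H : P → ℝ} (n : IsN H) (t : ℝ) : 0 < H (t, 1) :=
  n.pos _ fun h => one_ne_zero (congrArg Prod.snd h)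

theorem addx_cancel {a b N : ℝ} (N0 : 0 < N) (h : a * N ≤ b * N) : a ≤ b := le_of_mul_le_mul_right h N0

theorem addx_mem {c : Ctx} {ι : Type} (S : Sys c ι) {k : ℝ} (i : ι) {y : P}
    (hy : y ∈ closedBall (0 : P) k) : S.x i + S.s i • y ∈ S.B k i := by
  rw [mem_closedBall_zero_iff] at hy
  rw [Sys.B, mem_closedBall, dist_eq_norm, add_sub_cancel_left, norm_smul, Real.norm_eq_abs,
    abs_of_pos (S.s0 i), mul_comm]
  exact mul_le_mul_of_nonneg_right hy (S.s0 i).le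

theorem addx_ball {c : Ctx} {ι : Type} (S : Sys c ι) (k : ℝ) : ∀ᶠ i in (S.U : Filter ι),
    ∀ y ∈ closedBall (0 : P) k, S.x i + S.s i • y ∈ ball (0 : P) c.ρ0 := by
  filter_upwards [S.ev_ball k c.rho0] with i a y hy
  exact a.1 (addx_mem S i hy)

theorem addx_lev {M : Set P} {d : P → P → ℝ} (h : PM M d) {O y z : P} (hO : O ∈ M) (hy : y ∈ M)
    (hz : z ∈ M) : |d O z - d O y| ≤ d y z := by
  have a := h.triangle O hO y hy z hz
  have b := h.triangle O hO z hz y hy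
  rw [h.symm z hz y hy] at b
  rw [abs_le]
  constructor <;> linarith

/-- the limit of the levels -/
def AddLim {c : Ctx} {ι : Type} (S : Sys c ι) (O : ι → P) (g : P → ℝ) : Prop :=
  ∀ k : ℝ, ∀ ε > (0 : ℝ), ∀ᶠ i in (S.U : Filter ι), ∀ y ∈ closedBall (0 : P) k,
    |c.d (O i) (S.x i + S.s i • y) - c.d (O i) (S.x i) - g y * S.N i| ≤ ε * S.N i

theorem addx_lim {c : Ctx} {ι : Type} (S : Sys c ι) {O : ι → P} {t : ℝ} (hO : S.Far 1 O t)
    {H : P → ℝ} (hH : S.Hon H) : ∃ g : P → ℝ, Continuous g ∧ AddLim S O g := by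
  obtain ⟨K, K0, hK⟩ := hH.1.upper
  have key : ∀ R : ℝ, ∀ ε > (0 : ℝ), ∀ᶠ i in (S.U : Filter ι), ∀ y ∈ closedBall (0 : P) R,
      ∀ z ∈ closedBall (0 : P) R,
      ‖(c.d (O i) (S.x i + S.s i • z) - c.d (O i) (S.x i)) / S.N i -
        (c.d (O i) (S.x i + S.s i • y) - c.d (O i) (S.x i)) / S.N i‖ ≤ K * ‖z - y‖ + ε := by
    intro R ε ε0
    filter_upwards [hH.2 R ε ε0, addx_ball S R, hO 0 1 one_pos] with i a b e y hy z hz
    have N0 := S.N0 i
    have h1 := addx_lev c.gp.pm (c.sub e.1) (c.sub (b y hy)) (c.sub (b z hz))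
    have h2 := (abs_le.1 (a y hy z hz)).2
    have h3 := mul_le_mul_of_nonneg_left (hK (z - y)) N0.le
    rw [Real.norm_eq_abs, ← sub_div, sub_sub_sub_cancel_right, abs_div, abs_of_pos N0,
      div_le_iff₀ N0]
    linarith
  obtain ⟨g, gc, -, hg⟩ := HgU.ulim S.U
    (fun i y => (c.d (O i) (S.x i + S.s i • y) - c.d (O i) (S.x i)) / S.N i)
    (fun y => ⟨K * ‖y‖ + 1, by
      filter_upwards [key ‖y‖ 1 one_pos] with i a
      simpa using a 0 (by simp) y (by simp)⟩)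
    (fun R ε ε0 => ⟨ε / (2 * K), by positivity, by
      filter_upwards [key R (ε / 2) (half_pos ε0)] with i a y hy z hz q
      have h1 := mul_le_mul_of_nonneg_left q K0.le
      have h2 : K * (ε / (2 * K)) = ε / 2 := by field_simp
      linarith [a y hy z hz]⟩)
  refine ⟨g, gc, fun k ε ε0 => ?_⟩
  filter_upwards [hg k ε ε0] with i a y hy
  have N0 := S.N0 i
  have h1 := a y hy
  rw [Real.norm_eq_abs, div_sub' N0.ne', abs_div, abs_of_pos N0, div_le_iff₀ N0, mul_comm (S.N i)] at h1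
  exact h1

/-- a point on the ray from a far point -/
theorem addx_ray0 {c : Ctx} {ι : Type} (S : Sys c ι) {X : ι → P} {t : ℝ} (hX : S.Far 1 X t)
    {k : ℝ} (k0 : 0 < k) {η : ℝ} (η0 : 0 < η) (η1 : η ≤ 1) : ∀ᶠ i in (S.U : Filter ι),
      ∀ y ∈ closedBall (0 : P) k, ∀ τ ∈ Icc (0 : ℝ) k, ∃ z ∈ closedBall (0 : P) (k * (|t| + 3)),
        ‖z - (y + τ • ((t, 1) : P))‖ ≤ k * η ∧
        c.d (X i) (S.x i + S.s i • y) + c.d (S.x i + S.s i • y) (S.x i + S.s i • z) =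
          c.d (X i) (S.x i + S.s i • z) := by
  filter_upwards [hX k η η0, addx_ball S (k * (|t| + 3))] with i a b y hy τ hτ
  obtain ⟨a1, a2⟩ := a.2 _ (addx_mem S i hy)
  set Y := S.x i + S.s i • y with hY
  have s0 := S.s0 i
  have h0 : 0 < Y.2 - (X i).2 := by nlinarith [mul_pos k0 s0]
  have t0 := abs_nonneg t
  have hz : y + τ • ((sl Y (X i), 1) : P) ∈ closedBall (0 : P) (k * (|t| + 3)) := by
    rw [mem_closedBall_zero_iff] at hy ⊢
    have n1 : ‖((sl Y (X i), 1) : P)‖ ≤ |t| + 1 := by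
      rw [Prod.norm_def, Real.norm_eq_abs, norm_one]
      have := abs_sub_abs_le_abs_sub (sl Y (X i)) t
      exact max_le (by linarith) (by linarith)
    have n2 : ‖τ • ((sl Y (X i), 1) : P)‖ ≤ k * (|t| + 1) := by
      rw [norm_smul, Real.norm_eq_abs, abs_of_nonneg hτ.1]
      exact mul_le_mul hτ.2 n1 (norm_nonneg _) k0.le
    have := norm_add_le y (τ • ((sl Y (X i), 1) : P))
    nlinarith
  refine ⟨_, hz, ?_, ?_⟩
  · have e : y + τ • ((sl Y (X i), 1) : P) - (y + τ • ((t, 1) : P)) = τ • ((sl Y (X i) - t, 0) : P) := by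
      ext <;> simp [mul_sub]
    rw [e, norm_smul, Real.norm_eq_abs, abs_of_nonneg hτ.1, Prod.norm_def, Real.norm_eq_abs,
      norm_zero, max_eq_left (abs_nonneg _)]
    exact mul_le_mul hτ.2 a2 (abs_nonneg _) k0.le
  · have e1 : Y = X i + (Y.2 - (X i).2) • ((sl Y (X i), 1) : P) := by
      ext
      · simp only [sl, Prod.fst_add, Prod.smul_fst, smul_eq_mul]
        field_simp
        ring
      · simp
    have e2 : S.x i + S.s i • (y + τ • ((sl Y (X i), 1) : P)) =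
        X i + (Y.2 - (X i).2 + S.s i * τ) • ((sl Y (X i), 1) : P) := by
      rw [add_smul, ← add_assoc, ← e1, smul_add, ← add_assoc, ← hY, smul_smul]
    have m1 : X i + (0 : ℝ) • ((sl Y (X i), 1) : P) ∈ c.M := by simpa using c.sub a.1
    have m2 := c.sub (b _ hz)
    rw [e2] at m2 ⊢
    have := c.gp.pm.line_add m1 m2 h0.le (le_add_of_nonneg_right (mul_nonneg s0.le hτ.1))
    rwa [zero_smul, add_zero, ← e1] at this

/-- the ray lemma with all approximations -/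
theorem addx_ray {c : Ctx} {ι : Type} (S : Sys c ι) {X O : ι → P} {t : ℝ} (hX : S.Far 1 X t)
    {H g : P → ℝ} (hH : S.Hon H) (gc : Continuous g) (hg : AddLim S O g) {k : ℝ} (k0 : 0 < k)
    {ε : ℝ} (ε0 : 0 < ε) : ∀ᶠ i in (S.U : Filter ι),
      ∀ y ∈ closedBall (0 : P) k, ∀ τ ∈ Icc (0 : ℝ) k, ∃ Z ∈ S.B (k * (|t| + 3)) i, Z ∈ c.M ∧
        c.d (X i) (S.x i + S.s i • y) + c.d (S.x i + S.s i • y) Z = c.d (X i) Z ∧
        |c.d (S.x i + S.s i • y) Z - τ * H (t, 1) * S.N i| ≤ ε * S.N i ∧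
        |c.d (O i) Z - c.d (O i) (S.x i) - g (y + τ • ((t, 1) : P)) * S.N i| ≤ ε * S.N i := by
  obtain ⟨K, K0, hK⟩ := hH.1.upper
  have t0 := abs_nonneg t
  obtain ⟨δ, δ0, hδ⟩ := Metric.uniformContinuousOn_iff_le.1
    ((isCompact_closedBall (0 : P) (k * (|t| + 3))).uniformContinuousOn_of_continuous
      gc.continuousOn) (ε / 2) (half_pos ε0)
  have q0 : 0 < min 1 (min (δ / k) (ε / (2 * K * k))) :=
    lt_min one_pos (lt_min (by positivity) (by positivity))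
  set η := min 1 (min (δ / k) (ε / (2 * K * k))) with hη
  have q1 : η * k ≤ δ := (le_div_iff₀ k0).1 ((min_le_right _ _).trans (min_le_left _ _))
  have q2 : η * (2 * K * k) ≤ ε :=
    (le_div_iff₀ (by positivity)).1 ((min_le_right _ _).trans (min_le_right _ _))
  filter_upwards [addx_ray0 S hX k0 q0 (min_le_left _ _), addx_ball S (k * (|t| + 3)),
    hH.2 (k * (|t| + 3)) (ε / 2) (half_pos ε0), hg (k * (|t| + 3)) (ε / 2) (half_pos ε0)]
    with i a b e f y hy τ hτ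
  obtain ⟨z, hz, z1, z2⟩ := a y hy τ hτ
  have N0 := S.N0 i
  have hy' : y ∈ closedBall (0 : P) (k * (|t| + 3)) :=
    closedBall_subset_closedBall (by nlinarith) hy
  have hw : y + τ • ((t, 1) : P) ∈ closedBall (0 : P) (k * (|t| + 3)) := by
    rw [mem_closedBall_zero_iff] at hy ⊢
    have n1 : ‖((t, 1) : P)‖ ≤ |t| + 1 := by
      rw [Prod.norm_def, Real.norm_eq_abs, norm_one]
      exact max_le (by linarith) (by linarith)
    have n2 : ‖τ • ((t, 1) : P)‖ ≤ k * (|t| + 1) := by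
      rw [norm_smul, Real.norm_eq_abs, abs_of_nonneg hτ.1]
      exact mul_le_mul hτ.2 n1 (norm_nonneg _) k0.le
    have := norm_add_le y (τ • ((t, 1) : P))
    nlinarith
  refine ⟨_, addx_mem S i hz, c.sub (b z hz), z2, ?_, ?_⟩
  · have h1 := abs_le.1 (e y hy' z hz)
    have e1 : z - y - τ • ((t, 1) : P) = z - (y + τ • ((t, 1) : P)) := by abel
    have h2 := hH.1.sub_le (z - y) (τ • ((t, 1) : P))
    have h3 := hH.1.sub_le (τ • ((t, 1) : P)) (z - y)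
    rw [hH.1.sub_comm (τ • ((t, 1) : P))] at h3
    rw [e1, hH.1.smul_nonneg hτ.1] at h2 h3
    have h4 := (hK _).trans (mul_le_mul_of_nonneg_left z1 K0.le)
    have h5 : (H (z - y) - τ * H (t, 1)) * S.N i ≤ ε / 2 * S.N i := by
      gcongr
      linarith
    have h6 : (τ * H (t, 1) - H (z - y)) * S.N i ≤ ε / 2 * S.N i := by
      gcongr
      linarith
    rw [abs_le]
    constructor <;> linarith [h1.1, h1.2]
  · have h1 := abs_le.1 (f z hz)
    have h2 := hδ z hz _ hw (by rw [dist_eq_norm]; linarith)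
    rw [Real.dist_eq, abs_le] at h2
    have h5 : (g z - g (y + τ • ((t, 1) : P))) * S.N i ≤ ε / 2 * S.N i := by
      gcongr
      exact h2.2
    have h6 : (g (y + τ • ((t, 1) : P)) - g z) * S.N i ≤ ε / 2 * S.N i := by
      gcongr
      linarith [h2.1]
    rw [abs_le]
    constructor <;> linarith [h1.1, h1.2]

theorem addx_bd (y : P) (τ : ℝ) (t0 : 0 ≤ τ) : ∃ k > (0 : ℝ), y ∈ closedBall (0 : P) k ∧
    τ ∈ Icc (0 : ℝ) k :=
  ⟨‖y‖ + τ + 1, by positivity, by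
    rw [mem_closedBall_zero_iff]; linarith, t0, by linarith [norm_nonneg y]⟩

/-- the level is additive along the direction of the centre -/
theorem addx_zeta {c : Ctx} {ι : Type} (S : Sys c ι) {O : ι → P} {t : ℝ} (hO : S.Far 1 O t)
    {H g : P → ℝ} (hH : S.Hon H) (gc : Continuous g) (hg : AddLim S O g) (y : P) (τ : ℝ) :
    g (y + τ • ((t, 1) : P)) = g y + τ * H (t, 1) := by
  have pos : ∀ (y : P) (τ : ℝ), 0 ≤ τ → g (y + τ • ((t, 1) : P)) = g y + τ * H (t, 1) := by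
    intro y τ t0
    obtain ⟨k, k0, hy, hτ⟩ := addx_bd y τ t0
    refine eq_of_forall_dist_le fun ε ε0 => ?_
    obtain ⟨i, a, b⟩ := ((addx_ray S hO hH gc hg k0 (show 0 < ε / 3 by positivity)).and
      (hg k (ε / 3) (by positivity))).exists
    obtain ⟨Z, -, -, z1, z2, z3⟩ := a y hy τ hτ
    have z4 := b y hy
    rw [abs_le] at z2 z3 z4
    rw [Real.dist_eq, abs_le]
    constructor <;> refine addx_cancel (S.N0 i) ?_ <;> linarith [z2.1, z2.2, z3.1, z3.2, z4.1, z4.2]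
  rcases le_total 0 τ with q | q
  · exact pos y τ q
  · have := pos (y + τ • ((t, 1) : P)) (-τ) (by linarith)
    rw [add_assoc, ← add_smul, add_neg_cancel, zero_smul, add_zero] at this
    linarith

theorem addx_hfA {M : Set P} {d : P → P → ℝ} (h : PM M d) {D : Dat} (r0 : 0 < dr D) (r1 : dr D < 1)
    {Y Z : P} (hB : dB D ∈ M) (hY : Y ∈ M) (hZ : Z ∈ M)
    (e : d (dA D) Y + d Y Z = d (dA D) Z) :
    d Y Z - (d (dO D) Z - d (dO D) Y) ≤ hf d D Z - hf d D Y := by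
  have h1 := (abs_le.1 (addx_lev h hB hY hZ)).2
  have h2 : 0 ≤ dr D / (1 - dr D) * (d (dA D) Z - d (dA D) Y - (d (dB D) Z - d (dB D) Y)) :=
    mul_nonneg (div_nonneg r0.le (by linarith)) (by linarith)
  rw [hf_diff d r1.ne]
  linarith

theorem addx_hfB {M : Set P} {d : P → P → ℝ} (h : PM M d) {D : Dat} (r0 : 0 < dr D) (r1 : dr D < 1)
    {Y Z : P} (hA : dA D ∈ M) (hY : Y ∈ M) (hZ : Z ∈ M)
    (e : d (dB D) Y + d Y Z = d (dB D) Z) :
    hf d D Z - hf d D Y ≤ d Y Z - (d (dO D) Z - d (dO D) Y) := by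
  have h1 := (abs_le.1 (addx_lev h hA hY hZ)).2
  have h2 : 0 ≤ dr D / (1 - dr D) * -(d (dA D) Z - d (dA D) Y - (d (dB D) Z - d (dB D) Y)) :=
    mul_nonneg (div_nonneg r0.le (by linarith)) (by linarith)
  rw [hf_diff d r1.ne]
  linarith

/-- the rays from the two foci -/
theorem addx_AB {c : Ctx} {ι : Type} (S : Sys c ι) {D : ι → Dat} {ζ ξ r : ℝ} (F : S.Fam 1 D ζ ξ ξ r)
    {H g : P → ℝ} (hH : S.Hon H) (gc : Continuous g) (hg : AddLim S (fun i => dO (D i)) g)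
    {k : ℝ} (k0 : 0 < k) {ε : ℝ} (ε0 : 0 < ε) : ∀ᶠ i in (S.U : Filter ι),
      ∀ y ∈ closedBall (0 : P) k, ∀ τ ∈ Icc (0 : ℝ) k,
        |S.db D i (S.x i) (S.x i + S.s i • y) - g y * S.N i| ≤ ε * S.N i ∧
        (∃ Z ∈ S.B (k * (|ξ| + 3)) i,
          |S.db D i (S.x i) Z - g (y + τ • ((ξ, 1) : P)) * S.N i| ≤ ε * S.N i ∧
          (τ * H (ξ, 1) - ε) * S.N i - S.db D i (S.x i + S.s i • y) Z ≤
            S.dh D i (S.x i + S.s i • y) Z) ∧
        ∃ Z ∈ S.B (k * (|ξ| + 3)) i,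
          |S.db D i (S.x i) Z - g (y + τ • ((ξ, 1) : P)) * S.N i| ≤ ε * S.N i ∧
          S.dh D i (S.x i + S.s i • y) Z ≤
            (τ * H (ξ, 1) + ε) * S.N i - S.db D i (S.x i + S.s i • y) Z := by
  filter_upwards [addx_ray S F.fA hH gc hg k0 ε0, addx_ray S F.fB hH gc hg k0 ε0, hg k ε ε0,
    addx_ball S k, F.fA 0 1 one_pos, F.fB 0 1 one_pos] with i a b e f mA mB y hy τ hτ
  obtain ⟨Z, z0, zM, z1, z2, z3⟩ := a y hy τ hτ
  obtain ⟨W, w0, wM, w1, w2, w3⟩ := b y hy τ hτ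
  have h1 := addx_hfA c.gp.pm (F.r01 i).1 (F.r01 i).2 (c.sub mB.1) (c.sub (f y hy)) zM z1
  have h2 := addx_hfB c.gp.pm (F.r01 i).1 (F.r01 i).2 (c.sub mA.1) (c.sub (f y hy)) wM w1
  refine ⟨e y hy, ⟨Z, z0, z3, ?_⟩, W, w0, w3, ?_⟩
  · simp only [Sys.db, Sys.dh]
    linarith [(abs_le.1 z2).1]
  · simp only [Sys.db, Sys.dh]
    linarith [(abs_le.1 w2).2]

/-- the increments along the focal direction are ordered by the step -/
theorem addx_ord {c : Ctx} {ι : Type} (S : Sys c ι) {D : ι → Dat} {ζ ξ r : ℝ} (F : S.Fam 1 D ζ ξ ξ r)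
    {H g : P → ℝ} (hH : S.Hon H) (gc : Continuous g) (hg : AddLim S (fun i => dO (D i)) g)
    (y y2 : P) (τ τ2 : ℝ) (t0 : 0 ≤ τ) (t2 : 0 ≤ τ2)
    (h : g (y + τ • ((ξ, 1) : P)) - g y < g (y2 + τ2 • ((ξ, 1) : P)) - g y2) : τ < τ2 := by
  have hζ : 0 < H (ζ, 1) := addx_pos hH.1 ζ
  have hξ : 0 < H (ξ, 1) := addx_pos hH.1 ξ
  obtain ⟨δ, hδ⟩ : ∃ δ, δ = (g (y2 + τ2 • ((ξ, 1) : P)) - g y2 - (g (y + τ • ((ξ, 1) : P)) - g y)) / 2 :=
    ⟨_, rfl⟩
  have δ0 : 0 < δ := by linarith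
  obtain ⟨y3, e1, e2⟩ : ∃ y3 : P, g y3 = g y - δ ∧
      g (y3 + τ2 • ((ξ, 1) : P)) = g (y + τ • ((ξ, 1) : P)) + δ := by
    have q : (g y - δ - g y2) / H (ζ, 1) * H (ζ, 1) = g y - δ - g y2 := by field_simp
    refine ⟨y2 + ((g y - δ - g y2) / H (ζ, 1)) • ((ζ, 1) : P), ?_, ?_⟩
    · rw [addx_zeta S F.fO hH gc hg, q]
      ring
    · rw [add_right_comm, addx_zeta S F.fO hH gc hg, q]
      linarith
  obtain ⟨k1, k10, hy, hτ⟩ := addx_bd y τ t0
  obtain ⟨k2, k20, hy3, hτ2⟩ := addx_bd y3 τ2 t2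
  have k0 : 0 < k1 + k2 := by positivity
  have ξ0 := abs_nonneg ξ
  obtain ⟨i, a, b⟩ := ((addx_AB S F hH gc hg k0 (show 0 < δ / 8 by positivity)).and
    (F.mon ((k1 + k2) * (|ξ| + 3)) (δ / 8) (by positivity))).exists
  have hy' : y ∈ closedBall (0 : P) (k1 + k2) := closedBall_subset_closedBall (by linarith) hy
  have hy3' : y3 ∈ closedBall (0 : P) (k1 + k2) := closedBall_subset_closedBall (by linarith) hy3
  obtain ⟨a1, ⟨Z, z0, z1, z2⟩, -⟩ := a y hy' τ ⟨t0, by linarith [hτ.2]⟩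
  obtain ⟨a2, -, W, w0, w1, w2⟩ := a y3 hy3' τ2 ⟨t2, by linarith [hτ2.2]⟩
  have N0 := S.N0 i
  have p0 : 0 < δ * S.N i := mul_pos δ0 N0
  have sub := S.bass_sub (show k1 + k2 ≤ (k1 + k2) * (|ξ| + 3) by nlinarith) i
  simp only [Sys.db, Sys.dh] at a1 a2 z1 z2 w1 w2
  rw [e1] at a2
  rw [e2] at w1
  rw [abs_le] at a1 a2 z1 w1
  have m1 := b _ (sub (addx_mem S i hy3')) _ (sub (addx_mem S i hy')) (by linarith [a1.1, a2.2])
  have m2 := b _ z0 _ w0 (by linarith [z1.2, w1.1])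
  have f : τ * H (ξ, 1) + δ ≤ τ2 * H (ξ, 1) :=
    addx_cancel N0 (by linarith [a1.1, a1.2, a2.1, a2.2, z1.1, z1.2, w1.1, w1.2])
  exact lt_of_mul_lt_mul_right (by linarith) hξ.le

/-- the defect of the centre along the focal direction -/
theorem addx_def {c : Ctx} (R : Reg c) {ι : Type} (S : Sys c ι) {O : ι → P} {ζ ξ : ℝ}
    (hO : S.Far 1 O ζ) (lt : ξ < ζ) (ng : Neg (ln c.G) ζ) {H g : P → ℝ} (hH : S.Hon H)
    (hg : AddLim S O g) : ∃ (y : P) (τ : ℝ), 0 ≤ τ ∧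
      g (y + τ • ((ξ, 1) : P)) - g y < τ * H (ξ, 1) := by
  have := c.crof.fin
  obtain ⟨q, hq⟩ : ∃ q, q = (ζ - ξ) / 4 := ⟨_, rfl⟩
  have q0 : 0 < q := by linarith
  obtain ⟨κ, κ0, hκ⟩ := S.low R (a := ξ + q) (b := ξ + 2 * q) (by linarith)
    (ng.imp fun z hz => ⟨hz.1, by linarith [hz.2]⟩) (le_refl 1)
  obtain ⟨τ, hτ⟩ : ∃ τ, τ = 3 / q := ⟨_, rfl⟩
  have τ0 : 0 < τ := by rw [hτ]; positivity
  have τ1 : τ * q = 3 := by rw [hτ]; field_simp
  refine ⟨(2, 0), τ, τ0.le, ?_⟩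
  obtain ⟨k, hk⟩ : ∃ k, k = ‖((2, 0) : P)‖ + ‖((2, 0) : P) + τ • ((ξ, 1) : P)‖ + τ := ⟨_, rfl⟩
  have n1 := norm_nonneg ((2, 0) : P)
  have n2 := norm_nonneg (((2, 0) : P) + τ • ((ξ, 1) : P))
  have hy : ((2, 0) : P) ∈ closedBall (0 : P) k := by rw [mem_closedBall_zero_iff]; linarith
  have hz : ((2, 0) : P) + τ • ((ξ, 1) : P) ∈ closedBall (0 : P) k := by
    rw [mem_closedBall_zero_iff]; linarith
  obtain ⟨i, ⟨a, b⟩, ⟨e, f⟩, j⟩ := (((hκ.and (hO k q q0)).and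
    ((hH.2 k (κ / 4) (by positivity)).and (hg k (κ / 4) (by positivity)))).and
      (addx_ball S k)).exists.imp fun _ h => (⟨h.1.1, h.1.2, h.2⟩ : _ ∧ _ ∧ _)
  have s0 := S.s0 i
  have N0 := S.N0 i
  have a1 := a (S.x i) (mem_closedBall_self (by linarith))
  obtain ⟨b1, b2⟩ := b.2 _ (addx_mem S i hy)
  have e1 := abs_le.1 (e _ hy _ hz)
  have f1 := abs_le.1 (f _ hy)
  have f2 := abs_le.1 (f _ hz)
  rw [add_sub_cancel_left, hH.1.smul_nonneg τ0.le] at e1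
  set Y := S.x i + S.s i • ((2, 0) : P) with hY
  set Z := S.x i + S.s i • (((2, 0) : P) + τ • ((ξ, 1) : P)) with hZ
  have p1 : 0 < τ * S.s i := mul_pos τ0 s0
  have p2 : τ * S.s i ≤ k * S.s i := by gcongr; linarith
  have z2 : Z.2 = Y.2 + S.s i * τ := by simp [hY, hZ]
  have df := c.crof.defect b.1 (j _ hy) (j _ hz) (mem_uIcc.2 (Or.inl ⟨by linarith, by linarith⟩))
  have ms : mw c.μ (Icc (ξ + q) (ξ + 2 * q)) (S.x i) (S.s i / 1) ≤ c.μ.real (sp Y Z ∩ sp (O i) Y) := by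
    refine measureReal_mono fun l hl => ?_
    obtain ⟨⟨l1, l2⟩, l3⟩ := hl
    rw [div_one, abs_le] at l3
    have y1 : pr l.2 Y = pr l.2 (S.x i) + 2 * S.s i := by
      simp only [hY, pr, Prod.fst_add, Prod.snd_add, Prod.smul_fst, Prod.smul_snd, smul_eq_mul]
      ring
    have z1 : pr l.2 Z = pr l.2 (S.x i) + 2 * S.s i - S.s i * τ * (l.2 - ξ) := by
      simp only [hZ, pr, Prod.fst_add, Prod.snd_add, Prod.smul_fst, Prod.smul_snd, smul_eq_mul]
      ring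
    have o1 := pr_sl (y := Y) (X := O i) (by intro q; rw [q] at b1; linarith) l.2
    have u1 : S.s i * τ * q ≤ S.s i * τ * (l.2 - ξ) := by gcongr; linarith
    have u2 : (τ * S.s i) * q ≤ (Y.2 - (O i).2) * (sl Y (O i) - l.2) :=
      mul_le_mul (by linarith) (by linarith [(abs_le.1 b2).1]) q0.le (by linarith)
    have u3 : S.s i * τ * q = 3 * S.s i := by rw [mul_assoc, τ1, mul_comm]
    have v1 : l.1 < pr l.2 Y := by linarith [l3.2]
    have v2 : ¬ l.1 < pr l.2 Z := not_lt.2 (by linarith [l3.1])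
    have v3 : ¬ l.1 < pr l.2 (O i) := not_lt.2 (by linarith [l3.1])
    exact ⟨fun w => v2 (w.1 v1), fun w => v3 (w.2 v1)⟩
  have p3 : 0 < κ * S.N i := mul_pos κ0 N0
  have fin : g ((2, 0) + τ • ((ξ, 1) : P)) - g (2, 0) + κ ≤ τ * H (ξ, 1) :=
    addx_cancel N0 (by linarith [e1.1, e1.2, f1.1, f1.2, f2.1, f2.2])
  linarith

theorem p_ADD :
    S_ADD := by
  intro c R ι S D ζ ξ r H F ng hH
  have hζ : 0 < H (ζ, 1) := addx_pos hH.1 ζ
  have hξ : 0 < H (ξ, 1) := addx_pos hH.1 ξ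
  obtain ⟨g, gc, hg⟩ := addx_lim S F.fO hH
  obtain ⟨m, m0, hm⟩ := addx_lin g gc (ξ, 1) (addx_ord S F hH gc hg)
  obtain ⟨y0, τ0, t0, hd⟩ := addx_def R S F.fO (by simpa using F.lt) ng hH hg
  have g0 : g 0 = 0 := by
    refine eq_of_forall_dist_le fun ε ε0 => ?_
    obtain ⟨i, a⟩ := (hg 0 ε ε0).exists
    have h1 := a 0 (by simp)
    rw [smul_zero, add_zero, sub_self, zero_sub, abs_neg, abs_mul, abs_of_pos (S.N0 i)] at h1
    rw [Real.dist_eq, sub_zero]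
    exact addx_cancel (S.N0 i) h1
  rw [hm y0 τ0 t0, mul_comm] at hd
  refine ⟨m / H (ξ, 1), by positivity, (div_lt_one hξ).2 (lt_of_mul_lt_mul_left hd t0), fun k => ?_⟩
  obtain ⟨K, hK⟩ : ∃ K, K = |k| / H (ζ, 1) * ‖((ζ, 1) : P)‖ + |k| / H (ξ, 1) + 1 := ⟨_, rfl⟩
  have n1 : 0 ≤ |k| / H (ζ, 1) * ‖((ζ, 1) : P)‖ := by positivity
  have n2 : 0 ≤ |k| / H (ξ, 1) := by positivity
  have K0 : 0 < K := by linarith
  have ξ0 := abs_nonneg ξ
  refine ⟨K * (|ξ| + 3), fun ε ε0 => ?_⟩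
  filter_upwards [addx_AB S F hH gc hg K0 (show 0 < ε / 3 by positivity)] with i h a t ha t1 t2
  have hy : (a / H (ζ, 1)) • ((ζ, 1) : P) ∈ closedBall (0 : P) K := by
    rw [mem_closedBall_zero_iff, norm_smul, Real.norm_eq_abs, abs_div, abs_of_pos hζ]
    have : |a| / H (ζ, 1) * ‖((ζ, 1) : P)‖ ≤ |k| / H (ζ, 1) * ‖((ζ, 1) : P)‖ :=
      mul_le_mul_of_nonneg_right
        (div_le_div_of_nonneg_right (ha.trans (le_abs_self k)) hζ.le) (norm_nonneg _)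
    linarith
  have hτ : t / H (ξ, 1) ∈ Icc (0 : ℝ) K := by
    have : t / H (ξ, 1) ≤ |k| / H (ξ, 1) := by
      gcongr
      exact t2.trans (le_abs_self k)
    exact ⟨by positivity, by linarith⟩
  have gy : g ((a / H (ζ, 1)) • ((ζ, 1) : P)) = a := by
    have := addx_zeta S F.fO hH gc hg 0 (a / H (ζ, 1))
    rw [zero_add, g0, zero_add] at this
    rw [this]
    field_simp
  have gz : g ((a / H (ζ, 1)) • ((ζ, 1) : P) + (t / H (ξ, 1)) • ((ξ, 1) : P)) =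
      a + m / H (ξ, 1) * t := by
    have := hm ((a / H (ζ, 1)) • ((ζ, 1) : P)) _ hτ.1
    rw [gy] at this
    have e : m * (t / H (ξ, 1)) = m / H (ξ, 1) * t := by ring
    linarith
  have ht : t / H (ξ, 1) * H (ξ, 1) = t := by field_simp
  obtain ⟨a1, ⟨Z, z0, z1, z2⟩, W, w0, w1, w2⟩ := h _ hy _ hτ
  rw [gy] at a1
  rw [gz] at z1 w1
  rw [ht] at z2 w2
  have p0 : 0 < ε * S.N i := mul_pos ε0 (S.N0 i)
  refine ⟨_, S.bass_sub (show K ≤ K * (|ξ| + 3) by nlinarith) i (addx_mem S i hy), Z, z0, W, w0, ?_⟩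
  simp only [Sys.db, Sys.dh] at a1 z1 z2 w1 w2 ⊢
  rw [abs_le] at a1 z1 w1
  simp only [abs_le]
  refine ⟨⟨?_, ?_⟩, ⟨?_, ?_⟩, ⟨?_, ?_⟩, ?_, ?_⟩ <;>
    linarith [a1.1, a1.2, z1.1, z1.2, w1.1, w1.2]

end Pool.Agent.P.MP_874adf_gt.Gn
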