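import Pool.Agent.P.MP_874adf_gt.Gn.IfaceGa

/-! Step GEXH. -/

set_option autoImplicit false

namespace Pool.Agent.P.MP_874adf_gt.Gn

open Pool.Agent.P.MP_874adf_gt.Fs Ga Set Filter Topology Metric MeasureTheory

theorem p_GEXH :
    S_GEXH := by
  intro Q 𝓖 hQ hG hs η η0
  obtain ⟨u, su, du, mx⟩ := Vitali.exists_disjoint_subfamily_covering_enlargement id 𝓖 (fun _ => 0) 2
    one_lt_two (fun _ _ => le_rfl) 0 (fun _ _ => le_rfl)
    fun G m => nonempty_of_measure_ne_zero (hG G m).2.1.ne'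
  have cu : u.Countable := by
    have := Measure.countable_meas_pos_of_disjoint_iUnion (μ := (volume : Measure P))
      (As := fun G : u => G.1) (fun G => (hG _ (su G.2)).1.measurableSet)
      fun G G' ne => du G.2 G'.2 fun e => ne (Subtype.ext e)
    rw [show {G : u | 0 < volume G.1} = univ from eq_univ_of_forall fun G => (hG _ (su G.2)).2.1,
      countable_univ_iff] at this
    exact this
  have mu : MeasurableSet (⋃₀ u) := MeasurableSet.sUnion cu fun G m => (hG _ (su m)).1.measurableSet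
  have nul : volume (Q \ ⋃₀ u) = 0 := by
    by_contra hn
    obtain ⟨Q', s', c', p'⟩ := (hQ.measurableSet.diff mu).exists_lt_isCompact (pos_iff_ne_zero.2 hn)
    obtain ⟨G, m, sG⟩ := hs Q' (s'.trans sdiff_subset) c' p'
    obtain ⟨b, mb, ⟨x, x1, x2⟩, -⟩ := mx G m
    exact (s' (sG x1)).2 ⟨b, mb, x2⟩
  rcases u.eq_empty_or_nonempty with rfl | ne
  · exact ⟨∅, empty_subset _, finite_empty, pairwiseDisjoint_empty,
      nul.trans_lt (ENNReal.ofReal_pos.2 η0)⟩
  obtain ⟨g, rfl⟩ := cu.exists_eq_range ne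
  have t := tendsto_measure_iInter_atTop (μ := (volume : Measure P))
    (s := fun n : ℕ => Q \ ⋃₀ (g '' Iic n))
    (fun n => (hQ.measurableSet.diff (((finite_Iic n).image g).measurableSet_sUnion
      fun G m => (hG _ (su (image_subset_range _ _ m))).1.measurableSet)).nullMeasurableSet)
    (fun a b h => sdiff_subset_sdiff_right (sUnion_subset_sUnion (image_mono (Iic_subset_Iic.2 h))))
    ⟨0, ((measure_mono sdiff_subset).trans_lt hQ.measure_lt_top).ne⟩
  have e : volume (⋂ n : ℕ, Q \ ⋃₀ (g '' Iic n)) = 0 := by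
    refine measure_mono_null (fun x hx => ?_) nul
    rw [mem_iInter] at hx
    refine ⟨(hx 0).1, ?_⟩
    rintro ⟨_, ⟨n, rfl⟩, m⟩
    exact (hx n).2 ⟨_, ⟨n, self_mem_Iic, rfl⟩, m⟩
  rw [e] at t
  obtain ⟨n, hn⟩ := (t.eventually (gt_mem_nhds (ENNReal.ofReal_pos.2 η0))).exists
  exact ⟨g '' Iic n, (image_subset_range _ _).trans su, (finite_Iic n).image g,
    du.subset (image_subset_range _ _), hn⟩

end Pool.Agent.P.MP_874adf_gt.Gn
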