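import Pool.Agent.P.MP_874adf_gt.Gn.IfaceGa
import Pool.Agent.P.MP_874adf_gt.Gn.GaU0

/-! Step GLEV0. -/

set_option autoImplicit false

namespace Pool.Agent.P.MP_874adf_gt.Gn

open Pool.Agent.P.MP_874adf_gt.Fs Ga Set Filter Topology Metric MeasureTheory

/-- the distance from `O` expands in the direction `x - O` at the points of `K` near `x` -/
lemma GLEV0_expand (k : Kx) {O x : P} (hO : O ∈ k.M) (hne : x ≠ O) :
    ∃ κ > (0 : ℝ), ∃ δ0 > (0 : ℝ), ∀ y ∈ k.K, ‖y - x‖ ≤ δ0 → ∀ t : ℝ, 0 < t →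
      t * ‖x - O‖ ≤ 2 * δ0 → κ * t ≤ k.d O (y + t • (x - O)) - k.d O y := by
  obtain ⟨c, c0, C, C0, hb⟩ := u0_bounds k
  obtain ⟨δ1, δ10, hn⟩ := k.ud.unif (c / 16) (by positivity)
  obtain ⟨δ2, δ20, hM⟩ := u0_nhd k
  have E0 : 0 < ‖x - O‖ := norm_pos_iff.2 (sub_ne_zero.2 hne)
  set E := ‖x - O‖ with hE
  refine ⟨c * E / 2, by positivity,
    min (min (δ1 / 4) (δ2 / 4)) (c * E / (4 * (c + C))), by positivity, fun y hy h1 t t0 h2 => ?_⟩
  set δ := min (min (δ1 / 4) (δ2 / 4)) (c * E / (4 * (c + C))) with hδ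
  have d1 : δ ≤ δ1 / 4 := (min_le_left _ _).trans (min_le_left _ _)
  have d2 : δ ≤ δ2 / 4 := (min_le_left _ _).trans (min_le_right _ _)
  have d3 : δ * (4 * (c + C)) ≤ c * E := (le_div_iff₀ (by positivity)).1 (min_le_right _ _)
  have d0 : 0 < δ := by positivity
  have d4 : δ ≤ E := by nlinarith
  have n1 : ‖y - O‖ ≤ E + δ := by
    have : y - O = (x - O) + (y - x) := by abel
    rw [this]
    exact (norm_add_le _ _).trans (by linarith)
  have n2 : E - δ ≤ ‖y - O‖ := by
    have : x - O = (y - O) - (y - x) := by abel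
    have h3 := norm_sub_le (y - O) (y - x)
    rw [← this] at h3
    linarith
  have s0 : 0 < 2 * E * t := by positivity
  have m1 : y + t • (y - O) ∈ closedBall y (2 * E * t) := by
    rw [mem_closedBall, dist_eq_norm, add_sub_cancel_left, norm_smul, Real.norm_of_nonneg t0.le]
    nlinarith
  have m2 : y + t • (x - O) ∈ closedBall y (2 * E * t) := by
    rw [mem_closedBall, dist_eq_norm, add_sub_cancel_left, norm_smul, Real.norm_of_nonneg t0.le]
    nlinarith
  have sub : closedBall y (2 * E * t) ⊆ k.M :=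
    (closedBall_subset_closedBall (by nlinarith)).trans (hM y hy)
  have a1 := hn y hy _ s0 (by nlinarith) y (mem_closedBall_self s0.le) _ m1
  have a2 := hn y hy _ s0 (by nlinarith) _ m2 _ m1
  have e1 : y + t • (y - O) - (y + t • (x - O)) = t • (y - x) := by module
  rw [add_sub_cancel_left, (k.isN y hy).smul_nonneg t0.le] at a1
  rw [e1, (k.isN y hy).smul_nonneg t0.le] at a2
  have b1 := (hb y hy (y - O)).1
  have b2 := (hb y hy (y - x)).2
  have st : k.d O y + k.d y (y + t • (y - O)) = k.d O (y + t • (y - O)) := by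
    refine (k.pm.straight O hO y (k.ud.sub hy) _ (sub m1)).2 ⟨t / (1 + t), 1 / (1 + t),
      by positivity, by positivity, by field_simp; ring, ?_⟩
    have : (1 + t) ≠ 0 := by positivity
    ext <;> simp <;> field_simp <;> ring
  have tri := k.pm.triangle O hO _ (sub m2) _ (sub m1)
  have a3 := (abs_le.1 a1).1
  have a4 := (abs_le.1 a2).2
  have b3 : t * (c * (E - δ)) ≤ t * k.F y (y - O) :=
    mul_le_mul_of_nonneg_left (le_trans (by gcongr) b1) t0.le
  have b4 : t * k.F y (y - x) ≤ t * (C * δ) :=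
    mul_le_mul_of_nonneg_left (le_trans b2 (by gcongr)) t0.le
  have b5 := mul_le_mul_of_nonneg_left d3 t0.le
  nlinarith

theorem p_GLEV0 (hGGAPL : S_GGAPL) (hGPAR : S_GPAR) :
    S_GLEV0 := by
  intro k O hO x hx hne
  obtain ⟨κ, κ0, δ0, δ00, hex⟩ := GLEV0_expand k hO hne
  have e0 : x - O ≠ 0 := sub_ne_zero.2 hne
  have E0 : 0 < ‖x - O‖ := norm_pos_iff.2 e0
  set e := x - O with he
  have N0 : 0 < e.1 ^ 2 + e.2 ^ 2 := by
    by_contra h
    apply e0
    ext
    · simp only [Prod.fst_zero]; nlinarith [sq_nonneg e.1, sq_nonneg e.2]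
    · simp only [Prod.snd_zero]; nlinarith [sq_nonneg e.1, sq_nonneg e.2]
  refine ⟨4 * ‖e‖ / κ, by positivity, ?_⟩
  filter_upwards [Ioc_mem_nhdsGT δ00] with δ ⟨δp, δl⟩ Z
  classical
  have hmK : MeasurableSet (k.K ∩ closedBall x δ) :=
    k.ud.cpt.measurableSet.inter measurableSet_closedBall
  have hc : ContinuousOn (fun y => k.d O y) (k.K ∩ closedBall x δ) :=
    k.pm.cont.comp (f := fun y : P => (O, y)) (by fun_prop) fun y hy => ⟨hO, k.ud.sub hy.1⟩
  have hm := hc.measurable_piecewise (g := fun _ => (0 : ℝ)) continuousOn_const hmK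
  set A := {y ∈ k.K ∩ closedBall x δ | k.d O y ∈ toMeasurable volume Z} with hA
  have hAm : MeasurableSet A := by
    have : A = (k.K ∩ closedBall x δ) ∩ (k.K ∩ closedBall x δ).piecewise (fun y => k.d O y)
        (fun _ => (0 : ℝ)) ⁻¹' toMeasurable volume Z := by
      ext y
      constructor
      · rintro ⟨h1, h2⟩
        exact ⟨h1, by rw [mem_preimage, piecewise_eq_of_mem _ _ _ h1]; exact h2⟩
      · rintro ⟨h1, h2⟩
        rw [mem_preimage, piecewise_eq_of_mem _ _ _ h1] at h2
        exact ⟨h1, h2⟩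
    rw [this]
    exact hmK.inter (hm (measurableSet_toMeasurable _ _))
  have hpar : Continuous fun q : ℝ × ℝ => par x e q.1 q.2 := by unfold par; fun_prop
  have hS : MeasurableSet {q : ℝ × ℝ | par x e q.1 q.2 ∈ A} := hpar.measurable hAm
  set R := 2 * ‖e‖ * δ / (e.1 ^ 2 + e.2 ^ 2) with hR
  have slice : ∀ a : ℝ, volume (Prod.mk a ⁻¹' {q : ℝ × ℝ | par x e q.1 q.2 ∈ A})
      ≤ (Icc (-R) R).indicator (fun _ => volume Z / ENNReal.ofReal κ) a := by
    intro a
    by_cases ha : a ∈ Icc (-R) R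
    · rw [indicator_of_mem ha, ← measure_toMeasurable Z]
      have key : ∀ t ∈ Prod.mk a ⁻¹' {q : ℝ × ℝ | par x e q.1 q.2 ∈ A},
          ∀ t' ∈ Prod.mk a ⁻¹' {q : ℝ × ℝ | par x e q.1 q.2 ∈ A}, t < t' →
            κ * (t' - t) ≤ k.d O (par x e a t') - k.d O (par x e a t) := by
        intro t ht t' ht' hlt
        have h1 : ‖par x e a t - x‖ ≤ δ := by
          rw [← dist_eq_norm]; exact ht.1.2
        have h2 : ‖par x e a t' - x‖ ≤ δ := by
          rw [← dist_eq_norm]; exact ht'.1.2
        have e1 : par x e a t' = par x e a t + (t' - t) • e := by unfold par; module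
        have h3 : (t' - t) * ‖e‖ ≤ 2 * δ0 := by
          have h4 := norm_sub_le (par x e a t' - x) (par x e a t - x)
          have e2 : par x e a t' - x - (par x e a t - x) = (t' - t) • e := by rw [e1]; abel
          rw [e2, norm_smul, Real.norm_of_nonneg (by linarith)] at h4
          linarith
        rw [e1]
        exact hex _ ht.1.1 (h1.trans δl) _ (by linarith) h3
      refine hGGAPL.1 (fun t => k.d O (par x e a t)) _ _ κ κ0 (fun t ht t' ht' => ?_)
        (fun t ht => ht.2)
      rcases lt_trichotomy t t' with h | h | h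
      · rw [abs_sub_comm, abs_of_pos (by linarith), abs_sub_comm]
        exact (key t ht t' ht' h).trans (le_abs_self _)
      · simp [h]
      · rw [abs_of_pos (by linarith)]
        exact (key t' ht' t ht h).trans (le_abs_self _)
    · have : Prod.mk a ⁻¹' {q : ℝ × ℝ | par x e q.1 q.2 ∈ A} = ∅ := by
        apply eq_empty_of_forall_notMem
        intro t ht
        apply ha
        have h1 : ‖par x e a t - x‖ ≤ δ := by
          rw [← dist_eq_norm]; exact ht.1.2
        have u1 := (norm_fst_le (par x e a t - x)).trans h1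
        have u2 := (norm_snd_le (par x e a t - x)).trans h1
        have e1 : a * (e.1 ^ 2 + e.2 ^ 2)
            = e.1 * (par x e a t - x).2 - e.2 * (par x e a t - x).1 := by
          simp [par]; ring
        have h2 : |a| * (e.1 ^ 2 + e.2 ^ 2) ≤ 2 * ‖e‖ * δ := by
          rw [← abs_of_pos N0, ← abs_mul, e1]
          refine (abs_sub _ _).trans ?_
          rw [abs_mul, abs_mul]
          have v1 : |e.1| * |(par x e a t - x).2| ≤ ‖e‖ * δ :=
            mul_le_mul (norm_fst_le e) u2 (abs_nonneg _) E0.le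
          have v2 : |e.2| * |(par x e a t - x).1| ≤ ‖e‖ * δ :=
            mul_le_mul (norm_snd_le e) u1 (abs_nonneg _) E0.le
          linarith
        exact abs_le.1 ((le_div_iff₀ N0).2 h2)
      rw [this, measure_empty]
      exact zero_le
  calc volume {y ∈ k.K ∩ closedBall x δ | k.d O y ∈ Z} ≤ volume A :=
        measure_mono fun y hy => ⟨hy.1, subset_toMeasurable _ _ hy.2⟩
    _ = ENNReal.ofReal (e.1 ^ 2 + e.2 ^ 2) * ∫⁻ a,
          volume (Prod.mk a ⁻¹' {q : ℝ × ℝ | par x e q.1 q.2 ∈ A}) := by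
        rw [hGPAR x e e0 A, Measure.volume_eq_prod, Measure.prod_apply hS]
    _ ≤ ENNReal.ofReal (e.1 ^ 2 + e.2 ^ 2) * ∫⁻ a,
          (Icc (-R) R).indicator (fun _ => volume Z / ENNReal.ofReal κ) a := by
        gcongr with a
        exact slice a
    _ = ENNReal.ofReal (4 * ‖e‖ / κ * δ) * volume Z := by
        have R0 : 0 ≤ R := by positivity
        rw [lintegral_indicator measurableSet_Icc, setLIntegral_const, Real.volume_Icc,
          ENNReal.div_eq_inv_mul, ← ENNReal.ofReal_inv_of_pos κ0, mul_right_comm, ← mul_assoc,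
          ← ENNReal.ofReal_mul (by positivity), ← ENNReal.ofReal_mul N0.le]
        congr 2
        rw [hR]
        field_simp
        ring

end Pool.Agent.P.MP_874adf_gt.Gn
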