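import Pool.Agent.P.MP_874adf_gt.Gn.IfaceGa

/-! Step GPAR. -/

set_option autoImplicit false

namespace Pool.Agent.P.MP_874adf_gt.Gn

open Pool.Agent.P.MP_874adf_gt.Fs Ga Set Filter Topology Metric MeasureTheory

/-- the linear part of the frame -/
def gparL (e : P) : (ℝ × ℝ) →ₗ[ℝ] (ℝ × ℝ) where
  toFun q := (-e.2 * q.1 + e.1 * q.2, e.1 * q.1 + e.2 * q.2)
  map_add' a b := by ext <;> simp <;> ring
  map_smul' c a := by ext <;> simp <;> ring

theorem gpar_det (e : P) : LinearMap.det (gparL e) = -(e.1 ^ 2 + e.2 ^ 2) := by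
  rw [← LinearMap.det_toMatrix (Module.Basis.finTwoProd ℝ), Matrix.det_fin_two]
  simp [LinearMap.toMatrix_apply, gparL]
  ring

theorem p_GPAR :
    S_GPAR := by
  intro x e he A
  have h0 : 0 < e.1 ^ 2 + e.2 ^ 2 := by
    by_contra h
    refine he (Prod.ext ?_ ?_)
    · change e.1 = 0
      nlinarith [sq_nonneg e.1, sq_nonneg e.2]
    · change e.2 = 0
      nlinarith [sq_nonneg e.1, sq_nonneg e.2]
  have h1 : {q : ℝ × ℝ | par x e q.1 q.2 ∈ A} = gparL e ⁻¹' ((fun y => x + y) ⁻¹' A) := by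
    ext q
    have : par x e q.1 q.2 = x + gparL e q := by
      ext <;> simp [par, gparL] <;> ring
    simp only [mem_ofPred_eq, mem_preimage, this]
  rw [h1, Measure.addHaar_preimage_linearMap volume (by rw [gpar_det]; linarith),
    measure_preimage_add, gpar_det, abs_inv, abs_neg, abs_of_pos h0, ← mul_assoc,
    ← ENNReal.ofReal_mul h0.le, mul_inv_cancel₀ h0.ne', ENNReal.ofReal_one, one_mul]

end Pool.Agent.P.MP_874adf_gt.Gn
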