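import Pool.Agent.P.MP_874adf_gt.Gn.IfaceGa
import Pool.Agent.P.MP_874adf_gt.Gn.GaBase

/-! Step GRESEP. -/

set_option autoImplicit false

namespace Pool.Agent.P.MP_874adf_gt.Gn

open Pool.Agent.P.MP_874adf_gt.Fs Ga Set Filter Topology Metric MeasureTheory

/-- the pairs (datum, point) that are collinear with a datum of `w` -/
lemma GRESEP_cpt {f : Dat → P} (hf : Continuous f) {w w2 : Set Dat} {Q : Set P} (hw : IsCompact w)
    (h2 : IsCompact w2) (hQ : IsCompact Q) :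
    IsCompact {q : Dat × P | q.1 ∈ w2 ∧ q.2 ∈ Q ∧ ∃ D ∈ w, wed (f D - q.2) (f q.1 - q.2) = 0} := by
  have c : Continuous fun z : Dat × (Dat × P) => wed (f z.1 - z.2.2) (f z.2.1 - z.2.2) :=
    wed_cont.comp (((hf.comp continuous_fst).sub continuous_snd.snd).prodMk
      ((hf.comp continuous_snd.fst).sub continuous_snd.snd))
  have := ((hw.prod (h2.prod hQ)).inter_right (isClosed_eq c continuous_const (g := fun _ => 0))).image
    continuous_snd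
  convert this using 1
  ext q
  constructor
  · rintro ⟨a, b, D, m, e⟩
    exact ⟨(D, q), ⟨⟨m, a, b⟩, e⟩, rfl⟩
  · rintro ⟨z, ⟨⟨m, a, b⟩, e⟩, rfl⟩
    exact ⟨a, b, z.1, m, e⟩

lemma GRESEP_alg {a b c : P} (hc : c ≠ 0) (h1 : wed a c = 0) (h2 : wed b c = 0) : wed a b = 0 := by
  simp only [wed] at *
  by_cases e : c.1 = 0
  · have e2 : c.2 ≠ 0 := fun e2 => hc (Prod.ext e e2)
    apply mul_left_cancel₀ e2
    linear_combination (-a.2) * h2 + b.2 * h1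
  · apply mul_left_cancel₀ e
    linear_combination (-a.1) * h2 + b.1 * h1

theorem p_GRESEP (hGHVS : S_GHVS) :
    S_GRESEP := by
  intro k f v Q hf hs ha w1 s1 w2 s2 Q1 s3 h1 h2
  obtain ⟨Q2, s4, u1, t1, u2, t2, g1, g2, sep⟩ := hs w1 s1 Q1 s3 h1
  have p2 := g1.pc
  have c1 := GRESEP_cpt hf g1.good.cpt h2.good.cpt p2.cpt
  have c2 := GRESEP_cpt hf g2.good.cpt h2.good.cpt p2.cpt
  have dj : Disjoint
      {q : Dat × P | q.1 ∈ w2 ∧ q.2 ∈ Q2 ∧ ∃ D ∈ u1, wed (f D - q.2) (f q.1 - q.2) = 0}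
      {q : Dat × P | q.1 ∈ w2 ∧ q.2 ∈ Q2 ∧ ∃ D ∈ u2, wed (f D - q.2) (f q.1 - q.2) = 0} := by
    rw [Set.disjoint_left]
    rintro q ⟨a, b, D, m, e⟩ ⟨-, -, D', m', e'⟩
    refine sep q.2 b D m D' m' (GRESEP_alg (sub_ne_zero.2 fun e0 => ?_) e e')
    exact ha q.1 (s2 a) (e0 ▸ s3 (s4 b))
  obtain ⟨δ, δ0, hδ⟩ := dj.exists_cthickenings c1 c2.isClosed
  obtain ⟨w3, s5, Q3, s6, g3, dw, dQ⟩ := hGHVS k w2 Q2 (h2.mono p2 s4) δ δ0
  by_cases hz : Sep2 f u1 w3 Q3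
  · exact ⟨u1, t1, w3, s5, Q3, s6.trans s4, g1.mono g3.pc s6, g3, hz⟩
  · refine ⟨u2, t2, w3, s5, Q3, s6.trans s4, g2.mono g3.pc s6, g3, fun y hy D m D' m' e => ?_⟩
    simp only [Sep2, not_forall, not_not] at hz
    obtain ⟨y1, hy1, D1, m1, D2, m2, e1⟩ := hz
    refine (Set.disjoint_left.1 hδ : ∀ ⦃a⦄, _ → _) (a := (D', y)) ?_ (self_subset_cthickening _ ⟨s5 m', s6 hy, D, m, e⟩)
    refine mem_cthickening_of_dist_le _ (D2, y1) δ _ ⟨s5 m2, s6 hy1, D1, m1, e1⟩ ?_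
    rw [Prod.dist_eq]
    exact max_le (dw _ m' _ m2) (dQ _ hy _ hy1)

end Pool.Agent.P.MP_874adf_gt.Gn
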