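import Pool.Agent.P.MP_874adf_gt.Gn.IfaceF
import Pool.Agent.P.MP_874adf_gt.Gn.BasL

/-! Step LIPL. -/

set_option autoImplicit false

namespace Pool.Agent.P.MP_874adf_gt.Gn

open Pool.Agent.P.MP_874adf_gt.Fs Set Filter Topology Metric MeasureTheory

lemma lipl_pr (ζ θ : ℝ) (y y' : P) :
    pr θ y' - pr θ y = pr ζ (y' - y) + (ζ - θ) * (y'.2 - y.2) := by
  simp only [pr, Prod.fst_sub, Prod.snd_sub]
  ring

lemma lipl_neg {ζ γ : ℝ} {O y y' : P} (hγ : γ ≤ 1)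
    (hw : ∀ w ∈ segment ℝ y y', O.2 < w.2 ∧ |sl w O - ζ| ≤ γ) (h : y.2 < y'.2)
    (hu : |pr ζ (y' - y)| ≤ γ * (y'.2 - y.2)) : sp y y' ∩ sp O y ⊆
      {l | l.2 ∈ Icc (-(|ζ| + 1)) (|ζ| + 1) ∧ |l.1 - pr l.2 y| ≤ γ * (2 * (y'.2 - y.2))} := by
  rintro l ⟨h1, h2⟩
  obtain ⟨w, hws, e⟩ := sp_cross h1
  obtain ⟨w1, w2⟩ := hw w hws
  have e1 := pr_sl w1.ne' l.2
  have e2 := lipl_pr ζ l.2 y y'
  obtain ⟨u1, u2⟩ := abs_le.1 hu
  obtain ⟨s1, s2⟩ := abs_le.1 w2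
  have h0 : 0 < y'.2 - y.2 := sub_pos.2 h
  have w0 : 0 < w.2 - O.2 := sub_pos.2 w1
  have z1 := le_abs_self ζ
  have z2 := neg_abs_le ζ
  simp only [sp, mem_ofPred_eq] at h1 h2
  by_cases a : l.1 < pr l.2 y
  · have b : pr l.2 y' ≤ l.1 := not_lt.1 fun b => h1 (iff_of_true a b)
    have c : pr l.2 O ≤ l.1 := not_lt.1 fun c => h2 (iff_of_true c a)
    have t1 : l.2 - sl w O ≤ 0 := by
      by_contra hn
      nlinarith [mul_pos w0 (not_le.1 hn)]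
    have t2 : ζ - γ < l.2 := by
      by_contra hn
      nlinarith [mul_nonneg (sub_nonneg.2 (not_lt.1 hn)) h0.le]
    refine ⟨⟨by linarith, by linarith⟩, abs_le.2 ⟨?_, ?_⟩⟩
    · nlinarith [mul_nonneg (show 0 ≤ ζ + γ - l.2 by linarith) h0.le]
    · nlinarith
  · have b : l.1 < pr l.2 y' := by
      by_contra b
      exact h1 (iff_of_false a b)
    have c : l.1 < pr l.2 O := by
      by_contra c
      exact h2 (iff_of_false c a)
    have t1 : 0 < l.2 - sl w O := by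
      by_contra hn
      nlinarith [mul_nonneg w0.le (neg_nonneg.2 (not_lt.1 hn))]
    have t2 : l.2 < ζ + γ := by
      by_contra hn
      nlinarith [mul_nonneg (sub_nonneg.2 (not_lt.1 hn)) h0.le]
    have a' := not_lt.1 a
    refine ⟨⟨by linarith, by linarith⟩, abs_le.2 ⟨?_, ?_⟩⟩
    · nlinarith
    · nlinarith [mul_nonneg (show 0 ≤ l.2 - (ζ - γ) by linarith) h0.le]

lemma lipl_pos {ζ γ a b : ℝ} {O y y' : P} (hγ : γ ≤ 1) (hb : b ≤ ζ - 3)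
    (hw : ∀ w ∈ segment ℝ y y', O.2 < w.2 ∧ |sl w O - ζ| ≤ γ) (h : y.2 < y'.2)
    (hu : |pr ζ (y' - y)| ≤ γ * (y'.2 - y.2)) :
    {l : ℝ × ℝ | l.2 ∈ Icc a b ∧ |l.1 - pr l.2 (y + (y'.2 - y.2, 0))| ≤ (y'.2 - y.2) / 2} ⊆
      sp y y' ∩ sp O y' := by
  rintro l ⟨h1, h2⟩
  have h0 : 0 < y'.2 - y.2 := sub_pos.2 h
  have e0 : pr l.2 (y + (y'.2 - y.2, 0)) = pr l.2 y + (y'.2 - y.2) := by
    simp only [pr, Prod.fst_add, Prod.snd_add]
    ring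
  rw [e0] at h2
  obtain ⟨p1, p2⟩ := abs_le.1 h2
  have e2 := lipl_pr ζ l.2 y y'
  obtain ⟨u1, -⟩ := abs_le.1 hu
  have a1 : ¬ l.1 < pr l.2 y := not_lt.2 (by linarith)
  have a2 : l.1 < pr l.2 y' := by
    nlinarith [mul_nonneg (show 0 ≤ ζ - 3 - l.2 by linarith [h1.2]) h0.le,
      mul_nonneg (sub_nonneg.2 hγ) h0.le]
  have m : l ∈ sp y y' := fun e => a1 (e.2 a2)
  obtain ⟨w, hws, e⟩ := sp_cross m
  obtain ⟨w1, w2⟩ := hw w hws
  have e1 := pr_sl w1.ne' l.2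
  have a3 : ¬ l.1 < pr l.2 O := not_lt.2 (by
    nlinarith [mul_nonneg (sub_pos.2 w1).le
      (show 0 ≤ sl w O - l.2 by linarith [(abs_le.1 w2).1, h1.2])])
  exact ⟨m, fun e => a3 (e.2 a2)⟩

theorem p_LIPL :
    S_LIPL := by
  intro c R ζ
  have := c.crof.fin
  have hN : Neg (ln c.G) (min (1 - c.T0) (ζ - 3)) := by
    obtain ⟨z, hz, h⟩ := c.neg
    exact ⟨z, hz, (min_le_left _ _).trans_lt h⟩
  obtain ⟨C, hC, ρ1, hρ1, H1⟩ := R.cmp c.T0 (min (1 - c.T0) (ζ - 3) - 1) _ (by linarith) hN 2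
    one_le_two
  obtain ⟨η, hη, ρ2, hρ2, H2⟩ := R.lg (|ζ| + 1) (1 / (2 * C)) (by positivity)
  obtain ⟨ρ3, hρ3, H3⟩ := R.pos
  have r0 := c.rho0
  obtain ⟨ρ, hρ, r1, r2, r3, r4⟩ : ∃ ρ > (0 : ℝ), 4 * ρ ≤ ρ1 ∧ 4 * ρ ≤ ρ2 ∧ ρ ≤ ρ3 ∧ ρ ≤ c.ρ0 := by
    refine ⟨min (min (ρ1 / 4) (ρ2 / 4)) (min ρ3 c.ρ0), by positivity, ?_, ?_,
      (min_le_right _ _).trans (min_le_left _ _), (min_le_right _ _).trans (min_le_right _ _)⟩
    · linarith [(min_le_left _ (min ρ3 c.ρ0)).trans (min_le_left (ρ1 / 4) (ρ2 / 4))]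
    · linarith [(min_le_left _ (min ρ3 c.ρ0)).trans (min_le_right (ρ1 / 4) (ρ2 / 4))]
  refine ⟨min η 1, by positivity, ρ, hρ, min_le_right _ _, fun O hO y hy y' hy' hw h hu => ?_⟩
  have h0 : 0 < y'.2 - y.2 := sub_pos.2 h
  have hh : y'.2 - y.2 < 2 * ρ := by
    have a := (norm_snd_le y).trans_lt (mem_ball_zero_iff.1 hy)
    have b := (norm_snd_le y').trans_lt (mem_ball_zero_iff.1 hy')
    rw [Real.norm_eq_abs] at a b
    linarith [(abs_lt.1 a).1, (abs_lt.1 b).2]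
  have e := c.crof.diff hO (ball_subset_ball r4 hy) (ball_subset_ball r4 hy')
  have o1 := (hw y (left_mem_segment ℝ y y')).1
  rw [abs_of_nonneg (sub_nonneg.2 (c.crof.mono (o1.trans h).le)),
    abs_of_nonneg (sub_nonneg.2 (c.crof.mono o1.le))] at e
  have p0 := c.crof.mono h.le
  have n1 : c.μ.real (sp y y' ∩ sp O y) ≤ mT c.μ (|ζ| + 1) y (η * (2 * (y'.2 - y.2))) :=
    (measureReal_mono (lipl_neg (min_le_right _ _) hw h hu)).trans
      (mw_mono _ Subset.rfl _ (mul_le_mul_of_nonneg_right (min_le_left _ _) (by linarith)))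
  have n2 := H2 y (ball_subset_ball (by linarith) hy) (2 * (y'.2 - y.2)) (by linarith) (by linarith)
  have q1 := H1 y (ball_subset_ball (by linarith) hy) (y'.2 - y.2) h0 (by linarith)
    (y + (y'.2 - y.2, 0)) (by
      rw [mem_closedBall, dist_self_add_left, Prod.norm_def, norm_zero, Real.norm_eq_abs,
        abs_of_pos h0]
      exact max_le (by linarith) (by linarith))
  have q2 : mw c.μ (Icc (min (1 - c.T0) (ζ - 3) - 1) (min (1 - c.T0) (ζ - 3)))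
      (y + (y'.2 - y.2, 0)) ((y'.2 - y.2) / 2) ≤ c.μ.real (sp y y' ∩ sp O y') :=
    measureReal_mono (lipl_pos (min_le_right _ _) (min_le_right _ _) hw h hu)
  have m0 := H3 y (ball_subset_ball r3 hy) (2 * (y'.2 - y.2)) (by linarith)
  have q3 := q1.trans (mul_le_mul_of_nonneg_left q2 hC.le)
  have n3 : C * c.μ.real (sp y y' ∩ sp O y) ≤ mT c.μ c.T0 y (2 * (y'.2 - y.2)) / 2 := by
    calc _ ≤ C * (1 / (2 * C) * mT c.μ c.T0 y (2 * (y'.2 - y.2))) :=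
          mul_le_mul_of_nonneg_left (n1.trans n2) hC.le
      _ = _ := by field_simp
  have : c.μ.real (sp y y' ∩ sp O y) < c.μ.real (sp y y' ∩ sp O y') :=
    lt_of_mul_lt_mul_left (by linarith) hC.le
  linarith

end Pool.Agent.P.MP_874adf_gt.Gn
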