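import Pool.Agent.P.MP_874adf_gt.Gn.Iface0
import Pool.Agent.P.MP_874adf_gt.Fs.STRUCT

/-! Step STRUCTU. -/

set_option autoImplicit false

namespace Pool.Agent.P.MP_874adf_gt.Gn

open Pool.Agent.P.MP_874adf_gt.Fs Set Filter Topology Metric MeasureTheory

theorem structu_exit {M : Set P} {d : P → P → ℝ} (h : PM M d) {x : P} (hx : x ∈ M) :
    ∃ ρ > (0 : ℝ), ∃ m > (0 : ℝ), ball x ρ ⊆ M ∧ ∀ O ∈ ball x ρ, ∀ a < m, ∀ X ∈ M,
      d O X < a → ∀ v : P, v ≠ 0 → ∃ t > (0 : ℝ), X + t • v ∈ M ∧ d O (X + t • v) = a := by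
  obtain ⟨ρ, ρ0, hρ⟩ := nhds_basis_closedBall.mem_iff.1 (h.isOpen.mem_nhds hx)
  have hs : sphere x ρ ⊆ M := sphere_subset_closedBall.trans hρ
  have hb : closedBall x (ρ / 2) ⊆ M := (closedBall_subset_closedBall (by linarith)).trans hρ
  obtain ⟨⟨O0, Z⟩, ⟨hO0, hZ⟩, hm⟩ := ((isCompact_closedBall x (ρ / 2)).prod
    (isCompact_sphere x ρ)).exists_isMinOn (f := fun p : P × P => d p.1 p.2)
    ⟨(x, x + (ρ, 0)), mem_closedBall_self (by linarith), by
      simp [Prod.norm_def, abs_of_pos ρ0, ρ0.le]⟩ (h.cont.mono (prod_mono hb hs))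
  have hne : O0 ≠ Z := by
    rintro rfl
    have a1 : dist O0 x ≤ ρ / 2 := hO0
    have a2 : dist O0 x = ρ := hZ
    linarith
  refine ⟨ρ / 2, by linarith, d O0 Z, h.pos (hb hO0) (hs hZ) hne,
    ball_subset_closedBall.trans hb, fun O hO a ha X hX hd v hv => ?_⟩
  have hO' := ball_subset_closedBall hO
  have mO := hb hO'
  have hm' : ∀ y ∈ sphere x ρ, d O0 Z ≤ d O y := fun y hy => hm (a := (O, y)) ⟨hO', hy⟩
  have h1 : ‖X - x‖ < ρ := by
    by_contra hc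
    obtain ⟨t, ht, e⟩ := intermediate_value_Icc zero_le_one
      (f := fun t : ℝ => ‖O + t • (X - O) - x‖) (by fun_prop) (show ρ ∈ _ from ⟨by
        have : ‖O - x‖ < ρ / 2 := by rwa [mem_ball, dist_eq_norm] at hO
        simp only [zero_smul, add_zero]
        linarith, by simpa using hc⟩)
    have a1 := h.add mO hX ht.1 ht.2
    have a2 := h.nonneg (h.seg_mem mO hX ht.1 ht.2) hX
    have a3 := hm' _ (mem_sphere_iff_norm.2 e)
    linarith
  have n0 : 0 < ‖v‖ := norm_pos_iff.2 hv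
  obtain ⟨t₁, ht₁, e₁⟩ := intermediate_value_Icc (show 0 ≤ 2 * ρ / ‖v‖ by positivity)
    (f := fun t : ℝ => ‖X + t • v - x‖) (by fun_prop) (show ρ ∈ _ from ⟨by simpa using h1.le, by
      have a1 := norm_sub_norm_le ((2 * ρ / ‖v‖) • v) (x - X)
      rw [norm_smul, Real.norm_of_nonneg (by positivity), div_mul_cancel₀ _ n0.ne',
        norm_sub_rev x X, show (2 * ρ / ‖v‖) • v - (x - X) = X + (2 * ρ / ‖v‖) • v - x by abel]
        at a1
      linarith⟩)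
  have s₁ : X + t₁ • v ∈ sphere x ρ := mem_sphere_iff_norm.2 e₁
  have hm2 : ∀ t ∈ Icc 0 t₁, X + t • v ∈ M := fun t ht =>
    h.line_mem (r := 0) (by simpa using hX) (hs s₁) ht.1 ht.2
  obtain ⟨t, ht, e⟩ := intermediate_value_Icc ht₁.1 (h.contOn_line mO hm2)
    (show a ∈ _ from ⟨by simpa using hd.le, ha.le.trans (hm' _ s₁)⟩)
  refine ⟨t, lt_of_le_of_ne ht.1 ?_, hm2 t ht, e⟩
  rintro rfl
  simp at e
  linarith

theorem structu_circ {M : Set P} {d : P → P → ℝ} {O B : P} {a l r : ℝ} (hO : O ∈ M) (a0 : 0 < a)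
    (hf : Foc M d O a B l r) (hr : Ray M d O a) : Circ M d (O, B, l, r) a :=
  ⟨hO, hf.mem, a0, hf.l0, hf.l1, hf.r0, hf.r1, hf.dA, hf.dB, hf.on, hr⟩

theorem p_STRUCTU :
    S_STRUCTU := by
  intro M d h hap x hx
  obtain ⟨ρ, ρ0, m, m0, hb, hex⟩ := structu_exit h hx
  refine ⟨ρ, ρ0, m, m0, hb, fun O hO' a a0 ha => ?_⟩
  have hO := hb hO'
  have hex' := hex O hO' a ha
  have hray : Ray M d O a := hex' O hO (by rwa [h.self hO])
  obtain ⟨t, -, t1, t2⟩ := hray (1, 0) (by simp)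
  obtain ⟨A, hA, B, hB, r, hAB, r0, r1, e⟩ := hap O hO a a0 ⟨_, t1, t2⟩
  have hc : ∀ C ∈ M, d O C = a ↔ d A C = r * d B C := by
    intro C hC
    have h1 := Set.ext_iff.1 e C
    simp only [mem_ofPred_eq, hC, true_and] at h1
    rw [h1, h.symm _ hC _ hB]
    rcases eq_or_ne B C with rfl | hne
    · rw [h.self hB, div_zero, mul_zero]
      exact iff_of_false r0.ne (h.pos hA hB hAB).ne'
    · exact div_eq_iff (h.pos hB hC hne).ne'
  rcases r1.lt_or_gt with h1 | h1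
  · obtain ⟨l, hl⟩ := struct_foc h hO hA hB a0 hAB r0 h1 hex' hc
    exact ⟨(O, B, l, r), rfl, structu_circ hO a0 hl hray⟩
  · obtain ⟨l, hl⟩ := struct_foc h hO hB hA a0 hAB.symm (inv_pos.2 r0) (inv_lt_one_of_one_lt₀ h1)
      hex' fun C hC => by rw [hc C hC, eq_inv_mul_iff_mul_eq₀ r0.ne', eq_comm]
    exact ⟨(O, A, l, r⁻¹), rfl, structu_circ hO a0 hl hray⟩

end Pool.Agent.P.MP_874adf_gt.Gn
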